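import Pool.Agent.MP_098ecc_co.H97.Defs

set_option autoImplicit false

namespace Pool.Agent.MP_098ecc_co.H97

open Metric Filter Topology Set Function
open scoped BoundedContinuousFunction

/-- separability away from the zeros of `δ` -/
def Bez (P : Polynomial (Polynomial ℚ)) (δ : Polynomial ℚ) : Prop :=
  δ ≠ 0 ∧ ∀ t a : ℂ, ev P t a = 0 → Polynomial.aeval t δ ≠ 0 → ev (Polynomial.derivative P) t a ≠ 0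

/-- the relation holds on small holomorphic families -/
def Link (D : Dat) (P : Polynomial (Polynomial ℚ)) : Prop :=
  ∃ η > (0 : ℝ), ∀ t₁ > (0 : ℝ), ∀ X Y : ℂ → ℕ → ℂ,
    (∀ t ∈ ball (0 : ℂ) t₁, Eqs D t (X t) (Y t) ∧ Small η (X t) (Y t)) →
    (∀ i, DifferentiableOn ℂ (fun t => X t i) (ball 0 t₁)) →
    (∀ i, DifferentiableOn ℂ (fun t => Y t i) (ball 0 t₁)) →
    ∀ᶠ t in 𝓝 (0 : ℂ), ev P t (Af D.m (X t) (Y t)) = 0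

/-- holomorphic branch of solutions through a positive solution -/
structure Br (D : Dat) (p : Amb) (X Y : ℂ → ℕ → ℂ) (a b : ℝ) : Prop where
  ha : p.z₁ < a ∧ p.z₂⁻¹ < a
  hb : p.z₂ < b ∧ p.z₁⁻¹ < b
  x0 : X p.t = p.cX
  y0 : Y p.t = p.cY
  bd : ∃ C : ℝ, ∀ᶠ s in 𝓝 (p.t : ℂ), ∀ i, ‖X s i‖ ≤ C * a⁻¹ ^ i ∧ ‖Y s i‖ ≤ C * b⁻¹ ^ i
  diff : ∀ᶠ s in 𝓝 (p.t : ℂ), ∀ i, DifferentiableAt ℂ (fun s => X s i) s ∧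
    DifferentiableAt ℂ (fun s => Y s i) s
  eqs : ∀ᶠ s in 𝓝 (p.t : ℂ), Eqs D s (X s) (Y s)

/-- summable domination of all terms of the side map at the radius `z` -/
def Dom (m : ℕ) (L : Set ℕ) (f : ℕ → ℝ) (z : ℝ) : Prop :=
  ∃ I : ℕ → ℝ, Summable I ∧ ∀ l ∈ L, ∀ i : ℤ, cf f (m * l - 1) (l - i) ≤ I l * z ^ i

/-- output of the saddle point analysis near a positive critical sequence -/
structure Lap (m : ℕ) (R ρ : ℝ) (U : Set BS) (c κ : BS → ℂ) : Prop where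
  op : IsOpen U
  rho : 0 < ρ ∧ ρ < R
  dc : DifferentiableOn ℂ c U
  dκ : DifferentiableOn ℂ κ U
  cne : ∀ u ∈ U, c u ≠ 0 ∧ ‖c u‖ < ρ
  crit : ∀ u ∈ U, ser (flat m (un R u)) (c u) = 0
  simple : ∀ u ∈ U, deriv (ser (flat m (un R u))) (c u) ≠ 0
  loc : ∃ ε > (0 : ℝ), ∀ u ∈ U, ∀ w, ‖w - c u‖ < ε → ser (flat m (un R u)) w = 0 → w = c u
  fne : ∀ u ∈ U, ser (un R u) (c u) ≠ 0
  κne : ∀ u ∈ U, κ u ≠ 0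
  est : ∃ (C : ℝ) (κ₂ : BS → ℕ → ℂ), ∀ u ∈ U, ‖u‖ ≤ C ∧ ‖κ u‖ ≤ C ∧
    ‖(Bv m (un R u) (c u))⁻¹‖ ≤ C ∧ (∀ i, ‖κ₂ u i‖ ≤ C * ρ ^ i) ∧
    ∀ l : ℕ, 1 ≤ l →
      (∀ i : ℤ, ‖cf (un R u) (m * l - 1) (l - i) / Bv m (un R u) (c u) ^ l‖ ≤
        C * ‖c u‖ ^ i * wal (l - 1)) ∧
      ∀ i : ℕ, ‖l * (cf (un R u) (m * l - 1) (l - i) / Bv m (un R u) (c u) ^ l -
        κ u * wal (l - 1) * c u ^ i) - κ₂ u i * wal (l - 1)‖ ≤ C * ρ ^ i * (wal (l - 1) / l)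

section Abs
variable {κ Z F : Type} [Fintype κ] [DecidableEq κ] [NormedAddCommGroup Z] [NormedSpace ℂ Z]
  [NormedAddCommGroup F] [NormedSpace ℂ F]

/-- on shell defect -/
def EE (J : κ → ℂ → ℂ) (j σ : κ → (κ → ℂ) × Z → ℂ) (i : κ) (q : (κ → ℂ) × Z) : ℂ :=
  j i q - σ i q * J i (q.1 i)

noncomputable def w0 (J : κ → ℂ → ℂ) (q : (κ → ℂ) × Z) (db : κ → ℂ) : ℝ :=
  ∑ i, ‖db i‖ * (1 + ‖J i (q.1 i)‖)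

/-- on shell points -/
def Sh (U : Set Z) (H : (κ → ℂ) × Z → Z) (K : (κ → ℂ) × Z → F) (J : κ → ℂ → ℂ)
    (j σ : κ → (κ → ℂ) × Z → ℂ) : Set ((κ → ℂ) × Z) :=
  {q | q.1 ∈ ball 0 1 ∧ q.2 ∈ U ∧ H q = 0 ∧ K q = 0 ∧ ∀ i, EE J j σ i q = 0}

/-- data of the abstract end theorems -/
structure EndData (U : Set Z) (z₀ : Z) (H : (κ → ℂ) × Z → Z) (K : (κ → ℂ) × Z → F)
    (g : (κ → ℂ) × Z → ℂ) (J : κ → ℂ → ℂ) (j σ : κ → (κ → ℂ) × Z → ℂ) : Prop where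
  op : IsOpen U
  mem : z₀ ∈ U
  dJ : ∀ i, DifferentiableOn ℂ (J i) (ball 0 1)
  rH : Reg U H
  rK : Reg U K
  rg : Reg U g
  rj : ∀ i, Reg U (j i)
  rσ : ∀ i, Reg U (σ i)
  dH : DB U (w0 J) H
  dj : ∀ i, DB U (w0 J) (j i)
  dσ : ∀ i, DB U (w0 J) (σ i)
  inv : ∀ b ∈ closedBall (0 : κ → ℂ) 1, ∀ z ∈ U, H (b, z) = 0 → g (b, z) ≠ 0 →
    Injective (fderiv ℂ (fun z => H (b, z)) z) ∧ ∀ i, σ i (b, z) ≠ 0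
  iso : ∀ᶠ z in 𝓝[≠] z₀, ¬ (H (1, z) = 0 ∧ K (1, z) = 0)
  seq : ((1 : κ → ℂ), z₀) ∈
    closure {q | q ∈ Sh U H K J j σ ∧ g q ≠ 0 ∧ AccPt q (𝓟 (Sh U H K J j σ))}

/-- nondegenerate points up to the walls -/
def ND (U : Set Z) (H : (κ → ℂ) × Z → Z) (g : (κ → ℂ) × Z → ℂ) : Set ((κ → ℂ) × Z) :=
  {q | q.1 ∈ closedBall 0 1 ∧ q.2 ∈ U ∧ H q = 0 ∧ g q ≠ 0}

/-- extra identities for two walls -/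
structure End2 (U : Set Z) (H : (Bool → ℂ) × Z → Z) (K : (Bool → ℂ) × Z → F)
    (g : (Bool → ℂ) × Z → ℂ) (J : Bool → ℂ → ℂ) (j σ : Bool → (Bool → ℂ) × Z → ℂ) : Prop where
  s1 : ∀ i, ∃ μ : (Bool → ℂ) × Z → ℂ, ContinuousOn μ (ND U H g) ∧ (∀ q ∈ ND U H g, μ q ≠ 0) ∧
    ∀ q ∈ Sh U H K J j σ, g q ≠ 0 → ∀ dq, fderiv ℂ H q dq = 0 → dq.1 i = 0 →
      fderiv ℂ (EE J j σ i) q dq = μ q * dq.1 (!i)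
  s2 : ∃ Ψ ν : (Bool → ℂ) × Z → ℂ, Reg U Ψ ∧ (∀ q, K q = 0 → Ψ q = 0) ∧
    ContinuousOn ν (ND U H g) ∧ (∀ q ∈ ND U H g, ν q ≠ 0) ∧
    ∀ q ∈ ND U H g, q.1 ∈ ball 0 1 → ∀ dq, fderiv ℂ H q dq = 0 → dq.1 false = 0 →
      fderiv ℂ Ψ q dq = ν q * EE J j σ true q * dq.1 true

end Abs

section Mid
variable {κ V : Type} [Fintype κ] [DecidableEq κ] [NormedAddCommGroup V] [NormedSpace ℂ V]

noncomputable def EM (L : κ → Set ℕ) (j : κ → (κ → ℂ) × (ℂ × V) → ℂ) (σ : κ → ℂ → ℂ) (i : κ)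
    (q : (κ → ℂ) × (ℂ × V)) : ℂ := j i q - σ i q.2.1 * Jf (L i) (q.1 i)

noncomputable def w1 (L : κ → Set ℕ) (σ : κ → ℂ → ℂ) (q : (κ → ℂ) × (ℂ × V)) (db : κ → ℂ) : ℝ :=
  ∑ i, ‖db i‖ * (1 + ‖σ i q.2.1 * Jf (L i) (q.1 i)‖)

/-- finite dimensional chart at a wall point with the two variational identities -/
structure MidCore (U : Set (ℂ × V)) (z₀ : ℂ × V) (H : (κ → ℂ) × (ℂ × V) → V)
    (a : (κ → ℂ) × (ℂ × V) → ℂ) (j β Λ : κ → (κ → ℂ) × (ℂ × V) → ℂ) (σ : κ → ℂ → ℂ)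
    (L : κ → Set ℕ) : Prop where
  op : IsOpen U
  mem : z₀ ∈ U
  hL : ∀ i, 0 ∉ L i
  rH : Reg U H
  ra : Reg U a
  rj : ∀ i, Reg U (j i)
  rβ : ∀ i, Reg U (β i)
  rΛ : ∀ i, Reg U (Λ i)
  dσ : ∀ i, Differentiable ℂ (σ i)
  dH : DB U (w1 L σ) H
  da : DB U (w1 L σ) a
  dj : ∀ i, DB U (w1 L σ) (j i)
  dβ : ∀ i, DB U (w1 L σ) (β i)
  base : H (1, z₀) = 0
  βpos : ∀ i, ∃ r : ℝ, 0 < r ∧ β i (1, z₀) = r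
  Λneg : ∀ i, ∃ r : ℝ, r < 0 ∧ Λ i (1, z₀) = r
  i1 : ∀ b ∈ ball (0 : κ → ℂ) 1, ∀ z ∈ U, H (b, z) = 0 → ∀ db dv,
    fderiv ℂ H (b, z) (db, (0, dv)) = 0 →
    fderiv ℂ a (b, z) (db, (0, dv)) = ∑ i, β i (b, z) * EM L j σ i (b, z) * db i
  i2 : ∀ b ∈ ball (0 : κ → ℂ) 1, ∀ z ∈ U, H (b, z) = 0 → z.1 ≠ 0 →
    (∀ i, EM L j σ i (b, z) = 0) → ∀ dq, fderiv ℂ H (b, z) dq = 0 → ∀ i, dq.1 i = 0 →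
    z.1 * fderiv ℂ (EM L j σ i) (b, z) dq = Λ i (b, z) * dq.2.1

/-- a sequence of regular on shell branches converging to the wall point -/
structure Branch (U : Set (ℂ × V)) (z₀ : ℂ × V) (H : (κ → ℂ) × (ℂ × V) → V)
    (a : (κ → ℂ) × (ℂ × V) → ℂ) (j : κ → (κ → ℂ) × (ℂ × V) → ℂ) (σ : κ → ℂ → ℂ)
    (L : κ → Set ℕ) (P : Polynomial (Polynomial ℂ)) (γ : ℕ → ℂ → (κ → ℂ) × (ℂ × V))
    (τ : ℕ → ℝ) : Prop where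
  lim : Tendsto (fun n => γ n (τ n)) atTop (𝓝 (1, z₀))
  tpos : ∀ n, 0 < τ n
  mem : ∀ n, (γ n (τ n)).1 ∈ ball 0 1 ∧ (γ n (τ n)).2 ∈ U
  breal : ∀ n i, ∃ r : ℝ, 0 ≤ r ∧ (γ n (τ n)).1 i = r
  σreal : ∀ n i, ∃ r : ℝ, 0 < r ∧ σ i (τ n) = r
  reg : ∀ n, Injective (fderiv ℂ (fun v => H ((γ n (τ n)).1, (τ n, v))) (γ n (τ n)).2.2)
  sep : ∀ n, (Polynomial.derivative P).evalEval (τ n : ℂ) (a (γ n (τ n))) ≠ 0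
  curve : ∀ n, ∀ᶠ s in 𝓝 (τ n : ℂ), DifferentiableAt ℂ (γ n) s ∧ (γ n s).2.1 = s ∧
    H (γ n s) = 0 ∧ (∀ i, EM L j σ i (γ n s) = 0) ∧ P.evalEval s (a (γ n s)) = 0
  sgn : ∀ n i i', i ≠ i' → ∃ r : ℝ, r < 0 ∧ deriv (fun s => (γ n s).1 i) (τ n) = r

end Mid

/-- data of one side of a chart -/
structure Side (κ W : Type) [NormedAddCommGroup W] [NormedSpace ℂ W] where
  Rin : ℝ
  Rout : ℝ
  M : ℕ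
  k : ℕ
  L : Set ℕ
  I : Finset κ
  U : Set (ℂ × W × BS)
  out : (κ → ℂ) × (ℂ × W × BS) → BS
  aux : (κ → ℂ) × (ℂ × W × BS) → W
  c : ℂ × W × BS → ℂ
  j : W →L[ℂ] ℂ
  βf : ℂ × W × BS → ℂ
  vf : ℂ × W × BS → ℂ

section Side
variable {κ W : Type} [Fintype κ] [DecidableEq κ] [NormedAddCommGroup W] [NormedSpace ℂ W]

noncomputable def Side.E (S : Side κ W) (i : κ) (q : (κ → ℂ) × (ℂ × W × BS)) : ℂ :=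
  S.j q.2.2.1 - q.2.1 ^ S.M * Jf S.L (q.1 i)

noncomputable def Side.wt (S : Side κ W) (q : (κ → ℂ) × (ℂ × W × BS)) (db : κ → ℂ) : ℝ :=
  ∑ i ∈ S.I, ‖db i‖ * (1 + ‖q.2.1 ^ S.M * Jf S.L (q.1 i)‖)

/-- the variational form of a side, with a constant added to the output -/
noncomputable def Side.form (m : ℕ) (S : Side κ W) (q dq : (κ → ℂ) × (ℂ × W × BS))
    (ϖ c₀ dc₀ : ℂ) : ℂ → ℂ :=
  II m (un S.Rin q.2.2.2) (un S.Rin dq.2.2.2) (un S.Rout (S.out q) + Pi.single 0 c₀)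
    (un S.Rout (lineDeriv ℂ S.out q dq) + Pi.single 0 dc₀) (S.M * ϖ) (S.k * ϖ)

structure IsSide (m : ℕ) (S : Side κ W) : Prop where
  rad : 0 < S.Rin ∧ 0 < S.Rout ∧ S.Rout⁻¹ < S.Rin
  hL : 0 ∉ S.L
  op : IsOpen S.U
  rO : Reg S.U S.out
  rA : Reg S.U S.aux
  dec : ∃ C θ : ℝ, 0 ≤ θ ∧ θ < 1 ∧ ∀ b ∈ closedBall (0 : κ → ℂ) 1, ∀ P ∈ S.U, ∀ n,
    ‖S.out (b, P) n‖ ≤ C * θ ^ n
  dO : DB S.U S.wt S.out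
  dA : DB S.U S.wt S.aux
  dc : DifferentiableOn ℂ S.c S.U
  cin : ∀ P ∈ S.U, ‖S.c P‖ < S.Rout⁻¹
  dβ : DifferentiableOn ℂ S.βf S.U
  dv : DifferentiableOn ℂ S.vf S.U
  vne : ∀ P ∈ S.U, S.vf P ≠ 0
  sl : ∀ b ∈ closedBall (0 : κ → ℂ) 1, ∀ P ∈ S.U, ∀ db dP, (b ∈ ball 0 1 ∨ db = 0) →
    S.aux (b, P) = 0 → lineDeriv ℂ S.aux (b, P) (db, dP) = 0 → ∀ ϖ : ℂ, dP.1 = ϖ * P.1 →
    ∀ r, S.Rout⁻¹ < r → r < S.Rin → ∀ n : ℤ, n ≤ 0 →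
    lc r (fun z => S.form m (b, P) (db, dP) ϖ 0 0 z -
      (∑ i ∈ S.I, S.βf P * S.E i (b, P) * db i) * Kk (S.c P) z) n = 0
  val : ∀ i ∈ S.I, ∀ b ∈ closedBall (0 : κ → ℂ) 1, ∀ P ∈ S.U, ∀ db dP,
    (b ∈ ball 0 1 ∨ (db = 0 ∧ Sparse S.L)) → S.aux (b, P) = 0 →
    lineDeriv ℂ S.aux (b, P) (db, dP) = 0 → db i = 0 → S.E i (b, P) = 0 →
    ∀ ϖ : ℂ, dP.1 = ϖ * P.1 → ∀ c₀ dc₀ r, S.Rout⁻¹ < r → r < S.Rin →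
    lc r (fun z => S.form m (b, P) (db, dP) ϖ c₀ dc₀ z * (z / (z - S.c P))) 0 =
      S.vf P * lineDeriv ℂ (S.E i) (b, P) (db, dP)
  cz : ∀ i ∈ S.I, ∀ b ∈ closedBall (0 : κ → ℂ) 1, ∀ P ∈ S.U, ∀ dP, S.aux (b, P) = 0 →
    lineDeriv ℂ S.aux (b, P) (0, dP) = 0 → ser (un S.Rin dP.2.2) (S.c P) = 0
  inj : ∀ b ∈ closedBall (0 : κ → ℂ) 1, ∀ P ∈ S.U, ∀ dw, S.aux (b, P) = 0 →
    lineDeriv ℂ S.aux (b, P) (0, (0, dw, 0)) = 0 →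
    (∀ n, 1 ≤ n → lineDeriv ℂ S.out (b, P) (0, (0, dw, 0)) n = 0) → dw = 0

/-- near the point the side realises the plain side map -/
def IsReal (m : ℕ) (S : Side κ W) (τ₀ : ℂ) (w₀ : W) (u₀ : BS) (z B : ℝ) : Prop :=
  ∃ (w : ℂ × BS → W) (bb : BS → ℂ), w (τ₀, u₀) = w₀ ∧
    (∀ᶠ P in 𝓝 (τ₀, u₀), DifferentiableAt ℂ w P ∧ DifferentiableAt ℂ bb P.2 ∧
      (P.1, w P, P.2) ∈ S.U ∧ ∀ b ∈ ball (0 : κ → ℂ) 1, (∀ i ∈ S.I, b i = bb P.2) →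
        S.aux (b, (P.1, w P, P.2)) = 0 ∧ (∀ i ∈ S.I, S.E i (b, (P.1, w P, P.2)) = 0) ∧
        ∀ n : ℕ, un S.Rout (S.out (b, (P.1, w P, P.2))) n =
          P.1 ^ S.M * sT m (ind ℂ S.L) ((P.1 ^ S.k)⁻¹ • un S.Rin P.2) n) ∧
    (∀ i ∈ S.I, bb u₀ = B ∧ 0 ≤ B ∧ B < 1 ∧
      ∃ μ > (0 : ℝ), ∀ du, fderiv ℂ bb u₀ du = μ * ser (un S.Rin du) z) ∧
    ∀ b ∈ ball (0 : κ → ℂ) 1, (∀ i ∈ S.I, b i = B) → ∀ dw du,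
      lineDeriv ℂ S.aux (b, (τ₀, w₀, u₀)) (0, (0, dw, du)) = 0 → (∀ i ∈ S.I, S.j dw = 0) →
      dw = fderiv ℂ w (τ₀, u₀) (0, du) ∧ ∀ i ∈ S.I, fderiv ℂ bb u₀ du = 0

end Side

section Chart
variable {κ W₁ W₂ : Type} [Fintype κ] [DecidableEq κ] [NormedAddCommGroup W₁] [NormedSpace ℂ W₁]
  [NormedAddCommGroup W₂] [NormedSpace ℂ W₂]

/-- full and reduced unknowns -/
abbrev Ful (W₁ W₂ : Type) := W₁ × W₂ × BS × BS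
abbrev Red (W₁ W₂ : Type) (N : ℕ) := W₁ × W₂ × (Fin N → ℂ) × (Fin N → ℂ)

noncomputable def hd (N : ℕ) (e : Ful W₁ W₂) : Red W₁ W₂ N :=
  (e.1, e.2.1, fun i => e.2.2.1 i, fun i => e.2.2.2 i)

/-- argument of side one (input `X`) and of side two (input `Y`) -/
abbrev P₁ (τ : ℂ) (e : Ful W₁ W₂) : ℂ × W₁ × BS := (τ, e.1, e.2.2.1)
abbrev P₂ (τ : ℂ) (e : Ful W₁ W₂) : ℂ × W₂ × BS := (τ, e.2.1, e.2.2.2)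

structure Compat (m : ℕ) (S₁ : Side κ W₁) (S₂ : Side κ W₂) : Prop where
  hm : 0 < m
  s₁ : IsSide m S₁
  s₂ : IsSide m S₂
  r₁ : S₁.Rin = S₂.Rout
  r₂ : S₁.Rout = S₂.Rin
  M₁ : 1 ≤ S₁.M
  M₂ : S₂.M = S₁.M + S₁.k
  k₂ : S₂.k = 0
  hI : ∀ i, i ∈ S₁.I ↔ i ∉ S₂.I

/-- the full system -/
structure FS (S₁ : Side κ W₁) (S₂ : Side κ W₂) (b : κ → ℂ) (τ : ℂ) (e : Ful W₁ W₂) : Prop where
  m₁ : P₁ τ e ∈ S₁.U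
  m₂ : P₂ τ e ∈ S₂.U
  a₁ : S₁.aux (b, P₁ τ e) = 0
  a₂ : S₂.aux (b, P₂ τ e) = 0
  hx : ∀ n, e.2.2.1 n = S₂.out (b, P₂ τ e) n + if n = 0 then τ ^ S₂.M else 0
  y0 : e.2.2.2 0 = 1
  hy : ∀ n, 1 ≤ n → e.2.2.2 n = S₁.out (b, P₁ τ e) n

/-- the linearised system -/
structure TS (S₁ : Side κ W₁) (S₂ : Side κ W₂) (b : κ → ℂ) (τ : ℂ) (e : Ful W₁ W₂)
    (db : κ → ℂ) (dτ : ℂ) (de : Ful W₁ W₂) : Prop where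
  a₁ : lineDeriv ℂ S₁.aux (b, P₁ τ e) (db, P₁ dτ de) = 0
  a₂ : lineDeriv ℂ S₂.aux (b, P₂ τ e) (db, P₂ dτ de) = 0
  hx : ∀ n, de.2.2.1 n = lineDeriv ℂ S₂.out (b, P₂ τ e) (db, P₂ dτ de) n +
    if n = 0 then S₂.M * τ ^ (S₂.M - 1) * dτ else 0
  y0 : de.2.2.2 0 = 0
  hy : ∀ n, 1 ≤ n → de.2.2.2 n = lineDeriv ℂ S₁.out (b, P₁ τ e) (db, P₁ dτ de) n

/-- finite dimensional reduction of the full system -/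
structure IsChart (S₁ : Side κ W₁) (S₂ : Side κ W₂) (τ₀ : ℂ) (e₀ : Ful W₁ W₂) (N : ℕ)
    (U : Set (ℂ × Red W₁ W₂ N)) (T : (κ → ℂ) × (ℂ × Red W₁ W₂ N) → Ful W₁ W₂)
    (H : (κ → ℂ) × (ℂ × Red W₁ W₂ N) → Red W₁ W₂ N) : Prop where
  op : IsOpen U
  mem : (τ₀, hd N e₀) ∈ U
  rT : Reg U T
  rH : Reg U H
  base : T (1, (τ₀, hd N e₀)) = e₀
  head : ∀ b ∈ closedBall (0 : κ → ℂ) 1, ∀ z ∈ U, hd N (T (b, z)) = z.2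
  sol : ∀ b ∈ closedBall (0 : κ → ℂ) 1, ∀ z ∈ U, H (b, z) = 0 → FS S₁ S₂ b z.1 (T (b, z))
  uniq : ∀ᶠ P in 𝓝 (τ₀, e₀), (P.1, hd N P.2) ∈ U ∧ ∀ b ∈ closedBall (0 : κ → ℂ) 1,
    FS S₁ S₂ b P.1 P.2 → T (b, (P.1, hd N P.2)) = P.2 ∧ H (b, (P.1, hd N P.2)) = 0
  tan : ∀ b ∈ closedBall (0 : κ → ℂ) 1, ∀ z ∈ U, H (b, z) = 0 → ∀ db dz,
    (b ∈ ball 0 1 ∨ db = 0) → lineDeriv ℂ H (b, z) (db, dz) = 0 →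
    hd N (lineDeriv ℂ T (b, z) (db, dz)) = dz.2 ∧
    TS S₁ S₂ b z.1 (T (b, z)) db dz.1 (lineDeriv ℂ T (b, z) (db, dz))

/-- the wall data read in a chart -/
noncomputable def cA {Z : Type} (m : ℕ) (S₁ : Side κ W₁) (S₂ : Side κ W₂) (T : Z → Ful W₁ W₂)
    (q : Z) : ℂ := Af m (un S₁.Rin (T q).2.2.1) (un S₂.Rin (T q).2.2.2)
noncomputable def cj {Z : Type} (S₁ : Side κ W₁) (S₂ : Side κ W₂) (T : Z → Ful W₁ W₂) (i : κ)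
    (q : Z) : ℂ := if i ∈ S₂.I then S₂.j (T q).2.1 else S₁.j (T q).1
noncomputable def cσ (S₁ : Side κ W₁) (S₂ : Side κ W₂) (i : κ) (τ : ℂ) : ℂ :=
  τ ^ (if i ∈ S₂.I then S₂.M else S₁.M)
def cL (S₁ : Side κ W₁) (S₂ : Side κ W₂) (i : κ) : Set ℕ := if i ∈ S₂.I then S₂.L else S₁.L

/-- positivity of the wall constants at the base point -/
def BasePos {W : Type} [NormedAddCommGroup W] [NormedSpace ℂ W] (S : Side κ W)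
    (P : ℂ × W × BS) (g : BS) : Prop :=
  ∀ i ∈ S.I, (∃ r : ℝ, 0 < r ∧ S.βf P = r) ∧ (∃ r : ℝ, 0 < r ∧ S.vf P = r) ∧
    ∀ r₀, S.Rout⁻¹ < r₀ → r₀ < S.Rin →
      ∃ r : ℝ, 0 < r ∧ zv r₀ (un S.Rin P.2.2) (un S.Rout g) (S.c P) = r

end Chart

/-- one side in probabilistic normalisation -/
structure Nz (m : ℕ) (L : Set ℕ) (t : ℝ) (p : ℕ → ℝ) (c : ℤ → ℝ) : Prop where
  nn : ∀ i, 0 ≤ p i
  p0 : 0 < p 0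
  sum : Summable p
  crit : HasSum (flat m p) 0
  adm : Adm L ((∑' i, p i) ^ m)
  hc : ∀ i, c i = t * sT m (ind ℝ L) p i

/-- positive solutions in probabilistic normalisation, `lam = w₁ / w₂` -/
structure NP (D : Dat) (t lam : ℝ) (p₁ p₂ : ℕ → ℝ) (c₁ c₂ : ℤ → ℝ) : Prop where
  tpos : 0 < t
  lpos : 0 < lam
  n₁ : Nz D.m D.L₁ t p₁ c₁
  n₂ : Nz D.m D.L₂ t p₂ c₂
  h₁ : ∀ i : ℕ, 1 ≤ i → p₁ i = c₂ i * lam * (lam ^ D.m)⁻¹ ^ i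
  h₂ : ∀ i : ℕ, 1 ≤ i → p₂ i = c₁ i * lam * (lam ^ D.m)⁻¹ ^ i
  m₁ : p₁ 0 / lam = c₂ 0 + t / p₂ 0
  m₂ : p₂ 0 / lam = c₁ 0 + t / p₁ 0

/-- the two functions in the original variable -/
noncomputable def xw (m : ℕ) (X : ℕ → ℂ) (w : ℂ) : ℂ := w * ser X (w ^ m)⁻¹
noncomputable def yw (m : ℕ) (Y : ℕ → ℂ) (w : ℂ) : ℂ := ser Y (w ^ m) / w

/-- exit of a partner through a natural boundary -/
def Ex (B : Set ℂ) (x y : ℂ → ℂ) (w : ℕ → ℂ) (v : ℂ) : Prop :=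
  ∀ ε > (0 : ℝ), ∃ (V : Set ℂ) (ψ : ℂ → ℂ), V ⊆ ball v ε ∧ IsOpen V ∧ IsPreconnected V ∧
    DifferentiableOn ℂ ψ V ∧ MapsTo ψ V B ∧ (∀ s ∈ V, y (ψ s) = s) ∧
    (∃ᶠ n in atTop, w n ∈ ψ '' V) ∧ ¬ ∃ C : ℝ, ∀ s ∈ V, ‖x (ψ s)‖ ≤ C

/-- open annulus -/
def Ann (r₁ r₂ : ℝ) : Set ℂ := {z | r₁ < ‖z‖ ∧ ‖z‖ < r₂}

/-- the family `1 + (1 - 2 / w) z + z ^ 2 / w ^ 2` -/
noncomputable def Yq (w : ℂ) : ℕ → ℂ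
  | 0 => 1
  | 1 => 1 - 2 / w
  | 2 => 1 / w ^ 2
  | _ => 0

end Pool.Agent.MP_098ecc_co.H97
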