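import Pool.Agent.MP_098ecc_co.H97.Slb

set_option autoImplicit false

namespace Pool.Agent.MP_098ecc_co.H97

open Metric Filter Topology Set Function
open scoped BoundedContinuousFunction

theorem asm_flat_diff {R : ℝ} {f : ℕ → ℂ} (hf : Bnd R f) (m : ℕ) :
    DifferentiableOn ℂ (ser (flat m f)) (ball 0 R) := by
  intro z hz
  rw [mem_ball_zero_iff] at hz
  obtain ⟨ρ, h1, h2⟩ := exists_between hz
  exact ((hf.flat m ((norm_nonneg z).trans_lt h1) h2).diff.differentiableAt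
    (isOpen_ball.mem_nhds (mem_ball_zero_iff.2 h1))).differentiableWithinAt

theorem asm_sub {a b : ℝ} : Ann a b ⊆ ball 0 b := fun _ hz => mem_ball_zero_iff.2 hz.2

theorem asm_inv_lt {a b : ℝ} (ha : 0 < a) {z : ℂ} (hz : z ∈ Ann a⁻¹ b) : ‖z⁻¹‖ < a := by
  rw [norm_inv]
  exact inv_lt_of_inv_lt₀ ha hz.1

theorem asm_comp_inv {a b : ℝ} (ha : 0 < a) {F : ℂ → ℂ} (hF : DifferentiableOn ℂ F (ball 0 a)) :
    DifferentiableOn ℂ (fun z => F z⁻¹) (Ann a⁻¹ b) :=
  hF.comp (differentiableOn_inv.mono fun _ hz => laur_ann_ne (inv_pos.2 ha).le hz)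
    fun _ hz => mem_ball_zero_iff.2 (asm_inv_lt ha hz)

theorem asm_in {R : ℝ} {f : ℕ → ℂ} (hf : Bnd R f) (m : ℕ) {z : ℂ} (hz : ‖z‖ < R) :
    ∃ d, HasDerivAt (ser f) d z ∧ ser (flat m f) z = m * z * d - ser f z :=
  ⟨_, (hf.diff.differentiableAt (isOpen_ball.mem_nhds (mem_ball_zero_iff.2 hz))).hasDerivAt,
    hf.ser_flat m hz⟩

theorem asm_out {R : ℝ} {g : ℕ → ℂ} (hg : Bnd R g) (m : ℕ) {z : ℂ} (h0 : z ≠ 0)
    (hz : ‖z⁻¹‖ < R) : ∃ d, HasDerivAt (fun z => ser g z⁻¹) d z ∧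
      ser (flat m g) z⁻¹ = -(m * z * d) - ser g z⁻¹ := by
  obtain ⟨d, h1, h2⟩ := asm_in hg m hz
  refine ⟨_, h1.comp z (hasDerivAt_inv h0), ?_⟩
  rw [h2]
  field_simp

theorem asm_Kk_diff {a b : ℝ} {c : ℂ} (hc : ‖c‖ < a) : DifferentiableOn ℂ (Kk c) (Ann a b) := by
  refine DifferentiableOn.div (by fun_prop) (by fun_prop) fun z hz => pow_ne_zero _ fun e => ?_
  rw [sub_eq_zero] at e
  exact (hc.trans hz.1).ne (by rw [e])

theorem asm_Kk_lc {r : ℝ} {c : ℂ} (hc : ‖c‖ < r) (n : ℤ) (hn : 0 ≤ n) : lc r (Kk c) n = 0 := by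
  have hr : 0 < r := (norm_nonneg c).trans_lt hc
  have h := (lc_expand (laur_zpow_cont hr (-n)) hc).2
  have e : (fun k : ℕ => (k : ℂ) * c ^ k * lc r (fun z => z ^ (-n)) k) = fun _ => 0 := by
    funext k
    rcases Nat.eq_zero_or_pos k with rfl | hk
    · simp
    · have := lc_zpow_mul hr (-n) (fun _ => 1) k
      simp only [mul_one] at this
      rw [this, laur_lc_one hr, if_neg (by omega), mul_zero]
  rw [e] at h
  rw [hasSum_zero.unique h, lc_zpow_mul hr]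
  simp

theorem asm_zero {r₁ r₂ r : ℝ} (h0 : 0 ≤ r₁) {F : ℂ → ℂ} (hF : DifferentiableOn ℂ F (Ann r₁ r₂))
    (h : r ∈ Ioo r₁ r₂) (hz : ∀ n, lc r F n = 0) : ∀ z ∈ Ann r₁ r₂, F z = 0 := by
  intro z hz'
  rw [(laurent h0 hF h).2.2 z hz']
  simp [hz, ser]

theorem asm_val {r₁ r₂ r : ℝ} (h0 : 0 ≤ r₁) {F : ℂ → ℂ} (hF : DifferentiableOn ℂ F (Ann r₁ r₂))
    (h : r ∈ Ioo r₁ r₂) (hz : ∀ n : ℤ, n ≤ 0 → lc r F n = 0) {c : ℂ} (hc : c ∈ Ann r₁ r) :
    F c = lc r (fun z => F z * (z / (z - c))) 0 := by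
  have h1 := (lc_expand (hF.continuousOn.mono (laur_sph h)) hc.2).1
  rw [(laurent h0 hF h).2.2 c ⟨hc.1, hc.2.trans h.2⟩, ← h1.tsum_eq,
    h1.summable.tsum_eq_zero_add]
  have e : (fun n : ℕ => lc r F (-(n : ℤ))) = fun _ => 0 := funext fun n => hz _ (by omega)
  rw [e, hz ((0 : ℕ) : ℤ) le_rfl, ser, ser, ← tsum_mul_left]
  simp only [zero_mul, tsum_zero, add_zero, mul_zero, zero_add]
  exact tsum_congr fun n => by ring

theorem asm_congr {f g : ℕ → ℂ} {s : ℂ} (h : HasSum f s) (e : ∀ n, g n = f n) :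
    HasSum g s := by rwa [funext e]

theorem asm {m : ℕ} {X dX Y dY : ℕ → ℂ} {a b r : ℝ} (ha : 0 < a) (h1 : a⁻¹ < r) (h2 : r < b)
    (hX : Bnd a X) (hdX : Bnd a dX) (hY : Bnd b Y) (hdY : Bnd b dY) {ϖ ϖ' s₁ s₂ c₁ c₂ : ℂ}
    (hc₁ : ‖c₁‖ < b⁻¹) (hc₂ : ‖c₂‖ < a⁻¹)
    (H₂ : ∀ n : ℤ, n ≤ 0 → lc r (fun z => II m Y dY X dX (ϖ + ϖ') 0 z - s₂ * Kk c₂ z) n = 0)
    (H₁ : ∀ n : ℤ, n < 0 → lc r⁻¹ (fun z => II m X dX Y dY ϖ ϖ' z - s₁ * Kk c₁ z) n = 0) :
    (ϖ = 0 → ϖ' = 0 → lc r (fun z => ser Y z * ser X z⁻¹ * Om m Y dY X dX z) 0 =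
        s₁ * zv r⁻¹ X Y c₁ + s₂ * zv r Y X c₂ ∧
      (s₁ = 0 → s₂ = 0 → ∀ z ∈ Ann a⁻¹ b, Om m Y dY X dX z = 0)) ∧
    (s₁ = 0 → s₂ = 0 →
      (∀ c : ℂ, ‖c‖ < r → lc r (fun z => II m Y dY X dX (ϖ + ϖ') 0 z * (z / (z - c))) 0 =
        -ϖ * m * zv r Y X c) ∧
      (∀ c : ℂ, ‖c‖ < r⁻¹ → lc r⁻¹ (fun z => II m X dX Y dY ϖ ϖ' z * (z / (z - c))) 0 =
        -ϖ * m * zv r⁻¹ X Y c) ∧
      (∀ c ∈ Ann a⁻¹ r, II m Y dY X dX (ϖ + ϖ') 0 c = -ϖ * m * zv r Y X c) ∧
      ∀ c ∈ Ann b⁻¹ r⁻¹, II m X dX Y dY ϖ ϖ' c = -ϖ * m * zv r⁻¹ X Y c) := by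
  have ha' : 0 < a⁻¹ := inv_pos.2 ha
  have hr : 0 < r := ha'.trans h1
  have hb : 0 < b := hr.trans h2
  have hb' : 0 < b⁻¹ := inv_pos.2 hb
  have hr' : 0 < r⁻¹ := inv_pos.2 hr
  have m₂ : r ∈ Ioo a⁻¹ b := ⟨h1, h2⟩
  have m₁ : r⁻¹ ∈ Ioo b⁻¹ a := ⟨inv_strictAnti₀ hr h2, inv_lt_of_inv_lt₀ ha h1⟩
  have d₂ := II_diff (m := m) ha hY hdY hX hdX (ϖ + ϖ') 0
  have d₁ := II_diff (m := m) hb hX hdX hY hdY ϖ ϖ'
  have dZ : DifferentiableOn ℂ (fun z => ser Y z * ser X z⁻¹) (Ann a⁻¹ b) :=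
    (hY.diff.mono asm_sub).mul (asm_comp_inv ha hX.diff)
  have dZ' : DifferentiableOn ℂ (fun z => ser X z * ser Y z⁻¹) (Ann b⁻¹ a) :=
    (hX.diff.mono asm_sub).mul (asm_comp_inv hb hY.diff)
  have cZ := dZ.continuousOn.mono (laur_sph m₂)
  have cZ' := dZ'.continuousOn.mono (laur_sph m₁)
  have c₂' := d₂.continuousOn.mono (laur_sph m₂)
  have c₁' := d₁.continuousOn.mono (laur_sph m₁)
  refine ⟨fun e e' => ?_, fun e e' => ?_⟩
  · subst e e'
    have dK₂ : DifferentiableOn ℂ (Kk c₂) (Ann a⁻¹ b) := asm_Kk_diff hc₂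
    have dK₁ : DifferentiableOn ℂ (fun z => Kk c₁ z⁻¹) (Ann a⁻¹ b) :=
      (asm_Kk_diff (b := a) hc₁).comp (differentiableOn_inv.mono fun _ hz => laur_ann_ne ha'.le hz)
        fun z hz => ⟨by
          rw [norm_inv]
          exact inv_strictAnti₀ (ha'.trans hz.1) hz.2, asm_inv_lt ha hz⟩
    have cK₂ := (dK₂.const_mul s₂).continuousOn.mono (laur_sph m₂)
    have cK₁ := (dK₁.const_mul s₁).continuousOn.mono (laur_sph m₂)
    have key := asm_zero ha'.le ((d₂.sub (dK₂.const_mul s₂)).sub (dK₁.const_mul s₁)) m₂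
      fun n => by
        change lc r (fun z => II m Y dY X dX (0 + 0) 0 z - s₂ * Kk c₂ z - s₁ * Kk c₁ z⁻¹) n = 0
        rcases le_or_gt n 0 with hn | hn
        · rw [lc_sub hr (c₂'.fun_sub cK₂) cK₁, H₂ n hn, lc_const_mul, lc_inv hr]
          simp only [inv_inv]
          rw [asm_Kk_lc (hc₁.trans m₁.1) _ (by omega)]
          simp
        · simp only [sub_right_comm _ (s₂ * _)]
          rw [lc_sub hr (c₂'.fun_sub cK₁) cK₂, lc_const_mul, asm_Kk_lc (hc₂.trans h1) _ hn.le,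
            lc_inv hr, mul_zero, sub_zero]
          refine (lc_congr hr' (fun z _ => ?_) _).trans (H₁ (-n) (by omega))
          simp only [II, Om, inv_inv]
          ring
    have key' : ∀ z ∈ Ann a⁻¹ b, Om m Y dY X dX z = s₁ * Kk c₁ z⁻¹ + s₂ * Kk c₂ z := by
      intro z hz
      have := key z hz
      simp only [Pi.sub_apply, II] at this
      linear_combination this
    refine ⟨?_, fun e e' z hz => by rw [key' z hz, e, e']; simp⟩
    rw [zv, zv, lc_inv hr' _ 0, inv_inv, neg_zero, ← lc_const_mul, ← lc_const_mul, ← lc_add hr]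
    · refine lc_congr hr (fun z hz => ?_) _
      rw [key' z (laur_sph m₂ (mem_sphere_zero_iff_norm.2 hz)), inv_inv]
      ring
    · simp only [inv_inv]
      refine continuousOn_const.fun_mul (ContinuousOn.fun_mul ?_
        (dK₁.continuousOn.mono (laur_sph m₂)))
      simpa only [mul_comm] using cZ
    · exact continuousOn_const.fun_mul (cZ.fun_mul (dK₂.continuousOn.mono (laur_sph m₂)))
  · subst e e'
    simp only [zero_mul, sub_zero] at H₁ H₂
    have rel : ∀ n : ℤ, lc r (II m Y dY X dX (ϖ + ϖ') 0) n -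
        lc r⁻¹ (II m X dX Y dY ϖ ϖ') (-n) =
        -ϖ * m * (n * lc r (fun z => ser Y z * ser X z⁻¹) n) := by
      intro n
      have c₃ := laur_inv_cont hr' c₁'
      rw [inv_inv] at c₃
      rw [lc_inv hr' _ (-n), inv_inv, neg_neg, ← lc_sub hr c₂' c₃, ← lc_deriv ha'.le dZ m₂,
        ← lc_const_mul]
      refine lc_congr hr (fun z hz => ?_) _
      have hz' := laur_sph m₂ (mem_sphere_zero_iff_norm.2 hz)
      obtain ⟨y', hy, ey⟩ := asm_in hY m hz'.2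
      obtain ⟨x', hx, ex⟩ := asm_out hX m (laur_ne hr hz) (asm_inv_lt ha hz')
      rw [(hy.fun_mul hx).deriv]
      simp only [II, Om, inv_inv, ey, ex]
      ring
    have B0 : ∀ n : ℤ, n ≤ 0 → lc r⁻¹ (II m X dX Y dY ϖ ϖ') n = 0 := by
      intro n hn
      rcases hn.lt_or_eq with hn | rfl
      · exact H₁ n hn
      · have := rel 0
        rw [H₂ 0 le_rfl] at this
        simpa using this
    have P₂ : ∀ c : ℂ, ‖c‖ < r →
        lc r (fun z => II m Y dY X dX (ϖ + ϖ') 0 z * (z / (z - c))) 0 = -ϖ * m * zv r Y X c := by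
      intro c hc
      refine (lc_expand c₂' hc).1.unique ?_
      refine asm_congr ((lc_expand cZ hc).2.mul_left (-ϖ * m)) fun n => ?_
      have := rel n
      rw [B0 _ (by omega), sub_zero] at this
      rw [this]
      push_cast
      ring
    have P₁ : ∀ c : ℂ, ‖c‖ < r⁻¹ →
        lc r⁻¹ (fun z => II m X dX Y dY ϖ ϖ' z * (z / (z - c))) 0 = -ϖ * m * zv r⁻¹ X Y c := by
      intro c hc
      refine (lc_expand c₁' hc).1.unique ?_
      refine asm_congr ((lc_expand cZ' hc).2.mul_left (-ϖ * m)) fun n => ?_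
      have := rel (-n)
      rw [H₂ _ (by omega), neg_neg, lc_inv hr, neg_neg] at this
      simp only [inv_inv, mul_comm (ser Y _)] at this
      push_cast at this
      linear_combination -c ^ n * this
    exact ⟨P₂, P₁, fun c hc => (asm_val ha'.le d₂ m₂ H₂ hc).trans (P₂ c hc.2),
      fun c hc => (asm_val hb'.le d₁ m₁ B0 hc).trans (P₁ c hc.2)⟩

theorem asm_bnd {ρ : ℝ} (h0 : 0 < ρ) {f : ℕ → ℂ} (h : Summable fun n => ‖f n * (ρ : ℂ) ^ n‖) :
    Bnd ρ f :=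
  laur_bnd_of_sum h0 (by simpa [abs_of_pos h0] using h)

theorem asm_af {m : ℕ} {X Y : ℕ → ℂ} {a b r : ℝ} (ha : 0 < a) (h1 : a⁻¹ < r) (h2 : r < b)
    (hX : Bnd a X) (hY : Bnd b Y) : Af m X Y =
      2⁻¹ * lc r (fun z => ser Y z ^ 2 * (ser X z⁻¹ * ser (flat m X) z⁻¹)) 0 := by
  have hr : 0 < r := (inv_pos.2 ha).trans h1
  have hr' : 0 < r⁻¹ := inv_pos.2 hr
  obtain ⟨b', hb1, hb2⟩ := exists_between h2
  obtain ⟨a', ha1, ha2⟩ := exists_between (inv_lt_of_inv_lt₀ ha h1)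
  obtain ⟨a'', ha3, ha4⟩ := exists_between ha2
  have hb0 := hr.trans hb1
  have ha0 := hr'.trans ha1
  have hF := hX.flat m (ha0.trans ha3) ha4
  have s1 : ∀ z : ℂ, ‖z‖ < a'' → _ := fun z hz =>
    laur_mul (PowerSeries.mk X) (PowerSeries.mk (flat m X)) z
      (by simpa only [PowerSeries.coeff_mk] using hX.summable (hz.trans ha4))
      (by simpa only [PowerSeries.coeff_mk] using hF.summable hz)
  have h := lc_pair ha0 (inv_lt_of_inv_lt₀ hr ha1) hb1
    (asm_bnd hb0 (laur_pow (hY.summable (z := b') (by simpa [abs_of_pos hb0] using hb2)) 2).1)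
    (asm_bnd ha0 (s1 a' (by simpa [abs_of_pos ha0] using ha3)).1) 0
  rw [Af, div_eq_inv_mul]
  congr 1
  simp only [add_zero] at h
  rw [tsum_congr fun n => mul_comm _ _, h.tsum_eq]
  refine lc_congr hr (fun z hz => ?_) _
  rw [ser, ser, (hY.ser_pow 2 (hz ▸ h2)).tsum_eq,
    (s1 z⁻¹ (by rw [norm_inv, hz]; exact ha1.trans ha3)).2]
  simp only [PowerSeries.coeff_mk]
  rfl

theorem asm_lin {R : ℝ} (hR : 0 < R) (m : ℕ) (u du : BS) (s : ℂ) {z : ℂ} (hz : ‖z‖ < R) :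
    ser (un R (u + s • du)) z = ser (un R u) z + s * ser (un R du) z ∧
    ser (flat m (un R (u + s • du))) z =
      ser (flat m (un R u)) z + s * ser (flat m (un R du)) z := by
  obtain ⟨ρ, h1, h2⟩ := exists_between hz
  have h0 := (norm_nonneg z).trans_lt h1
  constructor
  · rw [ser, ser, ser, ← tsum_mul_left, ← ((bnd_un R hR u).summable hz).of_norm.tsum_add
      (((bnd_un R hR du).summable hz).of_norm.mul_left s)]
    refine tsum_congr fun i => ?_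
    simp only [un, BoundedContinuousFunction.add_apply, BoundedContinuousFunction.smul_apply,
      smul_eq_mul]
    ring
  · rw [ser, ser, ser, ← tsum_mul_left,
      ← (((bnd_un R hR u).flat m h0 h2).summable h1).of_norm.tsum_add
      ((((bnd_un R hR du).flat m h0 h2).summable h1).of_norm.mul_left s)]
    refine tsum_congr fun i => ?_
    simp only [flat, un, BoundedContinuousFunction.add_apply, BoundedContinuousFunction.smul_apply,
      smul_eq_mul]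
    ring

theorem asm_hol {E : Type} [NormedAddCommGroup E] [NormedSpace ℂ E] (m : ℕ) {a b : ℝ}
    (ha : 0 < a) (hb : 0 < b) (u : E →L[ℂ] BS) :
    DifferentiableOn ℂ (fun q : E × ℂ => ser (un b (u q.1)) q.2) (univ ×ˢ Ann a⁻¹ b) ∧
    DifferentiableOn ℂ (fun q : E × ℂ => ser (un a (u q.1)) q.2⁻¹) (univ ×ˢ Ann a⁻¹ b) ∧
    DifferentiableOn ℂ (fun q : E × ℂ => ser (flat m (un a (u q.1))) q.2⁻¹)
      (univ ×ˢ Ann a⁻¹ b) := by
  have h : Differentiable ℂ fun q : E × ℂ => u q.1 := u.differentiable.comp differentiable_fst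
  have h1 : DifferentiableOn ℂ (fun q : E × ℂ => (u q.1, q.2⁻¹)) (univ ×ˢ Ann a⁻¹ b) :=
    h.differentiableOn.prodMk
      (differentiableOn_snd.inv fun q hq => laur_ann_ne (inv_pos.2 ha).le hq.2)
  have h2 : MapsTo (fun q : E × ℂ => (u q.1, q.2⁻¹)) (univ ×ˢ Ann a⁻¹ b) (univ ×ˢ ball 0 a) :=
    fun q hq => ⟨trivial, mem_ball_zero_iff.2 (asm_inv_lt ha hq.2)⟩
  have h3 : MapsTo (fun q : E × ℂ => (u q.1, q.2)) (univ ×ˢ Ann a⁻¹ b) (univ ×ˢ ball 0 b) :=
    fun q hq => ⟨trivial, asm_sub hq.2⟩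
  have k1 := (hol_ser b hb).comp (h.prodMk differentiable_snd).differentiableOn h3
  have k2 := (hol_ser a ha).comp h1 h2
  have k3 := (hol_ser_flat m a ha).comp h1 h2
  exact ⟨k1, k2, k3⟩

theorem af_diff (m : ℕ) {a b r : ℝ} (ha : 0 < a) (h1 : a⁻¹ < r) (h2 : r < b) :
    Differentiable ℂ (fun q : BS × BS => Af m (un a q.1) (un b q.2)) ∧
    ∀ q dq : BS × BS, fderiv ℂ (fun q : BS × BS => Af m (un a q.1) (un b q.2)) q dq =
      lc r (fun z => ser (un b q.2) z * ser (un a q.1) z⁻¹ *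
        Om m (un b q.2) (un b dq.2) (un a q.1) (un a dq.1) z) 0 := by
  have ha' : 0 < a⁻¹ := inv_pos.2 ha
  have hr : 0 < r := ha'.trans h1
  have hb : 0 < b := hr.trans h2
  have m₂ : r ∈ Ioo a⁻¹ b := ⟨h1, h2⟩
  let Φ : (BS × BS) × ℂ → ℂ := fun p => 2⁻¹ * (ser (un b p.1.2) p.2 ^ 2 *
    (ser (un a p.1.1) p.2⁻¹ * ser (flat m (un a p.1.1)) p.2⁻¹))
  have hW : IsOpen ((univ : Set (BS × BS)) ×ˢ Ann a⁻¹ b) := isOpen_univ.prod (laur_ann_open _ _)
  have hΦ : DifferentiableOn ℂ Φ (univ ×ˢ Ann a⁻¹ b) := by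
    have k1 := (asm_hol m ha hb (ContinuousLinearMap.snd ℂ BS BS)).1
    have k2 := (asm_hol m ha hb (ContinuousLinearMap.fst ℂ BS BS)).2
    simp only [ContinuousLinearMap.coe_snd', ContinuousLinearMap.coe_fst'] at k1 k2
    exact ((k1.fun_pow 2).fun_mul (k2.1.fun_mul k2.2)).const_mul _
  have e : (fun q : BS × BS => Af m (un a q.1) (un b q.2)) =
      fun q => lc r (fun z => Φ (q, z)) 0 := funext fun q => by
    rw [asm_af ha h1 h2 (bnd_un a ha _) (bnd_un b hb _), ← lc_const_mul]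
  have hp := fun q : BS × BS => lc_param hW hΦ hr (x := q)
    (fun z hz => ⟨trivial, laur_sph m₂ (mem_sphere_zero_iff_norm.2 hz)⟩) 0
  rw [e]
  refine ⟨fun q => (hp q).1, fun q dq => ?_⟩
  rw [(hp q).2]
  have hX := bnd_un a ha q.1
  have hdX := bnd_un a ha dq.1
  have hY := bnd_un b hb q.2
  have hdY := bnd_un b hb dq.2
  have dG : DifferentiableOn ℂ (fun z => ser (un b q.2) z * ser (un b q.2) z *
      (ser (un a q.1) z⁻¹ * ser (un a dq.1) z⁻¹)) (Ann a⁻¹ b) :=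
    ((hY.diff.mul hY.diff).mono asm_sub).mul
      ((asm_comp_inv ha hX.diff).mul (asm_comp_inv ha hdX.diff))
  have dO := II_diff (m := m) ha hY hdY hX hdX 0 0
  have hD := lc_deriv ha'.le dG m₂ 0
  rw [Int.cast_zero, zero_mul] at hD
  have c1 : ContinuousOn (fun z => ser (un b q.2) z * ser (un a q.1) z⁻¹ *
      Om m (un b q.2) (un b dq.2) (un a q.1) (un a dq.1) z) (sphere 0 r) := by
    refine ((((hY.diff.mono asm_sub).mul (asm_comp_inv ha hX.diff)).mul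
      dO).continuousOn.mono (laur_sph m₂)).congr fun z _ => ?_
    simp [II]
  have hs := lc_add hr c1 ((continuousOn_const (c := -(m : ℂ) / 2)).fun_mul
    (continuousOn_id' _ |>.fun_mul
      ((dG.deriv (laur_ann_open _ _)).continuousOn.mono (laur_sph m₂)))) 0
  rw [lc_const_mul, hD, mul_zero, add_zero] at hs
  refine (lc_congr hr (fun z hz => ?_) _).trans hs
  have hz' := laur_sph m₂ (mem_sphere_zero_iff_norm.2 hz)
  have hi := asm_inv_lt ha hz'
  have hl := ((hΦ.differentiableAt (hW.mem_nhds (x := (q, z))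
    ⟨trivial, hz'⟩)).hasFDerivAt.hasLineDerivAt (dq, 0))
  have hl' : HasLineDerivAt ℂ Φ (2⁻¹ * (2 * ser (un b q.2) z * ser (un b dq.2) z *
      (ser (un a q.1) z⁻¹ * ser (flat m (un a q.1)) z⁻¹) + ser (un b q.2) z ^ 2 *
      (ser (un a dq.1) z⁻¹ * ser (flat m (un a q.1)) z⁻¹ +
        ser (un a q.1) z⁻¹ * ser (flat m (un a dq.1)) z⁻¹))) (q, z) (dq, 0) := by
    have l : ∀ u v : ℂ, HasDerivAt (fun s : ℂ => u + s * v) v 0 := fun u v => by
      simpa using ((hasDerivAt_id (0 : ℂ)).mul_const v).const_add u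
    have := (((l (ser (un b q.2) z) (ser (un b dq.2) z)).fun_pow 2).fun_mul
      ((l (ser (un a q.1) z⁻¹) (ser (un a dq.1) z⁻¹)).fun_mul
        (l (ser (flat m (un a q.1)) z⁻¹) (ser (flat m (un a dq.1)) z⁻¹)))).const_mul 2⁻¹
    unfold HasLineDerivAt
    convert! this using 1
    · funext s
      simp only [Φ, Prod.smul_mk, Prod.mk_add_mk, smul_zero, add_zero, Prod.fst_add, Prod.snd_add,
        Prod.smul_fst, Prod.smul_snd]
      rw [(asm_lin hb m _ _ s hz'.2).1, (asm_lin ha m _ _ s hi).1, (asm_lin ha m _ _ s hi).2]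
    · simp
  rw [hl.unique hl']
  obtain ⟨y', hy, ey⟩ := asm_in hY m hz'.2
  obtain ⟨x', hx, ex⟩ := asm_out hX m (laur_ne hr hz) hi
  obtain ⟨w', hw, ew⟩ := asm_out hdX m (laur_ne hr hz) hi
  rw [((hy.fun_mul hy).fun_mul (hx.fun_mul hw)).deriv]
  simp only [Om, ey, ex, ew]
  ring

theorem af_smul (m : ℕ) (c : ℂ) (X Y : ℕ → ℂ) : Af m (c • X) Y = c ^ 2 * Af m X Y := by
  have e1 : PowerSeries.mk (c • X) = c • PowerSeries.mk X := by ext; simp
  have e2 : PowerSeries.mk (flat m (c • X)) = c • PowerSeries.mk (flat m X) := by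
    ext; simp [flat]; ring
  rw [Af, Af, e1, e2, ← mul_div_assoc, ← tsum_mul_left]
  congr 1
  refine tsum_congr fun n => ?_
  rw [smul_mul_smul_comm, PowerSeries.coeff_smul, smul_eq_mul]
  ring

theorem asm_mk_star (f : ℕ → ℂ) :
    PowerSeries.mk (star f) = PowerSeries.map (starRingEnd ℂ) (PowerSeries.mk f) := by
  ext; simp

theorem af_star (m : ℕ) (X Y : ℕ → ℂ) : Af m (star X) (star Y) = star (Af m X Y) := by
  have e : flat m (star X) = star (flat m X) := by funext i; simp [flat]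
  rw [Af, Af, e, asm_mk_star, asm_mk_star, asm_mk_star, star_div₀, tsum_star, ← map_mul,
    ← map_pow]
  simp [-map_mul, -map_pow]

theorem sT_star (m : ℕ) (L : Set ℕ) (f : ℕ → ℂ) (i : ℤ) :
    sT m (ind ℂ L) (star f) i = star (sT m (ind ℂ L) f i) := by
  rw [sT, sT, tsum_star]
  refine tsum_congr fun l => ?_
  rw [cf, cf, asm_mk_star, ← map_pow, PowerSeries.coeff_map, star_mul', ind]
  split_ifs <;> simp

theorem ev_star (P : Polynomial (Polynomial ℚ)) (t a : ℂ) :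
    ev P (star t) (star a) = star (ev P t a) := by
  have h := Polynomial.map_mapRingHom_evalEval (starRingEnd ℂ)
    (P.map (Polynomial.mapRingHom (algebraMap ℚ ℂ))) t a
  rw [Polynomial.map_map, Polynomial.mapRingHom_comp,
    Subsingleton.elim ((starRingEnd ℂ).comp (algebraMap ℚ ℂ)) (algebraMap ℚ ℂ)] at h
  exact h

theorem evalEval_diff (P : Polynomial (Polynomial ℂ)) :
    Differentiable ℂ (fun q : ℂ × ℂ => P.evalEval q.1 q.2) ∧ ∀ q : ℂ × ℂ,
      fderiv ℂ (fun q : ℂ × ℂ => P.evalEval q.1 q.2) q (0, 1) =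
        (Polynomial.derivative P).evalEval q.1 q.2 := by
  have hd : Differentiable ℂ (fun q : ℂ × ℂ => P.evalEval q.1 q.2) := by
    induction P using Polynomial.induction_on' with
    | add p q hp hq => simpa only [Polynomial.evalEval_add] using hp.fun_add hq
    | monomial n p =>
      simp only [← Polynomial.C_mul_X_pow_eq_monomial, Polynomial.evalEval_mul,
        Polynomial.evalEval_C, Polynomial.evalEval_pow, Polynomial.evalEval_X]
      exact (p.differentiable.comp differentiable_fst).mul (differentiable_snd.pow n)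
  refine ⟨hd, fun q => ((hd q).hasFDerivAt.hasLineDerivAt (0, 1)).unique ?_⟩
  have h := (P.map (Polynomial.evalRingHom q.1)).hasDerivAt (q.2 + 0)
  rw [Polynomial.derivative_map] at h
  have h' := h.comp_const_add q.2 0
  unfold HasLineDerivAt
  simpa [Polynomial.map_evalRingHom_eval] using h'

theorem zv_diff {a b r : ℝ} (ha : 0 < a) (h1 : a⁻¹ < r) (h2 : r < b) :
    DifferentiableOn ℂ (fun q : BS × BS × ℂ => zv r (un b q.1) (un a q.2.1) q.2.2)
      (univ ×ˢ univ ×ˢ ball 0 r) := by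
  have hr : 0 < r := (inv_pos.2 ha).trans h1
  have hb : 0 < b := hr.trans h2
  intro q hq
  have hW : IsOpen (((univ : Set (BS × BS × ℂ)) ×ˢ Ann a⁻¹ b) ∩ {p | p.2 - p.1.2.2 ≠ 0}) :=
    (isOpen_univ.prod (laur_ann_open _ _)).inter (isOpen_ne_fun (by fun_prop) continuous_const)
  refine (lc_param hW (Φ := fun p => ser (un b p.1.1) p.2 * ser (un a p.1.2.1) p.2⁻¹ *
    Kk p.1.2.2 p.2) ?_ hr (x := q) (fun z hz => ⟨⟨trivial, hz ▸ h1, hz ▸ h2⟩, fun e => ?_⟩)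
    0).1.differentiableWithinAt
  · have k1 := (asm_hol 0 ha hb (ContinuousLinearMap.fst ℂ BS (BS × ℂ))).1
    have k2 := (asm_hol 0 ha hb ((ContinuousLinearMap.fst ℂ BS ℂ).comp
      (ContinuousLinearMap.snd ℂ BS (BS × ℂ)))).2.1
    simp only [ContinuousLinearMap.coe_snd', ContinuousLinearMap.coe_fst',
      ContinuousLinearMap.comp_apply] at k1 k2
    refine ((k1.fun_mul k2).mono inter_subset_left).fun_mul ?_
    simp only [Kk, div_eq_mul_inv]
    refine DifferentiableOn.fun_mul (by fun_prop) (DifferentiableOn.fun_inv (by fun_prop) ?_)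
    exact fun p hp => pow_ne_zero _ hp.2
  · rw [sub_eq_zero] at e
    exact (mem_ball_zero_iff.1 hq.2.2).ne (by rw [← hz]; exact congrArg norm e.symm)

theorem asm_real {u : ℕ → ℝ} {L : ℂ} (h : HasSum (fun i => (u i : ℂ)) L) :
    ∃ s : ℝ, HasSum u s ∧ L = s := by
  have h1 : HasSum u L.re := by simpa using Complex.hasSum_re h
  exact ⟨_, h1, h.unique (Complex.hasSum_ofReal.2 h1)⟩

theorem zv_pos {a b r c : ℝ} (ha : 0 < a) (h1 : a⁻¹ < r) (h2 : r < b) {f g : ℕ → ℝ}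
    (hf : Bnd b (cx f)) (hg : Bnd a (cx g)) (f0 : ∀ i, 0 ≤ f i) (g0 : ∀ i, 0 ≤ g i)
    (f1 : 0 < f 1) (g1 : 0 < g 0) (hc : 0 < c) (hr : c < r) :
    ∃ s : ℝ, 0 < s ∧ zv r (cx f) (cx g) c = s := by
  have cZ := ((hf.diff.mono asm_sub).mul (asm_comp_inv (b := b) ha hg.diff)).continuousOn.mono
    (laur_sph ⟨h1, h2⟩)
  choose w hw ew using fun n : ℕ => asm_real (u := fun i => f (i + n) * g i)
    (by simpa using lc_pair ha h1 h2 hf hg n)
  have h := (lc_expand (F := fun z => ser (cx f) z * ser (cx g) z⁻¹) cZ (c := c)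
    (by simpa [abs_of_pos hc] using hr)).2
  simp only [ew] at h
  obtain ⟨s, hs, es⟩ := asm_real (u := fun n => n * c ^ n * w n) (by simpa using h)
  have w0 : ∀ n, 0 ≤ w n := fun n => (hw n).nonneg fun i => mul_nonneg (f0 _) (g0 _)
  refine ⟨s, ?_, es⟩
  have w1 : 0 < w 1 := (mul_pos f1 g1).trans_le
    (le_hasSum (hw 1) 0 fun i _ => mul_nonneg (f0 _) (g0 _))
  refine lt_of_lt_of_le ?_ (le_hasSum hs 1 fun i _ => by have := w0 i; positivity)
  positivity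

end Pool.Agent.MP_098ecc_co.H97
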