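import Pool.Agent.MP_098ecc_co.H97.PoslA

set_option autoImplicit false

namespace Pool.Agent.MP_098ecc_co.H97

open Metric Filter Topology Set Function
open scoped BoundedContinuousFunction

theorem comp0_root {m : ℕ} (hm : 0 < m) {z : ℝ} (hz : 0 < z) : ∃ a > (0 : ℝ), a ^ m * z = 1 :=
  ⟨z⁻¹ ^ ((m : ℝ)⁻¹), Real.rpow_pos_of_pos (inv_pos.2 hz) _, by
    rw [Real.rpow_inv_natCast_pow (inv_pos.2 hz).le hm.ne', inv_mul_cancel₀ hz.ne']⟩

theorem comp0_sT {m : ℕ} {L : Set ℕ} (hm : 0 < m) (hL : 0 ∉ L) (f : ℕ → ℝ) {z a : ℝ} (hz : 0 < z)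
    (h : a ^ m * z = 1) (i : ℤ) :
    sT m (ind ℝ L) (fun i => f i * z ^ i * a) i = a⁻¹ * (z ^ i)⁻¹ * sT m (ind ℝ L) f i := by
  have e : (fun i => f i * z ^ i * a) = fun i => a * f i * z ^ i := by funext i; ring
  rw [sT, sT, ← tsum_mul_left, e]
  refine tsum_congr fun l => ?_
  rcases Nat.eq_zero_or_pos l with rfl | hl
  · simp [ind, hL]
  obtain ⟨M, hM⟩ : ∃ M, m * l = M + 1 := ⟨m * l - 1, by have := Nat.mul_pos hm hl; omega⟩
  have h1 : a ^ (M + 1) * z ^ l = 1 := by rw [← hM, pow_mul, ← mul_pow, h, one_pow]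
  have h2 : a ^ M * z ^ l = a⁻¹ := by
    rw [eq_comm, inv_eq_iff_eq_inv, eq_comm, inv_eq_of_mul_eq_one_left]
    rw [← h1]; ring
  rw [cf_scale, hM, Nat.add_sub_cancel, zpow_sub₀ hz.ne', zpow_natCast, ← h2]
  ring

theorem comp0_nz {m : ℕ} {L : Set ℕ} {f : ℕ → ℝ} {z a : ℝ} (t : ℝ) (hc : Crit m f z)
    (h0 : 0 < f 0) (hA : Adm L (Bv m f z)) (ha : 0 < a) (h : a ^ m * z = 1) :
    Nz m L t (fun i => f i * z ^ i * a)
      (fun i => t * sT m (ind ℝ L) (fun i => f i * z ^ i * a) i) ∧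
    (∑' i, f i * z ^ i * a) ^ m = Bv m f z := by
  have hz := hc.pos
  have e : (∑' i, f i * z ^ i * a) ^ m = Bv m f z := by
    rw [tsum_mul_right, mul_pow, Bv, ser, eq_div_iff hz.ne', mul_assoc, h, mul_one]
  refine ⟨⟨fun i => mul_nonneg (mul_nonneg (hc.nn i) (pow_pos hz i).le) ha.le,
    by simpa using mul_pos h0 ha, hc.sum.mul_right a, ?_, e ▸ hA, fun _ => rfl⟩, e⟩
  refine posl_has (hc.crit.mul_right a) ?_ (zero_mul a).symm
  funext i
  simp only [flat]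
  ring

theorem np_of_pos {D : Dat} {p : Amb} (h : Pos D p) : ∃ lam p₁ p₂ c₁ c₂,
    NP D p.t lam p₁ p₂ c₁ c₂ ∧ lam ^ D.m * (p.z₁ * p.z₂) = 1 ∧ p₂ 0 ^ D.m * p.z₂ = 1 ∧
    (∀ i, p₂ i = p.Y i * p.z₂ ^ i * p₂ 0) ∧ (∀ i, p₁ i = p.X i * p.z₁ ^ i * (lam / p₂ 0)) ∧
    (∑' i, p₁ i) ^ D.m = p.B₁ D ∧ (∑' i, p₂ i) ^ D.m = p.B₂ D := by
  have z1 := h.c₁.pos
  have z2 := h.c₂.pos
  have x0 := h.px 0
  have y0 := h.eqs.y0
  obtain ⟨r, r0, hr⟩ := comp0_root D.hm z1
  obtain ⟨q, q0, hq⟩ := comp0_root D.hm z2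
  obtain ⟨n1, e1⟩ := comp0_nz p.t h.c₁ x0 h.a₁ r0 hr
  obtain ⟨n2, e2⟩ := comp0_nz p.t h.c₂ (y0 ▸ one_pos) h.a₂ q0 hq
  have hl : (q * r) ^ D.m * (p.z₁ * p.z₂) = 1 := by
    rw [mul_pow]; linear_combination (q ^ D.m * p.z₂) * hr + hq
  have hl' : ((q * r) ^ D.m)⁻¹ = p.z₁ * p.z₂ := inv_eq_of_mul_eq_one_right hl
  refine ⟨q * r, _, _, _, _, ⟨h.tpos, mul_pos q0 r0, n1, n2, fun i hi => ?_, fun i hi => ?_, ?_,
    ?_⟩, hl, ?_, fun i => ?_, fun i => ?_, e1, e2⟩
  · simp only [comp0_sT D.hm D.z₂ p.Y z2 hq, hl', h.eqs.hx i hi, zpow_natCast]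
    rw [mul_pow]
    field_simp
  · simp only [comp0_sT D.hm D.z₁ p.X z1 hr, hl', h.eqs.hy i hi, zpow_natCast]
    rw [mul_pow]
    field_simp
  · simp only [comp0_sT D.hm D.z₂ p.Y z2 hq, y0, zpow_zero, pow_zero]
    have := h.eqs.x0
    field_simp
    linarith
  · simp only [comp0_sT D.hm D.z₁ p.X z1 hr, y0, zpow_zero, pow_zero]
    have := h.noether
    field_simp
    linarith
  · simpa [y0] using hq
  · simp [y0]
  · simp only [y0, pow_zero]
    field_simp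

section
variable {m : ℕ} {L : Set ℕ} {t : ℝ} {p : ℕ → ℝ} {c : ℤ → ℝ}

theorem Nz.comp0_ser (p : ℕ → ℝ) : ser p 1 = ∑' i, p i := by simp [ser]

theorem Nz.comp0_sum (hm : 0 < m) (hL : 0 ∉ L) (h : Nz m L t p c) (i : ℤ) :
    Summable fun l => ind ℝ L l * cf p (m * l - 1) (l - i) :=
  ((sT_summable hm hL h.nn h.p0 one_pos (by simpa using h.sum)
    (by simpa [Bv, Nz.comp0_ser] using h.adm)).choose_spec i).1

theorem Nz.comp0_cf (h : Nz m L t p c) (N : ℕ) (j : ℤ) : cf p N j ≤ (∑' i, p i) ^ N := by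
  simpa [Nz.comp0_ser] using cf_le_real h.nn one_pos (by simpa using h.sum) N j

theorem Nz.comp0_pos (h : Nz m L t p c) : 0 < ∑' i, p i :=
  h.p0.trans_le (h.sum.le_tsum 0 fun i _ => h.nn i)

theorem Nz.ge (hm : 0 < m) (hL : 0 ∉ L) (ht : 0 ≤ t) (h : Nz m L t p c) (s : Finset ℕ)
    (hs : ∀ l ∈ s, l ∈ L) (i : ℤ) : t * ∑ l ∈ s, cf p (m * l - 1) (l - i) ≤ c i := by
  rw [h.hc]
  refine mul_le_mul_of_nonneg_left (le_trans (le_of_eq (Finset.sum_congr rfl fun l hl => ?_))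
    ((h.comp0_sum hm hL i).sum_le_tsum s fun l _ =>
      mul_nonneg (win_nn L l).1 (cf_nonneg h.nn _ _))) ht
  rw [ind, if_pos (hs l hl), one_mul]

theorem Nz.nonneg (ht : 0 ≤ t) (h : Nz m L t p c) (i : ℤ) : 0 ≤ c i := by
  rw [h.hc]
  exact mul_nonneg ht (posl_sT_nn _ _ h.nn _)

theorem Nz.lt_one (hm : 0 < m) (hi : L.Infinite) (h : Nz m L t p c) : ∑' i, p i < 1 :=
  (pow_lt_one_iff_of_nonneg h.comp0_pos.le hm.ne').1
    ((adm_iff hi (pow_pos h.comp0_pos m).le).1 h.adm)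

theorem Nz.le (hm : 0 < m) (hL : 0 ∉ L) (ht : 0 ≤ t) (h : Nz m L t p c) (h1 : ∑' i, p i < 1)
    (i : ℤ) : c i ≤ t / (1 - ∑' i, p i) := by
  have b0 := h.comp0_pos.le
  have hs := h.comp0_sum hm hL i
  rw [h.hc, div_eq_mul_inv, ← tsum_geometric_of_lt_one b0 h1, sT, hs.tsum_eq_zero_add]
  refine mul_le_mul_of_nonneg_left ?_ ht
  rw [ind, if_neg hL, zero_mul, zero_add]
  refine ((summable_nat_add_iff 1).2 hs).tsum_le_tsum (fun l => ?_)
    (summable_geometric_of_lt_one b0 h1)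
  refine (mul_le_of_le_one_left (cf_nonneg h.nn _ _) (win_nn L _).2).trans
    ((h.comp0_cf _ _).trans (pow_le_pow_of_le_one b0 h1.le ?_))
  have := Nat.le_mul_of_pos_left (l + 1) hm
  omega

theorem Nz.mass (hm : 0 < m) (h : Nz m L t p c) :
    HasSum (fun i : ℕ => ((m : ℝ) * (i + 1) - 1) * p (i + 1)) (p 0) ∧
    ∑' i, p i ≤ 2 * p 0 + (if m = 1 then p 1 else 0) := by
  have h1 : HasSum (fun i : ℕ => ((m : ℝ) * (i + 1) - 1) * p (i + 1)) (p 0) := by
    refine posl_has ((hasSum_nat_add_iff' 1).2 h.crit) ?_ (by simp [flat])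
    funext i
    simp [flat]
  refine ⟨h1, ?_⟩
  have h2 := h1.add (hasSum_ite_eq 0 (if m = 1 then p 1 else 0))
  have h3 := hasSum_le (fun i => ?_) ((summable_nat_add_iff 1).2 h.sum).hasSum h2
  · rw [h.sum.tsum_eq_zero_add]
    linarith
  have hp := h.nn (i + 1)
  have hi : (0 : ℝ) ≤ i := i.cast_nonneg
  by_cases hm1 : m = 1
  · subst hm1
    rcases Nat.eq_zero_or_pos i with rfl | hi1
    · simp
    · have : (1 : ℝ) ≤ i := by exact_mod_cast hi1
      rw [if_neg hi1.ne']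
      push_cast
      nlinarith
  · have : (2 : ℝ) ≤ m := by exact_mod_cast (by omega : 2 ≤ m)
    have h4 : (1 : ℝ) ≤ m * (i + 1) - 1 := by nlinarith
    simp only [hm1, if_false, ite_self]
    nlinarith

theorem Nz.sup (hm : 0 < m) (hL : 0 ∉ L) (ht : 0 ≤ t) (h : Nz m L t p c) (n : ℤ) :
    ∃ v : ℝ, 0 ≤ v ∧ HasSum (fun i : ℕ => flat m p i * c (n + i)) (-n * v) := by
  obtain ⟨B, hB, hS⟩ := h.adm
  have b0 := h.comp0_pos
  have hB0 : 0 ≤ B := (pow_pos b0 m).le.trans hB.le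
  let u : ℕ × ℕ → ℝ := fun q =>
    flat m p q.2 * (t * (ind ℝ L q.1 * cf p (m * q.1 - 1) (q.1 - (n + q.2))))
  let w : ℕ → ℝ := fun l => t * (ind ℝ L l * cf p (m * l) (l - n) / l)
  have h1 : ∀ l, HasSum (fun i => u (l, i)) (-n * w l) := by
    intro l
    rcases Nat.eq_zero_or_pos l with rfl | hl
    · simp [u, w, ind, hL]
    have l0 : (l : ℝ) ≠ 0 := by positivity
    refine posl_has ((cf_flat hm hl p n).mul_left (t * ind ℝ L l / l)) ?_ ?_
    · funext i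
      simp only [u]
      field_simp
    · simp only [w]
      field_simp
  have h4 : Summable u := by
    refine Summable.of_norm_bounded (((hS.mul_left (t / ∑' i, p i)).mul_of_nonneg
      h.crit.summable.abs (fun l => mul_nonneg (div_nonneg ht b0.le)
        (mul_nonneg (win_nn L l).1 (pow_nonneg hB0 l))) fun i => abs_nonneg _)) fun q => ?_
    obtain ⟨l, i⟩ := q
    simp only [u, Real.norm_eq_abs]
    rw [abs_mul, mul_comm, abs_of_nonneg (mul_nonneg ht (mul_nonneg (win_nn L l).1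
      (cf_nonneg h.nn _ _)))]
    refine mul_le_mul_of_nonneg_right ?_ (abs_nonneg _)
    rcases Nat.eq_zero_or_pos l with rfl | hl
    · simp [ind, hL]
    obtain ⟨M, hM⟩ : ∃ M, m * l = M + 1 := ⟨m * l - 1, by have := Nat.mul_pos hm hl; omega⟩
    have h2 : (∑' i, p i) ^ M * ∑' i, p i ≤ B ^ l := by
      rw [← pow_succ, ← hM, pow_mul]
      exact pow_le_pow_left₀ (pow_pos b0 m).le hB.le l
    have h3 := (h.comp0_cf M (l - (n + i))).trans ((le_div_iff₀ b0).2 h2)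
    rw [hM, Nat.add_sub_cancel]
    calc _ ≤ t * (ind ℝ L l * (B ^ l / ∑' i, p i)) :=
          mul_le_mul_of_nonneg_left (mul_le_mul_of_nonneg_left h3 (win_nn L l).1) ht
      _ = _ := by ring
  have h5 := (h4.hasSum.prod_fiberwise h1).tsum_eq
  have h6 := (Equiv.prodComm ℕ ℕ).hasSum_iff.2 h4.hasSum
  rw [← h5, tsum_mul_left] at h6
  refine ⟨∑' l, w l, tsum_nonneg fun l => mul_nonneg ht (div_nonneg (mul_nonneg (win_nn L l).1
    (cf_nonneg h.nn _ _)) l.cast_nonneg), h6.prod_fiberwise fun i => ?_⟩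
  rw [h.hc]
  exact ((h.comp0_sum hm hL (n + i)).hasSum.mul_left t).mul_left _

end

theorem comp0_shift {g : ℕ → ℝ} (hg : ∀ i, 0 ≤ g i) (N j : ℕ) :
    ∑ i ∈ Finset.range N, (if j ≤ i then g i else 0) ≤ ∑ n ∈ Finset.range N, g (n + j) := by
  rw [← Finset.sum_filter]
  refine le_trans (Finset.sum_le_sum_of_subset_of_nonneg
    (t := (Finset.range N).map (addRightEmbedding j)) (fun i hi => ?_) fun i _ _ => hg i)
    (le_of_eq (Finset.sum_map _ _ _))
  simp only [Finset.mem_filter, Finset.mem_range] at hi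
  exact Finset.mem_map.2 ⟨i - j, Finset.mem_range.2 (by omega), by
    simp only [addRightEmbedding_apply]; omega⟩

theorem comp0_tri {a b : ℕ → ℝ} (ha : ∀ i, 0 ≤ a i) (hb : ∀ i, 0 ≤ b i) (N : ℕ) :
    (∑ i ∈ Finset.range N, a i) * ∑ j ∈ Finset.range N, b j ≤
      ∑ n ∈ Finset.range N, ∑ j ∈ Finset.range N, a (n + j) * b j +
      ∑ n ∈ Finset.range N, ∑ j ∈ Finset.range N, b (n + j) * a j := by
  calc _ = ∑ i ∈ Finset.range N, ∑ j ∈ Finset.range N, a i * b j := Finset.sum_mul_sum _ _ _ _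
    _ ≤ ∑ i ∈ Finset.range N, ∑ j ∈ Finset.range N,
        ((if j ≤ i then a i * b j else 0) + if i ≤ j then b j * a i else 0) := by
      refine Finset.sum_le_sum fun i _ => Finset.sum_le_sum fun j _ => ?_
      have := mul_nonneg (ha i) (hb j)
      split_ifs with h1 h2 h2
      · linarith
      · linarith
      · linarith
      · omega
    _ ≤ _ := by
      simp only [Finset.sum_add_distrib]
      refine add_le_add ?_ ?_
      · rw [Finset.sum_comm, Finset.sum_comm (f := fun n j => a (n + j) * b j)]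
        exact Finset.sum_le_sum fun j _ =>
          comp0_shift (g := fun i => a i * b j) (fun i => mul_nonneg (ha i) (hb j)) N j
      · rw [Finset.sum_comm (f := fun n j => b (n + j) * a j)]
        exact Finset.sum_le_sum fun i _ =>
          comp0_shift (g := fun j => b j * a i) (fun j => mul_nonneg (hb j) (ha i)) N i

theorem comp0_fnn {m : ℕ} (hm : 0 < m) {p : ℕ → ℝ} (hp : ∀ i, 0 ≤ p i) (i : ℕ) :
    0 ≤ flat m p (i + 1) := by
  have hm' : (1 : ℝ) ≤ m := by exact_mod_cast hm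
  refine mul_nonneg ?_ (hp _)
  push_cast
  nlinarith [(i.cast_nonneg : (0 : ℝ) ≤ i)]

theorem comp0_half {m : ℕ} {L L' : Set ℕ} {t lam : ℝ} {p q : ℕ → ℝ} {c c' : ℤ → ℝ} (hm : 0 < m)
    (hL : 0 ∉ L) (ht : 0 ≤ t) (hq : Nz m L t q c) (hp : Nz m L' t p c') (h2 : 2 ≤ lam)
    (h1 : ∀ i : ℕ, 1 ≤ i → p i = c i * lam * (lam ^ m)⁻¹ ^ i) (h0 : c 0 ≤ p 0 / lam) (N : ℕ) :
    lam ^ m * ∑ n ∈ Finset.range N, ∑ j ∈ Finset.range N,
      flat m p (n + j + 1) * flat m q (j + 1) ≤ (m + 1) * (q 0 * (2 * ∑' i, p i)) := by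
  have l0 : 0 < lam := by linarith
  have hΛ : 0 < lam ^ m := pow_pos l0 m
  have m0 : (0 : ℝ) ≤ m := m.cast_nonneg
  have A : ∀ n : ℕ, ∑ j ∈ Finset.range N,
      flat m q (j + 1) * ((lam ^ m) ^ (j + 1) * p (n + j + 1)) ≤ q 0 * p n := by
    intro n
    obtain ⟨v, v0, hv⟩ := hq.sup hm hL ht n
    have h3 := sum_le_hasSum (Finset.range N) (fun j _ => mul_nonneg (comp0_fnn hm hq.nn j)
      (hq.nonneg ht _)) ((hasSum_nat_add_iff' 1).2 hv)
    have k0 : 0 < lam * (lam ^ m)⁻¹ ^ n := by positivity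
    have h4 : c n * (lam * (lam ^ m)⁻¹ ^ n) ≤ p n := by
      rcases Nat.eq_zero_or_pos n with rfl | hn
      · simpa using (le_div_iff₀ l0).1 h0
      · rw [h1 n hn, mul_assoc]
    have h5 := mul_le_mul_of_nonneg_right h3 k0.le
    rw [Finset.sum_mul] at h5
    refine le_trans (le_of_eq (Finset.sum_congr rfl fun j _ => ?_)) (h5.trans ?_)
    · rw [h1 _ (by omega), show ((n + j + 1 : ℕ) : ℤ) = n + (j + 1 : ℕ) by push_cast; ring,
        add_assoc n, pow_add _ n, inv_pow _ (j + 1)]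
      field_simp
    · have h6 := mul_le_mul_of_nonneg_left h4 hq.p0.le
      have h7 := mul_nonneg (mul_nonneg (n.cast_nonneg : (0 : ℝ) ≤ n) v0) k0.le
      simp only [Finset.range_one, Finset.sum_singleton, flat, Nat.cast_zero, add_zero,
        Int.cast_natCast]
      nlinarith
  have B : ∀ n j : ℕ, lam ^ m * flat m p (n + j + 1) ≤
      (m + 1) * (m * n + 1) * ((lam ^ m) ^ (j + 1) * p (n + j + 1)) := by
    intro n j
    have h3 : 1 + (m : ℝ) * j ≤ (lam ^ m) ^ j := by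
      rw [← pow_mul]
      have := one_add_mul_le_pow (show (-2 : ℝ) ≤ 1 by norm_num) (m * j)
      push_cast at this
      refine le_trans (by linarith) (this.trans (pow_le_pow_left₀ (by norm_num) (by linarith) _))
    have n0 : (0 : ℝ) ≤ m * n := by positivity
    have j0 : (0 : ℝ) ≤ m * j := by positivity
    have h4 : (m : ℝ) * (n + j + 1) - 1 ≤ (m + 1) * (m * n + 1) * (lam ^ m) ^ j := by
      refine le_trans ?_ (mul_le_mul_of_nonneg_left h3 (by positivity))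
      nlinarith [mul_nonneg n0 j0, mul_nonneg m0 n0, mul_nonneg m0 j0,
        mul_nonneg m0 (mul_nonneg n0 j0)]
    have h5 := mul_le_mul_of_nonneg_right h4 (mul_nonneg hΛ.le (hp.nn (n + j + 1)))
    rw [flat, pow_succ]
    push_cast
    linarith
  have C : HasSum (fun n : ℕ => ((m : ℝ) * n + 1) * p n) (2 * ∑' i, p i) := by
    refine posl_has (hp.crit.add (hp.sum.hasSum.mul_left 2)) ?_ (zero_add _).symm
    funext n
    simp only [flat]
    ring
  have C' := sum_le_hasSum (Finset.range N) (fun n _ => mul_nonneg (by positivity) (hp.nn n)) C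
  refine le_trans ?_ (mul_le_mul_of_nonneg_left (mul_le_mul_of_nonneg_left C' hq.p0.le)
    (by positivity))
  simp only [Finset.mul_sum]
  refine Finset.sum_le_sum fun n _ => ?_
  have h3 := mul_le_mul_of_nonneg_left (A n) (by positivity : (0 : ℝ) ≤ (m + 1) * (m * n + 1))
  rw [Finset.mul_sum] at h3
  refine le_trans (Finset.sum_le_sum fun j _ => ?_) (h3.trans (le_of_eq (by ring)))
  have := mul_le_mul_of_nonneg_right (B n j) (comp0_fnn hm hq.nn j)
  linarith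

theorem lam_le {D : Dat} {t lam : ℝ} {p₁ p₂ : ℕ → ℝ} {c₁ c₂ : ℤ → ℝ}
    (h : NP D t lam p₁ p₂ c₁ c₂) (h2 : 2 ≤ lam) :
    lam ^ D.m ≤ 2 * (D.m + 1) * ((∑' i, p₁ i) / p₁ 0 + (∑' i, p₂ i) / p₂ 0) := by
  have q1 := h.n₁.p0
  have q2 := h.n₂.p0
  have ht := h.tpos
  have s1 : HasSum (fun i => flat D.m p₁ (i + 1)) (p₁ 0) := by
    simpa [flat] using (h.n₁.mass D.hm).1
  have s2 : HasSum (fun i => flat D.m p₂ (i + 1)) (p₂ 0) := by
    simpa [flat] using (h.n₂.mass D.hm).1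
  have h3 := le_of_tendsto' ((s1.tendsto_sum_nat.mul s2.tendsto_sum_nat).const_mul (lam ^ D.m))
    (b := (D.m + 1) * (p₂ 0 * (2 * ∑' i, p₁ i)) + (D.m + 1) * (p₁ 0 * (2 * ∑' i, p₂ i)))
    fun N => by
      have a1 := comp0_half D.hm D.z₂ ht.le h.n₂ h.n₁ h2 h.h₁
        (by rw [h.m₁]; exact le_add_of_nonneg_right (by positivity)) N
      have a2 := comp0_half D.hm D.z₁ ht.le h.n₁ h.n₂ h2 h.h₂
        (by rw [h.m₂]; exact le_add_of_nonneg_right (by positivity)) N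
      have a3 := mul_le_mul_of_nonneg_left (comp0_tri (comp0_fnn D.hm h.n₁.nn)
        (comp0_fnn D.hm h.n₂.nn) N) (pow_pos h.lpos D.m).le
      linarith
  rw [← le_div_iff₀ (mul_pos q1 q2)] at h3
  refine h3.trans (le_of_eq ?_)
  field_simp

theorem comp0_up {c : ℤ → ℝ} {K : ℝ} {j : ℤ}
    (h : ∀ i, |c (i + j) + c (i - j) - 2 * c i| ≤ K) (i : ℤ) (k : ℕ) :
    c (i + k * j) ≤ c i + k * (c i - c (i - j)) + K * (k * (k + 1) / 2) ∧
    c (i + k * j) - c (i + k * j - j) ≤ c i - c (i - j) + k * K := by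
  induction k with
  | zero => simp
  | succ k ih =>
    have h1 := (abs_le.1 (h (i + k * j))).2
    have e : i + (k + 1 : ℕ) * j = i + k * j + j := by push_cast; ring
    rw [e, add_sub_cancel_right]
    push_cast
    constructor <;> linarith [ih.1, ih.2]

theorem quad {c : ℤ → ℝ} {K : ℝ} (hc : ∀ i, 0 ≤ c i) {j : ℤ}
    (h : ∀ i, |c (i + j) + c (i - j) - 2 * c i| ≤ K) (i : ℤ) (k : ℕ) :
    c (i + k * j) ≤ (1 + k) * c i + K * (k * (k + 1) / 2) := by
  have h1 := (comp0_up h i k).1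
  have h2 := mul_nonneg (k.cast_nonneg : (0 : ℝ) ≤ k) (hc (i - j))
  linarith

theorem comp0_dif {c : ℤ → ℝ} {K : ℝ} (hc : ∀ i, 0 ≤ c i) {j : ℤ}
    (h : ∀ i, |c (i + j) + c (i - j) - 2 * c i| ≤ K) (i : ℤ) {k : ℕ} (hk : 0 < k) :
    |c (i + j) - c i| ≤ c i / k + K * (k + 2) := by
  have k0 : (0 : ℝ) < k := by exact_mod_cast hk
  have hK : 0 ≤ K := (abs_nonneg _).trans (h i)
  have h1 := (comp0_up h i k).1
  have h2 := (comp0_up (j := -j) (c := c) (K := K) (fun i => by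
    rw [sub_neg_eq_add, ← sub_eq_add_neg, add_comm (c (i - j))]; exact h i) i k).1
  rw [sub_neg_eq_add] at h2
  have h3 := abs_le.1 (h i)
  have h4 := hc (i + k * j)
  have h5 := hc (i + k * -j)
  have e : c i = k * (c i / k) := by field_simp
  have hKk := mul_nonneg hK k0.le
  rw [abs_le]
  constructor
  · refine le_of_mul_le_mul_left ?_ k0
    nlinarith [mul_le_mul_of_nonneg_left h3.1 k0.le, mul_nonneg hKk k0.le]
  · refine le_of_mul_le_mul_left ?_ k0
    nlinarith [mul_nonneg hKk k0.le]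

theorem flat_lim {c : ℕ → ℤ → ℝ} {K : ℕ → ℝ} (hc : ∀ n i, 0 ≤ c n i) {j : ℤ}
    (h : ∀ᶠ n in atTop, ∀ i, |c n (i + j) + c n (i - j) - 2 * c n i| ≤ K n)
    (hK : Tendsto K atTop (𝓝 0)) {i : ℤ} {a : ℝ} (ha : Tendsto (fun n => c n i) atTop (𝓝 a))
    (k : ℤ) : Tendsto (fun n => c n (i + k * j)) atTop (𝓝 a) := by
  have h1 : Tendsto (fun n => c n (i + j) - c n i) atTop (𝓝 0) := by
    refine Metric.tendsto_nhds.2 fun ε hε => ?_
    obtain ⟨r, hr⟩ := ((tendsto_const_div_atTop_nhds_zero_nat a).eventually_lt_const hε).and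
      (eventually_gt_atTop 0) |>.exists
    have h2 := (ha.div_const r).add (hK.mul_const ((r : ℝ) + 2))
    rw [zero_mul, add_zero] at h2
    filter_upwards [h, h2.eventually_lt_const hr.1] with n hn h3
    rw [dist_zero_right, Real.norm_eq_abs]
    exact (comp0_dif (hc n) hn i hr.2).trans_lt h3
  have h2 : ∀ i, Tendsto (fun n => c n (i + j) + c n (i - j) - 2 * c n i) atTop (𝓝 0) :=
    fun i => squeeze_zero_norm' (h.mono fun n hn => hn i) hK
  have h3 : Tendsto (fun n => c n (i + k * j)) atTop (𝓝 a) ∧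
      Tendsto (fun n => c n (i + k * j + j)) atTop (𝓝 a) := by
    induction k using Int.induction_on with
    | zero => exact ⟨by simpa using ha, by simpa using h1.add ha⟩
    | succ k ih =>
      have e : i + (k + 1) * j = i + k * j + j := by ring
      rw [e]
      refine ⟨ih.2, ?_⟩
      have := ((h2 (i + k * j + j)).add (ih.2.const_mul 2)).sub ih.1
      rw [add_sub_cancel_right, show 0 + 2 * a - a = a by ring] at this
      exact this.congr fun n => by ring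
    | pred k ih =>
      have e : i + (-k - 1) * j = i + -k * j - j := by ring
      rw [e, sub_add_cancel]
      refine ⟨?_, ih.1⟩
      have := ((h2 (i + -k * j)).add (ih.1.const_mul 2)).sub ih.2
      rw [show 0 + 2 * a - a = a by ring] at this
      exact this.congr fun n => by ring
  exact h3.1

/-- a set of integers stable under all shifts by the elements of `L₁` and `L₂` is everything -/
theorem shift_all (D : Dat) {S : Set ℤ} (h0 : 0 ∈ S)
    (h : ∀ l ∈ D.L₁ ∪ D.L₂, ∀ i ∈ S, ∀ k : ℤ, i + k * l ∈ S) (i : ℤ) : i ∈ S := by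
  let T : AddSubgroup ℤ :=
    { carrier := {x | ∀ i ∈ S, ∀ k : ℤ, i + k * x ∈ S}
      add_mem' := fun {x y} hx hy i hi k => by
        rw [mul_add, ← add_assoc]; exact hy _ (hx i hi k) k
      zero_mem' := fun i hi k => by simpa using hi
      neg_mem' := fun {x} hx i hi k => by simpa using hx i hi (-k) }
  obtain ⟨a, ha⟩ := Int.subgroup_cyclic T
  have h1 : ∀ l ∈ D.L₁ ∪ D.L₂, a.natAbs ∣ l := fun l hl => by
    have : (l : ℤ) ∈ T := h l hl
    rw [ha, AddSubgroup.mem_closure_singleton] at this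
    obtain ⟨n, hn⟩ := this
    exact Int.natAbs_dvd_natAbs.2 (Dvd.intro_left n hn)
  have h2 := D.gcd _ (fun l hl => h1 l (Or.inl hl)) fun l hl => h1 l (Or.inr hl)
  have h3 : a ∈ T := ha ▸ AddSubgroup.subset_closure rfl
  have h4 : a * a = 1 := by rw [← Int.natAbs_mul_self', h2]; rfl
  have h5 : 0 + i * a * a ∈ S := h3 0 h0 (i * a)
  rwa [mul_assoc, h4, mul_one, zero_add] at h5

theorem comp0_dom {m : ℕ} {a : ℕ → ℕ → ℝ} {C x : ℝ} (h0 : ∀ n i, 0 ≤ a n i)
    (hb : ∀ᶠ n in atTop, ∀ i, a n i ≤ C * (1 + i ^ 2))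
    (hl : ∀ i, Tendsto (fun n => a n i) atTop (𝓝 1)) (x0 : 0 < x) (x1 : x < 1) :
    (∀ᶠ n in atTop, Summable fun i => flat m (a n) i * x ^ i) ∧
    Tendsto (fun n => ∑' i, flat m (a n) i * x ^ i) atTop (𝓝 (((m + 1) * x - 1) / (1 - x) ^ 2)) := by
  have hx : ‖x‖ < 1 := by rwa [Real.norm_of_nonneg x0.le]
  have s := fun k => summable_pow_mul_geometric_of_norm_lt_one k hx
  have hS : Summable fun i : ℕ => ((m : ℝ) * i + 1) * (C * (1 + i ^ 2)) * x ^ i :=
    (((((s 3).mul_left (m : ℝ)).add (s 2)).add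
      (((s 1).mul_left (m : ℝ)).add (s 0))).mul_left C).congr fun i => by ring
  have hB : ∀ᶠ n in atTop, ∀ i : ℕ,
      ‖flat m (a n) i * x ^ i‖ ≤ ((m : ℝ) * i + 1) * (C * (1 + i ^ 2)) * x ^ i := by
    filter_upwards [hb] with n hn i
    have k0 : (0 : ℝ) ≤ m * i := by positivity
    rw [flat, norm_mul, norm_mul, Real.norm_of_nonneg (h0 n i), Real.norm_of_nonneg
      (pow_pos x0 i).le]
    refine mul_le_mul_of_nonneg_right (mul_le_mul (abs_le.2 ⟨by linarith, by linarith⟩) (hn i)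
      (h0 n i) (by linarith)) (pow_pos x0 i).le
  refine ⟨hB.mono fun n hn => Summable.of_norm_bounded hS hn, ?_⟩
  have h1 := tendsto_tsum_of_dominated_convergence (g := fun i : ℕ => ((m : ℝ) * i - 1) * 1 * x ^ i)
    hS (fun i => ((hl i).const_mul _).mul_const _) hB
  have h2 := ((hasSum_coe_mul_geometric_of_norm_lt_one hx).mul_left (m : ℝ)).sub
    (hasSum_geometric_of_lt_one x0.le x1)
  have h3 : 1 - x ≠ 0 := by linarith
  rwa [(posl_has h2 (funext fun i => by ring) (by field_simp; ring) : HasSum (fun i : ℕ =>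
    ((m : ℝ) * i - 1) * 1 * x ^ i) (((m + 1) * x - 1) / (1 - x) ^ 2)).tsum_eq] at h1

theorem comp0_mono {m : ℕ} (hm : 0 < m) {f : ℕ → ℝ} (hf : ∀ i, 0 ≤ f i) {x y : ℝ} (x0 : 0 ≤ x)
    (hxy : x ≤ y) (i : ℕ) : flat m f i * x ^ i ≤ flat m f i * y ^ i := by
  cases i with
  | zero => simp
  | succ i => exact mul_le_mul_of_nonneg_left (pow_le_pow_left₀ x0 hxy _) (comp0_fnn hm hf i)

/-- the limit of the critical equation for asymptotically constant coefficients -/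
theorem mu_lim {m : ℕ} (hm : 0 < m) {a : ℕ → ℕ → ℝ} {μ : ℕ → ℝ} {C : ℝ} (hμ : ∀ n, 0 < μ n)
    (h0 : ∀ n i, 0 ≤ a n i) (hb : ∀ᶠ n in atTop, ∀ i, a n i ≤ C * (1 + i ^ 2))
    (hl : ∀ i, Tendsto (fun n => a n i) atTop (𝓝 1))
    (hs : ∀ n, HasSum (fun i : ℕ => flat m (a n) i * μ n ^ i) 0) :
    Tendsto μ atTop (𝓝 (1 / (m + 1))) := by
  have hm' : (1 : ℝ) ≤ m := by exact_mod_cast hm
  have m1 : (0 : ℝ) < m + 1 := by linarith
  have h1 : (1 : ℝ) / (m + 1) < 1 := by rw [div_lt_one m1]; linarith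
  refine tendsto_order.2 ⟨fun x hx => ?_, fun y hy => ?_⟩
  · rcases le_or_gt x 0 with x0 | x0
    · exact Eventually.of_forall fun n => x0.trans_lt (hμ n)
    obtain ⟨a1, a2⟩ := comp0_dom (m := m) h0 hb hl x0 (hx.trans h1)
    have h2 : (((m : ℝ) + 1) * x - 1) / (1 - x) ^ 2 < 0 := div_neg_of_neg_of_pos
      (by have := (lt_div_iff₀ m1).1 hx; linarith) (pow_pos (by linarith) 2)
    filter_upwards [a1, a2.eventually_lt_const h2] with n b1 b2
    by_contra h3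
    exact b2.not_ge (hasSum_le (comp0_mono hm (h0 n) (hμ n).le (not_lt.1 h3)) (hs n) b1.hasSum)
  · obtain ⟨x, hx, hx'⟩ := exists_between (lt_min hy h1)
    have x0 : 0 < x := lt_trans (by positivity) hx
    have x1 := hx'.trans_le (min_le_right _ _)
    obtain ⟨a1, a2⟩ := comp0_dom (m := m) h0 hb hl x0 x1
    have h2 : 0 < (((m : ℝ) + 1) * x - 1) / (1 - x) ^ 2 := div_pos
      (by have := (div_lt_iff₀ m1).1 hx; linarith) (pow_pos (by linarith) 2)
    filter_upwards [a1, a2.eventually_const_lt h2] with n b1 b2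
    refine lt_trans ?_ (hx'.trans_le (min_le_left _ _))
    by_contra h3
    exact b2.not_ge (hasSum_le (comp0_mono hm (h0 n) x0.le (not_lt.1 h3)) b1.hasSum (hs n))

end Pool.Agent.MP_098ecc_co.H97
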