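import Pool.Agent.MP_098ecc_co.H97.PoslA

set_option autoImplicit false

namespace Pool.Agent.MP_098ecc_co.H97

open Metric Filter Topology Set Function
open scoped BoundedContinuousFunction

theorem fl_int {E : Type} [NormedAddCommGroup E] {F : ℂ → E} (hF : ContinuousOn F (sphere 0 1)) :
    CircleIntegrable F 0 1 := ContinuousOn.circleIntegrable zero_le_one hF

theorem fl_norm {F : ℂ → ℂ} {G : ℂ → ℝ} (hG : ContinuousOn G (sphere 0 1))
    (h : ∀ z, ‖z‖ = 1 → ‖F z‖ ≤ G z) :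
    ‖Real.circleAverage F 0 1‖ ≤ Real.circleAverage G 0 1 := by
  have hπ := Real.two_pi_pos
  have h1 := intervalIntegral.norm_integral_le_of_norm_le (μ := MeasureTheory.volume) hπ.le
    (f := fun θ => F (circleMap 0 1 θ)) (g := fun θ => G (circleMap 0 1 θ))
    (Eventually.of_forall fun θ _ => h _ (by rw [norm_circleMap_zero, abs_one])) (fl_int hG)
  rw [Real.circleAverage_def, Real.circleAverage_def, norm_smul, norm_inv, Real.norm_eq_abs,
    abs_of_pos hπ, smul_eq_mul]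
  exact mul_le_mul_of_nonneg_left h1 (by positivity)

theorem fl_mono {F G : ℂ → ℝ} (hF : ContinuousOn F (sphere 0 1)) (hG : ContinuousOn G (sphere 0 1))
    (h : ∀ z, ‖z‖ = 1 → F z ≤ G z) :
    Real.circleAverage F 0 1 ≤ Real.circleAverage G 0 1 :=
  Real.circleAverage_mono (fl_int hF) (fl_int hG) fun z hz =>
    h z (by rwa [abs_one, mem_sphere_zero_iff_norm] at hz)

theorem fl_x {z : ℂ} (hz : ‖z‖ = 1) (j : ℕ) : 0 ≤ 1 - (z ^ j).re := by
  have h1 := Complex.re_le_norm (z ^ j)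
  rw [norm_pow, hz, one_pow] at h1
  linarith

/-- the kernel `a / (a + b (1 - cos j θ))` -/
noncomputable def flK (a b : ℝ) (j : ℕ) (z : ℂ) : ℝ := a / (a + b * (1 - (z ^ j).re))

theorem fl_den {a b : ℝ} (ha : 0 < a) (hb : 0 ≤ b) (j : ℕ) {z : ℂ} (hz : ‖z‖ = 1) :
    0 < a + b * (1 - (z ^ j).re) := by
  have := mul_nonneg hb (fl_x hz j)
  linarith

theorem flK_cont {a b : ℝ} (ha : 0 < a) (hb : 0 ≤ b) (j : ℕ) :
    ContinuousOn (flK a b j) (sphere 0 1) := by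
  refine ContinuousOn.div continuousOn_const (by fun_prop) fun z hz => ?_
  exact (fl_den ha hb j (mem_sphere_zero_iff_norm.1 hz)).ne'

theorem fl_sq {w : ℂ} (hw : ‖w‖ = 1) : w.re * w.re + w.im * w.im = 1 := by
  rw [← Complex.normSq_apply, Complex.normSq_eq_norm_sq, hw, one_pow]

theorem fl_poisson {j : ℕ} (hj : 1 ≤ j) {η a b : ℝ} (hη : 0 < η) (hη1 : η ≤ 1) (ha : 0 < a)
    (hb : 0 ≤ b) (h : 2 * a ≤ η ^ 2 * b) : Real.circleAverage (flK a b j) 0 1 ≤ η := by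
  have hne : ∀ z ∈ closedBall (0 : ℂ) 1, (1 - ((1 - η : ℝ) : ℂ) * z ^ j) ≠ 0 := by
    intro z hz h0
    have h1 : ‖((1 - η : ℝ) : ℂ) * z ^ j‖ = 1 := by
      rw [← sub_eq_zero.1 h0, norm_one]
    rw [norm_mul, Complex.norm_real, Real.norm_eq_abs, abs_of_nonneg (by linarith), norm_pow] at h1
    have h2 : ‖z‖ ^ j ≤ 1 := pow_le_one₀ (norm_nonneg _) (mem_closedBall_zero_iff.1 hz)
    have h3 : 0 ≤ ‖z‖ ^ j := by positivity
    nlinarith
  have hd : DifferentiableOn ℂ (fun z : ℂ => (1 - ((1 - η : ℝ) : ℂ) * z ^ j)⁻¹) (closedBall 0 1) :=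
    DifferentiableOn.inv (by fun_prop) hne
  have hdc : DiffContOnCl ℂ (fun z : ℂ => (1 - ((1 - η : ℝ) : ℂ) * z ^ j)⁻¹) (ball 0 |1|) := by
    rw [abs_one]
    refine DifferentiableOn.diffContOnCl ?_
    rwa [closure_ball _ one_ne_zero]
  have hc := hd.continuousOn.mono sphere_subset_closedBall
  have h1 := Complex.reCLM.circleAverage_comp_comm (fl_int hc)
  rw [hdc.circleAverage] at h1
  have h2 : Complex.reCLM ((fun z : ℂ => (1 - ((1 - η : ℝ) : ℂ) * z ^ j)⁻¹) 0) = 1 := by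
    simp [zero_pow (show j ≠ 0 by omega)]
  rw [h2] at h1
  have h3 := Real.circleAverage_fun_smul (a := η) (c := 0) (R := 1)
    (f := Complex.reCLM ∘ fun z : ℂ => (1 - ((1 - η : ℝ) : ℂ) * z ^ j)⁻¹)
  rw [h1, smul_eq_mul, mul_one] at h3
  rw [← h3]
  refine fl_mono (flK_cont ha hb j)
    ((Complex.reCLM.continuous.comp_continuousOn hc).const_smul η) fun z hz => ?_
  have hx := fl_x hz j
  have hq := fl_sq (w := z ^ j) (by rw [norm_pow, hz, one_pow])
  have hD := fl_den ha hb j hz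
  simp only [flK, comp_apply, Complex.reCLM_apply, smul_eq_mul, Complex.inv_re]
  generalize z ^ j = w at *
  have e1 : (1 - ((1 - η : ℝ) : ℂ) * w).re = η + (1 - η) * (1 - w.re) := by
    simp; ring
  have e2 : Complex.normSq (1 - ((1 - η : ℝ) : ℂ) * w) = η ^ 2 + 2 * (1 - η) * (1 - w.re) := by
    rw [Complex.normSq_apply]
    simp
    linear_combination (1 - η) ^ 2 * hq
  have h4 : 0 ≤ (1 - η) * (1 - w.re) := mul_nonneg (by linarith) hx
  rw [e1, e2, ← mul_div_assoc, div_le_div_iff₀ hD (by nlinarith)]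
  have h5 : 2 * a * (1 - w.re) ≤ η ^ 2 * b * (1 - w.re) := mul_le_mul_of_nonneg_right h hx
  have h6 : 0 ≤ η * ((1 - η) * (1 - w.re)) * (a + b * (1 - w.re)) := by positivity
  have h7 : 0 ≤ a * η * (1 - w.re) := by positivity
  nlinarith

section
variable {p : ℕ → ℝ}

theorem fl_term (nn : ∀ i, 0 ≤ p i) {z : ℂ} (hz : ‖z‖ = 1) (i : ℕ) : ‖cx p i * z ^ i‖ = p i := by
  rw [norm_mul, norm_pow, hz, one_pow, mul_one, Complex.norm_real, Real.norm_eq_abs,
    abs_of_nonneg (nn i)]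

theorem fl_cont (nn : ∀ i, 0 ≤ p i) (hs : Summable p) :
    ContinuousOn (ser (cx p)) (sphere 0 1) :=
  continuousOn_tsum (fun i => by fun_prop) hs fun n z hz =>
    (fl_term nn (mem_sphere_zero_iff_norm.1 hz) n).le

theorem fl_cf (nn : ∀ i, 0 ≤ p i) (hs : Summable p) (N : ℕ) (k : ℤ) :
    ((cf p N k : ℝ) : ℂ) = lc 1 (fun z => ser (cx p) z ^ N) k := by
  have h0 : ∀ z : ℂ, ‖z‖ = 1 → Summable fun i => ‖cx p i * z ^ i‖ := fun z hz =>
    hs.congr fun i => (fl_term nn hz i).symm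
  have h1 := (laur_pow (h0 1 norm_one) N).1
  simp only [one_pow, mul_one] at h1
  rw [← cf_ofReal, lc_congr one_pos
    (G := ser fun n => PowerSeries.coeff n (PowerSeries.mk (cx p) ^ N))
    (fun z hz => (laur_pow (h0 z hz) N).2.symm), laur_lc_ser one_pos (by simpa using h1), cf]

theorem fl_rest (nn : ∀ i, 0 ≤ p i) (hs : Summable p) {z : ℂ} (hz : ‖z‖ = 1) (s : Finset ℕ) :
    ‖ser (cx p) z - ∑ i ∈ s, cx p i * z ^ i‖ ≤ ∑' i, p i - ∑ i ∈ s, p i := by
  have h0 : Summable fun i => cx p i * z ^ i :=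
    (hs.congr fun i => (fl_term nn hz i).symm).of_norm
  have h1 := (s.hasSum_compl_iff (f := fun i => cx p i * z ^ i)
    (a := ser (cx p) z - ∑ i ∈ s, cx p i * z ^ i)).2 (by rw [sub_add_cancel]; exact h0.hasSum)
  have h2 := (s.hasSum_compl_iff (f := p) (a := ∑' i, p i - ∑ i ∈ s, p i)).2
    (by rw [sub_add_cancel]; exact hs.hasSum)
  exact h1.norm_le_of_bounded h2 fun i => (fl_term nn hz i).le

theorem fl_phi (nn : ∀ i, 0 ≤ p i) (hs : Summable p) (h1 : ∑' i, p i ≤ 1) {z : ℂ} (hz : ‖z‖ = 1)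
    {j : ℕ} (hj : 1 ≤ j) : ‖ser (cx p) z‖ ≤ ∑' i, p i - p 0 * p j * (1 - (z ^ j).re) := by
  have hne : (0 : ℕ) ≠ j := by omega
  have h2 := fl_rest nn hs hz {0, j}
  have h3 := hs.sum_le_tsum {0, j} fun i _ => nn i
  rw [Finset.sum_pair hne] at h3
  rw [Finset.sum_pair hne, Finset.sum_pair hne, pow_zero, mul_one] at h2
  have hx := fl_x hz j
  have hq := fl_sq (w := z ^ j) (by rw [norm_pow, hz, one_pow])
  have h4 := norm_add_le (ser (cx p) z - (cx p 0 + cx p j * z ^ j)) (cx p 0 + cx p j * z ^ j)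
  rw [sub_add_cancel] at h4
  have h5 : ‖cx p 0 + cx p j * z ^ j‖ ≤ p 0 + p j - p 0 * p j * (1 - (z ^ j).re) := by
    generalize z ^ j = w at *
    have e : ‖cx p 0 + cx p j * w‖ ^ 2 = (p 0 + p j) ^ 2 - 2 * (p 0 * p j * (1 - w.re)) := by
      rw [← Complex.normSq_eq_norm_sq, Complex.normSq_apply]
      simp
      linear_combination (p j) ^ 2 * hq
    have n0 := nn 0
    have nj := nn j
    have hu : 0 ≤ p 0 * p j * (1 - w.re) := by positivity
    have hw : 1 - w.re ≤ 2 := by nlinarith [mul_self_nonneg w.im]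
    have h6 : p 0 * p j * (1 - w.re) ≤ p 0 * p j * 2 :=
      mul_le_mul_of_nonneg_left hw (by positivity)
    refine abs_le_of_sq_le_sq' ?_ ?_ |>.2
    · rw [e]
      nlinarith
    · nlinarith
  linarith

theorem fl_pow (nn : ∀ i, 0 ≤ p i) (hs : Summable p) {z : ℂ} (hz : ‖z‖ = 1) (m : ℕ) :
    ‖ser (cx p) z ^ m - (p 0 : ℂ) ^ m‖ ≤ (∑' i, p i) ^ m - p 0 ^ m := by
  have h0 := fl_rest nn hs hz ∅
  have h1 := fl_rest nn hs hz {0}
  simp only [Finset.sum_empty, sub_zero] at h0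
  simp only [Finset.sum_singleton, pow_zero, mul_one] at h1
  induction m with
  | zero => simp
  | succ m ih =>
    have e : ser (cx p) z ^ (m + 1) - (p 0 : ℂ) ^ (m + 1) =
        ser (cx p) z * (ser (cx p) z ^ m - (p 0 : ℂ) ^ m) +
          (p 0 : ℂ) ^ m * (ser (cx p) z - cx p 0) := by ring
    rw [e]
    refine (norm_add_le _ _).trans ?_
    rw [norm_mul, norm_mul, norm_pow, Complex.norm_real, Real.norm_eq_abs, abs_of_nonneg (nn 0)]
    have h2 := mul_le_mul h0 ih (norm_nonneg _) ((norm_nonneg _).trans h0)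
    have h3 := mul_le_mul_of_nonneg_left h1 (pow_nonneg (nn 0) m)
    rw [pow_succ, pow_succ]
    linarith

theorem fl_cf_nn (nn : ∀ i, 0 ≤ p i) (N : ℕ) (k : ℤ) : 0 ≤ cf p N k := cf_nonneg nn N k

theorem fl_cf_le (nn : ∀ i, 0 ≤ p i) (hs : Summable p) (N : ℕ) (k : ℤ) :
    cf p N k ≤ (∑' i, p i) ^ N := by
  have h := lc_norm_le (M := (∑' i, p i) ^ N) one_pos (F := fun z => ser (cx p) z ^ N)
    (fun z hz => by
      have h0 := fl_rest nn hs hz ∅
      simp only [Finset.sum_empty, sub_zero] at h0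
      rw [norm_pow]
      exact pow_le_pow_left₀ (norm_nonneg _) h0 N) k
  rw [← fl_cf nn hs, Complex.norm_real, Real.norm_eq_abs, one_zpow, mul_one] at h
  exact (le_abs_self _).trans h

/-- second difference of one term -/
theorem fl_diff (nn : ∀ i, 0 ≤ p i) (hs : Summable p) (h1 : ∑' i, p i ≤ 1) {N l : ℕ} (hl : l ≤ N)
    (j : ℕ) (n : ℤ) : |cf p N (n - j) + cf p N (n + j) - 2 * cf p N n| ≤
      Real.circleAverage (fun z => ‖ser (cx p) z‖ ^ l * (2 * (1 - (z ^ j).re))) 0 1 := by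
  have hc := fl_cont nn hs
  have hF : ContinuousOn (fun z => ser (cx p) z ^ N) (sphere 0 1) := hc.pow N
  have e : (((cf p N (n - j) + cf p N (n + j) - 2 * cf p N n : ℝ)) : ℂ) =
      lc 1 (fun z => z ^ (j : ℤ) * ser (cx p) z ^ N + z ^ (-j : ℤ) * ser (cx p) z ^ N -
        2 * ser (cx p) z ^ N) n := by
    have hz : ∀ k : ℤ, ContinuousOn (fun z : ℂ => z ^ k * ser (cx p) z ^ N) (sphere 0 1) :=
      fun k => (laur_zpow_cont one_pos k).mul hF
    rw [lc_sub one_pos (F := fun z => z ^ (j : ℤ) * ser (cx p) z ^ N +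
      z ^ (-j : ℤ) * ser (cx p) z ^ N) (G := fun z => 2 * ser (cx p) z ^ N) ((hz _).add (hz _))
      (continuousOn_const.mul hF), lc_add one_pos (hz _) (hz _),
      lc_zpow_mul one_pos, lc_zpow_mul one_pos, lc_const_mul, sub_neg_eq_add,
      ← fl_cf nn hs, ← fl_cf nn hs, ← fl_cf nn hs]
    push_cast
    ring
  rw [← Real.norm_eq_abs, ← Complex.norm_real, e]
  refine fl_norm ((hc.norm.pow l).mul (by fun_prop)) fun z hz => ?_
  have h0 := fl_rest nn hs hz ∅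
  simp only [Finset.sum_empty, sub_zero] at h0
  have hx := fl_x hz j
  have e2 : z ^ (j : ℤ) * ser (cx p) z ^ N + z ^ (-j : ℤ) * ser (cx p) z ^ N -
      2 * ser (cx p) z ^ N = ser (cx p) z ^ N * ((-(2 * (1 - (z ^ j).re)) : ℝ) : ℂ) := by
    have h2 : z ^ (-j : ℤ) = (starRingEnd ℂ) (z ^ j) := by
      rw [zpow_neg, zpow_natCast, Complex.inv_eq_conj (by rw [norm_pow, hz, one_pow])]
    have h3 := Complex.add_conj (z ^ j)
    rw [h2, zpow_natCast]
    push_cast at h3 ⊢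
    linear_combination ser (cx p) z ^ N * h3
  beta_reduce
  rw [e2, norm_mul, norm_zpow, hz, one_zpow, mul_one, norm_mul, norm_pow, Complex.norm_real,
    Real.norm_eq_abs, abs_neg, abs_of_nonneg (by linarith)]
  exact mul_le_mul_of_nonneg_right
    (pow_le_pow_of_le_one (norm_nonneg _) (h0.trans h1) hl) (by linarith)

theorem fl_geo {ρ r : ℝ} (h0 : 0 ≤ ρ) (h1 : ρ < 1) (r0 : 0 ≤ r) (r1 : r < 1) (n : ℕ) :
    ∑ l ∈ Finset.range n, (1 - r ^ (l + 1)) * ρ ^ l ≤ (1 - r) / ((1 - ρ) * (1 - r * ρ)) := by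
  have h2 : r * ρ < 1 := by nlinarith
  have h3 := (hasSum_geometric_of_lt_one h0 h1).sub
    ((hasSum_geometric_of_lt_one (mul_nonneg r0 h0) h2).mul_left r)
  have h4 : (fun l : ℕ => ρ ^ l - r * (r * ρ) ^ l) = fun l => (1 - r ^ (l + 1)) * ρ ^ l := by
    funext l
    rw [mul_pow]
    ring
  rw [h4] at h3
  refine (sum_le_hasSum _ (fun l _ => mul_nonneg ?_ (pow_nonneg h0 l)) h3).trans (le_of_eq ?_)
  · have := pow_le_one₀ (n := l + 1) r0 r1.le
    linarith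
  · have a1 : 1 - ρ ≠ 0 := by linarith
    have a2 : 1 - r * ρ ≠ 0 := by linarith
    rw [eq_div_iff (mul_ne_zero a1 a2)]
    have b1 := mul_inv_cancel₀ a1
    have b2 := mul_inv_cancel₀ a2
    linear_combination (1 - r * ρ) * b1 - r * (1 - ρ) * b2

/-- the tail -/
theorem fl_tail (nn : ∀ i, 0 ≤ p i) (hs : Summable p) (h1 : ∑' i, p i < 1) (p0 : 0 < p 0)
    {j : ℕ} (hj : 1 ≤ j) (pj : 0 < p j) {r : ℝ} (r0 : 0 ≤ r) (r1 : r < 1) {N : ℕ → ℕ}
    (hN : ∀ l, l ≤ N l) (k : ℕ → ℤ) (n : ℕ) :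
    ∑ l ∈ Finset.range n, (1 - r ^ (l + 1)) *
      |cf p (N l) (k l - j) + cf p (N l) (k l + j) - 2 * cf p (N l) (k l)| ≤
      2 / (p 0 * p j) * Real.circleAverage (flK (1 - r) (r * (p 0 * p j)) j) 0 1 := by
  have hc := fl_cont nn hs
  have hu : 0 < p 0 * p j := mul_pos p0 pj
  have hr : ∀ l : ℕ, 0 ≤ 1 - r ^ (l + 1) := fun l => by
    have := pow_le_one₀ (n := l + 1) r0 r1.le
    linarith
  have hG : ∀ l : ℕ, ContinuousOn
      (fun z => (1 - r ^ (l + 1)) • (‖ser (cx p) z‖ ^ l * (2 * (1 - (z ^ j).re)))) (sphere 0 1) :=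
    fun l => continuousOn_const.mul ((hc.norm.pow l).mul (by fun_prop))
  have hK := flK_cont (a := 1 - r) (b := r * (p 0 * p j)) (by linarith) (by positivity) j
  calc _ ≤ ∑ l ∈ Finset.range n, Real.circleAverage (fun z => (1 - r ^ (l + 1)) •
        (‖ser (cx p) z‖ ^ l * (2 * (1 - (z ^ j).re)))) 0 1 := by
        refine Finset.sum_le_sum fun l _ => ?_
        rw [Real.circleAverage_fun_smul, smul_eq_mul]
        exact mul_le_mul_of_nonneg_left (fl_diff nn hs h1.le (hN l) j (k l)) (hr l)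
    _ ≤ _ := by
        rw [← Real.circleAverage_fun_sum fun l _ => fl_int (hG l), ← smul_eq_mul,
          ← Real.circleAverage_fun_smul]
        refine fl_mono (continuousOn_finsetSum _ fun l _ => hG l) (continuousOn_const.mul hK) fun z hz => ?_
        have hx := fl_x hz j
        have hφ := fl_phi nn hs h1.le hz hj
        have hux := mul_nonneg hu.le hx
        have hρ : ‖ser (cx p) z‖ < 1 := by linarith
        have hg := fl_geo (norm_nonneg _) hρ r0 r1 n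
        have hD := fl_den (a := 1 - r) (b := r * (p 0 * p j)) (by linarith) (by positivity) j hz
        simp only [smul_eq_mul, ← mul_assoc _ _ (2 * (1 - (z ^ j).re))]
        rw [← Finset.sum_mul]
        refine (mul_le_mul_of_nonneg_right hg (by linarith)).trans ?_
        unfold flK
        generalize 1 - (z ^ j).re = x at *
        generalize ‖ser (cx p) z‖ = ρ at *
        generalize p 0 * p j = u at *
        have a1 : u * x ≤ 1 - ρ := by linarith
        have a2 : 1 - r + r * u * x ≤ 1 - r * ρ := by nlinarith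
        have a3 : 0 < 1 - ρ := by linarith
        have a4 : 2 * x / (1 - ρ) ≤ 2 / u := by
          rw [div_le_div_iff₀ a3 hu]
          linarith
        have a5 : (1 - r) / (1 - r * ρ) ≤ (1 - r) / (1 - r + r * u * x) :=
          div_le_div_of_nonneg_left (by linarith) hD a2
        calc _ = 2 * x / (1 - ρ) * ((1 - r) / (1 - r * ρ)) := by
              rw [div_mul_div_comm, div_mul_eq_mul_div, mul_comm (1 - r)]
          _ ≤ _ := mul_le_mul a4 a5 (div_nonneg (by linarith) (by linarith)) (by positivity)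

/-- the head -/
theorem fl_head (nn : ∀ i, 0 ≤ p i) (hs : Summable p) (h1 : ∑' i, p i ≤ 1) (m : ℕ)
    {r : ℝ} (r0 : 0 ≤ r) (r1 : r < 1) (k : ℤ) (n : ℕ) :
    ∑ l ∈ Finset.range n, r ^ (l + 1) * cf p ((m + 1) * l + m) (l + k) ≤
      2 * r / (1 - r) * Real.circleAverage (flK (1 - r) (r * p 0 ^ (m + 1)) 1) 0 1 := by
  have hc := fl_cont nn hs
  have n0 := nn 0
  have hK := flK_cont (a := 1 - r) (b := r * p 0 ^ (m + 1)) (by linarith) (by positivity) 1
  have hG : ∀ l : ℕ, ContinuousOn (fun z => ((r : ℂ) ^ (l + 1)) •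
      (ser (cx p) z ^ ((m + 1) * l + m) * z ^ (-(l + k)))) (sphere 0 1) :=
    fun l => continuousOn_const.mul ((hc.pow _).mul (laur_zpow_cont one_pos _))
  have e : ((∑ l ∈ Finset.range n, r ^ (l + 1) * cf p ((m + 1) * l + m) (l + k) : ℝ) : ℂ) =
      Real.circleAverage (fun z => ∑ l ∈ Finset.range n, ((r : ℂ) ^ (l + 1)) •
        (ser (cx p) z ^ ((m + 1) * l + m) * z ^ (-(l + k)))) 0 1 := by
    rw [Real.circleAverage_fun_sum fun l _ => fl_int (hG l), Complex.ofReal_sum]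
    refine Finset.sum_congr rfl fun l _ => ?_
    rw [Real.circleAverage_fun_smul, Complex.ofReal_mul, fl_cf nn hs, Complex.ofReal_pow]
    rfl
  refine (le_abs_self _).trans ?_
  rw [← Real.norm_eq_abs, ← Complex.norm_real, e, ← smul_eq_mul, ← Real.circleAverage_fun_smul]
  refine fl_norm (continuousOn_const.mul hK) fun z hz => ?_
  have hz0 : z ≠ 0 := laur_ne one_pos hz
  have h0 := fl_rest nn hs hz ∅
  simp only [Finset.sum_empty, sub_zero] at h0
  have hφ : ‖ser (cx p) z‖ ≤ 1 := h0.trans h1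
  have hP := fl_pow nn hs hz (m + 1)
  have hβ : (∑' i, p i) ^ (m + 1) ≤ 1 := pow_le_one₀ ((norm_nonneg _).trans h0) h1
  have hD := fl_den (a := 1 - r) (b := r * p 0 ^ (m + 1)) (by linarith) (by positivity) 1 hz
  generalize ser (cx p) z = φ at *
  obtain ⟨w, hw⟩ : ∃ w : ℂ, w = r * (φ ^ (m + 1) * z⁻¹) := ⟨_, rfl⟩
  have e2 : ∑ l ∈ Finset.range n, ((r : ℂ) ^ (l + 1)) • (φ ^ ((m + 1) * l + m) * z ^ (-(l + k))) =
      r * φ ^ m * z ^ (-k) * ∑ l ∈ Finset.range n, w ^ l := by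
    rw [Finset.mul_sum]
    refine Finset.sum_congr rfl fun l _ => ?_
    rw [hw, neg_add, zpow_add₀ hz0, zpow_neg z l, zpow_natCast, smul_eq_mul, mul_pow, mul_pow,
      inv_pow, pow_add φ, pow_mul]
    ring
  have hwn : ‖w‖ ≤ r := by
    rw [hw, norm_mul, norm_mul, norm_inv, hz, inv_one, mul_one, norm_pow, Complex.norm_real,
      Real.norm_eq_abs, abs_of_nonneg r0]
    exact mul_le_of_le_one_right r0 (pow_le_one₀ (norm_nonneg _) hφ)
  have hre : w.re ≤ r * (1 - p 0 ^ (m + 1) * (1 - z.re)) := by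
    have e3 : w = r * ((φ ^ (m + 1) - (p 0 : ℂ) ^ (m + 1)) * z⁻¹ +
        ((p 0 ^ (m + 1) : ℝ) : ℂ) * (starRingEnd ℂ) z) := by
      rw [hw, ← Complex.inv_eq_conj hz]
      push_cast
      ring
    rw [e3, Complex.re_ofReal_mul, Complex.add_re, Complex.re_ofReal_mul, Complex.conj_re]
    refine mul_le_mul_of_nonneg_left ?_ r0
    have h2 := Complex.re_le_norm ((φ ^ (m + 1) - (p 0 : ℂ) ^ (m + 1)) * z⁻¹)
    rw [norm_mul, norm_inv, hz, inv_one, mul_one] at h2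
    linarith
  rw [pow_one] at hD
  have hlow : 1 - r + r * p 0 ^ (m + 1) * (1 - z.re) ≤ ‖w - 1‖ := by
    have h2 := Complex.re_le_norm (1 - w)
    rw [norm_sub_rev, Complex.sub_re, Complex.one_re] at h2
    linarith
  have hw1 : w ≠ 1 := by
    intro h
    rw [h, norm_one] at hwn
    linarith
  have hnum : ‖w ^ n - 1‖ ≤ 2 := by
    refine (norm_sub_le _ _).trans ?_
    rw [norm_pow, norm_one]
    have := pow_le_one₀ (n := n) (norm_nonneg w) (hwn.trans r1.le)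
    linarith
  rw [e2, geom_sum_eq hw1, norm_mul, norm_mul, norm_mul, norm_zpow, hz, one_zpow, mul_one, norm_pow,
    norm_div, Complex.norm_real, Real.norm_eq_abs, abs_of_nonneg r0, smul_eq_mul, flK, pow_one]
  have a1 : ‖w ^ n - 1‖ / ‖w - 1‖ ≤ 2 / (1 - r + r * p 0 ^ (m + 1) * (1 - z.re)) :=
    div_le_div₀ (by norm_num) hnum hD hlow
  have a2 : r * ‖φ‖ ^ m ≤ r := mul_le_of_le_one_right r0 (pow_le_one₀ (norm_nonneg _) hφ)
  refine (mul_le_mul a2 a1 (by positivity) r0).trans (le_of_eq ?_)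
  have a3 : 1 - r ≠ 0 := by linarith
  have a4 := hD.ne'
  field_simp

end

theorem fl_key {m : ℕ} (hm : 0 < m) {L : Set ℕ} (hL : 0 ∉ L) {t : ℝ} (ht : 0 ≤ t) {p : ℕ → ℝ}
    {c : ℤ → ℝ} (h : Nz m L t p c) (h1 : ∑' i, p i < 1) {j : ℕ} (hj : 1 ≤ j) (hp : 0 < p j)
    (i : ℤ) {r : ℝ} (r0 : 0 ≤ r) (r1 : r < 1) : |c (i + j) + c (i - j) - 2 * c i| ≤
      t * (2 / (p 0 * p j) * Real.circleAverage (flK (1 - r) (r * (p 0 * p j)) j) 0 1 +
        4 * (2 * r / (1 - r) * Real.circleAverage (flK (1 - r) (r * p 0 ^ m) 1) 0 1)) := by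
  obtain ⟨m, rfl⟩ : ∃ m', m = m' + 1 := ⟨m - 1, by omega⟩
  have nn := h.nn
  have hs := h.sum
  have hβ : 0 ≤ ∑' i, p i := tsum_nonneg nn
  have hN : ∀ l : ℕ, (m + 1) * (l + 1) - 1 = (m + 1) * l + m := fun l => by
    rw [mul_add, mul_one, ← add_assoc, Nat.add_sub_cancel]
  have hle : ∀ l : ℕ, l ≤ (m + 1) * l + m := fun l => by nlinarith
  have hsum : ∀ k : ℤ, HasSum (fun l : ℕ => ind ℝ L (l + 1) * cf p ((m + 1) * l + m) (l + (1 - k)))
      (sT (m + 1) (ind ℝ L) p k) := by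
    intro k
    have e : ∀ l : ℕ, ind ℝ L (l + 1) * cf p ((m + 1) * (l + 1) - 1) (((l + 1 : ℕ) : ℤ) - k) =
        ind ℝ L (l + 1) * cf p ((m + 1) * l + m) (l + (1 - k)) := fun l => by
      rw [hN]
      congr 2
      push_cast
      ring
    have s1 : Summable fun l : ℕ => ind ℝ L (l + 1) * cf p ((m + 1) * l + m) (l + (1 - k)) := by
      refine Summable.of_nonneg_of_le (fun l => mul_nonneg (win_nn L _).1 (fl_cf_nn nn _ _))
        (fun l => ?_) (summable_geometric_of_lt_one hβ h1)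
      refine (mul_le_of_le_one_left (fl_cf_nn nn _ _) (win_nn L _).2).trans ?_
      exact (fl_cf_le nn hs _ _).trans (pow_le_pow_of_le_one hβ h1.le (hle l))
    have s2 : Summable fun l : ℕ => ind ℝ L l * cf p ((m + 1) * l - 1) (l - k) :=
      (summable_nat_add_iff 1).1 (s1.congr fun l => (e l).symm)
    have s3 := (hasSum_nat_add_iff' 1).2 s2.hasSum
    have z0 : ind ℝ L 0 = 0 := if_neg hL
    simp only [Finset.range_one, Finset.sum_singleton, z0, zero_mul, sub_zero, e] at s3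
    exact s3
  have s4 := ((hsum (i + j)).add (hsum (i - j))).sub ((hsum i).mul_left 2)
  have e5 : c (i + j) + c (i - j) - 2 * c i = t * (sT (m + 1) (ind ℝ L) p (i + j) +
      sT (m + 1) (ind ℝ L) p (i - j) - 2 * sT (m + 1) (ind ℝ L) p i) := by
    rw [h.hc, h.hc, h.hc]
    ring
  rw [e5, abs_mul, abs_of_nonneg ht]
  refine mul_le_mul_of_nonneg_left (le_of_tendsto' s4.tendsto_sum_nat.abs fun n => ?_) ht
  have t1 := fl_tail nn hs h1 h.p0 hj hp r0 r1 hle (fun l => l + (1 - i)) n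
  have t2 := fl_head nn hs h1.le m r0 r1 (1 - (i + j)) n
  have t3 := fl_head nn hs h1.le m r0 r1 (1 - (i - j)) n
  have t4 := fl_head nn hs h1.le m r0 r1 (1 - i) n
  refine (Finset.abs_sum_le_sum_abs _ _).trans (le_trans ?_
    ((add_le_add t1 (add_le_add (add_le_add t2 t3) (add_le_add t4 t4))).trans (le_of_eq ?_)))
  swap
  · ring
  rw [← Finset.sum_add_distrib, ← Finset.sum_add_distrib, ← Finset.sum_add_distrib,
    ← Finset.sum_add_distrib]
  refine Finset.sum_le_sum fun l _ => ?_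
  have e1 : (l : ℤ) + (1 - i) - j = l + (1 - (i + j)) := by ring
  have e2 : (l : ℤ) + (1 - i) + j = l + (1 - (i - j)) := by ring
  simp only [e1, e2]
  have b1 := fl_cf_nn nn ((m + 1) * l + m) (l + (1 - (i + j)))
  have b2 := fl_cf_nn nn ((m + 1) * l + m) (l + (1 - (i - j)))
  have b3 := fl_cf_nn nn ((m + 1) * l + m) (l + (1 - i))
  generalize cf p ((m + 1) * l + m) (l + (1 - (i + j))) = A at *
  generalize cf p ((m + 1) * l + m) (l + (1 - (i - j))) = B at *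
  generalize cf p ((m + 1) * l + m) (l + (1 - i)) = C at *
  obtain ⟨i0, i1⟩ := win_nn L (l + 1)
  have b4 : |A + B - 2 * C| ≤ A + B + 2 * C := abs_le.2 ⟨by linarith, by linarith⟩
  have b5 := mul_le_mul_of_nonneg_left b4 (pow_nonneg r0 (l + 1))
  have b6 : |ind ℝ L (l + 1) * A + ind ℝ L (l + 1) * B - 2 * (ind ℝ L (l + 1) * C)| ≤
      |A + B - 2 * C| := by
    rw [show ind ℝ L (l + 1) * A + ind ℝ L (l + 1) * B - 2 * (ind ℝ L (l + 1) * C) =
      ind ℝ L (l + 1) * (A + B - 2 * C) by ring, abs_mul, abs_of_nonneg i0]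
    exact mul_le_of_le_one_left (abs_nonneg _) i1
  linarith

theorem fl0 {m : ℕ} (hm : 0 < m) {L : Set ℕ} (hL : 0 ∉ L) {t : ℝ} (ht : 0 ≤ t) {p : ℕ → ℝ}
    {c : ℤ → ℝ} (h : Nz m L t p c) (h1 : ∑' i, p i < 1) {j : ℕ} (hj : 1 ≤ j) (hp : 0 < p j)
    (i : ℤ) : |c (i + j) + c (i - j) - 2 * c i| ≤ 2 * t / (p 0 * p j) := by
  have h2 := fl_key hm hL ht h h1 hj hp i le_rfl one_pos
  have e : flK (1 - 0) (0 * (p 0 * p j)) j = fun _ => 1 := by
    funext z
    simp [flK]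
  rw [e, Real.circleAverage_const] at h2
  refine h2.trans (le_of_eq ?_)
  ring

theorem flat_small {m : ℕ} (hm : 0 < m) {c₀ δ : ℝ} (hc : 0 < c₀) (hδ : 0 < δ) :
    ∃ t₁ > (0 : ℝ), ∀ (L : Set ℕ) (t σ : ℝ) (p : ℕ → ℝ) (c : ℤ → ℝ) (j : ℕ), 0 ∉ L → 0 < t →
      t < t₁ → Nz m L t p c → ∑' i, p i < 1 → c₀ ≤ p 0 → 1 ≤ σ → 1 ≤ j → c₀ * t ≤ σ * p j →
      ∀ i : ℤ, |c (i + j) + c (i - j) - 2 * c i| ≤ δ * σ := by
  obtain ⟨η₁, e0, e1, e2⟩ : ∃ η : ℝ, 0 < η ∧ η ≤ 1 ∧ η ≤ δ * c₀ ^ 2 / 4 :=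
    ⟨min 1 (δ * c₀ ^ 2 / 4), by positivity, min_le_left _ _, min_le_right _ _⟩
  obtain ⟨T, T0, hT⟩ : ∃ T : ℝ, 0 < T ∧ T * (η₁ ^ 2 * c₀ ^ 2) = 4 :=
    ⟨4 / (η₁ ^ 2 * c₀ ^ 2), by positivity, by field_simp⟩
  obtain ⟨η₂, f0, f1, f2⟩ : ∃ η : ℝ, 0 < η ∧ η ≤ 1 ∧ η ≤ δ / (16 * T) :=
    ⟨min 1 (δ / (16 * T)), by positivity, min_le_left _ _, min_le_right _ _⟩
  refine ⟨min (T / 2) (T * (η₂ ^ 2 * c₀ ^ m) / 4), by positivity, ?_⟩
  intro L t σ p c j hL ht ht1 h h1 hq hσ hj hpj i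
  have ta := ht1.le.trans (min_le_left _ _)
  have tb := ht1.le.trans (min_le_right _ _)
  have σ0 : 0 < σ := by linarith
  have hp : 0 < p j := by
    have : 0 < σ * p j := lt_of_lt_of_le (by positivity) hpj
    exact (mul_pos_iff_of_pos_left σ0).1 this
  obtain ⟨κ, κ0, hκ⟩ : ∃ κ : ℝ, 0 < κ ∧ κ * (T * σ) = t := ⟨t / (T * σ), by positivity, by field_simp⟩
  have κ1 : κ * T ≤ t := by
    rw [← hκ, ← mul_assoc]
    exact le_mul_of_one_le_right (by positivity) hσ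
  have κ2 : κ ≤ 1 / 2 := by nlinarith
  have q0 := h.p0
  have hu : c₀ ^ 2 * t ≤ σ * (p 0 * p j) := by
    have := mul_le_mul hq hpj (by positivity) q0.le
    linarith
  have h2 := fl_key hm hL ht.le h h1 hj hp i (r := 1 - κ) (by linarith) (by linarith)
  rw [sub_sub_cancel] at h2
  have u0 : 0 < p 0 * p j := mul_pos q0 hp
  have k1 : Real.circleAverage (flK κ ((1 - κ) * (p 0 * p j)) j) 0 1 ≤ η₁ := by
    refine fl_poisson hj e0 e1 κ0 (mul_nonneg (by linarith) u0.le) ?_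
    have a1 : c₀ ^ 2 * (κ * T) ≤ p 0 * p j := by
      refine le_of_mul_le_mul_left ?_ σ0
      rw [← hκ] at hu
      linarith
    have a2 : η₁ ^ 2 * (c₀ ^ 2 * (κ * T)) ≤ η₁ ^ 2 * (p 0 * p j) :=
      mul_le_mul_of_nonneg_left a1 (by positivity)
    have a3 : η₁ ^ 2 * (c₀ ^ 2 * (κ * T)) = 4 * κ := by linear_combination κ * hT
    have a4 : 0 ≤ η₁ ^ 2 * (p 0 * p j) * (1 / 2 - κ) := mul_nonneg (by positivity) (by linarith)
    linarith
  have k2 : Real.circleAverage (flK κ ((1 - κ) * p 0 ^ m) 1) 0 1 ≤ η₂ := by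
    refine fl_poisson le_rfl f0 f1 κ0 (mul_nonneg (by linarith) (by positivity)) ?_
    have a1 : η₂ ^ 2 * c₀ ^ m ≤ η₂ ^ 2 * p 0 ^ m :=
      mul_le_mul_of_nonneg_left (pow_le_pow_left₀ hc.le hq m) (by positivity)
    have a2 : 4 * κ ≤ η₂ ^ 2 * c₀ ^ m := by
      refine le_of_mul_le_mul_left ?_ T0
      linarith
    have a4 : 0 ≤ η₂ ^ 2 * p 0 ^ m * (1 / 2 - κ) := mul_nonneg (by positivity) (by linarith)
    linarith
  have g1 : t * (2 / (p 0 * p j) * η₁) ≤ δ * σ / 2 := by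
    rw [div_mul_eq_mul_div, ← mul_div_assoc, div_le_iff₀ u0]
    have a1 := mul_le_mul_of_nonneg_left e2 ht.le
    have a2 := mul_le_mul_of_nonneg_left hu hδ.le
    linarith
  have g2 : t * (4 * (2 * (1 - κ) / κ * η₂)) ≤ δ * σ / 2 := by
    have a1 : t * (4 * (2 * (1 - κ) / κ * η₂)) = 8 * (T * σ * η₂) * (1 - κ) := by
      rw [← hκ]
      field_simp
      ring
    rw [le_div_iff₀ (by positivity)] at f2
    have a2 := mul_le_mul_of_nonneg_right f2 σ0.le
    have a3 : 0 ≤ T * σ * η₂ * κ := by positivity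
    rw [a1]
    linarith
  have g3 := mul_le_mul_of_nonneg_left k1 (show 0 ≤ 2 / (p 0 * p j) by positivity)
  have g4 := mul_le_mul_of_nonneg_left k2
    (show 0 ≤ 2 * (1 - κ) / κ from div_nonneg (by linarith) κ0.le)
  have g5 := mul_le_mul_of_nonneg_left g3 ht.le
  have g6 := mul_le_mul_of_nonneg_left g4 ht.le
  linarith

end Pool.Agent.MP_098ecc_co.H97
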