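import Pool.Agent.MP_098ecc_co.H97.C1A
import Pool.Agent.MP_098ecc_co.H97.Fl
import Pool.Agent.MP_098ecc_co.H97.Comp0

set_option autoImplicit false

namespace Pool.Agent.MP_098ecc_co.H97

open Metric Filter Topology Set Function
open scoped BoundedContinuousFunction

theorem c1_quad {m : ℕ} (hm : 0 < m) {L : Set ℕ} (hL : 0 ∉ L) (hi : L.Infinite) {t : ℝ}
    (ht : 0 ≤ t) {p : ℕ → ℝ} {c : ℤ → ℝ} (h : Nz m L t p c) (hp : 0 < p 1) {σ A K : ℝ}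
    (hσ : 0 ≤ σ) (hA : c 0 * σ ≤ A) (hK : t / (p 0 * p 1) * σ ≤ K) (i : ℕ) :
    c i * σ ≤ 2 * (A + K) * (1 + i ^ 2) := by
  have h1 := quad (h.nonneg ht) (fl0 hm hL ht h (h.lt_one hm hi) le_rfl hp) 0 i
  simp only [Nat.cast_one, mul_one, zero_add] at h1
  have A0 : 0 ≤ A := (mul_nonneg (h.nonneg ht 0) hσ).trans hA
  have K0 : 0 ≤ K := (mul_nonneg (div_nonneg ht (mul_pos h.p0 hp).le) hσ).trans hK
  have i0 : (0 : ℝ) ≤ i := i.cast_nonneg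
  have e1 : (1 + i : ℝ) ≤ 2 * (1 + i ^ 2) := by nlinarith
  have e2 : (i * (i + 1) : ℝ) ≤ 2 * (1 + i ^ 2) := by nlinarith
  have h2 := mul_le_mul_of_nonneg_right h1 hσ
  have h3 : ((1 + i) * c 0 + 2 * t / (p 0 * p 1) * (i * (i + 1) / 2)) * σ =
      (1 + i) * (c 0 * σ) + (i * (i + 1)) * (t / (p 0 * p 1) * σ) := by ring
  have h4 := mul_le_mul e1 hA (mul_nonneg (h.nonneg ht 0) hσ) (by positivity)
  have h5 := mul_le_mul e2 hK (mul_nonneg (div_nonneg ht (mul_pos h.p0 hp).le) hσ) (by positivity)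
  rw [h3] at h2
  linarith

theorem c1_Y {D : Dat} {p : Amb} (h : Pos D p) : 1 ≤ p.z₂ ∧ ∀ i, p.Y i ≤ 1 := by
  have hn : ∀ i, 0 ≤ p.Y i * p.z₂ ^ i := fun i =>
    mul_nonneg (h.c₂.nn i) (pow_nonneg h.c₂.pos.le i)
  have h1 : ∀ i, p.Y i * p.z₂ ^ i ≤ ser p.Y p.z₂ := fun i => h.c₂.sum.le_tsum i fun j _ => hn j
  have h2 : 1 ≤ ser p.Y p.z₂ := by simpa [h.eqs.y0] using h1 0
  have h3 : ser p.Y p.z₂ ^ D.m < p.z₂ := by
    have := h.b₂.2
    rwa [Amb.B₂, Bv, div_lt_one h.c₂.pos] at this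
  have h4 : ser p.Y p.z₂ ≤ p.z₂ := (le_self_pow₀ h2 D.hm.ne').trans h3.le
  refine ⟨h2.trans h4, fun i => ?_⟩
  rcases Nat.eq_zero_or_pos i with rfl | hi
  · exact h.eqs.y0.le
  · refine le_of_mul_le_mul_right (((h1 i).trans h4).trans ?_) (pow_pos h.c₂.pos i)
    rw [one_mul]
    exact le_self_pow₀ (h2.trans h4) hi.ne'

theorem c1_term {m : ℕ} (hm : 0 < m) {f : ℕ → ℝ} {z : ℝ} (h : Crit m f z) {k : ℕ}
    (hk : 2 ≤ m * k) : f k * z ^ k ≤ f 0 := by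
  have k0 : k ≠ 0 := by rintro rfl; simp at hk
  have := h.bound hm {k} (by simpa using k0.symm)
  rw [Finset.sum_singleton, mul_assoc] at this
  exact (le_mul_of_one_le_left (mul_nonneg (h.nn k) (pow_nonneg h.pos.le k))
    (c1_coef2 hk)).trans this

theorem c1_root {x C : ℝ} {k : ℕ} (hk : k ≠ 0) (hC : 1 ≤ C) (h : x ^ k ≤ C) : x ≤ C := by
  rcases le_total x 1 with h1 | h1
  · exact h1.trans hC
  · exact (le_self_pow₀ h1 hk).trans h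

theorem c1_X0 (D : Dat) {τ : ℝ} (hτ : 0 < τ) : ∃ C : ℝ, 1 ≤ C ∧ ∀ p, Pos D p → τ ≤ p.t →
    p.X 0 ≤ C ∧ p.z₁ ≤ C ∧ p.z₂ ≤ C := by
  obtain ⟨k, hk, hk2⟩ := D.two₁
  have k0 : k ≠ 0 := by rintro rfl; simp at hk2
  obtain ⟨c, hc, hX⟩ := (lowbd D hτ).1 2
  obtain ⟨c', hc', hY⟩ := (lowbd D hτ).2 k hk k le_rfl
  have a1 : 0 < 1 / τ := by positivity
  have a2 : 0 < (1 + 1 / τ) / c := by positivity
  have a3 : 0 < 1 / c' := by positivity
  refine ⟨1 + 1 / τ + (1 + 1 / τ) / c + 1 / c', by linarith, fun p h ht => ?_⟩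
  have x0 : p.X 0 ≤ 1 + 1 / τ := by
    refine c1_root (k := D.m * k - 1) (by omega) (by linarith) ?_
    have h1 := h.geY hk (Nat.one_le_iff_ne_zero.2 k0)
    have h2 := cf_ge_prod h.c₁.nn (Multiset.replicate (D.m * k - 1) 0)
    simp only [Multiset.map_replicate, Multiset.prod_replicate, Multiset.card_replicate,
      Multiset.sum_replicate, smul_zero, Nat.cast_zero] at h2
    rw [sub_self] at h1
    have h3 : τ * p.X 0 ^ (D.m * k - 1) ≤ 1 :=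
      (mul_le_mul ht h2 (pow_nonneg (h.c₁.nn 0) _) h.tpos.le).trans (h1.trans ((c1_Y h).2 k))
    have h4 : p.X 0 ^ (D.m * k - 1) ≤ 1 / τ := by rwa [le_div_iff₀ hτ, mul_comm]
    linarith
  refine ⟨by linarith, c1_root two_ne_zero (by linarith) ?_, c1_root k0 (by linarith) ?_⟩
  · have h1 := c1_term D.hm h.c₁ (k := 2) (by have := D.hm; omega)
    have h2 : p.z₁ ^ 2 ≤ (1 + 1 / τ) / c := by
      rw [le_div_iff₀ hc, mul_comm]
      exact (mul_le_mul_of_nonneg_right (hX p h ht) (sq_nonneg _)).trans (h1.trans x0)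
    linarith
  · have h1 := c1_term D.hm h.c₂ hk2
    have h2 : p.z₂ ^ k ≤ 1 / c' := by
      rw [le_div_iff₀ hc', mul_comm]
      exact (mul_le_mul_of_nonneg_right (hY p h ht) (pow_nonneg h.c₂.pos.le k)).trans
        (h1.trans h.eqs.y0.le)
    linarith

theorem c1_mul_ge {σ z δ : ℝ} {m : ℕ} (hm : 0 < m) (hσ : 0 < σ) (hz : δ ≤ z) (z0 : 0 < z)
    (hδ : δ ≤ 1) (h : σ ^ m * z = 1) : δ ≤ σ * z := by
  rcases le_total σ 1 with h1 | h1
  · exact hδ.trans (h.ge.trans (mul_le_mul_of_nonneg_right (pow_le_of_le_one hσ.le h1 hm.ne')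
      z0.le))
  · exact hz.trans (le_mul_of_one_le_left z0.le h1)

theorem c1_bdX (D : Dat) {τ : ℝ} (hτ : 0 < τ) : ∃ C : ℝ, 0 ≤ C ∧ ∀ p, Pos D p → τ ≤ p.t →
    ∀ i : ℕ, p.X i ≤ C * (1 + i ^ 2) * p.z₂ ^ i := by
  obtain ⟨A, hA, hb⟩ := c1_X0 D hτ
  obtain ⟨k, hk, hk2⟩ := D.two₁
  have k0 : k ≠ 0 := by rintro rfl; simp at hk2
  obtain ⟨c, hc, hY⟩ := (lowbd D hτ).2 k hk 1 (Nat.one_le_iff_ne_zero.2 k0)
  have a1 : 0 < 1 / c := by positivity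
  refine ⟨2 * (A + 1 / c), by linarith, fun p h ht i => ?_⟩
  rcases Nat.eq_zero_or_pos i with rfl | hi
  · have := (hb p h ht).1
    simp only [Nat.cast_zero, pow_zero, mul_one]
    linarith
  obtain ⟨lam, p₁, p₂, c₁, c₂, hN, e1, e2, e3, e4, -, -⟩ := np_of_pos h
  have q0 := hN.n₂.p0
  have l0 := hN.lpos
  have z1 := h.c₁.pos
  have z2 := h.c₂.pos
  have y1 : 0 < p.Y 1 := hc.trans_le (hY p h ht)
  have e5 : (lam ^ D.m)⁻¹ = p.z₁ * p.z₂ := inv_eq_of_mul_eq_one_right e1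
  have h1 : p.X i = c₂ i * p₂ 0 * p.z₂ ^ i := by
    have := hN.h₁ i hi
    rw [e4, e5, mul_pow] at this
    field_simp at this
    rw [this]; ring
  rw [h1]
  refine mul_le_mul_of_nonneg_right (c1_quad D.hm D.z₂ D.inf₂ h.tpos.le hN.n₂
    (by rw [e3]; positivity) q0.le ?_ ?_ i) (pow_nonneg z2.le i)
  · have h2 := hN.m₁
    rw [e4] at h2
    have h3 : c₂ 0 * p₂ 0 = p.X 0 - p.t := by
      field_simp at h2
      linarith
    have := (hb p h ht).1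
    have := h.tpos
    linarith
  · have h2 : 1 ≤ p₂ 0 * p.z₂ := c1_mul_ge D.hm q0 (c1_Y h).1 z2 le_rfl e2
    have h3 : p.t / (p₂ 0 * p₂ 1) * p₂ 0 = p.t / (p.Y 1 * (p₂ 0 * p.z₂)) := by
      rw [e3 1]; field_simp
    rw [h3]
    exact div_le_div₀ zero_le_one h.t_le hc
      ((hY p h ht).trans (le_mul_of_one_le_right y1.le h2))

theorem c1_bdY (D : Dat) (hi₁ : D.L₁.Infinite) {τ δ : ℝ} (hτ : 0 < τ) (hδ : 0 < δ) (δ1 : δ ≤ 1) :
    ∃ C : ℝ, ∀ p, Pos D p → τ ≤ p.t → δ ≤ p.z₁ →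
      ∀ i : ℕ, p.Y i ≤ C * (1 + i ^ 2) * p.z₁ ^ i := by
  obtain ⟨c, hc, hX⟩ := (lowbd D hτ).1 1
  have a1 : 0 < 1 / (c * δ) := by positivity
  refine ⟨2 * (1 + 1 / (c * δ)), fun p h ht hz i => ?_⟩
  rcases Nat.eq_zero_or_pos i with rfl | hi
  · simp only [Nat.cast_zero, pow_zero, mul_one, h.eqs.y0]
    linarith
  obtain ⟨lam, p₁, p₂, c₁, c₂, hN, e1, e2, e3, e4, -, -⟩ := np_of_pos h
  have q0 := hN.n₂.p0
  have l0 := hN.lpos
  have z1 := h.c₁.pos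
  have z2 := h.c₂.pos
  have x0 := h.px 0
  have x1 := h.px 1
  have e5 : (lam ^ D.m)⁻¹ = p.z₁ * p.z₂ := inv_eq_of_mul_eq_one_right e1
  have h1 : p.Y i = c₁ i * (lam / p₂ 0) * p.z₁ ^ i := by
    have := hN.h₂ i hi
    rw [e3, e5, mul_pow] at this
    field_simp at this ⊢
    rw [this]
  rw [h1]
  refine mul_le_mul_of_nonneg_right (c1_quad D.hm D.z₁ hi₁ h.tpos.le hN.n₁
    (by rw [e4]; positivity) (by positivity) ?_ ?_ i) (pow_nonneg z1.le i)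
  · have h2 := hN.m₂
    have h3 : 0 < p.t / p₁ 0 := div_pos h.tpos hN.n₁.p0
    have h4 : c₁ 0 ≤ p₂ 0 / lam := by linarith
    refine (mul_le_mul_of_nonneg_right h4 (by positivity)).trans_eq ?_
    field_simp
  · have h2 : δ ≤ lam / p₂ 0 * p.z₁ := by
      refine c1_mul_ge D.hm (by positivity) hz z1 δ1 ?_
      rw [div_pow, eq_div_of_mul_eq z2.ne' e2, eq_div_of_mul_eq (by positivity) e1]
      field_simp
    have h3 : p.t / (p₁ 0 * p₁ 1) * (lam / p₂ 0) =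
        (p.t / p.X 0) / (p.X 1 * (lam / p₂ 0 * p.z₁)) := by
      rw [e4 0, e4 1]; field_simp
    rw [h3]
    exact div_le_div₀ zero_le_one ((div_le_one x0).2 h.x0) (by positivity)
      (mul_le_mul (hX p h ht) h2 hδ.le x1.le)

end Pool.Agent.MP_098ecc_co.H97
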