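import Pool.Agent.MP_098ecc_co.H97.PoslB
import Pool.Agent.MP_098ecc_co.H97.Fl
import Pool.Agent.MP_098ecc_co.H97.Comp0
import Pool.Agent.MP_098ecc_co.H97.C1B

set_option autoImplicit false

namespace Pool.Agent.MP_098ecc_co.H97

open Metric Filter Topology Set Function
open scoped BoundedContinuousFunction

/-- coordinates of a convergent sequence -/
theorem c1_coord {p : ℕ → Amb} {q : Amb} (hq : Tendsto p atTop (𝓝 q)) :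
    Tendsto (fun n => (p n).t) atTop (𝓝 q.t) ∧
    (∀ i, Tendsto (fun n => (p n).X i) atTop (𝓝 (q.X i))) ∧
    (∀ i, Tendsto (fun n => (p n).Y i) atTop (𝓝 (q.Y i))) ∧
    Tendsto (fun n => (p n).z₁) atTop (𝓝 q.z₁) ∧ Tendsto (fun n => (p n).z₂) atTop (𝓝 q.z₂) :=
  ⟨hq.fst_nhds, fun i => tendsto_pi_nhds.1 hq.snd_nhds.fst_nhds i,
    fun i => tendsto_pi_nhds.1 hq.snd_nhds.snd_nhds.fst_nhds i,
    hq.snd_nhds.snd_nhds.snd_nhds.fst_nhds, hq.snd_nhds.snd_nhds.snd_nhds.snd_nhds⟩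

theorem c1_leX {D : Dat} {p : Amb} (h : Pos D p) (i : ℕ) :
    p.t * sT D.m (ind ℝ D.L₂) p.Y i ≤ p.X i ∧ p.X i ≤ 0 ^ i + sT D.m (ind ℝ D.L₂) p.Y i := by
  have h1 := mul_le_of_le_one_left (c1_sT_nonneg (m := D.m) (L := D.L₂) h.c₂.nn i) h.t_le
  have h2 := h.tpos
  have h3 := h.t_le
  rcases Nat.eq_zero_or_pos i with rfl | hi
  · rw [h.eqs.x0, pow_zero]
    simp only [Nat.cast_zero] at h1 ⊢
    constructor <;> linarith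
  · rw [h.eqs.hx i hi, zero_pow hi.ne', zero_add]
    exact ⟨le_rfl, h1⟩

theorem c1_leY {D : Dat} {p : Amb} (h : Pos D p) (i : ℕ) :
    p.Y i ≤ 0 ^ i + sT D.m (ind ℝ D.L₁) p.X i := by
  have h0 := c1_sT_nonneg (m := D.m) (L := D.L₁) h.c₁.nn i
  have h1 := mul_le_of_le_one_left h0 h.t_le
  rcases Nat.eq_zero_or_pos i with rfl | hi
  · rw [h.eqs.y0, pow_zero]
    linarith
  · rw [h.eqs.hy i hi, zero_pow hi.ne', zero_add]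
    exact h1

theorem c1_geo {a s C ρ : ℝ} {i : ℕ} (hρ : 0 < ρ) (h : a ≤ 0 ^ i + s) (hs : s ≤ C * ρ ^ i) :
    a ≤ (1 + |C|) * (1 + i ^ 2) * ρ ^ i := by
  have h1 : (0 : ℝ) ^ i ≤ ρ ^ i := pow_le_pow_left₀ le_rfl hρ.le i
  have h2 : C * ρ ^ i ≤ |C| * ρ ^ i := mul_le_mul_of_nonneg_right (le_abs_self C) (by positivity)
  have h3 : (1 + |C|) * ρ ^ i ≤ (1 + |C|) * (1 + i ^ 2) * ρ ^ i :=
    mul_le_mul_of_nonneg_right (le_mul_of_one_le_right (by positivity)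
      (le_add_of_nonneg_right (by positivity))) (by positivity)
  linarith

/-- dominated convergence under a polynomial bound -/
theorem c1_dom' {m : ℕ} {f : ℕ → ℕ → ℝ} {z y : ℕ → ℝ} {g : ℕ → ℝ} {w v : ℝ}
    (hc : ∀ n, Crit m (f n) (z n)) (hf : ∀ i, Tendsto (fun n => f n i) atTop (𝓝 (g i)))
    (hz : Tendsto z atTop (𝓝 w)) (hg : 0 < g 0) (hy : Tendsto y atTop (𝓝 v)) (y0 : ∀ n, 0 ≤ y n)
    (h1 : v * w < 1) (hb : PolyE f y) :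
    Crit m g w ∧ Tendsto (fun n => Bv m (f n) (z n)) atTop (𝓝 (Bv m g w)) := by
  obtain ⟨C, hC⟩ := hb
  obtain ⟨θ, h2, h3⟩ := exists_between h1
  have h4 : 0 ≤ v * w :=
    mul_nonneg (ge_of_tendsto' hy y0) (ge_of_tendsto' hz fun n => (hc n).pos.le)
  refine c1_dom (C := |C|) hc hf hz hg (h4.trans h2.le) h3 ?_
  filter_upwards [hC, (hy.mul hz).eventually_lt_const h2] with n hn hθ i
  have z0 := (hc n).pos
  have := y0 n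
  calc f n i * z n ^ i ≤ C * (1 + i ^ 2) * y n ^ i * z n ^ i :=
        mul_le_mul_of_nonneg_right (hn i) (by positivity)
    _ = C * ((1 + i ^ 2) * (y n * z n) ^ i) := by rw [mul_pow]; ring
    _ ≤ |C| * ((1 + i ^ 2) * θ ^ i) :=
        mul_le_mul (le_abs_self C) (mul_le_mul_of_nonneg_left
          (pow_le_pow_left₀ (by positivity) hθ.le i) (by positivity)) (by positivity)
          (abs_nonneg C)
    _ = _ := by ring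

section
variable {D : Dat} {p : ℕ → Amb} {q : Amb}

theorem c1_base (hp : ∀ n, Pos D (p n)) (hq : Tendsto p atTop (𝓝 q)) (h0 : 0 < q.t) :
    q.Y 0 = 1 ∧ 0 < q.X 0 ∧ c1_Sub D.m q.X q.z₁ ∧ c1_Sub D.m q.Y q.z₂ ∧ 1 ≤ q.z₂ := by
  obtain ⟨ht, hX, hY, h₁, h₂⟩ := c1_coord hq
  refine ⟨?_, h0.trans_le (le_of_tendsto_of_tendsto' ht (hX 0) fun n => (hp n).x0),
    c1_sub_lim D.hm (fun n => (hp n).c₁) hX h₁, c1_sub_lim D.hm (fun n => (hp n).c₂) hY h₂,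
    ge_of_tendsto' h₂ fun n => (c1_Y (hp n)).1⟩
  have := hY 0
  simp only [fun n => (hp n).eqs.y0] at this
  exact tendsto_nhds_unique this tendsto_const_nhds

theorem c1_tail₁ (hp : ∀ n, Pos D (p n)) (hq : Tendsto p atTop (𝓝 q)) (h0 : 0 < q.t) {ρ : ℝ}
    (hρ : 0 < ρ) (hw : ρ < q.z₁) (ha : Adm D.L₁ (Bv D.m q.X ρ)) :
    PolyE (fun n => (p n).Y) (fun _ => ρ) ∧ ∀ i : ℕ, 1 ≤ i →
      q.Y i = q.t * sT D.m (ind ℝ D.L₁) q.X i := by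
  obtain ⟨ht, hX, hY, h₁, h₂⟩ := c1_coord hq
  obtain ⟨y0, x0, s₁, s₂, -⟩ := c1_base hp hq h0
  obtain ⟨⟨C, hC⟩, hl⟩ := tail_unif D.hm D.z₁ (Eventually.of_forall fun n => (hp n).c₁) hX h₁
    s₁.nn x0 hρ hw ((s₁.mono D.hm hρ.le hw.le).sum D.hm hρ.le).2.2 ha
  refine ⟨⟨1 + |C|, hC.mono fun n hn i => c1_geo hρ (c1_leY (hp n) i) ?_⟩, fun i hi => ?_⟩
  · simpa using hn i
  · have := ht.mul (hl i)
    simp only [fun n => ((hp n).eqs.hy i hi).symm] at this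
    exact tendsto_nhds_unique (hY i) this

theorem c1_tail₂ (hp : ∀ n, Pos D (p n)) (hq : Tendsto p atTop (𝓝 q)) (h0 : 0 < q.t) {ρ : ℝ}
    (hρ : 0 < ρ) (hw : ρ < q.z₂) (ha : Adm D.L₂ (Bv D.m q.Y ρ)) :
    PolyE (fun n => (p n).X) (fun _ => ρ) ∧ q.X 0 = q.t + q.t * sT D.m (ind ℝ D.L₂) q.Y 0 ∧
      ∀ i : ℕ, 1 ≤ i → q.X i = q.t * sT D.m (ind ℝ D.L₂) q.Y i := by
  obtain ⟨ht, hX, hY, h₁, h₂⟩ := c1_coord hq
  obtain ⟨y0, x0, s₁, s₂, -⟩ := c1_base hp hq h0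
  obtain ⟨⟨C, hC⟩, hl⟩ := tail_unif D.hm D.z₂ (Eventually.of_forall fun n => (hp n).c₂) hY h₂
    s₂.nn (y0 ▸ one_pos) hρ hw ((s₂.mono D.hm hρ.le hw.le).sum D.hm hρ.le).2.2 ha
  refine ⟨⟨1 + |C|, hC.mono fun n hn i => c1_geo hρ (c1_leX (hp n) i).2 ?_⟩, ?_, fun i hi => ?_⟩
  · simpa using hn i
  · have := ht.add (ht.mul (hl 0))
    simp only [fun n => ((hp n).eqs.x0).symm] at this
    exact tendsto_nhds_unique (hX 0) this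
  · have := ht.mul (hl i)
    simp only [fun n => ((hp n).eqs.hx i hi).symm] at this
    exact tendsto_nhds_unique (hX i) this

theorem c1_super (hp : ∀ n, Pos D (p n)) (hq : Tendsto p atTop (𝓝 q)) (h0 : 0 < q.t)
    (hz : 1 ≤ q.z₁ * q.z₂) : Pos D q := by
  obtain ⟨ht, hX, hY, h₁, h₂⟩ := c1_coord hq
  obtain ⟨y0, x0, s₁, s₂, z2⟩ := c1_base hp hq h0
  have y0' : 0 < q.Y 0 := y0 ▸ one_pos
  have w2 : 0 < q.z₂ := one_pos.trans_le z2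
  have w1 : 0 < q.z₁ := (mul_pos_iff_of_pos_right w2).1 (one_pos.trans_le hz)
  have r1 : q.z₂⁻¹ ≤ q.z₁ := by rwa [inv_le_iff_one_le_mul₀ w2]
  have r2 : q.z₁⁻¹ ≤ q.z₂ := by rwa [inv_le_iff_one_le_mul₀' w1]
  have u₁ := s₁.mono D.hm (inv_pos.2 w2).le r1
  have u₂ := s₂.mono D.hm (inv_pos.2 w1).le r2
  have a₁ : Adm D.L₁ (Bv D.m q.X q.z₂⁻¹) := by
    refine c1_adm D.hm (inv_pos.2 w2) h0 u₁ x0 (by rwa [inv_inv]) fun s hs i hi => ?_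
    refine le_of_tendsto_of_tendsto' (ht.mul (tendsto_finsetSum s fun l _ =>
      cf_tendsto hX (D.m * l - 1) (l - i))) (hY i) fun n => ?_
    rw [(hp n).eqs.hy i hi]
    exact mul_le_mul_of_nonneg_left (c1_sum_le D.hm D.z₁ (hp n).c₁ ((hp n).px 0) (hp n).a₁ s hs i)
      (hp n).tpos.le
  have a₂ : Adm D.L₂ (Bv D.m q.Y q.z₁⁻¹) := by
    refine c1_adm D.hm (inv_pos.2 w1) h0 u₂ y0' (by rwa [inv_inv]) fun s hs i hi => ?_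
    refine le_of_tendsto_of_tendsto' (ht.mul (tendsto_finsetSum s fun l _ =>
      cf_tendsto hY (D.m * l - 1) (l - i))) (hX i) fun n => ?_
    rw [(hp n).eqs.hx i hi]
    exact mul_le_mul_of_nonneg_left (c1_sum_le D.hm D.z₂ (hp n).c₂
      ((hp n).eqs.y0 ▸ one_pos) (hp n).a₂ s hs i) (hp n).tpos.le
  obtain ⟨ρ₁, p₁, l₁, b₁⟩ := c1_near D.hm (inv_pos.2 w2) u₁ a₁
  obtain ⟨ρ₂, p₂, l₂, b₂⟩ := c1_near D.hm (inv_pos.2 w1) u₂ a₂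
  obtain ⟨e₁, f₁⟩ := c1_tail₁ hp hq h0 p₁ (l₁.trans_le r1) b₁
  obtain ⟨e₂, f₂, g₂⟩ := c1_tail₂ hp hq h0 p₂ (l₂.trans_le r2) b₂
  have c₁ := (c1_dom' (fun n => (hp n).c₁) hX h₁ x0 tendsto_const_nhds (fun _ => p₂.le)
    (by rwa [← lt_div_iff₀ w1, one_div]) e₂).1
  have c₂ := (c1_dom' (fun n => (hp n).c₂) hY h₂ y0' tendsto_const_nhds (fun _ => p₁.le)
    (by rwa [← lt_div_iff₀ w2, one_div]) e₁).1
  exact ⟨h0, ⟨y0, f₂, g₂, f₁⟩, c₁, c₂,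
    c1_adm_mono b₁ ((c₁.Bv_anti D.hm x0).1 ⟨p₁, (l₁.trans_le r1).le⟩ ⟨w1, le_rfl⟩
      (l₁.trans_le r1)).le,
    c1_adm_mono b₂ ((c₂.Bv_anti D.hm y0').1 ⟨p₂, (l₂.trans_le r2).le⟩ ⟨w2, le_rfl⟩
      (l₂.trans_le r2)).le⟩

theorem c1_under (hp : ∀ n, Pos D (p n)) (hq : Tendsto p atTop (𝓝 q)) (h0 : 0 < q.t)
    (hz : q.z₁ * q.z₂ < 1) : Pos D q ∨ (Wall D q ∧ WSeq D p q) := by
  obtain ⟨ht, hX, hY, h₁, h₂⟩ := c1_coord hq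
  obtain ⟨y0, x0, s₁, s₂, z2⟩ := c1_base hp hq h0
  have y0' : 0 < q.Y 0 := y0 ▸ one_pos
  have hτ : ∀ᶠ n in atTop, q.t / 2 ≤ (p n).t := ht.eventually_const_le (half_lt_self h0)
  have e₂ : PolyE (fun n => (p n).X) fun n => (p n).z₂ := by
    obtain ⟨C, -, hC⟩ := c1_bdX D (half_pos h0)
    exact ⟨C, hτ.mono fun n hn => hC _ (hp n) hn⟩
  obtain ⟨c₁, B₁⟩ := c1_dom' (fun n => (hp n).c₁) hX h₁ x0 h₂ (fun n => (hp n).c₂.pos.le)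
    (by rwa [mul_comm]) e₂
  have w1 := c₁.pos
  have e₁ : PolyE (fun n => (p n).Y) fun n => (p n).z₁ := by
    have hδ : ∀ᶠ n in atTop, q.z₁ / 2 ≤ (p n).z₁ := h₁.eventually_const_le (half_lt_self w1)
    by_cases hi : D.L₁.Finite
    · obtain ⟨C, hC⟩ := (c1_tail₁ hp hq h0 (half_pos w1) (half_lt_self w1)
        (adm_of_finite hi _)).1
      refine ⟨|C|, (hC.and hδ).mono fun n hn i => (hn.1 i).trans ?_⟩
      exact mul_le_mul (mul_le_mul_of_nonneg_right (le_abs_self C) (by positivity))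
        (pow_le_pow_left₀ (half_pos w1).le hn.2 i) (by positivity) (by positivity)
    · obtain ⟨C, hC⟩ := c1_bdY D hi (half_pos h0) (lt_min (half_pos w1) one_pos) (min_le_right _ _)
      exact ⟨C, (hτ.and hδ).mono fun n hn => hC _ (hp n) hn.1 ((min_le_left _ _).trans hn.2)⟩
  obtain ⟨c₂, B₂⟩ := c1_dom' (fun n => (hp n).c₂) hY h₂ y0' h₁ (fun n => (hp n).c₁.pos.le) hz e₁
  by_cases ha : Adm D.L₁ (q.B₁ D) ∧ Adm D.L₂ (q.B₂ D)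
  · obtain ⟨ρ₁, p₁, l₁, b₁⟩ := c1_near D.hm w1 s₁ ha.1
    obtain ⟨ρ₂, p₂, l₂, b₂⟩ := c1_near D.hm c₂.pos s₂ ha.2
    obtain ⟨-, f₁⟩ := c1_tail₁ hp hq h0 p₁ l₁ b₁
    obtain ⟨-, f₂, g₂⟩ := c1_tail₂ hp hq h0 p₂ l₂ b₂
    exact Or.inl ⟨h0, ⟨y0, f₂, g₂, f₁⟩, c₁, c₂, ha.1, ha.2⟩
  refine Or.inr ⟨⟨h0, y0, c₁, c₂, hz, ?_, ?_, ha, fun i => ?_, fun i l hl hi => ?_⟩,
    hp, hq, e₂, e₁, B₁, B₂⟩
  · by_cases hi : D.L₁.Finite
    · exact Or.inl (adm_of_finite hi _)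
    · rw [adm_iff hi (c1_Bv_nonneg c₁)]
      exact (le_of_tendsto' B₁ fun n => ((hp n).b₁.2 hi).le).lt_or_eq
  · rw [adm_iff D.inf₂ (c1_Bv_nonneg c₂)]
    exact (le_of_tendsto' B₂ fun n => (hp n).b₂.2.le).lt_or_eq
  · obtain ⟨c, hc, h⟩ := (lowbd D (half_pos h0)).1 i
    exact hc.trans_le (ge_of_tendsto (hX i) (hτ.mono fun n hn => h _ (hp n) hn))
  · obtain ⟨c, hc, h⟩ := (lowbd D (half_pos h0)).2 l hl i hi
    exact hc.trans_le (ge_of_tendsto (hY i) (hτ.mono fun n hn => h _ (hp n) hn))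

end

theorem c1 (D : Dat) (p : ℕ → Amb) (hp : ∀ n, Pos D (p n)) {t₀ : ℝ} (h0 : 0 < t₀)
    (ht : Tendsto (fun n => (p n).t) atTop (𝓝 t₀)) :
    ∃ (q : Amb) (φ : ℕ → ℕ), StrictMono φ ∧ Tendsto (p ∘ φ) atTop (𝓝 q) ∧
      (Pos D q ∨ (Wall D q ∧ WSeq D (p ∘ φ) q)) := by
  obtain ⟨A, hA, hb⟩ := c1_X0 D (half_pos h0)
  obtain ⟨C, hC, hX⟩ := c1_bdX D (half_pos h0)
  have hK : IsCompact (Icc (0 : ℝ) 1 ×ˢ
      (univ.pi fun i : ℕ => Icc (0 : ℝ) (C * (1 + i ^ 2) * A ^ i)) ×ˢ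
      (univ.pi fun _ : ℕ => Icc (0 : ℝ) 1) ×ˢ Icc (0 : ℝ) A ×ˢ Icc (0 : ℝ) A) :=
    isCompact_Icc.prod ((isCompact_univ_pi fun _ => isCompact_Icc).prod
      ((isCompact_univ_pi fun _ => isCompact_Icc).prod (isCompact_Icc.prod isCompact_Icc)))
  obtain ⟨q, -, φ, hφ, hq⟩ := hK.tendsto_subseq' (x := p) (Eventually.frequently (by
    filter_upwards [ht.eventually_const_le (half_lt_self h0)] with n hn
    have h := hp n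
    obtain ⟨-, b1, b2⟩ := hb _ h hn
    exact ⟨⟨h.tpos.le, h.t_le⟩, fun i _ => ⟨h.c₁.nn i, (hX _ h hn i).trans
      (mul_le_mul_of_nonneg_left (pow_le_pow_left₀ h.c₂.pos.le b2 i) (by positivity))⟩,
      fun i _ => ⟨h.c₂.nn i, (c1_Y h).2 i⟩, ⟨h.c₁.pos.le, b1⟩, h.c₂.pos.le, b2⟩))
  have hq0 : 0 < q.t := by
    rwa [tendsto_nhds_unique (c1_coord hq).1 (ht.comp hφ.tendsto_atTop)]
  refine ⟨q, φ, hφ, hq, ?_⟩
  rcases le_or_gt 1 (q.z₁ * q.z₂) with hz | hz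
  · exact Or.inl (c1_super (fun n => hp (φ n)) hq hq0 hz)
  · exact c1_under (fun n => hp (φ n)) hq hq0 hz

end Pool.Agent.MP_098ecc_co.H97
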