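import Pool.Agent.MP_098ecc_co.H97.PoslB

set_option autoImplicit false

namespace Pool.Agent.MP_098ecc_co.H97

open Metric Filter Topology Set Function
open scoped BoundedContinuousFunction

/-- subcritical points -/
structure c1_Sub (m : ℕ) (g : ℕ → ℝ) (w : ℝ) : Prop where
  nn : ∀ i, 0 ≤ g i
  bd : ∀ s : Finset ℕ, 0 ∉ s → ∑ i ∈ s, ((m : ℝ) * i - 1) * g i * w ^ i ≤ g 0

theorem c1_coef {m i : ℕ} (hm : 0 < m) (hi : 1 ≤ i) : (0 : ℝ) ≤ (m : ℝ) * i - 1 := by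
  have h : 1 ≤ m * i := Nat.mul_pos hm hi
  have h' : (1 : ℝ) ≤ ((m * i : ℕ) : ℝ) := by exact_mod_cast h
  push_cast at h'
  linarith

theorem c1_coef2 {m i : ℕ} (hi : 2 ≤ m * i) : (1 : ℝ) ≤ (m : ℝ) * i - 1 := by
  have h' : (2 : ℝ) ≤ ((m * i : ℕ) : ℝ) := by exact_mod_cast hi
  push_cast at h'
  linarith

theorem c1_sub_lim {m : ℕ} (hm : 0 < m) {f : ℕ → ℕ → ℝ} {z : ℕ → ℝ} {g : ℕ → ℝ} {w : ℝ}
    (hc : ∀ n, Crit m (f n) (z n)) (hf : ∀ i, Tendsto (fun n => f n i) atTop (𝓝 (g i)))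
    (hz : Tendsto z atTop (𝓝 w)) : c1_Sub m g w := by
  refine ⟨fun i => ge_of_tendsto' (hf i) fun n => (hc n).nn i, fun s hs => ?_⟩
  refine le_of_tendsto_of_tendsto' (tendsto_finsetSum s fun i _ =>
    ((hf i).const_mul ((m : ℝ) * i - 1)).mul (hz.pow i)) (hf 0) fun n => (hc n).bound hm s hs

theorem c1_Sub.mono {m : ℕ} (hm : 0 < m) {g : ℕ → ℝ} {w r : ℝ} (h : c1_Sub m g w) (hr : 0 ≤ r)
    (hw : r ≤ w) : c1_Sub m g r := by
  refine ⟨h.nn, fun s hs => le_trans (Finset.sum_le_sum fun i hi => ?_) (h.bd s hs)⟩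
  have hi : 1 ≤ i := Nat.one_le_iff_ne_zero.2 fun e => hs (e ▸ hi)
  exact mul_le_mul_of_nonneg_left (pow_le_pow_left₀ hr hw i)
    (mul_nonneg (c1_coef hm hi) (h.nn i))

theorem c1_Sub.sum {m : ℕ} (hm : 0 < m) {g : ℕ → ℝ} {r : ℝ} (h : c1_Sub m g r) (hr : 0 ≤ r) :
    (Summable fun i => flat m g i * r ^ i) ∧ ser (flat m g) r ≤ 0 ∧
      Summable fun i => g i * r ^ i := by
  have h0 : ∀ i, 0 ≤ flat m g (i + 1) * r ^ (i + 1) := fun i =>
    mul_nonneg (mul_nonneg (c1_coef hm (Nat.le_add_left 1 i)) (h.nn _)) (pow_nonneg hr _)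
  have h1 : ∀ N, ∑ i ∈ Finset.range N, flat m g (i + 1) * r ^ (i + 1) ≤ g 0 := by
    intro N
    have := h.bd ((Finset.range N).map ⟨fun i => i + 1, add_left_injective 1⟩) (by simp)
    rw [Finset.sum_map] at this
    exact this
  have h2 : Summable fun i => flat m g (i + 1) * r ^ (i + 1) := summable_of_sum_range_le h0 h1
  have h3 : Summable fun i => flat m g i * r ^ i := (summable_nat_add_iff 1).1 h2
  refine ⟨h3, ?_, ?_⟩
  · rw [ser, h3.tsum_eq_zero_add]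
    have := Real.tsum_le_of_sum_range_le h0 h1
    simp only [flat, Nat.cast_zero, mul_zero, zero_sub, pow_zero, mul_one] at this ⊢
    linarith
  · refine (summable_nat_add_iff 2).1 (((summable_nat_add_iff 2).2 h3).of_nonneg_of_le
      (fun i => mul_nonneg (h.nn _) (pow_nonneg hr _)) fun i => ?_)
    refine mul_le_mul_of_nonneg_right (le_mul_of_one_le_left (h.nn _) (c1_coef2 ?_))
      (pow_nonneg hr _)
    nlinarith

theorem c1_poly_sum {θ : ℝ} (h0 : 0 ≤ θ) (h1 : θ < 1) (m : ℕ) (C : ℝ) :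
    Summable fun i : ℕ => ((m : ℝ) * i + 1) * (C * (1 + i ^ 2) * θ ^ i) := by
  have hn : ‖θ‖ < 1 := by rwa [Real.norm_of_nonneg h0]
  have a0 := summable_pow_mul_geometric_of_norm_lt_one 0 hn
  have a1 := summable_pow_mul_geometric_of_norm_lt_one 1 hn
  have a2 := summable_pow_mul_geometric_of_norm_lt_one 2 hn
  have a3 := summable_pow_mul_geometric_of_norm_lt_one 3 hn
  refine (((a0.add a2).mul_left C).add ((a1.add a3).mul_left (C * m))).congr fun i => ?_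
  ring

/-- dominated convergence for the critical equation and the critical value -/
theorem c1_dom {m : ℕ} {f : ℕ → ℕ → ℝ} {z : ℕ → ℝ} {g : ℕ → ℝ} {w C θ : ℝ}
    (hc : ∀ n, Crit m (f n) (z n)) (hf : ∀ i, Tendsto (fun n => f n i) atTop (𝓝 (g i)))
    (hz : Tendsto z atTop (𝓝 w)) (hg : 0 < g 0) (h0 : 0 ≤ θ) (h1 : θ < 1)
    (hb : ∀ᶠ n in atTop, ∀ i : ℕ, f n i * z n ^ i ≤ C * (1 + i ^ 2) * θ ^ i) :
    Crit m g w ∧ Tendsto (fun n => Bv m (f n) (z n)) atTop (𝓝 (Bv m g w)) := by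
  have hS := c1_poly_sum h0 h1 m C
  have hnn : ∀ n i, 0 ≤ f n i * z n ^ i := fun n i =>
    mul_nonneg ((hc n).nn i) (pow_nonneg (hc n).pos.le i)
  have hl : ∀ i, Tendsto (fun n => f n i * z n ^ i) atTop (𝓝 (g i * w ^ i)) := fun i =>
    (hf i).mul (hz.pow i)
  have hm1 : ∀ i : ℕ, (1 : ℝ) ≤ (m : ℝ) * i + 1 := fun i => le_add_of_nonneg_left (by positivity)
  have hb1 : ∀ᶠ n in atTop, ∀ i : ℕ,
      ‖f n i * z n ^ i‖ ≤ ((m : ℝ) * i + 1) * (C * (1 + i ^ 2) * θ ^ i) := by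
    filter_upwards [hb] with n hn i
    rw [Real.norm_of_nonneg (hnn n i)]
    exact (hn i).trans (le_mul_of_one_le_left ((hnn n i).trans (hn i)) (hm1 i))
  have hb2 : ∀ᶠ n in atTop, ∀ i : ℕ,
      ‖flat m (f n) i * z n ^ i‖ ≤ ((m : ℝ) * i + 1) * (C * (1 + i ^ 2) * θ ^ i) := by
    filter_upwards [hb] with n hn i
    rw [flat, mul_assoc, norm_mul, Real.norm_of_nonneg (hnn n i)]
    refine mul_le_mul ?_ (hn i) (hnn n i) (by positivity)
    rw [Real.norm_eq_abs, abs_le]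
    constructor
    · have : (0 : ℝ) ≤ (m : ℝ) * i := by positivity
      linarith
    · linarith
  have hl2 : ∀ i, Tendsto (fun n => flat m (f n) i * z n ^ i) atTop
      (𝓝 (flat m g i * w ^ i)) := fun i => ((hf i).const_mul _).mul (hz.pow i)
  have s1 : Summable fun i => g i * w ^ i :=
    hS.of_norm_bounded fun i => le_of_tendsto (hl i).norm (hb1.mono fun n hn => hn i)
  have s2 : Summable fun i => flat m g i * w ^ i :=
    hS.of_norm_bounded fun i => le_of_tendsto (hl2 i).norm (hb2.mono fun n hn => hn i)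
  have t1 := tendsto_tsum_of_dominated_convergence hS hl hb1
  have t2 := tendsto_tsum_of_dominated_convergence hS hl2 hb2
  have e2 : ∑' i, flat m g i * w ^ i = 0 := by
    simp only [fun n => (hc n).crit.tsum_eq] at t2
    exact tendsto_nhds_unique t2 tendsto_const_nhds
  have hw : 0 < w := by
    refine (ge_of_tendsto' hz fun n => (hc n).pos.le).lt_of_ne ?_
    rintro rfl
    rw [tsum_eq_single 0 fun i hi => by simp [hi]] at e2
    simp [flat] at e2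
    exact hg.ne' e2
  exact ⟨⟨hw, fun i => ge_of_tendsto' (hf i) fun n => (hc n).nn i, s1, e2 ▸ s2.hasSum⟩,
    (t1.pow m).div hz hw.ne'⟩

theorem c1_sum_le {m : ℕ} {L : Set ℕ} (hm : 0 < m) (hL : 0 ∉ L) {f : ℕ → ℝ} {z : ℝ}
    (hc : Crit m f z) (h0 : 0 < f 0) (ha : Adm L (Bv m f z)) (s : Finset ℕ)
    (hs : ∀ l ∈ s, l ∈ L) (i : ℤ) :
    ∑ l ∈ s, cf f (m * l - 1) (l - i) ≤ sT m (ind ℝ L) f i := by
  obtain ⟨C, hC⟩ := sT_summable hm hL hc.nn h0 hc.pos hc.sum ha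
  refine le_trans (Finset.sum_le_sum fun l hl => ?_) ((hC i).1.sum_le_tsum s fun l _ =>
    mul_nonneg (win_nn L l).1 (cf_nonneg hc.nn _ _))
  rw [ind, if_pos (hs l hl), one_mul]

theorem c1_sT_nonneg {m : ℕ} {L : Set ℕ} {f : ℕ → ℝ} (hf : ∀ i, 0 ≤ f i) (i : ℤ) :
    0 ≤ sT m (ind ℝ L) f i :=
  tsum_nonneg fun l => mul_nonneg (win_nn L l).1 (cf_nonneg hf _ _)

/-- admissibility at the radius dual to a subcritical point of the partner -/
theorem c1_adm {m : ℕ} (hm : 0 < m) {L : Set ℕ} {g h : ℕ → ℝ} {r t : ℝ} (hr : 0 < r) (ht : 0 < t)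
    (hg : c1_Sub m g r) (g0 : 0 < g 0) (hh : c1_Sub m h r⁻¹)
    (hle : ∀ s : Finset ℕ, (∀ l ∈ s, l ∈ L) → ∀ i : ℕ, 1 ≤ i →
      t * ∑ l ∈ s, cf g (m * l - 1) (l - i) ≤ h i) : Adm L (Bv m g r) := by
  by_cases hi : L.Finite
  · exact adm_of_finite hi _
  obtain ⟨s1, s2, s3⟩ := hg.sum hm hr.le
  set G := ser g r with hG
  have G0 : 0 < G := by
    have := s3.le_tsum 0 fun i _ => mul_nonneg (hg.nn i) (pow_nonneg hr.le i)
    simp only [pow_zero, mul_one] at this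
    exact g0.trans_le this
  have hB : Bv m g r = G ^ m / r := rfl
  rw [adm_iff hi (by rw [hB]; positivity)]
  by_contra hB1
  have hB1 : 1 ≤ G ^ m / r := not_lt.1 hB1
  have key : ∀ l, 2 ≤ l → g 0 / G ^ 2 ≤ ∑ i ∈ Finset.Icc 1 l,
      ((m : ℝ) * i - 1) * r⁻¹ ^ i * cf g (m * l - 1) (l - i) := by
    intro l hl
    have hl2 : 2 ≤ m * l := by nlinarith
    have h1 := es hl2 hg.nn hr s1 s2
    have h2 : ∑ i ∈ Finset.Icc 1 l,
        ((m : ℝ) * i - 1) * (cf g (m * l - 1) (l - i) * r ^ ((l : ℤ) - i)) =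
        r ^ l * ∑ i ∈ Finset.Icc 1 l, ((m : ℝ) * i - 1) * r⁻¹ ^ i * cf g (m * l - 1) (l - i) := by
      rw [Finset.mul_sum]
      refine Finset.sum_congr rfl fun i _ => ?_
      rw [zpow_sub₀ hr.ne', zpow_natCast, zpow_natCast, inv_pow]
      ring
    rw [h2, ← hG] at h1
    have h3 : r ^ l ≤ G ^ (m * l - 2) * G ^ 2 := by
      rw [← pow_add, Nat.sub_add_cancel hl2, pow_mul]
      exact pow_le_pow_left₀ hr.le (by rwa [le_div_iff₀ hr, one_mul] at hB1) l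
    refine le_of_mul_le_mul_left (le_trans ?_ h1) (pow_pos hr l)
    rw [← mul_div_assoc, div_le_iff₀ (by positivity), mul_comm (r ^ l), mul_assoc]
    exact mul_le_mul_of_nonneg_left h3 g0.le
  have key2 : ∀ s : Finset ℕ, (∀ l ∈ s, l ∈ L ∧ 2 ≤ l) → t * (s.card * (g 0 / G ^ 2)) ≤ h 0 := by
    intro s hs
    have hcn : ∀ i ∈ Finset.Icc 1 (s.sup id), 0 ≤ ((m : ℝ) * i - 1) * r⁻¹ ^ i := fun i hi =>
      mul_nonneg (c1_coef hm (Finset.mem_Icc.1 hi).1) (by positivity)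
    have h1 : (s.card : ℝ) * (g 0 / G ^ 2) ≤ ∑ l ∈ s, ∑ i ∈ Finset.Icc 1 (s.sup id),
        ((m : ℝ) * i - 1) * r⁻¹ ^ i * cf g (m * l - 1) (l - i) := by
      rw [← nsmul_eq_mul, ← Finset.sum_const]
      refine Finset.sum_le_sum fun l hl => (key l (hs l hl).2).trans ?_
      exact Finset.sum_le_sum_of_subset_of_nonneg
        (Finset.Icc_subset_Icc_right (Finset.le_sup (f := id) hl))
        fun i hi _ => mul_nonneg (hcn i hi) (cf_nonneg hg.nn _ _)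
    refine (mul_le_mul_of_nonneg_left h1 ht.le).trans (le_trans ?_
      (hh.bd (Finset.Icc 1 (s.sup id)) (by simp)))
    rw [Finset.sum_comm, Finset.mul_sum]
    refine Finset.sum_le_sum fun i hi => ?_
    rw [← Finset.mul_sum, mul_left_comm, mul_right_comm _ (h i)]
    exact mul_le_mul_of_nonneg_left (hle s (fun l hl => (hs l hl).1) i (Finset.mem_Icc.1 hi).1)
      (hcn i hi)
  have hinf : (L \ {0, 1}).Infinite := Set.Infinite.sdiff hi (by simp)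
  have hp : 0 < t * (g 0 / G ^ 2) := by positivity
  obtain ⟨N, hN⟩ := exists_nat_gt (h 0 / (t * (g 0 / G ^ 2)))
  obtain ⟨s, hs, hc⟩ := hinf.exists_subset_card_eq N
  have := key2 s fun l hl => by
    have := hs hl
    simp only [Set.mem_sdiff, mem_insert_iff, mem_singleton_iff, not_or] at this
    exact ⟨this.1, by omega⟩
  rw [div_lt_iff₀ hp] at hN
  rw [hc] at this
  linarith

theorem c1_adm_mono {L : Set ℕ} {B B' : ℝ} (h : Adm L B) (hB : B' ≤ B) : Adm L B' :=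
  let ⟨b, h1, h2⟩ := h
  ⟨b, hB.trans_lt h1, h2⟩

/-- a radius slightly inside an admissible radius -/
theorem c1_near {m : ℕ} (hm : 0 < m) {L : Set ℕ} {g : ℕ → ℝ} {r : ℝ} (hr : 0 < r)
    (hg : c1_Sub m g r) (ha : Adm L (Bv m g r)) :
    ∃ ρ, 0 < ρ ∧ ρ < r ∧ Adm L (Bv m g ρ) := by
  have h1 := adm_near hm hg.nn hr (hg.sum hm hr.le).2.2 ha
  have h2 : ∀ᶠ ρ in 𝓝[<] r, ρ ∈ Ioo 0 r := Ioo_mem_nhdsLT hr
  obtain ⟨ρ, h3, h4⟩ := (h1.and h2).exists
  exact ⟨ρ, h4.1, h4.2, h3⟩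

theorem c1_Bv_nonneg {m : ℕ} {g : ℕ → ℝ} {w : ℝ} (h : Crit m g w) : 0 ≤ Bv m g w :=
  div_nonneg (pow_nonneg (tsum_nonneg fun i => mul_nonneg (h.nn i) (pow_nonneg h.pos.le i)) m)
    h.pos.le

end Pool.Agent.MP_098ecc_co.H97
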