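import Pool.Agent.MP_098ecc_co.H97.C2finB

set_option autoImplicit false

namespace Pool.Agent.MP_098ecc_co.H97

open Metric Filter Topology Set Function
open scoped BoundedContinuousFunction

theorem c2f_hs {f g : ℕ → ℝ} {a b : ℝ} (h : HasSum f a) (e : ∀ i, g i = f i) (e' : b = a) :
    HasSum g b := by
  rw [funext e, e']
  exact h

theorem c2f_sT {D : Dat} {k : ℕ} (hmax : ∀ l ∈ D.L₁, l ≤ k) (f : ℕ → ℝ) (i : ℤ) :
    sT D.m (ind ℝ D.L₁) f i =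
      ∑ l ∈ Finset.range (k + 1), ind ℝ D.L₁ l * cf f (D.m * l - 1) (l - i) := by
  refine tsum_eq_sum fun l hl => ?_
  rw [c2f_ind_not fun h => hl (Finset.mem_range.2 (Nat.lt_succ_of_le (hmax l h))), zero_mul]

theorem c2f_pt {D : Dat} {k : ℕ} (hmax : ∀ l ∈ D.L₁, l ≤ k) {p : Amb} (h : Pos D p) :
    ∃ (σ : ℝ) (P a : ℕ → ℝ) (c : ℤ → ℝ), C2P D k p.t σ (p.z₁ * p.z₂) P a c ∧
      (∑' i, P i) ^ D.m = p.B₂ D ∧ P 0 ^ D.m * p.z₂ = 1 ∧ (∀ i, P i = p.Y i * p.z₂ ^ i * P 0) ∧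
      ∀ i, p.X i = σ * P 0 * a i * p.z₂ ^ i := by
  obtain ⟨lam, p₁, p₂, c₁, c₂, np, hl, hq, h2, h1, -, hB⟩ := np_of_pos h
  have x0 := (h.px 0).ne'
  have z1 := h.c₁.pos.ne'
  have z2 := h.c₂.pos.ne'
  have q0 := np.n₂.p0.ne'
  have l0 := np.lpos.ne'
  have hX : ∀ i, p.X i = p.X 0 * (p.X i / (p.X 0 * p.z₂ ^ i)) * p.z₂ ^ i := fun i => by
    field_simp
  refine ⟨p.X 0 / p₂ 0, p₂, fun i => p.X i / (p.X 0 * p.z₂ ^ i), c₂,
    ⟨h.tpos, mul_pos h.c₁.pos h.c₂.pos, np.n₂, ?_, ?_, fun i hi => ?_, fun i hi => ?_, ?_⟩,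
    hB, hq, h2, fun i => ?_⟩
  · rw [← np.m₁, h1 0]
    field_simp
  · simp [x0]
  · have h3 := np.h₁ i hi
    rw [h1 i, inv_eq_of_mul_eq_one_right hl, mul_pow] at h3
    field_simp at h3 ⊢
    linarith
  · rw [h2 i, h.eqs.hy i hi, c2f_sT hmax, Finset.mul_sum, Finset.sum_mul, Finset.sum_mul]
    refine Finset.sum_congr rfl fun l _ => ?_
    by_cases hL : l ∈ D.L₁
    swap
    · simp [c2f_ind_not hL]
    have l1 : 1 ≤ l := Nat.one_le_iff_ne_zero.2 fun e => D.z₁ (e ▸ hL)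
    have h3 := cf_scale (fun i => p.X i / (p.X 0 * p.z₂ ^ i)) (p.X 0) p.z₂ (D.m * l - 1)
      ((l : ℤ) - i)
    rw [← funext hX] at h3
    have h4 : p₂ 0 ^ (D.m * l - 1) * p₂ 0 * p.z₂ ^ l = 1 := by
      rw [← pow_succ, Nat.sub_add_cancel (Nat.mul_pos D.hm l1), pow_mul, ← mul_pow, hq, one_pow]
    rw [h3, zpow_sub₀ z2, zpow_natCast, zpow_natCast, div_pow,
      eq_inv_of_mul_eq_one_right h4]
    field_simp
  · have h3 := h.c₁.crit.mul_left (p.X 0)⁻¹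
    refine c2f_hs h3 (fun i => ?_) (mul_zero _).symm
    simp only [flat, mul_pow]
    field_simp
  · field_simp

theorem c2f_geo {m : ℕ} (hm : 0 < m) {R z w : ℝ} (hR : 0 < R) (hz : 0 < z) (hw : 0 < w)
    (h : (m + 1) * (z * w) = 1) : Crit m (fun i => R * w ^ i) z := by
  have m0 : (0 : ℝ) < m := by exact_mod_cast hm
  have hx : z * w = 1 / (m + 1) := by
    field_simp
    linarith
  have x0 : 0 < z * w := mul_pos hz hw
  have x1 : z * w < 1 := by nlinarith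
  have e : ∀ i : ℕ, R * w ^ i * z ^ i = R * (z * w) ^ i := fun i => by rw [mul_pow]; ring
  refine ⟨hz, fun i => by positivity, ?_, ?_⟩
  · simp only [e]
    exact (summable_geometric_of_lt_one x0.le x1).mul_left R
  · have h1 := hasSum_coe_mul_geometric_of_norm_lt_one (r := z * w)
      (by rwa [Real.norm_of_nonneg x0.le])
    have h2 := ((h1.mul_left (m : ℝ)).sub (hasSum_geometric_of_lt_one x0.le x1)).mul_left R
    refine c2f_hs h2 (fun i => ?_) ?_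
    · simp only [flat, mul_pow]
      ring
    · rw [hx, show (1 : ℝ) - 1 / (m + 1) = m / (m + 1) by field_simp; ring]
      field_simp
      ring

theorem c2fin (D : Dat) {k : ℕ} (hk : k ∈ D.L₁) (hmax : ∀ l ∈ D.L₁, l ≤ k) (p : ℕ → Amb)
    (hp : ∀ n, Pos D (p n)) (ht : Tendsto (fun n => (p n).t) atTop (𝓝 0))
    (h₂ : Tendsto (fun n => (p n).B₂ D) atTop (𝓝 1)) :
    ∃ (q : Amb) (φ : ℕ → ℕ) (s : ℕ → ℝ) (R : ℝ), StrictMono φ ∧
      (∀ n, 0 < s n ∧ s n ^ (D.m * k - 1) = (p (φ n)).t) ∧ Tendsto s atTop (𝓝 0) ∧ 0 < R ∧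
      (D.m + 1) * (q.z₁ * q.z₂) = 1 ∧ (∀ i, q.X i = R * q.z₂ ^ i) ∧ q.Y 0 = 1 ∧
      (∀ i ≤ k, 0 < q.Y i) ∧ (∀ i, k < i → q.Y i = 0 ∧ ∀ n, (p n).Y i = 0) ∧
      Crit D.m q.X q.z₁ ∧ Crit D.m q.Y q.z₂ ∧ q.B₂ D = 1 ∧
      (∀ i, Tendsto (fun n => s n * (p (φ n)).X i) atTop (𝓝 (q.X i))) ∧
      (∀ i, Tendsto (fun n => (p (φ n)).Y i) atTop (𝓝 (q.Y i))) ∧
      Tendsto (fun n => (p (φ n)).z₁) atTop (𝓝 q.z₁) ∧
      Tendsto (fun n => (p (φ n)).z₂) atTop (𝓝 q.z₂) ∧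
      PolyE (fun n i => s n * (p (φ n)).X i) fun n => (p (φ n)).z₂ := by
  choose σ P a c h hB hq hY hX using fun n => c2f_pt hmax (hp n)
  have hm := D.hm
  have hM : D.m * k - 1 ≠ 0 := by
    have := c2f_two D hmax
    omega
  obtain ⟨π, -, φ, hφ, hπ⟩ := (isCompact_univ_pi fun _ : ℕ => isCompact_Icc (a := (0 : ℝ))
    (b := 1)).tendsto_subseq (x := P) fun n i _ => ⟨(h n).nz.nn i, (h n).le1 i⟩
  replace hπ : ∀ i, Tendsto (fun n => P (φ n) i) atTop (𝓝 (π i)) := tendsto_pi_nhds.1 hπ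
  have ht' := ht.comp hφ.tendsto_atTop
  have hβ : Tendsto (fun n => ∑' i, P (φ n) i) atTop (𝓝 1) := by
    have h1 := (h₂.comp hφ.tendsto_atTop).rpow_const (p := (D.m : ℝ)⁻¹) (Or.inl one_ne_zero)
    rw [Real.one_rpow] at h1
    refine h1.congr fun n => ?_
    simp only [comp_apply]
    rw [← hB, Real.pow_rpow_inv_natCast (tsum_nonneg (h _).nz.nn) hm.ne']
  obtain ⟨nn, sp, s1, s0⟩ := c2f_lim (fun n => h (φ n)) hβ hπ
  obtain ⟨pp, ha, hμ, C, hC⟩ := c2f_core (fun n => h (φ n)) hk hmax ht' hβ hπ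
  have p0 := pp 0 (Nat.zero_le k)
  have pk := pp k le_rfl
  have m0 : (0 : ℝ) < D.m := by exact_mod_cast hm
  set M := D.m * k - 1 with hMd
  have iM : 0 < (M : ℝ)⁻¹ := inv_pos.2 (by exact_mod_cast Nat.pos_of_ne_zero hM)
  set s : ℕ → ℝ := fun n => (p (φ n)).t ^ (M : ℝ)⁻¹ with hs
  have s0' : ∀ n, 0 < s n := fun n => Real.rpow_pos_of_pos (hp _).tpos _
  have sM : ∀ n, s n ^ M = (p (φ n)).t := fun n => Real.rpow_inv_natCast_pow (hp _).tpos.le hM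
  have sσ : ∀ n, s n * σ (φ n) = P (φ n) k ^ (M : ℝ)⁻¹ := fun n => by
    rw [(h _).top hk, ← sM, ← mul_pow,
      Real.pow_rpow_inv_natCast (mul_pos (s0' n) (h _).spos).le hM]
  set w : ℝ := (π 0 ^ D.m)⁻¹ with hw
  have w0 : 0 < w := by positivity
  have z2 : Tendsto (fun n => (p (φ n)).z₂) atTop (𝓝 w) :=
    (((hπ 0).pow D.m).inv₀ (by positivity)).congr fun n => inv_eq_of_mul_eq_one_right (hq _)
  have z1 : Tendsto (fun n => (p (φ n)).z₁) atTop (𝓝 (1 / (D.m + 1) / w)) :=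
    (hμ.div z2 w0.ne').congr fun n => mul_div_cancel_right₀ _ (hp _).c₂.pos.ne'
  have e1 : ((D.m : ℝ) + 1) * (1 / (D.m + 1) / w * w) = 1 := by field_simp
  have R0 : 0 < π k ^ (M : ℝ)⁻¹ * π 0 := mul_pos (Real.rpow_pos_of_pos pk _) p0
  have eY : ∀ i, π i / (w ^ i * π 0) * w ^ i = π i / π 0 := fun i => by field_simp
  have hsY : HasSum (fun i => π i / (w ^ i * π 0) * w ^ i) (π 0)⁻¹ := by
    simp only [eY]
    have h1 : HasSum π (∑ i ∈ Finset.range (k + 1), π i) :=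
      hasSum_sum_of_ne_finset_zero fun i hi => sp i (by simpa [Nat.succ_le_iff] using hi)
    simpa [s1] using h1.div_const (π 0)
  refine ⟨(0, fun i => π k ^ (M : ℝ)⁻¹ * π 0 * w ^ i, fun i => π i / (w ^ i * π 0),
    1 / (D.m + 1) / w, w), φ, s, π k ^ (M : ℝ)⁻¹ * π 0, hφ, fun n => ⟨s0' n, sM n⟩, ?_, R0, e1,
    fun _ => rfl, ?_, fun i hi => ?_, fun i hi => ⟨?_, fun n => ?_⟩,
    c2f_geo hm R0 (by positivity) w0 e1, ⟨w0, fun i => ?_, hsY.summable, ?_⟩, ?_, fun i => ?_,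
    fun i => ?_, z1, z2, max C 0, ?_⟩
  · have h1 := ht'.rpow_const (p := (M : ℝ)⁻¹) (Or.inr iM.le)
    rwa [Real.zero_rpow iM.ne'] at h1
  · simp [Amb.Y, p0.ne']
  · exact div_pos (pp i hi) (by positivity)
  · simp [Amb.Y, sp i hi]
  · have h1 := hY n i
    rw [(h n).supp hi] at h1
    exact (mul_eq_zero.1 ((mul_eq_zero.1 h1.symm).resolve_right (h n).nz.p0.ne')).resolve_right
      (pow_pos (hp n).c₂.pos i).ne'
  · exact div_nonneg (nn i) (by positivity)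
  · have h1 : HasSum (flat D.m π) (∑ i ∈ Finset.range (k + 1), flat D.m π i) :=
      hasSum_sum_of_ne_finset_zero fun i hi => by
        unfold flat
        rw [sp i (by simpa [Nat.succ_le_iff] using hi), mul_zero]
    have h2 := h1.div_const (π 0)
    rw [s0, zero_div] at h2
    refine c2f_hs h2 (fun i => ?_) rfl
    simp only [flat, Amb.Y, Amb.z₂]
    rw [mul_assoc, eY]
    ring
  · simp only [Amb.B₂, Bv, ser, Amb.Y, Amb.z₂]
    rw [hsY.tsum_eq, inv_pow, div_self w0.ne']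
  · have h1 := ((((hπ k).rpow_const (p := (M : ℝ)⁻¹) (Or.inr iM.le)).mul (hπ 0)).mul (ha i)).mul
      (z2.pow i)
    rw [mul_one] at h1
    refine h1.congr fun n => ?_
    rw [hX, ← sσ]
    ring
  · refine ((hπ i).div ((z2.pow i).mul (hπ 0)) (by positivity)).congr fun n => ?_
    have h1 := (h (φ n)).nz.p0.ne'
    have h2 := (hp (φ n)).c₂.pos.ne'
    simp only [Pi.div_apply]
    rw [div_eq_iff (by positivity), hY (φ n) i]
    ring
  · filter_upwards [hC] with n hn i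
    have h1 : s n * σ (φ n) ≤ 1 := by
      rw [sσ]
      exact Real.rpow_le_one ((h _).nz.nn k) ((h _).le1 k) iM.le
    have h2 : s n * σ (φ n) * P (φ n) 0 ≤ 1 :=
      mul_le_one₀ h1 ((h _).nz.nn 0) ((h _).le1 0)
    have h3 : a (φ n) i ≤ max C 0 * (1 + i ^ 2) :=
      (hn i).trans (mul_le_mul_of_nonneg_right (le_max_left _ _) (by positivity))
    have h4 := mul_le_mul h2 h3 ((h _).ann i) zero_le_one
    have h5 := mul_le_mul_of_nonneg_right h4 (pow_pos (hp (φ n)).c₂.pos i).le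
    rw [hX]
    linarith

end Pool.Agent.MP_098ecc_co.H97
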