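import Pool.Agent.MP_098ecc_co.H97.PoslB
import Pool.Agent.MP_098ecc_co.H97.Fl
import Pool.Agent.MP_098ecc_co.H97.Comp0

set_option autoImplicit false

namespace Pool.Agent.MP_098ecc_co.H97

open Metric Filter Topology Set Function
open scoped BoundedContinuousFunction

theorem c2f_cf_neg (f : ℕ → ℝ) (N : ℕ) {j : ℤ} (hj : j < 0) : cf f N j = 0 := by
  unfold cf
  rw [if_neg (not_le.2 hj)]

theorem c2f_cf_nat (f : ℕ → ℝ) (N j : ℕ) :
    cf f N (j : ℤ) = PowerSeries.coeff j (PowerSeries.mk f ^ N) := by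
  unfold cf
  rw [if_pos (Int.natCast_nonneg j), Int.toNat_natCast]

theorem c2f_cf_zero (f : ℕ → ℝ) (N : ℕ) : cf f N 0 = f 0 ^ N := by
  have := c2f_cf_nat f N 0
  rw [Nat.cast_zero] at this
  rw [this]
  simp

theorem c2f_cf_succ {f : ℕ → ℝ} (hf : ∀ i, 0 ≤ f i) (N r : ℕ) (s : ℤ) :
    f r * cf f N s ≤ cf f (N + 1) (s + r) := by
  rcases lt_or_ge s 0 with hs | hs
  · rw [c2f_cf_neg f N hs, mul_zero]
    exact cf_nonneg hf _ _
  · obtain ⟨u, rfl⟩ := Int.eq_ofNat_of_zero_le hs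
    have e : (u : ℤ) + r = ((r + u : ℕ) : ℤ) := by push_cast; ring
    rw [e, c2f_cf_nat f (N + 1), pow_succ', PowerSeries.coeff_mul]
    have hm : (r, u) ∈ Finset.HasAntidiagonal.antidiagonal (r + u) := by simp
    have h1 := Finset.single_le_sum (f := fun x : ℕ × ℕ =>
      PowerSeries.coeff x.1 (PowerSeries.mk f) * PowerSeries.coeff x.2 (PowerSeries.mk f ^ N))
      (fun x _ => by
        rw [← c2f_cf_nat, PowerSeries.coeff_mk]
        exact mul_nonneg (hf _) (cf_nonneg hf _ _)) hm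
    simp only [PowerSeries.coeff_mk] at h1 ⊢
    rw [c2f_cf_nat]
    exact h1

theorem c2f_cf_pred {f : ℕ → ℝ} (hf : ∀ i, 0 ≤ f i) (h0 : f 0 = 1) {N : ℕ} (hN : 0 < N) {s : ℤ}
    (hs : s < N) : cf f N s ≤ N * cf f (N - 1) s := by
  have h := cf_flat (m := 1) (l := N) one_pos hN f (N - s)
  simp only [one_mul, sub_sub_cancel] at h
  have h2 : ((N : ℝ) - s) * cf f N s ≤ N * cf f (N - 1) s := by
    have h3 := h.neg
    have h4 : HasSum (fun i : ℕ => if i = 0 then (N : ℝ) * cf f (N - 1) s else 0)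
        (N * cf f (N - 1) s) := hasSum_ite_eq 0 _
    have h5 := hasSum_le (fun i => ?_) h3 h4
    · push_cast at h5
      linarith
    · by_cases hi : i = 0
      · subst hi
        simp [flat, h0]
      · rw [if_neg hi]
        have h6 : (1 : ℝ) ≤ i := by exact_mod_cast Nat.one_le_iff_ne_zero.2 hi
        have h7 : 0 ≤ flat 1 f i := by
          unfold flat
          exact mul_nonneg (by push_cast; linarith) (hf i)
        have := mul_nonneg (Nat.cast_nonneg N : (0 : ℝ) ≤ N)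
          (mul_nonneg h7 (cf_nonneg hf (N - 1) ((N : ℤ) - ((N : ℤ) - s + i))))
        linarith
  have h8 : (1 : ℝ) ≤ (N : ℝ) - s := by
    have : (1 : ℤ) ≤ N - s := by omega
    exact_mod_cast this
  have := cf_nonneg hf N s
  nlinarith

theorem c2f_cf_one {f : ℕ → ℝ} (hf : ∀ i, 0 ≤ f i) (h0 : f 0 = 1) {N : ℕ} (hN : 0 < N) (r : ℕ) :
    f r ≤ cf f N r := by
  have h := c2f_cf_succ hf (N - 1) r 0
  rw [c2f_cf_zero, h0, one_pow, mul_one, zero_add, Nat.sub_add_cancel hN] at h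
  exact h

theorem c2f_cf_two {f : ℕ → ℝ} (hf : ∀ i, 0 ≤ f i) (k u v : ℕ) :
    f k ^ u * f 0 ^ v ≤ cf f (u + v) ((u * k : ℕ) : ℤ) := by
  have h := cf_ge_prod hf (Multiset.replicate u k + Multiset.replicate v 0)
  simpa [Multiset.map_add, Multiset.prod_add, Multiset.map_replicate, Multiset.prod_replicate,
    Multiset.sum_replicate] using h

/-- a positive solution with finite first set, in normalised form -/
structure C2P (D : Dat) (k : ℕ) (t σ μ : ℝ) (P a : ℕ → ℝ) (c : ℤ → ℝ) : Prop where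
  tpos : 0 < t
  mpos : 0 < μ
  nz : Nz D.m D.L₂ t P c
  hσ : σ = c 0 + t / P 0
  a0 : a 0 = 1
  ha : ∀ i : ℕ, 1 ≤ i → a i * σ = c i
  hP : ∀ i : ℕ, 1 ≤ i → P i = ∑ l ∈ Finset.range (k + 1),
    ind ℝ D.L₁ l * (t * σ ^ (D.m * l - 1) * cf a (D.m * l - 1) (l - i))
  crit : HasSum (fun i : ℕ => flat D.m a i * μ ^ i) 0

theorem c2f_ind_nonneg (L : Set ℕ) (l : ℕ) : 0 ≤ ind ℝ L l := by
  unfold ind
  split_ifs <;> norm_num

theorem c2f_ind_le (L : Set ℕ) (l : ℕ) : ind ℝ L l ≤ 1 := by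
  unfold ind
  split_ifs <;> norm_num

theorem c2f_ind_mem {L : Set ℕ} {l : ℕ} (h : l ∈ L) : ind ℝ L l = 1 := by
  unfold ind
  rw [if_pos h]

theorem c2f_ind_not {L : Set ℕ} {l : ℕ} (h : l ∉ L) : ind ℝ L l = 0 := by
  unfold ind
  rw [if_neg h]

theorem c2f_two (D : Dat) {k : ℕ} (hmax : ∀ l ∈ D.L₁, l ≤ k) : 2 ≤ D.m * k := by
  obtain ⟨l, hl, h2⟩ := D.two₁
  exact h2.trans (Nat.mul_le_mul_left _ (hmax l hl))

section
variable {D : Dat} {k : ℕ} {t σ μ : ℝ} {P a : ℕ → ℝ} {c : ℤ → ℝ}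

theorem C2P.cnn (h : C2P D k t σ μ P a c) (i : ℤ) : 0 ≤ c i := h.nz.nonneg h.tpos.le i

theorem C2P.tq (h : C2P D k t σ μ P a c) : t / P 0 ≤ σ := by
  have := h.cnn 0
  rw [h.hσ]
  linarith

theorem C2P.c0 (h : C2P D k t σ μ P a c) : c 0 ≤ σ := by
  have := div_pos h.tpos h.nz.p0
  rw [h.hσ]
  linarith

theorem C2P.spos (h : C2P D k t σ μ P a c) : 0 < σ :=
  (div_pos h.tpos h.nz.p0).trans_le h.tq

theorem C2P.ann (h : C2P D k t σ μ P a c) (i : ℕ) : 0 ≤ a i := by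
  rcases Nat.eq_zero_or_pos i with rfl | hi
  · rw [h.a0]; norm_num
  · have h1 := h.ha i hi
    have h2 := h.cnn i
    rw [← h1] at h2
    exact nonneg_of_mul_nonneg_left h2 h.spos

theorem C2P.lt1 (h : C2P D k t σ μ P a c) : ∑' i, P i < 1 := h.nz.lt_one D.hm D.inf₂

theorem C2P.le1 (h : C2P D k t σ μ P a c) (i : ℕ) : P i ≤ 1 :=
  (h.nz.sum.le_tsum i fun j _ => h.nz.nn j).trans h.lt1.le

theorem C2P.supp (h : C2P D k t σ μ P a c) {i : ℕ} (hi : k < i) : P i = 0 := by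
  rw [h.hP i (by omega)]
  refine Finset.sum_eq_zero fun l hl => ?_
  have := Finset.mem_range.1 hl
  rw [c2f_cf_neg a _ (by omega)]
  simp

theorem C2P.term_nn (h : C2P D k t σ μ P a c) (l : ℕ) (j : ℤ) :
    0 ≤ ind ℝ D.L₁ l * (t * σ ^ (D.m * l - 1) * cf a (D.m * l - 1) j) :=
  mul_nonneg (c2f_ind_nonneg _ _)
    (mul_nonneg (mul_nonneg h.tpos.le (pow_nonneg h.spos.le _)) (cf_nonneg h.ann _ _))

theorem C2P.term_le (h : C2P D k t σ μ P a c) {l : ℕ} (hl : l ∈ D.L₁) (hk : l ≤ k) {i : ℕ}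
    (hi : 1 ≤ i) : t * σ ^ (D.m * l - 1) * cf a (D.m * l - 1) (l - i) ≤ P i := by
  rw [h.hP i hi]
  have h1 := Finset.single_le_sum (f := fun l : ℕ =>
    ind ℝ D.L₁ l * (t * σ ^ (D.m * l - 1) * cf a (D.m * l - 1) (l - i)))
    (fun l _ => h.term_nn l _) (Finset.mem_range.2 (Nat.lt_succ_of_le hk))
  simp only [c2f_ind_mem hl, one_mul] at h1
  exact h1

theorem C2P.top (h : C2P D k t σ μ P a c) (hk : k ∈ D.L₁) : P k = t * σ ^ (D.m * k - 1) := by
  have k1 : 1 ≤ k := Nat.one_le_iff_ne_zero.2 fun e => D.z₁ (e ▸ hk)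
  rw [h.hP k k1, Finset.sum_range_succ, Finset.sum_eq_zero, zero_add, c2f_ind_mem hk, sub_self,
    c2f_cf_zero, h.a0]
  · simp
  · intro l hl
    have := Finset.mem_range.1 hl
    rw [c2f_cf_neg a _ (by omega)]
    simp

theorem C2P.upper (h : C2P D k t σ μ P a c) (hk : k ∈ D.L₁) {g : ℕ → ℝ} (hg : ∀ i, a i ≤ g i)
    {i : ℕ} (hi : 1 ≤ i) :
    P i ≤ (t + P k) * ∑ l ∈ Finset.range (k + 1), cf g (D.m * l - 1) (l - i) := by
  rw [h.hP i hi, Finset.mul_sum, h.top hk]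
  refine Finset.sum_le_sum fun l hl => ?_
  have hl' := Finset.mem_range.1 hl
  have h1 : D.m * l - 1 ≤ D.m * k - 1 :=
    Nat.sub_le_sub_right (Nat.mul_le_mul_left _ (by omega)) 1
  have h2 : σ ^ (D.m * l - 1) ≤ 1 + σ ^ (D.m * k - 1) := by
    rcases le_total σ 1 with h3 | h3
    · have := pow_le_one₀ (n := D.m * l - 1) h.spos.le h3
      have := pow_nonneg h.spos.le (D.m * k - 1)
      linarith
    · have := pow_le_pow_right₀ h3 h1
      linarith
  have h4 := cf_mono h.ann hg (D.m * l - 1) ((l : ℤ) - i)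
  have h5 := cf_nonneg h.ann (D.m * l - 1) ((l : ℤ) - i)
  have h6 : t * σ ^ (D.m * l - 1) ≤ t + t * σ ^ (D.m * k - 1) := by
    have := mul_le_mul_of_nonneg_left h2 h.tpos.le
    linarith
  have h7 : 0 ≤ t * σ ^ (D.m * l - 1) := mul_nonneg h.tpos.le (pow_nonneg h.spos.le _)
  calc _ ≤ 1 * (t * σ ^ (D.m * l - 1) * cf a (D.m * l - 1) (l - i)) :=
        mul_le_mul_of_nonneg_right (c2f_ind_le _ _) (mul_nonneg h7 h5)
    _ ≤ _ := by
        rw [one_mul]
        exact mul_le_mul h6 h4 h5 (h7.trans h6)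

theorem C2P.low (h : C2P D k t σ μ P a c) {r j : ℕ} (hr : r < j) (hj : 2 ≤ D.m * j) :
    a r * P j ≤ D.m * k := by
  have hm := D.hm
  have j1 : 1 ≤ j := by omega
  have key : a r * P j ≤ (D.m * k : ℝ) * P (j - r) := by
    rw [h.hP j j1, h.hP (j - r) (by omega), Finset.mul_sum, Finset.mul_sum]
    refine Finset.sum_le_sum fun l hl => ?_
    have hl' := Finset.mem_range.1 hl
    by_cases hL : l ∈ D.L₁
    swap
    · simp [c2f_ind_not hL]
    have l1 : 1 ≤ l := Nat.one_le_iff_ne_zero.2 fun e => D.z₁ (e ▸ hL)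
    rcases lt_or_ge l j with hlj | hlj
    · rw [c2f_cf_neg a (D.m * l - 1) (j := (l : ℤ) - j) (by omega)]
      have := h.term_nn l ((l : ℤ) - (j - r : ℕ))
      have h9 : (0 : ℝ) ≤ D.m * k := by positivity
      simp only [mul_zero]
      exact mul_nonneg h9 this
    have hml : D.m * j ≤ D.m * l := Nat.mul_le_mul_left _ hlj
    have hN : 0 < D.m * l - 1 := by omega
    have hs : (l : ℤ) - j < ((D.m * l - 1 : ℕ) : ℤ) := by
      have h1 : l ≤ D.m * l := Nat.le_mul_of_pos_left l hm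
      rcases Nat.lt_or_ge 1 D.m with h2 | h2
      · have : 2 * l ≤ D.m * l := Nat.mul_le_mul_right _ h2
        omega
      · have h3 : D.m = 1 := by omega
        rw [h3] at hj ⊢
        omega
    have h1 := c2f_cf_pred h.ann h.a0 hN hs
    have h2 := c2f_cf_succ h.ann (D.m * l - 1 - 1) r ((l : ℤ) - j)
    rw [Nat.sub_add_cancel hN] at h2
    have e : (l : ℤ) - j + r = (l : ℤ) - (j - r : ℕ) := by omega
    rw [e] at h2
    have h3 : ((D.m * l - 1 : ℕ) : ℝ) ≤ D.m * k := by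
      have : D.m * l - 1 ≤ D.m * k :=
        (Nat.sub_le _ _).trans (Nat.mul_le_mul_left _ (by omega))
      exact_mod_cast this
    have h4 : a r * cf a (D.m * l - 1) ((l : ℤ) - j) ≤
        D.m * k * cf a (D.m * l - 1) ((l : ℤ) - (j - r : ℕ)) := by
      have h5 := mul_le_mul_of_nonneg_left h1 (h.ann r)
      have h6 := cf_nonneg h.ann (D.m * l - 1) ((l : ℤ) - (j - r : ℕ))
      have h7 := mul_le_mul_of_nonneg_left h2 (Nat.cast_nonneg (D.m * l - 1) : (0 : ℝ) ≤ _)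
      have h8 := mul_le_mul_of_nonneg_right h3 h6
      nlinarith
    have h7 : 0 ≤ t * σ ^ (D.m * l - 1) := mul_nonneg h.tpos.le (pow_nonneg h.spos.le _)
    have h8 := mul_le_mul_of_nonneg_left h4 h7
    rw [c2f_ind_mem hL]
    nlinarith
  have h1 := h.le1 (j - r)
  have h9 : (0 : ℝ) ≤ D.m * k := by positivity
  nlinarith

theorem C2P.sum_eq (h : C2P D k t σ μ P a c) : ∑ i ∈ Finset.range (k + 1), P i = ∑' i, P i :=
  (tsum_eq_sum fun i hi => h.supp (by simpa [Nat.succ_le_iff] using hi)).symm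

theorem C2P.flat_eq (h : C2P D k t σ μ P a c) :
    ∑ i ∈ Finset.range (k + 1), flat D.m P i = 0 := by
  refine (hasSum_sum_of_ne_finset_zero fun i hi => ?_).unique h.nz.crit
  unfold flat
  rw [h.supp (by simpa [Nat.succ_le_iff] using hi), mul_zero]

/-- second differences along `j` -/
theorem C2P.diff (h : C2P D k t σ μ P a c) {j : ℕ} (hj : 1 ≤ j) {ε : ℝ} (hε : 0 < ε)
    (hp : ε ≤ P j) (i : ℤ) : |c (i + j) + c (i - j) - 2 * c i| ≤ 2 / ε * σ := by
  refine (fl0 D.hm D.z₂ h.tpos.le h.nz h.lt1 hj (hε.trans_le hp) i).trans ?_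
  have h1 := h.tq
  have h2 := div_pos h.tpos h.nz.p0
  calc 2 * t / (P 0 * P j) = 2 / P j * (t / P 0) := by
        have := h.nz.p0.ne'
        have := (hε.trans_le hp).ne'
        field_simp
    _ ≤ 2 / ε * σ :=
        mul_le_mul (div_le_div_of_nonneg_left (by norm_num) hε hp) h1 h2.le (by positivity)

/-- polynomial bound from one step `j` -/
theorem C2P.poly (h : C2P D k t σ μ P a c) {j : ℕ} (hj : 1 ≤ j) {ε B : ℝ} (hε : 0 < ε)
    (hp : ε ≤ P j) (hB : 1 ≤ B) (hb : ∀ r < j, a r ≤ B) (i : ℕ) :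
    a i ≤ (2 * B + 2 / ε) * (1 + i ^ 2) := by
  have hK : 0 < 2 / ε := by positivity
  rcases Nat.eq_zero_or_pos i with rfl | hi
  · rw [h.a0]
    simp
    linarith
  have hq := quad h.cnn (h.diff hj hε hp) ((i % j : ℕ) : ℤ) (i / j)
  have e : ((i % j : ℕ) : ℤ) + ((i / j : ℕ) : ℤ) * j = i := by
    have := Nat.mod_add_div' i j
    exact_mod_cast this
  rw [e, ← h.ha i hi] at hq
  have h1 : c ((i % j : ℕ) : ℤ) ≤ B * σ := by
    rcases Nat.eq_zero_or_pos (i % j) with h0 | h0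
    · rw [h0, Nat.cast_zero]
      have := h.c0
      have := h.spos
      nlinarith
    · rw [← h.ha _ h0]
      exact mul_le_mul_of_nonneg_right (hb _ (Nat.mod_lt _ hj)) h.spos.le
  have h2 : ((i / j : ℕ) : ℝ) ≤ i := by exact_mod_cast Nat.div_le_self i j
  have h3 : (0 : ℝ) ≤ (i / j : ℕ) := Nat.cast_nonneg _
  have h4 : (1 : ℝ) ≤ i := by exact_mod_cast hi
  set u : ℝ := ((i / j : ℕ) : ℝ)
  have h5 : 1 + u ≤ 2 * (1 + (i : ℝ) ^ 2) := by nlinarith
  have h6 : u * (u + 1) / 2 ≤ 1 + (i : ℝ) ^ 2 := by nlinarith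
  have hs := h.spos
  have h7 : (1 + u) * c ((i % j : ℕ) : ℤ) ≤ 2 * (1 + (i : ℝ) ^ 2) * (B * σ) :=
    mul_le_mul h5 h1 (h.cnn _) (by positivity)
  have h8 : 2 / ε * σ * (u * (u + 1) / 2) ≤ 2 / ε * σ * (1 + (i : ℝ) ^ 2) :=
    mul_le_mul_of_nonneg_left h6 (by positivity)
  refine le_of_mul_le_mul_right ?_ hs
  nlinarith

end

end Pool.Agent.MP_098ecc_co.H97
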