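import Pool.Agent.MP_098ecc_co.H97.C2finA

set_option autoImplicit false

namespace Pool.Agent.MP_098ecc_co.H97

open Metric Filter Topology Set Function
open scoped BoundedContinuousFunction

theorem c2f_flat_lim {c : ℕ → ℤ → ℝ} (hc : ∀ n i, 0 ≤ c n i) {j : ℤ}
    (h : ∀ δ > (0 : ℝ), ∀ᶠ n in atTop, ∀ i, |c n (i + j) + c n (i - j) - 2 * c n i| ≤ δ)
    {i : ℤ} {a : ℝ} (ha : Tendsto (fun n => c n i) atTop (𝓝 a)) (k : ℤ) :
    Tendsto (fun n => c n (i + k * j)) atTop (𝓝 a) := by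
  refine flat_lim (K := fun n => ⨆ i, |c n (i + j) + c n (i - j) - 2 * c n i|) hc ?_ ?_ ha k
  · filter_upwards [h 1 one_pos] with n hn i
    exact le_ciSup (f := fun i => |c n (i + j) + c n (i - j) - 2 * c n i|)
      ⟨1, by rintro _ ⟨i, rfl⟩; exact hn i⟩ i
  · rw [tendsto_order]
    constructor
    · intro b hb
      exact Eventually.of_forall fun n => hb.trans_le (Real.iSup_nonneg fun _ => abs_nonneg _)
    · intro b hb
      filter_upwards [h (b / 2) (by linarith)] with n hn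
      exact (ciSup_le hn).trans_lt (by linarith)

section
variable {D : Dat} {k : ℕ} {t σ μ : ℕ → ℝ} {P a : ℕ → ℕ → ℝ} {c : ℕ → ℤ → ℝ} {π : ℕ → ℝ}

theorem c2f_lim (h : ∀ n, C2P D k (t n) (σ n) (μ n) (P n) (a n) (c n))
    (hβ : Tendsto (fun n => ∑' i, P n i) atTop (𝓝 1))
    (hπ : ∀ i, Tendsto (fun n => P n i) atTop (𝓝 (π i))) :
    (∀ i, 0 ≤ π i) ∧ (∀ i, k < i → π i = 0) ∧ ∑ i ∈ Finset.range (k + 1), π i = 1 ∧
      ∑ i ∈ Finset.range (k + 1), flat D.m π i = 0 := by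
  refine ⟨fun i => ge_of_tendsto' (hπ i) fun n => (h n).nz.nn i, fun i hi => ?_, ?_, ?_⟩
  · refine tendsto_nhds_unique (hπ i) ?_
    simp only [fun n => (h n).supp hi]
    exact tendsto_const_nhds
  · refine tendsto_nhds_unique (tendsto_finsetSum _ fun i _ => hπ i) ?_
    simp only [fun n => (h n).sum_eq]
    exact hβ
  · refine tendsto_nhds_unique (l := atTop) (f := fun n => ∑ i ∈ Finset.range (k + 1),
      flat D.m (P n) i) (tendsto_finsetSum _ fun i _ => (hπ i).const_mul _) ?_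
    simp only [fun n => (h n).flat_eq]
    exact tendsto_const_nhds

theorem c2f_top (h : ∀ n, C2P D k (t n) (σ n) (μ n) (P n) (a n) (c n)) (hk : k ∈ D.L₁)
    (ht : Tendsto t atTop (𝓝 0)) (hπ : ∀ i, Tendsto (fun n => P n i) atTop (𝓝 (π i)))
    {j : ℕ} (hj : 1 ≤ j) (hp : 0 < π j) {B : ℝ} (hB : 1 ≤ B)
    (hb : ∀ᶠ n in atTop, ∀ r < j, a n r ≤ B) :
    0 < π k ∧ ∃ C : ℝ, ∀ᶠ n in atTop, ∀ i, a n i ≤ C * (1 + i ^ 2) := by
  have h1 : ∀ᶠ n in atTop, ∀ i, a n i ≤ (2 * B + 2 / (π j / 2)) * (1 + i ^ 2) := by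
    filter_upwards [hb, (hπ j).eventually (lt_mem_nhds (half_lt_self hp))] with n h1 h2
    exact (h n).poly hj (half_pos hp) h2.le hB h1
  refine ⟨?_, _, h1⟩
  have h2 := le_of_tendsto_of_tendsto (hπ j) ((ht.add (hπ k)).mul_const
    (∑ l ∈ Finset.range (k + 1), cf (fun i : ℕ => (2 * B + 2 / (π j / 2)) * (1 + (i : ℝ) ^ 2))
      (D.m * l - 1) (l - j))) (h1.mono fun n hn => (h n).upper hk hn hj)
  have h3 : 0 ≤ π k := ge_of_tendsto' (hπ k) fun n => (h n).nz.nn k
  rcases h3.lt_or_eq with h4 | h4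
  · exact h4
  · rw [← h4] at h2
    simp only [add_zero, zero_mul] at h2
    linarith

theorem c2f_flat_nn {m : ℕ} (hm : 0 < m) (hπ : ∀ i, 0 ≤ π i) {i : ℕ} (hi : 1 ≤ i) :
    0 ≤ flat m π i := by
  have : (1 : ℝ) ≤ m * i := by exact_mod_cast Nat.mul_pos hm hi
  exact mul_nonneg (by linarith) (hπ i)

theorem c2f_pos (h : ∀ n, C2P D k (t n) (σ n) (μ n) (P n) (a n) (c n)) (hk : k ∈ D.L₁)
    (hmax : ∀ l ∈ D.L₁, l ≤ k) (ht : Tendsto t atTop (𝓝 0))
    (hβ : Tendsto (fun n => ∑' i, P n i) atTop (𝓝 1))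
    (hπ : ∀ i, Tendsto (fun n => P n i) atTop (𝓝 (π i))) :
    0 < π 0 ∧ 0 < π k ∧ ∃ C : ℝ, ∀ᶠ n in atTop, ∀ i, a n i ≤ C * (1 + i ^ 2) := by
  obtain ⟨nn, sp, s1, s0⟩ := c2f_lim h hβ hπ
  have hm := D.hm
  have p0 : 0 < π 0 := by
    refine (nn 0).lt_of_ne fun e => ?_
    have z : ∀ j, 2 ≤ D.m * j → π j = 0 := by
      intro j hj
      rcases lt_or_ge k j with h1 | h1
      · exact sp j h1
      have h2 := (Finset.sum_eq_zero_iff_of_nonneg fun i _ => ?_).1 s0 j
        (Finset.mem_range.2 (Nat.lt_succ_of_le h1))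
      · have h3 : (2 : ℝ) ≤ D.m * j := by exact_mod_cast hj
        rcases mul_eq_zero.1 h2 with h4 | h4
        · linarith
        · exact h4
      · rcases Nat.eq_zero_or_pos i with rfl | hi
        · simp [flat, ← e]
        · exact c2f_flat_nn hm nn hi
    have z1 : π 1 = 0 := by
      refine ((nn 1).eq_of_not_lt fun h1 => ?_).symm
      have := (c2f_top h hk ht hπ le_rfl h1 le_rfl (Eventually.of_forall fun n r hr => by
        rw [show r = 0 by omega, (h n).a0])).1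
      rw [z k (c2f_two D hmax)] at this
      exact lt_irrefl _ this
    rw [Finset.sum_eq_zero] at s1
    · exact zero_ne_one s1
    · intro i _
      rcases Nat.lt_or_ge i 2 with h1 | h1
      · interval_cases i
        · exact e.symm
        · exact z1
      · exact z i (h1.trans (Nat.le_mul_of_pos_left i hm))
  obtain ⟨j, hj, hp⟩ : ∃ j, 2 ≤ D.m * j ∧ 0 < π j := by
    by_contra hne
    push Not at hne
    rw [Finset.sum_range_succ', Finset.sum_eq_zero] at s0
    · simp [flat] at s0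
      linarith
    · intro i _
      rcases Nat.lt_or_ge (D.m * (i + 1)) 2 with h1 | h1
      · have h2 : D.m * (i + 1) = 1 := by
          have : 0 < D.m * (i + 1) := Nat.mul_pos hm (Nat.succ_pos i)
          omega
        have h3 : (D.m : ℝ) * ((i + 1 : ℕ) : ℝ) = 1 := by exact_mod_cast h2
        unfold flat
        rw [h3, sub_self, zero_mul]
      · unfold flat
        rw [le_antisymm (hne _ h1) (nn _), mul_zero]
  have j1 : 1 ≤ j := by
    rcases Nat.eq_zero_or_pos j with rfl | h1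
    · simp at hj
    · exact h1
  refine ⟨p0, c2f_top h hk ht hπ j1 hp (le_max_left 1 (D.m * k / (π j / 2))) ?_⟩
  filter_upwards [(hπ j).eventually (lt_mem_nhds (half_lt_self hp))] with n hn r hr
  refine le_trans ?_ (le_max_right _ _)
  rw [le_div_iff₀ (half_pos hp)]
  exact (mul_le_mul_of_nonneg_left hn.le ((h n).ann r)).trans ((h n).low hr hj)

theorem c2f_sigma (h : ∀ n, C2P D k (t n) (σ n) (μ n) (P n) (a n) (c n)) (hk : k ∈ D.L₁)
    (ht : Tendsto t atTop (𝓝 0)) (hπ : Tendsto (fun n => P n k) atTop (𝓝 (π k)))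
    (pk : 0 < π k) : Tendsto σ atTop atTop := by
  have h1 : Tendsto (fun n => (t n)⁻¹) atTop atTop :=
    tendsto_inv_nhdsGT_zero.comp (tendsto_nhdsWithin_iff.2
      ⟨ht, Eventually.of_forall fun n => (h n).tpos⟩)
  have h2 : Tendsto (fun n => σ n ^ (D.m * k - 1)) atTop atTop := by
    refine (hπ.pos_mul_atTop pk h1).congr fun n => ?_
    have := (h n).tpos.ne'
    rw [(h n).top hk]
    field_simp
  refine tendsto_atTop.2 fun b => ?_
  filter_upwards [h2.eventually_gt_atTop (max b 0 ^ (D.m * k - 1))] with n hn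
  exact (le_max_left b 0).trans (lt_of_pow_lt_pow_left₀ _ (h n).spos.le hn).le

theorem c2f_one (h : ∀ n, C2P D k (t n) (σ n) (μ n) (P n) (a n) (c n)) (hk : k ∈ D.L₁)
    (hmax : ∀ l ∈ D.L₁, l ≤ k) (ht : Tendsto t atTop (𝓝 0))
    (hπ : ∀ i, Tendsto (fun n => P n i) atTop (𝓝 (π i))) (p0 : 0 < π 0) (pk : 0 < π k) (i : ℕ) :
    Tendsto (fun n => a n i) atTop (𝓝 1) := by
  have hσ := c2f_sigma h hk ht (hπ k) pk
  have hs : Tendsto (fun n => (σ n)⁻¹) atTop (𝓝 0) := tendsto_inv_atTop_zero.comp hσ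
  have s1 : ∀ᶠ n in atTop, 1 ≤ σ n := hσ.eventually_ge_atTop 1
  have h2 := c2f_two D hmax
  have hm := D.hm
  have k1 : 1 ≤ k := Nat.one_le_iff_ne_zero.2 fun e => D.z₁ (e ▸ hk)
  set b : ℕ → ℤ → ℝ := fun n i => c n i * (σ n)⁻¹ with hb
  have bnn : ∀ n i, 0 ≤ b n i := fun n i => mul_nonneg ((h n).cnn i) (inv_nonneg.2 (h n).spos.le)
  have bd : ∀ n (i j : ℤ), |b n (i + j) + b n (i - j) - 2 * b n i| =
      |c n (i + j) + c n (i - j) - 2 * c n i| * (σ n)⁻¹ := by
    intro n i j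
    rw [← abs_of_pos (inv_pos.2 (h n).spos), ← abs_mul]
    congr 1
    simp only [hb]
    ring
  set S : Set ℤ := {i | Tendsto (fun n => b n i) atTop (𝓝 1)} with hS
  have S0 : (0 : ℤ) ∈ S := by
    have h1 := (((ht.div (hπ 0) p0.ne').mul hs).const_sub 1)
    simp only [mul_zero, sub_zero] at h1
    refine h1.congr fun n => ?_
    have h3 := (h n).hσ
    have h4 := (h n).spos.ne'
    simp only [hb, Pi.div_apply]
    rw [show c n 0 = σ n - t n / P n 0 by linarith]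
    field_simp
  have F1 : ∀ l ∈ D.L₁, ∀ i ∈ S, ∀ x : ℤ, i + x * l ∈ S := by
    intro l hl i hi x
    have l1 : 1 ≤ l := Nat.one_le_iff_ne_zero.2 fun e => D.z₁ (e ▸ hl)
    have hK : Tendsto (fun n => 2 / P n 0 * (σ n)⁻¹) atTop (𝓝 0) := by
      simpa using ((tendsto_const_nhds (x := (2 : ℝ))).div (hπ 0) p0.ne').mul hs
    refine flat_lim bnn ?_ hK hi x
    filter_upwards [s1] with n hn i
    have h3 := (h n).term_le hl (hmax l hl) l1
    rw [sub_self, c2f_cf_zero, (h n).a0, one_pow, mul_one] at h3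
    have h4 : t n ≤ P n l :=
      (le_mul_of_one_le_right (h n).tpos.le (one_le_pow₀ hn)).trans h3
    have h5 := (h n).tpos.trans_le h4
    rw [bd]
    refine mul_le_mul_of_nonneg_right
      ((fl0 hm D.z₂ (h n).tpos.le (h n).nz (h n).lt1 l1 h5 i).trans ?_)
      (inv_nonneg.2 (h n).spos.le)
    have h6 := (h n).nz.p0
    rw [div_le_div_iff₀ (mul_pos h6 h5) h6]
    nlinarith
  have F2 : ∀ l ∈ D.L₂, ∀ i ∈ S, ∀ x : ℤ, i + x * l ∈ S := by
    intro l hl i hi x
    have l1 : 1 ≤ l := Nat.one_le_iff_ne_zero.2 fun e => D.z₂ (e ▸ hl)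
    obtain ⟨u, r, hr, e⟩ : ∃ u r, r < k ∧ l = u * k + r :=
      ⟨l / k, l % k, Nat.mod_lt _ k1, (Nat.div_add_mod' l k).symm⟩
    rcases Nat.eq_zero_or_pos r with r0 | r1
    · have := F1 k hk i hi (x * u)
      rw [e, r0]
      push_cast
      rwa [add_zero, ← mul_assoc]
    have hu : u ≤ D.m * l - 1 := by
      have h3 : D.m * l = u * (D.m * k) + D.m * r := by rw [e]; ring
      have h4 : u * 2 ≤ u * (D.m * k) := Nat.mul_le_mul_left _ h2
      have h5 := Nat.mul_pos hm r1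
      omega
    obtain ⟨v, hv⟩ := Nat.exists_eq_add_of_le hu
    set c₀ : ℝ := min (π 0 / 2) (π k / 2 * ((π k / 2) ^ u * (π 0 / 2) ^ v)) with hc₀
    have c0 : 0 < c₀ := lt_min (half_pos p0) (by positivity)
    have key : ∀ δ > (0 : ℝ), ∀ᶠ n in atTop, ∀ i,
        |b n (i + (k - r : ℕ)) + b n (i - (k - r : ℕ)) - 2 * b n i| ≤ δ := by
      intro δ hδ
      obtain ⟨t₁, t1, ht₁⟩ := flat_small hm c0 hδ
      filter_upwards [s1, ht.eventually (gt_mem_nhds t1),
        (hπ 0).eventually (lt_mem_nhds (half_lt_self p0)),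
        (hπ k).eventually (lt_mem_nhds (half_lt_self pk))] with n n1 n2 n3 n4 i
      have g1 := (h n).nz.ge hm D.z₂ (h n).tpos.le {l} (by simpa using hl) r
      rw [Finset.sum_singleton, show (l : ℤ) - r = ((u * k : ℕ) : ℤ) by rw [e]; push_cast; ring,
        hv, ← (h n).ha r r1] at g1
      have g2 := c2f_cf_two (h n).nz.nn k u v
      have g3 : (π k / 2) ^ u * (π 0 / 2) ^ v ≤ P n k ^ u * P n 0 ^ v := by
        have := (h n).nz.nn k
        gcongr
      have g4 := (h n).term_le hk le_rfl (i := k - r) (by omega)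
      rw [← (h n).top hk, show (k : ℤ) - (k - r : ℕ) = r by omega] at g4
      have g5 := c2f_cf_one (h n).ann (h n).a0 (N := D.m * k - 1) (by omega) r
      have g6 : π k / 2 * a n r ≤ P n (k - r) :=
        (mul_le_mul n4.le g5 ((h n).ann r) ((h n).nz.nn k)).trans g4
      have g7 : c₀ * t n ≤ σ n * P n (k - r) := by
        have g8 := mul_le_mul_of_nonneg_left (g3.trans g2) (h n).tpos.le
        calc c₀ * t n ≤ π k / 2 * ((π k / 2) ^ u * (π 0 / 2) ^ v) * t n :=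
              mul_le_mul_of_nonneg_right (min_le_right _ _) (h n).tpos.le
          _ = π k / 2 * (t n * ((π k / 2) ^ u * (π 0 / 2) ^ v)) := by ring
          _ ≤ π k / 2 * (a n r * σ n) :=
              mul_le_mul_of_nonneg_left (g8.trans g1) (half_pos pk).le
          _ = σ n * (π k / 2 * a n r) := by ring
          _ ≤ _ := mul_le_mul_of_nonneg_left g6 (h n).spos.le
      have g9 := ht₁ D.L₂ (t n) (σ n) (P n) (c n) (k - r) D.z₂ (h n).tpos n2 (h n).nz (h n).lt1
        ((min_le_left _ _).trans n3.le) n1 (by omega) g7 i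
      rw [bd, ← div_eq_mul_inv, div_le_iff₀ (h n).spos]
      exact g9
    have := c2f_flat_lim bnn key (F1 k hk i hi (x * (u + 1))) (-x)
    rwa [show i + x * (u + 1) * k + -x * (k - r : ℕ) = i + x * l by
      rw [e, Nat.cast_sub hr.le]; push_cast; ring] at this
  have all := shift_all D S0 (fun l hl => hl.elim (F1 l) (F2 l))
  rcases Nat.eq_zero_or_pos i with rfl | hi
  · simp only [fun n => (h n).a0]
    exact tendsto_const_nhds
  · refine Tendsto.congr (fun n => ?_) (all i)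
    simp only [hb]
    rw [← (h n).ha i hi, mul_assoc, mul_inv_cancel₀ (h n).spos.ne', mul_one]

theorem c2f_core (h : ∀ n, C2P D k (t n) (σ n) (μ n) (P n) (a n) (c n)) (hk : k ∈ D.L₁)
    (hmax : ∀ l ∈ D.L₁, l ≤ k) (ht : Tendsto t atTop (𝓝 0))
    (hβ : Tendsto (fun n => ∑' i, P n i) atTop (𝓝 1))
    (hπ : ∀ i, Tendsto (fun n => P n i) atTop (𝓝 (π i))) :
    (∀ i ≤ k, 0 < π i) ∧ (∀ i, Tendsto (fun n => a n i) atTop (𝓝 1)) ∧
      Tendsto μ atTop (𝓝 (1 / (D.m + 1))) ∧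
      ∃ C : ℝ, ∀ᶠ n in atTop, ∀ i, a n i ≤ C * (1 + i ^ 2) := by
  obtain ⟨p0, pk, C, hC⟩ := c2f_pos h hk hmax ht hβ hπ
  have h1 := c2f_one h hk hmax ht hπ p0 pk
  have h2 := c2f_two D hmax
  refine ⟨fun i hi => ?_, h1, mu_lim D.hm (fun n => (h n).mpos) (fun n => (h n).ann) hC h1
    fun n => (h n).crit, C, hC⟩
  rcases Nat.eq_zero_or_pos i with rfl | i1
  · exact p0
  have h3 := le_of_tendsto_of_tendsto' ((hπ k).mul (h1 (k - i))) (hπ i) fun n => by
    have g4 := (h n).term_le hk le_rfl i1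
    rw [← (h n).top hk, show (k : ℤ) - i = (k - i : ℕ) by omega] at g4
    exact (mul_le_mul_of_nonneg_left
      (c2f_cf_one (h n).ann (h n).a0 (N := D.m * k - 1) (by omega) (k - i)) ((h n).nz.nn k)).trans g4
  linarith

end

end Pool.Agent.MP_098ecc_co.H97
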