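import Pool.Agent.MP_098ecc_co.H97.C2infA

set_option autoImplicit false

namespace Pool.Agent.MP_098ecc_co.H97

open Metric Filter Topology Set Function
open scoped BoundedContinuousFunction

/-- normalised coefficients -/
noncomputable def C2infA (m : ℕ) (lam : ℕ → ℝ) (p : ℕ → ℕ → ℝ) (n i : ℕ) : ℝ :=
  p n i / (p n 0 * (lam n ^ m)⁻¹ ^ i)

namespace C2infS

variable {D : Dat} {t lam : ℕ → ℝ} {p₁ p₂ : ℕ → ℕ → ℝ} {c₁ c₂ : ℕ → ℤ → ℝ} {c : ℝ}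

theorem lam_bd (S : C2infS D t lam p₁ p₂ c₁ c₂) (hc : 0 < c)
    (h : ∀ᶠ n in atTop, c ≤ p₁ n 0 ∧ c ≤ p₂ n 0) : ∃ C > (0 : ℝ), ∀ᶠ n in atTop, lam n ≤ C := by
  refine ⟨max 2 (2 * (D.m + 1) * (1 / c + 1 / c)), by positivity, h.mono fun n hn => ?_⟩
  rcases le_total (lam n) 2 with h2 | h2
  · exact le_max_of_le_left h2
  refine le_max_of_le_right ((le_self_pow₀ (by linarith) D.hm.ne').trans
    ((lam_le (S.np n) h2).trans ?_))
  have a1 := (S.lt₁ n).le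
  have a2 := (S.swap.lt₁ n).le
  gcongr
  · exact hn.1
  · exact hn.2

theorem a_nn (S : C2infS D t lam p₁ p₂ c₁ c₂) (n : ℕ) (i : ℤ) : 0 ≤ c₂ n i * (lam n / p₁ n 0) :=
  mul_nonneg (S.swap.nn₁ n i) (div_pos (S.np n).lpos (S.np n).n₁.p0).le

theorem a_le (S : C2infS D t lam p₁ p₂ c₁ c₂) (n : ℕ) : c₂ n 0 * (lam n / p₁ n 0) ≤ 1 := by
  rw [← mul_div_assoc, div_le_one (S.np n).n₁.p0]
  exact (S.tl_le n).1

theorem a_eq (S : C2infS D t lam p₁ p₂ c₁ c₂) (n : ℕ) {i : ℕ} (hi : 1 ≤ i) :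
    p₁ n i = p₁ n 0 * (c₂ n i * (lam n / p₁ n 0)) * (lam n ^ D.m)⁻¹ ^ i := by
  have := (S.np n).n₁.p0
  rw [(S.np n).h₁ i hi]; field_simp

theorem a_zero (S : C2infS D t lam p₁ p₂ c₁ c₂) (hc : 0 < c)
    (h : ∀ᶠ n in atTop, c ≤ p₁ n 0 ∧ c ≤ p₂ n 0) :
    Tendsto (fun n => c₂ n 0 * (lam n / p₁ n 0)) atTop (𝓝 1) := by
  obtain ⟨C, hC, hl⟩ := S.lam_bd hc h
  have h0 : Tendsto (fun n => 1 - t n * (C / (c * c))) atTop (𝓝 1) := by
    simpa using (S.ht.mul_const (C / (c * c))).const_sub 1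
  refine tendsto_of_tendsto_of_tendsto_of_le_of_le' h0 tendsto_const_nhds ?_
    (Eventually.of_forall S.a_le)
  filter_upwards [h, hl] with n hn hl
  have a1 := (S.np n).m₁
  have a2 := (S.np n).lpos
  have a3 := (S.np n).n₁.p0
  have a4 := (S.np n).n₂.p0
  have a5 := (S.np n).tpos
  have a6 : c₂ n 0 * (lam n / p₁ n 0) = 1 - t n * (lam n / (p₁ n 0 * p₂ n 0)) := by
    rw [eq_sub_of_add_eq a1.symm]; field_simp
  rw [a6]
  gcongr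
  · exact hn.1
  · exact hn.2

theorem a_fl (S : C2infS D t lam p₁ p₂ c₁ c₂) (hc : 0 < c)
    (h : ∀ᶠ n in atTop, c ≤ p₁ n 0 ∧ c ≤ p₂ n 0) {j : ℤ} (hf : C2infFl c₂ j) :
    C2infFl (fun n i => c₂ n i * (lam n / p₁ n 0)) j := by
  obtain ⟨C, hC, hl⟩ := S.lam_bd hc h
  refine hf.scale (M := C / c) (by positivity) ?_
  filter_upwards [h, hl] with n hn hl
  exact ⟨(div_pos (S.np n).lpos (S.np n).n₁.p0).le, div_le_div₀ hC.le hl hc hn.1⟩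

theorem fl_own (S : C2infS D t lam p₁ p₂ c₁ c₂) (hc : 0 < c)
    (h : ∀ᶠ n in atTop, c ≤ p₁ n 0 ∧ c ≤ p₂ n 0) {k : ℕ} (hk : k ∈ D.L₁) : C2infFl c₂ k := by
  obtain ⟨C, hC, hl⟩ := S.lam_bd hc h
  have hk1 : 1 ≤ k := Nat.pos_of_ne_zero fun h => D.z₁ (h ▸ hk)
  refine S.swap.fl_small hk1 (c := min c ((c / C) ^ (D.m * k - 1))) (by positivity) ?_
  filter_upwards [h, hl] with n hn hl
  refine ⟨(min_le_left _ _).trans hn.2, ?_⟩
  have a1 := S.ge₁ n {k} (by simpa using hk) k (fun l => Multiset.replicate (D.m * l - 1) 0)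
    (by simp) (by simp)
  simp only [Finset.sum_singleton, Multiset.map_replicate, Multiset.prod_replicate] at a1
  have a2 := (S.np n).lpos
  have a5 := (S.np n).tpos
  have a3 : lam n * (lam n ^ D.m)⁻¹ ^ k = (lam n)⁻¹ ^ (D.m * k - 1) := by
    obtain ⟨e, he⟩ : ∃ e, D.m * k = e + 1 :=
      Nat.exists_eq_succ_of_ne_zero (Nat.mul_pos D.hm hk1).ne'
    rw [← inv_pow, ← pow_mul, he, Nat.add_sub_cancel, pow_succ]; field_simp
  rw [(S.np n).h₂ k hk1, mul_assoc, a3]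
  calc _ ≤ (p₁ n 0 / lam n) ^ (D.m * k - 1) * t n := by
        refine mul_le_mul_of_nonneg_right ((min_le_right _ _).trans ?_) a5.le
        exact pow_le_pow_left₀ (by positivity) (div_le_div₀ (hc.le.trans hn.1) hn.1 a2 hl) _
    _ = t n * p₁ n 0 ^ (D.m * k - 1) * (lam n)⁻¹ ^ (D.m * k - 1) := by
        rw [div_eq_mul_inv, mul_pow]; ring
    _ ≤ _ := mul_le_mul_of_nonneg_right a1 (by positivity)

theorem fl_of_lim (S : C2infS D t lam p₁ p₂ c₁ c₂) (hc : 0 < c)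
    (h : ∀ᶠ n in atTop, c ≤ p₁ n 0 ∧ c ≤ p₂ n 0) {k : ℕ} (hk : 1 ≤ k)
    (ha : Tendsto (fun n => c₂ n k * (lam n / p₁ n 0)) atTop (𝓝 1)) : C2infFl c₁ k := by
  obtain ⟨C, hC, hl⟩ := S.lam_bd hc h
  refine S.fl_low hk (c := min c (c * (1 / 2) * (C ^ D.m)⁻¹ ^ k)) (by positivity) ?_
  filter_upwards [h, hl, ha.eventually (lt_mem_nhds (by norm_num : (1 / 2 : ℝ) < 1))]
    with n hn hl h2
  refine ⟨(min_le_left _ _).trans hn.1, (min_le_right _ _).trans ?_⟩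
  rw [S.a_eq n hk]
  have a2 := (S.np n).lpos
  have a3 := (S.np n).n₁.p0
  gcongr
  exact hn.1

theorem a_lim (S : C2infS D t lam p₁ p₂ c₁ c₂) (hc : 0 < c)
    (h : ∀ᶠ n in atTop, c ≤ p₁ n 0 ∧ c ≤ p₂ n 0) (i : ℤ) :
    Tendsto (fun n => c₂ n i * (lam n / p₁ n 0)) atTop (𝓝 1) := by
  have h' : ∀ᶠ n in atTop, c ≤ p₂ n 0 ∧ c ≤ p₁ n 0 := h.mono fun n hn => hn.symm
  refine shift_all D (S := {i | Tendsto (fun n => c₂ n i * (lam n / p₁ n 0)) atTop (𝓝 1)})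
    (S.a_zero hc h) (fun l hl i hi k => C2infFl.lim (S.a_fl hc h ?_) S.a_nn hi k) i
  rcases hl with hl | hl
  · exact S.fl_own hc h hl
  · refine S.swap.fl_of_lim hc h' (Nat.pos_of_ne_zero fun h => D.z₂ (h ▸ hl)) ?_
    simpa using (S.swap.a_fl hc h' (S.swap.fl_own hc h' hl)).lim S.swap.a_nn
      (S.swap.a_zero hc h') 1

theorem A_eq (S : C2infS D t lam p₁ p₂ c₁ c₂) (n i : ℕ) :
    p₁ n i = p₁ n 0 * (C2infA D.m lam p₁ n i * (lam n ^ D.m)⁻¹ ^ i) := by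
  have := (S.np n).n₁.p0
  have := (S.np n).lpos
  rw [C2infA]; field_simp

theorem A_zero (S : C2infS D t lam p₁ p₂ c₁ c₂) (n : ℕ) : C2infA D.m lam p₁ n 0 = 1 := by
  have := (S.np n).n₁.p0
  rw [C2infA]; field_simp

theorem A_pos (S : C2infS D t lam p₁ p₂ c₁ c₂) (n : ℕ) {i : ℕ} (hi : 1 ≤ i) :
    C2infA D.m lam p₁ n i = c₂ n i * (lam n / p₁ n 0) := by
  have := (S.np n).n₁.p0
  have := (S.np n).lpos
  rw [C2infA, S.a_eq n hi]; field_simp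

theorem A_nn (S : C2infS D t lam p₁ p₂ c₁ c₂) (n i : ℕ) : 0 ≤ C2infA D.m lam p₁ n i := by
  have := (S.np n).n₁.p0
  have := (S.np n).lpos
  have := (S.np n).n₁.nn i
  rw [C2infA]; positivity

theorem A_lim (S : C2infS D t lam p₁ p₂ c₁ c₂) (hc : 0 < c)
    (h : ∀ᶠ n in atTop, c ≤ p₁ n 0 ∧ c ≤ p₂ n 0) (i : ℕ) :
    Tendsto (fun n => C2infA D.m lam p₁ n i) atTop (𝓝 1) := by
  rcases Nat.eq_zero_or_pos i with rfl | hi
  · simp [S.A_zero]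
  · simpa only [S.A_pos _ hi] using S.a_lim hc h i

theorem A_bd (S : C2infS D t lam p₁ p₂ c₁ c₂) (hc : 0 < c)
    (h : ∀ᶠ n in atTop, c ≤ p₁ n 0 ∧ c ≤ p₂ n 0) :
    ∀ᶠ n in atTop, ∀ i : ℕ, C2infA D.m lam p₁ n i ≤ 3 * (1 + i ^ 2) := by
  have h' : ∀ᶠ n in atTop, c ≤ p₂ n 0 ∧ c ≤ p₁ n 0 := h.mono fun n hn => hn.symm
  have hf := S.a_fl hc h (S.swap.fl_of_lim hc h' (k := 1) le_rfl (S.swap.a_lim hc h' _))
  filter_upwards [hf 1 one_pos] with n hn i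
  have hi0 : (0 : ℝ) ≤ i := by positivity
  rcases Nat.eq_zero_or_pos i with rfl | hi
  · simp [S.A_zero]
  have a1 := quad (c := fun i => c₂ n i * (lam n / p₁ n 0)) (S.a_nn n) hn 0 i
  simp only [Nat.cast_one, mul_one, zero_add, one_mul] at a1
  rw [S.A_pos n hi]
  have a2 := mul_le_mul_of_nonneg_left (S.a_le n) (show (0 : ℝ) ≤ 1 + i by positivity)
  nlinarith [sq_nonneg ((i : ℝ) - 1)]

theorem mu (S : C2infS D t lam p₁ p₂ c₁ c₂) (hc : 0 < c)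
    (h : ∀ᶠ n in atTop, c ≤ p₁ n 0 ∧ c ≤ p₂ n 0) :
    Tendsto (fun n => (lam n ^ D.m)⁻¹) atTop (𝓝 (1 / (D.m + 1))) := by
  refine mu_lim D.hm (fun n => by have := (S.np n).lpos; positivity) S.A_nn (S.A_bd hc h)
    (S.A_lim hc h) fun n => ?_
  have h1 := (S.np n).n₁.crit.div_const (p₁ n 0)
  rw [zero_div] at h1
  have e : (fun i => flat D.m (C2infA D.m lam p₁ n) i * (lam n ^ D.m)⁻¹ ^ i) =
      fun i => flat D.m (p₁ n) i / p₁ n 0 := by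
    ext i
    have := (S.np n).n₁.p0
    rw [flat, flat, S.A_eq n i]; field_simp
  rw [e]; exact h1

theorem Q_eq (S : C2infS D t lam p₁ p₂ c₁ c₂) (hc : 0 < c)
    (h : ∀ᶠ n in atTop, c ≤ p₁ n 0 ∧ c ≤ p₂ n 0) {Q : ℝ}
    (hQ : Tendsto (fun n => p₁ n 0) atTop (𝓝 Q)) : Q * (1 - 1 / (D.m + 1 : ℝ))⁻¹ = 1 := by
  have hm : (1 : ℝ) ≤ D.m := by exact_mod_cast D.hm
  have h1 : (1 : ℝ) / (D.m + 1) < 3 / 4 := by
    rw [div_lt_iff₀ (by positivity)]; linarith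
  have hs : Summable fun i : ℕ => (3 : ℝ) * (1 + i ^ 2) * (3 / 4) ^ i := by
    have a1 := summable_geometric_of_lt_one (r := (3 / 4 : ℝ)) (by norm_num) (by norm_num)
    have a2 := summable_pow_mul_geometric_of_norm_lt_one (R := ℝ) 2 (r := (3 / 4 : ℝ))
      (by norm_num [abs_of_pos])
    refine ((a1.add a2).mul_left 3).congr fun i => by ring
  have h2 := tendsto_tsum_of_dominated_convergence
    (f := fun n i => C2infA D.m lam p₁ n i * (lam n ^ D.m)⁻¹ ^ i)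
    (g := fun i => (1 / (D.m + 1 : ℝ)) ^ i) hs
    (fun i => by simpa only [one_mul] using (S.A_lim hc h i).mul ((S.mu hc h).pow i)) (by
      filter_upwards [S.A_bd hc h, (S.mu hc h).eventually (gt_mem_nhds h1)] with n a1 a2 i
      have := (S.np n).lpos
      have := S.A_nn n i
      rw [Real.norm_eq_abs, abs_of_nonneg (by positivity)]
      exact mul_le_mul (a1 i) (pow_le_pow_left₀ (by positivity) a2.le _) (by positivity)
        (by positivity))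
  rw [tsum_geometric_of_lt_one (by positivity) (by linarith)] at h2
  refine tendsto_nhds_unique (hQ.mul h2) (S.b₁.congr fun n => ?_)
  rw [← tsum_mul_left]
  exact tsum_congr fun i => S.A_eq n i

end C2infS

theorem C2inf_root {m : ℕ} (hm : 0 < m) {f : ℕ → ℝ} {a : ℝ} (hf : ∀ n, 0 ≤ f n)
    (h : Tendsto (fun n => f n ^ m) atTop (𝓝 a)) : Tendsto f atTop (𝓝 (a ^ (m : ℝ)⁻¹)) :=
  (h.rpow_const (Or.inr (by positivity))).congr fun n => Real.pow_rpow_inv_natCast (hf n) hm.ne'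

theorem C2inf_crit {m : ℕ} (hm : 0 < m) {R w z : ℝ} (hR : 0 ≤ R) (hw : 0 ≤ w) (hz : 0 < z)
    (h : w * z = 1 / (m + 1)) :
    Crit m (fun i => R * w ^ i) z ∧ ser (fun i => R * w ^ i) z = R * (1 - 1 / (m + 1 : ℝ))⁻¹ := by
  have hm' : (1 : ℝ) ≤ m := by exact_mod_cast hm
  have h0 : (0 : ℝ) ≤ 1 / (m + 1) := by positivity
  have h1 : (1 : ℝ) / (m + 1) < 1 := by rw [div_lt_one (by positivity)]; linarith
  have e : ∀ i : ℕ, R * w ^ i * z ^ i = R * (1 / (m + 1)) ^ i := fun i => by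
    rw [mul_assoc, ← mul_pow, h]
  have g1 := hasSum_geometric_of_lt_one h0 h1
  have g2 := hasSum_coe_mul_geometric_of_norm_lt_one (𝕜 := ℝ) (r := 1 / (m + 1))
    (by rwa [Real.norm_eq_abs, abs_of_nonneg h0])
  refine ⟨⟨hz, fun i => by positivity, ?_, ?_⟩, ?_⟩
  · simpa only [e] using (g1.mul_left R).summable
  · have g3 := ((g2.mul_left (m : ℝ)).sub g1).mul_left R
    have e1 : (fun i => flat m (fun i => R * w ^ i) i * z ^ i) =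
        fun i : ℕ => R * (m * (i * (1 / (m + 1)) ^ i) - (1 / (m + 1)) ^ i) := by
      ext i
      rw [flat, mul_assoc, e]; ring
    have e2 : R * (m * (1 / (m + 1) / (1 - 1 / (m + 1)) ^ 2) - (1 - 1 / (m + 1 : ℝ))⁻¹) = 0 := by
      have : (1 : ℝ) - 1 / (m + 1) = m / (m + 1) := by field_simp; ring
      rw [this]; field_simp; ring
    rw [e1, ← e2]; exact g3
  · simpa only [ser, e] using (g1.mul_left R).tsum_eq

theorem c2inf (D : Dat) (hi : D.L₁.Infinite) (p : ℕ → Amb) (hp : ∀ n, Pos D (p n))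
    (ht : Tendsto (fun n => (p n).t) atTop (𝓝 0))
    (h₁ : Tendsto (fun n => (p n).B₁ D) atTop (𝓝 1))
    (h₂ : Tendsto (fun n => (p n).B₂ D) atTop (𝓝 1)) :
    ∃ (q : Amb) (φ : ℕ → ℕ) (R : ℝ), StrictMono φ ∧ WSeq D (p ∘ φ) q ∧ 0 < R ∧
      (D.m + 1) * (q.z₁ * q.z₂) = 1 ∧ (∀ i, q.X i = R * q.z₂ ^ i) ∧ (∀ i, q.Y i = q.z₁ ^ i) ∧
      Crit D.m q.X q.z₁ ∧ Crit D.m q.Y q.z₂ := by
  choose lam p₁ p₂ c₁ c₂ np e1 e2 e3 e4 e5 e6 using fun n => np_of_pos (hp n)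
  have S₀ : C2infS D (fun n => (p n).t) lam p₁ p₂ c₁ c₂ := by
    refine ⟨hi, np, ht, ?_, ?_⟩
    · simpa using C2inf_root D.hm (fun n => tsum_nonneg (np n).n₁.nn) (h₁.congr fun n => (e5 n).symm)
    · simpa using C2inf_root D.hm (fun n => tsum_nonneg (np n).n₂.nn) (h₂.congr fun n => (e6 n).symm)
  obtain ⟨⟨Q₁, Q₂⟩, -, φ, hφ, hQ⟩ := (isCompact_Icc.prod isCompact_Icc).tendsto_subseq
    (x := fun n => (p₁ n 0, p₂ n 0)) (s := Icc (0 : ℝ) 1 ×ˢ Icc (0 : ℝ) 1)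
    fun n => ⟨⟨(np n).n₁.p0.le, S₀.le₁ n 0⟩, ⟨(np n).n₂.p0.le, S₀.swap.le₁ n 0⟩⟩
  have S := S₀.sub hφ
  have hQ₁ : Tendsto (fun n => p₁ (φ n) 0) atTop (𝓝 Q₁) := (continuous_fst.tendsto _).comp hQ
  have hQ₂ : Tendsto (fun n => p₂ (φ n) 0) atTop (𝓝 Q₂) := (continuous_snd.tendsto _).comp hQ
  have q1 := S.lim_pos hQ₁ hQ₂
  have q2 := S.swap.lim_pos hQ₂ hQ₁
  have hc : 0 < min Q₁ Q₂ / 2 := by positivity
  have h : ∀ᶠ n in atTop, min Q₁ Q₂ / 2 ≤ p₁ (φ n) 0 ∧ min Q₁ Q₂ / 2 ≤ p₂ (φ n) 0 :=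
    (hQ₁.eventually (le_mem_nhds (by linarith [min_le_left Q₁ Q₂]))).and
      (hQ₂.eventually (le_mem_nhds (by linarith [min_le_right Q₁ Q₂])))
  have h' := h.mono fun n hn => hn.symm
  have hm' : (1 : ℝ) ≤ D.m := by exact_mod_cast D.hm
  have hμ := S.mu hc h
  have hlm : Tendsto (fun n => lam (φ n) ^ D.m) atTop (𝓝 (D.m + 1)) := by
    simpa using hμ.inv₀ (by positivity)
  have hl := C2inf_root D.hm (fun n => (np (φ n)).lpos.le) hlm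
  set Λ : ℝ := ((D.m : ℝ) + 1) ^ (D.m : ℝ)⁻¹ with hΛ
  have hΛ0 : 0 < Λ := by positivity
  have hΛm : Λ ^ D.m = D.m + 1 := Real.rpow_inv_natCast_pow (by positivity) D.hm.ne'
  have z2 : ∀ n, (p n).z₂ = (p₂ n 0 ^ D.m)⁻¹ := fun n => eq_inv_of_mul_eq_one_right (e2 n)
  have z12 : ∀ n, (lam n ^ D.m)⁻¹ = (p n).z₁ * (p n).z₂ := fun n =>
    (eq_inv_of_mul_eq_one_right (e1 n)).symm
  have z1 : ∀ n, (p n).z₁ = (lam n ^ D.m)⁻¹ * p₂ n 0 ^ D.m := fun n => by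
    rw [z12, mul_assoc, mul_comm (p n).z₂, e2, mul_one]
  have hz₂ : Tendsto (fun n => (p (φ n)).z₂) atTop (𝓝 (Q₂ ^ D.m)⁻¹) := by
    simpa only [z2] using (hQ₂.pow _).inv₀ (by positivity)
  have hz₁ : Tendsto (fun n => (p (φ n)).z₁) atTop (𝓝 (1 / (D.m + 1) * Q₂ ^ D.m)) := by
    simpa only [z1] using hμ.mul (hQ₂.pow _)
  have hX : ∀ n i, (p n).X i = C2infA D.m lam p₁ n i * (p₁ n 0 * p₂ n 0 / lam n) *
      (p n).z₂ ^ i := fun n i => by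
    have a1 := (np n).lpos
    have a2 := (np n).n₁.p0
    have a3 := (np n).n₂.p0
    have a4 := (hp n).c₁.pos
    have a5 := (hp n).c₂.pos
    rw [C2infA, z12, e4 n i, mul_pow]; field_simp
  have hY : ∀ n i, (p n).Y i = C2infA D.m lam p₂ n i * (p n).z₁ ^ i := fun n i => by
    have a3 := (np n).n₂.p0
    have a4 := (hp n).c₁.pos
    have a5 := (hp n).c₂.pos
    rw [C2infA, z12, e3 n i, mul_pow]; field_simp
  set w₁ : ℝ := 1 / (D.m + 1) * Q₂ ^ D.m with hw₁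
  set w₂ : ℝ := (Q₂ ^ D.m)⁻¹ with hw₂
  have hw1 : 0 < w₁ := by positivity
  have hw2 : 0 < w₂ := by positivity
  have hw : w₁ * w₂ = 1 / (D.m + 1) := by rw [hw₁, hw₂]; field_simp
  have hR : 0 < Q₁ * Q₂ / Λ := by positivity
  have hRl := (hQ₁.mul hQ₂).div hl hΛ0.ne'
  obtain ⟨k1, s1⟩ := C2inf_crit D.hm hR.le hw2.le hw1 (by rw [mul_comm, hw])
  obtain ⟨k2, s2⟩ := C2inf_crit D.hm zero_le_one hw1.le hw2 hw
  have Q1 := S.Q_eq hc h hQ₁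
  have Q2 : Q₂ * (1 - 1 / (D.m + 1 : ℝ))⁻¹ = 1 := S.swap.Q_eq hc h' hQ₂
  refine ⟨(0, fun i => Q₁ * Q₂ / Λ * w₂ ^ i, fun i => 1 * w₁ ^ i, w₁, w₂), φ, Q₁ * Q₂ / Λ, hφ,
    ⟨fun n => hp _, ?_, ⟨3, ?_⟩, ⟨3, ?_⟩, ?_, ?_⟩, hR, ?_, fun i => rfl, fun i => one_mul _, k1, k2⟩
  · refine (ht.comp hφ.tendsto_atTop).prodMk_nhds ((tendsto_pi_nhds.2 fun i => ?_).prodMk_nhds
      ((tendsto_pi_nhds.2 fun i => ?_).prodMk_nhds (hz₁.prodMk_nhds hz₂)))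
    · have := ((S.A_lim hc h i).mul hRl).mul (hz₂.pow i)
      rw [one_mul] at this
      exact this.congr fun n => (hX (φ n) i).symm
    · exact ((S.swap.A_lim hc h' i).mul (hz₁.pow i)).congr fun n => (hY (φ n) i).symm
  · filter_upwards [S.A_bd hc h, hlm.eventually (le_mem_nhds (show (1 : ℝ) < D.m + 1 by linarith))]
      with n a1 a2 i
    have a3 : 1 ≤ lam (φ n) := (one_le_pow_iff_of_nonneg (np _).lpos.le D.hm.ne').1 a2
    have a4 : p₁ (φ n) 0 * p₂ (φ n) 0 / lam (φ n) ≤ 1 := by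
      rw [div_le_one (by linarith)]
      exact (mul_le_one₀ (S₀.le₁ _ 0) (np _).n₂.p0.le (S₀.swap.le₁ _ 0)).trans a3
    have a5 := (hp (φ n)).c₂.pos
    change (p (φ n)).X i ≤ 3 * (1 + i ^ 2) * (p (φ n)).z₂ ^ i
    rw [hX]
    exact mul_le_mul_of_nonneg_right ((mul_le_of_le_one_right (S₀.A_nn _ _) a4).trans (a1 i))
      (by positivity)
  · filter_upwards [S.swap.A_bd hc h'] with n a1 i
    have a5 := (hp (φ n)).c₁.pos
    change (p (φ n)).Y i ≤ 3 * (1 + i ^ 2) * (p (φ n)).z₁ ^ i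
    rw [hY]
    exact mul_le_mul_of_nonneg_right (a1 i) (by positivity)
  · suffices e : ser (fun i => Q₁ * Q₂ / Λ * w₂ ^ i) w₁ ^ D.m / w₁ = 1 from
      (h₁.comp hφ.tendsto_atTop).trans_eq (congrArg _ e.symm)
    have : Q₁ * Q₂ / Λ * (1 - 1 / (D.m + 1 : ℝ))⁻¹ = Q₂ / Λ := by
      rw [show Q₁ * Q₂ / Λ * (1 - 1 / (D.m + 1 : ℝ))⁻¹ =
        Q₁ * (1 - 1 / (D.m + 1 : ℝ))⁻¹ * (Q₂ / Λ) by ring, Q1, one_mul]
    rw [s1, this, div_pow, hΛm, hw₁]; field_simp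
  · suffices e : ser (fun i => 1 * w₁ ^ i) w₂ ^ D.m / w₂ = 1 from
      (h₂.comp hφ.tendsto_atTop).trans_eq (congrArg _ e.symm)
    rw [s2, one_mul, eq_inv_of_mul_eq_one_right Q2, hw₂, inv_pow]; field_simp
  · change (D.m + 1) * (w₁ * w₂) = 1
    rw [hw]; field_simp

end Pool.Agent.MP_098ecc_co.H97
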