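import Pool.Agent.MP_098ecc_co.H97.PoslB
import Pool.Agent.MP_098ecc_co.H97.Fl
import Pool.Agent.MP_098ecc_co.H97.Comp0

set_option autoImplicit false

namespace Pool.Agent.MP_098ecc_co.H97

open Metric Filter Topology Set Function

/-- the data with the two sides exchanged -/
def C2infSwap (D : Dat) (hi : D.L₁.Infinite) : Dat where
  m := D.m
  L₁ := D.L₂
  L₂ := D.L₁
  hm := D.hm
  z₁ := D.z₂
  z₂ := D.z₁
  inf₂ := hi
  two₁ := by
    obtain ⟨l, hl, h2⟩ := D.inf₂.exists_gt 1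
    exact ⟨l, hl, le_trans h2 (Nat.le_mul_of_pos_left _ D.hm)⟩
  gcd := fun g h1 h2 => D.gcd g h2 h1

/-- a sequence of normalised solutions going to both walls with `t → 0` -/
structure C2infS (D : Dat) (t lam : ℕ → ℝ) (p₁ p₂ : ℕ → ℕ → ℝ) (c₁ c₂ : ℕ → ℤ → ℝ) : Prop where
  hi : D.L₁.Infinite
  np : ∀ n, NP D (t n) (lam n) (p₁ n) (p₂ n) (c₁ n) (c₂ n)
  ht : Tendsto t atTop (𝓝 0)
  b₁ : Tendsto (fun n => ∑' i, p₁ n i) atTop (𝓝 1)
  b₂ : Tendsto (fun n => ∑' i, p₂ n i) atTop (𝓝 1)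

/-- asymptotically flat along `j` -/
def C2infFl (c : ℕ → ℤ → ℝ) (j : ℤ) : Prop :=
  ∀ δ > (0 : ℝ), ∀ᶠ n in atTop, ∀ i, |c n (i + j) + c n (i - j) - 2 * c n i| ≤ δ

theorem C2infFl.lim {c : ℕ → ℤ → ℝ} {j : ℤ} (h : C2infFl c j) (hc : ∀ n i, 0 ≤ c n i) {i : ℤ}
    {a : ℝ} (ha : Tendsto (fun n => c n i) atTop (𝓝 a)) (k : ℤ) :
    Tendsto (fun n => c n (i + k * j)) atTop (𝓝 a) := by
  refine flat_lim (K := fun n => ⨆ i, |c n (i + j) + c n (i - j) - 2 * c n i|) hc ?_ ?_ ha k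
  · filter_upwards [h 1 one_pos] with n hn i
    exact le_ciSup (f := fun i => |c n (i + j) + c n (i - j) - 2 * c n i|)
      ⟨1, by rintro _ ⟨i, rfl⟩; exact hn i⟩ i
  · rw [Metric.tendsto_nhds]
    intro ε hε
    filter_upwards [h (ε / 2) (by positivity)] with n hn
    rw [Real.dist_eq, sub_zero, abs_of_nonneg (Real.iSup_nonneg fun i => abs_nonneg _)]
    exact (ciSup_le hn).trans_lt (by linarith)

theorem C2infFl.scale {c : ℕ → ℤ → ℝ} {j : ℤ} (h : C2infFl c j) {s : ℕ → ℝ} {M : ℝ}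
    (hM : 0 < M) (hs : ∀ᶠ n in atTop, 0 ≤ s n ∧ s n ≤ M) : C2infFl (fun n i => c n i * s n) j := by
  intro δ hδ
  filter_upwards [h (δ / M) (by positivity), hs] with n hn hs i
  have : c n (i + j) * s n + c n (i - j) * s n - 2 * (c n i * s n) =
      (c n (i + j) + c n (i - j) - 2 * c n i) * s n := by ring
  rw [this, abs_mul, abs_of_nonneg hs.1]
  calc _ ≤ δ / M * M := mul_le_mul (hn i) hs.2 hs.1 (by positivity)
    _ = δ := by field_simp

namespace C2infS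

variable {D : Dat} {t lam : ℕ → ℝ} {p₁ p₂ : ℕ → ℕ → ℝ} {c₁ c₂ : ℕ → ℤ → ℝ}

theorem swap (S : C2infS D t lam p₁ p₂ c₁ c₂) : C2infS (C2infSwap D S.hi) t lam p₂ p₁ c₂ c₁ :=
  ⟨D.inf₂, fun n => ⟨(S.np n).tpos, (S.np n).lpos, (S.np n).n₂, (S.np n).n₁, (S.np n).h₂,
    (S.np n).h₁, (S.np n).m₂, (S.np n).m₁⟩, S.ht, S.b₂, S.b₁⟩

theorem sub (S : C2infS D t lam p₁ p₂ c₁ c₂) {φ : ℕ → ℕ} (hφ : StrictMono φ) :
    C2infS D (fun n => t (φ n)) (fun n => lam (φ n)) (fun n => p₁ (φ n)) (fun n => p₂ (φ n))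
      (fun n => c₁ (φ n)) (fun n => c₂ (φ n)) :=
  ⟨S.hi, fun n => S.np (φ n), S.ht.comp hφ.tendsto_atTop, S.b₁.comp hφ.tendsto_atTop,
    S.b₂.comp hφ.tendsto_atTop⟩

theorem lt₁ (S : C2infS D t lam p₁ p₂ c₁ c₂) (n : ℕ) : ∑' i, p₁ n i < 1 :=
  (S.np n).n₁.lt_one D.hm S.hi

theorem le₁ (S : C2infS D t lam p₁ p₂ c₁ c₂) (n i : ℕ) : p₁ n i ≤ 1 :=
  ((S.np n).n₁.sum.le_tsum i fun j _ => (S.np n).n₁.nn j).trans (S.lt₁ n).le

theorem nn₁ (S : C2infS D t lam p₁ p₂ c₁ c₂) (n : ℕ) (i : ℤ) : 0 ≤ c₁ n i :=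
  (S.np n).n₁.nonneg (S.np n).tpos.le i

theorem fl_zero (S : C2infS D t lam p₁ p₂ c₁ c₂) {j : ℕ} (hj : 1 ≤ j)
    (hp : ∀ᶠ n in atTop, 0 < p₁ n j)
    (hl : Tendsto (fun n => 2 * t n / (p₁ n 0 * p₁ n j)) atTop (𝓝 0)) : C2infFl c₁ j := by
  intro δ hδ
  filter_upwards [hp, hl.eventually (gt_mem_nhds hδ)] with n h1 h2 i
  exact (fl0 D.hm D.z₁ (S.np n).tpos.le (S.np n).n₁ (S.lt₁ n) hj h1 i).trans h2.le

theorem fl_low (S : C2infS D t lam p₁ p₂ c₁ c₂) {j : ℕ} (hj : 1 ≤ j) {c : ℝ} (hc : 0 < c)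
    (hp : ∀ᶠ n in atTop, c ≤ p₁ n 0 ∧ c ≤ p₁ n j) : C2infFl c₁ j := by
  refine S.fl_zero hj (hp.mono fun n h => hc.trans_le h.2) ?_
  have h0 : Tendsto (fun n => 2 * t n / (c * c)) atTop (𝓝 0) := by
    simpa using (S.ht.const_mul 2).div_const (c * c)
  refine squeeze_zero' (hp.mono fun n h => ?_) (hp.mono fun n h => ?_) h0
  · have := (S.np n).tpos
    have := hc.trans_le h.1
    have := hc.trans_le h.2
    positivity
  · have := (S.np n).tpos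
    exact div_le_div_of_nonneg_left (by positivity) (by positivity)
      (mul_le_mul h.1 h.2 hc.le (hc.le.trans h.1))

theorem fl_small (S : C2infS D t lam p₁ p₂ c₁ c₂) {j : ℕ} (hj : 1 ≤ j) {c : ℝ} (hc : 0 < c)
    (hp : ∀ᶠ n in atTop, c ≤ p₁ n 0 ∧ c * t n ≤ p₁ n j) : C2infFl c₁ j := by
  intro δ hδ
  obtain ⟨t₁, ht₁, h⟩ := flat_small D.hm hc hδ
  filter_upwards [hp, S.ht.eventually (gt_mem_nhds ht₁)] with n h1 h2 i
  simpa using h D.L₁ (t n) 1 (p₁ n) (c₁ n) j D.z₁ (S.np n).tpos h2 (S.np n).n₁ (S.lt₁ n) h1.1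
    le_rfl hj (by simpa using h1.2) i

/-- lower bound by one configuration for every element of a finite set -/
theorem ge₁ (S : C2infS D t lam p₁ p₂ c₁ c₂) (n : ℕ) (s : Finset ℕ) (hs : ∀ l ∈ s, l ∈ D.L₁)
    (i : ℤ) (w : ℕ → Multiset ℕ) (h1 : ∀ l ∈ s, (w l).card = D.m * l - 1)
    (h2 : ∀ l ∈ s, ((w l).sum : ℤ) = l - i) :
    t n * ∑ l ∈ s, ((w l).map (p₁ n)).prod ≤ c₁ n i := by
  refine le_trans ?_ ((S.np n).n₁.ge D.hm D.z₁ (S.np n).tpos.le s hs i)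
  refine mul_le_mul_of_nonneg_left (Finset.sum_le_sum fun l hl => ?_) (S.np n).tpos.le
  have := cf_ge_prod (S.np n).n₁.nn (w l)
  rwa [h1 l hl, h2 l hl] at this

theorem one_lim (S : C2infS D t lam p₁ p₂ c₁ c₂) (hm : D.m = 1)
    (h : Tendsto (fun n => p₁ n 0) atTop (𝓝 0)) : Tendsto (fun n => p₁ n 1) atTop (𝓝 1) := by
  have h0 : Tendsto (fun n => ∑' i, p₁ n i - 2 * p₁ n 0) atTop (𝓝 1) := by
    simpa using S.b₁.sub (h.const_mul 2)
  refine tendsto_of_tendsto_of_tendsto_of_le_of_le h0 tendsto_const_nhds (fun n => ?_)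
    fun n => S.le₁ n 1
  have := ((S.np n).n₁.mass D.hm).2
  rw [if_pos hm] at this
  simp only
  linarith

theorem two_le (S : C2infS D t lam p₁ p₂ c₁ c₂) (hm : D.m = 1) (n : ℕ) : p₁ n 2 ≤ p₁ n 0 := by
  have h := ((S.np n).n₁.mass D.hm).1
  have := le_hasSum h 1 fun i _ => mul_nonneg (by
    rw [hm]; have : (0 : ℝ) ≤ i := by positivity
    push_cast; linarith) ((S.np n).n₁.nn _)
  rw [hm] at this
  norm_num at this
  exact this

theorem e_one (S : C2infS D t lam p₁ p₂ c₁ c₂) (hm : D.m = 1) (n : ℕ) : p₁ n 1 = c₂ n 1 := by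
  have h := (S.np n).h₁ 1 le_rfl
  have := (S.np n).lpos
  rw [h, hm]; field_simp; simp

theorem e_two (S : C2infS D t lam p₁ p₂ c₁ c₂) (hm : D.m = 1) (n : ℕ) :
    p₁ n 2 * lam n = c₂ n 2 := by
  have h := (S.np n).h₁ 2 (by norm_num)
  have := (S.np n).lpos
  rw [h, hm]; field_simp; simp

theorem tl_le (S : C2infS D t lam p₁ p₂ c₁ c₂) (n : ℕ) :
    c₂ n 0 * lam n ≤ p₁ n 0 ∧ t n * lam n ≤ p₁ n 0 * p₂ n 0 := by
  have h := (S.np n).m₁
  have h1 := (S.np n).lpos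
  have h2 := (S.np n).tpos
  have h3 := (S.np n).n₂.p0
  have h4 := S.swap.nn₁ n 0
  have h5 : p₁ n 0 * p₂ n 0 = c₂ n 0 * lam n * p₂ n 0 + t n * lam n := by
    field_simp at h; linarith
  constructor
  · refine le_of_mul_le_mul_right ?_ h3
    nlinarith
  · have : 0 ≤ c₂ n 0 * lam n * p₂ n 0 := by positivity
    linarith

theorem contra (S : C2infS D t lam p₁ p₂ c₁ c₂) (hm : D.m = 1)
    (h : Tendsto (fun n => p₁ n 0) atTop (𝓝 0)) (hf : C2infFl c₂ 1) : False := by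
  have h1 : Tendsto (fun n => c₂ n 1) atTop (𝓝 1) := by
    simpa only [S.e_one hm] using S.one_lim hm h
  have h0 := hf.lim S.swap.nn₁ h1 (-1)
  have h2 := hf.lim S.swap.nn₁ h1 1
  norm_num at h0 h2
  have h3 := le_of_tendsto_of_tendsto' (h0.mul h2) (h.mul h) fun n => by
    have a1 := (S.tl_le n).1
    have a2 := S.e_two hm n
    have a3 := S.two_le hm n
    have a4 := S.swap.nn₁ n 0
    have a5 := (S.np n).n₁.nn 2
    have a6 := (S.np n).lpos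
    calc c₂ n 0 * c₂ n 2 = (c₂ n 0 * lam n) * p₁ n 2 := by rw [← a2]; ring
      _ ≤ p₁ n 0 * p₁ n 0 := mul_le_mul a1 a3 a5 (S.np n).n₁.p0.le
  norm_num at h3

theorem t_div (S : C2infS D t lam p₁ p₂ c₁ c₂) (hm : D.m = 1)
    (h : Tendsto (fun n => p₁ n 0) atTop (𝓝 0)) :
    Tendsto (fun n => t n / p₂ n 0) atTop (𝓝 0) := by
  rw [Metric.tendsto_nhds]
  intro ε hε
  obtain ⟨N, hN⟩ := exists_nat_gt (2 / ε ^ 2)
  obtain ⟨s, hs, hc⟩ := (S.hi.sdiff (Set.finite_lt_nat 2)).exists_subset_card_eq N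
  have hs1 : ∀ l ∈ s, l ∈ D.L₁ := fun l hl => (hs hl).1
  have hs2 : ∀ l ∈ s, 2 ≤ l := fun l hl => not_lt.1 (hs hl).2
  have h1 : ∀ᶠ n in atTop, ∀ l ∈ s, 1 / 2 < p₁ n 1 ^ (l - 2) := by
    refine (eventually_all_finset s).2 fun l _ => ?_
    have := (S.one_lim hm h).pow (l - 2)
    rw [one_pow] at this
    exact this.eventually (lt_mem_nhds (by norm_num))
  filter_upwards [h1] with n hn
  have a1 := S.ge₁ n s hs1 2 (fun l => 0 ::ₘ Multiset.replicate (l - 2) 1)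
    (fun l hl => by have := hs2 l hl; simp [hm]; omega)
    (fun l hl => by have := hs2 l hl; simp; omega)
  have q1 := (S.np n).n₁.p0
  have q2 := (S.np n).n₂.p0
  have ht := (S.np n).tpos
  have hl := (S.np n).lpos
  have a2 : (N : ℝ) * (p₁ n 0 * (1 / 2)) ≤ ∑ l ∈ s,
      ((0 ::ₘ Multiset.replicate (l - 2) 1).map (p₁ n)).prod := by
    rw [← hc, ← nsmul_eq_mul]
    refine Finset.card_nsmul_le_sum _ _ _ fun l hl => ?_
    simp only [Multiset.map_cons, Multiset.map_replicate, Multiset.prod_cons,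
      Multiset.prod_replicate]
    exact mul_le_mul_of_nonneg_left (hn l hl).le q1.le
  have a3 := S.swap.e_two hm n
  have a4 := S.swap.two_le hm n
  have a5 := (S.tl_le n).2
  have a6 : t n * (N * (p₁ n 0 * (1 / 2))) ≤ p₂ n 0 * lam n := by
    calc _ ≤ c₁ n 2 := (mul_le_mul_of_nonneg_left a2 ht.le).trans a1
      _ = p₂ n 2 * lam n := a3.symm
      _ ≤ _ := mul_le_mul_of_nonneg_right a4 hl.le
  have a7 : t n ^ 2 * N ≤ 2 * p₂ n 0 ^ 2 := by
    have b1 : t n * (t n * (N * (p₁ n 0 * (1 / 2)))) ≤ p₂ n 0 * (p₁ n 0 * p₂ n 0) := by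
      calc _ ≤ t n * (p₂ n 0 * lam n) := mul_le_mul_of_nonneg_left a6 ht.le
        _ = p₂ n 0 * (t n * lam n) := by ring
        _ ≤ _ := mul_le_mul_of_nonneg_left a5 q2.le
    refine le_of_mul_le_mul_left ?_ q1
    nlinarith
  rw [Real.dist_eq, sub_zero, abs_of_pos (by positivity), div_lt_iff₀ q2]
  rw [div_lt_iff₀ (by positivity)] at hN
  refine lt_of_pow_lt_pow_left₀ 2 (by positivity) ?_
  have hN0 : (0 : ℝ) < N := by
    by_contra hc
    have : (N : ℝ) * ε ^ 2 ≤ 0 := mul_nonpos_of_nonpos_of_nonneg (not_lt.1 hc) (by positivity)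
    linarith
  refine lt_of_mul_lt_mul_right ?_ hN0.le
  have : 0 < p₂ n 0 ^ 2 := by positivity
  nlinarith

/-- Step A: the masses at zero do not go to zero. -/
theorem lim_pos (S : C2infS D t lam p₁ p₂ c₁ c₂) {Q₁ Q₂ : ℝ}
    (h₁ : Tendsto (fun n => p₁ n 0) atTop (𝓝 Q₁)) (h₂ : Tendsto (fun n => p₂ n 0) atTop (𝓝 Q₂)) :
    0 < Q₁ := by
  have hQ₁ : 0 ≤ Q₁ := ge_of_tendsto' h₁ fun n => (S.np n).n₁.p0.le
  have hQ₂ : 0 ≤ Q₂ := ge_of_tendsto' h₂ fun n => (S.np n).n₂.p0.le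
  refine hQ₁.lt_of_ne fun h0 => ?_
  subst h0
  by_cases hm : D.m = 1
  swap
  · have := le_of_tendsto_of_tendsto' S.b₁ (h₁.const_mul 2) fun n => by
      simpa [hm] using ((S.np n).n₁.mass D.hm).2
    norm_num at this
  refine S.contra hm h₁ ?_
  rcases hQ₂.lt_or_eq with hpos | rfl
  · obtain ⟨l, hl, -⟩ := D.two₁
    have hl1 : 1 ≤ l := Nat.pos_of_ne_zero fun h => D.z₁ (h ▸ hl)
    have h1 : ∀ᶠ n in atTop, 1 / 2 < p₁ n 1 ^ (l - 1) := by
      have := (S.one_lim hm h₁).pow (l - 1)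
      rw [one_pow] at this
      exact this.eventually (lt_mem_nhds (by norm_num))
    refine S.swap.fl_small (j := 1) le_rfl (c := min (Q₂ / 2) (1 / 2)) (by positivity) ?_
    filter_upwards [h1, h₂.eventually (lt_mem_nhds (half_lt_self hpos))] with n a1 a2
    refine ⟨(min_le_left _ _).trans a2.le, ?_⟩
    have a3 := S.ge₁ n {l} (by simpa using hl) 1 (fun l => Multiset.replicate (l - 1) 1)
      (by simp [hm]) (by simp; omega)
    simp only [Finset.sum_singleton, Multiset.map_replicate, Multiset.prod_replicate] at a3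
    have ht := (S.np n).tpos
    rw [S.swap.e_one hm n]
    calc _ ≤ p₁ n 1 ^ (l - 1) * t n :=
          mul_le_mul_of_nonneg_right ((min_le_right _ _).trans a1.le) ht.le
      _ ≤ _ := by rw [mul_comm]; exact a3
  · have h1 := S.swap.one_lim hm h₂
    refine S.swap.fl_zero (j := 1) le_rfl (h1.eventually (lt_mem_nhds one_pos)) ?_
    have := ((S.t_div hm h₁).const_mul 2).div h1 one_ne_zero
    simp only [mul_zero, zero_div] at this
    refine this.congr fun n => ?_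
    simp only [Pi.div_apply]
    ring

end C2infS

end Pool.Agent.MP_098ecc_co.H97
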