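import Pool.Agent.MP_098ecc_co.H97.EndA

set_option autoImplicit false

namespace Pool.Agent.MP_098ecc_co.H97

open Metric Filter Topology Set Function

section Chart
variable {B Z F : Type} [NormedAddCommGroup B] [NormedSpace ℂ B]
  [NormedAddCommGroup Z] [NormedSpace ℂ Z] [NormedAddCommGroup F] [NormedSpace ℂ F]

/-- graph chart of the zero set of `H` at a nondegenerate point -/
structure Ch (U : Set Z) (H : B × Z → Z) (g : B × Z → ℂ) (w : B → B → ℝ) (β : B) (z₀ : Z)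
    (ε ρ : ℝ) (φ : B → Z) : Prop where
  op : IsOpen U
  rH : Reg U H
  hβ : β ∈ closedBall (0 : B) 1
  pos : 0 < ε
  rpos : 0 < ρ
  base : φ β = z₀
  cont : ContinuousOn φ (closedBall 0 1 ∩ ball β ε)
  diff : DifferentiableOn ℂ φ (ball 0 1 ∩ ball β ε)
  mem : ∀ b ∈ closedBall (0 : B) 1 ∩ ball β ε, φ b ∈ U ∧ H (b, φ b) = 0 ∧ g (b, φ b) ≠ 0
  uniq : ∀ b ∈ closedBall (0 : B) 1 ∩ ball β ε, ∀ z ∈ ball z₀ ρ, H (b, z) = 0 → φ b = z
  nr : ∀ b ∈ closedBall (0 : B) 1 ∩ ball β ε, φ b ∈ ball z₀ ρ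
  der : ∀ f : B × Z → ℂ, Reg U f → DB U (fun q => w q.1) f → ∃ C : ℝ,
    ∀ b ∈ ball (0 : B) 1 ∩ ball β ε, ∀ db, ‖fderiv ℂ (fun b => f (b, φ b)) b db‖ ≤ C * w b db

variable {U : Set Z} {H : B × Z → Z} {g : B × Z → ℂ} {w : B → B → ℝ} {β : B} {z₀ : Z}
  {ε ρ : ℝ} {φ : B → Z}

theorem endB_sub {β : B} {ε : ℝ} : ball (0 : B) 1 ∩ ball β ε ⊆ closedBall 0 1 ∩ ball β ε :=
  inter_subset_inter_left _ ball_subset_closedBall

theorem Ch.mono (h : Ch U H g w β z₀ ε ρ φ) {ε' : ℝ} (h0 : 0 < ε') (h1 : ε' ≤ ε) :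
    Ch U H g w β z₀ ε' ρ φ := by
  have e : ∀ s : Set B, s ∩ ball β ε' ⊆ s ∩ ball β ε := fun s =>
    inter_subset_inter_right _ (ball_subset_ball h1)
  refine ⟨h.op, h.rH, h.hβ, h0, h.rpos, h.base, h.cont.mono (e _), h.diff.mono (e _),
    fun b hb => h.mem b (e _ hb), fun b hb => h.uniq b (e _ hb), fun b hb => h.nr b (e _ hb),
    fun f a c => ?_⟩
  obtain ⟨C, hC⟩ := h.der f a c
  exact ⟨C, fun b hb => hC b (e _ hb)⟩

theorem Ch.gcont (h : Ch U H g w β z₀ ε ρ φ) {f : B × Z → F}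
    (hf : ContinuousOn f (closedBall 0 1 ×ˢ U)) :
    ContinuousOn (fun b => f (b, φ b)) (closedBall 0 1 ∩ ball β ε) :=
  hf.comp (continuousOn_id.prodMk h.cont) fun b hb => ⟨hb.1, (h.mem b hb).1⟩

theorem Ch.gdiff (h : Ch U H g w β z₀ ε ρ φ) {f : B × Z → F}
    (hf : DifferentiableOn ℂ f (ball 0 1 ×ˢ U)) :
    DifferentiableOn ℂ (fun b => f (b, φ b)) (ball 0 1 ∩ ball β ε) :=
  hf.comp (differentiableOn_id.prodMk h.diff) fun b hb => ⟨hb.1, (h.mem b (endB_sub hb)).1⟩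

theorem endB_tan (hU : IsOpen U) {f : B × Z → F} (hf : DifferentiableOn ℂ f (ball 0 1 ×ˢ U))
    {b : B} (hb : b ∈ ball (0 : B) 1) (hm : φ b ∈ U) (hφ : DifferentiableAt ℂ φ b) (db : B) :
    fderiv ℂ (fun b => f (b, φ b)) b db = fderiv ℂ f (b, φ b) (db, fderiv ℂ φ b db) := by
  have h1 := (hf.differentiableAt ((isOpen_ball.prod hU).mem_nhds
    (⟨hb, hm⟩ : (b, φ b) ∈ ball 0 1 ×ˢ U))).hasFDerivAt
  have h2 := h1.comp b ((hasFDerivAt_id b).prodMk hφ.hasFDerivAt)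
  exact congrArg (fun A : B →L[ℂ] F => A db) h2.fderiv

theorem Ch.tan (h : Ch U H g w β z₀ ε ρ φ) {f : B × Z → F}
    (hf : DifferentiableOn ℂ f (ball 0 1 ×ˢ U)) {b : B} (hb : b ∈ ball (0 : B) 1 ∩ ball β ε)
    (db : B) :
    fderiv ℂ (fun b => f (b, φ b)) b db = fderiv ℂ f (b, φ b) (db, fderiv ℂ φ b db) :=
  endB_tan h.op hf hb.1 (h.mem b (endB_sub hb)).1
    (h.diff.differentiableAt ((isOpen_ball.inter isOpen_ball).mem_nhds hb)) db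

theorem Ch.tanH (h : Ch U H g w β z₀ ε ρ φ) {b : B} (hb : b ∈ ball (0 : B) 1 ∩ ball β ε)
    (db : B) : fderiv ℂ H (b, φ b) (db, fderiv ℂ φ b db) = 0 := by
  rw [← h.tan h.rH.diff hb]
  have : (fun b => H (b, φ b)) =ᶠ[𝓝 b] fun _ => 0 := by
    filter_upwards [(isOpen_ball.inter isOpen_ball).mem_nhds hb] with x hx
    exact (h.mem x (endB_sub hx)).2.1
  rw [this.fderiv_eq]
  simp

/-- near a point of the graph the zeros of `H` lie on the graph -/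
theorem Ch.near (h : Ch U H g w β z₀ ε ρ φ) {b : B} (hb : b ∈ closedBall (0 : B) 1 ∩ ball β ε) :
    ∀ᶠ q in 𝓝 (b, φ b), q.1 ∈ ball β ε ∧ (q.1 ∈ closedBall (0 : B) 1 → H q = 0 → φ q.1 = q.2) := by
  filter_upwards [prod_mem_nhds (isOpen_ball.mem_nhds hb.2) (isOpen_ball.mem_nhds (h.nr b hb))]
    with q hq
  exact ⟨hq.1, fun a c => h.uniq q.1 ⟨a, hq.1⟩ q.2 hq.2 c⟩

theorem Ch.cw (h : Ch U H g w β z₀ ε ρ φ) {X : Type} [TopologicalSpace X] {f : B → X}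
    (hf : ContinuousOn f (closedBall 0 1 ∩ ball β ε)) : ContinuousWithinAt f (closedBall 0 1) β :=
  (continuousWithinAt_inter (ball_mem_nhds β h.pos)).1 (hf β ⟨h.hβ, mem_ball_self h.pos⟩)

theorem endB_split {f : B × Z → F} {q : B × Z} (hf : DifferentiableAt ℂ f q) (db : B) (dz : Z) :
    fderiv ℂ f q (db, dz) = fderiv ℂ f q (db, 0) + fderiv ℂ (fun z => f (q.1, z)) q.2 dz := by
  rw [hol_frz_eq hf, show (db, dz) = (db, (0 : Z)) + (0, dz) by simp, map_add]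
  rfl

theorem endB_chart [FiniteDimensional ℂ B] [FiniteDimensional ℂ Z] (hU : IsOpen U) (hH : Reg U H)
    (dH : DB U (fun q => w q.1) H)
    (hg : ContinuousOn g (closedBall 0 1 ×ˢ U)) (hβ : β ∈ closedBall (0 : B) 1) (hz : z₀ ∈ U)
    (h0 : H (β, z₀) = 0) (hg0 : g (β, z₀) ≠ 0)
    (hi : Injective (fderiv ℂ (fun z => H (β, z)) z₀)) : ∃ ε ρ φ, Ch U H g w β z₀ ε ρ φ := by
  have := FiniteDimensional.proper ℂ B
  have := FiniteDimensional.proper ℂ Z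
  have hH' : Reg ((univ : Set ℂ) ×ˢ U) (fun q : B × (ℂ × Z) => H (q.1, q.2.2)) :=
    Reg.comp₂ (f := fun q : B × (ℂ × Z) => q.2.2) (Reg.of_snd differentiableOn_snd) hH
      fun _ _ _ hz => hz.2
  obtain ⟨ρ, h1, hρ⟩ := ((wift (isOpen_univ.prod hU) hH' (l₀ := 0) hβ ⟨mem_univ _, hz⟩ h0 hi).and
    self_mem_nhdsWithin).exists
  obtain ⟨ε₁, ⟨hsub, ψ, c1, d1, h2⟩, hε₁⟩ := (h1.and self_mem_nhdsWithin).exists
  replace hρ : 0 < ρ := hρ
  replace hε₁ : 0 < ε₁ := hε₁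
  have hρU : closedBall z₀ ρ ⊆ U := fun z hz' =>
    (hsub (⟨mem_ball_self hε₁, hz'⟩ : ((0 : ℂ), z) ∈ ball 0 ε₁ ×ˢ closedBall z₀ ρ)).2
  set φ : B → Z := fun b => ψ (b, 0) with hφ
  have c2 : ContinuousOn φ (closedBall 0 1 ∩ ball β ε₁) :=
    c1.comp (by fun_prop) fun b hb => ⟨hb, mem_ball_self hε₁⟩
  have d2 : DifferentiableOn ℂ φ (ball 0 1 ∩ ball β ε₁) :=
    d1.comp (by fun_prop) fun b hb => ⟨hb, mem_ball_self hε₁⟩
  have h3 : ∀ b ∈ closedBall (0 : B) 1 ∩ ball β ε₁, φ b ∈ ball z₀ ρ ∧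
      ∀ z ∈ closedBall z₀ ρ, (H (b, z) = 0 ↔ z = φ b) := fun b hb =>
    (h2 b hb).2 0 (mem_ball_self hε₁)
  have hb0 : β ∈ closedBall (0 : B) 1 ∩ ball β ε₁ := ⟨hβ, mem_ball_self hε₁⟩
  have base : φ β = z₀ := (((h3 β hb0).2 z₀ (mem_closedBall_self hρ.le)).1 h0).symm
  have hmU : ∀ b ∈ closedBall (0 : B) 1 ∩ ball β ε₁, (b, φ b) ∈ closedBall (0 : B) 1 ×ˢ U :=
    fun b hb => ⟨hb.1, hρU (ball_subset_closedBall (h3 b hb).1)⟩
  have c3 : ContinuousWithinAt (fun b => (b, φ b)) (closedBall 0 1 ∩ ball β ε₁) β :=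
    (continuousOn_id.prodMk c2) β hb0
  set A := fderiv ℂ (fun z => H (β, z)) z₀ with hA
  obtain ⟨K, hK, hK'⟩ := LinearMap.exists_antilipschitzWith (A : Z →ₗ[ℂ] Z)
    (LinearMap.ker_eq_bot.2 hi)
  have hK0 : (0 : ℝ) < K := hK
  have c4 : ContinuousWithinAt (fun b => fderiv ℂ (fun z => H (b, z)) (φ b))
      (closedBall 0 1 ∩ ball β ε₁) β :=
    ContinuousWithinAt.comp (g := fun q : B × Z => fderiv ℂ (fun z => H (q.1, z)) q.2)
      (f := fun b => (b, φ b)) ((hH.fderiv_snd hU).cont _ (hmU β hb0)) c3 hmU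
  have c5 : ContinuousWithinAt (fun b => g (b, φ b)) (closedBall 0 1 ∩ ball β ε₁) β :=
    ContinuousWithinAt.comp (g := g) (f := fun b => (b, φ b)) (hg _ (hmU β hb0)) c3 hmU
  have e1 : ∀ᶠ b in 𝓝[closedBall 0 1 ∩ ball β ε₁] β, g (b, φ b) ≠ 0 ∧
      dist (fderiv ℂ (fun z => H (b, z)) (φ b)) A < 1 / (2 * K) := by
    refine (c5.eventually_ne (show g (β, φ β) ≠ 0 by rwa [base])).and ?_
    have := Metric.tendsto_nhds.1 c4.tendsto (1 / (2 * K)) (by positivity)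
    rwa [base] at this
  rw [eventually_nhdsWithin_iff] at e1
  obtain ⟨ε, hε, e2⟩ := Metric.eventually_nhds_iff_ball.1 (e1.and (ball_mem_nhds β hε₁))
  have s1 : ∀ s : Set B, s ∩ ball β ε ⊆ s ∩ ball β ε₁ := fun s b hb => ⟨hb.1, (e2 b hb.2).2⟩
  have hH0 : ∀ b ∈ closedBall (0 : B) 1 ∩ ball β ε₁, H (b, φ b) = 0 := fun b hb =>
    ((h3 b hb).2 _ (ball_subset_closedBall (h3 b hb).1)).2 rfl
  refine ⟨ε, ρ, φ, hU, hH, hβ, hε, hρ, base, c2.mono (s1 _), d2.mono (s1 _), fun b hb =>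
    ⟨(hmU b (s1 _ hb)).2, hH0 b (s1 _ hb), ((e2 b hb.2).1 (s1 _ hb)).1⟩, fun b hb z hz' h =>
    (((h3 b (s1 _ hb)).2 z (ball_subset_closedBall hz')).1 h).symm,
    fun b hb => (h3 b (s1 _ hb)).1, fun f hf hf' => ?_⟩
  obtain ⟨C₁, hC₁⟩ := dH
  obtain ⟨C₂, hC₂⟩ := hf'
  obtain ⟨M, hM⟩ := ((isCompact_closedBall (0 : B) 1).prod
    (isCompact_closedBall z₀ ρ)).exists_bound_of_continuousOn
      ((hf.fderiv_snd hU).cont.mono (prod_mono_right hρU))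
  refine ⟨C₂ + M * (2 * K * C₁), fun b hb db => ?_⟩
  have hb1 := s1 _ (endB_sub hb)
  have hq : ball (0 : B) 1 ×ˢ U ∈ 𝓝 (b, φ b) :=
    (isOpen_ball.prod hU).mem_nhds ⟨hb.1, (hmU b hb1).2⟩
  have hφd := d2.differentiableAt ((isOpen_ball.inter isOpen_ball).mem_nhds (s1 _ hb))
  set v := fderiv ℂ φ b db
  have t1 : fderiv ℂ H (b, φ b) (db, v) = 0 := by
    rw [← endB_tan hU hH.diff hb.1 (hmU b hb1).2 hφd]
    have : (fun b => H (b, φ b)) =ᶠ[𝓝 b] fun _ => 0 := by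
      filter_upwards [(isOpen_ball.inter isOpen_ball).mem_nhds (s1 _ hb)] with x hx
      exact hH0 x (endB_sub hx)
    rw [this.fderiv_eq]
    simp
  rw [endB_split (hH.diff.differentiableAt hq)] at t1
  set A' := fderiv ℂ (fun z => H (b, z)) (φ b)
  have t2 : ‖A' v‖ ≤ C₁ * w b db := by
    rw [show A' v = -fderiv ℂ H (b, φ b) (db, 0) from (neg_eq_of_add_eq_zero_right t1).symm,
      norm_neg]
    exact hC₁ b hb.1 _ (hmU b hb1).2 db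
  have t3 : ‖v‖ ≤ 2 * K * (C₁ * w b db) := by
    have a1 : ‖v‖ ≤ K * ‖A v‖ := ZeroHomClass.bound_of_antilipschitz (A : Z →ₗ[ℂ] Z) hK' v
    have a2 : ‖A' - A‖ ≤ 1 / (2 * K) := by
      rw [← dist_eq_norm]; exact ((e2 b hb.2).1 hb1).2.le
    have a3 : ‖A v‖ ≤ ‖A' v‖ + 1 / (2 * K) * ‖v‖ := by
      rw [show A v = A' v - (A' - A) v by simp]
      exact (norm_sub_le _ _).trans (add_le_add le_rfl ((A' - A).le_of_opNorm_le a2 v))
    have a4 : K * (1 / (2 * K) * ‖v‖) = ‖v‖ / 2 := by field_simp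
    nlinarith
  rw [endB_tan hU hf.diff hb.1 (hmU b hb1).2 hφd, endB_split (hf.diff.differentiableAt hq)]
  have t4 := hM (b, φ b) ⟨hb1.1, ball_subset_closedBall (h3 b hb1).1⟩
  have hM0 : 0 ≤ M := (norm_nonneg _).trans t4
  refine (norm_add_le _ _).trans ?_
  have t5 := hC₂ b hb.1 _ (hmU b hb1).2 db
  have t6 := (ContinuousLinearMap.le_of_opNorm_le _ t4 v).trans
    (mul_le_mul_of_nonneg_left t3 hM0)
  calc _ ≤ C₂ * w b db + M * (2 * K * (C₁ * w b db)) := add_le_add t5 t6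
    _ = _ := by ring

theorem endB_zero {A : Set (B × Z)} {K : B × Z → F}
    (hK : ContinuousOn K (closedBall 0 1 ×ˢ U)) (hU : IsOpen U)
    (hA : ∀ q ∈ A, q.1 ∈ closedBall (0 : B) 1 ∧ K q = 0) {q : B × Z} (hq : q ∈ closure A)
    (hm : q ∈ closedBall (0 : B) 1 ×ˢ U) : K q = 0 := by
  have h1 : q ∈ closure (A ∩ univ ×ˢ U) := by
    rw [inter_comm]
    exact (isOpen_univ.prod hU).inter_closure ⟨⟨mem_univ _, hm.2⟩, hq⟩
  have h2 : ContinuousWithinAt K (A ∩ univ ×ˢ U) q :=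
    (hK q hm).mono fun x hx => ⟨(hA x hx.1).1, hx.2.2⟩
  have h3 := h2.mem_closure_image h1
  refine (closure_minimal (t := {0}) ?_ isClosed_singleton) h3
  rintro _ ⟨x, hx, rfl⟩
  exact (hA x hx.1).2

end Chart

section One
variable {Z F : Type} [NormedAddCommGroup Z] [NormedSpace ℂ Z] [NormedAddCommGroup F]
  [NormedSpace ℂ F]

/-- on shell points, one wall -/
def Sh1 (U : Set Z) (H : ℂ × Z → Z) (K : ℂ × Z → F) (J : ℂ → ℂ) (j σ : ℂ × Z → ℂ) :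
    Set (ℂ × Z) :=
  {q | q.1 ∈ ball 0 1 ∧ q.2 ∈ U ∧ H q = 0 ∧ K q = 0 ∧ j q - σ q * J q.1 = 0}

/-- one wall data with an arbitrary centre -/
structure End1D (β : ℂ) (U : Set Z) (z₀ : Z) (H : ℂ × Z → Z) (K : ℂ × Z → F) (g : ℂ × Z → ℂ)
    (J : ℂ → ℂ) (j σ : ℂ × Z → ℂ) : Prop where
  hβ : ‖β‖ = 1
  op : IsOpen U
  mem : z₀ ∈ U
  dJ : DifferentiableOn ℂ J (ball 0 1)
  rH : Reg U H
  rK : Reg U K
  rg : Reg U g
  rj : Reg U j
  rσ : Reg U σ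
  dH : DB U (fun q db => ‖db‖ * (1 + ‖J q.1‖)) H
  dj : DB U (fun q db => ‖db‖ * (1 + ‖J q.1‖)) j
  dσ : DB U (fun q db => ‖db‖ * (1 + ‖J q.1‖)) σ
  inv : ∀ b ∈ closedBall (0 : ℂ) 1, ∀ z ∈ U, H (b, z) = 0 → g (b, z) ≠ 0 →
    Injective (fderiv ℂ (fun z => H (b, z)) z) ∧ σ (b, z) ≠ 0
  iso : ∀ᶠ z in 𝓝[≠] z₀, ¬ (H (β, z) = 0 ∧ K (β, z) = 0)
  seq : (β, z₀) ∈ closure {q | q ∈ Sh1 U H K J j σ ∧ g q ≠ 0 ∧ AccPt q (𝓟 (Sh1 U H K J j σ))}

theorem endB_one [FiniteDimensional ℂ Z] [CompleteSpace F] {β : ℂ} {U : Set Z} {z₀ : Z}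
    {H : ℂ × Z → Z} {K : ℂ × Z → F} {g : ℂ × Z → ℂ} {J : ℂ → ℂ} {j σ : ℂ × Z → ℂ}
    (h : End1D β U z₀ H K g J j σ) : Bdd (deriv J) := by
  set S := Sh1 U H K J j σ with hS
  set A := {q | q ∈ S ∧ g q ≠ 0 ∧ AccPt q (𝓟 S)} with hA
  have zH : ∀ q ∈ closure A, q ∈ closedBall (0 : ℂ) 1 ×ˢ U → H q = 0 := fun q hq hm =>
    endB_zero h.rH.cont h.op (fun q hq => ⟨ball_subset_closedBall hq.1.1, hq.1.2.2.1⟩) hq hm
  have zK : ∀ q ∈ closure A, q ∈ closedBall (0 : ℂ) 1 ×ˢ U → K q = 0 := fun q hq hm =>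
    endB_zero h.rK.cont h.op (fun q hq => ⟨ball_subset_closedBall hq.1.1, hq.1.2.2.2.1⟩) hq hm
  have hβ : β ∈ closedBall (0 : ℂ) 1 := by simp [h.hβ]
  obtain ⟨⟨b, z⟩, hq, hb, hz, hg, hd⟩ := endA_exit h.op h.mem (β := β) h.rg.cont (A := A)
    (fun q hq => ⟨ball_subset_closedBall hq.1.1, hq.2.1⟩) (by
      filter_upwards [h.iso, nhdsWithin_le_nhds (h.op.mem_nhds h.mem)] with z a c d
      exact a ⟨zH _ d ⟨hβ, c⟩, zK _ d ⟨hβ, c⟩⟩) h.seq (p := fun b => b + β) (by fun_prop)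
    (fun b hb hne => by
      have := endA_pk h.hβ (by simpa using hb) hne
      rwa [← two_mul, norm_mul, h.hβ, mul_one, Complex.norm_two])
    (by rw [← two_mul]; exact mul_ne_zero two_ne_zero (norm_ne_zero_iff.1 (by simp [h.hβ])))
  obtain ⟨ε, ρ, φ, c⟩ := endB_chart (w := fun b db => ‖db‖ * (1 + ‖J b‖)) h.op h.rH
    h.dH h.rg.cont hb hz (zH _ hq ⟨hb, hz⟩) hg
    (h.inv b hb z hz (zH _ hq ⟨hb, hz⟩) hg).1
  have n1 := c.near ⟨c.hβ, mem_ball_self c.pos⟩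
  rw [c.base] at n1
  obtain ⟨a, ha, ha1, ha2⟩ := ((mem_closure_iff_frequently.1 hq).and_eventually n1).exists
  have ha3 : (a.1, φ a.1) = a := by
    rw [ha2 (ball_subset_closedBall ha.1.1) ha.1.2.2.1]
  have n2 := c.near ⟨ball_subset_closedBall ha.1.1, ha1⟩
  rw [ha3] at n2
  have fr := endA_freq (γ := fun x => (x, φ x)) continuous_fst ha.2.2 ha3 (by
    filter_upwards [n2] with x hx hx'
    rw [hx.2 (ball_subset_closedBall hx'.1) hx'.2.2.1])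
  have dj := c.gdiff h.rj.diff
  have dσ := c.gdiff h.rσ.diff
  have vK := endA_ident (c.gdiff h.rK.diff) ⟨ha.1.1, ha1⟩ (fr.mono fun x hx => hx.2.2.2.1)
  have vE := endA_ident (dj.sub (dσ.mul (h.dJ.mono inter_subset_left))) ⟨ha.1.1, ha1⟩
    (fr.mono fun x hx => hx.2.2.2.2)
  have hL : IsOpen (ball (0 : ℂ) 1 ∩ ball b ε) := isOpen_ball.inter isOpen_ball
  rcases (mem_closedBall_zero_iff.1 hb).lt_or_eq with hlt | heq
  · exfalso
    have hb' : b ∈ ball (0 : ℂ) 1 ∩ ball b ε := ⟨mem_ball_zero_iff.2 hlt, mem_ball_self c.pos⟩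
    have hS' : ∀ x ∈ ball (0 : ℂ) 1 ∩ ball b ε, (x, φ x) ∈ S := fun x hx =>
      ⟨hx.1, (c.mem x (endB_sub hx)).1, (c.mem x (endB_sub hx)).2.1, vK x hx, vE x hx⟩
    refine endA_nc (γ := fun x => (x, φ x)) (π := Prod.fst) (Eventually.of_forall fun _ => rfl)
      (hd _ b (by rw [c.base]) ?_)
    filter_upwards [hL.mem_nhds hb'] with x hx
    have d := differentiableAt_id.prodMk (c.diff.differentiableAt (hL.mem_nhds hx))
    refine ⟨subset_closure ⟨hS' x hx, (c.mem x (endB_sub hx)).2.2, ?_⟩, d,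
      (c.gdiff h.rg.diff).differentiableAt (hL.mem_nhds hx)⟩
    refine endA_acc (γ := fun x => (x, φ x)) (π := Prod.fst) d.continuousAt ?_
    filter_upwards [hL.mem_nhds hx] with y hy
    exact ⟨hS' y hy, rfl⟩
  · obtain ⟨C₁, hC₁⟩ := c.der j h.rj h.dj
    obtain ⟨C₂, hC₂⟩ := c.der σ h.rσ h.dσ
    refine endA_last (C := max C₁ C₂) heq c.pos h.dJ (c.cw (c.gcont h.rj.cont))
      (c.cw (c.gcont h.rσ.cont)) ?_ fun x hx => ⟨dj.differentiableAt (hL.mem_nhds hx),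
        dσ.differentiableAt (hL.mem_nhds hx), sub_eq_zero.1 (vE x hx), ?_, ?_⟩
    · rw [c.base]; exact (h.inv b hb z hz (zH _ hq ⟨hb, hz⟩) hg).2
    · have := hC₁ x hx 1
      rw [fderiv_apply_one_eq_deriv, norm_one, one_mul] at this
      exact this.trans (by gcongr; exact le_max_left _ _)
    · have := hC₂ x hx 1
      rw [fderiv_apply_one_eq_deriv, norm_one, one_mul] at this
      exact this.trans (by gcongr; exact le_max_right _ _)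

end One

end Pool.Agent.MP_098ecc_co.H97
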