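import Pool.Agent.MP_098ecc_co.H97.Defs3
import Pool.Agent.MP_098ecc_co.H97.EndB

set_option autoImplicit false

namespace Pool.Agent.MP_098ecc_co.H97

open Metric Filter Topology Set Function

section
variable {B B' Z F : Type} [NormedAddCommGroup B] [NormedSpace ℂ B] [NormedAddCommGroup B']
  [NormedSpace ℂ B'] [NormedAddCommGroup Z] [NormedSpace ℂ Z] [NormedAddCommGroup F]
  [NormedSpace ℂ F]

theorem end1_reg {U : Set Z} {f : B × Z → F} (hf : Reg U f) (L : B' →L[ℂ] B)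
    (hL : ∀ b, ‖L b‖ = ‖b‖) : Reg U (fun q : B' × Z => f (L q.1, q.2)) := by
  refine ⟨hf.cont.comp (by fun_prop) fun q hq => ⟨?_, hq.2⟩,
    hf.diff.comp (by fun_prop) fun q hq => ⟨?_, hq.2⟩, fun b hb => hf.frz (L b) ?_⟩
  · simpa [hL] using hq.1
  · simpa [hL] using hq.1
  · simpa [hL] using hb

theorem end1_db {U : Set Z} (hU : IsOpen U) {f : B × Z → F} (hf : Reg U f) (L : B' →L[ℂ] B)
    (hL : ∀ b, ‖L b‖ = ‖b‖) {w : B × Z → B → ℝ} (h : DB U w f) :
    DB U (fun q db => w (L q.1, q.2) (L db)) (fun q : B' × Z => f (L q.1, q.2)) := by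
  obtain ⟨C, hC⟩ := h
  refine ⟨C, fun b hb z hz db => ?_⟩
  have hb' : L b ∈ ball (0 : B) 1 := by simpa [hL] using hb
  have h1 := ((hf.hasLine_ball hU hb' hz 0).1.comp (b, z)
    (L.prodMap (ContinuousLinearMap.id ℂ Z)).hasFDerivAt).fderiv
  have h2 : fderiv ℂ (fun q : B' × Z => f (L q.1, q.2)) (b, z) (db, 0) =
      fderiv ℂ f (L b, z) (L db, 0) := congrArg (fun A : B' × Z →L[ℂ] F => A (db, 0)) h1
  rw [h2]
  exact hC _ hb' z hz _

end

theorem endThm_unit : EndThm Unit := by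
  refine fun Z F _ _ _ _ _ _ U z₀ H K g J j σ h _ => ⟨(), ?_⟩
  let L : ℂ →L[ℂ] (Unit → ℂ) := ContinuousLinearMap.pi fun _ => ContinuousLinearMap.id ℂ ℂ
  have hL : ∀ b, ‖L b‖ = ‖b‖ := fun b => pi_norm_const b
  have hw : (fun (q : ℂ × Z) (db : ℂ) => w0 J (L q.1, q.2) (L db)) =
      fun q db => ‖db‖ * (1 + ‖J () q.1‖) := by
    funext q db
    simp [w0, L]
  let π : (Unit → ℂ) × Z → ℂ × Z := fun q => (q.1 (), q.2)
  have hπ : Continuous π := by fun_prop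
  have hπ' : ∀ q, (L (π q).1, (π q).2) = q := fun q => rfl
  have hS : ∀ q ∈ Sh U H K J j σ, π q ∈ Sh1 U (fun q => H (L q.1, q.2)) (fun q => K (L q.1, q.2))
      (J ()) (fun q => j () (L q.1, q.2)) (fun q => σ () (L q.1, q.2)) := fun q hq =>
    ⟨by rw [mem_ball_zero_iff, ← hL]; exact mem_ball_zero_iff.1 hq.1, hq.2.1, hq.2.2.1,
      hq.2.2.2.1, hq.2.2.2.2 ()⟩
  refine endB_one (β := 1) (U := U) (z₀ := z₀) (H := fun q => H (L q.1, q.2))
    (K := fun q => K (L q.1, q.2)) (g := fun q => g (L q.1, q.2))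
    (j := fun q => j () (L q.1, q.2)) (σ := fun q => σ () (L q.1, q.2))
    ⟨norm_one, h.op, h.mem, h.dJ (), end1_reg h.rH L hL, end1_reg h.rK L hL, end1_reg h.rg L hL,
      end1_reg (h.rj ()) L hL, end1_reg (h.rσ ()) L hL, hw ▸ end1_db h.op h.rH L hL h.dH,
      hw ▸ end1_db h.op (h.rj ()) L hL (h.dj ()), hw ▸ end1_db h.op (h.rσ ()) L hL (h.dσ ()),
      fun b hb z hz a c => ?_, h.iso, ?_⟩
  · have := h.inv (L b) (by simpa [hL] using hb) z hz a c
    exact ⟨this.1, this.2 ()⟩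
  · refine map_mem_closure (f := π) hπ h.seq fun q hq => ⟨hS q hq.1, hq.2.1, ?_⟩
    have h1 := accPt_iff_frequently.1 hq.2.2
    rw [accPt_iff_frequently]
    refine hπ.continuousAt.tendsto.frequently (h1.mono fun x hx => ⟨fun e => hx.1 ?_, hS x hx.2⟩)
    rw [← hπ' x, e, hπ']

end Pool.Agent.MP_098ecc_co.H97
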