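import Pool.Agent.MP_098ecc_co.H97.LaurB

set_option autoImplicit false

namespace Pool.Agent.MP_098ecc_co.H97

open Metric Filter Topology Set Function
open scoped BoundedContinuousFunction

theorem laur_ann_open (r₁ r₂ : ℝ) : IsOpen (Ann r₁ r₂) :=
  (isOpen_lt continuous_const continuous_norm).inter (isOpen_lt continuous_norm continuous_const)

theorem laur_ann_ne {r₁ r₂ : ℝ} (h0 : 0 ≤ r₁) {z : ℂ} (hz : z ∈ Ann r₁ r₂) : z ≠ 0 :=
  norm_pos_iff.1 (h0.trans_lt hz.1)

theorem laur_sph {r₁ r₂ r : ℝ} (h : r ∈ Ioo r₁ r₂) : sphere (0 : ℂ) r ⊆ Ann r₁ r₂ := by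
  intro z hz
  rw [mem_sphere_zero_iff_norm] at hz
  exact ⟨hz ▸ h.1, hz ▸ h.2⟩

theorem laur_ann_zpow {r₁ r₂ : ℝ} (h0 : 0 ≤ r₁) (n : ℤ) :
    DifferentiableOn ℂ (fun z : ℂ => z ^ n) (Ann r₁ r₂) :=
  differentiableOn_zpow n _ (Or.inl fun h => laur_ann_ne h0 h rfl)

theorem lc_radius {r₁ r₂ r r' : ℝ} (h0 : 0 ≤ r₁) {F : ℂ → ℂ}
    (hF : DifferentiableOn ℂ F (Ann r₁ r₂)) (h : r ∈ Ioo r₁ r₂) (h' : r' ∈ Ioo r₁ r₂) (n : ℤ) :
    lc r F n = lc r' F n := by
  wlog hle : r ≤ r' generalizing r r'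
  · exact (this h' h (le_of_not_ge hle)).symm
  have hr : 0 < r := h0.trans_lt h.1
  have hG : DifferentiableOn ℂ (fun z => F z * z ^ (-n)) (Ann r₁ r₂) :=
    hF.mul (laur_ann_zpow h0 (-n))
  have hs : closedBall (0 : ℂ) r' \ ball 0 r ⊆ Ann r₁ r₂ := by
    intro z hz
    simp only [Set.mem_sdiff, mem_closedBall_zero_iff, mem_ball_zero_iff, not_lt] at hz
    exact ⟨h.1.trans_le hz.2, hz.1.trans_lt h'.2⟩
  rw [lc, lc, Real.circleAverage_eq_circleIntegral hr.ne',
    Real.circleAverage_eq_circleIntegral (hr.trans_le hle).ne',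
    Complex.circleIntegral_sub_center_inv_smul_eq_of_differentiable_on_annulus_off_countable hr hle
      countable_empty (hG.continuousOn.mono hs) fun z hz =>
        hG.differentiableAt ((laur_ann_open _ _).mem_nhds (hs ⟨ball_subset_closedBall hz.1.1,
          fun h => hz.1.2 (ball_subset_closedBall h)⟩))]

theorem lc_deriv {r₁ r₂ r : ℝ} (h0 : 0 ≤ r₁) {F : ℂ → ℂ} (hF : DifferentiableOn ℂ F (Ann r₁ r₂))
    (h : r ∈ Ioo r₁ r₂) (n : ℤ) : lc r (fun z => z * deriv F z) n = n * lc r F n := by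
  have hr : 0 < r := h0.trans_lt h.1
  have hs := laur_sph h
  have h1 : ContinuousOn (fun z => z * deriv F z) (sphere 0 r) :=
    continuousOn_id.mul ((hF.deriv (laur_ann_open _ _)).continuousOn.mono hs)
  have h2 : ContinuousOn (fun z => (n : ℂ) * F z) (sphere 0 r) :=
    continuousOn_const.mul (hF.continuousOn.mono hs)
  rw [← sub_eq_zero, ← lc_const_mul, ← lc_sub hr h1 h2, lc,
    Real.circleAverage_eq_circleIntegral hr.ne',
    circleIntegral.integral_eq_zero_of_hasDerivWithinAt (f := fun z => F z * z ^ (-n)) hr.le,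
    smul_zero]
  intro z hz
  have hz0 := laur_ann_ne h0 (hs hz)
  have h3 := ((hF.differentiableAt ((laur_ann_open _ _).mem_nhds (hs hz))).hasDerivAt.mul
    (hasDerivAt_zpow (-n) z (Or.inl hz0))).hasDerivWithinAt (s := sphere 0 r)
  convert! h3 using 1
  rw [zpow_sub_one₀ hz0]
  simp only [sub_zero, smul_eq_mul, Int.cast_neg]
  field_simp
  ring

theorem laur_bound {r : ℝ} {F : ℂ → ℂ} (hF : ContinuousOn F (sphere 0 r)) :
    ∃ M, 0 ≤ M ∧ ∀ z, ‖z‖ = r → ‖F z‖ ≤ M := by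
  obtain ⟨M, hM⟩ := (isCompact_sphere (0 : ℂ) r).exists_bound_of_continuousOn hF
  exact ⟨max M 0, le_max_right _ _, fun z hz =>
    (hM z (mem_sphere_zero_iff_norm.2 hz)).trans (le_max_left _ _)⟩

theorem laur_expand {r : ℝ} {F : ℂ → ℂ} (hF : ContinuousOn F (sphere 0 r)) {c : ℂ} (hc : ‖c‖ < r)
    {a : ℕ → ℂ} (ha : Summable fun n => ‖a n‖ * (‖c‖ / r) ^ n) :
    HasSum (fun n : ℕ => a n * c ^ n * lc r F n)
      (lc r (fun z => F z * ∑' n, a n * (c / z) ^ n) 0) := by
  have hr : 0 < r := (norm_nonneg c).trans_lt hc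
  obtain ⟨M, hM0, hM⟩ := laur_bound hF
  have e : ∀ (n : ℕ) (z : ℂ), F z * (a n * (c / z) ^ n) =
      a n * c ^ n * (z ^ (-n : ℤ) * F z) := by
    intro n z
    rw [div_pow, zpow_neg, zpow_natCast]
    ring
  have h := lc_hasSum hr (F := fun n z => F z * (a n * (c / z) ^ n)) (ha.mul_left M)
    (fun n => by
      simp only [e]
      exact continuousOn_const.mul ((laur_zpow_cont hr _).mul hF))
    (fun n z hz => by
      rw [norm_mul, norm_mul, norm_pow, norm_div, hz]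
      exact mul_le_mul_of_nonneg_right (hM z hz) (by positivity)) 0
  simp only [tsum_mul_left] at h
  simpa only [e, lc_const_mul, lc_zpow_mul hr, zero_sub, neg_neg] using h

theorem lc_expand {r : ℝ} {F : ℂ → ℂ} (hF : ContinuousOn F (sphere 0 r)) {c : ℂ} (hc : ‖c‖ < r) :
    HasSum (fun n : ℕ => c ^ n * lc r F n) (lc r (fun z => F z * (z / (z - c))) 0) ∧
    HasSum (fun n : ℕ => n * c ^ n * lc r F n) (lc r (fun z => F z * Kk c z) 0) := by
  have hr : 0 < r := (norm_nonneg c).trans_lt hc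
  have h1 : ‖c‖ / r < 1 := (div_lt_one hr).2 hc
  have h2 : ∀ z : ℂ, ‖z‖ = r → ‖c / z‖ < 1 := fun z hz => by rwa [norm_div, hz]
  have h3 : ∀ z : ℂ, ‖z‖ = r → z - c ≠ 0 := fun z hz e => by
    rw [sub_eq_zero] at e
    rw [e] at hz
    exact hc.ne hz
  constructor
  · have h := laur_expand hF hc (a := fun _ => 1)
      (by simpa using summable_geometric_of_lt_one (by positivity) h1)
    simp only [one_mul] at h
    convert! h using 1
    refine lc_congr hr (fun z hz => ?_) 0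
    rw [tsum_geometric_of_norm_lt_one (h2 z hz)]
    have := laur_ne hr hz
    have := h3 z hz
    field_simp
  · have h := laur_expand hF hc (a := fun n => n) (by
      have := summable_pow_mul_geometric_of_norm_lt_one (R := ℝ) 1 (r := ‖c‖ / r)
        (by rwa [Real.norm_eq_abs, abs_of_nonneg (by positivity)])
      simpa using this)
    convert! h using 1
    refine lc_congr hr (fun z hz => ?_) 0
    rw [tsum_coe_mul_geometric_of_norm_lt_one (h2 z hz), Kk]
    have := laur_ne hr hz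
    have := h3 z hz
    field_simp

theorem laur_ker_cont {r : ℝ} {c : ℂ} (hc : ‖c‖ ≠ r) :
    ContinuousOn (fun z : ℂ => z / (z - c)) (sphere 0 r) :=
  continuousOn_id.div (by fun_prop) fun z hz e => hc (by
    rw [sub_eq_zero] at e
    rw [← e]
    exact mem_sphere_zero_iff_norm.1 hz)

theorem laur_inv_cont {r : ℝ} (hr : 0 < r) {F : ℂ → ℂ} (hF : ContinuousOn F (sphere 0 r)) :
    ContinuousOn (fun z => F z⁻¹) (sphere 0 r⁻¹) :=
  hF.comp (continuousOn_inv₀.mono fun z hz =>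
    laur_ne (inv_pos.2 hr) (mem_sphere_zero_iff_norm.1 hz)) fun z hz => by
      rw [mem_sphere_zero_iff_norm] at hz ⊢
      rw [norm_inv, hz, inv_inv]

theorem laur_outer {r : ℝ} (hr : 0 < r) {F : ℂ → ℂ} (hF : ContinuousOn F (sphere 0 r)) {w : ℂ}
    (hw : r < ‖w‖) : HasSum (fun n : ℕ => w⁻¹ ^ n * lc r F (-(n : ℤ)))
      (lc r F 0 - lc r (fun z => F z * (z / (z - w))) 0) := by
  have hw0 : w ≠ 0 := norm_pos_iff.1 (hr.trans hw)
  have hc : ‖w⁻¹‖ < r⁻¹ := by rw [norm_inv]; exact inv_strictAnti₀ hr hw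
  have h := (lc_expand (laur_inv_cont hr hF) hc).1
  rw [← lc_sub hr hF (hF.fun_mul (laur_ker_cont hw.ne')), lc_inv hr _ 0, neg_zero]
  convert! h using 1
  · funext n
    rw [lc_inv hr F, neg_neg]
  · refine lc_congr (inv_pos.2 hr) (fun z hz => ?_) 0
    have h1 := laur_ne (inv_pos.2 hr) hz
    have h2 : z - w⁻¹ ≠ 0 := fun e => hc.ne (by rw [← sub_eq_zero.1 e, hz])
    have h3 : z * w - 1 ≠ 0 := fun e => h2 (by rw [sub_eq_zero] at e ⊢; field_simp; exact e)
    have h4 : 1 - z * w ≠ 0 := fun e => h3 (by linear_combination -e)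
    field_simp
    ring

/-- Laurent decomposition -/
theorem laurent {r₁ r₂ r : ℝ} (h0 : 0 ≤ r₁) {F : ℂ → ℂ} (hF : DifferentiableOn ℂ F (Ann r₁ r₂))
    (h : r ∈ Ioo r₁ r₂) :
    (∀ ρ, 0 < ρ → ρ < r₂ → Bnd ρ fun n => lc r F (n + 1 : ℕ)) ∧
    (∀ ρ, r₁ < ρ → Bnd ρ⁻¹ fun n => lc r F (-(n : ℤ))) ∧
    ∀ z ∈ Ann r₁ r₂, F z = z * ser (fun n => lc r F (n + 1 : ℕ)) z +
      ser (fun n => lc r F (-(n : ℤ))) z⁻¹ := by
  have hr : 0 < r := h0.trans_lt h.1
  refine ⟨fun ρ h1 h2 => ?_, fun ρ h1 => ?_, fun w hw => ?_⟩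
  · have hm : max ρ r ∈ Ioo r₁ r₂ := ⟨lt_max_of_lt_right h.1, max_lt h2 h.2⟩
    have hp : 0 < max ρ r := lt_max_of_lt_right hr
    obtain ⟨M, hM0, hM⟩ := laur_bound (hF.continuousOn.mono (laur_sph hm))
    refine ⟨M * (max ρ r)⁻¹, fun n => ?_⟩
    beta_reduce
    rw [lc_radius h0 hF h hm]
    refine (lc_norm_le hp hM _).trans ?_
    rw [zpow_neg, zpow_natCast, ← inv_pow, pow_succ', mul_assoc]
    gcongr
    exact le_max_left _ _
  · have hm : min ρ r ∈ Ioo r₁ r₂ := ⟨lt_min h1 h.1, min_lt_of_right_lt h.2⟩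
    have hp : 0 < min ρ r := h0.trans_lt hm.1
    obtain ⟨M, hM0, hM⟩ := laur_bound (hF.continuousOn.mono (laur_sph hm))
    refine ⟨M, fun n => ?_⟩
    beta_reduce
    rw [lc_radius h0 hF h hm]
    refine (lc_norm_le hp hM _).trans ?_
    rw [neg_neg, zpow_natCast, inv_inv]
    gcongr
    exact min_le_left _ _
  · obtain ⟨a, ha1, ha2⟩ := exists_between hw.1
    obtain ⟨b, hb1, hb2⟩ := exists_between hw.2
    have ha : a ∈ Ioo r₁ r₂ := ⟨ha1, ha2.trans hw.2⟩
    have hb : b ∈ Ioo r₁ r₂ := ⟨hw.1.trans hb1, hb2⟩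
    have ha0 : 0 < a := h0.trans_lt ha1
    have hb0 : 0 < b := h0.trans_lt hb.1
    have hG : DifferentiableOn ℂ (fun z => dslope F w z * z) (Ann r₁ r₂) :=
      ((Complex.differentiableOn_dslope ((laur_ann_open _ _).mem_nhds hw)).2 hF).mul
        differentiableOn_id
    have key : ∀ s ∈ Ioo r₁ r₂, ‖w‖ ≠ s → lc s (fun z => dslope F w z * z) 0 =
        lc s (fun z => F z * (z / (z - w))) 0 - F w * lc s (fun z => 1 * (z / (z - w))) 0 := by
      intro s hs hne
      have hs0 : 0 < s := h0.trans_lt hs.1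
      rw [← lc_const_mul, ← lc_sub hs0 ((hF.continuousOn.mono (laur_sph hs)).fun_mul
        (laur_ker_cont hne))
        (continuousOn_const.fun_mul (continuousOn_const.fun_mul (laur_ker_cont hne)))]
      refine lc_congr hs0 (fun z hz => ?_) 0
      have hzw : z ≠ w := fun e => hne (e ▸ hz)
      rw [dslope_of_ne F hzw, slope_def_field]
      ring
    have e1 := lc_radius h0 hG ha hb 0
    rw [key a ha ha2.ne', key b hb hb1.ne,
      lc_cauchy (lt_add_one b) (differentiableOn_const 1) hb1] at e1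
    have s1 := (lc_expand (hF.continuousOn.mono (laur_sph hb)) hb1).1
    have s2 := laur_outer ha0 (hF.continuousOn.mono (laur_sph ha)) ha2
    have s3 := laur_outer ha0 (F := fun _ => 1) continuousOn_const ha2
    have s4 : HasSum (fun n : ℕ => w⁻¹ ^ n * lc a (fun _ => 1) (-(n : ℤ))) 1 := by
      have := hasSum_single (f := fun n : ℕ => w⁻¹ ^ n * lc a (fun _ => 1) (-(n : ℤ))) 0
        (fun n hn => by rw [laur_lc_one ha0, if_neg (by omega), mul_zero])
      simpa [laur_lc_one ha0] using this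
    have s5 := s3.unique s4
    rw [laur_lc_one ha0, if_pos rfl, sub_eq_self] at s5
    rw [s5] at e1
    simp only [← lc_radius h0 hF h hb] at s1
    simp only [← lc_radius h0 hF h ha] at s2
    have t1 := ((hasSum_nat_add_iff' 1).2 s1).tsum_eq
    have t2 := s2.tsum_eq
    have u1 : w * ser (fun n => lc r F (n + 1 : ℕ)) w =
        ∑' n : ℕ, w ^ (n + 1) * lc r F (n + 1 : ℕ) := by
      rw [ser, ← tsum_mul_left]
      exact tsum_congr fun n => by ring
    have u2 : ser (fun n => lc r F (-(n : ℤ))) w⁻¹ = ∑' n : ℕ, w⁻¹ ^ n * lc r F (-(n : ℤ)) :=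
      tsum_congr fun n => mul_comm _ _
    rw [u1, u2, t1, t2]
    simp only [Finset.range_one, Finset.sum_singleton, pow_zero, Nat.cast_zero, one_mul] at e1 ⊢
    linear_combination e1

theorem lc_pair {r R R' : ℝ} (h0 : 0 < R') (h1 : R'⁻¹ < r) (h2 : r < R) {f g : ℕ → ℂ}
    (hf : Bnd R f) (hg : Bnd R' g) (n : ℕ) :
    HasSum (fun i => f (i + n) * g i) (lc r (fun z => ser f z * ser g z⁻¹) n) := by
  have hr : 0 < r := (inv_pos.2 h0).trans h1
  have hF : ContinuousOn (ser f) (sphere 0 r) :=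
    hf.diff.continuousOn.mono (sphere_subset_ball h2)
  obtain ⟨M, hM0, hM⟩ := laur_bound hF
  have e : ∀ (i : ℕ) (z : ℂ), ser f z * (g i * z⁻¹ ^ i) = g i * (z ^ (-i : ℤ) * ser f z) := by
    intro i z
    rw [inv_pow, zpow_neg, zpow_natCast]
    ring
  have h := lc_hasSum hr (F := fun i z => ser f z * (g i * z⁻¹ ^ i))
    ((hg.laur_sum (inv_pos.2 hr).le (inv_lt_of_inv_lt₀ h0 h1)).mul_left M)
    (fun n => by
      simp only [e]
      exact continuousOn_const.mul ((laur_zpow_cont hr _).mul hF))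
    (fun n z hz => by
      rw [norm_mul, norm_mul, norm_pow, norm_inv, hz]
      exact mul_le_mul_of_nonneg_right (hM z hz) (by positivity)) n
  simp only [tsum_mul_left] at h
  simp only [e, lc_const_mul, lc_zpow_mul hr] at h
  convert! h using 2 with i
  rw [show (n : ℤ) - -(i : ℤ) = ((i + n : ℕ) : ℤ) by push_cast; ring, lc_ser hr h2 hf, mul_comm]

theorem lc_param {E : Type} [NormedAddCommGroup E] [NormedSpace ℂ E] {W : Set (E × ℂ)}
    (hW : IsOpen W) {Φ : E × ℂ → ℂ} (hΦ : DifferentiableOn ℂ Φ W) {r : ℝ} (hr : 0 < r) {x : E}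
    (hx : ∀ z, ‖z‖ = r → (x, z) ∈ W) (n : ℤ) :
    DifferentiableAt ℂ (fun x => lc r (fun z => Φ (x, z)) n) x ∧
    ∀ v, fderiv ℂ (fun x => lc r (fun z => Φ (x, z)) n) x v =
      lc r (fun z => fderiv ℂ Φ (x, z) (v, 0)) n := by
  have hD : ContinuousOn (fderiv ℂ Φ) W := (hol_fderiv hW hΦ).continuousOn
  have hc : ∀ θ, ‖circleMap 0 r θ‖ = r := fun θ => by rw [norm_circleMap_zero, abs_of_pos hr]
  have hsl : ∀ y : E, (∀ z ∈ sphere (0 : ℂ) r, (y, z) ∈ W) → ∀ {G : Type} [TopologicalSpace G]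
      {T : E × ℂ → G}, ContinuousOn T W → Continuous fun θ => T (y, circleMap 0 r θ) :=
    fun y hy G _ T hT => hT.comp_continuous (by fun_prop)
      fun θ => hy _ (mem_sphere_zero_iff_norm.2 (hc θ))
  have hx' : ∀ z ∈ sphere (0 : ℂ) r, (x, z) ∈ W :=
    fun z hz => hx z (mem_sphere_zero_iff_norm.1 hz)
  have hp : Continuous fun θ => circleMap 0 r θ ^ (-n) :=
    (laur_zpow_cont hr (-n)).comp_continuous (continuous_circleMap 0 r)
      fun θ => mem_sphere_zero_iff_norm.2 (hc θ)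
  obtain ⟨M, hM⟩ := (isCompact_sphere (0 : ℂ) r).exists_bound_of_continuousOn
    (f := fun z => fderiv ℂ Φ (x, z)) (hD.comp (by fun_prop) hx')
  have hs : ∀ᶠ y in 𝓝 x, ∀ z ∈ sphere (0 : ℂ) r, (y, z) ∈ W ∧ ‖fderiv ℂ Φ (y, z)‖ < M + 1 := by
    refine (isCompact_sphere (0 : ℂ) r).eventually_forall_of_forall_eventually
      (P := fun y z => (y, z) ∈ W ∧ ‖fderiv ℂ Φ (y, z)‖ < M + 1) fun z hz => ?_
    have h1 := hW.mem_nhds (hx' z hz)
    exact Eventually.and h1 ((hD.continuousAt h1).norm.eventually_lt continuousAt_const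
      ((hM z hz).trans_lt (lt_add_one M)))
  let D : E → ℝ → E →L[ℂ] ℂ := fun y θ => circleMap 0 r θ ^ (-n) •
    (fderiv ℂ Φ (y, circleMap 0 r θ)).comp (ContinuousLinearMap.inl ℂ E ℂ)
  have hDc : Continuous (D x) := hp.smul ((hsl x hx' hD).clm_comp continuous_const)
  have h := intervalIntegral.hasFDerivAt_integral_of_dominated_of_fderiv_le (𝕜 := ℂ)
    (μ := MeasureTheory.volume) (a := 0) (b := 2 * Real.pi)
    (F := fun y θ => Φ (y, circleMap 0 r θ) * circleMap 0 r θ ^ (-n)) (F' := D)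
    (bound := fun _ => r ^ (-n) * (M + 1)) hs
    (hs.mono fun y hy => ((hsl y (fun z hz => (hy z hz).1) hΦ.continuousOn).mul
      hp).aestronglyMeasurable)
    (((hsl x hx' hΦ.continuousOn).mul hp).intervalIntegrable _ _) hDc.aestronglyMeasurable
    (Eventually.of_forall fun θ _ y hy => ?_) intervalIntegrable_const
    (Eventually.of_forall fun θ _ y hy => ?_)
  · have h2 := h.const_smul (2 * Real.pi)⁻¹
    refine ⟨h2.differentiableAt, fun v => ?_⟩
    have h3 := h2.fderiv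
    refine (congrArg (fun T : E →L[ℂ] ℂ => T v) h3).trans ?_
    simp only [smul_apply]
    rw [ContinuousLinearMap.intervalIntegral_apply (hDc.intervalIntegrable _ _), lc,
      Real.circleAverage_def]
    simp [D, mul_comm]
  · have h1 := (hy _ (mem_sphere_zero_iff_norm.2 (hc θ))).2
    simp only [D]
    rw [norm_smul, norm_zpow, hc]
    refine mul_le_mul_of_nonneg_left ((ContinuousLinearMap.opNorm_comp_le _ _).trans ?_)
      (by positivity)
    exact (mul_le_of_le_one_right (norm_nonneg _) (ContinuousLinearMap.norm_inl_le_one ℂ E ℂ)).trans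
      h1.le
  · have h1 := (hy _ (mem_sphere_zero_iff_norm.2 (hc θ))).1
    exact (((hΦ.differentiableAt (hW.mem_nhds h1)).hasFDerivAt.comp y
      (hasFDerivAt_prodMk_left y _)).mul_const _)

end Pool.Agent.MP_098ecc_co.H97
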