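import Pool.Agent.MP_098ecc_co.H97.Defs3
import Pool.Agent.MP_098ecc_co.H97.Laur

set_option autoImplicit false

namespace Pool.Agent.MP_098ecc_co.H97

open Metric Filter Topology Set Function
open scoped BoundedContinuousFunction

theorem eta_an {R : ℝ} {f : ℕ → ℂ} (hf : Bnd R f) : AnalyticOnNhd ℂ (ser f) (ball 0 R) :=
  hf.diff.analyticOnNhd isOpen_ball

theorem eta_an_flat {R : ℝ} {f : ℕ → ℂ} (hf : Bnd R f) (m : ℕ) :
    AnalyticOnNhd ℂ (ser (flat m f)) (ball 0 R) := by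
  intro z hz
  rw [mem_ball_zero_iff] at hz
  obtain ⟨ρ, h1, h2⟩ := exists_between hz
  exact eta_an (hf.flat m ((norm_nonneg z).trans_lt h1) h2) z (mem_ball_zero_iff.2 h1)

theorem eta_zero (f : ℕ → ℂ) : ser f 0 = f 0 := by
  rw [ser, tsum_eq_single 0 fun n hn => by simp [hn]]
  simp

theorem eta_flat_zero (m : ℕ) (f : ℕ → ℂ) : ser (flat m f) 0 = - f 0 := by
  rw [eta_zero]
  simp [flat]

theorem eta_ident {R : ℝ} {F : ℂ → ℂ} (hF : AnalyticOnNhd ℂ F (ball 0 R)) {z : ℂ} (hz : ‖z‖ < R)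
    (h : ∃ᶠ w in 𝓝[≠] z, F w = 0) {w : ℂ} (hw : ‖w‖ < R) : F w = 0 :=
  hF.eqOn_zero_of_preconnected_of_frequently_eq_zero (convex_ball 0 R).isPreconnected
    (mem_ball_zero_iff.2 hz) h (mem_ball_zero_iff.2 hw)

theorem eta_ne {R : ℝ} {F : ℂ → ℂ} (hF : AnalyticOnNhd ℂ F (ball 0 R)) (h0 : F 0 ≠ 0) {z : ℂ}
    (hz : ‖z‖ < R) : ∀ᶠ w in 𝓝[≠] z, F w ≠ 0 := by
  by_contra h
  exact h0 (eta_ident hF hz (by simpa using h) (by simpa using (norm_nonneg z).trans_lt hz))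

theorem eta_coef {R : ℝ} {f : ℕ → ℂ} (hf : Bnd R f) {z : ℂ} (hz : ‖z‖ < R)
    (h : ∃ᶠ w in 𝓝[≠] z, ser f w = 0) : f = 0 := by
  obtain ⟨ρ, h1, h2⟩ := exists_between ((norm_nonneg z).trans_lt hz)
  funext n
  rw [← lc_ser h1 h2 hf n, lc_congr h1 (G := fun _ => 0) fun w hw =>
    eta_ident (eta_an hf) hz h (hw ▸ h2)]
  simp [lc, Real.circleAverage_const]

theorem eta_inv {z : ℂ} (hz : z ≠ 0) : Tendsto (fun w : ℂ => w⁻¹) (𝓝[≠] z) (𝓝[≠] z⁻¹) :=
  tendsto_nhdsWithin_iff.2 ⟨(continuousAt_inv₀ hz).tendsto.mono_left nhdsWithin_le_nhds,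
    eventually_nhdsWithin_of_forall fun _ hw h => hw (inv_injective h)⟩

theorem eta_liou {Φ : ℂ → ℂ} {c : ℂ} (hm : ∀ z, MeromorphicAt Φ z)
    (hb : ∀ z, ∃ C : ℝ, ∀ᶠ w in 𝓝[≠] z, ‖Φ w‖ ≤ C) (hc : Tendsto Φ (cocompact ℂ) (𝓝 c)) (z : ℂ) :
    ∀ᶠ w in 𝓝[≠] z, Φ w = c := by
  have h0 : MeromorphicOn Φ univ := fun z _ => hm z
  have h1 := fun z => h0.toMeromorphicNFOn_eq_self_on_nhdsNE (mem_univ z)
  have h2 : ∀ z, AnalyticAt ℂ (toMeromorphicNFOn Φ univ) z := fun z => by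
    rw [← (meromorphicNFOn_toMeromorphicNFOn Φ univ
      (mem_univ z)).meromorphicOrderAt_nonneg_iff_analyticAt, meromorphicOrderAt_congr (h1 z)]
    by_contra h
    obtain ⟨C, hC⟩ := hb z
    have h3 := (tendsto_norm_atTop_iff_cobounded.2 (tendsto_cobounded_of_meromorphicOrderAt_neg
      (not_le.1 h))).eventually_gt_atTop C
    obtain ⟨w, w1, w2⟩ := (hC.and h3).exists
    exact absurd w1 (not_le.2 w2)
  have h3 : Tendsto (toMeromorphicNFOn Φ univ) (cocompact ℂ) (𝓝 c) := by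
    refine (nhds_basis_closedBall.tendsto_right_iff).2 fun ε hε => ?_
    obtain ⟨K, k1, k2⟩ := mem_cocompact.1 (hc (closedBall_mem_nhds c hε))
    refine mem_cocompact.2 ⟨K, k1, fun w hw => ?_⟩
    show _ ∈ closedBall c ε
    refine isClosed_closedBall.mem_of_tendsto (b := 𝓝[≠] w)
      ((h2 w).continuousAt.tendsto.mono_left nhdsWithin_le_nhds) ?_
    filter_upwards [h1 w, nhdsWithin_le_nhds (k1.isClosed.isOpen_compl.mem_nhds hw)] with v v1 v2
    rw [v1]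
    exact k2 v2
  filter_upwards [h1 z] with w hw
  rw [← hw]
  exact Differentiable.apply_eq_of_tendsto_cocompact (fun z => (h2 z).differentiableAt) w h3

theorem eta_div {a b : ℂ} {C : ℝ} (h : ‖a‖ ≤ C * ‖b‖) : ‖a / b‖ ≤ |C| := by
  rw [norm_div]
  exact div_le_of_le_mul₀ (norm_nonneg _) (abs_nonneg _)
    (h.trans (mul_le_mul_of_nonneg_right (le_abs_self C) (norm_nonneg _)))

theorem eta {m : ℕ} {R R' r : ℝ} (h0 : 0 < R') (h1 : R'⁻¹ < r) (h2 : r < R) {f df g dg : ℕ → ℂ}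
    (bf : Bnd R f) (bdf : Bnd R df) (bg : Bnd R' g) (bdg : Bnd R' dg) (f0 : f 0 ≠ 0)
    (g0 : g 0 ≠ 0) (df0 : df 0 = 0) (hO : ∀ z ∈ Ann R'⁻¹ R, Om m f df g dg z = 0)
    (hf : ∀ ζ : ℂ, ‖ζ‖ ≤ r → ∃ C : ℝ, ∀ᶠ z in 𝓝 ζ, ‖ser df z‖ ≤ C * ‖ser (flat m f) z‖)
    (hg : ∀ ζ : ℂ, ‖ζ‖ ≤ r⁻¹ → ∃ C : ℝ, ∀ᶠ z in 𝓝 ζ, ‖ser dg z‖ ≤ C * ‖ser (flat m g) z‖) :
    df = 0 ∧ dg = 0 := by
  have hr : 0 < r := (inv_pos.2 h0).trans h1
  have aF := eta_an_flat bf m
  have aG := eta_an_flat bg m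
  have aD := eta_an bdf
  have aE := eta_an bdg
  have F0 : ser (flat m f) 0 ≠ 0 := by rwa [eta_flat_zero, neg_ne_zero]
  have G0 : ser (flat m g) 0 ≠ 0 := by rwa [eta_flat_zero, neg_ne_zero]
  have hinv : ∀ z : ℂ, R'⁻¹ < ‖z‖ → ‖z⁻¹‖ < R' := fun z hz => by
    rw [norm_inv]
    exact (inv_lt_comm₀ h0 ((inv_pos.2 h0).trans hz)).1 hz
  set Φ : ℂ → ℂ := fun z => if ‖z‖ ≤ r then ser df z / ser (flat m f) z else
    -(ser dg z⁻¹ / ser (flat m g) z⁻¹) with hΦ
  have e1 : ∀ z : ℂ, ‖z‖ ≤ r → Φ =ᶠ[𝓝[≠] z] fun w => ser df w / ser (flat m f) w := by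
    intro z hz
    rcases hz.lt_or_eq with h | h
    · filter_upwards [nhdsWithin_le_nhds ((isOpen_lt continuous_norm continuous_const).mem_nhds h)]
        with w hw
      exact if_pos (le_of_lt hw)
    · have hz0 : z ≠ 0 := laur_ne hr h
      filter_upwards [eta_ne aF F0 (hz.trans_lt h2),
        (eta_inv hz0).eventually (eta_ne aG G0 (hinv z (h ▸ h1))),
        nhdsWithin_le_nhds ((laur_ann_open R'⁻¹ R).mem_nhds ⟨h ▸ h1, h ▸ h2⟩)] with w w1 w2 w3
      have := hO w w3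
      simp only [hΦ]
      split_ifs
      · rfl
      · rw [Om] at this
        rw [← neg_div, div_eq_div_iff w2 w1]
        linear_combination -this
  have e2 : ∀ z : ℂ, r < ‖z‖ → Φ =ᶠ[𝓝[≠] z] fun w => -(ser dg w⁻¹ / ser (flat m g) w⁻¹) := by
    intro z h
    filter_upwards [nhdsWithin_le_nhds ((isOpen_lt continuous_const continuous_norm).mem_nhds h)]
      with w hw
    exact if_neg (not_le.2 hw)
  have hcol : Tendsto (fun w : ℂ => w⁻¹) (cocompact ℂ) (𝓝 0) := by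
    rw [← cobounded_eq_cocompact]
    exact tendsto_inv₀_cobounded
  have hbig : ∀ᶠ w : ℂ in cocompact ℂ, r < ‖w‖ :=
    (tendsto_norm_cocompact_atTop (E := ℂ)).eventually_gt_atTop r
  have key := eta_liou (Φ := Φ) (c := -(ser dg 0 / ser (flat m g) 0)) (fun z => by
    rcases le_or_gt ‖z‖ r with h | h
    · have hz := mem_ball_zero_iff.2 (h.trans_lt h2)
      exact ((aD z hz).meromorphicAt.div (aF z hz).meromorphicAt).congr (e1 z h).symm
    · have hz := mem_ball_zero_iff.2 (hinv z (h1.trans h))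
      have hz0 : z ≠ 0 := norm_pos_iff.1 (hr.trans h)
      exact (((aE _ hz).comp (analyticAt_inv hz0)).meromorphicAt.div
        ((aG _ hz).comp (analyticAt_inv hz0)).meromorphicAt).neg.congr (e2 z h).symm)
    (fun z => by
      rcases le_or_gt ‖z‖ r with h | h
      · obtain ⟨C, hC⟩ := hf z h
        refine ⟨|C|, ?_⟩
        filter_upwards [e1 z h, nhdsWithin_le_nhds hC] with w w1 w2
        rw [w1]
        exact eta_div w2
      · have hz0 : z ≠ 0 := norm_pos_iff.1 (hr.trans h)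
        obtain ⟨C, hC⟩ := hg z⁻¹ (by rw [norm_inv]; exact inv_anti₀ hr h.le)
        refine ⟨|C|, ?_⟩
        filter_upwards [e2 z h, (eta_inv hz0).eventually (nhdsWithin_le_nhds hC)] with w w1 w2
        rw [w1, norm_neg]
        exact eta_div w2)
    (by
      have a1 : ContinuousAt (fun w => -(ser dg w / ser (flat m g) w)) 0 :=
        ((aE 0 (mem_ball_self h0)).continuousAt.div (aG 0 (mem_ball_self h0)).continuousAt G0).neg
      refine (a1.tendsto.comp hcol).congr' ?_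
      filter_upwards [hbig] with w hw
      exact (if_neg (not_le.2 hw)).symm)
  generalize -(ser dg 0 / ser (flat m g) 0) = c at key
  have hR : ‖(0 : ℂ)‖ < R := by simpa using hr.trans h2
  have k0 : ∀ᶠ w in 𝓝[≠] (0 : ℂ), ser df w / ser (flat m f) w = c := by
    filter_upwards [key 0, e1 0 (by simpa using hr.le)] with w w1 w2
    rw [← w2, w1]
  have hc : c = 0 := by
    have a1 : ContinuousAt (fun w => ser df w / ser (flat m f) w) 0 :=
      (aD 0 (mem_ball_zero_iff.2 hR)).continuousAt.div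
        (aF 0 (mem_ball_zero_iff.2 hR)).continuousAt F0
    have a2 := tendsto_nhds_unique_of_eventuallyEq (a1.tendsto.mono_left nhdsWithin_le_nhds)
      tendsto_const_nhds k0
    rw [← a2, eta_zero, df0, zero_div]
  subst hc
  refine ⟨eta_coef bdf hR (Eventually.frequently ?_), ?_⟩
  · filter_upwards [k0, eta_ne aF F0 hR] with w w1 w2
    exact (div_eq_zero_iff.1 w1).resolve_right w2
  · obtain ⟨z, hz⟩ := hbig.exists
    have hz0 : z ≠ 0 := norm_pos_iff.1 (hr.trans hz)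
    have a1 := eta_inv (inv_ne_zero hz0)
    rw [inv_inv] at a1
    refine eta_coef bdg (hinv z (h1.trans hz)) (Eventually.frequently ?_)
    filter_upwards [a1.eventually (key z), a1.eventually (e2 z hz),
      eta_ne aG G0 (hinv z (h1.trans hz))] with w w1 w2 w3
    rw [w1, inv_inv, zero_eq_neg] at w2
    exact (div_eq_zero_iff.1 w2).resolve_right w3

theorem ker {m : ℕ} (hm : 0 < m) {R R' : ℝ} (h0 : 0 < R') (h : R'⁻¹ < R) {f df : ℕ → ℂ}
    (bf : Bnd R f) (bdf : Bnd R df) (f0 : f 0 ≠ 0) (df0 : df 0 = 0) {C c α α' : ℂ} (hC : C ≠ 0)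
    (hc : c ≠ 0) (hc' : ‖c‖ < R'⁻¹) (hO : ∀ z ∈ Ann R'⁻¹ R,
      Om m f df (fun n => C * c ^ n) (fun n => (α + α' * n) * c ^ n) z = 0)
    (hz : ser (fun n => (α + α' * n) * c ^ n) ((m + 1) * c)⁻¹ = 0) :
    df = 0 ∧ α = 0 ∧ α' = 0 := by
  have hm0 : (m : ℂ) ≠ 0 := by exact_mod_cast hm.ne'
  have hm1 : (m : ℂ) + 1 ≠ 0 := by exact_mod_cast m.succ_ne_zero
  have hx : ‖((m : ℂ) + 1)⁻¹‖ < 1 := by
    rw [norm_inv]
    refine inv_lt_one_of_one_lt₀ ?_
    have : ((m : ℂ) + 1) = ((m + 1 : ℕ) : ℂ) := by push_cast; rfl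
    rw [this, Complex.norm_natCast]
    exact_mod_cast Nat.succ_lt_succ hm
  have hα : α' = -(α * m) := by
    have a1 := ((hasSum_geometric_of_norm_lt_one hx).mul_left α).add
      ((hasSum_coe_mul_geometric_of_norm_lt_one hx).mul_left α')
    have a2 : ser (fun n => (α + α' * n) * c ^ n) ((m + 1) * c)⁻¹ = _ :=
      (tsum_congr fun n => by
        have : c ^ n * ((m + 1 : ℂ) * c)⁻¹ ^ n = ((m : ℂ) + 1)⁻¹ ^ n := by
          rw [← mul_pow]
          congr 1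
          field_simp
        rw [mul_assoc, this]
        ring).trans a1.tsum_eq
    have a3 : 1 - ((m : ℂ) + 1)⁻¹ = m / (m + 1) := by
      field_simp
      ring
    rw [hz, a3] at a2
    field_simp at a2
    have a4 : ((m : ℂ) + 1) * (α' + α * m) = 0 := by linear_combination -a2
    linear_combination (mul_eq_zero.1 a4).resolve_left hm1
  have bg : Bnd R' fun n => C * c ^ n := ⟨‖C‖, fun n => by
    rw [norm_mul, norm_pow]
    exact mul_le_mul_of_nonneg_left (pow_le_pow_left₀ (norm_nonneg _) hc'.le n) (norm_nonneg _)⟩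
  have aG := eta_an_flat bg m
  have G0 : ser (flat m fun n => C * c ^ n) 0 ≠ 0 := by simpa [eta_flat_zero] using hC
  have hser : ∀ w, ser (fun n => (α + α' * n) * c ^ n) w =
      -(α / C) * ser (flat m fun n => C * c ^ n) w := fun w => by
    rw [ser, ser, ← tsum_mul_left]
    refine tsum_congr fun n => ?_
    rw [flat, hα]
    field_simp
    ring
  obtain ⟨r, h1, h2⟩ := exists_between h
  have hr : 0 < r := (inv_pos.2 h0).trans h1
  have hn : ‖(r : ℂ)‖ = r := by simp [hr.le]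
  have hR : ‖(0 : ℂ)‖ < R := by simpa using hr.trans h2
  have hfr : ∀ᶠ w in 𝓝[≠] (r : ℂ), ser df w - α / C * ser (flat m f) w = 0 := by
    filter_upwards [(eta_inv (laur_ne hr hn)).eventually (eta_ne aG G0 (by
        rw [norm_inv, hn]
        exact (inv_lt_comm₀ h0 hr).1 h1)),
      nhdsWithin_le_nhds ((laur_ann_open R'⁻¹ R).mem_nhds ⟨hn.symm ▸ h1, hn.symm ▸ h2⟩)]
      with w w1 w2
    have := hO w w2
    rw [Om, hser] at this
    refine (mul_eq_zero.1 ?_).resolve_left w1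
    linear_combination this
  have a0 := eta_ident ((eta_an bdf).sub (analyticOnNhd_const.mul (eta_an_flat bf m)))
    (hn.symm ▸ h2) hfr.frequently hR
  have hα0 : α = 0 := by
    simp only [Pi.sub_apply, eta_zero df, eta_flat_zero, df0] at a0
    simpa [f0, hC] using a0
  refine ⟨eta_coef bdf (z := r) (hn.symm ▸ h2) (Eventually.frequently ?_), hα0, by simp [hα, hα0]⟩
  simpa [hα0] using hfr

theorem eta_ratio {F G : ℂ → ℂ} {ζ : ℂ} (hF : ContinuousAt F ζ) (hG : ContinuousAt G ζ)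
    (h : F ζ ≠ 0) : ∃ C : ℝ, ∀ᶠ z in 𝓝 ζ, ‖G z‖ ≤ C * ‖F z‖ := by
  refine ⟨‖G ζ / F ζ‖ + 1, ?_⟩
  filter_upwards [hF.eventually_ne h,
    (hG.div hF h).norm.eventually (eventually_le_nhds (lt_add_one _))] with z z1 z2
  rwa [Pi.div_apply, norm_div, div_le_iff₀ (norm_pos_iff.2 z1)] at z2

/-- a simple zero of `F` at which `G` vanishes, or a point where `F` does not vanish -/
theorem ratio_bd {F G : ℂ → ℂ} {ζ : ℂ} (hF : AnalyticAt ℂ F ζ) (hG : AnalyticAt ℂ G ζ)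
    (h : F ζ = 0 → deriv F ζ ≠ 0 ∧ G ζ = 0) : ∃ C : ℝ, ∀ᶠ z in 𝓝 ζ, ‖G z‖ ≤ C * ‖F z‖ := by
  by_cases h0 : F ζ = 0
  · obtain ⟨h1, h2⟩ := h h0
    obtain ⟨C, hC⟩ := eta_ratio (continuousAt_dslope_same.2 hF.differentiableAt)
      (continuousAt_dslope_same.2 hG.differentiableAt) (by rwa [dslope_same])
    refine ⟨C, hC.mono fun z hz => ?_⟩
    have a1 := sub_smul_dslope F ζ z
    have a2 := sub_smul_dslope G ζ z
    rw [h0, sub_zero] at a1
    rw [h2, sub_zero] at a2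
    rw [← a1, ← a2, norm_smul, norm_smul, mul_left_comm]
    exact mul_le_mul_of_nonneg_left hz (norm_nonneg _)
  · exact eta_ratio hF.continuousAt hG.continuousAt h0

end Pool.Agent.MP_098ecc_co.H97
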