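import Pool.Agent.MP_098ecc_co.H97.RigB

set_option autoImplicit false

namespace Pool.Agent.MP_098ecc_co.H97

open Metric Filter Topology Set Function

theorem rig_chain {W : Set (ℂ × ℂ)} (hW : IsOpen W) {X : ℂ × ℂ → ℂ} (hX : DifferentiableOn ℂ X W)
    {w a : ℂ} (hw : ((0 : ℂ), w) ∈ W) {ψ : ℂ → ℂ} (hψ : DifferentiableAt ℂ ψ 0) (h0 : ψ 0 = w)
    (h : ∀ᶠ s in 𝓝 (0 : ℂ), X (s, ψ s) = a) {C : ℝ} (hC : ‖deriv ψ 0‖ ≤ C) :
    ‖fderiv ℂ X (0, w) (1, 0)‖ ≤ C * ‖fderiv ℂ X (0, w) (0, 1)‖ := by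
  have h1 : HasFDerivAt X (fderiv ℂ X (0, w)) (id 0, ψ 0) := by
    rw [h0]
    exact (hX.differentiableAt (hW.mem_nhds hw)).hasFDerivAt
  have h2 := h1.comp_hasDerivAt (0 : ℂ) ((hasDerivAt_id (0 : ℂ)).prodMk hψ.hasDerivAt)
  have h3 := h2.unique ((hasDerivAt_const (0 : ℂ) a).congr_of_eventuallyEq h)
  have h4 : ((1, deriv ψ 0) : ℂ × ℂ) = (1, 0) + deriv ψ 0 • (0, 1) := by simp
  rw [h4, map_add, map_smul, add_eq_zero_iff_eq_neg] at h3
  rw [h3, norm_neg, norm_smul]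
  exact mul_le_mul_of_nonneg_right hC (norm_nonneg _)

theorem rig_fill {f g : ℂ → ℝ} {c : ℂ} (hf : ContinuousAt f c) (hg : ContinuousAt g c)
    (h : ∀ᶠ w in 𝓝[≠] c, f w ≤ g w) : ∀ᶠ w in 𝓝 c, f w ≤ g w := by
  have h1 : f c ≤ g c := le_of_tendsto_of_tendsto (hf.tendsto.mono_left nhdsWithin_le_nhds)
    (hg.tendsto.mono_left nhdsWithin_le_nhds) h
  refine (eventually_nhdsWithin_iff.mp h).mono fun w hw => ?_
  by_cases e : w = c
  · rwa [e]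
  · exact hw e

theorem rig_main {W : Set (ℂ × ℂ)} (hW : IsOpen W) {X Y : ℂ × ℂ → ℂ}
    (hX : DifferentiableOn ℂ X W) (hY : DifferentiableOn ℂ Y W) {c w₁ : ℂ} {ε δ δ₁ : ℝ}
    (hε : 0 < ε) (hδ : 0 < δ) (hδ₁ : δ₁ ≤ δ) (hsub : ball (0 : ℂ) ε ×ˢ closedBall c δ ⊆ W)
    (hne : ∀ s ∈ ball (0 : ℂ) ε, ∀ z ∈ sphere c δ, ∀ w ∈ ball c δ₁, X (s, z) - X (0, w) ≠ 0)
    (hJ : ∀ s ∈ ball (0 : ℂ) ε, ∀ z ∈ sphere c δ,
      fderiv ℂ X (s, z) (1, 0) * fderiv ℂ Y (s, z) (0, 1) =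
        fderiv ℂ Y (s, z) (1, 0) * fderiv ℂ X (s, z) (0, 1))
    (h1 : w₁ ∈ ball c δ₁) (h2 : deriv (fun z => X (0, z)) w₁ ≠ 0)
    (h3 : ∀ z ∈ ball c δ, X (0, z) = X (0, w₁) → Y (0, z) = Y (0, w₁) → z = w₁)
    {c' : ℂ} (hc' : c' ∈ ball c δ₁) : ∀ᶠ w in 𝓝 c',
      ‖fderiv ℂ X (0, w) (1, 0)‖ ≤ 2 * δ / ε * ‖fderiv ℂ X (0, w) (0, 1)‖ ∧
      ‖fderiv ℂ Y (0, w) (1, 0)‖ ≤ 2 * δ / ε * ‖fderiv ℂ Y (0, w) (0, 1)‖ := by
  classical
  have z0 : (0 : ℂ) ∈ ball (0 : ℂ) ε := mem_ball_self hε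
  have hb : ball c δ₁ ⊆ ball c δ := ball_subset_ball hδ₁
  have hm : ∀ s ∈ ball (0 : ℂ) ε, ∀ z ∈ closedBall c δ, (s, z) ∈ W := fun s hs z hz => hsub ⟨hs, hz⟩
  have hm0 : ∀ w ∈ ball c δ₁, ((0 : ℂ), w) ∈ W := fun w hw =>
    hm 0 z0 w (ball_subset_closedBall (hb hw))
  let W' : Set ((ℂ × ℂ) × ℂ) := (fun q => (q.1.1, q.2)) ⁻¹' W ∩ (fun q => (0, q.1.2)) ⁻¹' W
  have hW' : IsOpen W' := (hW.preimage (by fun_prop)).inter (hW.preimage (by fun_prop))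
  have d1 : ∀ {f : ℂ × ℂ → ℂ}, DifferentiableOn ℂ f W →
      DifferentiableOn ℂ (fun q : (ℂ × ℂ) × ℂ => f (q.1.1, q.2)) W' := fun hf =>
    hf.comp (f := fun q : (ℂ × ℂ) × ℂ => (q.1.1, q.2)) (by fun_prop) fun q hq => hq.1
  have d2 : ∀ {f : ℂ × ℂ → ℂ}, DifferentiableOn ℂ f W →
      DifferentiableOn ℂ (fun q : (ℂ × ℂ) × ℂ => f (0, q.1.2)) W' := fun hf =>
    hf.comp (f := fun q : (ℂ × ℂ) × ℂ => ((0 : ℂ), q.1.2)) (by fun_prop) fun q hq => hq.2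
  obtain ⟨k, R, hR, hS⟩ := rig_roots (O := ball (0 : ℂ) ε ×ˢ ball c δ₁) hW' ((d1 hX).sub (d2 hX))
    ((convex_ball _ _).prod (convex_ball _ _)).isPreconnected hδ
    (fun q hq => ⟨hm _ hq.1.1 _ hq.2, hm0 _ hq.1.2⟩) fun p hp z hz => hne _ hp.1 z hz _ hp.2
  simp only [Pi.sub_apply] at hR
  -- the multiset of values of Y does not depend on s
  have hM : ∀ w ∈ ball c δ₁, ∀ s ∈ ball (0 : ℂ) ε,
      (R (s, w)).map (fun z => Y (s, z)) = (R (0, w)).map fun z => Y (0, z) := by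
    intro w hw s hs
    have e : ∀ j : ℕ, ∀ s ∈ ball (0 : ℂ) ε, 2 * Real.pi * Complex.I *
        (((R (s, w)).map fun z => Y (s, z)).map fun z => z ^ j).sum =
        ∮ z in C(c, δ), Y (s, z) ^ j * (fderiv ℂ X (s, z) (0, 1) / (X (s, z) - X (0, w))) := by
      intro j s hs
      have h7 := (rig_slice hW (hY.pow j) s (hm s hs)).differentiableOn
      rw [Multiset.map_map]
      refine ((hR (s, w) ⟨hs, hw⟩).2.2.2 _ (h7.diffContOnCl_ball subset_rfl)).trans ?_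
      refine circleIntegral.integral_congr hδ.le fun z hz => ?_
      simp only [((rig_dsnd (hX.differentiableAt (hW.mem_nhds
        (hm s hs z (sphere_subset_closedBall hz))))).sub_const (X (0, w))).deriv, Pi.pow_apply]
    refine rig_psum ?_ fun j => mul_left_cancel₀ Complex.two_pi_I_ne_zero ?_
    · rw [Multiset.card_map, Multiset.card_map, (hR (s, w) ⟨hs, hw⟩).1, (hR (0, w) ⟨z0, hw⟩).1]
    · rw [e j s hs, e j 0 z0]
      exact rig_const hW hX hY hδ (fun s hs z hz => ⟨hm s hs z (sphere_subset_closedBall hz),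
        hne s hs z hz w hw, hJ s hs z hz⟩) j hs
  let Q : ℂ → ℂ := fun w => ((R (0, w)).map fun z => Y (0, w) - Y (0, z)).esymm (k - 1)
  have hQ : DifferentiableOn ℂ Q (ball c δ₁) :=
    ((hS _ ((d2 hY).sub (d1 hY))).2 (k - 1)).comp (f := fun w : ℂ => ((0 : ℂ), w)) (by fun_prop)
      fun w hw => ⟨z0, hw⟩
  have hQe : ∀ w ∈ ball c δ₁, ∃ R', R (0, w) = w ::ₘ R' ∧
      Q w = ((R'.map fun z => Y (0, z)).map fun t => Y (0, w) - t).prod := by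
    intro w hw
    obtain ⟨a1, -, a3, -⟩ := hR (0, w) ⟨z0, hw⟩
    obtain ⟨R', e⟩ := Multiset.exists_cons_of_mem ((a3 w (hb hw)).1.mpr (sub_self _))
    refine ⟨R', e, ?_⟩
    have e2 : k - 1 = (R'.map fun z => Y (0, w) - Y (0, z)).card := by
      rw [← a1, e]
      simp
    simp only [Q]
    rw [e, Multiset.map_cons, sub_self, e2, rig_esymm, Multiset.map_map]
    rfl
  have hQ1 : Q w₁ ≠ 0 := by
    obtain ⟨R', e, e2⟩ := hQe w₁ h1
    obtain ⟨-, a2, a3, -⟩ := hR (0, w₁) ⟨z0, h1⟩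
    rw [e2]
    refine Multiset.prod_ne_zero fun h0 => ?_
    rw [Multiset.map_map] at h0
    obtain ⟨z, hz, ez⟩ := Multiset.mem_map.mp h0
    have hz' : z ∈ R (0, w₁) := e ▸ Multiset.mem_cons_of_mem hz
    obtain rfl : z = w₁ := h3 z (a2 z hz') (sub_eq_zero.mp ((a3 z (a2 z hz')).1.mp hz'))
      (sub_eq_zero.mp ez).symm
    have an : AnalyticAt ℂ (fun t => X (0, t) - X (0, z)) z :=
      (rig_slice hW hX 0 (hm 0 z0) z (ball_subset_closedBall (hb h1))).sub analyticAt_const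
    have a4 := (a3 z (hb h1)).2
    rw [an.analyticOrderAt_eq_one_of_zero_deriv_ne_zero (sub_self _)
      (by rwa [deriv_sub_const]), e, Multiset.count_cons_self] at a4
    have a5 : R'.count z + 1 = 1 := by exact_mod_cast a4
    exact Multiset.count_eq_zero.mp (by omega) hz
  have hQa := hQ.analyticOnNhd isOpen_ball
  have hQ0 : ∀ᶠ w in 𝓝[≠] c', Q w ≠ 0 := (hQa c' hc').eventually_eq_zero_or_eventually_ne_zero.resolve_left
    fun e => hQ1 (hQa.eqOn_zero_of_preconnected_of_eventuallyEq_zero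
      (convex_ball _ _).isPreconnected hc' e h1)
  have key : ∀ w ∈ ball c δ₁, Q w ≠ 0 →
      ‖fderiv ℂ X (0, w) (1, 0)‖ ≤ 2 * δ / ε * ‖fderiv ℂ X (0, w) (0, 1)‖ ∧
      ‖fderiv ℂ Y (0, w) (1, 0)‖ ≤ 2 * δ / ε * ‖fderiv ℂ Y (0, w) (0, 1)‖ := by
    intro w hw h0
    obtain ⟨R', e, e2⟩ := hQe w hw
    rw [e2] at h0
    set T := R'.map fun z => Y (0, z) with hT
    let ψ : ℂ → ℂ := fun s => ((R (s, w)).map fun z => z * ((T.map fun t => Y (s, z) - t).prod /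
      (T.map fun t => Y (0, w) - t).prod)).sum
    have hψ : DifferentiableOn ℂ ψ (ball 0 ε) :=
      (hS (fun q => q.2 * ((T.map fun t => Y (q.1.1, q.2) - t).prod /
        (T.map fun t => Y (0, w) - t).prod)) (differentiableOn_snd.mul
          ((rig_mprod (d1 hY) T).mul_const _))).1.comp (f := fun s : ℂ => (s, w)) (by fun_prop)
        fun s hs => ⟨hs, hw⟩
    have hp : ∀ s ∈ ball (0 : ℂ) ε, ψ s ∈ R (s, w) ∧ Y (s, ψ s) = Y (0, w) := by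
      intro s hs
      obtain ⟨z, b1, b2, b3⟩ := rig_pick (R := R (s, w)) (g := fun z => Y (s, z)) (y := Y (0, w))
        (T := T) (by rw [hM w hw s hs, e, Multiset.map_cons]) h0
      have b4 : ψ s = z := b3
      rw [b4]
      exact ⟨b1, b2⟩
    have hψb : ∀ s ∈ ball (0 : ℂ) ε, ψ s ∈ ball c δ := fun s hs =>
      (hR (s, w) ⟨hs, hw⟩).2.1 _ (hp s hs).1
    have hψ0 : ψ 0 = w := by
      obtain ⟨b1, b2⟩ := hp 0 z0
      rw [e] at b1
      refine (Multiset.mem_cons.mp b1).resolve_right fun b3 => h0 ?_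
      exact Multiset.prod_eq_zero (Multiset.mem_map.mpr
        ⟨_, Multiset.mem_map_of_mem _ b3, sub_eq_zero.mpr b2.symm⟩)
    have hC : ‖deriv ψ 0‖ ≤ 2 * δ / ε := by
      refine Complex.norm_deriv_le_div_of_mapsTo_ball hψ (fun s hs => ?_) hε
      have b1 := mem_ball.mp (hψb s hs)
      have b2 := mem_ball.mp (hψb 0 z0)
      rw [mem_closedBall]
      linarith [dist_triangle_right (ψ s) (ψ 0) c]
    have hn := isOpen_ball.mem_nhds z0
    refine ⟨rig_chain hW hX (hm0 w hw) (hψ.differentiableAt hn) hψ0 (a := X (0, w))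
      (mem_of_superset hn fun s hs => ?_) hC, rig_chain hW hY (hm0 w hw) (hψ.differentiableAt hn) hψ0
      (a := Y (0, w)) (mem_of_superset hn fun s hs => (hp s hs).2) hC⟩
    exact sub_eq_zero.mp (((hR (s, w) ⟨hs, hw⟩).2.2.1 _ (hψb s hs)).1.mp (hp s hs).1)
  have hev := (hQ0.and (mem_nhdsWithin_of_mem_nhds (isOpen_ball.mem_nhds hc'))).mono
    fun w hw => key w hw.2 hw.1
  have hcont : ∀ {f : ℂ × ℂ → ℂ}, DifferentiableOn ℂ f W → ∀ v : ℂ × ℂ,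
      ContinuousAt (fun w : ℂ => ‖fderiv ℂ f (0, w) v‖) c' := fun hf v =>
    ((((hol_fderiv hW hf).continuousOn.continuousAt (hW.mem_nhds (hm0 c' hc'))).comp
      (f := fun w : ℂ => ((0 : ℂ), w)) (by fun_prop)).clm_apply continuousAt_const).norm
  exact (rig_fill (hcont hX _) ((hcont hX _).const_mul _) (hev.mono fun w hw => hw.1)).and
    (rig_fill (hcont hY _) ((hcont hY _).const_mul _) (hev.mono fun w hw => hw.2))

end Pool.Agent.MP_098ecc_co.H97
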