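import Pool.Agent.MP_098ecc_co.H97.Hol

set_option autoImplicit false

namespace Pool.Agent.MP_098ecc_co.H97

open Metric Filter Topology Set Function
open scoped BoundedContinuousFunction

theorem roots_div {K : Set ℂ} {g : ℂ → ℂ} (hg : AnalyticOnNhd ℂ g K) {a : ℂ} (ha : a ∈ K)
    (h0 : ¬∀ᶠ z in 𝓝 a, g z = 0) :
    ∃ (n : ℕ) (u : ℂ → ℂ), AnalyticOnNhd ℂ u K ∧ u a ≠ 0 ∧ ∀ z, g z = (z - a) ^ n * u z := by
  classical
  obtain ⟨n, v, h1, h2, h3⟩ := (hg a ha).exists_eventuallyEq_pow_smul_nonzero_iff.mpr h0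
  have key : ∀ z, g z = (z - a) ^ n * update (fun z => g z / (z - a) ^ n) a (v a) z := by
    intro z
    by_cases hz : z = a
    · rw [hz, update_self]
      exact h3.self_of_nhds
    · rw [update_of_ne hz, mul_div_cancel₀ _ (pow_ne_zero _ (sub_ne_zero.mpr hz))]
  refine ⟨n, _, fun b hb => ?_, by rwa [update_self], key⟩
  by_cases hba : b = a
  · subst hba
    refine h1.congr (h3.mono fun z hz => ?_)
    by_cases hzb : z = b
    · rw [hzb, update_self]
    · rw [update_of_ne hzb, hz, smul_eq_mul,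
        mul_div_cancel_left₀ _ (pow_ne_zero _ (sub_ne_zero.mpr hzb))]
  · have h4 : AnalyticAt ℂ (fun z => g z / (z - a) ^ n) b :=
      (hg b hb).div (by fun_prop) (pow_ne_zero _ (sub_ne_zero.mpr hba))
    exact h4.congr ((eventually_ne_nhds hba).mono fun z hz => by rw [update_of_ne hz])

theorem roots_factor (K : Set ℂ) (S : Finset ℂ) : ∀ g : ℂ → ℂ, AnalyticOnNhd ℂ g K →
    (∀ a ∈ K, ¬∀ᶠ z in 𝓝 a, g z = 0) → (∀ a ∈ K, g a = 0 → a ∈ S) →
    ∃ (R : Multiset ℂ) (u : ℂ → ℂ), AnalyticOnNhd ℂ u K ∧ (∀ z ∈ K, u z ≠ 0) ∧ (∀ a ∈ R, a ∈ K) ∧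
      ∀ z, g z = (R.map fun a => z - a).prod * u z := by
  classical
  induction S using Finset.induction_on with
  | empty => exact fun g h1 _ h3 => ⟨0, g, h1, fun z hz e => by simpa using h3 z hz e, by simp,
      by simp⟩
  | insert a S _ ih =>
    intro g h1 h2 h3
    by_cases ha : a ∈ K
    · obtain ⟨n, v, v1, v2, v3⟩ := roots_div h1 ha (h2 a ha)
      obtain ⟨R, u, u1, u2, u3, u4⟩ := ih v v1
        (fun b hb e => h2 b hb (e.mono fun z hz => by rw [v3, hz, mul_zero]))
        fun b hb e => (Finset.mem_insert.mp (h3 b hb (by rw [v3, e, mul_zero]))).resolve_left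
          fun f => v2 (f ▸ e)
      refine ⟨Multiset.replicate n a + R, u, u1, u2, fun b hb => ?_, fun z => ?_⟩
      · rcases Multiset.mem_add.mp hb with e | e
        · rwa [Multiset.eq_of_mem_replicate e]
        · exact u3 b e
      · rw [v3, u4, Multiset.map_add, Multiset.prod_add, Multiset.map_replicate,
          Multiset.prod_replicate, mul_assoc]
    · exact ih g h1 h2 fun b hb e =>
        (Finset.mem_insert.mp (h3 b hb e)).resolve_left fun f => ha (f ▸ hb)

theorem roots_an (R : Multiset ℂ) (w : ℂ) :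
    AnalyticAt ℂ (fun z => (R.map fun a => z - a).prod) w := by
  induction R using Multiset.induction_on with
  | empty => simpa using analyticAt_const
  | cons a R ih =>
    simp only [Multiset.map_cons, Multiset.prod_cons]
    exact (analyticAt_id.sub analyticAt_const).mul ih

theorem roots_order (R : Multiset ℂ) (w : ℂ) :
    analyticOrderAt (fun z => (R.map fun a => z - a).prod) w = R.count w := by
  induction R using Multiset.induction_on with
  | empty => simp [analyticOrderAt_eq_zero]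
  | cons a R ih =>
    simp only [Multiset.map_cons, Multiset.prod_cons]
    have h1 := analyticOrderAt_mul (f := fun z => z - a) (by fun_prop) (roots_an R w)
    refine h1.trans ?_
    rw [ih]
    by_cases h : w = a
    · rw [h, analyticOrderAt_id_sub_const_self, Multiset.count_cons_self, add_comm]
      simp
    · rw [analyticOrderAt_id_sub_const_of_ne h, Multiset.count_cons_of_ne h, zero_add]

theorem roots_wind {c : ℂ} {r : ℝ} (hr : 0 < r) {φ u : ℂ → ℂ} (hφ : DiffContOnCl ℂ φ (ball c r))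
    (hu : AnalyticOnNhd ℂ u (closedBall c r)) (hu0 : ∀ z ∈ closedBall c r, u z ≠ 0)
    (R : Multiset ℂ) : (∀ a ∈ R, a ∈ ball c r) →
      2 * Real.pi * Complex.I * (R.map φ).sum = ∮ z in C(c, r), φ z *
        (deriv (fun z => (R.map fun a => z - a).prod * u z) z /
          ((R.map fun a => z - a).prod * u z)) := by
  have hφc : ContinuousOn φ (closedBall c r) := by
    have := hφ.continuousOn
    rwa [closure_ball _ hr.ne'] at this
  induction R using Multiset.induction_on with
  | empty =>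
    intro _
    simp only [Multiset.map_zero, Multiset.sum_zero, mul_zero, Multiset.prod_zero, one_mul]
    have h1 : AnalyticOnNhd ℂ (fun z => deriv u z / u z) (closedBall c r) := hu.deriv.div hu hu0
    refine (DiffContOnCl.circleIntegral_eq_zero hr.le ⟨?_, ?_⟩).symm
    · exact hφ.differentiableOn.mul (h1.mono ball_subset_closedBall).differentiableOn
    · rw [closure_ball _ hr.ne']
      exact hφc.mul h1.continuousOn
  | cons a R ih =>
    intro hR
    set G : ℂ → ℂ := fun z => (R.map fun a => z - a).prod * u z with hG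
    have hGd : AnalyticOnNhd ℂ G (sphere c r) := fun z hz =>
      (roots_an R z).mul (hu z (sphere_subset_closedBall hz))
    have ha := hR a (Multiset.mem_cons_self _ _)
    have hR' : ∀ b ∈ R, b ∈ ball c r := fun b hb => hR b (Multiset.mem_cons_of_mem hb)
    have hne : ∀ z ∈ sphere c r, ∀ b ∈ ball c r, z - b ≠ 0 := fun z hz b hb e => by
      rw [← sub_eq_zero.mp e, mem_ball, mem_sphere.mp hz] at hb
      exact lt_irrefl _ hb
    have hG0 : ∀ z ∈ sphere c r, G z ≠ 0 := fun z hz =>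
      mul_ne_zero (Multiset.prod_ne_zero fun e => by
        obtain ⟨b, hb, e⟩ := Multiset.mem_map.mp e
        exact hne z hz b (hR' b hb) e) (hu0 z (sphere_subset_closedBall hz))
    have h1 : (∮ z in C(c, r), φ z * (deriv (fun z => (z - a) * G z) z / ((z - a) * G z))) =
        ∮ z in C(c, r), ((z - a)⁻¹ • φ z + φ z * (deriv G z / G z)) := by
      refine circleIntegral.integral_congr hr.le fun z hz => ?_
      have hd : HasDerivAt (fun z => (z - a) * G z) (1 * G z + (z - a) * deriv G z) z :=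
        ((hasDerivAt_id z).sub_const a).mul (hGd z hz).differentiableAt.hasDerivAt
      have := hG0 z hz
      have := hne z hz a ha
      simp only [hd.deriv, smul_eq_mul]
      field_simp
    have hsp : ContinuousOn φ (sphere c r) := hφc.mono sphere_subset_closedBall
    simp only [Multiset.map_cons, Multiset.prod_cons, mul_assoc _ _ (u _), Multiset.sum_cons]
    refine Eq.trans ?_ h1.symm
    rw [circleIntegral.integral_add, ← ih hR', hφ.circleIntegral_sub_inv_smul ha, smul_eq_mul]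
    · ring
    · exact ContinuousOn.circleIntegrable hr.le
        (((continuousOn_id.sub continuousOn_const).inv₀ fun z hz => hne z hz a ha).smul hsp)
    · exact ContinuousOn.circleIntegrable hr.le (hsp.mul
        (hGd.deriv.continuousOn.div hGd.continuousOn hG0))

theorem roots_one {c : ℂ} {r : ℝ} (hr : 0 < r) {g : ℂ → ℂ}
    (hg : AnalyticOnNhd ℂ g (closedBall c r)) (h0 : ∀ z ∈ sphere c r, g z ≠ 0) :
    ∃ R : Multiset ℂ, (∀ z ∈ R, z ∈ ball c r) ∧
      (∀ z ∈ ball c r, (z ∈ R ↔ g z = 0) ∧ (R.count z : ℕ∞) = analyticOrderAt g z) ∧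
      ∀ φ : ℂ → ℂ, DiffContOnCl ℂ φ (ball c r) → 2 * Real.pi * Complex.I * (R.map φ).sum =
        ∮ z in C(c, r), φ z * (deriv g z / g z) := by
  have hc := (convex_closedBall c r).isPreconnected
  have hn : ¬EqOn g 0 (closedBall c r) := fun e => by
    obtain ⟨z, hz⟩ := (NormedSpace.sphere_nonempty (x := c)).mpr hr.le
    exact h0 z hz (e (sphere_subset_closedBall hz))
  have hf := (isCompact_closedBall c r).finite_sdiff_of_mem_codiscreteWithin
    ((hg.eqOn_zero_or_eventually_ne_zero_of_preconnected hc).resolve_left hn)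
  obtain ⟨R, u, u1, u2, u3, u4⟩ := roots_factor _ hf.toFinset g hg
    (fun a ha e => hn (hg.eqOn_zero_of_preconnected_of_eventuallyEq_zero hc ha e))
    fun a ha e => hf.mem_toFinset.mpr ⟨ha, fun f => f e⟩
  have hz : ∀ z ∈ R, g z = 0 := fun z hz => by
    rw [u4, Multiset.prod_eq_zero (Multiset.mem_map.mpr ⟨z, hz, sub_self z⟩), zero_mul]
  have hb : ∀ z ∈ R, z ∈ ball c r := fun z h =>
    lt_of_le_of_ne (u3 z h) fun e => h0 z e (hz z h)
  obtain rfl : g = fun z => (R.map fun a => z - a).prod * u z := funext u4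
  refine ⟨R, hb, fun z h => ⟨⟨hz z, fun e => ?_⟩, ?_⟩, fun φ hφ => roots_wind hr hφ u1 u2 R hb⟩
  · obtain ⟨b, h1, h2⟩ := Multiset.mem_map.mp (Multiset.prod_eq_zero_iff.mp
      ((mul_eq_zero.mp e).resolve_right (u2 z (ball_subset_closedBall h))))
    rwa [sub_eq_zero.mp h2]
  · have h1 := u1 z (ball_subset_closedBall h)
    have h2 := analyticOrderAt_mul (roots_an R z) h1
    rw [roots_order, h1.analyticOrderAt_eq_zero.mpr (u2 z (ball_subset_closedBall h)),
      add_zero] at h2
    exact h2.symm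

theorem roots_int {E : Type} [NormedAddCommGroup E] [NormedSpace ℂ E] [FiniteDimensional ℂ E]
    {W : Set (E × ℂ)} (hW : IsOpen W) {Φ : E × ℂ → ℂ} (hΦ : DifferentiableOn ℂ Φ W) {c : ℂ}
    {r : ℝ} (hr : 0 < r) {p : E} (hp : ∀ z ∈ sphere c r, (p, z) ∈ W) :
    DifferentiableAt ℂ (fun x => ∮ z in C(c, r), Φ (x, z)) p := by
  have : ProperSpace E := FiniteDimensional.proper ℂ E
  obtain ⟨η, hη, h1⟩ := nhds_basis_closedBall.eventually_iff.mp
    ((isCompact_sphere c r).eventually_forall_of_forall_eventually (x₀ := p)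
      (P := fun x z => (x, z) ∈ W) fun z hz => hW.mem_nhds (hp z hz))
  have hsub : closedBall p η ×ˢ sphere c r ⊆ W := fun q hq => h1 hq.1 _ hq.2
  have hD := (hol_fderiv hW hΦ).continuousOn
  obtain ⟨C, hC⟩ := ((isCompact_closedBall p η).prod
    (isCompact_sphere c r)).exists_bound_of_continuousOn (hD.mono hsub)
  have hm : ∀ x ∈ closedBall p η, ∀ t, (x, circleMap c r t) ∈ closedBall p η ×ˢ sphere c r :=
    fun x hx t => ⟨hx, circleMap_mem_sphere c hr.le t⟩
  have hd : Continuous (deriv (circleMap c r)) := by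
    have : deriv (circleMap c r) = fun t => circleMap 0 r t * Complex.I :=
      funext (deriv_circleMap c r)
    rw [this]
    fun_prop
  have hc : ∀ x ∈ closedBall p η,
      Continuous fun t => deriv (circleMap c r) t • Φ (x, circleMap c r t) := fun x hx =>
    hd.smul (hΦ.continuousOn.comp_continuous (by fun_prop) fun t => hsub (hm x hx t))
  have hp' := mem_closedBall_self (x := p) hη.le
  refine (intervalIntegral.hasFDerivAt_integral_of_dominated_of_fderiv_le
    (F := fun x t => deriv (circleMap c r) t • Φ (x, circleMap c r t))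
    (F' := fun x t => deriv (circleMap c r) t •
      (fderiv ℂ Φ (x, circleMap c r t)).comp (ContinuousLinearMap.inl ℂ E ℂ))
    (bound := fun _ => r * (C * ‖ContinuousLinearMap.inl ℂ E ℂ‖))
    (closedBall_mem_nhds p hη) ?_ ((hc p hp').intervalIntegrable _ _) ?_ ?_
    intervalIntegrable_const ?_).differentiableAt
  · exact mem_of_superset (closedBall_mem_nhds p hη) fun x hx => (hc x hx).aestronglyMeasurable
  · exact (hd.smul ((hD.comp_continuous (by fun_prop) fun t => hsub (hm p hp' t)).clm_comp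
      continuous_const)).aestronglyMeasurable
  · refine Eventually.of_forall fun t _ x hx => ?_
    rw [norm_smul, deriv_circleMap, norm_mul, Complex.norm_I, mul_one, norm_circleMap_zero,
      abs_of_pos hr]
    exact mul_le_mul_of_nonneg_left ((ContinuousLinearMap.opNorm_comp_le _ _).trans
      (mul_le_mul_of_nonneg_right (hC _ (hm x hx t)) (norm_nonneg _))) hr.le
  · refine Eventually.of_forall fun t _ x hx => ?_
    have h2 := (hΦ.differentiableAt (hW.mem_nhds (hsub (hm x hx t)))).hasFDerivAt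
    exact (HasFDerivAt.comp (g := Φ) x h2
      (hasFDerivAt_prodMk_left (𝕜 := ℂ) x (circleMap c r t))).const_smul
        (deriv (circleMap c r) t)

theorem roots_newton (s : Multiset ℂ) (k : ℕ) : (k : ℂ) * s.esymm k = (-1) ^ (k + 1) *
    ∑ a ∈ Finset.HasAntidiagonal.antidiagonal k with a.1 < k,
      (-1) ^ a.1 * s.esymm a.1 * (s.map fun z => z ^ a.2).sum := by
  classical
  have h1 := congrArg (MvPolynomial.aeval fun x : s => (x : ℂ))
    (MvPolynomial.mul_esymm_eq_sum s ℂ k)
  simp only [map_mul, map_natCast, map_pow, map_neg, map_one, map_sum,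
    MvPolynomial.aeval_esymm_eq_multiset_esymm, Multiset.map_univ_coe, MvPolynomial.psum,
    MvPolynomial.aeval_X] at h1
  rw [h1]
  congr 1
  refine Finset.sum_congr rfl fun a _ => ?_
  rw [← Multiset.map_univ s fun z => z ^ a.2]
  rfl

theorem roots {E : Type} [NormedAddCommGroup E] [NormedSpace ℂ E] [FiniteDimensional ℂ E]
    {W : Set (E × ℂ)} (hW : IsOpen W) {h : E × ℂ → ℂ} (hh : DifferentiableOn ℂ h W) {p₀ : E}
    {z₀ : ℂ} (hm : (p₀, z₀) ∈ W) (iso : ∀ᶠ z in 𝓝[≠] z₀, h (p₀, z) ≠ 0) :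
    ∀ᶠ δ in 𝓝[>] (0 : ℝ), ∃ O : Set E, IsOpen O ∧ p₀ ∈ O ∧ O ×ˢ closedBall z₀ δ ⊆ W ∧
      ∃ (k : ℕ) (R : E → Multiset ℂ), (∀ p ∈ O, (R p).card = k ∧
        (∀ z ∈ sphere z₀ δ, h (p, z) ≠ 0) ∧ (∀ z ∈ R p, z ∈ ball z₀ δ) ∧
        (∀ z ∈ ball z₀ δ, (z ∈ R p ↔ h (p, z) = 0) ∧
          ((R p).count z : ℕ∞) = analyticOrderAt (fun z => h (p, z)) z) ∧
        ∀ φ : ℂ → ℂ, DiffContOnCl ℂ φ (ball z₀ δ) → 2 * Real.pi * Complex.I * ((R p).map φ).sum =
          ∮ z in C(z₀, δ), φ z * (deriv (fun z => h (p, z)) z / h (p, z))) ∧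
      (∀ z ∈ R p₀, z = z₀) ∧
      ∀ (W' : Set (E × ℂ)) (O' : Set E) (f : E × ℂ → ℂ), IsOpen W' → IsOpen O' → O' ⊆ O →
        O' ×ˢ closedBall z₀ δ ⊆ W' → DifferentiableOn ℂ f W' →
        DifferentiableOn ℂ (fun p => ((R p).map fun z => f (p, z)).sum) O' ∧
        ∀ i, DifferentiableOn ℂ (fun p => ((R p).map fun z => f (p, z)).esymm i) O' := by
  have e1 : ∀ᶠ z in 𝓝 z₀, (p₀, z) ∈ W ∧ (z ≠ z₀ → h (p₀, z) ≠ 0) :=
    ((Continuous.prodMk_right p₀).continuousAt.eventually (hW.mem_nhds hm)).and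
      (eventually_nhdsWithin_iff.mp iso)
  obtain ⟨ε, hε, e2⟩ := nhds_basis_closedBall.eventually_iff.mp e1
  filter_upwards [Ioo_mem_nhdsGT hε] with δ hδ
  have e3 : ∀ z ∈ closedBall z₀ δ, (p₀, z) ∈ W ∧ (z ≠ z₀ → h (p₀, z) ≠ 0) := fun z hz =>
    e2 (closedBall_subset_closedBall hδ.2.le hz)
  let W₀ := W ∩ h ⁻¹' {0}ᶜ
  have hW₀ : IsOpen W₀ := hh.continuousOn.isOpen_inter_preimage hW isOpen_compl_singleton
  obtain ⟨η, hη, e4⟩ := nhds_basis_ball.eventually_iff.mp
    (((isCompact_closedBall z₀ δ).eventually_forall_of_forall_eventually (x₀ := p₀)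
      (P := fun x z => (x, z) ∈ W) fun z hz => hW.mem_nhds (e3 z hz).1).and
    ((isCompact_sphere z₀ δ).eventually_forall_of_forall_eventually (x₀ := p₀)
      (P := fun x z => (x, z) ∈ W₀) fun z hz => hW₀.mem_nhds
        ⟨(e3 z (sphere_subset_closedBall hz)).1, (e3 z (sphere_subset_closedBall hz)).2
          (ne_of_mem_sphere hz hδ.1.ne')⟩))
  have slice : ∀ {W' : Set (E × ℂ)} {f : E × ℂ → ℂ}, IsOpen W' → DifferentiableOn ℂ f W' →
      ∀ p, (∀ z ∈ closedBall z₀ δ, (p, z) ∈ W') →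
        AnalyticOnNhd ℂ (fun z => f (p, z)) (closedBall z₀ δ) := by
    intro W' f h1 h2 p h3
    have h4 : DifferentiableOn ℂ (fun z => f (p, z)) (Prod.mk p ⁻¹' W') :=
      h2.comp (by fun_prop) fun z hz => hz
    exact (h4.analyticOnNhd (h1.preimage (Continuous.prodMk_right p))).mono h3
  have ex : ∀ p, ∃ R : Multiset ℂ, p ∈ ball p₀ η → (∀ z ∈ R, z ∈ ball z₀ δ) ∧
      (∀ z ∈ ball z₀ δ, (z ∈ R ↔ h (p, z) = 0) ∧
        (R.count z : ℕ∞) = analyticOrderAt (fun z => h (p, z)) z) ∧
      ∀ φ : ℂ → ℂ, DiffContOnCl ℂ φ (ball z₀ δ) → 2 * Real.pi * Complex.I * (R.map φ).sum =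
        ∮ z in C(z₀, δ), φ z * (deriv (fun z => h (p, z)) z / h (p, z)) := by
    intro p
    by_cases hp : p ∈ ball p₀ η
    · obtain ⟨R, hR⟩ := roots_one hδ.1 (slice hW hh p (e4 hp).1) fun z hz => ((e4 hp).2 z hz).2
      exact ⟨R, fun _ => hR⟩
    · exact ⟨0, fun e => absurd e hp⟩
  choose R hR using ex
  have hsum : ∀ (W' : Set (E × ℂ)) (O' : Set E) (f : E × ℂ → ℂ), IsOpen W' → O' ⊆ ball p₀ η →
      O' ×ˢ closedBall z₀ δ ⊆ W' → DifferentiableOn ℂ f W' →
      DifferentiableOn ℂ (fun p => ((R p).map fun z => f (p, z)).sum) O' := by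
    intro W' O' f h1 h2 h3 h4
    have h5 : DifferentiableOn ℂ (fun q => f q * (fderiv ℂ h q (0, 1) / h q)) (W' ∩ W₀) := by
      have s1 : W' ∩ W₀ ⊆ W := fun q hq => hq.2.1
      exact (h4.mono inter_subset_left).mul
        ((((hol_fderiv hW hh).mono s1).clm_apply (differentiableOn_const _)).mul
          ((hh.mono s1).inv fun q hq => hq.2.2))
    have h6 : DifferentiableOn ℂ (fun p => (2 * Real.pi * Complex.I)⁻¹ *
        ∮ z in C(z₀, δ), f (p, z) * (fderiv ℂ h (p, z) (0, 1) / h (p, z))) O' := fun p hp =>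
      ((roots_int (h1.inter hW₀) h5 hδ.1 fun z hz =>
        ⟨h3 ⟨hp, sphere_subset_closedBall hz⟩, (e4 (h2 hp)).2 z hz⟩).const_mul
          _).differentiableWithinAt
    refine h6.congr fun p hp => ?_
    have h7 := (slice h1 h4 p fun z hz => h3 ⟨hp, hz⟩).differentiableOn
    rw [eq_inv_mul_iff_mul_eq₀ Complex.two_pi_I_ne_zero,
      (hR p (h2 hp)).2.2 _ (h7.diffContOnCl_ball subset_rfl)]
    refine circleIntegral.integral_congr hδ.1.le fun z hz => ?_
    have h8 := (hh.differentiableAt (hW.mem_nhds ((e4 (h2 hp)).2 z hz).1)).hasFDerivAt.comp_hasDerivAt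
      z ((hasDerivAt_const z p).prodMk (hasDerivAt_id z))
    have h9 : deriv (fun z => h (p, z)) z = fderiv ℂ h (p, z) (0, 1) := h8.deriv
    simp only [h9]
  have hOW : ball p₀ η ×ˢ closedBall z₀ δ ⊆ W := fun q hq => (e4 hq.1).1 _ hq.2
  have hcard : ContinuousOn (fun p => (R p).card) (ball p₀ η) := by
    have h1 := (hsum W _ (fun _ => 1) hW subset_rfl hOW (differentiableOn_const _)).continuousOn.norm
    rw [Nat.isClosedEmbedding_coe_real.isInducing.continuousOn_iff]
    simpa [comp_def] using h1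
  refine ⟨ball p₀ η, isOpen_ball, mem_ball_self hη, hOW, (R p₀).card, R, fun p hp =>
    ⟨(convex_ball p₀ η).isPreconnected.constant hcard hp (mem_ball_self hη),
      fun z hz => ((e4 hp).2 z hz).2, hR p hp⟩, fun z hz => ?_,
    fun W' O' f h1 _ h2 h3 h4 => ⟨hsum W' O' f h1 h2 h3 h4, fun i => ?_⟩⟩
  · obtain ⟨h1, h2, -⟩ := hR p₀ (mem_ball_self hη)
    by_contra hne
    exact (e3 z (ball_subset_closedBall (h1 z hz))).2 hne ((h2 z (h1 z hz)).1.mp hz)
  · induction i using Nat.strong_induction_on with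
    | _ i ih =>
      rcases Nat.eq_zero_or_pos i with rfl | hi
      · simp [Multiset.esymm, differentiableOn_const]
      have h5 : DifferentiableOn ℂ (fun p => (i : ℂ)⁻¹ * ((-1) ^ (i + 1) *
          ∑ a ∈ Finset.HasAntidiagonal.antidiagonal i with a.1 < i, (-1) ^ a.1 *
            ((R p).map fun z => f (p, z)).esymm a.1 * ((R p).map fun z => f (p, z) ^ a.2).sum))
          O' := by
        refine (DifferentiableOn.fun_sum fun a ha => ?_).const_mul _ |>.const_mul _
        exact ((ih _ (Finset.mem_filter.mp ha).2).const_mul _).mul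
          (hsum W' O' (fun q => f q ^ a.2) h1 h2 h3 (h4.pow _))
      refine h5.congr fun p _ => ?_
      rw [eq_inv_mul_iff_mul_eq₀ (Nat.cast_ne_zero.mpr hi.ne'), roots_newton]
      simp only [Multiset.map_map, comp_def]

end Pool.Agent.MP_098ecc_co.H97
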