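import Pool.Agent.MP_098ecc_co.H97.Defs3
import Pool.Agent.MP_098ecc_co.H97.Roots
import Pool.Agent.MP_098ecc_co.H97.Laur
import Pool.Agent.MP_098ecc_co.H97.RigC

set_option autoImplicit false

namespace Pool.Agent.MP_098ecc_co.H97

open Metric Filter Topology Set Function
open scoped BoundedContinuousFunction

theorem rig_box {E : Type} [TopologicalSpace E] {P : E × ℂ → Prop} {p : E} {c : ℂ}
    (h : ∀ᶠ q in 𝓝 (p, c), P q) : ∃ ρ > 0, ∀ᶠ p' in 𝓝 p, ∀ z ∈ ball c ρ, P (p', z) := by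
  rw [nhds_prod_eq, eventually_prod_iff] at h
  obtain ⟨a, ha, b, hb, h⟩ := h
  obtain ⟨ρ, hρ, h1⟩ := nhds_basis_ball.eventually_iff.mp hb
  exact ⟨ρ, hρ, ha.mono fun p' hp z hz => h hp (h1 hz)⟩

theorem rig_loc {E : Type} [NormedAddCommGroup E] [NormedSpace ℂ E] {W : Set (E × ℂ)}
    (hW : IsOpen W) {x : E × ℂ → ℂ} (hx : DifferentiableOn ℂ x W) {p₀ : E} {w₁ : ℂ}
    (hm : (p₀, w₁) ∈ W) (h : deriv (fun z => x (p₀, z)) w₁ ≠ 0) :
    ∃ ρ > 0, ∀ᶠ p in 𝓝 p₀, deriv (fun z => x (p, z)) w₁ ≠ 0 ∧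
      ∀ z ∈ ball w₁ ρ, x (p, z) = x (p, w₁) → z = w₁ := by
  have hn := hW.mem_nhds hm
  rw [(rig_dsnd (hx.differentiableAt hn)).deriv] at h
  set a := fderiv ℂ x (p₀, w₁) (0, 1) with ha
  have ha0 : 0 < ‖a‖ := norm_pos_iff.mpr h
  have hc : ContinuousAt (fun q => ‖fderiv ℂ x q (0, 1) - a‖) (p₀, w₁) :=
    ((((hol_fderiv hW hx).continuousOn.continuousAt hn).clm_apply continuousAt_const).sub
      continuousAt_const).norm
  obtain ⟨ρ, hρ, h1⟩ := rig_box (P := fun q => q ∈ W ∧ ‖fderiv ℂ x q (0, 1) - a‖ < ‖a‖ / 2)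
    (Eventually.and hn (hc.eventually_lt continuousAt_const (by simpa [← ha] using h)))
  refine ⟨ρ, hρ, h1.mono fun p hp => ⟨?_, fun z hz e => ?_⟩⟩
  · obtain ⟨b1, b2⟩ := hp w₁ (mem_ball_self hρ)
    rw [(rig_dsnd (hx.differentiableAt (hW.mem_nhds b1))).deriv]
    intro e
    rw [e, zero_sub, norm_neg] at b2
    linarith
  · have h2 := (convex_ball w₁ ρ).norm_image_sub_le_of_norm_hasDerivWithin_le
      (f := fun z => x (p, z) - a * z) (f' := fun z => fderiv ℂ x (p, z) (0, 1) - a) (C := ‖a‖ / 2)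
      (fun t ht => ((rig_dsnd (hx.differentiableAt (hW.mem_nhds (hp t ht).1))).sub
        (((hasDerivAt_id t).const_mul a).congr_deriv (mul_one a))).hasDerivWithinAt)
      (fun t ht => (hp t ht).2.le) (mem_ball_self hρ) hz
    have h3 : x (p, z) - a * z - (x (p, w₁) - a * w₁) = -(a * (z - w₁)) := by rw [e]; ring
    rw [h3, norm_neg, norm_mul] at h2
    by_contra hne
    have h4 : 0 < ‖z - w₁‖ := norm_pos_iff.mpr (sub_ne_zero.mpr hne)
    nlinarith [mul_pos ha0 h4]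

theorem rig_unif {E : Type} [NormedAddCommGroup E] [NormedSpace ℂ E] {W : Set (E × ℂ)}
    (hW : IsOpen W) {x y : E × ℂ → ℂ} (hx : DifferentiableOn ℂ x W) (hy : DifferentiableOn ℂ y W)
    {p₀ : E} {c : ℂ} (hm : (p₀, c) ∈ W) (nc : ¬ ∀ᶠ w in 𝓝 c, x (p₀, w) = x (p₀, c))
    (inj : ∃ N ∈ 𝓝 c, InjOn (fun w => (x (p₀, w), y (p₀, w))) N) :
    ∃ (δ δ₁ m : ℝ) (w₁ : ℂ), 0 < δ₁ ∧ δ₁ ≤ δ ∧ w₁ ∈ ball c δ₁ ∧ ∀ᶠ p in 𝓝 p₀,
      (∀ z ∈ closedBall c δ, (p, z) ∈ W) ∧ (∀ z ∈ sphere c δ, m < ‖x (p, z) - x (p₀, c)‖) ∧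
      (∀ z ∈ ball c δ₁, ‖x (p, z) - x (p₀, c)‖ < m) ∧ deriv (fun z => x (p, z)) w₁ ≠ 0 ∧
      ∀ z ∈ ball c δ, x (p, z) = x (p, w₁) → y (p, z) = y (p, w₁) → z = w₁ := by
  obtain ⟨N, hN, inj⟩ := inj
  have an : AnalyticAt ℂ (fun z => x (p₀, z)) c :=
    rig_slice hW hx p₀ (K := {c}) (by simpa using hm) c rfl
  have e0 : ∀ᶠ z in 𝓝 c, (p₀, z) ∈ W :=
    (Continuous.prodMk_right p₀).continuousAt.eventually (hW.mem_nhds hm)
  have e1 : ∀ᶠ z in 𝓝[≠] c, x (p₀, z) ≠ x (p₀, c) :=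
    (an.eventually_eq_or_eventually_ne analyticAt_const).resolve_left nc
  have e2 : ∀ᶠ z in 𝓝[≠] c, deriv (fun z => x (p₀, z)) z ≠ 0 := by
    refine an.deriv.eventually_eq_zero_or_eventually_ne_zero.resolve_left fun e => nc ?_
    obtain ⟨r, hr, h1⟩ := nhds_basis_ball.eventually_iff.mp (e.and an.eventually_analyticAt)
    exact mem_of_superset (ball_mem_nhds c hr) fun z hz =>
      isOpen_ball.is_const_of_deriv_eq_zero (convex_ball _ _).isPreconnected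
        (fun t ht => (h1 ht).2.differentiableAt.differentiableWithinAt) (fun t ht => (h1 ht).1) hz
        (mem_ball_self hr)
  obtain ⟨δ, hδ, e3⟩ := nhds_basis_closedBall.eventually_iff.mp
    ((e0.and hN).and (eventually_nhdsWithin_iff.mp (e1.and e2)))
  have hxc : ∀ z ∈ closedBall c δ, ContinuousAt x (p₀, z) := fun z hz =>
    hx.continuousOn.continuousAt (hW.mem_nhds (e3 hz).1.1)
  have hyc : ∀ z ∈ closedBall c δ, ContinuousAt y (p₀, z) := fun z hz =>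
    hy.continuousOn.continuousAt (hW.mem_nhds (e3 hz).1.1)
  obtain ⟨m, hm0, e4⟩ := (isCompact_sphere c δ).exists_forall_le'
    (f := fun z => ‖x (p₀, z) - x (p₀, c)‖) (a := 0)
    (fun z hz => (((hxc z (sphere_subset_closedBall hz)).comp (f := fun z => (p₀, z))
      (by fun_prop)).sub continuousAt_const).norm.continuousWithinAt)
    fun z hz => norm_pos_iff.mpr (sub_ne_zero.mpr
      ((e3 (sphere_subset_closedBall hz)).2 (ne_of_mem_sphere hz hδ.ne')).1)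
  obtain ⟨ρ₁, hρ₁, e5⟩ := rig_box (P := fun q => ‖x q - x (p₀, c)‖ < m / 2)
    ((((hxc c (mem_closedBall_self hδ.le)).sub continuousAt_const).norm).eventually_lt
      continuousAt_const (by simpa using hm0))
  have hδ₁ : 0 < min ρ₁ δ := lt_min hρ₁ hδ
  set w₁ : ℂ := c + ((min ρ₁ δ / 2 : ℝ) : ℂ) with hw₁
  have b1 : w₁ ∈ ball c (min ρ₁ δ) := by
    rw [mem_ball, hw₁, dist_self_add_left, Complex.norm_real, Real.norm_of_nonneg (by positivity)]
    linarith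
  have b2 : w₁ ≠ c := by
    rw [hw₁, Ne, add_eq_left, Complex.ofReal_eq_zero]
    positivity
  have b3 : w₁ ∈ closedBall c δ := ball_subset_closedBall (ball_subset_ball (min_le_right _ _) b1)
  obtain ⟨ρ, hρ, e6⟩ := rig_loc hW hx (e3 b3).1.1 ((e3 b3).2 b2).2
  have f1 := (isCompact_closedBall c δ).eventually_forall_of_forall_eventually (x₀ := p₀)
    (P := fun p z => (p, z) ∈ W) fun z hz => hW.mem_nhds (e3 hz).1.1
  have f2 := (isCompact_sphere c δ).eventually_forall_of_forall_eventually (x₀ := p₀)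
    (P := fun p z => m / 2 < ‖x (p, z) - x (p₀, c)‖) fun z hz =>
      continuousAt_const.eventually_lt
        (((hxc z (sphere_subset_closedBall hz)).sub continuousAt_const).norm)
        ((half_lt_self hm0).trans_le (e4 z hz))
  have f3 := ((isCompact_closedBall c δ).diff (isOpen_ball (x := w₁) (ε := ρ))
    ).eventually_forall_of_forall_eventually (x₀ := p₀)
    (P := fun p z => (x (p, z) - x (p, w₁), y (p, z) - y (p, w₁)) ≠ 0) fun z hz => by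
      have g1 : ContinuousAt (fun q : E × ℂ => x (q.1, w₁)) (p₀, z) :=
        ContinuousAt.comp (f := fun q : E × ℂ => (q.1, w₁)) (hxc w₁ b3) (by fun_prop)
      have g2 : ContinuousAt (fun q : E × ℂ => y (q.1, w₁)) (p₀, z) :=
        ContinuousAt.comp (f := fun q : E × ℂ => (q.1, w₁)) (hyc w₁ b3) (by fun_prop)
      refine (((hxc z hz.1).sub g1).prodMk ((hyc z hz.1).sub g2)).eventually_ne fun e => hz.2 ?_
      rw [Prod.mk_eq_zero] at e
      rw [inj (e3 hz.1).1.2 (e3 b3).1.2 (Prod.ext (sub_eq_zero.mp e.1) (sub_eq_zero.mp e.2))]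
      exact mem_ball_self hρ
  refine ⟨δ, min ρ₁ δ, m / 2, w₁, hδ₁, min_le_right _ _, b1, ?_⟩
  filter_upwards [f1, f2, f3, e5, e6] with p a1 a2 a3 a5 a6
  refine ⟨a1, a2, fun z hz => a5 z (ball_subset_ball (min_le_left _ _) hz), a6.1,
    fun z hz u v => ?_⟩
  by_cases hz' : z ∈ ball w₁ ρ
  · exact a6.2 z hz' u
  · exact absurd (by rw [u, v]; simp) (a3 z ⟨ball_subset_closedBall hz, hz'⟩)

theorem rig {E : Type} [NormedAddCommGroup E] [NormedSpace ℂ E] {W : Set (E × ℂ)} (hW : IsOpen W)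
    {x y : E × ℂ → ℂ} (hx : DifferentiableOn ℂ x W) (hy : DifferentiableOn ℂ y W) {p₀ : E} {c : ℂ}
    (hm : (p₀, c) ∈ W) (nc : ¬ ∀ᶠ w in 𝓝 c, x (p₀, w) = x (p₀, c))
    (inj : ∃ N ∈ 𝓝 c, InjOn (fun w => (x (p₀, w), y (p₀, w))) N) :
    ∀ᶠ q in 𝓝 (p₀, c), ∀ γ : ℂ → E, γ 0 = q.1 →
      (∀ᶠ s in 𝓝 (0 : ℂ), DifferentiableAt ℂ γ s ∧ ∀ w, (γ s, w) ∈ W →
        deriv (fun s => x (γ s, w)) s * deriv (fun w => y (γ s, w)) w =
          deriv (fun s => y (γ s, w)) s * deriv (fun w => x (γ s, w)) w) →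
      ∃ C : ℝ, ∀ᶠ w in 𝓝 q.2,
        ‖deriv (fun s => x (γ s, w)) 0‖ ≤ C * ‖deriv (fun w => x (q.1, w)) w‖ ∧
        ‖deriv (fun s => y (γ s, w)) 0‖ ≤ C * ‖deriv (fun w => y (q.1, w)) w‖ := by
  obtain ⟨δ, δ₁, m, w₁, hδ₁, hδ, hw₁, h⟩ := rig_unif hW hx hy hm nc inj
  filter_upwards [(eventually_eventually_nhds.mpr h).prod_nhds (ball_mem_nhds c hδ₁)]
    with q hq γ hγ hs
  obtain ⟨hq1, hq2⟩ := hq
  rw [← hγ] at hq1 ⊢
  obtain ⟨ε, hε, h1⟩ := nhds_basis_ball.eventually_iff.mp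
    (hs.and (hs.self_of_nhds.1.continuousAt.eventually hq1))
  have z0 : (0 : ℂ) ∈ ball (0 : ℂ) ε := mem_ball_self hε
  have hg : DifferentiableOn ℂ (fun q : ℂ × ℂ => (γ q.1, q.2)) (Prod.fst ⁻¹' ball 0 ε) :=
    fun q hq => ((DifferentiableAt.comp q (g := γ) (h1 hq).1.1 differentiableAt_fst).prodMk
      differentiableAt_snd).differentiableWithinAt
  let W' : Set (ℂ × ℂ) := Prod.fst ⁻¹' ball 0 ε ∩ (fun q => (γ q.1, q.2)) ⁻¹' W
  have hW' : IsOpen W' :=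
    hg.continuousOn.isOpen_inter_preimage (isOpen_ball.preimage continuous_fst) hW
  have d : ∀ {f : E × ℂ → ℂ}, DifferentiableOn ℂ f W →
      DifferentiableOn ℂ (fun q : ℂ × ℂ => f (γ q.1, q.2)) W' := fun hf =>
    hf.comp (hg.mono inter_subset_left) fun q hq => hq.2
  have hm' : ∀ s ∈ ball (0 : ℂ) ε, ∀ z ∈ closedBall c δ, (s, z) ∈ W' := fun s hs z hz =>
    ⟨hs, (h1 hs).2.1 z hz⟩
  have d1 : ∀ {f : E × ℂ → ℂ}, DifferentiableOn ℂ f W → ∀ s z, (s, z) ∈ W' →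
      fderiv ℂ (fun q : ℂ × ℂ => f (γ q.1, q.2)) (s, z) (1, 0) = deriv (fun s => f (γ s, z)) s :=
    fun hf s z hz => (rig_dfst ((d hf).differentiableAt (hW'.mem_nhds hz))).deriv.symm
  have d2 : ∀ {f : E × ℂ → ℂ}, DifferentiableOn ℂ f W → ∀ s z, (s, z) ∈ W' →
      fderiv ℂ (fun q : ℂ × ℂ => f (γ q.1, q.2)) (s, z) (0, 1) = deriv (fun z => f (γ s, z)) z :=
    fun hf s z hz => (rig_dsnd ((d hf).differentiableAt (hW'.mem_nhds hz))).deriv.symm
  have key := rig_main hW' (d hx) (d hy) hε (hδ₁.trans_le hδ) hδ (fun q hq => hm' _ hq.1 _ hq.2)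
    (fun s hs z hz w hw e => by
      have a1 := (h1 hs).2.2.1 z hz
      have a2 := (h1 z0).2.2.2.1 w hw
      rw [sub_eq_zero.mp e] at a1
      exact lt_asymm a1 a2)
    (fun s hs z hz => by
      have a1 := hm' s hs z (sphere_subset_closedBall hz)
      rw [d1 hx s z a1, d2 hy s z a1, d1 hy s z a1, d2 hx s z a1]
      exact (h1 hs).1.2 z a1.2)
    hw₁ (h1 z0).2.2.2.2.1 (h1 z0).2.2.2.2.2 hq2
  refine ⟨2 * δ / ε, ?_⟩
  filter_upwards [key, isOpen_ball.mem_nhds hq2] with w hw hb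
  have a1 := hm' 0 z0 w (ball_subset_closedBall (ball_subset_ball hδ hb))
  rwa [d1 hx 0 w a1, d2 hx 0 w a1, d1 hy 0 w a1, d2 hy 0 w a1] at hw

end Pool.Agent.MP_098ecc_co.H97
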