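import Pool.Agent.MP_098ecc_co.H97.LapB

set_option autoImplicit false

namespace Pool.Agent.MP_098ecc_co.H97

open Metric Filter Topology Set Function
open scoped BoundedContinuousFunction

noncomputable def s2u (R : ℝ) (w : ℂ) : BS :=
  holE 0 + ((1 - 2 / w) * R) • holE 1 + (1 / w ^ 2 * R ^ 2) • holE 2

noncomputable def s2Y (w : ℝ) : ℕ → ℝ
  | 0 => 1
  | 1 => 1 - 2 / w
  | 2 => 1 / w ^ 2
  | _ => 0

theorem s2E (n i : ℕ) : holE n i = if i = n then 1 else 0 := by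
  show Pi.single (M := fun _ => ℂ) n 1 i = _
  rw [Pi.single_apply]

theorem s2un {R : ℝ} (hR : 0 < R) (w : ℂ) : un R (s2u R w) = Yq w := by
  have hR' : (R : ℂ) ≠ 0 := by exact_mod_cast hR.ne'
  funext i
  have e : s2u R w i = holE 0 i + ((1 - 2 / w) * R) * holE 1 i + (1 / w ^ 2 * R ^ 2) * holE 2 i :=
    rfl
  rw [un, e, s2E, s2E, s2E]
  match i with
  | 0 => simp [Yq]
  | 1 => simp [Yq, hR']
  | 2 => simp [Yq, hR']
  | n + 3 => simp [Yq]

theorem s2du (R : ℝ) {w : ℂ} (hw : w ≠ 0) : DifferentiableAt ℂ (s2u R) w := by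
  have h2 : w ^ 2 ≠ 0 := pow_ne_zero _ hw
  have d1 : DifferentiableAt ℂ (fun w : ℂ => (1 - 2 / w) * (R : ℂ)) w := by fun_prop (disch := assumption)
  have d2 : DifferentiableAt ℂ (fun w : ℂ => 1 / w ^ 2 * (R : ℂ) ^ 2) w := by
    fun_prop (disch := assumption)
  exact ((differentiableAt_const _).add (d1.smul_const _)).add (d2.smul_const _)

theorem s2sum {𝕜 : Type} [NormedField 𝕜] (a : ℕ → 𝕜) (h : ∀ i, a (i + 3) = 0) :
    HasSum a (a 0 + a 1 + a 2) := by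
  have := hasSum_sum_of_ne_finset_zero (f := a) (s := Finset.range 3) (L := .unconditional ℕ)
    fun i hi => by
      obtain ⟨k, rfl⟩ : ∃ k, i = k + 3 := ⟨i - 3, by simp at hi; omega⟩
      exact h k
  simpa [Finset.sum_range_succ] using this

theorem s2ser (w z : ℂ) : ser (Yq w) z = 1 + (1 - 2 / w) * z + 1 / w ^ 2 * z ^ 2 := by
  rw [ser, (s2sum (fun i => Yq w i * z ^ i) fun i => by simp [Yq]).tsum_eq]
  simp [Yq]

theorem s2flat (w z : ℂ) : ser (flat 1 (Yq w)) z = -1 + 1 / w ^ 2 * z ^ 2 := by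
  rw [ser, (s2sum (fun i => flat 1 (Yq w) i * z ^ i) fun i => by simp [Yq, flat]).tsum_eq]
  simp [Yq, flat]
  norm_num

theorem s2cx (w : ℝ) : cx (s2Y w) = Yq w := by
  funext i
  match i with
  | 0 => simp [cx, Yq, s2Y]
  | 1 => simp [cx, Yq, s2Y]
  | 2 => simp [cx, Yq, s2Y]
  | n + 3 => simp [cx, Yq, s2Y]

theorem s2one {w : ℝ} (hw : 2 < w) : 0 < s2Y w 1 := by
  have : 2 / w < 1 := (div_lt_one (by linarith)).2 hw
  simp only [s2Y]
  linarith

theorem s2nn {w : ℝ} (hw : 2 < w) (i : ℕ) : 0 ≤ s2Y w i := by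
  match i with
  | 0 => simp [s2Y]
  | 1 => exact (s2one hw).le
  | 2 => simp only [s2Y]; positivity
  | n + 3 => simp [s2Y]

theorem s2crit {w : ℝ} (hw : 2 < w) : Crit 1 (s2Y w) w := by
  have w0 : 0 < w := by linarith
  refine ⟨w0, s2nn hw, (s2sum (fun i => s2Y w i * w ^ i) fun i => by simp [s2Y]).summable, ?_⟩
  have h := s2sum (fun i => flat 1 (s2Y w) i * w ^ i) fun i => by simp [s2Y, flat]
  have e : flat 1 (s2Y w) 0 * w ^ 0 + flat 1 (s2Y w) 1 * w ^ 1 + flat 1 (s2Y w) 2 * w ^ 2 = 0 := by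
    simp only [s2Y, flat]
    field_simp
    norm_num
  rwa [e] at h

theorem s2loc {L : Set ℕ} (hL : 0 ∉ L) (sp : Sparse L) {w : ℝ} (hw : 2 < w) :
    ∃ r > (0 : ℝ), r ≤ 1 ∧
      DifferentiableOn ℂ (fun v => sT 1 (ind ℂ L) (Yq v) 0) (ball (w : ℂ) r) := by
  have w0 : 0 < w := by linarith
  have w1 : (w : ℂ) ≠ 0 := by exact_mod_cast w0.ne'
  have R0 : 0 < w + 2 := by linarith
  obtain ⟨U, c, κ, hl, m, c0, -⟩ := lap (m := 1) one_pos (s2crit hw) (by simp [s2Y])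
    (fun g hg => Nat.dvd_one.1 (hg 1 (s2one hw))) (R := w + 2) (ρ := w + 1)
    (u₀ := s2u (w + 2) w) (by rw [s2un R0, s2cx]) (by linarith) (by linarith)
  obtain ⟨ε, ε0, hε⟩ := hl.loc
  obtain ⟨C, κ₂, hC⟩ := hl.est
  have cu : ContinuousAt (s2u (w + 2)) w := (s2du _ w1).continuousAt
  have e1 : ∀ᶠ v in 𝓝 (w : ℂ), s2u (w + 2) v ∈ U := cu (hl.op.mem_nhds m)
  have cc : ContinuousAt (fun v => c (s2u (w + 2) v)) w :=
    ContinuousAt.comp (hl.dc.continuousOn.continuousAt (hl.op.mem_nhds m)) cu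
  have e2 : ∀ᶠ v in 𝓝 (w : ℂ), ‖v - c (s2u (w + 2) v)‖ < ε :=
    (continuousAt_id.sub cc).norm.eventually_lt continuousAt_const (by simpa [c0] using ε0)
  obtain ⟨r, r0, hr⟩ := Metric.eventually_nhds_iff_ball.1 (e1.and (e2.and (eventually_ne_nhds w1)))
  refine ⟨min r 1, lt_min r0 one_pos, min_le_right _ _, DifferentiableOn.mono ?_
    (ball_subset_ball (min_le_left _ _))⟩
  refine (hol_tsum isOpen_ball (M := fun l => C * (ind ℝ L l * wal (l - 1))) (fun l => ?_)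
    (sp.mul_left C) fun l v hv => ?_).1
  · intro v hv
    have := ((hol_cf (w + 2) (1 * l - 1) (l - 0)).differentiableAt.comp v
      (s2du (w + 2) (hr v hv).2.2)).const_mul (ind ℂ L l)
    simp only [Function.comp_def, s2un R0] at this
    exact this.differentiableWithinAt
  · obtain ⟨a1, a2, a3⟩ := hr v hv
    by_cases h : l ∈ L
    · have l1 : 1 ≤ l := Nat.one_le_iff_ne_zero.2 fun h' => hL (h' ▸ h)
      have b1 : v = c (s2u (w + 2) v) := hε _ a1 v a2 (by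
        rw [s2un R0, s2flat]
        field_simp
        ring)
      have b2 := ((hC _ a1).2.2.2.2 l l1).1 0
      have b3 : Bv 1 (Yq v) v = 1 := by
        rw [Bv, s2ser]
        field_simp
        ring
      rw [← b1, s2un R0, b3] at b2
      simpa [ind, h] using b2
    · simp [ind, h]

theorem s2real (L : Set ℕ) {w : ℝ} (hw : 2 < w) :
    ∃ x : ℝ, 0 ≤ x ∧ sT 1 (ind ℂ L) (Yq w) 0 = x := by
  refine ⟨sT 1 (ind ℝ L) (s2Y w) 0, tsum_nonneg fun l => mul_nonneg ?_ (cf_nonneg (s2nn hw) _ _), ?_⟩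
  · unfold ind
    split_ifs <;> simp
  · rw [sT, sT, Complex.ofReal_tsum, ← s2cx]
    refine tsum_congr fun l => ?_
    rw [Complex.ofReal_mul, ← cf_ofReal]
    unfold ind
    split_ifs <;> simp

theorem s2 {L : Set ℕ} (hL : 0 ∉ L) (sp : Sparse L) {w₀ : ℝ} (hw : 2 < w₀) :
    ∀ᶠ w₁ in 𝓝 (w₀ : ℂ), ∀ t : ℂ, t ≠ 0 →
      ¬ ∀ᶠ w in 𝓝 w₁, 1 / w ^ 2 = t ^ 2 * (1 + sT 1 (ind ℂ L) (Yq w) 0) := by
  choose r r0 r1 hr using fun w : Ioi (2 : ℝ) => s2loc hL sp w.2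
  set V : Set ℂ := ⋃ w : Ioi (2 : ℝ), ball ((w : ℝ) : ℂ) (r w) with hV
  have Vo : IsOpen V := isOpen_iUnion fun _ => isOpen_ball
  have mV : ∀ w : ℝ, 2 < w → (w : ℂ) ∈ V := fun w h =>
    mem_iUnion.2 ⟨⟨w, h⟩, mem_ball_self (r0 _)⟩
  have Sc : IsPreconnected (Complex.ofReal '' Ioi 2) :=
    isPreconnected_Ioi.image _ Complex.continuous_ofReal.continuousOn
  have Vc : IsPreconnected V := by
    have e : V = ⋃ w : Ioi (2 : ℝ), (Complex.ofReal '' Ioi 2 ∪ ball ((w : ℝ) : ℂ) (r w)) := by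
      apply Subset.antisymm (iUnion_mono fun w => subset_union_right)
      refine iUnion_subset fun w => union_subset ?_ (subset_iUnion_of_subset w Subset.rfl)
      rintro _ ⟨x, hx, rfl⟩
      exact mV x hx
    rw [e]
    refine isPreconnected_iUnion ⟨w₀, mem_iInter.2 fun w => Or.inl ⟨w₀, hw, rfl⟩⟩ fun w => ?_
    exact Sc.union _ ⟨w, w.2, rfl⟩ (mem_ball_self (r0 w)) (convex_ball _ _).isPreconnected
  have nz : ∀ v ∈ V, v ≠ 0 := by
    intro v hv h
    obtain ⟨w, hw⟩ := mem_iUnion.1 hv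
    have h2 : (2 : ℝ) < w := w.2
    rw [h, mem_ball, dist_comm, dist_zero_right, Complex.norm_real, Real.norm_eq_abs,
      abs_of_pos (by linarith)] at hw
    linarith [r1 w]
  have dF : DifferentiableOn ℂ (fun v => sT 1 (ind ℂ L) (Yq v) 0) V := by
    intro v hv
    obtain ⟨w, hw⟩ := mem_iUnion.1 hv
    exact ((hr w).differentiableAt (isOpen_ball.mem_nhds hw)).differentiableWithinAt
  filter_upwards [Vo.mem_nhds (mV w₀ hw)] with w₁ h₁ t ht he
  have d1 : DifferentiableOn ℂ (fun v : ℂ => 1 / v ^ 2) V :=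
    (differentiableOn_const _).div (differentiableOn_id.pow 2) fun v hv => pow_ne_zero _ (nz v hv)
  have key := hol_ident Vo Vc (f := fun v => 1 / v ^ 2 - t ^ 2 * (1 + sT 1 (ind ℂ L) (Yq v) 0))
    (d1.sub ((dF.const_add 1).const_mul _)) h₁ (he.mono fun v hv => sub_eq_zero.2 hv)
  have t0 : 0 < ‖t‖ := norm_pos_iff.2 ht
  have t1 : 0 < 1 / ‖t‖ := by positivity
  set w : ℝ := 3 + 1 / ‖t‖ with hw'
  have w2 : 2 < w := by linarith
  obtain ⟨x, x0, hx⟩ := s2real L w2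
  have k1 := congrArg norm (sub_eq_zero.1 (key w (mV w w2)))
  rw [hx, norm_mul, norm_div, norm_pow, norm_pow, norm_one, Complex.norm_real, Real.norm_eq_abs,
    abs_of_pos (by linarith), ← Complex.ofReal_one, ← Complex.ofReal_add, Complex.norm_real,
    Real.norm_eq_abs, abs_of_pos (by linarith), div_eq_iff (by positivity)] at k1
  have k2 : 1 < w * ‖t‖ := by
    rw [hw', add_mul, one_div_mul_cancel t0.ne']
    linarith
  have k3 : 1 < (w * ‖t‖) ^ 2 := by nlinarith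
  nlinarith [mul_nonneg x0 (sq_nonneg (w * ‖t‖))]

end Pool.Agent.MP_098ecc_co.H97
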