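import Pool.Agent.MP_098ecc_co.H97.ChartM
import Pool.Agent.MP_098ecc_co.H97.Rig
import Pool.Agent.MP_098ecc_co.H97.Eta
import Pool.Agent.MP_098ecc_co.H97.S2

set_option autoImplicit false

namespace Pool.Agent.MP_098ecc_co.H97

open Metric Filter Topology Set Function
open scoped BoundedContinuousFunction

theorem isoA_un_inj {R : ℝ} (hR : 0 < R) {u v : BS} (h : un R u = un R v) : u = v := by
  have hR' : (R : ℂ)⁻¹ ≠ 0 := inv_ne_zero (by exact_mod_cast hR.ne')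
  ext i
  exact mul_right_cancel₀ (pow_ne_zero i hR') (congrFun h i)

theorem isoA_un_zero {R : ℝ} (hR : 0 < R) {u : BS} (h : un R u = 0) : u = 0 :=
  isoA_un_inj hR (h.trans (funext fun i => by simp [un]))

theorem isoA_un0 (R : ℝ) (u : BS) : un R u 0 = u 0 := by simp [un]

theorem isoA_ser0 (f : ℕ → ℂ) : ser f 0 = f 0 := by
  rw [ser, tsum_eq_single 0 fun i hi => by simp [hi]]
  simp

/-- evaluation of the series is a continuous linear form -/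
theorem isoA_serD {R : ℝ} (hR : 0 < R) {ζ : ℂ} (hζ : ‖ζ‖ < R) {u : ℂ → BS} {du : BS} {s : ℂ}
    (h : HasDerivAt u du s) :
    HasDerivAt (fun s => ser (un R (u s)) ζ) (ser (un R du) ζ) s := by
  have hc : Continuous fun u : BS => ser (un R u) ζ := by
    rw [← continuousOn_univ]
    exact (hol_ser R hR).continuousOn.comp (f := fun u : BS => (u, ζ)) (by fun_prop)
      fun u _ => ⟨trivial, mem_ball_zero_iff.2 hζ⟩
  let L : BS →L[ℂ] ℂ :=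
    { toFun := fun u => ser (un R u) ζ
      map_add' := fun u v => by
        rw [ser, ser, ser, ← ((bnd_un R hR u).summable hζ).of_norm.tsum_add
          ((bnd_un R hR v).summable hζ).of_norm]
        exact tsum_congr fun i => by simp [un, add_mul]
      map_smul' := fun c u => by
        rw [ser, ser, RingHom.id_apply, smul_eq_mul, ← tsum_mul_left]
        exact tsum_congr fun i => by simp [un, mul_assoc]
      cont := hc }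
  exact L.hasFDerivAt.comp_hasDerivAt s h

theorem isoA_an {R : ℝ} {f : ℕ → ℂ} (hf : Bnd R f) {ζ : ℂ} (hζ : ‖ζ‖ < R) :
    AnalyticAt ℂ (ser f) ζ :=
  hf.diff.analyticAt (isOpen_ball.mem_nhds (mem_ball_zero_iff.2 hζ))

theorem isoA_an_flat (m : ℕ) {R : ℝ} {f : ℕ → ℂ} (hf : Bnd R f) {ζ : ℂ} (hζ : ‖ζ‖ < R) :
    AnalyticAt ℂ (ser (flat m f)) ζ := by
  obtain ⟨r, h1, h2⟩ := exists_between hζ
  exact isoA_an (hf.flat m ((norm_nonneg _).trans_lt h1) h2) h1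

theorem isoA_dy {m : ℕ} (hm : 0 < m) {R : ℝ} {f : ℕ → ℂ} (hf : Bnd R f) {w : ℂ} (hw : w ≠ 0)
    (h : ‖w ^ m‖ < R) : HasDerivAt (yw m f) (ser (flat m f) (w ^ m) / w ^ 2) w := by
  have h1 : HasDerivAt (yw m f) ((deriv (ser f) (w ^ m) * (m * w ^ (m - 1)) * w -
      ser f (w ^ m) * 1) / w ^ 2) w :=
    ((isoA_an hf h).differentiableAt.hasDerivAt.comp w (hasDerivAt_pow m w)).div
      (hasDerivAt_id w) hw
  refine h1.congr_deriv ?_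
  rw [hf.ser_flat _ h]
  obtain ⟨k, rfl⟩ := Nat.exists_eq_add_one_of_ne_zero hm.ne'
  rw [Nat.add_sub_cancel]
  ring

theorem isoA_dx {m : ℕ} (hm : 0 < m) {R : ℝ} {f : ℕ → ℂ} (hf : Bnd R f) {w : ℂ} (hw : w ≠ 0)
    (h : ‖(w ^ m)⁻¹‖ < R) : HasDerivAt (xw m f) (-ser (flat m f) (w ^ m)⁻¹) w := by
  have h1 : HasDerivAt (xw m f) (1 * ser f (w ^ m)⁻¹ + w * (deriv (ser f) (w ^ m)⁻¹ *
      (-(m * w ^ (m - 1)) / (w ^ m) ^ 2))) w := by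
    have h2 : HasDerivAt (fun w : ℂ => (w ^ m)⁻¹) _ w := (hasDerivAt_pow m w).inv (pow_ne_zero m hw)
    have h3 := (isoA_an hf h).differentiableAt.hasDerivAt.comp w h2
    exact (hasDerivAt_id w).mul h3
  refine h1.congr_deriv ?_
  rw [hf.ser_flat _ h]
  obtain ⟨k, rfl⟩ := Nat.exists_eq_add_one_of_ne_zero hm.ne'
  rw [Nat.add_sub_cancel]
  field_simp
  ring

theorem isoA_fst {E F : Type} [NormedAddCommGroup E] [NormedSpace ℂ E] [NormedAddCommGroup F]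
    [NormedSpace ℂ F] {f : ℂ → E × F} {d : E × F} {s : ℂ} (h : HasDerivAt f d s) :
    HasDerivAt (fun s => (f s).1) d.1 s :=
  (ContinuousLinearMap.fst ℂ E F).hasFDerivAt.comp_hasDerivAt s h

theorem isoA_snd {E F : Type} [NormedAddCommGroup E] [NormedSpace ℂ E] [NormedAddCommGroup F]
    [NormedSpace ℂ F] {f : ℂ → E × F} {d : E × F} {s : ℂ} (h : HasDerivAt f d s) :
    HasDerivAt (fun s => (f s).2) d.2 s :=
  (ContinuousLinearMap.snd ℂ E F).hasFDerivAt.comp_hasDerivAt s h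

theorem isoA_cpt {X Y : Type} [TopologicalSpace X] [TopologicalSpace Y] {K : Set Y}
    (hK : IsCompact K) {x₀ : X} {R : X × Y → Prop} (h : ∀ y ∈ K, ∀ᶠ z in 𝓝 (x₀, y), R z) :
    ∀ᶠ x in 𝓝 x₀, ∀ y ∈ K, R (x, y) :=
  hK.eventually_forall_of_forall_eventually (P := fun x y => R (x, y)) h

theorem isoA_map {m : ℕ} (hm : 0 < m) {c : ℂ} (hc : c ≠ 0) :
    map (fun w : ℂ => (w ^ m)⁻¹) (𝓝 c) = 𝓝 (c ^ m)⁻¹ :=
  ((hasStrictDerivAt_inv (pow_ne_zero m hc)).comp c (hasStrictDerivAt_pow m c)).map_nhds_eq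
    (mul_ne_zero (neg_ne_zero.2 (inv_ne_zero (pow_ne_zero _ (pow_ne_zero _ hc))))
      (mul_ne_zero (Nat.cast_ne_zero.2 hm.ne') (pow_ne_zero _ hc)))

theorem isoA_ann {a b : ℝ} (ha : 0 < a) {w : ℂ} (h : w ∈ Ann a⁻¹ b) : w⁻¹ ∈ Ann b⁻¹ a := by
  have h0 : 0 < ‖w‖ := (inv_pos.2 ha).trans h.1
  refine ⟨?_, ?_⟩ <;> rw [norm_inv]
  · exact inv_strictAnti₀ h0 h.2
  · exact inv_lt_of_inv_lt₀ ha h.1

theorem isoA_Om (m : ℕ) (f df g dg : ℕ → ℂ) (w : ℂ) : Om m f df g dg w⁻¹ = Om m g dg f df w := by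
  rw [Om, Om, inv_inv]
  ring

/-- the quotient is bounded inside the zero free disc -/
theorem isoA_inner {m : ℕ} (hm : 0 < m) {a b : ℝ} (ha : 0 < a) {f g : ℕ → ℝ} {z z' ρ : ℝ}
    (cf : Crit m f z) (f0 : 0 < f 0) (cg : Crit m g z') (g0 : 0 < g 0) (zz : z' * z < 1)
    (hz : ZF m f z ρ) (hρ : ρ < b) {v₀ u₀ : BS} (hv : un b v₀ = cx f) (hu : un a u₀ = cx g)
    (Q : Prop) (h : Q ∨ a⁻¹ < z) :
    ∀ᶠ P : BS × BS in 𝓝 (v₀, u₀), ∀ dv du : BS,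
      (∀ w ∈ Ann a⁻¹ b, Om m (un b P.1) (un b dv) (un a P.2) (un a du) w = 0) →
      (Q → ∃ c : ℂ, ‖c‖ ≤ ρ ∧ ser (flat m (un b P.1)) c = 0 ∧ ser (un b dv) c = 0) →
      ∀ ζ : ℂ, ‖ζ‖ ≤ ρ → ∃ C : ℝ, ∀ᶠ w in 𝓝 ζ,
        ‖ser (un b dv) w‖ ≤ C * ‖ser (flat m (un b P.1)) w‖ := by
  have hz0 := cf.pos
  have hb : 0 < b := (hz0.trans hz.1).trans hρ
  have t1 : Tendsto (Prod.fst : BS × BS → BS) (𝓝 (v₀, u₀)) (𝓝 v₀) := continuousAt_fst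
  have t2 : Tendsto (Prod.snd : BS × BS → BS) (𝓝 (v₀, u₀)) (𝓝 u₀) := continuousAt_snd
  rcases h with h | h
  · filter_upwards [t1.eventually (zero1b hm cf f0 hz hρ hv one_pos)] with P hP dv du _ hQ ζ hζ
    refine ratio_bd (isoA_an_flat m (bnd_un b hb _) (hζ.trans_lt hρ))
      (isoA_an (bnd_un b hb _) (hζ.trans_lt hρ)) fun h0 => ?_
    obtain ⟨c, c1, c2, c3⟩ := hQ h
    obtain ⟨-, p2, p3⟩ := hP ζ hζ h0
    exact ⟨p2, p3 c c1 c2 ▸ c3⟩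
  · have hzi : ‖((z⁻¹ : ℝ) : ℂ)‖ < a := by
      rw [Complex.norm_real, Real.norm_of_nonneg (inv_pos.2 hz0).le]
      exact inv_lt_of_inv_lt₀ ha h
    have hpos : 0 < ser (flat m g) z⁻¹ := by
      refine cg.flat_pos hm g0 (by rwa [← one_div, lt_div_iff₀ hz0]) ?_
      obtain ⟨r, r1, r2⟩ := exists_between hzi
      have h1 := ((hu ▸ bnd_un a ha u₀).flat m ((norm_nonneg _).trans_lt r1) r2).summable r1
      refine Summable.of_norm (h1.congr fun i => ?_)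
      rw [← Complex.norm_real]
      congr 1
      simp [flat]
    have hne : ser (flat m (un a u₀)) (z : ℂ)⁻¹ ≠ 0 := by
      have e : flat m (cx g) = fun i => ((flat m g i : ℝ) : ℂ) := funext fun i => by simp [flat]
      rw [hu, e, ← Complex.ofReal_inv, ser_ofReal]
      exact Complex.ofReal_ne_zero.2 hpos.ne'
    have hz' : (z : ℂ) ≠ 0 := Complex.ofReal_ne_zero.2 hz0.ne'
    have hcont : ContinuousAt (fun q : BS × ℂ => ser (flat m (un a q.1)) q.2⁻¹) (u₀, z) := by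
      refine ContinuousAt.comp (f := fun q : BS × ℂ => (q.1, q.2⁻¹))
        ((hol_ser_flat m a ha).continuousOn.continuousAt ((isOpen_univ.prod isOpen_ball).mem_nhds
          ⟨trivial, mem_ball_zero_iff.2 (by rwa [Complex.ofReal_inv] at hzi)⟩)) ?_
      exact continuousAt_fst.prodMk (continuousAt_snd.inv₀ hz')
    have hn : ∀ᶠ q : BS × ℂ in 𝓝 (u₀, (z : ℂ)), a⁻¹ < ‖q.2‖ :=
      continuousAt_const.eventually_lt continuousAt_snd.norm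
        (by rwa [Complex.norm_real, Real.norm_of_nonneg hz0.le])
    have hn' := (hcont.eventually_ne hne).and hn
    rw [nhds_prod_eq] at hn'
    obtain ⟨pa, hpa, pb, hpb, hab⟩ := eventually_prod_iff.1 hn'
    obtain ⟨ε, hε, hεb⟩ := Metric.eventually_nhds_iff.1 hpb
    filter_upwards [t1.eventually (zero1b hm cf f0 hz hρ hv hε), t2.eventually hpa]
      with P hP hP2 dv du hO _ ζ hζ
    refine ratio_bd (isoA_an_flat m (bnd_un b hb _) (hζ.trans_lt hρ))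
      (isoA_an (bnd_un b hb _) (hζ.trans_lt hρ)) fun h0 => ?_
    obtain ⟨p1, p2, -⟩ := hP ζ hζ h0
    obtain ⟨q1, q2⟩ := hab hP2 (hεb (by rwa [dist_eq_norm]))
    have h3 := hO ζ ⟨q2, hζ.trans_lt hρ⟩
    rw [Om, h0, mul_zero, zero_add] at h3
    exact ⟨p2, (mul_eq_zero.1 h3).resolve_left q1⟩

/-- the quotient is bounded in the middle annulus -/
theorem isoA_mid {m : ℕ} (hm : 0 < m) {a b r₁ r₂ : ℝ} (ha : 0 < a) (hb : 0 < b) (h₁ : b⁻¹ < r₁)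
    (h₂ : a⁻¹ < r₂) {u₀ v₀ : BS} (h0 : u₀ 0 ≠ 0)
    (inj : ∀ c : ℂ, r₂ ≤ ‖c‖ ^ m → ‖c‖ ^ m ≤ r₁⁻¹ →
      ∃ N ∈ 𝓝 c, InjOn (fun w => (xw m (un a u₀) w, yw m (un b v₀) w)) N) :
    ∀ᶠ P : BS × BS in 𝓝 (u₀, v₀), ∀ γ dγ : ℂ → BS × BS, γ 0 = P →
      (∀ᶠ s in 𝓝 (0 : ℂ), HasDerivAt γ (dγ s) s ∧ ∀ w ∈ Ann a⁻¹ b,
        Om m (un b (γ s).2) (un b (dγ s).2) (un a (γ s).1) (un a (dγ s).1) w = 0) →
      ∀ ζ : ℂ, r₁ ≤ ‖ζ‖ → ‖ζ‖ ≤ r₂⁻¹ → ∃ C : ℝ, ∀ᶠ w in 𝓝 ζ,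
        ‖ser (un a (dγ 0).1) w‖ ≤ C * ‖ser (flat m (un a P.1)) w‖ := by
  have hr₁ : 0 < r₁ := (inv_pos.2 hb).trans h₁
  have hr₂ : 0 < r₂ := (inv_pos.2 ha).trans h₂
  let A : Set ℂ := {w | w ^ m ∈ Ann a⁻¹ b}
  have hA : IsOpen A := (laur_ann_open _ _).preimage (continuous_pow m)
  have hne : ∀ w ∈ A, w ≠ 0 := fun w hw e =>
    laur_ann_ne (inv_pos.2 ha).le hw (by rw [e, zero_pow hm.ne'])
  have hi : ∀ w ∈ A, ‖(w ^ m)⁻¹‖ < a := fun w hw => (isoA_ann ha hw).2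
  let x : (BS × BS) × ℂ → ℂ := fun q => xw m (un a q.1.1) q.2
  let y : (BS × BS) × ℂ → ℂ := fun q => yw m (un b q.1.2) q.2
  have hW : IsOpen ((univ : Set (BS × BS)) ×ˢ A) := isOpen_univ.prod hA
  have hx : DifferentiableOn ℂ x (univ ×ˢ A) :=
    differentiableOn_snd.mul ((hol_ser a ha).comp (f := fun q : (BS × BS) × ℂ => (q.1.1, (q.2 ^ m)⁻¹))
      (differentiableOn_fst.fst.prodMk ((differentiableOn_snd.pow m).inv
        fun q hq => pow_ne_zero m (hne _ hq.2)))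
      fun q hq => ⟨trivial, mem_ball_zero_iff.2 (hi _ hq.2)⟩)
  have hy : DifferentiableOn ℂ y (univ ×ˢ A) := by
    have h1 : DifferentiableOn ℂ (fun q : (BS × BS) × ℂ => ser (un b q.1.2) (q.2 ^ m))
        (univ ×ˢ A) := (hol_ser b hb).comp (f := fun q : (BS × BS) × ℂ => (q.1.2, q.2 ^ m))
      (differentiableOn_fst.snd.prodMk (differentiableOn_snd.pow m))
      fun q hq => ⟨trivial, mem_ball_zero_iff.2 hq.2.2⟩
    exact h1.mul (differentiableOn_snd.inv fun q hq => hne _ hq.2)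
  let K : Set ℂ := closedBall 0 (max 1 r₁⁻¹) ∩ (fun c => ‖c‖ ^ m) ⁻¹' Icc r₂ r₁⁻¹
  have hK : IsCompact K := (isCompact_closedBall _ _).inter_right
    (isClosed_Icc.preimage (by fun_prop))
  have hKA : ∀ c ∈ K, c ∈ A := fun c hc =>
    ⟨by rw [norm_pow]; exact h₂.trans_le hc.2.1,
      by rw [norm_pow]; exact hc.2.2.trans_lt (inv_lt_of_inv_lt₀ hb h₁)⟩
  have dx : ∀ p : BS × BS, ∀ w ∈ A, deriv (fun w => x (p, w)) w =
      -ser (flat m (un a p.1)) (w ^ m)⁻¹ := fun p w hw =>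
    (isoA_dx hm (bnd_un a ha p.1) (hne w hw) (hi w hw)).deriv
  have dy : ∀ p : BS × BS, ∀ w ∈ A, deriv (fun w => y (p, w)) w =
      ser (flat m (un b p.2)) (w ^ m) / w ^ 2 := fun p w hw =>
    (isoA_dy hm (bnd_un b hb p.2) (hne w hw) hw.2).deriv
  have sx : ∀ {γ : ℂ → BS × BS} {d s}, HasDerivAt γ d s → ∀ w ∈ A,
      deriv (fun s => x (γ s, w)) s = w * ser (un a d.1) (w ^ m)⁻¹ := fun h w hw =>
    ((isoA_serD ha (hi w hw) (isoA_fst h)).const_mul w).deriv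
  have sy : ∀ {γ : ℂ → BS × BS} {d s}, HasDerivAt γ d s → ∀ w ∈ A,
      deriv (fun s => y (γ s, w)) s = ser (un b d.2) (w ^ m) / w := fun h w hw =>
    ((isoA_serD hb hw.2 (isoA_snd h)).div_const w).deriv
  have key := isoA_cpt hK (x₀ := (u₀, v₀)) fun c hc =>
    rig hW hx hy (p₀ := (u₀, v₀)) (c := c) ⟨trivial, hKA c hc⟩ (fun h => by
      have h1 : ∀ᶠ w in 𝓝 c, ser (flat m (un a u₀)) (w ^ m)⁻¹ = 0 := by
        filter_upwards [eventually_eventually_nhds.2 h, hA.mem_nhds (hKA c hc)] with w h2 h3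
        have h4 := dx (u₀, v₀) w h3
        rw [(EventuallyEq.deriv_eq h2).trans (deriv_const _ _)] at h4
        exact neg_eq_zero.1 h4.symm
      have h2 : ∀ᶠ z in 𝓝 (c ^ m)⁻¹, ser (flat m (un a u₀)) z = 0 := by
        rw [← isoA_map hm (hne c (hKA c hc))]
        exact h1
      have h3 := hol_ident isOpen_ball (convex_ball (0 : ℂ) a).isPreconnected
        (f := ser (flat m (un a u₀))) (fun z hz => (isoA_an_flat m (bnd_un a ha u₀)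
          (mem_ball_zero_iff.1 hz)).differentiableAt.differentiableWithinAt)
        (mem_ball_zero_iff.2 (hi c (hKA c hc))) h2 0 (mem_ball_self ha)
      rw [isoA_ser0, flat, isoA_un0] at h3
      exact h0 (by simpa using h3)) (inj c hc.2.1 hc.2.2)
  filter_upwards [key] with P hP γ dγ e hγ ζ z1 z2
  have hζ : 0 < ‖ζ‖ := hr₁.trans_le z1
  obtain ⟨c, hc⟩ := IsAlgClosed.exists_pow_nat_eq ζ⁻¹ hm
  have e1 : ‖c‖ ^ m = ‖ζ‖⁻¹ := by rw [← norm_pow, hc, norm_inv]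
  have e2 : ‖c‖ ^ m ≤ r₁⁻¹ := by rw [e1]; exact inv_anti₀ hr₁ z1
  have hcK : c ∈ K := by
    refine ⟨mem_closedBall_zero_iff.2 ?_, ((le_inv_comm₀ hζ hr₂).1 z2).trans e1.ge, e2⟩
    rcases le_total ‖c‖ 1 with h | h
    · exact h.trans (le_max_left _ _)
    · exact ((le_self_pow₀ h hm.ne').trans e2).trans (le_max_right _ _)
  have hc0 := hne c (hKA c hcK)
  obtain ⟨C, hC⟩ := hP c hcK γ e (hγ.mono fun s hs => ⟨hs.1.differentiableAt, fun w hw => by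
    have h0 := hne w hw.2
    have h1 := hs.2 (w ^ m) hw.2
    rw [Om] at h1
    rw [sx hs.1 w hw.2, sy hs.1 w hw.2, dx _ w hw.2, dy _ w hw.2]
    generalize (w ^ m)⁻¹ = v at h1 ⊢
    field_simp
    linear_combination h1⟩)
  refine ⟨(‖c‖⁻¹ + 1) * C, ?_⟩
  rw [← inv_inv ζ, ← hc, ← isoA_map hm hc0, eventually_map]
  have hn : ∀ᶠ w in 𝓝 c, ‖w‖⁻¹ ≤ ‖c‖⁻¹ + 1 :=
    (continuousAt_id.norm.inv₀ (norm_ne_zero_iff.2 hc0)).eventually (ge_mem_nhds (lt_add_one _))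
  filter_upwards [hC, hn, hA.mem_nhds (hKA c hcK)] with w h1 h2 h3
  have h4 := h1.1
  have h5 : 0 < ‖w‖ := norm_pos_iff.2 (hne w h3)
  rw [sx hγ.self_of_nhds.1 w h3, dx _ w h3, norm_mul, norm_neg, ← le_inv_mul_iff₀ h5] at h4
  have h6 : 0 ≤ C * ‖ser (flat m (un a P.1)) (w ^ m)⁻¹‖ :=
    nonneg_of_mul_nonneg_right ((norm_nonneg _).trans h4) (inv_pos.2 h5)
  rw [mul_assoc]
  exact h4.trans (mul_le_mul_of_nonneg_right h2 h6)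

variable {κ W₁ W₂ : Type} [Fintype κ] [DecidableEq κ] [NormedAddCommGroup W₁] [NormedSpace ℂ W₁]
  [FiniteDimensional ℂ W₁] [NormedAddCommGroup W₂] [NormedSpace ℂ W₂] [FiniteDimensional ℂ W₂]
  {S₁ : Side κ W₁} {S₂ : Side κ W₂}

theorem isoA_one (κ : Type) [Fintype κ] : (1 : κ → ℂ) ∈ closedBall (0 : κ → ℂ) 1 :=
  mem_closedBall_zero_iff.2 ((pi_norm_le_iff_of_nonneg zero_le_one).2 fun _ => by simp)

theorem isoA {D : Dat} {q : Amb} (hw : Wall D q) (hc : Compat D.m S₁ S₂) {e₀ : Ful W₁ W₂}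
    (hX : un S₁.Rin e₀.2.2.1 = q.cX) (hY : un S₂.Rin e₀.2.2.2 = q.cY)
    (inj : ∀ c : ℂ, q.z₂ < ‖c‖ ^ D.m → ‖c‖ ^ D.m * q.z₁ < 1 →
      ∃ N ∈ 𝓝 c, InjOn (fun w => (xw D.m q.cX w, yw D.m q.cY w)) N)
    {ρ₁ ρ₂ : ℝ} (z₁ : ZF D.m q.X q.z₁ ρ₁) (z₂ : ZF D.m q.Y q.z₂ ρ₂) (a₁ : ρ₁ < S₁.Rin)
    (a₂ : ρ₂ < S₂.Rin) (b₁ : S₂.Rin⁻¹ < ρ₁) (b₂ : S₁.Rin⁻¹ < ρ₂)
    (h₁ : (∃ i, HardS D.m S₁ i) ∨ S₂.Rin⁻¹ < q.z₁) (h₂ : (∃ i, HardS D.m S₂ i) ∨ S₁.Rin⁻¹ < q.z₂) :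
    IsoHyp S₁ S₂ q.t e₀ := by
  have ha : 0 < S₁.Rin := hc.s₁.rad.1
  have hb : 0 < S₂.Rin := hc.s₂.rad.1
  have y0 : 0 < q.Y 0 := by rw [hw.y0]; exact one_pos
  have hρ₁ : 0 < ρ₁ := hw.c₁.pos.trans z₁.1
  have x0 : e₀.2.2.1 0 ≠ 0 := by
    rw [← isoA_un0 S₁.Rin, hX]
    exact Complex.ofReal_ne_zero.2 (hw.px 0).ne'
  have i₂ := isoA_inner D.hm ha hw.c₂ y0 hw.c₁ (hw.px 0) hw.snd z₂ a₂ hY hX _ h₂
  have i₁ := isoA_inner D.hm hb hw.c₁ (hw.px 0) hw.c₂ y0 (by rw [mul_comm]; exact hw.snd) z₁ a₁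
    hX hY _ h₁
  have i₃ := isoA_mid D.hm ha hb b₁ b₂ (v₀ := e₀.2.2.2) x0 fun c c1 c2 => by
    rw [hX, hY]
    refine inj c (z₂.1.trans_le c1) ?_
    calc _ ≤ ρ₁⁻¹ * q.z₁ := mul_le_mul_of_nonneg_right c2 hw.c₁.pos.le
      _ < 1 := by rw [inv_mul_lt_one₀ hρ₁]; exact z₁.1
  have t1 : Tendsto (fun P : ℂ × Ful W₁ W₂ => P.2.2.2) (𝓝 ((q.t : ℂ), e₀))
      (𝓝 (e₀.2.2.1, e₀.2.2.2)) := (by fun_prop : Continuous fun P : ℂ × Ful W₁ W₂ => P.2.2.2).tendsto _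
  have t2 : Tendsto (fun P : ℂ × Ful W₁ W₂ => (P.2.2.2.2, P.2.2.2.1)) (𝓝 ((q.t : ℂ), e₀))
      (𝓝 (e₀.2.2.2, e₀.2.2.1)) :=
    (by fun_prop : Continuous fun P : ℂ × Ful W₁ W₂ => (P.2.2.2.2, P.2.2.2.1)).tendsto _
  have t3 : ∀ᶠ P : ℂ × Ful W₁ W₂ in 𝓝 ((q.t : ℂ), e₀), P.2.2.2.1 0 ≠ 0 :=
    ContinuousAt.eventually_ne (g := fun P : ℂ × Ful W₁ W₂ => P.2.2.2.1 0)
      (((laur_eval 0).continuous.comp (by fun_prop)).continuousAt) x0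
  filter_upwards [t1.eventually i₁, t2.eventually i₂, t1.eventually i₃, t3]
    with P j₁ j₂ j₃ j₄ ε e hε
  obtain ⟨-, fs, -, -, ts⟩ := hε.self_of_nhds
  rw [e] at fs ts
  have hO := om_zero hc (isoA_one κ) fs ts
  have c₂ : (∃ i, HardS D.m S₂ i) → ∃ c : ℂ, ‖c‖ ≤ ρ₂ ∧
      ser (flat D.m (un S₂.Rin P.2.2.2.2)) c = 0 ∧ ser (un S₂.Rin (deriv ε 0).2.2.2) c = 0 := by
    rintro ⟨i, hi⟩
    have h1 := hc.s₂.cin _ fs.m₂
    rw [← hc.r₁] at h1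
    have h2 := hc.s₂.cz i (by rw [hi.hI]; exact Finset.mem_singleton_self i) 1 (isoA_one κ) _
      fs.m₂ _ fs.a₂ ts.a₂
    exact ⟨_, (h1.trans b₂).le, (hi.crit _ fs.m₂).2, h2⟩
  have c₁ : (∃ i, HardS D.m S₁ i) → ∃ c : ℂ, ‖c‖ ≤ ρ₁ ∧
      ser (flat D.m (un S₁.Rin P.2.2.2.1)) c = 0 ∧ ser (un S₁.Rin (deriv ε 0).2.2.1) c = 0 := by
    rintro ⟨i, hi⟩
    have h1 := hc.s₁.cin _ fs.m₁
    rw [hc.r₂] at h1
    have h2 := hc.s₁.cz i (by rw [hi.hI]; exact Finset.mem_singleton_self i) 1 (isoA_one κ) _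
      fs.m₁ _ fs.a₁ ts.a₁
    exact ⟨_, (h1.trans b₁).le, (hi.crit _ fs.m₁).2, h2⟩
  have hg : ∀ ζ : ℂ, ‖ζ‖ ≤ ρ₂⁻¹ → ∃ C : ℝ, ∀ᶠ z in 𝓝 ζ, ‖ser (un S₁.Rin (deriv ε 0).2.2.1) z‖ ≤
      C * ‖ser (flat D.m (un S₁.Rin P.2.2.2.1)) z‖ := fun ζ hζ => by
    rcases le_total ‖ζ‖ ρ₁ with h | h
    · refine j₁ _ (deriv ε 0).2.2.2 (fun w hw => ?_) c₁ ζ h
      rw [← isoA_Om]
      exact hO _ (isoA_ann hb hw)
    · refine j₃ (fun s => (ε s).2.2) (fun s => (deriv ε s).2.2) (congrArg (·.2.2) e)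
        (hε.mono fun s hs => ?_) ζ h hζ
      have h1 := om_zero hc (isoA_one κ) hs.2.1 hs.2.2.2.2
      have h2 := isoA_snd (isoA_snd hs.1.hasDerivAt)
      exact ⟨h2, h1⟩
  obtain ⟨k1, k2⟩ := eta ha b₂ a₂ (bnd_un _ hb P.2.2.2.2) (bnd_un _ hb (deriv ε 0).2.2.2)
    (bnd_un _ ha P.2.2.2.1) (bnd_un _ ha (deriv ε 0).2.2.1)
    (by rw [isoA_un0, fs.y0]; exact one_ne_zero) (by rwa [isoA_un0]) (by rw [isoA_un0, ts.y0]) hO
    (j₂ _ _ hO c₂) hg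
  exact de_zero hc (isoA_one κ) fs ts (isoA_un_zero ha k2) (isoA_un_zero hb k1)

theorem isoA_poly {f : ℕ → ℂ} (h : ∀ n, 3 ≤ n → f n = 0) (z : ℂ) :
    ser f z = f 0 + f 1 * z + f 2 * z ^ 2 := by
  rw [ser, tsum_eq_sum (s := Finset.range 3) fun n hn => by
    rw [h n (by simpa using hn), zero_mul]]
  simp [Finset.sum_range_succ]

omit [DecidableEq κ] [FiniteDimensional ℂ W₁] [FiniteDimensional ℂ W₂] in
/-- shape of the solutions in the special case -/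
theorem isoS_shape (hc : Compat 1 S₁ S₂) (p₁ : PlainS 1 S₁) {i : κ} (h₂ : HardS 1 S₂ i)
    (hM : S₁.M = 1) (hk : S₁.k = 0) (h2 : 2 ∈ S₁.L) (hL : ∀ l ∈ S₁.L, l ≤ 2) (sp : Sparse S₂.L)
    {τ : ℂ} {e : Ful W₁ W₂} (fs : FS S₁ S₂ 1 τ e) (hE : ∀ i ∈ S₂.I, S₂.E i (1, P₂ τ e) = 0) :
    un S₂.Rin e.2.2.2 = Yq (S₂.c (P₂ τ e)) ∧
    (∀ n, un S₁.Rin e.2.2.1 n = τ * sT 1 (ind ℂ S₂.L) (Yq (S₂.c (P₂ τ e))) n +
      (if n = 0 then τ else 0) * (S₁.Rin : ℂ)⁻¹ ^ n) ∧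
    1 / S₂.c (P₂ τ e) ^ 2 = τ ^ 2 * (1 + sT 1 (ind ℂ S₂.L) (Yq (S₂.c (P₂ τ e))) 0) := by
  have hY : ∀ n, 1 ≤ n → un S₂.Rin e.2.2.2 n = ∑' l, ind ℂ S₁.L l * τ *
      cf (un S₁.Rin e.2.2.1) (1 * l - 1) (l - n) := fun n hn => by
    have h1 := p₁.form 1 _ fs.m₁ n
    rw [hc.r₂, hM, hk] at h1
    rw [un, fs.hy n hn]
    refine h1.trans ?_
    simp [sT]
  have hz : ∀ n l : ℕ, (l ∈ S₁.L → l < n) → ind ℂ S₁.L l * τ *
      cf (un S₁.Rin e.2.2.1) (1 * l - 1) (l - n) = 0 := fun n l h => by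
    by_cases hl : l ∈ S₁.L
    · rw [cf, if_neg (by have := h hl; omega), mul_zero]
    · rw [ind, if_neg hl, zero_mul, zero_mul]
  have y3 : ∀ n, 3 ≤ n → un S₂.Rin e.2.2.2 n = 0 := fun n hn => by
    rw [hY n (by omega)]
    simp only [hz n _ fun hl => (hL _ hl).trans_lt hn, tsum_zero]
  have y2 : un S₂.Rin e.2.2.2 2 = τ * un S₁.Rin e.2.2.1 0 := by
    rw [hY 2 (by omega), tsum_eq_single 2 fun l hl => hz 2 l fun h => (hL l h).lt_of_ne hl]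
    simp [ind, h2, cf]
  have y0 : un S₂.Rin e.2.2.2 0 = 1 := by rw [isoA_un0, fs.y0]
  obtain ⟨c0, c1⟩ := h₂.crit _ fs.m₂
  have c2 := h₂.baux 1 _ fs.m₂ fs.a₂
  have hX := h₂.f1 1 (isoA_one κ) _ fs.m₂ fs.a₂
    (hE i (by rw [h₂.hI]; exact Finset.mem_singleton_self i)) (Or.inr sp)
  have hM₂ : S₂.M = 1 := by rw [hc.M₂, hM, hk]
  change ser (flat 1 (un S₂.Rin e.2.2.2)) _ = 0 at c1
  change Bv 1 (un S₂.Rin e.2.2.2) _ = 1 at c2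
  generalize S₂.c (P₂ τ e) = c at c0 c1 c2 ⊢
  rw [isoA_poly fun n hn => by rw [flat, y3 n hn, mul_zero]] at c1
  rw [Bv, isoA_poly y3, pow_one, div_eq_one_iff_eq c0, y0] at c2
  simp only [flat, y0] at c1
  have e2 : un S₂.Rin e.2.2.2 2 = 1 / c ^ 2 := by
    rw [eq_div_iff (pow_ne_zero 2 c0)]
    push_cast at c1
    linear_combination c1
  have e1 : un S₂.Rin e.2.2.2 1 = 1 - 2 / c := by
    rw [e2] at c2
    field_simp at c2 ⊢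
    linear_combination c2
  have eY : un S₂.Rin e.2.2.2 = Yq c := funext fun n => by
    match n with
    | 0 => exact y0
    | 1 => exact e1
    | 2 => exact e2
    | n + 3 => exact y3 _ (by omega)
  have eX : ∀ n, un S₁.Rin e.2.2.1 n = τ * sT 1 (ind ℂ S₂.L) (Yq c) n +
      (if n = 0 then τ else 0) * (S₁.Rin : ℂ)⁻¹ ^ n := fun n => by
    have h1 := hX n
    rw [hM₂, pow_one, ← hc.r₁, un] at h1
    rw [un, fs.hx n, add_mul, h1, hM₂, pow_one, ← eY]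
  refine ⟨eY, eX, ?_⟩
  rw [← e2, y2, eX 0]
  simp
  ring

theorem isoS {t w₀ : ℝ} (ht : t ≠ 0) (hw : 2 < w₀) (hc : Compat 1 S₁ S₂) (p₁ : PlainS 1 S₁)
    {i : κ} (h₂ : HardS 1 S₂ i) (hM : S₁.M = 1) (hk : S₁.k = 0) (h2 : 2 ∈ S₁.L)
    (hL : ∀ l ∈ S₁.L, l ≤ 2) (sp : Sparse S₂.L) {e₀ : Ful W₁ W₂} (m₂ : P₂ t e₀ ∈ S₂.U)
    (hz : S₂.c (P₂ t e₀) = w₀) : IsoHyp S₁ S₂ t e₀ := by
  have t1 : Tendsto (fun P : ℂ × Ful W₁ W₂ => S₂.c (P₂ P.1 P.2)) (𝓝 ((t : ℂ), e₀)) (𝓝 w₀) := by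
    rw [← hz]
    exact (hc.s₂.dc.continuousOn.continuousAt (hc.s₂.op.mem_nhds m₂)).tendsto.comp
      ((by fun_prop : Continuous fun P : ℂ × Ful W₁ W₂ => P₂ P.1 P.2).tendsto ((t : ℂ), e₀))
  have t2 : ∀ᶠ P : ℂ × Ful W₁ W₂ in 𝓝 ((t : ℂ), e₀), P.1 ≠ 0 :=
    continuousAt_fst.eventually_ne (Complex.ofReal_ne_zero.2 ht)
  filter_upwards [t1.eventually (s2 hc.s₂.hL sp hw), t2] with P j₁ j₂ ε e hε
  have sh := hε.mono fun s hs => isoS_shape hc p₁ h₂ hM hk h2 hL sp hs.2.1 hs.2.2.2.1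
  have han : AnalyticAt ℂ (fun s => S₂.c (P₂ P.1 (ε s))) 0 := by
    rw [Complex.analyticAt_iff_eventually_differentiableAt]
    filter_upwards [hε] with s hs
    have h1 : DifferentiableAt ℂ (fun s => P₂ P.1 (ε s)) s :=
      (differentiableAt_const _).prodMk (hs.1.snd.fst.prodMk hs.1.snd.snd.snd)
    exact (hc.s₂.dc.differentiableAt (hc.s₂.op.mem_nhds hs.2.1.m₂)).comp s h1
  have hcst : ∀ᶠ s in 𝓝 (0 : ℂ), S₂.c (P₂ P.1 (ε s)) = S₂.c (P₂ P.1 (ε 0)) := by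
    refine han.eventually_constant_or_nhds_le_map_nhds.resolve_right fun h => j₁ P.1 j₂ ?_
    rw [e] at h
    exact Eventually.filter_mono h (eventually_map.2 (sh.mono fun s hs => hs.2.2))
  obtain ⟨d, fs, -, -, ts⟩ := hε.self_of_nhds
  obtain ⟨s1, s2, -⟩ := sh.self_of_nhds
  refine de_zero hc (isoA_one κ) fs ts ?_ ?_
  · refine (isoA_fst (isoA_snd (isoA_snd d.hasDerivAt))).unique
      ((hasDerivAt_const 0 (ε 0).2.2.1).congr_of_eventuallyEq ?_)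
    filter_upwards [sh, hcst] with s h3 h4
    exact isoA_un_inj hc.s₁.rad.1 (funext fun n => by rw [h3.2.1 n, s2 n, h4])
  · refine (isoA_snd (isoA_snd (isoA_snd d.hasDerivAt))).unique
      ((hasDerivAt_const 0 (ε 0).2.2.2).congr_of_eventuallyEq ?_)
    filter_upwards [sh, hcst] with s h3 h4
    exact isoA_un_inj hc.s₂.rad.1 (by rw [h3.1, s1, h4])

theorem kerB {m : ℕ} (hc : Compat m S₁ S₂) {i : κ} (h₂ : HardS m S₂ i) {e₀ : Ful W₁ W₂}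
    {R z₁ z₂ : ℝ} (hR : 0 < R) (hz : (m + 1) * (z₁ * z₂) = 1) (h0 : 0 < z₁)
    (hX : un S₁.Rin e₀.2.2.1 = cx fun n => R * z₂ ^ n) (hc₂ : S₂.c (P₂ 0 e₀) = z₂)
    (h₁ : (∀ de, TS S₁ S₂ 1 0 e₀ 0 0 de → ser (un S₁.Rin de.2.2.1) z₁ = 0) ∨
      (z₁⁻¹ < S₂.Rin ∧ z₁ < S₁.Rin ∧ ser (flat m (un S₂.Rin e₀.2.2.2)) (z₁⁻¹ : ℝ) ≠ 0)) :
    KerHyp S₁ S₂ e₀ := by
  intro fs de ts
  have ha : 0 < S₁.Rin := hc.s₁.rad.1
  have hb : 0 < S₂.Rin := hc.s₂.rad.1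
  have hO := om_zero hc (isoA_one κ) fs ts
  obtain ⟨α, α', hα⟩ := h₂.tang 1 _ fs.m₂ rfl (P₂ 0 de) rfl
  have eX : un S₁.Rin e₀.2.2.1 = fun n => (R : ℂ) * (z₂ : ℂ) ^ n := by
    rw [hX]; funext n; simp
  have edX : un S₁.Rin de.2.2.1 = fun n : ℕ => (α + α' * n) * (z₂ : ℂ) ^ n := funext fun n => by
    rw [← hc₂, ← hα n, un, un, ts.hx n, hc.r₁]
    simp
  have hz' : ((m : ℂ) + 1) * (z₁ * z₂) = 1 := by exact_mod_cast hz
  have hz₂ : (z₂ : ℂ) ≠ 0 := fun h => by simp [h] at hz'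
  have e1 : (((m : ℂ) + 1) * z₂)⁻¹ = z₁ := inv_eq_of_mul_eq_one_right (by linear_combination hz')
  have h3 : ser (un S₁.Rin de.2.2.1) z₁ = 0 := by
    rcases h₁ with h | ⟨g1, g2, g3⟩
    · exact h de ts
    have hn : ‖((z₁⁻¹ : ℝ) : ℂ)‖ = z₁⁻¹ := by
      rw [Complex.norm_real, Real.norm_of_nonneg (inv_pos.2 h0).le]
    have h4 := hO (z₁⁻¹ : ℝ) ⟨by rw [hn]; exact inv_strictAnti₀ h0 g2, by rwa [hn]⟩
    have hm : (m : ℂ) ≠ 0 := Nat.cast_ne_zero.2 hc.hm.ne'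
    have hm1 : (m : ℂ) + 1 ≠ 0 := Nat.cast_add_one_ne_zero m
    have ex : (z₁ : ℂ) * z₂ = ((m : ℂ) + 1)⁻¹ := eq_inv_of_mul_eq_one_right hz'
    have hx : ‖((m : ℂ) + 1)⁻¹‖ < 1 := by
      rw [norm_inv, ← Nat.cast_add_one, Complex.norm_natCast]
      exact inv_lt_one_of_one_lt₀ (by exact_mod_cast Nat.succ_lt_succ hc.hm)
    have h5 : ser (flat m (un S₁.Rin e₀.2.2.1)) z₁ = 0 := by
      have h6 := (((hasSum_coe_mul_geometric_of_norm_lt_one hx).mul_left (m : ℂ)).sub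
        (hasSum_geometric_of_norm_lt_one hx)).mul_left (R : ℂ)
      have h7 : (R : ℂ) * (m * (((m : ℂ) + 1)⁻¹ / (1 - ((m : ℂ) + 1)⁻¹) ^ 2) -
          (1 - ((m : ℂ) + 1)⁻¹)⁻¹) = 0 := by
        rw [show 1 - ((m : ℂ) + 1)⁻¹ = m / (m + 1) by field_simp; ring]
        field_simp
        ring
      rw [h7] at h6
      rw [← h6.tsum_eq, eX]
      refine tsum_congr fun n => ?_
      rw [flat, ← ex, mul_pow]
      ring
    rw [Om, Complex.ofReal_inv, inv_inv, h5, zero_mul, add_zero] at h4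
    rw [Complex.ofReal_inv] at g3
    exact (mul_eq_zero.1 h4).resolve_right g3
  have h8 := hc.s₂.cin _ fs.m₂
  rw [hc₂, ← hc.r₁] at h8
  rw [eX, edX] at hO
  obtain ⟨k1, k2, k3⟩ := ker hc.hm ha (hc.r₁ ▸ hc.s₂.rad.2.2) (bnd_un _ hb e₀.2.2.2)
    (bnd_un _ hb de.2.2.2) (by rw [isoA_un0, fs.y0]; exact one_ne_zero) (by rw [isoA_un0, ts.y0])
    (Complex.ofReal_ne_zero.2 hR.ne') hz₂ h8 hO (by rw [e1, ← edX, h3])
  exact de_zero hc (isoA_one κ) fs ts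
    (isoA_un_zero ha (by rw [edX, k2, k3]; funext n; simp)) (isoA_un_zero hb k1)

end Pool.Agent.MP_098ecc_co.H97
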