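import Pool.Agent.MP_098ecc_co.H97.PoslB

set_option autoImplicit false

namespace Pool.Agent.MP_098ecc_co.H97

open Metric Filter Topology Set Function
open scoped BoundedContinuousFunction

theorem ext_zero {𝕜 : Type} [NormedField 𝕜] (f : ℕ → 𝕜) (N : ℕ) {l n : ℕ}
    (h : n ∉ Finset.range (l + 1)) : cf f N ((l : ℤ) - n) = 0 := by
  rw [Finset.mem_range] at h
  rw [cf, if_neg (by omega)]

theorem ext_term {𝕜 : Type} [NormedField 𝕜] (f : ℕ → 𝕜) (N l : ℕ) {ζ S : 𝕜} (hζ : ζ ≠ 0)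
    (h : HasSum (fun n => PowerSeries.coeff n (PowerSeries.mk f ^ N) * ζ ^ n) S) :
    (Summable fun n : ℕ => cf f N ((l : ℤ) - n) * ζ⁻¹ ^ n) ∧
    (Summable fun n : ℕ => cf f N ((l : ℤ) - -(n + 1 : ℕ)) * ζ ^ (n + 1)) ∧
    ∑' n : ℕ, cf f N ((l : ℤ) - n) * ζ⁻¹ ^ n +
      ∑' n : ℕ, cf f N ((l : ℤ) - -(n + 1 : ℕ)) * ζ ^ (n + 1) = S * ζ⁻¹ ^ l := by
  have h1 : HasSum (fun n : ℕ => cf f N ((l : ℤ) - n) * ζ⁻¹ ^ n)
      (∑ n ∈ Finset.range (l + 1), cf f N ((l : ℤ) - n) * ζ⁻¹ ^ n) :=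
    hasSum_sum_of_ne_finset_zero fun n hn => by rw [ext_zero f N hn, zero_mul]
  have h2 := ((hasSum_nat_add_iff' (l + 1)).2 h).mul_right (ζ⁻¹ ^ l)
  have e : (fun n : ℕ => cf f N ((l : ℤ) - -(n + 1 : ℕ)) * ζ ^ (n + 1)) = fun i =>
      PowerSeries.coeff (i + (l + 1)) (PowerSeries.mk f ^ N) * ζ ^ (i + (l + 1)) * ζ⁻¹ ^ l := by
    funext n
    rw [cf, if_pos (by omega), show ((l : ℤ) - -(n + 1 : ℕ)).toNat = n + (l + 1) by omega,
      show n + (l + 1) = n + 1 + l by ring, pow_add ζ (n + 1) l, mul_assoc, mul_assoc, ← mul_pow,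
      mul_inv_cancel₀ hζ, one_pow, mul_one]
  rw [e]
  refine ⟨h1.summable, h2.summable, ?_⟩
  rw [h1.tsum_eq, h2.tsum_eq, sub_mul, Finset.sum_mul, ← Finset.sum_flip]
  rw [Finset.sum_congr rfl (g := fun i => PowerSeries.coeff i (PowerSeries.mk f ^ N) * ζ ^ i *
    ζ⁻¹ ^ l), add_sub_cancel]
  intro i hi
  rw [Finset.mem_range] at hi
  obtain ⟨d, rfl⟩ : ∃ d, l = i + d := ⟨l - i, by omega⟩
  rw [Nat.add_sub_cancel_left, cf, if_pos (by omega),
    show (((i + d : ℕ) : ℤ) - d).toNat = i by omega, pow_add, mul_assoc, ← mul_assoc (ζ ^ i),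
    ← mul_pow, mul_inv_cancel₀ hζ, one_pow, one_mul]

/-- the terms of the side series -/
noncomputable def extA (m : ℕ) (L : Set ℕ) (f : ℕ → ℝ) (l : ℕ) (i : ℤ) : ℂ :=
  ind ℂ L l * cf (cx f) (m * l - 1) (l - i)

noncomputable def extP (m : ℕ) (L : Set ℕ) (f : ℕ → ℝ) (l : ℕ) (ζ : ℂ) : ℂ :=
  ∑' n : ℕ, extA m L f l n * ζ⁻¹ ^ n

noncomputable def extQ (m : ℕ) (L : Set ℕ) (f : ℕ → ℝ) (l : ℕ) (ζ : ℂ) : ℂ :=
  ∑' n : ℕ, extA m L f l (-(n + 1 : ℕ)) * ζ ^ (n + 1)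

theorem extA_norm {m : ℕ} {L : Set ℕ} {f : ℕ → ℝ} (hf : ∀ i, 0 ≤ f i) (l : ℕ) (i : ℤ) :
    ‖extA m L f l i‖ = ind ℝ L l * cf f (m * l - 1) (l - i) := by
  rw [extA, cf_ofReal, ← win_cast, ← Complex.ofReal_mul, Complex.norm_real, Real.norm_eq_abs,
    abs_of_nonneg (mul_nonneg (win_nn L l).1 (cf_nonneg hf _ _))]

theorem ext_dom {m : ℕ} {L : Set ℕ} {f : ℕ → ℝ} (hf : ∀ i, 0 ≤ f i) {z : ℝ} (hz : 0 < z)
    (hd : Dom m L f z) : ∃ J : ℕ → ℝ, Summable J ∧ (∀ l, 0 ≤ J l) ∧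
      ∀ l i, ‖extA m L f l i‖ ≤ J l * z ^ i := by
  obtain ⟨I, h1, h2⟩ := hd
  refine ⟨fun l => |I l|, h1.abs, fun l => abs_nonneg _, fun l i => ?_⟩
  have := zpow_pos hz i
  rw [extA_norm hf, ind]
  split_ifs with h
  · rw [one_mul]
    exact (h2 l h i).trans (by gcongr; exact le_abs_self _)
  · rw [zero_mul]
    positivity

theorem ext_PQ {m : ℕ} (hm : 0 < m) {L : Set ℕ} (hL : 0 ∉ L) {f : ℕ → ℝ} {ζ : ℂ} (hζ : ζ ≠ 0)
    (hs : Summable fun i => ‖cx f i * ζ ^ i‖) (l : ℕ) :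
    extP m L f l ζ + extQ m L f l ζ =
      ser (cx f) ζ ^ (m - 1) / ζ * (ind ℂ L l * Bv m (cx f) ζ ^ (l - 1)) := by
  obtain ⟨p1, p2⟩ := laur_pow hs (m * l - 1)
  obtain ⟨-, -, h⟩ := ext_term (cx f) (m * l - 1) l hζ (p2 ▸ p1.of_norm.hasSum)
  simp only [extP, extQ, extA, mul_assoc, tsum_mul_left]
  rw [← mul_add, h, ind]
  split_ifs with hl
  · obtain ⟨k, rfl⟩ : ∃ k, l = k + 1 := ⟨l - 1, by
      have : l ≠ 0 := fun h => hL (h ▸ hl)
      omega⟩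
    obtain ⟨j, rfl⟩ : ∃ j, m = j + 1 := ⟨m - 1, by omega⟩
    rw [show (j + 1) * (k + 1) - 1 = j + (j + 1) * k by
      rw [mul_add, mul_one, ← add_assoc, Nat.add_sub_cancel, add_comm]]
    rw [Bv, Nat.add_sub_cancel, Nat.add_sub_cancel, div_pow, ← pow_mul, pow_add, inv_pow]
    field_simp
    ring
  · simp

theorem ext_sumP {m : ℕ} {L : Set ℕ} {f : ℕ → ℝ} {ζ : ℂ}
    (h : Summable fun p : ℕ × ℕ => ‖extA m L f p.1 p.2 * ζ⁻¹ ^ p.2‖) :
    HasSum (fun l => extP m L f l ζ) (ser (fun n => sT m (ind ℂ L) (cx f) n) ζ⁻¹) := by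
  have h1 := h.of_norm.prod.hasSum
  rw [← Summable.tsum_comm (f := fun l n : ℕ => extA m L f l n * ζ⁻¹ ^ n) h.of_norm] at h1
  simp only [tsum_mul_right] at h1
  exact h1

theorem ext_sumQ {m : ℕ} {L : Set ℕ} {f : ℕ → ℝ} {ζ : ℂ}
    (h : Summable fun p : ℕ × ℕ => ‖extA m L f p.1 (-(p.2 + 1 : ℕ)) * ζ ^ (p.2 + 1)‖) :
    HasSum (fun l => extQ m L f l ζ)
      (ζ * ser (fun n => sT m (ind ℂ L) (cx f) (-(n + 1 : ℕ))) ζ) := by
  have h1 := h.of_norm.prod.hasSum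
  rw [← Summable.tsum_comm (f := fun l n : ℕ => extA m L f l (-(n + 1 : ℕ)) * ζ ^ (n + 1))
    h.of_norm] at h1
  simp only [tsum_mul_right] at h1
  have e : ζ * ser (fun n => sT m (ind ℂ L) (cx f) (-(n + 1 : ℕ))) ζ =
      ∑' n : ℕ, sT m (ind ℂ L) (cx f) (-(n + 1 : ℕ)) * ζ ^ (n + 1) := by
    rw [ser, ← tsum_mul_left]
    exact tsum_congr fun n => by ring
  rw [e]
  exact h1

/-- rearrangement of the side series on a circle of absolute convergence -/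
theorem split {m : ℕ} (hm : 0 < m) {L : Set ℕ} (hL : 0 ∉ L) {f : ℕ → ℝ} (hf : ∀ i, 0 ≤ f i)
    (h0 : 0 < f 0) {r : ℝ} (hs : Summable fun i => f i * r ^ i) {ζ : ℂ} (hζ : ζ ≠ 0)
    (hr : ‖ζ‖ < r) (ha : Adm L (Bv m f ‖ζ‖)) :
    ser (cx f) ζ ^ (m - 1) / ζ * ∑' l, ind ℂ L l * Bv m (cx f) ζ ^ (l - 1) =
      ser (fun n => sT m (ind ℂ L) (cx f) n) ζ⁻¹ +
        ζ * ser (fun n => sT m (ind ℂ L) (cx f) (-(n + 1 : ℕ))) ζ := by
  set ρ := ‖ζ‖ with hρ
  have ρ0 : 0 < ρ := norm_pos_iff.2 hζ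
  have s1 : Summable fun i => f i * ρ ^ i :=
    hs.of_nonneg_of_le (fun i => mul_nonneg (hf i) (by positivity)) fun i => by
      have := hf i
      gcongr
  have s2 : ∀ w : ℂ, ‖w‖ = ρ → Summable fun i => ‖cx f i * w ^ i‖ := fun w hw =>
    s1.congr fun i => by
      rw [norm_mul, norm_pow, hw, Complex.norm_real, Real.norm_eq_abs, abs_of_nonneg (hf i)]
  have F0 : 0 < ser f ρ := by
    have := s1.le_tsum 0 (fun i _ => mul_nonneg (hf i) (pow_nonneg ρ0.le i))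
    rw [pow_zero, mul_one] at this
    exact h0.trans_le this
  have s3 : ∀ N, HasSum (fun n => PowerSeries.coeff n (PowerSeries.mk f ^ N) * ρ ^ n)
      (ser f ρ ^ N) := by
    intro N
    obtain ⟨p1, p2⟩ := laur_pow (s2 ρ (by simp [abs_of_pos ρ0])) N
    have p3 := p2 ▸ p1.of_norm.hasSum
    rw [ser_ofReal] at p3
    rw [← Complex.hasSum_ofReal, Complex.ofReal_pow]
    have e : ∀ n : ℕ, ((PowerSeries.coeff n (PowerSeries.mk f ^ N) * ρ ^ n : ℝ) : ℂ) =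
        PowerSeries.coeff n (PowerSeries.mk (cx f) ^ N) * (ρ : ℂ) ^ n := by
      intro n
      have := cf_ofReal f N n
      simp only [cf, Nat.cast_nonneg, if_true, Int.toNat_natCast] at this
      push_cast
      rw [← this]
    simp only [e]
    exact p3
  obtain ⟨B', b1, b2⟩ := ha
  have b0 : 0 < Bv m f ρ := by unfold Bv; positivity
  have s4 : Summable fun l => ind ℝ L l * (ser f ρ ^ (m * l - 1) * ρ⁻¹ ^ l) := by
    refine (b2.div_const (ser f ρ)).of_nonneg_of_le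
      (fun l => mul_nonneg (win_nn L l).1 (by positivity)) fun l => ?_
    rw [ind]
    split_ifs with hl
    · have l0 : l ≠ 0 := fun h => hL (h ▸ hl)
      obtain ⟨n, hn⟩ : ∃ n, m * l = n + 1 :=
        ⟨m * l - 1, by have := Nat.mul_pos hm (Nat.pos_of_ne_zero l0); omega⟩
      have : Bv m f ρ ^ l ≤ B' ^ l := pow_le_pow_left₀ b0.le b1.le l
      rw [Bv, div_pow, ← pow_mul, hn] at this
      rw [one_mul, one_mul, hn, Nat.add_sub_cancel, le_div_iff₀ F0]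
      refine le_of_eq_of_le ?_ this
      rw [inv_pow]
      field_simp
      ring
    · simp
  have t := fun l => ext_term f (m * l - 1) l ρ0.ne' (s3 (m * l - 1))
  have n1 : ∀ l, 0 ≤ ∑' n : ℕ, cf f (m * l - 1) ((l : ℤ) - n) * ρ⁻¹ ^ n := fun l =>
    tsum_nonneg fun n => mul_nonneg (cf_nonneg hf _ _) (by positivity)
  have n2 : ∀ l, 0 ≤ ∑' n : ℕ, cf f (m * l - 1) ((l : ℤ) - -(n + 1 : ℕ)) * ρ ^ (n + 1) := fun l =>
    tsum_nonneg fun n => mul_nonneg (cf_nonneg hf _ _) (by positivity)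
  have hP := ext_sumP (m := m) (L := L) (f := f) (ζ := ζ) (by
    rw [summable_prod_of_nonneg fun p => norm_nonneg _]
    simp only [norm_mul, extA_norm hf, norm_pow, norm_inv, ← hρ, mul_assoc, tsum_mul_left]
    refine ⟨fun l => (t l).1.mul_left _, s4.of_nonneg_of_le
      (fun l => mul_nonneg (win_nn L l).1 (n1 l)) fun l => ?_⟩
    refine mul_le_mul_of_nonneg_left ?_ (win_nn L l).1
    linarith [(t l).2.2, n2 l])
  have hQ := ext_sumQ (m := m) (L := L) (f := f) (ζ := ζ) (by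
    rw [summable_prod_of_nonneg fun p => norm_nonneg _]
    simp only [norm_mul, extA_norm hf, norm_pow, ← hρ, mul_assoc, tsum_mul_left]
    refine ⟨fun l => (t l).2.1.mul_left _, s4.of_nonneg_of_le
      (fun l => mul_nonneg (win_nn L l).1 (n2 l)) fun l => ?_⟩
    refine mul_le_mul_of_nonneg_left ?_ (win_nn L l).1
    linarith [(t l).2.2, n1 l])
  rw [← (hP.add hQ).tsum_eq, ← tsum_mul_left]
  exact tsum_congr fun l => (ext_PQ hm hL hζ (s2 ζ rfl) l).symm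

theorem dom_bnd {m : ℕ} {L : Set ℕ} {f : ℕ → ℝ} (hf : ∀ i, 0 ≤ f i) {z : ℝ} (hz : 0 < z)
    (hd : Dom m L f z) : Bnd z⁻¹ (fun n => sT m (ind ℂ L) (cx f) n) ∧
      Bnd z fun n => sT m (ind ℂ L) (cx f) (-(n + 1 : ℕ)) := by
  obtain ⟨J, j1, -, j2⟩ := ext_dom hf hz hd
  have h : ∀ i : ℤ, ‖sT m (ind ℂ L) (cx f) i‖ ≤ (∑' l, J l) * z ^ i := fun i =>
    tsum_of_norm_bounded (j1.hasSum.mul_right _) fun l => j2 l i
  refine ⟨⟨∑' l, J l, fun n => ?_⟩, ⟨(∑' l, J l) * z⁻¹, fun n => ?_⟩⟩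
  · rw [inv_inv, ← zpow_natCast]
    exact h n
  · refine (h _).trans (le_of_eq ?_)
    rw [zpow_neg, zpow_natCast, ← inv_pow]
    ring

theorem ext_geo {a : ℕ → ℕ → ℂ} {J : ℕ → ℝ} {θ : ℝ} (hJ : Summable J) (h0 : ∀ l, 0 ≤ J l)
    (t0 : 0 ≤ θ) (t1 : θ < 1) (h : ∀ l n, ‖a l n‖ ≤ J l * θ ^ n) :
    (Summable fun p : ℕ × ℕ => ‖a p.1 p.2‖) ∧ ∀ l, ‖∑' n, a l n‖ * (1 - θ) ≤ J l := by
  constructor
  · exact (hJ.mul_of_nonneg (summable_geometric_of_lt_one t0 t1) h0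
      (fun n => pow_nonneg t0 n)).of_nonneg_of_le (fun p => norm_nonneg _) fun p => h p.1 p.2
  · intro l
    rw [← le_div_iff₀ (by linarith), div_eq_mul_inv]
    exact tsum_of_norm_bounded ((hasSum_geometric_of_lt_one t0 t1).mul_left _) (h l)

theorem ext_out {m : ℕ} {L : Set ℕ} {f : ℕ → ℝ} {z : ℝ} (hz : 0 < z) {J : ℕ → ℝ}
    (hJ : Summable J) (h0 : ∀ l, 0 ≤ J l) (h : ∀ l i, ‖extA m L f l i‖ ≤ J l * z ^ i) {ζ : ℂ}
    (hζ : z < ‖ζ‖) :
    HasSum (fun l => extP m L f l ζ) (ser (fun n => sT m (ind ℂ L) (cx f) n) ζ⁻¹) ∧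
      ∀ l, ‖extP m L f l ζ‖ * (‖ζ‖ - z) ≤ J l * ‖ζ‖ := by
  have p : 0 < ‖ζ‖ := hz.trans hζ
  obtain ⟨h1, h2⟩ := ext_geo (a := fun l n => extA m L f l n * ζ⁻¹ ^ n) (θ := z / ‖ζ‖) hJ h0
    (by positivity) ((div_lt_one p).2 hζ) fun l n => by
      have := h l n
      rw [zpow_natCast] at this
      rw [norm_mul, norm_pow, norm_inv, div_eq_mul_inv, mul_pow, ← mul_assoc]
      gcongr
  refine ⟨ext_sumP h1, fun l => ?_⟩
  have := mul_le_mul_of_nonneg_right (h2 l) p.le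
  rw [mul_assoc, sub_mul, div_mul_cancel₀ _ p.ne', one_mul] at this
  exact this

theorem ext_in {m : ℕ} {L : Set ℕ} {f : ℕ → ℝ} {z : ℝ} (hz : 0 < z) {J : ℕ → ℝ}
    (hJ : Summable J) (h0 : ∀ l, 0 ≤ J l) (h : ∀ l i, ‖extA m L f l i‖ ≤ J l * z ^ i) {ζ : ℂ}
    (hζ : ‖ζ‖ < z) :
    HasSum (fun l => extQ m L f l ζ)
      (ζ * ser (fun n => sT m (ind ℂ L) (cx f) (-(n + 1 : ℕ))) ζ) ∧
      ∀ l, ‖extQ m L f l ζ‖ * (z - ‖ζ‖) ≤ J l * z := by
  have t1 := (div_lt_one hz).2 hζ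
  obtain ⟨h1, h2⟩ := ext_geo (a := fun l n => extA m L f l (-(n + 1 : ℕ)) * ζ ^ (n + 1))
    (θ := ‖ζ‖ / z) hJ h0 (by positivity) t1 fun l n => by
      have := h l (-(n + 1 : ℕ))
      have j := h0 l
      rw [zpow_neg, zpow_natCast] at this
      rw [norm_mul, norm_pow]
      calc _ ≤ J l * (z ^ (n + 1))⁻¹ * ‖ζ‖ ^ (n + 1) := by gcongr
        _ = J l * (‖ζ‖ / z) ^ n * (‖ζ‖ / z) := by rw [div_pow]; field_simp; ring
        _ ≤ J l * (‖ζ‖ / z) ^ n * 1 := by gcongr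
        _ = _ := mul_one _
  refine ⟨ext_sumQ h1, fun l => ?_⟩
  have := mul_le_mul_of_nonneg_right (h2 l) hz.le
  rw [mul_assoc, sub_mul, div_mul_cancel₀ _ hz.ne', one_mul] at this
  exact this

/-- a bound with a simple pole along a circle is a bound -/
theorem ext_max {z ε A : ℝ} {c : ℂ} (hc : ‖c‖ = z) (h0 : 0 < ε) (h1 : ε ≤ z) {P : ℂ → ℂ}
    (hP : DifferentiableOn ℂ P (ball c (2 * ε)))
    (h : ∀ ζ ∈ ball c (2 * ε), ‖P ζ‖ * |‖ζ‖ - z| ≤ A) {ζ : ℂ} (hζ : ζ ∈ ball c (ε / 2)) :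
    ‖P ζ‖ ≤ 12 / ε * A := by
  have z0 : 0 < z := h0.trans_le h1
  set q : ℂ → ℂ := fun ζ => (starRingEnd ℂ) c * (ζ - c) ^ 2 + ε ^ 2 * (ζ - c) + c * ε ^ 2 with hq
  have sub : closedBall c ε ⊆ ball c (2 * ε) := closedBall_subset_ball (by linarith)
  have d : DiffContOnCl ℂ (fun ζ => q ζ * P ζ) (ball c ε) := by
    apply DifferentiableOn.diffContOnCl
    rw [closure_ball c h0.ne']
    exact DifferentiableOn.mul (by simp only [hq]; fun_prop) (hP.mono sub)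
  have b1 : ‖q ζ * P ζ‖ ≤ ε * (3 * z) * A := by
    refine Complex.norm_le_of_forall_mem_frontier_norm_le isBounded_ball d ?_
      (subset_closure (ball_subset_ball (by linarith) hζ))
    intro w hw
    rw [frontier_ball c h0.ne'] at hw
    have w1 := h w (sub (sphere_subset_closedBall hw))
    rw [mem_sphere, dist_eq_norm] at hw
    have e1 : (w - c) * (starRingEnd ℂ) (w - c) = ε ^ 2 := by
      rw [Complex.mul_conj, Complex.normSq_eq_norm_sq, hw]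
      push_cast
      rfl
    have e2 : q w = (w - c) * ((‖w‖ ^ 2 - z ^ 2 : ℝ) : ℂ) := by
      have e3 := Complex.mul_conj w
      have e4 := Complex.mul_conj c
      rw [Complex.normSq_eq_norm_sq] at e3 e4
      rw [Complex.ofReal_sub, ← hc, ← e3, ← e4, hq]
      simp only [← e1, map_sub]
      ring
    have e5 : ‖w‖ ≤ 2 * z := by
      have := norm_add_le (w - c) c
      rw [sub_add_cancel] at this
      linarith
    rw [norm_mul, e2, norm_mul, hw, Complex.norm_real, Real.norm_eq_abs, sq_sub_sq, abs_mul,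
      abs_of_pos (by positivity : 0 < ‖w‖ + z)]
    calc _ = ε * (‖w‖ + z) * (‖P w‖ * |‖w‖ - z|) := by ring
      _ ≤ _ := by gcongr; linarith
  have b2 : z * ε ^ 2 / 4 ≤ ‖q ζ‖ := by
    rw [mem_ball, dist_eq_norm] at hζ
    have e1 := norm_sub_le (q ζ) ((starRingEnd ℂ) c * (ζ - c) ^ 2 + ε ^ 2 * (ζ - c))
    have e2 := norm_add_le ((starRingEnd ℂ) c * (ζ - c) ^ 2) (ε ^ 2 * (ζ - c))
    have e3 : ‖q ζ - ((starRingEnd ℂ) c * (ζ - c) ^ 2 + ε ^ 2 * (ζ - c))‖ = z * ε ^ 2 := by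
      simp [hq, hc]
    have e4 : ‖(starRingEnd ℂ) c * (ζ - c) ^ 2‖ = z * ‖ζ - c‖ ^ 2 := by simp [hc]
    have e5 : ‖(ε : ℂ) ^ 2 * (ζ - c)‖ = ε ^ 2 * ‖ζ - c‖ := by simp
    have e6 := norm_nonneg (ζ - c)
    have e7 : ‖ζ - c‖ ^ 2 ≤ (ε / 2) ^ 2 := by gcongr
    have e8 : ε ^ 2 * ‖ζ - c‖ ≤ ε ^ 2 * (z / 2) := by gcongr; linarith
    have e9 := mul_le_mul_of_nonneg_left e7 z0.le
    linarith
  rw [norm_mul] at b1
  have b3 := (mul_le_mul_of_nonneg_right b2 (norm_nonneg (P ζ))).trans b1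
  rw [div_mul_eq_mul_div, le_div_iff₀ h0]
  have b4 : 0 < z * ε := by positivity
  apply le_of_mul_le_mul_left _ b4
  linarith

theorem extP_diff (m : ℕ) (L : Set ℕ) (f : ℕ → ℝ) (l : ℕ) {ζ : ℂ} (hζ : ζ ≠ 0) :
    DifferentiableAt ℂ (extP m L f l) ζ := by
  have e : extP m L f l = fun ζ => ∑ n ∈ Finset.range (l + 1), extA m L f l n * ζ⁻¹ ^ n := by
    funext ζ
    exact tsum_eq_sum fun n hn => by rw [extA, ext_zero _ _ hn, mul_zero, zero_mul]
  rw [e]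
  fun_prop (disch := assumption)

/-- continuation of the output across the critical circle -/
theorem ext {m : ℕ} (hm : 0 < m) {L : Set ℕ} (hL : 0 ∉ L) {f : ℕ → ℝ} {z R : ℝ}
    (hc : Crit m f z) (h0 : 0 < f 0) (hR : z < R) (hb : Bnd R (cx f)) (hd : Dom m L f z)
    {Ω : Set ℂ} {G : ℂ → ℂ} (hΩ : IsOpen Ω) (hG : DifferentiableOn ℂ G Ω)
    (hcv : ∀ v ∈ Ω, ‖v‖ ≤ Bv m f z → Adm L ‖v‖ ∧
      ∀ᶠ v' in 𝓝 v, G v' = ∑' l, ind ℂ L l * v' ^ (l - 1)) :
    IsOpen {ζ : ℂ | z < ‖ζ‖ ∨ (ζ ≠ 0 ∧ ‖ζ‖ ≤ z ∧ Bv m (cx f) ζ ∈ Ω)} ∧ ∃ g : ℂ → ℂ,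
      DifferentiableOn ℂ g {ζ : ℂ | z < ‖ζ‖ ∨ (ζ ≠ 0 ∧ ‖ζ‖ ≤ z ∧ Bv m (cx f) ζ ∈ Ω)} ∧
      (∀ ζ : ℂ, z < ‖ζ‖ → g ζ = ser (fun n => sT m (ind ℂ L) (cx f) n) ζ⁻¹) ∧
      ∀ ζ : ℂ, ζ ≠ 0 → ‖ζ‖ < z → Bv m (cx f) ζ ∈ Ω →
        g ζ = ser (cx f) ζ ^ (m - 1) / ζ * G (Bv m (cx f) ζ) -
          ζ * ser (fun n => sT m (ind ℂ L) (cx f) (-(n + 1 : ℕ))) ζ := by
  have z0 := hc.pos
  obtain ⟨J, j1, j0, j2⟩ := ext_dom hc.nn z0 hd
  obtain ⟨bo, bi⟩ := dom_bnd hc.nn z0 hd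
  have dS : ∀ ζ : ℂ, ‖ζ‖ ≤ z → DifferentiableAt ℂ (ser (cx f)) ζ := fun ζ h =>
    hb.diff.differentiableAt (isOpen_ball.mem_nhds (mem_ball_zero_iff.2 (h.trans_lt hR)))
  have dB : ∀ ζ : ℂ, ζ ≠ 0 → ‖ζ‖ ≤ z → DifferentiableAt ℂ (Bv m (cx f)) ζ := fun ζ h1 h =>
    ((dS ζ h).pow m).div differentiableAt_id h1
  have dK : ∀ ζ : ℂ, ζ ≠ 0 → ‖ζ‖ ≤ z →
      DifferentiableAt ℂ (fun ζ => ser (cx f) ζ ^ (m - 1) / ζ) ζ := fun ζ h1 h =>
    ((dS ζ h).pow _).div differentiableAt_id h1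
  have eo : ∀ ζ : ℂ, z < ‖ζ‖ → ∀ᶠ w in 𝓝 ζ, z < ‖w‖ := fun ζ h =>
    continuousAt_const.eventually_lt continuous_norm.continuousAt h
  refine ⟨?_, fun ζ => if ‖ζ‖ < z then ser (cx f) ζ ^ (m - 1) / ζ * G (Bv m (cx f) ζ) -
    ζ * ser (fun n => sT m (ind ℂ L) (cx f) (-(n + 1 : ℕ))) ζ else ∑' l, extP m L f l ζ,
    ?_, fun ζ h => ?_, fun ζ _ h _ => if_pos h⟩
  · rw [isOpen_iff_mem_nhds]
    rintro ζ (h | ⟨h1, h2, h3⟩)
    · filter_upwards [eo ζ h] with w hw using Or.inl hw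
    · filter_upwards [eventually_ne_nhds h1,
        (dB ζ h1 h2).continuousAt.eventually (hΩ.mem_nhds h3)] with w w1 w2
      exact (lt_or_ge z ‖w‖).imp_right fun w3 => ⟨w1, w3, w2⟩
  · rintro ζ (h | ⟨h1, h2, h3⟩) <;> apply DifferentiableAt.differentiableWithinAt
    · have p : ζ ≠ 0 := norm_pos_iff.1 (z0.trans h)
      refine DifferentiableAt.congr_of_eventuallyEq
        (f := fun w => ser (fun n => sT m (ind ℂ L) (cx f) n) w⁻¹) ?_ ?_
      · refine DifferentiableAt.comp ζ (g := ser fun n => sT m (ind ℂ L) (cx f) n)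
          (bo.diff.differentiableAt (isOpen_ball.mem_nhds ?_)) (differentiableAt_inv p)
        rw [mem_ball_zero_iff, norm_inv]
        exact inv_strictAnti₀ z0 h
      · filter_upwards [eo ζ h] with w hw
        rw [if_neg (not_lt.2 hw.le), (ext_out z0 j1 j0 j2 hw).1.tsum_eq]
    rcases h2.lt_or_eq with h4 | h4
    · refine DifferentiableAt.congr_of_eventuallyEq
        (f := fun ζ => ser (cx f) ζ ^ (m - 1) / ζ * G (Bv m (cx f) ζ) -
          ζ * ser (fun n => sT m (ind ℂ L) (cx f) (-(n + 1 : ℕ))) ζ) ?_ ?_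
      · exact ((dK ζ h1 h2).mul ((hG.differentiableAt (hΩ.mem_nhds h3)).comp ζ
          (dB ζ h1 h2))).sub (differentiableAt_id.mul
          (bi.diff.differentiableAt (isOpen_ball.mem_nhds (mem_ball_zero_iff.2 h4))))
      · filter_upwards [continuous_norm.continuousAt.eventually_lt continuousAt_const h4] with w hw
        exact if_pos hw
    · have n1 : ‖Bv m (cx f) ζ‖ ≤ Bv m f z := by
        have := norm_ser_le hc.nn hc.sum h2
        rw [Bv, Bv, norm_div, norm_pow, h4]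
        gcongr
        exact this.1.trans this.2
      obtain ⟨⟨B', b1, b2⟩, b3⟩ := hcv _ h3 n1
      have B0 : 0 < B' := (norm_nonneg _).trans_lt b1
      set K := ‖ser (cx f) ζ ^ (m - 1) / ζ‖ + 1 with hK
      have K0 : 0 ≤ K := by positivity
      have e1 := (dB ζ h1 h2).continuousAt.eventually b3
      have e2 : ∀ᶠ w in 𝓝 ζ, ‖Bv m (cx f) w‖ < B' :=
        (dB ζ h1 h2).continuousAt.norm.eventually_lt continuousAt_const b1
      have e3 : ∀ᶠ w in 𝓝 ζ, ‖ser (cx f) w ^ (m - 1) / w‖ < K :=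
        (dK ζ h1 h2).continuousAt.norm.eventually_lt continuousAt_const (lt_add_one _)
      have e4 : ∀ᶠ w in 𝓝 ζ, ‖w‖ < R :=
        continuous_norm.continuousAt.eventually_lt continuousAt_const (h2.trans_lt hR)
      obtain ⟨δ, δ0, e5⟩ := Metric.eventually_nhds_iff_ball.1
        ((e1.and e2).and ((e3.and e4).and (eventually_ne_nhds h1)))
      set ε := min (δ / 2) (z / 2) with hε
      have ε0 : 0 < ε := lt_min (by positivity) (by positivity)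
      have ε1 : ε ≤ δ / 2 := min_le_left _ _
      have ε2 : ε ≤ z / 2 := min_le_right _ _
      have e6 : ∀ w ∈ ball ζ (2 * ε), _ := fun w hw => e5 w (ball_subset_ball (by linarith) hw)
      set τ : ℕ → ℝ := fun l => K * (ind ℝ L l * B' ^ l / B') with hτ
      have τs : Summable τ := (b2.div_const _).mul_left _
      have τ0 : ∀ l, 0 ≤ τ l := fun l => by
        have := (win_nn L l).1
        simp only [hτ]
        positivity
      have t1 : ∀ w ∈ ball ζ (2 * ε), ∀ l, ‖extP m L f l w + extQ m L f l w‖ ≤ τ l := by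
        intro w hw l
        obtain ⟨⟨-, a2⟩, ⟨a3, a4⟩, a5⟩ := e6 w hw
        rw [ext_PQ hm hL a5 (hb.summable a4), norm_mul]
        refine mul_le_mul a3.le ?_ (norm_nonneg _) K0
        rw [ind, ind]
        split_ifs with hl
        · obtain ⟨k, rfl⟩ : ∃ k, l = k + 1 := ⟨l - 1, by
            have : l ≠ 0 := fun h => hL (h ▸ hl)
            omega⟩
          rw [one_mul, one_mul, pow_succ, mul_div_cancel_right₀ _ B0.ne', Nat.add_sub_cancel,
            norm_pow]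
          gcongr
        · simp
      have t2 : ∀ l, ∀ w ∈ ball ζ (ε / 2), ‖extP m L f l w‖ ≤ 12 / ε * (2 * z * J l + z * τ l) := by
        intro l w hw
        refine ext_max h4 ε0 (by linarith) (fun w hw =>
          (extP_diff m L f l (e6 w hw).2.2).differentiableWithinAt) (fun w hw => ?_) hw
        have a1 := j0 l
        have a2 := τ0 l
        have a3 : 0 ≤ z * τ l := by positivity
        have a4 : 0 ≤ z * J l := by positivity
        rcases lt_trichotomy ‖w‖ z with a | a | a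
        · have c1 := (ext_in z0 j1 j0 j2 a).2 l
          have c2 := norm_sub_le (extP m L f l w + extQ m L f l w) (extQ m L f l w)
          rw [add_sub_cancel_right] at c2
          have c3 := t1 w hw l
          have c4 := norm_nonneg w
          rw [abs_sub_comm, abs_of_pos (sub_pos.2 a)]
          have c5 : ‖extP m L f l w‖ * (z - ‖w‖) ≤ (τ l + ‖extQ m L f l w‖) * (z - ‖w‖) := by
            gcongr
            linarith
          nlinarith
        · rw [a, sub_self, abs_zero, mul_zero]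
          positivity
        · have c1 := (ext_out z0 j1 j0 j2 a).2 l
          have c2 := norm_add_le (w - ζ) ζ
          rw [mem_ball, dist_eq_norm] at hw
          rw [sub_add_cancel] at c2
          rw [abs_of_pos (sub_pos.2 a)]
          have c3 : J l * ‖w‖ ≤ J l * (2 * z) := by gcongr; linarith
          linarith
      have sub : ball ζ (ε / 2) ⊆ ball ζ (2 * ε) := ball_subset_ball (by linarith)
      have us := ((j1.mul_left (2 * z)).add (τs.mul_left z)).mul_left (12 / ε)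
      have t3 := Complex.differentiableOn_tsum_of_summable_norm us
        (fun l w hw => (extP_diff m L f l (e6 w (sub hw)).2.2).differentiableWithinAt)
        isOpen_ball t2
      have nb := ball_mem_nhds ζ (half_pos ε0)
      refine (t3.differentiableAt nb).congr_of_eventuallyEq ?_
      filter_upwards [nb] with w hw
      split_ifs with a
      · obtain ⟨⟨a1, -⟩, ⟨-, a4⟩, a5⟩ := e6 w (sub hw)
        have c1 := (us.of_norm_bounded fun l => t2 l w hw).hasSum.add (ext_in z0 j1 j0 j2 a).1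
        rw [a1, ← tsum_mul_left, ← tsum_congr fun l => ext_PQ hm hL a5 (hb.summable a4) l,
          c1.tsum_eq, add_sub_cancel_right]
      · rfl
  · beta_reduce
    rw [if_neg (not_lt.2 h.le), (ext_out z0 j1 j0 j2 h).1.tsum_eq]

end Pool.Agent.MP_098ecc_co.H97
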