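import Pool.Agent.MP_098ecc_co.H97.PrimAppA

set_option autoImplicit false

namespace Pool.Agent.MP_098ecc_co.H97

open Metric Filter Topology Set Function
open scoped BoundedContinuousFunction

/-- continuation of the output of one side in the original variable -/
structure PaSide (m n : ℕ) (L : Set ℕ) (f h : ℕ → ℝ) (z R : ℝ) (S : Set ℂ) (Q : ℂ → ℂ) :
    Prop where
  pos : 0 < n
  op : IsOpen S
  ne : ∀ w ∈ S, w ≠ 0
  out : ∀ w : ℂ, z < ‖w‖ ^ m → w ∈ S ∧ Q w = yw m (cx h) w⁻¹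
  diff : DifferentiableOn ℂ Q S
  exit : ∀ v : ℂ, v ≠ 0 → v ∉ S → yw m (cx f) v ^ (m * n) ≠ 1 → ∀ u : ℕ → ℂ, (∀ k, u k ∈ S) →
    MapClusterPt v atTop u → ∀ ε > (0 : ℝ), ∃ (V : Set ℂ) (ψ : ℂ → ℂ),
      V ⊆ ball (yw m (cx f) v) ε ∧ IsOpen V ∧ IsPreconnected V ∧ DifferentiableOn ℂ ψ V ∧
      (∀ s ∈ V, ψ s ∈ S ∧ ‖ψ s‖ ^ m < z ∧ yw m (cx f) (ψ s) = s) ∧
      (∃ᶠ k in atTop, u k ∈ ψ '' V) ∧ ¬ ∃ C : ℝ, ∀ s ∈ V, ‖Q (ψ s)‖ ≤ C
  np : ∀ r : ℝ, 0 < r → z < r ^ m → r ^ m < R → (Adm L (Bv m f (r ^ m)) ∨ ¬ H85.EvPer L) →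
    ∀ w ∈ S, ‖w‖ ^ m ≤ z → yw m (cx f) w = yw m (cx f) r → Q w ≠ Q r

theorem pa_out {m : ℕ} {L : Set ℕ} {f h : ℕ → ℝ} {t ρ : ℝ} (hρ : 0 < ρ)
    (hh : ∀ i : ℕ, 1 ≤ i → h i = t * sT m (ind ℝ L) f i)
    (hb : Bnd ρ fun n => sT m (ind ℂ L) (cx f) n) : Bnd ρ (cx h) ∧ ∀ ζ : ℂ, ‖ζ‖ < ρ →
      ser (cx h) ζ = (h 0 - t * sT m (ind ℂ L) (cx f) (0 : ℕ)) +
        t * ser (fun n => sT m (ind ℂ L) (cx f) n) ζ := by
  have e : ∀ i : ℕ, 1 ≤ i → cx h i = t * sT m (ind ℂ L) (cx f) i := fun i hi => by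
    rw [sT_ofReal, ← Complex.ofReal_mul, ← hh i hi]
  refine ⟨?_, fun ζ hζ => ?_⟩
  · obtain ⟨C, hC⟩ := hb
    refine ⟨‖(t : ℂ)‖ * |C| + ‖cx h 0‖, fun i => ?_⟩
    rcases Nat.eq_zero_or_pos i with rfl | hi
    · rw [pow_zero, mul_one]
      exact le_add_of_nonneg_left (by positivity)
    · rw [e i hi, norm_mul, add_mul, mul_assoc]
      refine le_add_of_le_of_nonneg (mul_le_mul_of_nonneg_left ((hC i).trans ?_) (norm_nonneg _))
        (by positivity)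
      gcongr
      exact le_abs_self C
  · have e2 : cx h = (fun i : ℕ => (t : ℂ) * sT m (ind ℂ L) (cx f) i) +
        Pi.single 0 (h 0 - t * sT m (ind ℂ L) (cx f) (0 : ℕ)) := by
      funext i
      rcases Nat.eq_zero_or_pos i with rfl | hi
      · simp
      · simp [e i hi, hi.ne']
    rw [e2, slb_single (by
      simpa only [mul_assoc, norm_mul] using (hb.summable hζ).mul_left ‖(t : ℂ)‖), add_comm]
    simp only [ser, mul_assoc, tsum_mul_left]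

theorem pa_circ {m : ℕ} (hm : 0 < m) {f : ℕ → ℝ} {z : ℝ} (hc : Crit m f z) (f0 : 0 < f 0)
    (f1 : 0 < f 1) (hB : Bv m f z ≤ 1) {ζ : ℂ} (h : ‖ζ‖ = z) (h1 : 1 ≤ ‖Bv m (cx f) ζ‖) :
    Bv m (cx f) ζ = 1 := by
  have e2 := (norm_ser_le hc.nn hc.sum h.le).1
  have hz := hc.pos
  rw [h] at e2
  have e1 : ‖Bv m (cx f) ζ‖ = ‖ser (cx f) ζ‖ ^ m / z := by rw [Bv, norm_div, norm_pow, h]
  have e3 : ‖Bv m (cx f) ζ‖ ≤ Bv m f z := by
    rw [e1, Bv]
    gcongr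
  have e4 : ‖ser (cx f) ζ‖ = ser f z := by
    refine le_antisymm e2 (le_of_pow_le_pow_left₀ hm.ne' (norm_nonneg _) ?_)
    have := hB.trans h1
    rwa [e1, Bv, div_le_div_iff_of_pos_right hz] at this
  rw [aper hc.nn f0 (pa_aper f1) hc.sum h e4, pa_Bv, le_antisymm hB (h1.trans e3)]
  simp

theorem pa_side {m : ℕ} (hm : 0 < m) {L : Set ℕ} (hL : 0 ∉ L) {f h : ℕ → ℝ} {z z' t : ℝ}
    (hc : Crit m f z) (f0 : 0 < f 0) (f1 : 0 < f 1) (hR : z < z'⁻¹) (hb : Bnd z'⁻¹ (cx f))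
    (hd : Dom m L f z) (hB : Adm L (Bv m f z) ∨ Bv m f z = 1)
    (hper : H85.EvPer L → Adm L (Bv m f z)) (ht : 0 < t)
    (hh : ∀ i : ℕ, 1 ≤ i → h i = t * sT m (ind ℝ L) f i) (hc' : Crit m h z') (h0 : 0 < h 0)
    (h1 : 0 < h 1) : ∃ n S Q, PaSide m n L f h z z'⁻¹ S Q := by
  have hz := hc.pos
  have hz' := hc'.pos
  obtain ⟨Ω, G, n, hn, hΩ, hG, hcv, hdi, hre⟩ := pa_omega hL
    (div_nonneg (pow_nonneg (pa_pos hc.nn f0 hz.le hc.sum).le m) hz.le) hB hper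
  obtain ⟨hop, g, hg, go, gi⟩ := ext hm hL hc f0 hR hb hd hΩ hG hcv
  obtain ⟨b1, b2⟩ := dom_bnd hc.nn hz hd
  set c : ℂ := h 0 - t * sT m (ind ℂ L) (cx f) (0 : ℕ) with hcc
  set T := {ζ : ℂ | z < ‖ζ‖ ∨ (ζ ≠ 0 ∧ ‖ζ‖ ≤ z ∧ Bv m (cx f) ζ ∈ Ω)} with hT
  have inn : ∀ w : ℂ, w ^ m ∈ T → ‖w‖ ^ m ≤ z → yw m (cx f) w ^ m ∈ Ω := fun w hw h => by
    rw [← pa_pow]
    exact (hw.resolve_left (by rw [norm_pow]; exact not_lt.2 h)).2.2
  have out : ∀ w : ℂ, z < ‖w‖ ^ m → w * (c + t * g (w ^ m)) = yw m (cx h) w⁻¹ := fun w hw => by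
    rw [← norm_pow] at hw
    rw [go _ hw, ← (pa_out (inv_pos.2 hz) hh b1).2 _ (by rw [norm_inv]; exact inv_strictAnti₀ hz hw),
      yw, inv_pow, div_inv_eq_mul, mul_comm]
  refine ⟨n, {w | w ^ m ∈ T}, fun w => w * (c + t * g (w ^ m)), hn,
    hop.preimage (continuous_pow m), ?_, fun w hw => ⟨Or.inl (by rwa [norm_pow]), out w hw⟩,
    differentiableOn_id.fun_mul (((hg.comp (differentiableOn_pow m) fun w hw => hw).const_mul
      _).const_add c), ?_, ?_⟩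
  · rintro w hw rfl
    simp [hT, hm.ne', hz.not_gt] at hw
  · intro v v0 hv hne u hu hcl ε hε
    have hv1 : ‖v‖ ^ m ≤ z := not_lt.1 fun h => hv (Or.inl (by rwa [norm_pow]))
    have hv2 : yw m (cx f) v ^ m ∉ Ω := fun h =>
      hv (Or.inr ⟨pow_ne_zero m v0, by rwa [norm_pow], by rwa [pa_pow]⟩)
    obtain ⟨hp, rfl, rfl, hB1⟩ := hdi.resolve_right fun h => hne (by rw [pow_mul, h _ hv2])
    have hv3 : 1 ≤ ‖yw m (cx f) v ^ m‖ := by simpa using hv2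
    have hv4 : ‖v‖ ^ m < z := hv1.lt_of_ne fun e => hne (by
      rw [pow_mul, ← pa_pow, pa_circ hm hc f0 f1 hB1 (by rwa [norm_pow]) (by rwa [pa_pow]), one_pow])
    have inS : ∀ w : ℂ, w ^ m ∈ T → ‖w‖ ^ m < z → ‖yw m (cx f) w‖ < 1 := fun w hw h => by
      have := mem_ball_zero_iff.1 (inn w hw h.le)
      rwa [norm_pow, pow_lt_one_iff_of_nonneg (norm_nonneg _) hm.ne'] at this
    have an := pa_an hb v0 (hv4.trans hR)
    have hs1 : ‖yw m (cx f) v‖ = 1 := by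
      refine le_antisymm (not_lt.1 fun h => ?_) ?_
      · obtain ⟨k, h2, h3⟩ := (hcl.frequently ((pa_lt m hv4).and
          (continuousAt_const.eventually_lt an.continuousAt.norm h))).exists
        exact lt_asymm h3 (inS _ (hu k) h2)
      · rwa [norm_pow, one_le_pow_iff_of_nonneg (norm_nonneg _) hm.ne'] at hv3
    obtain ⟨ψ, p1, p2, p3⟩ := pa_inv an (by
      rw [(pa_der hb v0 (hv4.trans hR)).deriv]
      exact div_ne_zero ((uni hm hc f0).2 _ (by rwa [norm_pow])) (pow_ne_zero 2 v0))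
    set K : ℂ → ℂ := fun w => w * (c - t * (w ^ m *
      ser (fun n => sT m (ind ℂ L) (cx f) (-(n + 1 : ℕ))) (w ^ m))) with hK
    have cK : ContinuousAt K v := by
      have : ContinuousAt (fun w : ℂ => ser (fun n => sT m (ind ℂ L) (cx f) (-(n + 1 : ℕ)))
          (w ^ m)) v := ContinuousAt.comp (f := fun w : ℂ => w ^ m)
        (b2.diff.continuousOn.continuousAt
          (isOpen_ball.mem_nhds (by simpa using hv4))) (by fun_prop)
      fun_prop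
    obtain ⟨δ, hδ, hV⟩ := Metric.eventually_nhds_iff_ball.1 (p2.and (p1.eventually
      ((pa_lt m hv4).and ((cK.norm.eventually_lt continuousAt_const (lt_add_one _)).and
        (isOpen_ne.mem_nhds v0)))))
    have hV' := fun s (hs : s ∈ ball (yw m (cx f) v) (min ε δ) ∩ ball 0 1) =>
      hV s (ball_subset_ball (min_le_right ε δ) hs.1)
    have hΩ' : ∀ s ∈ ball (yw m (cx f) v) (min ε δ) ∩ ball 0 1,
        Bv m (cx f) (ψ s ^ m) ∈ ball (0 : ℂ) 1 := fun s hs => by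
      rw [pa_pow, (hV' s hs).1.2, mem_ball_zero_iff, norm_pow]
      exact pow_lt_one₀ (norm_nonneg s) (mem_ball_zero_iff.1 hs.2) hm.ne'
    refine ⟨ball (yw m (cx f) v) (min ε δ) ∩ ball 0 1, ψ,
      inter_subset_left.trans (ball_subset_ball (min_le_left ε δ)), isOpen_ball.inter isOpen_ball,
      ((convex_ball _ _).inter (convex_ball _ _)).isPreconnected,
      fun s hs => (hV' s hs).1.1.differentiableWithinAt, fun s hs => ⟨Or.inr
        ⟨pow_ne_zero m (hV' s hs).2.2.2, by rw [norm_pow]; exact (hV' s hs).2.1.le, hΩ' s hs⟩,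
        (hV' s hs).2.1, (hV' s hs).1.2⟩, ?_, ?_⟩
    · refine (hcl.frequently ((pa_lt m hv4).and (p3.and (an.continuousAt.eventually
        (ball_mem_nhds _ (lt_min hε hδ)))))).mono fun k hk => ?_
      exact ⟨_, ⟨hk.2.2, mem_ball_zero_iff.2 (inS _ (hu k) hk.1)⟩, hk.2.1⟩
    · rintro ⟨C, hC⟩
      have s0 : yw m (cx f) v ≠ 0 := norm_ne_zero_iff.1 (by rw [hs1]; exact one_ne_zero)
      have hmap := (hasStrictDerivAt_pow m (yw m (cx f) v)).map_nhds_eq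
        (mul_ne_zero (Nat.cast_ne_zero.2 hm.ne') (pow_ne_zero _ s0))
      obtain ⟨η, hη, hb'⟩ := Metric.mem_nhds_iff.1
        (hmap ▸ image_mem_map (ball_mem_nhds _ (lt_min hε hδ)))
      refine hp (win_G ⟨yw m (cx f) v ^ m, by rw [norm_pow, hs1, one_pow], η, hη,
        (C + (‖K v‖ + 1)) / t, fun b hb1 hb2 => ?_⟩)
      obtain ⟨s, hs, rfl⟩ := hb' (mem_ball_iff_norm.2 hb2)
      have hs2 : ‖s‖ < 1 := by
        rwa [norm_pow, pow_lt_one_iff_of_nonneg (norm_nonneg _) hm.ne'] at hb1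
      have hs' : s ∈ ball (yw m (cx f) v) (min ε δ) ∩ ball 0 1 := ⟨hs, mem_ball_zero_iff.2 hs2⟩
      obtain ⟨⟨-, q1⟩, q2, q3, q4⟩ := hV' s hs'
      have q5 := gi _ (pow_ne_zero m q4) (by rwa [norm_pow]) (hΩ' s hs')
      rw [pa_pow, q1] at q5
      have q6 : (t : ℂ) * ser (ind ℂ L) (s ^ m) = s * (ψ s * (c + t * g (ψ s ^ m)) - K (ψ s)) := by
        rw [pa_mul hL, q5, hK]
        generalize paS L (s ^ m) = A
        rw [← q1, q1]
        have q7 : ser (cx f) (ψ s ^ m) = s * ψ s := by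
          rw [yw, div_eq_iff q4] at q1
          exact q1
        have q8 : ψ s ≠ 0 := q4
        obtain ⟨k, rfl⟩ := Nat.exists_eq_succ_of_ne_zero hm.ne'
        simp only [q7, Nat.succ_eq_add_one, Nat.add_sub_cancel]
        field_simp
        ring
      have q9 := congrArg norm q6
      rw [norm_mul, norm_mul, Complex.norm_real, Real.norm_of_nonneg ht.le] at q9
      rw [le_div_iff₀ ht, mul_comm, q9]
      have := (norm_sub_le _ _).trans (add_le_add (hC s hs') q3.le)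
      exact (mul_le_of_le_one_left (norm_nonneg _) hs2.le).trans this
  · intro r hr r1 r2 ha w hw hw1 he hQ
    obtain ⟨-, a2, a3⟩ := hc.Bv_anti hm f0
    obtain ⟨ρ₀, k1, k2⟩ := ((a3.eventually_gt_atTop (Bv m f (r ^ m))).and
      (Ioo_mem_nhdsGT hz)).exists
    obtain ⟨ρ, ⟨k3, k4⟩, k5⟩ := intermediate_value_Ioo' k2.2.le
      (a2.mono fun x hx => ⟨k2.1.trans_le hx.1, hx.2⟩)
      ⟨(hc.Bv_mono hm f0 hb).1 ⟨le_rfl, hR⟩ ⟨r1.le, r2⟩ r1, k1⟩
    have hρ := k2.1.trans k3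
    obtain ⟨a, ha0, rfl⟩ := pa_root hm hρ
    have s1 := pa_sum hc.nn hb hρ.le (k4.trans hR)
    have s2 := pa_sum hc.nn hb (pow_nonneg hr.le m) r2
    have p1 := pa_pos hc.nn f0 hρ.le s1
    have p2 := pa_pos hc.nn f0 (pow_nonneg hr.le m) s2
    have e1 : yw m (cx f) a = yw m (cx f) r := by
      rw [pa_real, pa_real]
      rw [Bv, Bv, ← div_pow, ← div_pow,
        pow_left_inj₀ (by positivity) (by positivity) hm.ne'] at k5
      rw [k5]
    have na : ‖(a : ℂ)‖ = a := by rw [Complex.norm_real, Real.norm_of_nonneg ha0.le]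
    have nr : ‖(r : ℂ)‖ = r := by rw [Complex.norm_real, Real.norm_of_nonneg hr.le]
    have a0 : (a : ℂ) ≠ 0 := Complex.ofReal_ne_zero.2 ha0.ne'
    have w0 : w ≠ 0 := by
      rintro rfl
      simp [hT, hm.ne', hz.not_gt] at hw
    obtain rfl := (uni hm hc f0).1 a w a0 w0 (by rwa [na]) hw1 (e1.trans he.symm)
    have e2 : Bv m (cx f) ((a : ℂ) ^ m) = ((Bv m f (a ^ m) : ℝ) : ℂ) := by
      rw [← Complex.ofReal_pow, pa_Bv]
    have e3 := inn _ hw hw1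
    rw [← pa_pow, e2] at e3
    obtain ⟨ad, eG⟩ := hre _ (by rw [Bv]; positivity) e3 (by rwa [k5])
    have n1 : ‖(a : ℂ) ^ m‖ = a ^ m := by rw [norm_pow, na]
    have e4 := split hm hL hc.nn f0 hc.sum (pow_ne_zero m a0) (by rwa [n1]) (by rwa [n1])
    have e5 := gi _ (pow_ne_zero m a0) (by rwa [n1]) (by rwa [e2])
    rw [e2] at e4
    rw [e2, eG, paS, e4, add_sub_cancel_right] at e5
    obtain ⟨ρ', j1, j2⟩ := ((adm_near hm hc.nn hρ s1 ad).and (Ioo_mem_nhdsLT hρ)).exists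
    obtain ⟨C, hC⟩ := sT_summable hm hL hc.nn f0 j2.1
      (pa_sum hc.nn hb j2.1.le ((j2.2.trans k4).trans hR)) j1
    obtain ⟨o1, o2⟩ := pa_out (inv_pos.2 j2.1) hh ⟨C, fun i => by
      have : 0 ≤ sT m (ind ℝ L) f i :=
        tsum_nonneg fun l => mul_nonneg (win_nn L l).1 (cf_nonneg hc.nn _ _)
      beta_reduce
      rw [sT_ofReal, Complex.norm_real, inv_inv, Real.norm_of_nonneg this]
      simpa using (hC i).2⟩
    have i1 : (a ^ m)⁻¹ < ρ'⁻¹ := inv_strictAnti₀ j2.1 j2.2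
    have i2 : (r ^ m)⁻¹ < (a ^ m)⁻¹ := inv_strictAnti₀ hρ (k4.trans r1)
    have i3 : z' < (r ^ m)⁻¹ := lt_inv_of_lt_inv₀ (by positivity) r2
    rw [out r (by rwa [nr]), e5, ← o2 _ (by rwa [norm_inv, n1])] at hQ
    have := (pa_mid hm hc' h0 h1 o1 (inv_pos.2 ha0) (w := (r : ℂ)⁻¹)
      (by rw [inv_pow]; exact i3.trans i2) (by rwa [inv_pow]) (by rwa [norm_inv, nr, inv_pow])
      (by rw [norm_inv, nr, inv_pow]; exact i2.trans i1) (by
        rw [← hQ, yw, Complex.ofReal_inv, inv_pow, div_inv_eq_mul, mul_comm])).1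
    rw [norm_inv, nr] at this
    have := pow_le_pow_left₀ (inv_pos.2 ha0).le this m
    rw [inv_pow, inv_pow] at this
    exact not_lt.2 this i2

end Pool.Agent.MP_098ecc_co.H97
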