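import Pool.Agent.MP_098ecc_co.H97.Prim
import Pool.Agent.MP_098ecc_co.H97.Ext
import Pool.Agent.MP_098ecc_co.H97.PrimAppB

set_option autoImplicit false

namespace Pool.Agent.MP_098ecc_co.H97

open Metric Filter Topology Set Function
open scoped BoundedContinuousFunction

theorem pa_clu {F : ℂ → ℂ} {v a : ℂ} {u : ℕ → ℂ} (hF : ContinuousAt F v)
    (hu : MapClusterPt v atTop u) (h : Tendsto (fun k => F (u k)) atTop (𝓝 a)) : F v = a :=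
  eq_of_nhds_neBot (ClusterPt.mono (hu.continuousAt_comp hF) h)

theorem primApp {D : Dat} {q : Amb} (hw : Wall D q) (he : Eqs D q.t q.X q.Y)
    (d₁ : Dom D.m D.L₁ q.X q.z₁) (d₂ : Dom D.m D.L₂ q.Y q.z₂) (h₂ : ¬ H85.EvPer D.L₂)
    (h₁ : H85.EvPer D.L₁ → Adm D.L₁ (q.B₁ D)) : ∀ c : ℂ, q.z₂ < ‖c‖ ^ D.m →
      ‖c‖ ^ D.m * q.z₁ < 1 →
      ∃ N ∈ 𝓝 c, InjOn (fun w => (xw D.m q.cX w, yw D.m q.cY w)) N := by
  have hm := D.hm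
  have z1 := hw.c₁.pos
  have z2 := hw.c₂.pos
  have r2 : q.z₂ < q.z₁⁻¹ := by rw [← one_div, lt_div_iff₀' z1]; exact hw.snd
  have r1 : q.z₁ < q.z₂⁻¹ := lt_inv_of_lt_inv₀ z2 r2
  have Y0 : 0 < q.Y 0 := by rw [hw.y0]; exact one_pos
  have Y1 : 0 < q.Y 1 := by
    obtain ⟨l, hl, -⟩ := D.two₁
    exact hw.py 1 l hl (Nat.pos_of_ne_zero fun e => D.z₁ (e ▸ hl))
  have bX := (pa_out (inv_pos.2 z2) he.hx (dom_bnd hw.c₂.nn z2 d₂).1).1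
  have bY := (pa_out (inv_pos.2 z1) he.hy (dom_bnd hw.c₁.nn z1 d₁).1).1
  obtain ⟨n₂, S₂, Q₂, s₂⟩ := pa_side hm D.z₂ hw.c₂ Y0 Y1 r2 bY d₂ hw.b₂ (fun h => absurd h h₂)
    hw.tpos he.hx hw.c₁ (hw.px 0) (hw.px 1)
  obtain ⟨n₁, S₁, Q₁, s₁⟩ := pa_side hm D.z₁ hw.c₁ (hw.px 0) (hw.px 1) r1 bX d₁ hw.b₁ h₁
    hw.tpos he.hy hw.c₂ Y0 Y1
  obtain ⟨w₂, w2, e2⟩ := pa_root hm z2
  obtain ⟨w₁, w1, e1⟩ := pa_root hm (inv_pos.2 z1)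
  have w21 : w₂ < w₁ := lt_of_pow_lt_pow_left₀ D.m w1.le (by rwa [e1, e2])
  have hA : ∀ w : ℂ, w ∈ Ann w₂ w₁ ↔ q.z₂ < ‖w‖ ^ D.m ∧ ‖w‖ ^ D.m < q.z₁⁻¹ := fun w => by
    rw [← e1, ← e2, pow_lt_pow_iff_left₀ w2.le (norm_nonneg w) hm.ne',
      pow_lt_pow_iff_left₀ (norm_nonneg w) w1.le hm.ne']
    rfl
  have nr : ∀ r : ℝ, 0 < r → ‖(r : ℂ)‖ = r := fun r hr => by
    rw [Complex.norm_real, Real.norm_of_nonneg hr.le]
  have hAr : ∀ r ∈ Ioo w₂ w₁, (r : ℂ) ∈ Ann w₂ w₁ := fun r hr => by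
    rw [Ann, mem_setOf, nr r (w2.trans hr.1)]
    exact hr
  have pw : ∀ w : ℂ, w ≠ 0 → 0 < ‖w‖ ^ D.m := fun w h => pow_pos (norm_pos_iff.2 h) _
  have iw : ∀ w : ℂ, ‖w⁻¹‖ ^ D.m = (‖w‖ ^ D.m)⁻¹ := fun w => by rw [norm_inv, inv_pow]
  have ey : ∀ w : ℂ, w ≠ 0 → ‖w‖ ^ D.m < q.z₁⁻¹ → w⁻¹ ∈ S₁ ∧ Q₁ w⁻¹ = yw D.m (cx q.Y) w :=
    fun w h0 h => by
      simpa using s₁.out w⁻¹ (by rw [iw]; exact lt_inv_of_lt_inv₀ (pw w h0) h)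
  have a0 : ∀ w ∈ Ann w₂ w₁, w ≠ 0 := fun w h => laur_ann_ne w2.le h
  have oB : IsOpen (S₂ ∩ (fun w : ℂ => w⁻¹) ⁻¹' S₁) :=
    (continuousOn_inv₀.mono s₂.ne).isOpen_inter_preimage s₂.op s₁.op
  have sB : Ann w₂ w₁ ⊆ S₂ ∩ (fun w : ℂ => w⁻¹) ⁻¹' S₁ := fun w h =>
    ⟨(s₂.out w ((hA w).1 h).1).1, (ey w (a0 w h) ((hA w).1 h).2).1⟩
  have dx : DifferentiableOn ℂ Q₂ (S₂ ∩ (fun w : ℂ => w⁻¹) ⁻¹' S₁) := s₂.diff.mono inter_subset_left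
  have dy : DifferentiableOn ℂ (fun w => Q₁ w⁻¹) (S₂ ∩ (fun w : ℂ => w⁻¹) ⁻¹' S₁) :=
    s₁.diff.comp (differentiableOn_inv.mono fun w h => s₂.ne w h.1) fun w h => h.2
  have mx : ∀ r ∈ Ioo w₂ w₁, ∀ w ∈ Ann w₂ w₁, Q₂ w = Q₂ r → ‖w‖ ≤ r := by
    intro r hr w h e
    have hr0 := w2.trans hr.1
    obtain ⟨k1, k2⟩ := (hA _).1 (hAr r hr)
    obtain ⟨k3, k4⟩ := (hA _).1 h
    rw [(s₂.out w k3).2, (s₂.out r k1).2, ← Complex.ofReal_inv] at e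
    rw [nr r hr0] at k1 k2
    have := (pa_mid hm hw.c₁ (hw.px 0) (hw.px 1) bX (inv_pos.2 hr0)
      (by rw [inv_pow]; exact lt_inv_of_lt_inv₀ (by positivity) k2)
      (by rw [inv_pow]; exact inv_strictAnti₀ z2 k1)
      (by rw [iw]; exact lt_inv_of_lt_inv₀ (pw w (a0 w h)) k4)
      (by rw [iw]; exact inv_strictAnti₀ z2 k3) e).1
    rwa [norm_inv, inv_le_inv₀ hr0 (norm_pos_iff.2 (a0 w h))] at this
  have my : ∀ r ∈ Ioo w₂ w₁, ∀ w ∈ Ann w₂ w₁, Q₁ w⁻¹ = Q₁ (r : ℂ)⁻¹ →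
      r ≤ ‖w‖ ∧ (‖w‖ = r → w = r) := by
    intro r hr w h e
    have hr0 := w2.trans hr.1
    obtain ⟨k1, k2⟩ := (hA _).1 (hAr r hr)
    obtain ⟨k3, k4⟩ := (hA _).1 h
    rw [(ey w (a0 w h) k4).2, (ey r (a0 _ (hAr r hr)) k2).2] at e
    rw [nr r hr0] at k1 k2
    exact pa_mid hm hw.c₂ Y0 Y1 bY hr0 k1 k2 k3 k4 e
  obtain ⟨a, a1, a2⟩ := exists_between w21
  obtain ⟨b, b1, b2⟩ := exists_between a2
  have ncx := pa_nc w2.le (dx.mono sB) (hAr b ⟨a1.trans b1, b2⟩) (hAr a ⟨a1, a2⟩) fun e =>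
    not_lt.2 (mx a ⟨a1, a2⟩ b (hAr b ⟨a1.trans b1, b2⟩) e) (by
      rwa [nr b (w2.trans (a1.trans b1))])
  have ncy := pa_nc w2.le (dy.mono sB) (hAr a ⟨a1, a2⟩) (hAr b ⟨a1.trans b1, b2⟩) fun e =>
    not_lt.2 (my b ⟨a1.trans b1, b2⟩ a (hAr a ⟨a1, a2⟩) e).1 (by rwa [nr a (w2.trans a1)])
  have hE := (pa_count (laur_ann_open _ _) (dx.mono sB) ncx (Nat.mul_pos hm s₁.pos)).union
    (pa_count (laur_ann_open _ _) (dy.mono sB) ncy (Nat.mul_pos hm s₂.pos))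
  obtain ⟨a', p1, p2, p3⟩ : ∃ a', w₂ ≤ a' ∧ a' < w₁ ∧ ∀ r ∈ Ioo a' w₁,
      Adm D.L₁ (Bv D.m q.X (r⁻¹ ^ D.m)) ∨ ¬ H85.EvPer D.L₁ := by
    by_cases hp : H85.EvPer D.L₁
    · obtain ⟨B', k1, k2⟩ := h₁ hp
      have e3 : w₁⁻¹ ^ D.m = q.z₁ := by rw [inv_pow, e1, inv_inv]
      have k3 : ContinuousAt (fun r : ℝ => Bv D.m q.X (r⁻¹ ^ D.m)) w₁ :=
        ContinuousAt.comp (f := fun r : ℝ => r⁻¹ ^ D.m)
          ((hw.c₁.Bv_mono hm (hw.px 0) bX).2.continuousAt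
            (Ioo_mem_nhds (by rwa [e3]) (by rwa [e3]))) ((continuousAt_inv₀ w1.ne').pow _)
      obtain ⟨l, u, k4, k5⟩ := mem_nhds_iff_exists_Ioo_subset.1
        (k3.eventually_lt (g := fun _ => B') continuousAt_const (by rwa [e3]))
      exact ⟨max w₂ l, le_max_left _ _, max_lt w21 k4.1, fun r hr =>
        Or.inl ⟨B', k5 ⟨(le_max_right _ _).trans_lt hr.1, hr.2.trans k4.2⟩, k2⟩⟩
    · exact ⟨w₂, le_rfl, w21, fun _ _ => Or.inr hp⟩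
  intro c c1 c2
  have hc : c ∈ Ann w₂ w₁ := (hA c).2 ⟨c1, by rwa [← one_div, lt_div_iff₀ z1]⟩
  obtain ⟨N, hN, hi⟩ := prim w2.le oB sB dx dy hE ncx ncy ⟨a', w₁, p1, p2, le_rfl, by
    intro r hr w h ex ey'
    have hr' : r ∈ Ioo w₂ w₁ := ⟨p1.trans_lt hr.1, hr.2⟩
    have hr0 := w2.trans hr'.1
    obtain ⟨k1, k2⟩ := (hA _).1 (hAr r hr')
    have w0 := s₂.ne w h.1
    by_cases k3 : ‖w‖ ^ D.m ≤ q.z₂
    · rw [(ey w w0 (k3.trans_lt r2)).2, (ey r (a0 _ (hAr r hr')) k2).2] at ey'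
      rw [nr r hr0] at k1 k2
      exact absurd ex (s₂.np r hr0 k1 k2 (Or.inr h₂) w h.1 k3 ey')
    by_cases k4 : q.z₁⁻¹ ≤ ‖w‖ ^ D.m
    · rw [(s₂.out w (not_le.1 k3)).2, (s₂.out r k1).2, ← Complex.ofReal_inv] at ex
      rw [nr r hr0] at k1 k2
      rw [← Complex.ofReal_inv] at ey'
      exact absurd ey' (s₁.np r⁻¹ (inv_pos.2 hr0)
        (by rw [inv_pow]; exact lt_inv_of_lt_inv₀ (by positivity) k2)
        (by rw [inv_pow]; exact inv_strictAnti₀ z2 k1) (p3 r hr) w⁻¹ h.2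
        (by rw [iw]; exact inv_le_of_inv_le₀ z1 k4) ex)
    · have k5 := (hA w).2 ⟨not_le.1 k3, not_le.1 k4⟩
      exact (my r hr' w k5 ey').2 (le_antisymm (mx r hr' w k5 ex) (my r hr' w k5 ey').1)⟩ (by
    intro w hw' u u' hu h hcl
    have tx : Tendsto (fun k => Q₂ (u' k)) atTop (𝓝 (Q₂ w)) := by
      simp only [fun k => (h k).2.1]
      exact (dx.continuousOn.continuousAt (oB.mem_nhds (sB hw'.1))).tendsto.comp hu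
    have ty : Tendsto (fun k => Q₁ (u' k)⁻¹) atTop (𝓝 (Q₁ w⁻¹)) := by
      simp only [fun k => (h k).2.2]
      exact (dy.continuousOn.continuousAt (oB.mem_nhds (sB hw'.1))).tendsto.comp hu
    obtain ⟨δ₂, g2, hδ₂⟩ := pa_big hm (inv_pos.2 z1) bY (Complex.ofReal_ne_zero.2 Y0.ne')
      (‖Q₁ w⁻¹‖ + 1)
    obtain ⟨δ₁, g1, hδ₁⟩ := pa_big hm z1 (R := q.z₁) (f := cx q.X) (by
      obtain ⟨C, hC⟩ := bX
      refine ⟨C, fun i => (hC i).trans (mul_le_mul_of_nonneg_left ?_ ?_)⟩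
      · gcongr
      · simpa using (norm_nonneg _).trans (hC 0)) (Complex.ofReal_ne_zero.2 (hw.px 0).ne')
      (‖Q₂ w‖ + 1)
    obtain ⟨v, hv, hcv⟩ := ((isCompact_closedBall (0 : ℂ) δ₁⁻¹).diff
      (isOpen_ball (x := 0) (ε := δ₂))).exists_mapClusterPt (f := atTop) (u := u') (by
        rw [le_principal_iff, mem_map]
        filter_upwards [tx.norm.eventually_lt_const (lt_add_one _),
          ty.norm.eventually_lt_const (lt_add_one _)] with k k1 k2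
        have u0 := s₂.ne _ (h k).1.1
        refine ⟨mem_closedBall_zero_iff.2 (not_lt.1 fun k3 => ?_), fun k3 => ?_⟩
        · obtain ⟨k4, k5⟩ := hδ₁ (u' k)⁻¹ (inv_ne_zero u0)
            (by rw [norm_inv]; exact inv_lt_of_inv_lt₀ g1 k3)
          rw [iw] at k4
          rw [(s₂.out _ (r2.trans (inv_lt_of_inv_lt₀ (pw _ u0) k4))).2] at k1
          exact lt_asymm k1 k5
        · obtain ⟨k4, k5⟩ := hδ₂ _ u0 (mem_ball_zero_iff.1 k3)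
          rw [(ey _ u0 k4).2] at k2
          exact lt_asymm k2 k5)
    have v0 : v ≠ 0 := fun e => hv.2 (by simpa [e] using g2)
    by_cases k1 : v ∈ S₂
    · have k2 : v⁻¹ ∉ S₁ := fun k => hcl v ⟨k1, k⟩ hcv
      have k3 : q.z₂ < ‖v‖ ^ D.m := r2.trans_le (not_lt.1 fun k => k2 (ey v v0 k).1)
      have k4 : yw D.m (cx q.X) v⁻¹ = Q₂ w := (s₂.out v k3).2.symm.trans
        (pa_clu (s₂.diff.continuousOn.continuousAt (s₂.op.mem_nhds k1)) hcv tx)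
      refine Or.inr fun ε hε => ?_
      obtain ⟨V, ψ, j1, j2, j3, j4, j5, j6, j7⟩ := s₁.exit v⁻¹ (inv_ne_zero v0) k2
        (by rw [k4]; exact fun e => hw'.2 (Or.inl ⟨hw'.1, e⟩)) (fun k => (u' k)⁻¹)
        (fun k => (h k).1.2) (hcv.continuousAt_comp (continuousAt_inv₀ v0)) ε hε
      have j8 : ∀ s ∈ V, q.z₂ < ‖(ψ s)⁻¹‖ ^ D.m := fun s hs => by
        rw [iw]
        exact lt_inv_of_lt_inv₀ (pw _ (s₁.ne _ (j5 s hs).1)) ((j5 s hs).2.1.trans r1)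
      refine ⟨V, fun s => (ψ s)⁻¹, k4 ▸ j1, j2, j3, j4.inv fun s hs => s₁.ne _ (j5 s hs).1,
        fun s hs => ⟨(s₂.out _ (j8 s hs)).1, by simpa using (j5 s hs).1⟩, fun s hs => ?_,
        j6.mono ?_, by simpa using j7⟩
      · rw [(s₂.out _ (j8 s hs)).2, inv_inv, (j5 s hs).2.2]
      · rintro k ⟨s, hs, e⟩
        exact ⟨s, hs, by simp [e]⟩
    · have k3 : ‖v‖ ^ D.m < q.z₁⁻¹ := (not_lt.1 fun k => k1 (s₂.out v k).1).trans_lt r2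
      have k4 : yw D.m (cx q.Y) v = Q₁ w⁻¹ := (ey v v0 k3).2.symm.trans
        (pa_clu (F := fun w => Q₁ w⁻¹) (ContinuousAt.comp (f := fun w : ℂ => w⁻¹)
          (s₁.diff.continuousOn.continuousAt (s₁.op.mem_nhds (ey v v0 k3).1))
          (continuousAt_inv₀ v0)) hcv ty)
      refine Or.inl fun ε hε => ?_
      obtain ⟨V, ψ, j1, j2, j3, j4, j5, j6, j7⟩ := s₂.exit v v0 k1
        (by rw [k4]; exact fun e => hw'.2 (Or.inr ⟨hw'.1, e⟩)) u' (fun k => (h k).1.1) hcv ε hε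
      have j8 := fun s hs => ey (ψ s) (s₂.ne _ (j5 s hs).1) ((j5 s hs).2.1.trans r2)
      exact ⟨V, ψ, k4 ▸ j1, j2, j3, j4, fun s hs => ⟨(j5 s hs).1, (j8 s hs).1⟩,
        fun s hs => (j8 s hs).2.trans (j5 s hs).2.2, j6, j7⟩) c hc
  refine ⟨N ∩ Ann w₂ w₁, inter_mem hN ((laur_ann_open _ _).mem_nhds hc),
    (hi.mono inter_subset_left).congr fun w h => ?_⟩
  obtain ⟨k1, k2⟩ := (hA w).1 h.2
  simp only [(s₂.out w k1).2, (ey w (a0 w h.2) k2).2]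
  rw [yw, xw, inv_pow, div_inv_eq_mul, mul_comm]

end Pool.Agent.MP_098ecc_co.H97
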