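import Pool.Agent.MP_098ecc_co.H97.HardP

set_option autoImplicit false

namespace Pool.Agent.MP_098ecc_co.H97

open Metric Filter Topology Set Function
open scoped BoundedContinuousFunction

theorem wallSol_est {m : ℕ} {R ρ : ℝ} {U : Set BS} {c k : BS → ℂ} (hU : Lap m R ρ U c k)
    {u₀ : BS} (h₀ : u₀ ∈ U) : ∃ C : ℝ, 0 ≤ C ∧ ∀ u ∈ U, ∀ (f : ℕ → ℝ) (z : ℝ), un R u = cx f →
      c u = z → 0 < z → 0 < Bv m f z → Bv m f z ≤ 1 → ∀ l : ℕ, 1 ≤ l → ∀ i : ℤ,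
      cf f (m * l - 1) (l - i) ≤ C * z ^ i * wal (l - 1) := by
  obtain ⟨C, κ₂, h⟩ := hU.est
  have C0 : 0 ≤ C := (norm_nonneg _).trans (h u₀ h₀).1
  refine ⟨C, C0, fun u hu f z h1 h2 z0 b0 b1 l hl i => ?_⟩
  have h3 := ((h u hu).2.2.2.2 l hl).1 i
  rw [h1, h2, hardP_Bv, hardP_cf, ← Complex.ofReal_pow, ← Complex.ofReal_div, Complex.norm_real,
    Complex.norm_real, Real.norm_eq_abs, Real.norm_eq_abs, abs_of_pos z0] at h3
  have h4 := (le_abs_self _).trans h3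
  rw [div_le_iff₀ (pow_pos b0 l)] at h4
  have h5 := wal_pos (l - 1)
  exact h4.trans (mul_le_of_le_one_right (by positivity) (pow_le_one₀ b0.le b1))

theorem wallSol_loc {m : ℕ} {R ρ : ℝ} {U : Set BS} {c k : BS → ℂ} (hU : Lap m R ρ U c k)
    {u : ℕ → BS} {u₀ : BS} (m0 : u₀ ∈ U) (hl : Tendsto u atTop (𝓝 u₀)) {f : ℕ → ℕ → ℝ}
    {z : ℕ → ℝ} {z₀ : ℝ} (hc : ∀ n, Crit m (f n) (z n)) (hz : Tendsto z atTop (𝓝 z₀))
    (c0 : c u₀ = z₀) (hu : ∀ᶠ n in atTop, un R (u n) = cx (f n)) :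
    ∀ᶠ n in atTop, c (u n) = z n := by
  obtain ⟨ε, ε0, hε⟩ := hU.loc
  have t1 : Tendsto (fun n => (z n : ℂ) - c (u n)) atTop (𝓝 (z₀ - c u₀)) :=
    ((Complex.continuous_ofReal.tendsto _).comp hz).sub
      ((hU.dc.continuousOn.continuousAt (hU.op.mem_nhds m0)).tendsto.comp hl)
  rw [c0, sub_self] at t1
  filter_upwards [hl.eventually (hU.op.mem_nhds m0), hu,
    (tendsto_zero_iff_norm_tendsto_zero.1 t1).eventually_lt_const ε0] with n h1 h2 h3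
  refine (hε _ h1 _ h3 ?_).symm
  rw [h2, hardP_flat, hardP_ser, ser, (hc n).crit.tsum_eq, Complex.ofReal_zero]

theorem wallSol_near {m : ℕ} (hm : 0 < m) {L : Set ℕ} {g : ℕ → ℝ} {w : ℝ} (hc : Crit m g w)
    (ha : Adm L (Bv m g w)) : ∀ᶠ ρ in 𝓝[<] w, 0 < ρ ∧ ρ < w ∧
      (Summable fun i => g i * ρ ^ i) ∧ Adm L (Bv m g ρ) := by
  filter_upwards [adm_near hm hc.nn hc.pos hc.sum ha, self_mem_nhdsWithin,
    nhdsWithin_le_nhds (eventually_gt_nhds hc.pos)] with ρ h1 h2 h3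
  exact ⟨h3, h2, poslB_sum hc.nn hc.sum h3.le (le_of_lt h2), h1⟩

theorem wallSol_dom {m : ℕ} (hm : 0 < m) {L : Set ℕ} (hL : 0 ∉ L) {g : ℕ → ℝ} {w : ℝ}
    (hc : Crit m g w) (g0 : 0 < g 0) (ha : Adm L (Bv m g w)) : Dom m L g w := by
  obtain ⟨B, hB, hs⟩ := ha
  have G0 := hardP_pos hc g0
  have w0 := hc.pos
  have b0 : 0 < Bv m g w := div_pos (pow_pos G0 m) w0
  refine ⟨fun l => ind ℝ L l * B ^ l / ser g w, hs.div_const _, fun l hl i => ?_⟩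
  have l0 : l ≠ 0 := fun h => hL (h ▸ hl)
  have h1 := cf_le_real hc.nn w0 hc.sum (m * l - 1) (l - i)
  have h2 : ser g w ^ (m * l - 1) * ser g w = Bv m g w ^ l * w ^ l := by
    rw [← pow_succ, Nat.sub_add_cancel (Nat.mul_pos hm (Nat.pos_of_ne_zero l0)), Bv, div_pow,
      div_mul_cancel₀ _ (pow_pos w0 l).ne', pow_mul]
  have h3 : Bv m g w ^ l ≤ B ^ l := pow_le_pow_left₀ b0.le hB.le l
  have h4 : ind ℝ L l = 1 := if_pos hl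
  rw [zpow_sub₀ w0.ne', zpow_natCast, ← mul_div_assoc, div_le_iff₀ (zpow_pos w0 i)] at h1
  simp only [h4, one_mul]
  rw [div_mul_eq_mul_div, le_div_iff₀ G0]
  refine le_of_mul_le_mul_right ?_ (pow_pos w0 l)
  have h5 := mul_le_mul_of_nonneg_right h1 G0.le
  have h6 := mul_le_mul_of_nonneg_right h3 (mul_pos (pow_pos w0 l) (zpow_pos w0 i)).le
  have h7 : ser g w ^ (m * l - 1) * w ^ i * ser g w = Bv m g w ^ l * (w ^ l * w ^ i) := by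
    linear_combination w ^ i * h2
  linarith

theorem wallSol_side {m : ℕ} (hm : 0 < m) {L : Set ℕ} (hL : 0 ∉ L) {f : ℕ → ℕ → ℝ} {z z' : ℕ → ℝ}
    {g : ℕ → ℝ} {w w' : ℝ} (hc : ∀ n, Crit m (f n) (z n)) (hf0 : ∀ n, 0 < f n 0)
    (hf : ∀ i, Tendsto (fun n => f n i) atTop (𝓝 (g i))) (hz : Tendsto z atTop (𝓝 w))
    (hc₀ : Crit m g w) (g0 : 0 < g 0) (g1 : 0 < g 1) (hz' : Tendsto z' atTop (𝓝 w'))
    (z0 : ∀ n, 0 ≤ z' n) (w0 : 0 < w') (hp : PolyE f z') (hw : w * w' < 1)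
    (hb : Adm L (Bv m g w) ∨ Bv m g w = 1)
    (hB : Tendsto (fun n => Bv m (f n) (z n)) atTop (𝓝 (Bv m g w)))
    (hB1 : L.Infinite → ∀ n, Bv m (f n) (z n) < 1) {τ : ℕ → ℝ} {τ₀ y : ℝ}
    (hτ : Tendsto τ atTop (𝓝 τ₀)) (τ0 : τ₀ ≠ 0)
    (hy : Tendsto (fun n => τ n * sT m (ind ℝ L) (f n) 1) atTop (𝓝 y)) :
    (∀ i : ℤ, Tendsto (fun n => sT m (ind ℝ L) (f n) i) atTop (𝓝 (sT m (ind ℝ L) g i))) ∧
      Dom m L g w ∧ (¬ Adm L (Bv m g w) → Sparse L) := by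
  by_cases ha : Adm L (Bv m g w)
  · obtain ⟨ρ, r0, r1, r2, r3⟩ := (wallSol_near hm hc₀ ha).exists
    exact ⟨(tail_unif hm hL (Eventually.of_forall hc) hf hz hc₀.nn g0 r0 r1 r2 r3).2,
      wallSol_dom hm hL hc₀ g0 ha, fun h => absurd ha h⟩
  have b1 := hb.resolve_left ha
  have lt1 := hB1 fun h => ha (adm_of_finite h _)
  obtain ⟨R, R1, R2⟩ := exists_between ((lt_div_iff₀ w0).2 hw)
  obtain ⟨ρ, r1, r2⟩ := exists_between R1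
  obtain ⟨u, u₀, hu₀, hu, hl⟩ := bs_conv (fun n => (hc n).nn) hf hz' z0 hp (hc₀.pos.trans R1)
    ((lt_div_iff₀ w0).1 R2)
  have ap : Aper {i | 0 < g i} := fun d hd => Nat.dvd_one.1 (hd 1 g1)
  rw [b1] at hB
  obtain ⟨-, -, -, -, -, -, -, -, -, -, -, -, -, -, -, sp, -⟩ := hardPack () hm hL le_rfl
    (Rin := R) (Rout := ρ⁻¹) (by rwa [inv_inv]) (by rwa [inv_inv]) hc hf0 hc₀ g0 ap hz hu₀ hu hl
    lt1 hB hτ (y := y) (by simpa only [pow_one] using hy)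
  replace sp := sp τ0
  obtain ⟨U, c, k, hU, m0, c0, -⟩ := lap hm hc₀ g0 ap hu₀ r1 r2
  obtain ⟨C, C0, hC⟩ := wallSol_est hU m0
  have e1 := wallSol_loc hU m0 hl hc hz c0 hu
  refine ⟨fun i => ?_, ⟨fun l => C * (ind ℝ L l * wal (l - 1)), Summable.mul_left C sp,
    fun l hl i => ?_⟩, fun _ => sp⟩
  · refine tendsto_tsum_of_dominated_convergence
      (bound := fun l => C * (w ^ i + 1) * (ind ℝ L l * wal (l - 1))) (Summable.mul_left _ sp)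
      (fun l => (cf_tendsto hf _ _).const_mul _) ?_
    filter_upwards [hl.eventually (hU.op.mem_nhds m0), hu, e1,
      (hz.zpow₀ i (Or.inl hc₀.pos.ne')).eventually_le_const (lt_add_one _)] with n h1 h2 h3 h4 l
    by_cases hl : l ∈ L
    · have l0 : 1 ≤ l := Nat.pos_of_ne_zero fun h => hL (h ▸ hl)
      have h5 := hC _ h1 _ _ h2 h3 (hc n).pos
        (div_pos (pow_pos (hardP_pos (hc n) (hf0 n)) m) (hc n).pos) (lt1 n).le l l0 i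
      rw [show ind ℝ L l = 1 from if_pos hl, one_mul, one_mul, Real.norm_eq_abs,
        abs_of_nonneg (cf_nonneg (hc n).nn _ _)]
      exact h5.trans (mul_le_mul_of_nonneg_right (mul_le_mul_of_nonneg_left h4 C0) (wal_pos _).le)
    · rw [show ind ℝ L l = 0 from if_neg hl]
      simp
  · have l0 : 1 ≤ l := Nat.pos_of_ne_zero fun h => hL (h ▸ hl)
    have h5 := hC _ m0 _ _ hu₀ c0 hc₀.pos (b1 ▸ one_pos) b1.le l l0 i
    simp only [show ind ℝ L l = 1 from if_pos hl]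
    linarith

theorem wallSol_lim {p : ℕ → Amb} {q : Amb} (h : Tendsto p atTop (𝓝 q)) :
    Tendsto (fun n => (p n).t) atTop (𝓝 q.t) ∧
    (∀ i, Tendsto (fun n => (p n).X i) atTop (𝓝 (q.X i))) ∧
    (∀ i, Tendsto (fun n => (p n).Y i) atTop (𝓝 (q.Y i))) ∧
    Tendsto (fun n => (p n).z₁) atTop (𝓝 q.z₁) ∧ Tendsto (fun n => (p n).z₂) atTop (𝓝 q.z₂) := by
  obtain ⟨a, b, c, d, e⟩ := poslB_lim univ q
  rw [nhdsWithin_univ] at a b c d e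
  exact ⟨a.comp h, fun i => (b i).comp h, fun i => (c i).comp h, d.comp h, e.comp h⟩

theorem wallSol {D : Dat} {p : ℕ → Amb} {q : Amb} (hw : Wall D q) (hs : WSeq D p q) :
    Eqs D q.t q.X q.Y ∧ Dom D.m D.L₁ q.X q.z₁ ∧ Dom D.m D.L₂ q.Y q.z₂ ∧
      (¬ Adm D.L₁ (q.B₁ D) → Sparse D.L₁) ∧ (¬ Adm D.L₂ (q.B₂ D) → Sparse D.L₂) := by
  obtain ⟨lt, lX, lY, l₁, l₂⟩ := wallSol_lim hs.lim
  obtain ⟨k, hk, hk2⟩ := D.two₁
  have k1 : 1 ≤ k := Nat.pos_of_ne_zero fun h => D.z₁ (h ▸ hk)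
  obtain ⟨a1, a2, a3⟩ := wallSol_side D.hm D.z₁ (fun n => (hs.pos n).c₁) (fun n => (hs.pos n).px 0)
    lX l₁ hw.c₁ (hw.px 0) (hw.px 1) l₂ (fun n => (hs.pos n).c₂.pos.le) hw.c₂.pos hs.px hw.snd hw.b₁
    hs.b₁ (fun h n => (hs.pos n).b₁.2 h) lt hw.tpos.ne'
    ((lY 1).congr fun n => (hs.pos n).eqs.hy 1 le_rfl)
  obtain ⟨b1, b2, b3⟩ := wallSol_side D.hm D.z₂ (fun n => (hs.pos n).c₂)
    (fun n => poslB_y0 (hs.pos n)) lY l₂ hw.c₂ (hw.y0 ▸ one_pos) (hw.py 1 k hk k1) l₁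
    (fun n => (hs.pos n).c₁.pos.le) hw.c₁.pos hs.py (by rw [mul_comm]; exact hw.snd) hw.b₂
    hs.b₂ (fun _ n => (hs.pos n).b₂.2) lt hw.tpos.ne'
    ((lX 1).congr fun n => (hs.pos n).eqs.hx 1 le_rfl)
  refine ⟨⟨hw.y0, ?_, fun i hi => ?_, fun i hi => ?_⟩, a2, b2, a3, b3⟩
  · exact tendsto_nhds_unique ((lX 0).congr fun n => (hs.pos n).eqs.x0) (lt.add (lt.mul (b1 0)))
  · exact tendsto_nhds_unique ((lX i).congr fun n => (hs.pos n).eqs.hx i hi) (lt.mul (b1 i))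
  · exact tendsto_nhds_unique ((lY i).congr fun n => (hs.pos n).eqs.hy i hi) (lt.mul (a1 i))

theorem wallSol_geo {m : ℕ} (hm : 0 < m) {L : Set ℕ} (hL : 0 ∉ L) {f h : ℕ → ℕ → ℝ} {z t : ℕ → ℝ}
    {g : ℕ → ℝ} {w : ℝ} (hc : ∀ n, Crit m (f n) (z n))
    (hf : ∀ i, Tendsto (fun n => f n i) atTop (𝓝 (g i))) (hz : Tendsto z atTop (𝓝 w))
    (hc₀ : Crit m g w) (g0 : 0 < g 0) (ha : Adm L (Bv m g w)) (t0 : ∀ n, 0 < t n)
    (t1 : ∀ n, t n ≤ 1) (h0 : ∀ n, h n 0 = 1 ∨ h n 0 = t n + t n * sT m (ind ℝ L) (f n) 0)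
    (h1 : ∀ n, ∀ i : ℕ, 1 ≤ i → h n i = t n * sT m (ind ℝ L) (f n) i) :
    ∀ᶠ ρ in 𝓝[<] w, Maj m L (cx g) ρ ∧ PolyE h fun _ => ρ := by
  filter_upwards [wallSol_near hm hc₀ ha] with ρ ⟨r0, r1, r2, r3⟩
  obtain ⟨C, hC⟩ := (tail_unif hm hL (Eventually.of_forall hc) hf hz hc₀.nn g0 r0 r1 r2 r3).1
  refine ⟨maj_cx hc₀.nn r0 r2 r3, |C| + 1, hC.mono fun n hn i => ?_⟩
  have key : ∀ i : ℕ, t n * sT m (ind ℝ L) (f n) i ≤ |C| * ρ ^ i := fun i => by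
    have a1 := (hn i).trans (mul_le_mul_of_nonneg_right (le_abs_self C) (zpow_pos r0 i).le)
    rw [zpow_natCast] at a1
    exact (mul_le_mul_of_nonneg_left a1 (t0 n).le).trans
      (mul_le_of_le_one_left (by positivity) (t1 n))
  rcases Nat.eq_zero_or_pos i with rfl | hi
  · have a1 := key 0
    have a2 := t1 n
    have a3 := abs_nonneg C
    simp only [pow_zero, mul_one, Nat.cast_zero] at a1 ⊢
    rcases h0 n with a4 | a4 <;> rw [a4] <;> nlinarith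
  · rw [h1 n i hi]
    refine (key i).trans (mul_le_mul_of_nonneg_right ?_ (pow_pos r0 i).le)
    nlinarith [abs_nonneg C, sq_nonneg (i : ℝ), mul_nonneg (abs_nonneg C) (sq_nonneg (i : ℝ))]

theorem wall_geo {D : Dat} {p : ℕ → Amb} {q : Amb} (hw : Wall D q) (hs : WSeq D p q) :
    (Adm D.L₁ (q.B₁ D) → ∀ᶠ ρ in 𝓝[<] q.z₁, Maj D.m D.L₁ q.cX ρ ∧
      PolyE (fun n => (p n).Y) fun _ => ρ) ∧
    (Adm D.L₂ (q.B₂ D) → ∀ᶠ ρ in 𝓝[<] q.z₂, Maj D.m D.L₂ q.cY ρ ∧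
      PolyE (fun n => (p n).X) fun _ => ρ) := by
  obtain ⟨-, lX, lY, l₁, l₂⟩ := wallSol_lim hs.lim
  exact ⟨fun ha => wallSol_geo D.hm D.z₁ (fun n => (hs.pos n).c₁) lX l₁ hw.c₁ (hw.px 0) ha
      (fun n => (hs.pos n).tpos) (fun n => (hs.pos n).t_le) (fun n => Or.inl (hs.pos n).eqs.y0)
      fun n => (hs.pos n).eqs.hy,
    fun ha => wallSol_geo D.hm D.z₂ (fun n => (hs.pos n).c₂) lY l₂ hw.c₂ (hw.y0 ▸ one_pos) ha
      (fun n => (hs.pos n).tpos) (fun n => (hs.pos n).t_le) (fun n => Or.inr (hs.pos n).eqs.x0)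
      fun n => (hs.pos n).eqs.hx⟩

end Pool.Agent.MP_098ecc_co.H97
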