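import Pool.Agent.MP_098ecc_co.H97.Wend
import Pool.Agent.MP_098ecc_co.H97.IsoA
import Pool.Agent.MP_098ecc_co.H97.WallSol
import Pool.Agent.MP_098ecc_co.H97.PrimApp
import Pool.Agent.MP_098ecc_co.H97.End1

set_option autoImplicit false

namespace Pool.Agent.MP_098ecc_co.H97

open Metric Filter Topology Set Function
open scoped BoundedContinuousFunction

variable {D : Dat} {P : Polynomial (Polynomial ℚ)} {δ : Polynomial ℚ} {p : ℕ → Amb}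

theorem a1_lims {q : Amb} (h : Tendsto p atTop (𝓝 q)) :
    Tendsto (fun n => (p n).t) atTop (𝓝 q.t) ∧
    (∀ i, Tendsto (fun n => (p n).X i) atTop (𝓝 (q.X i))) ∧
    (∀ i, Tendsto (fun n => (p n).Y i) atTop (𝓝 (q.Y i))) ∧
    Tendsto (fun n => (p n).z₁) atTop (𝓝 q.z₁) ∧ Tendsto (fun n => (p n).z₂) atTop (𝓝 q.z₂) := by
  refine ⟨(continuous_fst.tendsto q).comp h, fun i => ?_, fun i => ?_, ?_, ?_⟩
  · exact (Continuous.tendsto (f := fun q : Amb => q.X i) (by fun_prop) q).comp h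
  · exact (Continuous.tendsto (f := fun q : Amb => q.Y i) (by fun_prop) q).comp h
  · exact (Continuous.tendsto (f := fun q : Amb => q.z₁) (by fun_prop) q).comp h
  · exact (Continuous.tendsto (f := fun q : Amb => q.z₂) (by fun_prop) q).comp h

theorem a1_aper_of_one {S : Set ℕ} (h : 1 ∈ S) : Aper S := fun g hg => Nat.dvd_one.1 (hg 1 h)

theorem a1_aper_of_two {S : Set ℕ} {k : ℕ} (h : k ∈ S) (h' : k + 1 ∈ S) : Aper S := fun g hg =>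
  Nat.dvd_one.1 ((Nat.dvd_add_right (hg k h)).1 (hg _ h'))

theorem a1_y1 {q : Amb} (hw : Wall D q) : 0 < q.Y 1 := by
  obtain ⟨l, hl, h2⟩ := D.two₁
  refine hw.py 1 l hl (Nat.one_le_iff_ne_zero.2 ?_)
  rintro rfl
  simp at h2

theorem a1_aperX {q : Amb} (hw : Wall D q) : Aper {i | 0 < q.X i ∧ 2 ≤ D.m * i} := by
  have := D.hm
  exact a1_aper_of_two (k := 2) ⟨hw.px _, by nlinarith⟩ ⟨hw.px _, by nlinarith⟩

theorem a1_aperY {q : Amb} (hw : Wall D q) (h : ¬ (D.m = 1 ∧ ∀ l ∈ D.L₁, l ≤ 2)) :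
    Aper {i | 0 < q.Y i ∧ 2 ≤ D.m * i} := by
  have := D.hm
  by_cases hm : D.m = 1
  · have h' : ¬ ∀ l ∈ D.L₁, l ≤ 2 := fun h' => h ⟨hm, h'⟩
    push Not at h'
    obtain ⟨l, hl, h3⟩ := h'
    exact a1_aper_of_two (k := 2) ⟨hw.py _ l hl h3.le, by omega⟩ ⟨hw.py _ l hl h3, by omega⟩
  · exact a1_aper_of_one ⟨a1_y1 hw, by omega⟩

/-- the base sequences converge beyond their critical points -/
theorem a1_bnd {q : Amb} (hw : Wall D q) (hs : WSeq D p q) :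
    (∃ R, q.z₁ < R ∧ Bnd R q.cX) ∧ ∃ R, q.z₂ < R ∧ Bnd R q.cY := by
  obtain ⟨-, lX, lY, l1, l2⟩ := a1_lims hs.lim
  have p1 := hw.c₁.pos
  have p2 := hw.c₂.pos
  constructor
  · obtain ⟨R, h1, h2⟩ := exists_between (show q.z₁ < q.z₂⁻¹ by
      rw [← one_div, lt_div_iff₀ p2]; exact hw.snd)
    obtain ⟨u, u₀, h, -, -⟩ := bs_conv (fun n i => (hs.pos n).c₁.nn i) lX l2
      (fun n => (hs.pos n).c₂.pos.le) hs.px (p1.trans h1)
      (by rwa [← one_div, lt_div_iff₀ p2] at h2)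
    exact ⟨R, h1, show Bnd R (cx q.X) from h ▸ bnd_un R (p1.trans h1) u₀⟩
  · obtain ⟨R, h1, h2⟩ := exists_between (show q.z₂ < q.z₁⁻¹ by
      rw [← one_div, lt_div_iff₀ p1, mul_comm]; exact hw.snd)
    obtain ⟨u, u₀, h, -, -⟩ := bs_conv (fun n i => (hs.pos n).c₂.nn i) lY l1
      (fun n => (hs.pos n).c₁.pos.le) hs.py (p2.trans h1)
      (by rwa [← one_div, lt_div_iff₀ p1] at h2)
    exact ⟨R, h1, show Bnd R (cx q.Y) from h ▸ bnd_un R (p2.trans h1) u₀⟩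

/-- in the special case the critical point is larger than two -/
theorem a1_two {q : Amb} (hw : Wall D q) (he : Eqs D q.t q.X q.Y) (hm : D.m = 1)
    (hL : ∀ l ∈ D.L₁, l ≤ 2) (hB : q.B₂ D = 1) : 2 < q.z₂ := by
  have p2 := hw.c₂.pos
  have h3 : ∀ i, i ∉ Finset.range 3 → q.Y i = 0 := by
    intro i hi
    simp only [Finset.mem_range, not_lt] at hi
    rw [he.hy i (by omega), sT]
    have : ∀ l, ind ℝ D.L₁ l * cf q.X (D.m * l - 1) (l - (i : ℕ)) = 0 := by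
      intro l
      by_cases hl : l ∈ D.L₁
      · have := hL l hl
        rw [cf, if_neg (by omega), mul_zero]
      · simp [ind, hl]
    simp [this]
  have hc := hw.c₂.crit
  have e1 : ∑ i ∈ Finset.range 3, flat D.m q.Y i * q.z₂ ^ i = 0 :=
    (hasSum_sum_of_ne_finset_zero fun i hi => by simp [flat, h3 i hi]).unique hc
  have e2 : ser q.Y q.z₂ = ∑ i ∈ Finset.range 3, q.Y i * q.z₂ ^ i :=
    tsum_eq_sum fun i hi => by simp [h3 i hi]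
  have hB' : ser q.Y q.z₂ = q.z₂ := by
    have : ser q.Y q.z₂ ^ D.m / q.z₂ = 1 := hB
    rwa [hm, pow_one, div_eq_one_iff_eq p2.ne'] at this
  simp only [Finset.sum_range_succ, Finset.sum_range_zero, flat, hm, hw.y0] at e1 e2
  have y1 := a1_y1 hw
  push_cast at e1
  nlinarith [mul_pos y1 p2]

theorem caseA1 (hB : Bez P δ) {q : Amb} (hw : Wall D q) (hs : WSeq D p q)
    (hg : ∀ n, Good D P (p n)) (hδ : ∀ n, Polynomial.aeval ((p n).t : ℂ) δ ≠ 0)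
    (a₁ : Adm D.L₁ (q.B₁ D)) : H85.EvPer D.L₂ := by
  by_contra hn
  have a₂ : ¬ Adm D.L₂ (q.B₂ D) := fun h => hw.exit ⟨a₁, h⟩
  have hB2 : q.B₂ D = 1 := hw.b₂.resolve_left a₂
  obtain ⟨he, d₁, d₂, -, sp⟩ := wallSol hw hs
  replace sp := sp a₂
  obtain ⟨lt, lX, lY, l1, l2⟩ := a1_lims hs.lim
  have p1 := hw.c₁.pos
  have p2 := hw.c₂.pos
  have hm := D.hm
  have y0 : 0 < q.Y 0 := by rw [hw.y0]; exact one_pos
  have z21 : q.z₂ < q.z₁⁻¹ := by rw [← one_div, lt_div_iff₀ p1, mul_comm]; exact hw.snd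
  obtain ⟨⟨R₁, hR₁, bX⟩, R₂, hR₂, bY⟩ := a1_bnd hw hs
  -- radii
  obtain ⟨ρ, ⟨hMaj, hPY⟩, hρ⟩ := (((wall_geo hw hs).1 a₁).and self_mem_nhdsWithin).exists
  have hρ0 : 0 < ρ := hMaj.1
  replace hρ : ρ < q.z₁ := hρ
  obtain ⟨RY, hY1, hY2⟩ := exists_between (inv_strictAnti₀ hρ0 hρ)
  have RY0 : 0 < RY := (inv_pos.2 p1).trans hY1
  obtain ⟨ρ₂, h21, h22, hZ₂⟩ : ∃ ρ₂, q.z₂ < ρ₂ ∧ ρ₂ < q.z₁⁻¹ ∧
      (¬ (D.m = 1 ∧ ∀ l ∈ D.L₁, l ≤ 2) → ZF D.m q.Y q.z₂ ρ₂) := by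
    by_cases h : D.m = 1 ∧ ∀ l ∈ D.L₁, l ≤ 2
    · obtain ⟨r, h1, h2⟩ := exists_between z21
      exact ⟨r, h1, h2, fun h' => absurd h h'⟩
    · obtain ⟨r, h1, h2⟩ := ((zero1a hm hw.c₂ y0 (a1_aperY hw h) bY hR₂).and
        (Ioo_mem_nhdsGT z21)).exists
      exact ⟨r, h2.1, h2.2, fun _ => h1⟩
  have ρ20 : 0 < ρ₂ := p2.trans h21
  have z1ρ : q.z₁ < ρ₂⁻¹ := by rwa [lt_inv_comm₀ p1 ρ20]
  obtain ⟨RX, hX1, hX2⟩ := exists_between (inv_strictAnti₀ p2 h21)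
  have RX0 : 0 < RX := (inv_pos.2 ρ20).trans hX1
  obtain ⟨ρ₁, hZ₁, h11⟩ := ((zero1a hm hw.c₁ (hw.px 0) (a1_aperX hw) bX hR₁).and
    (Ioo_mem_nhdsGT z1ρ)).exists
  have iY : RY⁻¹ < q.z₁ := by rwa [inv_lt_comm₀ RY0 p1]
  have iX : RX⁻¹ < ρ₂ := by rwa [inv_lt_comm₀ RX0 ρ20]
  have zX : q.z₂ < RX⁻¹ := by rwa [lt_inv_comm₀ p2 RX0]
  have z1X : q.z₁ < RX := z1ρ.trans hX1
  have XY : RX⁻¹ < RY := iX.trans (h22.trans hY1)
  -- sequences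
  obtain ⟨u, u₀, hu₀, hu, lu⟩ := bs_conv (fun n i => (hs.pos n).c₁.nn i) lX l2
    (fun n => (hs.pos n).c₂.pos.le) hs.px RX0 (by rwa [← one_div, lt_div_iff₀ p2] at hX2)
  obtain ⟨v, v₀, hv₀, hv, lv⟩ := bs_conv (fun n i => (hs.pos n).c₂.nn i) lY tendsto_const_nhds
    (fun _ => hρ0.le) hPY RY0 (by rwa [← one_div, lt_div_iff₀ hρ0] at hY2)
  -- sides
  obtain ⟨S₁, s₁, pl₁, e1, e2, e3, e4, e5, m₁, re₁⟩ := plain Unit hm D.z₁ 1 0 (hρ.trans z1X)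
    (by rwa [lt_inv_comm₀ hρ0 RY0]) (iY.trans z1X) (q.t : ℂ) u₀ (hu₀ ▸ hMaj) (Or.inl rfl)
  obtain ⟨S₂, w, w₀, s₂, ha₂, f1, f2, f3, f5, m₂, lw, hc₂, hβ, hv₂, -, -, re₂⟩ :=
    hardPack (κ := Unit) () hm D.z₂ (M := 1) le_rfl XY zX (fun n => (hs.pos n).c₂)
      (fun n => by rw [(hs.pos n).eqs.y0]; exact one_pos) hw.c₂ y0
      (a1_aper_of_one (a1_y1 hw)) l2 hv₀ hv lv (fun n => (hs.pos n).b₂.2) (hB2 ▸ hs.b₂) lt
      (y := q.X 1) ((lX 1).congr fun n => by rw [pow_one]; exact (hs.pos n).eqs.hx 1 le_rfl)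
  have hc : Compat D.m S₁ S₂ :=
    ⟨hm, s₁, s₂, by rw [e1, f2], by rw [e2, f1], by rw [e3], by rw [e3, e4, f3], ha₂.hk,
      fun i => by simp [pl₁.hI, ha₂.hI]⟩
  have ltc : Tendsto (fun n => (((p n).t : ℝ) : ℂ)) atTop (𝓝 (q.t : ℂ)) :=
    (Complex.continuous_ofReal.tendsto _).comp lt
  obtain ⟨N, sq⟩ := seqD_shift (S₁ := S₁) (S₂ := S₂) (D := D) (τ₀ := q.t)
    (e₀ := ((), w₀, u₀, v₀)) (p := p) (τ := fun n => (p n).t)
    (e := fun n => ((), w n, u n, v n)) e5 f5 m₁ m₂ hs.pos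
    (fun n => ⟨(hs.pos n).tpos, by rw [e3, pow_one]⟩)
    (by filter_upwards [hu] with n h; rw [e1, e4, pow_zero, one_smul]; exact h)
    (by filter_upwards [hv] with n h; rw [f1]; exact h)
    (by
      filter_upwards [(ltc.prodMk_nhds (tendsto_const_nhds.prodMk_nhds lu)).eventually
        (s₁.op.mem_nhds m₁)] with n h
      exact re₁ _ _ _ _ h (by exact_mod_cast (hs.pos n).tpos.ne'))
    re₂
    (ltc.prodMk_nhds (tendsto_const_nhds.prodMk_nhds (lw.prodMk_nhds (lu.prodMk_nhds lv))))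
    (by
      refine tendsto_pi_nhds.2 fun i => ?_
      simp only [bOf, ha₂.hI, Finset.mem_singleton, if_true, Pi.one_apply]
      have := (Complex.continuous_ofReal.tendsto _).comp hs.b₂
      rw [hB2] at this
      exact_mod_cast this)
    (by
      filter_upwards [l1.eventually_lt_const z1X, l2.eventually_lt_const (z21.trans hY1),
        l2.eventually_lt_const zX] with n h1 h2 h3
      rw [e1, f1]
      refine ⟨h1, h2, Or.inl ?_⟩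
      rw [← one_div, lt_div_iff₀ RX0] at h3
      linarith)
    (fun i i' h => absurd rfl h)
  have iso : IsoHyp S₁ S₂ q.t ((), w₀, u₀, v₀) := by
    by_cases h : D.m = 1 ∧ ∀ l ∈ D.L₁, l ≤ 2
    · obtain ⟨l, hl, h2⟩ := D.two₁
      have hl2 : l = 2 := by have := h.2 l hl; rw [h.1] at h2; omega
      rw [h.1] at hc pl₁ ha₂
      exact isoS hw.tpos.ne' (a1_two hw he h.1 h.2 hB2) hc pl₁ ha₂ e3 e4 (by rw [e5, ← hl2]; exact hl)
        (by rw [e5]; exact h.2) (by rw [f5]; exact sp) m₂ hc₂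
    · exact isoA hw hc (by rw [e1]; exact hu₀) (by rw [f1]; exact hv₀)
        (primApp hw he d₁ d₂ hn fun _ => a₁) hZ₁ (hZ₂ h) (by rw [e1]; exact h11.2.trans hX1)
        (by rw [f1]; exact h22.trans hY1) (by rw [f1]; exact iY.trans h11.1)
        (by rw [e1]; exact iX) (Or.inr (by rw [f1]; exact iY)) (Or.inl ⟨(), ha₂⟩)
  obtain ⟨i, hi⟩ := wendA endThm_unit hB hc sq (fun n => hg _) (fun n => hδ _)
    (fun i hi => by simp [pl₁.hI] at hi)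
    (fun i _ => ⟨hβ, hv₂, fun r₀ h1 h2 => by
      rw [f2] at h1
      rw [f1] at h2
      show ∃ r : ℝ, 0 < r ∧ zv r₀ (un S₂.Rin v₀) (un S₂.Rout u₀) (S₂.c (q.t, w₀, v₀)) = r
      rw [f1, f2, hu₀, hv₀, hc₂]
      exact zv_pos RX0 h1 h2 (hv₀ ▸ bnd_un RY RY0 v₀) (hu₀ ▸ bnd_un RX RX0 u₀) hw.c₂.nn hw.c₁.nn
        (a1_y1 hw) (hw.px 0) p2 (zX.trans h1)⟩)
    (by exact_mod_cast hw.tpos.ne') (fun i => by simpa [cL, ha₂.hI, f5] using sp) iso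
  exact hn (by simpa [cL, ha₂.hI, f5] using hi)

end Pool.Agent.MP_098ecc_co.H97
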