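import Pool.Agent.MP_098ecc_co.H97.Sat

set_option autoImplicit false

namespace Pool.Agent.MP_098ecc_co.H97

open Metric Filter Topology Set Function
open scoped BoundedContinuousFunction

theorem satpar_conn (c : ℂ) {ε : ℝ} (hε : 0 < ε) : IsPreconnected (ball c ε \ {c}) := by
  have : ball c ε \ {c} = (fun z => c + Complex.exp z) '' {z : ℂ | z.re < Real.log ε} := by
    ext w
    simp only [Set.mem_sdiff, mem_ball, mem_singleton_iff, mem_image, mem_ofPred_eq, dist_eq_norm]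
    constructor
    · rintro ⟨h1, h2⟩
      have h3 : w - c ≠ 0 := sub_ne_zero.2 h2
      refine ⟨Complex.log (w - c), ?_, by rw [Complex.exp_log h3]; ring⟩
      rw [Complex.log_re]
      exact Real.log_lt_log (norm_pos_iff.2 h3) h1
    · rintro ⟨z, hz, rfl⟩
      refine ⟨?_, fun h => Complex.exp_ne_zero z (add_eq_left.1 h)⟩
      rw [add_sub_cancel_left, Complex.norm_exp]
      exact (Real.lt_log_iff_exp_lt hε).1 hz
  rw [this]
  exact ((convex_halfSpace_re_lt _).isPreconnected).image _ (by fun_prop)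

theorem satpar_par {α : Type} {S : Set α} (hS : S.Finite) (c : α → α) (hc : ∀ v, c (c v) = v)
    (hm : ∀ v ∈ S, c v ∈ S) : {v | c v = v ∧ v ∈ S}.ncard % 2 = S.ncard % 2 := by
  classical
  lift S to Finset α using hS
  have e : {v | c v = v ∧ v ∈ (S : Set α)} = ((S.filter fun v => c v = v : Finset α) : Set α) := by
    ext v; simp [and_comm]
  rw [e, ncard_coe_finset, ncard_coe_finset]
  have h1 := Finset.card_filter_add_card_filter_not (s := S) (fun v => c v = v)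
  have h2 : ∑ _v ∈ S.filter (fun v => ¬ c v = v), (1 : ZMod 2) = 0 := by
    refine Finset.sum_involution (fun v _ => c v) (fun _ _ => by decide) ?_ ?_ (fun v _ => hc v)
    · intro v hv _
      exact (Finset.mem_filter.1 hv).2
    · intro v hv
      rw [Finset.mem_filter] at hv ⊢
      refine ⟨hm v hv.1, fun h => hv.2 ?_⟩
      rw [hc] at h
      exact h.symm
  rw [Finset.sum_const, nsmul_eq_mul, mul_one, ZMod.natCast_eq_zero_iff] at h2
  omega

theorem satpar_an {f : ℂ → ℂ} {t₁ : ℂ} (hf : AnalyticAt ℂ f t₁) :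
    ∀ᶠ t in 𝓝 t₁, ((∀ᶠ s in 𝓝 t, f s = 0) ↔ ∀ᶠ s in 𝓝 t₁, f s = 0) := by
  by_cases h : ∀ᶠ s in 𝓝 t₁, f s = 0
  · filter_upwards [eventually_eventually_nhds.2 h] with t ht
    exact ⟨fun _ => h, fun _ => ht⟩
  · have h2 := hf.eventually_eq_zero_or_eventually_ne_zero.resolve_left h
    rw [eventually_nhdsWithin_iff] at h2
    filter_upwards [h2] with t ht
    refine ⟨fun h3 => ?_, fun h3 => absurd h3 h⟩
    by_cases e : t = t₁
    · exact e ▸ h3
    · exact absurd h3.self_of_nhds (ht e)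

section Main
variable {V : Type} [NormedAddCommGroup V] [NormedSpace ℂ V] [FiniteDimensional ℂ V]

theorem satpar_good {F : ℂ × V → V} {Θ : ℂ × V → ℂ} {φ : ℂ → V} {t : ℂ} (hφ : ContinuousAt φ t)
    (h : ∀ᶠ y in 𝓝 (t, φ t), (F y = 0 ↔ φ y.1 = y.2)) :
    (∀ᶠ q in 𝓝 (t, φ t), F q = 0 → Θ q = 0) ↔ ∀ᶠ s in 𝓝 t, Θ (s, φ s) = 0 := by
  have hg : Tendsto (fun s => (s, φ s)) (𝓝 t) (𝓝 (t, φ t)) := continuousAt_id.prodMk hφ
  constructor
  · intro h1
    filter_upwards [hg.eventually h1, hg.eventually h] with s h2 h3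
    exact h2 (h3.2 rfl)
  · intro h1
    have hf : Tendsto (Prod.fst : ℂ × V → ℂ) (𝓝 (t, φ t)) (𝓝 t) := continuousAt_fst
    filter_upwards [hf.eventually h1, h] with q h2 h3 h4
    rw [h3.1 h4] at h2
    exact h2

theorem satpar_fd {U : Set (ℂ × V)} (hU : IsOpen U) {F : ℂ × V → V} (hF : DifferentiableOn ℂ F U)
    {q : ℂ × V} (hq : q ∈ U) : HasFDerivAt (fun v => F (q.1, v))
      ((fderiv ℂ F q).comp (ContinuousLinearMap.inr ℂ ℂ V)) q.2 :=
  (hF.differentiableAt (hU.mem_nhds hq)).hasFDerivAt.comp q.2 (hasFDerivAt_prodMk_right q.1 q.2)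

theorem satpar_inj (A : V →L[ℂ] V) : Injective A ↔ A.det ≠ 0 := by
  have h := LinearMap.det_eq_zero_iff_ker_ne_bot (f := (A : V →ₗ[ℂ] V))
  rw [ContinuousLinearMap.det, Ne, h, not_not, LinearMap.ker_eq_bot]
  rfl

theorem satpar_det {U : Set (ℂ × V)} (hU : IsOpen U) {F : ℂ × V → V}
    (hF : DifferentiableOn ℂ F U) :
    DifferentiableOn ℂ (fun q : ℂ × V => (fderiv ℂ (fun v => F (q.1, v)) q.2).det) U := by
  have : CompleteSpace V := FiniteDimensional.complete ℂ V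
  have h1 : DifferentiableOn ℂ
      (fun q : ℂ × V => (fderiv ℂ F q).comp (ContinuousLinearMap.inr ℂ ℂ V)) U :=
    (hol_fderiv hU hF).clm_comp (differentiableOn_const _)
  refine ((exists_adj V).1.comp_differentiableOn h1).congr fun q hq => ?_
  simp only [Function.comp]
  rw [(satpar_fd hU hF hq).fderiv]

theorem satpar_ift {U : Set (ℂ × V)} (hU : IsOpen U) {F : ℂ × V → V} (hF : DifferentiableOn ℂ F U)
    {x : ℂ × V} (hx : x ∈ U) (h0 : F x = 0)
    (hi : Injective (fderiv ℂ (fun v => F (x.1, v)) x.2)) :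
    ∃ φ : ℂ → V, AnalyticAt ℂ φ x.1 ∧ φ x.1 = x.2 ∧ ∀ᶠ y in 𝓝 x, (F y = 0 ↔ φ y.1 = y.2) := by
  have : CompleteSpace V := FiniteDimensional.complete ℂ V
  rw [(satpar_fd hU hF hx).fderiv] at hi
  have hc : ContDiffAt ℂ 1 F x := (hol_contDiffOn hU hF 1).contDiffAt (hU.mem_nhds hx)
  have hinv : ((fderiv ℂ F x).comp (ContinuousLinearMap.inr ℂ ℂ V)).IsInvertible := by
    set A := (fderiv ℂ F x).comp (ContinuousLinearMap.inr ℂ ℂ V)
    have hs : Surjective (A : V →ₗ[ℂ] V) := LinearMap.injective_iff_surjective.1 hi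
    exact ⟨(LinearEquiv.ofBijective (A : V →ₗ[ℂ] V) ⟨hi, hs⟩).toContinuousLinearEquiv, by
      ext v; rfl⟩
  refine ⟨hc.implicitFunction one_ne_zero hinv, ?_, hc.implicitFunction_apply_self _ _, ?_⟩
  · rw [Complex.analyticAt_iff_eventually_differentiableAt]
    filter_upwards [(hc.contDiffAt_implicitFunction one_ne_zero hinv).eventually (by simp)]
      with s hs
    exact hs.differentiableAt one_ne_zero
  · simpa [h0] using hc.eventually_apply_eq_iff_implicitFunction one_ne_zero hinv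

/-- regular zeros persist along the implicit function -/
theorem satpar_reg {U : Set (ℂ × V)} (hU : IsOpen U) {F : ℂ × V → V} (hF : DifferentiableOn ℂ F U)
    {φ : ℂ → V} {t : ℂ} (hx : (t, φ t) ∈ U) (hφ : ContinuousAt φ t)
    (h : ∀ᶠ y in 𝓝 (t, φ t), (F y = 0 ↔ φ y.1 = y.2))
    (hi : Injective (fderiv ℂ (fun v => F (t, v)) (φ t))) :
    ∀ᶠ s in 𝓝 t, (s, φ s) ∈ U ∧ F (s, φ s) = 0 ∧
      Injective (fderiv ℂ (fun v => F (s, v)) (φ s)) ∧
      ∀ᶠ y in 𝓝 (s, φ s), (F y = 0 ↔ φ y.1 = y.2) := by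
  have hg : Tendsto (fun s => (s, φ s)) (𝓝 t) (𝓝 (t, φ t)) := continuousAt_id.prodMk hφ
  have hd := ((satpar_det hU hF).continuousOn.continuousAt (hU.mem_nhds hx)).eventually_ne
    ((satpar_inj _).1 hi)
  filter_upwards [hg.eventually (hU.mem_nhds hx), hg.eventually h, hg.eventually hd,
    hg.eventually (eventually_eventually_nhds.2 h)] with s h1 h2 h3 h4
  exact ⟨h1, h2.2 rfl, (satpar_inj _).2 h3, h4⟩

/-- the number of good points is locally constant where the closure has regular points only -/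
theorem satpar_loc {U : Set (ℂ × V)} (hU : IsOpen U) {F : ℂ × V → V} (hF : DifferentiableOn ℂ F U)
    {Θ : ℂ × V → ℂ} (hΘ : DifferentiableOn ℂ Θ U) {v₀ : V} {ρ : ℝ} {t₁ : ℂ} {A : Set (ℂ × V)}
    (hA : A = {q | q ∈ U ∧ F q = 0 ∧ Injective (fderiv ℂ (fun v => F (q.1, v)) q.2)})
    {G : ℂ → Set V} (hG : ∀ t, G t = {v | v ∈ ball v₀ ρ ∧ F (t, v) = 0 ∧
      Injective (fderiv ℂ (fun v => F (t, v)) v) ∧ ∀ᶠ q in 𝓝 (t, v), F q = 0 → Θ q = 0})
    (h1 : ∀ v ∈ closedBall v₀ ρ, (t₁, v) ∈ U)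
    (h2 : ∀ v ∈ closedBall v₀ ρ, (t₁, v) ∈ closure A → v ∈ ball v₀ ρ ∧ (t₁, v) ∈ A) :
    (G t₁).Finite ∧ ∀ᶠ t in 𝓝 t₁, (G t).ncard = (G t₁).ncard := by
  have : ProperSpace V := FiniteDimensional.proper ℂ V
  set S : Set V := {v | v ∈ closedBall v₀ ρ ∧ (t₁, v) ∈ closure A} with hS
  have hSA : ∀ v ∈ S, (t₁, v) ∈ U ∧ F (t₁, v) = 0 ∧
      Injective (fderiv ℂ (fun w => F (t₁, w)) v) := fun v hv => by
    have := (h2 v hv.1 hv.2).2
    rw [hA] at this
    exact this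
  have hex : ∀ v ∈ S, ∃ φ : ℂ → V, AnalyticAt ℂ φ t₁ ∧ φ t₁ = v ∧
      ∀ᶠ y in 𝓝 (t₁, v), (F y = 0 ↔ φ y.1 = y.2) := fun v hv =>
    satpar_ift hU hF (hSA v hv).1 (hSA v hv).2.1 (hSA v hv).2.2
  choose! φ hφa hφ0 hφe using hex
  have hSc : IsCompact S := by
    refine (isCompact_closedBall v₀ ρ).inter_right (t := {v | (t₁, v) ∈ closure A}) ?_
    exact isClosed_closure.preimage (by fun_prop)
  have hSf : S.Finite := by
    obtain ⟨T, hT, hcov⟩ := hSc.elim_nhds_subcover (fun v => {w | w ∈ S → w = v}) (fun v hv => by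
      have hg : Tendsto (fun w => (t₁, w)) (𝓝 v) (𝓝 (t₁, v)) :=
        (continuousAt_const.prodMk continuousAt_id : ContinuousAt (fun w : V => (t₁, w)) v)
      filter_upwards [hg.eventually (hφe v hv)] with w hw hwS
      rw [← hw.1 (hSA w hwS).2.1]
      exact hφ0 v hv)
    refine T.finite_toSet.subset fun w hw => ?_
    obtain ⟨v, hv, hwv⟩ := mem_iUnion₂.1 (hcov hw)
    rw [hwv hw]
    exact hv
  have hGS : G t₁ ⊆ S := by
    intro v hv
    rw [hG] at hv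
    refine ⟨ball_subset_closedBall hv.1, subset_closure ?_⟩
    rw [hA]
    exact ⟨h1 v (ball_subset_closedBall hv.1), hv.2.1, hv.2.2.1⟩
  refine ⟨hSf.subset hGS, ?_⟩
  have e1 : ∀ᶠ t in 𝓝 t₁, ∀ v ∈ closedBall v₀ ρ,
      (t, v) ∈ U ∧ ((t, v) ∈ A → ∃ w ∈ S, φ w t = v) := by
    refine (isCompact_closedBall v₀ ρ).eventually_forall_of_forall_eventually
      (P := fun t v => (t, v) ∈ U ∧ ((t, v) ∈ A → ∃ w ∈ S, φ w t = v)) fun v hv => ?_
    by_cases hc : (t₁, v) ∈ closure A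
    · filter_upwards [hU.mem_nhds (h1 v hv), hφe v ⟨hv, hc⟩] with q hq1 hq2
      refine ⟨hq1, fun hq => ⟨v, ⟨hv, hc⟩, hq2.1 ?_⟩⟩
      rw [hA] at hq
      exact hq.2.1
    · filter_upwards [hU.mem_nhds (h1 v hv), isClosed_closure.isOpen_compl.mem_nhds hc]
        with q hq1 hq2
      exact ⟨hq1, fun hq => absurd (subset_closure hq) hq2⟩
  have e2 : ∀ᶠ t in 𝓝 t₁, ∀ v ∈ S, ∀ w ∈ S, φ v t = φ w t → v = w := by
    refine (eventually_all_finite hSf).2 fun v hv => (eventually_all_finite hSf).2 fun w hw => ?_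
    by_cases e : v = w
    · exact Eventually.of_forall fun _ _ => e
    · have hc : ContinuousAt (fun t => φ v t - φ w t) t₁ :=
        (hφa v hv).continuousAt.sub (hφa w hw).continuousAt
      have hne : (fun t => φ v t - φ w t) t₁ ≠ 0 := by
        simp only [hφ0 v hv, hφ0 w hw]
        exact sub_ne_zero.2 e
      filter_upwards [hc.eventually_ne hne] with t ht h
      exact absurd (sub_eq_zero.2 h) ht
  have e3 : ∀ᶠ t in 𝓝 t₁, ∀ v ∈ S, (φ v t ∈ G t ↔ v ∈ G t₁) := by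
    refine (eventually_all_finite hSf).2 fun v hv => ?_
    have h0 := hφ0 v hv
    have he : ∀ᶠ y in 𝓝 (t₁, φ v t₁), (F y = 0 ↔ φ v y.1 = y.2) := by rw [h0]; exact hφe v hv
    have hc := (hφa v hv).continuousAt
    have hxU : (t₁, φ v t₁) ∈ U := by rw [h0]; exact (hSA v hv).1
    have hr := satpar_reg hU hF hxU hc he (by rw [h0]; exact (hSA v hv).2.2)
    have hb : ∀ᶠ t in 𝓝 t₁, φ v t ∈ ball v₀ ρ :=
      hc.eventually (isOpen_ball.mem_nhds (by rw [h0]; exact (h2 v hv.1 hv.2).1))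
    have han : AnalyticAt ℂ (fun s => Θ (s, φ v s)) t₁ := by
      rw [Complex.analyticAt_iff_eventually_differentiableAt]
      filter_upwards [hr, (hφa v hv).eventually_analyticAt] with s hs hs2
      exact (hΘ.differentiableAt (hU.mem_nhds hs.1)).comp s
        (differentiableAt_id.prodMk hs2.differentiableAt)
    have g1 := satpar_good (Θ := Θ) hc he
    rw [h0] at g1
    filter_upwards [hr, hb, satpar_an han, (hφa v hv).eventually_analyticAt] with t ht hbt hat hct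
    have g2 := satpar_good (Θ := Θ) hct.continuousAt ht.2.2.2
    rw [hG, hG]
    constructor
    · intro h
      exact ⟨(h2 v hv.1 hv.2).1, (hSA v hv).2.1, (hSA v hv).2.2, g1.2 (hat.1 (g2.1 h.2.2.2))⟩
    · intro h
      exact ⟨hbt, ht.2.1, ht.2.2.1, g2.2 (hat.2 (g1.1 h.2.2.2))⟩
  filter_upwards [e1, e2, e3] with t t1 t2 t3
  have e : G t = (fun v => φ v t) '' G t₁ := by
    ext v
    constructor
    · intro hv
      have hv' := hv
      rw [hG] at hv'
      obtain ⟨u1, u2⟩ := t1 v (ball_subset_closedBall hv'.1)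
      obtain ⟨w, hw, e⟩ := u2 (by rw [hA]; exact ⟨u1, hv'.2.1, hv'.2.2.1⟩)
      exact ⟨w, (t3 w hw).1 (e ▸ hv), e⟩
    · rintro ⟨w, hw, rfl⟩
      exact (t3 w (hGS hw)).2 hw
  rw [e]
  exact InjOn.ncard_image fun v hv w hw h => t2 v (hGS hv) w (hGS hw) h

/-- the punctured statement from saturation -/
theorem satpar_sat {U : Set (ℂ × V)} (hU : IsOpen U) {F : ℂ × V → V} (hF : DifferentiableOn ℂ F U)
    {x₀ : ℂ × V} (hm : x₀ ∈ U) {A : Set (ℂ × V)}
    (hA : A = {q | q ∈ U ∧ F q = 0 ∧ Injective (fderiv ℂ (fun v => F (q.1, v)) q.2)}) :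
    ∀ᶠ q in 𝓝 x₀, q ≠ x₀ → q ∈ closure A → q ∈ A ∧ q.1 ≠ x₀.1 := by
  set g : ℂ × V → ℂ := fun q => (fderiv ℂ (fun v => F (q.1, v)) q.2).det * (q.1 - x₀.1) with hg
  have hgd : DifferentiableOn ℂ g U :=
    (satpar_det hU hF).mul (differentiableOn_fst.sub (differentiableOn_const _))
  have hs := sat hU hF hgd hm (fun x hx h0 hne => by
    obtain ⟨φ, ha, h1, he⟩ := satpar_ift hU hF hx h0 ((satpar_inj _).2 (left_ne_zero_of_mul hne))
    refine ⟨fun s => (x.1 + s, φ (x.1 + s)), ?_, fun ε hε => ?_⟩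
    · refine (contDiffAt_const.add contDiffAt_id).prodMk ?_
      have : ContDiffAt ℂ 1 φ (x.1 + 0) := by rw [add_zero]; exact ha.contDiffAt
      exact this.comp 0 (contDiffAt_const.add contDiffAt_id)
    · have hf : Tendsto (Prod.fst : ℂ × V → ℂ) (𝓝 x) (𝓝 x.1) := continuousAt_fst
      filter_upwards [he, hf.eventually (ball_mem_nhds x.1 hε)] with y h2 h3 h4
      refine ⟨y.1 - x.1, by simpa [dist_eq_norm] using h3, ?_⟩
      simp only [add_sub_cancel]
      rw [h2.1 h4])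
  have hcl : closure A ⊆ closure {y | y ∈ U ∧ F y = 0 ∧ g y ≠ 0} := by
    refine closure_minimal (fun x hx => ?_) isClosed_closure
    rw [hA] at hx
    obtain ⟨φ, ha, h1, he⟩ := satpar_ift hU hF hx.1 hx.2.1 hx.2.2
    have ex : (x.1, φ x.1) = x := by rw [h1]
    have hr := satpar_reg hU hF (φ := φ) (t := x.1) (by rw [ex]; exact hx.1) ha.continuousAt
      (by rw [ex]; exact he) (by rw [h1]; exact hx.2.2)
    have ht : Tendsto (fun s => (s, φ s)) (𝓝[≠] x.1) (𝓝 x) := by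
      have : Tendsto (fun s => (s, φ s)) (𝓝 x.1) (𝓝 (x.1, φ x.1)) :=
        continuousAt_id.prodMk ha.continuousAt
      rw [ex] at this
      exact this.mono_left nhdsWithin_le_nhds
    refine mem_closure_of_tendsto ht ?_
    have hne : ∀ᶠ s in 𝓝[≠] x.1, s ≠ x₀.1 := by
      by_cases e : x.1 = x₀.1
      · rw [← e]; exact self_mem_nhdsWithin
      · exact (continuousAt_id.eventually_ne e).filter_mono nhdsWithin_le_nhds
    filter_upwards [hr.filter_mono nhdsWithin_le_nhds, hne] with s h2 h3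
    exact ⟨h2.1, h2.2.1, mul_ne_zero ((satpar_inj _).1 h2.2.2.1) (sub_ne_zero.2 h3)⟩
  rw [eventually_nhdsWithin_iff] at hs
  filter_upwards [hs, hU.mem_nhds hm] with q h1 h2 h3 h4
  have h5 := h1 h3 (hcl h4)
  refine ⟨?_, sub_ne_zero.1 (right_ne_zero_of_mul h5)⟩
  have h6 : F q = 0 := by
    by_contra h6
    have h7 := (hF.continuousOn.continuousAt (hU.mem_nhds h2)).eventually_ne h6
    obtain ⟨y, hy1, hy2⟩ := mem_closure_iff_nhds.1 h4 _ h7
    rw [hA] at hy2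
    exact hy1 hy2.2.1
  rw [hA]
  exact ⟨h2, h6, (satpar_inj _).2 (left_ne_zero_of_mul h5)⟩

end Main

/-- parity of the number of good regular real zeros is locally constant -/
theorem satpar {V : Type} [NormedAddCommGroup V] [NormedSpace ℂ V] [FiniteDimensional ℂ V]
    (cj : V → V) (cadd : ∀ v w, cj (v + w) = cj v + cj w)
    (csm : ∀ (c : ℂ) v, cj (c • v) = (starRingEnd ℂ c) • cj v) (cinv : ∀ v, cj (cj v) = v)
    (cnorm : ∀ v, ‖cj v‖ = ‖v‖) {U : Set (ℂ × V)} (hU : IsOpen U) {F : ℂ × V → V}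
    (hF : DifferentiableOn ℂ F U) {Θ : ℂ × V → ℂ} (hΘ : DifferentiableOn ℂ Θ U)
    (sU : ∀ q ∈ U, (starRingEnd ℂ q.1, cj q.2) ∈ U)
    (sF : ∀ q ∈ U, F (starRingEnd ℂ q.1, cj q.2) = cj (F q))
    (sΘ : ∀ q ∈ U, Θ (starRingEnd ℂ q.1, cj q.2) = starRingEnd ℂ (Θ q))
    {t₀ : ℝ} {v₀ : V} (hm : ((t₀ : ℂ), v₀) ∈ U) (hv : cj v₀ = v₀) :
    (∀ W ∈ 𝓝 ((t₀ : ℂ), v₀), ∃ O, IsOpen O ∧ ((t₀ : ℂ), v₀) ∈ O ∧ O ⊆ W ∩ U ∧
      ∃ ε > (0 : ℝ), ∃ k : ℕ, ∀ t : ℝ, t ≠ t₀ → |t - t₀| < ε →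
        {v | cj v = v ∧ ((t : ℂ), v) ∈ O ∧ F (t, v) = 0 ∧
          Injective (fderiv ℂ (fun v => F (t, v)) v) ∧
          ∀ᶠ q in 𝓝 ((t : ℂ), v), F q = 0 → Θ q = 0}.Finite ∧
        {v | cj v = v ∧ ((t : ℂ), v) ∈ O ∧ F (t, v) = 0 ∧
          Injective (fderiv ℂ (fun v => F (t, v)) v) ∧
          ∀ᶠ q in 𝓝 ((t : ℂ), v), F q = 0 → Θ q = 0}.ncard % 2 = k) ∧
    ∀ᶠ q in 𝓝 ((t₀ : ℂ), v₀), q ∈ closure {q | q ∈ U ∧ F q = 0 ∧
      Injective (fderiv ℂ (fun v => F (q.1, v)) q.2)} → q.1 = t₀ → q = ((t₀ : ℂ), v₀) := by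
  have : ProperSpace V := FiniteDimensional.proper ℂ V
  obtain ⟨A, hA⟩ : ∃ A : Set (ℂ × V),
    A = {q | q ∈ U ∧ F q = 0 ∧ Injective (fderiv ℂ (fun v => F (q.1, v)) q.2)} := ⟨_, rfl⟩
  have hs := satpar_sat hU hF hm hA
  refine ⟨fun W hW => ?_, ?_⟩
  swap
  · rw [← hA]
    filter_upwards [hs] with q h1 h2 h3
    by_contra h4
    exact (h1 h4 h2).2 h3
  let C : V →SL[starRingEnd ℂ] V :=
    (⟨⟨cj, cadd⟩, csm⟩ : V →ₛₗ[starRingEnd ℂ] V).mkContinuous 1 (fun v => by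
      simp only [LinearMap.coe_mk, AddHom.coe_mk, cnorm, one_mul, le_refl])
  have hC : ∀ v, C v = cj v := fun _ => rfl
  have c0 : cj 0 = 0 := by rw [← hC, map_zero]
  have ccont : Continuous cj := C.continuous
  obtain ⟨ρ, hρ, hball⟩ := nhds_basis_closedBall.mem_iff.1
    (inter_mem (inter_mem hW (hU.mem_nhds hm)) hs)
  rw [← closedBall_prod_same] at hball
  have hsh : ∀ᶠ t in 𝓝 (t₀ : ℂ), ∀ v ∈ sphere v₀ ρ, (t, v) ∉ closure A := by
    refine (isCompact_sphere v₀ ρ).eventually_forall_of_forall_eventually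
      (P := fun t v => (t, v) ∉ closure A) fun v hv => ?_
    refine isClosed_closure.isOpen_compl.mem_nhds fun hc => ?_
    have h1 := (hball (a := ((t₀ : ℂ), v))
      ⟨mem_closedBall_self hρ.le, sphere_subset_closedBall hv⟩).2
    refine (h1 (fun e => ?_) hc).2 rfl
    have e2 : v = v₀ := congrArg Prod.snd e
    rw [e2, mem_sphere, dist_self] at hv
    exact hρ.ne hv
  obtain ⟨ε, hε, hεb⟩ := Metric.mem_nhds_iff.1 (inter_mem hsh (closedBall_mem_nhds (t₀ : ℂ) hρ))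
  obtain ⟨G, hG⟩ : ∃ G : ℂ → Set V, ∀ t, G t = {v | v ∈ ball v₀ ρ ∧ F (t, v) = 0 ∧
      Injective (fderiv ℂ (fun v => F (t, v)) v) ∧ ∀ᶠ q in 𝓝 (t, v), F q = 0 → Θ q = 0} :=
    ⟨_, fun _ => rfl⟩
  have hin : ∀ t ∈ ball (t₀ : ℂ) ε, ∀ v ∈ closedBall v₀ ρ, (t, v) ∈ W ∩ U ∧
      ((t, v) ≠ ((t₀ : ℂ), v₀) → (t, v) ∈ closure A → (t, v) ∈ A ∧ t ≠ t₀) :=
    fun t ht v hv => hball (a := (t, v)) ⟨(hεb ht).2, hv⟩
  have hloc : ∀ t ∈ ball (t₀ : ℂ) ε \ {(t₀ : ℂ)},
      (G t).Finite ∧ ∀ᶠ s in 𝓝 t, (G s).ncard = (G t).ncard := fun t ht => by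
    refine satpar_loc hU hF hΘ hA hG (fun v hv => (hin t ht.1 v hv).1.2) fun v hv hc => ?_
    refine ⟨?_, ((hin t ht.1 v hv).2 (fun e => ht.2 (congrArg Prod.fst e)) hc).1⟩
    rcases (mem_closedBall.1 hv).lt_or_eq with h | h
    · exact h
    · exact absurd hc ((hεb ht.1).1 v h)
  have hcont : ContinuousOn (fun t => (G t).ncard) (ball (t₀ : ℂ) ε \ {(t₀ : ℂ)}) :=
    fun t ht => (continuousAt_const.congr
      ((hloc t ht).2.mono fun s hs => hs.symm)).continuousWithinAt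
  have hε2 : ((t₀ + ε / 2 : ℝ) : ℂ) ∈ ball (t₀ : ℂ) ε \ {(t₀ : ℂ)} := by
    constructor
    · rw [mem_ball, dist_eq_norm, ← Complex.ofReal_sub, Complex.norm_real, Real.norm_eq_abs,
        abs_lt]
      constructor <;> linarith
    · intro e
      have := Complex.ofReal_injective (mem_singleton_iff.1 e)
      linarith
  refine ⟨ball (t₀ : ℂ) ε ×ˢ ball v₀ ρ, isOpen_ball.prod isOpen_ball,
    ⟨mem_ball_self hε, mem_ball_self hρ⟩,
    fun q hq => (hin q.1 hq.1 q.2 (ball_subset_closedBall hq.2)).1, ε, hε,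
    (G ((t₀ + ε / 2 : ℝ) : ℂ)).ncard % 2, fun t ht hlt => ?_⟩
  have htb : (t : ℂ) ∈ ball (t₀ : ℂ) ε \ {(t₀ : ℂ)} := by
    constructor
    · rw [mem_ball, dist_eq_norm, ← Complex.ofReal_sub, Complex.norm_real, Real.norm_eq_abs]
      exact hlt
    · intro e
      exact ht (Complex.ofReal_injective (mem_singleton_iff.1 e))
  have e : {v | cj v = v ∧ ((t : ℂ), v) ∈ ball (t₀ : ℂ) ε ×ˢ ball v₀ ρ ∧ F (t, v) = 0 ∧
      Injective (fderiv ℂ (fun v => F (t, v)) v) ∧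
      ∀ᶠ q in 𝓝 ((t : ℂ), v), F q = 0 → Θ q = 0} = {v | cj v = v ∧ v ∈ G t} := by
    ext v
    rw [hG]
    simp only [mem_ofPred_eq, mem_prod, htb.1, true_and]
  rw [e]
  refine ⟨(hloc t htb).1.subset fun v hv => hv.2, ?_⟩
  rw [← (satpar_conn (t₀ : ℂ) hε).constant hcont htb hε2]
  refine satpar_par (hloc t htb).1 cj cinv fun v hvG => ?_
  rw [hG] at hvG ⊢
  obtain ⟨g1, g2, g3, g4⟩ := hvG
  have hvU : ((t : ℂ), v) ∈ U := (hin t htb.1 v (ball_subset_closedBall g1)).1.2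
  have hcU : ((t : ℂ), cj v) ∈ U := by simpa using sU _ hvU
  refine ⟨?_, ?_, ?_, ?_⟩
  · rw [mem_ball, dist_eq_norm] at g1 ⊢
    rw [← hv, ← hC, ← hC, ← map_sub, hC, cnorm]
    exact g1
  · have := sF _ hvU
    simp only [Complex.conj_ofReal] at this
    rw [this, g2, c0]
  · have hd : HasFDerivAt (fun w => F ((t : ℂ), w)) (fderiv ℂ (fun w => F ((t : ℂ), w)) v)
        (C (cj v)) := by
      rw [hC, cinv]
      exact (satpar_fd hU hF hvU).differentiableAt.hasFDerivAt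
    have hd2 := hd.comp_semilinear C C
    have hev : (fun w => F ((t : ℂ), w)) =ᶠ[𝓝 (cj v)] C ∘ (fun w => F ((t : ℂ), w)) ∘ C := by
      have hg : Tendsto (fun w => ((t : ℂ), w)) (𝓝 (cj v)) (𝓝 ((t : ℂ), cj v)) :=
        (continuousAt_const.prodMk continuousAt_id :
          ContinuousAt (fun w : V => ((t : ℂ), w)) (cj v))
      filter_upwards [hg.eventually (hU.mem_nhds hcU)] with w hw
      have := sF _ hw
      simp only [Complex.conj_ofReal] at this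
      simp only [Function.comp, hC]
      rw [this, cinv]
    rw [(hd2.congr_of_eventuallyEq hev).fderiv]
    have hinj : Injective cj := LeftInverse.injective cinv
    intro a b hab
    exact hinj (g3 (hinj hab))
  · have hσ : Tendsto (fun q : ℂ × V => (starRingEnd ℂ q.1, cj q.2)) (𝓝 ((t : ℂ), cj v))
        (𝓝 ((t : ℂ), v)) := by
      have : ContinuousAt (fun q : ℂ × V => (starRingEnd ℂ q.1, cj q.2)) ((t : ℂ), cj v) :=
        ((Complex.continuous_conj.comp continuous_fst).prodMk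
          (ccont.comp continuous_snd)).continuousAt
      simpa [ContinuousAt, cinv] using this
    filter_upwards [hσ.eventually g4, hU.mem_nhds hcU] with q h1 h2 h3
    have h4 := h1 (by rw [sF q h2, h3, c0])
    rw [sΘ q h2] at h4
    simpa using h4

end Pool.Agent.MP_098ecc_co.H97
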