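import Pool.Agent.MP_098ecc_co.H97.End1
import Pool.Agent.MP_098ecc_co.H97.SatPar

set_option autoImplicit false

namespace Pool.Agent.MP_098ecc_co.H97

open Metric Filter Topology Set Function

/-- the vector with `i` coordinate `p.1` and other coordinate `p.2` -/
noncomputable def mkb (i : Bool) : ℂ × ℂ →L[ℂ] (Bool → ℂ) :=
  ContinuousLinearMap.pi fun k =>
    if k = i then ContinuousLinearMap.fst ℂ ℂ ℂ else ContinuousLinearMap.snd ℂ ℂ ℂ

theorem mkb_same (i : Bool) (p : ℂ × ℂ) : mkb i p i = p.1 := by simp [mkb]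

theorem mkb_not (i : Bool) (p : ℂ × ℂ) : mkb i p (!i) = p.2 := by simp [mkb]

theorem endD_all (i : Bool) (P : Bool → Prop) : (∀ k, P k) ↔ P i ∧ P (!i) := by
  cases i <;> simp [and_comm]

theorem mkb_eta (i : Bool) (b : Bool → ℂ) : mkb i (b i, b (!i)) = b :=
  funext ((endD_all i _).2 ⟨mkb_same _ _, mkb_not _ _⟩)

theorem endD_ball (i : Bool) {b c : Bool → ℂ} {r : ℝ} (hr : 0 < r) :
    b ∈ ball c r ↔ b i ∈ ball (c i) r ∧ b (!i) ∈ ball (c (!i)) r := by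
  rw [mem_ball, dist_pi_lt_iff hr, endD_all i]; rfl

theorem endD_cball (i : Bool) {b c : Bool → ℂ} {r : ℝ} (hr : 0 ≤ r) :
    b ∈ closedBall c r ↔ b i ∈ closedBall (c i) r ∧ b (!i) ∈ closedBall (c (!i)) r := by
  rw [mem_closedBall, dist_pi_le_iff hr, endD_all i]; rfl

theorem mkb_ball (i : Bool) {p : ℂ × ℂ} {c : Bool → ℂ} {r : ℝ} (hr : 0 < r) :
    mkb i p ∈ ball c r ↔ p.1 ∈ ball (c i) r ∧ p.2 ∈ ball (c (!i)) r := by
  rw [endD_ball i hr, mkb_same, mkb_not]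

theorem mkb_cball (i : Bool) {p : ℂ × ℂ} {c : Bool → ℂ} {r : ℝ} (hr : 0 ≤ r) :
    mkb i p ∈ closedBall c r ↔ p.1 ∈ closedBall (c i) r ∧ p.2 ∈ closedBall (c (!i)) r := by
  rw [endD_cball i hr, mkb_same, mkb_not]

theorem endD_sum (i : Bool) (f : Bool → ℝ) : ∑ k, f k = f i + f (!i) := by
  cases i <;> simp [add_comm]

theorem endD_cl {X F : Type} [TopologicalSpace X] [NormedAddCommGroup F] {f : X → F} {s : Set X}
    {x : X} (hf : ContinuousWithinAt f s x) (hx : x ∈ closure s) (h : ∀ y ∈ s, f y = 0) :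
    f x = 0 := by
  refine (closure_minimal (t := {0}) ?_ isClosed_singleton) (hf.mem_closure_image hx)
  rintro _ ⟨y, hy, rfl⟩
  exact h y hy

theorem endD_tan {T F : Type} [NormedAddCommGroup T] [NormedSpace ℂ T] [NormedAddCommGroup F]
    [NormedSpace ℂ F] {f : T → F} {γ : ℂ → T} {c : ℂ} (hγ : DifferentiableAt ℂ γ c)
    (hf : DifferentiableAt ℂ f (γ c)) (h : ∀ᶠ x in 𝓝 c, f (γ x) = 0) :
    fderiv ℂ f (γ c) (deriv γ c) = 0 := by
  have h1 := hf.hasFDerivAt.comp_hasDerivAt c hγ.hasDerivAt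
  have h2 : f ∘ γ =ᶠ[𝓝 c] fun _ => 0 := h
  exact h1.unique ((hasDerivAt_const c (0 : F)).congr_of_eventuallyEq h2)

variable {Z F : Type} [NormedAddCommGroup Z] [NormedSpace ℂ Z] [NormedAddCommGroup F]
  [NormedSpace ℂ F]

/-- splitting of the wall parameters -/
noncomputable def spl (Z : Type) [NormedAddCommGroup Z] [NormedSpace ℂ Z] (i : Bool) :
    ℂ × (ℂ × Z) →L[ℂ] (Bool → ℂ) × Z :=
  ((mkb i).prodMap (ContinuousLinearMap.id ℂ Z)).comp
    (ContinuousLinearEquiv.prodAssoc ℂ ℂ ℂ Z).symm.toContinuousLinearMap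

theorem spl_eq (i : Bool) (x : ℂ) (w : ℂ × Z) : spl Z i (x, w) = (mkb i (x, w.1), w.2) := rfl

theorem spl_eta (i : Bool) (q : (Bool → ℂ) × Z) : spl Z i (q.1 i, (q.1 (!i), q.2)) = q := by
  rw [spl_eq, mkb_eta]

theorem endD_reg [FiniteDimensional ℂ Z] [CompleteSpace F] {U : Set Z} (hU : IsOpen U)
    {f : (Bool → ℂ) × Z → F} (hf : Reg U f) (i : Bool) {O : Set ℂ} (hO : IsOpen O)
    (hO' : O ⊆ ball 0 1) : Reg (O ×ˢ U) (fun q => f (spl Z i q)) := by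
  have c : ContinuousOn (fun q => f (spl Z i q)) (closedBall 0 1 ×ˢ (O ×ˢ U)) :=
    hf.cont.comp (spl Z i).continuous.continuousOn fun q hq =>
      ⟨(mkb_cball i zero_le_one).2 ⟨hq.1, ball_subset_closedBall (hO' hq.2.1)⟩, hq.2.2⟩
  have d : DifferentiableOn ℂ (fun q => f (spl Z i q)) (ball 0 1 ×ˢ (O ×ˢ U)) :=
    hf.diff.comp (spl Z i).differentiableOn fun q hq =>
      ⟨(mkb_ball i one_pos).2 ⟨hq.1, hO' hq.2.1⟩, hq.2.2⟩
  refine ⟨c, d, fun b hb w hw => ?_⟩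
  have := endA_wall (mem_closedBall_zero_iff.1 hb)
  refine (endA_frz (f := fun x w => f (spl Z i (x, w))) (hO.prod hU) c hb
    (nhdsWithin_mono b ball_subset_closedBall) ?_ hw).1.differentiableWithinAt
  filter_upwards [self_mem_nhdsWithin] with x hx
  exact d.comp (by fun_prop) fun w hw => ⟨hx, hw⟩

theorem endD_fd {U : Set Z} (hU : IsOpen U) {f : (Bool → ℂ) × Z → F}
    (hf : DifferentiableOn ℂ f (ball 0 1 ×ˢ U)) (i : Bool) {p : ℂ × (ℂ × Z)}
    (hp : spl Z i p ∈ ball (0 : Bool → ℂ) 1 ×ˢ U) :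
    HasFDerivAt (fun q => f (spl Z i q)) ((fderiv ℂ f (spl Z i p)).comp (spl Z i)) p :=
  (hf.differentiableAt ((isOpen_ball.prod hU).mem_nhds hp)).hasFDerivAt.comp p
    (spl Z i).hasFDerivAt

theorem endD_db {U : Set Z} (hU : IsOpen U) {f : (Bool → ℂ) × Z → F} (hf : Reg U f) (i : Bool)
    {O : Set ℂ} (hO' : O ⊆ ball 0 1) {J : Bool → ℂ → ℂ} (h : DB U (w0 J) f) :
    DB (O ×ˢ U) (fun q db => ‖db‖ * (1 + ‖J i q.1‖)) (fun q => f (spl Z i q)) := by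
  obtain ⟨C, hC⟩ := h
  refine ⟨C, fun b hb w hw db => ?_⟩
  have hb' : mkb i (b, w.1) ∈ ball (0 : Bool → ℂ) 1 := (mkb_ball i one_pos).2 ⟨hb, hO' hw.1⟩
  rw [(endD_fd hU hf.diff i (p := (b, w)) ⟨hb', hw.2⟩).fderiv]
  have := hC _ hb' w.2 hw.2 (mkb i (db, 0))
  rw [w0, endD_sum i] at this
  simp only [mkb_same, mkb_not, norm_zero, zero_mul, add_zero] at this
  exact this

variable {U : Set Z} {z₀ : Z} {H : (Bool → ℂ) × Z → Z} {K : (Bool → ℂ) × Z → F}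
  {g : (Bool → ℂ) × Z → ℂ} {J : Bool → ℂ → ℂ} {j σ : Bool → (Bool → ℂ) × Z → ℂ}

theorem endD_fE (h : EndData U z₀ H K g J j σ) (k : Bool) {q : (Bool → ℂ) × Z}
    (hq : q ∈ ball (0 : Bool → ℂ) 1 ×ˢ U) : DifferentiableAt ℂ (EE J j σ k) q ∧ ∀ dq,
      fderiv ℂ (EE J j σ k) q dq = fderiv ℂ (j k) q dq - fderiv ℂ (σ k) q dq * J k (q.1 k) -
        σ k q * deriv (J k) (q.1 k) * dq.1 k := by
  have hn := (isOpen_ball.prod h.op).mem_nhds hq
  have a1 := ((h.rj k).diff.differentiableAt hn).hasFDerivAt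
  have a2 := ((h.rσ k).diff.differentiableAt hn).hasFDerivAt
  have a3 := ((h.dJ k).differentiableAt
    (isOpen_ball.mem_nhds ((endD_ball k one_pos).1 hq.1).1)).hasDerivAt
  have a4 := a3.comp_hasFDerivAt q ((ContinuousLinearMap.proj (R := ℂ) (φ := fun _ : Bool => ℂ)
    k).comp (ContinuousLinearMap.fst ℂ (Bool → ℂ) Z)).hasFDerivAt
  have a5 : HasFDerivAt (EE J j σ k) _ q := a1.sub (a2.mul a4)
  refine ⟨a5.differentiableAt, fun dq => ?_⟩
  rw [a5.fderiv]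
  simp
  ring

theorem endD_dE (h : EndData U z₀ H K g J j σ) (k : Bool) :
    DifferentiableOn ℂ (EE J j σ k) (ball 0 1 ×ˢ U) := fun _ hq =>
  (endD_fE h k hq).1.differentiableWithinAt

/-- nondegenerate accumulation points of the on shell set -/
def Acc (U : Set Z) (H : (Bool → ℂ) × Z → Z) (K : (Bool → ℂ) × Z → F) (g : (Bool → ℂ) × Z → ℂ)
    (J : Bool → ℂ → ℂ) (j σ : Bool → (Bool → ℂ) × Z → ℂ) : Set ((Bool → ℂ) × Z) :=
  {q | q ∈ Sh U H K J j σ ∧ g q ≠ 0 ∧ AccPt q (𝓟 (Sh U H K J j σ))}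

theorem endD_zero (h : EndData U z₀ H K g J j σ) {q : (Bool → ℂ) × Z}
    (hq : q ∈ closure (Acc U H K g J j σ)) (hm : q ∈ closedBall (0 : Bool → ℂ) 1 ×ˢ U) :
    H q = 0 ∧ K q = 0 :=
  ⟨endB_zero h.rH.cont h.op (fun _ hq => ⟨ball_subset_closedBall hq.1.1, hq.1.2.2.1⟩) hq hm,
    endB_zero h.rK.cont h.op (fun _ hq => ⟨ball_subset_closedBall hq.1.1, hq.1.2.2.2.1⟩) hq hm⟩

theorem endD_clA (h : EndData U z₀ H K g J j σ) {q : (Bool → ℂ) × Z}
    (hq : q ∈ closure (Acc U H K g J j σ)) (hm : q ∈ ball (0 : Bool → ℂ) 1 ×ˢ U) (hg : g q ≠ 0) :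
    q ∈ Acc U H K g J j σ := by
  have h1 := endD_zero h hq ⟨ball_subset_closedBall hm.1, hm.2⟩
  refine ⟨⟨hm.1, hm.2, h1.1, h1.2, fun k => endD_cl (endD_fE h k hm).1.continuousAt.continuousWithinAt
    hq fun y hy => hy.1.2.2.2.2 k⟩, hg, ?_⟩
  exact closure_minimal (t := derivedSet (Sh U H K J j σ)) (fun y hy => hy.2.2)
    (isClosed_derivedSet _) hq

theorem endD_nd {q : (Bool → ℂ) × Z} (hq : q ∈ Acc U H K g J j σ) : q ∈ ND U H g :=
  ⟨ball_subset_closedBall hq.1.1, hq.1.2.1, hq.1.2.2.1, hq.2.1⟩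

theorem endD_ker (h : EndData U z₀ H K g J j σ) {q : (Bool → ℂ) × Z}
    (hq : q ∈ Acc U H K g J j σ) {dz : Z} (hz : fderiv ℂ H q (0, dz) = 0) : dz = 0 := by
  have a := (h.inv q.1 (ball_subset_closedBall hq.1.1) q.2 hq.1.2.1 hq.1.2.2.1 hq.2.1).1
  rw [hol_frz_eq (h.rH.diff.differentiableAt
    ((isOpen_ball.prod h.op).mem_nhds ⟨hq.1.1, hq.1.2.1⟩))] at a
  exact (injective_iff_map_eq_zero _).1 a dz hz

/-- the disc through an accumulation point -/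
theorem endD_disc [FiniteDimensional ℂ Z] [CompleteSpace F] (h : EndData U z₀ H K g J j σ)
    (h2 : End2g U H K g J j σ) {q : (Bool → ℂ) × Z} (hq : q ∈ Acc U H K g J j σ) (i : Bool) :
    ∃ γ : ℂ → (Bool → ℂ) × Z, γ (q.1 i) = q ∧
      (∀ᶠ x in 𝓝 (q.1 i), DifferentiableAt ℂ γ x ∧ (γ x).1 i = x ∧ γ x ∈ Acc U H K g J j σ) ∧
      ∀ᶠ q' in 𝓝 q, q' ∈ Sh U H K J j σ → γ (q'.1 i) = q' := by
  have hO : IsOpen (ball (0 : Bool → ℂ) 1 ×ˢ U) := isOpen_ball.prod h.op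
  have hm : q ∈ ball (0 : Bool → ℂ) 1 ×ˢ U := ⟨hq.1.1, hq.1.2.1⟩
  set p : ℂ × (ℂ × Z) := (q.1 i, (q.1 (!i), q.2)) with hp
  have hpq : spl Z i p = q := spl_eta i q
  have hO' : IsOpen (spl Z i ⁻¹' (ball (0 : Bool → ℂ) 1 ×ˢ U)) := hO.preimage (spl Z i).continuous
  have hF : DifferentiableOn ℂ (fun p => (EE J j σ i (spl Z i p), H (spl Z i p)))
      (spl Z i ⁻¹' (ball (0 : Bool → ℂ) 1 ×ˢ U)) := fun p hp =>
    ((endD_fd h.op (endD_dE h i) i hp).prodMk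
      (endD_fd h.op h.rH.diff i hp)).differentiableAt.differentiableWithinAt
  have hpm : p ∈ spl Z i ⁻¹' (ball (0 : Bool → ℂ) 1 ×ˢ U) := by rw [mem_preimage, hpq]; exact hm
  obtain ⟨φ, a1, a2, a3⟩ := satpar_ift hO' hF hpm
    (by simp only [hpq, hq.1.2.2.1, hq.1.2.2.2.2 i]; rfl) (by
      rw [(satpar_fd hO' hF hpm).fderiv, ((endD_fd h.op (endD_dE h i) i hpm).prodMk
        (endD_fd h.op h.rH.diff i hpm)).fderiv, injective_iff_map_eq_zero, hpq]
      rintro ⟨dy, dz⟩ hv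
      have b1 : fderiv ℂ (EE J j σ i) q (mkb i (0, dy), dz) = 0 := congrArg Prod.fst hv
      have b2 : fderiv ℂ H q (mkb i (0, dy), dz) = 0 := congrArg Prod.snd hv
      obtain ⟨μ, -, c2, c3⟩ := h2.s1 i (!i) (by simp)
      rw [c3 q hq.1 hq.2.1 _ b2 ((endD_all i _).2 ⟨fun _ => mkb_same _ _, fun e => absurd rfl e⟩)]
        at b1
      simp only [mkb_not] at b1
      have b3 : dy = 0 := (mul_eq_zero.1 b1).resolve_left (c2 q (endD_nd hq))
      subst b3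
      rw [show mkb i (0, 0) = 0 from map_zero _] at b2
      rw [endD_ker h hq b2]; rfl)
  set γ : ℂ → (Bool → ℂ) × Z := fun x => spl Z i (x, φ x) with hγ
  have g0 : γ (q.1 i) = q := by
    rw [hγ]; simp only []; rw [show φ (q.1 i) = p.2 from a2]; exact hpq
  have g1 : ∀ x, (γ x).1 i = x := fun x => mkb_same _ _
  have ga : AnalyticAt ℂ γ (q.1 i) := ((spl Z i).analyticAt _).comp (analyticAt_id.prod a1)
  have g2 : ∀ᶠ q' in 𝓝 q, q' ∈ Sh U H K J j σ → γ (q'.1 i) = q' := by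
    have : ContinuousAt (fun q' : (Bool → ℂ) × Z => (q'.1 i, (q'.1 (!i), q'.2))) q := by fun_prop
    filter_upwards [this.eventually a3] with q' a b
    have := a.1 (by simp only [spl_eta, b.2.2.1, b.2.2.2.2 i]; rfl)
    rw [hγ]; simp only [] at this ⊢; rw [this, spl_eta]
  have fr := endA_freq (γ := γ) (π := fun q => q.1 i) (by fun_prop) hq.2.2 g0 g2
  have gm : ∀ᶠ x in 𝓝 (q.1 i), γ x ∈ ball (0 : Bool → ℂ) 1 ×ˢ U :=
    ga.continuousAt.eventually (hO.mem_nhds (by rw [g0]; exact hm))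
  have an : ∀ {G : Type} [NormedAddCommGroup G] [NormedSpace ℂ G] [CompleteSpace G]
      {f : (Bool → ℂ) × Z → G}, DifferentiableOn ℂ f (ball 0 1 ×ˢ U) →
      (∀ y ∈ Sh U H K J j σ, f y = 0) → ∀ᶠ x in 𝓝 (q.1 i), f (γ x) = 0 := by
    intro G _ _ _ f hf h0
    refine (AnalyticAt.frequently_zero_iff_eventually_zero ?_).1 (fr.mono fun x hx => h0 _ hx)
    rw [Complex.analyticAt_iff_eventually_differentiableAt]
    filter_upwards [gm, ga.eventually_analyticAt] with x b c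
    exact (hf.differentiableAt (hO.mem_nhds b)).comp x c.differentiableAt
  have g3 : ∀ᶠ x in 𝓝 (q.1 i), γ x ∈ Sh U H K J j σ ∧ (γ x).1 i = x := by
    filter_upwards [gm, an h.rH.diff fun y hy => hy.2.2.1, an h.rK.diff fun y hy => hy.2.2.2.1,
      eventually_all.2 fun k => an (endD_dE h k) fun y hy => hy.2.2.2.2 k] with x b1 b2 b3 b4
    exact ⟨⟨b1.1, b1.2, b2, b3, b4⟩, g1 x⟩
  have g4 : ∀ᶠ x in 𝓝 (q.1 i), g (γ x) ≠ 0 :=
    (ContinuousAt.comp (g := g) (by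
      rw [g0]; exact (h.rg.diff.differentiableAt (hO.mem_nhds hm)).continuousAt)
      ga.continuousAt).eventually_ne (by show g (γ _) ≠ 0; rw [g0]; exact hq.2.1)
  refine ⟨γ, g0, ?_, g2⟩
  filter_upwards [g3.eventually_nhds, g4, ga.eventually_analyticAt] with x b1 b2 b3
  exact ⟨b3.differentiableAt, g1 x, b1.self_of_nhds.1, b2,
    endA_acc (π := fun q => q.1 i) b3.continuousAt b1⟩

/-- the tangent vector of the disc -/
theorem endD_vec (h : EndData U z₀ H K g J j σ) {γ : ℂ → (Bool → ℂ) × Z} {c : ℂ} {i : Bool}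
    (hγ : ∀ᶠ x in 𝓝 c, DifferentiableAt ℂ γ x ∧ (γ x).1 i = x ∧ γ x ∈ Acc U H K g J j σ) :
    fderiv ℂ H (γ c) (deriv γ c) = 0 ∧ (∀ k, fderiv ℂ (EE J j σ k) (γ c) (deriv γ c) = 0) ∧
      (deriv γ c).1 i = 1 ∧ ∀ k, deriv (fun x => (γ x).1 k) c = (deriv γ c).1 k := by
  obtain ⟨a1, -, a3⟩ := hγ.self_of_nhds
  have hm : γ c ∈ ball (0 : Bool → ℂ) 1 ×ˢ U := ⟨a3.1.1, a3.1.2.1⟩
  have e : ∀ k, deriv (fun x => (γ x).1 k) c = (deriv γ c).1 k := fun k =>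
    (((ContinuousLinearMap.proj (R := ℂ) (φ := fun _ : Bool => ℂ) k).comp
      (ContinuousLinearMap.fst ℂ (Bool → ℂ) Z)).hasFDerivAt.comp_hasDerivAt c a1.hasDerivAt).deriv
  refine ⟨endD_tan a1 (h.rH.diff.differentiableAt ((isOpen_ball.prod h.op).mem_nhds hm))
    (hγ.mono fun x hx => hx.2.2.1.2.2.1), fun k => endD_tan a1 (endD_fE h k hm).1
    (hγ.mono fun x hx => hx.2.2.1.2.2.2.2 k), ?_, e⟩
  have : (fun x => (γ x).1 i) =ᶠ[𝓝 c] id := hγ.mono fun x hx => hx.2.1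
  rw [← e, this.deriv_eq, deriv_id]

/-- exit through one wall with an isolated slice -/
theorem endD_one [FiniteDimensional ℂ Z] [CompleteSpace F] (h : EndData U z₀ H K g J j σ)
    (h2 : End2g U H K g J j σ) {q : (Bool → ℂ) × Z} (hq : q ∈ closure (Acc U H K g J j σ))
    {i : Bool} (h1 : ‖q.1 i‖ = 1) (h1' : ‖q.1 (!i)‖ < 1) (hz : q.2 ∈ U)
    (hiso : ∀ᶠ w in 𝓝[≠] (q.1 (!i), q.2), ¬ (H (spl Z i (q.1 i, w)) = 0 ∧
      K (spl Z i (q.1 i, w)) = 0 ∧ EE J j σ (!i) (spl Z i (q.1 i, w)) = 0)) :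
    Bdd (deriv (J i)) := by
  obtain ⟨r, hr, hr'⟩ := Metric.nhds_basis_closedBall.mem_iff.1
    (isOpen_ball.mem_nhds (mem_ball_zero_iff.2 h1'))
  have hO : ball (q.1 (!i)) r ⊆ ball 0 1 := ball_subset_closedBall.trans hr'
  obtain ⟨M, hM⟩ := (isCompact_closedBall (q.1 (!i)) r).exists_bound_of_continuousOn
    ((h.dJ (!i)).continuousOn.mono hr')
  set U' : Set (ℂ × Z) := ball (q.1 (!i)) r ×ˢ U with hU'
  have hop : IsOpen U' := isOpen_ball.prod h.op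
  have rj := fun k => endD_reg h.op (h.rj k) i isOpen_ball hO
  have rσ := fun k => endD_reg h.op (h.rσ k) i isOpen_ball hO
  have rH := endD_reg h.op h.rH i isOpen_ball hO
  have rE : Reg U' fun p => EE J j σ (!i) (spl Z i p) := by
    have a : Reg U' fun p : ℂ × (ℂ × Z) => J (!i) p.2.1 :=
      Reg.of_snd ((h.dJ (!i)).comp differentiableOn_fst fun w hw => hO hw.1)
    have b := ((rj (!i)).prodMk ((rσ (!i)).prodMk a)).comp (O := univ)
      (g := fun w : ℂ × ℂ × ℂ => w.1 - w.2.1 * w.2.2) (by fun_prop) (by simp)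
    have e : (fun p => EE J j σ (!i) (spl Z i p)) = fun p : ℂ × (ℂ × Z) =>
        j (!i) (spl Z i p) - σ (!i) (spl Z i p) * J (!i) p.2.1 := by
      funext p
      rw [EE, spl_eq]
      simp only [mkb_not]
    rw [e]; exact b
  set H' : ℂ × (ℂ × Z) → ℂ × Z := fun p => (EE J j σ (!i) (spl Z i p), H (spl Z i p)) with hH'
  have rH' : Reg U' H' := rE.prodMk rH
  have hsp : ∀ b ∈ ball (0 : ℂ) 1, ∀ w ∈ U', spl Z i (b, w) ∈ ball (0 : Bool → ℂ) 1 ×ˢ U :=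
    fun b hb w hw => ⟨(mkb_ball i one_pos).2 ⟨hb, hO hw.1⟩, hw.2⟩
  have fH' : ∀ p, spl Z i p ∈ ball (0 : Bool → ℂ) 1 ×ˢ U → ∀ v, fderiv ℂ H' p v =
      (fderiv ℂ (EE J j σ (!i)) (spl Z i p) (spl Z i v), fderiv ℂ H (spl Z i p) (spl Z i v)) :=
    fun p hp v => by
      rw [((endD_fd h.op (endD_dE h (!i)) i hp).prodMk (endD_fd h.op h.rH.diff i hp)).fderiv]
      rfl
  have dH' : DB U' (fun q db => ‖db‖ * (1 + ‖J i q.1‖)) H' := by
    obtain ⟨C₁, hC₁⟩ := h.dH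
    obtain ⟨C₂, hC₂⟩ := h.dj (!i)
    obtain ⟨C₃, hC₃⟩ := h.dσ (!i)
    refine ⟨max C₁ (C₂ + C₃ * M), fun b hb w hw db => ?_⟩
    have hm := hsp b hb w hw
    have e : w0 J (mkb i (b, w.1), w.2) (mkb i (db, 0)) = ‖db‖ * (1 + ‖J i b‖) := by
      rw [w0, endD_sum i]
      simp only [mkb_same, mkb_not, norm_zero, zero_mul, add_zero]
    have a1 := hC₁ _ hm.1 _ hm.2 (mkb i (db, 0))
    have a2 := hC₂ _ hm.1 _ hm.2 (mkb i (db, 0))
    have a3 := hC₃ _ hm.1 _ hm.2 (mkb i (db, 0))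
    simp only [spl_eq, e] at a1 a2 a3
    have a4 := hM w.1 (ball_subset_closedBall hw.1)
    have hw0 : 0 ≤ ‖db‖ * (1 + ‖J i b‖) := by positivity
    rw [fH' _ hm, Prod.norm_mk, (endD_fE h (!i) hm).2]
    simp only [spl_eq, mkb_not, Prod.fst_zero, Prod.snd_zero, mul_zero, sub_zero]
    refine max_le ?_ (a1.trans (by gcongr; exact le_max_left _ _))
    refine (norm_sub_le _ _).trans (le_trans ?_
      (mul_le_mul_of_nonneg_right (le_max_right _ _) hw0))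
    rw [norm_mul]
    have := mul_le_mul a3 a4 (norm_nonneg _) ((norm_nonneg _).trans a3)
    linarith
  let π : (Bool → ℂ) × Z → ℂ × (ℂ × Z) := fun q => (q.1 i, (q.1 (!i), q.2))
  have hπ : Continuous π := by fun_prop
  refine endB_one (β := q.1 i) (U := U') (z₀ := (q.1 (!i), q.2)) (H := H')
    (K := fun p => K (spl Z i p)) (j := fun p => j i (spl Z i p)) (σ := fun p => σ i (spl Z i p))
    (g := fun p => g (spl Z i p) * (fderiv ℂ (fun w => H' (p.1, w)) p.2).det)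
    ⟨h1, hop, ⟨mem_ball_self hr, hz⟩, h.dJ i, rH', endD_reg h.op h.rK i isOpen_ball hO, ?_, rj i,
      rσ i, dH', endD_db h.op (h.rj i) i hO (h.dj i), endD_db h.op (h.rσ i) i hO (h.dσ i),
      fun b hb w hw a c => ⟨(satpar_inj _).2 (right_ne_zero_of_mul c), ?_⟩, ?_, ?_⟩
  · exact ((endD_reg h.op h.rg i isOpen_ball hO).prodMk (rH'.fderiv_snd hop)).comp (O := univ)
      (g := fun w : ℂ × (ℂ × Z →L[ℂ] ℂ × Z) => w.1 * w.2.det)
      (differentiable_fst.mul ((exists_adj (ℂ × Z)).1.comp differentiable_snd)).differentiableOn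
      (by simp)
  · exact (h.inv _ ((mkb_cball i zero_le_one).2 ⟨hb, ball_subset_closedBall (hO hw.1)⟩) _ hw.2
      (congrArg Prod.snd a) (left_ne_zero_of_mul c)).2 i
  · filter_upwards [hiso] with w a c
    exact a ⟨congrArg Prod.snd c.1, c.2, congrArg Prod.fst c.1⟩
  · have hN : IsOpen {q' : (Bool → ℂ) × Z | q'.1 (!i) ∈ ball (q.1 (!i)) r} :=
      isOpen_ball.preimage (by fun_prop)
    have hS : ∀ a ∈ Sh U H K J j σ, a.1 (!i) ∈ ball (q.1 (!i)) r → π a ∈ Sh1 U' H'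
        (fun p => K (spl Z i p)) (J i) (fun p => j i (spl Z i p)) fun p => σ i (spl Z i p) := by
      intro a ha ha'
      refine ⟨((endD_ball i one_pos).1 ha.1).1, ⟨ha', ha.2.1⟩, ?_, ?_, ?_⟩
      · simp only [hH', π, spl_eta, ha.2.2.1, ha.2.2.2.2 (!i)]; rfl
      · simp only [π, spl_eta, ha.2.2.2.1]
      · simp only [π, spl_eta]; exact ha.2.2.2.2 i
    refine map_mem_closure (f := π) hπ (hN.inter_closure ⟨mem_ball_self hr, hq⟩) ?_
    rintro a ⟨ha', ha⟩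
    obtain ⟨γ, g0, g1, -⟩ := endD_disc h h2 ha i
    have hm : spl Z i (π a) ∈ ball (0 : Bool → ℂ) 1 ×ˢ U := by
      simp only [π, spl_eta]; exact ⟨ha.1.1, ha.1.2.1⟩
    refine ⟨hS a ha.1 ha', mul_ne_zero (by simp only [π, spl_eta]; exact ha.2.1)
      ((satpar_inj _).1 ?_), ?_⟩
    · rw [hol_frz_eq (rH'.diff.differentiableAt ((isOpen_ball.prod hop).mem_nhds
        ⟨(hS a ha.1 ha').1, (hS a ha.1 ha').2.1⟩)), injective_iff_map_eq_zero]
      rintro ⟨dy, dz⟩ hv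
      have hv' := (fH' _ hm (0, (dy, dz))).symm.trans hv
      simp only [π, spl_eta] at hv'
      have b1 : fderiv ℂ (EE J j σ (!i)) a (mkb i (0, dy), dz) = 0 := congrArg Prod.fst hv'
      have b2 : fderiv ℂ H a (mkb i (0, dy), dz) = 0 := congrArg Prod.snd hv'
      obtain ⟨t1, t2, t3, -⟩ := endD_vec h g1
      rw [g0] at t1 t2
      set v := deriv γ (a.1 i)
      obtain ⟨μ, -, c2, c3⟩ := h2.s1 (!i) i (by simp)
      have b3 := c3 a ha.1 ha.2.1 (dy • v - v.1 (!i) • (mkb i (0, dy), dz))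
        (by rw [map_sub, map_smul, map_smul, t1, b2]; simp)
        ((endD_all i _).2 ⟨fun e => absurd rfl e, fun _ => by simp [mkb_not, mul_comm]⟩)
      rw [map_sub, map_smul, map_smul, t2, b1] at b3
      have b4 : μ a * dy = 0 := by simpa [mkb_same, t3] using b3.symm
      have b5 : dy = 0 := (mul_eq_zero.1 b4).resolve_left (c2 a (endD_nd ha))
      subst b5
      rw [show mkb i (0, 0) = 0 from map_zero _] at b2
      rw [endD_ker h ha b2]; rfl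
    · have gc := g1.self_of_nhds.1.continuousAt
      have := endA_acc (γ := fun x => π (γ x)) (π := Prod.fst) (c := a.1 i)
        (hπ.continuousAt.comp gc) (S := Sh1 U' H' (fun p => K (spl Z i p)) (J i)
          (fun p => j i (spl Z i p)) fun p => σ i (spl Z i p)) (by
        filter_upwards [g1, gc.eventually (hN.mem_nhds (by rw [g0]; exact ha'))] with x b c
        exact ⟨hS _ b.2.2.1 c, b.2.1⟩)
      rwa [g0] at this

end Pool.Agent.MP_098ecc_co.H97
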