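import Pool.Agent.MP_098ecc_co.H97.EndC
import Pool.Agent.MP_098ecc_co.H97.EndD

set_option autoImplicit false

namespace Pool.Agent.MP_098ecc_co.H97

open Metric Filter Topology Set Function

theorem end2_mem {β : Bool → ℂ} {ε : ℝ} (hε : 0 < ε) (i : Bool) {x y : ℂ}
    (hx : x ∈ closedBall (0 : ℂ) 1 ∩ ball (β i) ε)
    (hy : y ∈ closedBall (0 : ℂ) 1 ∩ ball (β (!i)) ε) :
    mkb i (x, y) ∈ closedBall (0 : Bool → ℂ) 1 ∩ ball β ε :=
  ⟨(mkb_cball i zero_le_one).2 ⟨hx.1, hy.1⟩, (mkb_ball i hε).2 ⟨hx.2, hy.2⟩⟩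

theorem end2_memo {β : Bool → ℂ} {ε : ℝ} (hε : 0 < ε) (i : Bool) {x y : ℂ}
    (hx : x ∈ ball (0 : ℂ) 1 ∩ ball (β i) ε) (hy : y ∈ ball (0 : ℂ) 1 ∩ ball (β (!i)) ε) :
    mkb i (x, y) ∈ ball (0 : Bool → ℂ) 1 ∩ ball β ε :=
  ⟨(mkb_ball i one_pos).2 ⟨hx.1, hy.1⟩, (mkb_ball i hε).2 ⟨hx.2, hy.2⟩⟩

theorem end2_proj {β b : Bool → ℂ} {ε : ℝ} (hε : 0 < ε) (i : Bool)
    (hb : b ∈ closedBall (0 : Bool → ℂ) 1 ∩ ball β ε) :
    b i ∈ closedBall (0 : ℂ) 1 ∩ ball (β i) ε :=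
  ⟨((endD_cball i zero_le_one).1 hb.1).1, ((endD_ball i hε).1 hb.2).1⟩

theorem end2_ev {β : Bool → ℂ} {ε : ℝ} {i : Bool} {x : ℂ} (hx : x ∈ ball (β i) ε) :
    ∀ᶠ x' in 𝓝[ball (0 : ℂ) 1] x, x' ∈ ball (0 : ℂ) 1 ∩ ball (β i) ε :=
  inter_mem self_mem_nhdsWithin (nhdsWithin_le_nhds (isOpen_ball.mem_nhds hx))

/-- holomorphy on a frozen slice -/
theorem end2_frz {F : Type} [NormedAddCommGroup F] [NormedSpace ℂ F] [CompleteSpace F]
    {f : (Bool → ℂ) → F} {β : Bool → ℂ} {ε : ℝ} (hε : 0 < ε)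
    (hc : ContinuousOn f (closedBall 0 1 ∩ ball β ε))
    (hd : DifferentiableOn ℂ f (ball 0 1 ∩ ball β ε)) (i : Bool) {x y : ℂ}
    (hx : x ∈ closedBall (0 : ℂ) 1 ∩ ball (β i) ε) (hy : y ∈ ball (0 : ℂ) 1 ∩ ball (β (!i)) ε) :
    DifferentiableAt ℂ (fun y => f (mkb i (x, y))) y ∧
      Tendsto (fun x' => fderiv ℂ f (mkb i (x', y)) (mkb i (0, 1))) (𝓝[ball 0 1] x)
        (𝓝 (deriv (fun y => f (mkb i (x, y))) y)) := by
  have := endA_wall (mem_closedBall_zero_iff.1 hx.1)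
  have h := endA_frz (f := fun x y => f (mkb i (x, y))) (S := closedBall 0 1 ∩ ball (β i) ε)
    (isOpen_ball.inter isOpen_ball) (hc.comp (mkb i).continuous.continuousOn fun p hp =>
      end2_mem hε i hp.1 (endB_sub hp.2)) hx (l := 𝓝[ball 0 1] x)
    (le_inf nhdsWithin_le_nhds (le_principal_iff.2 ((end2_ev hx.2).mono fun _ h => endB_sub h)))
    ((end2_ev hx.2).mono fun x' hx' => hd.comp (by fun_prop) fun y hy => end2_memo hε i hx' hy) hy
  refine ⟨h.1, ?_⟩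
  have h2 := ((ContinuousLinearMap.apply ℂ F (1 : ℂ)).continuous.tendsto _).comp h.2
  refine h2.congr' ((end2_ev hx.2).mono fun x' hx' => ?_)
  have h3 := (hd.differentiableAt ((isOpen_ball.inter isOpen_ball).mem_nhds
    (end2_memo hε i hx' hy))).hasFDerivAt.comp y
      ((mkb i).hasFDerivAt.comp y (hasFDerivAt_prodMk_right x' y))
  exact congrArg (fun A : ℂ →L[ℂ] F => A 1) h3.fderiv

variable {Z F : Type} [NormedAddCommGroup Z] [NormedSpace ℂ Z] [FiniteDimensional ℂ Z]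
  [NormedAddCommGroup F] [NormedSpace ℂ F] [CompleteSpace F]
  {U : Set Z} {z₀ : Z} {H : (Bool → ℂ) × Z → Z} {K : (Bool → ℂ) × Z → F}
  {g : (Bool → ℂ) × Z → ℂ} {J : Bool → ℂ → ℂ} {j σ : Bool → (Bool → ℂ) × Z → ℂ}
  {β : Bool → ℂ} {z : Z} {ε ρ : ℝ} {φ : (Bool → ℂ) → Z}

/-- weight of the charts -/
noncomputable abbrev wB (J : Bool → ℂ → ℂ) (b db : Bool → ℂ) : ℝ :=
  ∑ i, ‖db i‖ * (1 + ‖J i (b i)‖)

theorem end2_chart (h : EndData U z₀ H K g J j σ) {q : (Bool → ℂ) × Z} (hq : q ∈ ND U H g) :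
    ∃ ε ρ φ, Ch U H g (wB J) q.1 q.2 ε ρ φ :=
  endB_chart h.op h.rH h.dH h.rg.cont hq.1 hq.2.1 hq.2.2.1 hq.2.2.2
    (h.inv _ hq.1 _ hq.2.1 hq.2.2.1 hq.2.2.2).1

theorem end2_E (i : Bool) (x y : ℂ) (w : Z) : EE J j σ (!i) (mkb i (x, y), w) =
    j (!i) (mkb i (x, y), w) - σ (!i) (mkb i (x, y), w) * J (!i) y := by
  simp only [EE, mkb_not]

/-- a frozen slice on shell up to the second wall -/
theorem end2_last (h : EndData U z₀ H K g J j σ) (c : Ch U H g (wB J) β z ε ρ φ) {i : Bool}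
    (hβ : ‖β (!i)‖ = 1) {x : ℂ} (hx : x ∈ closedBall (0 : ℂ) 1 ∩ ball (β i) ε)
    (h0 : ∀ y ∈ ball (0 : ℂ) 1 ∩ ball (β (!i)) ε,
      EE J j σ (!i) (mkb i (x, y), φ (mkb i (x, y))) = 0) : Bdd (deriv (J (!i))) := by
  have := endA_wall (mem_closedBall_zero_iff.1 hx.1)
  have hb : β (!i) ∈ closedBall (0 : ℂ) 1 ∩ ball (β (!i)) ε := ⟨by simp [hβ], mem_ball_self c.pos⟩
  have key : ∀ f : (Bool → ℂ) × Z → ℂ, Reg U f → DB U (w0 J) f →
      ContinuousWithinAt (fun y => f (mkb i (x, y), φ (mkb i (x, y)))) (closedBall 0 1) (β (!i)) ∧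
      ∃ C : ℝ, ∀ y ∈ ball (0 : ℂ) 1 ∩ ball (β (!i)) ε,
        DifferentiableAt ℂ (fun y => f (mkb i (x, y), φ (mkb i (x, y)))) y ∧
        ‖deriv (fun y => f (mkb i (x, y), φ (mkb i (x, y)))) y‖ ≤ C * (1 + ‖J (!i) y‖) := by
    intro f hf hf'
    obtain ⟨C, hC⟩ := c.der f hf hf'
    refine ⟨(continuousWithinAt_inter (ball_mem_nhds _ c.pos)).1 (((c.gcont hf.cont).comp
      (by fun_prop : ContinuousOn (fun y => mkb i (x, y)) _) fun y hy =>
        end2_mem c.pos i hx hy) _ hb), C, fun y hy => ?_⟩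
    have a := end2_frz c.pos (c.gcont hf.cont) (c.gdiff hf.diff) i hx hy
    refine ⟨a.1, le_of_tendsto a.2.norm ((end2_ev hx.2).mono fun x' hx' => ?_)⟩
    have := hC _ (end2_memo c.pos i hx' hy) (mkb i (0, 1))
    rw [wB, endD_sum i] at this
    simpa only [mkb_same, mkb_not, norm_zero, zero_mul, zero_add, norm_one, one_mul] using this
  obtain ⟨a1, C₁, a2⟩ := key _ (h.rj (!i)) (h.dj (!i))
  obtain ⟨b1, C₂, b2⟩ := key _ (h.rσ (!i)) (h.dσ (!i))
  have m := end2_mem c.pos i hx hb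
  refine endA_last (C := max C₁ C₂) hβ c.pos (h.dJ (!i)) a1 b1
    ((h.inv _ m.1 _ (c.mem _ m).1 (c.mem _ m).2.1 (c.mem _ m).2.2).2 (!i)) fun y hy =>
    ⟨(a2 y hy).1, (b2 y hy).1, sub_eq_zero.1 ((end2_E i x y _).symm.trans (h0 y hy)),
      (a2 y hy).2.trans (by gcongr; exact le_max_left _ _),
      (b2 y hy).2.trans (by gcongr; exact le_max_right _ _)⟩

/-- points on a curve inside a frozen slice -/
def Bw (U : Set Z) (H : (Bool → ℂ) × Z → Z) (K : (Bool → ℂ) × Z → F) (g : (Bool → ℂ) × Z → ℂ)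
    (J : Bool → ℂ → ℂ) (j σ : Bool → (Bool → ℂ) × Z → ℂ) (i : Bool) : Set ((Bool → ℂ) × Z) :=
  {q | q ∈ ND U H g ∧ K q = 0 ∧ ‖q.1 i‖ = 1 ∧ ‖q.1 (!i)‖ < 1 ∧
    ∃ᶠ w in 𝓝[≠] (q.1 (!i), q.2), H (spl Z i (q.1 i, w)) = 0 ∧ K (spl Z i (q.1 i, w)) = 0 ∧
      EE J j σ (!i) (spl Z i (q.1 i, w)) = 0}

theorem end2_van (h : EndData U z₀ H K g J j σ) (c : Ch U H g (wB J) β z ε ρ φ) {i : Bool}
    {b : Bool → ℂ} (hb : b ∈ ball β ε) (hq : (b, φ b) ∈ Bw U H K g J j σ i) :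
    ∀ y ∈ ball (0 : ℂ) 1 ∩ ball (β (!i)) ε, K (mkb i (b i, y), φ (mkb i (b i, y))) = 0 ∧
      EE J j σ (!i) (mkb i (b i, y), φ (mkb i (b i, y))) = 0 := by
  have hb' : b ∈ closedBall (0 : Bool → ℂ) 1 ∩ ball β ε := ⟨hq.1.1, hb⟩
  have hx := end2_proj c.pos i hb'
  have hy : b (!i) ∈ ball (0 : ℂ) 1 ∩ ball (β (!i)) ε :=
    ⟨mem_ball_zero_iff.2 hq.2.2.2.1, (end2_proj c.pos (!i) hb').2⟩
  have t : Tendsto (fun w : ℂ × Z => spl Z i (b i, w)) (𝓝 (b (!i), φ b)) (𝓝 (b, φ b)) := by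
    have : Continuous fun w : ℂ × Z => spl Z i (b i, w) := by fun_prop
    simpa only [spl_eq, mkb_eta] using this.tendsto (b (!i), φ b)
  have fr := endA_freq (γ := fun y => (y, φ (mkb i (b i, y)))) (π := Prod.fst) continuous_fst
    (accPt_iff_frequently_nhdsNE.2 hq.2.2.2.2) (by simp only [mkb_eta]) (by
      filter_upwards [t.eventually (c.near hb'), continuousAt_fst.eventually
        (isOpen_ball.mem_nhds hy.1)] with w a d e
      have := a.2 ((mkb_cball i zero_le_one).2 ⟨hx.1, ball_subset_closedBall d⟩) e.1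
      exact Prod.ext rfl this)
  have d : ∀ {G : Type} [NormedAddCommGroup G] [NormedSpace ℂ G] [CompleteSpace G]
      {f : (Bool → ℂ) × Z → G}, Reg U f → DifferentiableOn ℂ
        (fun y => f (mkb i (b i, y), φ (mkb i (b i, y)))) (ball 0 1 ∩ ball (β (!i)) ε) :=
    fun hf y hy =>
      (end2_frz c.pos (c.gcont hf.cont) (c.gdiff hf.diff) i hx hy).1.differentiableWithinAt
  intro y hy'
  refine ⟨endA_ident (d h.rK) hy (fr.mono fun y hy => hy.2.1) y hy', ?_⟩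
  rw [end2_E]
  exact endA_ident ((d (h.rj (!i))).sub ((d (h.rσ (!i))).mul ((h.dJ (!i)).mono inter_subset_left)))
    hy (fr.mono fun y hy => (end2_E i _ y _).symm.trans hy.2.2) y hy'

theorem end2_clB (h : EndData U z₀ H K g J j σ) (c : Ch U H g (wB J) β z ε ρ φ) {i : Bool}
    (hq : (β, z) ∈ closure (Bw U H K g J j σ i)) :
    ∀ y ∈ ball (0 : ℂ) 1 ∩ ball (β (!i)) ε, K (mkb i (β i, y), φ (mkb i (β i, y))) = 0 ∧
      EE J j σ (!i) (mkb i (β i, y), φ (mkb i (β i, y))) = 0 := by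
  intro y hy
  have hb : β ∈ closedBall (0 : Bool → ℂ) 1 ∩ ball β ε := ⟨c.hβ, mem_ball_self c.pos⟩
  have n1 := c.near hb
  rw [c.base] at n1
  set T : Set ℂ := {x | x ∈ closedBall (0 : ℂ) 1 ∩ ball (β i) ε ∧
    K (mkb i (x, y), φ (mkb i (x, y))) = 0 ∧ EE J j σ (!i) (mkb i (x, y), φ (mkb i (x, y))) = 0}
  have hT : β i ∈ closure T := by
    rw [mem_closure_iff_frequently] at hq ⊢
    have : Tendsto (fun q : (Bool → ℂ) × Z => q.1 i) (𝓝 (β, z)) (𝓝 (β i)) :=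
      (by fun_prop : Continuous fun q : (Bool → ℂ) × Z => q.1 i).tendsto _
    refine this.frequently ((hq.and_eventually n1).mono ?_)
    rintro ⟨b, w⟩ ⟨a1, a2, a3⟩
    obtain rfl : φ b = w := a3 a1.1.1 a1.1.2.2.1
    exact ⟨end2_proj c.pos i ⟨a1.1.1, a2⟩, end2_van h c a2 a1 y hy⟩
  have d : ∀ {G : Type} [NormedAddCommGroup G] [NormedSpace ℂ G] {f : (Bool → ℂ) × Z → G},
      Reg U f → ContinuousWithinAt (fun x => f (mkb i (x, y), φ (mkb i (x, y)))) T (β i) :=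
    fun hf => (((c.gcont hf.cont).comp (by fun_prop : ContinuousOn (fun x => mkb i (x, y)) _)
      fun x hx => end2_mem c.pos i hx (endB_sub hy)) _ (end2_proj c.pos i hb)).mono fun x hx => hx.1
  refine ⟨endD_cl (f := fun x => K (mkb i (x, y), φ (mkb i (x, y)))) (d h.rK) hT
    fun x hx => hx.2.1, ?_⟩
  rw [end2_E]
  exact endD_cl (f := fun x => j (!i) (mkb i (x, y), φ (mkb i (x, y))) -
    σ (!i) (mkb i (x, y), φ (mkb i (x, y))) * J (!i) y)
    ((d (h.rj (!i))).sub ((d (h.rσ (!i))).mul continuousWithinAt_const)) hT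
    fun x hx => (end2_E i x y _).symm.trans hx.2.2

theorem end2_discB (h : EndData U z₀ H K g J j σ) (c : Ch U H g (wB J) β z ε ρ φ) {i : Bool}
    (h1 : ‖β i‖ = 1) (hv : ∀ y ∈ ball (0 : ℂ) 1 ∩ ball (β (!i)) ε,
      K (mkb i (β i, y), φ (mkb i (β i, y))) = 0 ∧
      EE J j σ (!i) (mkb i (β i, y), φ (mkb i (β i, y))) = 0) :
    ∀ y ∈ ball (0 : ℂ) 1 ∩ ball (β (!i)) ε,
      (mkb i (β i, y), φ (mkb i (β i, y))) ∈ Bw U H K g J j σ i ∧
      DifferentiableAt ℂ (fun y => (mkb i (β i, y), φ (mkb i (β i, y)))) y ∧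
      DifferentiableAt ℂ (fun y => g (mkb i (β i, y), φ (mkb i (β i, y)))) y := by
  intro y hy
  have := FiniteDimensional.complete ℂ Z
  have hx := end2_proj c.pos i ⟨c.hβ, mem_ball_self c.pos⟩
  have m := end2_mem c.pos i hx (endB_sub hy)
  have d := (end2_frz c.pos c.cont c.diff i hx hy).1
  refine ⟨⟨⟨m.1, c.mem _ m⟩, (hv y hy).1, ?_, ?_, ?_⟩, DifferentiableAt.prodMk (by fun_prop) d,
    (end2_frz c.pos (c.gcont h.rg.cont) (c.gdiff h.rg.diff) i hx hy).1⟩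
  · simp only [mkb_same, h1]
  · simp only [mkb_not]; exact mem_ball_zero_iff.1 hy.1
  · simp only [mkb_same, mkb_not]
    refine accPt_iff_frequently_nhdsNE.1 (endA_acc (γ := fun y => (y, φ (mkb i (β i, y))))
      (π := Prod.fst) (continuousAt_id.prodMk d.continuousAt) ?_)
    filter_upwards [(isOpen_ball.inter isOpen_ball).mem_nhds hy] with y' hy'
    exact ⟨⟨(c.mem _ (end2_mem c.pos i hx (endB_sub hy'))).2.1, hv y' hy'⟩, rfl⟩

/-- near a torus point all exits lie on the torus -/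
theorem end2_wall (h : EndData U z₀ H K g J j σ) (h2 : End2g U H K g J j σ)
    (c : Ch U H g (wB J) β z ε ρ φ) (hβ : ∀ i, ‖β i‖ = 1) (hn : ∀ i, ¬ Bdd (deriv (J i)))
    {b : Bool → ℂ} (hb : b ∈ closedBall (0 : Bool → ℂ) 1 ∩ ball β ε)
    (hq : (b, φ b) ∈ closure (Acc U H K g J j σ)) (i : Bool) (h1 : ‖b i‖ = 1) : ‖b (!i)‖ = 1 := by
  refine (mem_closedBall_zero_iff.1 (end2_proj c.pos (!i) hb).1).eq_of_not_lt fun hlt => ?_
  by_cases hB : (b, φ b) ∈ Bw U H K g J j σ i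
  · exact hn _ (end2_last h c (hβ _) (end2_proj c.pos i hb) fun y hy =>
      (end2_van h c hb.2 hB y hy).2)
  · refine hn i (endD_one h h2 hq h1 hlt (c.mem b hb).1 (not_frequently.1 fun hf => hB ?_))
    exact ⟨⟨hb.1, c.mem b hb⟩, (endD_zero h hq ⟨hb.1, (c.mem b hb).1⟩).2, h1, hlt, hf⟩

/-- a circle of confinement -/
theorem end2_conf (h : EndData U z₀ H K g J j σ) (h2 : End2g U H K g J j σ)
    (c : Ch U H g (wB J) β z ε ρ φ) (hβ : ∀ i, ‖β i‖ = 1) (hn : ∀ i, ¬ Bdd (deriv (J i)))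
    (hq : (β, z) ∈ closure (Acc U H K g J j σ)) (i : Bool) :
    ∃ r, 0 < r ∧ r < ε ∧ ∀ y ∈ closedBall (0 : ℂ) 1 ∩ sphere (β (!i)) r,
      (mkb i (β i, y), φ (mkb i (β i, y))) ∉ closure (Acc U H K g J j σ) := by
  obtain ⟨Ψ, ν, a1, a2, a3, a4, a5⟩ := h2.s2 (!i)
  have hb : β ∈ closedBall (0 : Bool → ℂ) 1 ∩ ball β ε := ⟨c.hβ, mem_ball_self c.pos⟩
  have hx := end2_proj c.pos i hb
  have := endA_wall (hβ i).le
  have fz := fun y hy => end2_frz (y := y) c.pos (c.gcont a1.cont) (c.gdiff a1.diff) i hx hy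
  rcases endA_conf (ψ := fun y => Ψ (mkb i (β i, y), φ (mkb i (β i, y)))) (hβ (!i)) c.pos
    ((c.gcont a1.cont).comp (by fun_prop : ContinuousOn (fun y => mkb i (β i, y)) _)
      fun y hy => end2_mem c.pos i hx hy) (fun y hy => (fz y hy).1.differentiableWithinAt)
    (by
      simp only [mkb_eta, c.base]
      exact a2 _ (endD_zero h hq ⟨c.hβ, c.base ▸ (c.mem β hb).1⟩).2) with ⟨r, r1, r2, r3⟩ | h0
  · refine ⟨r, r1, r2, fun y hy hc => ?_⟩
    have m := end2_mem c.pos i hx ⟨hy.1, sphere_subset_ball r2 hy.2⟩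
    have e := end2_wall h h2 c hβ hn m hc i (by rw [mkb_same]; exact hβ i)
    rw [mkb_not] at e
    exact r3 y e (mem_sphere_iff_norm.1 hy.2) (a2 _ (endD_zero h hc ⟨m.1, (c.mem _ m).1⟩).2)
  · refine absurd (end2_last h c (hβ _) hx fun y hy => ?_) (hn _)
    have e0 : deriv (fun y => Ψ (mkb i (β i, y), φ (mkb i (β i, y)))) y = 0 := by
      have : (fun y => Ψ (mkb i (β i, y), φ (mkb i (β i, y)))) =ᶠ[𝓝 y] fun _ => 0 :=
        mem_of_superset ((isOpen_ball.inter isOpen_ball).mem_nhds hy) h0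
      rw [this.deriv_eq, deriv_const]
    have t1 := (fz y hy).2
    rw [e0] at t1
    have m := fun x hx => end2_mem (x := x) c.pos i hx (endB_sub hy)
    have cg : ContinuousOn (fun x => (mkb i (x, y), φ (mkb i (x, y))))
        (closedBall 0 1 ∩ ball (β i) ε) :=
      (continuousOn_id.prodMk c.cont).comp (by fun_prop : ContinuousOn (fun x => mkb i (x, y)) _) m
    have nd : ∀ x ∈ closedBall (0 : ℂ) 1 ∩ ball (β i) ε,
        (mkb i (x, y), φ (mkb i (x, y))) ∈ ND U H g := fun x hx => ⟨(m x hx).1, c.mem _ (m x hx)⟩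
    have cr : ∀ f : (Bool → ℂ) × Z → ℂ, ContinuousOn f (ND U H g) →
        Tendsto (fun x => f (mkb i (x, y), φ (mkb i (x, y)))) (𝓝[ball 0 1] (β i))
          (𝓝 (f (mkb i (β i, y), φ (mkb i (β i, y))))) := fun f hf =>
      ((hf.comp cg nd) _ hx).tendsto.mono_left (le_inf nhdsWithin_le_nhds
        (le_principal_iff.2 ((end2_ev hx.2).mono fun _ h => endB_sub h)))
    have sub : ND U H g ⊆ closedBall 0 1 ×ˢ U := fun q hq => ⟨hq.1, hq.2.1⟩
    have t2 := (cr ν a3).mul ((cr _ ((h.rj (!i)).cont.mono sub)).sub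
      ((cr _ ((h.rσ (!i)).cont.mono sub)).mul_const (J (!i) y)))
    have e := tendsto_nhds_unique t2 (t1.congr' ((end2_ev hx.2).mono fun x hx' => by
      have mo := end2_memo c.pos i hx' hy
      simp only []
      rw [c.tan a1.diff mo, a5 _ (nd x (endB_sub hx')) mo.1 _ (c.tanH mo _)
        ((endD_all i _).2 ⟨fun _ => mkb_same _ _, fun e => absurd rfl e⟩), end2_E]
      simp only [mkb_not, mul_one]))
    rw [end2_E]
    exact (mul_eq_zero.1 e).resolve_left (a4 _ (nd _ hx))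

theorem end2_torus (h : EndData U z₀ H K g J j σ) (h2 : End2g U H K g J j σ)
    {q₀ : (Bool → ℂ) × Z} (hq : q₀ ∈ closure (Acc U H K g J j σ)) (hnd : q₀ ∈ ND U H g)
    (hβ : ∀ i, ‖q₀.1 i‖ = 1) : ∃ i, Bdd (deriv (J i)) := by
  by_contra hn
  push Not at hn
  obtain ⟨β, z⟩ := q₀
  obtain ⟨ε₀, ρ, φ, c₀⟩ := end2_chart h hnd
  replace c₀ : Ch U H g (wB J) β z ε₀ ρ φ := c₀
  replace hβ : ∀ i, ‖β i‖ = 1 := hβ
  obtain ⟨μ, m1, m2, m3⟩ := h2.s1 false true (by simp)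
  have hb₀ : β ∈ closedBall (0 : Bool → ℂ) 1 ∩ ball β ε₀ := ⟨c₀.hβ, mem_ball_self c₀.pos⟩
  have nd : ∀ b ∈ closedBall (0 : Bool → ℂ) 1 ∩ ball β ε₀, (b, φ b) ∈ ND U H g :=
    fun b hb => ⟨hb.1, c₀.mem b hb⟩
  have cμ := c₀.cw (m1.comp (continuousOn_id.prodMk c₀.cont) nd)
  have cσ := c₀.cw (c₀.gcont (h.rσ false).cont)
  have cj := c₀.cw (c₀.gcont (h.rj false).cont)
  have cy : ContinuousWithinAt (fun b : Bool → ℂ => b true) (closedBall 0 1) β :=
    (continuous_apply true).continuousWithinAt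
  have μ0 : μ (β, φ β) ≠ 0 := m2 _ (nd β hb₀)
  have σ0 : σ false (β, φ β) ≠ 0 :=
    (h.inv β hb₀.1 _ (c₀.mem β hb₀).1 (c₀.mem β hb₀).2.1 (c₀.mem β hb₀).2.2).2 false
  have y0 : β true ≠ 0 := norm_ne_zero_iff.1 (by rw [hβ]; exact one_ne_zero)
  set a : (Bool → ℂ) → ℂ := fun b => σ false (b, φ b) / (μ (b, φ b) * b true) with ha
  have a0 : a β ≠ 0 := div_ne_zero σ0 (mul_ne_zero μ0 y0)
  have ca : ContinuousWithinAt a (closedBall 0 1) β := cσ.div (cμ.mul cy) (mul_ne_zero μ0 y0)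
  have cb := (cμ.mul cy).inv₀ (mul_ne_zero μ0 y0)
  have cc := cj.div cσ σ0
  obtain ⟨M₁, hM₁⟩ := cb.norm.tendsto.isBoundedUnder_le.eventually_le
  obtain ⟨M₂, hM₂⟩ := cc.norm.tendsto.isBoundedUnder_le.eventually_le
  have e1 := (Metric.tendsto_nhds.1 ca.tendsto (‖a β‖ / 2) (half_pos (norm_pos_iff.2 a0))).and
    (hM₁.and (hM₂.and (cy.eventually_ne y0)))
  rw [eventually_nhdsWithin_iff] at e1
  obtain ⟨ε₁, hε₁, e2⟩ := Metric.eventually_nhds_iff_ball.1 e1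
  set ε := min ε₀ (min ε₁ 1)
  have hε : 0 < ε := lt_min c₀.pos (lt_min hε₁ one_pos)
  have c := c₀.mono hε (min_le_left _ _)
  have s0 : ball β ε ⊆ ball β ε₀ := ball_subset_ball (min_le_left _ _)
  have s1 : ball β ε ⊆ ball β ε₁ := ball_subset_ball ((min_le_right _ _).trans (min_le_left _ _))
  obtain ⟨r, r1, r2, r3⟩ := end2_conf h h2 c hβ hn hq false
  have r4 : r < 1 := r2.trans_le ((min_le_right _ _).trans (min_le_right _ _))
  set Γ : ℂ × ℂ → (Bool → ℂ) × Z := fun p => (mkb false p, φ (mkb false p)) with hΓ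
  set R : Set (ℂ × ℂ) := (closedBall 0 1 ∩ closedBall (β false) r) ×ˢ
    (closedBall 0 1 ∩ closedBall (β true) r) with hR
  have mR : ∀ p ∈ R, mkb false p ∈ closedBall (0 : Bool → ℂ) 1 ∩ ball β ε := fun p hp =>
    end2_mem hε false ⟨hp.1.1, closedBall_subset_ball r2 hp.1.2⟩
      ⟨hp.2.1, closedBall_subset_ball r2 hp.2.2⟩
  have cΓ : ContinuousOn Γ R :=
    (continuousOn_id.prodMk c.cont).comp (mkb false).continuous.continuousOn mR
  set G : Set (ℂ × ℂ) := R ∩ Γ ⁻¹' closure (Acc U H K g J j σ) with hG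
  have Gc : IsClosed G := cΓ.preimage_isClosed_of_isClosed
    ((isClosed_closedBall.inter isClosed_closedBall).prod
      (isClosed_closedBall.inter isClosed_closedBall)) isClosed_closure
  have e3 : ∀ᶠ x in 𝓝 (β false), ∀ y ∈ sphere (β true) r, (x, y) ∉ G :=
    (isCompact_sphere _ _).eventually_forall_of_forall_eventually fun y hy =>
      Gc.isOpen_compl.mem_nhds fun hp => r3 y ⟨hp.1.2.1, hy⟩ hp.2
  obtain ⟨δ, hδ, e4⟩ := Metric.eventually_nhds_iff_ball.1 (e3.and (ball_mem_nhds _ r1))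
  obtain ⟨C₁, hC₁⟩ := c.der _ (h.rj false) (h.dj false)
  obtain ⟨C₂, hC₂⟩ := c.der _ (h.rσ false) (h.dσ false)
  have inn : ∀ p ∈ R, ‖p.1‖ < 1 → ‖p.2‖ < 1 → Γ p ∈ closure (Acc U H K g J j σ) →
      Γ p ∈ Acc U H K g J j σ := fun p hp b1 b2 b3 =>
    endD_clA h b3 ⟨(mkb_ball false one_pos).2 ⟨mem_ball_zero_iff.2 b1, mem_ball_zero_iff.2 b2⟩,
      (c.mem _ (mR p hp)).1⟩ (c.mem _ (mR p hp)).2.2
  refine hn false (endC_core Gc (hβ false) (hβ true) hδ r4
    (fun p hp => ⟨mem_closedBall_zero_iff.1 hp.1.1.1, mem_closedBall_zero_iff.1 hp.1.2.1, hp.1.2.2⟩)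
    (fun p hp _ b => end2_wall h h2 c hβ hn (mR p hp.1) hp.2 false b) a0
    (C := (|C₂| * (1 + M₂) * M₂ + |C₁| * (1 + M₂)) * M₁) (fun p hp b1 b2 => ?_) ?_)
  · have b3 : ‖p.2‖ < 1 := (mem_closedBall_zero_iff.1 hp.1.2.1).lt_of_ne fun e =>
      b2.ne (end2_wall h h2 c hβ hn (mR p hp.1) hp.2 true e)
    have b4 : p.2 ∈ ball (β true) r := (mem_closedBall.1 hp.1.2.2).lt_of_ne fun e =>
      (e4 _ b1).1 p.2 e hp
    have hA := inn p hp.1 b2 b3 hp.2
    obtain ⟨γ, g0, g1, g2⟩ := endD_disc h h2 hA false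
    replace g0 : γ p.1 = Γ p := g0
    replace g1 : ∀ᶠ x in 𝓝 p.1, DifferentiableAt ℂ γ x ∧ (γ x).1 false = x ∧
      γ x ∈ Acc U H K g J j σ := g1
    have mo : mkb false p ∈ ball (0 : Bool → ℂ) 1 ∩ ball β ε := ⟨hA.1.1, (mR p hp.1).2⟩
    have hO : IsOpen ((ball (0 : ℂ) 1 ∩ ball (β false) r) ×ˢ (ball (0 : ℂ) 1 ∩ ball (β true) r)) :=
      (isOpen_ball.inter isOpen_ball).prod (isOpen_ball.inter isOpen_ball)
    have hOn := hO.mem_nhds (⟨⟨mem_ball_zero_iff.2 b2, (e4 _ b1).2⟩, mem_ball_zero_iff.2 b3, b4⟩ :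
      p ∈ (ball (0 : ℂ) 1 ∩ ball (β false) r) ×ˢ (ball (0 : ℂ) 1 ∩ ball (β true) r))
    have hOR : (ball (0 : ℂ) 1 ∩ ball (β false) r) ×ˢ (ball (0 : ℂ) 1 ∩ ball (β true) r) ⊆ R :=
      prod_mono (inter_subset_inter ball_subset_closedBall ball_subset_closedBall)
        (inter_subset_inter ball_subset_closedBall ball_subset_closedBall)
    refine ⟨fun x => (γ x).1 true, ?_, by simp only [g0]; rfl, g1.mono fun x hx =>
      ((ContinuousLinearMap.proj (R := ℂ) (φ := fun _ : Bool => ℂ) true).comp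
        (ContinuousLinearMap.fst ℂ (Bool → ℂ) Z)).differentiableAt.comp x hx.1, ?_⟩
    · obtain ⟨t1, t2, t3, t4⟩ := endD_vec h g1
      rw [g0] at t1 t2
      set v := deriv γ p.1
      set b := mkb false p with hb
      set u : (Bool → ℂ) × Z := (mkb false (1, 0), fderiv ℂ φ b (mkb false (1, 0))) with hu
      have t5 := m3 _ hA.1 hA.2.1 (v - u) (by rw [map_sub, t1, c.tanH mo, sub_zero])
        ((endD_all false _).2 ⟨fun _ => by
          show v.1 false - mkb false (1, 0) false = 0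
          rw [t3, mkb_same, sub_self], fun e => absurd rfl e⟩)
      have t6 : (v - u).1 true = v.1 true := sub_zero _
      rw [map_sub, t2, t6, (endD_fE h false ⟨hA.1.1, hA.1.2.1⟩).2, ← c.tan (h.rj false).diff mo,
        ← c.tan (h.rσ false).diff mo] at t5
      have k1 := hC₁ b mo (mkb false (1, 0))
      have k2 := hC₂ b mo (mkb false (1, 0))
      rw [wB, endD_sum false] at k1 k2
      simp only [mkb_same, mkb_not, norm_zero, zero_mul, add_zero, norm_one, one_mul] at k1 k2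
      set dj := fderiv ℂ (fun b => j false (b, φ b)) b (mkb false (1, 0))
      set dσ := fderiv ℂ (fun b => σ false (b, φ b)) b (mkb false (1, 0))
      obtain ⟨l1, l2, l3, l4⟩ := e2 b (s1 mo.2) (ball_subset_closedBall mo.1)
      have l5 : μ (b, φ b) ≠ 0 := m2 _ (endD_nd hA)
      have l6 : σ false (b, φ b) ≠ 0 :=
        (h.inv b (ball_subset_closedBall mo.1) _ hA.1.2.1 hA.1.2.2.1 hA.2.1).2 false
      have l7 : J false (b false) = j false (b, φ b) / σ false (b, φ b) := by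
        have l9 : j false (b, φ b) - σ false (b, φ b) * J false (b false) = 0 := hA.1.2.2.2.2 false
        rw [eq_div_iff l6]
        linear_combination -l9
      have l8 : ‖J false (b false)‖ ≤ M₂ := by rw [l7]; exact l3
      refine ⟨a b, (dσ * J false (b false) - dj) * (μ (b, φ b) * b true)⁻¹, ?_,
        by rw [← dist_eq_norm]; exact l1.le, ?_⟩
      · have t7 : 0 - (dj - dσ * J false (b false) -
            σ false (b, φ b) * deriv (J false) p.1 * 1) = μ (b, φ b) * v.1 true := t5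
        rw [t4, show p.2 = b true from rfl, ha]
        field_simp
        linear_combination -t7
      · have n1 : ‖dj‖ ≤ |C₁| * (1 + M₂) := k1.trans (by gcongr; exact le_abs_self _)
        have n2 : ‖dσ‖ ≤ |C₂| * (1 + M₂) := k2.trans (by gcongr; exact le_abs_self _)
        rw [norm_mul]
        refine mul_le_mul ((norm_sub_le _ _).trans (add_le_add ?_ n1)) l2 (norm_nonneg _) ?_
        · rw [norm_mul]
          exact mul_le_mul n2 l8 (norm_nonneg _) ((norm_nonneg _).trans n2)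
        · have := (norm_nonneg _).trans l8
          positivity
    · have t1 : Tendsto Γ (𝓝 p) (𝓝 (Γ p)) := cΓ.continuousAt (mem_of_superset hOn hOR)
      have t2 : Tendsto (fun p' : ℂ × ℂ => γ p'.1) (𝓝 p) (𝓝 (Γ p)) :=
        g0 ▸ g1.self_of_nhds.1.continuousAt.tendsto.comp continuousAt_fst
      filter_upwards [hOn, t1.eventually g2, t2.eventually (c.near (mR p hp.1)),
        continuousAt_fst.eventually g1] with p' d1 d2 d3 d4
      constructor
      · intro d5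
        have := d2 (inn p' d5.1 (mem_ball_zero_iff.1 d1.1.1) (mem_ball_zero_iff.1 d1.2.1) d5.2).1
        exact congrArg (fun q : (Bool → ℂ) × Z => q.1 true) this
      · intro d5
        have d6 : (γ p'.1).1 = mkb false p' := by
          rw [← mkb_eta false (γ p'.1).1, d4.2.1]
          exact congrArg (fun y => mkb false (p'.1, y)) d5
        have d7 := d3.2 (ball_subset_closedBall d4.2.2.1.1) d4.2.2.1.2.2.1
        refine ⟨hOR d1, subset_closure ?_⟩
        rw [show Γ p' = γ p'.1 from Prod.ext d6.symm (by rw [← d7, d6])]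
        exact d4.2.2
  · have n1 := c.near ⟨c.hβ, mem_ball_self hε⟩
    rw [c.base] at n1
    have n2 : ∀ᶠ q : (Bool → ℂ) × Z in 𝓝 (β, z), q.1 ∈ ball β (min δ r) :=
      continuousAt_fst.eventually (ball_mem_nhds _ (lt_min hδ r1))
    obtain ⟨q, q1, q2, q3⟩ := ((mem_closure_iff_frequently.1 hq).and_eventually (n1.and n2)).exists
    have q4 := (endD_ball false (lt_min hδ r1)).1 q3
    have q5 := (endD_ball false one_pos).1 q1.1.1
    refine ⟨(q.1 false, q.1 true), ⟨⟨⟨ball_subset_closedBall q5.1, ?_⟩,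
      ball_subset_closedBall q5.2, ?_⟩, subset_closure ?_⟩, ball_subset_ball (min_le_left _ _) q4.1,
      mem_ball_zero_iff.1 q5.1⟩
    · exact ball_subset_closedBall (ball_subset_ball (min_le_right _ _) q4.1)
    · exact ball_subset_closedBall (ball_subset_ball (min_le_right _ _) q4.2)
    · have e : mkb false (q.1 false, q.1 true) = q.1 := mkb_eta false q.1
      simp only [hΓ, e, q2.2 (ball_subset_closedBall q1.1.1) q1.1.2.2.1]
      exact q1

theorem endThm_bool : EndThm Bool := by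
  intro Z F _ _ _ _ _ _ U z₀ H K g J j σ h h2
  set A := Acc U H K g J j σ with hA
  set A' := A ∪ (Bw U H K g J j σ false ∪ Bw U H K g J j σ true) with hA'
  have hA1 : ∀ q ∈ A', q ∈ ND U H g ∧ K q = 0 := by
    rintro q (hq | hq | hq)
    · exact ⟨endD_nd hq, hq.1.2.2.2.1⟩
    · exact ⟨hq.1, hq.2.1⟩
    · exact ⟨hq.1, hq.2.1⟩
  have zH : ∀ q ∈ closure A', q ∈ closedBall (0 : Bool → ℂ) 1 ×ˢ U → H q = 0 := fun q hq hm =>
    endB_zero h.rH.cont h.op (fun q hq => ⟨(hA1 q hq).1.1, (hA1 q hq).1.2.2.1⟩) hq hm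
  have zK : ∀ q ∈ closure A', q ∈ closedBall (0 : Bool → ℂ) 1 ×ˢ U → K q = 0 := fun q hq hm =>
    endB_zero h.rK.cont h.op (fun q hq => ⟨(hA1 q hq).1.1, (hA1 q hq).2⟩) hq hm
  have h1 : (1 : Bool → ℂ) ∈ closedBall (0 : Bool → ℂ) 1 := by simp
  have hp1 : ((1 : Bool → ℂ) false + 1) + ((1 : Bool → ℂ) true + 1) = 4 := by norm_num
  obtain ⟨q, hq, hb, hz, hg, hd⟩ := endA_exit h.op h.mem (β := 1) h.rg.cont (A := A')
    (fun q hq => ⟨(hA1 q hq).1.1, (hA1 q hq).1.2.2.2⟩) (by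
      filter_upwards [h.iso, nhdsWithin_le_nhds (h.op.mem_nhds h.mem)] with z a c d
      exact a ⟨zH _ d ⟨h1, c⟩, zK _ d ⟨h1, c⟩⟩) (closure_mono subset_union_left h.seq)
    (p := fun b => (b false + 1) + (b true + 1)) (by fun_prop) (fun b hb hne => by
      have a : ∀ k, ‖b k‖ ≤ 1 := fun k =>
        mem_closedBall_zero_iff.1 ((endD_cball k zero_le_one).1 hb).1
      have a' : ∀ k, ‖b k + 1‖ ≤ 2 := fun k =>
        (norm_add_le _ _).trans (by rw [norm_one]; linarith [a k])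
      rw [hp1]
      refine (norm_add_le _ _).trans_lt ?_
      obtain ⟨k, hk⟩ := Function.ne_iff.1 hne
      have := endA_pk norm_one (a k) hk
      cases k <;> simp only [Complex.norm_ofNat] <;> linarith [a' false, a' true])
    (by rw [hp1]; norm_num)
  have hnd : q ∈ ND U H g := ⟨hb, hz, zH q hq ⟨hb, hz⟩, hg⟩
  have le1 : ∀ k, ‖q.1 k‖ ≤ 1 := fun k =>
    mem_closedBall_zero_iff.1 ((endD_cball k zero_le_one).1 hb).1
  have caseB : ∀ i, q ∈ closure (Bw U H K g J j σ i) → ∃ i, Bdd (deriv (J i)) := by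
    intro i hi
    obtain ⟨ε, ρ, φ, c⟩ := end2_chart h hnd
    have v := end2_clB h c hi
    have e1 : ‖q.1 i‖ = 1 := closure_minimal (t := {q : (Bool → ℂ) × Z | ‖q.1 i‖ = 1})
      (fun q hq => hq.2.2.1) (isClosed_eq (by fun_prop) continuous_const) hi
    rcases (le1 (!i)).lt_or_eq with hlt | heq
    · exfalso
      refine endA_nc (γ := fun y => (mkb i (q.1 i, y), φ (mkb i (q.1 i, y))))
        (π := fun q => q.1 (!i)) (Eventually.of_forall fun y => mkb_not _ _)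
        (hd _ (q.1 (!i)) (by simp only [mkb_eta, c.base]) ?_)
      filter_upwards [(isOpen_ball.inter isOpen_ball).mem_nhds
        ⟨mem_ball_zero_iff.2 hlt, mem_ball_self c.pos⟩] with y hy
      have := end2_discB h c e1 v y hy
      refine ⟨subset_closure (Or.inr ?_), this.2⟩
      cases i
      · exact Or.inl this.1
      · exact Or.inr this.1
    · exact ⟨_, end2_last h c heq (end2_proj c.pos i ⟨c.hβ, mem_ball_self c.pos⟩)
        fun y hy => (v y hy).2⟩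
  rw [hA', closure_union, closure_union] at hq
  rcases hq with hq | hq | hq
  · have one : ∀ i, ‖q.1 i‖ = 1 → ‖q.1 (!i)‖ < 1 → ∃ i, Bdd (deriv (J i)) := by
      intro i a1 a2
      by_cases hB : q ∈ Bw U H K g J j σ i
      · exact caseB i (subset_closure hB)
      · exact ⟨i, endD_one h h2 hq a1 a2 hz (not_frequently.1 fun hf =>
          hB ⟨hnd, (endD_zero h hq ⟨hb, hz⟩).2, a1, a2, hf⟩)⟩
    rcases (le1 false).lt_or_eq with a1 | a1 <;> rcases (le1 true).lt_or_eq with a2 | a2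
    · exfalso
      have hqA := endD_clA h hq ⟨(endD_ball false one_pos).2
        ⟨mem_ball_zero_iff.2 a1, mem_ball_zero_iff.2 a2⟩, hz⟩ hg
      obtain ⟨γ, g0, g1, -⟩ := endD_disc h h2 hqA false
      refine endA_nc (γ := γ) (π := fun q => q.1 false) (g1.mono fun x hx => hx.2.1)
        (hd γ _ g0 (g1.mono fun x hx => ⟨subset_closure (Or.inl hx.2.2), hx.1, ?_⟩))
      exact (h.rg.diff.differentiableAt ((isOpen_ball.prod h.op).mem_nhds
        ⟨hx.2.2.1.1, hx.2.2.1.2.1⟩)).comp x hx.1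
    · exact one true a2 a1
    · exact one false a1 a2
    · exact end2_torus h h2 hq hnd ((endD_all false _).2 ⟨a1, a2⟩)
  · exact caseB _ hq
  · exact caseB _ hq

end Pool.Agent.MP_098ecc_co.H97
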