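import Pool.Agent.MP_098ecc_co.H97.CaseA1
import Pool.Agent.MP_098ecc_co.H97.End2

set_option autoImplicit false

namespace Pool.Agent.MP_098ecc_co.H97

open Metric Filter Topology Set Function
open scoped BoundedContinuousFunction

variable {D : Dat} {P : Polynomial (Polynomial ℚ)} {δ : Polynomial ℚ} {p : ℕ → Amb}

theorem a2_inf {q : Amb} (a₁ : ¬ Adm D.L₁ (q.B₁ D)) : D.L₁.Infinite :=
  fun h => a₁ (adm_of_finite h _)

theorem a2_ns (hi : D.L₁.Infinite) : ¬ (D.m = 1 ∧ ∀ l ∈ D.L₁, l ≤ 2) :=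
  fun h => hi ((finite_Iic 2).subset h.2)

theorem caseA2 (hB : Bez P δ) {q : Amb} (hw : Wall D q) (hs : WSeq D p q)
    (hg : ∀ n, Good D P (p n)) (hδ : ∀ n, Polynomial.aeval ((p n).t : ℂ) δ ≠ 0)
    (a₁ : ¬ Adm D.L₁ (q.B₁ D)) (a₂ : Adm D.L₂ (q.B₂ D)) : H85.EvPer D.L₂ := by
  by_contra hn
  have hi := a2_inf a₁
  have hB1 : q.B₁ D = 1 := hw.b₁.resolve_left a₁
  obtain ⟨he, d₁, d₂, sp, -⟩ := wallSol hw hs
  replace sp := sp a₁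
  have hn₁ : ¬ H85.EvPer D.L₁ := fun h => not_sparse h hi sp
  obtain ⟨lt, lX, lY, l1, l2⟩ := a1_lims hs.lim
  have p1 := hw.c₁.pos
  have p2 := hw.c₂.pos
  have hm := D.hm
  have y0 : 0 < q.Y 0 := by rw [hw.y0]; exact one_pos
  have z12 : q.z₁ < q.z₂⁻¹ := by rw [← one_div, lt_div_iff₀ p2]; exact hw.snd
  obtain ⟨⟨R₁, hR₁, bX⟩, R₂, hR₂, bY⟩ := a1_bnd hw hs
  -- radii
  obtain ⟨ρ, ⟨hMaj, hPX⟩, hρ⟩ := (((wall_geo hw hs).2 a₂).and self_mem_nhdsWithin).exists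
  have hρ0 : 0 < ρ := hMaj.1
  replace hρ : ρ < q.z₂ := hρ
  obtain ⟨RX, hX1, hX2⟩ := exists_between (inv_strictAnti₀ hρ0 hρ)
  have RX0 : 0 < RX := (inv_pos.2 p2).trans hX1
  obtain ⟨ρ₁, hZ₁, h11, h12⟩ := ((zero1a hm hw.c₁ (hw.px 0) (a1_aperX hw) bX hR₁).and
    (Ioo_mem_nhdsGT z12)).exists
  have ρ10 : 0 < ρ₁ := p1.trans h11
  have z2ρ : q.z₂ < ρ₁⁻¹ := by rwa [lt_inv_comm₀ p2 ρ10]
  obtain ⟨RY, hY1, hY2⟩ := exists_between (inv_strictAnti₀ p1 h11)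
  have RY0 : 0 < RY := (inv_pos.2 ρ10).trans hY1
  obtain ⟨ρ₂, hZ₂, h21⟩ := ((zero1a hm hw.c₂ y0 (a1_aperY hw (a2_ns hi)) bY hR₂).and
    (Ioo_mem_nhdsGT z2ρ)).exists
  have iX : RX⁻¹ < q.z₂ := by rwa [inv_lt_comm₀ RX0 p2]
  have iY : RY⁻¹ < ρ₁ := by rwa [inv_lt_comm₀ RY0 ρ10]
  have zY : q.z₁ < RY⁻¹ := by rwa [lt_inv_comm₀ p1 RY0]
  have z2Y : q.z₂ < RY := z2ρ.trans hY1
  have YX : RY⁻¹ < RX := iY.trans (h12.trans hX1)
  -- sequences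
  obtain ⟨u, u₀, hu₀, hu, lu⟩ := bs_conv (fun n i => (hs.pos n).c₁.nn i) lX tendsto_const_nhds
    (fun _ => hρ0.le) hPX RX0 (by rwa [← one_div, lt_div_iff₀ hρ0] at hX2)
  obtain ⟨v, v₀, hv₀, hv, lv⟩ := bs_conv (fun n i => (hs.pos n).c₂.nn i) lY l1
    (fun n => (hs.pos n).c₁.pos.le) hs.py RY0 (by rwa [← one_div, lt_div_iff₀ p1] at hY2)
  -- sides
  obtain ⟨S₂, s₂, pl₂, f1, f2, f3, f4, f5, m₂, re₂⟩ := plain Unit hm D.z₂ 1 0 (hρ.trans z2Y)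
    (by rwa [lt_inv_comm₀ hρ0 RX0]) (iX.trans z2Y) (q.t : ℂ) v₀ (hv₀ ▸ hMaj) (Or.inl rfl)
  obtain ⟨S₁, w, w₀, s₁, ha₁, e1, e2, e3, e5, m₁, lw, hc₁, hβ, hv₁, -, -, re₁⟩ :=
    hardPack (κ := Unit) () hm D.z₁ (M := 1) le_rfl YX zY (fun n => (hs.pos n).c₁)
      (fun n => (hs.pos n).px 0) hw.c₁ (hw.px 0)
      (a1_aper_of_one (hw.px 1)) l1 hu₀ hu lu (fun n => (hs.pos n).b₁.2 hi) (hB1 ▸ hs.b₁) lt
      (y := q.Y 1) ((lY 1).congr fun n => by rw [pow_one]; exact (hs.pos n).eqs.hy 1 le_rfl)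
  have e4 := ha₁.hk
  have hc : Compat D.m S₁ S₂ :=
    ⟨hm, s₁, s₂, by rw [e1, f2], by rw [e2, f1], by rw [e3], by rw [e3, e4, f3], f4,
      fun i => by simp [pl₂.hI, ha₁.hI]⟩
  have ltc : Tendsto (fun n => (((p n).t : ℝ) : ℂ)) atTop (𝓝 (q.t : ℂ)) :=
    (Complex.continuous_ofReal.tendsto _).comp lt
  obtain ⟨N, sq⟩ := seqD_shift (S₁ := S₁) (S₂ := S₂) (D := D) (τ₀ := q.t)
    (e₀ := (w₀, (), u₀, v₀)) (p := p) (τ := fun n => (p n).t)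
    (e := fun n => (w n, (), u n, v n)) e5 f5 m₁ m₂ hs.pos
    (fun n => ⟨(hs.pos n).tpos, by rw [e3, pow_one]⟩)
    (by filter_upwards [hu] with n h; rw [e1, e4, pow_zero, one_smul]; exact h)
    (by filter_upwards [hv] with n h; rw [f1]; exact h)
    re₁
    (by
      filter_upwards [(ltc.prodMk_nhds (tendsto_const_nhds.prodMk_nhds lv)).eventually
        (s₂.op.mem_nhds m₂)] with n h
      exact re₂ _ _ _ _ h (by exact_mod_cast (hs.pos n).tpos.ne'))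
    (ltc.prodMk_nhds (lw.prodMk_nhds (tendsto_const_nhds.prodMk_nhds (lu.prodMk_nhds lv))))
    (by
      refine tendsto_pi_nhds.2 fun i => ?_
      simp only [bOf, pl₂.hI, Finset.notMem_empty, if_false, Pi.one_apply]
      have := (Complex.continuous_ofReal.tendsto _).comp hs.b₁
      rw [hB1] at this
      exact_mod_cast this)
    (by
      filter_upwards [l1.eventually_lt_const (z12.trans hX1), l2.eventually_lt_const z2Y,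
        l1.eventually_lt_const zY] with n h1 h2 h3
      rw [e1, f1]
      refine ⟨h1, h2, Or.inr ?_⟩
      rw [← one_div, lt_div_iff₀ RY0] at h3
      linarith)
    (fun i i' h => absurd rfl h)
  have iso : IsoHyp S₁ S₂ q.t (w₀, (), u₀, v₀) :=
    isoA hw hc (by rw [e1]; exact hu₀) (by rw [f1]; exact hv₀)
      (primApp hw he d₁ d₂ hn fun h => absurd h hn₁) hZ₁ hZ₂ (by rw [e1]; exact h12.trans hX1)
      (by rw [f1]; exact h21.2.trans hY1) (by rw [f1]; exact iY)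
      (by rw [e1]; exact iX.trans h21.1) (Or.inl ⟨(), ha₁⟩) (Or.inr (by rw [e1]; exact iX))
  obtain ⟨i, hi'⟩ := wendA endThm_unit hB hc sq (fun n => hg _) (fun n => hδ _)
    (fun i _ => ⟨hβ, hv₁, fun r₀ h1 h2 => by
      rw [e2] at h1
      rw [e1] at h2
      show ∃ r : ℝ, 0 < r ∧ zv r₀ (un S₁.Rin u₀) (un S₁.Rout v₀) (S₁.c (q.t, w₀, u₀)) = r
      rw [e1, e2, hu₀, hv₀, hc₁]
      exact zv_pos RY0 h1 h2 (hu₀ ▸ bnd_un RX RX0 u₀) (hv₀ ▸ bnd_un RY RY0 v₀) hw.c₁.nn hw.c₂.nn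
        (hw.px 1) y0 p1 (zY.trans h1)⟩)
    (fun i hi => by simp [pl₂.hI] at hi)
    (by exact_mod_cast hw.tpos.ne') (fun i => by simpa [cL, pl₂.hI, e5] using sp) iso
  exact hn₁ (by simpa [cL, pl₂.hI, e5] using hi')

theorem caseA3 (hB : Bez P δ) {q : Amb} (hw : Wall D q) (hs : WSeq D p q)
    (hg : ∀ n, Good D P (p n)) (hδ : ∀ n, Polynomial.aeval ((p n).t : ℂ) δ ≠ 0)
    (a₁ : ¬ Adm D.L₁ (q.B₁ D)) (a₂ : ¬ Adm D.L₂ (q.B₂ D)) : H85.EvPer D.L₂ := by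
  by_contra hn
  have hi := a2_inf a₁
  have hB1 : q.B₁ D = 1 := hw.b₁.resolve_left a₁
  have hB2 : q.B₂ D = 1 := hw.b₂.resolve_left a₂
  obtain ⟨he, d₁, d₂, sp₁, sp₂⟩ := wallSol hw hs
  replace sp₁ := sp₁ a₁
  replace sp₂ := sp₂ a₂
  have hn₁ : ¬ H85.EvPer D.L₁ := fun h => not_sparse h hi sp₁
  obtain ⟨lt, lX, lY, l1, l2⟩ := a1_lims hs.lim
  have p1 := hw.c₁.pos
  have p2 := hw.c₂.pos
  have hm := D.hm
  have y0 : 0 < q.Y 0 := by rw [hw.y0]; exact one_pos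
  have z12 : q.z₁ < q.z₂⁻¹ := by rw [← one_div, lt_div_iff₀ p2]; exact hw.snd
  obtain ⟨⟨R₁, hR₁, bX⟩, R₂, hR₂, bY⟩ := a1_bnd hw hs
  -- radii
  obtain ⟨ρ₁, hZ₁, h11, h12⟩ := ((zero1a hm hw.c₁ (hw.px 0) (a1_aperX hw) bX hR₁).and
    (Ioo_mem_nhdsGT z12)).exists
  have ρ10 : 0 < ρ₁ := p1.trans h11
  have z2ρ : q.z₂ < ρ₁⁻¹ := by rwa [lt_inv_comm₀ p2 ρ10]
  obtain ⟨ρ₂, hZ₂, h21, h22⟩ := ((zero1a hm hw.c₂ y0 (a1_aperY hw (a2_ns hi)) bY hR₂).and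
    (Ioo_mem_nhdsGT z2ρ)).exists
  have ρ20 : 0 < ρ₂ := p2.trans h21
  have ρ12 : ρ₁ < ρ₂⁻¹ := by rwa [lt_inv_comm₀ ρ10 ρ20]
  obtain ⟨RY, hY1, hY2⟩ := exists_between (inv_strictAnti₀ p1 h11)
  have RY0 : 0 < RY := (inv_pos.2 ρ10).trans hY1
  obtain ⟨RX, hX1, hX2⟩ := exists_between (inv_strictAnti₀ p2 h21)
  have RX0 : 0 < RX := (inv_pos.2 ρ20).trans hX1
  have iX : RX⁻¹ < ρ₂ := by rwa [inv_lt_comm₀ RX0 ρ20]
  have iY : RY⁻¹ < ρ₁ := by rwa [inv_lt_comm₀ RY0 ρ10]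
  have zY : q.z₁ < RY⁻¹ := by rwa [lt_inv_comm₀ p1 RY0]
  have zX : q.z₂ < RX⁻¹ := by rwa [lt_inv_comm₀ p2 RX0]
  have YX : RY⁻¹ < RX := iY.trans (ρ12.trans hX1)
  have XY : RX⁻¹ < RY := iX.trans (h22.trans hY1)
  -- sequences
  obtain ⟨u, u₀, hu₀, hu, lu⟩ := bs_conv (fun n i => (hs.pos n).c₁.nn i) lX l2
    (fun n => (hs.pos n).c₂.pos.le) hs.px RX0 (by rwa [← one_div, lt_div_iff₀ p2] at hX2)
  obtain ⟨v, v₀, hv₀, hv, lv⟩ := bs_conv (fun n i => (hs.pos n).c₂.nn i) lY l1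
    (fun n => (hs.pos n).c₁.pos.le) hs.py RY0 (by rwa [← one_div, lt_div_iff₀ p1] at hY2)
  -- sides
  obtain ⟨S₁, w, w₀, s₁, ha₁, e1, e2, e3, e5, m₁, lw, hc₁, hβ, hv₁, -, -, re₁⟩ :=
    hardPack (κ := Bool) false hm D.z₁ (M := 1) le_rfl YX zY (fun n => (hs.pos n).c₁)
      (fun n => (hs.pos n).px 0) hw.c₁ (hw.px 0)
      (a1_aper_of_one (hw.px 1)) l1 hu₀ hu lu (fun n => (hs.pos n).b₁.2 hi) (hB1 ▸ hs.b₁) lt
      (y := q.Y 1) ((lY 1).congr fun n => by rw [pow_one]; exact (hs.pos n).eqs.hy 1 le_rfl)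
  obtain ⟨S₂, w', w₀', s₂, ha₂, f1, f2, f3, f5, m₂, lw', hc₂, hβ', hv₂, -, -, re₂⟩ :=
    hardPack (κ := Bool) true hm D.z₂ (M := 1) le_rfl XY zX (fun n => (hs.pos n).c₂)
      (fun n => by rw [(hs.pos n).eqs.y0]; exact one_pos) hw.c₂ y0
      (a1_aper_of_one (a1_y1 hw)) l2 hv₀ hv lv (fun n => (hs.pos n).b₂.2) (hB2 ▸ hs.b₂) lt
      (y := q.X 1) ((lX 1).congr fun n => by rw [pow_one]; exact (hs.pos n).eqs.hx 1 le_rfl)
  have e4 := ha₁.hk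
  have hc : Compat D.m S₁ S₂ :=
    ⟨hm, s₁, s₂, by rw [e1, f2], by rw [e2, f1], by rw [e3], by rw [e3, e4, f3], ha₂.hk,
      fun i => by cases i <;> simp [ha₂.hI, ha₁.hI]⟩
  have ltc : Tendsto (fun n => (((p n).t : ℝ) : ℂ)) atTop (𝓝 (q.t : ℂ)) :=
    (Complex.continuous_ofReal.tendsto _).comp lt
  obtain ⟨N, sq⟩ := seqD_shift (S₁ := S₁) (S₂ := S₂) (D := D) (τ₀ := q.t)
    (e₀ := (w₀, w₀', u₀, v₀)) (p := p) (τ := fun n => (p n).t)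
    (e := fun n => (w n, w' n, u n, v n)) e5 f5 m₁ m₂ hs.pos
    (fun n => ⟨(hs.pos n).tpos, by rw [e3, pow_one]⟩)
    (by filter_upwards [hu] with n h; rw [e1, e4, pow_zero, one_smul]; exact h)
    (by filter_upwards [hv] with n h; rw [f1]; exact h)
    re₁ re₂
    (ltc.prodMk_nhds (lw.prodMk_nhds (lw'.prodMk_nhds (lu.prodMk_nhds lv))))
    (by
      refine tendsto_pi_nhds.2 fun i => ?_
      have t1 := (Complex.continuous_ofReal.tendsto _).comp hs.b₁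
      have t2 := (Complex.continuous_ofReal.tendsto _).comp hs.b₂
      rw [hB1] at t1
      rw [hB2] at t2
      cases i
      · simp only [bOf, ha₂.hI, Finset.mem_singleton, Bool.false_eq_true, if_false, Pi.one_apply]
        exact_mod_cast t1
      · simp only [bOf, ha₂.hI, Finset.mem_singleton, if_true, Pi.one_apply]
        exact_mod_cast t2)
    (by
      filter_upwards [l1.eventually_lt_const (zY.trans YX), l2.eventually_lt_const (zX.trans XY),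
        l1.eventually_lt_const zY] with n h1 h2 h3
      rw [e1, f1]
      refine ⟨h1, h2, Or.inr ?_⟩
      rw [← one_div, lt_div_iff₀ RY0] at h3
      linarith)
    (fun i i' _ => ⟨e3, e4, (l1.mul l2).eventually_lt_const hw.snd⟩)
  have iso : IsoHyp S₁ S₂ q.t (w₀, w₀', u₀, v₀) :=
    isoA hw hc (by rw [e1]; exact hu₀) (by rw [f1]; exact hv₀)
      (primApp hw he d₁ d₂ hn fun h => absurd h hn₁) hZ₁ hZ₂ (by rw [e1]; exact ρ12.trans hX1)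
      (by rw [f1]; exact h22.trans hY1) (by rw [f1]; exact iY)
      (by rw [e1]; exact iX) (Or.inl ⟨false, ha₁⟩) (Or.inl ⟨true, ha₂⟩)
  obtain ⟨i, hi'⟩ := wendA endThm_bool hB hc sq (fun n => hg _) (fun n => hδ _)
    (fun i _ => ⟨hβ, hv₁, fun r₀ h1 h2 => by
      rw [e2] at h1
      rw [e1] at h2
      show ∃ r : ℝ, 0 < r ∧ zv r₀ (un S₁.Rin u₀) (un S₁.Rout v₀) (S₁.c (q.t, w₀, u₀)) = r
      rw [e1, e2, hu₀, hv₀, hc₁]
      exact zv_pos RY0 h1 h2 (hu₀ ▸ bnd_un RX RX0 u₀) (hv₀ ▸ bnd_un RY RY0 v₀) hw.c₁.nn hw.c₂.nn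
        (hw.px 1) y0 p1 (zY.trans h1)⟩)
    (fun i _ => ⟨hβ', hv₂, fun r₀ h1 h2 => by
      rw [f2] at h1
      rw [f1] at h2
      show ∃ r : ℝ, 0 < r ∧ zv r₀ (un S₂.Rin v₀) (un S₂.Rout u₀) (S₂.c (q.t, w₀', v₀)) = r
      rw [f1, f2, hu₀, hv₀, hc₂]
      exact zv_pos RX0 h1 h2 (hv₀ ▸ bnd_un RY RY0 v₀) (hu₀ ▸ bnd_un RX RX0 u₀) hw.c₂.nn hw.c₁.nn
        (a1_y1 hw) (hw.px 0) p2 (zX.trans h1)⟩)
    (by exact_mod_cast hw.tpos.ne')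
    (fun i => by
      cases i
      · simpa [cL, ha₂.hI, e5] using sp₁
      · simpa [cL, ha₂.hI, f5] using sp₂) iso
  cases i
  · exact hn₁ (by simpa [cL, ha₂.hI, e5] using hi')
  · exact hn (by simpa [cL, ha₂.hI, f5] using hi')

end Pool.Agent.MP_098ecc_co.H97
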