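import Pool.Agent.MP_098ecc_co.H97.LapAB

set_option autoImplicit false

namespace Pool.Agent.MP_098ecc_co.H97

open Metric Filter Topology Set Function
open scoped BoundedContinuousFunction

theorem lapA_rec {B w : ℝ} {l : ℕ} (hl : 1 ≤ l) (hB : 1 ≤ B) (hw : 0 < w)
    {a a' I1 I2 I3 d : ℂ} (ha : ‖a‖ ≤ B * w) (hd : ‖d‖ ≤ B) (h3 : ‖I3‖ ≤ B * w)
    (e1 : ‖l * (a' - a) + I1‖ ≤ B * (w / l ^ 3))
    (e2 : ‖l * (I1 - 1 / 2 * a) + I2‖ ≤ B * (w / l ^ 3))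
    (e3 : ‖l * (I2 - d * a) + I3‖ ≤ B * (w / l ^ 3)) :
    ‖a' / (w * (2 * l / (2 * l + 1)) : ℝ) - a / w - (d - 1 / 4) * (a / w) / l ^ 2‖ ≤
      7 * B ^ 2 / l ^ 3 := by
  have hL : (1 : ℝ) ≤ l := by exact_mod_cast hl
  have hl0 : (l : ℂ) ≠ 0 := by exact_mod_cast (by omega : l ≠ 0)
  have hl1 : (2 * l + 1 : ℂ) ≠ 0 := by exact_mod_cast (by omega : 2 * l + 1 ≠ 0)
  have hw0 : (w : ℂ) ≠ 0 := by exact_mod_cast hw.ne'
  set E1 := l * (a' - a) + I1 with hE1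
  set E2 := l * (I1 - 1 / 2 * a) + I2 with hE2
  set E3 := l * (I2 - d * a) + I3 with hE3
  have e : a' / (w * (2 * l / (2 * l + 1)) : ℝ) - a / w - (d - 1 / 4) * (a / w) / l ^ 2 =
      d * a / ((2 * l ^ 3 * w : ℝ) : ℂ) + (E1 / l - E2 / l ^ 2 + E3 / l ^ 3 - I3 / l ^ 3) *
        (((2 * l + 1) / (2 * l * w) : ℝ) : ℂ) := by
    rw [hE1, hE2, hE3]
    push_cast
    field_simp
    ring
  have p1 : (1 : ℝ) ≤ l ^ 2 := one_le_pow₀ hL
  have p2 : (1 : ℝ) ≤ l ^ 3 := one_le_pow₀ hL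
  have q : 0 ≤ B * (w / l ^ 3) := by positivity
  have b1 : ‖E1 / l‖ ≤ B * (w / l ^ 3) := by
    rw [norm_div, Complex.norm_natCast]
    exact (div_le_self (norm_nonneg _) hL).trans e1
  have b2 : ‖E2 / l ^ 2‖ ≤ B * (w / l ^ 3) := by
    rw [norm_div, norm_pow, Complex.norm_natCast]
    exact (div_le_self (norm_nonneg _) p1).trans e2
  have b3 : ‖E3 / l ^ 3‖ ≤ B * (w / l ^ 3) := by
    rw [norm_div, norm_pow, Complex.norm_natCast]
    exact (div_le_self (norm_nonneg _) p2).trans e3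
  have b4 : ‖I3 / l ^ 3‖ ≤ B * (w / l ^ 3) := by
    rw [norm_div, norm_pow, Complex.norm_natCast, ← mul_div_assoc]
    gcongr
  have b5 : ‖E1 / l - E2 / l ^ 2 + E3 / l ^ 3 - I3 / l ^ 3‖ ≤ 4 * (B * (w / l ^ 3)) := by
    have := norm_sub_le (E1 / l - E2 / l ^ 2 + E3 / l ^ 3) (I3 / l ^ 3)
    have := norm_add_le (E1 / l - E2 / l ^ 2) (E3 / l ^ 3)
    have := norm_sub_le (E1 / l) (E2 / l ^ 2)
    linarith
  have b6 : ((2 * l + 1) / (2 * l * w) : ℝ) ≤ 3 / (2 * w) := by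
    rw [div_le_div_iff₀ (by positivity) (by positivity)]
    nlinarith
  rw [e]
  refine (norm_add_le _ _).trans ?_
  rw [norm_div, norm_mul, norm_mul, Complex.norm_real, Complex.norm_real,
    Real.norm_of_nonneg (by positivity), Real.norm_of_nonneg (by positivity)]
  calc _ ≤ B * (B * w) / (2 * l ^ 3 * w) + 4 * (B * (w / l ^ 3)) * (3 / (2 * w)) := by gcongr
    _ = (B ^ 2 / 2 + 6 * B) / l ^ 3 := by field_simp; ring
    _ ≤ _ := by gcongr; nlinarith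

theorem lapA_fin {B M w : ℝ} {l : ℕ} (hl : 1 ≤ l) (hB : 1 ≤ B) (hM : 0 ≤ M) (hw : 0 < w)
    {a I I1 I2 d κ h0 h1 : ℂ} (hκ : ‖κ‖ ≤ B) (hd : ‖d‖ ≤ B) (h2 : ‖I2‖ ≤ B * M * w)
    (hh0 : ‖h0‖ ≤ M) (hh1 : ‖h1‖ ≤ B * M) (ht : ‖a / w - κ + d * κ / l‖ ≤ B / l ^ 2)
    (e1 : ‖l * (I - h0 * a) + I1‖ ≤ B * M * (w / l ^ 3))
    (e2 : ‖l * (I1 - h1 * a) + I2‖ ≤ B * M * (w / l ^ 3)) :
    ‖l * (I - κ * h0 * w) - (-(h0 * d * κ) - h1 * κ) * w‖ ≤ 6 * B ^ 3 * M * (w / l) := by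
  have hL : (1 : ℝ) ≤ l := by exact_mod_cast hl
  have hl0 : (l : ℂ) ≠ 0 := by exact_mod_cast (by omega : l ≠ 0)
  have hw0 : (w : ℂ) ≠ 0 := by exact_mod_cast hw.ne'
  set E1 := l * (I - h0 * a) + I1 with hE1
  set E2 := l * (I1 - h1 * a) + I2 with hE2
  set t := a / w - κ + d * κ / l with ht'
  have e : l * (I - κ * h0 * w) - (-(h0 * d * κ) - h1 * κ) * w =
      (h0 * w * l * t + E1 + h1 * w * d * κ / l) - (h1 * w * t + E2 / l + -(I2 / l)) := by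
    rw [hE1, hE2, ht']
    field_simp
    ring
  have c1 : B ≤ B ^ 3 := le_self_pow₀ hB (by norm_num)
  have c2 : B ^ 2 ≤ B ^ 3 := pow_le_pow_right₀ hB (by norm_num)
  have c3 : (l : ℝ) ≤ l ^ 3 := le_self_pow₀ hL (by norm_num)
  have c4 : (l : ℝ) ≤ l ^ 2 := le_self_pow₀ hL (by norm_num)
  have hn : ‖(w : ℂ)‖ = w := by rw [Complex.norm_real, Real.norm_of_nonneg hw.le]
  have b1 : ‖h0 * w * l * t‖ ≤ B ^ 3 * M * (w / l) := by
    rw [norm_mul, norm_mul, norm_mul, hn, Complex.norm_natCast]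
    calc _ ≤ M * w * l * (B / l ^ 2) := by gcongr
      _ = B * M * (w / l) := by field_simp
      _ ≤ _ := by gcongr
  have b2 : ‖E1‖ ≤ B ^ 3 * M * (w / l) := e1.trans (by gcongr)
  have b3 : ‖h1 * w * d * κ / l‖ ≤ B ^ 3 * M * (w / l) := by
    rw [norm_div, norm_mul, norm_mul, norm_mul, hn, Complex.norm_natCast]
    calc _ ≤ B * M * w * B * B / l := by gcongr
      _ = _ := by field_simp
  have b4 : ‖h1 * w * t‖ ≤ B ^ 3 * M * (w / l) := by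
    rw [norm_mul, norm_mul, hn]
    calc _ ≤ B * M * w * (B / l ^ 2) := by gcongr
      _ = B ^ 2 * M * (w / l ^ 2) := by field_simp
      _ ≤ _ := by gcongr
  have b5 : ‖E2 / l‖ ≤ B ^ 3 * M * (w / l) := by
    rw [norm_div, Complex.norm_natCast]
    exact (div_le_self (norm_nonneg _) hL).trans (e2.trans (by gcongr))
  have b6 : ‖-(I2 / l)‖ ≤ B ^ 3 * M * (w / l) := by
    rw [norm_neg, norm_div, Complex.norm_natCast, ← mul_div_assoc]
    exact div_le_div_of_nonneg_right (h2.trans (by gcongr)) (by positivity)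
  rw [e]
  refine (norm_sub_le _ _).trans ((add_le_add norm_add₃_le norm_add₃_le).trans ?_)
  linarith

theorem lapA {δ K γ : ℝ} (hδ : 0 < δ) (hγ : 0 < γ) : ∃ C : ℝ, ∀ φ : ℂ → ℂ,
    DifferentiableOn ℂ φ (ball 0 δ) →
    (∀ θ ∈ ball (0 : ℂ) δ, ‖φ θ‖ ≤ K ∧ γ * ‖θ‖ ≤ ‖deriv φ θ‖) → φ 0 = 1 → deriv φ 0 = 0 →
    (∀ θ : ℝ, |θ| < δ → ‖φ θ‖ ≤ Real.exp (-γ * θ ^ 2)) →
    ∃ κ₀ : ℂ, κ₀ ≠ 0 ∧ ‖κ₀‖ ≤ C ∧ ∀ (h : ℂ → ℂ) (M : ℝ), DifferentiableOn ℂ h (ball 0 δ) →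
      (∀ θ ∈ ball (0 : ℂ) δ, ‖h θ‖ ≤ M) → ∃ κ₂ : ℂ, ‖κ₂‖ ≤ C * M ∧ ∀ l : ℕ, 1 ≤ l →
        ‖l * ((∫ θ in -(δ / 16)..δ / 16, h θ * φ θ ^ l) - κ₀ * h 0 * wal (l - 1)) -
          κ₂ * wal (l - 1)‖ ≤ C * M * (wal (l - 1) / l) := by
  have hs : 0 < δ / 16 := by positivity
  obtain ⟨A0, hA0, H0⟩ := lapA_bd hγ
  obtain ⟨A1, hA1, H1⟩ := lapA_step (δ := δ) (r := δ) K hγ hs (by linarith) le_rfl
  obtain ⟨A2, hA2, H2⟩ := lapA_step (δ := δ) (r := δ / 2) K hγ hs (by linarith) (by linarith)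
  obtain ⟨A3, hA3, H3⟩ := lapA_step (δ := δ) (r := δ / 2 / 2) K hγ hs (by linarith) (by linarith)
  obtain ⟨A, hA, l0, l1, l2, l3, lK⟩ : ∃ A : ℝ, 1 ≤ A ∧ A0 ≤ A ∧ A1 ≤ A ∧ A2 ≤ A ∧ A3 ≤ A ∧
      K + 1 ≤ A := by
    have := le_abs_self K
    have := abs_nonneg K
    refine ⟨1 + A0 + A1 + A2 + A3 + |K|, ?_, ?_, ?_, ?_, ?_, ?_⟩ <;> linarith
  obtain ⟨B, hB⟩ : ∃ B : ℝ, B = A ^ 5 := ⟨_, rfl⟩
  have hp : ∀ n, n ≤ 5 → A ^ n ≤ B := fun n hn => hB ▸ pow_le_pow_right₀ hA hn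
  have hB1 : 1 ≤ B := by simpa using hp 0 (by norm_num)
  obtain ⟨B', hB'⟩ : ∃ B' : ℝ, B' = 7 * B ^ 2 := ⟨_, rfl⟩
  have hBB : B + 1 ≤ B' := by nlinarith
  obtain ⟨B'', hB''⟩ : ∃ B'' : ℝ, B'' = 12 * B' ^ 3 := ⟨_, rfl⟩
  have hB1' : 1 ≤ B' := by linarith
  have hBB' : B' ≤ B'' := by
    have : B' ≤ B' ^ 3 := le_self_pow₀ hB1' (by norm_num)
    linarith
  have hB1'' : 1 ≤ B'' := by linarith
  have hC : B'' ≤ B'' ^ 3 := le_self_pow₀ hB1'' (by norm_num)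
  refine ⟨6 * B'' ^ 3, fun φ p1 p2 p3 p4 p5 => ?_⟩
  have H : LapH δ K γ φ := ⟨p1, p2, p3, p4, p5⟩
  have hK := H.oneK hδ
  obtain ⟨g1, g2, g3⟩ := H1 φ H (fun z => φ z - 1) A (p1.sub_const 1) fun θ hθ =>
    (norm_sub_le _ _).trans (by rw [norm_one]; linarith [(p2 θ hθ).1])
  obtain ⟨g4, g5, g6⟩ := H2 φ H _ _ g1 g2
  obtain ⟨-, g8, g9⟩ := H3 φ H _ _ g4 g5
  have ha : ∀ l, 1 ≤ l → ‖lapI (δ / 16) φ 1 l‖ ≤ B * wal (l - 1) := by
    intro l hl
    have := H0 δ K φ H δ _ hs (by linarith) le_rfl 1 1 (fun _ _ => by simp) l hl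
    have hw := wal_pos (l - 1)
    refine this.trans ?_
    gcongr
    have := hp 1 (by norm_num)
    linarith
  have q1 : A1 * A ≤ B := le_trans (by rw [sq]; gcongr) (hp 2 (by norm_num))
  have q2 : A2 * (A1 * A) ≤ B :=
    le_trans (by rw [show A ^ 3 = A * (A * A) by ring]; gcongr) (hp 3 (by norm_num))
  have q3 : A3 * (A2 * (A1 * A)) ≤ B :=
    le_trans (by rw [show A ^ 4 = A * (A * (A * A)) by ring]; gcongr) (hp 4 (by norm_num))
  have q4 : A0 * (A3 * (A2 * (A1 * A))) ≤ B :=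
    le_trans (by rw [show A ^ 5 = A * (A * (A * (A * A))) by ring]; gcongr) (hp 5 le_rfl)
  have hd := (g5 0 (mem_ball_self (by positivity))).trans q2
  set d := lapD φ (lapD φ fun z => φ z - 1) 0 with hdd
  have hd' : ‖d - 1 / 4‖ ≤ B' := by
    refine (norm_sub_le _ _).trans ?_
    have : ‖(1 / 4 : ℂ)‖ = 1 / 4 := by simp
    linarith
  obtain ⟨κ, k1, k2, k3⟩ := lapA_seq hB1' (r := fun l => lapI (δ / 16) φ 1 l / wal (l - 1))
    (d := d - 1 / 4) (fun l hl => by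
      have hw := wal_pos (l - 1)
      rw [norm_div, Complex.norm_real, Real.norm_of_nonneg hw.le, div_le_iff₀ hw]
      exact (ha l hl).trans (by gcongr; linarith)) hd' (fun l hl => by
      have hw := wal_pos (l - 1)
      have e1 : wal (l + 1 - 1) = wal (l - 1) * (2 * l / (2 * l + 1)) := by
        obtain ⟨n, rfl⟩ := Nat.exists_eq_add_of_le' hl
        simp only [Nat.add_sub_cancel]
        rw [wal]
        push_cast
        congr 2 <;> ring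
      have e2 : lapI (δ / 16) φ (fun z => φ z - 1) l =
          lapI (δ / 16) φ 1 (l + 1) - lapI (δ / 16) φ 1 l := by
        have hint : ∀ n : ℕ, IntervalIntegrable (fun x : ℝ => (1 : ℂ → ℂ) x * φ x ^ n)
            MeasureTheory.volume (-(δ / 16)) (δ / 16) := by
          intro n
          refine ContinuousOn.intervalIntegrable ?_
          refine ((differentiableOn_const 1).mul (p1.pow n)).continuousOn.comp
            Complex.continuous_ofReal.continuousOn fun x hx => ?_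
          rw [uIcc_of_le (by linarith)] at hx
          rw [mem_ball_zero_iff, Complex.norm_real, Real.norm_eq_abs]
          exact (abs_le.2 hx).trans_lt (by linarith)
        unfold lapI
        rw [← intervalIntegral.integral_sub (hint _) (hint _)]
        congr 1
        funext x
        simp only [Pi.one_apply]
        ring
      have f1 := g3 l hl
      have f2 := g6 l hl
      have f3 := g9 l hl
      rw [H.half hδ hγ] at f2
      simp only [p3, sub_self, zero_mul, sub_zero, e2] at f1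
      have f4 := H0 δ K φ H _ _ hs (by linarith) (by linarith) _ _ g8 l hl
      simp only [e1]
      rw [hB']
      exact lapA_rec hl hB1 hw (ha l hl) hd (f4.trans (by gcongr)) (f1.trans (by gcongr))
        (f2.trans (by gcongr)) (f3.trans (by gcongr)))
  refine ⟨κ, ?_, by linarith, fun h M hh hM => ?_⟩
  · rintro rfl
    obtain ⟨G, hG, hG'⟩ := H.gauss hγ hs (by linarith)
    refine hG (tendsto_nhds_unique hG' ?_)
    refine squeeze_zero_norm' ?_ (by simpa using k1.norm)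
    filter_upwards [eventually_ge_atTop 1] with l hl
    have hw := wal_pos (l - 1)
    have hL : (0 : ℝ) < l := by exact_mod_cast hl
    have h1 : √(l : ℝ) * wal (l - 1) ≤ 1 := by
      rw [← Real.sqrt_sq hw.le, ← Real.sqrt_mul hL.le, Real.sqrt_le_one]
      have := (lapA_wal hl).2
      rw [le_div_iff₀ hL] at this
      linarith
    rw [norm_mul, Complex.norm_real, Real.norm_of_nonneg (Real.sqrt_nonneg _), abs_of_pos hw,
      le_div_iff₀ hw]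
    nlinarith [norm_nonneg (lapI (δ / 16) φ 1 l)]
  · have hM0 : 0 ≤ M := (norm_nonneg _).trans (hM 0 (mem_ball_self hδ))
    obtain ⟨j1, j2, j3⟩ := H1 φ H h M hh hM
    obtain ⟨-, j5, j6⟩ := H2 φ H _ _ j1 j2
    have hA1' : A1 ≤ B'' := by have := hp 1 (by norm_num); linarith
    have hA2' : A2 * A1 ≤ B'' := by
      have : A2 * A1 ≤ A ^ 2 := by rw [sq]; gcongr
      have := hp 2 (by norm_num); linarith
    have hA3' : A0 * (A2 * A1) ≤ B'' := by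
      have : A0 * (A2 * A1) ≤ A ^ 3 := by rw [show A ^ 3 = A * (A * A) by ring]; gcongr
      have := hp 3 (by norm_num); linarith
    have h0 := hM 0 (mem_ball_self hδ)
    have h1 : ‖lapD φ h 0‖ ≤ B'' * M :=
      (j2 0 (mem_ball_self (by positivity))).trans (by gcongr)
    have k2' := k2.trans hBB'
    have hd'' := hd'.trans hBB'
    refine ⟨-(h 0 * (d - 1 / 4) * κ) - lapD φ h 0 * κ, ?_, fun l hl => ?_⟩
    · refine (norm_sub_le _ _).trans ?_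
      rw [norm_neg, norm_mul, norm_mul, norm_mul]
      have c2 : B'' ^ 2 ≤ B'' ^ 3 := pow_le_pow_right₀ hB1'' (by norm_num)
      calc _ ≤ M * B'' * B'' + B'' * M * B'' := by gcongr
        _ = 2 * B'' ^ 2 * M := by ring
        _ ≤ _ := by gcongr; norm_num
    · have hw := wal_pos (l - 1)
      have f4 := H0 δ K φ H _ _ hs (by linarith) (by linarith) _ _ j5 l hl
      refine lapA_fin hl hB1'' hM0 hw k2' hd'' (f4.trans ?_) h0 h1 (hB'' ▸ k3 l hl)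
        ((j3 l hl).trans (by gcongr)) ((j6 l hl).trans ?_)
      · rw [show A0 * (A2 * (A1 * M)) = A0 * (A2 * A1) * M by ring]
        gcongr
      · rw [show A2 * (A1 * M) = A2 * A1 * M by ring]
        gcongr

theorem gauss_int : ∃ C : ℝ, ∀ x : ℝ, 0 < x → ∀ a b : ℝ, a ≤ b →
    ∫ θ in a..b, Real.exp (-x * θ ^ 2) ≤ C / √x := by
  obtain ⟨C, -, h⟩ := lapA_gauss
  exact ⟨C, h⟩

theorem exp_le_wal {c : ℝ} (hc : 0 < c) : ∃ C : ℝ, ∀ l : ℕ, 1 ≤ l →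
    Real.exp (-c * l) ≤ C * (wal (l - 1) / l ^ 3) := by
  obtain ⟨C, -, h⟩ := lapA_exp hc
  exact ⟨C, h⟩

end Pool.Agent.MP_098ecc_co.H97
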