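import Pool.Agent.MP_098ecc_co.H97.LapBA
import Pool.Agent.MP_098ecc_co.H97.LapA

set_option autoImplicit false

namespace Pool.Agent.MP_098ecc_co.H97

open Metric Filter Topology Set Function Complex
open scoped BoundedContinuousFunction Real

/-- the phase along the circle through the saddle point -/
noncomputable def lapBphi (m : ℕ) (f : ℕ → ℂ) (c θ : ℂ) : ℂ :=
  (ser f (c * exp (I * θ)) / ser f c) ^ m * exp (-(I * θ))

/-- the integrand -/
noncomputable def lapBT (m : ℕ) (f : ℕ → ℂ) (c : ℂ) (l : ℕ) (i : ℤ) (θ : ℝ) : ℂ :=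
  ser f (c * exp (I * θ)) ^ (m * l - 1) * (c * exp (I * θ)) ^ (-((l : ℤ) - i)) / Bv m f c ^ l

/-- local data at the saddle point -/
structure LapBP (m : ℕ) (R ρ δ γ η M : ℝ) (f : ℕ → ℂ) (c : ℂ) : Prop where
  bnd : Bnd R f
  cne : c ≠ 0
  crit : ser (flat m f) c = 0
  near : ∀ θ ∈ ball (0 : ℂ) δ, ‖c * exp (I * θ)‖ < ρ ∧ ser f (c * exp (I * θ)) ≠ 0 ∧
    ‖(ser f (c * exp (I * θ)))⁻¹‖ ≤ M ∧ ‖lapBphi m f c θ‖ ≤ 2 ∧
    γ * ‖θ‖ ≤ ‖deriv (lapBphi m f c) θ‖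
  gauss : ∀ θ : ℝ, |θ| < δ → ‖lapBphi m f c θ‖ ≤ Real.exp (-γ * θ ^ 2)
  far : ∀ θ : ℝ, δ / 16 ≤ |θ| → |θ| ≤ π →
    ‖ser f (c * exp (I * θ))‖ ≤ Real.exp (-η) * ‖ser f c‖

theorem lapB_dw (c θ : ℂ) : HasDerivAt (fun θ => c * exp (I * θ)) (c * exp (I * θ) * I) θ := by
  have := (((hasDerivAt_id θ).const_mul I).cexp).const_mul c
  exact this.congr_deriv (by simp [mul_assoc])

theorem lapB_dser {R : ℝ} {f : ℕ → ℂ} (hf : Bnd R f) {c θ : ℂ} (h : ‖c * exp (I * θ)‖ < R) :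
    HasDerivAt (fun θ => ser f (c * exp (I * θ)))
      (deriv (ser f) (c * exp (I * θ)) * (c * exp (I * θ) * I)) θ :=
  HasDerivAt.comp θ (h₂ := ser f) (hf.diff.differentiableAt
    (isOpen_ball.mem_nhds (mem_ball_zero_iff.2 h))).hasDerivAt (lapB_dw c θ)

theorem lapB_dphi {m : ℕ} (hm : 0 < m) {R : ℝ} {f : ℕ → ℂ} (hf : Bnd R f) {c θ : ℂ}
    (h : ‖c * exp (I * θ)‖ < R) :
    HasDerivAt (lapBphi m f c) (I * exp (-(I * θ)) * ser f (c * exp (I * θ)) ^ (m - 1) /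
      ser f c ^ m * ser (flat m f) (c * exp (I * θ))) θ := by
  obtain ⟨k, rfl⟩ : ∃ k, m = k + 1 := ⟨m - 1, by omega⟩
  have h1 := (((lapB_dser hf h).div_const (ser f c)).pow (k + 1)).mul
    (((hasDerivAt_id θ).const_mul I).neg.cexp)
  refine h1.congr_deriv ?_
  rw [hf.ser_flat _ h]
  simp only [Nat.add_sub_cancel, id, Pi.pow_apply, Pi.neg_apply, div_pow]
  push_cast
  rw [pow_succ (ser f c)]
  simp only [div_eq_mul_inv, mul_inv]
  ring

theorem lapB_T_eq {m l : ℕ} (hm : 0 < m) (hl : 1 ≤ l) {f : ℕ → ℂ} {c : ℂ} (hc : c ≠ 0)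
    (h0 : ser f c ≠ 0) (i : ℤ) {θ : ℝ} (h : ser f (c * exp (I * θ)) ≠ 0) :
    lapBT m f c l i θ =
      (c * exp (I * θ)) ^ i * (ser f (c * exp (I * θ)))⁻¹ * lapBphi m f c θ ^ l := by
  have hw : c * exp (I * θ) ≠ 0 := mul_ne_zero hc (exp_ne_zero _)
  have he := exp_ne_zero (I * θ)
  obtain ⟨n, hn⟩ : ∃ n, m * l = n + 1 := ⟨m * l - 1, by have := Nat.mul_pos hm hl; omega⟩
  rw [lapBT, lapBphi, Bv, neg_sub, zpow_sub₀ hw, zpow_natCast, exp_neg, mul_pow, mul_pow, div_pow,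
    ← pow_mul, ← pow_mul, div_pow, hn, Nat.add_sub_cancel, inv_pow]
  field_simp
  ring

theorem lapB_T_norm {m l : ℕ} (hm : 0 < m) (hl : 1 ≤ l) {f : ℕ → ℂ} {c : ℂ} (hc : c ≠ 0)
    (h0 : ser f c ≠ 0) (i : ℤ) (θ : ℝ) :
    ‖lapBT m f c l i θ‖ =
      (‖ser f (c * exp (I * θ))‖ / ‖ser f c‖) ^ (m * l - 1) * ‖(ser f c)⁻¹‖ * ‖c‖ ^ i := by
  have hc' : ‖c‖ ≠ 0 := norm_ne_zero_iff.2 hc
  have h0' : ‖ser f c‖ ≠ 0 := norm_ne_zero_iff.2 h0
  obtain ⟨n, hn⟩ : ∃ n, m * l = n + 1 := ⟨m * l - 1, by have := Nat.mul_pos hm hl; omega⟩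
  rw [lapBT, Bv, norm_div, norm_mul, norm_pow, norm_zpow, lapB_norm, norm_pow, norm_div, norm_pow,
    neg_sub, zpow_sub₀ hc', zpow_natCast, div_pow, ← pow_mul, div_pow, hn, Nat.add_sub_cancel,
    norm_inv]
  field_simp
  ring

theorem lapB_T_cont {R : ℝ} {f : ℕ → ℂ} (hf : Bnd R f) {c : ℂ} (hc : c ≠ 0) (hR : ‖c‖ < R)
    (m l : ℕ) (i : ℤ) : Continuous (lapBT m f c l i) := by
  have h1 : Continuous fun θ : ℝ => c * exp (I * θ) := by fun_prop
  have h2 : Continuous fun θ : ℝ => ser f (c * exp (I * θ)) :=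
    hf.diff.continuousOn.comp_continuous h1 fun θ => by rwa [mem_ball_zero_iff, lapB_norm]
  exact ((h2.pow _).mul (h1.zpow₀ _ fun θ => Or.inl (mul_ne_zero hc (exp_ne_zero _)))).div_const _

theorem lapB_T_int {R : ℝ} {f : ℕ → ℂ} (hf : Bnd R f) {c : ℂ} (hc : c ≠ 0) (hR : ‖c‖ < R)
    (m l : ℕ) (i : ℤ) : cf f (m * l - 1) (l - i) / Bv m f c ^ l =
      ((2 * π)⁻¹ : ℝ) * ∫ θ in -π..π, lapBT m f c l i θ := by
  rw [lapB_int hf hc hR, mul_div_assoc, ← intervalIntegral.integral_div]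
  rfl

theorem lapB_pt {m : ℕ} (hm : 0 < m) {R ρ δ γ η M : ℝ} (hρ : ρ < R) (hδ : 0 < δ) (hδ1 : δ ≤ 1)
    (hγ : 0 < γ) (hη : 0 < η) : ∃ C : ℝ, ∀ (f : ℕ → ℂ) (c : ℂ), LapBP m R ρ δ γ η M f c →
    ∃ (κ : ℂ) (κ₂ : ℕ → ℂ), κ ≠ 0 ∧ ‖κ‖ ≤ C ∧ (∀ i, ‖κ₂ i‖ ≤ C * ρ ^ i) ∧ ∀ l : ℕ, 1 ≤ l →
      (∀ i : ℤ, ‖cf f (m * l - 1) (l - i) / Bv m f c ^ l‖ ≤ C * ‖c‖ ^ i * wal (l - 1)) ∧
      ∀ i : ℕ, ‖l * (cf f (m * l - 1) (l - i) / Bv m f c ^ l - κ * wal (l - 1) * c ^ i) -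
        κ₂ i * wal (l - 1)‖ ≤ C * ρ ^ i * (wal (l - 1) / l) := by
  obtain ⟨C₁, hC₁⟩ := lapA (K := 2) hδ hγ
  obtain ⟨C₂, hC₂⟩ := gauss_int
  obtain ⟨C₃, hC₃⟩ := exp_le_wal hη
  have hπ := Real.pi_gt_three
  have C₃0 : 0 ≤ C₃ := by
    have := hC₃ 1 le_rfl
    simp only [tsub_self, wal, Nat.cast_one, one_pow, div_one, mul_one] at this
    exact (Real.exp_pos _).le.trans this
  have C₂0 : 0 ≤ C₂ := by
    have := hC₂ 1 one_pos 0 0 le_rfl
    simpa using this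
  refine ⟨(|C₁| + C₂ * (2 / √γ) + Real.exp η * C₃) * M, fun f c h => ?_⟩
  have z0 : (0 : ℂ) ∈ ball (0 : ℂ) δ := mem_ball_self hδ
  obtain ⟨c1, c2, c3, -⟩ := h.near 0 z0
  simp only [mul_zero, exp_zero, mul_one] at c1 c2 c3
  have hc := h.cne
  have cpos : 0 < ‖c‖ := norm_pos_iff.2 hc
  have M0 : 0 ≤ M := (norm_nonneg _).trans c3
  have ρ0 : 0 < ρ := cpos.trans c1
  have hdφ : ∀ θ ∈ ball (0 : ℂ) δ, _ := fun θ hθ =>
    lapB_dphi hm h.bnd ((h.near θ hθ).1.trans hρ)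
  obtain ⟨κ₀, k1, k2, k3⟩ := hC₁ (lapBphi m f c)
    (fun θ hθ => (hdφ θ hθ).differentiableAt.differentiableWithinAt)
    (fun θ hθ => (h.near θ hθ).2.2.2) (by simp [lapBphi, c2])
    (by rw [(hdφ 0 z0).deriv]; simp [h.crit]) h.gauss
  have k4 : ∀ i : ℕ, _ := fun i => k3
    (fun θ => (c * exp (I * θ)) ^ i * (ser f (c * exp (I * θ)))⁻¹) (M * ρ ^ i)
    (fun θ hθ => (((lapB_dw c θ).differentiableAt.pow i).mul
      ((lapB_dser h.bnd ((h.near θ hθ).1.trans hρ)).differentiableAt.inv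
        (h.near θ hθ).2.1)).differentiableWithinAt)
    (fun θ hθ => by
      rw [norm_mul, norm_pow, mul_comm]
      exact mul_le_mul (h.near θ hθ).2.2.1
        (pow_le_pow_left₀ (norm_nonneg _) (h.near θ hθ).1.le i) (by positivity) M0)
  choose κ₂ k5 k6 using k4
  set p : ℝ := (2 * π)⁻¹ with hp
  have p0 : 0 < p := by positivity
  have p1 : p ≤ 1 := inv_le_one_of_one_le₀ (by linarith)
  have p2 : p * (2 * π) = 1 := inv_mul_cancel₀ (by positivity)
  have np : ‖(p : ℂ)‖ = p := by rw [Complex.norm_real, Real.norm_eq_abs, abs_of_pos p0]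
  have hA := le_abs_self C₁
  have hA0 := abs_nonneg C₁
  have hB0 : 0 ≤ C₂ * (2 / √γ) := by positivity
  have hD0 : 0 ≤ Real.exp η * C₃ := by positivity
  -- the far arc
  have far : ∀ l : ℕ, 1 ≤ l → ∀ i : ℤ, ‖(∫ θ in -π..π, lapBT m f c l i θ) -
      ∫ θ in -(δ / 16)..δ / 16, lapBT m f c l i θ‖ ≤
      2 * π * (Real.exp η * C₃ * M * ‖c‖ ^ i * (wal (l - 1) / l ^ 3)) := by
    intro l hl i
    apply lapB_split (lapB_T_cont h.bnd hc (c1.trans hρ) m l i) (by positivity) (by linarith)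
    intro θ t1 t2
    rw [lapB_T_norm hm hl hc c2]
    have b1 : ‖ser f (c * exp (I * θ))‖ / ‖ser f c‖ ≤ Real.exp (-η) := by
      rw [div_le_iff₀ (norm_pos_iff.2 c2)]
      exact h.far θ t1 t2
    have b2 : (‖ser f (c * exp (I * θ))‖ / ‖ser f c‖) ^ (m * l - 1) ≤
        Real.exp η * Real.exp (-η * l) := by
      refine (pow_le_pow_left₀ (by positivity) b1 _).trans ?_
      rw [← Real.exp_nat_mul, ← Real.exp_add, Real.exp_le_exp]
      have b3 : l ≤ m * l - 1 + 1 := by have := Nat.le_mul_of_pos_left l hm; omega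
      have b4 : (l : ℝ) ≤ (m * l - 1 : ℕ) + 1 := by exact_mod_cast b3
      nlinarith
    have b3 := b2.trans (mul_le_mul_of_nonneg_left (hC₃ l hl) (Real.exp_pos η).le)
    have b4 := wal_pos (l - 1)
    calc _ ≤ Real.exp η * (C₃ * (wal (l - 1) / l ^ 3)) * M * ‖c‖ ^ i := by gcongr
      _ = _ := by ring
  have near : ∀ l : ℕ, 1 ≤ l → ∀ i : ℤ, ∀ θ ∈ uIcc (-(δ / 16)) (δ / 16), |θ| < δ ∧
      lapBT m f c l i θ =
      (c * exp (I * θ)) ^ i * (ser f (c * exp (I * θ)))⁻¹ * lapBphi m f c θ ^ l := by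
    intro l hl i θ hθ
    rw [uIcc_of_le (by linarith)] at hθ
    have t1 : |θ| < δ := abs_lt.2 ⟨by linarith [hθ.1], by linarith [hθ.2]⟩
    exact ⟨t1, lapB_T_eq hm hl hc c2 i (h.near θ (by simpa using t1)).2.1⟩
  refine ⟨p * κ₀ * (ser f c)⁻¹, fun i => p * κ₂ i,
    mul_ne_zero (mul_ne_zero (by exact_mod_cast p0.ne') k1) (inv_ne_zero c2), ?_, ?_, ?_⟩
  · rw [norm_mul, norm_mul, np]
    calc _ ≤ 1 * |C₁| * M := by gcongr; exact k2.trans hA
      _ ≤ _ := by nlinarith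
  · intro i
    rw [norm_mul, np]
    have b1 : 0 ≤ M * ρ ^ i := by positivity
    calc _ ≤ 1 * (|C₁| * (M * ρ ^ i)) := by gcongr; exact (k5 i).trans (by gcongr)
      _ ≤ _ := by nlinarith
  · intro l hl
    have w0 := wal_pos (l - 1)
    have l1 : (1 : ℝ) ≤ l := by exact_mod_cast hl
    constructor
    · intro i
      have ci : 0 < ‖c‖ ^ i := zpow_pos cpos i
      have b1 : ‖∫ θ in -(δ / 16)..δ / 16, lapBT m f c l i θ‖ ≤
          ∫ θ in -(δ / 16)..δ / 16, ‖c‖ ^ i * M * Real.exp (-(γ * l) * θ ^ 2) := by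
        apply intervalIntegral.norm_integral_le_of_norm_le (by linarith)
        · refine Eventually.of_forall fun θ hθ => ?_
          obtain ⟨t1, t2⟩ := near l hl i θ (by
            rw [uIcc_of_le (by linarith)]
            exact Ioc_subset_Icc_self hθ)
          rw [t2, norm_mul, norm_mul, norm_zpow, lapB_norm, norm_pow]
          have t3 : ‖lapBphi m f c θ‖ ^ l ≤ Real.exp (-(γ * l) * θ ^ 2) := by
            refine (pow_le_pow_left₀ (norm_nonneg _) (h.gauss θ t1) l).trans (le_of_eq ?_)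
            rw [← Real.exp_nat_mul]
            congr 1
            ring
          have t4 := (h.near θ (by simpa using t1)).2.2.1
          gcongr
        · apply Continuous.intervalIntegrable
          fun_prop
      rw [intervalIntegral.integral_const_mul] at b1
      have b2 := hC₂ (γ * l) (by positivity) (-(δ / 16)) (δ / 16) (by linarith)
      have b3 : C₂ / √(γ * l) ≤ C₂ * (2 / √γ) * wal (l - 1) := by
        have q1 := (wal_sq (l - 1)).1
        have q2 : ((l - 1 : ℕ) : ℝ) = l - 1 := by rw [Nat.cast_sub hl, Nat.cast_one]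
        rw [q2, div_le_iff₀ (by linarith)] at q1
        have q3 : 1 ≤ 2 * wal (l - 1) * √l := by
          apply le_of_sq_le_sq _ (by positivity)
          rw [mul_pow, mul_pow, Real.sq_sqrt (by positivity)]
          nlinarith [sq_nonneg (wal (l - 1))]
        have q4 : 0 < √γ := Real.sqrt_pos.2 hγ
        have q5 : 0 < √(l : ℝ) := Real.sqrt_pos.2 (by positivity)
        rw [Real.sqrt_mul hγ.le, div_le_iff₀ (by positivity)]
        calc C₂ = C₂ * 1 := (mul_one _).symm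
          _ ≤ C₂ * (2 * wal (l - 1) * √l) := by gcongr
          _ = _ := by field_simp
      have b4 := far l hl i
      have b5 : wal (l - 1) / l ^ 3 ≤ wal (l - 1) := div_le_self w0.le (one_le_pow₀ l1)
      have b6 := norm_le_norm_sub_add (∫ θ in -π..π, lapBT m f c l i θ)
        (∫ θ in -(δ / 16)..δ / 16, lapBT m f c l i θ)
      rw [lapB_T_int h.bnd hc (c1.trans hρ), norm_mul, np]
      have b7 : ‖∫ θ in -(δ / 16)..δ / 16, lapBT m f c l i θ‖ ≤
          ‖c‖ ^ i * M * (C₂ * (2 / √γ) * wal (l - 1)) :=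
        b1.trans (mul_le_mul_of_nonneg_left (b2.trans b3) (by positivity))
      have b8 : 0 ≤ |C₁| * M * ‖c‖ ^ i * wal (l - 1) := by positivity
      calc _ ≤ p * (2 * π * (Real.exp η * C₃ * M * ‖c‖ ^ i * wal (l - 1))) +
            1 * (‖c‖ ^ i * M * (C₂ * (2 / √γ) * wal (l - 1))) := by
            refine (mul_le_mul_of_nonneg_left b6 p0.le).trans ?_
            rw [mul_add]
            gcongr
            exact b4.trans (by gcongr)
        _ ≤ _ := by rw [← mul_assoc p, p2]; nlinarith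
    · intro i
      have b1 := k6 i l hl
      have b2 : (∫ θ in -(δ / 16)..δ / 16, lapBT m f c l i θ) = ∫ θ in -(δ / 16)..δ / 16,
          (c * exp (I * (θ : ℝ))) ^ i * (ser f (c * exp (I * (θ : ℝ))))⁻¹ * lapBphi m f c θ ^ l := by
        apply intervalIntegral.integral_congr
        intro θ hθ
        have := (near l hl i θ hθ).2
        rwa [zpow_natCast] at this
      rw [← b2] at b1
      simp only [mul_zero, exp_zero, mul_one] at b1
      have b4 := far l hl i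
      rw [zpow_natCast] at b4
      rw [lapB_T_int h.bnd hc (c1.trans hρ)]
      set J := ∫ θ in -π..π, lapBT m f c l i θ
      set J' := ∫ θ in -(δ / 16)..δ / 16, lapBT m f c l i θ
      have e : (l : ℂ) * (p * J - p * κ₀ * (ser f c)⁻¹ * wal (l - 1) * c ^ i) -
          p * κ₂ i * wal (l - 1) = p * (l * (J - J')) +
          p * (l * (J' - κ₀ * (c ^ i * (ser f c)⁻¹) * wal (l - 1)) - κ₂ i * wal (l - 1)) := by
        ring
      rw [e]
      refine (norm_add_le _ _).trans ?_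
      rw [norm_mul, norm_mul (p : ℂ), norm_mul, np, Complex.norm_natCast]
      have b5 : l * (wal (l - 1) / l ^ 3) ≤ wal (l - 1) / l := by
        rw [mul_div_assoc', div_le_div_iff₀ (by positivity) (by positivity)]
        have : (l : ℝ) ^ 2 ≤ l ^ 3 := pow_le_pow_right₀ l1 (by norm_num)
        nlinarith
      have b6 : ‖c‖ ^ i ≤ ρ ^ i := pow_le_pow_left₀ cpos.le c1.le i
      have b7 : l * ‖J - J'‖ ≤ 2 * π * (Real.exp η * C₃ * M * ρ ^ i * (wal (l - 1) / l)) :=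
        calc _ ≤ l * (2 * π * (Real.exp η * C₃ * M * ρ ^ i * (wal (l - 1) / l ^ 3))) := by
              gcongr
              exact b4.trans (by gcongr)
          _ = 2 * π * (Real.exp η * C₃ * M * ρ ^ i * (l * (wal (l - 1) / l ^ 3))) := by ring
          _ ≤ _ := by gcongr
      have b8 : 0 ≤ C₂ * (2 / √γ) * M * ρ ^ i * (wal (l - 1) / l) := by positivity
      calc _ ≤ p * (2 * π * (Real.exp η * C₃ * M * ρ ^ i * (wal (l - 1) / l))) +
            1 * (|C₁| * (M * ρ ^ i) * (wal (l - 1) / l)) := by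
            gcongr
            exact b1.trans (by gcongr)
        _ ≤ _ := by rw [← mul_assoc p, p2]; nlinarith

end Pool.Agent.MP_098ecc_co.H97
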