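import Pool.Agent.MP_098ecc_co.H97.PoslBA

set_option autoImplicit false

namespace Pool.Agent.MP_098ecc_co.H97

open Metric Filter Topology Set Function
open scoped BoundedContinuousFunction

theorem zero1a {m : ℕ} (hm : 0 < m) {f : ℕ → ℝ} {z R : ℝ} (h : Crit m f z) (h0 : 0 < f 0)
    (ha : Aper {i | 0 < f i ∧ 2 ≤ m * i}) (hb : Bnd R (cx f)) (hR : z < R) :
    ∀ᶠ ρ in 𝓝[>] z, ZF m f z ρ := by
  have hzp := h.pos
  have key : ∀ ζ : ℂ, ‖ζ‖ ≤ z → ser (flat m (cx f)) ζ = 0 → ζ = z := by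
    intro ζ hζ he
    rcases hζ.lt_or_eq with h1 | h1
    · exact absurd he ((uni hm h h0).2 ζ h1)
    rw [poslB_flat] at he
    have h2 := poslB_term (poslB_abs h.crit.summable hζ).of_norm.hasSum h.crit
      (fun i => h1 ▸ poslB_re_le hm h.nn ζ i) (congrArg Complex.re he)
    refine poslB_aper ha hzp fun i hi => ?_
    have h3 := h2 i
    have h4 : (1 : ℝ) < m * i := by exact_mod_cast hi.2
    rw [Complex.re_ofReal_mul] at h3
    rw [← Complex.ofReal_pow]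
    exact poslB_re (by rw [norm_pow, h1])
      (mul_left_cancel₀ (mul_pos (sub_pos.2 h4) hi.1).ne' h3)
  obtain ⟨R', h1, h2⟩ := exists_between hR
  have hd := (hb.flat m (hzp.trans h1) h2).diff
  have hsub : closedBall (0 : ℂ) z ⊆ interior {ζ | ser (flat m (cx f)) ζ = 0 → ζ = z} := by
    intro ζ hζ
    rw [mem_closedBall_zero_iff] at hζ
    have h3 := hd.differentiableAt (isOpen_ball.mem_nhds (mem_ball_zero_iff.2 (hζ.trans_lt h1)))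
    rw [mem_interior_iff_mem_nhds]
    by_cases he : ser (flat m (cx f)) ζ = 0
    · obtain rfl := key ζ hζ he
      obtain ⟨r, hr, hr'⟩ := h.deriv_pos hm h0 hb hR
      have h4 := h3.hasDerivAt.eventually_ne (c := 0) (by rw [hr']; exact_mod_cast hr.ne')
      rw [eventually_nhdsWithin_iff] at h4
      filter_upwards [h4] with w hw hw0
      by_contra hne
      exact hw hne hw0
    · filter_upwards [h3.continuousAt.eventually_ne he] with w hw hw0 using absurd hw0 hw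
  obtain ⟨δ, hδ, h3⟩ := (isCompact_closedBall _ _).exists_thickening_subset_open isOpen_interior hsub
  rw [thickening_closedBall hδ hzp.le] at h3
  filter_upwards [Ioo_mem_nhdsGT (lt_add_of_pos_left z hδ)] with ρ hρ
  exact ⟨hρ.1, fun ζ hζ => interior_subset (h3 (mem_ball_zero_iff.2 (hζ.trans_lt hρ.2)))⟩

theorem zero1b {m : ℕ} (hm : 0 < m) {f : ℕ → ℝ} {z R ρ : ℝ} (h : Crit m f z) (h0 : 0 < f 0)
    (hz : ZF m f z ρ) (hR : ρ < R) {u₀ : BS} (hu : un R u₀ = cx f) {ε : ℝ} (hε : 0 < ε) :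
    ∀ᶠ u in 𝓝 u₀, ∀ ζ : ℂ, ‖ζ‖ ≤ ρ → ser (flat m (un R u)) ζ = 0 →
      ‖ζ - z‖ < ε ∧ deriv (ser (flat m (un R u))) ζ ≠ 0 ∧
      ∀ ζ' : ℂ, ‖ζ'‖ ≤ ρ → ser (flat m (un R u)) ζ' = 0 → ζ' = ζ := by
  have hzp := h.pos
  have hzR := hz.1.trans hR
  have hR0 := hzp.trans hzR
  obtain ⟨r, hr, hr'⟩ := h.deriv_pos hm h0 (hu ▸ bnd_un R hR0 u₀) hzR
  have hO : IsOpen ((univ : Set BS) ×ˢ ball (0 : ℂ) R) := isOpen_univ.prod isOpen_ball
  have hG := hol_ser_flat m R hR0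
  set G : BS × ℂ → ℂ := fun q => ser (flat m (un R q.1)) q.2 with hGd
  have hmem : ∀ (u : BS) (ζ : ℂ), ‖ζ‖ < R → (univ : Set BS) ×ˢ ball (0 : ℂ) R ∈ 𝓝 (u, ζ) :=
    fun u ζ hζ => hO.mem_nhds ⟨mem_univ _, mem_ball_zero_iff.2 hζ⟩
  have hD : ∀ (u : BS) (ζ : ℂ), ‖ζ‖ < R →
      HasDerivAt (ser (flat m (un R u))) (fderiv ℂ G (u, ζ) (0, 1)) ζ := fun u ζ hζ =>
    (hG.differentiableAt (hmem u ζ hζ)).hasFDerivAt.comp_hasDerivAt ζ
      ((hasDerivAt_const ζ u).prodMk (hasDerivAt_id ζ))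
  have hzn : ‖(z : ℂ)‖ < R := by rwa [Complex.norm_real, Real.norm_of_nonneg hzp.le]
  have hc : ContinuousAt (fun q => fderiv ℂ G q (0, 1)) (u₀, (z : ℂ)) :=
    ((hol_fderiv hO hG).differentiableAt (hmem u₀ z hzn)).continuousAt.clm_apply continuousAt_const
  have hv : fderiv ℂ G (u₀, (z : ℂ)) (0, 1) = r := by rw [← (hD u₀ z hzn).deriv, hu, hr']
  have h1 : ∀ᶠ q : BS × ℂ in 𝓝 (u₀, (z : ℂ)), ‖fderiv ℂ G q (0, 1) - r‖ < r / 2 ∧ ‖q.2‖ < R ∧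
      ‖q.2 - z‖ < ε := by
    refine (((hc.sub continuousAt_const).norm.eventually_lt continuousAt_const ?_).and
      ((continuousAt_snd.norm.eventually_lt continuousAt_const hzn).and
      ((continuousAt_snd.sub continuousAt_const).norm.eventually_lt continuousAt_const ?_)))
    · simpa [hv] using hr
    · simpa using hε
  rw [nhds_prod_eq, eventually_prod_iff] at h1
  obtain ⟨pa, hpa, pb, hpb, h1⟩ := h1
  obtain ⟨δ, hδ, hb⟩ := Metric.eventually_nhds_iff_ball.1 hpb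
  have h2 := ((isCompact_closedBall (0 : ℂ) ρ).diff (isOpen_ball (x := (z : ℂ))
    (ε := δ))).eventually_forall_of_forall_eventually (x₀ := u₀)
    (P := fun u ζ => G (u, ζ) ≠ 0) fun ζ hζ => by
      have h3 := mem_closedBall_zero_iff.1 hζ.1
      refine (hG.differentiableAt (hmem u₀ ζ (h3.trans_lt hR))).continuousAt.eventually_ne ?_
      intro he
      have h4 : ζ = z := hz.2 ζ h3 (by rw [← hu]; exact he)
      exact hζ.2 (h4 ▸ mem_ball_self hδ)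
  filter_upwards [hpa, h2] with u hua hu2 ζ hζ he
  have hin : ∀ w : ℂ, ‖w‖ ≤ ρ → ser (flat m (un R u)) w = 0 → w ∈ ball (z : ℂ) δ := by
    intro w hw hw0
    by_contra hn
    exact hu2 w ⟨mem_closedBall_zero_iff.2 hw, hn⟩ hw0
  have h3 := h1 hua (hb ζ (hin ζ hζ he))
  refine ⟨h3.2.2, ?_, fun ζ' hζ' he' => ?_⟩
  · rw [(hD u ζ h3.2.1).deriv]
    intro h4
    have h5 := h3.1
    rw [h4, zero_sub, norm_neg, Complex.norm_real, Real.norm_of_nonneg hr.le] at h5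
    linarith
  · have h4 := (convex_ball (z : ℂ) δ).norm_image_sub_le_of_norm_hasDerivWithin_le
      (f := fun w => ser (flat m (un R u)) w - r * w) (f' := fun w => fderiv ℂ G (u, w) (0, 1) - r)
      (C := r / 2) (fun w hw => (((hD u w (h1 hua (hb w hw)).2.1).sub
        ((hasDerivAt_id w).const_mul (r : ℂ))).congr_deriv (by simp)).hasDerivWithinAt)
      (fun w hw => (h1 hua (hb w hw)).1.le) (hin ζ hζ he) (hin ζ' hζ' he')
    rw [he, he', show (0 - r * ζ' - (0 - r * ζ) : ℂ) = -(r * (ζ' - ζ)) by ring, norm_neg, norm_mul,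
      Complex.norm_real, Real.norm_of_nonneg hr.le] at h4
    have h5 : ‖ζ' - ζ‖ ≤ 0 := by nlinarith [norm_nonneg (ζ' - ζ)]
    exact sub_eq_zero.1 (norm_le_zero_iff.1 h5)

theorem adm_near {m : ℕ} (hm : 0 < m) {L : Set ℕ} {f : ℕ → ℝ} {r : ℝ} (hf : ∀ i, 0 ≤ f i)
    (hr : 0 < r) (hs : Summable fun i => f i * r ^ i) (ha : Adm L (Bv m f r)) :
    ∀ᶠ ρ in 𝓝[<] r, Adm L (Bv m f ρ) := by
  have _ := hm
  obtain ⟨B, hB, hS⟩ := ha
  have h1 : ContinuousWithinAt (Bv m f) (Iio r) r :=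
    (poslB_cont hf hs m r ⟨hr, le_rfl⟩).mono_of_mem_nhdsWithin
      (mem_of_superset (Ioo_mem_nhdsLT hr) Ioo_subset_Ioc_self)
  filter_upwards [h1.tendsto.eventually (gt_mem_nhds hB)] with ρ hρ using ⟨B, hρ, hS⟩

theorem maj_cx {m : ℕ} {L : Set ℕ} {f : ℕ → ℝ} {ρ : ℝ} (hf : ∀ i, 0 ≤ f i) (hρ : 0 < ρ)
    (hs : Summable fun i => f i * ρ ^ i) (ha : Adm L (Bv m f ρ)) : Maj m L (cx f) ρ := by
  unfold Maj
  simp only [poslB_norm hf]
  exact ⟨hρ, hs, ha⟩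

/-- admissibility at the radius inverse to the critical point of the partner -/
theorem poslB_adm {m : ℕ} (hm : 0 < m) {L : Set ℕ} {f g : ℕ → ℝ} {z r t : ℝ} (hz : 0 < z)
    (hf : ∀ s : Finset ℕ, 0 ∉ s → ∑ i ∈ s, ((m : ℝ) * i - 1) * f i * z ^ i ≤ f 0)
    (hg : ∀ i, 0 ≤ g i) (g0 : 0 < g 0) (ht : 0 < t) (hr : r * z = 1)
    (hs : Summable fun i => g i * r ^ i) (hs' : Summable fun i => flat m g i * r ^ i)
    (hn : ser (flat m g) r ≤ 0) (hi : ∀ i : ℕ, 1 ≤ i → ∀ s : Finset ℕ, (s : Set ℕ) ⊆ L →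
      t * ∑ l ∈ s, cf g (m * l - 1) (l - i) ≤ f i) : Adm L (Bv m g r) := by
  rcases L.finite_or_infinite with hL | hL
  · exact adm_of_finite hL _
  have hr0 : 0 < r := (mul_pos_iff_of_pos_right hz).1 (hr ▸ one_pos)
  have hG : 0 < ser g r := g0.trans_le (poslB_ge hg hr0.le hs)
  refine (adm_iff hL (div_pos (pow_pos hG m) hr0).le).2 (lt_of_not_ge fun hB => ?_)
  rw [le_div_iff₀ hr0, one_mul] at hB
  have hw : ∀ i : ℕ, 1 ≤ i → (0 : ℝ) ≤ m * i - 1 := fun i hi => sub_nonneg.2 (by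
    exact_mod_cast Nat.one_le_iff_ne_zero.2 (Nat.mul_ne_zero hm.ne' (by omega)))
  have key : ∀ l N : ℕ, 2 ≤ l → l ≤ N → g 0 / ser g r ^ 2 ≤
      ∑ i ∈ Finset.Icc 1 N, ((m : ℝ) * i - 1) * z ^ i * cf g (m * l - 1) (l - i) := by
    intro l N hl hN
    have hl' : 2 ≤ m * l := by nlinarith
    have h1 := es hl' hg hr0 hs' hn
    have h2 : r ^ l ≤ ser g r ^ (m * l - 2) * ser g r ^ 2 := by
      rw [← pow_add, Nat.sub_add_cancel hl', pow_mul]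
      exact pow_le_pow_left₀ hr0.le hB l
    have h3 : ∑ i ∈ Finset.Icc 1 l, ((m : ℝ) * i - 1) * (cf g (m * l - 1) (l - i) *
        r ^ ((l : ℤ) - i)) = r ^ l * ∑ i ∈ Finset.Icc 1 l, ((m : ℝ) * i - 1) * z ^ i *
        cf g (m * l - 1) (l - i) := by
      rw [Finset.mul_sum]
      refine Finset.sum_congr rfl fun i _ => ?_
      rw [zpow_sub₀ hr0.ne', zpow_natCast, zpow_natCast, eq_inv_of_mul_eq_one_right hr, inv_pow]
      field_simp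
    refine le_trans ?_ (Finset.sum_le_sum_of_subset_of_nonneg (Finset.Icc_subset_Icc_right hN)
      fun i hi _ => mul_nonneg (mul_nonneg (hw i (Finset.mem_Icc.1 hi).1) (by positivity))
        (cf_nonneg hg _ _))
    rw [h3] at h1
    refine le_of_mul_le_mul_left (le_trans ?_ h1) (pow_pos hr0 l)
    rw [← mul_div_assoc, div_le_iff₀ (by positivity)]
    nlinarith
  obtain ⟨n, hn'⟩ := exists_nat_gt (f 0 / (t * (g 0 / ser g r ^ 2)))
  obtain ⟨s, hsL, hsc⟩ := (hL.sdiff (finite_Iio 2)).exists_subset_card_eq n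
  have h1 := Finset.card_nsmul_le_sum s _ _ fun l hl =>
    key l (s.sup id) (not_lt.1 (hsL hl).2) (Finset.le_sup (f := id) hl)
  rw [Finset.sum_comm, hsc, nsmul_eq_mul] at h1
  have h2 := mul_le_mul_of_nonneg_left h1 ht.le
  rw [Finset.mul_sum] at h2
  have h3 := h2.trans ((Finset.sum_le_sum fun i hi' => ?_).trans
    (hf (Finset.Icc 1 (s.sup id)) (by simp)))
  · rw [div_lt_iff₀ (by positivity)] at hn'
    nlinarith
  · have h4 := (Finset.mem_Icc.1 hi').1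
    have h5 := mul_le_mul_of_nonneg_left (hi i h4 s (hsL.trans sdiff_subset))
      (mul_nonneg (hw i h4) (pow_pos hz i).le)
    rw [← Finset.mul_sum]
    nlinarith

theorem poslB_rad {m : ℕ} (hm : 0 < m) {L : Set ℕ} (hL : 0 ∉ L) {f g : ℕ → ℝ} {z w t : ℝ}
    (hf : Crit m f z) (hg : Crit m g w) (g0 : 0 < g 0) (ht : 0 < t) (ha : Adm L (Bv m g w))
    (he : ∀ i : ℕ, 1 ≤ i → f i = t * sT m (ind ℝ L) g i) :
    ∃ ρ : ℝ, 0 < ρ ∧ ρ < w ∧ ρ < z⁻¹ ∧ Adm L (Bv m g ρ) := by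
  have hz := inv_pos.2 hf.pos
  have h1 : Adm L (Bv m g (min w z⁻¹)) := by
    rcases le_or_gt w z⁻¹ with h | h
    · rwa [min_eq_left h]
    rw [min_eq_right h.le]
    obtain ⟨h2, h3⟩ := hg.flat_neg hm g0 hz.le h
    obtain ⟨C, hC⟩ := sT_summable hm hL hg.nn g0 hg.pos hg.sum ha
    refine poslB_adm hm hf.pos (hf.bound hm) hg.nn g0 ht (inv_mul_cancel₀ hf.pos.ne')
      (poslB_sum hg.nn hg.sum hz.le h.le) h2 h3.le fun i hi s hs => ?_
    rw [he i hi]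
    refine mul_le_mul_of_nonneg_left (le_trans (le_of_eq ?_) ((hC i).1.sum_le_tsum s fun l _ =>
      mul_nonneg (win_nn L l).1 (cf_nonneg hg.nn _ _))) ht.le
    exact Finset.sum_congr rfl fun l hl => by simp [ind, hs hl]
  have hr := lt_min hg.pos hz
  obtain ⟨ρ, h2, h3⟩ := ((adm_near hm hg.nn hr (poslB_sum hg.nn hg.sum hr.le (min_le_left _ _))
    h1).and (Ioo_mem_nhdsLT hr)).exists
  exact ⟨ρ, h3.1, h3.2.trans_le (min_le_left _ _), h3.2.trans_le (min_le_right _ _), h2⟩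

theorem poslB_y0 {D : Dat} {p : Amb} (h : Pos D p) : 0 < p.Y 0 := h.eqs.y0 ▸ one_pos

theorem pos_radii {D : Dat} {p : Amb} (h : Pos D p) : ∃ ρ₁ ρ₂ : ℝ, 0 < ρ₁ ∧ 0 < ρ₂ ∧
    ρ₁ < p.z₁ ∧ ρ₁ < p.z₂⁻¹ ∧ ρ₂ < p.z₂ ∧ ρ₂ < p.z₁⁻¹ ∧ Adm D.L₁ (Bv D.m p.X ρ₁) ∧
    Adm D.L₂ (Bv D.m p.Y ρ₂) := by
  obtain ⟨ρ₁, a1, a2, a3, a4⟩ := poslB_rad D.hm D.z₁ h.c₂ h.c₁ (h.px 0) h.tpos h.a₁ h.eqs.hy
  obtain ⟨ρ₂, b1, b2, b3, b4⟩ := poslB_rad D.hm D.z₂ h.c₁ h.c₂ (poslB_y0 h) h.tpos h.a₂ h.eqs.hx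
  exact ⟨ρ₁, ρ₂, a1, b1, a2, a3, b2, b3, a4, b4⟩

/-- convergence of the series below the limit of the critical points -/
theorem poslB_ser {ι : Type} {l : Filter ι} {m : ℕ} (hm : 0 < m) {f : ι → ℕ → ℝ} {z : ι → ℝ}
    {g : ℕ → ℝ} {w ρ : ℝ} (hc : ∀ᶠ n in l, Crit m (f n) (z n))
    (hf : ∀ i, Tendsto (fun n => f n i) l (𝓝 (g i))) (hz : Tendsto z l (𝓝 w)) (hg : ∀ i, 0 ≤ g i)
    (hρ : 0 < ρ) (hw : ρ < w) : Tendsto (fun n => ser (f n) ρ) l (𝓝 (ser g ρ)) := by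
  obtain ⟨v, h1, h2⟩ := exists_between hw
  have hv := hρ.trans h1
  refine tendsto_tsum_of_dominated_convergence ((summable_geometric_of_lt_one
    (div_pos hρ hv).le ((div_lt_one hv).2 h1)).mul_left (g 0 + 1 + (g 1 + 1) * v))
    (fun i => (hf i).mul_const _) ?_
  filter_upwards [hc, hz.eventually (lt_mem_nhds h2), (hf 0).eventually (gt_mem_nhds
    (lt_add_one _)), (hf 1).eventually (gt_mem_nhds (lt_add_one _))] with n hn h3 h4 h5 i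
  have h6 : f n i * v ^ i ≤ g 0 + 1 + (g 1 + 1) * v := by
    have a0 := hg 0
    have a1 := mul_pos (add_pos_of_nonneg_of_pos (hg 1) one_pos) hv
    match i with
    | 0 => rw [pow_zero]; linarith
    | 1 => rw [pow_one]; nlinarith
    | i + 2 =>
      have b1 := hn.bound hm {i + 2} (by simp)
      have b2 : (2 : ℝ) ≤ m * ((i + 2 : ℕ) : ℝ) := by exact_mod_cast (by nlinarith : 2 ≤ m * (i + 2))
      have b3 := mul_le_mul_of_nonneg_left (pow_le_pow_left₀ hv.le h3.le (i + 2)) (hn.nn (i + 2))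
      have b4 := mul_nonneg (hn.nn (i + 2)) (pow_pos hn.pos (i + 2)).le
      rw [Finset.sum_singleton] at b1
      nlinarith
  rw [Real.norm_of_nonneg (mul_nonneg (hn.nn i) (by positivity))]
  refine le_trans (le_of_eq ?_) (mul_le_mul_of_nonneg_right h6 (by positivity))
  rw [div_pow]
  field_simp

theorem tail_unif {ι : Type} {l : Filter ι} {m : ℕ} (hm : 0 < m) {L : Set ℕ} (hL : 0 ∉ L)
    {f : ι → ℕ → ℝ} {z : ι → ℝ} {g : ℕ → ℝ} {w ρ : ℝ} (hc : ∀ᶠ n in l, Crit m (f n) (z n))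
    (hf : ∀ i, Tendsto (fun n => f n i) l (𝓝 (g i))) (hz : Tendsto z l (𝓝 w)) (hg : ∀ i, 0 ≤ g i)
    (h0 : 0 < g 0) (hρ : 0 < ρ) (hw : ρ < w) (hs : Summable fun i => g i * ρ ^ i)
    (ha : Adm L (Bv m g ρ)) :
    (∃ C : ℝ, ∀ᶠ n in l, ∀ i : ℤ, sT m (ind ℝ L) (f n) i ≤ C * ρ ^ i) ∧
    ∀ i : ℤ, Tendsto (fun n => sT m (ind ℝ L) (f n) i) l (𝓝 (sT m (ind ℝ L) g i)) := by
  obtain ⟨B, hB, hS⟩ := ha
  have h1 := poslB_ser hm hc hf hz hg hρ hw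
  have h2 : Tendsto (fun n => Bv m (f n) ρ) l (𝓝 (Bv m g ρ)) := (h1.pow m).div_const ρ
  have h3 : g 0 / 2 < ser g ρ := (half_lt_self h0).trans_le (poslB_ge hg hρ.le hs)
  have key : ∀ᶠ n in l, ∀ (i : ℤ) (k : ℕ), ‖ind ℝ L k * cf (f n) (m * k - 1) (k - i)‖ ≤
      ind ℝ L k * B ^ k * (2 / g 0 * ρ ^ i) := by
    filter_upwards [hc, hz.eventually (lt_mem_nhds hw), h2.eventually (gt_mem_nhds hB),
      h1.eventually (lt_mem_nhds h3)] with n hn a1 a2 a3 i k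
    rcases eq_or_ne k 0 with rfl | hk
    · simp [ind, hL]
    rw [Real.norm_of_nonneg (mul_nonneg (win_nn L k).1 (cf_nonneg hn.nn _ _)), mul_assoc]
    refine mul_le_mul_of_nonneg_left ?_ (win_nn L k).1
    have b0 : 0 < ser (f n) ρ := (half_pos h0).trans a3
    have b1 := cf_le_real hn.nn hρ (poslB_sum hn.nn hn.sum hρ.le a1.le) (m * k - 1) (k - i)
    have b2 : ser (f n) ρ ^ (m * k - 1) * ser (f n) ρ ≤ B ^ k * ρ ^ k := by
      rw [← pow_succ, Nat.sub_add_cancel (Nat.mul_pos hm (Nat.pos_of_ne_zero hk)), pow_mul,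
        ← mul_pow]
      exact pow_le_pow_left₀ (by positivity) ((div_lt_iff₀ hρ).1 a2).le k
    have b3 := (mul_le_mul b1 a3.le (half_pos h0).le (by positivity)).trans b2
    rw [zpow_sub₀ hρ.ne', zpow_natCast] at b3
    have b4 : 0 < ρ ^ i := zpow_pos hρ i
    refine le_of_mul_le_mul_right ?_ (show 0 < ρ ^ k / ρ ^ i * (g 0 / 2) by positivity)
    rw [← mul_assoc]
    refine b3.trans (le_of_eq ?_)
    field_simp
  refine ⟨⟨(∑' k, ind ℝ L k * B ^ k) * (2 / g 0), key.mono fun n hn i => ?_⟩, fun i => ?_⟩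
  · rw [mul_assoc]
    exact (le_abs_self _).trans (tsum_of_norm_bounded (hS.hasSum.mul_right _) (hn i))
  · exact tendsto_tsum_of_dominated_convergence (hS.mul_right _)
      (fun k => (cf_tendsto hf _ _).const_mul _) (key.mono fun n hn => hn i)

theorem poslB_lim (S : Set Amb) (p : Amb) : Tendsto Amb.t (𝓝[S] p) (𝓝 p.t) ∧
    (∀ i, Tendsto (fun q : Amb => q.X i) (𝓝[S] p) (𝓝 (p.X i))) ∧
    (∀ i, Tendsto (fun q : Amb => q.Y i) (𝓝[S] p) (𝓝 (p.Y i))) ∧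
    Tendsto Amb.z₁ (𝓝[S] p) (𝓝 p.z₁) ∧ Tendsto Amb.z₂ (𝓝[S] p) (𝓝 p.z₂) := by
  refine ⟨?_, fun i => ?_, fun i => ?_, ?_, ?_⟩ <;>
    exact (Continuous.tendsto (by fun_prop) p).mono_left nhdsWithin_le_nhds

theorem pos_tail {D : Dat} {p : Amb} (h : Pos D p) {ρ₁ ρ₂ : ℝ} (h₁ : 0 < ρ₁) (h₂ : 0 < ρ₂)
    (z₁ : ρ₁ < p.z₁) (z₂ : ρ₂ < p.z₂) (a₁ : Adm D.L₁ (Bv D.m p.X ρ₁))
    (a₂ : Adm D.L₂ (Bv D.m p.Y ρ₂)) : ∃ C : ℝ, ∀ᶠ q in 𝓝[{q | Pos D q}] p, ∀ i,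
      q.X i ≤ C * ρ₂ ^ i ∧ q.Y i ≤ C * ρ₁ ^ i := by
  obtain ⟨-, lX, lY, l1, l2⟩ := poslB_lim {q | Pos D q} p
  have hp : ∀ᶠ q in 𝓝[{q | Pos D q}] p, Pos D q := self_mem_nhdsWithin
  obtain ⟨C₁, e1⟩ := (tail_unif D.hm D.z₁ (hp.mono fun q hq => hq.c₁) lX l1 h.c₁.nn (h.px 0) h₁ z₁
    (poslB_sum h.c₁.nn h.c₁.sum h₁.le z₁.le) a₁).1
  obtain ⟨C₂, e2⟩ := (tail_unif D.hm D.z₂ (hp.mono fun q hq => hq.c₂) lY l2 h.c₂.nn (poslB_y0 h)
    h₂ z₂ (poslB_sum h.c₂.nn h.c₂.sum h₂.le z₂.le) a₂).1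
  refine ⟨|C₁| + |C₂| + 1, ?_⟩
  filter_upwards [hp, e1, e2] with q hq b1 b2 i
  have c0 := abs_nonneg C₁
  have c1 := abs_nonneg C₂
  have key : ∀ {s C ρ : ℝ}, 0 < ρ → s ≤ C * ρ ^ (i : ℤ) → q.t * s ≤ |C| * ρ ^ i := by
    intro s C ρ hρ hs
    rw [zpow_natCast] at hs
    have d1 := mul_le_mul_of_nonneg_right (le_abs_self C) (pow_pos hρ i).le
    have d2 := mul_nonneg (abs_nonneg C) (pow_pos hρ i).le
    nlinarith [hq.tpos, hq.t_le]
  have c2 := key h₁ (b1 i)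
  have c3 := key h₂ (b2 i)
  have c4 := pow_pos h₁ i
  have c5 := pow_pos h₂ i
  rcases Nat.eq_zero_or_pos i with rfl | hi
  · rw [hq.eqs.x0, hq.eqs.y0]
    simp only [pow_zero, Nat.cast_zero] at *
    constructor <;> linarith [hq.t_le]
  · rw [hq.eqs.hx i hi, hq.eqs.hy i hi]
    constructor <;> nlinarith

theorem poslB_Bv {ι : Type} {l : Filter ι} (m : ℕ) {f : ι → ℕ → ℝ} {z : ι → ℝ} {g : ℕ → ℝ}
    {w ρ C : ℝ} (hf : ∀ i, Tendsto (fun n => f n i) l (𝓝 (g i))) (hz : Tendsto z l (𝓝 w))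
    (hw : 0 < w) (hρ : 0 < ρ) (h : ρ < w⁻¹) (hb : ∀ᶠ n in l, ∀ i, 0 ≤ f n i ∧ f n i ≤ C * ρ ^ i) :
    Tendsto (fun n => Bv m (f n) (z n)) l (𝓝 (Bv m g w)) := by
  obtain ⟨a, h1, h2⟩ := exists_between ((lt_inv_comm₀ hρ hw).1 h)
  have ha := hw.trans h1
  have h3 : ρ * a < 1 := by rwa [← one_div, lt_div_iff₀ hρ, mul_comm] at h2
  refine ((tendsto_tsum_of_dominated_convergence ((summable_geometric_of_lt_one
    (mul_pos hρ ha).le h3).mul_left C) (fun i => (hf i).mul (hz.pow i)) ?_).pow m).div hz hw.ne'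
  filter_upwards [hb, hz.eventually (Ioo_mem_nhds hw h1)] with n hn hn' i
  rw [Real.norm_of_nonneg (mul_nonneg (hn i).1 (pow_pos hn'.1 i).le), mul_pow, ← mul_assoc]
  exact mul_le_mul (hn i).2 (pow_le_pow_left₀ hn'.1.le hn'.2.le i) (pow_pos hn'.1 i).le
    ((hn i).1.trans (hn i).2)

theorem pos_cont (D : Dat) : ContinuousOn (fun p : Amb => p.B₁ D) {q | Pos D q} ∧
    ContinuousOn (fun p : Amb => p.B₂ D) {q | Pos D q} := by
  refine ⟨fun p h => ?_, fun p h => ?_⟩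
  all_goals
    obtain ⟨ρ₁, ρ₂, a1, a2, a3, a4, a5, a6, a7, a8⟩ := pos_radii h
    obtain ⟨C, hC⟩ := pos_tail h a1 a2 a3 a5 a7 a8
    obtain ⟨-, lX, lY, l1, l2⟩ := poslB_lim {q | Pos D q} p
    have hp : ∀ᶠ q in 𝓝[{q | Pos D q}] p, Pos D q := self_mem_nhdsWithin
  · exact poslB_Bv D.m lX l1 h.c₁.pos a2 a6
      ((hp.and hC).mono fun q hq i => ⟨hq.1.c₁.nn i, (hq.2 i).1⟩)
  · exact poslB_Bv D.m lY l2 h.c₂.pos a1 a4
      ((hp.and hC).mono fun q hq i => ⟨hq.1.c₂.nn i, (hq.2 i).2⟩)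

theorem bs_conv {f : ℕ → ℕ → ℝ} {z : ℕ → ℝ} {g : ℕ → ℝ} {w R : ℝ} (hf : ∀ n i, 0 ≤ f n i)
    (hl : ∀ i, Tendsto (fun n => f n i) atTop (𝓝 (g i))) (hz : Tendsto z atTop (𝓝 w))
    (hz0 : ∀ n, 0 ≤ z n) (hp : PolyE f z) (hR : 0 < R) (hw : R * w < 1) :
    ∃ (u : ℕ → BS) (u₀ : BS), un R u₀ = cx g ∧ (∀ᶠ n in atTop, un R (u n) = cx (f n)) ∧
      Tendsto u atTop (𝓝 u₀) := by
  obtain ⟨C, hC⟩ := hp
  obtain ⟨θ, t1, t2⟩ := exists_between hw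
  obtain ⟨η, e1, e2⟩ := exists_between t1
  have hw0 : 0 ≤ w := ge_of_tendsto' hz hz0
  have e0 : 0 < η := (mul_nonneg hR.le hw0).trans_lt e1
  have t0 := e0.trans e2
  have hq : ‖η / θ‖ < 1 := by rwa [Real.norm_of_nonneg (by positivity), div_lt_one t0]
  have hs : Summable fun i : ℕ => (1 + (i : ℝ) ^ 2) * (η / θ) ^ i :=
    ((summable_geometric_of_norm_lt_one hq).add
      (summable_pow_mul_geometric_of_norm_lt_one 2 hq)).congr fun i => by ring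
  set K := |C| * ∑' i : ℕ, (1 + (i : ℝ) ^ 2) * (η / θ) ^ i with hK
  have hK0 : 0 ≤ K := mul_nonneg (abs_nonneg C) (tsum_nonneg fun i => by positivity)
  have h1 : ∀ᶠ n in atTop, ∀ i, ‖cx (f n) i * (R : ℂ) ^ i‖ ≤ K * θ ^ i := by
    filter_upwards [hC, (hz.const_mul R).eventually (gt_mem_nhds e1)] with n a1 a2 i
    rw [norm_mul, norm_pow, poslB_norm (hf n), Complex.norm_real, Real.norm_of_nonneg hR.le]
    have b0 := hz0 n
    have b1 := hs.le_tsum i fun j _ => by positivity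
    calc f n i * R ^ i ≤ |C| * (1 + i ^ 2) * z n ^ i * R ^ i := by
          refine mul_le_mul_of_nonneg_right ((a1 i).trans ?_) (by positivity)
          gcongr
          exact le_abs_self C
      _ = |C| * (1 + i ^ 2) * (R * z n) ^ i := by rw [mul_pow]; ring
      _ ≤ |C| * (1 + i ^ 2) * η ^ i := by gcongr
      _ = |C| * ((1 + (i : ℝ) ^ 2) * (η / θ) ^ i) * θ ^ i := by rw [div_pow]; field_simp
      _ ≤ K * θ ^ i := by rw [hK]; gcongr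
  have hR' : (R : ℂ) ≠ 0 := by exact_mod_cast hR.ne'
  have h2 : ∀ a : ℕ → ℂ, (∀ i, ‖a i * (R : ℂ) ^ i‖ ≤ K * θ ^ i) →
      ∃ u : BS, un R u = a ∧ ∀ i, u i = a i * (R : ℂ) ^ i := fun a ha =>
    ⟨BoundedContinuousFunction.ofNormedAddCommGroupDiscrete (fun i => a i * (R : ℂ) ^ i) K
      fun i => (ha i).trans (mul_le_of_le_one_right hK0 (pow_le_one₀ t0.le t2.le)),
      funext fun i => by
        change a i * (R : ℂ) ^ i * (R : ℂ)⁻¹ ^ i = a i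
        rw [mul_assoc, ← mul_pow, mul_inv_cancel₀ hR', one_pow, mul_one], fun _ => rfl⟩
  have h3 : ∀ i, Tendsto (fun n => cx (f n) i * (R : ℂ) ^ i) atTop (𝓝 (cx g i * (R : ℂ) ^ i)) :=
    fun i => ((Complex.continuous_ofReal.tendsto _).comp (hl i)).mul_const _
  obtain ⟨u₀, b1, b2⟩ := h2 (cx g) fun i => le_of_tendsto (h3 i).norm (h1.mono fun n hn => hn i)
  have h4 : ∀ n, ∃ u : BS, (∀ i, ‖u i‖ ≤ K * θ ^ i) ∧
      ((∀ i, ‖cx (f n) i * (R : ℂ) ^ i‖ ≤ K * θ ^ i) →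
        un R u = cx (f n) ∧ ∀ i, u i = cx (f n) i * (R : ℂ) ^ i) := by
    intro n
    by_cases hn : ∀ i, ‖cx (f n) i * (R : ℂ) ^ i‖ ≤ K * θ ^ i
    · obtain ⟨u, c1, c2⟩ := h2 _ hn
      exact ⟨u, fun i => c2 i ▸ hn i, fun _ => ⟨c1, c2⟩⟩
    · exact ⟨0, fun i => by simpa using by positivity, fun h => absurd h hn⟩
  choose u c1 c2 using h4
  refine ⟨u, u₀, b1, h1.mono fun n hn => (c2 n hn).1, tendsto_bs t0.le t2 c1 fun i => ?_⟩
  rw [b2]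
  exact (h3 i).congr' (h1.mono fun n hn => ((c2 n hn).2 i).symm)

end Pool.Agent.MP_098ecc_co.H97
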