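import Pool.Agent.MP_098ecc_co.H97.LapA
import Pool.Agent.MP_098ecc_co.H97.PoslB
import Pool.Agent.MP_098ecc_co.H97.LapBB

set_option autoImplicit false

namespace Pool.Agent.MP_098ecc_co.H97

open Metric Filter Topology Set Function
open scoped BoundedContinuousFunction

open Complex in
theorem lapB_setup {m : ℕ} (hm : 0 < m) {f : ℕ → ℝ} {z R ρ : ℝ} (hc : Crit m f z) (h0 : 0 < f 0)
    (ha : Aper {i | 0 < f i}) {u₀ : BS} (hu : un R u₀ = cx f) (h1 : z < ρ) (h2 : ρ < R)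
    {U : Set BS} (hU : IsOpen U) (hm0 : u₀ ∈ U) {c : BS → ℂ} (dc : DifferentiableOn ℂ c U)
    (c0 : c u₀ = z) (crit : ∀ u ∈ U, ser (flat m (un R u)) (c u) = 0) :
    ∃ δ γ η M : ℝ, 0 < δ ∧ δ ≤ 1 ∧ 0 < γ ∧ 0 < η ∧
      ∀ᶠ u in 𝓝 u₀, LapBP m R ρ δ γ η M (un R u) (c u) := by
  have z0 := hc.pos
  have zR : z < R := h1.trans h2
  have R0 : 0 < R := z0.trans zR
  have hb : Bnd R (cx f) := hu ▸ bnd_un R R0 u₀
  have F0 : 0 < ser f z := by
    have := hc.sum.le_tsum 0 (fun i _ => mul_nonneg (hc.nn i) (pow_nonneg z0.le i))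
    rw [pow_zero, mul_one] at this
    exact h0.trans_le this
  have F1 : ser (un R u₀) z = (ser f z : ℝ) := by rw [hu]; exact ser_ofReal f z
  have nz : ‖(z : ℂ)‖ = z := by rw [Complex.norm_real, Real.norm_eq_abs, abs_of_pos z0]
  set W : BS × ℂ → ℂ := fun q => c q.1 * exp (I * q.2) with hW
  have hUo : IsOpen (U ×ˢ (univ : Set ℂ)) := hU.prod isOpen_univ
  have dc1 : DifferentiableOn ℂ (fun q : BS × ℂ => c q.1) (U ×ˢ univ) :=
    dc.comp differentiableOn_fst fun q hq => hq.1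
  have dW : DifferentiableOn ℂ W (U ×ˢ univ) := dc1.mul (by fun_prop)
  set O₁ : Set (BS × ℂ) := U ×ˢ univ ∩ (fun q => (W q, c q.1)) ⁻¹' (ball 0 R ×ˢ ball 0 R) with hO₁
  have O₁o : IsOpen O₁ :=
    (dW.prodMk dc1).continuousOn.isOpen_inter_preimage hUo (isOpen_ball.prod isOpen_ball)
  have dF : DifferentiableOn ℂ (fun q : BS × ℂ => ser (un R q.1) (W q)) O₁ :=
    (hol_ser R R0).comp (f := fun q : BS × ℂ => (q.1, W q))
      (differentiableOn_fst.prodMk (dW.mono inter_subset_left)) fun q hq => ⟨trivial, hq.2.1⟩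
  have dG : DifferentiableOn ℂ (fun q : BS × ℂ => ser (flat m (un R q.1)) (W q)) O₁ :=
    (hol_ser_flat m R R0).comp (f := fun q : BS × ℂ => (q.1, W q))
      (differentiableOn_fst.prodMk (dW.mono inter_subset_left)) fun q hq => ⟨trivial, hq.2.1⟩
  have dF0 : DifferentiableOn ℂ (fun q : BS × ℂ => ser (un R q.1) (c q.1)) O₁ :=
    (hol_ser R R0).comp (f := fun q : BS × ℂ => (q.1, c q.1))
      (differentiableOn_fst.prodMk (dc1.mono inter_subset_left)) fun q hq => ⟨trivial, hq.2.2⟩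
  set O : Set (BS × ℂ) := O₁ ∩ (fun q => ser (un R q.1) (c q.1)) ⁻¹' {0}ᶜ with hO
  have Oo : IsOpen O := dF0.continuousOn.isOpen_inter_preimage O₁o isOpen_compl_singleton
  have mO₁ : ∀ θ : ℝ, (u₀, (θ : ℂ)) ∈ O₁ := by
    intro θ
    refine ⟨⟨hm0, trivial⟩, ?_, ?_⟩
    · simp only [hW, mem_ball_zero_iff, lapB_norm, c0, nz, zR]
    · simp only [mem_ball_zero_iff, c0, nz, zR]
  have mO : (u₀, (0 : ℂ)) ∈ O := by
    refine ⟨by simpa using mO₁ 0, ?_⟩
    simp only [mem_preimage, mem_compl_iff, mem_singleton_iff, c0, F1]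
    exact_mod_cast F0.ne'
  set D : BS × ℂ → ℂ := fun q => I * exp (-(I * q.2)) * ser (un R q.1) (W q) ^ (m - 1) /
    ser (un R q.1) (c q.1) ^ m * ser (flat m (un R q.1)) (W q) with hD
  have dP : DifferentiableOn ℂ (fun q : BS × ℂ => I * exp (-(I * q.2)) *
      ser (un R q.1) (W q) ^ (m - 1) / ser (un R q.1) (c q.1) ^ m) O := by
    have d1 : DifferentiableOn ℂ (fun q : BS × ℂ => I * exp (-(I * q.2))) O := by fun_prop
    simp only [div_eq_mul_inv]
    exact (d1.mul ((dF.mono inter_subset_left).pow _)).mul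
      (((dF0.mono inter_subset_left).pow _).inv fun q hq => pow_ne_zero _ hq.2)
  have dD : DifferentiableOn ℂ D O := dP.mul (dG.mono inter_subset_left)
  have hΦ : ∀ q ∈ O, HasDerivAt (fun θ => lapBphi m (un R q.1) (c q.1) θ) (D q) q.2 :=
    fun q hq => lapB_dphi hm (bnd_un R R0 q.1) (mem_ball_zero_iff.1 hq.1.2.1)
  obtain ⟨r, r0, hr⟩ := hc.deriv_pos hm h0 hb zR
  have A0 : 0 < z * r / ser f z := by positivity
  have hD2 : HasDerivAt (fun θ => D (u₀, θ)) (-((z * r / ser f z : ℝ) : ℂ)) 0 := by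
    have p1 := lapB_der (dP.differentiableAt (Oo.mem_nhds mO))
    obtain ⟨R', a1, a2⟩ := exists_between zR
    have p2 := lapB_dser ((bnd_un R R0 u₀).flat m (z0.trans a1) a2) (c := c u₀) (θ := 0)
      (by simpa [c0, abs_of_pos z0] using a1)
    refine (p1.mul p2).congr_deriv ?_
    have p3 := crit u₀ hm0
    have F2 : ((ser f z : ℝ) : ℂ) ≠ 0 := by exact_mod_cast F0.ne'
    obtain ⟨k, rfl⟩ : ∃ k, m = k + 1 := ⟨m - 1, by omega⟩
    simp only [hW, mul_zero, exp_zero, mul_one, neg_zero, p3, zero_add, Nat.add_sub_cancel]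
    rw [c0, F1, hu, hr]
    push_cast
    field_simp
    rw [I_sq]
    ring
  obtain ⟨δ₁, hδ₁, e1⟩ := lapB_loc (Φ := fun q => lapBphi m (un R q.1) (c q.1) q.2) Oo dD hΦ
    (fun u hu => ⟨by
      have : ser (un R u) (c u) ≠ 0 := hu.2
      simp [lapBphi, this], by simp [hD, hW, crit u hu.1.1.1]⟩) mO A0 hD2
  have W0 : W (u₀, 0) = z := by simp [hW, c0]
  have cW : ContinuousAt W (u₀, 0) :=
    dW.continuousOn.continuousAt (hUo.mem_nhds ⟨hm0, trivial⟩)
  have cF : ContinuousAt (fun q : BS × ℂ => ser (un R q.1) (W q)) (u₀, 0) :=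
    dF.continuousOn.continuousAt (O₁o.mem_nhds mO.1)
  have F3 : ser (un R u₀) (W (u₀, 0)) ≠ 0 := by
    rw [W0, F1]
    exact_mod_cast F0.ne'
  have e2 : ∀ᶠ q in 𝓝 (u₀, (0 : ℂ)), ‖W q‖ < ρ :=
    cW.norm.eventually_lt continuousAt_const (by rwa [W0, nz])
  have e3 := cF.eventually_ne F3
  have e4 : ∀ᶠ q in 𝓝 (u₀, (0 : ℂ)), ‖(ser (un R q.1) (W q))⁻¹‖ <
      ‖(ser (un R u₀) (W (u₀, 0)))⁻¹‖ + 1 :=
    (cF.inv₀ F3).norm.eventually_lt continuousAt_const (lt_add_one _)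
  obtain ⟨δ₂, hδ₂, e5⟩ := Metric.eventually_nhds_iff_ball.1
    ((e2.and e3).and (e4.and (Oo.mem_nhds mO)))
  set δ := min (min δ₁ δ₂) 1 with hδ
  have δ0 : 0 < δ := lt_min (lt_min hδ₁ hδ₂) one_pos
  have δ1 : δ ≤ δ₁ := (min_le_left _ _).trans (min_le_left _ _)
  have δ2 : δ ≤ δ₂ := (min_le_left _ _).trans (min_le_right _ _)
  have δ3 : δ ≤ 1 := min_le_right _ _
  have hπ := Real.pi_gt_three
  set K : Set ℝ := Icc (-Real.pi) Real.pi ∩ {θ | δ / 16 ≤ |θ|} with hK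
  have Kc : IsCompact K := isCompact_Icc.inter_right (isClosed_le continuous_const continuous_abs)
  have Kn : K.Nonempty := ⟨Real.pi, ⟨by linarith, le_rfl⟩, by
    simp only [mem_setOf_eq, abs_of_pos Real.pi_pos]; linarith⟩
  have ci : Continuous fun q : BS × ℝ => (q.1, (q.2 : ℂ)) := by fun_prop
  have cF1 : ∀ θ : ℝ, ContinuousAt (fun q : BS × ℝ => ‖ser (un R q.1) (W (q.1, q.2))‖) (u₀, θ) :=
    fun θ => (ContinuousAt.comp (f := fun q : BS × ℝ => (q.1, (q.2 : ℂ)))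
      (dF.continuousOn.continuousAt (O₁o.mem_nhds (mO₁ θ))) ci.continuousAt).norm
  have cF2 : ∀ θ : ℝ, ContinuousAt (fun q : BS × ℝ => ‖ser (un R q.1) (c q.1)‖) (u₀, θ) :=
    fun θ => (ContinuousAt.comp (f := fun q : BS × ℝ => (q.1, (q.2 : ℂ)))
      (dF0.continuousOn.continuousAt (O₁o.mem_nhds (mO₁ θ))) ci.continuousAt).norm
  obtain ⟨θ₀, t0, t1⟩ := Kc.exists_isMaxOn Kn
    (f := fun θ : ℝ => ‖ser (un R u₀) (W (u₀, θ))‖) (fun θ _ =>
      (ContinuousAt.comp (f := fun θ : ℝ => (u₀, θ)) (cF1 θ) (by fun_prop)).continuousWithinAt)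
  have t2 : ‖ser (un R u₀) (W (u₀, θ₀))‖ < ser f z := by
    have n1 : ‖W (u₀, θ₀)‖ = z := by simp only [hW, lapB_norm, c0, nz]
    rw [hu]
    have n2 := norm_ser_le hc.nn hc.sum n1.le
    refine lt_of_le_of_ne (n2.1.trans n2.2) fun he => ?_
    have n3 := aper hc.nn h0 ha hc.sum n1 he
    simp only [hW, c0] at n3
    have n4 : exp (I * θ₀) = 1 :=
      mul_left_cancel₀ (by exact_mod_cast z0.ne' : (z : ℂ) ≠ 0) (by rw [n3, mul_one])
    obtain ⟨n, n5⟩ := exp_eq_one_iff.1 n4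
    have n6 : θ₀ = n * (2 * Real.pi) := by
      have := congrArg Complex.im n5
      simpa using this
    have n7 : δ / 16 ≤ |θ₀| := t0.2
    obtain ⟨n8, n9⟩ := t0.1
    rcases lt_trichotomy n 0 with h | h | h
    · have : (n : ℝ) ≤ -1 := by exact_mod_cast (show n ≤ -1 by omega)
      nlinarith
    · rw [h] at n6
      simp only [Int.cast_zero, zero_mul] at n6
      rw [n6, abs_zero] at n7
      linarith
    · have : (1 : ℝ) ≤ n := by exact_mod_cast (show 1 ≤ n by omega)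
      nlinarith
  obtain ⟨q, q1, q2⟩ := exists_between ((div_lt_one F0).2 t2)
  have q0 : 0 < q := lt_of_le_of_lt (by positivity) q1
  have e6 : ∀ᶠ u in 𝓝 u₀, ∀ θ ∈ K, ‖ser (un R u) (W (u, θ))‖ < q * ‖ser (un R u) (c u)‖ := by
    apply Kc.eventually_forall_of_forall_eventually
    intro θ hθ
    refine (cF1 θ).eventually_lt (continuousAt_const.mul (cF2 θ)) ?_
    have : ‖ser (un R u₀) (W (u₀, θ))‖ ≤ _ := t1 hθ
    rw [div_lt_iff₀ F0] at q1
    simp only [c0, F1, Complex.norm_real, Real.norm_eq_abs, abs_of_pos F0]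
    linarith
  refine ⟨δ, z * r / ser f z / 4, -Real.log q, ‖(ser (un R u₀) (W (u₀, 0)))⁻¹‖ + 1, δ0, δ3,
    by positivity, neg_pos.2 (Real.log_neg q0 q2), ?_⟩
  filter_upwards [e1, e6, ball_mem_nhds u₀ hδ₂] with u a1 a2 a3
  have a4 : ∀ θ ∈ ball (0 : ℂ) δ, _ := fun θ hθ => e5 (u, θ) (by
    rw [← ball_prod_same]
    exact ⟨a3, ball_subset_ball δ2 hθ⟩)
  have a5 := a4 0 (mem_ball_self δ0)
  refine ⟨bnd_un R R0 u, ?_, crit u a5.2.2.1.1.1, ?_, ?_, ?_⟩
  · intro h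
    have b1 := a2 Real.pi ⟨⟨by linarith, le_rfl⟩, by
      simp only [mem_setOf_eq, abs_of_pos Real.pi_pos]; linarith⟩
    simp only [hW, h, zero_mul] at b1
    have := norm_nonneg (ser (un R u) 0)
    nlinarith
  · intro θ hθ
    obtain ⟨⟨b1, b2⟩, b3, b4⟩ := a4 θ hθ
    obtain ⟨b5, b6⟩ := a1.1 θ (ball_subset_ball δ1 hθ)
    refine ⟨b1, b2, b3.le, b5, ?_⟩
    rw [← (hΦ _ b4).deriv] at b6
    exact b6
  · intro θ hθ
    exact a1.2 θ (hθ.trans_le δ1)
  · intro θ b1 b2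
    rw [neg_neg, Real.exp_log q0]
    exact (a2 θ ⟨abs_le.1 b2, b1⟩).le

theorem lap {m : ℕ} (hm : 0 < m) {f : ℕ → ℝ} {z R ρ : ℝ} (hc : Crit m f z) (h0 : 0 < f 0)
    (ha : Aper {i | 0 < f i}) {u₀ : BS} (hu : un R u₀ = cx f) (h1 : z < ρ) (h2 : ρ < R) :
    ∃ U c κ, Lap m R ρ U c κ ∧ u₀ ∈ U ∧ c u₀ = z ∧ ∃ r : ℝ, 0 < r ∧ κ u₀ = r := by
  have z0 := hc.pos
  have zR : z < R := h1.trans h2
  have R0 : 0 < R := z0.trans zR
  have ρ0 : 0 < ρ := z0.trans h1
  have hb : Bnd R (cx f) := hu ▸ bnd_un R R0 u₀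
  obtain ⟨r, r0, hr⟩ := hc.deriv_pos hm h0 hb zR
  obtain ⟨c, ε, ε0, c0, e1⟩ := lapB_ift (isOpen_univ.prod isOpen_ball) (hol_ser_flat m R R0)
    (u₀ := u₀) (z := z) ⟨trivial, by simpa [abs_of_pos z0] using zR⟩
    (by
      have e : flat m (cx f) = fun i => ((flat m f i : ℝ) : ℂ) := by
        funext i
        simp [flat]
      simp only [hu, e]
      rw [ser_ofReal, ser, hc.crit.tsum_eq, Complex.ofReal_zero])
    (by
      simp only [hu]
      rw [show (fun w => ser (flat m (cx f)) w) = ser (flat m (cx f)) from rfl, hr]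
      exact_mod_cast r0.ne')
  obtain ⟨U₁, s1, o1, m1⟩ := _root_.mem_nhds_iff.1 e1
  obtain ⟨δ, γ, η, M, δ0, δ1, γ0, η0, e2⟩ := lapB_setup hm hc h0 ha hu h1 h2 o1 m1
    (fun u hu => (s1 hu).1.differentiableWithinAt) c0 (fun u hu => (s1 hu).2.1)
  have e3 : ∀ᶠ u in 𝓝 u₀, ‖u‖ < ‖u₀‖ + 1 :=
    continuous_norm.continuousAt.eventually_lt continuousAt_const (lt_add_one _)
  obtain ⟨U, s2, o2, m2⟩ := _root_.mem_nhds_iff.1 (e1.and (e2.and e3))
  obtain ⟨C, hC⟩ := lapB_pt (M := M) hm h2 δ0 δ1 γ0 η0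
  have hC' : ∀ u : BS, ∃ (κ : ℂ) (κ₂ : ℕ → ℂ), u ∈ U → _ := fun u => by
    by_cases h : u ∈ U
    · obtain ⟨κ, κ₂, h'⟩ := hC _ _ (s2 h).2.1
      exact ⟨κ, κ₂, fun _ => h'⟩
    · exact ⟨0, 0, fun h' => (h h').elim⟩
  choose κ κ₂ hκ using hC'
  have base : ∀ u ∈ U, ‖c u‖ < ρ ∧ ser (un R u) (c u) ≠ 0 ∧ ‖(ser (un R u) (c u))⁻¹‖ ≤ M := by
    intro u hu
    obtain ⟨c1, c2, c3, -⟩ := (s2 hu).2.1.near 0 (mem_ball_self δ0)
    simp only [mul_zero, Complex.exp_zero, mul_one] at c1 c2 c3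
    exact ⟨c1, c2, c3⟩
  have dc : DifferentiableOn ℂ c U := fun u hu => (s2 hu).1.1.differentiableWithinAt
  have C0 : 0 ≤ C := (norm_nonneg _).trans (hκ u₀ m2).2.1
  have M0 : 0 ≤ M := (norm_nonneg _).trans (base u₀ m2).2.2
  set a : ℕ → BS → ℂ := fun l u =>
    cf (un R u) (m * l - 1) l / Bv m (un R u) (c u) ^ l / wal (l - 1) with ha'
  have lim : TendstoUniformlyOn a κ atTop U := by
    rw [Metric.tendstoUniformlyOn_iff]
    intro e e0
    have t1 : Tendsto (fun l : ℕ => 2 * C / (l : ℝ)) atTop (𝓝 0) :=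
      tendsto_const_div_atTop_nhds_zero_nat _
    filter_upwards [t1.eventually (gt_mem_nhds e0), eventually_ge_atTop 1] with l b1 hl u hu
    obtain ⟨-, -, b2, b3⟩ := hκ u hu
    have b4 := (b3 l hl).2 0
    have b5 := b2 0
    simp only [pow_zero, mul_one, Nat.cast_zero, sub_zero] at b4 b5
    have w0 := wal_pos (l - 1)
    have l1 : (1 : ℝ) ≤ l := by exact_mod_cast hl
    have w1 : ((wal (l - 1) : ℝ) : ℂ) ≠ 0 := by exact_mod_cast w0.ne'
    have l2 : (l : ℂ) ≠ 0 := by exact_mod_cast (show l ≠ 0 by omega)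
    refine lt_of_le_of_lt ?_ b1
    rw [dist_comm, dist_eq_norm]
    set X := cf (un R u) (m * l - 1) l / Bv m (un R u) (c u) ^ l with hX
    have e : a l u - κ u = ((l * (X - κ u * wal (l - 1)) - κ₂ u 0 * wal (l - 1)) +
        κ₂ u 0 * wal (l - 1)) / (l * wal (l - 1)) := by
      simp only [ha', ← hX]
      field_simp
      ring
    rw [e, norm_div, norm_mul, Complex.norm_natCast, Complex.norm_real, Real.norm_eq_abs,
      abs_of_pos w0, div_le_div_iff₀ (by positivity) (by positivity)]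
    have b6 := norm_add_le (l * (X - κ u * wal (l - 1)) - κ₂ u 0 * wal (l - 1))
      (κ₂ u 0 * wal (l - 1))
    rw [norm_mul, Complex.norm_real, Real.norm_eq_abs, abs_of_pos w0] at b6
    have b7 : wal (l - 1) / l ≤ wal (l - 1) := div_le_self w0.le l1
    have b8 := mul_le_mul_of_nonneg_left b7 C0
    have b9 := mul_le_mul_of_nonneg_right b5 w0.le
    calc _ ≤ (2 * C * wal (l - 1)) * l := by gcongr; linarith
      _ = _ := by ring
  have dF0 : DifferentiableOn ℂ (fun u : BS => ser (un R u) (c u)) U :=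
    (hol_ser R R0).comp (f := fun u : BS => (u, c u)) (differentiableOn_id.prodMk dc)
      fun u hu => ⟨trivial, mem_ball_zero_iff.2 ((base u hu).1.trans h2)⟩
  have da : ∀ l, DifferentiableOn ℂ (a l) U := by
    intro l
    have d1 : DifferentiableOn ℂ (fun u => Bv m (un R u) (c u)) U := by
      simp only [Bv, div_eq_mul_inv]
      exact (dF0.pow m).mul (dc.inv fun u hu => (s2 hu).2.1.cne)
    simp only [ha', div_eq_mul_inv]
    exact ((hol_cf R _ _).differentiableOn.mul ((d1.pow l).inv fun u hu =>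
      pow_ne_zero _ (div_ne_zero (pow_ne_zero _ (base u hu).2.1) (s2 hu).2.1.cne))).mul_const _
  refine ⟨U, c, κ, ⟨o2, ⟨ρ0, h2⟩, dc, (hol_lim o2 (Eventually.of_forall da) lim).1,
    fun u hu => ⟨(s2 hu).2.1.cne, (base u hu).1⟩, fun u hu => (s2 hu).1.2.1,
    fun u hu => (s2 hu).1.2.2.1, ⟨ε, ε0, fun u hu => (s2 hu).1.2.2.2⟩,
    fun u hu => (base u hu).2.1, fun u hu => (hκ u hu).1, ?_⟩, m2, c0, ?_⟩
  · refine ⟨C + (‖u₀‖ + 1) + M ^ m * ρ, κ₂, fun u hu => ?_⟩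
    obtain ⟨-, b1, b2, b3⟩ := hκ u hu
    obtain ⟨c1, c2, c3⟩ := base u hu
    have b4 : ‖u‖ < ‖u₀‖ + 1 := (s2 hu).2.2
    have b5 : 0 ≤ M ^ m * ρ := by positivity
    have b6 := norm_nonneg u₀
    have b7 : C ≤ C + (‖u₀‖ + 1) + M ^ m * ρ := by linarith
    refine ⟨by linarith, b1.trans b7, ?_, fun i => (b2 i).trans (by gcongr), fun l hl => ?_⟩
    · have : ‖(Bv m (un R u) (c u))⁻¹‖ ≤ M ^ m * ρ := by
        rw [Bv, inv_div, div_eq_mul_inv, ← inv_pow, norm_mul, norm_pow, mul_comm]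
        gcongr
      linarith
    · have w0 := wal_pos (l - 1)
      exact ⟨fun i => ((b3 l hl).1 i).trans (by gcongr), fun i => ((b3 l hl).2 i).trans (by gcongr)⟩
  · have t1 := lim.tendsto_at m2
    have F0 : 0 ≤ ser f z := tsum_nonneg fun i => mul_nonneg (hc.nn i) (pow_nonneg z0.le i)
    have t2 : ∀ l, a l u₀ = ((cf f (m * l - 1) l / Bv m f z ^ l / wal (l - 1) : ℝ) : ℂ) := by
      intro l
      simp only [ha', hu, c0, Bv]
      rw [cf_ofReal, ser_ofReal]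
      push_cast
      rfl
    have t3 : 0 ≤ (κ u₀).re := by
      refine ge_of_tendsto' ((Complex.continuous_re.tendsto _).comp t1) fun l => ?_
      rw [comp_apply, t2, Complex.ofReal_re]
      have := cf_nonneg hc.nn (m * l - 1) l
      have := wal_pos (l - 1)
      have : 0 ≤ Bv m f z := by unfold Bv; positivity
      positivity
    have t4 : (κ u₀).im = 0 := by
      refine tendsto_nhds_unique ((Complex.continuous_im.tendsto _).comp t1) ?_
      refine tendsto_const_nhds.congr fun l => ?_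
      rw [comp_apply, t2, Complex.ofReal_im]
    have t5 : κ u₀ = ((κ u₀).re : ℂ) := Complex.ext (by simp) (by simp [t4])
    refine ⟨(κ u₀).re, lt_of_le_of_ne t3 fun h => (hκ u₀ m2).1 ?_, t5⟩
    rw [t5, ← h, Complex.ofReal_zero]

end Pool.Agent.MP_098ecc_co.H97
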