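import Pool.Agent.MP_098ecc_co.H97.Hard
import Pool.Agent.MP_098ecc_co.H97.LapB

set_option autoImplicit false

namespace Pool.Agent.MP_098ecc_co.H97

open Metric Filter Topology Set Function
open scoped BoundedContinuousFunction

theorem hardP_ser (f : ℕ → ℝ) (z : ℝ) : ser (cx f) z = (ser f z : ℝ) := by
  simp [ser, Complex.ofReal_tsum]

theorem hardP_flat (m : ℕ) (f : ℕ → ℝ) : flat m (cx f) = cx (flat m f) := by
  funext i; simp [flat, cx]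

theorem hardP_Bv (m : ℕ) (f : ℕ → ℝ) (z : ℝ) : Bv m (cx f) z = (Bv m f z : ℝ) := by
  simp [Bv, hardP_ser]

theorem hardP_cf (f : ℕ → ℝ) (N : ℕ) (j : ℤ) : cf (cx f) N j = (cf f N j : ℝ) := by
  unfold cf
  split_ifs
  · have : PowerSeries.mk (cx f) = PowerSeries.map Complex.ofRealHom (PowerSeries.mk f) := by
      ext i; simp
    rw [this, ← map_pow, PowerSeries.coeff_map]; rfl
  · simp

theorem hardP_sT (m : ℕ) (L : Set ℕ) (f : ℕ → ℝ) (i : ℤ) :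
    sT m (ind ℂ L) (cx f) i = (sT m (ind ℝ L) f i : ℝ) := by
  simp [sT, Complex.ofReal_tsum, hardP_cf, win_cast]

theorem hardP_pos {m : ℕ} {f : ℕ → ℝ} {z : ℝ} (h : Crit m f z) (h0 : 0 < f 0) : 0 < ser f z :=
  h.sum.tsum_pos (fun i => mul_nonneg (h.nn i) (pow_nonneg h.pos.le i)) 0 (by simpa using h0)

theorem hardP_bnd {R : ℝ} (hR : 0 < R) (u : BS) : Bnd R (un R u) := ⟨‖u‖, fun i => by
  rw [un, norm_mul, norm_pow, norm_inv, Complex.norm_real, Real.norm_of_nonneg hR.le]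
  exact mul_le_mul_of_nonneg_right (u.norm_coe_le_norm i) (by positivity)⟩

/-- the hard side attached to a sequence of positive critical sequences -/
theorem hardPack {κ : Type} [Fintype κ] [DecidableEq κ] (i : κ) {m : ℕ} (hm : 0 < m) {L : Set ℕ}
    (hL : 0 ∉ L) {M : ℕ} (hM : 1 ≤ M) {Rin Rout : ℝ} (h3 : Rout⁻¹ < Rin) {f : ℕ → ℕ → ℝ}
    {g : ℕ → ℝ} {z : ℕ → ℝ} {z₀ : ℝ} (h2 : z₀ < Rout⁻¹) (hc : ∀ n, Crit m (f n) (z n))
    (hf0 : ∀ n, 0 < f n 0) (hc₀ : Crit m g z₀) (h0 : 0 < g 0) (ha : Aper {i | 0 < g i})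
    (hz : Tendsto z atTop (𝓝 z₀)) {u : ℕ → BS} {u₀ : BS} (hu₀ : un Rin u₀ = cx g)
    (hu : ∀ᶠ n in atTop, un Rin (u n) = cx (f n)) (hl : Tendsto u atTop (𝓝 u₀))
    (hB : ∀ n, Bv m (f n) (z n) < 1) (hB1 : Tendsto (fun n => Bv m (f n) (z n)) atTop (𝓝 1))
    {τ : ℕ → ℝ} {τ₀ y : ℝ} (hτ : Tendsto τ atTop (𝓝 τ₀))
    (hy : Tendsto (fun n => τ n ^ M * sT m (ind ℝ L) (f n) 1) atTop (𝓝 y)) :
    ∃ (S : Side κ ℂ) (w : ℕ → ℂ) (w₀ : ℂ), IsSide m S ∧ HardS m S i ∧ S.Rin = Rin ∧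
      S.Rout = Rout ∧ S.M = M ∧ S.L = L ∧ ((τ₀ : ℂ), w₀, u₀) ∈ S.U ∧
      Tendsto w atTop (𝓝 w₀) ∧ S.c (τ₀, w₀, u₀) = z₀ ∧
      (∃ r : ℝ, 0 < r ∧ S.βf (τ₀, w₀, u₀) = r) ∧ (∃ r : ℝ, 0 < r ∧ S.vf (τ₀, w₀, u₀) = r) ∧
      (τ₀ = 0 → y ≠ 0 → S.j w₀ ≠ 0) ∧ (τ₀ ≠ 0 → Sparse L) ∧
      ∀ᶠ n in atTop, IsReal m S (τ n) (w n) (u n) (z n) (Bv m (f n) (z n)) := by
  obtain ⟨ρ, r1, r2⟩ := exists_between h2
  obtain ⟨U, c, k, hU, m0, c0, r, r0, k0⟩ := lap hm hc₀ h0 ha hu₀ r1 (r2.trans h3)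
  have hzR : z₀ < Rin := h2.trans h3
  have b0 : ∀ n, 0 ≤ Bv m (f n) (z n) := fun n =>
    div_nonneg (pow_nonneg (hardP_pos (hc n) (hf0 n)).le m) (hc n).pos.le
  have e1 : ∀ᶠ n in atTop, c (u n) = z n := by
    obtain ⟨ε, ε0, hε⟩ := hU.loc
    have t1 : Tendsto (fun n => (z n : ℂ) - c (u n)) atTop (𝓝 (z₀ - c u₀)) :=
      ((Complex.continuous_ofReal.tendsto _).comp hz).sub
        ((hU.dc.continuousOn.continuousAt (hU.op.mem_nhds m0)).tendsto.comp hl)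
    rw [c0, sub_self] at t1
    filter_upwards [hl.eventually (hU.op.mem_nhds m0), hu,
      (tendsto_zero_iff_norm_tendsto_zero.1 t1).eventually_lt_const ε0] with n h1 h2 h3
    refine (hε _ h1 _ h3 ?_).symm
    rw [h2, hardP_flat, hardP_ser, ser, (hc n).crit.tsum_eq, Complex.ofReal_zero]
  have tτ : Tendsto (fun n => (τ n : ℂ)) atTop (𝓝 τ₀) := (Complex.continuous_ofReal.tendsto _).comp hτ
  obtain ⟨w₀, tw, hw⟩ := hard_conv hm hL hU m0 hl (tτ.pow M) (y := y)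
    (B := fun n => Bv m (f n) (z n))
    (by
      filter_upwards [e1, hu] with n h1 h2
      exact ⟨by rw [h1, h2, hardP_Bv], b0 n, hB n⟩) hB1
    (((Complex.continuous_ofReal.tendsto _).comp hy).congr' (by
      filter_upwards [hu] with n h1
      simp [h1, hardP_sT]))
  obtain ⟨S, s1, s2, s3, s4, s5, s6, s7, s8, s9, s10⟩ := hard i hm hL hM r2 h3 hU τ₀ w₀ m0
  obtain ⟨-, p1, p2, p3⟩ := s9 _ s7
  have g0 := hardP_pos hc₀ h0
  refine ⟨S, _, w₀, s1, s2, s3, s4, s5, s6, s7, tw, p1.trans c0,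
    ⟨r * ser g z₀ / Bv m g z₀, div_pos (mul_pos r0 g0) (div_pos (pow_pos g0 m) hc₀.pos), ?_⟩,
    ?_, fun t0 y0 => ?_, fun t0 => ?_, ?_⟩
  · rw [p2]; dsimp only
    rw [k0, c0, hu₀, hardP_ser, hardP_Bv]; push_cast; rfl
  · obtain ⟨d, d0, hd⟩ := hc₀.deriv_pos hm h0 (hu₀ ▸ hardP_bnd (hc₀.pos.trans hzR) u₀) hzR
    refine ⟨r * z₀ * d, mul_pos (mul_pos r0 hc₀.pos) d0, ?_⟩
    rw [p3]; dsimp only
    rw [k0, c0, hu₀, hd]; push_cast; rfl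
  · rw [s8]
    intro h
    have := hw (by rw [t0, Complex.ofReal_zero, zero_pow (by omega)])
    rw [h, zero_mul, zero_mul] at this
    exact y0 (by exact_mod_cast this.symm)
  · have t1 : (τ₀ : ℂ) ^ M ≠ 0 := pow_ne_zero _ (Complex.ofReal_ne_zero.2 t0)
    have t2 : Tendsto (fun n => Jf L (Bv m (f n) (z n) : ℝ)) atTop (𝓝 (w₀ / τ₀ ^ M)) :=
      (tw.div (tτ.pow M) t1).congr' (by
        filter_upwards [(tτ.pow M).eventually_ne t1] with n hn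
        exact mul_div_cancel_left₀ _ hn)
    obtain ⟨C, hC⟩ := t2.norm.bddAbove_range
    exact sparse_of_bdd (fun n => ⟨b0 n, hB n⟩) hB1 fun n => hC ⟨n, rfl⟩
  · filter_upwards [e1, hu, (tτ.prodMk_nhds (tw.prodMk_nhds hl)).eventually (s1.op.mem_nhds s7)]
      with n h1 h2 h3
    exact s10 _ _ _ _ (ser (f n) (z n)) _ h3 h1 (hc n).pos (hardP_pos (hc n) (hf0 n))
      (by rw [h2, hardP_ser]) rfl (hB n) rfl

end Pool.Agent.MP_098ecc_co.H97
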