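import Pool.Agent.MP_098ecc_co.H97.Slb
import Pool.Agent.MP_098ecc_co.H97.PoslB

set_option autoImplicit false

namespace Pool.Agent.MP_098ecc_co.H97

open Metric Filter Topology Set Function
open scoped BoundedContinuousFunction

theorem plain_ind_nonneg (L : Set ℕ) (l : ℕ) : 0 ≤ ind ℝ L l := by
  unfold ind; split_ifs <;> norm_num

theorem plain_norm_ind (L : Set ℕ) (l : ℕ) : ‖ind ℂ L l‖ = ind ℝ L l := by
  unfold ind; split_ifs <;> simp

/-- room above the majorant -/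
theorem plain_room {m : ℕ} {L : Set ℕ} {f : ℕ → ℂ} {ρ : ℝ} (hM : Maj m L f ρ) :
    ∃ A B : ℝ, ∑' i, ‖f i‖ * ρ ^ i < A ∧ 0 < A ∧ A ^ m / ρ ≤ B ∧
      Summable fun l => ind ℝ L l * B ^ l := by
  obtain ⟨hρ, -, B, hB, hs⟩ := hM
  have h0 : 0 ≤ ∑' i, ‖f i‖ * ρ ^ i := tsum_nonneg fun i => by positivity
  have hc : ContinuousAt (fun A : ℝ => A ^ m / ρ) (∑' i, ‖f i‖ * ρ ^ i) := by fun_prop
  have h1 : ∀ᶠ A in 𝓝[>] (∑' i, ‖f i‖ * ρ ^ i), A ^ m / ρ < B :=
    nhdsWithin_le_nhds (hc.eventually_lt_const hB)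
  obtain ⟨A, h2, h3⟩ := (h1.and self_mem_nhdsWithin).exists
  exact ⟨A, B, h3, h0.trans_lt h3, h2.le, hs⟩

theorem plain_cf_le {m : ℕ} (hm : 0 < m) {L : Set ℕ} (hL : 0 ∉ L) {f : ℕ → ℂ} {ρ A B : ℝ}
    (hρ : 0 < ρ) (hs : Summable fun i => ‖f i‖ * ρ ^ i) (hA : ∑' i, ‖f i‖ * ρ ^ i ≤ A)
    (hA0 : 0 < A) (hB : A ^ m / ρ ≤ B) (l : ℕ) (i : ℤ) :
    ‖ind ℂ L l * cf f (m * l - 1) (l - i)‖ ≤ ind ℝ L l * B ^ l * (A⁻¹ * ρ ^ i) := by
  by_cases hl : l ∈ L
  swap
  · simp [ind, hl]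
  have hl0 : l ≠ 0 := fun h => hL (h ▸ hl)
  have h1 := cf_le hρ hs (m * l - 1) (l - i)
  have h0 : 0 ≤ ∑' i, ‖f i‖ * ρ ^ i := tsum_nonneg fun i => by positivity
  have h2 : (∑' i, ‖f i‖ * ρ ^ i) ^ (m * l - 1) ≤ A ^ (m * l - 1) := by gcongr
  have h3 : (A ^ m / ρ) ^ l ≤ B ^ l := by gcongr
  have h4 : A ^ (m * l - 1) = (A ^ m / ρ) ^ l * A⁻¹ * ρ ^ l := by
    obtain ⟨N, hN⟩ : ∃ N, m * l = N + 1 :=
      Nat.exists_eq_succ_of_ne_zero (Nat.mul_ne_zero hm.ne' hl0)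
    rw [div_pow, ← pow_mul, hN, Nat.add_sub_cancel]
    field_simp
    ring
  simp only [ind, if_pos hl, one_mul]
  have h5 : ρ ^ ((l : ℤ) - i) = ρ ^ l / ρ ^ i := by rw [zpow_sub₀ hρ.ne', zpow_natCast]
  have hi : 0 < ρ ^ i := zpow_pos hρ i
  have hl' : 0 < ρ ^ l := pow_pos hρ l
  have h6 := h1.trans h2
  rw [h5, h4, ← mul_div_assoc, div_le_iff₀ hi] at h6
  have h7 : ‖cf f (m * l - 1) (l - i)‖ ≤ (A ^ m / ρ) ^ l * (A⁻¹ * ρ ^ i) := by
    refine le_of_mul_le_mul_right ?_ hl'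
    linarith
  refine h7.trans ?_
  gcongr

theorem plain_sum_le {f g : ℕ → ℂ} {ρ : ℝ} (hρ : 0 < ρ) (hf : Summable fun i => ‖f i‖ * ρ ^ i)
    (hg : Summable fun i => ‖g i‖ * ρ ^ i) (s : ℂ) :
    (Summable fun i => ‖(f + s • g) i‖ * ρ ^ i) ∧ ∑' i, ‖(f + s • g) i‖ * ρ ^ i ≤
      ∑' i, ‖f i‖ * ρ ^ i + ‖s‖ * ∑' i, ‖g i‖ * ρ ^ i := by
  have h1 : ∀ i, ‖(f + s • g) i‖ * ρ ^ i ≤ ‖f i‖ * ρ ^ i + ‖s‖ * (‖g i‖ * ρ ^ i) := by
    intro i
    have : ‖(f + s • g) i‖ ≤ ‖f i‖ + ‖s‖ * ‖g i‖ := by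
      simpa using norm_add_le (f i) (s * g i)
    calc _ ≤ (‖f i‖ + ‖s‖ * ‖g i‖) * ρ ^ i := by gcongr
      _ = _ := by ring
  have h2 := hf.add (hg.mul_left ‖s‖)
  have h3 := Summable.of_nonneg_of_le (fun i => by positivity) h1 h2
  refine ⟨h3, (h3.tsum_le_tsum h1 h2).trans_eq ?_⟩
  rw [hf.tsum_add (hg.mul_left _), tsum_mul_left]

theorem plain_sum_flat {R : ℝ} {f : ℕ → ℂ} (hf : Bnd R f) (m : ℕ) {z : ℂ} (hz : ‖z‖ < R) :
    Summable fun i => flat m f i * z ^ i := by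
  obtain ⟨ρ, h1, h2⟩ := exists_between hz
  exact ((hf.flat m ((norm_nonneg _).trans_lt h1) h2).summable h1).of_norm

theorem plain_ser_lin {x y : ℕ → ℂ} {z : ℂ} (hx : Summable fun i => x i * z ^ i)
    (hy : Summable fun i => y i * z ^ i) (a b : ℂ) :
    ser (fun i => a * x i + b * y i) z = a * ser x z + b * ser y z := by
  simp only [ser, add_mul, mul_assoc]
  rw [(hx.mul_left a).tsum_add (hy.mul_left b), tsum_mul_left, tsum_mul_left]

theorem plain_II_add {m : ℕ} {R : ℝ} (hR : 0 < R) (f df : ℕ → ℂ) (u v du dv : BS) (a a' : ℂ)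
    {z : ℂ} (hz : ‖z⁻¹‖ < R) :
    II m f df (un R (u + v)) (un R (du + dv)) a a' z =
      II m f df (un R u) (un R du) a a' z + II m f df (un R v) (un R dv) a a' z := by
  have e : ∀ u v : BS, un R (u + v) = fun i => 1 * un R u i + 1 * un R v i := by
    intro u v; funext i; simp [un, add_mul]
  have e' : flat m (un R (u + v)) = fun i => 1 * flat m (un R u) i + 1 * flat m (un R v) i := by
    funext i; simp [un, flat, add_mul, mul_add]
  have s1 : ∀ u : BS, Summable fun i => un R u i * z⁻¹ ^ i := fun u =>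
    ((bnd_un R hR u).summable hz).of_norm
  have s2 : ∀ u : BS, Summable fun i => flat m (un R u) i * z⁻¹ ^ i := fun u =>
    plain_sum_flat (bnd_un R hR u) m hz
  simp only [II, Om]
  rw [e', e, e, plain_ser_lin (s1 _) (s1 _), plain_ser_lin (s1 _) (s1 _),
    plain_ser_lin (s2 _) (s2 _)]
  ring

theorem plain_cf_neg (f : ℕ → ℂ) (N : ℕ) {l n : ℕ} (h : l < n) : cf f N ((l : ℤ) - n) = 0 := by
  rw [cf, if_neg (by omega)]

theorem plain_term {m l : ℕ} (hm : 0 < m) (hl : 0 < l) {R r : ℝ} (hr : 0 < r) (hR : r < R)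
    {f df : ℕ → ℂ} (hf : Bnd R f) (hd : Bnd R df) (w ϖ e a k : ℂ)
    (he : a = e + k * (m * l - 1 : ℕ)) (n : ℤ) (hn : n ≤ 0) :
    lc r (II m f df (fun n => w * cf f (m * l - 1) (l - n))
      (fun n => w * (e * ϖ * cf f (m * l - 1) (l - n) + dcf f df (m * l - 1) (l - n)))
      (a * ϖ) (k * ϖ)) n = 0 := by
  have hd' : Bnd R ((1 : ℂ) • df + (-(k * ϖ)) • f) := by
    obtain ⟨C, hC⟩ := hf
    obtain ⟨C', hC'⟩ := hd
    refine ⟨C' + ‖k * ϖ‖ * C, fun i => ?_⟩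
    have h1 := norm_add_le (df i) (-(k * ϖ) * f i)
    rw [norm_mul, norm_neg] at h1
    have h2 := mul_le_mul_of_nonneg_left (hC i) (norm_nonneg (k * ϖ))
    have h3 := hC' i
    simp only [Pi.add_apply, Pi.smul_apply, smul_eq_mul, one_mul]
    linarith
  have h1 := (slb hm hl hr hR hf hd').1 n hn
  rw [← mul_zero w, ← h1, ← lc_const_mul]
  refine lc_congr hr (fun z hz => ?_) n
  have fin : ∀ x : ℕ → ℂ, (∀ n, l < n → x n = 0) → Summable fun i => x i * z⁻¹ ^ i := by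
    intro x hx
    refine summable_of_ne_finset_zero (s := Finset.range (l + 1)) fun i hi => ?_
    rw [hx i (by simpa using hi), zero_mul]
  have s1 := fin (fun n => cf f (m * l - 1) (l - n)) fun n h => plain_cf_neg _ _ h
  have s2 := fin (fun n => dcf f df (m * l - 1) (l - n)) fun n h => by
    simp only [dcf, plain_cf_neg _ _ h, deriv_const']
  have s3 : Summable fun i => f i * z ^ i := (hf.summable (hz ▸ hR)).of_norm
  have s4 : Summable fun i => df i * z ^ i := (hd.summable (hz ▸ hR)).of_norm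
  have e1 : ser (fun n => w * cf f (m * l - 1) (l - n)) z⁻¹ =
      w * ser (fun n => cf f (m * l - 1) (l - n)) z⁻¹ := by
    simp only [ser, mul_assoc, tsum_mul_left]
  have e2 : ser (flat m fun n => w * cf f (m * l - 1) (l - n)) z⁻¹ =
      w * ser (flat m fun n => cf f (m * l - 1) (l - n)) z⁻¹ := by
    simp only [ser, flat]
    rw [← tsum_mul_left]
    exact tsum_congr fun i => by ring
  have e3 := plain_ser_lin s1 s2 (w * (e * ϖ)) w
  have e4 := plain_ser_lin s1 s2 (-(k * ϖ) * (m * l - 1 : ℕ)) 1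
  have e5 := plain_ser_lin s4 s3 1 (-(k * ϖ))
  have e6 : (fun n : ℕ => w * (e * ϖ * cf f (m * l - 1) (l - n) + dcf f df (m * l - 1) (l - n))) =
      fun n : ℕ => w * (e * ϖ) * cf f (m * l - 1) (l - n) + w * dcf f df (m * l - 1) (l - n) := by
    funext n; ring
  have e7 : (fun n : ℕ => dcf f ((1 : ℂ) • df + (-(k * ϖ)) • f) (m * l - 1) (l - n)) =
      fun n : ℕ => -(k * ϖ) * (m * l - 1 : ℕ) * cf f (m * l - 1) (l - n) +
        1 * dcf f df (m * l - 1) (l - n) := by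
    funext n; rw [dcf_lin, dcf_self]; ring
  have e8 : ((1 : ℂ) • df + (-(k * ϖ)) • f) = fun i => 1 * df i + -(k * ϖ) * f i := rfl
  simp only [II, Om]
  rw [e7, e6, e8, e1, e2, e3, e4, e5, he]
  ring

/-- one term of the plain side map -/
noncomputable def plainT (m : ℕ) (L : Set ℕ) (M k : ℕ) (Rin Rout : ℝ) (l : ℕ)
    (P : ℂ × Unit × BS) : BS :=
  ∑ n ∈ Finset.range (l + 1), (ind ℂ L l * P.1 ^ (M - k * (m * l - 1)) *
    cf (un Rin P.2.2) (m * l - 1) (l - n) * (Rout : ℂ) ^ n) • holE n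

theorem plainT_apply (m : ℕ) (L : Set ℕ) (M k : ℕ) (Rin Rout : ℝ) (l : ℕ) (P : ℂ × Unit × BS)
    (i : ℕ) : plainT m L M k Rin Rout l P i = ind ℂ L l * P.1 ^ (M - k * (m * l - 1)) *
      cf (un Rin P.2.2) (m * l - 1) (l - i) * (Rout : ℂ) ^ i := by
  rw [plainT, BoundedContinuousFunction.sum_apply, Finset.sum_eq_single i]
  · show (_ : ℂ) • (Pi.single i (1 : ℂ) : ℕ → ℂ) i = _
    simp
  · intro n _ hn
    show (_ : ℂ) • (Pi.single n (1 : ℂ) : ℕ → ℂ) i = _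
    simp [hn.symm]
  · intro hi
    rw [plain_cf_neg _ _ (by simpa using hi)]
    simp

theorem plainT_diff (m : ℕ) (L : Set ℕ) (M k : ℕ) (Rin Rout : ℝ) (l : ℕ) :
    Differentiable ℂ (plainT m L M k Rin Rout l) := by
  refine Differentiable.fun_sum fun n _ => Differentiable.smul_const ?_ _
  refine Differentiable.mul_const (Differentiable.mul (by fun_prop) ?_) _
  exact (hol_cf Rin _ _).comp (differentiable_snd.comp differentiable_snd)

theorem plainT_fderiv (m : ℕ) (L : Set ℕ) (M k : ℕ) (Rin Rout : ℝ) (l : ℕ)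
    (P dP : ℂ × Unit × BS) {ϖ : ℂ} (h : dP.1 = ϖ * P.1) (i : ℕ) :
    fderiv ℂ (plainT m L M k Rin Rout l) P dP i = ind ℂ L l * P.1 ^ (M - k * (m * l - 1)) *
      ((M - k * (m * l - 1) : ℕ) * ϖ * cf (un Rin P.2.2) (m * l - 1) (l - i) +
        dcf (un Rin P.2.2) (un Rin dP.2.2) (m * l - 1) (l - i)) * (Rout : ℂ) ^ i := by
  have h1 : HasDerivAt (fun t : ℂ => plainT m L M k Rin Rout l (P + t • dP))
      (fderiv ℂ (plainT m L M k Rin Rout l) P dP) 0 :=
    (plainT_diff m L M k Rin Rout l P).hasFDerivAt.hasLineDerivAt dP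
  have h2 : HasDerivAt (fun t : ℂ => plainT m L M k Rin Rout l (P + t • dP) i)
      (fderiv ℂ (plainT m L M k Rin Rout l) P dP i) 0 :=
    (BoundedContinuousFunction.evalCLM ℂ i : BS →L[ℂ] ℂ).hasFDerivAt.comp_hasDerivAt 0 h1
  simp only [plainT_apply] at h2
  have h3 := hasDerivAt_cf (F := fun t : ℂ => un Rin (P + t • dP).2.2) (df := un Rin dP.2.2)
    (s := 0) (fun j => by
      have : HasDerivAt (fun t : ℂ => (P.2.2 j + t * dP.2.2 j) * (Rin : ℂ)⁻¹ ^ j)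
          (1 * dP.2.2 j * (Rin : ℂ)⁻¹ ^ j) 0 :=
        (((hasDerivAt_id (0 : ℂ)).mul_const _).const_add _).mul_const _
      rw [one_mul] at this
      exact this) (m * l - 1) (l - i)
  have h4 : HasDerivAt (fun t : ℂ => (P + t • dP).1) dP.1 0 := by
    have : HasDerivAt (fun t : ℂ => P.1 + t * dP.1) (1 * dP.1) 0 :=
      ((hasDerivAt_id (0 : ℂ)).mul_const _).const_add _
    rw [one_mul] at this
    exact this
  have h5 := ((((h4.fun_pow (M - k * (m * l - 1))).const_mul (ind ℂ L l)).fun_mul h3).mul_const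
    ((Rout : ℂ) ^ i))
  rw [h2.unique h5, h]
  simp only [zero_smul, add_zero]
  generalize M - k * (m * l - 1) = e
  rcases e with _ | e
  · simp
  · simp only [Nat.add_sub_cancel]
    ring

theorem plain (κ : Type) [Fintype κ] [DecidableEq κ] {m : ℕ} (hm : 0 < m) {L : Set ℕ}
    (hL : 0 ∉ L) (M k : ℕ) {Rin Rout ρ : ℝ} (h1 : ρ < Rin) (h2 : ρ < Rout⁻¹) (h3 : Rout⁻¹ < Rin)
    (τ₀ : ℂ) (u₀ : BS) (hM : Maj m L (un Rin u₀) ρ)
    (hk : k = 0 ∨ (L.Finite ∧ ∀ l ∈ L, k * (m * l - 1) ≤ M)) :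
    ∃ S : Side κ Unit, IsSide m S ∧ PlainS m S ∧ S.Rin = Rin ∧ S.Rout = Rout ∧ S.M = M ∧ S.k = k ∧
      S.L = L ∧ (τ₀, (), u₀) ∈ S.U ∧
      ∀ τ u z B, (τ, (), u) ∈ S.U → τ ≠ 0 → IsReal m S τ () u z B := by
  have hk' : ∀ l ∈ L, k * (m * l - 1) ≤ M := by
    rcases hk with rfl | hk
    · simp
    · exact hk.2
  obtain ⟨A, B, hA, hA0, hB, hsB⟩ := plain_room hM
  obtain ⟨hρ, hs0, -⟩ := hM
  have hRin : 0 < Rin := hρ.trans h1
  have hRout : 0 < Rout := inv_pos.1 (hρ.trans h2)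
  have hθ : ρ * Rout < 1 := by
    have := mul_lt_mul_of_pos_right h2 hRout
    rwa [inv_mul_cancel₀ hRout.ne'] at this
  have hB0 : 0 ≤ B := le_trans (by positivity) hB
  set S1 : ℝ := ∑' i, ‖un Rin 1 i‖ * ρ ^ i with hS1
  have hS10 : 0 ≤ S1 := tsum_nonneg fun i => by positivity
  obtain ⟨δ, hδ, hδA⟩ : ∃ δ > (0 : ℝ), ∑' i, ‖un Rin u₀ i‖ * ρ ^ i + δ * S1 ≤ A := by
    refine ⟨(A - ∑' i, ‖un Rin u₀ i‖ * ρ ^ i) / (S1 + 1), by apply div_pos <;> linarith, ?_⟩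
    rw [div_mul_eq_mul_div, ← le_sub_iff_add_le', div_le_iff₀ (by linarith)]
    nlinarith
  have hsum : ∀ u : BS, Summable fun i => ‖un Rin u i‖ * ρ ^ i := fun u =>
    (bnd_un Rin hRin u).laur_sum hρ.le h1
  have hmaj : ∀ u ∈ ball u₀ δ, ∑' i, ‖un Rin u i‖ * ρ ^ i ≤ A := by
    intro u hu
    refine le_trans ?_ hδA
    rw [hS1, ← tsum_mul_left, ← (hsum _).tsum_add ((hsum 1).mul_left δ)]
    refine (hsum u).tsum_le_tsum (fun i => ?_) ((hsum _).add ((hsum 1).mul_left δ))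
    have h4 : ‖u i‖ ≤ ‖u₀ i‖ + δ := by
      have h5 := (u - u₀).norm_coe_le_norm i
      have h6 := mem_ball_iff_norm.1 hu
      have h7 := norm_add_le (u₀ i) ((u - u₀) i)
      simp only [BoundedContinuousFunction.sub_apply, add_sub_cancel] at h7 h5
      linarith
    simp only [un, norm_mul, BoundedContinuousFunction.coe_one, Pi.one_apply, one_mul]
    calc _ ≤ (‖u₀ i‖ + δ) * ‖(Rin : ℂ)⁻¹ ^ i‖ * ρ ^ i := by gcongr
      _ = _ := by ring
  set U : Set (ℂ × Unit × BS) := ball τ₀ 1 ×ˢ univ ×ˢ ball u₀ δ with hU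
  have hUo : IsOpen U := isOpen_ball.prod (isOpen_univ.prod isOpen_ball)
  set K : ℝ := (‖τ₀‖ + 1) ^ M * A⁻¹ with hK
  have hK0 : 0 ≤ K := by positivity
  have hT : ∀ l, ∀ P ∈ U, ∀ n, ‖plainT m L M k Rin Rout l P n‖ ≤
      ind ℝ L l * B ^ l * (K * (ρ * Rout) ^ n) := by
    intro l P hP n
    have h4 := plain_cf_le hm hL hρ (hsum P.2.2) (hmaj _ hP.2.2) hA0 hB l n
    have h5 : ‖P.1‖ ≤ ‖τ₀‖ + 1 := by
      have h6 := mem_ball_iff_norm.1 hP.1
      have h7 := norm_add_le τ₀ (P.1 - τ₀)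
      rw [add_sub_cancel] at h7
      linarith
    have h6 : ‖P.1 ^ (M - k * (m * l - 1))‖ ≤ (‖τ₀‖ + 1) ^ M := by
      rw [norm_pow]
      calc _ ≤ (‖τ₀‖ + 1) ^ (M - k * (m * l - 1)) := by gcongr
        _ ≤ _ := pow_le_pow_right₀ (by linarith [norm_nonneg τ₀]) (Nat.sub_le _ _)
    rw [plainT_apply, mul_comm (ind ℂ L l), mul_assoc (P.1 ^ _), norm_mul, norm_mul (P.1 ^ _),
      norm_pow (Rout : ℂ), Complex.norm_real, Real.norm_eq_abs, abs_of_pos hRout]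
    rw [zpow_natCast] at h4
    have := plain_ind_nonneg L l
    calc _ ≤ (‖τ₀‖ + 1) ^ M * (ind ℝ L l * B ^ l * (A⁻¹ * ρ ^ n)) * Rout ^ n := by gcongr
      _ = _ := by rw [hK, mul_pow]; ring
  have hT' : ∀ l, ∀ P ∈ U, ‖plainT m L M k Rin Rout l P‖ ≤ ind ℝ L l * B ^ l * K := by
    intro l P hP
    have := plain_ind_nonneg L l
    rw [BoundedContinuousFunction.norm_le (by positivity)]
    intro n
    refine (hT l P hP n).trans ?_
    have : (ρ * Rout) ^ n ≤ 1 := pow_le_one₀ (by positivity) hθ.le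
    gcongr
    exact mul_le_of_le_one_right hK0 this
  set O : ℂ × Unit × BS → BS := fun P => ∑' l, plainT m L M k Rin Rout l P with hO
  obtain ⟨hOd, hOs⟩ := hol_tsum hUo (fun l => (plainT_diff m L M k Rin Rout l).differentiableOn)
    (hsB.mul_right K) hT'
  have hsO : ∀ P ∈ U, HasSum (fun l => plainT m L M k Rin Rout l P) (O P) := fun P hP =>
    (Summable.of_norm_bounded (hsB.mul_right K) fun l => hT' l P hP).hasSum
  have hsn : ∀ P ∈ U, ∀ n, HasSum (fun l => plainT m L M k Rin Rout l P n) (O P n) :=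
    fun P hP n => (BoundedContinuousFunction.evalCLM ℂ n : BS →L[ℂ] ℂ).hasSum (hsO P hP)
  have hRc : (Rout : ℂ) ≠ 0 := by exact_mod_cast hRout.ne'
  have hcan : ∀ (x : ℂ) (n : ℕ), x * (Rout : ℂ) ^ n * (Rout : ℂ)⁻¹ ^ n = x := by
    intro x n
    rw [mul_assoc, ← mul_pow, mul_inv_cancel₀ hRc, one_pow, mul_one]
  have hform : ∀ P ∈ U, ∀ n : ℕ, un Rout (O P) n =
      sT m (fun l => ind ℂ L l * P.1 ^ (M - k * (m * l - 1))) (un Rin P.2.2) n := by
    intro P hP n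
    rw [un, ← (hsn P hP n).tsum_eq, ← tsum_mul_right, sT]
    exact tsum_congr fun l => by rw [plainT_apply, hcan]
  have hfd : ∀ (b db : κ → ℂ), ∀ P ∈ U, ∀ dP,
      fderiv ℂ (fun q : (κ → ℂ) × (ℂ × Unit × BS) => O q.2) (b, P) (db, dP) = fderiv ℂ O P dP ∧
      lineDeriv ℂ (fun q : (κ → ℂ) × (ℂ × Unit × BS) => O q.2) (b, P) (db, dP) =
        fderiv ℂ O P dP := by
    intro b db P hP dP
    have h5 : HasFDerivAt O (fderiv ℂ O P) P :=
      (hOd.differentiableAt (hUo.mem_nhds hP)).hasFDerivAt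
    have h4 : HasFDerivAt (fun q : (κ → ℂ) × (ℂ × Unit × BS) => O q.2)
        ((fderiv ℂ O P).comp (ContinuousLinearMap.snd ℂ _ _)) (b, P) :=
      HasFDerivAt.comp (f := Prod.snd) (b, P) h5 hasFDerivAt_snd
    exact ⟨by rw [h4.fderiv]; rfl, (h4.hasLineDerivAt _).lineDeriv⟩
  refine ⟨⟨Rin, Rout, M, k, L, ∅, U, fun q => O q.2, fun _ => 0, fun _ => 0, 0, fun _ => 0,
    fun _ => 1⟩, ⟨⟨hRin, hRout, h3⟩, hL, hUo, Reg.of_snd hOd,
      Reg.of_diff _ (differentiable_const _), ⟨(∑' l, ind ℝ L l * B ^ l) * K, ρ * Rout,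
        by positivity, hθ, fun b _ P hP n => ?_⟩, ⟨0, fun b _ P hP db => ?_⟩,
      ⟨0, fun b _ P hP db => by simp⟩, differentiableOn_const _, fun P _ => by simpa using hRout,
      differentiableOn_const _, differentiableOn_const _, fun _ _ => one_ne_zero, ?_,
      fun i hi => by simp at hi, fun i hi => by simp at hi, fun _ _ _ _ _ _ _ _ => rfl⟩,
    ⟨rfl, fun _ => rfl, fun b P hP n => hform P hP n⟩, rfl, rfl, rfl, rfl, rfl,
    ⟨mem_ball_self one_pos, mem_univ _, mem_ball_self hδ⟩, ?_⟩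
  · simp only
    rw [← (hsn P hP n).tsum_eq, mul_assoc]
    exact tsum_of_norm_bounded (hsB.hasSum.mul_right _) fun l => hT l P hP n
  · simp only
    rw [(hfd b db P hP 0).1]
    simp
  · intro b _ P hP db dP _ _ _ ϖ hϖ r hr1 hr2 n hn
    have hr : 0 < r := (inv_pos.2 hRout).trans hr1
    simp only [Side.form, Finset.sum_empty, zero_mul, sub_zero, Pi.single_zero, add_zero,
      (hfd b db P hP dP).2]
    have hf := bnd_un Rin hRin P.2.2
    have hdf := bnd_un Rin hRin dP.2.2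
    have t1 := (hsO P hP).tendsto_sum_nat
    have t2 := ((ContinuousLinearMap.apply ℂ BS dP).hasSum (hOs P hP)).tendsto_sum_nat
    have hcont : ∀ v dv : BS, ContinuousOn (II m (un Rin P.2.2) (un Rin dP.2.2) (un Rout v)
        (un Rout dv) (M * ϖ) (k * ϖ)) (sphere 0 r) := fun v dv =>
      (II_diff hRout hf hdf (bnd_un Rout hRout v) (bnd_un Rout hRout dv) _ _).continuousOn.mono
        (laur_sph ⟨hr1, hr2⟩)
    have t3 := lc_tendsto hr (Eventually.of_forall fun _ => hcont _ _) (hcont _ _)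
      (II_tendsto (m := m) hRout hr1 hr2 hf hdf t1 t2 (M * ϖ) (k * ϖ)) n
    have hz0 : lc r (II m (un Rin P.2.2) (un Rin dP.2.2) (fun _ => 0) (fun _ => 0)
        (M * ϖ) (k * ϖ)) n = 0 := by
      simp [lc, II, Om, ser, flat, Real.circleAverage]
    refine tendsto_nhds_unique t3 (tendsto_const_nhds.congr fun N => ?_)
    induction N with
    | zero =>
      have : un Rout 0 = fun _ => 0 := by funext i; simp [un]
      simp only [Finset.range_zero, Finset.sum_empty, this, hz0]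
    | succ l ih =>
      rw [Finset.sum_range_succ, Finset.sum_range_succ, lc_congr hr (fun z hz =>
        plain_II_add hRout _ _ _ _ _ _ _ _ (by
          rw [norm_inv, hz]; exact inv_lt_of_inv_lt₀ hRout hr1)),
        lc_add hr (hcont _ _) (hcont _ _), ← ih, zero_add]
      have e1 : un Rout (plainT m L M k Rin Rout l P) = fun n : ℕ =>
          ind ℂ L l * P.1 ^ (M - k * (m * l - 1)) * cf (un Rin P.2.2) (m * l - 1) (l - n) := by
        funext i; rw [un, plainT_apply, hcan]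
      have e2 : un Rout (ContinuousLinearMap.apply ℂ BS dP
          (fderiv ℂ (plainT m L M k Rin Rout l) P)) = fun i : ℕ =>
          ind ℂ L l * P.1 ^ (M - k * (m * l - 1)) *
            ((M - k * (m * l - 1) : ℕ) * ϖ * cf (un Rin P.2.2) (m * l - 1) (l - i) +
              dcf (un Rin P.2.2) (un Rin dP.2.2) (m * l - 1) (l - i)) := by
        funext i
        rw [un, ContinuousLinearMap.apply_apply, plainT_fderiv _ _ _ _ _ _ _ _ _ hϖ, hcan]
      rw [e1, e2]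
      by_cases hl : l ∈ L
      · refine (plain_term hm (Nat.pos_of_ne_zero fun h => hL (h ▸ hl)) hr hr2 hf hdf _ _ _ _ _
          ?_ n hn).symm
        exact_mod_cast (Nat.sub_add_cancel (hk' l hl)).symm
      · simp only [ind, if_neg hl, zero_mul, hz0]
  · intro τ u z B hP hτ
    refine ⟨fun _ => (), fun _ => 0, rfl, ?_, fun i hi => by simp at hi,
      fun b _ _ dw du _ _ => ⟨rfl, fun i hi => by simp at hi⟩⟩
    have c1 : Continuous fun P : ℂ × BS => (P.1, (), P.2) := by fun_prop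
    filter_upwards [c1.continuousAt.preimage_mem_nhds (hUo.mem_nhds hP),
      continuous_fst.continuousAt.eventually_ne (x := (τ, u)) hτ] with P h4 h5
    refine ⟨differentiableAt_const _, differentiableAt_const _, h4, fun b _ _ =>
      ⟨rfl, fun i hi => by simp at hi, fun n => ?_⟩⟩
    rw [hform _ h4, sT, sT, ← tsum_mul_left]
    refine tsum_congr fun l => ?_
    by_cases hl : l ∈ L
    swap
    · simp [ind, hl]
    have h6 := cf_scale (un Rin P.2) (P.1 ^ k)⁻¹ 1 (m * l - 1) (l - n)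
    simp only [one_pow, mul_one, one_zpow] at h6
    have h7 : (P.1 ^ k)⁻¹ • un Rin P.2 = fun i => (P.1 ^ k)⁻¹ * un Rin P.2 i := rfl
    rw [h7, h6, pow_sub₀ _ h5 (hk' l hl), inv_pow, ← pow_mul]
    ring

/-- the derivative used in `Regu` for a direction of any radius larger than the majorant -/
theorem sT_dir {m : ℕ} (hm : 0 < m) {L : Set ℕ} (hL : 0 ∉ L) {f df : ℕ → ℂ} {ρ R : ℝ}
    (hM : Maj m L f ρ) (hR : ρ < R) (hd : Bnd R df) : ∃ C : ℝ, ∀ i : ℤ,
      DifferentiableAt ℂ (fun s : ℂ => sT m (ind ℂ L) (f + s • df) i) 0 ∧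
      ‖deriv (fun s : ℂ => sT m (ind ℂ L) (f + s • df) i) 0‖ ≤ C * ρ ^ i := by
  obtain ⟨A, B, hA, hA0, hB, hsB⟩ := plain_room hM
  obtain ⟨hρ, hs0, -⟩ := hM
  have hs1 := hd.laur_sum hρ.le hR
  set S1 : ℝ := ∑' i, ‖df i‖ * ρ ^ i with hS1
  have hS10 : 0 ≤ S1 := tsum_nonneg fun i => by positivity
  obtain ⟨δ, hδ, hδA⟩ : ∃ δ > (0 : ℝ), ∑' i, ‖f i‖ * ρ ^ i + δ * S1 ≤ A := by
    refine ⟨(A - ∑' i, ‖f i‖ * ρ ^ i) / (S1 + 1), by apply div_pos <;> linarith, ?_⟩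
    rw [div_mul_eq_mul_div, ← le_sub_iff_add_le', div_le_iff₀ (by linarith)]
    nlinarith
  refine ⟨(∑' l, ind ℝ L l * B ^ l) * A⁻¹ / δ, fun i => ?_⟩
  have hb : ∀ l : ℕ, ∀ s ∈ ball (0 : ℂ) δ, ‖ind ℂ L l * cf (f + s • df) (m * l - 1) (l - i)‖ ≤
      ind ℝ L l * B ^ l * (A⁻¹ * ρ ^ i) := by
    intro l s hs
    obtain ⟨h1, h2⟩ := plain_sum_le hρ hs0 hs1 s
    refine plain_cf_le hm hL hρ h1 (h2.trans (le_trans ?_ hδA)) hA0 hB l i
    have := (mem_ball_zero_iff.1 hs).le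
    gcongr
  have hdf : ∀ l : ℕ, DifferentiableOn ℂ
      (fun s : ℂ => ind ℂ L l * cf (f + s • df) (m * l - 1) (l - i)) (ball 0 δ) := by
    intro l s _
    have := hasDerivAt_cf (F := fun s : ℂ => f + s • df) (df := df) (s := s) (fun j => by
      have : HasDerivAt (fun t : ℂ => f j + t * df j) (1 * df j) s :=
        ((hasDerivAt_id s).mul_const _).const_add _
      rw [one_mul] at this
      exact this) (m * l - 1) (l - i)
    exact (this.differentiableAt.const_mul _).differentiableWithinAt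
  have h1 := (hol_tsum isOpen_ball hdf (hsB.mul_right _) hb).1
  refine ⟨h1.differentiableAt (ball_mem_nhds _ hδ), ?_⟩
  rw [norm_deriv_eq_norm_fderiv]
  refine (cauchy_fderiv hδ h1 fun s hs =>
    tsum_of_norm_bounded (hsB.hasSum.mul_right _) fun l => hb l s hs).trans_eq ?_
  ring

end Pool.Agent.MP_098ecc_co.H97
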