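import Pool.Agent.MP_098ecc_co.H97.Wend
import Pool.Agent.MP_098ecc_co.H97.IsoA
import Pool.Agent.MP_098ecc_co.H97.HardP
import Pool.Agent.MP_098ecc_co.H97.C2fin
import Pool.Agent.MP_098ecc_co.H97.End1
import Pool.Agent.MP_098ecc_co.H97.Plain

set_option autoImplicit false

namespace Pool.Agent.MP_098ecc_co.H97

open Metric Filter Topology Set Function
open scoped BoundedContinuousFunction

variable {D : Dat} {P : Polynomial (Polynomial ℚ)} {δ : Polynomial ℚ} {p : ℕ → Amb}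

theorem b1_polyE {f : ℕ → ℕ → ℝ} {g : ℕ → ℝ} {k : ℕ} {ρ : ℝ} (hρ : 0 < ρ) (hg : ∀ i, 0 ≤ g i)
    (hl : ∀ i, Tendsto (fun n => f n i) atTop (𝓝 (g i))) (h0 : ∀ i, k < i → ∀ n, f n i = 0) :
    PolyE f fun _ => ρ := by
  refine ⟨∑ i ∈ Finset.range (k + 1), (g i + 1) / ρ ^ i, ?_⟩
  have hnn : ∀ i, 0 ≤ (g i + 1) / ρ ^ i := fun i => div_nonneg (by linarith [hg i]) (by positivity)
  have hC : 0 ≤ ∑ i ∈ Finset.range (k + 1), (g i + 1) / ρ ^ i := Finset.sum_nonneg fun i _ => hnn i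
  filter_upwards [(Finset.range (k + 1)).eventually_all.2 fun i _ =>
    (hl i).eventually_lt_const (lt_add_one (g i))] with n hn i
  by_cases hi : k < i
  · rw [h0 i hi]; positivity
  · have hm : i ∈ Finset.range (k + 1) := Finset.mem_range.2 (by omega)
    have h1 := Finset.single_le_sum (f := fun i => (g i + 1) / ρ ^ i) (fun i _ => hnn i) hm
    rw [div_le_iff₀ (by positivity)] at h1
    have h2 : (∑ i ∈ Finset.range (k + 1), (g i + 1) / ρ ^ i) * ρ ^ i ≤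
        (∑ i ∈ Finset.range (k + 1), (g i + 1) / ρ ^ i) * (1 + i ^ 2) * ρ ^ i := by
      gcongr
      exact le_mul_of_one_le_right hC (by nlinarith [sq_nonneg (i : ℝ)])
    linarith [hn i hm]

theorem caseB1 (hB : Bez P δ) (hf : D.L₁.Finite) (hg : ∀ n, Good D P (p n))
    (hδ : ∀ n, Polynomial.aeval ((p n).t : ℂ) δ ≠ 0)
    (ht : Tendsto (fun n => (p n).t) atTop (𝓝 0))
    (h₂ : Tendsto (fun n => (p n).B₂ D) atTop (𝓝 1)) : H85.EvPer D.L₂ := by
  obtain ⟨l₀, hl₀, h2l⟩ := D.two₁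
  obtain ⟨k, hk, hmax⟩ := exists_max_image D.L₁ id hf ⟨l₀, hl₀⟩
  have hm := D.hm
  have hmk : 2 ≤ D.m * k := h2l.trans (Nat.mul_le_mul_left _ (hmax l₀ hl₀))
  have hk1 : 1 ≤ k := Nat.one_le_iff_ne_zero.2 (by rintro rfl; simp at hmk)
  obtain ⟨q, φ, s, R, hφ, hs, ls, hR, hz, hX, y0, py, hY0, c₁, c₂, hB2, lX, lY, l1, l2, pX⟩ :=
    c2fin D hk hmax p (fun n => (hg n).pos) ht h₂
  have p1 := c₁.pos
  have p2 := c₂.pos
  have pos : ∀ n, Pos D (p (φ n)) := fun n => (hg _).pos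
  have y0' : 0 < q.Y 0 := py 0 (Nat.zero_le _)
  have z12 : q.z₁ < q.z₂⁻¹ := by
    rw [← one_div, lt_div_iff₀ p2]
    have h1 : (1 : ℝ) ≤ D.m := by exact_mod_cast hm
    nlinarith [mul_pos p1 p2]
  obtain ⟨RX, hX1, hX2⟩ := exists_between z12
  have RX0 : 0 < RX := p1.trans hX1
  obtain ⟨RY, hY1⟩ := exists_gt q.z₁⁻¹
  have RY0 : 0 < RY := (inv_pos.2 p1).trans hY1
  have iY : RY⁻¹ < q.z₁ := by rwa [inv_lt_comm₀ RY0 p1]
  have zX : q.z₂ < RX⁻¹ := by rwa [lt_inv_comm₀ p2 RX0]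
  have XY : RX⁻¹ < RY := (inv_strictAnti₀ p1 hX1).trans hY1
  obtain ⟨ρ, hρ0, hρ⟩ := exists_between (inv_pos.2 RY0)
  obtain ⟨u, u₀, hu₀, hu, lu⟩ := bs_conv
    (fun n i => mul_nonneg (hs n).1.le ((pos n).c₁.nn i)) lX l2
    (fun n => (pos n).c₂.pos.le) pX RX0 (by rwa [← one_div, lt_div_iff₀ p2] at hX2)
  obtain ⟨v, v₀, hv₀, hv, lv⟩ := bs_conv (fun n i => (pos n).c₂.nn i) lY tendsto_const_nhds
    (fun _ => hρ0.le) (b1_polyE hρ0 c₂.nn lY fun i hi n => (hY0 i hi).2 _) RY0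
    (by rwa [← one_div, lt_div_iff₀ RY0, mul_comm] at hρ)
  have ρX : ρ < RX := hρ.trans (iY.trans hX1)
  have hMaj : Maj D.m D.L₁ (un RX u₀) ρ := by
    refine ⟨hρ0, ?_, adm_of_finite hf _⟩
    have := (bnd_un RX RX0 u₀).summable (z := ρ) (by rwa [Complex.norm_real, Real.norm_of_nonneg hρ0.le])
    simpa [abs_of_pos hρ0] using this
  obtain ⟨S₁, s₁, pl₁, e1, e2, e3, e4, e5, m₁, re₁⟩ := plain Unit hm D.z₁ (D.m * k - 1) 1 ρX hρ
    (iY.trans hX1) 0 u₀ hMaj (Or.inr ⟨hf, fun l hl => by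
      have := Nat.mul_le_mul_left D.m (show l ≤ k from hmax l hl)
      omega⟩)
  have hpow : ∀ n, s n ^ (D.m * k) = s n * (p (φ n)).t := fun n => by
    rw [← (hs n).2, ← pow_succ']
    congr 1
    omega
  obtain ⟨S₂, w, w₀, s₂, ha₂, f1, f2, f3, f5, m₂, lw, hc₂, hβ, hv₂, hj, -, re₂⟩ :=
    hardPack (κ := Unit) () hm D.z₂ (M := D.m * k) (by omega) XY zX (fun n => (pos n).c₂)
      (fun n => by rw [(pos n).eqs.y0]; exact one_pos) c₂ y0'
      (fun g hg => Nat.dvd_one.1 (hg 1 (py 1 hk1))) l2 hv₀ hv lv (fun n => (pos n).b₂.2)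
      (h₂.comp hφ.tendsto_atTop) ls
      (y := q.X 1) ((lX 1).congr fun n => by
        rw [hpow, mul_assoc, (pos n).eqs.hx 1 le_rfl]; rfl)
  rw [Complex.ofReal_zero] at m₂ hc₂ hβ hv₂
  have hc : Compat D.m S₁ S₂ :=
    ⟨hm, s₁, s₂, by rw [e1, f2], by rw [e2, f1], by rw [e3]; omega, by rw [e3, e4, f3]; omega,
      ha₂.hk, fun i => by simp [pl₁.hI, ha₂.hI]⟩
  have ltc : Tendsto (fun n => ((s n : ℝ) : ℂ)) atTop (𝓝 0) :=
    (Complex.continuous_ofReal.tendsto' 0 0 rfl).comp ls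
  obtain ⟨N, sq⟩ := seqD_shift (S₁ := S₁) (S₂ := S₂) (D := D) (τ₀ := 0)
    (e₀ := ((), w₀, u₀, v₀)) (p := fun n => p (φ n)) (τ := s)
    (e := fun n => ((), w n, u n, v n)) e5 f5 m₁ m₂ pos
    (fun n => ⟨(hs n).1, by rw [e3]; exact (hs n).2⟩)
    (by
      filter_upwards [hu] with n h
      rw [e1, e4, pow_one]
      refine h.trans (funext fun i => ?_)
      simp)
    (by filter_upwards [hv] with n h; rw [f1]; exact h)
    (by
      filter_upwards [(ltc.prodMk_nhds (tendsto_const_nhds.prodMk_nhds lu)).eventually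
        (s₁.op.mem_nhds m₁)] with n h
      exact re₁ _ _ _ _ h (by exact_mod_cast (hs n).1.ne'))
    re₂
    (ltc.prodMk_nhds (tendsto_const_nhds.prodMk_nhds (lw.prodMk_nhds (lu.prodMk_nhds lv))))
    (by
      refine tendsto_pi_nhds.2 fun i => ?_
      simp only [bOf, ha₂.hI, Finset.mem_singleton, if_true, Pi.one_apply]
      exact (Complex.continuous_ofReal.tendsto' 1 1 rfl).comp (h₂.comp hφ.tendsto_atTop))
    (by
      filter_upwards [l1.eventually_lt_const hX1, l2.eventually_lt_const (zX.trans XY),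
        l2.eventually_lt_const zX] with n h1 h2 h3
      rw [e1, f1]
      refine ⟨h1, h2, Or.inl ?_⟩
      rw [← one_div, lt_div_iff₀ RX0] at h3
      linarith)
    (fun i i' h => absurd rfl h)
  have px : ∀ i, 0 < q.X i := fun i => hX i ▸ mul_pos hR (pow_pos p2 i)
  have bY : Bnd RY (cx q.Y) := hv₀ ▸ bnd_un RY RY0 v₀
  have ker : KerHyp S₁ S₂ ((), w₀, u₀, v₀) := by
    refine kerB hc ha₂ hR hz p1 (by rw [e1, ← funext hX]; exact hu₀) hc₂
      (Or.inr ⟨by rwa [f1], by rwa [e1], ?_⟩)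
    show ser (flat D.m (un S₂.Rin v₀)) _ ≠ 0
    rw [f1, hv₀]
    have e : flat D.m (cx q.Y) = cx (flat D.m q.Y) := funext fun i => by simp [flat, cx]
    obtain ⟨R', h1, h2⟩ := exists_between hY1
    have hsum := (bY.flat D.m ((inv_pos.2 p1).trans h1) h2).summable (z := (q.z₁⁻¹ : ℝ))
      (by rwa [Complex.norm_real, Real.norm_of_nonneg (inv_pos.2 p1).le])
    rw [e] at hsum ⊢
    rw [ser_ofReal]
    refine Complex.ofReal_ne_zero.2 (c₂.flat_pos hm y0' (by rw [lt_inv_comm₀ p2 p1]; exact z12) ?_).ne'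
    refine Summable.of_norm (hsum.congr fun i => ?_)
    rw [← Complex.ofReal_pow, ← Complex.ofReal_mul, Complex.norm_real]
  obtain ⟨i, hi⟩ := wendB endThm_unit hB hc sq (fun n => hg _) (fun n => hδ _)
    (fun i hi => by simp [pl₁.hI] at hi)
    (fun i _ => ⟨hβ, hv₂, fun r₀ h1 h2 => by
      rw [f2] at h1
      rw [f1] at h2
      show ∃ r : ℝ, 0 < r ∧ zv r₀ (un S₂.Rin v₀) (un S₂.Rout u₀) (S₂.c (0, w₀, v₀)) = r
      rw [f1, f2, hu₀, hv₀, hc₂]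
      exact zv_pos RX0 h1 h2 bY (hu₀ ▸ bnd_un RX RX0 u₀) c₂.nn c₁.nn
        (py 1 hk1) (px 0) p2 (zX.trans h1)⟩)
    (fun i hi => by simp [pl₁.hI] at hi) (fun i _ => hj rfl (px 1).ne') ker
  simpa [cL, ha₂.hI, f5] using hi

end Pool.Agent.MP_098ecc_co.H97
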