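import Pool.Agent.MP_098ecc_co.H97.PoleC

set_option autoImplicit false

namespace Pool.Agent.MP_098ecc_co.H97

open Metric Filter Topology Set Function
open scoped BoundedContinuousFunction

theorem pole_real (κ : Type) [Fintype κ] [DecidableEq κ] {m p : ℕ} (hm : 0 < m) {N : Polynomial ℂ}
    {R R' ρ : ℝ} {U : Set (ℂ × (ℂ × ℂ) × BS)} (h : PoleU m p N R R' ρ U) (L : Set ℕ) (c : ℂ)
    {φ : BS → ℂ} {τ : ℂ} {u : BS}
    (hφ : ∀ᶠ v in 𝓝 u, DifferentiableAt ℂ φ v ∧ Bv m (un R v) (φ v) = 1 ∧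
      φ v ∈ Ann 0 R ∧ ser (flat m (un R v)) (φ v) ≠ 0 ∧ ∀ n : ℕ, sT m (ind ℂ L) (un R v) n =
        lc ρ (fun w => poleG m p N R (v, w)) (-(n : ℤ)) +
          -c / ser (flat m (un R v)) (φ v) * φ v ^ n)
    (hU : (τ, (φ u, τ * (-c / ser (flat m (un R u)) (φ u))), u) ∈ U) (z B : ℝ) :
    IsReal m (poleSide κ m p N R R' ρ L c U) τ (φ u, τ * (-c / ser (flat m (un R u)) (φ u))) u z B := by
  have hR := h.rads.1
  set w : ℂ × BS → ℂ × ℂ := fun P => (φ P.2, P.1 * (-c / ser (flat m (un R P.2)) (φ P.2))) with hw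
  have e1 := (continuous_snd.tendsto (τ, u)).eventually hφ
  have e2 : ∀ᶠ P in 𝓝 (τ, u), DifferentiableAt ℂ w P := e1.mono fun P hP => by
    have a1 := hP.1.comp P differentiableAt_snd
    have a2 := ((hol_ser_flat m R hR).differentiableAt ((isOpen_univ.prod isOpen_ball).mem_nhds
      (show (P.2, φ P.2) ∈ _ from ⟨trivial, mem_ball_zero_iff.2 hP.2.2.1.2⟩))).comp P
      (differentiableAt_snd.prodMk a1)
    simp only [hw, div_eq_mul_inv]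
    exact a1.prodMk (differentiableAt_fst.mul ((a2.inv hP.2.2.2.1).const_mul _))
  have e3 : ∀ᶠ P in 𝓝 (τ, u), poleX m R c (P.1, w P, P.2) = 0 := e1.mono fun P hP => by
    have := hP.2.2.2.1
    refine Prod.ext (sub_eq_zero.2 hP.2.1) ?_
    simp only [poleX, hw, Prod.snd_zero]
    field_simp
    ring
  have d1 := (hasFDerivAt_fst (𝕜 := ℂ) (p := (τ, u))).prodMk
    (e2.self_of_nhds.hasFDerivAt.prodMk (hasFDerivAt_snd (𝕜 := ℂ) (p := (τ, u))))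
  refine ⟨w, fun _ => 0, rfl, ?_, fun i hi => by simp [poleSide] at hi, ?_⟩
  · filter_upwards [e1, e2, e3, d1.continuousAt.eventually_mem (h.op.mem_nhds hU)] with P a1 a2 a3 a4
    refine ⟨a2, differentiableAt_const _, a4, fun b _ _ => ⟨a3, fun i hi => by simp [poleSide] at hi,
      fun n => ?_⟩⟩
    simp only [poleSide, pow_one, pow_zero, inv_one, one_smul]
    rw [h.un_O a4, a1.2.2.2.2 n]
    simp only [poleS, hw]
    ring
  · intro b _ _ dw du hd _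
    refine ⟨?_, fun i hi => by simp [poleSide] at hi⟩
    obtain ⟨-, a1, a2, a3, -⟩ := hφ.self_of_nhds
    have d2 := ((pole_X_diff (m := m) hR c).differentiableAt (x := (τ, w (τ, u), u))
      (((laur_ann_open 0 R).preimage (by fun_prop)).mem_nhds a2)).hasFDerivAt
    have d3 := ((d2.comp (τ, u) d1).congr_of_eventuallyEq (e3.mono fun P hP => hP.symm)).unique
      (hasFDerivAt_const (0 : ℂ × ℂ) (τ, u))
    have d4 : ∀ dP, lineDeriv ℂ (fun q : (κ → ℂ) × (ℂ × (ℂ × ℂ) × BS) => poleX m R c q.2)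
        (b, (τ, w (τ, u), u)) (0, dP) = fderiv ℂ (poleX m R c) (τ, w (τ, u), u) dP := fun dP =>
      HasLineDerivAt.lineDeriv (d2.hasLineDerivAt dP)
    have d5 : fderiv ℂ (poleX m R c) (τ, w (τ, u), u) (0, fderiv ℂ w (τ, u) (0, du), du) = 0 := by
      simpa using DFunLike.congr_fun d3 (0, du)
    have d6 : fderiv ℂ (poleX m R c) (τ, w (τ, u), u) (0, dw, du) = 0 := (d4 _).symm.trans hd
    have d7 : fderiv ℂ (poleX m R c) (τ, w (τ, u), u) (0, dw - fderiv ℂ w (τ, u) (0, du), 0) = 0 := by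
      have := map_sub (fderiv ℂ (poleX m R c) (τ, w (τ, u), u)) (0, dw, du)
        (0, fderiv ℂ w (τ, u) (0, du), du)
      rw [d5, d6] at this
      simpa using this
    have a4 := laur_ann_ne le_rfl a2
    rw [← d4, pole_X_line hm hR c a2.2 a4] at d7
    obtain ⟨k1, k2⟩ := Prod.mk_eq_zero.1 d7
    have z1 : ser (un R 0) (φ u) = 0 := by simp [ser, un]
    have z2 : ser (flat m (un R 0)) (φ u) = 0 := by simp [ser, un, flat]
    replace k1 := (mul_eq_zero.1 k1).resolve_left (pole_f_ne hm (sub_eq_zero.2 a1) a4)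
    simp only [hw, z1, z2, mul_zero, add_zero, zero_mul] at k1 k2
    replace k1 := (mul_eq_zero.1 k1).resolve_right a3
    rw [k1, zero_mul, mul_zero, add_zero] at k2
    exact sub_eq_zero.1 (Prod.ext k1 ((mul_eq_zero.1 k2).resolve_right a3))

theorem pole (κ : Type) [Fintype κ] [DecidableEq κ] {m : ℕ} (hm : 0 < m) {L : Set ℕ}
    (hL : 0 ∉ L) (hi : L.Infinite) (hp : H85.EvPer L) {Rin Rout : ℝ} (h3 : Rout⁻¹ < Rin)
    {f : ℕ → ℕ → ℝ} {g : ℕ → ℝ} {z : ℕ → ℝ} {z₀ : ℝ} (h2 : z₀ < Rout⁻¹)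
    (hc : ∀ n, Crit m (f n) (z n)) (hf0 : ∀ n i, 0 < f n i) (hc₀ : Crit m g z₀)
    (h0 : ∀ i, 0 < g i) (hB₀ : Bv m g z₀ = 1) (hz : Tendsto z atTop (𝓝 z₀)) {u : ℕ → BS}
    {u₀ : BS} (hu₀ : un Rin u₀ = cx g) (hu : ∀ᶠ n in atTop, un Rin (u n) = cx (f n))
    (hl : Tendsto u atTop (𝓝 u₀)) (hB : ∀ n, Bv m (f n) (z n) < 1) {τ : ℕ → ℝ} {y : ℝ}
    (hτ : Tendsto τ atTop (𝓝 0)) (hy0 : y ≠ 0)
    (hy : Tendsto (fun n => τ n * sT m (ind ℝ L) (f n) 1) atTop (𝓝 y)) :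
    ∃ (S : Side κ (ℂ × ℂ)) (w : ℕ → ℂ × ℂ) (w₀ : ℂ × ℂ), IsSide m S ∧ S.I = ∅ ∧ S.Rin = Rin ∧
      S.Rout = Rout ∧ S.M = 1 ∧ S.k = 0 ∧ S.L = L ∧ ((0 : ℂ), w₀, u₀) ∈ S.U ∧
      Tendsto w atTop (𝓝 w₀) ∧
      (∀ b dw du, lineDeriv ℂ S.aux (b, (0, w₀, u₀)) (0, (0, dw, du)) = 0 →
        ser (un Rin du) z₀ = 0) ∧
      ∀ᶠ n in atTop, ∀ z' B', IsReal m S (τ n) (w n) (u n) z' B' := by
  have _ := hi
  obtain ⟨p, p0, N, hN⟩ := rat_of_evPer hp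
  have z0 := hc₀.pos
  have zR := h2.trans h3
  have hR := z0.trans zR
  have nz : ‖(z₀ : ℂ)‖ = z₀ := by rw [Complex.norm_real, Real.norm_of_nonneg z0.le]
  have cz : (z₀ : ℂ) ≠ 0 := Complex.ofReal_ne_zero.2 z0.ne'
  have b1 : Bv m (un Rin u₀) z₀ = 1 := by rw [hu₀, pole_B_real, hB₀, Complex.ofReal_one]
  -- the other roots of unity are not attained near the critical circle
  obtain ⟨r₁, r₂, q0, q1, q2, q3⟩ := pole_tube (pole_Q_open m p hR) (x₀ := u₀) (b := z₀) z0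
    fun w w1 w2 => by
      have e := le_antisymm w2 w1
      refine ⟨⟨trivial, e.symm ▸ z0, e.symm ▸ zR⟩, fun hq => ?_⟩
      have a1 := geom_sum_mul (Bv m (un Rin u₀) w) p
      rw [hq, zero_mul, eq_comm, sub_eq_zero] at a1
      have a2 : ‖Bv m (un Rin u₀) w‖ = 1 := (pow_eq_one_iff_of_nonneg (norm_nonneg _) p0.ne').1
        (by rw [← norm_pow, a1, norm_one])
      rw [hu₀, Bv, norm_div, norm_pow, e, ← hB₀, Bv, div_left_inj' z0.ne'] at a2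
      have a3 := aper hc₀.nn (h0 0) (fun d hd => Nat.dvd_one.1 (hd 1 (h0 1))) hc₀.sum e
        ((pow_left_inj₀ (norm_nonneg _) (tsum_nonneg fun i =>
          mul_nonneg (hc₀.nn i) (pow_nonneg z0.le i)) hm.ne').1 a2)
      change ∑ k ∈ Finset.range p, Bv m (un Rin u₀) w ^ k = 0 at hq
      rw [a3, b1] at hq
      simp [p0.ne'] at hq
  obtain ⟨ρ, ρ1, ρ2⟩ := exists_between q1
  have ρ0 := q0.trans_lt ρ1
  have hW : ∀ w : ℂ, ‖w‖ = ρ → (u₀, w) ∈ poleW m p Rin := fun w hw => by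
    refine ⟨⟨trivial, hw.symm ▸ ρ0, hw.symm ▸ ρ2.trans zR⟩, fun e => ?_⟩
    have a1 := geom_sum_mul (Bv m (un Rin u₀) w) p
    rw [e, sub_self] at a1
    have a2 := sub_eq_zero.1 ((mul_eq_zero.1 a1).resolve_left
      (q3.self_of_nhds w ⟨hw.symm ▸ ρ1, hw.symm ▸ ρ2.trans q2⟩ le_rfl).2)
    have a3 := pole_inj hm hc₀ (h0 0) (laur_ne ρ0 hw) cz (hw.symm ▸ ρ2) nz.le (hu₀ ▸ a2) (hu₀ ▸ b1)
    rw [a3, nz] at hw
    exact ρ2.ne' hw
  have cG := (pole_G_diff m p N hR).continuousOn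
  obtain ⟨M, M0, hM⟩ := laur_bound (F := fun w => poleG m p N Rin (u₀, w))
    (cG.comp (by fun_prop) fun w hw => hW w (mem_sphere_zero_iff_norm.1 hw))
  obtain ⟨s₁, s₂, -, s1, s2, s3⟩ := pole_tube (cG.norm.isOpen_inter_preimage (pole_W_open m p hR)
    (isOpen_Iio (a := M + ‖(y / z₀ : ℂ)‖ + 1))) (x₀ := u₀) (b := ρ) ρ0 fun w w1 w2 =>
      ⟨hW w (le_antisymm w2 w1), (hM w (le_antisymm w2 w1)).trans_lt
        ((le_add_of_nonneg_right (norm_nonneg _)).trans_lt (lt_add_one _))⟩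
  obtain ⟨σ, σ1, σ2⟩ := exists_between h2
  have yz : (y / z₀ : ℂ) ≠ 0 := div_ne_zero (Complex.ofReal_ne_zero.2 hy0) cz
  have hev : ∀ᶠ P : ℂ × (ℂ × ℂ) × BS in 𝓝 (0, ((z₀ : ℂ), (y / z₀ : ℂ)), u₀),
      (∀ w ∈ Ann s₁ s₂, ρ ≤ ρ → (P.2.2, w) ∈ poleW m p Rin ∩
        (fun x => ‖poleG m p N Rin x‖) ⁻¹' Iio (M + ‖(y / z₀ : ℂ)‖ + 1)) ∧
      P.2.1.1 ≠ 0 ∧ P.2.1.2 ≠ 0 ∧ ‖P.1‖ < M + ‖(y / z₀ : ℂ)‖ + 1 ∧
      ‖P.2.1.2‖ < M + ‖(y / z₀ : ℂ)‖ + 1 ∧ ‖P.2.1.1‖ < σ := by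
    have hid := tendsto_id (x := 𝓝 ((0 : ℂ), ((z₀ : ℂ), (y / z₀ : ℂ)), u₀))
    refine (hid.snd_nhds.snd_nhds.eventually s3).and
      ((hid.snd_nhds.fst_nhds.fst_nhds.eventually_ne cz).and
      ((hid.snd_nhds.fst_nhds.snd_nhds.eventually_ne yz).and
      ((hid.fst_nhds.norm.eventually_lt_const ?_).and
      ((hid.snd_nhds.fst_nhds.snd_nhds.norm.eventually_lt_const ?_).and
      (hid.snd_nhds.fst_nhds.fst_nhds.norm.eventually_lt_const (nz.trans_lt σ1))))))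
    · rw [norm_zero]; positivity
    · exact (le_add_of_nonneg_left M0).trans_lt (lt_add_one _)
  obtain ⟨U, U1, U2, U3⟩ := _root_.eventually_nhds_iff.1 hev
  have hU : PoleU m p N Rin Rout ρ U := ⟨h3, ρ0, U2,
    fun P hP w hw => ((U1 P hP).1 w ⟨hw.symm ▸ s1, hw.symm ▸ s2⟩ le_rfl).1,
    fun P hP => ⟨(U1 P hP).2.1, (U1 P hP).2.2.1⟩, _, σ, (ρ2.trans σ1).le, σ2, fun P hP =>
      ⟨(U1 P hP).2.2.2.1.le, (U1 P hP).2.2.2.2.1.le, (U1 P hP).2.2.2.2.2.le,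
        fun w hw => le_of_lt ((U1 P hP).1 w ⟨hw.symm ▸ s1, hw.symm ▸ s2⟩ le_rfl).2⟩⟩
  -- the real zero inside the critical circle
  have hgt : ∀ a, 0 < a → a < z₀ → ∀ᶠ n in atTop, a < z n ∧ 1 < Bv m (f n) a := fun a a0 a1 => by
    have a2 : ((u₀, (a : ℂ)) : BS × ℂ) ∈ univ ×ˢ Ann 0 Rin := by
      have e : ‖(a : ℂ)‖ = a := by rw [Complex.norm_real, Real.norm_of_nonneg a0.le]
      exact ⟨trivial, e.symm ▸ a0, e.symm ▸ a1.trans zR⟩
    have a3 := (Complex.continuous_re.tendsto _).comp ((((pole_B_diff m hR).continuousOn.continuousAt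
      ((isOpen_univ.prod (laur_ann_open 0 Rin)).mem_nhds a2)).tendsto).comp
      (hl.prodMk_nhds tendsto_const_nhds))
    have a4 : 1 < (Bv m (un Rin u₀) a).re := by
      rw [hu₀, pole_B_real, Complex.ofReal_re, ← hB₀]
      exact (hc₀.Bv_anti hm (h0 0)).1 ⟨a0, a1.le⟩ ⟨z0, le_rfl⟩ a1
    filter_upwards [hz.eventually_const_lt a1, a3.eventually_const_lt a4, hu] with n n1 n2 n3
    refine ⟨n1, ?_⟩
    simpa only [comp_apply, n3, pole_B_real, Complex.ofReal_re] using n2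
  have hex : ∀ᶠ n in atTop, ∃ x : ℝ × (BS → ℂ), ρ < x.1 ∧ x.1 < z n ∧ Bv m (f n) x.1 = 1 ∧
      x.2 (u n) = x.1 ∧ ∀ᶠ v in 𝓝 (u n), DifferentiableAt ℂ x.2 v ∧ Bv m (un Rin v) (x.2 v) = 1 ∧
      x.2 v ∈ Ann 0 Rin ∧ ser (flat m (un Rin v)) (x.2 v) ≠ 0 ∧ ∀ k : ℕ,
        sT m (ind ℂ L) (un Rin v) k = lc ρ (fun w => poleG m p N Rin (v, w)) (-(k : ℤ)) +
          -(N.eval 1 / p) / ser (flat m (un Rin v)) (x.2 v) * x.2 v ^ k := by
    filter_upwards [hgt ρ ρ0 ρ2, hu, hl.eventually q3, hz.eventually_lt_const q2,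
      hz.eventually_lt_const zR] with n n1 n2 n3 n4 n5
    obtain ⟨ζ, ζ1, ζ2⟩ := intermediate_value_Ioo' n1.1.le (((hc n).Bv_anti hm (hf0 n 0)).2.1.mono
      fun a ha => ⟨ρ0.trans_le ha.1, ha.2⟩) ⟨hB n, n1.2⟩
    obtain ⟨φ, φ0, φ1⟩ := pole_loc hm p0 hL hN ρ0 ζ1.1 ζ1.2 n5 (hc n) (hf0 n 0) ζ2 n2
      fun w w1 w2 => (n3 w ⟨ρ1.trans_le w1, w2.trans_lt n4⟩ le_rfl).2
    exact ⟨(ζ, φ), ζ1.1, ζ1.2, ζ2, φ0, φ1⟩
  obtain ⟨x, hx⟩ := hex.choice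
  have t1 : Tendsto (fun n => (x n).1) atTop (𝓝 z₀) := by
    refine tendsto_order.2 ⟨fun a ha => ?_, fun a ha => ?_⟩
    · filter_upwards [hgt (max a ρ) (ρ0.trans_le (le_max_right _ _)) (max_lt ha ρ2), hx] with n n1 n2
      refine (le_max_left a ρ).trans_lt (not_le.1 fun e => ?_)
      have := ((hc n).Bv_anti hm (hf0 n 0)).1.antitoneOn ⟨ρ0.trans n2.1, n2.2.1.le⟩
        ⟨ρ0.trans_le (le_max_right _ _), n1.1.le⟩ e
      linarith [n1.2, n2.2.2.1]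
    · filter_upwards [hz.eventually_lt_const ha, hx] with n n1 n2
      exact n2.2.1.trans n1
  have t2 : Tendsto (fun n => (x n).2 (u n)) atTop (𝓝 z₀) :=
    ((Complex.continuous_ofReal.tendsto _).comp t1).congr' (hx.mono fun n hn => hn.2.2.2.1.symm)
  have t3 : Tendsto (fun n => (τ n : ℂ)) atTop (𝓝 0) := (Complex.continuous_ofReal.tendsto _).comp hτ
  have t4 := (hU.par U3 (-((1 : ℕ) : ℤ))).1.continuousAt.tendsto.comp hl
  have t5 := (((Complex.continuous_ofReal.tendsto _).comp hy).sub (t3.mul t4)).div t2 cz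
  rw [zero_mul, sub_zero] at t5
  have t6 : Tendsto (fun n => ((x n).2 (u n), τ n * (-(N.eval 1 / p) /
      ser (flat m (un Rin (u n))) ((x n).2 (u n))))) atTop (𝓝 ((z₀ : ℂ), (y / z₀ : ℂ))) := by
    refine t2.prodMk_nhds (t5.congr' ?_)
    filter_upwards [hx, hu] with n n1 n2
    obtain ⟨-, -, a1, -, a2⟩ := n1.2.2.2.2.self_of_nhds
    have a3 := a2 1
    rw [n2, sT_ofReal, ← n2, Nat.cast_one] at a3
    have a4 := laur_ann_ne le_rfl a1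
    simp only [Pi.div_apply, comp_apply, Complex.ofReal_mul, a3, Nat.cast_one]
    field_simp
    ring
  refine ⟨poleSide κ m p N Rin Rout ρ L (N.eval 1 / p) U, _, _, pole_side κ hm hU hL _, rfl, rfl, rfl,
    rfl, rfl, rfl, U3, t6, fun b dw du hd => ?_, ?_⟩
  · have a1 := (Prod.mk_eq_zero.1 ((pole_X_line hm hR _ (P := (0, ((z₀ : ℂ), (y / z₀ : ℂ)), u₀))
      (nz.trans_lt zR) cz b 0 (0, dw, du)).symm.trans hd)).1
    replace a1 := (mul_eq_zero.1 a1).resolve_left (pole_f_ne hm (sub_eq_zero.2 b1) cz)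
    have a2 : ser (flat m (un Rin u₀)) z₀ = 0 := by
      rw [hu₀, show flat m (cx g) = cx (flat m g) from funext fun i => by simp [flat, cx], ser_ofReal,
        ser, hc₀.crit.tsum_eq, Complex.ofReal_zero]
    simp only [a2, mul_zero, zero_add] at a1
    exact (mul_eq_zero.1 a1).resolve_left (mul_ne_zero (Nat.cast_ne_zero.2 hm.ne') cz)
  · filter_upwards [hx, (t3.prodMk_nhds (t6.prodMk_nhds hl)).eventually (U2.mem_nhds U3)]
      with n n1 n2 z' B'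
    exact pole_real κ hm hU L _ n1.2.2.2.2 n2 z' B'

end Pool.Agent.MP_098ecc_co.H97
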