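import Pool.Agent.MP_098ecc_co.H97.Wend
import Pool.Agent.MP_098ecc_co.H97.IsoA
import Pool.Agent.MP_098ecc_co.H97.HardP
import Pool.Agent.MP_098ecc_co.H97.Pole
import Pool.Agent.MP_098ecc_co.H97.C2inf
import Pool.Agent.MP_098ecc_co.H97.End2

set_option autoImplicit false

namespace Pool.Agent.MP_098ecc_co.H97

open Metric Filter Topology Set Function
open scoped BoundedContinuousFunction

variable {D : Dat} {P : Polynomial (Polynomial ℚ)} {δ : Polynomial ℚ} {p : ℕ → Amb}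

/-- the limit point and the radii at `t = 0` -/
structure CaseB2S (D : Dat) (p : ℕ → Amb) (q : Amb) (R a b : ℝ) (u v : ℕ → BS) (u₀ v₀ : BS) :
    Prop where
  ws : WSeq D p q
  hR : 0 < R
  hz : (D.m + 1) * (q.z₁ * q.z₂) = 1
  hX : ∀ i, q.X i = R * q.z₂ ^ i
  hY : ∀ i, q.Y i = q.z₁ ^ i
  c₁ : Crit D.m q.X q.z₁
  c₂ : Crit D.m q.Y q.z₂
  ht : Tendsto (fun n => (p n).t) atTop (𝓝 0)
  h₁ : Tendsto (fun n => (p n).B₁ D) atTop (𝓝 1)
  h₂ : Tendsto (fun n => (p n).B₂ D) atTop (𝓝 1)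
  ab : a⁻¹ < b
  ba : b⁻¹ < a
  za : q.z₂ < a⁻¹
  zb : q.z₁ < b⁻¹
  u0 : un a u₀ = cx q.X
  v0 : un b v₀ = cx q.Y
  hu : ∀ᶠ n in atTop, un a (u n) = cx (p n).X
  hv : ∀ᶠ n in atTop, un b (v n) = cx (p n).Y
  lu : Tendsto u atTop (𝓝 u₀)
  lv : Tendsto v atTop (𝓝 v₀)

namespace CaseB2S

variable {q : Amb} {R a b : ℝ} {u v : ℕ → BS} {u₀ v₀ : BS} (h : CaseB2S D p q R a b u v u₀ v₀)
include h

theorem px (i : ℕ) : 0 < q.X i := h.hX i ▸ mul_pos h.hR (pow_pos h.c₂.pos i)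

theorem py (i : ℕ) : 0 < q.Y i := h.hY i ▸ pow_pos h.c₁.pos i

theorem a0 : 0 < a := inv_pos.1 (h.c₂.pos.trans h.za)

theorem b0 : 0 < b := inv_pos.1 (h.c₁.pos.trans h.zb)

theorem l₁ : Tendsto (fun n => (p n).z₁) atTop (𝓝 q.z₁) :=
  (continuous_snd.snd.snd.fst.tendsto q).comp h.ws.lim

theorem l₂ : Tendsto (fun n => (p n).z₂) atTop (𝓝 q.z₂) :=
  (continuous_snd.snd.snd.snd.tendsto q).comp h.ws.lim

theorem lX : Tendsto (fun n => (p n).t ^ 1 * sT D.m (ind ℝ D.L₂) (p n).Y 1) atTop (𝓝 (q.X 1)) :=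
  ((((continuous_apply 1).comp continuous_snd.fst).tendsto q).comp h.ws.lim).congr fun n => by
    rw [pow_one]; exact (h.ws.pos n).eqs.hx 1 le_rfl

theorem lY : Tendsto (fun n => (p n).t ^ 1 * sT D.m (ind ℝ D.L₁) (p n).X 1) atTop (𝓝 (q.Y 1)) :=
  ((((continuous_apply 1).comp continuous_snd.snd.fst).tendsto q).comp h.ws.lim).congr fun n => by
    rw [pow_one]; exact (h.ws.pos n).eqs.hy 1 le_rfl

theorem bX : Bnd a (cx q.X) := h.u0 ▸ hardP_bnd h.a0 u₀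

theorem bY : Bnd b (cx q.Y) := h.v0 ▸ hardP_bnd h.b0 v₀

theorem lt_one : q.z₁ * q.z₂ < 1 := by
  have h1 : (1 : ℝ) ≤ D.m := by exact_mod_cast D.hm
  have h2 := mul_pos h.c₁.pos h.c₂.pos
  nlinarith [h.hz]

/-- the hard side two together with a given side one -/
theorem key {κ W : Type} [Fintype κ] [DecidableEq κ] [NormedAddCommGroup W] [NormedSpace ℂ W]
    [FiniteDimensional ℂ W] (hE : EndThm κ) (hB : Bez P δ) (hg : ∀ n, Good D P (p n))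
    (hδ : ∀ n, Polynomial.aeval ((p n).t : ℂ) δ ≠ 0) (i : κ) {S : Side κ W} {w : ℕ → W} {w₀ : W}
    (s1 : IsSide D.m S) (sI : ∀ j, j ∈ S.I ↔ j ≠ i) (ra : S.Rin = a) (rb : S.Rout = b)
    (sM : S.M = 1) (sk : S.k = 0) (sL : S.L = D.L₁) (sU : ((0 : ℂ), w₀, u₀) ∈ S.U)
    (lw : Tendsto w atTop (𝓝 w₀))
    (re : ∀ᶠ n in atTop, IsReal D.m S (p n).t (w n) (u n) (p n).z₁ ((p n).B₁ D))
    (bp : BasePos S (0, w₀, u₀) v₀) (sj : ∀ j ∈ S.I, S.j w₀ ≠ 0)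
    (cz : S.aux (1, (0, w₀, u₀)) = 0 → ∀ dw du,
      lineDeriv ℂ S.aux (1, (0, w₀, u₀)) (0, (0, dw, du)) = 0 → ser (un a du) q.z₁ = 0) :
    H85.EvPer D.L₂ ∨ (S.I.Nonempty ∧ H85.EvPer D.L₁) := by
  have : Nonempty κ := ⟨i⟩
  obtain ⟨T, x, x₀, t1, t2, ta, tb, tM, tL, tU, lx, tc, tβ, tv, tj, -, tr⟩ :=
    hardPack i D.hm D.z₂ le_rfl h.ab h.za (fun n => (h.ws.pos n).c₂)
      (fun n => by rw [(h.ws.pos n).eqs.y0]; exact one_pos) h.c₂ (h.py 0)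
      (fun g hg => Nat.dvd_one.1 (hg 1 (h.py 1))) h.l₂ h.v0 h.hv h.lv
      (fun n => (h.ws.pos n).b₂.2) h.h₂ h.ht h.lX
  rw [Complex.ofReal_zero] at tU tc tβ tv
  have hc : Compat D.m S T := ⟨D.hm, s1, t1, ra.trans tb.symm, rb.trans ta.symm, sM.ge,
    by rw [tM, sM, sk], t2.hk, fun j => by rw [sI, t2.hI, Finset.mem_singleton]⟩
  obtain ⟨N, hN⟩ := seqD_shift (S₁ := S) (S₂ := T) (τ₀ := 0) (e₀ := (w₀, x₀, u₀, v₀)) (p := p)
    (τ := fun n => (p n).t) (e := fun n => (w n, x n, u n, v n)) sL tL sU tU h.ws.pos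
    (fun n => ⟨(h.ws.pos n).tpos, by rw [sM, pow_one]⟩)
    (h.hu.mono fun n hn => by rw [ra, sk, pow_zero, one_smul]; exact hn)
    (h.hv.mono fun n hn => by rw [ta]; exact hn) re tr
    (Tendsto.prodMk_nhds ((Complex.continuous_ofReal.tendsto' 0 0 rfl).comp h.ht)
      (lw.prodMk_nhds (lx.prodMk_nhds (h.lu.prodMk_nhds h.lv))))
    (tendsto_pi_nhds.2 fun j => by
      simp only [bOf]
      split_ifs
      · exact (Complex.continuous_ofReal.tendsto' 1 1 rfl).comp h.h₂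
      · exact (Complex.continuous_ofReal.tendsto' 1 1 rfl).comp h.h₁)
    (by
      filter_upwards [h.l₁.eventually_lt_const (h.zb.trans h.ba),
        h.l₂.eventually_lt_const (h.za.trans h.ab), h.l₂.eventually_lt_const h.za] with n n1 n2 n3
      rw [ra, ta]
      exact ⟨n1, n2, Or.inl ((mul_le_mul_of_nonneg_left n3.le h.a0.le).trans_eq
        (mul_inv_cancel₀ h.a0.ne'))⟩)
    fun _ _ _ => ⟨sM, sk, (h.l₁.mul h.l₂).eventually_lt_const h.lt_one⟩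
  obtain ⟨j, hj⟩ := wendB hE hB hc hN (fun n => hg _) (fun n => hδ _) bp
    (fun _ _ => ⟨tβ, tv, fun r h1 h2 => by
      rw [tb] at h1
      rw [ta] at h2
      change ∃ s : ℝ, 0 < s ∧ zv r (un T.Rin v₀) (un T.Rout u₀) (T.c (0, x₀, v₀)) = s
      rw [ta, tb, tc, h.u0, h.v0]
      exact zv_pos h.a0 h1 h2 h.bY h.bX h.c₂.nn h.c₁.nn (h.py 1) (h.px 0) h.c₂.pos
        (h.za.trans h1)⟩)
    sj (fun _ _ => tj rfl (h.px 1).ne') fun hF => kerB hc t2 h.hR h.hz h.c₁.pos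
      (by rw [ra]; exact h.u0.trans (congrArg cx (funext h.hX))) tc
      (Or.inl fun de ht => ra ▸ cz hF.a₁ _ _ ht.a₁) hF
  rw [cL] at hj
  split_ifs at hj with e
  · exact Or.inl (tL ▸ hj)
  · exact Or.inr ⟨⟨j, (hc.hI j).2 e⟩, sL ▸ hj⟩

theorem main (hB : Bez P δ) (hi : D.L₁.Infinite) (hg : ∀ n, Good D P (p n))
    (hδ : ∀ n, Polynomial.aeval ((p n).t : ℂ) δ ≠ 0) : H85.EvPer D.L₂ := by
  by_cases hp : H85.EvPer D.L₁
  · obtain ⟨S, w, w₀, s1, sI, ra, rb, sM, sk, sL, sU, lw, cz, re⟩ :=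
      pole Unit D.hm D.z₁ hi hp h.ba h.zb (fun n => (h.ws.pos n).c₁) (fun n => (h.ws.pos n).px)
        h.c₁ h.px (tendsto_nhds_unique h.ws.b₁ h.h₁) h.l₁ h.u0 h.hu h.lu
        (fun n => (h.ws.pos n).b₁.2 hi) h.ht (h.py 1).ne' (by simpa only [pow_one] using h.lY)
    refine (h.key endThm_unit hB hg hδ () s1 (fun j => by simp [sI]) ra rb sM sk sL sU lw
      (re.mono fun n hn => hn _ _) (fun j hj => by simp [sI] at hj)
      (fun j hj => by simp [sI] at hj) fun _ => cz 1).resolve_right fun h' => ?_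
    simpa [sI] using h'.1
  · obtain ⟨S, w, w₀, s1, s2, ra, rb, sM, sL, sU, lw, sc, sβ, sv, sj, -, re⟩ :=
      hardPack false D.hm D.z₁ le_rfl h.ba h.zb (fun n => (h.ws.pos n).c₁)
        (fun n => (h.ws.pos n).px 0) h.c₁ (h.px 0) (fun g hg => Nat.dvd_one.1 (hg 1 (h.px 1)))
        h.l₁ h.u0 h.hu h.lu (fun n => (h.ws.pos n).b₁.2 hi) h.h₁ h.ht h.lY
    rw [Complex.ofReal_zero] at sU sc sβ sv
    refine (h.key endThm_bool hB hg hδ true s1 (fun j => by simp [s2.hI]) ra rb sM s2.hk sL sU lw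
      re (fun _ _ => ⟨sβ, sv, fun r h1 h2 => ?_⟩) (fun _ _ => sj rfl (h.py 1).ne')
      fun h0 dw du hd => ?_).resolve_right fun h' => hp h'.2
    · rw [rb] at h1
      rw [ra] at h2
      rw [ra, rb, sc, h.u0, h.v0]
      exact zv_pos h.b0 h1 h2 h.bX h.bY h.c₁.nn h.c₂.nn (h.px 1) (h.py 0) h.c₁.pos
        (h.zb.trans h1)
    · have := s1.cz false (by simp [s2.hI]) 1 (by simp) _ sU _ h0 hd
      rwa [ra, sc] at this

end CaseB2S

theorem caseB2 (hB : Bez P δ) (hi : D.L₁.Infinite) (hg : ∀ n, Good D P (p n))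
    (hδ : ∀ n, Polynomial.aeval ((p n).t : ℂ) δ ≠ 0)
    (ht : Tendsto (fun n => (p n).t) atTop (𝓝 0))
    (h₁ : Tendsto (fun n => (p n).B₁ D) atTop (𝓝 1))
    (h₂ : Tendsto (fun n => (p n).B₂ D) atTop (𝓝 1)) : H85.EvPer D.L₂ := by
  obtain ⟨q, φ, R, hφ, ws, hR, hz, hX, hY, c₁, c₂⟩ :=
    c2inf D hi p (fun n => (hg n).pos) ht h₁ h₂
  have z1 := c₁.pos
  have z2 := c₂.pos
  have z3 : q.z₁ * q.z₂ ≤ 1 / 2 := by
    have h1 : (1 : ℝ) ≤ D.m := by exact_mod_cast D.hm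
    nlinarith [mul_pos z1 z2]
  have l₁ : Tendsto (fun n => (p (φ n)).z₁) atTop (𝓝 q.z₁) :=
    (continuous_snd.snd.snd.fst.tendsto q).comp ws.lim
  have l₂ : Tendsto (fun n => (p (φ n)).z₂) atTop (𝓝 q.z₂) :=
    (continuous_snd.snd.snd.snd.tendsto q).comp ws.lim
  have e : ∀ z : ℝ, 0 < z → 3 / 4 / z * z < 1 := fun z hz => by
    rw [div_mul_cancel₀ _ hz.ne']; norm_num
  have e' : ∀ z : ℝ, 0 < z → z < (3 / 4 / z)⁻¹ := fun z hz => by
    rw [inv_div, lt_div_iff₀ (by norm_num)]; linarith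
  have e'' : ∀ z z' : ℝ, 0 < z' → z * z' ≤ 1 / 2 → (3 / 4 / z)⁻¹ < 3 / 4 / z' := fun z z' hz h => by
    rw [inv_div, div_lt_div_iff₀ (by norm_num) hz]; linarith
  obtain ⟨u, u₀, u1, u2, u3⟩ := bs_conv (f := fun n => (p (φ n)).X) (g := q.X)
    (fun n => (ws.pos n).c₁.nn)
    (fun i => (((continuous_apply i).comp continuous_snd.fst).tendsto q).comp ws.lim) l₂
    (fun n => (ws.pos n).c₂.pos.le) ws.px (by positivity) (e _ z2)
  obtain ⟨v, v₀, v1, v2, v3⟩ := bs_conv (f := fun n => (p (φ n)).Y) (g := q.Y)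
    (fun n => (ws.pos n).c₂.nn)
    (fun i => (((continuous_apply i).comp continuous_snd.snd.fst).tendsto q).comp ws.lim) l₁
    (fun n => (ws.pos n).c₁.pos.le) ws.py (by positivity) (e _ z1)
  exact CaseB2S.main (p := p ∘ φ) ⟨ws, hR, hz, hX, hY, c₁, c₂, ht.comp hφ.tendsto_atTop,
    h₁.comp hφ.tendsto_atTop, h₂.comp hφ.tendsto_atTop, e'' _ _ z1 (mul_comm q.z₁ _ ▸ z3),
    e'' _ _ z2 z3, e' _ z2, e' _ z1, u1, v1, u2, v2, u3, v3⟩ hB hi (fun n => hg _) fun n => hδ _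

end Pool.Agent.MP_098ecc_co.H97
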