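import Pool.Agent.MP_098ecc_co.H97.Hol

set_option autoImplicit false

namespace Pool.Agent.MP_098ecc_co.H97

open Metric Filter Topology Set Function
open scoped BoundedContinuousFunction

theorem par_key {X : Type} [MetricSpace X] (π : X → ℝ)
    (hπ : Continuous π) (G P : Set X) (hGP : G ⊆ P)
    (cpt : ∀ (p : ℕ → X) (t₀ : ℝ), 0 < t₀ → (∀ n, p n ∈ G) →
      Tendsto (fun n => π (p n)) atTop (𝓝 t₀) →
      ∃ q ∈ P, ∃ φ : ℕ → ℕ, StrictMono φ ∧ Tendsto (p ∘ φ) atTop (𝓝 q))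
    (loc : ∀ p ∈ P, (∀ W ∈ 𝓝 p, ∃ V ⊆ W, V ∈ 𝓝[P] p ∧ ∃ ε > (0 : ℝ), ∃ k : ℕ, ∀ t, t ≠ π p →
      |t - π p| < ε → (G ∩ V ∩ π ⁻¹' {t}).Finite ∧ (G ∩ V ∩ π ⁻¹' {t}).ncard % 2 = k) ∧
      ∀ᶠ q in 𝓝 p, q ∈ P → q ∈ closure G → π q = π p → q = p) {t₀ : ℝ} (h₀ : 0 < t₀) :
    ∃ k < 2, ∀ᶠ t in 𝓝[≠] t₀, (G ∩ π ⁻¹' {t}).ncard % 2 = k := by
  have lim : ∀ p : ℕ → X, (∀ n, p n ∈ G) → (∀ n, dist (π (p n)) t₀ < 1 / ((n : ℝ) + 1)) →
      ∃ q ∈ closure G ∩ P ∩ π ⁻¹' {t₀}, ∃ φ : ℕ → ℕ, StrictMono φ ∧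
        Tendsto (p ∘ φ) atTop (𝓝 q) := fun p h1 h2 => by
    have h3 : Tendsto (fun n => π (p n)) atTop (𝓝 t₀) := tendsto_iff_dist_tendsto_zero.2
      (squeeze_zero (fun _ => dist_nonneg) (fun n => (h2 n).le)
        tendsto_one_div_add_atTop_nhds_zero_nat)
    obtain ⟨q, a, φ, b, c⟩ := cpt p t₀ h₀ h1 h3
    exact ⟨q, ⟨⟨mem_closure_of_tendsto c (Eventually.of_forall fun n => h1 _), a⟩,
      tendsto_nhds_unique ((hπ.tendsto q).comp c) (h3.comp b.tendsto_atTop)⟩, φ, b, c⟩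
  set S := closure G ∩ P ∩ π ⁻¹' {t₀} with hS
  have fin : S.Finite := by
    by_contra h
    let q := Set.Infinite.natEmbedding S h
    have : ∀ n : ℕ, ∃ p ∈ G, dist p (q n) < 1 / ((n : ℝ) + 1) ∧
        dist (π p) t₀ < 1 / ((n : ℝ) + 1) := fun n => by
      have e : π (q n) = t₀ := (q n).2.2
      obtain ⟨p, a, b⟩ := mem_closure_iff_nhds.1 (q n).2.1.1 _ (inter_mem
        (ball_mem_nhds _ (Nat.one_div_pos_of_nat (n := n)))
        (hπ.continuousAt.preimage_mem_nhds (ball_mem_nhds _ (Nat.one_div_pos_of_nat (n := n)))))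
      exact ⟨p, b, a.1, e ▸ a.2⟩
    choose p p1 p2 p3 using this
    obtain ⟨x, a, φ, b, c⟩ := lim p p1 p3
    have d : Tendsto (fun n => (q (φ n) : X)) atTop (𝓝 x) := c.congr_dist (squeeze_zero
      (fun _ => dist_nonneg) (fun n => (p2 _).le)
      (tendsto_one_div_add_atTop_nhds_zero_nat.comp b.tendsto_atTop))
    obtain ⟨N, hN⟩ := eventually_atTop.1 (d.eventually (loc x a.1.2).2)
    have e : ∀ n ≥ N, (q (φ n) : X) = x := fun n hn =>
      hN n hn (q _).2.1.2 (q _).2.1.1 ((q _).2.2.trans a.2.symm)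
    have := b.injective (q.injective (Subtype.ext ((e N le_rfl).trans (e (N + 1) (by omega)).symm)))
    omega
  obtain ⟨W, W1, W2⟩ := fin.t2_separation
  choose! V V1 V2 ε ε0 k hk using fun p (h : p ∈ S) =>
    (loc p h.1.2).1 (W p) ((W1 p).2.mem_nhds (W1 p).1)
  have cov : ∀ᶠ t in 𝓝 t₀, ∀ x ∈ G, π x = t → ∃ p ∈ S, x ∈ V p := by
    by_contra h
    have : ∀ n : ℕ, ∃ x ∈ G, dist (π x) t₀ < 1 / ((n : ℝ) + 1) ∧ ∀ p ∈ S, x ∉ V p := fun n => by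
      obtain ⟨t, a, b⟩ := ((not_eventually.1 h).and_eventually
        (ball_mem_nhds t₀ (Nat.one_div_pos_of_nat (n := n)))).exists
      push Not at a
      obtain ⟨x, a, rfl, c⟩ := a
      exact ⟨x, a, b, c⟩
    choose p p1 p2 p3 using this
    obtain ⟨x, a, φ, b, c⟩ := lim p p1 p2
    obtain ⟨n, hn⟩ := ((tendsto_nhdsWithin_iff.2 ⟨c, Eventually.of_forall fun n =>
      hGP (p1 _)⟩).eventually (V2 x a)).exists
    exact p3 _ x a hn
  have near : ∀ᶠ t in 𝓝 t₀, ∀ p ∈ S, |t - t₀| < ε p :=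
    (eventually_all_finite fin).2 fun p hp => ball_mem_nhds t₀ (ε0 p hp)
  refine ⟨(∑ p ∈ fin.toFinset, k p) % 2, Nat.mod_lt _ two_pos, ?_⟩
  filter_upwards [nhdsWithin_le_nhds cov, nhdsWithin_le_nhds near, self_mem_nhdsWithin]
    with t a b c
  have h1 : ∀ p ∈ S, _ := fun p hp => hk p hp t (by rw [show π p = t₀ from hp.2]; exact c)
    (by rw [show π p = t₀ from hp.2]; exact b p hp)
  have e : G ∩ π ⁻¹' {t} = ⋃ p ∈ S, G ∩ V p ∩ π ⁻¹' {t} := by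
    ext x
    simp only [mem_iUnion]
    refine ⟨fun h => ?_, fun ⟨p, _, h⟩ => ⟨h.1.1, h.2⟩⟩
    obtain ⟨p, d, e⟩ := a x h.1 h.2
    exact ⟨p, d, ⟨h.1, e⟩, h.2⟩
  rw [e, fin.ncard_biUnion (fun p hp => (h1 p hp).1) fun p hp p' hp' h => (W2 hp hp' h).mono
    (fun x hx => V1 p hp hx.1.2) fun x hx => V1 p' hp' hx.1.2,
    finsum_mem_eq_finite_toFinset_sum _ fin, Finset.sum_nat_mod]
  congr 1
  exact Finset.sum_congr rfl fun p hp => (h1 p (fin.mem_toFinset.1 hp)).2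

theorem parabs {X : Type} [TopologicalSpace X] [TopologicalSpace.MetrizableSpace X] (π : X → ℝ)
    (hπ : Continuous π) (G P : Set X) (hGP : G ⊆ P) (hb : ∀ p ∈ G, π p ≤ 1)
    (cpt : ∀ (p : ℕ → X) (t₀ : ℝ), 0 < t₀ → (∀ n, p n ∈ G) →
      Tendsto (fun n => π (p n)) atTop (𝓝 t₀) →
      ∃ q ∈ P, ∃ φ : ℕ → ℕ, StrictMono φ ∧ Tendsto (p ∘ φ) atTop (𝓝 q))
    (loc : ∀ p ∈ P, (∀ W ∈ 𝓝 p, ∃ V ⊆ W, V ∈ 𝓝[P] p ∧ ∃ ε > (0 : ℝ), ∃ k : ℕ, ∀ t, t ≠ π p →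
      |t - π p| < ε → (G ∩ V ∩ π ⁻¹' {t}).Finite ∧ (G ∩ V ∩ π ⁻¹' {t}).ncard % 2 = k) ∧
      ∀ᶠ q in 𝓝 p, q ∈ P → q ∈ closure G → π q = π p → q = p) :
    ∀ t₁ > (0 : ℝ), ¬ ∀ t ∈ Ioo 0 t₁, (G ∩ π ⁻¹' {t}).ncard = 1 := by
  let _ := TopologicalSpace.metrizableSpaceMetric X
  intro t₁ h₁ h
  let Q : ℕ → Set ℝ := fun j => {s | ∀ᶠ t in 𝓝[≠] s, (G ∩ π ⁻¹' {t}).ncard % 2 = j}
  have op : ∀ j, IsOpen (Q j) := fun j => isOpen_iff_mem_nhds.2 fun s hs => by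
    filter_upwards [(eventually_nhdsWithin_iff.1 hs).eventually_nhds] with s' a
    by_cases e : s' = s
    · exact e ▸ hs
    · exact nhdsWithin_le_nhds ((a.and (eventually_ne_nhds e)).mono fun t b => b.1 b.2)
  have dj : Disjoint (Q 0) (Q 1) := disjoint_left.2 fun s a b => by
    obtain ⟨t, c, d⟩ := (Eventually.and (f := 𝓝[≠] s) (mem_ofPred.1 a) (mem_ofPred.1 b)).exists
    omega
  have := (isPreconnected_Ioi (a := (0 : ℝ))).subset_left_of_subset_union (op 0) (op 1) dj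
    (fun s hs => by
      obtain ⟨k, a, b⟩ := par_key π hπ G P hGP cpt loc hs
      interval_cases k
      exacts [Or.inl b, Or.inr b])
    ⟨2, by norm_num, nhdsWithin_le_nhds ((lt_mem_nhds (by norm_num : (1 : ℝ) < 2)).mono
      fun t ht => by
        rw [show G ∩ π ⁻¹' {t} = ∅ from eq_empty_of_forall_notMem fun x hx =>
          (hb x hx.1).not_gt (hx.2 ▸ ht)]
        simp)⟩
  refine disjoint_left.1 dj (this (show t₁ / 2 ∈ Ioi 0 from half_pos h₁)) (nhdsWithin_le_nhds ?_)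
  filter_upwards [Ioo_mem_nhds (half_pos h₁) (half_lt_self h₁)] with t ht
  rw [h t ht]

/-- Lyapunov Schmidt reduction with wall parameters -/
theorem ls {B E V : Type} [NormedAddCommGroup B] [NormedSpace ℂ B] [NormedAddCommGroup E]
    [NormedSpace ℂ E] [CompleteSpace E] [NormedAddCommGroup V] [NormedSpace ℂ V]
    (π : E →L[ℂ] V) (ι : V →L[ℂ] E) (hπι : ∀ v, π (ι v) = v) {Φ : B × (ℂ × E) → E} {τ₀ : ℂ}
    {e₀ : E} {r : ℝ} (hr : 0 < r) (hΦ : Reg (ball (τ₀, e₀) r) Φ)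
    (tail : ∀ b ∈ closedBall (0 : B) 1, ∀ P ∈ ball (τ₀, e₀) r,
      ‖Φ (b, P) - ι (π (Φ (b, P)))‖ ≤ r / 16)
    (t0 : ‖e₀ - ι (π e₀)‖ ≤ r / 16) :
    ∃ T : B × (ℂ × V) → E,
      Reg {z : ℂ × V | ‖z.1 - τ₀‖ < r / 4 ∧ ‖ι (z.2 - π e₀)‖ < r / 8} T ∧
      ∀ b ∈ closedBall (0 : B) 1, ∀ z : ℂ × V, ‖z.1 - τ₀‖ < r / 4 → ‖ι (z.2 - π e₀)‖ < r / 8 →
        T (b, z) ∈ ball e₀ (r / 2) ∧ π (T (b, z)) = z.2 ∧
        T (b, z) = ι z.2 + (Φ (b, (z.1, T (b, z))) - ι (π (Φ (b, (z.1, T (b, z)))))) ∧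
        (∀ e ∈ ball e₀ (r / 2), e = ι z.2 + (Φ (b, (z.1, e)) - ι (π (Φ (b, (z.1, e))))) →
          e = T (b, z)) ∧
        (∀ de, de = fderiv ℂ (fun e => Φ (b, (z.1, e))) (T (b, z)) de -
          ι (π (fderiv ℂ (fun e => Φ (b, (z.1, e))) (T (b, z)) de)) → de = 0) ∧
        (b ∈ ball (0 : B) 1 → ∀ db, ‖fderiv ℂ T (b, z) (db, 0)‖ ≤
          2 * ‖fderiv ℂ Φ (b, (z.1, T (b, z))) (db, 0) -
            ι (π (fderiv ℂ Φ (b, (z.1, T (b, z))) (db, 0)))‖) := by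
  let Q : E →L[ℂ] E := ContinuousLinearMap.id ℂ E - ι.comp π
  have hQ : ∀ x, x - ι (π x) = Q x := fun _ => rfl
  simp only [hQ] at tail ⊢
  set U : Set (ℂ × V) := {z | ‖z.1 - τ₀‖ < r / 4 ∧ ‖ι (z.2 - π e₀)‖ < r / 8} with hU
  have oU : IsOpen U := by
    rw [hU, Set.ofPred_and]
    refine IsOpen.inter ?_ ?_ <;> exact isOpen_lt (by fun_prop) continuous_const
  have mem : ∀ z ∈ U, ∀ e ∈ ball e₀ r, (z.1, e) ∈ ball (τ₀, e₀) r := fun z hz e he => by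
    rw [← ball_prod_same]
    exact ⟨mem_ball_iff_norm.2 (by linarith [hz.1]), he⟩
  have half : ball e₀ (r / 2) ⊆ ball e₀ r := ball_subset_ball (by linarith)
  have dΦ : ∀ b ∈ closedBall (0 : B) 1, ∀ z ∈ U,
      DifferentiableOn ℂ (fun e => Φ (b, (z.1, e))) (ball e₀ r) := fun b hb z hz =>
    (hΦ.frz b hb).comp (f := fun e => (z.1, e)) (by fun_prop) (mem z hz)
  have dA : ∀ b ∈ closedBall (0 : B) 1, ∀ z ∈ U, ∀ e ∈ ball e₀ (r / 2),
      DifferentiableAt ℂ (fun e => Φ (b, (z.1, e))) e := fun b hb z hz e he =>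
    (dΦ b hb z hz).differentiableAt (isOpen_ball.mem_nhds (half he))
  have bd : ∀ b ∈ closedBall (0 : B) 1, ∀ z ∈ U, ∀ e ∈ ball e₀ (r / 2),
      ‖fderiv ℂ (fun e => Q (Φ (b, (z.1, e)))) e‖ ≤ 1 / 8 := fun b hb z hz e he => by
    have s : ball e (r / 2) ⊆ ball e₀ r := ball_subset_ball' (by linarith [mem_ball.1 he])
    refine (cauchy_fderiv (half_pos hr) ((Q.differentiable.comp_differentiableOn
      (dΦ b hb z hz)).mono s) fun y hy => tail b hb _ (mem z hz y (s hy))).trans_eq ?_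
    field_simp
    norm_num
  have bd' : ∀ b ∈ closedBall (0 : B) 1, ∀ z ∈ U, ∀ e ∈ ball e₀ (r / 2), ∀ de,
      ‖Q (fderiv ℂ (fun e => Φ (b, (z.1, e))) e de)‖ ≤ 1 / 8 * ‖de‖ := fun b hb z hz e he de => by
    have := (Q.hasFDerivAt.comp e (dA b hb z hz e he).hasFDerivAt).fderiv
    exact (ContinuousLinearMap.le_of_opNorm_le _ (this ▸ bd b hb z hz e he) de :)
  have lip : ∀ b ∈ closedBall (0 : B) 1, ∀ z ∈ U, ∀ e ∈ ball e₀ (r / 2), ∀ e' ∈ ball e₀ (r / 2),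
      ‖ι z.2 + Q (Φ (b, (z.1, e'))) - (ι z.2 + Q (Φ (b, (z.1, e))))‖ ≤ 1 / 8 * ‖e' - e‖ :=
    fun b hb z hz e he e' he' => by
      rw [add_sub_add_left_eq_sub]
      exact (convex_ball e₀ (r / 2)).norm_image_sub_le_of_norm_fderiv_le (𝕜 := ℂ)
        (fun e he => Q.differentiableAt.comp e (dA b hb z hz e he)) (bd b hb z hz) he he'
  have into : ∀ b ∈ closedBall (0 : B) 1, ∀ z ∈ U, ∀ e ∈ ball e₀ (r / 2),
      ι z.2 + Q (Φ (b, (z.1, e))) ∈ closedBall e₀ (r / 4) := fun b hb z hz e he => by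
    have a := tail b hb _ (mem z hz e (half he))
    have c := hz.2
    rw [mem_closedBall_iff_norm, show ι z.2 + Q (Φ (b, (z.1, e))) - e₀ =
      ι (z.2 - π e₀) - (e₀ - ι (π e₀)) + Q (Φ (b, (z.1, e))) by rw [map_sub]; abel]
    linarith [norm_add_le (ι (z.2 - π e₀) - (e₀ - ι (π e₀))) (Q (Φ (b, (z.1, e)))),
      norm_sub_le (ι (z.2 - π e₀)) (e₀ - ι (π e₀))]
  have q4 : closedBall e₀ (r / 4) ⊆ ball e₀ (r / 2) := closedBall_subset_ball (by linarith)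
  let I : ℕ → B × (ℂ × V) → E := fun n => Nat.rec (fun _ => e₀)
    (fun _ f q => ι q.2.2 + Q (Φ (q.1, (q.2.1, f q)))) n
  have I1 : ∀ n q, I (n + 1) q = ι q.2.2 + Q (Φ (q.1, (q.2.1, I n q))) := fun _ _ => rfl
  have I2 : ∀ n, ∀ b ∈ closedBall (0 : B) 1, ∀ z ∈ U, I n (b, z) ∈ closedBall e₀ (r / 4) :=
    fun n b hb z hz => by
      induction n with
      | zero => exact mem_closedBall_self (by linarith)
      | succ n ih => exact into b hb z hz _ (q4 ih)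
  have I3 : ∀ n, Reg U (I n) := fun n => by
    induction n with
    | zero => exact Reg.of_diff U (differentiable_const _)
    | succ n ih =>
      exact ((Reg.of_diff U (f := fun q : B × (ℂ × V) => ι q.2.2) (by fun_prop)).prodMk
        (((Reg.of_diff U (f := fun q : B × (ℂ × V) => q.2.1) (by fun_prop)).prodMk ih).comp₂ hΦ
          fun b hb z hz => mem z hz _ (half (q4 (I2 n b hb z hz))))).comp (O := univ)
        (g := fun x : E × E => x.1 + Q x.2) (by fun_prop) fun _ _ _ _ => mem_univ _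
  have I4 : ∀ n, ∀ b ∈ closedBall (0 : B) 1, ∀ z ∈ U,
      ‖I (n + 1) (b, z) - I n (b, z)‖ ≤ r / 4 * (1 / 8) ^ n := fun n b hb z hz => by
    induction n with
    | zero => exact (mem_closedBall_iff_norm.1 (I2 1 b hb z hz)).trans_eq (by simp)
    | succ n ih =>
      refine (lip b hb z hz _ (q4 (I2 n b hb z hz)) _ (q4 (I2 (n + 1) b hb z hz))).trans ?_
      rw [pow_succ]
      linarith
  have sm : Summable fun n : ℕ => r / 4 * (1 / 8 : ℝ) ^ n :=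
    (summable_geometric_of_lt_one (by norm_num) (by norm_num)).mul_left _
  let T : B × (ℂ × V) → E := fun q => (∑' n, (I (n + 1) q - I n q)) + e₀
  have rT : Reg U T := (Reg.tsum oU (fun n => ((I3 (n + 1)).prodMk (I3 n)).comp (O := univ)
    (g := fun x : E × E => x.1 - x.2) (by fun_prop) fun _ _ _ _ => mem_univ _) sm I4).comp
      (O := univ) (g := fun x : E => x + e₀) (by fun_prop) fun _ _ _ _ => mem_univ _
  have T1 : ∀ b ∈ closedBall (0 : B) 1, ∀ z ∈ U,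
      Tendsto (fun n => I n (b, z)) atTop (𝓝 (T (b, z))) := fun b hb z hz => by
    refine ((Summable.of_norm_bounded sm fun n => I4 n b hb z hz).hasSum.tendsto_sum_nat.add_const
      e₀).congr fun n => ?_
    rw [Finset.sum_range_sub fun n => I n (b, z)]
    exact sub_add_cancel _ _
  have T2 : ∀ b ∈ closedBall (0 : B) 1, ∀ z ∈ U, T (b, z) ∈ ball e₀ (r / 2) := fun b hb z hz =>
    q4 (isClosed_closedBall.mem_of_tendsto (T1 b hb z hz)
      (Eventually.of_forall fun n => I2 n b hb z hz))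
  have T3 : ∀ b ∈ closedBall (0 : B) 1, ∀ z ∈ U,
      T (b, z) = ι z.2 + Q (Φ (b, (z.1, T (b, z)))) := fun b hb z hz =>
    tendsto_nhds_unique ((T1 b hb z hz).comp (tendsto_add_atTop_nat 1))
      (((Q.continuous.continuousAt.comp (dA b hb z hz _ (T2 b hb z hz)).continuousAt).tendsto.comp
        (T1 b hb z hz)).const_add _)
  refine ⟨T, rT, fun b hb z z1 z2 => ?_⟩
  have hz : z ∈ U := ⟨z1, z2⟩
  refine ⟨T2 b hb z hz, ?_, T3 b hb z hz, fun e he h => ?_, fun de h => ?_, fun hb' db => ?_⟩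
  · rw [T3 b hb z hz, map_add, ← hQ, map_sub, hπι, hπι, sub_self, add_zero]
  · have := lip b hb z hz _ (T2 b hb z hz) e he
    rw [← h, ← T3 b hb z hz] at this
    exact sub_eq_zero.1 (norm_le_zero_iff.1 (by linarith))
  · have := bd' b hb z hz _ (T2 b hb z hz) de
    rw [← h] at this
    exact norm_le_zero_iff.1 (by linarith)
  have o1 : ball (0 : B) 1 ×ˢ U ∈ 𝓝 (b, z) := (isOpen_ball.prod oU).mem_nhds ⟨hb', hz⟩
  have d1 := (rT.diff.differentiableAt o1).hasFDerivAt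
  have d2 := (hΦ.diff.differentiableAt ((isOpen_ball.prod isOpen_ball).mem_nhds
    (mk_mem_prod hb' (mem z hz _ (half (T2 b hb z hz)))))).hasFDerivAt
  have d3 : HasFDerivAt T _ (b, z) := ((ι.hasFDerivAt.comp (b, z) (hasFDerivAt_snd.comp (b, z)
    hasFDerivAt_snd)).add (Q.hasFDerivAt.comp (b, z) (d2.comp (b, z) (hasFDerivAt_fst.prodMk
      ((hasFDerivAt_fst.comp (b, z) hasFDerivAt_snd).prodMk d1))))).congr_of_eventuallyEq
    (mem_of_superset o1 fun q hq => T3 q.1 (ball_subset_closedBall hq.1) q.2 hq.2)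
  have d4 : HasFDerivAt (fun e => Φ (b, (z.1, e))) _ (T (b, z)) := d2.comp (T (b, z))
    ((hasFDerivAt_const b _).prodMk ((hasFDerivAt_const z.1 _).prodMk (hasFDerivAt_id _)))
  have e1 : fderiv ℂ T (b, z) (db, 0) = Q (fderiv ℂ Φ (b, (z.1, T (b, z))) (db, 0)) +
      Q (fderiv ℂ (fun e => Φ (b, (z.1, e))) (T (b, z)) (fderiv ℂ T (b, z) (db, 0))) := by
    rw [d4.fderiv, ← map_add]
    refine (DFunLike.congr_fun d3.fderiv (db, 0)).trans ?_
    simp [← map_add]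
  have := bd' b hb z hz _ (T2 b hb z hz) (fderiv ℂ T (b, z) (db, 0))
  have e2 := (congrArg norm e1).trans_le (norm_add_le _ _)
  linarith [norm_nonneg (fderiv ℂ T (b, z) (db, 0))]

end Pool.Agent.MP_098ecc_co.H97
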