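import Pool.Agent.MP_098ecc_co.H97.Defs3
import Pool.Agent.MP_098ecc_co.H97.Par

set_option autoImplicit false

namespace Pool.Agent.MP_098ecc_co.H97

open Metric Filter Topology Set Function
open scoped BoundedContinuousFunction

section Gen
variable {B Z F : Type} [NormedAddCommGroup B] [NormedSpace ℂ B] [NormedAddCommGroup Z]
  [NormedSpace ℂ Z] [NormedAddCommGroup F] [NormedSpace ℂ F]

theorem Reg.chart_curve {U : Set Z} (hU : IsOpen U) {f : B × Z → F} (hf : Reg U f) {b db : B}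
    (hb : b ∈ closedBall (0 : B) 1) (hdb : b ∈ ball (0 : B) 1 ∨ db = 0) {γ : ℂ → Z} {z dz : Z}
    (hγ : HasDerivAt γ dz 0) (h0 : γ 0 = z) (hz : z ∈ U) :
    HasDerivAt (fun s : ℂ => f (b + s • db, γ s)) (lineDeriv ℂ f (b, z) (db, dz)) 0 := by
  subst h0
  rcases hdb with hb' | rfl
  · obtain ⟨h1, h2⟩ := hf.hasLine_ball hU hb' hz (db, dz)
    rw [h2.lineDeriv]
    have h3 : HasDerivAt (fun s : ℂ => (b + s • db, γ s)) (db, dz) 0 := by
      refine HasDerivAt.prodMk ?_ hγ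
      simpa using ((hasDerivAt_id (0 : ℂ)).smul_const db).const_add b
    exact HasFDerivAt.comp_hasDerivAt_of_eq (0 : ℂ) h1 h3 (by simp)
  · obtain ⟨h1, h2⟩ := hf.hasLine_frz hU hb hz dz
    rw [h2.lineDeriv]
    simpa [Function.comp_def] using h1.comp_hasDerivAt (0 : ℂ) hγ

theorem Reg.chart_bdd [ProperSpace B] {U : Set Z} (hU : IsOpen U) {f : B × Z → F} (hf : Reg U f)
    {z₀ : Z} (hz : z₀ ∈ U) :
    ∃ M : ℝ, ∀ᶠ z in 𝓝 z₀, ∀ b ∈ closedBall (0 : B) 1, ‖f (b, z)‖ ≤ M := by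
  have hK := isCompact_closedBall (0 : B) 1
  obtain ⟨M, hM⟩ := hK.exists_bound_of_continuousOn (f := fun b => f (b, z₀))
    (hf.cont.comp (by fun_prop) fun b hb => ⟨hb, hz⟩)
  refine ⟨M + 1, ?_⟩
  have := hK.eventually_forall_of_forall_eventually (x₀ := z₀)
    (P := fun z b => (b, z) ∈ closedBall (0 : B) 1 ×ˢ U → ‖f (b, z)‖ ≤ M + 1) fun b hb => by
      have h1 := (hf.cont (b, z₀) ⟨hb, hz⟩).norm.eventually
        (ge_mem_nhds (show ‖f (b, z₀)‖ < M + 1 by linarith [hM b hb]))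
      rw [eventually_nhdsWithin_iff] at h1
      exact (continuous_swap.tendsto (z₀, b)).eventually h1
  filter_upwards [this, hU.mem_nhds hz] with z h1 h2 b hb using h1 b hb ⟨hb, h2⟩

theorem chart_fst {γ : ℂ → Z × F} {d : Z × F} {x : ℂ} (h : HasDerivAt γ d x) :
    HasDerivAt (fun s => (γ s).1) d.1 x :=
  (ContinuousLinearMap.fst ℂ Z F).hasFDerivAt.comp_hasDerivAt x h

theorem chart_snd {γ : ℂ → Z × F} {d : Z × F} {x : ℂ} (h : HasDerivAt γ d x) :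
    HasDerivAt (fun s => (γ s).2) d.2 x :=
  (ContinuousLinearMap.snd ℂ Z F).hasFDerivAt.comp_hasDerivAt x h

end Gen

theorem chart_holE (n i : ℕ) : holE n i = if i = n then 1 else 0 := by
  show (Pi.single n (1 : ℂ) : ℕ → ℂ) i = _
  rw [Pi.single_apply]

/-- head of a sequence -/
noncomputable def chP (N : ℕ) : BS →L[ℂ] (Fin N → ℂ) :=
  ContinuousLinearMap.pi fun i : Fin N => BoundedContinuousFunction.evalCLM ℂ (i : ℕ)

/-- extension by zero -/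
noncomputable def chI (N : ℕ) : (Fin N → ℂ) →L[ℂ] BS :=
  ∑ i : Fin N, (ContinuousLinearMap.proj i : (Fin N → ℂ) →L[ℂ] ℂ).smulRight (holE i)

theorem chI_apply (N : ℕ) (v : Fin N → ℂ) (n : ℕ) :
    chI N v n = if h : n < N then v ⟨n, h⟩ else 0 := by
  rw [chI, sum_apply, BoundedContinuousFunction.sum_apply]
  simp only [ContinuousLinearMap.smulRight_apply, ContinuousLinearMap.proj_apply,
    BoundedContinuousFunction.coe_smul, chart_holE, smul_eq_mul, mul_ite, mul_one,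
    mul_zero]
  split_ifs with h
  · rw [Finset.sum_eq_single ⟨n, h⟩ (fun i _ hi => if_neg fun e => hi (Fin.ext e.symm)) (by simp)]
    simp
  · exact Finset.sum_eq_zero fun i _ => if_neg fun e : n = i => h (e ▸ i.2)

theorem chPI (N : ℕ) (v : Fin N → ℂ) : chP N (chI N v) = v := by
  funext i
  show chI N v i = v i
  rw [chI_apply, dif_pos i.2]

theorem chart_tail {u : BS} {C θ : ℝ} (h0 : 0 ≤ θ) (h1 : θ ≤ 1) (hC : 0 ≤ C)
    (hb : ∀ n, 1 ≤ n → ‖u n‖ ≤ C * θ ^ n) {N : ℕ} (hN : 1 ≤ N) :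
    ‖u - chI N (chP N u)‖ ≤ C * θ ^ N := by
  rw [BoundedContinuousFunction.norm_le (by positivity)]
  intro n
  rw [BoundedContinuousFunction.sub_apply, chI_apply]
  split_ifs with h
  · show ‖u n - u n‖ ≤ _
    rw [sub_self, norm_zero]; positivity
  · rw [sub_zero]
    exact (hb n (by omega)).trans
      (mul_le_mul_of_nonneg_left (pow_le_pow_of_le_one h0 h1 (by omega)) hC)

/-- remove the constant term -/
noncomputable def chA : BS →L[ℂ] BS :=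
  ContinuousLinearMap.id ℂ BS - (BoundedContinuousFunction.evalCLM ℂ 0).smulRight (holE 0)

theorem chA_apply (u : BS) (n : ℕ) : chA u n = if n = 0 then 0 else u n := by
  show u n - u 0 • holE 0 n = _
  rw [chart_holE]
  split_ifs with h <;> simp [h]

theorem chA_norm (u : BS) : ‖chA u‖ ≤ ‖u‖ := by
  rw [BoundedContinuousFunction.norm_le (norm_nonneg _)]
  intro n
  rw [chA_apply]
  split_ifs
  · simp
  · exact u.norm_coe_le_norm n

variable {κ W₁ W₂ : Type} [Fintype κ] [DecidableEq κ] [NormedAddCommGroup W₁] [NormedSpace ℂ W₁]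
  [FiniteDimensional ℂ W₁] [NormedAddCommGroup W₂] [NormedSpace ℂ W₂] [FiniteDimensional ℂ W₂]
  {S₁ : Side κ W₁} {S₂ : Side κ W₂}

/-- the head map as a linear map -/
noncomputable def chPi (W₁ W₂ : Type) [NormedAddCommGroup W₁] [NormedSpace ℂ W₁]
    [NormedAddCommGroup W₂] [NormedSpace ℂ W₂] (N : ℕ) : Ful W₁ W₂ →L[ℂ] Red W₁ W₂ N :=
  (ContinuousLinearMap.id ℂ W₁).prodMap ((ContinuousLinearMap.id ℂ W₂).prodMap
    ((chP N).prodMap (chP N)))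

/-- its section -/
noncomputable def chIota (W₁ W₂ : Type) [NormedAddCommGroup W₁] [NormedSpace ℂ W₁]
    [NormedAddCommGroup W₂] [NormedSpace ℂ W₂] (N : ℕ) : Red W₁ W₂ N →L[ℂ] Ful W₁ W₂ :=
  (ContinuousLinearMap.id ℂ W₁).prodMap ((ContinuousLinearMap.id ℂ W₂).prodMap
    ((chI N).prodMap (chI N)))

omit [FiniteDimensional ℂ W₁] [FiniteDimensional ℂ W₂] in
theorem chPi_eq (N : ℕ) (e : Ful W₁ W₂) : chPi W₁ W₂ N e = hd N e := rfl

omit [FiniteDimensional ℂ W₁] [FiniteDimensional ℂ W₂] in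
theorem chPi_iota (N : ℕ) (v : Red W₁ W₂ N) : chPi W₁ W₂ N (chIota W₁ W₂ N v) = v := by
  simp [chPi, chIota, Prod.map, chPI]

/-- the fixed point map of the full system -/
noncomputable def chPhi (S₁ : Side κ W₁) (S₂ : Side κ W₂) (q : (κ → ℂ) × (ℂ × Ful W₁ W₂)) :
    Ful W₁ W₂ :=
  (q.2.2.1 + S₁.aux (q.1, P₁ q.2.1 q.2.2), q.2.2.2.1 + S₂.aux (q.1, P₂ q.2.1 q.2.2),
    S₂.out (q.1, P₂ q.2.1 q.2.2) + q.2.1 ^ S₂.M • holE 0,
    chA (S₁.out (q.1, P₁ q.2.1 q.2.2)) + holE 0)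

/-- its derivative -/
noncomputable def chD (S₁ : Side κ W₁) (S₂ : Side κ W₂) (b db : κ → ℂ) (P dP : ℂ × Ful W₁ W₂) :
    Ful W₁ W₂ :=
  (dP.2.1 + lineDeriv ℂ S₁.aux (b, P₁ P.1 P.2) (db, P₁ dP.1 dP.2),
    dP.2.2.1 + lineDeriv ℂ S₂.aux (b, P₂ P.1 P.2) (db, P₂ dP.1 dP.2),
    lineDeriv ℂ S₂.out (b, P₂ P.1 P.2) (db, P₂ dP.1 dP.2) +
      (S₂.M * P.1 ^ (S₂.M - 1) * dP.1) • holE 0,
    chA (lineDeriv ℂ S₁.out (b, P₁ P.1 P.2) (db, P₁ dP.1 dP.2)))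

/-- the common domain -/
def chO (S₁ : Side κ W₁) (S₂ : Side κ W₂) : Set (ℂ × Ful W₁ W₂) :=
  {P | P₁ P.1 P.2 ∈ S₁.U ∧ P₂ P.1 P.2 ∈ S₂.U}

omit [FiniteDimensional ℂ W₁] [FiniteDimensional ℂ W₂] [Fintype κ] [DecidableEq κ] in
theorem chart_fs {b : κ → ℂ} {τ : ℂ} {e : Ful W₁ W₂} :
    FS S₁ S₂ b τ e ↔ (τ, e) ∈ chO S₁ S₂ ∧ chPhi S₁ S₂ (b, (τ, e)) = e := by
  constructor
  · intro h
    refine ⟨⟨h.m₁, h.m₂⟩, Prod.ext ?_ (Prod.ext ?_ (Prod.ext ?_ ?_))⟩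
    · simp [chPhi, h.a₁]
    · simp [chPhi, h.a₂]
    · ext n
      rw [h.hx n]
      simp [chPhi, chart_holE]
    · ext n
      simp only [chPhi, BoundedContinuousFunction.add_apply, chA_apply, chart_holE]
      split_ifs with hn
      · simp [hn, h.y0]
      · simp [h.hy n (by omega)]
  · rintro ⟨hm, h⟩
    have h1 := congrArg (·.1) h
    have h2 := congrArg (·.2.1) h
    have h3 := fun n => congrArg (·.2.2.1 n) h
    have h4 := fun n => congrArg (·.2.2.2 n) h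
    simp only [chPhi, BoundedContinuousFunction.add_apply, chA_apply, chart_holE, add_eq_left,
      BoundedContinuousFunction.coe_smul, smul_eq_mul, mul_ite, mul_one, mul_zero] at h1 h2 h3 h4
    refine ⟨hm.1, hm.2, h1, h2, fun n => (h3 n).symm, ?_, fun n hn => ?_⟩
    · simpa using (h4 0).symm
    · have := h4 n
      rw [if_neg (by omega), if_neg (by omega), add_zero] at this
      exact this.symm

omit [FiniteDimensional ℂ W₁] [FiniteDimensional ℂ W₂] [DecidableEq κ] in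
theorem chart_ts {b db : κ → ℂ} {τ dτ : ℂ} {e de : Ful W₁ W₂}
    (h : chD S₁ S₂ b db (τ, e) (dτ, de) = de) : TS S₁ S₂ b τ e db dτ de := by
  have h1 := congrArg (·.1) h
  have h2 := congrArg (·.2.1) h
  have h3 := fun n => congrArg (·.2.2.1 n) h
  have h4 := fun n => congrArg (·.2.2.2 n) h
  simp only [chD, BoundedContinuousFunction.add_apply, chA_apply, chart_holE, add_eq_left,
    BoundedContinuousFunction.coe_smul, smul_eq_mul, mul_ite, mul_one, mul_zero] at h1 h2 h3 h4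
  refine ⟨h1, h2, fun n => (h3 n).symm, ?_, fun n hn => ?_⟩
  · simpa using (h4 0).symm
  · have := h4 n
    rw [if_neg (by omega)] at this
    exact this.symm

omit [FiniteDimensional ℂ W₁] [FiniteDimensional ℂ W₂] in
theorem chO_open {m : ℕ} (hc : Compat m S₁ S₂) : IsOpen (chO S₁ S₂) :=
  (hc.s₁.op.preimage (by fun_prop)).inter (hc.s₂.op.preimage (by fun_prop))

omit [FiniteDimensional ℂ W₁] [FiniteDimensional ℂ W₂] in
theorem chPhi_reg {m : ℕ} (hc : Compat m S₁ S₂) : Reg (chO S₁ S₂) (chPhi S₁ S₂) := by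
  have r1 : Reg (chO S₁ S₂) fun q : (κ → ℂ) × (ℂ × Ful W₁ W₂) => P₁ q.2.1 q.2.2 :=
    Reg.of_diff _ (by fun_prop)
  have r2 : Reg (chO S₁ S₂) fun q : (κ → ℂ) × (ℂ × Ful W₁ W₂) => P₂ q.2.1 q.2.2 :=
    Reg.of_diff _ (by fun_prop)
  have r0 : Reg (chO S₁ S₂) fun q : (κ → ℂ) × (ℂ × Ful W₁ W₂) => q.2 :=
    Reg.of_diff _ (by fun_prop)
  have h := r0.prodMk (((r1.comp₂ hc.s₁.rA fun _ _ _ hz => hz.1).prodMk
    (r2.comp₂ hc.s₂.rA fun _ _ _ hz => hz.2)).prodMk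
    ((r1.comp₂ hc.s₁.rO fun _ _ _ hz => hz.1).prodMk (r2.comp₂ hc.s₂.rO fun _ _ _ hz => hz.2)))
  exact h.comp (O := univ) (g := fun x : (ℂ × Ful W₁ W₂) × (W₁ × W₂) × BS × BS =>
    ((x.1.2.1 + x.2.1.1, x.1.2.2.1 + x.2.1.2, x.2.2.2 + x.1.1 ^ S₂.M • holE 0,
      chA x.2.2.1 + holE 0) : Ful W₁ W₂)) (Differentiable.differentiableOn (by fun_prop))
    fun _ _ _ _ => mem_univ _

omit [FiniteDimensional ℂ W₁] [FiniteDimensional ℂ W₂] in
theorem chPhi_curve {m : ℕ} (hc : Compat m S₁ S₂) {b db : κ → ℂ}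
    (hb : b ∈ closedBall (0 : κ → ℂ) 1) (hdb : b ∈ ball (0 : κ → ℂ) 1 ∨ db = 0)
    {γ : ℂ → ℂ × Ful W₁ W₂} {P dP : ℂ × Ful W₁ W₂} (hγ : HasDerivAt γ dP 0) (h0 : γ 0 = P)
    (hP : P ∈ chO S₁ S₂) :
    HasDerivAt (fun s : ℂ => chPhi S₁ S₂ (b + s • db, γ s)) (chD S₁ S₂ b db P dP) 0 := by
  subst h0
  have g1 := chart_fst hγ
  have g2 := chart_fst (chart_snd hγ)
  have g3 := chart_fst (chart_snd (chart_snd hγ))
  have g4 := chart_snd (chart_snd (chart_snd hγ))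
  have c1 : HasDerivAt (fun s => P₁ (γ s).1 (γ s).2) (P₁ dP.1 dP.2) 0 :=
    g1.prodMk (g2.prodMk (chart_fst g4))
  have c2 : HasDerivAt (fun s => P₂ (γ s).1 (γ s).2) (P₂ dP.1 dP.2) 0 :=
    g1.prodMk (g3.prodMk (chart_snd g4))
  refine (g2.add (hc.s₁.rA.chart_curve hc.s₁.op hb hdb c1 rfl hP.1)).prodMk
    ((g3.add (hc.s₂.rA.chart_curve hc.s₂.op hb hdb c2 rfl hP.2)).prodMk
      (((hc.s₂.rO.chart_curve hc.s₂.op hb hdb c2 rfl hP.2).add
        ((g1.pow S₂.M).smul_const (holE 0))).prodMk ?_))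
  exact (chA.hasFDerivAt.comp_hasDerivAt (0 : ℂ)
    (hc.s₁.rO.chart_curve hc.s₁.op hb hdb c1 rfl hP.1)).add_const _

omit [FiniteDimensional ℂ W₁] [FiniteDimensional ℂ W₂] in
theorem chart_wt {m : ℕ} (hc : Compat m S₁ S₂) (b db : κ → ℂ) (τ : ℂ) (e : Ful W₁ W₂) {V : Type}
    (v : V) : S₁.wt (b, P₁ τ e) db + S₂.wt (b, P₂ τ e) db =
      w1 (cL S₁ S₂) (cσ S₁ S₂) (b, (τ, v)) db := by
  have h1 : S₁.I = Finset.univ.filter fun i => ¬ i ∈ S₂.I := by ext i; simp [hc.hI]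
  have h2 : S₂.I = Finset.univ.filter fun i => i ∈ S₂.I := by ext i; simp
  rw [w1, ← Finset.sum_filter_add_sum_filter_not Finset.univ (fun i => i ∈ S₂.I), add_comm,
    ← h1, ← h2, Side.wt, Side.wt]
  congr 1
  · exact Finset.sum_congr rfl fun i hi => by simp [cL, cσ, hi]
  · exact Finset.sum_congr rfl fun i hi => by simp [cL, cσ, (hc.hI i).1 hi]

omit [FiniteDimensional ℂ W₁] [FiniteDimensional ℂ W₂] in
theorem chPhi_db {m : ℕ} (hc : Compat m S₁ S₂) : ∃ C : ℝ, 0 ≤ C ∧ ∀ b ∈ ball (0 : κ → ℂ) 1,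
    ∀ P ∈ chO S₁ S₂, ∀ db, ‖fderiv ℂ (chPhi S₁ S₂) (b, P) (db, 0)‖ ≤
      C * (S₁.wt (b, P₁ P.1 P.2) db + S₂.wt (b, P₂ P.1 P.2) db) := by
  obtain ⟨C₁, h₁⟩ := hc.s₁.dA
  obtain ⟨C₂, h₂⟩ := hc.s₂.dA
  obtain ⟨C₃, h₃⟩ := hc.s₂.dO
  obtain ⟨C₄, h₄⟩ := hc.s₁.dO
  refine ⟨|C₁| + |C₂| + |C₃| + |C₄|, by positivity, fun b hb P hP db => ?_⟩
  have hb' := ball_subset_closedBall hb
  have e1 := ((chPhi_reg hc).chart_curve (chO_open hc) hb' (Or.inl hb) (db := db)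
    (hasDerivAt_const (0 : ℂ) P) rfl hP).unique
    (chPhi_curve hc hb' (Or.inl hb) (hasDerivAt_const (0 : ℂ) P) rfl hP)
  rw [← ((chPhi_reg hc).hasLine_ball (chO_open hc) hb hP (db, 0)).2.lineDeriv, e1, chD,
    (hc.s₁.rA.hasLine_ball hc.s₁.op hb hP.1 _).2.lineDeriv,
    (hc.s₂.rA.hasLine_ball hc.s₂.op hb hP.2 _).2.lineDeriv,
    (hc.s₁.rO.hasLine_ball hc.s₁.op hb hP.1 _).2.lineDeriv,
    (hc.s₂.rO.hasLine_ball hc.s₂.op hb hP.2 _).2.lineDeriv]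
  have w₁ : 0 ≤ S₁.wt (b, P₁ P.1 P.2) db := Finset.sum_nonneg fun _ _ => by positivity
  have w₂ : 0 ≤ S₂.wt (b, P₂ P.1 P.2) db := Finset.sum_nonneg fun _ _ => by positivity
  have k₁ := (h₁ b hb _ hP.1 db).trans (mul_le_mul_of_nonneg_right (le_abs_self _) w₁)
  have k₂ := (h₂ b hb _ hP.2 db).trans (mul_le_mul_of_nonneg_right (le_abs_self _) w₂)
  have k₃ := (h₃ b hb _ hP.2 db).trans (mul_le_mul_of_nonneg_right (le_abs_self _) w₂)
  have k₄ := (chA_norm _).trans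
    ((h₄ b hb _ hP.1 db).trans (mul_le_mul_of_nonneg_right (le_abs_self _) w₁))
  simp only [Prod.fst_zero, Prod.snd_zero, zero_add, mul_zero, zero_smul, add_zero,
    Prod.norm_mk, max_le_iff]
  have a₁ := abs_nonneg C₁
  have a₂ := abs_nonneg C₂
  have a₃ := abs_nonneg C₃
  have a₄ := abs_nonneg C₄
  exact ⟨k₁.trans (mul_le_mul (by linarith) (by linarith) w₁ (by positivity)),
    k₂.trans (mul_le_mul (by linarith) (by linarith) w₂ (by positivity)),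
    k₃.trans (mul_le_mul (by linarith) (by linarith) w₂ (by positivity)),
    k₄.trans (mul_le_mul (by linarith) (by linarith) w₁ (by positivity))⟩

omit [FiniteDimensional ℂ W₁] [FiniteDimensional ℂ W₂] in
theorem chPhi_tail {m : ℕ} (hc : Compat m S₁ S₂) {ε : ℝ} (hε : 0 < ε) : ∃ N : ℕ,
    ∀ b ∈ closedBall (0 : κ → ℂ) 1, ∀ P ∈ chO S₁ S₂, ‖chPhi S₁ S₂ (b, P) -
      chIota W₁ W₂ N (chPi W₁ W₂ N (chPhi S₁ S₂ (b, P)))‖ ≤ ε := by
  obtain ⟨C₁, θ₁, p₁, q₁, h₁⟩ := hc.s₁.dec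
  obtain ⟨C₂, θ₂, p₂, q₂, h₂⟩ := hc.s₂.dec
  have t₁ : Tendsto (fun N : ℕ => |C₁| * θ₁ ^ N) atTop (𝓝 0) := by
    simpa using (tendsto_pow_atTop_nhds_zero_of_lt_one p₁ q₁).const_mul |C₁|
  have t₂ : Tendsto (fun N : ℕ => |C₂| * θ₂ ^ N) atTop (𝓝 0) := by
    simpa using (tendsto_pow_atTop_nhds_zero_of_lt_one p₂ q₂).const_mul |C₂|
  obtain ⟨N, n₁, n₂, hN⟩ := ((t₁.eventually (ge_mem_nhds hε)).and
    ((t₂.eventually (ge_mem_nhds hε)).and (eventually_ge_atTop 1))).exists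
  refine ⟨N, fun b hb P hP => ?_⟩
  have k₁ := chart_tail (u := (chPhi S₁ S₂ (b, P)).2.2.2) p₁ q₁.le (abs_nonneg C₁)
    (fun n hn => by
      simp only [chPhi, BoundedContinuousFunction.add_apply, chA_apply, chart_holE]
      rw [if_neg (by omega), if_neg (by omega), add_zero]
      exact (h₁ b hb _ hP.1 n).trans
        (mul_le_mul_of_nonneg_right (le_abs_self _) (by positivity))) hN
  have k₂ := chart_tail (u := (chPhi S₁ S₂ (b, P)).2.2.1) p₂ q₂.le (abs_nonneg C₂)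
    (fun n hn => by
      simp only [chPhi, BoundedContinuousFunction.add_apply, chart_holE,
        BoundedContinuousFunction.coe_smul]
      rw [if_neg (by omega), smul_zero, add_zero]
      exact (h₂ b hb _ hP.2 n).trans
        (mul_le_mul_of_nonneg_right (le_abs_self _) (by positivity))) hN
  generalize chPhi S₁ S₂ (b, P) = e at k₁ k₂
  have : e - chIota W₁ W₂ N (chPi W₁ W₂ N e) =
      (0, 0, e.2.2.1 - chI N (chP N e.2.2.1), e.2.2.2 - chI N (chP N e.2.2.2)) :=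
    Prod.ext (sub_self _) (Prod.ext (sub_self _) rfl)
  rw [this]
  simp only [Prod.norm_mk, norm_zero, max_le_iff]
  exact ⟨hε.le, hε.le, k₂.trans n₂, k₁.trans n₁⟩

theorem chart {m : ℕ} (hc : Compat m S₁ S₂) {τ₀ : ℂ} {e₀ : Ful W₁ W₂} (h : FS S₁ S₂ 1 τ₀ e₀) :
    ∃ N U T H, IsChart S₁ S₂ τ₀ e₀ N U T H ∧ DB U (w1 (cL S₁ S₂) (cσ S₁ S₂)) T ∧
      DB U (w1 (cL S₁ S₂) (cσ S₁ S₂)) H ∧
      ∀ b ∈ closedBall (0 : κ → ℂ) 1, ∀ z ∈ U, P₁ z.1 (T (b, z)) ∈ S₁.U ∧ P₂ z.1 (T (b, z)) ∈ S₂.U := by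
  have := FiniteDimensional.complete ℂ W₁
  have := FiniteDimensional.complete ℂ W₂
  obtain ⟨hO, hfix⟩ := chart_fs.1 h
  have oO := chO_open hc
  have rΦ := chPhi_reg hc
  obtain ⟨M, hM⟩ := rΦ.chart_bdd oO hO
  obtain ⟨r, hr, hrO⟩ := Metric.eventually_nhds_iff_ball.1 (hM.and (oO.mem_nhds hO))
  obtain ⟨N, hN⟩ := chPhi_tail hc (show 0 < r / 16 by positivity)
  have h1 : (1 : κ → ℂ) ∈ closedBall (0 : κ → ℂ) 1 := by
    rw [mem_closedBall_zero_iff, pi_norm_le_iff_of_nonneg zero_le_one]; simp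
  set π := chPi W₁ W₂ N with hπ
  set ι := chIota W₁ W₂ N with hι
  set Φ := chPhi S₁ S₂ with hΦ
  obtain ⟨T, rT, hT⟩ := ls π ι (chPi_iota N) hr (rΦ.mono fun P hP => (hrO P hP).2)
    (fun b hb P hP => hN b hb P (hrO P hP).2) (by simpa only [hfix] using hN 1 h1 _ hO)
  set U : Set (ℂ × Red W₁ W₂ N) := {z | ‖z.1 - τ₀‖ < r / 4 ∧ ‖ι (z.2 - π e₀)‖ < r / 8} with hU
  have oU : IsOpen U := by
    rw [hU, Set.ofPred_and]
    refine IsOpen.inter ?_ ?_ <;> exact isOpen_lt (by fun_prop) continuous_const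
  have half : ∀ b ∈ closedBall (0 : κ → ℂ) 1, ∀ z ∈ U,
      (z.1, T (b, z)) ∈ ball (τ₀, e₀) (r / 2) := fun b hb z hz => by
    rw [← ball_prod_same]
    exact ⟨mem_ball_iff_norm.2 (by linarith [hz.1]), (hT b hb z hz.1 hz.2).1⟩
  have mem : ∀ b ∈ closedBall (0 : κ → ℂ) 1, ∀ z ∈ U, (z.1, T (b, z)) ∈ chO S₁ S₂ :=
    fun b hb z hz => (hrO _ (ball_subset_ball (by linarith) (half b hb z hz))).2
  have r1 : Reg U fun q : (κ → ℂ) × (ℂ × Red W₁ W₂ N) => (q.2.1, T q) :=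
    (Reg.of_diff U (by fun_prop)).prodMk rT
  have r2 := r1.comp₂ rΦ mem
  let H : (κ → ℂ) × (ℂ × Red W₁ W₂ N) → Red W₁ W₂ N := fun q => π (Φ (q.1, (q.2.1, T q))) - q.2.2
  have rH : Reg U H :=
    (r2.prodMk (Reg.of_diff U (f := fun q => q.2.2) (by fun_prop))).comp (O := univ)
      (g := fun x : Ful W₁ W₂ × Red W₁ W₂ N => π x.1 - x.2)
      (Differentiable.differentiableOn (by fun_prop)) fun _ _ _ _ => mem_univ _
  have m0 : (τ₀, π e₀) ∈ U := ⟨by simpa using by positivity, by simpa using by positivity⟩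
  have uq : ∀ P : ℂ × Ful W₁ W₂, (P.1, π P.2) ∈ U → P.2 ∈ ball e₀ (r / 2) →
      ∀ b ∈ closedBall (0 : κ → ℂ) 1, FS S₁ S₂ b P.1 P.2 →
        T (b, (P.1, π P.2)) = P.2 ∧ H (b, (P.1, π P.2)) = 0 := by
    intro P hP hP' b hb hf
    have e1 : Φ (b, (P.1, P.2)) = P.2 := (chart_fs.1 hf).2
    have e2 := ((hT b hb _ hP.1 hP.2).2.2.2.1 P.2 hP' (by dsimp only; rw [e1]; simp)).symm
    refine ⟨e2, ?_⟩
    simp only [H]
    rw [e2, e1, sub_self]
  obtain ⟨C, hC, hDB⟩ := chPhi_db hc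
  have dT : ∀ b ∈ ball (0 : κ → ℂ) 1, ∀ z ∈ U, ∀ db, ‖fderiv ℂ T (b, z) (db, 0)‖ ≤
      2 * ((1 + ‖ι‖ * ‖π‖) * C) * w1 (cL S₁ S₂) (cσ S₁ S₂) (b, z) db := by
    intro b hb z hz db
    have hb' := ball_subset_closedBall hb
    have e1 := hDB b hb _ (mem b hb' z hz) db
    rw [chart_wt hc b db z.1 _ z.2] at e1
    refine ((hT b hb' z hz.1 hz.2).2.2.2.2.2 hb db).trans ?_
    generalize fderiv ℂ Φ (b, (z.1, T (b, z))) (db, 0) = x at e1 ⊢
    have e2 : ‖ι (π x)‖ ≤ ‖ι‖ * (‖π‖ * ‖x‖) :=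
      (ι.le_opNorm _).trans (mul_le_mul_of_nonneg_left (π.le_opNorm _) (norm_nonneg _))
    have e3 := norm_sub_le x (ι (π x))
    have e4 := mul_le_mul_of_nonneg_left e1 (show 0 ≤ 1 + ‖ι‖ * ‖π‖ by positivity)
    show _ ≤ _ * w1 (cL S₁ S₂) (cσ S₁ S₂) (b, (z.1, z.2)) db
    nlinarith
  refine ⟨N, U, T, H, ⟨oU, m0, rT, rH, (uq (τ₀, e₀) m0 (mem_ball_self (by positivity)) 1 h1 h).1,
    fun b hb z hz => (hT b hb z hz.1 hz.2).2.1, fun b hb z hz h0 => ?_, ?_, ?_⟩, ⟨_, dT⟩, ?_,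
    mem⟩
  · refine chart_fs.2 ⟨mem b hb z hz, ?_⟩
    have e1 := (hT b hb z hz.1 hz.2).2.2.1
    rw [show π (Φ (b, (z.1, T (b, z)))) = z.2 from sub_eq_zero.1 h0, add_sub_cancel] at e1
    exact e1.symm
  · have c1 : Continuous fun P : ℂ × Ful W₁ W₂ => (P.1, π P.2) := by fun_prop
    filter_upwards [c1.continuousAt.eventually (oU.mem_nhds (x := ((τ₀, e₀).1, π (τ₀, e₀).2)) m0),
      continuous_snd.continuousAt.eventually
        (ball_mem_nhds (τ₀, e₀).2 (show 0 < r / 2 by positivity))] with P hP hP'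
    exact ⟨hP, uq P hP hP'⟩
  · intro b hb z hz h0 db dz hdb hH
    have l1 : HasDerivAt (fun s : ℂ => z + s • dz) dz 0 := by
      simpa using ((hasDerivAt_id (0 : ℂ)).smul_const dz).const_add z
    have l0 : z + (0 : ℂ) • dz = z := by simp
    have g := rT.chart_curve oU hb hdb l1 l0 hz
    have gH := rH.chart_curve oU hb hdb l1 l0 hz
    rw [hH] at gH
    set dT := lineDeriv ℂ T (b, z) (db, dz) with hdT
    have gΦ := chPhi_curve hc hb hdb ((chart_fst l1).prodMk g) (P := (z.1, T (b, z))) (by simp)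
      (mem b hb z hz)
    set dΦ := chD S₁ S₂ b db (z.1, T (b, z)) (dz.1, dT) with hdΦ
    have ev : ∀ᶠ s in 𝓝 (0 : ℂ), b + s • db ∈ closedBall (0 : κ → ℂ) 1 ∧ z + s • dz ∈ U := by
      refine Eventually.and ?_ (l1.continuousAt.eventually (oU.mem_nhds (by simpa using hz)))
      rcases hdb with hb' | rfl
      · have c1 : Continuous fun s : ℂ => b + s • db := by fun_prop
        filter_upwards [c1.continuousAt.eventually (isOpen_ball.mem_nhds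
          (show b + (0 : ℂ) • db ∈ ball 0 1 by rwa [zero_smul, add_zero]))]
          with s hs using ball_subset_closedBall hs
      · simpa using hb
    have p1 := π.hasFDerivAt.comp_hasDerivAt (0 : ℂ) gΦ
    have e1 : π dΦ - dz.2 = 0 := (p1.sub (chart_snd l1)).unique gH
    have e2 : π dT = dz.2 := by
      refine (π.hasFDerivAt.comp_hasDerivAt (0 : ℂ) g).unique ((chart_snd l1).congr_of_eventuallyEq ?_)
      filter_upwards [ev] with s hs using (hT _ hs.1 _ hs.2.1 hs.2.2).2.1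
    have e3 : ι dz.2 + (dΦ - ι (π dΦ)) = dT := by
      refine HasDerivAt.unique ?_ g
      refine ((ι.hasFDerivAt.comp_hasDerivAt (0 : ℂ) (chart_snd l1)).add
        (gΦ.sub (ι.hasFDerivAt.comp_hasDerivAt (0 : ℂ) p1))).congr_of_eventuallyEq ?_
      filter_upwards [ev] with s hs using (hT _ hs.1 _ hs.2.1 hs.2.2).2.2.1
    rw [sub_eq_zero.1 e1, add_sub_cancel] at e3
    exact ⟨e2, chart_ts e3⟩
  · refine ⟨‖π‖ * (C + |M| / (r / 2) * (2 * ((1 + ‖ι‖ * ‖π‖) * C))), fun b hb z hz db => ?_⟩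
    have hb' := ball_subset_closedBall hb
    have hP := mem b hb' z hz
    have g := rT.chart_curve oU hb' (Or.inl hb) (db := db) (hasDerivAt_const (0 : ℂ) z) rfl hz
    have gH := rH.chart_curve oU hb' (Or.inl hb) (db := db) (hasDerivAt_const (0 : ℂ) z) rfl hz
    have gΦ := rΦ.chart_curve oO hb' (Or.inl hb) (db := db)
      ((hasDerivAt_const (0 : ℂ) z.1).prodMk g) (z := (z.1, T (b, z))) (by simp) hP
    rw [(rT.hasLine_ball oU hb hz _).2.lineDeriv] at g gΦ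
    rw [(rH.hasLine_ball oU hb hz _).2.lineDeriv] at gH
    rw [(rΦ.hasLine_ball oO hb hP _).2.lineDeriv] at gΦ
    have e1 := gH.unique ((π.hasFDerivAt.comp_hasDerivAt (0 : ℂ) gΦ).sub_const z.2)
    have e2 := hDB b hb _ hP db
    rw [chart_wt hc b db z.1 _ z.2] at e2
    have e3 := dT b hb z hz db
    generalize fderiv ℂ T (b, z) (db, 0) = x at e1 e3
    have sub : ball (z.1, T (b, z)) (r / 2) ⊆ ball (τ₀, e₀) r := by
      have := hol_ball (half b hb' z hz)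
      rwa [mul_div_cancel₀ _ two_ne_zero] at this
    have e4 := cauchy_fderiv (show 0 < r / 2 by positivity)
      ((rΦ.frz b hb').mono fun P hP => (hrO P (sub hP)).2)
      fun P hP => ((hrO P (sub hP)).1 b hb').trans (le_abs_self M)
    rw [hol_frz_eq (q := (b, (z.1, T (b, z)))) (rΦ.hasLine_ball oO hb hP 0).1.differentiableAt]
      at e4
    have e5 := (ContinuousLinearMap.le_opNorm _ ((0 : ℂ), x)).trans
      (mul_le_mul e4 (show ‖((0 : ℂ), x)‖ ≤ _ by simpa using e3) (norm_nonneg _) (by positivity))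
    have e6 : ((db, ((0 : ℂ), x)) : (κ → ℂ) × (ℂ × Ful W₁ W₂)) = (db, 0) + (0, (0, x)) := by simp
    rw [e1, e6, map_add, mul_assoc]
    refine (π.le_opNorm _).trans (mul_le_mul_of_nonneg_left ((norm_add_le _ _).trans ?_)
      (norm_nonneg _))
    rw [add_mul, mul_assoc]
    exact add_le_add e2 e5

theorem IsChart.mono {τ₀ : ℂ} {e₀ : Ful W₁ W₂} {N U T H} (h : IsChart S₁ S₂ τ₀ e₀ N U T H)
    {U' : Set (ℂ × Red W₁ W₂ N)} (ho : IsOpen U') (hm : (τ₀, hd N e₀) ∈ U') (hU : U' ⊆ U) :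
    IsChart S₁ S₂ τ₀ e₀ N U' T H := by
  refine ⟨ho, hm, h.rT.mono hU, h.rH.mono hU, h.base, fun b hb z hz => h.head b hb z (hU hz),
    fun b hb z hz => h.sol b hb z (hU hz), ?_, fun b hb z hz => h.tan b hb z (hU hz)⟩
  have c1 : Continuous fun P : ℂ × Ful W₁ W₂ => (P.1, chPi W₁ W₂ N P.2) := by fun_prop
  filter_upwards [h.uniq, c1.continuousAt.eventually
    (ho.mem_nhds (x := ((τ₀, e₀).1, chPi W₁ W₂ N (τ₀, e₀).2)) hm)] with P h1 h2
  exact ⟨h2, h1.2⟩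

theorem de_zero {m : ℕ} (hc : Compat m S₁ S₂) {b : κ → ℂ} (hb : b ∈ closedBall (0 : κ → ℂ) 1)
    {τ : ℂ} {e de : Ful W₁ W₂} (h : FS S₁ S₂ b τ e) (ht : TS S₁ S₂ b τ e 0 0 de)
    (hX : de.2.2.1 = 0) (hY : de.2.2.2 = 0) : de = 0 := by
  obtain ⟨d₁, d₂, dX, dY⟩ := de
  dsimp only at hX hY
  subst hX hY
  have e1 := hc.s₁.inj b hb _ h.m₁ d₁ h.a₁ ht.a₁ fun n hn => (ht.hy n hn).symm
  have e2 := hc.s₂.inj b hb _ h.m₂ d₂ h.a₂ ht.a₂ fun n hn => by
    have := (ht.hx n).symm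
    rwa [if_neg (by omega), add_zero] at this
  rw [e1, e2]
  rfl

end Pool.Agent.MP_098ecc_co.H97
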