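import Pool.Agent.MP_098ecc_co.H97.Chart
import Pool.Agent.MP_098ecc_co.H97.Asm

set_option autoImplicit false
set_option linter.unusedSectionVars false

namespace Pool.Agent.MP_098ecc_co.H97

open Metric Filter Topology Set Function
open scoped BoundedContinuousFunction

section Gen
variable {B Z E F : Type} [NormedAddCommGroup B] [NormedSpace ℂ B] [NormedAddCommGroup Z]
  [NormedSpace ℂ Z] [NormedAddCommGroup E] [NormedSpace ℂ E] [NormedAddCommGroup F]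
  [NormedSpace ℂ F]

theorem chartM_mono {U U' : Set Z} {w : B × Z → B → ℝ} {f : B × Z → F} (h : DB U w f)
    (hU : U' ⊆ U) : DB U' w f := by
  obtain ⟨C, hC⟩ := h
  exact ⟨C, fun b hb z hz => hC b hb z (hU hz)⟩

theorem chartM_db [ProperSpace B] [CompleteSpace F] {U : Set Z} (hU : IsOpen U) {T : B × Z → E}
    (rT : Reg U T) {w : B × Z → B → ℝ} (dT : DB U w T) {O : Set E} (hO : IsOpen O) {g : E → F}
    (hg : DifferentiableOn ℂ g O) (hm : ∀ b ∈ closedBall (0 : B) 1, ∀ z ∈ U, T (b, z) ∈ O)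
    {z₀ : Z} (hz : z₀ ∈ U) : ∃ V ∈ 𝓝 z₀, DB V w fun q => g (T q) := by
  obtain ⟨M, hM⟩ := (rT.comp (hol_fderiv hO hg) hm).chart_bdd hU hz
  obtain ⟨C, hC⟩ := dT
  refine ⟨_, hM.and (hU.mem_nhds hz), M * C, fun b hb z hz db => ?_⟩
  have hb' := ball_subset_closedBall hb
  have h1 := (hg.differentiableAt (hO.mem_nhds (hm b hb' z hz.2))).hasFDerivAt.comp (b, z)
    (rT.hasLine_ball hU hb hz.2 0).1
  have h2 := hz.1 b hb'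
  rw [show (fun q => g (T q)) = g ∘ T from rfl, h1.fderiv, ContinuousLinearMap.comp_apply,
    mul_assoc]
  exact (ContinuousLinearMap.le_opNorm _ _).trans
    (mul_le_mul h2 (hC b hb z hz.2 db) (norm_nonneg _) ((norm_nonneg _).trans h2))

end Gen

theorem chartM_un {R : ℝ} {u v : BS} {c : ℂ} (h0 : u 0 = v 0 + c) (h : ∀ n, 1 ≤ n → u n = v n) :
    un R v + Pi.single 0 c = un R u := by
  funext n
  rcases Nat.eq_zero_or_pos n with rfl | hn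
  · simp [un, h0]
  · simp [un, h n hn, hn.ne']

theorem chartM_ser0 (f : ℕ → ℂ) : ser f 0 = f 0 := by
  rw [ser, tsum_eq_single 0 fun n hn => by simp [hn]]
  simp

section Side
variable {κ W : Type} [Fintype κ] [DecidableEq κ] [NormedAddCommGroup W] [NormedSpace ℂ W]
  {S : Side κ W}

/-- adding constants to the output changes only the coefficient zero -/
theorem chartM_side {m : ℕ} (hs : IsSide m S) {b db : κ → ℂ} (hb : b ∈ closedBall (0 : κ → ℂ) 1)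
    (hdb : b ∈ ball (0 : κ → ℂ) 1 ∨ db = 0) {P dP : ℂ × W × BS} (hP : P ∈ S.U)
    (h1 : S.aux (b, P) = 0) (h2 : lineDeriv ℂ S.aux (b, P) (db, dP) = 0) {ϖ : ℂ}
    (h3 : dP.1 = ϖ * P.1) {r : ℝ} (r1 : S.Rout⁻¹ < r) (r2 : r < S.Rin) (c₀ dc₀ : ℂ) (n : ℤ)
    (hn : n < 0 ∨ n = 0 ∧ dc₀ = S.M * ϖ * c₀ ∧ dP.2.2 0 = 0 ∧ S.k = 0) :
    lc r (fun z => S.form m (b, P) (db, dP) ϖ c₀ dc₀ z -
      (∑ i ∈ S.I, S.βf P * S.E i (b, P) * db i) * Kk (S.c P) z) n = 0 := by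
  obtain ⟨hin, hout, -⟩ := hs.rad
  have hr : 0 < r := (inv_pos.2 hout).trans r1
  have e3 := hs.sl b hb P hP db dP hdb h1 h2 ϖ h3 r r1 r2 n (by omega)
  have bf := bnd_un S.Rin hin P.2.2
  have bd := bnd_un S.Rin hin dP.2.2
  have b1 := bnd_un S.Rout hout (S.out (b, P))
  have b2 := bnd_un S.Rout hout (lineDeriv ℂ S.out (b, P) (db, dP))
  simp only [Side.form, Pi.single_zero, add_zero] at e3
  simp only [Side.form]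
  generalize (∑ i ∈ S.I, S.βf P * S.E i (b, P) * db i) = s at e3 ⊢
  have hE : DifferentiableOn ℂ (fun z => (dc₀ - S.M * ϖ * c₀) *
      ser (flat m (un S.Rin P.2.2)) z - c₀ * ser (un S.Rin dP.2.2) z +
      S.k * ϖ * c₀ * ser (un S.Rin P.2.2) z) (ball 0 S.Rin) :=
    (((slb_flat_diff bf m).const_mul _).fun_sub (bd.diff.const_mul _)).fun_add
      (bf.diff.const_mul _)
  have s1 : sphere (0 : ℂ) r ⊆ Ann S.Rout⁻¹ S.Rin := laur_sph ⟨r1, r2⟩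
  have c1 := ((II_diff (m := m) hout bf bd b1 b2 (S.M * ϖ) (S.k * ϖ)).fun_sub
    ((asm_Kk_diff (hs.cin P hP)).const_mul s)).continuousOn.mono s1
  have key := lc_add hr c1 (hE.continuousOn.mono (sphere_subset_ball r2)) n
  rw [e3, zero_add] at key
  refine Eq.trans (lc_congr hr (fun z hz => ?_) n) (key.trans ?_)
  · have hz' : z ∈ Ann S.Rout⁻¹ S.Rin := s1 (mem_sphere_zero_iff_norm.2 hz)
    rw [II_const bf b1 b2 _ _ _ _ hz'.2 (mem_ball_zero_iff.1 (slb_inv hout hz'))]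
    ring
  · rcases hn with hn | ⟨rfl, e1, e2, e4⟩
    · exact (lc_inner hr r2 hE).2 n hn
    · rw [(lc_inner hr r2 hE).1, e1, e4, chartM_ser0 (un S.Rin dP.2.2), un, e2]
      simp

theorem chartM_E (S : Side κ W) (i : κ) {b : κ → ℂ} (hb : b ∈ ball (0 : κ → ℂ) 1)
    (P : ℂ × W × BS) : DifferentiableAt ℂ (S.E i) (b, P) := by
  have h1 : b i ∈ ball (0 : ℂ) 1 :=
    mem_ball_zero_iff.2 ((norm_le_pi_norm b i).trans_lt (mem_ball_zero_iff.1 hb))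
  have h2 : DifferentiableAt ℂ (fun q : (κ → ℂ) × (ℂ × W × BS) => Jf S.L (q.1 i)) (b, P) :=
    DifferentiableAt.comp (f := fun q : (κ → ℂ) × (ℂ × W × BS) => q.1 i) (b, P)
      ((Jf_diff S.L).differentiableAt (isOpen_ball.mem_nhds h1)) (by fun_prop)
  exact DifferentiableAt.fun_sub (by fun_prop) (DifferentiableAt.fun_mul (by fun_prop) h2)

end Side

variable {κ W₁ W₂ : Type} [Fintype κ] [DecidableEq κ] [NormedAddCommGroup W₁] [NormedSpace ℂ W₁]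
  [FiniteDimensional ℂ W₁] [NormedAddCommGroup W₂] [NormedSpace ℂ W₂] [FiniteDimensional ℂ W₂]
  {S₁ : Side κ W₁} {S₂ : Side κ W₂}

theorem chartM_form₂ {m : ℕ} (hc : Compat m S₁ S₂) {b db : κ → ℂ} {τ dτ : ℂ} {e de : Ful W₁ W₂}
    (h : FS S₁ S₂ b τ e) (ht : TS S₁ S₂ b τ e db dτ de) (ϖ : ℂ) :
    S₂.form m (b, P₂ τ e) (db, P₂ dτ de) ϖ (τ ^ S₂.M) (S₂.M * τ ^ (S₂.M - 1) * dτ) =
      II m (un S₂.Rin e.2.2.2) (un S₂.Rin de.2.2.2) (un S₁.Rin e.2.2.1) (un S₁.Rin de.2.2.1)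
        (S₁.M * ϖ + S₁.k * ϖ) 0 := by
  rw [Side.form, chartM_un (u := e.2.2.1) (by simpa using h.hx 0)
    (fun n hn => by simpa [show n ≠ 0 by omega] using h.hx n),
    chartM_un (u := de.2.2.1) (by simpa using ht.hx 0)
    (fun n hn => by simpa [show n ≠ 0 by omega] using ht.hx n), hc.k₂, hc.M₂, hc.r₁]
  push_cast
  rw [zero_mul, add_mul]

theorem chartM_form₁ {m : ℕ} (hc : Compat m S₁ S₂) {b db : κ → ℂ} {τ dτ : ℂ} {e de : Ful W₁ W₂}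
    (h : FS S₁ S₂ b τ e) (ht : TS S₁ S₂ b τ e db dτ de) (ϖ : ℂ) :
    S₁.form m (b, P₁ τ e) (db, P₁ dτ de) ϖ (1 - S₁.out (b, P₁ τ e) 0)
        (-lineDeriv ℂ S₁.out (b, P₁ τ e) (db, P₁ dτ de) 0) =
      II m (un S₁.Rin e.2.2.1) (un S₁.Rin de.2.2.1) (un S₂.Rin e.2.2.2) (un S₂.Rin de.2.2.2)
        (S₁.M * ϖ) (S₁.k * ϖ) := by
  rw [Side.form, chartM_un (u := e.2.2.2) (by rw [h.y0]; ring) h.hy,
    chartM_un (u := de.2.2.2) (by rw [ht.y0]; ring) ht.hy, hc.r₂]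

theorem chartM_rad {m : ℕ} (hc : Compat m S₁ S₂) {r : ℝ} (h1 : S₁.Rin⁻¹ < r) (h2 : r < S₂.Rin) :
    (S₂.Rout⁻¹ < r ∧ S₁.Rout⁻¹ < r⁻¹) ∧ r⁻¹ < S₁.Rin := by
  have ha := hc.s₁.rad.1
  refine ⟨⟨hc.r₁ ▸ h1, ?_⟩, inv_lt_of_inv_lt₀ ha h1⟩
  rw [hc.r₂]
  exact inv_strictAnti₀ ((inv_pos.2 ha).trans h1) h2

theorem chartM_ex {m : ℕ} (hc : Compat m S₁ S₂) : ∃ r : ℝ, S₁.Rin⁻¹ < r ∧ r < S₂.Rin :=
  exists_between (hc.r₁ ▸ hc.s₂.rad.2.2)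

/-- the two hypotheses of `asm` for a tangent vector -/
theorem ts_asm {m : ℕ} (hc : Compat m S₁ S₂) {b db : κ → ℂ} (hb : b ∈ closedBall (0 : κ → ℂ) 1)
    (hdb : b ∈ ball (0 : κ → ℂ) 1 ∨ db = 0) {τ ϖ : ℂ} {e de : Ful W₁ W₂} (h : FS S₁ S₂ b τ e)
    (ht : TS S₁ S₂ b τ e db (ϖ * τ) de) {r : ℝ} (h1 : S₁.Rin⁻¹ < r) (h2 : r < S₂.Rin) :
    (∀ n : ℤ, n ≤ 0 → lc r (fun z => II m (un S₂.Rin e.2.2.2) (un S₂.Rin de.2.2.2)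
      (un S₁.Rin e.2.2.1) (un S₁.Rin de.2.2.1) (S₁.M * ϖ + S₁.k * ϖ) 0 z -
      (∑ i ∈ S₂.I, S₂.βf (P₂ τ e) * S₂.E i (b, P₂ τ e) * db i) * Kk (S₂.c (P₂ τ e)) z) n = 0) ∧
    ∀ n : ℤ, n < 0 → lc r⁻¹ (fun z => II m (un S₁.Rin e.2.2.1) (un S₁.Rin de.2.2.1)
      (un S₂.Rin e.2.2.2) (un S₂.Rin de.2.2.2) (S₁.M * ϖ) (S₁.k * ϖ) z -
      (∑ i ∈ S₁.I, S₁.βf (P₁ τ e) * S₁.E i (b, P₁ τ e) * db i) * Kk (S₁.c (P₁ τ e)) z) n = 0 := by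
  obtain ⟨⟨k1, k2⟩, k3⟩ := chartM_rad hc h1 h2
  refine ⟨fun n hn => ?_, fun n hn => ?_⟩
  · rw [← chartM_form₂ hc h ht]
    refine chartM_side hc.s₂ hb hdb h.m₂ h.a₂ ht.a₂ rfl k1 h2 _ _ n
      (hn.lt_or_eq.imp_right fun hn => ⟨hn, ?_, ht.y0, hc.k₂⟩)
    obtain ⟨k, hk⟩ : ∃ k, S₂.M = k + 1 := ⟨S₂.M - 1, by have := hc.M₁; have := hc.M₂; omega⟩
    rw [hk, Nat.add_sub_cancel]
    ring
  · rw [← chartM_form₁ hc h ht]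
    exact chartM_side hc.s₁ hb hdb h.m₁ h.a₁ ht.a₁ rfl k2 k3 _ _ n (Or.inl hn)

theorem chartM_c {m : ℕ} (hc : Compat m S₁ S₂) {P : ℂ × Ful W₁ W₂} (hP : P ∈ chO S₁ S₂) :
    ‖S₁.c (P₁ P.1 P.2)‖ < S₂.Rin⁻¹ ∧ ‖S₂.c (P₂ P.1 P.2)‖ < S₁.Rin⁻¹ :=
  ⟨hc.r₂ ▸ hc.s₁.cin _ hP.1, hc.r₁ ▸ hc.s₂.cin _ hP.2⟩

/-- the two pairings with the double pole kernels -/
noncomputable def chartM_z₁ (S₁ : Side κ W₁) (S₂ : Side κ W₂) (r : ℝ) (P : ℂ × Ful W₁ W₂) : ℂ :=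
  zv r⁻¹ (un S₁.Rin P.2.2.2.1) (un S₂.Rin P.2.2.2.2) (S₁.c (P₁ P.1 P.2))

noncomputable def chartM_z₂ (S₁ : Side κ W₁) (S₂ : Side κ W₂) (r : ℝ) (P : ℂ × Ful W₁ W₂) : ℂ :=
  zv r (un S₂.Rin P.2.2.2.2) (un S₁.Rin P.2.2.2.1) (S₂.c (P₂ P.1 P.2))

/-- first variational identity -/
theorem chartM_one {m : ℕ} (hc : Compat m S₁ S₂) {b db : κ → ℂ}
    (hb : b ∈ closedBall (0 : κ → ℂ) 1) (hdb : b ∈ ball (0 : κ → ℂ) 1 ∨ db = 0) {τ : ℂ}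
    {e de : Ful W₁ W₂} (h : FS S₁ S₂ b τ e) (ht : TS S₁ S₂ b τ e db 0 de) {r : ℝ}
    (h1 : S₁.Rin⁻¹ < r) (h2 : r < S₂.Rin) :
    lc r (fun z => ser (un S₂.Rin e.2.2.2) z * ser (un S₁.Rin e.2.2.1) z⁻¹ *
      Om m (un S₂.Rin e.2.2.2) (un S₂.Rin de.2.2.2) (un S₁.Rin e.2.2.1) (un S₁.Rin de.2.2.1) z) 0 =
      (∑ i ∈ S₁.I, S₁.βf (P₁ τ e) * S₁.E i (b, P₁ τ e) * db i) * chartM_z₁ S₁ S₂ r (τ, e) +
      (∑ i ∈ S₂.I, S₂.βf (P₂ τ e) * S₂.E i (b, P₂ τ e) * db i) * chartM_z₂ S₁ S₂ r (τ, e) ∧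
    (db = 0 → ∀ z ∈ Ann S₁.Rin⁻¹ S₂.Rin, Om m (un S₂.Rin e.2.2.2) (un S₂.Rin de.2.2.2)
      (un S₁.Rin e.2.2.1) (un S₁.Rin de.2.2.1) z = 0) := by
  have ha := hc.s₁.rad.1
  have hb' := hc.s₂.rad.1
  obtain ⟨H₂, H₁⟩ := ts_asm (ϖ := 0) hc hb hdb h (by rwa [zero_mul]) h1 h2
  obtain ⟨c1, c2⟩ := chartM_c hc (P := (τ, e)) ⟨h.m₁, h.m₂⟩
  obtain ⟨k1, k2⟩ := (asm ha h1 h2 (bnd_un _ ha _) (bnd_un _ ha _) (bnd_un _ hb' _)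
    (bnd_un _ hb' _) c1 c2 H₂ H₁).1 (mul_zero _) (mul_zero _)
  exact ⟨k1, fun e0 => k2 (by simp [e0]) (by simp [e0])⟩

theorem om_zero {m : ℕ} (hc : Compat m S₁ S₂) {b : κ → ℂ} (hb : b ∈ closedBall (0 : κ → ℂ) 1)
    {τ : ℂ} {e de : Ful W₁ W₂} (h : FS S₁ S₂ b τ e) (ht : TS S₁ S₂ b τ e 0 0 de) :
    ∀ z ∈ Ann S₁.Rin⁻¹ S₂.Rin, Om m (un S₂.Rin e.2.2.2) (un S₂.Rin de.2.2.2)
      (un S₁.Rin e.2.2.1) (un S₁.Rin de.2.2.1) z = 0 := by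
  obtain ⟨r, h1, h2⟩ := chartM_ex hc
  exact (chartM_one hc hb (Or.inr rfl) h ht h1 h2).2 rfl

/-- second variational identity -/
theorem chartM_two {m : ℕ} (hc : Compat m S₁ S₂) {b db : κ → ℂ}
    (hb : b ∈ closedBall (0 : κ → ℂ) 1)
    (hdb : b ∈ ball (0 : κ → ℂ) 1 ∨ db = 0 ∧ ∀ i, Sparse (cL S₁ S₂ i)) {τ ϖ : ℂ}
    {e de : Ful W₁ W₂} (h : FS S₁ S₂ b τ e) (ht : TS S₁ S₂ b τ e db (ϖ * τ) de) {r : ℝ}
    (h1 : S₁.Rin⁻¹ < r) (h2 : r < S₂.Rin) (E₁ : ∀ i ∈ S₁.I, S₁.E i (b, P₁ τ e) = 0)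
    (E₂ : ∀ i ∈ S₂.I, S₂.E i (b, P₂ τ e) = 0) (i : κ) (hi : db i = 0) :
    (i ∈ S₁.I → S₁.vf (P₁ τ e) * lineDeriv ℂ (S₁.E i) (b, P₁ τ e) (db, P₁ (ϖ * τ) de) =
      -(S₁.M * ϖ) * m * chartM_z₁ S₁ S₂ r (τ, e)) ∧
    (i ∈ S₂.I → S₂.vf (P₂ τ e) * lineDeriv ℂ (S₂.E i) (b, P₂ τ e) (db, P₂ (ϖ * τ) de) =
      -(S₁.M * ϖ) * m * chartM_z₂ S₁ S₂ r (τ, e)) := by
  have ha := hc.s₁.rad.1
  have hb' := hc.s₂.rad.1
  obtain ⟨⟨k1, k2⟩, k3⟩ := chartM_rad hc h1 h2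
  obtain ⟨H₂, H₁⟩ := ts_asm hc hb (hdb.imp_right And.left) h ht h1 h2
  obtain ⟨c1, c2⟩ := chartM_c hc (P := (τ, e)) ⟨h.m₁, h.m₂⟩
  obtain ⟨p2, p1, -⟩ := (asm ha h1 h2 (bnd_un _ ha _) (bnd_un _ ha _) (bnd_un _ hb' _)
    (bnd_un _ hb' _) c1 c2 H₂ H₁).2
    (Finset.sum_eq_zero fun i hi => by rw [E₁ i hi, mul_zero, zero_mul])
    (Finset.sum_eq_zero fun i hi => by rw [E₂ i hi, mul_zero, zero_mul])
  refine ⟨fun hI => ?_, fun hI => ?_⟩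
  · rw [← hc.s₁.val i hI b hb _ h.m₁ db _ (hdb.imp_right fun k => ⟨k.1, by
      simpa [cL, (hc.hI i).1 hI] using k.2 i⟩) h.a₁ ht.a₁ hi (E₁ i hI) ϖ rfl _ _ _ k2 k3,
      chartM_form₁ hc h ht]
    exact p1 _ (c1.trans (hc.r₂ ▸ k2))
  · rw [← hc.s₂.val i hI b hb _ h.m₂ db _ (hdb.imp_right fun k => ⟨k.1, by
      simpa [cL, hI] using k.2 i⟩) h.a₂ ht.a₂ hi (E₂ i hI) ϖ rfl _ _ _ k1 h2,
      chartM_form₂ hc h ht]
    exact p2 _ (c2.trans h1)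

theorem chartM_zdiff {m : ℕ} (hc : Compat m S₁ S₂) {r : ℝ} (h1 : S₁.Rin⁻¹ < r)
    (h2 : r < S₂.Rin) : DifferentiableOn ℂ (chartM_z₁ S₁ S₂ r) (chO S₁ S₂) ∧
      DifferentiableOn ℂ (chartM_z₂ S₁ S₂ r) (chO S₁ S₂) := by
  obtain ⟨⟨k1, k2⟩, k3⟩ := chartM_rad hc h1 h2
  rw [hc.r₂] at k2
  have d1 : DifferentiableOn ℂ (fun P : ℂ × Ful W₁ W₂ => S₁.c (P₁ P.1 P.2)) (chO S₁ S₂) :=
    hc.s₁.dc.comp (f := fun P : ℂ × Ful W₁ W₂ => P₁ P.1 P.2) (by fun_prop) fun P hP => hP.1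
  have d2 : DifferentiableOn ℂ (fun P : ℂ × Ful W₁ W₂ => S₂.c (P₂ P.1 P.2)) (chO S₁ S₂) :=
    hc.s₂.dc.comp (f := fun P : ℂ × Ful W₁ W₂ => P₂ P.1 P.2) (by fun_prop) fun P hP => hP.2
  constructor
  · exact (zv_diff hc.s₂.rad.1 k2 k3).comp
      (f := fun P : ℂ × Ful W₁ W₂ => (P.2.2.2.1, P.2.2.2.2, S₁.c (P₁ P.1 P.2)))
      (DifferentiableOn.prodMk (by fun_prop) (DifferentiableOn.prodMk (by fun_prop) d1))
      fun P hP => ⟨trivial, trivial, mem_ball_zero_iff.2 ((chartM_c hc hP).1.trans k2)⟩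
  · exact (zv_diff hc.s₁.rad.1 h1 h2).comp
      (f := fun P : ℂ × Ful W₁ W₂ => (P.2.2.2.2, P.2.2.2.1, S₂.c (P₂ P.1 P.2)))
      (DifferentiableOn.prodMk (by fun_prop) (DifferentiableOn.prodMk (by fun_prop) d2))
      fun P hP => ⟨trivial, trivial, mem_ball_zero_iff.2 ((chartM_c hc hP).2.trans h1)⟩

theorem chartM_zpos {m : ℕ} (hc : Compat m S₁ S₂) {τ₀ : ℂ} {e₀ : Ful W₁ W₂}
    (b₁ : BasePos S₁ (P₁ τ₀ e₀) e₀.2.2.2) (b₂ : BasePos S₂ (P₂ τ₀ e₀) e₀.2.2.1) {r : ℝ}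
    (h1 : S₁.Rin⁻¹ < r) (h2 : r < S₂.Rin) (i : κ) :
    (i ∈ S₁.I → ∃ s : ℝ, 0 < s ∧ chartM_z₁ S₁ S₂ r (τ₀, e₀) = s) ∧
    (i ∈ S₂.I → ∃ s : ℝ, 0 < s ∧ chartM_z₂ S₁ S₂ r (τ₀, e₀) = s) := by
  obtain ⟨⟨k1, k2⟩, k3⟩ := chartM_rad hc h1 h2
  refine ⟨fun hi => ?_, fun hi => ?_⟩
  · have := (b₁ i hi).2.2 _ k2 k3
    rwa [hc.r₂] at this
  · have := (b₂ i hi).2.2 _ k1 h2
    rwa [← hc.r₁] at this

/-- near the base point on shell wall variations do not move `τ` -/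
theorem tau_zero [Nonempty κ] {m : ℕ} (hc : Compat m S₁ S₂) {τ₀ : ℂ} {e₀ : Ful W₁ W₂}
    (h₀ : FS S₁ S₂ 1 τ₀ e₀) (hτ : τ₀ ≠ 0) (b₁ : BasePos S₁ (P₁ τ₀ e₀) e₀.2.2.2)
    (b₂ : BasePos S₂ (P₂ τ₀ e₀) e₀.2.2.1) (sp : ∀ i, Sparse (cL S₁ S₂ i)) :
    ∀ᶠ P in 𝓝 (τ₀, e₀), ∀ dτ de, FS S₁ S₂ 1 P.1 P.2 → TS S₁ S₂ 1 P.1 P.2 0 dτ de →
      (∀ i ∈ S₁.I, S₁.E i (1, P₁ P.1 P.2) = 0 ∧
        lineDeriv ℂ (S₁.E i) (1, P₁ P.1 P.2) (0, P₁ dτ de) = 0) →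
      (∀ i ∈ S₂.I, S₂.E i (1, P₂ P.1 P.2) = 0 ∧
        lineDeriv ℂ (S₂.E i) (1, P₂ P.1 P.2) (0, P₂ dτ de) = 0) → dτ = 0 := by
  obtain ⟨r, h1, h2⟩ := chartM_ex hc
  obtain ⟨i⟩ := ‹Nonempty κ›
  have hO := (chO_open hc).mem_nhds (x := (τ₀, e₀)) ⟨h₀.m₁, h₀.m₂⟩
  obtain ⟨d1, d2⟩ := chartM_zdiff hc h1 h2
  obtain ⟨p1, p2⟩ := chartM_zpos hc b₁ b₂ h1 h2 i
  have one : (1 : κ → ℂ) ∈ closedBall (0 : κ → ℂ) 1 := by
    rw [mem_closedBall_zero_iff, pi_norm_le_iff_of_nonneg zero_le_one]; simp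
  have hM : (S₁.M : ℂ) ≠ 0 := Nat.cast_ne_zero.2 (by have := hc.M₁; omega)
  have hm : (m : ℂ) ≠ 0 := Nat.cast_ne_zero.2 hc.hm.ne'
  have e1 : ∀ᶠ P in 𝓝 (τ₀, e₀), i ∈ S₁.I → chartM_z₁ S₁ S₂ r P ≠ 0 := by
    refine eventually_imp_distrib_left.2 fun hi => ?_
    obtain ⟨s, hs, es⟩ := p1 hi
    exact (d1.differentiableAt hO).continuousAt.eventually_ne
      (by rw [es]; exact Complex.ofReal_ne_zero.2 hs.ne')
  have e2 : ∀ᶠ P in 𝓝 (τ₀, e₀), i ∈ S₂.I → chartM_z₂ S₁ S₂ r P ≠ 0 := by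
    refine eventually_imp_distrib_left.2 fun hi => ?_
    obtain ⟨s, hs, es⟩ := p2 hi
    exact (d2.differentiableAt hO).continuousAt.eventually_ne
      (by rw [es]; exact Complex.ofReal_ne_zero.2 hs.ne')
  filter_upwards [e1, e2, (continuous_fst.continuousAt (x := (τ₀, e₀))).eventually_ne hτ]
    with P z1 z2 h0 dτ de h ht E₁ E₂
  obtain ⟨ϖ, rfl⟩ : ∃ ϖ, dτ = ϖ * P.1 := ⟨dτ / P.1, by field_simp⟩
  obtain ⟨k1, k2⟩ := chartM_two hc one (Or.inr ⟨rfl, sp⟩) h ht h1 h2 (fun i hi => (E₁ i hi).1)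
    (fun i hi => (E₂ i hi).1) i rfl
  by_cases hi : i ∈ S₂.I
  · have := k2 hi
    rw [(E₂ i hi).2, mul_zero] at this
    have : ϖ = 0 := by simpa [hM, hm, z2 hi] using this
    rw [this, zero_mul]
  · have hi' := (hc.hI i).2 hi
    have := k1 hi'
    rw [(E₁ i hi').2, mul_zero] at this
    have : ϖ = 0 := by simpa [hM, hm, z1 hi'] using this
    rw [this, zero_mul]

/-- the wall constants as functions on the common domain -/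
noncomputable def chartM_β (S₁ : Side κ W₁) (S₂ : Side κ W₂) (r : ℝ) (i : κ)
    (P : ℂ × Ful W₁ W₂) : ℂ :=
  if i ∈ S₂.I then S₂.βf (P₂ P.1 P.2) * chartM_z₂ S₁ S₂ r P
  else S₁.βf (P₁ P.1 P.2) * chartM_z₁ S₁ S₂ r P

noncomputable def chartM_Λ (m : ℕ) (S₁ : Side κ W₁) (S₂ : Side κ W₂) (r : ℝ) (i : κ)
    (P : ℂ × Ful W₁ W₂) : ℂ :=
  if i ∈ S₂.I then -(S₁.M * m) * chartM_z₂ S₁ S₂ r P * (S₂.vf (P₂ P.1 P.2))⁻¹
  else -(S₁.M * m) * chartM_z₁ S₁ S₂ r P * (S₁.vf (P₁ P.1 P.2))⁻¹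

theorem chartM_diff {m : ℕ} (hc : Compat m S₁ S₂) {r : ℝ} (h1 : S₁.Rin⁻¹ < r)
    (h2 : r < S₂.Rin) (i : κ) : DifferentiableOn ℂ (chartM_β S₁ S₂ r i) (chO S₁ S₂) ∧
      DifferentiableOn ℂ (chartM_Λ m S₁ S₂ r i) (chO S₁ S₂) := by
  obtain ⟨d1, d2⟩ := chartM_zdiff hc h1 h2
  have c1 : ∀ {g : ℂ × W₁ × BS → ℂ}, DifferentiableOn ℂ g S₁.U →
      DifferentiableOn ℂ (fun P : ℂ × Ful W₁ W₂ => g (P₁ P.1 P.2)) (chO S₁ S₂) := fun hg =>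
    hg.comp (f := fun P : ℂ × Ful W₁ W₂ => P₁ P.1 P.2) (by fun_prop) fun P hP => hP.1
  have c2 : ∀ {g : ℂ × W₂ × BS → ℂ}, DifferentiableOn ℂ g S₂.U →
      DifferentiableOn ℂ (fun P : ℂ × Ful W₁ W₂ => g (P₂ P.1 P.2)) (chO S₁ S₂) := fun hg =>
    hg.comp (f := fun P : ℂ × Ful W₁ W₂ => P₂ P.1 P.2) (by fun_prop) fun P hP => hP.2
  unfold chartM_β chartM_Λ
  by_cases hi : i ∈ S₂.I
  · simp only [if_pos hi]
    exact ⟨(c2 hc.s₂.dβ).fun_mul d2, (d2.const_mul _).fun_mul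
      ((c2 hc.s₂.dv).fun_inv fun P hP => hc.s₂.vne _ hP.2)⟩
  · simp only [if_neg hi]
    exact ⟨(c1 hc.s₁.dβ).fun_mul d1, (d1.const_mul _).fun_mul
      ((c1 hc.s₁.dv).fun_inv fun P hP => hc.s₁.vne _ hP.1)⟩

theorem chartM_sign {m : ℕ} (hc : Compat m S₁ S₂) {τ₀ : ℂ} {e₀ : Ful W₁ W₂}
    (b₁ : BasePos S₁ (P₁ τ₀ e₀) e₀.2.2.2) (b₂ : BasePos S₂ (P₂ τ₀ e₀) e₀.2.2.1) {r : ℝ}
    (h1 : S₁.Rin⁻¹ < r) (h2 : r < S₂.Rin) (i : κ) :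
    (∃ s : ℝ, 0 < s ∧ chartM_β S₁ S₂ r i (τ₀, e₀) = s) ∧
      ∃ s : ℝ, s < 0 ∧ chartM_Λ m S₁ S₂ r i (τ₀, e₀) = s := by
  obtain ⟨p1, p2⟩ := chartM_zpos hc b₁ b₂ h1 h2 i
  have hM : (0 : ℝ) < S₁.M := Nat.cast_pos.2 hc.M₁
  have hm : (0 : ℝ) < m := Nat.cast_pos.2 hc.hm
  unfold chartM_β chartM_Λ
  by_cases hi : i ∈ S₂.I
  · obtain ⟨s, hs, es⟩ := p2 hi
    obtain ⟨⟨x, hx, ex⟩, ⟨y, hy, ey⟩, -⟩ := b₂ i hi
    simp only [if_pos hi, es, ex, ey]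
    exact ⟨⟨x * s, by positivity, by push_cast; ring⟩,
      -(S₁.M * m * s * y⁻¹), neg_neg_of_pos (by positivity), by push_cast; ring⟩
  · have hi' := (hc.hI i).2 hi
    obtain ⟨s, hs, es⟩ := p1 hi'
    obtain ⟨⟨x, hx, ex⟩, ⟨y, hy, ey⟩, -⟩ := b₁ i hi'
    simp only [if_neg hi, es, ex, ey]
    exact ⟨⟨x * s, by positivity, by push_cast; ring⟩,
      -(S₁.M * m * s * y⁻¹), neg_neg_of_pos (by positivity), by push_cast; ring⟩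

theorem chartM_EM {V : Type} (T : (κ → ℂ) × (ℂ × V) → Ful W₁ W₂) (i : κ) :
    (i ∉ S₂.I → EM (cL S₁ S₂) (cj S₁ S₂ T) (cσ S₁ S₂) i =
      fun q => S₁.E i (q.1, P₁ q.2.1 (T q))) ∧
    (i ∈ S₂.I → EM (cL S₁ S₂) (cj S₁ S₂ T) (cσ S₁ S₂) i =
      fun q => S₂.E i (q.1, P₂ q.2.1 (T q))) :=
  ⟨fun hi => funext fun q => by simp only [EM, cL, cj, cσ, if_neg hi, Side.E],
    fun hi => funext fun q => by simp only [EM, cL, cj, cσ, if_pos hi, Side.E]⟩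

theorem chartM {m : ℕ} (hc : Compat m S₁ S₂) {τ₀ : ℂ} {e₀ : Ful W₁ W₂} (h : FS S₁ S₂ 1 τ₀ e₀)
    (b₁ : BasePos S₁ (P₁ τ₀ e₀) e₀.2.2.2) (b₂ : BasePos S₂ (P₂ τ₀ e₀) e₀.2.2.1) :
    ∃ N U T H β Λ, IsChart S₁ S₂ τ₀ e₀ N U T H ∧
      MidCore U (τ₀, hd N e₀) H (cA m S₁ S₂ T) (cj S₁ S₂ T) β Λ (cσ S₁ S₂) (cL S₁ S₂) := by
  obtain ⟨N, U, T, H, ch, dT, dH, mem⟩ := chart hc h
  obtain ⟨r, h1, h2⟩ := chartM_ex hc
  have oO := chO_open hc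
  have one : (1 : κ → ℂ) ∈ closedBall (0 : κ → ℂ) 1 := by
    rw [mem_closedBall_zero_iff, pi_norm_le_iff_of_nonneg zero_le_one]; simp
  obtain ⟨af1, af2⟩ := af_diff m hc.s₁.rad.1 h1 h2
  have r1 : Reg U fun q : (κ → ℂ) × (ℂ × Red W₁ W₂ N) => (q.2.1, T q) :=
    (Reg.of_diff U (by fun_prop)).prodMk ch.rT
  have d1 : DB U (w1 (cL S₁ S₂) (cσ S₁ S₂))
      fun q : (κ → ℂ) × (ℂ × Red W₁ W₂ N) => (q.2.1, T q) := by
    obtain ⟨C, hC⟩ := dT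
    refine ⟨C, fun b hb z hz db => ?_⟩
    have k := ((hasFDerivAt_fst.comp (b, z) hasFDerivAt_snd).prodMk
      (ch.rT.hasLine_ball ch.op hb hz 0).1).fderiv
    simp only [Function.comp_def] at k
    rw [k]
    simpa using hC b hb z hz db
  have gA : Differentiable ℂ fun P : ℂ × Ful W₁ W₂ =>
      Af m (un S₁.Rin P.2.2.2.1) (un S₂.Rin P.2.2.2.2) :=
    af1.comp (f := fun P : ℂ × Ful W₁ W₂ => P.2.2.2) (by fun_prop)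
  have gj : ∀ i, Differentiable ℂ fun P : ℂ × Ful W₁ W₂ =>
      if i ∈ S₂.I then S₂.j P.2.2.1 else S₁.j P.2.1 := fun i => by
    split_ifs <;> fun_prop
  obtain ⟨VA, hA, dA⟩ := chartM_db ch.op r1 d1 oO gA.differentiableOn mem ch.mem
  choose Vj hj dj using fun i => chartM_db ch.op r1 d1 oO (gj i).differentiableOn mem ch.mem
  choose Vβ hβ dβ using fun i => chartM_db ch.op r1 d1 oO (chartM_diff hc h1 h2 i).1 mem ch.mem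
  obtain ⟨U', sub, oU, mU⟩ := _root_.mem_nhds_iff.1 (inter_mem (ch.op.mem_nhds ch.mem)
    (inter_mem hA (inter_mem (iInter_mem.2 hj) (iInter_mem.2 hβ))))
  have sU : U' ⊆ U := fun z hz => (sub hz).1
  refine ⟨N, U', T, H, fun i q => chartM_β S₁ S₂ r i (q.2.1, T q),
    fun i q => chartM_Λ m S₁ S₂ r i (q.2.1, T q), ch.mono oU mU sU, oU, mU, fun i => ?_,
    ch.rH.mono sU, (r1.comp (O := chO S₁ S₂) gA.differentiableOn mem).mono sU,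
    fun i => (r1.comp (O := chO S₁ S₂) (gj i).differentiableOn mem).mono sU,
    fun i => (r1.comp (chartM_diff hc h1 h2 i).1 mem).mono sU,
    fun i => (r1.comp (chartM_diff hc h1 h2 i).2 mem).mono sU, fun i => ?_, chartM_mono dH sU,
    chartM_mono dA fun z hz => (sub hz).2.1,
    fun i => chartM_mono (dj i) fun z hz => mem_iInter.1 (sub hz).2.2.1 i,
    fun i => chartM_mono (dβ i) fun z hz => mem_iInter.1 (sub hz).2.2.2 i,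
    (ch.uniq.self_of_nhds.2 1 one h).2, fun i => ?_, fun i => ?_, ?_, ?_⟩
  · unfold cL
    split_ifs
    exacts [hc.s₂.hL, hc.s₁.hL]
  · exact differentiable_pow _
  · simpa only [ch.base] using (chartM_sign hc b₁ b₂ h1 h2 i).1
  · simpa only [ch.base] using (chartM_sign hc b₁ b₂ h1 h2 i).2
  · intro b hb z hz h0 db dv hH
    have hb' := ball_subset_closedBall hb
    have hz' := sU hz
    obtain ⟨t1, t2⟩ := ch.rT.hasLine_ball ch.op hb hz' (db, (0, dv))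
    have ts := (ch.tan b hb' z hz' h0 db (0, dv) (Or.inl hb)
      ((ch.rH.hasLine_ball ch.op hb hz' _).2.lineDeriv.trans hH)).2
    rw [t2.lineDeriv] at ts
    have k := (chartM_one hc hb' (Or.inl hb) (ch.sol b hb' z hz' h0) ts h1 h2).1
    have k2 := ((af1 (T (b, z)).2.2).hasFDerivAt.comp (b, z) t1.snd.snd).fderiv
    rw [show cA m S₁ S₂ T = (fun q : BS × BS => Af m (un S₁.Rin q.1) (un S₂.Rin q.2)) ∘
      fun q => (T q).2.2 from rfl, k2, ContinuousLinearMap.comp_apply, af2]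
    refine k.trans ?_
    have e1 : S₁.I = Finset.univ.filter fun i => ¬ i ∈ S₂.I := by ext i; simp [hc.hI]
    have e2 : S₂.I = Finset.univ.filter fun i => i ∈ S₂.I := by ext i; simp
    rw [← Finset.sum_filter_add_sum_filter_not Finset.univ (fun i => i ∈ S₂.I), add_comm,
      ← e1, ← e2, Finset.sum_mul, Finset.sum_mul]
    congr 1
    · refine Finset.sum_congr rfl fun i hi => ?_
      rw [(chartM_EM T i).2 hi, chartM_β, if_pos hi]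
      ring
    · refine Finset.sum_congr rfl fun i hi => ?_
      rw [(chartM_EM T i).1 ((hc.hI i).1 hi), chartM_β, if_neg ((hc.hI i).1 hi)]
      ring
  · rintro b hb z hz h0 hτ hE ⟨db, dτ, dv⟩ hH i hi
    have hb' := ball_subset_closedBall hb
    have hz' := sU hz
    obtain ⟨ϖ, rfl⟩ : ∃ ϖ, dτ = ϖ * z.1 := ⟨dτ / z.1, by field_simp⟩
    obtain ⟨t1, t2⟩ := ch.rT.hasLine_ball ch.op hb hz' (db, (ϖ * z.1, dv))
    have ts := (ch.tan b hb' z hz' h0 db (ϖ * z.1, dv) (Or.inl hb)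
      ((ch.rH.hasLine_ball ch.op hb hz' _).2.lineDeriv.trans hH)).2
    rw [t2.lineDeriv] at ts
    obtain ⟨k1, k2⟩ := chartM_two hc hb' (Or.inl hb) (ch.sol b hb' z hz' h0) ts h1 h2
      (fun i hi => by simpa only [(chartM_EM T i).1 ((hc.hI i).1 hi)] using hE i)
      (fun i hi => by simpa only [(chartM_EM T i).2 hi] using hE i) i hi
    have f0 := (hasFDerivAt_snd (𝕜 := ℂ) (p := (b, z))).fst
    by_cases hI : i ∈ S₂.I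
    · have g := chartM_E S₂ i hb (P₂ z.1 (T (b, z)))
      have k := (g.hasFDerivAt.comp (b, z) (hasFDerivAt_fst.prodMk
        (f0.prodMk (t1.snd.fst.prodMk t1.snd.snd.snd)))).fderiv
      have k3 := k2 hI
      rw [g.lineDeriv_eq_fderiv] at k3
      simp only [Function.comp_def] at k
      rw [(chartM_EM T i).2 hI, k, chartM_Λ, if_pos hI]
      have v := hc.s₂.vne _ (mem b hb' z hz').2
      refine mul_left_cancel₀ v ?_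
      rw [mul_left_comm]
      refine (congrArg (z.1 * ·) k3).trans ?_
      field_simp
    · have g := chartM_E S₁ i hb (P₁ z.1 (T (b, z)))
      have k := (g.hasFDerivAt.comp (b, z) (hasFDerivAt_fst.prodMk
        (f0.prodMk (t1.fst.prodMk t1.snd.snd.fst)))).fderiv
      have k3 := k1 ((hc.hI i).2 hI)
      rw [g.lineDeriv_eq_fderiv] at k3
      simp only [Function.comp_def] at k
      rw [(chartM_EM T i).1 hI, k, chartM_Λ, if_neg hI]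
      have v := hc.s₁.vne _ (mem b hb' z hz').1
      refine mul_left_cancel₀ v ?_
      rw [mul_left_comm]
      refine (congrArg (z.1 * ·) k3).trans ?_
      field_simp

end Pool.Agent.MP_098ecc_co.H97
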