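import Pool.Agent.MP_098ecc_co.H97.PoslB

set_option autoImplicit false

namespace Pool.Agent.MP_098ecc_co.H97

open Metric Filter Topology Set Function
open scoped BoundedContinuousFunction

theorem min_adm (L : Set ℕ) {B : ℝ} (hB : B < 1) : Adm L B := by
  have h0 : 0 ≤ max B 0 := le_max_right _ _
  have h1 : max B 0 < 1 := max_lt hB one_pos
  refine ⟨(max B 0 + 1) / 2, by linarith [le_max_left B 0], ?_⟩
  refine Summable.of_nonneg_of_le (fun l => mul_nonneg (win_nn L l).1 (by positivity))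
    (fun l => ?_) (summable_geometric_of_lt_one (r := (max B 0 + 1) / 2) (by positivity)
      (by linarith))
  exact mul_le_of_le_one_left (by positivity) (win_nn L l).2

theorem min_coef {m : ℕ} (hm : 0 < m) {i : ℕ} (hi : 1 ≤ i) : (0 : ℝ) ≤ (m : ℝ) * i - 1 := by
  have : 1 ≤ m * i := Nat.mul_pos hm hi
  have : (1 : ℝ) ≤ m * i := by exact_mod_cast this
  linarith

theorem min_flat_le {m : ℕ} (hm : 0 < m) {f : ℕ → ℝ} {z K x : ℝ} (hf : ∀ i, 0 ≤ f i) (hz : 0 ≤ z)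
    (hK : 0 ≤ K) (hx0 : 0 ≤ x) (hx : x ≤ 1 / 2) (hb : ∀ i, 1 ≤ i → f i * z ^ i ≤ K * x ^ i)
    (h0 : 4 * K * m * x ≤ f 0) : ser (flat m f) z ≤ 0 := by
  have hg := (hasSum_coe_mul_geometric_of_norm_lt_one (r := x)
    (by rw [Real.norm_of_nonneg hx0]; linarith)).mul_left (K * m)
  have hg1 := (hasSum_nat_add_iff' 1).mpr hg
  simp only [Finset.range_one, Finset.sum_singleton, Nat.cast_zero, zero_mul, mul_zero,
    sub_zero] at hg1
  have hle : ∀ i : ℕ, flat m f (i + 1) * z ^ (i + 1) ≤ K * m * (((i + 1 : ℕ) : ℝ) * x ^ (i + 1)) := by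
    intro i
    have h1 := hb (i + 1) (by omega)
    have h2 : 0 ≤ f (i + 1) * z ^ (i + 1) := mul_nonneg (hf _) (by positivity)
    calc flat m f (i + 1) * z ^ (i + 1)
        = ((m : ℝ) * (i + 1 : ℕ) - 1) * (f (i + 1) * z ^ (i + 1)) := by simp only [flat]; ring
      _ ≤ ((m : ℝ) * (i + 1 : ℕ)) * (K * x ^ (i + 1)) :=
          mul_le_mul (by linarith) h1 h2 (by positivity)
      _ = _ := by ring
  have hnn : ∀ i : ℕ, 0 ≤ flat m f (i + 1) * z ^ (i + 1) := fun i =>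
    mul_nonneg (mul_nonneg (min_coef hm (by omega)) (hf _)) (by positivity)
  have hs := Summable.of_nonneg_of_le hnn hle hg1.summable
  have hs' : Summable fun i => flat m f i * z ^ i := (summable_nat_add_iff 1).mp hs
  have h3 := hs.tsum_le_tsum hle hg1.summable
  rw [hg1.tsum_eq] at h3
  unfold ser
  rw [hs'.tsum_eq_zero_add]
  have h4 : x / (1 - x) ^ 2 ≤ 4 * x := by
    rw [div_le_iff₀ (by nlinarith)]
    nlinarith [mul_nonneg hx0 (by nlinarith : (0 : ℝ) ≤ 4 * (1 - x) ^ 2 - 1)]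
  have h5 : K * m * (x / (1 - x) ^ 2) ≤ K * m * (4 * x) := by gcongr
  have h6 : flat m f 0 * z ^ 0 = - f 0 := by simp [flat]
  rw [h6]
  linarith

theorem min_flat_ge {m : ℕ} (hm : 0 < m) {f : ℕ → ℝ} {R r : ℝ} (hf : ∀ i, 0 ≤ f i)
    (hb : Bnd R (cx f)) (h0 : 0 < r) (hr : r < R) (s : Finset ℕ) (hs : 0 ∉ s) :
    ∑ i ∈ s, ((m : ℝ) * i - 1) * f i * r ^ i - f 0 ≤ ser (flat m f) r := by
  have h1 := (hb.flat m (R' := (r + R) / 2) (by linarith) (by linarith)).summable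
    (z := (r : ℂ)) (by rw [Complex.norm_real, Real.norm_of_nonneg h0.le]; linarith)
  have h2 : Summable fun i => flat m f i * r ^ i := by
    refine Summable.of_norm (h1.congr fun i => ?_)
    rw [← Complex.norm_real]
    congr 1
    simp [flat]
  have h3 := h2.sum_le_tsum (insert 0 s) fun i hi =>
    mul_nonneg (mul_nonneg (min_coef hm (Nat.pos_of_ne_zero fun h => hi (by simp [h]))) (hf _))
      (by positivity)
  rw [Finset.sum_insert hs] at h3
  unfold ser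
  simp only [flat, Nat.cast_zero, mul_zero, zero_sub, pow_zero, mul_one] at h3 ⊢
  linarith

theorem min_bnd {f : ℕ → ℝ} (hf : ∀ i, 0 ≤ f i) {K w : ℝ} (h : ∀ i, f i ≤ K * w ^ i) :
    Bnd w⁻¹ (cx f) :=
  ⟨K, fun i => by rw [inv_inv, Complex.norm_real, Real.norm_of_nonneg (hf i)]; exact h i⟩

theorem min_ser_le {f : ℕ → ℝ} (hf : ∀ i, 0 ≤ f i) {K z x : ℝ} (hz : 0 ≤ z) (hx0 : 0 ≤ x)
    (hx : x < 1) (h : ∀ i, f i * z ^ i ≤ K * x ^ i) :
    (Summable fun i => f i * z ^ i) ∧ ser f z ≤ K / (1 - x) := by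
  have hg := (hasSum_geometric_of_lt_one hx0 hx).mul_left K
  have hs := Summable.of_nonneg_of_le (fun i => mul_nonneg (hf i) (by positivity)) h hg.summable
  refine ⟨hs, ?_⟩
  have := hs.tsum_le_tsum h hg.summable
  rwa [hg.tsum_eq, ← div_eq_mul_inv] at this

theorem min_ser_ge {f : ℕ → ℝ} (hf : ∀ i, 0 ≤ f i) {z : ℝ} (hz : 0 ≤ z)
    (hs : Summable fun i => f i * z ^ i) : f 0 ≤ ser f z := by
  have := hs.le_tsum 0 fun i _ => mul_nonneg (hf i) (by positivity)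
  simpa [ser] using this

theorem min_sT_ge {m : ℕ} {L : Set ℕ} {f : ℕ → ℝ} (hf : ∀ i, 0 ≤ f i) {i : ℤ}
    (hs : Summable fun l => ind ℝ L l * cf f (m * l - 1) (l - i)) (s : Finset ℕ)
    (h : ∀ l ∈ s, l ∈ L) : ∑ l ∈ s, cf f (m * l - 1) (l - i) ≤ sT m (ind ℝ L) f i := by
  have := hs.sum_le_tsum s fun l _ => mul_nonneg (win_nn L l).1 (cf_nonneg hf _ _)
  refine le_trans (le_of_eq (Finset.sum_congr rfl fun l hl => ?_)) this
  simp [ind, h l hl]

theorem min_cf_zero {f : ℕ → ℝ} (hf : ∀ i, 0 ≤ f i) (N : ℕ) : f 0 ^ N ≤ cf f N 0 := by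
  simpa using cf_ge_prod hf (Multiset.replicate N 0)

theorem min_sT_le {m : ℕ} (hm : 0 < m) {L : Set ℕ} (hL : 0 ∉ L) {f : ℕ → ℝ} {ρ θ : ℝ}
    (hf : ∀ i, 0 ≤ f i) (hρ : 0 < ρ) (hs : Summable fun i => f i * ρ ^ i) (h1 : 1 ≤ ser f ρ)
    (hB : Bv m f ρ ≤ θ) (hθ : θ < 1) (i : ℤ) :
    (Summable fun l => ind ℝ L l * cf f (m * l - 1) (l - i)) ∧
      sT m (ind ℝ L) f i ≤ (1 - θ)⁻¹ * ρ ^ i := by
  have hB0 : 0 ≤ Bv m f ρ := by unfold Bv; positivity
  have hg := (hasSum_geometric_of_lt_one (hB0.trans hB) hθ).mul_right (ρ ^ i)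
  have hle : ∀ l : ℕ, ind ℝ L l * cf f (m * l - 1) (l - i) ≤ θ ^ l * ρ ^ i := by
    intro l
    have h2 := cf_le_real hf hρ hs (m * l - 1) (l - i)
    have h3 : ser f ρ ^ (m * l - 1) ≤ ser f ρ ^ (m * l) := pow_le_pow_right₀ h1 (by omega)
    have h4 : ser f ρ ^ (m * l) = Bv m f ρ ^ l * ρ ^ l := by
      rw [Bv, div_pow, pow_mul]; field_simp
    have h5 : Bv m f ρ ^ l ≤ θ ^ l := pow_le_pow_left₀ hB0 hB l
    have h6 : cf f (m * l - 1) (l - i) ≤ θ ^ l * ρ ^ i := by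
      rw [zpow_sub₀ hρ.ne', zpow_natCast, ← mul_div_assoc, div_le_iff₀ (by positivity)] at h2
      have h7 : ser f ρ ^ (m * l - 1) * ρ ^ i ≤ (θ ^ l * ρ ^ i) * ρ ^ l := by
        calc _ ≤ (θ ^ l * ρ ^ l) * ρ ^ i := by
              gcongr
              exact h3.trans (h4.le.trans (by gcongr))
          _ = _ := by ring
      exact le_of_mul_le_mul_right (h2.trans h7) (by positivity)
    exact (mul_le_of_le_one_left (cf_nonneg hf _ _) (win_nn L l).2).trans h6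
  have hs2 := Summable.of_nonneg_of_le
    (fun l => mul_nonneg (win_nn L l).1 (cf_nonneg hf _ _)) hle hg.summable
  refine ⟨hs2, ?_⟩
  have := hs2.tsum_le_tsum hle hg.summable
  rwa [hg.tsum_eq] at this

/-- the second critical point -/
theorem min_critY {m : ℕ} (hm : 0 < m) {L : Set ℕ} (hL : 0 ∉ L) (two : ∃ l ∈ L, 2 ≤ m * l)
    {X Y : ℕ → ℝ} {t z₁ r₀ : ℝ} (ht : 0 < t) (hc : Crit m X z₁) (hX0 : 0 < X 0)
    (hY : ∀ i, 0 ≤ Y i) (y0 : Y 0 = 1) (hy : ∀ i : ℕ, 1 ≤ i → Y i = t * sT m (ind ℝ L) X i)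
    (h0 : 0 < r₀) (h1 : r₀ ≤ z₁) (h2 : r₀ ≤ 1 / 2) (hB : Bv m X r₀ < 1)
    (hn : ser (flat m Y) 2 ≤ 0) : ∃ z, 2 ≤ z ∧ Crit m Y z := by
  have hsum : ∀ w, 0 < w → w ≤ z₁ → Summable fun i => X i * w ^ i := fun w hw hw' =>
    Summable.of_nonneg_of_le (fun i => mul_nonneg (hc.nn i) (by positivity))
      (fun i => mul_le_mul_of_nonneg_left (pow_le_pow_left₀ hw.le hw' i) (hc.nn i)) hc.sum
  have hA : ∀ w, 0 < w → w ≤ z₁ → Adm L (Bv m X w) → Bnd w⁻¹ (cx Y) ∧ ∀ (s : Finset ℕ),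
      (∀ l ∈ s, l ∈ L) → ∀ i : ℕ, 1 ≤ i → t * ∑ l ∈ s, cf X (m * l - 1) (l - i) ≤ Y i := by
    intro w hw hw' ha
    obtain ⟨C, hC⟩ := sT_summable hm hL hc.nn hX0 hw (hsum w hw hw') ha
    refine ⟨min_bnd hY (K := max 1 (t * C)) fun i => ?_, fun s hs i hi => ?_⟩
    · rcases Nat.eq_zero_or_pos i with rfl | hi
      · simp [y0]
      · rw [hy i hi]
        have := (hC i).2
        rw [zpow_natCast] at this
        calc t * sT m (ind ℝ L) X i ≤ t * (C * w ^ i) := by gcongr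
          _ = (t * C) * w ^ i := by ring
          _ ≤ _ := by gcongr; exact le_max_right _ _
    · rw [hy i hi]
      exact mul_le_mul_of_nonneg_left (min_sT_ge hc.nn (hC i).1 s hs) ht.le
  suffices h : ∃ R r', Bnd R (cx Y) ∧ 2 ≤ r' ∧ r' < R ∧ ∃ s : Finset ℕ, 0 ∉ s ∧
      1 ≤ ∑ i ∈ s, ((m : ℝ) * i - 1) * Y i * r' ^ i by
    obtain ⟨R, r', hb, h3, h4, s, hs, h5⟩ := h
    have h6 := min_flat_ge hm hY hb (by linarith) h4 s hs
    obtain ⟨z, hz, hcz⟩ := crit_of_sign hm hY hb two_pos h3 h4 hn (by linarith)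
    exact ⟨z, hz.1, hcz⟩
  rcases L.finite_or_infinite with hfin | hinf
  · obtain ⟨k, hk, hk2⟩ := two
    have hk1 : 1 ≤ k := Nat.pos_of_ne_zero fun h => hL (h ▸ hk)
    have hYk : 0 < Y k := by
      have h3 := (hA r₀ h0 h1 (adm_of_finite hfin _)).2 {k} (by simpa using hk) k hk1
      rw [Finset.sum_singleton, sub_self] at h3
      have h4 := min_cf_zero hc.nn (m * k - 1)
      exact lt_of_lt_of_le (mul_pos ht ((pow_pos hX0 _).trans_le h4)) h3
    set r' := max 2 (Y k)⁻¹ with hr'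
    have hr2 : 2 ≤ r' := le_max_left _ _
    have hw : 0 < min z₁ (2 * r')⁻¹ := lt_min hc.pos (by positivity)
    refine ⟨_, r', (hA _ hw (min_le_left _ _) (adm_of_finite hfin _)).1, hr2, ?_, {k},
      by simpa using (Nat.pos_iff_ne_zero.mp hk1).symm, ?_⟩
    · have : 2 * r' ≤ (min z₁ (2 * r')⁻¹)⁻¹ := by
        rw [le_inv_comm₀ (by positivity) hw]; exact min_le_right _ _
      linarith
    · rw [Finset.sum_singleton]
      have h3 : (1 : ℝ) ≤ (m : ℝ) * k - 1 := by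
        have : (2 : ℝ) ≤ m * k := by exact_mod_cast hk2
        linarith
      have h4 : r' ≤ r' ^ k := le_self_pow₀ (by linarith) (by omega)
      have h5 : 1 ≤ Y k * r' := by
        have : (Y k)⁻¹ ≤ r' := le_max_right _ _
        calc (1 : ℝ) = Y k * (Y k)⁻¹ := (mul_inv_cancel₀ hYk.ne').symm
          _ ≤ _ := by gcongr
      have h6 : 1 ≤ Y k * r' ^ k := h5.trans (by gcongr)
      rw [mul_assoc]
      nlinarith
  · obtain ⟨hanti, hcont, hlim⟩ := hc.Bv_anti hm hX0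
    obtain ⟨a, ha1, ha2⟩ := ((hlim.eventually_gt_atTop 1).and (Ioo_mem_nhdsGT h0)).exists
    have hsub : Icc a r₀ ⊆ Ioc 0 z₁ := fun x hx => ⟨ha2.1.trans_le hx.1, hx.2.trans h1⟩
    obtain ⟨w, hw, hw1⟩ := intermediate_value_Icc' ha2.2.le (hcont.mono hsub) ⟨hB.le, ha1.le⟩
    have hw0 : 0 < w := ha2.1.trans_le hw.1
    have hwr : w < r₀ := lt_of_le_of_ne hw.2 (by rintro rfl; linarith)
    set A := ser X z₁ with hAdef
    obtain ⟨N, hN⟩ := exists_nat_ge (2 * A ^ 2 / (t * X 0))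
    obtain ⟨s, hs, hcard⟩ := (hinf.sdiff (Set.finite_lt_nat 2)).exists_subset_card_eq N
    have hsL : ∀ l ∈ s, l ∈ L := fun l hl => (hs hl).1
    have hs2 : ∀ l ∈ s, 2 ≤ l := fun l hl => not_lt.mp (hs hl).2
    have hca : ContinuousAt (Bv m X) w :=
      hcont.continuousAt (Ioc_mem_nhds hw0 (hwr.trans_le h1))
    have hev : ∀ᶠ w' in 𝓝[>] w, ∀ l ∈ s, 1 / 2 < Bv m X w' ^ l := by
      refine nhdsWithin_le_nhds ((eventually_all_finset s).mpr fun l _ => ?_)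
      exact (hca.pow l).eventually (lt_mem_nhds (by
        show 1 / 2 < Bv m X w ^ l
        rw [hw1]; norm_num))
    obtain ⟨w', hp, hw'⟩ := (hev.and (Ioo_mem_nhdsGT hwr)).exists
    have hw'0 : 0 < w' := hw0.trans hw'.1
    have hw'z : w' < z₁ := hw'.2.trans_le h1
    have hmid : (w + w') / 2 ∈ Ioc 0 z₁ := ⟨by linarith, by linarith [hw'.1]⟩
    have hadm : Adm L (Bv m X ((w + w') / 2)) :=
      min_adm L (hw1 ▸ hanti ⟨hw0, by linarith⟩ hmid (by linarith [hw'.1]))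
    obtain ⟨hb, hge⟩ := hA _ hmid.1 hmid.2 hadm
    refine ⟨_, w'⁻¹, hb, ?_, ?_, Finset.Icc 1 (s.sup id), by simp, ?_⟩
    · rw [le_inv_comm₀ two_pos hw'0]; linarith [hw'.2]
    · exact (inv_lt_inv₀ hw'0 hmid.1).mpr (by linarith [hw'.1])
    obtain ⟨hfs, hfn⟩ := hc.flat_neg hm hX0 hw'0.le hw'z
    have hS0 : 0 < ser X w' := hX0.trans_le (min_ser_ge hc.nn hw'0.le (hsum w' hw'0 hw'z.le))
    have hSA : ser X w' ≤ A := (hsum w' hw'0 hw'z.le).tsum_le_tsum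
      (fun i => mul_le_mul_of_nonneg_left (pow_le_pow_left₀ hw'0.le hw'z.le i) (hc.nn i)) hc.sum
    have hl : ∀ l ∈ s, X 0 / (2 * A ^ 2) ≤ ∑ i ∈ Finset.Icc 1 (s.sup id),
        ((m : ℝ) * i - 1) * cf X (m * l - 1) (l - i) * w'⁻¹ ^ i := by
      intro l hl
      have h2l : 2 ≤ m * l := (hs2 l hl).trans (Nat.le_mul_of_pos_left _ hm)
      have h3 := es h2l hc.nn hw'0 hfs hfn.le
      have h4 : ∑ i ∈ Finset.Icc 1 l, ((m : ℝ) * i - 1) *
          (cf X (m * l - 1) (l - i) * w' ^ ((l : ℤ) - i)) = (∑ i ∈ Finset.Icc 1 l,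
          ((m : ℝ) * i - 1) * cf X (m * l - 1) (l - i) * w'⁻¹ ^ i) * w' ^ l := by
        rw [Finset.sum_mul]
        refine Finset.sum_congr rfl fun i _ => ?_
        rw [zpow_sub₀ hw'0.ne', zpow_natCast, zpow_natCast, inv_pow]
        field_simp
      have h5 : ∑ i ∈ Finset.Icc 1 l, ((m : ℝ) * i - 1) * cf X (m * l - 1) (l - i) * w'⁻¹ ^ i ≤
          ∑ i ∈ Finset.Icc 1 (s.sup id),
            ((m : ℝ) * i - 1) * cf X (m * l - 1) (l - i) * w'⁻¹ ^ i :=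
        Finset.sum_le_sum_of_subset_of_nonneg
          (Finset.Icc_subset_Icc_right (Finset.le_sup (f := id) hl)) fun i hi _ =>
          mul_nonneg (mul_nonneg (min_coef hm (Finset.mem_Icc.mp hi).1) (cf_nonneg hc.nn _ _))
            (by positivity)
      refine le_trans ?_ h5
      rw [h4] at h3
      have h6 : ser X w' ^ (m * l - 2) * ser X w' ^ 2 = Bv m X w' ^ l * w' ^ l := by
        rw [← pow_add, Nat.sub_add_cancel h2l, Bv, div_pow, pow_mul]; field_simp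
      have h7 : 1 / 2 * w' ^ l ≤ ser X w' ^ (m * l - 2) * A ^ 2 := by
        calc 1 / 2 * w' ^ l ≤ Bv m X w' ^ l * w' ^ l := by gcongr; exact (hp l hl).le
          _ = _ := h6.symm
          _ ≤ _ := by gcongr
      have hA0 : 0 < A := hS0.trans_le hSA
      refine le_of_mul_le_mul_right (le_trans ?_ h3) (pow_pos hw'0 l)
      rw [div_mul_eq_mul_div, div_le_iff₀ (by positivity)]
      nlinarith
    have h8 := Finset.sum_le_sum hl
    rw [Finset.sum_const, hcard, nsmul_eq_mul, Finset.sum_comm] at h8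
    have hA0 : 0 < A := hS0.trans_le hSA
    have h9 : 1 ≤ t * (N * (X 0 / (2 * A ^ 2))) := by
      rw [div_le_iff₀ (by positivity)] at hN
      rw [← mul_div_assoc, ← mul_div_assoc, le_div_iff₀ (by positivity)]
      linarith
    refine h9.trans ((mul_le_mul_of_nonneg_left h8 ht.le).trans ?_)
    rw [Finset.mul_sum]
    refine Finset.sum_le_sum fun i hi => ?_
    have hi1 := (Finset.mem_Icc.mp hi).1
    have h10 := hge s hsL i hi1
    rw [← Finset.sum_mul, ← Finset.mul_sum]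
    calc t * (((m : ℝ) * i - 1) * (∑ l ∈ s, cf X (m * l - 1) (l - i)) * w'⁻¹ ^ i)
        = ((m : ℝ) * i - 1) * (t * ∑ l ∈ s, cf X (m * l - 1) (l - i)) * w'⁻¹ ^ i := by ring
      _ ≤ _ := by
        have := min_coef hm hi1
        gcongr

theorem min_pos (D : Dat) {C : ℝ} (hC : 1 ≤ C) : ∃ t₂ > (0 : ℝ), ∀ t ∈ Ioo 0 t₂,
    ∀ X Y : ℕ → ℝ, (∀ i, 0 ≤ X i) → (∀ i, 0 ≤ Y i) → Eqs D t X Y → Small (C * t) (cx X) (cx Y) →
    ∃ z₁ z₂, Pos D (t, X, Y, z₁, z₂) ∧ 2 ≤ z₂ ∧ Bv D.m Y z₂ ≤ 5 / 8 ∧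
      Maj D.m D.L₂ (cx Y) (3 / 2) ∧ Maj D.m D.L₁ (cx X) (1 / 8) := by
  have hm := D.hm
  have hm1 : (1 : ℝ) ≤ D.m := by exact_mod_cast hm
  obtain ⟨N, hN⟩ := exists_nat_ge (2 * C)
  obtain ⟨s, hs, hcard⟩ := (D.inf₂.sdiff (Set.finite_lt_nat 2)).exists_subset_card_eq N
  have hsL : ∀ l ∈ s, l ∈ D.L₂ := fun l hl => (hs hl).1
  have hs2 : ∀ l ∈ s, 2 ≤ l := fun l hl => not_lt.mp (hs hl).2
  have hev : ∀ᶠ r in 𝓝[<] (1 : ℝ), ∀ l ∈ s, 1 / 2 < r ^ l := by
    refine nhdsWithin_le_nhds ((eventually_all_finset s).mpr fun l _ => ?_)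
    exact (continuous_pow l).continuousAt.eventually (lt_mem_nhds (by norm_num))
  obtain ⟨r, hrs, hr1, hr2⟩ :=
    (hev.and (Ioo_mem_nhdsLT (by norm_num : (1 / 2 : ℝ) < 1))).exists
  have hr0 : 0 < r := by linarith
  have hri : 1 < r⁻¹ := (one_lt_inv₀ hr0).mpr hr2
  have hri2 : r⁻¹ < 2 := by rw [inv_lt_comm₀ hr0 two_pos]; linarith
  set ρ := (1 + r⁻¹) / 2 with hρ
  have hρ1 : 1 < ρ := by linarith
  have hρ2 : ρ ≤ 2 := by linarith
  have hρr : ρ * r < 1 := by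
    have : r⁻¹ * r = 1 := inv_mul_cancel₀ hr0.ne'
    rw [hρ]; nlinarith
  set θ := (ρ + 1) / 2 / ρ with hθ
  have hθ1 : θ < 1 := by rw [hθ, div_lt_one (by linarith)]; linarith
  have hθi : 0 < (1 - θ)⁻¹ := inv_pos.mpr (by linarith)
  set K := C + (1 - θ)⁻¹ with hK
  set K' := K / (1 - ρ * r) with hK'
  have hK0 : 0 < K := by positivity
  have hK'0 : 0 < K' := div_pos hK0 (by linarith)
  set r₀ := 1 / (8 * C * D.m) with hr₀
  have hr₀0 : 0 < r₀ := by positivity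
  have hr₀1 : r₀ ≤ 1 / 8 := by
    rw [hr₀]; exact one_div_le_one_div_of_le (by norm_num) (by nlinarith)
  clear_value r₀ K' K θ ρ
  have hc1 : Tendsto (fun t : ℝ => (1 + C * t) ^ D.m) (𝓝 0) (𝓝 1) := by
    have : Continuous fun t : ℝ => (1 + C * t) ^ D.m := by fun_prop
    simpa using this.tendsto 0
  have hc2 : ∀ a : ℝ, Tendsto (fun t : ℝ => a * t) (𝓝 0) (𝓝 0) := fun a => by
    simpa using (continuous_const_mul a).tendsto 0
  have hE := (((hc1.eventually_lt_const (by norm_num : (1 : ℝ) < 5 / 4)).and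
    (hc1.eventually_lt_const (by linarith : (1 : ℝ) < (ρ + 1) / 2))).and
    (((hc2 K').eventually_lt_const hr₀0).and
      ((hc2 (2 * C * D.m)).eventually_lt_const one_pos)))
  obtain ⟨t₂, ht₂, hT⟩ := Metric.eventually_nhds_iff_ball.mp hE
  refine ⟨t₂, ht₂, fun t ht X Y hX hY he hsm => ?_⟩
  obtain ⟨⟨e1, e2⟩, e3, e4⟩ := hT t (by
    rw [mem_ball_zero_iff, Real.norm_of_nonneg ht.1.le]; exact ht.2)
  have ht0 := ht.1
  have sX : ∀ i, X i ≤ C * t * 2 ^ i := fun i => by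
    have := hsm.1 i
    rwa [Complex.norm_real, Real.norm_of_nonneg (hX i)] at this
  have sY : ∀ i, 1 ≤ i → Y i ≤ C * t * 4⁻¹ ^ i := fun i hi => by
    have := hsm.2 i hi
    rwa [Complex.norm_real, Real.norm_of_nonneg (hY i)] at this
  have sY2 : ∀ w, 0 ≤ w → w ≤ 2 → ∀ i, 1 ≤ i → Y i * w ^ i ≤ C * t * (1 / 2) ^ i :=
    fun w hw hw2 i hi => by
      calc Y i * w ^ i ≤ C * t * 4⁻¹ ^ i * 2 ^ i := by gcongr; exact sY i hi
        _ = C * t * (4⁻¹ * 2) ^ i := by rw [mul_pow]; ring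
        _ = _ := by norm_num
  have hYw : ∀ w, 0 < w → w ≤ 2 → (Summable fun i => Y i * w ^ i) ∧ 1 ≤ ser Y w ∧
      ser Y w ≤ 1 + C * t := by
    intro w hw hw2
    have h1 := min_ser_le (f := fun i => Y (i + 1) * w) (K := C * t / 2) (z := w) (x := 1 / 2)
      (fun i => mul_nonneg (hY _) hw.le) hw.le (by norm_num) (by norm_num) fun i => by
        have := sY2 w hw.le hw2 (i + 1) (by omega)
        calc Y (i + 1) * w * w ^ i = Y (i + 1) * w ^ (i + 1) := by ring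
          _ ≤ _ := this
          _ = _ := by ring
    have h2 : Summable fun i => Y i * w ^ i :=
      (summable_nat_add_iff 1).mp (h1.1.congr fun i => by ring)
    refine ⟨h2, he.y0 ▸ min_ser_ge hY hw.le h2, ?_⟩
    have h3 : ∑' i, Y (i + 1) * w * w ^ i ≤ C * t / 2 / (1 - 1 / 2) := h1.2
    unfold ser
    rw [h2.tsum_eq_zero_add, he.y0, pow_zero]
    have h4 : ∑' i, Y (i + 1) * w ^ (i + 1) = ∑' i, Y (i + 1) * w * w ^ i :=
      tsum_congr fun i => by ring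
    have h5 : C * t / 2 / (1 - 1 / 2) = C * t := by
      rw [div_div]; norm_num
    rw [h4, one_mul]
    rw [h5] at h3
    exact add_le_add le_rfl h3
  have hBY : ∀ w a, 0 < w → w ≤ 2 → (1 + C * t) ^ D.m ≤ a → Bv D.m Y w ≤ a / w := by
    intro w a hw hw2 ha
    obtain ⟨-, h1, h2⟩ := hYw w hw hw2
    unfold Bv
    gcongr
    exact (pow_le_pow_left₀ (by linarith) h2 _).trans ha
  have hT2 := min_sT_le hm D.z₂ hY (by linarith : 0 < ρ) (hYw ρ (by linarith) hρ2).1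
    (hYw ρ (by linarith) hρ2).2.1 (hθ ▸ hBY ρ _ (by linarith) hρ2 e2.le) hθ1
  have hXρ : ∀ i, X i ≤ K * t * ρ ^ i := fun i => by
    rcases Nat.eq_zero_or_pos i with rfl | hi
    · have := sX 0
      rw [pow_zero] at this ⊢
      nlinarith
    · rw [he.hx i hi]
      have := (hT2 i).2
      rw [zpow_natCast] at this
      calc t * sT D.m (ind ℝ D.L₂) Y i ≤ t * ((1 - θ)⁻¹ * ρ ^ i) := by gcongr
        _ = (1 - θ)⁻¹ * t * ρ ^ i := by ring
        _ ≤ _ := by gcongr; linarith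
  have hX0 : t ≤ X 0 := by
    have := min_sT_ge hY (hT2 0).1 ∅ (by simp)
    rw [Finset.sum_empty] at this
    rw [he.x0]
    nlinarith
  have hXl : ∀ l ∈ s, t ≤ X l := fun l hl => by
    have h1 := min_sT_ge hY (hT2 l).1 {l} (by simpa using hsL l hl)
    rw [Finset.sum_singleton, sub_self] at h1
    have h2 := min_cf_zero hY (D.m * l - 1)
    rw [he.y0, one_pow] at h2
    rw [he.hx l (by linarith [hs2 l hl])]
    nlinarith
  have hbX : Bnd ρ⁻¹ (cx X) := min_bnd hX hXρ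
  have hrρ : r < ρ⁻¹ := by
    rw [lt_inv_comm₀ hr0 (by linarith)]; linarith
  have hneg : ser (flat D.m X) r₀ ≤ 0 := by
    refine min_flat_le hm (K := C * t) (x := 2 * r₀) hX hr₀0.le (by positivity) (by positivity)
      (by linarith) (fun i _ => ?_) ?_
    · calc X i * r₀ ^ i ≤ C * t * 2 ^ i * r₀ ^ i := by gcongr; exact sX i
        _ = _ := by rw [mul_pow]; ring
    · refine le_trans (le_of_eq ?_) hX0
      rw [hr₀]; field_simp; norm_num
  have hpos : 0 ≤ ser (flat D.m X) r := by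
    refine le_trans ?_ (min_flat_ge hm hX hbX hr0 hrρ s fun h => by linarith [hs2 0 h])
    have h1 : ∀ l ∈ s, t / 2 ≤ ((D.m : ℝ) * l - 1) * X l * r ^ l := fun l hl => by
      have h2 : (2 : ℝ) ≤ l := by exact_mod_cast hs2 l hl
      have h3 : (1 : ℝ) ≤ (D.m : ℝ) * l - 1 := by nlinarith
      have h4 : t * (1 / 2) ≤ X l * r ^ l :=
        mul_le_mul (hXl l hl) (hrs l hl).le (by norm_num) (hX l)
      rw [mul_assoc]
      nlinarith
    have h2 := Finset.sum_le_sum h1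
    rw [Finset.sum_const, hcard, nsmul_eq_mul] at h2
    have h3 := sX 0
    rw [pow_zero] at h3
    nlinarith
  obtain ⟨z₁, hz₁, hc₁⟩ := crit_of_sign hm hX hbX hr₀0 (by linarith) hrρ hneg hpos
  have hBX : ∀ w, r₀ ≤ w → w ≤ r → (Summable fun i => X i * w ^ i) ∧ Bv D.m X w < 1 := by
    intro w hw hw2
    have hw0 : 0 < w := hr₀0.trans_le hw
    have h1 := min_ser_le hX (K := K * t) (x := ρ * r) hw0.le (by positivity) hρr fun i => by
      calc X i * w ^ i ≤ K * t * ρ ^ i * r ^ i := by gcongr; exact hXρ i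
        _ = _ := by rw [mul_pow]; ring
    refine ⟨h1.1, ?_⟩
    have h2 : ser X w < r₀ := by
      refine lt_of_le_of_lt (h1.2.trans (le_of_eq ?_)) e3
      rw [hK']; ring
    have h3 : 0 ≤ ser X w := (hX 0).trans (min_ser_ge hX hw0.le h1.1)
    have h4 : ser X w ^ D.m ≤ ser X w := pow_le_of_le_one h3 (by linarith) hm.ne'
    rw [Bv, div_lt_one hw0]
    linarith
  have hnY : ser (flat D.m Y) 2 ≤ 0 := by
    refine min_flat_le hm (K := C * t) (x := 1 / 2) hY two_pos.le (by positivity) (by positivity)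
      le_rfl (sY2 2 two_pos.le le_rfl) ?_
    rw [he.y0]; linarith
  obtain ⟨z₂, hz₂, hc₂⟩ := min_critY hm D.z₁ D.two₁ ht0 hc₁ (by linarith) hY he.y0 he.hy hr₀0
    hz₁.1 (by linarith) (hBX r₀ le_rfl (by linarith)).2 hnY
  have hB2 : Bv D.m Y z₂ ≤ 5 / 8 := by
    have h1 := (hc₂.Bv_anti hm (by rw [he.y0]; exact one_pos)).1.antitoneOn
      ⟨two_pos, hz₂⟩ ⟨by linarith, le_rfl⟩ hz₂
    have h2 := hBY 2 _ two_pos le_rfl e1.le
    linarith
  refine ⟨z₁, z₂, ⟨ht0, he, hc₁, hc₂, min_adm _ (hBX z₁ hz₁.1 hz₁.2).2,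
    min_adm _ (hB2.trans_lt (by norm_num))⟩, hz₂, hB2, ?_, ?_⟩
  · refine maj_cx hY (by norm_num) (hYw _ (by norm_num) (by norm_num)).1 (min_adm _ ?_)
    have := hBY (3 / 2) _ (by norm_num) (by norm_num) e1.le
    linarith
  · exact maj_cx hX (by norm_num) (hBX _ hr₀1 (by linarith)).1
      (min_adm _ (hBX _ hr₀1 (by linarith)).2)

end Pool.Agent.MP_098ecc_co.H97
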