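import Pool.Agent.MP_098ecc_co.H97.Plain
import Pool.Agent.MP_098ecc_co.H97.Par
import Pool.Agent.MP_098ecc_co.H97.MinA

set_option autoImplicit false

namespace Pool.Agent.MP_098ecc_co.H97

open Metric Filter Topology Set Function
open scoped BoundedContinuousFunction

theorem min_side {m : ℕ} (hm : 0 < m) {L : Set ℕ} (hL : 0 ∉ L) {Rin Rout ρ : ℝ} (h1 : ρ < Rin)
    (h2 : ρ < Rout⁻¹) (h3 : Rout⁻¹ < Rin) (u₀ : BS) (hM : Maj m L (un Rin u₀) ρ) :
    ∃ r > (0 : ℝ), ∃ C ≥ (0 : ℝ), ∃ O : BS → BS, DifferentiableOn ℂ O (ball u₀ r) ∧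
      ∀ u ∈ ball u₀ r, ‖O u‖ ≤ C ∧ ∀ n : ℕ, un Rout (O u) n = sT m (ind ℂ L) (un Rin u) n := by
  obtain ⟨S, hS, hP, e1, e2, e3, e4, e5, hU, -⟩ :=
    plain Unit hm hL 0 0 h1 h2 h3 0 u₀ hM (Or.inl rfl)
  have hc : Continuous fun u : BS => ((0 : ℂ), (), u) := by fun_prop
  obtain ⟨r, hr, hb⟩ := Metric.isOpen_iff.mp (hS.op.preimage hc) u₀ hU
  obtain ⟨C, θ, h0, hθ, hC⟩ := hS.dec
  have hz : (0 : Unit → ℂ) ∈ closedBall (0 : Unit → ℂ) 1 := mem_closedBall_self zero_le_one
  refine ⟨r, hr, max C 0, le_max_right _ _, fun u => S.out (0, (0, (), u)), ?_, fun u hu => ⟨?_, ?_⟩⟩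
  · exact (hS.rO.frz 0 hz).comp (f := fun u : BS => ((0 : ℂ), (), u)) (by fun_prop) hb
  · refine (BoundedContinuousFunction.norm_le (le_max_right _ _)).mpr fun n => ?_
    refine (hC 0 hz _ (hb hu) n).trans ?_
    calc C * θ ^ n ≤ max C 0 * 1 :=
          mul_le_mul (le_max_left _ _) (pow_le_one₀ h0 hθ.le) (by positivity) (le_max_right _ _)
      _ = _ := mul_one _
  · intro n
    have := hP.form 0 _ (hb hu) n
    rw [e1, e2, e3, e4, e5] at this
    simpa using this

theorem min_un_norm {R : ℝ} (hR : 0 < R) (u : BS) (i : ℕ) : ‖un R u i‖ = ‖u i‖ * R⁻¹ ^ i := by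
  rw [un, norm_mul, norm_pow, norm_inv, Complex.norm_real, Real.norm_of_nonneg hR.le]

theorem min_un_inj {R : ℝ} (hR : 0 < R) {u v : BS} (h : ∀ i, un R u i = un R v i) : u = v := by
  ext i
  have hR' : (R : ℂ) ≠ 0 := by exact_mod_cast hR.ne'
  exact mul_right_cancel₀ (pow_ne_zero i (inv_ne_zero hR')) (h i)

theorem min_real {f : ℕ → ℂ} (h : ∀ i, (f i).im = 0 ∧ 0 ≤ (f i).re) :
    ∃ X : ℕ → ℝ, (∀ i, 0 ≤ X i) ∧ cx X = f :=
  ⟨fun i => (f i).re, fun i => (h i).2, funext fun i => Complex.ext rfl (by simp [(h i).1])⟩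

theorem min_sT_nn (m : ℕ) (L : Set ℕ) {f : ℕ → ℝ} (hf : ∀ i, 0 ≤ f i) (i : ℤ) :
    0 ≤ sT m (ind ℝ L) f i :=
  tsum_nonneg fun l => mul_nonneg (win_nn L l).1 (cf_nonneg hf _ _)

theorem min_E (i : ℕ) : holE 0 i = if i = 0 then 1 else 0 := by
  show Pi.single (M := fun _ => ℂ) 0 1 i = _
  rw [Pi.single_apply]

/-- the fixed point map -/
theorem min_map (D : Dat) : ∃ r > (0 : ℝ), ∃ K ≥ (1 : ℝ), ∃ G : BS × BS → BS × BS,
    DifferentiableOn ℂ G (ball 0 r) ∧ ∀ e ∈ ball (0 : BS × BS) r, ‖G e‖ ≤ K ∧ ∀ (t : ℂ) (n : ℕ),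
      un (1 / 2) (t • G e).1 n = (if n = 0 then t else 0) +
        t * sT D.m (ind ℂ D.L₂) (un 4 (holE 0 + e.2)) n ∧
      un 4 (holE 0 + (t • G e).2) n =
        if n = 0 then 1 else t * sT D.m (ind ℂ D.L₁) (un (1 / 2) e.1) n := by
  have hδ : ‖holE 0‖ ≤ 1 := (BoundedContinuousFunction.norm_le zero_le_one).mpr fun i => by
    rw [min_E]; split_ifs <;> simp
  have hM₂ : Maj D.m D.L₂ (un 4 (holE 0)) (3 / 2) := by
    have h : HasSum (fun i => ‖un 4 (holE 0) i‖ * (3 / 2 : ℝ) ^ i) 1 := by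
      convert hasSum_single (f := fun i => ‖un 4 (holE 0) i‖ * (3 / 2 : ℝ) ^ i) 0 fun i hi => ?_
      · simp [un, min_E]
      · simp [un, min_E, hi]
    exact ⟨by norm_num, h.summable, min_adm _ (by rw [h.tsum_eq]; norm_num)⟩
  have hM₁ : Maj D.m D.L₁ (un (1 / 2) 0) (1 / 8) := by
    refine ⟨by norm_num, by simp [un, summable_zero], min_adm _ ?_⟩
    simp [un, D.hm.ne']
  obtain ⟨r₂, hr₂, C₂, hC₂, O₂, dO₂, hO₂⟩ := min_side D.hm D.z₂ (Rin := 4) (Rout := 1 / 2)
    (by norm_num) (by norm_num) (by norm_num) _ hM₂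
  obtain ⟨r₁, hr₁, C₁, hC₁, O₁, dO₁, hO₁⟩ := min_side D.hm D.z₁ (Rin := 1 / 2) (Rout := 4)
    (by norm_num) (by norm_num) (by norm_num) _ hM₁
  have m₁ : ∀ e ∈ ball (0 : BS × BS) (min r₁ r₂), e.1 ∈ ball (0 : BS) r₁ := fun e he => by
    rw [mem_ball_zero_iff] at he ⊢
    exact (norm_fst_le e).trans_lt (he.trans_le (min_le_left _ _))
  have m₂ : ∀ e ∈ ball (0 : BS × BS) (min r₁ r₂), holE 0 + e.2 ∈ ball (holE 0) r₂ :=
    fun e he => by
      rw [mem_ball_zero_iff] at he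
      rw [mem_ball_iff_norm, add_sub_cancel_left]
      exact (norm_snd_le e).trans_lt (he.trans_le (min_le_right _ _))
  have d₁ : DifferentiableOn ℂ (fun e : BS × BS => O₁ e.1) (ball 0 (min r₁ r₂)) :=
    dO₁.comp differentiableOn_fst m₁
  have d₂ : DifferentiableOn ℂ (fun e : BS × BS => O₂ (holE 0 + e.2)) (ball 0 (min r₁ r₂)) :=
    dO₂.comp (f := fun e : BS × BS => holE 0 + e.2) (by fun_prop) m₂
  refine ⟨min r₁ r₂, lt_min hr₁ hr₂, 1 + C₂ + 2 * C₁, by linarith,
    fun e => (holE 0 + O₂ (holE 0 + e.2), O₁ e.1 - O₁ e.1 0 • holE 0), ?_, fun e he => ⟨?_, ?_⟩⟩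
  · refine (d₂.const_add _).prodMk (d₁.sub (DifferentiableOn.smul_const ?_ _))
    exact (laur_eval 0).comp_differentiableOn d₁
  · have a₁ := (hO₁ _ (m₁ e he)).1
    have a₂ := (hO₂ _ (m₂ e he)).1
    refine max_le ((norm_add_le _ _).trans (by linarith)) ((norm_sub_le _ _).trans ?_)
    have a₃ : ‖O₁ e.1 0 • holE 0‖ ≤ C₁ * 1 := by
      rw [norm_smul]
      exact mul_le_mul (((O₁ e.1).norm_coe_le_norm 0).trans a₁) hδ (norm_nonneg _) hC₁
    linarith
  · intro t n
    rw [← (hO₁ _ (m₁ e he)).2, ← (hO₂ _ (m₂ e he)).2]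
    rcases eq_or_ne n 0 with rfl | hn
    · simp [un, min_E, mul_add]
    · simp [un, min_E, hn, mul_assoc]

theorem min_fam (D : Dat) : ∃ η > (0 : ℝ), ∃ C ≥ (1 : ℝ), ∃ t₀ > (0 : ℝ), ∃ X Y : ℂ → ℕ → ℂ,
    (∀ i, DifferentiableOn ℂ (fun t => X t i) (ball 0 t₀)) ∧
    (∀ i, DifferentiableOn ℂ (fun t => Y t i) (ball 0 t₀)) ∧
    ∀ t ∈ ball (0 : ℂ) t₀, Eqs D t (X t) (Y t) ∧ Small (C * ‖t‖) (X t) (Y t) ∧
      (∀ X' Y', Eqs D t X' Y' → Small η X' Y' → X' = X t ∧ Y' = Y t) ∧
      (∀ dX dY : ℕ → ℂ, Bnd (1 / 2) dX → Bnd 4 dY → dY 0 = 0 →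
        (∀ i : ℕ, dX i = t * deriv (fun s : ℂ => sT D.m (ind ℂ D.L₂) (Y t + s • dY) i) 0) →
        (∀ i : ℕ, 1 ≤ i →
          dY i = t * deriv (fun s : ℂ => sT D.m (ind ℂ D.L₁) (X t + s • dX) i) 0) →
        dX = 0 ∧ dY = 0) ∧
      ∀ s : ℝ, 0 ≤ s → t = s →
        ∃ Xr Yr : ℕ → ℝ, (∀ i, 0 ≤ Xr i) ∧ (∀ i, 0 ≤ Yr i) ∧ cx Xr = X t ∧ cx Yr = Y t := by
  obtain ⟨r, hr, K, hK, G, dG, hG⟩ := min_map D
  have hK0 : 0 < K := by linarith
  have hc : ((16 * K : ℝ) : ℂ) ≠ 0 := by exact_mod_cast (by positivity : (16 * K : ℝ) ≠ 0)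
  have hcn : ‖((16 * K : ℝ) : ℂ)‖ = 16 * K := by
    rw [Complex.norm_real, Real.norm_of_nonneg (by positivity)]
  have hgb : ∀ t : ℂ, ‖t‖ * (16 * K) ≤ r → ∀ e ∈ ball (0 : BS × BS) r, ‖t • G e‖ ≤ r / 16 :=
    fun t ht e he => by
      rw [norm_smul]
      have := mul_le_mul_of_nonneg_left (hG e he).1 (norm_nonneg t)
      linarith
  have dΦ : DifferentiableOn ℂ (fun z : ℂ × (BS × BS) => (z.1 / ((16 * K : ℝ) : ℂ)) • G z.2)
      (ball (0, 0) r) := by
    have d1 : DifferentiableOn ℂ (fun z : ℂ × (BS × BS) => z.1 / ((16 * K : ℝ) : ℂ))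
      (ball (0, 0) r) := by fun_prop
    have d2 : DifferentiableOn ℂ (fun z : ℂ × (BS × BS) => G z.2) (ball (0, 0) r) :=
      dG.comp differentiableOn_snd fun z hz => by
        rw [← ball_prod_same] at hz; exact hz.2
    exact d1.smul d2
  obtain ⟨T, rT, hT⟩ := ls (B := Unit) (E := BS × BS) (V := Unit) 0 0
    (fun _ => Subsingleton.elim _ _)
    (Φ := fun q => (q.2.1 / ((16 * K : ℝ) : ℂ)) • G q.2.2) (τ₀ := 0) (e₀ := 0) hr
    (Reg.of_snd dΦ)
    (fun b _ P hP => by
      rw [← ball_prod_same] at hP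
      simp only [zero_apply, sub_zero]
      refine hgb _ ?_ _ hP.2
      rw [norm_div, hcn, div_mul_cancel₀ _ (by positivity)]
      exact (mem_ball_zero_iff.mp hP.1).le)
    (by simp; positivity)
  have hz : (0 : Unit) ∈ closedBall (0 : Unit) 1 := mem_closedBall_self zero_le_one
  set τ : ℂ → ℂ × Unit := fun t => (t * ((16 * K : ℝ) : ℂ), ()) with hτ
  have hτ1 : ∀ t ∈ ball (0 : ℂ) (r / 4 / (16 * K)), ‖t‖ * (16 * K) < r / 4 := fun t ht =>
    (lt_div_iff₀ (by positivity)).mp (mem_ball_zero_iff.mp ht)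
  have hτ2 : ∀ t ∈ ball (0 : ℂ) (r / 4 / (16 * K)), ‖(τ t).1 - 0‖ < r / 4 := fun t ht => by
    rw [sub_zero, hτ, norm_mul, hcn]; exact hτ1 t ht
  have h8 : ∀ t, ‖(0 : Unit →L[ℂ] BS × BS) ((τ t).2 - (0 : BS × BS →L[ℂ] Unit) 0)‖ < r / 8 :=
    fun t => by simp; positivity
  have dT : DifferentiableOn ℂ (fun t => T (0, τ t)) (ball 0 (r / 4 / (16 * K))) :=
    (rT.frz 0 hz).comp (f := τ) (by rw [hτ]; fun_prop) fun t ht => ⟨hτ2 t ht, h8 t⟩
  refine ⟨r / 4, by positivity, K, hK, r / 4 / (16 * K), by positivity,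
    fun t => un (1 / 2) (T (0, τ t)).1, fun t => un 4 (holE 0 + (T (0, τ t)).2),
    fun i => ((laur_eval i).comp_differentiableOn dT.fst).mul_const _,
    fun i => ((laur_eval i).comp_differentiableOn (dT.snd.const_add _)).mul_const _,
    fun t ht => ?_⟩
  obtain ⟨a1, -, a2, a3, a4, -⟩ := hT 0 hz (τ t) (hτ2 t ht) (h8 t)
  have hdiv : (τ t).1 / ((16 * K : ℝ) : ℂ) = t := mul_div_cancel_right₀ _ hc
  simp only [zero_apply, sub_zero, zero_add, hdiv] at a2 a3 a4
  set e := T (0, τ t) with he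
  have half : ball (0 : BS × BS) (r / 2) ⊆ ball 0 r := ball_subset_ball (by linarith)
  have htr : ‖t‖ * (16 * K) ≤ r := by linarith [hτ1 t ht]
  have hfix : ∀ e' ∈ ball (0 : BS × BS) r,
      (e' = t • G e' ↔ Eqs D t (un (1 / 2) e'.1) (un 4 (holE 0 + e'.2))) := by
    intro e' he'
    have h := (hG e' he').2 t
    constructor
    · intro hf
      rw [← hf] at h
      refine ⟨by simpa using (h 0).2, by simpa using (h 0).1, fun i hi => ?_, fun i hi => ?_⟩
      · simpa [show i ≠ 0 by omega] using (h i).1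
      · simpa [show i ≠ 0 by omega] using (h i).2
    · intro hq
      refine Prod.ext (min_un_inj (R := 1 / 2) (by norm_num) fun i => ?_)
        (add_left_cancel (a := holE 0) (min_un_inj (R := 4) (by norm_num) fun i => ?_))
      · rw [(h i).1]
        split_ifs with hi
        · subst hi; exact hq.x0
        · rw [zero_add]; exact hq.hx i (by omega)
      · rw [(h i).2]
        split_ifs with hi
        · subst hi; exact hq.y0
        · exact hq.hy i (by omega)
  have hen : ‖e‖ ≤ K * ‖t‖ := by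
    rw [a2, norm_smul, mul_comm]
    exact mul_le_mul_of_nonneg_right (hG e (half a1)).1 (norm_nonneg _)
  refine ⟨(hfix e (half a1)).mp a2, ⟨fun i => ?_, fun i hi => ?_⟩, fun X' Y' hq hs => ?_,
    fun dX dY bX bY h0 hX hY => ?_, fun s hs hts => ?_⟩
  · rw [min_un_norm (by norm_num), show (1 / 2 : ℝ)⁻¹ = 2 by norm_num]
    gcongr
    exact (e.1.norm_coe_le_norm i).trans ((norm_fst_le e).trans hen)
  · rw [min_un_norm (by norm_num)]
    gcongr
    rw [BoundedContinuousFunction.add_apply, min_E, if_neg (by omega), zero_add]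
    exact (e.2.norm_coe_le_norm i).trans ((norm_snd_le e).trans hen)
  · obtain ⟨u, hu⟩ := exists_un (R := 1 / 2) (f := X') (by norm_num)
      ⟨r / 4, fun i => by simpa using hs.1 i⟩
    obtain ⟨v, hv⟩ := exists_un (R := 4) (f := Y') (by norm_num) ⟨max (r / 4) 1, fun i => by
      rcases Nat.eq_zero_or_pos i with rfl | hi
      · simp [hq.y0]
      · exact (hs.2 i hi).trans (by gcongr; exact le_max_left _ _)⟩
    have nu : ‖u‖ ≤ r / 4 := (BoundedContinuousFunction.norm_le (by positivity)).mpr fun i => by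
      have := hs.1 i
      rw [← hu, min_un_norm (by norm_num), show (1 / 2 : ℝ)⁻¹ = 2 by norm_num] at this
      exact le_of_mul_le_mul_right this (by positivity)
    have nv : ‖v - holE 0‖ ≤ r / 4 :=
      (BoundedContinuousFunction.norm_le (by positivity)).mpr fun i => by
        rw [BoundedContinuousFunction.sub_apply, min_E]
        split_ifs with hi
        · subst hi
          have := hq.y0
          rw [← hv, un, pow_zero, mul_one] at this
          rw [this, sub_self, norm_zero]; positivity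
        · have := hs.2 i (by omega)
          rw [← hv, min_un_norm (by norm_num)] at this
          rw [sub_zero]
          exact le_of_mul_le_mul_right this (by positivity)
    have hb : (u, v - holE 0) ∈ ball (0 : BS × BS) (r / 2) :=
      mem_ball_zero_iff.mpr ((max_le nu nv).trans_lt (by linarith))
    have h1 := a3 _ hb ((hfix _ (half hb)).mpr (by
      rw [add_sub_cancel, hu, hv]; exact hq))
    show X' = un (1 / 2) e.1 ∧ Y' = un 4 (holE 0 + e.2)
    rw [← h1, add_sub_cancel]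
    exact ⟨hu.symm, hv.symm⟩
  · obtain ⟨du, rfl⟩ := exists_un (by norm_num) bX
    obtain ⟨dv, rfl⟩ := exists_un (by norm_num) bY
    have hd : DifferentiableAt ℂ (fun e' => t • G e') e :=
      ((dG e (half a1)).differentiableAt (isOpen_ball.mem_nhds (half a1))).const_smul t
    have hl : HasDerivAt (fun s : ℂ => e + s • (du, dv)) (du, dv) 0 := by
      simpa using ((hasDerivAt_id (0 : ℂ)).smul_const (du, dv)).const_add e
    have hγ := hd.hasFDerivAt.comp_hasDerivAt_of_eq (0 : ℂ) hl (by simp)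
    set w := fderiv ℂ (fun e' => t • G e') e (du, dv) with hw
    have hev : ∀ᶠ s in 𝓝 (0 : ℂ), e + s • (du, dv) ∈ ball (0 : BS × BS) r :=
      hl.continuousAt.eventually (isOpen_ball.mem_nhds (by simpa using half a1))
    have k₁ : ∀ n, HasDerivAt (fun s : ℂ => un (1 / 2) (t • G (e + s • (du, dv))).1 n)
        (un (1 / 2) w.1 n) 0 := fun n =>
      (((BoundedContinuousFunction.evalCLM ℂ n).comp
        (ContinuousLinearMap.fst ℂ BS BS)).hasFDerivAt.comp_hasDerivAt 0 hγ).mul_const _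
    have k₂ : ∀ n, HasDerivAt (fun s : ℂ => un 4 (holE 0 + (t • G (e + s • (du, dv))).2) n)
        (un 4 w.2 n) 0 := fun n =>
      ((((BoundedContinuousFunction.evalCLM ℂ n).comp
        (ContinuousLinearMap.snd ℂ BS BS)).hasFDerivAt.comp_hasDerivAt 0 hγ).const_add
          (holE 0 n)).mul_const _
    have l₁ : ∀ s : ℂ, un (1 / 2) (e + s • (du, dv)).1 = un (1 / 2) e.1 + s • un (1 / 2) du :=
      fun s => funext fun i => by simp [un]; ring
    have l₂ : ∀ s : ℂ, un 4 (holE 0 + (e + s • (du, dv)).2) = un 4 (holE 0 + e.2) + s • un 4 dv :=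
      fun s => funext fun i => by simp [un]; ring
    have hde : (du, dv) = w := by
      refine Prod.ext (min_un_inj (R := 1 / 2) (by norm_num) fun i => ?_)
        (min_un_inj (R := 4) (by norm_num) fun i => ?_)
      · rw [← (k₁ i).deriv, Filter.EventuallyEq.deriv_eq
          (hev.mono fun s hs => by rw [((hG _ hs).2 t i).1, l₂]), deriv_const_add,
          deriv_const_mul_field]
        exact hX i
      · rw [← (k₂ i).deriv, Filter.EventuallyEq.deriv_eq
          (hev.mono fun s hs => by rw [((hG _ hs).2 t i).2, l₁])]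
        split_ifs with hi
        · subst hi; rw [deriv_const]; exact h0
        · rw [deriv_const_mul_field]; exact hY i (by omega)
    have h1 := a4 _ hde
    rw [Prod.mk_eq_zero] at h1
    rw [h1.1, h1.2]
    constructor <;> funext i <;> simp [un]
  · let S : Set (BS × BS) := closedBall 0 (r / 4) ∩ {e' | ∀ i,
      ((un (1 / 2) e'.1 i).im = 0 ∧ 0 ≤ (un (1 / 2) e'.1 i).re) ∧
      ((un 4 (holE 0 + e'.2) i).im = 0 ∧ 0 ≤ (un 4 (holE 0 + e'.2) i).re)}
    have q4 : closedBall (0 : BS × BS) (r / 4) ⊆ ball 0 (r / 2) :=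
      closedBall_subset_ball (by linarith)
    have cS : IsClosed S := by
      refine isClosed_closedBall.inter ?_
      rw [Set.ofPred_forall]
      refine isClosed_iInter fun i => ?_
      have c₁ : Continuous fun e' : BS × BS => un (1 / 2) e'.1 i := by unfold un; fun_prop
      have c₂ : Continuous fun e' : BS × BS => un 4 (holE 0 + e'.2) i := by unfold un; fun_prop
      exact ((isClosed_eq (Complex.continuous_im.comp c₁) continuous_const).inter
        (isClosed_le continuous_const (Complex.continuous_re.comp c₁))).inter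
        ((isClosed_eq (Complex.continuous_im.comp c₂) continuous_const).inter
        (isClosed_le continuous_const (Complex.continuous_re.comp c₂)))
    have mS : MapsTo (fun e' => t • G e') S S := by
      intro e' he'
      have hb := half (q4 he'.1)
      refine ⟨mem_closedBall_zero_iff.mpr ((hgb t htr e' hb).trans (by linarith)), fun i => ?_⟩
      obtain ⟨Xr, hXr, eX⟩ := min_real fun i => (he'.2 i).1
      obtain ⟨Yr, hYr, eY⟩ := min_real fun i => (he'.2 i).2
      rw [((hG _ hb).2 t i).1, ((hG _ hb).2 t i).2, ← eX, ← eY, sT_ofReal, sT_ofReal, hts]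
      have n₁ := mul_nonneg hs (min_sT_nn D.m D.L₁ hXr i)
      have n₂ := mul_nonneg hs (min_sT_nn D.m D.L₂ hYr i)
      split_ifs <;> simp <;> first | exact ⟨n₂, n₁⟩ | linarith
    have lip : ∀ x ∈ closedBall (0 : BS × BS) (r / 4), ∀ y ∈ closedBall (0 : BS × BS) (r / 4),
        ‖t • G y - t • G x‖ ≤ 1 / 8 * ‖y - x‖ := fun x hx y hy => by
      refine (convex_closedBall 0 (r / 4)).norm_image_sub_le_of_norm_fderiv_le (𝕜 := ℂ)
        (f := fun e' => t • G e') (fun z hz => ((dG z (half (q4 hz))).differentiableAt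
          (isOpen_ball.mem_nhds (half (q4 hz)))).const_smul t) (fun z hz => ?_) hx hy
      have hsub : ball z (r / 2) ⊆ ball 0 r := by
        have := hol_ball (q4 hz)
        rwa [show 2 * (r / 2) = r by ring] at this
      refine (cauchy_fderiv (by positivity) ((dG.mono hsub).const_smul t)
        fun y hy => hgb t htr y (hsub hy)).trans (le_of_eq ?_)
      field_simp; norm_num
    have hcon : ContractingWith (1 / 8) (mS.restrict _ S S) :=
      ⟨by norm_num, LipschitzWith.of_dist_le_mul fun x y => by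
        simpa [Subtype.dist_eq, dist_eq_norm] using lip y y.2.1 x x.2.1⟩
    have h0S : (0 : BS × BS) ∈ S := ⟨mem_closedBall_self (by positivity), fun i => by
      rcases eq_or_ne i 0 with rfl | hi
      · simp [un, min_E]
      · simp [un, min_E, hi]⟩
    obtain ⟨y, hy, hfy, -⟩ := hcon.exists_fixedPoint' cS.isComplete mS h0S (edist_ne_top _ _)
    have h1 := a3 y (q4 hy.1) hfy.symm
    obtain ⟨Xr, hXr, eX⟩ := min_real fun i => (hy.2 i).1
    obtain ⟨Yr, hYr, eY⟩ := min_real fun i => (hy.2 i).2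
    rw [h1] at eX eY
    exact ⟨Xr, Yr, hXr, hYr, eX, eY⟩

end Pool.Agent.MP_098ecc_co.H97
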