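import Pool.Agent.MP_098ecc_co.H97.PoslB
import Pool.Agent.MP_098ecc_co.H97.Comp0

set_option autoImplicit false

namespace Pool.Agent.MP_098ecc_co.H97

open Metric Filter Topology Set Function
open scoped BoundedContinuousFunction

theorem small_ind (L : Set ℕ) (l : ℕ) : 0 ≤ ind ℝ L l ∧ ind ℝ L l ≤ 1 := by
  unfold ind; split_ifs <;> simp

theorem small_ser_nn {f : ℕ → ℝ} {ρ : ℝ} (hf : ∀ i, 0 ≤ f i) (hρ : 0 ≤ ρ) : 0 ≤ ser f ρ :=
  tsum_nonneg fun i => mul_nonneg (hf i) (pow_nonneg hρ i)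

theorem small_ser_ge {f : ℕ → ℝ} {ρ : ℝ} (hf : ∀ i, 0 ≤ f i) (hρ : 0 ≤ ρ)
    (hs : Summable fun i => f i * ρ ^ i) (j : ℕ) : f j * ρ ^ j ≤ ser f ρ :=
  hs.le_tsum j fun i _ => mul_nonneg (hf i) (pow_nonneg hρ i)

theorem small_sT_nn (m : ℕ) (L : Set ℕ) {f : ℕ → ℝ} (hf : ∀ i, 0 ≤ f i) (i : ℤ) :
    0 ≤ sT m (ind ℝ L) f i :=
  tsum_nonneg fun l => mul_nonneg (small_ind L l).1 (cf_nonneg hf _ _)

theorem small_term {m : ℕ} (hm : 0 < m) {f : ℕ → ℝ} {ρ : ℝ} (hf : ∀ i, 0 ≤ f i) (hρ : 0 < ρ)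
    (hs : Summable fun i => f i * ρ ^ i) (i k : ℕ) :
    cf f (m * (k + 1) - 1) (((k + 1 : ℕ) : ℤ) - i) ≤
      ser f ρ ^ (m - 1) * (ρ ^ i / ρ) * Bv m f ρ ^ k := by
  have h := cf_le_real hf hρ hs (m * (k + 1) - 1) (((k + 1 : ℕ) : ℤ) - i)
  rw [zpow_sub₀ hρ.ne', zpow_natCast, zpow_natCast, ← le_div_iff₀ (by positivity)] at h
  refine h.trans_eq ?_
  rw [show m * (k + 1) - 1 = (m - 1) + m * k by rw [Nat.mul_succ]; omega, pow_add, pow_mul, Bv,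
    div_pow]
  field_simp
  ring

theorem small_sT {m : ℕ} (hm : 0 < m) {L : Set ℕ} (hL : 0 ∉ L) {f : ℕ → ℝ} {ρ b : ℝ}
    (hf : ∀ i, 0 ≤ f i) (hρ : 0 < ρ) (hs : Summable fun i => f i * ρ ^ i) (hb : Bv m f ρ ≤ b)
    (h1 : b < 1) (i j : ℕ) (hj : j = 0 ∨ j + 1 ≤ i) :
    sT m (ind ℝ L) f i ≤ ser f ρ ^ (m - 1) * (ρ ^ i / ρ) * Bv m f ρ ^ j / (1 - b) := by
  have hS := small_ser_nn hf hρ.le
  have hB : 0 ≤ Bv m f ρ := by unfold Bv; positivity
  set A := ser f ρ ^ (m - 1) * (ρ ^ i / ρ) with hA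
  have hA0 : 0 ≤ A := by positivity
  set u : ℕ → ℝ := fun l => ind ℝ L l * cf f (m * l - 1) ((l : ℤ) - i) with hu
  have g := (hasSum_geometric_of_lt_one hB (hb.trans_lt h1)).mul_left (A * Bv m f ρ ^ j)
  have le : ∀ k, u (k + (j + 1)) ≤ A * Bv m f ρ ^ j * Bv m f ρ ^ k := by
    intro k
    rw [mul_assoc, ← pow_add, add_comm j k]
    exact (mul_le_of_le_one_left (cf_nonneg hf _ _) (small_ind L _).2).trans
      (small_term hm hf hρ hs i (k + j))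
  have nn : ∀ l, 0 ≤ u l := fun l => mul_nonneg (small_ind L l).1 (cf_nonneg hf _ _)
  have s1 : Summable fun k => u (k + (j + 1)) := g.summable.of_nonneg_of_le (fun k => nn _) le
  have z : ∑ l ∈ Finset.range (j + 1), u l = 0 := by
    refine Finset.sum_eq_zero fun l hl => ?_
    have := Finset.mem_range.1 hl
    rcases hj with rfl | hj
    · obtain rfl : l = 0 := by omega
      simp only [hu, ind, if_neg hL, zero_mul]
    · simp only [hu, cf]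
      rw [if_neg (by omega), mul_zero]
  change ∑' l, u l ≤ _
  rw [← ((summable_nat_add_iff (j + 1)).1 s1).sum_add_tsum_nat_add (j + 1), z, zero_add]
  refine (hasSum_le le s1.hasSum g).trans ?_
  rw [div_eq_mul_inv]
  gcongr

theorem small_sT1 {m : ℕ} (hm : 0 < m) {L : Set ℕ} (hL : 0 ∉ L) {f : ℕ → ℝ} {ρ b : ℝ}
    (hf : ∀ i, 0 ≤ f i) (h0 : f 0 = 1) (hρ : 0 < ρ) (hs : Summable fun i => f i * ρ ^ i)
    (hb : Bv m f ρ ≤ b) (h1 : b < 1) (i : ℕ) : sT m (ind ℝ L) f i ≤ ρ ^ i / (1 - b) := by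
  refine (small_sT hm hL hf hρ hs hb h1 i 0 (Or.inl rfl)).trans ?_
  have hS : 1 ≤ ser f ρ := by simpa [h0] using small_ser_ge hf hρ.le hs 0
  have h2 : ser f ρ ^ (m - 1) ≤ ρ := by
    refine (pow_le_pow_right₀ hS (Nat.sub_le m 1)).trans ?_
    exact (div_le_one hρ).1 (hb.trans h1.le)
  have h3 : 0 < 1 - b := by linarith
  rw [pow_zero, mul_one]
  gcongr
  calc _ ≤ ρ * (ρ ^ i / ρ) := by gcongr
    _ = _ := by field_simp

theorem small_sT2 {m : ℕ} (hm : 0 < m) {L : Set ℕ} (hL : 0 ∉ L) {f : ℕ → ℝ} {ρ b s : ℝ}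
    (hf : ∀ i, 0 ≤ f i) (hρ : 0 < ρ) (hs : Summable fun i => f i * ρ ^ i)
    (hb : Bv m f ρ ≤ b) (h1 : b < 1) (h2 : ser f ρ ≤ s) (h3 : s ≤ 1) (j : ℕ) :
    sT m (ind ℝ L) f (j + 1 : ℕ) ≤ s ^ j / (1 - b) := by
  refine (small_sT hm hL hf hρ hs hb h1 (j + 1) j (Or.inr le_rfl)).trans ?_
  have hS := small_ser_nn hf hρ.le
  have h4 : 0 < 1 - b := by linarith
  have h5 : ser f ρ ^ (m - 1) ≤ 1 := pow_le_one₀ hS (h2.trans h3)
  have h6 : ser f ρ ^ m ≤ s := (pow_le_of_le_one hS (h2.trans h3) hm.ne').trans h2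
  gcongr
  calc _ = ser f ρ ^ (m - 1) * (ser f ρ ^ m) ^ j := by
        rw [Bv, div_pow]
        field_simp
        ring
    _ ≤ 1 * s ^ j := by gcongr
    _ = _ := one_mul _

theorem small_ser_le {m : ℕ} (hm : 0 < m) {f : ℕ → ℝ} {z ρ : ℝ} (h : Crit m f z) (hρ : 0 ≤ ρ)
    (hz : ρ ≤ z) : (Summable fun i => f i * ρ ^ i) ∧ ser f ρ ≤ 2 * f 0 + f 1 * ρ := by
  have nn : ∀ i, 0 ≤ f i * ρ ^ i := fun i => mul_nonneg (h.nn i) (pow_nonneg hρ i)
  have le : ∀ i, f i * ρ ^ i ≤ f i * z ^ i := fun i =>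
    mul_le_mul_of_nonneg_left (pow_le_pow_left₀ hρ hz i) (h.nn i)
  have hs : Summable fun i => f i * ρ ^ i := h.sum.of_nonneg_of_le nn le
  refine ⟨hs, ?_⟩
  rw [ser, ← hs.sum_add_tsum_nat_add 2]
  have : ∑' i, f (i + 2) * ρ ^ (i + 2) ≤ f 0 := by
    refine Real.tsum_le_of_sum_range_le (fun i => nn _) fun n => ?_
    have h1 := h.bound hm ((Finset.range n).image (· + 2)) (by simp)
    rw [Finset.sum_image fun a _ b _ e => by simpa using e] at h1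
    refine le_trans (Finset.sum_le_sum fun i _ => (le _).trans ?_) h1
    rw [mul_assoc]
    refine le_mul_of_one_le_left ((nn _).trans (le _)) ?_
    have h2 : (1 : ℝ) ≤ m := Nat.one_le_cast.2 hm
    have h3 : (0 : ℝ) ≤ i := i.cast_nonneg
    push_cast
    nlinarith
  simp only [Finset.sum_range_succ, Finset.range_zero, Finset.sum_empty, pow_zero, pow_one]
  linarith

/-- a radius in a fixed range at which the value stays away from one -/
theorem small_rho {m : ℕ} (hm : 0 < m) {f : ℕ → ℝ} {z ε K : ℝ} (h : Crit m f z) (h0 : f 0 = 1)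
    (hε : 0 < ε) (h2 : ε ≤ 1 / 2) (hB : Bv m f z ≤ 1 - ε) (k1 : 2 * 3 ^ m ≤ K) (k2 : 4 / ε ≤ K) :
    ∃ ρ, 0 < ρ ∧ ρ ≤ K ∧ (Summable fun i => f i * ρ ^ i) ∧ Bv m f ρ ≤ 1 - ε / 2 := by
  have hz := h.pos
  rcases le_total z K with hK | hK
  · exact ⟨z, hz, hK, h.sum, by linarith⟩
  have K0 : 0 < K := lt_of_lt_of_le (by positivity) k1
  obtain ⟨hs, h3⟩ := small_ser_le hm h K0.le hK
  refine ⟨K, K0, le_rfl, hs, ?_⟩
  rw [h0] at h3
  rw [Bv, div_le_iff₀ K0]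
  rcases eq_or_lt_of_le (show 1 ≤ m from hm) with rfl | h1
  · have h4 := small_ser_ge h.nn hz.le h.sum 1
    rw [Bv, pow_one, div_le_iff₀ hz] at hB
    rw [pow_one] at h4 ⊢
    have h5 : f 1 ≤ 1 - ε := le_of_mul_le_mul_right (h4.trans hB) hz
    rw [div_le_iff₀ hε] at k2
    nlinarith
  · have h4 := h.bound hm {1} (by simp)
    have h5 : (2 : ℝ) ≤ m := by exact_mod_cast h1
    rw [Finset.sum_singleton, h0, Nat.cast_one, mul_one, pow_one] at h4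
    have h6 : f 1 * K ≤ f 1 * z := mul_le_mul_of_nonneg_left hK (h.nn 1)
    have h7 : 0 ≤ f 1 * z := mul_nonneg (h.nn 1) hz.le
    have h8 : ser f K ^ m ≤ 3 ^ m :=
      pow_le_pow_left₀ (small_ser_nn h.nn K0.le) (by nlinarith) m
    nlinarith

/-- the critical point of a sequence with comparable terms is not small -/
theorem small_z {m : ℕ} {f : ℕ → ℝ} {z t C K : ℝ} (h : Crit m f z) (ht : 0 < t) (hm : 0 < m)
    (hC : 1 ≤ C) (hK : 0 < K) (h0 : t ≤ f 0) (hf : ∀ i, f i ≤ C * t * K ^ i) :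
    1 / (4 * m * C * K) ≤ z := by
  have hz := h.pos
  have h1 : (1 : ℝ) ≤ m := Nat.one_le_cast.2 hm
  by_contra hc
  rw [not_le, lt_div_iff₀ (by positivity)] at hc
  have hx : 0 < 2 * K * z := by positivity
  have hmC : 1 ≤ m * C := one_le_mul_of_one_le_of_one_le h1 hC
  have h2 : 2 * K * z ≤ 1 / 2 := by nlinarith
  have g := ((hasSum_geometric_of_lt_one hx.le (by linarith)).mul_left (m * C * t)).sub
    (hasSum_ite_eq (0 : ℕ) (t + m * C * t))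
  have := hasSum_le (fun i => ?_) h.crit g
  · have h3 : (1 - 2 * K * z)⁻¹ ≤ 1 + 2 * (2 * K * z) := by
      rw [inv_le_iff_one_le_mul₀ (by linarith)]
      nlinarith
    have h4 : m * C * t * (1 - 2 * K * z)⁻¹ ≤ m * C * t * (1 + 2 * (2 * K * z)) := by gcongr
    nlinarith
  · rcases eq_or_ne i 0 with rfl | hi
    · simp only [flat, Nat.cast_zero, mul_zero, pow_zero, if_true]
      linarith
    · rw [if_neg hi, sub_zero, flat]
      have h3 : (i : ℝ) ≤ 2 ^ i := by exact_mod_cast (Nat.lt_two_pow_self).le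
      have h4 := h.nn i
      calc _ ≤ m * 2 ^ i * (C * t * K ^ i) * z ^ i := by
            gcongr
            · exact (sub_le_self _ zero_le_one).trans (by gcongr)
            · exact hf i
        _ = _ := by rw [mul_pow, mul_pow]; ring

theorem small_core {m : ℕ} (hm : 0 < m) {η ε : ℝ} (hη : 0 < η) (hε : 0 < ε) (h2 : ε ≤ 1 / 2) :
    ∃ t₁ > (0 : ℝ), ∀ (La Lb : Set ℕ) (t z₁ z₂ : ℝ) (X Y : ℕ → ℝ), 0 ∉ La → 0 ∉ Lb → 0 < t →
      t < t₁ → Y 0 = 1 → X 0 = t + t * sT m (ind ℝ Lb) Y 0 →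
      (∀ i : ℕ, 1 ≤ i → X i = t * sT m (ind ℝ Lb) Y i) →
      (∀ i : ℕ, 1 ≤ i → Y i = t * sT m (ind ℝ La) X i) → Crit m X z₁ → Crit m Y z₂ →
      Bv m Y z₂ ≤ 1 - ε → Small η (cx X) (cx Y) ∧ Bv m X z₁ ≤ 1 / 2 := by
  obtain ⟨δ, δ0, hδ⟩ : ∃ δ > (0 : ℝ), (1 + δ) ^ m ≤ 3 / 2 := by
    have : ∀ᶠ x in 𝓝 (0 : ℝ), (1 + x) ^ m < 3 / 2 :=
      (show Continuous fun x : ℝ => (1 + x) ^ m by fun_prop).continuousAt.eventually_lt_const
        (by norm_num)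
    obtain ⟨δ, h1, h3⟩ := ((this.filter_mono nhdsWithin_le_nhds).and
      (self_mem_nhdsWithin (a := (0 : ℝ)) (s := Ioi 0))).exists
    exact ⟨δ, h3, h1.le⟩
  have m1 : (1 : ℝ) ≤ m := Nat.one_le_cast.2 hm
  obtain ⟨K, hK⟩ : ∃ K : ℝ, K = 2 * 3 ^ m + 4 / ε := ⟨_, rfl⟩
  obtain ⟨C, hC⟩ : ∃ C : ℝ, C = 1 + 2 / ε := ⟨_, rfl⟩
  have k1 : 2 * 3 ^ m ≤ K := hK ▸ le_add_of_nonneg_right (by positivity)
  have k2 : 4 / ε ≤ K := hK ▸ le_add_of_nonneg_left (by positivity)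
  have K0 : 0 < K := lt_of_lt_of_le (by positivity) k1
  have C1 : 1 ≤ C := hC ▸ le_add_of_nonneg_right (by positivity)
  obtain ⟨r, hr⟩ : ∃ r : ℝ, r = 1 / (4 * m * C * K) := ⟨_, rfl⟩
  have r0 : 0 < r := by rw [hr]; positivity
  have rK : K * r ≤ 1 / 2 := by
    rw [hr, mul_one_div, div_le_iff₀ (by positivity)]
    have := one_le_mul_of_one_le_of_one_le m1 C1
    nlinarith
  refine ⟨min (min (r / (4 * C)) (1 / (8 * C))) (min (η / 8) (δ / 16)), by positivity, ?_⟩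
  intro La Lb t z₁ z₂ X Y ha hb t0 ht y0 x0 hx hy c₁ c₂ hB
  simp only [lt_min_iff] at ht
  obtain ⟨⟨t1, t2⟩, t3, t4⟩ := ht
  rw [lt_div_iff₀ (by positivity)] at t1 t2 t3 t4
  have hX : ∀ {ρ A : ℝ}, 0 < ρ → (∀ i : ℕ, sT m (ind ℝ Lb) Y i ≤ A * ρ ^ i) →
      ∀ i, X i ≤ (1 + A) * t * ρ ^ i := by
    intro ρ A hρ h i
    have h1 := mul_le_mul_of_nonneg_left (h i) t0.le
    rcases Nat.eq_zero_or_pos i with rfl | hi
    · rw [x0]
      rw [Nat.cast_zero] at h1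
      linarith
    · rw [hx i hi]
      have : 0 ≤ t * ρ ^ i := by positivity
      linarith
  obtain ⟨ρ, ρ0, ρK, hs, hρ⟩ := small_rho hm c₂ y0 hε h2 hB k1 k2
  have hX1 : ∀ i, X i ≤ C * t * K ^ i := by
    intro i
    refine (hX (A := 2 / ε) ρ0 (fun i => ?_) i).trans ?_
    · refine (small_sT1 hm hb c₂.nn y0 ρ0 hs hρ (by linarith) i).trans_eq ?_
      rw [sub_sub_cancel]
      field_simp
    · rw [← hC]
      gcongr
  have tX : t ≤ X 0 := by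
    rw [x0]
    exact le_add_of_nonneg_right (mul_nonneg t0.le (small_sT_nn _ _ c₂.nn _))
  have rz : r ≤ z₁ := hr ▸ small_z c₁ t0 hm C1 K0 tX hX1
  have sX := (small_ser_le hm c₁ r0.le rz).1
  have hS : ser X r ≤ 2 * C * t := by
    have g := hasSum_geometric_two.mul_left (C * t)
    refine (hasSum_le (fun i => ?_) sX.hasSum g).trans_eq (by ring)
    calc _ ≤ C * t * K ^ i * r ^ i := by gcongr; exact hX1 i
      _ = C * t * (K * r) ^ i := by rw [mul_pow]; ring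
      _ ≤ _ := by gcongr
  have hS4 : ser X r ≤ 4⁻¹ := by linarith
  have hBr : Bv m X r ≤ 1 / 2 := by
    rw [Bv, div_le_iff₀ r0]
    have := pow_le_of_le_one (small_ser_nn c₁.nn r0.le) (hS4.trans (by norm_num)) hm.ne'
    linarith
  have hY : ∀ i, 1 ≤ i → Y i ≤ 8 * t * 4⁻¹ ^ i := by
    intro i hi
    obtain ⟨j, rfl⟩ := Nat.exists_eq_add_of_le' hi
    rw [hy _ hi]
    refine (mul_le_mul_of_nonneg_left (small_sT2 hm ha c₁.nn r0 sX hBr (by norm_num) hS4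
      (by norm_num) j) t0.le).trans_eq ?_
    rw [pow_succ]
    ring
  have g := (hasSum_geometric_two.mul_left (8 * t)).add (hasSum_ite_eq (0 : ℕ) (1 : ℝ))
  have le : ∀ i, Y i * 2 ^ i ≤ 8 * t * (1 / 2) ^ i + if i = 0 then 1 else 0 := by
    intro i
    rcases Nat.eq_zero_or_pos i with rfl | hi
    · rw [y0, if_pos rfl]
      simp only [pow_zero]
      linarith
    · rw [if_neg hi.ne', add_zero]
      refine (mul_le_mul_of_nonneg_right (hY i hi) (by positivity)).trans_eq ?_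
      rw [mul_assoc, ← mul_pow]
      norm_num
  have sY : Summable fun i => Y i * 2 ^ i :=
    g.summable.of_nonneg_of_le (fun i => mul_nonneg (c₂.nn i) (by positivity)) le
  have hB2 : Bv m Y 2 ≤ 3 / 4 := by
    have h1 : ser Y 2 ≤ 1 + δ := (hasSum_le le sY.hasSum g).trans (by linarith)
    have h3 := pow_le_pow_left₀ (small_ser_nn c₂.nn two_pos.le) h1 m
    rw [Bv]
    linarith
  have hX2 := hX (A := 4) two_pos fun i =>
    (small_sT1 hm hb c₂.nn y0 two_pos sY hB2 (by norm_num) i).trans_eq (by ring)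
  refine ⟨⟨fun i => ?_, fun i hi => ?_⟩, le_trans ?_ hBr⟩
  · rw [Complex.norm_real, Real.norm_of_nonneg (c₁.nn i)]
    refine (hX2 i).trans ?_
    gcongr
    linarith
  · rw [Complex.norm_real, Real.norm_of_nonneg (c₂.nn i)]
    refine (hY i hi).trans ?_
    gcongr
    linarith
  · exact (c₁.Bv_anti hm (t0.trans_le tX)).1.antitoneOn ⟨r0, rz⟩ ⟨c₁.pos, le_rfl⟩ rz

theorem small_sT_scale {m : ℕ} (hm : 0 < m) {L : Set ℕ} (hL : 0 ∉ L) (f : ℕ → ℝ) {c w : ℝ}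
    (h : c ^ m * w = 1) (i : ℕ) :
    sT m (ind ℝ L) (fun i => c * f i * w ^ i) i = c⁻¹ * w⁻¹ ^ i * sT m (ind ℝ L) f i := by
  have hw : w ≠ 0 := right_ne_zero_of_mul_eq_one h
  have hc : c ≠ 0 := fun e => left_ne_zero_of_mul_eq_one h (by rw [e, zero_pow hm.ne'])
  rw [sT, sT, ← tsum_mul_left]
  refine tsum_congr fun l => ?_
  rcases Nat.eq_zero_or_pos l with rfl | hl
  · simp only [ind, if_neg hL, zero_mul, mul_zero]
  · have h1 : c ^ (m * l - 1) * c * w ^ l = 1 := by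
      rw [← pow_succ, Nat.sub_add_cancel (Nat.mul_pos hm hl), pow_mul, ← mul_pow, h, one_pow]
    rw [cf_scale, zpow_sub₀ hw, zpow_natCast, zpow_natCast, inv_pow]
    have h2 : c ^ (m * l - 1) * (w ^ l / w ^ i) = c⁻¹ * (w ^ i)⁻¹ := by
      field_simp
      linear_combination h1
    rw [h2]
    ring

theorem small_crit_scale {m : ℕ} {f : ℕ → ℝ} {z c w : ℝ} (h : Crit m f z) (hc : 0 < c)
    (hw : 0 < w) (e : c ^ m * w = 1) : Crit m (fun i => c * f i * w ^ i) (z / w) ∧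
      Bv m (fun i => c * f i * w ^ i) (z / w) = Bv m f z := by
  have h1 : ∀ i, c * f i * w ^ i * (z / w) ^ i = c * (f i * z ^ i) := fun i => by
    rw [div_pow]
    field_simp
  refine ⟨⟨div_pos h.pos hw, fun i => mul_nonneg (mul_nonneg hc.le (h.nn i)) (by positivity), ?_,
    ?_⟩, ?_⟩
  · simp only [h1]
    exact h.sum.mul_left c
  · have := h.crit.mul_left c
    rw [mul_zero] at this
    have e2 : ∀ i, flat m (fun i => c * f i * w ^ i) i * (z / w) ^ i = c * (flat m f i * z ^ i) := by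
      intro i
      simp only [flat]
      rw [mul_assoc _ (c * f i * w ^ i), h1]
      ring
    simpa only [e2] using this
  · simp only [Bv, ser, h1, tsum_mul_left]
    rw [mul_pow, div_div_eq_mul_div, mul_right_comm, e, one_mul]

theorem small (D : Dat) {η ε : ℝ} (hη : 0 < η) (hε : 0 < ε) : ∃ t₁ > (0 : ℝ), ∀ p, Pos D p →
    p.t < t₁ → (p.B₂ D ≤ 1 - ε ∨ p.B₁ D ≤ 1 - ε) → Small η p.cX p.cY := by
  obtain ⟨t₁, h0, h⟩ := small_core D.hm hη (lt_min hε one_half_pos) (min_le_right ε (1 / 2))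
  refine ⟨t₁, h0, fun p hp ht hB => ?_⟩
  have e1 := min_le_left ε (1 / 2)
  have e2 := min_le_right ε (1 / 2)
  refine (h D.L₁ D.L₂ _ _ _ _ _ D.z₁ D.z₂ hp.tpos ht hp.eqs.y0 hp.eqs.x0 hp.eqs.hx hp.eqs.hy hp.c₁
    hp.c₂ ?_).1
  rcases hB with hB | hB
  · linarith
  have a0 : 0 < p.X 0 := hp.tpos.trans_le hp.x0
  have w0 : 0 < p.X 0 ^ D.m := pow_pos a0 _
  have s1 : (p.X 0)⁻¹ ^ D.m * p.X 0 ^ D.m = 1 := by rw [← mul_pow, inv_mul_cancel₀ a0.ne', one_pow]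
  have s2 : p.X 0 ^ D.m * (p.X 0 ^ D.m)⁻¹ = 1 := mul_inv_cancel₀ w0.ne'
  obtain ⟨c₁, b₁⟩ := small_crit_scale hp.c₁ (inv_pos.2 a0) w0 s1
  obtain ⟨c₂, b₂⟩ := small_crit_scale hp.c₂ a0 (inv_pos.2 w0) s2
  have := (h D.L₂ D.L₁ _ _ _ _ _ D.z₂ D.z₁ hp.tpos ht ?_ ?_ ?_ ?_ c₂ c₁ (by rw [b₁]; linarith)).2
  · rw [b₂] at this
    linarith
  · simp [a0.ne']
  · have := small_sT_scale D.hm D.z₁ p.X s1 0
    rw [Nat.cast_zero] at this
    rw [this, hp.eqs.y0, inv_inv]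
    linear_combination hp.noether
  · intro i hi
    rw [small_sT_scale D.hm D.z₁ p.X s1, hp.eqs.hy i hi, inv_inv]
    ring
  · intro i hi
    rw [small_sT_scale D.hm D.z₂ p.Y s2, hp.eqs.hx i hi, inv_inv]
    ring

end Pool.Agent.MP_098ecc_co.H97
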