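import Pool.Agent.MP_098ecc_co.H97.Plain
import Pool.Agent.MP_098ecc_co.H97.Small
import Pool.Agent.MP_098ecc_co.H97.Par
import Pool.Agent.MP_098ecc_co.H97.MinB

set_option autoImplicit false

namespace Pool.Agent.MP_098ecc_co.H97

open Metric Filter Topology Set Function
open scoped BoundedContinuousFunction

theorem min_cx_inj {f g : ℕ → ℝ} (h : cx f = cx g) : f = g :=
  funext fun i => Complex.ofReal_injective (congrFun h i)

theorem minimal (D : Dat) (P : Polynomial (Polynomial ℚ)) (hL : Link D P) :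
    ∃ η > (0 : ℝ), ∃ t₁ > (0 : ℝ), ∀ t ∈ Ioo 0 t₁, ∃ p, Good D P p ∧ p.t = t ∧
      ∀ q, Pos D q → q.t = t → Small η q.cX q.cY → q = p := by
  obtain ⟨η, hη, C, hC, t₀, ht₀, X, Y, dX, dY, hF⟩ := min_fam D
  obtain ⟨t₂, ht₂, hP⟩ := min_pos D hC
  obtain ⟨ηL, hηL, hLk⟩ := hL
  obtain ⟨t₃, ht₃, hS⟩ := small D hη (by norm_num : (0 : ℝ) < 1 / 4)
  have hC0 : 0 < C := by linarith
  have hsub : ball (0 : ℂ) (min t₀ (ηL / C)) ⊆ ball 0 t₀ := ball_subset_ball (min_le_left _ _)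
  have hev := hLk (min t₀ (ηL / C)) (lt_min ht₀ (by positivity)) X Y (fun t ht => by
    obtain ⟨h1, h2, -⟩ := hF t (hsub ht)
    have h3 : C * ‖t‖ ≤ ηL := by
      have := (mem_ball_zero_iff.mp ht).trans_le (min_le_right _ _)
      rw [lt_div_iff₀ hC0] at this
      linarith
    exact ⟨h1, fun i => (h2.1 i).trans (by gcongr), fun i hi => (h2.2 i hi).trans (by gcongr)⟩)
    (fun i => (dX i).mono hsub) fun i => (dY i).mono hsub
  obtain ⟨t₄, ht₄, hA⟩ := Metric.eventually_nhds_iff_ball.mp hev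
  have hmem : ∀ {s a : ℝ}, 0 < s → s < a → (s : ℂ) ∈ ball (0 : ℂ) a := fun hs ha => by
    rwa [mem_ball_zero_iff, Complex.norm_real, Real.norm_of_nonneg hs.le]
  refine ⟨η, hη, min (min t₀ t₂) (min t₃ t₄), lt_min (lt_min ht₀ ht₂) (lt_min ht₃ ht₄),
    fun t ht => ?_⟩
  obtain ⟨ht0, ht1⟩ := ht
  simp only [lt_min_iff] at ht1
  obtain ⟨⟨a₀, a₂⟩, a₃, a₄⟩ := ht1
  obtain ⟨hq, hsm, huniq, hker, hre⟩ := hF t (hmem ht0 a₀)
  obtain ⟨Xr, Yr, hXr, hYr, eX, eY⟩ := hre t ht0.le rfl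
  rw [← eX, ← eY] at hq hsm huniq hker
  rw [Complex.norm_real, Real.norm_of_nonneg ht0.le] at hsm
  obtain ⟨z₁, z₂, hpos, hz₂, hB, hM₂, hM₁⟩ := hP t ⟨ht0, a₂⟩ Xr Yr hXr hYr
    (eqs_real (p := (t, Xr, Yr, 0, 0)) hq) hsm
  refine ⟨(t, Xr, Yr, z₁, z₂), ⟨hpos, ?_, ?_⟩, rfl, fun q hq' hqt hqs => ?_⟩
  · intro dX dY a b ha hb bX bY h0 hX hY
    obtain ⟨C₂, hC₂⟩ := sT_dir D.hm D.z₂ hM₂ (by linarith [show z₂ < b from hb]) bY
    have bX' : Bnd (1 / 2) dX := ⟨t * max C₂ 0, fun i => by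
      rw [hX i, norm_mul, Complex.norm_real, Real.norm_of_nonneg ht0.le, mul_assoc]
      refine mul_le_mul_of_nonneg_left ((hC₂ i).2.trans ?_) ht0.le
      rw [zpow_natCast]
      exact mul_le_mul (le_max_left _ _) (pow_le_pow_left₀ (by norm_num) (by norm_num) i)
        (by positivity) (le_max_right _ _)⟩
    obtain ⟨C₁, hC₁⟩ := sT_dir D.hm D.z₁ hM₁ (by norm_num) bX'
    have bY' : Bnd 4 dY := ⟨t * max C₁ 0, fun i => by
      rcases Nat.eq_zero_or_pos i with rfl | hi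
      · rw [h0, norm_zero]; positivity
      rw [hY i hi, norm_mul, Complex.norm_real, Real.norm_of_nonneg ht0.le, mul_assoc]
      refine mul_le_mul_of_nonneg_left ((hC₁ i).2.trans ?_) ht0.le
      rw [zpow_natCast]
      exact mul_le_mul (le_max_left _ _) (pow_le_pow_left₀ (by norm_num) (by norm_num) i)
        (by positivity) (le_max_right _ _)⟩
    exact hker dX dY bX' bY' h0 hX hY
  · have e1 : ∀ᶠ q : Amb in 𝓝[{q | Pos D q}] (t, Xr, Yr, z₁, z₂), q.B₂ D < 1 - 1 / 4 :=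
      ((pos_cont D).2 _ hpos).eventually
        (gt_mem_nhds (show Bv D.m Yr z₂ < 1 - 1 / 4 by linarith))
    have e2 : ∀ᶠ q : Amb in 𝓝[{q | Pos D q}] (t, Xr, Yr, z₁, z₂),
        q.t < min t₀ (min t₃ t₄) :=
      nhdsWithin_le_nhds ((isOpen_lt continuous_fst continuous_const).mem_nhds
        (show t < min t₀ (min t₃ t₄) from lt_min a₀ (lt_min a₃ a₄)))
    filter_upwards [e1, e2, self_mem_nhdsWithin] with q b1 b2 hq'
    simp only [lt_min_iff] at b2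
    obtain ⟨c1, c2⟩ := (hF q.t (hmem hq'.tpos b2.1)).2.2.1 _ _ (Pos.eqsC hq'.eqs)
      (hS q hq' b2.2.1 (Or.inl b1.le))
    rw [c1, c2]
    exact hA _ (hmem hq'.tpos b2.2.2)
  · obtain ⟨s, X', Y', w₁, w₂⟩ := q
    obtain rfl : s = t := hqt
    obtain ⟨c1, c2⟩ := huniq _ _ (Pos.eqsC hq'.eqs) hqs
    obtain rfl : X' = Xr := min_cx_inj c1
    obtain rfl : Y' = Yr := min_cx_inj c2
    obtain rfl : w₁ = z₁ := hq'.c₁.unique D.hm hpos.c₁ (hpos.px 0)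
    obtain rfl : w₂ = z₂ := hq'.c₂.unique D.hm hpos.c₂ (by
      rw [hpos.eqs.y0]; exact one_pos)
    rfl

end Pool.Agent.MP_098ecc_co.H97
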