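import Pool.Agent.MP_098ecc_co.H97.Defs2
import Pool.Agent.MP_098ecc_co.H85.Defs
import Pool.Agent.MP_098ecc_co.H10.Det

set_option autoImplicit false

namespace Pool.Agent.MP_098ecc_co.H97

open Metric Filter Topology Set Function
open scoped BoundedContinuousFunction

theorem wal_pos (n : ℕ) : 0 < wal n := by
  induction n with
  | zero => simp [wal]
  | succ n ih => rw [wal]; positivity

theorem wal_sq (n : ℕ) : 1 / (2 * n + 1 : ℝ) ≤ wal n ^ 2 ∧ wal n ^ 2 ≤ 1 / (n + 1 : ℝ) := by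
  induction n with
  | zero => simp [wal]
  | succ n ih =>
    have h0 : (0 : ℝ) ≤ n := n.cast_nonneg
    rw [wal, mul_pow]
    push_cast
    refine ⟨le_trans ?_ (mul_le_mul_of_nonneg_right ih.1 (by positivity)),
      (mul_le_mul_of_nonneg_right ih.2 (by positivity)).trans ?_⟩ <;>
    · rw [div_pow, div_mul_div_comm, div_le_div_iff₀ (by positivity) (by positivity)]
      nlinarith [mul_nonneg h0 h0, mul_nonneg h0 (mul_nonneg h0 h0)]

theorem win_wal_le (n : ℕ) : wal n ≤ 1 := by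
  refine (pow_le_one_iff_of_nonneg (wal_pos n).le two_ne_zero).1 ((wal_sq n).2.trans ?_)
  rw [div_le_one (by positivity)]
  linarith [(n.cast_nonneg : (0 : ℝ) ≤ n)]

theorem summable_wal : Summable fun l : ℕ => wal (l - 1) / l := by
  refine (summable_nat_add_iff 1).1 (((summable_nat_add_iff 1).2
    (Real.summable_one_div_nat_rpow.2 (by norm_num : (1 : ℝ) < 3 / 2))).of_nonneg_of_le
    (fun l => div_nonneg (wal_pos _).le (by positivity)) fun l => ?_)
  refine (pow_le_pow_iff_left₀ (div_nonneg (wal_pos _).le (by positivity)) (by positivity)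
    two_ne_zero).1 ?_
  rw [div_pow, div_pow, ← Real.rpow_natCast (_ ^ _), ← Real.rpow_mul (by positivity),
    Nat.add_sub_cancel, show (3 / 2 : ℝ) * (2 : ℕ) = (3 : ℕ) by norm_num, Real.rpow_natCast]
  refine (div_le_div_of_nonneg_right (wal_sq l).2 (by positivity)).trans_eq ?_
  push_cast; field_simp

theorem win_nn (L : Set ℕ) (l : ℕ) : 0 ≤ ind ℝ L l ∧ ind ℝ L l ≤ 1 := by
  unfold ind; split_ifs <;> simp

theorem win_cast (L : Set ℕ) (l : ℕ) : ((ind ℝ L l : ℝ) : ℂ) = ind ℂ L l := by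
  unfold ind; split_ifs <;> simp

theorem win_norm (L : Set ℕ) (l : ℕ) : ‖ind ℂ L l * (wal (l - 1) : ℂ)‖ = ind ℝ L l * wal (l - 1) := by
  rw [← win_cast, ← Complex.ofReal_mul, Complex.norm_real,
    Real.norm_of_nonneg (mul_nonneg (win_nn L l).1 (wal_pos _).le)]

theorem win_le (L : Set ℕ) (l : ℕ) : ind ℝ L l * wal (l - 1) ≤ 1 :=
  mul_le_one₀ (win_nn L l).2 (wal_pos _).le (win_wal_le _)

theorem win_ser (c : ℕ → ℂ) (hc : ∀ l, ‖c l‖ ≤ 1) {z : ℂ} (hz : ‖z‖ < 1) :
    DifferentiableAt ℂ (fun z => ∑' l, c l * z ^ l) z ∧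
      HasSum (fun l => c (l + 1) * ((l : ℂ) + 1) * z ^ l) (deriv (fun z => ∑' l, c l * z ^ l) z) := by
  obtain ⟨r, h1, h2⟩ := exists_between hz
  have h3 := summable_geometric_of_lt_one ((norm_nonneg z).trans h1.le) h2
  have h4 : ∀ l, DifferentiableOn ℂ (fun z => c l * z ^ l) (ball 0 r) := fun l => by fun_prop
  have h5 : ∀ l, ∀ w ∈ ball (0 : ℂ) r, ‖c l * w ^ l‖ ≤ r ^ l := fun l w hw => by
    rw [norm_mul, norm_pow]
    exact (mul_le_of_le_one_left (by positivity) (hc l)).trans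
      (pow_le_pow_left₀ (norm_nonneg w) (mem_ball_zero_iff.1 hw).le l)
  have h6 : z ∈ ball (0 : ℂ) r := mem_ball_zero_iff.2 h1
  refine ⟨(Complex.differentiableOn_tsum_of_summable_norm h3 h4 isOpen_ball h5).differentiableAt
    (isOpen_ball.mem_nhds h6), ?_⟩
  have := (hasSum_nat_add_iff' 1).2 (Complex.hasSum_deriv_of_summable_norm h3 h4 isOpen_ball h5 h6)
  simpa [mul_assoc] using this

theorem Jf_diff (L : Set ℕ) : DifferentiableOn ℂ (Jf L) (ball 0 1) := fun _ hz =>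
  (win_ser _ (fun l => (win_norm L l).trans_le (win_le L l))
    (mem_ball_zero_iff.1 hz)).1.differentiableWithinAt

theorem win_deriv (L : Set ℕ) {z : ℂ} (hz : ‖z‖ < 1) :
    HasSum (fun l => ind ℂ L (l + 1) * (wal l : ℂ) * ((l : ℂ) + 1) * z ^ l) (deriv (Jf L) z) :=
  (win_ser _ (fun l => (win_norm L l).trans_le (win_le L l)) hz).2

theorem Jf_cont {L : Set ℕ} (h : Sparse L) : ContinuousOn (Jf L) (closedBall 0 1) := by
  refine continuousOn_tsum (fun l => by fun_prop) h fun l z hz => ?_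
  rw [norm_mul, win_norm, norm_pow]
  exact mul_le_of_le_one_right (mul_nonneg (win_nn L l).1 (wal_pos _).le)
    (pow_le_one₀ (norm_nonneg z) (mem_closedBall_zero_iff.1 hz))

theorem win_sum (L : Set ℕ) {b : ℝ} (hb : b ∈ Ico (0 : ℝ) 1) :
    Summable fun l => ind ℝ L l * wal (l - 1) * b ^ l :=
  (summable_geometric_of_lt_one hb.1 hb.2).of_nonneg_of_le
    (fun l => mul_nonneg (mul_nonneg (win_nn L l).1 (wal_pos _).le) (pow_nonneg hb.1 l))
    fun l => mul_le_of_le_one_left (pow_nonneg hb.1 l) (win_le L l)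

theorem win_real (L : Set ℕ) (b : ℝ) :
    Jf L b = ((∑' l, ind ℝ L l * wal (l - 1) * b ^ l : ℝ) : ℂ) := by
  rw [Complex.ofReal_tsum, Jf]
  simp [win_cast]

/-- real values: nonnegative, monotone, and `J ^ 2 ≤ C (1 + J')` -/
theorem Jf_real (L : Set ℕ) (hL : 0 ∉ L) : ∃ J J' : ℝ → ℝ, MonotoneOn J (Ico 0 1) ∧ ∃ C : ℝ,
    ∀ b ∈ Ico (0 : ℝ) 1, Jf L b = J b ∧ deriv (Jf L) b = J' b ∧ 0 ≤ J b ∧ 0 ≤ J' b ∧
      J b ^ 2 ≤ C * (1 + J' b) := by
  have hnn : ∀ l, 0 ≤ ind ℝ L l * wal (l - 1) := fun l => mul_nonneg (win_nn L l).1 (wal_pos _).le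
  have hS := (summable_nat_add_iff 1).2 summable_wal
  simp only [Nat.add_sub_cancel, Nat.cast_add, Nat.cast_one] at hS
  set S := ∑' l : ℕ, wal l / ((l : ℝ) + 1) with hS'
  refine ⟨fun b => ∑' l, ind ℝ L l * wal (l - 1) * b ^ l,
    fun b => ∑' l, ind ℝ L (l + 1) * wal l * ((l : ℝ) + 1) * b ^ l, fun a ha b hb hab =>
      (win_sum L ha).tsum_le_tsum (fun l => mul_le_mul_of_nonneg_left
        (pow_le_pow_left₀ ha.1 hab l) (hnn l)) (win_sum L hb), ((1 + S) / 2) ^ 2, fun b hb => ?_⟩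
  have hb' : ‖(b : ℂ)‖ < 1 := by rw [Complex.norm_real, Real.norm_of_nonneg hb.1]; exact hb.2
  have h0 : ∀ l, 0 ≤ ind ℝ L (l + 1) * wal l * ((l : ℝ) + 1) * b ^ l := fun l =>
    mul_nonneg (mul_nonneg (hnn (l + 1)) (by positivity)) (pow_nonneg hb.1 l)
  have h1 : Summable fun l => ind ℝ L (l + 1) * wal l * ((l : ℝ) + 1) * b ^ l :=
    (H10.summable_lin hb.1 hb.2).of_nonneg_of_le h0 fun l => by
      rw [mul_assoc]
      exact mul_le_of_le_one_left (mul_nonneg (by positivity) (pow_nonneg hb.1 l)) (win_le L (l + 1))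
  have h2 : 0 ≤ ∑' l, ind ℝ L l * wal (l - 1) * b ^ l :=
    tsum_nonneg fun l => mul_nonneg (hnn l) (pow_nonneg hb.1 l)
  refine ⟨win_real L b, ?_, h2, tsum_nonneg h0, ?_⟩
  · rw [← (win_deriv L hb').tsum_eq, Complex.ofReal_tsum]
    simp [win_cast]
  beta_reduce
  set J' := ∑' l, ind ℝ L (l + 1) * wal l * ((l : ℝ) + 1) * b ^ l with hJ'
  have h3 : 0 ≤ J' := tsum_nonneg h0
  obtain ⟨s, hs0, hs⟩ : ∃ s : ℝ, 0 < s ∧ s ^ 2 = 1 + J' :=
    ⟨√(1 + J'), by positivity, Real.sq_sqrt (by positivity)⟩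
  rw [← hs, ← mul_pow]
  refine pow_le_pow_left₀ h2 ?_ 2
  rw [(win_sum L hb).tsum_eq_zero_add]
  have h4 : ∑' l, ind ℝ L (l + 1) * wal (l + 1 - 1) * b ^ (l + 1) ≤ (s⁻¹ * J' + s * S) / 2 := by
    refine hasSum_le (fun l => ?_) ((summable_nat_add_iff 1).2 (win_sum L hb)).hasSum
      (((h1.hasSum.mul_left s⁻¹).add (hS.hasSum.mul_left s)).div_const 2)
    have a1 := wal_pos l
    have a2 : b ^ l ≤ 1 := pow_le_one₀ hb.1 hb.2.le
    have a3 : 0 ≤ b ^ l := pow_nonneg hb.1 l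
    have a4 : b ^ (l + 1) ≤ b ^ l := pow_le_pow_of_le_one hb.1 hb.2.le l.le_succ
    rw [Nat.add_sub_cancel]
    unfold ind
    split_ifs
    · obtain ⟨μ, hμ, e⟩ : ∃ μ : ℝ, 0 < μ ∧ μ = s⁻¹ * ((l : ℝ) + 1) := ⟨_, by positivity, rfl⟩
      have e1 : s * (wal l / ((l : ℝ) + 1)) = wal l * μ⁻¹ := by rw [e]; field_simp
      have e2 : s⁻¹ * (1 * wal l * ((l : ℝ) + 1) * b ^ l) = wal l * (μ * b ^ l) := by rw [e]; ring
      have e3 : 2 * b ^ l ≤ μ * b ^ l + μ⁻¹ := by
        have e4 := mul_inv_cancel₀ hμ.ne'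
        have e5 := inv_pos.2 hμ
        nlinarith [mul_nonneg e5.le (sq_nonneg (μ * b ^ l - 1)), mul_nonneg hμ.le
          (mul_nonneg a3 (sub_nonneg.2 a2))]
      rw [e1, e2]
      nlinarith
    · simp only [zero_mul, mul_zero, zero_add]; positivity
  have h5 : s⁻¹ * J' ≤ s := by rw [inv_mul_le_iff₀ hs0]; nlinarith
  simp only [ind, if_neg hL, zero_mul, zero_add] at h4 ⊢
  linarith

theorem sparse_of_bdd {L : Set ℕ} {b : ℕ → ℝ} (h0 : ∀ n, b n ∈ Ico (0 : ℝ) 1)
    (hb : Tendsto b atTop (𝓝 1)) {C : ℝ} (h : ∀ n, ‖Jf L (b n)‖ ≤ C) : Sparse L := by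
  have hnn : ∀ l, 0 ≤ ind ℝ L l * wal (l - 1) := fun l => mul_nonneg (win_nn L l).1 (wal_pos _).le
  refine summable_of_sum_range_le (c := C) hnn fun N => ?_
  have h1 : Tendsto (fun n => ∑ l ∈ Finset.range N, ind ℝ L l * wal (l - 1) * b n ^ l) atTop
      (𝓝 (∑ l ∈ Finset.range N, ind ℝ L l * wal (l - 1) * 1 ^ l)) :=
    tendsto_finsetSum _ fun l _ => (hb.pow l).const_mul _
  simp only [one_pow, mul_one] at h1
  refine le_of_tendsto' h1 fun n => ?_
  have := h n
  rw [win_real, Complex.norm_real] at this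
  exact ((win_sum L (h0 n)).sum_le_tsum _ fun l _ =>
    mul_nonneg (hnn l) (pow_nonneg (h0 n).1 l)).trans ((Real.le_norm_self _).trans this)

theorem not_sparse {L : Set ℕ} (h : H85.EvPer L) (hi : L.Infinite) : ¬ Sparse L := by
  obtain ⟨p, hp, N, h⟩ := h
  obtain ⟨l, hl, hN⟩ := hi.exists_gt N
  have h1 : ∀ k, l + k * p ∈ L := by
    intro k
    induction k with
    | zero => simpa using hl
    | succ k ih => rw [add_mul, one_mul, ← add_assoc]; exact (h _ (by omega)).2 ih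
  intro hs
  have h2 := hs.comp_injective (i := fun k => l + k * p) fun a b hab =>
    Nat.eq_of_mul_eq_mul_right hp (Nat.add_left_cancel hab)
  refine Real.not_summable_one_div_natCast ((summable_nat_add_iff 1).1
    ((h2.mul_left (2 * ((l : ℝ) + p))).of_nonneg_of_le (fun _ => by positivity) fun k => ?_))
  obtain ⟨n, hn⟩ : ∃ n, l + k * p = n + 1 := ⟨l + k * p - 1, by omega⟩
  have h3 : (l : ℝ) + k * p = n + 1 := by exact_mod_cast hn
  have h4 := (wal_sq n).1
  have h5 := wal_pos n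
  have h6 := win_wal_le n
  simp only [comp_apply, ind, if_pos (h1 k), one_mul, hn, Nat.add_sub_cancel]
  rw [div_le_iff₀ (by positivity)] at h4 ⊢
  push_cast
  have h7 : (2 * n + 1 : ℝ) ≤ 2 * (l + p) * (k + 1) := by
    nlinarith [(by positivity : (0 : ℝ) ≤ l * k), (by positivity : (0 : ℝ) ≤ p)]
  nlinarith [mul_le_mul_of_nonneg_left h7 h5.le, mul_nonneg (mul_nonneg h5.le (sub_nonneg.2 h6))
    (by positivity : (0 : ℝ) ≤ 2 * n + 1)]

theorem adm_iff {L : Set ℕ} (hi : L.Infinite) {B : ℝ} (hB : 0 ≤ B) : Adm L B ↔ B < 1 := by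
  constructor
  · rintro ⟨B', h1, h2⟩
    by_contra h3
    obtain ⟨N, hN⟩ := eventually_atTop.1 (h2.tendsto_atTop_zero.eventually_lt_const one_pos)
    obtain ⟨l, hl, hlN⟩ := hi.exists_gt N
    have := hN l hlN.le
    rw [ind, if_pos hl, one_mul] at this
    exact this.not_ge (one_le_pow₀ (by linarith))
  · intro h
    obtain ⟨B', h1, h2⟩ := exists_between h
    have h3 := hB.trans h1.le
    exact ⟨B', h1, (summable_geometric_of_lt_one h3 h2).of_nonneg_of_le
      (fun l => mul_nonneg (win_nn L l).1 (pow_nonneg h3 l))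
      fun l => mul_le_of_le_one_left (pow_nonneg h3 l) (win_nn L l).2⟩

theorem adm_of_finite {L : Set ℕ} (hi : L.Finite) (B : ℝ) : Adm L B :=
  ⟨B + 1, lt_add_one B, summable_of_ne_finset_zero (s := hi.toFinset) fun l hl => by
    rw [ind, if_neg (by simpa using hl), zero_mul]⟩

theorem evPer_of_finite {L : Set ℕ} (hi : L.Finite) : H85.EvPer L := by
  obtain ⟨N, hN⟩ := hi.bddAbove
  exact ⟨1, one_pos, N + 1, fun n hn => iff_of_false (fun h => by have := hN h; omega)
    fun h => by have := hN h; omega⟩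

theorem win_J {L : Set ℕ} (h : Bdd (deriv (Jf L))) : H85.EvPer L := by
  have hs : ∀ n : ℕ, ((n + 1 : ℕ) + 1 : ℝ) * wal (n + 1) =
      ((n : ℝ) + 1) * wal n * (1 + 1 / (2 * n + 3)) := by
    intro n; rw [wal]; push_cast; field_simp; ring
  have hp : ∀ n : ℕ, 0 < ((n : ℝ) + 1) * wal n := fun n => mul_pos (by positivity) (wal_pos n)
  have hm : Monotone fun n : ℕ => ((n : ℝ) + 1) * wal n := monotone_nat_of_le_succ fun n => by
    rw [hs]; exact le_mul_of_one_le_right (hp n).le (le_add_of_nonneg_right (by positivity))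
  obtain ⟨p, hp0, N, hN⟩ := H10.win_gen {l | l + 1 ∈ L} (fun n => ((n : ℝ) + 1) * wal n)
    (fun l => by simpa [wal] using hm l.zero_le)
    (fun l => mul_le_of_le_one_right (by positivity) (win_wal_le l)) hm (fun n k => by
      induction k with
      | zero => simp [wal]
      | succ k ih =>
        rw [← add_assoc, hs, hs, ← mul_assoc]
        refine mul_le_mul ih ?_ (by positivity) (mul_pos (hp n) (hp k)).le
        push_cast; gcongr; linarith [(n.cast_nonneg : (0 : ℝ) ≤ n)])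
    (by
      have : Tendsto (fun n : ℕ => 1 + 1 / (2 * n + 3 : ℝ)) atTop (𝓝 (1 + 0)) :=
        (tendsto_const_nhds.div_atTop (tendsto_atTop_add_const_right _ _
          (tendsto_natCast_atTop_atTop.const_mul_atTop two_pos))).const_add 1
      rw [add_zero] at this
      exact this.congr fun n => by rw [hs, mul_div_cancel_left₀ _ (hp n).ne'])
    ((((summable_nat_add_iff 2).2 summable_wal).mul_left 4).of_nonneg_of_le
      (fun k => div_nonneg (hp _).le (by positivity)) fun k => by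
        have h1 := wal_pos (k + 1)
        have h2 : (0 : ℝ) ≤ k := k.cast_nonneg
        rw [show k + 2 - 1 = k + 1 from rfl, ← mul_div_assoc,
          div_le_div_iff₀ (by positivity) (by positivity)]
        push_cast
        nlinarith [mul_nonneg h1.le h2, mul_nonneg h1.le (mul_nonneg h2 h2)])
    (by
      obtain ⟨β, hβ, ε, hε, C, hC⟩ := h
      refine ⟨β, hβ, ε, hε, C, fun b h1 h2 => le_of_eq_of_le ?_ (hC b h1 h2)⟩
      rw [← (win_deriv L h1).tsum_eq]
      congr 1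
      refine tsum_congr fun l => ?_
      have : ind ℂ {l | l + 1 ∈ L} l = ind ℂ L (l + 1) := rfl
      rw [this]; push_cast; ring)
  refine ⟨p, hp0, N + 1, fun n hn => ?_⟩
  obtain ⟨k, rfl⟩ : ∃ k, n = k + 1 := ⟨n - 1, by omega⟩
  rw [add_right_comm]
  exact hN k (by omega)

theorem win_G {L : Set ℕ} (h : Bdd (ser (ind ℂ L))) : H85.EvPer L :=
  H10.win_gen L (fun _ => 1) (fun _ => le_rfl) (fun l => le_add_of_nonneg_left l.cast_nonneg)
    monotone_const (fun _ _ => by simp) (by simp)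
    (by simpa using (summable_nat_add_iff 1).2 (Real.summable_one_div_nat_pow.2 one_lt_two))
    (by simpa using (show Bdd fun z => ∑' l, ind ℂ L l * z ^ l from h))

/-- rational form of an eventually periodic series -/
theorem rat_of_evPer {L : Set ℕ} (h : H85.EvPer L) : ∃ n : ℕ, 0 < n ∧ ∃ N : Polynomial ℂ,
    ∀ v : ℂ, ‖v‖ < 1 → (1 - v ^ n) * ∑' l, ind ℂ L l * v ^ (l - 1) = N.eval v := by
  obtain ⟨p, hp, N, h⟩ := h
  refine ⟨p, hp, ∑ l ∈ Finset.range (N + 1 + p), Polynomial.C (ind ℂ L l) * Polynomial.X ^ (l - 1) -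
    Polynomial.X ^ p * ∑ l ∈ Finset.range (N + 1),
      Polynomial.C (ind ℂ L l) * Polynomial.X ^ (l - 1), fun v hv => ?_⟩
  have hs : Summable fun l => ind ℂ L l * v ^ (l - 1) := by
    refine (summable_nat_add_iff 1).1 (.of_norm_bounded
      (summable_geometric_of_lt_one (norm_nonneg v) hv) fun l => ?_)
    rw [norm_mul, norm_pow]
    exact mul_le_of_le_one_left (by positivity) (H10.norm_ind_le _ _)
  have h1 := hs.sum_add_tsum_nat_add (N + 1 + p)
  have h2 := hs.sum_add_tsum_nat_add (N + 1)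
  have h3 : ∑' i, ind ℂ L (i + (N + 1 + p)) * v ^ (i + (N + 1 + p) - 1) =
      v ^ p * ∑' i, ind ℂ L (i + (N + 1)) * v ^ (i + (N + 1) - 1) := by
    rw [← tsum_mul_left]
    refine tsum_congr fun i => ?_
    rw [ind, ind, ← add_assoc, propext (h _ (by omega)),
      show i + (N + 1) + p - 1 = p + (i + (N + 1) - 1) by omega, pow_add]
    ring
  simp only [Polynomial.eval_sub, Polynomial.eval_mul, Polynomial.eval_finsetSum,
    Polynomial.eval_pow, Polynomial.eval_X, Polynomial.eval_C]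
  linear_combination h3 - h1 + v ^ p * h2

end Pool.Agent.MP_098ecc_co.H97
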