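import Pool.Agent.MP_098ecc_co.H97.Defs2
import Pool.Agent.MP_098ecc_co.H97.Win
import Pool.Agent.MP_098ecc_co.H85.Main
import Pool.Agent.MP_098ecc_co.H10.Link

set_option autoImplicit false

namespace Pool.Agent.MP_098ecc_co.H97

open Metric Filter Topology Set Function
open scoped BoundedContinuousFunction

theorem link (D : Dat) (D₁ D₂ : Set ℕ)
    (h₁ : ∀ n, 0 < n → (n ∈ D₁ ↔ ∃ l ∈ D.L₁, n = D.m * l))
    (h₂ : ∀ n, 0 < n → (n ∈ D₂ ↔ ∃ l ∈ D.L₂, n = D.m * l))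
    (h : IsAlgebraic (Polynomial ℚ) (PowerSeries.mk fun n => (H85.count D₁ D₂ n : ℚ))) :
    ∃ P δ, Bez P δ ∧ Link D P := H10.link D D₁ D₂ h₁ h₂ h

/-- exchange of the colours -/
def topSwap {D₁ D₂ : Set ℕ} {n : ℕ} (m : H85.EMap D₁ D₂ n) : H85.EMap D₂ D₁ n where
  σ := m.τ
  τ := m.σ
  root := m.root
  conn := by rw [pair_comm]; exact m.conn
  planar := by
    rw [← m.planar, ← H85.cycles_conj m.τ (m.σ * m.τ), add_comm (H85.cycles m.τ)]
    congr 2; group
  black := m.white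
  white := m.black

theorem top_comm (D₁ D₂ : Set ℕ) (n : ℕ) : H85.count D₁ D₂ n = H85.count D₂ D₁ n :=
  Nat.card_congr (Quot.congr ⟨topSwap, topSwap, fun _ => rfl, fun _ => rfl⟩ fun _ _ =>
    exists_congr fun _ => and_left_comm)

theorem top_zero {D₁ : Set ℕ} (D₂ : Set ℕ) (h : D₁ ⊆ {0}) (n : ℕ) : H85.count D₁ D₂ n = 0 := by
  have : IsEmpty (H85.EMap D₁ D₂ n) := ⟨fun m =>
    (MulAction.minimalPeriod_pos m.σ m.root).1 (h (m.black m.root))⟩
  have : IsEmpty (Quot (@H85.Iso D₁ D₂ n)) := ⟨fun q => q.inductionOn fun m => this.false m⟩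
  exact Nat.card_of_isEmpty

theorem top_zz (x y : ℕ → ℚ) (h0 : x 0 = 1) (h1 : ∀ m, x (m + 1) = 0) (n l : ℕ) :
    H85.zz x y n 0 l = if n = l then 1 else 0 := by
  induction n generalizing l with
  | zero => simp [H85.zz, eq_comm]
  | succ n ih =>
    rcases l with _ | l
    · simp [H85.zz]
    · rw [H85.zz, Finset.sum_range_succ']
      simp [h0, h1, ih]

open Classical in
theorem top_one {D₁ : Set ℕ} (D₂ : Set ℕ) (h : ∀ n, n + 1 ∈ D₁ ↔ n = 0) (n : ℕ) :
    (H85.count D₁ D₂ n : ℚ) = if n ∈ D₂ \ {0} then 1 else 0 := by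
  rw [H85.count_eq]
  rcases n with _ | n
  · simp
  have h0 : ∀ m, (H85.wt (fun c => cond c D₁ D₂) true m : ℚ) = if m = 0 then 1 else 0 := by
    intro m; simp [H85.wt, h]
  rw [Finset.sum_range_succ', Finset.sum_eq_zero fun m _ => by simp [h0], H85.zz]
  simp only [top_zz (fun m => (H85.wt (fun c => cond c D₁ D₂) true m : ℚ)) _
    ((h0 0).trans (if_pos rfl)) fun m => (h0 _).trans (if_neg m.succ_ne_zero)]
  simp [H85.wt, (h 0).2 rfl]

theorem top_eval (F : PowerSeries ℚ) {v : ℂ}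
    (hF : Summable fun n => ‖((PowerSeries.coeff n F : ℚ) : ℂ) * v ^ n‖) (P : Polynomial (Polynomial ℚ)) :
    (Summable fun n => ‖((PowerSeries.coeff n (Polynomial.aeval F P) : ℚ) : ℂ) * v ^ n‖) ∧
      ∑' n, ((PowerSeries.coeff n (Polynomial.aeval F P) : ℚ) : ℂ) * v ^ n =
        ev P v (∑' n, ((PowerSeries.coeff n F : ℚ) : ℂ) * v ^ n) := by
  let R : PowerSeries ℚ → ℂ → Prop := fun f z =>
    (Summable fun n => ‖((PowerSeries.coeff n f : ℚ) : ℂ) * v ^ n‖) ∧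
      ∑' n, ((PowerSeries.coeff n f : ℚ) : ℂ) * v ^ n = z
  have add : ∀ f g z w, R f z → R g w → R (f + g) (z + w) := by
    rintro f g _ _ ⟨h1, rfl⟩ ⟨h2, rfl⟩
    simp only [R, map_add, Rat.cast_add, add_mul]
    exact ⟨(h1.add h2).of_nonneg_of_le (fun _ => norm_nonneg _) fun _ => norm_add_le _ _,
      h1.of_norm.tsum_add h2.of_norm⟩
  have mul : ∀ f g z w, R f z → R g w → R (f * g) (z * w) := by
    rintro f g _ _ ⟨h1, rfl⟩ ⟨h2, rfl⟩
    have e : ∀ n, ((PowerSeries.coeff n (f * g) : ℚ) : ℂ) * v ^ n = ∑ p ∈ Finset.HasAntidiagonal.antidiagonal n,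
        ((PowerSeries.coeff p.1 f : ℚ) : ℂ) * v ^ p.1 * (((PowerSeries.coeff p.2 g : ℚ) : ℂ) * v ^ p.2) := by
      intro n
      rw [PowerSeries.coeff_mul, Rat.cast_sum, Finset.sum_mul]
      refine Finset.sum_congr rfl fun p hp => ?_
      rw [← Finset.HasAntidiagonal.mem_antidiagonal.1 hp]; push_cast; ring
    simp only [R, e]
    have h3 := summable_norm_sum_mul_antidiagonal_of_summable_norm h1 h2
    have h4 := tsum_mul_tsum_eq_tsum_sum_antidiagonal_of_summable_norm h1 h2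
    exact ⟨h3, h4.symm⟩
  have mon : ∀ (k : ℕ) (c : ℚ), R (PowerSeries.monomial k c) (c * v ^ k) := by
    intro k c
    refine ⟨summable_of_ne_finset_zero (s := {k}) fun n hn => ?_, ?_⟩
    · simp [PowerSeries.coeff_monomial, Finset.notMem_singleton.1 hn]
    · rw [tsum_eq_single k fun n hn => by simp [PowerSeries.coeff_monomial, hn]]
      simp
  have pol : ∀ p : Polynomial ℚ, R p (Polynomial.aeval v p) := by
    intro p
    induction p using Polynomial.induction_on' with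
    | add p q hp hq => rw [Polynomial.coe_add, map_add]; exact add _ _ _ _ hp hq
    | monomial k c => simpa using mon k c
  rw [H10.ev_eq]
  change R _ _
  induction P using Polynomial.induction_on with
  | C p => simpa [PowerSeries.algebraMap_apply'] using pol p
  | add p q hp hq => rw [map_add, Polynomial.eval₂_add]; exact add _ _ _ _ hp hq
  | monomial k p hp =>
    rw [pow_succ, ← mul_assoc, map_mul, Polynomial.eval₂_mul, Polynomial.aeval_X,
      Polynomial.eval₂_X]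
    exact mul _ _ _ _ hp ⟨hF, rfl⟩

theorem top_alg {L : Set ℕ} [DecidablePred (· ∈ L)] (h : IsAlgebraic (Polynomial ℚ)
    (PowerSeries.mk fun n => if n ∈ L then (1 : ℚ) else 0)) : H85.EvPer L := by
  obtain ⟨P, hP0, hP⟩ := h
  have hz : ∀ v : ℂ, ‖v‖ < 1 → ev P v (ser (ind ℂ L) v) = 0 := by
    intro v hv
    have e : ∀ n, ((PowerSeries.coeff n (PowerSeries.mk fun n => if n ∈ L then (1 : ℚ) else 0) :
        ℚ) : ℂ) = ind ℂ L n := fun n => by simp [ind, apply_ite ((↑) : ℚ → ℂ)]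
    have := (top_eval _ (v := v) (by
      refine (summable_geometric_of_lt_one (norm_nonneg v) hv).of_nonneg_of_le
        (fun _ => norm_nonneg _) fun n => ?_
      rw [e, norm_mul, norm_pow]
      exact mul_le_of_le_one_left (by positivity) (H10.norm_ind_le _ _)) P).2
    simp only [e, hP, map_zero, Rat.cast_zero, zero_mul, tsum_zero] at this
    exact this.symm
  obtain ⟨β, hβ, h0⟩ : ∃ β : ℂ, ‖β‖ = 1 ∧ Polynomial.aeval β P.leadingCoeff ≠ 0 := by
    have h1 : (sphere (0 : ℂ) 1).Infinite :=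
      ((isConnected_sphere (by rw [Complex.rank_real_complex]; norm_num) _
        zero_le_one).isPreconnected.infinite_of_nontrivial
        ⟨1, by simp, -1, by simp, by norm_num⟩)
    obtain ⟨β, h2, h3⟩ := h1.exists_notMem_finite (P.leadingCoeff.rootSet_finite ℂ)
    exact ⟨β, by simpa using h2, fun h => h3 (Polynomial.mem_rootSet.2
      ⟨Polynomial.leadingCoeff_ne_zero.2 hP0, h⟩)⟩
  have hc : ContinuousAt (fun v : ℂ => (∑ i ∈ Finset.range P.natDegree,
      ‖Polynomial.aeval v (P.coeff i)‖) / ‖Polynomial.aeval v P.leadingCoeff‖) β :=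
    (Continuous.continuousAt (by fun_prop)).div (Continuous.continuousAt (by fun_prop))
      (norm_ne_zero_iff.2 h0)
  obtain ⟨ε, hε, h1⟩ := Metric.eventually_nhds_iff.1 ((hc.eventually_lt_const (lt_add_one _)).and
    ((P.leadingCoeff.continuous_aeval.continuousAt (x := β)).eventually_ne h0))
  generalize (∑ i ∈ Finset.range P.natDegree,
      ‖Polynomial.aeval β (P.coeff i)‖) / ‖Polynomial.aeval β P.leadingCoeff‖ + 1 = K at h1
  refine win_G ⟨β, hβ, ε, hε, max 1 K, fun v hv hv' => le_of_not_gt fun h2 => ?_⟩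
  obtain ⟨h3, h4⟩ := h1 (show dist v β < ε by rwa [dist_eq_norm])
  have h5 := hz v hv
  rw [H10.ev_eq, Polynomial.eval₂_eq_sum_range, Finset.sum_range_succ] at h5
  obtain ⟨h6, h7⟩ := max_lt_iff.1 h2
  have h8 := (div_lt_iff₀ (norm_pos_iff.2 h4)).1 (h3.trans h7)
  generalize ser (ind ℂ L) v = G at h5 h6 h8
  have h9 := congrArg norm (eq_neg_of_add_eq_zero_right h5)
  rw [norm_neg, norm_mul, norm_pow] at h9
  have h10 : ‖G‖ * ‖∑ i ∈ Finset.range P.natDegree,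
      (Polynomial.aeval v : Polynomial ℚ →ₐ[ℚ] ℂ) (P.coeff i) * G ^ i‖ ≤
      (∑ i ∈ Finset.range P.natDegree, ‖Polynomial.aeval v (P.coeff i)‖) * ‖G‖ ^ P.natDegree := by
    refine (mul_le_mul_of_nonneg_left (norm_sum_le _ _) (norm_nonneg _)).trans ?_
    rw [Finset.mul_sum, Finset.sum_mul]
    refine Finset.sum_le_sum fun i hi => ?_
    rw [norm_mul, norm_pow, mul_left_comm, ← pow_succ']
    exact mul_le_mul_of_nonneg_left (pow_le_pow_right₀ h6.le (Finset.mem_range.1 hi))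
      (norm_nonneg _)
  have h11 := mul_lt_mul_of_pos_right h8 (pow_pos (one_pos.trans h6) P.natDegree)
  refine (h10.trans_lt h11).ne ?_
  rw [mul_assoc]
  exact congrArg _ h9.symm

theorem top_half (core : ∀ (D : Dat) P δ, Bez P δ → Link D P → H85.EvPer D.L₂) {D₁ D₂ : Set ℕ}
    (h : IsAlgebraic (Polynomial ℚ) (PowerSeries.mk fun n => (H85.count D₁ D₂ n : ℚ)))
    (h₁ : ¬ D₁ ⊆ {0}) : H85.EvPer D₂ := by
  classical
  by_contra hne
  obtain ⟨a, ha, ha0⟩ := not_subset.1 h₁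
  by_cases h2 : ∃ d ∈ D₁, 2 ≤ d
  swap
  · have h3 : ∀ n, n + 1 ∈ D₁ ↔ n = 0 := fun n => ⟨fun h4 => by
      by_contra h5; exact h2 ⟨_, h4, by omega⟩, fun h4 => by
      have : a = n + 1 := by
        by_contra h5
        exact h2 ⟨a, ha, by have : a ≠ 0 := ha0; omega⟩
      exact this ▸ ha⟩
    simp only [top_one D₂ h3] at h
    obtain ⟨p, hp, N, hN⟩ := top_alg h
    refine hne ⟨p, hp, N + 1, fun n hn => ?_⟩
    simpa [show n ≠ 0 by omega] using hN n (by omega)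
  obtain ⟨d, hd, hd2⟩ := h2
  let Q : ℕ → Prop := fun m => (∀ k ∈ D₁, m ∣ k) ∧ ∀ k ∈ D₂, m ∣ k
  have hQ : Q (Nat.findGreatest Q d) :=
    Nat.findGreatest_spec (m := 1) (by omega) ⟨fun _ _ => one_dvd _, fun _ _ => one_dvd _⟩
  have hmax : ∀ k, Q k → k ≤ Nat.findGreatest Q d := fun k hk =>
    Nat.le_findGreatest (Nat.le_of_dvd (by omega) (hk.1 d hd)) hk
  generalize Nat.findGreatest Q d = m at hQ hmax
  have hm : 0 < m := hmax 1 ⟨fun _ _ => one_dvd _, fun _ _ => one_dvd _⟩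
  have hE : ∀ E : Set ℕ, (∀ k ∈ E, m ∣ k) →
      ∀ n, 0 < n → (n ∈ E ↔ ∃ l ∈ {l | 0 < l ∧ m * l ∈ E}, n = m * l) := by
    intro E hE n hn
    refine ⟨fun h => ?_, fun ⟨l, hl, e⟩ => e ▸ hl.2⟩
    obtain ⟨l, rfl⟩ := hE n h
    exact ⟨l, ⟨Nat.pos_of_mul_pos_left hn, h⟩, rfl⟩
  have hper : H85.EvPer {l | 0 < l ∧ m * l ∈ D₂} → H85.EvPer D₂ := by
    rintro ⟨p, hp, N, hN⟩
    refine ⟨m * p, by positivity, m * (N + 1), fun n hn => ?_⟩
    by_cases h3 : m ∣ n
    · obtain ⟨l, rfl⟩ := h3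
      have h4 := Nat.le_of_mul_le_mul_left hn hm
      simpa [show 0 < l by omega, mul_add] using hN l (by omega)
    · exact iff_of_false (fun h4 => h3 ((Nat.dvd_add_left (dvd_mul_right m p)).1 (hQ.2 _ h4)))
        fun h4 => h3 (hQ.2 _ h4)
  have hg : ∀ (E : Set ℕ) (g : ℕ), (∀ k ∈ E, m ∣ k) → (∀ l ∈ {l | 0 < l ∧ m * l ∈ E}, g ∣ l) →
      ∀ k ∈ E, m * g ∣ k := by
    intro E g h3 h4 k hk
    obtain ⟨l, rfl⟩ := h3 k hk
    rcases Nat.eq_zero_or_pos l with rfl | hl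
    · simp
    · exact Nat.mul_dvd_mul_left m (h4 l ⟨hl, hk⟩)
  obtain ⟨l₀, hl₀, e₀⟩ := (hE D₁ hQ.1 d (by omega)).1 hd
  let D : Dat := ⟨m, {l | 0 < l ∧ m * l ∈ D₁}, {l | 0 < l ∧ m * l ∈ D₂}, hm, by simp, by simp,
    fun h3 => hne (hper (evPer_of_finite h3)), ⟨l₀, hl₀, e₀ ▸ hd2⟩, fun g h3 h4 => by
      have h5 := hmax _ ⟨hg _ g hQ.1 h3, hg _ g hQ.2 h4⟩
      have h6 := Nat.pos_of_dvd_of_pos (h3 l₀ hl₀) hl₀.1
      nlinarith⟩
  obtain ⟨P, δ, h3, h4⟩ := link D D₁ D₂ (hE D₁ hQ.1) (hE D₂ hQ.2) h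
  exact hne (hper (core D P δ h3 h4))

theorem final_of_core (core : ∀ (D : Dat) P δ, Bez P δ → Link D P → H85.EvPer D.L₂)
    (D₁ D₂ : Set ℕ) :
    IsAlgebraic (Polynomial ℚ) (PowerSeries.mk fun n => (H85.count D₁ D₂ n : ℚ)) ↔
      (D₁ ⊆ {0} ∨ D₂ ⊆ {0} ∨ (H85.EvPer D₁ ∧ H85.EvPer D₂)) := by
  have hz : IsAlgebraic (Polynomial ℚ) (PowerSeries.mk fun _ => ((0 : ℕ) : ℚ)) := by
    have : (PowerSeries.mk fun _ => ((0 : ℕ) : ℚ)) = 0 := by ext; simp
    rw [this]; exact isAlgebraic_zero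
  constructor
  · intro h
    by_cases h₁ : D₁ ⊆ {0}
    · exact .inl h₁
    by_cases h₂ : D₂ ⊆ {0}
    · exact .inr (.inl h₂)
    exact .inr (.inr ⟨top_half core (by simpa only [top_comm D₂] using h) h₂, top_half core h h₁⟩)
  · rintro (h | h | h)
    · simpa only [top_zero D₂ h] using hz
    · simpa only [top_comm D₁, top_zero D₁ h] using hz
    · exact H85.main h.1 h.2

end Pool.Agent.MP_098ecc_co.H97
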