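import Pool.Agent.MP_098ecc_co.H97.CaseA1
import Pool.Agent.MP_098ecc_co.H97.CaseA2
import Pool.Agent.MP_098ecc_co.H97.CaseB1
import Pool.Agent.MP_098ecc_co.H97.CaseB2
import Pool.Agent.MP_098ecc_co.H97.C1
import Pool.Agent.MP_098ecc_co.H97.Min
import Pool.Agent.MP_098ecc_co.H97.Top

set_option autoImplicit false

namespace Pool.Agent.MP_098ecc_co.H97

open Metric Filter Topology Set Function
open scoped BoundedContinuousFunction

variable {D : Dat} {P : Polynomial (Polynomial ℚ)} {δ : Polynomial ℚ}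

theorem core_t : Continuous (Amb.t) := continuous_fst

/-- a sequence of good points converging to a wall -/
theorem core_wall (hB : Bez P δ) {p : ℕ → Amb} (hg : ∀ n, Good D P (p n)) {q : Amb}
    (hw : Wall D q) (hl : Tendsto p atTop (𝓝 q)) : H85.EvPer D.L₂ := by
  letI : MetricSpace Amb := TopologicalSpace.metrizableSpaceMetric Amb
  -- perturb so that `t ≠ q.t`
  have h1 : ∀ n : ℕ, ∃ r : Amb, Good D P r ∧ r.t ≠ q.t ∧ dist r (p n) < 1 / ((n : ℝ) + 1) := by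
    intro n
    have hpos : (0 : ℝ) < 1 / ((n : ℝ) + 1) := by positivity
    by_cases h : (p n).t = q.t
    · obtain ⟨r, ⟨hr1, hr2⟩, hr3⟩ := ((pert (hg n)).and_eventually
        (ball_mem_nhds (p n) hpos)).exists
      exact ⟨r, hr1, h ▸ hr2, hr3⟩
    · exact ⟨p n, hg n, h, by simpa using hpos⟩
  choose r hr1 hr2 hr3 using h1
  have hlr : Tendsto r atTop (𝓝 q) := by
    refine hl.congr_dist ?_
    refine squeeze_zero (fun n => dist_nonneg) (fun n => ?_) tendsto_one_div_add_atTop_nhds_zero_nat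
    rw [dist_comm]; exact (hr3 n).le
  have ht : Tendsto (fun n => (r n).t) atTop (𝓝 q.t) := (core_t.tendsto q).comp hlr
  have hδ : ∀ᶠ n in atTop, Polynomial.aeval (((r n).t : ℝ) : ℂ) δ ≠ 0 := by
    have h2 : Tendsto (fun n => (r n).t) atTop (𝓝[≠] q.t) :=
      tendsto_nhdsWithin_iff.2 ⟨ht, Eventually.of_forall hr2⟩
    exact h2.eventually (delta_ev hB.1 q.t)
  obtain ⟨N, hN⟩ := eventually_atTop.1 hδ
  have hsh : Tendsto (fun n => n + N) atTop atTop := tendsto_add_atTop_nat N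
  obtain ⟨q', φ, hφ, hq', h⟩ := c1 D (fun n => r (n + N)) (fun n => (hr1 _).pos) hw.tpos
    (ht.comp hsh)
  have hqq : q' = q := tendsto_nhds_unique hq' ((hlr.comp hsh).comp hφ.tendsto_atTop)
  subst hqq
  rcases h with h | ⟨-, hs⟩
  · exact absurd ⟨h.a₁, h.a₂⟩ hw.exit
  have hg' : ∀ n, Good D P (((fun n => r (n + N)) ∘ φ) n) := fun n => hr1 _
  have hδ' : ∀ n, Polynomial.aeval (((((fun n => r (n + N)) ∘ φ) n).t : ℝ) : ℂ) δ ≠ 0 :=
    fun n => hN _ (Nat.le_add_left _ _)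
  by_cases a₁ : Adm D.L₁ (q'.B₁ D)
  · exact caseA1 hB hw hs hg' hδ' a₁
  by_cases a₂ : Adm D.L₂ (q'.B₂ D)
  · exact caseA2 hB hw hs hg' hδ' a₁ a₂
  · exact caseA3 hB hw hs hg' hδ' a₁ a₂

/-- good points that are not small for arbitrarily small `t` -/
theorem core_zero (hB : Bez P δ) {η : ℝ} (hη : 0 < η)
    (h : ∀ t₁ > (0 : ℝ), ∃ p, Good D P p ∧ p.t < t₁ ∧ ¬ Small η p.cX p.cY) : H85.EvPer D.L₂ := by
  obtain ⟨t₂, ht₂, hδ⟩ : ∃ t₂ > (0 : ℝ), ∀ t : ℝ, 0 < t → t < t₂ →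
      Polynomial.aeval ((t : ℝ) : ℂ) δ ≠ 0 := by
    have h1 := delta_ev hB.1 0
    rw [eventually_nhdsWithin_iff, Metric.eventually_nhds_iff] at h1
    obtain ⟨ε, hε, h1⟩ := h1
    exact ⟨ε, hε, fun t h0 h2 => h1 (by rw [Real.dist_eq, sub_zero, abs_of_pos h0]; exact h2)
      h0.ne'⟩
  have h1 : ∀ n : ℕ, ∃ p, Good D P p ∧ p.t < t₂ ∧ p.t < 1 / ((n : ℝ) + 1) ∧
      1 - 1 / ((n : ℝ) + 1) < p.B₂ D ∧ 1 - 1 / ((n : ℝ) + 1) < p.B₁ D := by
    intro n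
    have hpos : (0 : ℝ) < 1 / ((n : ℝ) + 1) := by positivity
    obtain ⟨t₁, ht₁, hs⟩ := small D hη hpos
    obtain ⟨p, hp, hpt, hns⟩ := h (min t₁ (min t₂ (1 / ((n : ℝ) + 1))))
      (lt_min ht₁ (lt_min ht₂ hpos))
    simp only [lt_min_iff] at hpt
    refine ⟨p, hp, hpt.2.1, hpt.2.2, ?_, ?_⟩
    · by_contra hc
      exact hns (hs p hp.pos hpt.1 (Or.inl (not_lt.1 hc)))
    · by_contra hc
      exact hns (hs p hp.pos hpt.1 (Or.inr (not_lt.1 hc)))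
  choose p hp hp2 hp3 hp4 hp5 using h1
  have h0 := tendsto_one_div_add_atTop_nhds_zero_nat (𝕜 := ℝ)
  have h01 : Tendsto (fun n : ℕ => 1 - 1 / ((n : ℝ) + 1)) atTop (𝓝 1) := by
    simpa using h0.const_sub 1
  have ht : Tendsto (fun n => (p n).t) atTop (𝓝 0) :=
    squeeze_zero (fun n => (hp n).pos.tpos.le) (fun n => (hp3 n).le) h0
  have hδ' : ∀ n, Polynomial.aeval (((p n).t : ℝ) : ℂ) δ ≠ 0 :=
    fun n => hδ _ (hp n).pos.tpos (hp2 n)
  have h₂ : Tendsto (fun n => (p n).B₂ D) atTop (𝓝 1) :=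
    tendsto_of_tendsto_of_tendsto_of_le_of_le h01 tendsto_const_nhds (fun n => (hp4 n).le)
      fun n => (hp n).pos.b₂.2.le
  rcases D.L₁.finite_or_infinite with hf | hi
  · exact caseB1 hB hf hp hδ' ht h₂
  · exact caseB2 hB hi hp hδ' ht (tendsto_of_tendsto_of_tendsto_of_le_of_le h01
      tendsto_const_nhds (fun n => (hp5 n).le) fun n => ((hp n).pos.b₁.2 hi).le) h₂

theorem core (D : Dat) (P : Polynomial (Polynomial ℚ)) (δ : Polynomial ℚ) (hB : Bez P δ)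
    (hL : Link D P) : H85.EvPer D.L₂ := by
  by_contra hn
  obtain ⟨η, hη, t₁, ht₁, hmin⟩ := minimal D P hL
  have cpt : ∀ (p : ℕ → Amb) (t₀ : ℝ), 0 < t₀ → (∀ n, p n ∈ {q | Good D P q}) →
      Tendsto (fun n => (p n).t) atTop (𝓝 t₀) →
      ∃ q ∈ {q | Pos D q}, ∃ φ : ℕ → ℕ, StrictMono φ ∧ Tendsto (p ∘ φ) atTop (𝓝 q) := by
    intro p t₀ h0 hg ht
    obtain ⟨q, φ, hφ, hq, h⟩ := c1 D p (fun n => (hg n).pos) h0 ht
    rcases h with h | ⟨hw, -⟩
    · exact ⟨q, h, φ, hφ, hq⟩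
    · exact absurd (core_wall hB (p := p ∘ φ) (fun n => hg _) hw hq) hn
  have key := parabs Amb.t core_t {q | Good D P q} {q | Pos D q} (fun q hq => hq.pos)
    (fun q hq => hq.pos.t_le) cpt (fun p hp => loc D P hp)
  refine hn (core_zero hB hη fun t₂ ht₂ => ?_)
  by_contra hc
  push Not at hc
  refine key (min t₁ t₂) (lt_min ht₁ ht₂) fun t ht => ?_
  obtain ⟨p, hp, hpt, hu⟩ := hmin t ⟨ht.1, ht.2.trans_le (min_le_left _ _)⟩
  rw [ncard_eq_one]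
  refine ⟨p, eq_singleton_iff_unique_mem.2 ⟨⟨hp, hpt⟩, fun q hq => ?_⟩⟩
  have hqt : q.t = t := hq.2
  exact hu q hq.1.pos hqt (hc q hq.1 (hqt ▸ ht.2.trans_le (min_le_right _ _)))

end Pool.Agent.MP_098ecc_co.H97
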