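import Mathlib

set_option autoImplicit false

namespace Pool.Agent.MP_098ecc_co.H97

open Metric Filter Topology Set
open scoped BoundedContinuousFunction

/-! ### Sequences, side map, functionals -/

/-- bounded sequences -/
abbrev BS := ℕ →ᵇ ℂ

/-- the sequence `u i / R ^ i` -/
noncomputable def un (R : ℝ) (u : BS) (i : ℕ) : ℂ := u i * (R : ℂ)⁻¹ ^ i

/-- geometric bound of radius `R` -/
def Bnd (R : ℝ) (f : ℕ → ℂ) : Prop := ∃ C : ℝ, ∀ i, ‖f i‖ ≤ C * R⁻¹ ^ i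

section Gen
variable {𝕜 : Type} [NormedField 𝕜]

/-- power series -/
noncomputable def ser (f : ℕ → 𝕜) (z : 𝕜) : 𝕜 := ∑' i, f i * z ^ i

/-- coefficients of `m z f' - f` -/
def flat (m : ℕ) (f : ℕ → 𝕜) (i : ℕ) : 𝕜 := ((m : 𝕜) * i - 1) * f i

/-- coefficient of `z ^ j` in `f ^ N` -/
noncomputable def cf (f : ℕ → 𝕜) (N : ℕ) (j : ℤ) : 𝕜 :=
  if 0 ≤ j then PowerSeries.coeff j.toNat (PowerSeries.mk f ^ N) else 0

/-- the side map: coefficient of `z ^ (-i)` in `∑ a l * z ^ (-l) * f ^ (m l - 1)` -/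
noncomputable def sT (m : ℕ) (a f : ℕ → 𝕜) (i : ℤ) : 𝕜 := ∑' l, a l * cf f (m * l - 1) (l - i)

open Classical in
/-- indicator weights -/
noncomputable def ind (𝕜 : Type) [NormedField 𝕜] (L : Set ℕ) (l : ℕ) : 𝕜 := if l ∈ L then 1 else 0

/-- the value `f z ^ m / z` -/
noncomputable def Bv (m : ℕ) (f : ℕ → 𝕜) (z : 𝕜) : 𝕜 := ser f z ^ m / z

/-- the functional equal to `- t ^ 2 (F + 1 / 2)` on the physical solution -/
noncomputable def Af (m : ℕ) (X Y : ℕ → 𝕜) : 𝕜 :=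
  (∑' n, PowerSeries.coeff n (PowerSeries.mk X * PowerSeries.mk (flat m X)) *
    PowerSeries.coeff n (PowerSeries.mk Y ^ 2)) / 2

end Gen

/-- Laurent coefficient on the circle of radius `r` -/
noncomputable def lc (r : ℝ) (F : ℂ → ℂ) (n : ℤ) : ℂ :=
  Real.circleAverage (fun z => F z * z ^ (-n)) 0 r

/-- the bilinear form of a variation; `f` is a series in `z`, `g` a series in `z⁻¹` -/
noncomputable def Om (m : ℕ) (f df g dg : ℕ → ℂ) (z : ℂ) : ℂ :=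
  ser dg z⁻¹ * ser (flat m f) z + ser (flat m g) z⁻¹ * ser df z

noncomputable def II (m : ℕ) (f df g dg : ℕ → ℂ) (a a' z : ℂ) : ℂ :=
  Om m f df g dg z - a * (ser g z⁻¹ * ser (flat m f) z) - a' * (ser (flat m g) z⁻¹ * ser f z)

/-- double pole kernel -/
noncomputable def Kk (c z : ℂ) : ℂ := z * c / (z - c) ^ 2

noncomputable def zv (r : ℝ) (f g : ℕ → ℂ) (c : ℂ) : ℂ :=
  lc r (fun z => ser f z * ser g z⁻¹ * Kk c z) 0

/-- Wallis numbers -/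
noncomputable def wal : ℕ → ℝ
  | 0 => 1
  | n + 1 => wal n * ((2 * n + 2) / (2 * n + 3))

/-- the singular series of a wall -/
noncomputable def Jf (L : Set ℕ) (b : ℂ) : ℂ := ∑' l, ind ℂ L l * (wal (l - 1) : ℂ) * b ^ l

def Sparse (L : Set ℕ) : Prop := Summable fun l => ind ℝ L l * wal (l - 1)

/-- bounded near an arc of the unit circle -/
def Bdd (F : ℂ → ℂ) : Prop :=
  ∃ b₀ : ℂ, ‖b₀‖ = 1 ∧ ∃ ε > (0 : ℝ), ∃ C : ℝ, ∀ b : ℂ, ‖b‖ < 1 → ‖b - b₀‖ < ε → ‖F b‖ ≤ C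

/-- value of a rational polynomial in two variables -/
noncomputable def ev (P : Polynomial (Polynomial ℚ)) (t a : ℂ) : ℂ :=
  (P.map (Polynomial.mapRingHom (algebraMap ℚ ℂ))).evalEval t a

/-! ### The system -/

/-- reduced data: `D i = m * L i` -/
structure Dat where
  m : ℕ
  L₁ : Set ℕ
  L₂ : Set ℕ
  hm : 0 < m
  z₁ : 0 ∉ L₁
  z₂ : 0 ∉ L₂
  inf₂ : L₂.Infinite
  two₁ : ∃ l ∈ L₁, 2 ≤ m * l
  gcd : ∀ g : ℕ, (∀ l ∈ L₁, g ∣ l) → (∀ l ∈ L₂, g ∣ l) → g = 1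

/-- the equations -/
structure Eqs {𝕜 : Type} [NormedField 𝕜] (D : Dat) (t : 𝕜) (X Y : ℕ → 𝕜) : Prop where
  y0 : Y 0 = 1
  x0 : X 0 = t + t * sT D.m (ind 𝕜 D.L₂) Y 0
  hx : ∀ i : ℕ, 1 ≤ i → X i = t * sT D.m (ind 𝕜 D.L₂) Y i
  hy : ∀ i : ℕ, 1 ≤ i → Y i = t * sT D.m (ind 𝕜 D.L₁) X i

/-- `B` is inside the disc of convergence of the weights -/
def Adm (L : Set ℕ) (B : ℝ) : Prop := ∃ B' > B, Summable fun l => ind ℝ L l * B' ^ l

/-- positive critical point -/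
structure Crit (m : ℕ) (f : ℕ → ℝ) (z : ℝ) : Prop where
  pos : 0 < z
  nn : ∀ i, 0 ≤ f i
  sum : Summable fun i => f i * z ^ i
  crit : HasSum (fun i => flat m f i * z ^ i) 0

/-- ambient space of real points `(t, X, Y, z₁, z₂)` -/
abbrev Amb := ℝ × (ℕ → ℝ) × (ℕ → ℝ) × ℝ × ℝ

abbrev Amb.t (p : Amb) : ℝ := p.1
abbrev Amb.X (p : Amb) : ℕ → ℝ := p.2.1
abbrev Amb.Y (p : Amb) : ℕ → ℝ := p.2.2.1
abbrev Amb.z₁ (p : Amb) : ℝ := p.2.2.2.1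
abbrev Amb.z₂ (p : Amb) : ℝ := p.2.2.2.2
abbrev Amb.cX (p : Amb) : ℕ → ℂ := fun i => (p.X i : ℂ)
abbrev Amb.cY (p : Amb) : ℕ → ℂ := fun i => (p.Y i : ℂ)
noncomputable abbrev Amb.B₁ (D : Dat) (p : Amb) : ℝ := Bv D.m p.X p.z₁
noncomputable abbrev Amb.B₂ (D : Dat) (p : Amb) : ℝ := Bv D.m p.Y p.z₂

/-- positive interior solutions -/
structure Pos (D : Dat) (p : Amb) : Prop where
  tpos : 0 < p.t
  eqs : Eqs D p.t p.X p.Y
  c₁ : Crit D.m p.X p.z₁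
  c₂ : Crit D.m p.Y p.z₂
  a₁ : Adm D.L₁ (p.B₁ D)
  a₂ : Adm D.L₂ (p.B₂ D)

/-- the linearised system has no kernel -/
def Regu (D : Dat) (p : Amb) : Prop :=
  ∀ (dX dY : ℕ → ℂ) (a b : ℝ), p.z₁ < a → p.z₂ < b → Bnd a dX → Bnd b dY → dY 0 = 0 →
    (∀ i : ℕ, dX i = p.t * deriv (fun s : ℂ => sT D.m (ind ℂ D.L₂) (p.cY + s • dY) i) 0) →
    (∀ i : ℕ, 1 ≤ i →
      dY i = p.t * deriv (fun s : ℂ => sT D.m (ind ℂ D.L₁) (p.cX + s • dX) i) 0) →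
    dX = 0 ∧ dY = 0

/-- positive regular solutions near which the algebraic relation holds -/
structure Good (D : Dat) (P : Polynomial (Polynomial ℚ)) (p : Amb) : Prop where
  pos : Pos D p
  reg : Regu D p
  alg : ∀ᶠ q in 𝓝[{q | Pos D q}] p, ev P q.t (Af D.m q.cX q.cY) = 0

/-- small solutions -/
def Small (η : ℝ) (X Y : ℕ → ℂ) : Prop :=
  (∀ i, ‖X i‖ ≤ η * 2 ^ i) ∧ ∀ i, 1 ≤ i → ‖Y i‖ ≤ η * 4⁻¹ ^ i

/-- uniform polynomial bound along a sequence -/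
def PolyB (f : ℕ → ℕ → ℝ) (z : ℕ → ℝ) : Prop := ∃ C : ℝ, ∀ n i, f n i ≤ C * (1 + i ^ 2) * z n ^ i

/-- limit of positive solutions at a wall, `t > 0` -/
structure Wall (D : Dat) (q : Amb) : Prop where
  tpos : 0 < q.t
  y0 : q.Y 0 = 1
  c₁ : Crit D.m q.X q.z₁
  c₂ : Crit D.m q.Y q.z₂
  snd : q.z₁ * q.z₂ < 1
  b₁ : Adm D.L₁ (q.B₁ D) ∨ q.B₁ D = 1
  b₂ : Adm D.L₂ (q.B₂ D) ∨ q.B₂ D = 1
  exit : ¬ (Adm D.L₁ (q.B₁ D) ∧ Adm D.L₂ (q.B₂ D))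
  px : ∀ i, 0 < q.X i
  py : ∀ i, ∀ l ∈ D.L₁, i ≤ l → 0 < q.Y i

/-! ### Functions regular up to the walls -/

section Reg
variable {B Z F : Type} [NormedAddCommGroup B] [NormedSpace ℂ B] [NormedAddCommGroup Z]
  [NormedSpace ℂ Z] [NormedAddCommGroup F] [NormedSpace ℂ F]

/-- continuous up to the unit sphere of `B`, holomorphic inside and for frozen parameter -/
structure Reg (U : Set Z) (f : B × Z → F) : Prop where
  cont : ContinuousOn f (closedBall 0 1 ×ˢ U)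
  diff : DifferentiableOn ℂ f (ball 0 1 ×ˢ U)
  frz : ∀ b ∈ closedBall (0 : B) 1, DifferentiableOn ℂ (fun z => f (b, z)) U

/-- bound for the derivative in the wall parameters -/
def DB (U : Set Z) (w : B × Z → B → ℝ) (f : B × Z → F) : Prop :=
  ∃ C : ℝ, ∀ b ∈ ball (0 : B) 1, ∀ z ∈ U, ∀ db, ‖fderiv ℂ f (b, z) (db, 0)‖ ≤ C * w (b, z) db

end Reg

end Pool.Agent.MP_098ecc_co.H97
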