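import Pool.Agent.MP_098ecc_co.H97.Defs2

set_option autoImplicit false

namespace Pool.Agent.MP_098ecc_co.H97

open Metric Filter Topology Set Function
open scoped BoundedContinuousFunction

/-- complexified sequence -/
abbrev cx (f : ℕ → ℝ) : ℕ → ℂ := fun i => (f i : ℂ)

/-- aperiodic set -/
def Aper (S : Set ℕ) : Prop := ∀ g : ℕ, (∀ i ∈ S, g ∣ i) → g = 1

/-- majorant condition at the radius `ρ` -/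
def Maj (m : ℕ) (L : Set ℕ) (f : ℕ → ℂ) (ρ : ℝ) : Prop :=
  0 < ρ ∧ (Summable fun i => ‖f i‖ * ρ ^ i) ∧ Adm L ((∑' i, ‖f i‖ * ρ ^ i) ^ m / ρ)

/-- eventual polynomial bound along a sequence -/
def PolyE (f : ℕ → ℕ → ℝ) (z : ℕ → ℝ) : Prop :=
  ∃ C : ℝ, ∀ᶠ n in atTop, ∀ i, f n i ≤ C * (1 + i ^ 2) * z n ^ i

/-- convergent sequence of positive solutions with polynomial bounds -/
structure WSeq (D : Dat) (p : ℕ → Amb) (q : Amb) : Prop where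
  pos : ∀ n, Pos D (p n)
  lim : Tendsto p atTop (𝓝 q)
  px : PolyE (fun n => (p n).X) fun n => (p n).z₂
  py : PolyE (fun n => (p n).Y) fun n => (p n).z₁
  b₁ : Tendsto (fun n => (p n).B₁ D) atTop (𝓝 (q.B₁ D))
  b₂ : Tendsto (fun n => (p n).B₂ D) atTop (𝓝 (q.B₂ D))

/-- `z` is the only zero of the critical equation in the closed disc of radius `ρ` -/
def ZF (m : ℕ) (f : ℕ → ℝ) (z ρ : ℝ) : Prop :=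
  z < ρ ∧ ∀ ζ : ℂ, ‖ζ‖ ≤ ρ → ser (flat m (cx f)) ζ = 0 → ζ = z

/-- directional derivative of a coefficient of a power -/
noncomputable def dcf (f df : ℕ → ℂ) (N : ℕ) (j : ℤ) : ℂ :=
  deriv (fun s : ℂ => cf (f + s • df) N j) 0

section Abs
variable {κ Z F : Type} [Fintype κ] [DecidableEq κ] [NormedAddCommGroup Z] [NormedSpace ℂ Z]
  [NormedAddCommGroup F] [NormedSpace ℂ F]

/-- extra identities for several walls -/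
structure End2g (U : Set Z) (H : (κ → ℂ) × Z → Z) (K : (κ → ℂ) × Z → F)
    (g : (κ → ℂ) × Z → ℂ) (J : κ → ℂ → ℂ) (j σ : κ → (κ → ℂ) × Z → ℂ) : Prop where
  s1 : ∀ i i', i ≠ i' → ∃ μ : (κ → ℂ) × Z → ℂ, ContinuousOn μ (ND U H g) ∧
    (∀ q ∈ ND U H g, μ q ≠ 0) ∧ ∀ q ∈ Sh U H K J j σ, g q ≠ 0 → ∀ dq, fderiv ℂ H q dq = 0 →
      (∀ k, k ≠ i' → dq.1 k = 0) → fderiv ℂ (EE J j σ i) q dq = μ q * dq.1 i'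
  s2 : ∀ i', ∃ Ψ ν : (κ → ℂ) × Z → ℂ, Reg U Ψ ∧ (∀ q, K q = 0 → Ψ q = 0) ∧
    ContinuousOn ν (ND U H g) ∧ (∀ q ∈ ND U H g, ν q ≠ 0) ∧
    ∀ q ∈ ND U H g, q.1 ∈ ball 0 1 → ∀ dq, fderiv ℂ H q dq = 0 → (∀ k, k ≠ i' → dq.1 k = 0) →
      fderiv ℂ Ψ q dq = ν q * EE J j σ i' q * dq.1 i'

end Abs

/-- the abstract end theorem for the index set `κ` -/
def EndThm (κ : Type) [Fintype κ] [DecidableEq κ] : Prop :=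
  ∀ (Z F : Type) [NormedAddCommGroup Z] [NormedSpace ℂ Z] [FiniteDimensional ℂ Z]
    [NormedAddCommGroup F] [NormedSpace ℂ F] [CompleteSpace F] (U : Set Z) (z₀ : Z)
    (H : (κ → ℂ) × Z → Z)
    (K : (κ → ℂ) × Z → F) (g : (κ → ℂ) × Z → ℂ) (J : κ → ℂ → ℂ) (j σ : κ → (κ → ℂ) × Z → ℂ),
    EndData U z₀ H K g J j σ → End2g U H K g J j σ → ∃ i, Bdd (deriv (J i))

/-- local picture near an exit point with two walls -/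
structure Loc2 (b₀ : Bool → ℂ) (ε : ℝ) (J : Bool → ℂ → ℂ) (j σ μ : Bool → (Bool → ℂ) → ℂ)
    (Γ : Set (Bool → ℂ)) : Prop where
  pos : 0 < ε
  dJ : ∀ i, DifferentiableOn ℂ (J i) (ball 0 1)
  cj : ∀ i, ContinuousOn (j i) (closedBall 0 1 ∩ ball b₀ ε)
  cσ : ∀ i, ContinuousOn (σ i) (closedBall 0 1 ∩ ball b₀ ε)
  cμ : ∀ i, ContinuousOn (μ i) (closedBall 0 1 ∩ ball b₀ ε)
  dj : ∀ i, DifferentiableOn ℂ (j i) (ball 0 1 ∩ ball b₀ ε)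
  dσ : ∀ i, DifferentiableOn ℂ (σ i) (ball 0 1 ∩ ball b₀ ε)
  σne : ∀ i, ∀ b ∈ closedBall 0 1 ∩ ball b₀ ε, σ i b ≠ 0
  μne : ∀ i, ∀ b ∈ closedBall 0 1 ∩ ball b₀ ε, μ i b ≠ 0
  bd : ∃ C : ℝ, ∀ i, ∀ b ∈ ball 0 1 ∩ ball b₀ ε, ∀ db : Bool → ℂ,
    ‖fderiv ℂ (j i) b db‖ ≤ C * ∑ k, ‖db k‖ * (1 + ‖J k (b k)‖) ∧
    ‖fderiv ℂ (σ i) b db‖ ≤ C * ∑ k, ‖db k‖ * (1 + ‖J k (b k)‖)
  sub : Γ ⊆ ball 0 1 ∩ ball b₀ ε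
  cl : ∀ b ∈ ball 0 1 ∩ ball b₀ ε, b ∈ closure Γ → b ∈ Γ
  zero : ∀ b ∈ Γ, ∀ i, j i b = σ i b * J i (b i)
  loc : ∀ b ∈ Γ, ∀ i, ∀ᶠ b' in 𝓝 b, j i b' = σ i b' * J i (b' i) → b' ∈ Γ
  der : ∀ b ∈ Γ, ∀ i,
    fderiv ℂ (fun b => j i b - σ i b * J i (b i)) b (Pi.single (!i) 1) = μ i b
  mem : b₀ ∈ closure Γ

section Mid
variable {κ V : Type} [Fintype κ] [DecidableEq κ] [NormedAddCommGroup V] [NormedSpace ℂ V]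

/-- branches with a holomorphic relation -/
structure Bra (U : Set (ℂ × V)) (z₀ : ℂ × V) (H : (κ → ℂ) × (ℂ × V) → V)
    (a : (κ → ℂ) × (ℂ × V) → ℂ) (j : κ → (κ → ℂ) × (ℂ × V) → ℂ) (σ : κ → ℂ → ℂ)
    (L : κ → Set ℕ) (Q : ℂ × ℂ → ℂ) (γ : ℕ → ℂ → (κ → ℂ) × (ℂ × V)) (τ : ℕ → ℝ) : Prop where
  lim : Tendsto (fun n => γ n (τ n)) atTop (𝓝 (1, z₀))
  tne : ∀ n, τ n ≠ 0
  mem : ∀ n, (γ n (τ n)).1 ∈ ball 0 1 ∧ (γ n (τ n)).2 ∈ U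
  σne : ∀ n i, σ i (τ n) ≠ 0
  reg : ∀ n, Injective (fderiv ℂ (fun v => H ((γ n (τ n)).1, (τ n, v))) (γ n (τ n)).2.2)
  sep : ∀ n, fderiv ℂ Q (τ n, a (γ n (τ n))) (0, 1) ≠ 0
  curve : ∀ n, ∀ᶠ s in 𝓝 (τ n : ℂ), DifferentiableAt ℂ (γ n) s ∧ (γ n s).2.1 = s ∧
    H (γ n s) = 0 ∧ (∀ i, EM L j σ i (γ n s) = 0) ∧ Q (s, a (γ n s)) = 0
  sgn : ∀ n i i', i ≠ i' → ∃ r : ℝ, r < 0 ∧ deriv (fun s => (γ n s).1 i) (τ n) = r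

end Mid

section Side
variable {κ W : Type} [Fintype κ] [DecidableEq κ] [NormedAddCommGroup W] [NormedSpace ℂ W]

/-- structure of a plain side -/
structure PlainS (m : ℕ) (S : Side κ W) : Prop where
  hI : S.I = ∅
  triv : ∀ w : W, w = 0
  form : ∀ b, ∀ P ∈ S.U, ∀ n : ℕ, un S.Rout (S.out (b, P)) n =
    sT m (fun l => ind ℂ S.L l * P.1 ^ (S.M - S.k * (m * l - 1))) (un S.Rin P.2.2) n

/-- structure of a hard side -/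
structure HardS (m : ℕ) (S : Side κ W) (i : κ) : Prop where
  hI : S.I = {i}
  hk : S.k = 0
  crit : ∀ P ∈ S.U, S.c P ≠ 0 ∧ ser (flat m (un S.Rin P.2.2)) (S.c P) = 0
  baux : ∀ b, ∀ P ∈ S.U, S.aux (b, P) = 0 → Bv m (un S.Rin P.2.2) (S.c P) = b i
  f1 : ∀ b ∈ closedBall (0 : κ → ℂ) 1, ∀ P ∈ S.U, S.aux (b, P) = 0 → S.E i (b, P) = 0 →
    (‖b i‖ < 1 ∨ Sparse S.L) → ∀ n : ℕ,
    un S.Rout (S.out (b, P)) n = P.1 ^ S.M * sT m (ind ℂ S.L) (un S.Rin P.2.2) n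
  tang : ∀ b, ∀ P ∈ S.U, P.1 = 0 → ∀ dP : ℂ × W × BS, dP.1 = 0 → ∃ α α' : ℂ, ∀ n : ℕ,
    un S.Rout (lineDeriv ℂ S.out (b, P) (0, dP)) n = (α + α' * n) * S.c P ^ n

end Side

section Chart
variable {κ W₁ W₂ : Type} [Fintype κ] [DecidableEq κ] [NormedAddCommGroup W₁] [NormedSpace ℂ W₁]
  [NormedAddCommGroup W₂] [NormedSpace ℂ W₂]

/-- wall parameters of a positive solution -/
noncomputable def bOf (D : Dat) (S₂ : Side κ W₂) (p : Amb) (i : κ) : ℂ :=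
  if i ∈ S₂.I then (p.B₂ D : ℝ) else (p.B₁ D : ℝ)

/-- a sequence of positive solutions realised in two sides and converging to the base point -/
structure SeqD (D : Dat) (S₁ : Side κ W₁) (S₂ : Side κ W₂) (τ₀ : ℂ) (e₀ : Ful W₁ W₂)
    (p : ℕ → Amb) (τ : ℕ → ℝ) (e : ℕ → Ful W₁ W₂) : Prop where
  L₁ : S₁.L = D.L₁
  L₂ : S₂.L = D.L₂
  m₁ : P₁ τ₀ e₀ ∈ S₁.U
  m₂ : P₂ τ₀ e₀ ∈ S₂.U
  pos : ∀ n, Pos D (p n)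
  hτ : ∀ n, 0 < τ n ∧ τ n ^ S₁.M = (p n).t
  hX : ∀ n, un S₁.Rin (e n).2.2.1 = ((τ n : ℂ) ^ S₁.k) • (p n).cX
  hY : ∀ n, un S₂.Rin (e n).2.2.2 = (p n).cY
  r₁ : ∀ n, IsReal D.m S₁ (τ n) (e n).1 (e n).2.2.1 (p n).z₁ ((p n).B₁ D)
  r₂ : ∀ n, IsReal D.m S₂ (τ n) (e n).2.1 (e n).2.2.2 (p n).z₂ ((p n).B₂ D)
  lim : Tendsto (fun n => ((τ n : ℂ), e n)) atTop (𝓝 (τ₀, e₀))
  limb : Tendsto (fun n => bOf D S₂ (p n)) atTop (𝓝 1)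
  rad : ∀ n, (p n).z₁ < S₁.Rin ∧ (p n).z₂ < S₂.Rin ∧
    (S₁.Rin * (p n).z₂ ≤ 1 ∨ S₂.Rin * (p n).z₁ ≤ 1)
  two : ∀ i i' : κ, i ≠ i' → S₁.M = 1 ∧ S₁.k = 0 ∧ ∀ n, (p n).z₁ * (p n).z₂ < 1

/-- no holomorphic curve of on shell wall solutions near the base point -/
def IsoHyp (S₁ : Side κ W₁) (S₂ : Side κ W₂) (τ₀ : ℂ) (e₀ : Ful W₁ W₂) : Prop :=
  ∀ᶠ P in 𝓝 (τ₀, e₀), ∀ ε : ℂ → Ful W₁ W₂, ε 0 = P.2 →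
    (∀ᶠ s in 𝓝 (0 : ℂ), DifferentiableAt ℂ ε s ∧ FS S₁ S₂ 1 P.1 (ε s) ∧
      (∀ i ∈ S₁.I, S₁.E i (1, P₁ P.1 (ε s)) = 0) ∧ (∀ i ∈ S₂.I, S₂.E i (1, P₂ P.1 (ε s)) = 0) ∧
      TS S₁ S₂ 1 P.1 (ε s) 0 0 (deriv ε s)) → deriv ε 0 = 0

/-- no kernel at the base point -/
def KerHyp (S₁ : Side κ W₁) (S₂ : Side κ W₂) (e₀ : Ful W₁ W₂) : Prop :=
  FS S₁ S₂ 1 0 e₀ → ∀ de, TS S₁ S₂ 1 0 e₀ 0 0 de → de = 0

end Chart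

/-- head coordinates of a real point -/
noncomputable def hp (N : ℕ) (a b : ℝ) (q : Amb) : ℂ × ((Fin N → ℂ) × (Fin N → ℂ)) :=
  (q.t, fun i => (q.X i * a ^ (i : ℕ) : ℝ), fun i => (q.Y i * b ^ (i : ℕ) : ℝ))

/-- finite dimensional chart at a positive solution -/
structure PChart (D : Dat) (p : Amb) (N : ℕ) (a b : ℝ)
    (U : Set (ℂ × ((Fin N → ℂ) × (Fin N → ℂ))))
    (F : ℂ × ((Fin N → ℂ) × (Fin N → ℂ)) → (Fin N → ℂ) × (Fin N → ℂ))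
    (X Y : ℂ × ((Fin N → ℂ) × (Fin N → ℂ)) → ℕ → ℂ) (O : Set Amb) : Prop where
  op : IsOpen U
  dF : DifferentiableOn ℂ F U
  dX : ∀ i, DifferentiableOn ℂ (fun z => X z i) U
  dY : ∀ i, DifferentiableOn ℂ (fun z => Y z i) U
  bd : ∃ C θ : ℝ, 0 ≤ θ ∧ θ < 1 ∧ ∀ z ∈ U, ∀ i,
    ‖X z i‖ ≤ C * (θ * a⁻¹) ^ i ∧ ‖Y z i‖ ≤ C * (θ * b⁻¹) ^ i
  sU : ∀ z ∈ U, star z ∈ U
  sF : ∀ z ∈ U, F (star z) = star (F z)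
  sX : ∀ z ∈ U, X (star z) = star (X z)
  sY : ∀ z ∈ U, Y (star z) = star (Y z)
  sol : ∀ z ∈ U, F z = 0 → Eqs D z.1 (X z) (Y z)
  opO : IsOpen O
  mem : p ∈ O
  rad : ∀ q ∈ O, 0 < q.z₁ ∧ 0 < q.z₂ ∧ q.z₁ < a ∧ q.z₂⁻¹ < a ∧ q.z₂ < b ∧ q.z₁⁻¹ < b
  emb : ∀ q ∈ O, Pos D q → hp N a b q ∈ U ∧ F (hp N a b q) = 0 ∧ X (hp N a b q) = q.cX ∧
    Y (hp N a b q) = q.cY
  real : ∀ q ∈ O, Pos D q → ∀ W ∈ 𝓝 q, ∀ᶠ z in 𝓝 (hp N a b q), star z = z → F z = 0 →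
    ∃ q' ∈ W, Pos D q' ∧ hp N a b q' = z
  reg : ∀ q ∈ O, Pos D q →
    (Regu D q ↔ Injective (fderiv ℂ (fun v => F (q.t, v)) (hp N a b q).2))

end Pool.Agent.MP_098ecc_co.H97
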