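import Pool.Agent.MP_098ecc_co.H97.Elim

set_option autoImplicit false

namespace Pool.Agent.MP_098ecc_co.H97

open Metric Filter Topology Set Function
open scoped BoundedContinuousFunction

/-- near a zero of `g`, the zeros with the same multiplicity in the second variable lie on a
holomorphic graph -/
theorem disc_graph {W : Set (ℂ × ℂ)} (hW : IsOpen W) {g : ℂ × ℂ → ℂ}
    (hg : DifferentiableOn ℂ g W) {a : ℂ × ℂ} (ha : a ∈ W) (h0 : g a = 0)
    (iso : ∀ᶠ z in 𝓝[≠] a.2, g (a.1, z) ≠ 0) :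
    ∃ σ : ℂ → ℂ, (∀ᶠ s in 𝓝 a.1, DifferentiableAt ℂ σ s) ∧ σ a.1 = a.2 ∧
      ∀ᶠ b in 𝓝 a, g b = 0 → analyticOrderAt (fun z => g (b.1, z)) b.2 =
        analyticOrderAt (fun z => g (a.1, z)) a.2 → σ b.1 = b.2 := by
  obtain ⟨s₁, z₁⟩ := a
  obtain ⟨δ, ⟨O, hO, hs₁, -, k, R, hR, hR₀, hD⟩, hδ⟩ :=
    ((roots hW hg ha iso).and self_mem_nhdsWithin).exists
  have hδ' : (0 : ℝ) < δ := hδ
  have hz₁ : z₁ ∈ ball z₁ δ := mem_ball_self hδ'
  obtain ⟨hc₁, -, -, hm₁, -⟩ := hR s₁ hs₁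
  have hmem : z₁ ∈ R s₁ := (hm₁ z₁ hz₁).1.2 h0
  have hk : (k : ℂ) ≠ 0 := by
    have : 0 < (R s₁).card := Multiset.card_pos_iff_exists_mem.2 ⟨z₁, hmem⟩
    rw [hc₁] at this
    exact_mod_cast this.ne'
  have hcount : (R s₁).count z₁ = k := by
    rw [← hc₁]
    exact Multiset.count_eq_card.2 fun x hx => (hR₀ x hx).symm
  have key : ∀ s ∈ O, ∀ z, (R s).count z = k → ((R s).map fun w => w).sum / k = z := by
    intro s hs z hz
    have hc := (hR s hs).1
    have h1 : ∀ x ∈ R s, z = x := Multiset.count_eq_card.1 (hz.trans hc.symm)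
    have h2 : R s = Multiset.replicate k z :=
      Multiset.eq_replicate.2 ⟨hc, fun x hx => (h1 x hx).symm⟩
    rw [h2, Multiset.map_id', Multiset.sum_replicate, nsmul_eq_mul]
    field_simp
  refine ⟨fun s => ((R s).map fun w => w).sum / k, ?_, key s₁ hs₁ z₁ hcount, ?_⟩
  · have h1 := (hD univ O (fun q => q.2) isOpen_univ hO Subset.rfl (subset_univ _)
      differentiableOn_snd).1
    filter_upwards [hO.mem_nhds hs₁] with s hs
    exact (h1.differentiableAt (hO.mem_nhds hs)).div_const _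
  · have h1 : O ×ˢ ball z₁ δ ∈ 𝓝 (s₁, z₁) :=
      prod_mem_nhds (hO.mem_nhds hs₁) (isOpen_ball.mem_nhds hz₁)
    filter_upwards [h1] with b hb _ hord
    refine key b.1 hb.1 b.2 ?_
    have h2 := ((hR b.1 hb.1).2.2.2.1 b.2 hb.2).2
    have h3 := (hm₁ z₁ hz₁).2
    rw [hcount] at h3
    have h4 : ((R b.1).count b.2 : ℕ∞) = k := by rw [h2, hord, h3]
    exact_mod_cast h4

/-- an uncountable common zero set with discrete fibres contains a holomorphic graph -/
theorem disc_lift {ι : Type} [Finite ι] {W : Set (ℂ × ℂ)} (hW : IsOpen W) {h : ι → ℂ × ℂ → ℂ}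
    (hh : ∀ i, DifferentiableOn ℂ (h i) W) (i₀ : ι)
    (iso : ∀ a ∈ W, ∀ᶠ z in 𝓝[≠] a.2, h i₀ (a.1, z) ≠ 0)
    (unc : ¬ {a | a ∈ W ∧ ∀ i, h i a = 0}.Countable) :
    ∃ (s₁ : ℂ) (σ : ℂ → ℂ), ∀ᶠ s in 𝓝 s₁,
      DifferentiableAt ℂ σ s ∧ (s, σ s) ∈ W ∧ ∀ i, h i (s, σ s) = 0 := by
  by_contra no
  apply unc
  have hU : {a | a ∈ W ∧ ∀ i, h i a = 0} = ⋃ k : ℕ∞, {a | (a ∈ W ∧ ∀ i, h i a = 0) ∧
      analyticOrderAt (fun z => h i₀ (a.1, z)) a.2 = k} := by
    ext a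
    simp
  rw [hU]
  refine countable_iUnion fun k => ?_
  apply (HereditarilyLindelofSpace.isLindelof _).countable_of_isDiscrete
  rw [isDiscrete_iff_nhdsNE]
  rintro a ⟨⟨haW, ha0⟩, hak⟩
  by_contra hne
  have hfr : ∃ᶠ b in 𝓝[≠] a, (b ∈ W ∧ ∀ i, h i b = 0) ∧
      analyticOrderAt (fun z => h i₀ (b.1, z)) b.2 = k := frequently_mem_iff_neBot.2 ⟨hne⟩
  obtain ⟨σ, hσ, hσa, hgr⟩ := disc_graph hW (hh i₀) haW (ha0 i₀) (iso a haW)
  have hΓ : ∀ᶠ s in 𝓝 a.1, DifferentiableAt ℂ (fun s => (s, σ s)) s :=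
    hσ.mono fun s hs => differentiableAt_id.prodMk hs
  have hΓa : (a.1, σ a.1) = a := by rw [hσa]
  have hΓW : ∀ᶠ s in 𝓝 a.1, (s, σ s) ∈ W :=
    hΓ.self_of_nhds.continuousAt.eventually_mem (by rw [hΓa]; exact hW.mem_nhds haW)
  refine no ⟨a.1, σ, hσ.and (hΓW.and (eventually_all.2 fun i => ?_))⟩
  have han : AnalyticAt ℂ (fun s => h i (s, σ s)) a.1 := by
    rw [Complex.analyticAt_iff_eventually_differentiableAt]
    filter_upwards [hΓ, hΓW] with s hs hsW
    exact ((hh i).differentiableAt (hW.mem_nhds hsW)).comp s hs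
  rw [← han.frequently_zero_iff_eventually_zero]
  intro hev
  rw [eventually_nhdsWithin_iff] at hev
  have h1 := (continuous_fst.continuousAt (x := a)).eventually hev
  refine hfr ?_
  filter_upwards [nhdsWithin_le_nhds h1, nhdsWithin_le_nhds hgr, self_mem_nhdsWithin] with
    b hb1 hb2 hb3
  rintro ⟨⟨-, hb0⟩, hbk⟩
  have h2 : σ b.1 = b.2 := hb2 (hb0 i₀) (hbk.trans hak.symm)
  refine hb1 (fun h3 => hb3 ?_) (by rw [h2]; exact hb0 i)
  have h4 : b.1 = a.1 := h3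
  exact Prod.ext h4 (by rw [← h2, h4, hσa])

/-- the statement for finite families of equations -/
def DiscP (E : Type) [NormedAddCommGroup E] [NormedSpace ℂ E] : Prop :=
  ∀ (ι : Type) [Finite ι] (W : Set E), IsOpen W → ∀ h : ι → E → ℂ,
    (∀ i, DifferentiableOn ℂ (h i) W) → ∀ x₀ ∈ W, (∃ᶠ x in 𝓝[≠] x₀, ∀ i, h i x = 0) →
    ∃ γ : ℂ → E, (∀ᶠ s in 𝓝 (0 : ℂ), DifferentiableAt ℂ γ s ∧ γ s ∈ W ∧ ∀ i, h i (γ s) = 0) ∧
      deriv γ 0 ≠ 0

/-- one elimination step -/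
theorem disc_step {E E' : Type} [NormedAddCommGroup E] [NormedSpace ℂ E] [FiniteDimensional ℂ E]
    [NormedAddCommGroup E'] [NormedSpace ℂ E'] [FiniteDimensional ℂ E'] (e : E ≃L[ℂ] E' × ℂ)
    (IH : DiscP E') {ι : Type} [Finite ι] {W : Set E} (hW : IsOpen W) {h : ι → E → ℂ}
    (hh : ∀ i, DifferentiableOn ℂ (h i) W) {x₀ : E} (hm : x₀ ∈ W) (i₀ : ι)
    (iso₀ : ∀ᶠ z in 𝓝[≠] (e x₀).2, h i₀ (e.symm ((e x₀).1, z)) ≠ 0)
    (acc : ∃ᶠ x in 𝓝[≠] x₀, ∀ i, h i x = 0) :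
    ∃ γ : ℂ → E, (∀ᶠ s in 𝓝 (0 : ℂ), DifferentiableAt ℂ γ s ∧ γ s ∈ W ∧ ∀ i, h i (γ s) = 0) ∧
      deriv γ 0 ≠ 0 := by
  have : CompleteSpace E' := FiniteDimensional.complete ℂ E'
  have hW' : IsOpen (e.symm ⁻¹' W) := hW.preimage e.symm.continuous
  have hh' : ∀ i, DifferentiableOn ℂ (fun q => h i (e.symm q)) (e.symm ⁻¹' W) := fun i =>
    (hh i).comp e.symm.differentiableOn (mapsTo_preimage _ _)
  have hm' : ((e x₀).1, (e x₀).2) ∈ e.symm ⁻¹' W := by simpa using hm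
  -- isolated zeros on nearby lines
  have isoN : ∀ᶠ x in 𝓝 x₀, ∀ᶠ z in 𝓝[≠] (e x).2, h i₀ (e.symm ((e x).1, z)) ≠ 0 := by
    obtain ⟨δ, ⟨O, hO, hp₀, hsub, k, R, hR, -, -⟩, hδ⟩ :=
      ((roots hW' (hh' i₀) hm' iso₀).and self_mem_nhdsWithin).exists
    have hδ' : (0 : ℝ) < δ := hδ
    have h1 : O ×ˢ ball (e x₀).2 δ ∈ 𝓝 (e x₀) :=
      prod_mem_nhds (hO.mem_nhds hp₀) (ball_mem_nhds _ hδ')
    filter_upwards [e.continuous.continuousAt.eventually_mem h1] with x hx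
    have h2 := ((hR _ hx.1).2.2.2.1 _ hx.2).2
    have han : AnalyticAt ℂ (fun z => h i₀ (e.symm ((e x).1, z))) (e x).2 := by
      have h3 : DifferentiableOn ℂ (fun z => h i₀ (e.symm ((e x).1, z))) (ball (e x₀).2 δ) :=
        (hh' i₀).comp ((differentiableOn_const _).prodMk differentiableOn_id)
          fun z hz => hsub ⟨hx.1, ball_subset_closedBall hz⟩
      exact h3.analyticAt (isOpen_ball.mem_nhds hx.2)
    refine han.eventually_eq_zero_or_eventually_ne_zero.resolve_left fun h4 => ?_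
    rw [analyticOrderAt_eq_top.2 h4] at h2
    exact ENat.natCast_ne_top _ h2
  have hπ : DifferentiableOn ℂ (fun x => (e x).1) W := e.differentiableOn.fst
  have iso : ∀ᶠ x in 𝓝[≠] x₀, ¬ ((∀ i, h i x = 0) ∧ (e x).1 = (e x₀).1) := by
    rw [eventually_nhdsWithin_iff] at iso₀
    have h1 := (e.continuous.snd.continuousAt (x := x₀)).eventually iso₀
    filter_upwards [nhdsWithin_le_nhds h1, self_mem_nhdsWithin] with x hx hne
    rintro ⟨h2, h3⟩
    refine hx (fun h4 => hne (e.injective (Prod.ext h3 h4))) ?_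
    rw [← h3]
    simpa using h2 i₀
  obtain ⟨V, hV, hxV, hVs, O, hO, hpO, n, G, hG, hiff⟩ := elim hW hh hπ hm iso _ isoN
  have acc' : ∃ᶠ y in 𝓝[≠] (e x₀).1, ∀ k, G k y = 0 := by
    intro hev
    rw [eventually_nhdsWithin_iff] at hev
    have hc : ContinuousAt (fun x => (e x).1) x₀ := e.continuous.fst.continuousAt
    refine acc ?_
    filter_upwards [nhdsWithin_le_nhds (hc.eventually hev), iso,
      nhdsWithin_le_nhds (hc.eventually_mem (hO.mem_nhds hpO)),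
      nhdsWithin_le_nhds (hV.mem_nhds hxV)] with x h1 h2 h3 h4 h5
    exact h1 (fun h6 => h2 ⟨h5, h6⟩) ((hiff _ h3).2 ⟨x, h4, h5, rfl⟩)
  obtain ⟨c, hc, hc0⟩ := IH (Fin n) O hO G hG _ hpO acc'
  have han : AnalyticAt ℂ c 0 :=
    Complex.analyticAt_iff_eventually_differentiableAt.2 (hc.mono fun s hs => hs.1)
  have hd : ∀ᶠ s in 𝓝 (0 : ℂ), deriv c s ≠ 0 := han.deriv.continuousAt.eventually_ne hc0
  obtain ⟨D, hD, hDo, hD0⟩ := _root_.eventually_nhds_iff.1 (hc.and hd)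
  have hcD : DifferentiableOn ℂ c D := fun s hs => (hD s hs).1.1.differentiableWithinAt
  have hT : DifferentiableOn ℂ (fun a : ℂ × ℂ => e.symm (c a.1, a.2)) (Prod.fst ⁻¹' D) :=
    e.symm.differentiable.comp_differentiableOn
      ((hcD.comp differentiableOn_fst (mapsTo_preimage _ _)).prodMk differentiableOn_snd)
  have hW₂ : IsOpen (Prod.fst ⁻¹' D ∩ (fun a : ℂ × ℂ => e.symm (c a.1, a.2)) ⁻¹' V) :=
    hT.continuousOn.isOpen_inter_preimage (hDo.preimage continuous_fst) hV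
  obtain ⟨s₁, σ, hσ⟩ := disc_lift hW₂ (h := fun i a => h i (e.symm (c a.1, a.2)))
    (fun i => (hh i).comp (hT.mono inter_subset_left) fun a ha => (hVs ha.2).2) i₀
    (fun a ha => by simpa using (hVs ha.2).1) (by
      intro hcount
      have h1 : D.Countable := by
        refine (hcount.image Prod.fst).mono fun s hs => ?_
        obtain ⟨x, hx, hx0, hxs⟩ := (hiff _ (hD s hs).1.2.1).1 (hD s hs).1.2.2
        have h2 : e.symm (c s, (e x).2) = x := by
          rw [← hxs]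
          simp
        exact ⟨(s, (e x).2), ⟨⟨hs, by simpa [h2] using hx⟩, by simpa [h2] using hx0⟩, rfl⟩
      exact (hDo.measure_pos MeasureTheory.volume ⟨0, hD0⟩).ne' (h1.measure_zero _))
  have hsh : Tendsto (fun s : ℂ => s₁ + s) (𝓝 0) (𝓝 s₁) := by
    simpa using (continuous_const_add s₁).tendsto 0
  have hdiff : ∀ᶠ s in 𝓝 (0 : ℂ),
      DifferentiableAt ℂ (fun s => e.symm (c (s₁ + s), σ (s₁ + s))) s := by
    filter_upwards [hsh.eventually hσ] with s hs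
    have h1 : DifferentiableAt ℂ (fun s : ℂ => s₁ + s) s := by fun_prop
    exact e.symm.differentiableAt.comp s
      (((hD _ hs.2.1.1).1.1.comp s h1).prodMk (hs.1.comp s h1))
  refine ⟨fun s => e.symm (c (s₁ + s), σ (s₁ + s)), ?_, fun h0 => ?_⟩
  · filter_upwards [hsh.eventually hσ, hdiff] with s hs hs'
    exact ⟨hs', (hVs hs.2.1.2).2, hs.2.2⟩
  · have h1 := hdiff.self_of_nhds.hasDerivAt
    rw [h0] at h1
    have h2 := ((ContinuousLinearMap.fst ℂ E' ℂ).comp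
      (e : E →L[ℂ] E' × ℂ)).hasFDerivAt.comp_hasDerivAt (0 : ℂ) h1
    have h3 : HasDerivAt (fun s => c (s₁ + s)) 0 0 := by
      simpa [Function.comp_def] using h2
    have h4 := h3.deriv
    rw [deriv_comp_const_add, add_zero] at h4
    exact (hD _ hσ.self_of_nhds.2.1.1).2 h4

theorem disc_ind (n : ℕ) : ∀ (E : Type) [NormedAddCommGroup E] [NormedSpace ℂ E]
    [FiniteDimensional ℂ E], Module.finrank ℂ E = n → DiscP E := by
  induction n using Nat.strong_induction_on with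
  | _ n IH =>
  intro E _ _ _ hn ι _ W hW h hh x₀ hm acc
  have hline : ∀ v : E, Differentiable ℂ (fun s : ℂ => x₀ + s • v) := fun v => by fun_prop
  by_cases hz : ∀ᶠ x in 𝓝 x₀, ∀ i, h i x = 0
  · obtain ⟨x, -, hx⟩ := (acc.and_eventually self_mem_nhdsWithin).exists
    have ht : Tendsto (fun s : ℂ => x₀ + s • (x - x₀)) (𝓝 0) (𝓝 x₀) := by
      simpa using (hline (x - x₀)).continuous.tendsto 0
    refine ⟨fun s => x₀ + s • (x - x₀), ?_, ?_⟩
    · filter_upwards [ht.eventually hz, ht.eventually (hW.mem_nhds hm)] with s h1 h2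
      exact ⟨hline _ s, h2, h1⟩
    · have h1 : HasDerivAt (fun s : ℂ => x₀ + s • (x - x₀)) (x - x₀) 0 := by
        simpa using ((hasDerivAt_id (0 : ℂ)).smul_const (x - x₀)).const_add x₀
      rw [h1.deriv]
      exact sub_ne_zero.2 hx
  · obtain ⟨r, hr, hball⟩ := Metric.isOpen_iff.1 hW x₀ hm
    obtain ⟨x, hx, hxb⟩ := ((not_eventually.1 hz).and_eventually (ball_mem_nhds x₀ hr)).exists
    obtain ⟨i₀, hi₀⟩ := not_forall.1 hx
    have h0 : h i₀ x₀ = 0 := by
      by_contra hne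
      have h1 := ((hh i₀).continuousOn.continuousAt (hW.mem_nhds hm)).eventually_ne hne
      exact acc ((h1.filter_mono nhdsWithin_le_nhds).mono fun y hy h2 => hy (h2 i₀))
    have hv : x - x₀ ≠ 0 := sub_ne_zero.2 fun h1 => hi₀ (by rw [h1, h0])
    obtain ⟨f, hf⟩ := SeparatingDual.exists_eq_one (R := ℂ) hv
    have hri : RightInverse (ContinuousLinearMap.toSpanSingleton ℂ (x - x₀)) f := fun z => by
      rw [ContinuousLinearMap.toSpanSingleton_apply, map_smul, hf, smul_eq_mul, mul_one]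
    let e := (ContinuousLinearEquiv.equivOfRightInverse f _ hri).trans
      (ContinuousLinearEquiv.prodComm ℂ _ _)
    have hrk := e.toLinearEquiv.finrank_eq
    rw [Module.finrank_prod, Module.finrank_self, hn] at hrk
    refine disc_step e (IH _ (by omega) _ rfl) hW hh hm i₀ ?_ acc
    have he : ∀ z, e.symm ((e x₀).1, z) = x₀ + (z - (e x₀).2) • (x - x₀) := by
      intro z
      have h1 : e.symm (0, 1) = x - x₀ := by simp [e]
      have h2 : ((e x₀).1, z) = e x₀ + (z - (e x₀).2) • ((0, 1) : f.ker × ℂ) := by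
        ext <;> simp
      rw [h2, map_add, map_smul, h1, e.symm_apply_apply]
    simp only [he]
    -- identity theorem on the line
    have hU : IsOpen ((fun s : ℂ => x₀ + s • (x - x₀)) ⁻¹' ball x₀ r) :=
      isOpen_ball.preimage (hline _).continuous
    have hconv : Convex ℝ ((fun s : ℂ => x₀ + s • (x - x₀)) ⁻¹' ball x₀ r) := by
      intro s hs t ht a b ha hb hab
      have h1 := convex_ball x₀ r hs ht ha hb hab
      have h2 : a • (x₀ + s • (x - x₀)) + b • (x₀ + t • (x - x₀)) =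
          x₀ + (a • s + b • t) • (x - x₀) := by
        rw [smul_add, smul_add, add_add_add_comm, ← add_smul, hab, one_smul, add_smul,
          smul_assoc, smul_assoc]
      rw [h2] at h1
      exact h1
    have han : AnalyticOnNhd ℂ (fun s : ℂ => h i₀ (x₀ + s • (x - x₀)))
        ((fun s : ℂ => x₀ + s • (x - x₀)) ⁻¹' ball x₀ r) :=
      DifferentiableOn.analyticOnNhd
        ((hh i₀).comp (hline _).differentiableOn fun s hs => hball hs) hU
    have hm0 : (0 : ℂ) ∈ (fun s : ℂ => x₀ + s • (x - x₀)) ⁻¹' ball x₀ r := by simpa using hr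
    have hm1 : (1 : ℂ) ∈ (fun s : ℂ => x₀ + s • (x - x₀)) ⁻¹' ball x₀ r := by simpa using hxb
    have h1 := (han 0 hm0).eventually_eq_zero_or_eventually_ne_zero.resolve_left fun h2 =>
      hi₀ (by simpa using
        han.eqOn_zero_of_preconnected_of_eventuallyEq_zero hconv.isPreconnected hm0 h2 hm1)
    rw [eventually_nhdsWithin_iff] at h1 ⊢
    have ht : Tendsto (fun z : ℂ => z - (e x₀).2) (𝓝 (e x₀).2) (𝓝 0) := by
      simpa using (continuous_sub_right (e x₀).2).tendsto (e x₀).2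
    filter_upwards [ht.eventually h1] with z hz' hne
    exact hz' (sub_ne_zero.2 hne)

/-- a non isolated zero is a limit of holomorphic discs of zeros -/
theorem disc {E F : Type} [NormedAddCommGroup E] [NormedSpace ℂ E] [FiniteDimensional ℂ E]
    [NormedAddCommGroup F] [NormedSpace ℂ F] [FiniteDimensional ℂ F] {W : Set E} (hW : IsOpen W)
    {h : E → F} (hh : DifferentiableOn ℂ h W) {x₀ : E} (hm : x₀ ∈ W)
    (acc : ∃ᶠ x in 𝓝[≠] x₀, h x = 0) : ∀ N ∈ 𝓝 x₀, ∃ γ : ℂ → E,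
      (∀ᶠ s in 𝓝 (0 : ℂ), DifferentiableAt ℂ γ s ∧ γ s ∈ N ∧ h (γ s) = 0) ∧ deriv γ 0 ≠ 0 := by
  intro N hN
  let b := (Module.finBasis ℂ F).equivFunL
  obtain ⟨γ, hγ, h0⟩ := disc_ind _ E rfl (Fin (Module.finrank ℂ F)) (W ∩ interior N)
    (hW.inter isOpen_interior) (fun i x => b (h x) i)
    (fun i => differentiableOn_pi.1
      (b.differentiable.comp_differentiableOn (hh.mono inter_subset_left)) i)
    x₀ ⟨hm, mem_interior_iff_mem_nhds.2 hN⟩ (acc.mono fun x hx i => by simp [hx])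
  refine ⟨γ, hγ.mono fun s hs => ⟨hs.1, interior_subset hs.2.1.2, ?_⟩, h0⟩
  exact b.injective (by rw [map_zero]; exact funext hs.2.2)

end Pool.Agent.MP_098ecc_co.H97
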