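import Pool.Agent.MP_098ecc_co.H97.Roots

set_option autoImplicit false

namespace Pool.Agent.MP_098ecc_co.H97

open Metric Filter Topology Set Function
open scoped BoundedContinuousFunction

/-- The norms of the generic combinations vanish exactly when there is a common zero. -/
theorem elim_norm {n k : ℕ} (R : Multiset ℂ) (hk : R.card = k) (c : ℂ → Fin n → ℂ) :
    (∀ s : Fin (k * n + 1),
      (R.map fun z => ∑ i : Fin n, ((s : ℕ) : ℂ) ^ (i : ℕ) * c z i).esymm k = 0) ↔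
      ∃ z ∈ R, ∀ i, c z i = 0 := by
  have h1 : ∀ g : ℂ → ℂ, (R.map g).esymm k = (R.map g).prod := fun g => by
    have : (R.map g).card = k := by simpa using hk
    rw [← this, Multiset.esymm, Multiset.powersetCard_self]
    simp
  simp only [h1]
  constructor
  · intro h
    by_contra hne
    let Q : ℂ → Polynomial ℂ := fun z => ∑ i : Fin n, Polynomial.monomial (i : ℕ) (c z i)
    have q1 : ∀ z, (Q z).natDegree ≤ n := fun z =>
      Polynomial.natDegree_sum_le_of_forall_le _ _ fun i _ =>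
        (Polynomial.natDegree_monomial_le _).trans i.2.le
    have q2 : ∀ z (i : Fin n), (Q z).coeff i = c z i := fun z i => by
      simp only [Q, Polynomial.finsetSum_coeff, Polynomial.coeff_monomial, Fin.val_inj]
      simp
    have q3 : (R.map Q).prod = 0 := by
      refine Polynomial.eq_zero_of_natDegree_lt_card_of_eval_eq_zero _
        (f := fun s : Fin (k * n + 1) => ((s : ℕ) : ℂ))
        (fun s t e => Fin.ext (Nat.cast_injective (R := ℂ) e)) (fun s => ?_) ?_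
      · rw [Polynomial.eval_multiset_prod, Multiset.map_map, ← h s]
        refine congrArg Multiset.prod (Multiset.map_congr rfl fun z _ => ?_)
        simp only [Q, comp, Polynomial.eval_finsetSum, Polynomial.eval_monomial, mul_comm]
      · refine (Polynomial.natDegree_multiset_prod_le _).trans_lt ?_
        rw [Fintype.card_fin, Nat.lt_succ_iff]
        refine (Multiset.sum_le_card_nsmul _ n fun d hd => ?_).trans (by simp [hk])
        simp only [Multiset.map_map, Multiset.mem_map] at hd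
        obtain ⟨z, -, rfl⟩ := hd
        exact q1 z
    obtain ⟨z, hz, e⟩ := Multiset.mem_map.1 (Multiset.prod_eq_zero_iff.1 q3)
    exact hne ⟨z, hz, fun i => by rw [← q2, e, Polynomial.coeff_zero]⟩
  · rintro ⟨z, hz, h⟩ s
    exact Multiset.prod_eq_zero (Multiset.mem_map.2 ⟨z, hz, by simp [h]⟩)

/-- Elimination of one variable. -/
theorem elim_one {P : Type} [NormedAddCommGroup P] [NormedSpace ℂ P] [FiniteDimensional ℂ P]
    {n : ℕ} {W : Set (P × ℂ)} (hW : IsOpen W) {f : Fin n → P × ℂ → ℂ}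
    (hf : ∀ i, DifferentiableOn ℂ (f i) W) {p₀ : P} {z₀ : ℂ} (hm : (p₀, z₀) ∈ W)
    (iso : ∀ᶠ z in 𝓝[≠] z₀, ¬ ∀ i, f i (p₀, z) = 0) :
    ∀ᶠ δ in 𝓝[>] (0 : ℝ), ∃ O : Set P, IsOpen O ∧ p₀ ∈ O ∧ O ×ˢ closedBall z₀ δ ⊆ W ∧
      ∃ (n' : ℕ) (G : Fin n' → P → ℂ), (∀ k, DifferentiableOn ℂ (G k) O) ∧
        ∀ p ∈ O, (∀ k, G k p = 0) ↔ ∃ z ∈ ball z₀ δ, ∀ i, f i (p, z) = 0 := by
  obtain ⟨j, hj⟩ : ∃ j, ∀ᶠ z in 𝓝[≠] z₀, f j (p₀, z) ≠ 0 := by
    by_contra hne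
    have h1 : ∀ j, ∀ᶠ z in 𝓝 z₀, f j (p₀, z) = 0 := fun j => by
      have h2 : DifferentiableOn ℂ (fun z => f j (p₀, z)) ((fun z => (p₀, z)) ⁻¹' W) :=
        (hf j).comp (by fun_prop) (mapsTo_preimage _ _)
      have h3 := h2.analyticAt ((hW.preimage (by fun_prop)).mem_nhds hm)
      exact h3.eventually_eq_zero_or_eventually_ne_zero.resolve_right fun h => hne ⟨j, h⟩
    obtain ⟨z, g1, g2⟩ :=
      (iso.and ((eventually_all.2 h1).filter_mono nhdsWithin_le_nhds)).exists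
    exact g1 g2
  filter_upwards [roots hW (hf j) hm hj] with δ ⟨O, hO, hp, hOW, k, R, hR, _, hd⟩
  refine ⟨O, hO, hp, hOW, k * n + 1, fun s p =>
    ((R p).map fun z => ∑ i : Fin n, ((s : ℕ) : ℂ) ^ (i : ℕ) * f i (p, z)).esymm k,
    fun s => (hd W O (fun q => ∑ i : Fin n, ((s : ℕ) : ℂ) ^ (i : ℕ) * f i q) hW hO subset_rfl hOW
      (DifferentiableOn.fun_sum fun i _ => (hf i).const_mul _)).2 k, fun p hp => ?_⟩
  obtain ⟨g1, -, g2, g3, -⟩ := hR p hp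
  refine (elim_norm (R p) g1 fun z i => f i (p, z)).trans ?_
  exact ⟨fun ⟨z, hz, h⟩ => ⟨z, g2 z hz, h⟩, fun ⟨z, hz, h⟩ => ⟨z, (g3 z hz).1.2 (h j), h⟩⟩

/-- Elimination of all variables in `E`, with parameters in `F`. -/
def ElimQ (E F : Type) [NormedAddCommGroup E] [NormedSpace ℂ E] [NormedAddCommGroup F]
    [NormedSpace ℂ F] : Prop :=
  ∀ (n : ℕ) (W : Set (E × F)) (f : Fin n → E × F → ℂ) (x₀ : E) (y₀ : F), IsOpen W →
    (∀ i, DifferentiableOn ℂ (f i) W) → (x₀, y₀) ∈ W →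
    (∀ᶠ x in 𝓝[≠] x₀, ¬ ∀ i, f i (x, y₀) = 0) →
    ∀ N ∈ 𝓝 x₀, ∃ V, IsOpen V ∧ x₀ ∈ V ∧ V ⊆ N ∧ ∃ O, IsOpen O ∧ y₀ ∈ O ∧
      ∃ (n' : ℕ) (G : Fin n' → F → ℂ), (∀ k, DifferentiableOn ℂ (G k) O) ∧
        ∀ y ∈ O, (∀ k, G k y = 0) ↔ ∃ x ∈ V, ∀ i, f i (x, y) = 0

variable {E F : Type} [NormedAddCommGroup E] [NormedSpace ℂ E] [FiniteDimensional ℂ E]
  [NormedAddCommGroup F] [NormedSpace ℂ F] [FiniteDimensional ℂ F]

omit [FiniteDimensional ℂ E] [FiniteDimensional ℂ F] in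
theorem elimQ_zero [Subsingleton E] : ElimQ E F := by
  intro n W f x₀ y₀ hW hf hm _ N hN
  refine ⟨univ, isOpen_univ, mem_univ _, fun x _ => Subsingleton.elim x₀ x ▸ mem_of_mem_nhds hN,
    (fun y => (x₀, y)) ⁻¹' W, hW.preimage (by fun_prop), hm, n, fun k y => f k (x₀, y),
    fun k => (hf k).comp (by fun_prop) (mapsTo_preimage _ _), fun y _ =>
    ⟨fun h => ⟨x₀, mem_univ _, h⟩, fun ⟨x, _, h⟩ => Subsingleton.elim x x₀ ▸ h⟩⟩

theorem elimQ_succ (h : ElimQ E F) : ElimQ (E × ℂ) F := by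
  rintro n W f ⟨x₀, z₀⟩ y₀ hW hf hm iso N hN
  let T : (E × F) × ℂ → (E × ℂ) × F := fun q => ((q.1.1, q.2), q.1.2)
  have hT : Differentiable ℂ T := by fun_prop
  have h1 : ∀ᶠ z in 𝓝[≠] z₀, ¬ ∀ i, (f i ∘ T) ((x₀, y₀), z) = 0 := by
    have : Tendsto (fun z : ℂ => (x₀, z)) (𝓝[≠] z₀) (𝓝[≠] (x₀, z₀)) :=
      tendsto_nhdsWithin_of_tendsto_nhds_of_eventually_within _
        ((Continuous.prodMk_right x₀).continuousAt.tendsto.mono_left nhdsWithin_le_nhds)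
        (eventually_mem_nhdsWithin.mono fun z hz e => hz (Prod.ext_iff.1 e).2)
    exact this.eventually iso
  have h2 := elim_one (hW.preimage hT.continuous)
    (fun i => (hf i).comp hT.differentiableOn (mapsTo_preimage _ _)) (p₀ := (x₀, y₀)) hm h1
  rw [eventually_nhdsWithin_iff] at iso
  obtain ⟨ε, hε, h3⟩ := Metric.mem_nhds_iff.1 (inter_mem hN iso)
  rw [← ball_prod_same] at h3
  obtain ⟨δ, ⟨O₁, o1, o2, -, n₁, G₁, g1, g2⟩, d0, d1⟩ :=
    (h2.and (Ioo_mem_nhdsGT hε)).exists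
  have h4 : ∀ x ∈ ball x₀ ε, ∀ z ∈ ball z₀ δ, (x, z) ∈ ball x₀ ε ×ˢ ball z₀ ε :=
    fun x hx z hz => ⟨hx, ball_subset_ball d1.le hz⟩
  obtain ⟨A, hA, B, hB, hAB⟩ := mem_nhds_prod_iff.1 (o1.mem_nhds o2)
  have h5 : ∀ᶠ x in 𝓝[≠] x₀, ¬ ∀ k, G₁ k (x, y₀) = 0 := by
    filter_upwards [self_mem_nhdsWithin, mem_nhdsWithin_of_mem_nhds hA,
      mem_nhdsWithin_of_mem_nhds (ball_mem_nhds x₀ hε)] with x e1 e2 e3 e4
    obtain ⟨z, hz, e5⟩ := (g2 _ (hAB ⟨e2, mem_of_mem_nhds hB⟩)).1 e4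
    exact (h3 (h4 x e3 z hz)).2 (fun e => e1 (Prod.ext_iff.1 e).1) e5
  obtain ⟨V, v1, v2, v3, O, k1, k2, n', G, k3, k4⟩ :=
    h n₁ O₁ G₁ x₀ y₀ o1 g1 o2 h5 _ (inter_mem hA (ball_mem_nhds x₀ hε))
  refine ⟨V ×ˢ ball z₀ δ, v1.prod isOpen_ball, ⟨v2, mem_ball_self d0⟩,
    fun q hq => (h3 (h4 q.1 (v3 hq.1).2 q.2 hq.2)).1, O ∩ interior B, k1.inter isOpen_interior,
    ⟨k2, mem_interior_iff_mem_nhds.2 hB⟩, n', G, fun k => (k3 k).mono inter_subset_left,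
    fun y hy => (k4 y hy.1).trans ⟨?_, ?_⟩⟩
  · rintro ⟨x, hx, e⟩
    obtain ⟨z, hz, e'⟩ := (g2 _ (hAB ⟨(v3 hx).1, interior_subset hy.2⟩)).1 e
    exact ⟨(x, z), ⟨hx, hz⟩, e'⟩
  · rintro ⟨⟨x, z⟩, ⟨hx, hz⟩, e⟩
    exact ⟨x, hx, (g2 (x, y) (hAB ⟨(v3 hx).1, interior_subset hy.2⟩)).2 ⟨z, hz, e⟩⟩

omit [FiniteDimensional ℂ E] [FiniteDimensional ℂ F] in
theorem elimQ_equiv {E' : Type} [NormedAddCommGroup E'] [NormedSpace ℂ E'] (e : E' ≃L[ℂ] E)
    (h : ElimQ E F) : ElimQ E' F := by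
  intro n W f x₀ y₀ hW hf hm iso N hN
  let T : E × F → E' × F := fun q => (e.symm q.1, q.2)
  have hT : Differentiable ℂ T := by fun_prop
  have h1 : ∀ᶠ x in 𝓝[≠] (e x₀), ¬ ∀ i, (f i ∘ T) (x, y₀) = 0 := by
    have h2 := e.toHomeomorph.map_punctured_nhds_eq x₀
    simp only [ContinuousLinearEquiv.coe_toHomeomorph] at h2
    rw [← h2, eventually_map]
    simpa [T] using iso
  obtain ⟨V, v1, v2, v3, O, k1, k2, n', G, k3, k4⟩ := h n (T ⁻¹' W) (fun i => f i ∘ T) (e x₀) y₀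
    (hW.preimage hT.continuous) (fun i => (hf i).comp hT.differentiableOn (mapsTo_preimage _ _))
    (by simpa [T] using hm) h1 (e.symm ⁻¹' N)
    (e.symm.continuous.continuousAt.preimage_mem_nhds (by simpa using hN))
  refine ⟨e ⁻¹' V, v1.preimage e.continuous, v2, fun x hx => by simpa using v3 hx, O, k1, k2, n',
    G, k3, fun y hy => (k4 y hy).trans ⟨?_, ?_⟩⟩
  · rintro ⟨x, hx, g⟩
    exact ⟨e.symm x, by simpa using hx, g⟩
  · rintro ⟨x, hx, g⟩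
    exact ⟨e x, hx, by simpa [T] using g⟩

theorem elimQ_fin (d : ℕ) : ElimQ (Fin d → ℂ) F := by
  induction d with
  | zero => exact elimQ_zero
  | succ d ih =>
    exact elimQ_equiv (ContinuousLinearEquiv.ofFinrankEq (by simp)) (elimQ_succ ih)

theorem elimQ : ElimQ E F :=
  elimQ_equiv (ContinuousLinearEquiv.ofFinrankEq (by simp)) (elimQ_fin (Module.finrank ℂ E))

/-- local finite mapping theorem -/
theorem elim {ι : Type} [Finite ι] {W : Set E} (hW : IsOpen W) {h : ι → E → ℂ}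
    (hh : ∀ i, DifferentiableOn ℂ (h i) W) {φ : E → F} (hφ : DifferentiableOn ℂ φ W) {x₀ : E}
    (hm : x₀ ∈ W) (iso : ∀ᶠ x in 𝓝[≠] x₀, ¬ ((∀ i, h i x = 0) ∧ φ x = φ x₀)) :
    ∀ N ∈ 𝓝 x₀, ∃ V, IsOpen V ∧ x₀ ∈ V ∧ V ⊆ N ∩ W ∧ ∃ O, IsOpen O ∧ φ x₀ ∈ O ∧
      ∃ (n : ℕ) (G : Fin n → F → ℂ), (∀ k, DifferentiableOn ℂ (G k) O) ∧
        ∀ y ∈ O, (∀ k, G k y = 0) ↔ ∃ x ∈ V, (∀ i, h i x = 0) ∧ φ x = y := by
  intro N hN
  let b := Module.finBasis ℂ F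
  let f : ι ⊕ Fin (Module.finrank ℂ F) → E × F → ℂ :=
    Sum.elim (fun i q => h i q.1) fun j q => (b.coord j).toContinuousLinearMap (φ q.1 - q.2)
  obtain ⟨n, ⟨e⟩⟩ := Finite.exists_equiv_fin (ι ⊕ Fin (Module.finrank ℂ F))
  have h1 : ∀ x y, (∀ i, f (e.symm i) (x, y) = 0) ↔ (∀ i, h i x = 0) ∧ φ x = y := fun x y => by
    rw [e.symm.forall_congr_right (q := fun i => f i (x, y) = 0), Sum.forall, ← sub_eq_zero (a := φ x),
      ← b.forall_coord_eq_zero_iff]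
    rfl
  have h2 : ∀ i, DifferentiableOn ℂ (f i) (Prod.fst ⁻¹' W) := by
    rintro (i | j)
    · exact (hh i).comp differentiableOn_fst (mapsTo_preimage _ _)
    · exact (b.coord j).toContinuousLinearMap.differentiable.comp_differentiableOn
        ((hφ.comp differentiableOn_fst (mapsTo_preimage _ _)).sub differentiableOn_snd)
  obtain ⟨V, v1, v2, v3, O, k1, k2, n', G, k3, k4⟩ := elimQ n (Prod.fst ⁻¹' W)
    (fun i => f (e.symm i)) x₀ (φ x₀) (hW.preimage continuous_fst) (fun i => h2 _) hm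
    (by simpa only [h1] using iso) _ (inter_mem hN (hW.mem_nhds hm))
  exact ⟨V, v1, v2, v3, O, k1, k2, n', G, k3, fun y hy => by simpa only [h1] using k4 y hy⟩

end Pool.Agent.MP_098ecc_co.H97
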