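import Pool.Agent.MP_098ecc_co.H97.Hol

set_option autoImplicit false

namespace Pool.Agent.MP_098ecc_co.H97

open Metric Filter Topology Set Function

section MP
variable {T : Type} [NormedAddCommGroup T] [NormedSpace ℂ T] [FiniteDimensional ℂ T]

/-- a maximum point through which no holomorphic disc passes -/
theorem endA_mp {X : Set T} (hX : IsCompact X) (hne : X.Nonempty) {f : T → ℂ}
    (hf : ContinuousOn f X) :
    ∃ q ∈ X, (∀ x ∈ X, ‖f x‖ ≤ ‖f q‖) ∧ ∀ (γ : ℂ → T) (c : ℂ), γ c = q →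
      (∀ᶠ s in 𝓝 c, γ s ∈ X ∧ DifferentiableAt ℂ γ s ∧
        DifferentiableAt ℂ (fun s => f (γ s)) s) → ∀ᶠ s in 𝓝 c, γ s = q := by
  let e : T ≃L[ℂ] EuclideanSpace ℂ (Fin (Module.finrank ℂ T)) :=
    ContinuousLinearEquiv.ofFinrankEq (by simp)
  obtain ⟨a, ha, hmax⟩ := hX.exists_isMaxOn hne hf.norm
  have hM : IsCompact (X ∩ (fun x => ‖f x‖) ⁻¹' {‖f a‖}) :=
    hX.of_isClosed_subset (hf.norm.preimage_isClosed_of_isClosed hX.isClosed isClosed_singleton)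
      inter_subset_left
  obtain ⟨q, hq, hq2⟩ := hM.exists_isMaxOn ⟨a, ha, rfl⟩ (e.continuous.norm.continuousOn)
  have hqa : ‖f q‖ = ‖f a‖ := hq.2
  refine ⟨q, hq.1, fun x hx => hqa ▸ hmax hx, fun γ c h0 hγ => ?_⟩
  have h1 : ∀ᶠ s in 𝓝 c, ‖f (γ s)‖ = ‖f (γ c)‖ := by
    refine Complex.norm_eventually_eq_of_isLocalMax (f := fun s => f (γ s))
      (hγ.mono fun s hs => hs.2.2) ?_
    filter_upwards [hγ] with s hs
    show ‖f (γ s)‖ ≤ ‖f (γ c)‖
    rw [h0, hqa]; exact hmax hs.1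
  have h2 : ∀ᶠ s in 𝓝 c, e (γ s) = e (γ c) := by
    refine Complex.eventually_eq_of_isLocalMax_norm (f := fun s => e (γ s))
      (hγ.mono fun s hs => e.differentiableAt.comp s hs.2.1) ?_
    filter_upwards [hγ, h1] with s hs hs1
    show ‖e (γ s)‖ ≤ ‖e (γ c)‖
    rw [h0]
    exact hq2 ⟨hs.1, by rw [mem_preimage, hs1, h0, hqa]; rfl⟩
  filter_upwards [h2] with s hs
  rw [← h0]; exact e.injective hs

/-- peak function version -/
theorem endA_peak {X : Set T} (hX : IsCompact X) {g p : T → ℂ} (hg : ContinuousOn g X)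
    (hp : Differentiable ℂ p) {a : T} (ha : a ∈ X) (hga : g a ≠ 0) {θ : ℝ} (h0 : 0 ≤ θ)
    (hθ : θ < ‖p a‖) :
    ∃ q ∈ X, g q ≠ 0 ∧ θ < ‖p q‖ ∧ ∀ (γ : ℂ → T) (c : ℂ), γ c = q →
      (∀ᶠ s in 𝓝 c, γ s ∈ X ∧ DifferentiableAt ℂ γ s ∧
        DifferentiableAt ℂ (fun s => g (γ s)) s) → ∀ᶠ s in 𝓝 c, γ s = q := by
  obtain ⟨M, hM⟩ := hX.exists_bound_of_continuousOn hg
  have hM0 : 0 ≤ M := (norm_nonneg _).trans (hM a ha)
  have hpa : 0 < ‖p a‖ := h0.trans_lt hθ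
  have hlim : Tendsto (fun n : ℕ => M * (θ / ‖p a‖) ^ n) atTop (𝓝 0) := by
    simpa using (tendsto_pow_atTop_nhds_zero_of_lt_one (div_nonneg h0 hpa.le)
      ((div_lt_one hpa).2 hθ)).const_mul M
  obtain ⟨n, hn⟩ := (hlim.eventually (gt_mem_nhds (norm_pos_iff.2 hga))).exists
  have hn' : M * θ ^ n < ‖g a‖ * ‖p a‖ ^ n := by
    rw [div_pow, ← mul_div_assoc, div_lt_iff₀ (pow_pos hpa n)] at hn
    exact hn
  obtain ⟨q, hq, hmax, hd⟩ := endA_mp hX ⟨a, ha⟩ (f := fun x => g x * p x ^ n)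
    (hg.mul (hp.continuous.continuousOn.pow n))
  have h1 : M * θ ^ n < ‖g q‖ * ‖p q‖ ^ n := by
    have := hmax a ha
    simp only [norm_mul, norm_pow] at this
    exact hn'.trans_le this
  refine ⟨q, hq, fun h => ?_, ?_, fun γ c hc hγ => hd γ c hc ?_⟩
  · rw [h, norm_zero, zero_mul] at h1
    exact absurd h1 (not_lt.2 (by positivity))
  · by_contra h
    rw [not_lt] at h
    have : ‖g q‖ * ‖p q‖ ^ n ≤ M * θ ^ n := by
      gcongr
      exact hM q hq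
    exact absurd h1 (not_lt.2 this)
  · filter_upwards [hγ] with s hs
    exact ⟨hs.1, hs.2.1, hs.2.2.mul (((hp _).comp s hs.2.1).pow n)⟩

end MP

section Exit
variable {B Z : Type} [NormedAddCommGroup B] [NormedSpace ℂ B] [FiniteDimensional ℂ B]
  [NormedAddCommGroup Z] [NormedSpace ℂ Z] [FiniteDimensional ℂ Z]

/-- existence of a nondegenerate limit point without a disc -/
theorem endA_exit {U : Set Z} (hU : IsOpen U) {z₀ : Z} (hz : z₀ ∈ U) {β : B}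
    {g : B × Z → ℂ} (hg : ContinuousOn g (closedBall 0 1 ×ˢ U)) {A : Set (B × Z)}
    (hA : ∀ q ∈ A, q.1 ∈ closedBall (0 : B) 1 ∧ g q ≠ 0)
    (hiso : ∀ᶠ z in 𝓝[≠] z₀, (β, z) ∉ closure A) (hs : (β, z₀) ∈ closure A)
    {p : B → ℂ} (hp : Differentiable ℂ p)
    (hpk : ∀ b ∈ closedBall (0 : B) 1, b ≠ β → ‖p b‖ < ‖p β‖) (hp0 : p β ≠ 0) :
    ∃ q ∈ closure A, q.1 ∈ closedBall (0 : B) 1 ∧ q.2 ∈ U ∧ g q ≠ 0 ∧
      ∀ (γ : ℂ → B × Z) (c : ℂ), γ c = q → (∀ᶠ s in 𝓝 c, γ s ∈ closure A ∧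
        DifferentiableAt ℂ γ s ∧ DifferentiableAt ℂ (fun s => g (γ s)) s) →
        ∀ᶠ s in 𝓝 c, γ s = q := by
  have := FiniteDimensional.proper ℂ B
  have := FiniteDimensional.proper ℂ Z
  have hcl : ∀ q ∈ closure A, q.1 ∈ closedBall (0 : B) 1 := fun q hq =>
    closure_minimal (fun q hq => (hA q hq).1) (isClosed_closedBall.preimage continuous_fst) hq
  rw [eventually_nhdsWithin_iff] at hiso
  obtain ⟨ρ, hρ, hρ'⟩ := Metric.nhds_basis_closedBall.eventually_iff.1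
    (hiso.and (hU.mem_nhds hz))
  have h1 : ∀ᶠ b in 𝓝 β, ∀ z ∈ sphere z₀ ρ, (b, z) ∉ closure A := by
    refine (isCompact_sphere z₀ ρ).eventually_forall_of_forall_eventually fun z hz' => ?_
    have h2 : (β, z) ∉ closure A :=
      (hρ' (sphere_subset_closedBall hz')).1 (ne_of_mem_sphere hz' hρ.ne')
    exact isClosed_closure.isOpen_compl.mem_nhds h2
  obtain ⟨ε, hε, hε'⟩ := Metric.nhds_basis_closedBall.eventually_iff.1 h1
  obtain ⟨θ, h0, hθ, hθ'⟩ : ∃ θ : ℝ, 0 ≤ θ ∧ θ < ‖p β‖ ∧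
      ∀ b ∈ closedBall (0 : B) 1 ∩ sphere β ε, ‖p b‖ ≤ θ := by
    rcases (closedBall (0 : B) 1 ∩ sphere β ε).eq_empty_or_nonempty with h | h
    · exact ⟨0, le_rfl, norm_pos_iff.2 hp0, by simp [h]⟩
    · obtain ⟨b, hb, hm⟩ := ((isCompact_closedBall (0 : B) 1).inter_right
        isClosed_sphere).exists_isMaxOn h hp.continuous.norm.continuousOn
      exact ⟨‖p b‖, norm_nonneg _, hpk b hb.1 (ne_of_mem_sphere hb.2 hε.ne'), fun x hx => hm hx⟩
  have hN : IsCompact (closedBall β ε ×ˢ closedBall z₀ ρ) :=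
    (isCompact_closedBall _ _).prod (isCompact_closedBall _ _)
  have hX : IsCompact (closure A ∩ closedBall β ε ×ˢ closedBall z₀ ρ) :=
    hN.inter_left isClosed_closure
  have hsub : closure A ∩ closedBall β ε ×ˢ closedBall z₀ ρ ⊆ closedBall 0 1 ×ˢ U :=
    fun q hq => ⟨hcl q hq.1, (hρ' hq.2.2).2⟩
  have h3 : ∀ᶠ q in 𝓝 (β, z₀), q ∈ closedBall β ε ×ˢ closedBall z₀ ρ ∧ θ < ‖p q.1‖ :=
    Eventually.and (prod_mem_nhds (closedBall_mem_nhds _ hε) (closedBall_mem_nhds _ hρ))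
      ((hp.continuous.comp continuous_fst).norm.continuousAt.eventually (lt_mem_nhds hθ))
  obtain ⟨a, ha, ha'⟩ := ((mem_closure_iff_frequently.1 hs).and_eventually h3).exists
  obtain ⟨q, hq, hgq, hpq, hd⟩ := endA_peak hX (hg.mono hsub) (p := fun q => p q.1)
    (hp.comp differentiable_fst) ⟨subset_closure ha, ha'.1⟩ (hA a ha).2 h0 ha'.2
  refine ⟨q, hq.1, (hsub hq).1, (hsub hq).2, hgq, fun γ c hc hγ => hd γ c hc ?_⟩
  have hb : q.1 ∈ ball β ε := by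
    rcases (mem_closedBall.1 hq.2.1).lt_or_eq with h | h
    · exact h
    · exact absurd (hθ' q.1 ⟨(hsub hq).1, h⟩) (not_le.2 hpq)
  have hz' : q.2 ∈ ball z₀ ρ := by
    rcases (mem_closedBall.1 hq.2.2).lt_or_eq with h | h
    · exact h
    · exact absurd hq.1 (hε' hq.2.1 q.2 h)
  have h4 : ∀ᶠ s in 𝓝 c, γ s ∈ ball β ε ×ˢ ball z₀ ρ :=
    hγ.self_of_nhds.2.1.continuousAt.eventually
      ((isOpen_ball.prod isOpen_ball).mem_nhds (by rw [hc]; exact ⟨hb, hz'⟩))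
  filter_upwards [hγ, h4] with s hs hs'
  exact ⟨⟨hs.1, ball_subset_closedBall hs'.1, ball_subset_closedBall hs'.2⟩, hs.2⟩

end Exit

/-- holomorphy for a frozen boundary parameter -/
theorem endA_frz {Λ W F : Type} [TopologicalSpace Λ] [NormedAddCommGroup W] [NormedSpace ℂ W]
    [FiniteDimensional ℂ W] [NormedAddCommGroup F] [NormedSpace ℂ F] [CompleteSpace F]
    {f : Λ → W → F} {S : Set Λ} {O : Set W} (hO : IsOpen O)
    (hf : ContinuousOn f.uncurry (S ×ˢ O)) {x₀ : Λ} (hx : x₀ ∈ S) {l : Filter Λ} [l.NeBot]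
    (hl : l ≤ 𝓝[S] x₀) (hd : ∀ᶠ x in l, DifferentiableOn ℂ (f x) O) {w : W} (hw : w ∈ O) :
    DifferentiableAt ℂ (f x₀) w ∧
      Tendsto (fun x => fderiv ℂ (f x) w) l (𝓝 (fderiv ℂ (f x₀) w)) := by
  have := FiniteDimensional.proper ℂ W
  obtain ⟨δ, hδ, hδO⟩ := Metric.nhds_basis_closedBall.mem_iff.1 (hO.mem_nhds hw)
  have hu : TendstoUniformlyOn f (f x₀) l (ball w δ) := by
    intro u hu
    obtain ⟨v, hv, hv'⟩ := (isCompact_closedBall w δ).mem_uniformity_of_prod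
      (hf.mono (prod_mono_right hδO)) hx (symm_le_uniformity hu)
    filter_upwards [hl hv] with x hx y hy
    exact hv' x hx y (ball_subset_closedBall hy)
  have h := hol_lim isOpen_ball
    (hd.mono fun x hx => hx.mono (ball_subset_closedBall.trans hδO)) hu
  exact ⟨h.1.differentiableAt (ball_mem_nhds w hδ), h.2 w (mem_ball_self hδ)⟩

theorem endA_ident {F : Type} [NormedAddCommGroup F] [NormedSpace ℂ F] [CompleteSpace F]
    {u : ℂ → F} {β y₀ : ℂ} {ε : ℝ} (hu : DifferentiableOn ℂ u (ball 0 1 ∩ ball β ε))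
    (hy : y₀ ∈ ball 0 1 ∩ ball β ε) (h : ∃ᶠ y in 𝓝[≠] y₀, u y = 0) :
    ∀ y ∈ ball 0 1 ∩ ball β ε, u y = 0 :=
  (hu.analyticOnNhd (isOpen_ball.inter isOpen_ball)).eqOn_zero_of_preconnected_of_frequently_eq_zero
    ((convex_ball _ _).inter (convex_ball _ _)).isPreconnected hy h

theorem endA_pk {β b : ℂ} (hβ : ‖β‖ = 1) (hb : ‖b‖ ≤ 1) (hne : b ≠ β) : ‖b + β‖ < 2 := by
  have h := parallelogram_law_with_norm ℝ b β
  have h1 : 0 < ‖b - β‖ := norm_pos_iff.2 (sub_ne_zero.2 hne)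
  have h2 := norm_nonneg b
  rw [hβ] at h
  by_contra h3
  rw [not_lt] at h3
  nlinarith

theorem endA_acc {T : Type} [TopologicalSpace T] {S : Set T} {γ : ℂ → T} {π : T → ℂ} {c : ℂ}
    (hγ : ContinuousAt γ c) (h : ∀ᶠ s in 𝓝 c, γ s ∈ S ∧ π (γ s) = s) : AccPt (γ c) (𝓟 S) := by
  rw [accPt_iff_frequently]
  have h0 := h.self_of_nhds.2
  refine (hγ.tendsto.mono_left (nhdsWithin_le_nhds (s := {c}ᶜ))).frequently
    (Eventually.frequently ?_)
  filter_upwards [nhdsWithin_le_nhds h, self_mem_nhdsWithin] with s hs hs'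
  refine ⟨fun e => hs' ?_, hs.1⟩
  rw [mem_singleton_iff, ← hs.2, e, h0]

theorem endA_freq {T : Type} [TopologicalSpace T] {S : Set T} {γ : ℂ → T} {π : T → ℂ} {q : T}
    (hπ : Continuous π) (hq : AccPt q (𝓟 S)) (h0 : γ (π q) = q)
    (h : ∀ᶠ x in 𝓝 q, x ∈ S → γ (π x) = x) : ∃ᶠ s in 𝓝[≠] (π q), γ s ∈ S := by
  rw [accPt_iff_frequently] at hq
  rw [frequently_nhdsWithin_iff]
  refine hπ.continuousAt.tendsto.frequently ((hq.and_eventually h).mono ?_)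
  rintro x ⟨⟨h1, h2⟩, h3⟩
  refine ⟨by rw [h3 h2]; exact h2, fun e => h1 ?_⟩
  rw [← h3 h2, mem_singleton_iff.1 e, h0]

theorem endA_nc {T : Type} {γ : ℂ → T} {π : T → ℂ} {c : ℂ} {q : T}
    (h : ∀ᶠ s in 𝓝 c, π (γ s) = s) (h' : ∀ᶠ s in 𝓝 c, γ s = q) : False := by
  have h1 : ∀ᶠ s in 𝓝[≠] c, False := by
    filter_upwards [nhdsWithin_le_nhds h, nhdsWithin_le_nhds h', self_mem_nhdsWithin] with s a b d
    apply d
    rw [mem_singleton_iff, ← a, b, ← h'.self_of_nhds, h.self_of_nhds]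
  exact h1.exists.elim fun _ => id

theorem endA_wall {β : ℂ} (hβ : ‖β‖ ≤ 1) : (𝓝[ball (0 : ℂ) 1] β).NeBot := by
  rw [← mem_closure_iff_nhdsWithin_neBot, closure_ball _ one_ne_zero]
  simpa using hβ

/-- a quotient of tame functions has a bounded derivative -/
theorem endA_last {J j σ : ℂ → ℂ} {β : ℂ} (hβ : ‖β‖ = 1) {ε C : ℝ} (hε : 0 < ε)
    (hJ : DifferentiableOn ℂ J (ball 0 1))
    (cj : ContinuousWithinAt j (closedBall 0 1) β) (cσ : ContinuousWithinAt σ (closedBall 0 1) β)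
    (hσ : σ β ≠ 0) (h : ∀ b ∈ ball (0 : ℂ) 1 ∩ ball β ε, DifferentiableAt ℂ j b ∧
      DifferentiableAt ℂ σ b ∧ j b = σ b * J b ∧ ‖deriv j b‖ ≤ C * (1 + ‖J b‖) ∧
      ‖deriv σ b‖ ≤ C * (1 + ‖J b‖)) : Bdd (deriv J) := by
  have hc : 0 < ‖σ β‖ / 2 := half_pos (norm_pos_iff.2 hσ)
  have h1 : ∀ᶠ b in 𝓝[closedBall 0 1] β, ‖j b‖ < ‖j β‖ + 1 ∧ ‖σ β‖ / 2 < ‖σ b‖ ∧ b ∈ ball β ε :=
    (cj.norm.eventually (gt_mem_nhds (lt_add_one _))).and
      ((cσ.norm.eventually (lt_mem_nhds (half_lt_self (norm_pos_iff.2 hσ)))).and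
        (nhdsWithin_le_nhds (ball_mem_nhds β hε)))
  rw [eventually_nhdsWithin_iff] at h1
  obtain ⟨δ, hδ, h2⟩ := Metric.eventually_nhds_iff_ball.1 h1
  set c := ‖σ β‖ / 2
  set M := (‖j β‖ + 1) / c
  refine ⟨β, hβ, δ, hδ, (|C| * (1 + M) + |C| * (1 + M) * M) / c, fun b hb hb' => ?_⟩
  have hb1 : b ∈ ball (0 : ℂ) 1 := by simpa using hb
  obtain ⟨a1, a2, a3⟩ := h2 b (by rwa [mem_ball, dist_eq_norm]) (ball_subset_closedBall hb1)
  obtain ⟨d1, d2, d3, d4, d5⟩ := h b ⟨hb1, a3⟩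
  have hJb : ‖J b‖ ≤ M := by
    rw [le_div_iff₀ hc]
    rw [d3, norm_mul] at a1
    nlinarith [norm_nonneg (J b)]
  have hJd := hJ.differentiableAt (isOpen_ball.mem_nhds hb1)
  have he : j =ᶠ[𝓝 b] fun b => σ b * J b := by
    filter_upwards [(isOpen_ball.inter isOpen_ball).mem_nhds ⟨hb1, a3⟩] with x hx
    exact (h x hx).2.2.1
  have hd : deriv j b = deriv σ b * J b + σ b * deriv J b := by
    rw [he.deriv_eq, deriv_fun_mul d2 hJd]
  have hC : C * (1 + ‖J b‖) ≤ |C| * (1 + M) := by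
    gcongr
    exact le_abs_self C
  have h5 : ‖σ b‖ * ‖deriv J b‖ ≤ |C| * (1 + M) + |C| * (1 + M) * M := by
    rw [← norm_mul, show σ b * deriv J b = deriv j b - deriv σ b * J b by rw [hd]; ring]
    refine (norm_sub_le _ _).trans (add_le_add (d4.trans hC) ?_)
    rw [norm_mul]
    exact mul_le_mul (d5.trans hC) hJb (norm_nonneg _) ((norm_nonneg _).trans (d5.trans hC))
  rw [le_div_iff₀ hc]
  nlinarith [norm_nonneg (deriv J b)]

/-- boundary uniqueness -/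
theorem endA_bu {ψ : ℂ → ℂ} {β c : ℂ} {ε δ : ℝ} (hc : ‖c‖ = 1) (hδ : 0 < δ)
    (hsub : closedBall c δ ⊆ ball β ε) (cψ : ContinuousOn ψ (closedBall 0 1 ∩ ball β ε))
    (dψ : DifferentiableOn ℂ ψ (ball 0 1 ∩ ball β ε))
    (h0 : ∀ y ∈ closedBall c δ, ‖y‖ = 1 → ψ y = 0) : ∀ y ∈ ball 0 1 ∩ ball β ε, ψ y = 0 := by
  have hX : IsCompact (closedBall (0 : ℂ) 1 ∩ closedBall c δ) :=
    (isCompact_closedBall _ _).inter_right isClosed_closedBall
  obtain ⟨θ, h0θ, hθ, hθ'⟩ : ∃ θ : ℝ, 0 ≤ θ ∧ θ < 2 ∧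
      ∀ b ∈ closedBall (0 : ℂ) 1 ∩ sphere c δ, ‖b + c‖ ≤ θ := by
    rcases (closedBall (0 : ℂ) 1 ∩ sphere c δ).eq_empty_or_nonempty with h | h
    · exact ⟨0, le_rfl, two_pos, by simp [h]⟩
    · obtain ⟨b, hb, hm⟩ := ((isCompact_closedBall (0 : ℂ) 1).inter_right
        isClosed_sphere).exists_isMaxOn h (f := fun b => ‖b + c‖) (by fun_prop)
      exact ⟨‖b + c‖, norm_nonneg _,
        endA_pk hc (by simpa using hb.1) (ne_of_mem_sphere hb.2 hδ.ne'), fun x hx => hm hx⟩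
  have key : ∀ a ∈ closedBall (0 : ℂ) 1 ∩ closedBall c δ, θ < ‖a + c‖ → ψ a = 0 := by
    intro a ha hθa
    by_contra hne
    obtain ⟨q, hq, hgq, hpq, hd⟩ := endA_peak hX (cψ.mono (inter_subset_inter_right _ hsub))
      (p := fun b => b + c) (by fun_prop) ha hne h0θ hθa
    have hq1 : q ∈ ball (0 : ℂ) 1 := by
      rcases (mem_closedBall.1 hq.1).lt_or_eq with h | h
      · exact h
      · exact absurd (h0 q hq.2 (by simpa using h)) hgq
    have hq2 : q ∈ ball c δ := by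
      rcases (mem_closedBall.1 hq.2).lt_or_eq with h | h
      · exact h
      · exact absurd (hθ' q ⟨hq.1, h⟩) (not_le.2 hpq)
    refine endA_nc (γ := id) (π := id) (Eventually.of_forall fun _ => rfl) (hd id q rfl ?_)
    filter_upwards [(isOpen_ball.inter isOpen_ball).mem_nhds ⟨hq1, hq2⟩] with s hs
    exact ⟨⟨ball_subset_closedBall hs.1, ball_subset_closedBall hs.2⟩, differentiableAt_id,
      dψ.differentiableAt ((isOpen_ball.inter isOpen_ball).mem_nhds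
        ⟨hs.1, hsub (ball_subset_closedBall hs.2)⟩)⟩
  have hO : IsOpen (ball (0 : ℂ) 1 ∩ (ball c δ ∩ {a | θ < ‖a + c‖})) :=
    isOpen_ball.inter (isOpen_ball.inter (isOpen_lt continuous_const (by fun_prop)))
  have := endA_wall hc.le
  have h2 : ∀ᶠ a in 𝓝[ball (0 : ℂ) 1] c, a ∈ ball (0 : ℂ) 1 ∩ (ball c δ ∩ {a | θ < ‖a + c‖}) := by
    have h3 : θ < ‖c + c‖ := by rw [← two_mul, norm_mul, hc]; simpa using hθ
    filter_upwards [self_mem_nhdsWithin, nhdsWithin_le_nhds (ball_mem_nhds c hδ),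
      nhdsWithin_le_nhds ((by fun_prop : ContinuousAt (fun a => ‖a + c‖) c).eventually
        (lt_mem_nhds h3))] with a a1 a2 a3
    exact ⟨a1, a2, a3⟩
  obtain ⟨a, ha⟩ := h2.exists
  refine endA_ident dψ ⟨ha.1, hsub (ball_subset_closedBall ha.2.1)⟩ (Eventually.frequently ?_)
  filter_upwards [nhdsWithin_le_nhds (hO.mem_nhds ha)] with y hy
  exact key y ⟨ball_subset_closedBall hy.1, ball_subset_closedBall hy.2.1⟩ hy.2.2

/-- either a circle without boundary zeros or the zero function -/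
theorem endA_conf {ψ : ℂ → ℂ} {β : ℂ} {ε : ℝ} (hβ : ‖β‖ = 1) (hε : 0 < ε)
    (cψ : ContinuousOn ψ (closedBall 0 1 ∩ ball β ε))
    (dψ : DifferentiableOn ℂ ψ (ball 0 1 ∩ ball β ε)) (h0 : ψ β = 0) :
    (∃ ρ, 0 < ρ ∧ ρ < ε ∧ ∀ y, ‖y‖ = 1 → ‖y - β‖ = ρ → ψ y ≠ 0) ∨
      ∀ y ∈ ball 0 1 ∩ ball β ε, ψ y = 0 := by
  refine or_iff_not_imp_left.2 fun hn => ?_
  push Not at hn
  by_cases hz : ∀ y ∈ ball β ε, ‖y‖ = 1 → ψ y = 0
  · exact endA_bu hβ (half_pos hε) (closedBall_subset_ball (half_lt_self hε)) cψ dψ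
      fun y hy => hz y (closedBall_subset_ball (half_lt_self hε) hy)
  push Not at hz
  obtain ⟨y₀, hy₀, hy1, hy2⟩ := hz
  let R : ℂ → ℂ := fun y => β ^ 2 * (starRingEnd ℂ) y
  have hββ : β * (starRingEnd ℂ) β = 1 := by
    rw [Complex.mul_conj, Complex.normSq_eq_norm_sq, hβ]; simp
  have hR1 : ∀ y, ‖R y‖ = ‖y‖ := fun y => by simp [R, hβ]
  have hR2 : ∀ y, ‖R y - β‖ = ‖y - β‖ := fun y => by
    have : R y - β = β ^ 2 * (starRingEnd ℂ) (y - β) := by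
      simp only [R, map_sub]; linear_combination β * hββ
    rw [this, norm_mul, norm_pow, hβ, Complex.norm_conj]; simp
  have hR3 : ∀ y, R (R y) = y := fun y => by
    simp only [R, map_mul, map_pow, Complex.conj_conj]
    linear_combination (β * (starRingEnd ℂ) β + 1) * y * hββ
  have hR4 : ∀ y y' : ℂ, ‖y‖ = 1 → ‖y'‖ = 1 → ‖y' - β‖ = ‖y - β‖ → y' = y ∨ y' = R y := by
    intro y y' a1 a2 a3
    have e : ∀ u : ℂ, u * (starRingEnd ℂ) u = (‖u‖ ^ 2 : ℝ) := fun u => by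
      rw [Complex.mul_conj, Complex.normSq_eq_norm_sq]
    have b1 := e y
    have b2 := e y'
    have b3 : (y' - β) * (starRingEnd ℂ) (y' - β) = (y - β) * (starRingEnd ℂ) (y - β) := by
      rw [e, e, a3]
    rw [a1] at b1
    rw [a2] at b2
    simp only [map_sub, one_pow, Complex.ofReal_one] at b1 b2 b3
    have : (y' - y) * (y' - R y) = 0 := by
      simp only [R]
      linear_combination (-β * y') * b3 + (β * y') * b2 -
        (β * y') * b1 + β ^ 2 * b1 - β ^ 2 * b2 - (y' ^ 2 - y * y') * hββ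
    rcases mul_eq_zero.1 this with h | h
    · exact Or.inl (sub_eq_zero.1 h)
    · exact Or.inr (sub_eq_zero.1 h)
  have hne : y₀ ≠ β := fun e => hy2 (e ▸ h0)
  have h1 : ∀ᶠ y in 𝓝[closedBall 0 1 ∩ ball β ε] y₀, ψ y ≠ 0 :=
    (cψ y₀ ⟨by simp [hy1], hy₀⟩).eventually_ne hy2
  rw [eventually_nhdsWithin_iff] at h1
  have h2 : ∀ᶠ y in 𝓝 y₀, y ∈ ball β ε ∧ y ≠ β :=
    (isOpen_ball.eventually_mem hy₀).and (eventually_ne_nhds hne)
  have hRc : Tendsto R (𝓝 (R y₀)) (𝓝 y₀) := by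
    have : Continuous R := by fun_prop
    simpa only [hR3] using this.tendsto (R y₀)
  obtain ⟨δ, hδ, h3⟩ := Metric.nhds_basis_closedBall.eventually_iff.1 (hRc.eventually (h1.and h2))
  have hm : ∀ y, R y ∈ ball β ε → y ∈ ball β ε := fun y hy => by
    rwa [mem_ball, dist_eq_norm, hR2, ← dist_eq_norm] at hy
  refine endA_bu (c := R y₀) (by rw [hR1, hy1]) hδ (fun y hy => hm y (h3 hy).2.1) cψ dψ
    fun y hy hy' => ?_
  obtain ⟨a1, a2, a3⟩ := h3 hy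
  obtain ⟨y', b1, b2, b3⟩ := hn ‖y - β‖ (by rw [← hR2]; exact norm_pos_iff.2 (sub_ne_zero.2 a3))
    (by rw [← dist_eq_norm]; exact hm y a2)
  rcases hR4 y y' hy' b1 b2 with h | h
  · exact h ▸ b3
  · exact absurd (h ▸ b3) (a1 ⟨by simp [hR1, hy'], a2⟩)

/-- derivative bound from a bound of the real part -/
theorem endA_bc {f : ℂ → ℂ} {x : ℂ} {d M : ℝ} (hd : 0 < d) (hM : 0 < M)
    (hf : DifferentiableOn ℂ f (ball x d)) (h : ∀ y ∈ ball x d, (f y).re - (f x).re ≤ M) :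
    ‖deriv f x‖ ≤ 4 * M / d := by
  have hm : ∀ w ∈ ball (0 : ℂ) d, x + w ∈ ball x d := fun w hw => by simpa using hw
  have h1 : DifferentiableOn ℂ (fun w => f (x + w) - f x) (ball 0 d) :=
    (hf.comp (by fun_prop) hm).sub_const _
  have h2 : ∀ w ∈ ball (0 : ℂ) (d / 2), ‖f (x + w) - f x‖ ≤ 2 * M := by
    intro w hw
    have hw' : ‖w‖ < d / 2 := by simpa using hw
    refine (Complex.borelCaratheodory_zero hM h1 (fun w hw => by simpa using h _ (hm w hw)) hd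
      (ball_subset_ball (by linarith) hw) (by simp)).trans ?_
    rw [div_le_iff₀ (by linarith)]
    nlinarith
  have h3 := cauchy_fderiv (half_pos hd) (h1.mono (ball_subset_ball (by linarith))) h2
  rw [← norm_deriv_eq_norm_fderiv, deriv_sub_const, deriv_comp_const_add, add_zero] at h3
  refine h3.trans (le_of_eq ?_)
  field_simp
  ring

end Pool.Agent.MP_098ecc_co.H97
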