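import Pool.Agent.MP_098ecc_co.H97.EndA

set_option autoImplicit false

namespace Pool.Agent.MP_098ecc_co.H97

open Metric Filter Topology Set Function

/-- finite fibres made of graphs -/
theorem endC_fib {G : Set (ℂ × ℂ)} (hG : IsClosed G) {Y : Set ℂ} (hY : IsCompact Y)
    (hGY : ∀ p ∈ G, p.2 ∈ Y) {x₀ : ℂ} {Q : ℂ → (ℂ → ℂ) → Prop}
    (h : ∀ y, (x₀, y) ∈ G → ∃ ψ : ℂ → ℂ, Q y ψ ∧ ψ x₀ = y ∧ ContinuousAt ψ x₀ ∧
      ∀ᶠ p in 𝓝 (x₀, y), (p ∈ G ↔ ψ p.1 = p.2)) :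
    ∃ (s : Finset ℂ) (ψ : ℂ → ℂ → ℂ), (∀ y, y ∈ s ↔ (x₀, y) ∈ G) ∧ (∀ y ∈ s, Q y (ψ y)) ∧
      ∀ᶠ x in 𝓝 x₀, ∀ f : ℂ → ℂ, ∑ᶠ y ∈ {y | (x, y) ∈ G}, f y = ∑ y ∈ s, f (ψ y x) := by
  choose! ψ hQ h0 hc he using h
  set S : Set ℂ := {y | (x₀, y) ∈ G} with hS
  have hSc : IsCompact S :=
    hY.of_isClosed_subset (hG.preimage (by fun_prop)) fun y hy => hGY _ hy
  have hSf : S.Finite := by
    obtain ⟨T, hT, hcov⟩ := hSc.elim_nhds_subcover (fun v => {w | w ∈ S → w = v}) (fun v hv => by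
      have hg : Tendsto (fun w => (x₀, w)) (𝓝 v) (𝓝 (x₀, v)) :=
        (continuousAt_const.prodMk continuousAt_id : ContinuousAt (fun w : ℂ => (x₀, w)) v)
      filter_upwards [hg.eventually (he v hv)] with w hw hwS
      exact (hw.1 hwS).symm.trans (h0 v hv))
    refine T.finite_toSet.subset fun w hw => ?_
    obtain ⟨v, hv, hwv⟩ := mem_iUnion₂.1 (hcov hw)
    rw [hwv hw]
    exact hv
  have e1 : ∀ᶠ x in 𝓝 x₀, ∀ y ∈ Y, (x, y) ∈ G → ∃ w ∈ S, ψ w x = y := by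
    refine hY.eventually_forall_of_forall_eventually
      (P := fun x y => (x, y) ∈ G → ∃ w ∈ S, ψ w x = y) fun y _ => ?_
    by_cases hy : (x₀, y) ∈ G
    · filter_upwards [he y hy] with q hq hq'
      exact ⟨y, hy, hq.1 hq'⟩
    · filter_upwards [hG.isOpen_compl.mem_nhds hy] with q hq hq'
      exact absurd hq' hq
  have e2 : ∀ᶠ x in 𝓝 x₀, ∀ v ∈ S, ∀ w ∈ S, ψ v x = ψ w x → v = w := by
    refine (eventually_all_finite hSf).2 fun v hv => (eventually_all_finite hSf).2 fun w hw => ?_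
    by_cases e : v = w
    · exact Eventually.of_forall fun _ _ => e
    · have hne : (fun t => ψ v t - ψ w t) x₀ ≠ 0 := by
        simp only [h0 v hv, h0 w hw]
        exact sub_ne_zero.2 e
      filter_upwards [((hc v hv).sub (hc w hw)).eventually_ne hne] with t ht h
      exact absurd (sub_eq_zero.2 h) ht
  have e3 : ∀ᶠ x in 𝓝 x₀, ∀ v ∈ S, (x, ψ v x) ∈ G := by
    refine (eventually_all_finite hSf).2 fun v hv => ?_
    have hg : Tendsto (fun x => (x, ψ v x)) (𝓝 x₀) (𝓝 (x₀, v)) := by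
      have : ContinuousAt (fun x => (x, ψ v x)) x₀ := continuousAt_id.prodMk (hc v hv)
      simpa only [ContinuousAt, h0 v hv] using this
    filter_upwards [hg.eventually (he v hv)] with x hx
    exact hx.2 rfl
  refine ⟨hSf.toFinset, ψ, fun y => hSf.mem_toFinset, fun y hy => hQ y (hSf.mem_toFinset.1 hy), ?_⟩
  filter_upwards [e1, e2, e3] with x a1 a2 a3 f
  have e : {y | (x, y) ∈ G} = (fun v => ψ v x) '' (hSf.toFinset : Set ℂ) := by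
    rw [hSf.coe_toFinset]
    ext y
    exact ⟨fun hy => a1 y (hGY _ hy) hy, by rintro ⟨w, hw, rfl⟩; exact a3 w hw⟩
  show ∑ᶠ y ∈ {y | (x, y) ∈ G}, f y = _
  rw [e, finsum_mem_image (by rw [hSf.coe_toFinset]; exact a2), finsum_mem_coe_finset]

/-- barrier estimate on a curve whose boundary lies on the torus -/
theorem endC_bar {G : Set (ℂ × ℂ)} (hG : IsClosed G) {β₁ β₂ : ℂ} (h₁ : ‖β₁‖ = 1) (h₂ : ‖β₂‖ = 1)
    {ε ρ η : ℝ} (hη : 0 < η) (hη1 : η ≤ 1 / 2) (hηε : 4 * η ≤ ε) (hρ1 : ρ < 1)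
    (hb : ∀ p ∈ G, ‖p.1‖ ≤ 1 ∧ p.2 ∈ closedBall β₂ ρ)
    (ht : ∀ p ∈ G, p.1 ∈ ball β₁ ε → ‖p.1‖ = 1 → ‖p.2‖ = 1)
    (hl : ∀ p ∈ G, p.1 ∈ ball β₁ ε → ‖p.1‖ < 1 → ∃ ψ : ℂ → ℂ, ψ p.1 = p.2 ∧
      ∀ᶠ x in 𝓝 p.1, DifferentiableAt ℂ ψ x ∧ (x, ψ x) ∈ G) :
    ∃ C > (0 : ℝ), ∀ p ∈ G, ‖p.1 - β₁‖ < η → -Real.log ‖p.2‖ ≤ C * (1 - ‖p.1‖) := by
  have hρ' : 0 < 1 - ρ := by linarith
  have hy : ∀ p ∈ G, 1 - ρ ≤ ‖p.2‖ := fun p hp => by
    have h3 := (hb p hp).2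
    rw [mem_closedBall, dist_eq_norm, norm_sub_rev] at h3
    linarith [norm_sub_norm_le β₂ p.2]
  set C : ℝ := 2 * (|Real.log (1 - ρ)| + 1) / η ^ 2 with hC
  have hC0 : 0 < C := by positivity
  refine ⟨C, hC0, fun p hp hp1 => ?_⟩
  have hx1 : 1 - ‖p.1‖ < η := by
    rw [norm_sub_rev] at hp1
    linarith [norm_sub_norm_le β₁ p.1]
  have hx0 : 0 < ‖p.1‖ := by linarith
  have hx0' : (‖p.1‖ : ℂ) ≠ 0 := by exact_mod_cast hx0.ne'
  set b : ℂ := p.1 / ‖p.1‖ with hbdef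
  have hb1 : ‖b‖ = 1 := by rw [hbdef, norm_div, Complex.norm_real, norm_norm, div_self hx0.ne']
  have hxb : p.1 = ‖p.1‖ * b := by rw [hbdef]; field_simp
  have hbb : b * (starRingEnd ℂ) b = 1 := by
    rw [Complex.mul_conj, Complex.normSq_eq_norm_sq, hb1]; simp
  have hd : ‖p.1 - b‖ < η := by
    rw [show p.1 - b = ((‖p.1‖ - 1 : ℝ) : ℂ) * b by push_cast; linear_combination hxb, norm_mul,
      hb1, mul_one, Complex.norm_real, Real.norm_eq_abs, abs_sub_comm,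
      abs_of_nonneg (by linarith [(hb p hp).1])]
    exact hx1
  have hsub : closedBall b η ⊆ ball β₁ ε := fun x hx => by
    rw [mem_closedBall, dist_eq_norm] at hx
    rw [mem_ball, dist_eq_norm, show x - β₁ = (x - b) - (p.1 - b) + (p.1 - β₁) by ring]
    linarith [norm_add_le ((x - b) - (p.1 - b)) (p.1 - β₁), norm_sub_le (x - b) (p.1 - b)]
  have hX : IsCompact (G ∩ closedBall b η ×ˢ closedBall β₂ ρ) :=
    ((isCompact_closedBall _ _).prod (isCompact_closedBall _ _)).inter_left hG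
  have hy0 : ∀ q ∈ G, q.2 ≠ 0 := fun q hq => norm_pos_iff.1 (hρ'.trans_le (hy q hq))
  set f : ℂ × ℂ → ℂ := fun q => Complex.exp (-C * (1 - q.1 * (starRingEnd ℂ) b)) / q.2 with hf
  have hnf : ∀ q, ‖f q‖ = Real.exp (-C * (1 - (q.1 * (starRingEnd ℂ) b).re)) / ‖q.2‖ := by
    intro q
    rw [hf, norm_div, Complex.norm_exp]
    simp
  have hpX : p ∈ G ∩ closedBall b η ×ˢ closedBall β₂ ρ :=
    ⟨hp, by rw [mem_closedBall, dist_eq_norm]; exact hd.le, (hb p hp).2⟩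
  obtain ⟨q, hq, hmax, hdisc⟩ := endA_mp hX ⟨p, hpX⟩ (f := f)
    (ContinuousOn.div (by fun_prop) continuousOn_snd fun q hq => hy0 q hq.1)
  have hre : ‖q.1 - b‖ ^ 2 ≤ 2 * (1 - (q.1 * (starRingEnd ℂ) b).re) := by
    have a1 := Complex.normSq_sub q.1 b
    rw [Complex.normSq_eq_norm_sq, Complex.normSq_eq_norm_sq, Complex.normSq_eq_norm_sq, hb1] at a1
    nlinarith [(hb q hq.1).1, norm_nonneg q.1]
  have hq1 : ‖f q‖ ≤ 1 := by
    rw [hnf]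
    rcases (hb q hq.1).1.lt_or_eq with hlt | heq
    · rcases (mem_closedBall.1 hq.2.1).lt_or_eq with hlt' | heq'
      · exfalso
        obtain ⟨ψ, a1, a2⟩ := hl q hq.1 (hsub hq.2.1) hlt
        refine endA_nc (γ := fun x => (x, ψ x)) (π := Prod.fst) (Eventually.of_forall fun _ => rfl)
          (hdisc _ q.1 (by rw [a1]) ?_)
        filter_upwards [a2, isOpen_ball.mem_nhds (mem_ball.2 hlt')] with x hx hx'
        refine ⟨⟨hx.2, ball_subset_closedBall hx', (hb _ hx.2).2⟩,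
          differentiableAt_id.prodMk hx.1, DifferentiableAt.div (by fun_prop) hx.1 (hy0 _ hx.2)⟩
      · rw [dist_eq_norm] at heq'
        rw [heq'] at hre
        rw [div_le_one (hρ'.trans_le (hy q hq.1))]
        refine le_trans ?_ (hy q hq.1)
        rw [← Real.le_log_iff_exp_le hρ']
        have a1 : C * η ^ 2 = 2 * (|Real.log (1 - ρ)| + 1) := by rw [hC]; field_simp
        nlinarith [neg_abs_le (Real.log (1 - ρ))]
    · rw [ht q hq.1 (hsub hq.2.1) heq, div_one, Real.exp_le_one_iff]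
      nlinarith [sq_nonneg ‖q.1 - b‖]
  have h3 := (hmax p hpX).trans hq1
  rw [hnf, div_le_one (hρ'.trans_le (hy p hp)),
    ← Real.le_log_iff_exp_le (hρ'.trans_le (hy p hp))] at h3
  have h4 : p.1 * (starRingEnd ℂ) b = ‖p.1‖ := by
    linear_combination (starRingEnd ℂ) b * hxb + ‖p.1‖ * hbb
  rw [h4, Complex.ofReal_re] at h3
  linarith

/-- the torus case -/
theorem endC_core {G : Set (ℂ × ℂ)} (hG : IsClosed G) {β₁ β₂ : ℂ} (h₁ : ‖β₁‖ = 1) (h₂ : ‖β₂‖ = 1)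
    {ε ρ : ℝ} (hε : 0 < ε) (hρ1 : ρ < 1)
    (hb : ∀ p ∈ G, ‖p.1‖ ≤ 1 ∧ ‖p.2‖ ≤ 1 ∧ p.2 ∈ closedBall β₂ ρ)
    (ht : ∀ p ∈ G, p.1 ∈ ball β₁ ε → ‖p.1‖ = 1 → ‖p.2‖ = 1)
    {J : ℂ → ℂ} {c : ℂ} (hc : c ≠ 0) {C : ℝ}
    (hl : ∀ p ∈ G, p.1 ∈ ball β₁ ε → ‖p.1‖ < 1 → ∃ ψ : ℂ → ℂ,
      (∃ a r : ℂ, deriv ψ p.1 = p.2 * (a * J p.1 + r) ∧ ‖a - c‖ ≤ ‖c‖ / 2 ∧ ‖r‖ ≤ C) ∧
      ψ p.1 = p.2 ∧ (∀ᶠ x in 𝓝 p.1, DifferentiableAt ℂ ψ x) ∧
      ∀ᶠ q in 𝓝 p, (q ∈ G ↔ ψ q.1 = q.2))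
    (hne : ∃ p ∈ G, p.1 ∈ ball β₁ ε ∧ ‖p.1‖ < 1) : Bdd J := by
  set η := min (ε / 4) (1 / 2) with hη
  have hη0 : 0 < η := by positivity
  have hηε : 4 * η ≤ ε := by linarith [min_le_left (ε / 4) (1 / 2)]
  obtain ⟨C₁, hC₁, hbar⟩ := endC_bar hG h₁ h₂ hη0 (min_le_right _ _) hηε hρ1
    (fun p hp => ⟨(hb p hp).1, (hb p hp).2.2⟩) ht fun p hp a1 a2 => by
      obtain ⟨ψ, -, b1, b2, b3⟩ := hl p hp a1 a2
      have hg : Tendsto (fun x => (x, ψ x)) (𝓝 p.1) (𝓝 p) := by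
        have : ContinuousAt (fun x => (x, ψ x)) p.1 :=
          continuousAt_id.prodMk b2.self_of_nhds.continuousAt
        simpa only [ContinuousAt, b1] using this
      refine ⟨ψ, b1, ?_⟩
      filter_upwards [b2, hg.eventually b3] with x c1 c2
      exact ⟨c1, c2.2 rfl⟩
  have hββ : β₂ * (starRingEnd ℂ) β₂ = 1 := by
    rw [Complex.mul_conj, Complex.normSq_eq_norm_sq, h₂]; simp
  have hβ0 : (starRingEnd ℂ) β₂ ≠ 0 := right_ne_zero_of_mul_eq_one hββ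
  have hslit : ∀ p ∈ G, p.2 * (starRingEnd ℂ) β₂ ∈ Complex.slitPlane := fun p hp => by
    have h3 := (hb p hp).2.2
    rw [mem_closedBall, dist_eq_norm] at h3
    rw [show p.2 * (starRingEnd ℂ) β₂ = 1 + (p.2 - β₂) * (starRingEnd ℂ) β₂ by
      linear_combination hββ]
    refine Complex.mem_slitPlane_of_norm_lt_one ?_
    rw [norm_mul, Complex.norm_conj, h₂]
    linarith
  set S : ℂ → ℂ := fun x => ∑ᶠ y ∈ {y | (x, y) ∈ G}, Complex.log (y * (starRingEnd ℂ) β₂) with hS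
  set N : ℂ → ℂ := fun x => ∑ᶠ _ ∈ {y | (x, y) ∈ G}, (1 : ℂ) with hN
  have hD : IsOpen (ball (0 : ℂ) 1 ∩ ball β₁ ε) := isOpen_ball.inter isOpen_ball
  have key : ∀ x ∈ ball (0 : ℂ) 1 ∩ ball β₁ ε, ∃ (s : Finset ℂ) (a r : ℂ → ℂ),
      (∀ y, y ∈ s ↔ (x, y) ∈ G) ∧ (∀ y ∈ s, ‖a y - c‖ ≤ ‖c‖ / 2 ∧ ‖r y‖ ≤ C) ∧
      HasDerivAt S (∑ y ∈ s, (a y * J x + r y)) x ∧ (S x).re = ∑ y ∈ s, Real.log ‖y‖ ∧
      HasDerivAt N 0 x ∧ N x = s.card := by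
    intro x hx
    obtain ⟨s, ψ, a1, a2, a3⟩ := endC_fib hG (isCompact_closedBall β₂ ρ)
      (fun p hp => (hb p hp).2.2) (x₀ := x) (Q := fun y ψ => (∃ a r : ℂ, deriv ψ x =
        y * (a * J x + r) ∧ ‖a - c‖ ≤ ‖c‖ / 2 ∧ ‖r‖ ≤ C) ∧ ψ x = y ∧ DifferentiableAt ℂ ψ x)
      fun y hy => by
        obtain ⟨ψ, b0, b1, b2, b3⟩ := hl _ hy hx.2 (mem_ball_zero_iff.1 hx.1)
        exact ⟨ψ, ⟨b0, b1, b2.self_of_nhds⟩, b1, b2.self_of_nhds.continuousAt, b3⟩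
    choose! a r b1 b2 b3 using fun y hy => (a2 y hy).1
    have e1 : S =ᶠ[𝓝 x] fun x => ∑ y ∈ s, Complex.log (ψ y x * (starRingEnd ℂ) β₂) :=
      a3.mono fun x hx => hx _
    have e2 : N =ᶠ[𝓝 x] fun _ => (s.card : ℂ) := a3.mono fun x hx => by
      exact (hx fun _ => 1).trans (by simp)
    refine ⟨s, a, r, a1, fun y hy => ⟨b2 y hy, b3 y hy⟩, HasDerivAt.congr_of_eventuallyEq ?_ e1, ?_,
      (hasDerivAt_const x _).congr_of_eventuallyEq e2, e2.self_of_nhds⟩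
    · refine HasDerivAt.fun_sum fun y hy => ?_
      have c1 := hslit _ ((a1 y).1 hy)
      have c2 : y ≠ 0 := left_ne_zero_of_mul (Complex.slitPlane_ne_zero c1)
      have c3 := ((a2 y hy).2.2.hasDerivAt.mul_const ((starRingEnd ℂ) β₂)).clog
        (by rw [(a2 y hy).2.1]; exact c1)
      refine c3.congr_deriv ?_
      rw [b1 y hy, (a2 y hy).2.1]
      field_simp
    · rw [e1.self_of_nhds, Complex.re_sum]
      refine Finset.sum_congr rfl fun y hy => ?_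
      rw [Complex.log_re, (a2 y hy).2.1, norm_mul, Complex.norm_conj, h₂, mul_one]
  choose! s a r k1 k2 k3 k4 k5 k6 using key
  obtain ⟨p₀, hp₀, hp₁, hp₂⟩ := hne
  have hp₃ : p₀.1 ∈ ball (0 : ℂ) 1 ∩ ball β₁ ε := ⟨mem_ball_zero_iff.2 hp₂, hp₁⟩
  have hcard : ∀ x ∈ ball (0 : ℂ) 1 ∩ ball β₁ ε, 0 < (s x).card := by
    intro x hx
    have := hD.is_const_of_deriv_eq_zero ((convex_ball _ _).inter (convex_ball _ _)).isPreconnected
      (fun x hx => (k5 x hx).differentiableAt.differentiableWithinAt)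
      (fun x hx => (k5 x hx).deriv) hx hp₃
    rw [k6 x hx, k6 _ hp₃, Nat.cast_inj] at this
    rw [this]
    exact Finset.card_pos.2 ⟨p₀.2, (k1 _ hp₃ _).2 hp₀⟩
  have hc0 : 0 < ‖c‖ := norm_pos_iff.2 hc
  refine ⟨β₁, h₁, η, hη0, (4 * C₁ + C) * 2 / ‖c‖, fun x hx hx' => ?_⟩
  have hx1 : 1 - ‖x‖ < η := by
    rw [norm_sub_rev] at hx'
    linarith [norm_sub_norm_le β₁ x]
  have hsub : ball x (1 - ‖x‖) ⊆ ball (0 : ℂ) 1 ∩ ball β₁ ε := fun y hy => by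
    rw [mem_ball, dist_eq_norm] at hy
    refine ⟨mem_ball_zero_iff.2 (by linarith [norm_sub_norm_le y x]), ?_⟩
    rw [mem_ball, dist_eq_norm, show y - β₁ = (y - x) + (x - β₁) by ring]
    linarith [norm_add_le (y - x) (x - β₁)]
  have hd : 0 < 1 - ‖x‖ := by linarith
  have hxD := hsub (mem_ball_self hd)
  have hn : (0 : ℝ) < (s x).card := by exact_mod_cast hcard x hxD
  set n : ℝ := ((s x).card : ℝ) with hndef
  have h3 := endA_bc (f := S) hd (M := n * (C₁ * (1 - ‖x‖))) (by positivity)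
    (fun y hy => (k3 y (hsub hy)).differentiableAt.differentiableWithinAt) fun y hy => by
      rw [k4 y (hsub hy), k4 x hxD]
      have a1 : ∑ y' ∈ s y, Real.log ‖y'‖ ≤ 0 := Finset.sum_nonpos fun y' hy' =>
        Real.log_nonpos (norm_nonneg _) (hb _ ((k1 y (hsub hy) y').1 hy')).2.1
      have a2 : ∑ y' ∈ s x, -Real.log ‖y'‖ ≤ (s x).card • (C₁ * (1 - ‖x‖)) :=
        Finset.sum_le_card_nsmul _ _ _ fun y' hy' => hbar _ ((k1 x hxD y').1 hy') hx'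
      rw [Finset.sum_neg_distrib, nsmul_eq_mul] at a2
      linarith
  rw [(k3 x hxD).deriv, show 4 * (n * (C₁ * (1 - ‖x‖))) / (1 - ‖x‖) = n * (4 * C₁) by
    field_simp] at h3
  have h4 : ‖∑ y ∈ s x, ((a x y - c) * J x + r x y)‖ ≤ n * (‖c‖ / 2 * ‖J x‖ + C) := by
    refine (norm_sum_le _ _).trans ?_
    rw [hndef, ← nsmul_eq_mul]
    refine Finset.sum_le_card_nsmul _ _ _ fun y hy => (norm_add_le _ _).trans ?_
    rw [norm_mul]
    exact add_le_add (mul_le_mul_of_nonneg_right (k2 x hxD y hy).1 (norm_nonneg _))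
      (k2 x hxD y hy).2
  have h5 : ((s x).card : ℂ) * (c * J x) = ∑ y ∈ s x, (a x y * J x + r x y) -
      ∑ y ∈ s x, ((a x y - c) * J x + r x y) := by
    rw [← Finset.sum_sub_distrib, ← nsmul_eq_mul, ← Finset.sum_const]
    exact Finset.sum_congr rfl fun y _ => by ring
  have h6 : n * (‖c‖ * ‖J x‖) ≤ n * (4 * C₁) + n * (‖c‖ / 2 * ‖J x‖ + C) := by
    have := congrArg norm h5
    rw [norm_mul, norm_mul, Complex.norm_natCast] at this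
    rw [hndef, this]
    exact (norm_sub_le _ _).trans (add_le_add h3 h4)
  rw [← mul_add] at h6
  have h7 := le_of_mul_le_mul_left h6 hn
  rw [le_div_iff₀ hc0]
  linarith

end Pool.Agent.MP_098ecc_co.H97
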