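import Pool.Agent.MP_098ecc_co.H97.HardD

set_option autoImplicit false

namespace Pool.Agent.MP_098ecc_co.H97

open Metric Filter Topology Set Function
open scoped BoundedContinuousFunction

theorem hard_reg2 {B Z E E' F : Type} [NormedAddCommGroup B] [NormedSpace ℂ B]
    [NormedAddCommGroup Z] [NormedSpace ℂ Z] [NormedAddCommGroup E] [NormedSpace ℂ E]
    [NormedAddCommGroup E'] [NormedSpace ℂ E'] [NormedAddCommGroup F] [NormedSpace ℂ F] {U : Set Z}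
    {f : B × Z → E} {g : B × Z → E'} (hf : Reg U f) (hg : Reg U g) (Φ : E → E' → F)
    (hΦ : Differentiable ℂ fun p : E × E' => Φ p.1 p.2) : Reg U fun q => Φ (f q) (g q) :=
  (hf.prodMk hg).comp (hΦ.differentiableOn (s := univ)) fun _ _ _ _ => mem_univ _

variable {κ : Type} [Fintype κ] [DecidableEq κ]

/-- the hard side -/
noncomputable def hardS (i : κ) (m : ℕ) (L : Set ℕ) (M : ℕ) (R R' : ℝ) (U : Set BS)
    (c k : BS → ℂ) (D : ℕ → BS → BS) (G : BS → BS) (τ₀ w₀ : ℂ) : Side κ ℂ where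
  Rin := R
  Rout := R'
  M := M
  k := 0
  L := L
  I := {i}
  U := ball τ₀ 1 ×ˢ ball w₀ 1 ×ˢ U
  out q := hardO M k D G (q.1 i) q.2.1 q.2.2.1 q.2.2.2
  aux q := Bv m (un R q.2.2.2) (c q.2.2.2) - q.1 i
  c P := c P.2.2
  j := ContinuousLinearMap.id ℂ ℂ
  βf P := k P.2.2 * ser (un R P.2.2) (c P.2.2) / Bv m (un R P.2.2) (c P.2.2)
  vf P := k P.2.2 * c P.2.2 * deriv (ser (flat m (un R P.2.2))) (c P.2.2)

variable {i : κ} {m : ℕ} {L : Set ℕ} {M : ℕ} {R R' ρ : ℝ} {U : Set BS} {c k : BS → ℂ}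
  {D : ℕ → BS → BS} {G K₂ : BS → BS} {C θ : ℝ} {τ₀ w₀ : ℂ}

omit [Fintype κ] [DecidableEq κ] in
theorem hard_aux (h : Lap m R ρ U c k) (hm : 0 < m) {q : (κ → ℂ) × (ℂ × ℂ × BS)}
    (hu : q.2.2.2 ∈ U) (dq : (κ → ℂ) × (ℂ × ℂ × BS)) :
    lineDeriv ℂ (hardS i m L M R R' U c k D G τ₀ w₀).aux q dq =
      fderiv ℂ (fun u => Bv m (un R u) (c u)) q.2.2.2 dq.2.2.2 - dq.1 i :=
  ((hard_comp (h.dB hm hu).1 dq.2.2.2).fun_sub (hard_line (q.1 i) (dq.1 i))).deriv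

omit [Fintype κ] [DecidableEq κ] in
theorem hard_out (q dq : (κ → ℂ) × (ℂ × ℂ × BS)) :
    lineDeriv ℂ (hardS i m L M R R' U c k D G τ₀ w₀).out q dq =
      deriv (fun s : ℂ => hardO M k D G (q.1 i + s * dq.1 i) (q.2.1 + s * dq.2.1)
        (q.2.2.1 + s * dq.2.2.1) (q.2.2.2 + s • dq.2.2.2)) 0 := rfl

omit [DecidableEq κ] in
theorem hard_bi {b : κ → ℂ} (hb : b ∈ closedBall (0 : κ → ℂ) 1) (i : κ) : ‖b i‖ ≤ 1 :=
  (norm_le_pi_norm b i).trans (mem_closedBall_zero_iff.1 hb)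

omit [DecidableEq κ] in
theorem hard_bi' {b : κ → ℂ} (hb : b ∈ ball (0 : κ → ℂ) 1) (i : κ) : ‖b i‖ < 1 :=
  (norm_le_pi_norm b i).trans_lt (mem_ball_zero_iff.1 hb)

theorem hard_ball {x x₀ : ℂ} (h : x ∈ ball x₀ 1) : ‖x‖ ≤ ‖x₀‖ + 1 := by
  have h1 := norm_add_le x₀ (x - x₀)
  rw [mem_ball, dist_eq_norm] at h
  rw [add_sub_cancel] at h1
  linarith

omit [DecidableEq κ] in
theorem hard_side (H : HardB m L R R' U c k D G K₂ C θ) (h : Lap m R ρ U c k) (hm : 0 < m)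
    (hL : 0 ∉ L) (h2 : ρ < R'⁻¹) (h3 : R'⁻¹ < R) (hM : 1 ≤ M) :
    IsSide m (hardS i m L M R R' U c k D G τ₀ w₀) := by
  have hop : IsOpen (ball τ₀ 1 ×ˢ ball w₀ 1 ×ˢ U) := isOpen_ball.prod (isOpen_ball.prod h.op)
  have hc : ∀ {F : Type} [NormedAddCommGroup F] [NormedSpace ℂ F] {g : BS → F},
      DifferentiableOn ℂ g U → DifferentiableOn ℂ (fun P : ℂ × ℂ × BS => g P.2.2)
        (ball τ₀ 1 ×ˢ ball w₀ 1 ×ˢ U) := fun hg =>
    hg.comp (by fun_prop) fun P hP => hP.2.2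
  have hB : DifferentiableOn ℂ (fun u => Bv m (un R u) (c u)) U := fun u hu =>
    (h.dB hm hu).1.differentiableWithinAt
  have hW : 0 ≤ ∑' l : ℕ, wal (l - 1) / l := tsum_nonneg fun l => div_nonneg (wal_pos _).le
    l.cast_nonneg
  have hT : ∀ τ ∈ ball τ₀ 1, ‖τ ^ M‖ ≤ (‖τ₀‖ + 1) ^ M := fun τ hτ => by
    rw [norm_pow]
    exact pow_le_pow_left₀ (norm_nonneg _) (hard_ball hτ) M
  have hC := H.C0
  have rO : Reg (ball τ₀ 1 ×ˢ ball w₀ 1 ×ˢ U) (hardS i m L M R R' U c k D G τ₀ w₀).out :=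
    hard_reg2 (hard_reg2 (Reg.of_diff _ (f := fun q : (κ → ℂ) × (ℂ × ℂ × BS) => q.2.1 ^ M)
      (by fun_prop)) (Reg.tsum hop (fun l => hard_reg2 (Reg.of_diff _
        (f := fun q : (κ → ℂ) × (ℂ × ℂ × BS) => q.1 i ^ l) (by fun_prop))
        (Reg.of_snd (hc (H.dD l))) (fun a v => a • v) (by fun_prop)) (summable_wal.mul_left C)
        fun l b hb P hP => H.nD hP.2.2 (hard_bi hb i) l) (fun a v => a • v) (by fun_prop))
      (Reg.of_snd (f := fun P : ℂ × ℂ × BS => (P.2.1 * k P.2.2) • G P.2.2)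
        ((DifferentiableOn.mul (by fun_prop) (hc h.dκ)).smul (hc H.dG))) (fun a v => a + v)
      (by fun_prop)
  have rA : Reg (ball τ₀ 1 ×ˢ ball w₀ 1 ×ˢ U) (hardS i m L M R R' U c k D G τ₀ w₀).aux :=
    hard_reg2 (Reg.of_snd (hc hB)) (Reg.of_diff _
      (f := fun q : (κ → ℂ) × (ℂ × ℂ × BS) => q.1 i) (by fun_prop)) (fun a v => a - v) (by fun_prop)
  refine ⟨⟨h.hR, H.R0, h3⟩, hL, hop, rO, rA, ⟨(‖τ₀‖ + 1) ^ M * (C * ∑' l : ℕ, wal (l - 1) / l) +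
    (‖w₀‖ + 1) * C, θ, H.θ0, H.θ1, fun b hb P hP n => ?_⟩,
    ⟨(‖τ₀‖ + 1) ^ M * (C * (∑' l : ℕ, wal (l - 1) / l) + 2 * C) + 2 * C, fun b hb P hP db => ?_⟩,
    ⟨1, fun b hb P hP db => ?_⟩, hc h.dc, fun P hP => (h.cne _ hP.2.2).2.trans h2,
    hc (g := fun u => k u * ser (un R u) (c u) * (Bv m (un R u) (c u))⁻¹) ((h.dκ.mul fun u hu =>
      (h.dser hu).1.differentiableWithinAt).mul (hB.inv fun u hu => h.Bne hu)),
    hc ((h.dκ.mul h.dc).mul h.dv), fun P hP => mul_ne_zero (mul_ne_zero (h.κne _ hP.2.2)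
      (h.cne _ hP.2.2).1) (h.simple _ hP.2.2), ?_, ?_, ?_, ?_⟩
  · have h4 := (H.apply hP.2.2 (hard_bi hb i) n).norm_le_of_bounded
      ((summable_wal.hasSum.mul_left C).mul_right (θ ^ n))
      fun l => hard_term l (hard_bi hb i) (H.bD _ hP.2.2 l n)
    have h5 := H.θ0
    change ‖P.1 ^ M * (∑' l, b i ^ l • D l P.2.2 : BS) n + P.2.1 * k P.2.2 * G P.2.2 n‖ ≤ _
    refine (norm_add_le _ _).trans ?_
    rw [add_mul, norm_mul, norm_mul, norm_mul, mul_assoc ((‖τ₀‖ + 1) ^ M)]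
    gcongr
    · exact hT _ hP.1
    · exact hard_ball hP.2.1
    · exact H.bk _ hP.2.2
    · exact H.bG _ hP.2.2 n
  · obtain ⟨h4, h5⟩ := H.dwall hL hP.2.2 (hard_bi' hb i) (db i)
    rw [← (rO.hasLine_ball hop hb hP (db, 0)).2.lineDeriv, hard_out]
    simp only [Prod.fst_zero, Prod.snd_zero, mul_zero, smul_zero, add_zero, hardO, Side.wt, hardS,
      Finset.sum_singleton]
    rw [((h4.hasDerivAt.fun_const_smul (P.1 ^ M)).add_const _).deriv, norm_smul, norm_mul]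
    have h6 := hT _ hP.1
    refine (mul_le_mul_of_nonneg_left h5 (norm_nonneg _)).trans ?_
    have h7 : ‖P.1 ^ M‖ * (C * (∑' l : ℕ, wal (l - 1) / l) + 2 * C) ≤
        (‖τ₀‖ + 1) ^ M * (C * (∑' l : ℕ, wal (l - 1) / l) + 2 * C) := by gcongr
    have h8 : 0 ≤ ‖P.1 ^ M‖ * ‖Jf L (b i)‖ := by positivity
    have h9 : 0 ≤ (‖τ₀‖ + 1) ^ M * (C * (∑' l : ℕ, wal (l - 1) / l) + 2 * C) := by positivity
    rw [mul_left_comm, mul_left_comm _ ‖db i‖]
    refine mul_le_mul_of_nonneg_left ?_ (norm_nonneg _)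
    nlinarith [mul_nonneg h8 h9]
  · rw [← (rA.hasLine_ball hop hb hP (db, 0)).2.lineDeriv, hard_aux h hm hP.2.2]
    simp only [Prod.snd_zero, map_zero, zero_sub, norm_neg, Side.wt, hardS, Finset.sum_singleton,
      one_mul]
    exact le_mul_of_one_le_right (norm_nonneg _) (le_add_of_nonneg_right (norm_nonneg _))
  · rintro b hb ⟨τ, w, u⟩ hP db ⟨dτ, dw, du⟩ h4 h5 h6 ϖ rfl r hr1 hr2 n hn
    rw [hard_aux h hm hP.2.2, sub_eq_zero] at h6
    have h7 := H.sl h hm hL h2 hM hP.2.2 du τ ϖ w dw (sub_eq_zero.1 h5) h6 (hard_bi hb i)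
      (h4.imp (hard_bi' · i) fun h8 => congrFun h8 i) hr1 hr2 hn
    simp only [Side.form, hard_out]
    simpa [hardS, Side.E] using h7
  · rintro i' hi' b hb ⟨τ, w, u⟩ hP db ⟨dτ, dw, du⟩ h4 h5 h6 h7 h8 ϖ rfl c₀ dc₀ r hr1 hr2
    obtain rfl : i' = i := Finset.mem_singleton.1 hi'
    rw [hard_aux h hm hP.2.2, sub_eq_zero] at h6
    have h9 := H.val h hm hL h2 hM hP.2.2 du τ ϖ w dw (sub_eq_zero.1 h5) (h6.trans h7) (hard_bi hb i')
      (h4.imp (hard_bi' · i') fun h8 => h8.2) h8 c₀ dc₀ hr1 hr2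
    have h10 : lineDeriv ℂ ((hardS i' m L M R R' U c k D G τ₀ w₀).E i') (b, τ, w, u)
        (db, ϖ * τ, dw, du) = dw - M * ϖ * τ ^ M * Jf L (b i') := by
      change deriv (fun s : ℂ => w + s * dw - (τ + s * (ϖ * τ)) ^ M * Jf L (b i' + s * db i')) 0 = _
      simp only [h7, mul_zero, add_zero]
      exact ((hard_line w dw).fun_sub ((hard_pow_line hM τ ϖ).mul_const _)).deriv
    simp only [Side.form, hard_out, h10, h7]
    simpa [hardS] using h9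
  · intro i' _ b _ P hP dP _ h5
    rw [hard_aux h hm hP.2.2] at h5
    exact h.cz hm hP.2.2 ((sub_zero _).symm.trans h5)
  · intro b _ P hP dw _ _ h5
    have h6 := h5 1 le_rfl
    rw [hard_out] at h6
    simp only [Pi.zero_apply, mul_zero, smul_zero, add_zero, hardO] at h6
    rw [((((hard_line P.2.1 dw).mul_const (k P.2.2)).smul_const (G P.2.2)).const_add _).deriv] at h6
    have h7 := H.uG _ hP.2.2 1
    simp only [BoundedContinuousFunction.coe_smul, smul_eq_mul, mul_eq_zero,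
      h.κne _ hP.2.2, or_false] at h6
    refine h6.resolve_right fun h8 => (h.cne _ hP.2.2).1 ?_
    simpa [un, h8] using h7.symm

omit [DecidableEq κ] in
theorem hard_hardS (H : HardB m L R R' U c k D G K₂ C θ) (h : Lap m R ρ U c k) (hL : 0 ∉ L)
    (hM : 1 ≤ M) : HardS m (hardS i m L M R R' U c k D G τ₀ w₀) i := by
  refine ⟨rfl, rfl, fun P hP => ⟨(h.cne _ hP.2.2).1, h.crit _ hP.2.2⟩,
    fun b P _ h1 => sub_eq_zero.1 h1, fun b hb P hP h1 h2 h3 n =>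
      H.f1 h hL M hP.2.2 (sub_eq_zero.1 h1) (hard_bi hb i) h3 h2 n, ?_⟩
  rintro b ⟨τ, w, u⟩ hP rfl ⟨dτ, dw, du⟩ rfl
  have hu : u ∈ U := hP.2.2
  have h1 := ((hard_line w dw).fun_mul (hard_comp (h.dkAt hu) du)).fun_smul
    (hard_comp (H.dG.differentiableAt (h.op.mem_nhds hu)) du)
  refine ⟨dw * k u + w * fderiv ℂ k u du, w * k u * fderiv ℂ c u du / c u, fun n => ?_⟩
  rw [hard_out]
  simp only [mul_zero, add_zero, hardO, zero_pow (Nat.one_le_iff_ne_zero.1 hM), zero_smul, zero_add]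
  rw [h1.deriv, hard_un_lin]
  simp only [hardS, zero_mul, add_zero, zero_smul, Pi.add_apply, Pi.smul_apply, smul_eq_mul,
    H.udG h hu, H.uG u hu]
  have := (h.cne u hu).1
  rcases n with _ | n
  · simp
  · simp only [Nat.add_sub_cancel]
    field_simp
    ring

omit [DecidableEq κ] in
theorem hard_real (H : HardB m L R R' U c k D G K₂ C θ) (h : Lap m R ρ U c k) (hm : 0 < m)
    (hL : 0 ∉ L) (τ w : ℂ) (u : BS) (z y B : ℝ)
    (hP : (τ, w, u) ∈ (hardS i m L M R R' U c k D G τ₀ w₀).U) (hz : c u = z) (hz0 : 0 < z)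
    (hy0 : 0 < y) (hy : ser (un R u) z = y) (hB : B = y ^ m / z) (hB1 : B < 1)
    (hw : w = τ ^ M * Jf L B) : IsReal m (hardS i m L M R R' U c k D G τ₀ w₀) τ w u z B := by
  have hu : u ∈ U := hP.2.2
  have hB0 : 0 ≤ B := by
    rw [hB]
    positivity
  have h1 : Bv m (un R u) (c u) = B := by
    rw [Bv, hz, hy, hB]
    push_cast
    rfl
  have h2 : ‖Bv m (un R u) (c u)‖ < 1 := by
    rwa [h1, Complex.norm_real, Real.norm_of_nonneg hB0]
  have hJ : ∀ v ∈ U, ‖Bv m (un R v) (c v)‖ < 1 → DifferentiableAt ℂ (Jf L) (Bv m (un R v) (c v)) :=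
    fun v _ h3 => (Jf_diff L).differentiableAt (isOpen_ball.mem_nhds (mem_ball_zero_iff.2 h3))
  have hd : ∀ P : ℂ × BS, P.2 ∈ U → ‖Bv m (un R P.2) (c P.2)‖ < 1 → DifferentiableAt ℂ
      (fun P : ℂ × BS => P.1 ^ M * Jf L (Bv m (un R P.2) (c P.2))) P := fun P h3 h4 =>
    (differentiableAt_fst.pow M).mul (DifferentiableAt.comp
      (f := fun P : ℂ × BS => Bv m (un R P.2) (c P.2)) P (hJ _ h3 h4)
        ((h.dB hm h3).1.comp P differentiableAt_snd))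
  refine ⟨fun P => P.1 ^ M * Jf L (Bv m (un R P.2) (c P.2)), fun u => Bv m (un R u) (c u),
    by simp only [h1, hw], ?_, fun _ _ => ⟨h1, hB0, hB1, m * y ^ (m - 1) / z, by positivity,
      fun du => ?_⟩, fun b _ _ dw du h3 h4 => ?_⟩
  · filter_upwards [continuousAt_snd.eventually_mem (h.op.mem_nhds hu),
      ((h.dB hm hu).1.continuousAt.comp (f := Prod.snd) (x := (τ, u))
        continuousAt_snd).norm.eventually_lt continuousAt_const h2,
      continuousAt_fst.eventually_mem (isOpen_ball.mem_nhds hP.1),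
      (hd (τ, u) hu h2).continuousAt.eventually_mem (isOpen_ball.mem_nhds
        (by simpa only [h1, ← hw] using hP.2.1))] with P h3 h4 h5 h6
    refine ⟨hd P h3 h4, (h.dB hm h3).1, ⟨h5, h6, h3⟩, fun b hb h7 => ?_⟩
    have h8 := (h7 i (Finset.mem_singleton_self i)).symm
    have h9 : P.1 ^ M * Jf L (Bv m (un R P.2) (c P.2)) - P.1 ^ M * Jf L (b i) = 0 := by
      rw [h8, sub_self]
    refine ⟨sub_eq_zero.2 h8, fun i' hi' => ?_, fun n => ?_⟩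
    · obtain rfl : i' = i := Finset.mem_singleton.1 hi'
      exact h9
    · simpa [hardS] using H.f1 h hL M h3 h8 (hard_bi' hb i).le (Or.inl (hard_bi' hb i)) h9 n
  · rw [(h.dB hm hu).2, hz, hy]
    push_cast
    rfl
  · rw [hard_aux h hm hu] at h3
    replace h3 := (sub_zero _).symm.trans h3
    refine ⟨(h4 i (Finset.mem_singleton_self i)).trans ?_, fun _ _ => h3⟩
    have h5 : HasDerivAt (fun s : ℂ => τ ^ M * Jf L (Bv m (un R (u + s • du)) (c (u + s • du))))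
        _ 0 := ((hJ u hu h2).hasDerivAt.comp_of_eq 0 (hard_comp (h.dB hm hu).1 du)
          (by simp)).const_mul (τ ^ M)
    have h6 := (hd (τ, u) hu h2).hasFDerivAt.hasLineDerivAt (0, du)
    simp only [HasLineDerivAt, Prod.smul_mk, Prod.mk_add_mk, smul_zero, add_zero] at h6
    rw [h6.unique h5, show fderiv ℂ (fun u => Bv m (un R u) (c u)) u du = 0 from h3]
    simp

theorem hard {κ : Type} [Fintype κ] [DecidableEq κ] (i : κ) {m : ℕ} (hm : 0 < m) {L : Set ℕ}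
    (hL : 0 ∉ L) {M : ℕ} (hM : 1 ≤ M) {Rin Rout ρ : ℝ} (h2 : ρ < Rout⁻¹) (h3 : Rout⁻¹ < Rin)
    {U : Set BS} {c k : BS → ℂ} (h : Lap m Rin ρ U c k) (τ₀ w₀ : ℂ) {u₀ : BS} (hu : u₀ ∈ U) :
    ∃ S : Side κ ℂ, IsSide m S ∧ HardS m S i ∧ S.Rin = Rin ∧ S.Rout = Rout ∧ S.M = M ∧ S.L = L ∧
      (τ₀, w₀, u₀) ∈ S.U ∧ (∀ w, S.j w = w) ∧ (∀ P ∈ S.U, P.2.2 ∈ U ∧ S.c P = c P.2.2 ∧
        S.βf P = k P.2.2 * ser (un Rin P.2.2) (c P.2.2) / Bv m (un Rin P.2.2) (c P.2.2) ∧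
        S.vf P = k P.2.2 * c P.2.2 * deriv (ser (flat m (un Rin P.2.2))) (c P.2.2)) ∧
      ∀ (τ w : ℂ) (u : BS) (z y B : ℝ), (τ, w, u) ∈ S.U → c u = z → 0 < z → 0 < y →
        ser (un Rin u) z = y → B = y ^ m / z → B < 1 → w = τ ^ M * Jf L B →
        IsReal m S τ w u z B := by
  obtain ⟨D, G, K₂, C, θ, H⟩ := h.bs hm hL h2
  exact ⟨hardS i m L M Rin Rout U c k D G τ₀ w₀, hard_side H h hm hL h2 h3 hM, hard_hardS H h hL hM,
    rfl, rfl, rfl, rfl, ⟨mem_ball_self one_pos, mem_ball_self one_pos, hu⟩, fun _ => rfl,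
    fun P hP => ⟨hP.2.2, rfl, rfl, rfl⟩, hard_real H h hm hL⟩

end Pool.Agent.MP_098ecc_co.H97
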