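import Pool.Agent.MP_098ecc_co.H97.Slb
import Pool.Agent.MP_098ecc_co.H97.PoslB

set_option autoImplicit false

namespace Pool.Agent.MP_098ecc_co.H97

open Metric Filter Topology Set Function
open scoped BoundedContinuousFunction

theorem hard_ser_lin {f g : ℕ → ℂ} {z : ℂ} (hf : Summable fun i => f i * z ^ i)
    (hg : Summable fun i => g i * z ^ i) (a b : ℂ) :
    ser (a • f + b • g) z = a * ser f z + b * ser g z := by
  have h := (hf.hasSum.mul_left a).add (hg.hasSum.mul_left b)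
  refine (tsum_congr fun i => ?_).trans h.tsum_eq
  simp only [Pi.add_apply, Pi.smul_apply, smul_eq_mul]
  ring

theorem hard_sum {R : ℝ} {f : ℕ → ℂ} (hf : Bnd R f) {z : ℂ} (hz : ‖z‖ < R) :
    Summable fun i => f i * z ^ i := (hf.summable hz).of_norm

theorem hard_sum_flat {R : ℝ} {f : ℕ → ℂ} (hf : Bnd R f) (m : ℕ) {z : ℂ} (hz : ‖z‖ < R) :
    Summable fun i => flat m f i * z ^ i := by
  obtain ⟨ρ, h1, h2⟩ := exists_between hz
  exact hard_sum (hf.flat m ((norm_nonneg z).trans_lt h1) h2) h1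

theorem hard_flat_lin (m : ℕ) (f g : ℕ → ℂ) (a b : ℂ) :
    flat m (a • f + b • g) = a • flat m f + b • flat m g := by
  funext i
  simp only [flat, Pi.add_apply, Pi.smul_apply, smul_eq_mul]
  ring

theorem hard_un_lin (R : ℝ) (u v : BS) (a b : ℂ) :
    un R (a • u + b • v) = a • un R u + b • un R v := by
  funext i
  simp only [un, BoundedContinuousFunction.coe_add, BoundedContinuousFunction.coe_smul,
    Pi.add_apply, Pi.smul_apply, smul_eq_mul]
  ring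

theorem hard_flat_diff {R : ℝ} {f : ℕ → ℂ} (hf : Bnd R f) (m : ℕ) :
    DifferentiableOn ℂ (ser (flat m f)) (ball 0 R) := by
  intro z hz
  obtain ⟨ρ, h1, h2⟩ := exists_between (mem_ball_zero_iff.1 hz)
  exact ((hf.flat m ((norm_nonneg z).trans_lt h1) h2).diff.differentiableAt
    (isOpen_ball.mem_nhds (mem_ball_zero_iff.2 h1))).differentiableWithinAt

/-- derivative of a function which is linear in the sequence -/
theorem hard_fderiv {Φ : BS × ℂ → ℂ} {u : BS} {z : ℂ} (hΦ : DifferentiableAt ℂ Φ (u, z))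
    (du : BS) (dz : ℂ) (hl : ∀ s : ℂ, Φ (u + s • du, z) = Φ (u, z) + s * Φ (du, z)) :
    fderiv ℂ Φ (u, z) (du, dz) = Φ (du, z) + deriv (fun z => Φ (u, z)) z * dz := by
  have h1 : fderiv ℂ Φ (u, z) (du, 0) = Φ (du, z) := by
    have h2 : HasDerivAt (fun s : ℂ => Φ ((u, z) + s • (du, 0))) (fderiv ℂ Φ (u, z) (du, 0)) 0 :=
      hΦ.hasFDerivAt.hasLineDerivAt (du, 0)
    have h3 : HasDerivAt (fun s : ℂ => Φ (u, z) + s * Φ (du, z)) (Φ (du, z)) 0 := by
      simpa using ((hasDerivAt_id (0 : ℂ)).mul_const (Φ (du, z))).const_add (Φ (u, z))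
    refine h2.unique (h3.congr_of_eventuallyEq (Eventually.of_forall fun s => ?_))
    simpa using hl s
  have h2 : fderiv ℂ Φ (u, z) (0, 1) = deriv (fun z => Φ (u, z)) z :=
    (hΦ.hasFDerivAt.comp_hasDerivAt z
      ((hasDerivAt_const z u).prodMk (hasDerivAt_id z))).deriv.symm
  have h3 : (du, dz) = (du, (0 : ℂ)) + dz • ((0 : BS), (1 : ℂ)) := by simp
  rw [h3, map_add, map_smul, h1, h2, smul_eq_mul, mul_comm]

variable {m : ℕ} {R ρ : ℝ} {U : Set BS} {c k : BS → ℂ}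

theorem Lap.hR (h : Lap m R ρ U c k) : 0 < R := h.rho.1.trans h.rho.2

theorem Lap.cR (h : Lap m R ρ U c k) {u : BS} (hu : u ∈ U) : ‖c u‖ < R :=
  (h.cne u hu).2.trans h.rho.2

theorem Lap.dcAt (h : Lap m R ρ U c k) {u : BS} (hu : u ∈ U) : DifferentiableAt ℂ c u :=
  h.dc.differentiableAt (h.op.mem_nhds hu)

theorem Lap.dkAt (h : Lap m R ρ U c k) {u : BS} (hu : u ∈ U) : DifferentiableAt ℂ k u :=
  h.dκ.differentiableAt (h.op.mem_nhds hu)

theorem Lap.nhd (h : Lap m R ρ U c k) {u : BS} (hu : u ∈ U) :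
    univ ×ˢ ball (0 : ℂ) R ∈ 𝓝 (u, c u) :=
  (isOpen_univ.prod isOpen_ball).mem_nhds ⟨mem_univ _, mem_ball_zero_iff.2 (h.cR hu)⟩

theorem Lap.comp (h : Lap m R ρ U c k) {u : BS} (hu : u ∈ U) {Φ : BS × ℂ → ℂ}
    (hΦ : DifferentiableOn ℂ Φ (univ ×ˢ ball 0 R))
    (hl : ∀ (du : BS) (s : ℂ), Φ (u + s • du, c u) = Φ (u, c u) + s * Φ (du, c u)) :
    DifferentiableAt ℂ (fun u => Φ (u, c u)) u ∧ ∀ du, fderiv ℂ (fun u => Φ (u, c u)) u du =
      Φ (du, c u) + deriv (fun z => Φ (u, z)) (c u) * fderiv ℂ c u du := by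
  have h1 := hΦ.differentiableAt (h.nhd hu)
  have h2 := h1.hasFDerivAt.comp u ((hasFDerivAt_id u).prodMk (h.dcAt hu).hasFDerivAt)
  refine ⟨h2.differentiableAt, fun du => ?_⟩
  rw [show (fun u => Φ (u, c u)) = Φ ∘ fun u => (id u, c u) from rfl, h2.fderiv]
  exact hard_fderiv h1 du _ (hl du)

theorem Lap.dser (h : Lap m R ρ U c k) {u : BS} (hu : u ∈ U) :
    DifferentiableAt ℂ (fun u => ser (un R u) (c u)) u ∧
    ∀ du, fderiv ℂ (fun u => ser (un R u) (c u)) u du =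
      ser (un R du) (c u) + deriv (ser (un R u)) (c u) * fderiv ℂ c u du := by
  refine h.comp hu (hol_ser R h.hR) fun du s => ?_
  have h1 := hard_ser_lin (hard_sum (bnd_un R h.hR u) (h.cR hu))
    (hard_sum (bnd_un R h.hR du) (h.cR hu)) 1 s
  rw [← hard_un_lin, one_smul, one_mul] at h1
  exact h1

/-- derivative of the critical equation -/
theorem Lap.dcrit (h : Lap m R ρ U c k) {u : BS} (hu : u ∈ U) (du : BS) :
    fderiv ℂ c u du * deriv (ser (flat m (un R u))) (c u) + ser (flat m (un R du)) (c u) = 0 := by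
  have h1 := (h.comp hu (hol_ser_flat m R h.hR) fun du s => by
    have h1 := hard_ser_lin (hard_sum_flat (bnd_un R h.hR u) m (h.cR hu))
      (hard_sum_flat (bnd_un R h.hR du) m (h.cR hu)) 1 s
    rw [← hard_flat_lin, ← hard_un_lin, one_smul, one_mul] at h1
    exact h1).2 du
  have h2 : (fun u => ser (flat m (un R u)) (c u)) =ᶠ[𝓝 u] fun _ => 0 := by
    filter_upwards [h.op.mem_nhds hu] with v hv using h.crit v hv
  rw [h2.fderiv_eq] at h1
  simp only [fderiv_fun_const, Pi.zero_apply, zero_apply] at h1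
  rw [mul_comm, add_comm]
  exact h1.symm

theorem Lap.dv (h : Lap m R ρ U c k) :
    DifferentiableOn ℂ (fun u => deriv (ser (flat m (un R u))) (c u)) U := by
  have hO : IsOpen (univ ×ˢ ball (0 : ℂ) R : Set (BS × ℂ)) := isOpen_univ.prod isOpen_ball
  have h1 := (hol_fderiv hO (hol_ser_flat m R h.hR)).comp (differentiableOn_id.prodMk h.dc)
    fun u hu => ⟨mem_univ _, mem_ball_zero_iff.2 (h.cR hu)⟩
  refine (h1.clm_apply (differentiableOn_const ((0 : BS), (1 : ℂ)))).congr fun u hu => ?_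
  exact (((hol_ser_flat m R h.hR).differentiableAt (h.nhd hu)).hasFDerivAt.comp_hasDerivAt (c u)
    ((hasDerivAt_const (c u) u).prodMk (hasDerivAt_id (c u)))).deriv

theorem Lap.Bne (h : Lap m R ρ U c k) {u : BS} (hu : u ∈ U) : Bv m (un R u) (c u) ≠ 0 :=
  div_ne_zero (pow_ne_zero _ (h.fne u hu)) (h.cne u hu).1

theorem Lap.dB (h : Lap m R ρ U c k) (hm : 0 < m) {u : BS} (hu : u ∈ U) :
    DifferentiableAt ℂ (fun u => Bv m (un R u) (c u)) u ∧
    ∀ du, fderiv ℂ (fun u => Bv m (un R u) (c u)) u du =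
      m * ser (un R u) (c u) ^ (m - 1) / c u * ser (un R du) (c u) := by
  have hc := (h.cne u hu).1
  have h1 := ((h.dser hu).1.hasFDerivAt.pow m).mul ((hasFDerivAt_inv hc).comp u
    (h.dcAt hu).hasFDerivAt)
  have h2 : (fun u => Bv m (un R u) (c u)) =
      (fun u => ser (un R u) (c u) ^ m) * ((fun x : ℂ => x⁻¹) ∘ c) := by
    funext u
    simp [Bv, div_eq_mul_inv]
  rw [h2]
  refine ⟨h1.differentiableAt, fun du => ?_⟩
  rw [h1.fderiv]
  have h3 := (bnd_un R h.hR u).ser_flat m (h.cR hu)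
  rw [h.crit u hu] at h3
  obtain ⟨m', rfl⟩ : ∃ m', m = m' + 1 := ⟨m - 1, by omega⟩
  simp only [add_apply, smul_apply, (h.dser hu).2,
    ContinuousLinearMap.comp_apply, ContinuousLinearMap.toSpanSingleton_apply, smul_eq_mul,
    comp_apply, Nat.add_sub_cancel, nsmul_eq_mul]
  field_simp
  linear_combination (-(ser (un R u) (c u) ^ m' * fderiv ℂ c u du)) * h3

/-- the remainder in the saddle point asymptotics -/
noncomputable def hardD (m : ℕ) (L : Set ℕ) (R : ℝ) (c k : BS → ℂ) (l n : ℕ) (u : BS) : ℂ :=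
  ind ℂ L l * (cf (un R u) (m * l - 1) (l - n) / Bv m (un R u) (c u) ^ l -
    k u * wal (l - 1) * c u ^ n)

theorem hard_ind_le (L : Set ℕ) (l : ℕ) : ‖ind ℂ L l‖ ≤ 1 := by
  unfold ind
  split_ifs <;> simp

theorem Lap.dD (h : Lap m R ρ U c k) (hm : 0 < m) (L : Set ℕ) (l n : ℕ) :
    DifferentiableOn ℂ (hardD m L R c k l n) U := fun u hu => by
  refine (DifferentiableAt.const_mul (DifferentiableAt.sub ?_ ?_) _).differentiableWithinAt
  · simp only [div_eq_mul_inv]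
    exact (hol_cf R _ _ u).mul (((h.dB hm hu).1.pow l).inv (pow_ne_zero _ (h.Bne hu)))
  · exact ((h.dkAt hu).mul_const _).mul ((h.dcAt hu).pow n)

theorem Lap.bd (h : Lap m R ρ U c k) {L : Set ℕ} (hL : 0 ∉ L) :
    ∃ (C : ℝ) (κ₂ : BS → ℕ → ℂ), 0 ≤ C ∧ ∀ u ∈ U, ‖k u‖ ≤ C ∧ ∀ n, ‖κ₂ u n‖ ≤ C * ρ ^ n ∧ ∀ l,
      ‖hardD m L R c k l n u‖ ≤ C * ρ ^ n * (wal (l - 1) / l) ∧
      ‖l * hardD m L R c k l n u - ind ℂ L l * wal (l - 1) * κ₂ u n‖ ≤
        C * ρ ^ n * (wal (l - 1) / l) := by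
  obtain ⟨C, κ₂, hC⟩ := h.est
  have hρ := h.rho.1
  refine ⟨2 * max C 0, κ₂, by positivity, fun u hu => ?_⟩
  obtain ⟨-, h1, -, h2, h3⟩ := hC u hu
  have hC0 : 0 ≤ C := (norm_nonneg _).trans h1
  rw [max_eq_left hC0]
  refine ⟨by linarith, fun n => ⟨(h2 n).trans (by gcongr; linarith), fun l => ?_⟩⟩
  rcases Nat.eq_zero_or_pos l with rfl | hl
  · simp [hardD, ind, hL]
  have hw := wal_pos (l - 1)
  have hl1 : (1 : ℝ) ≤ l := by exact_mod_cast hl
  have h4 : ‖l * hardD m L R c k l n u - ind ℂ L l * wal (l - 1) * κ₂ u n‖ ≤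
      C * ρ ^ n * (wal (l - 1) / l) := by
    refine le_trans (le_of_eq ?_) ((mul_le_of_le_one_left (norm_nonneg _)
      (hard_ind_le L l)).trans ((h3 l hl).2 n))
    rw [← norm_mul, hardD]
    congr 1
    ring
  have h5 : ‖ind ℂ L l * wal (l - 1) * κ₂ u n‖ ≤ C * ρ ^ n * wal (l - 1) := by
    rw [norm_mul, win_norm, mul_comm]
    exact mul_le_mul (h2 n) (mul_le_of_le_one_left hw.le (win_nn L l).2)
      (mul_nonneg (win_nn L l).1 hw.le) (by positivity)
  have h6 : C * ρ ^ n * (wal (l - 1) / l) ≤ C * ρ ^ n * wal (l - 1) := by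
    gcongr
    exact div_le_self hw.le hl1
  refine ⟨?_, h4.trans (by gcongr; linarith)⟩
  have h7 := norm_add_le (l * hardD m L R c k l n u - ind ℂ L l * wal (l - 1) * κ₂ u n)
    (ind ℂ L l * wal (l - 1) * κ₂ u n)
  rw [sub_add_cancel, norm_mul, Complex.norm_natCast] at h7
  rw [← mul_div_assoc, le_div_iff₀ (by positivity)]
  linarith

theorem hard_sumJ {L : Set ℕ} {β : ℂ} (h1 : ‖β‖ ≤ 1) (h : ‖β‖ < 1 ∨ Sparse L) :
    Summable fun l => ind ℂ L l * (wal (l - 1) : ℂ) * β ^ l := by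
  rcases h with h | h
  · refine (summable_geometric_of_lt_one (norm_nonneg β) h).of_norm_bounded fun l => ?_
    rw [norm_mul, win_norm, norm_pow]
    exact mul_le_of_le_one_left (by positivity) (win_le L l)
  · refine Summable.of_norm_bounded h fun l => ?_
    rw [norm_mul, win_norm, norm_pow]
    exact mul_le_of_le_one_right (mul_nonneg (win_nn L l).1 (wal_pos _).le)
      (pow_le_one₀ (norm_nonneg β) h1)

theorem hard_term {x β : ℂ} {M : ℝ} (l : ℕ) (h1 : ‖β‖ ≤ 1) (h : ‖x‖ ≤ M) : ‖β ^ l * x‖ ≤ M := by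
  rw [norm_mul, norm_pow]
  exact (mul_le_of_le_one_left (norm_nonneg _) (pow_le_one₀ (norm_nonneg β) h1)).trans h

theorem Lap.term (h : Lap m R ρ U c k) (L : Set ℕ) {u : BS} (hu : u ∈ U) (l n : ℕ) :
    Bv m (un R u) (c u) ^ l * hardD m L R c k l n u + ind ℂ L l * (wal (l - 1) : ℂ) *
      Bv m (un R u) (c u) ^ l * (k u * c u ^ n) = ind ℂ L l * cf (un R u) (m * l - 1) (l - n) := by
  have := h.Bne hu
  unfold hardD
  field_simp
  ring

theorem Lap.split (h : Lap m R ρ U c k) {L : Set ℕ} (hL : 0 ∉ L) {u : BS} (hu : u ∈ U)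
    (h1 : ‖Bv m (un R u) (c u)‖ ≤ 1) (h2 : ‖Bv m (un R u) (c u)‖ < 1 ∨ Sparse L) (n : ℕ) :
    sT m (ind ℂ L) (un R u) n = ∑' l, Bv m (un R u) (c u) ^ l * hardD m L R c k l n u +
      Jf L (Bv m (un R u) (c u)) * (k u * c u ^ n) := by
  obtain ⟨C, κ₂, -, hC⟩ := h.bd hL
  have h3 : Summable fun l => Bv m (un R u) (c u) ^ l * hardD m L R c k l n u :=
    (summable_wal.mul_left (C * ρ ^ n)).of_norm_bounded fun l =>
      hard_term l h1 (((hC u hu).2 n).2 l).1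
  have h4 := h3.hasSum.add ((hard_sumJ h1 h2).hasSum.mul_right (k u * c u ^ n))
  simp only [h.term L hu] at h4
  exact h4.tsum_eq

theorem hard_conv {m : ℕ} (hm : 0 < m) {L : Set ℕ} (hL : 0 ∉ L) {R ρ : ℝ} {U : Set BS}
    {c k : BS → ℂ} (h : Lap m R ρ U c k) {u₀ : BS} (hu : u₀ ∈ U) {u : ℕ → BS}
    (hl : Tendsto u atTop (𝓝 u₀)) {a : ℕ → ℂ} {a₀ y : ℂ} (ha : Tendsto a atTop (𝓝 a₀))
    {B : ℕ → ℝ} (hB : ∀ᶠ n in atTop, Bv m (un R (u n)) (c (u n)) = B n ∧ 0 ≤ B n ∧ B n < 1)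
    (hB1 : Tendsto B atTop (𝓝 1))
    (hy : Tendsto (fun n => a n * sT m (ind ℂ L) (un R (u n)) 1) atTop (𝓝 y)) :
    ∃ w₀, Tendsto (fun n => a n * Jf L (B n)) atTop (𝓝 w₀) ∧ (a₀ = 0 → w₀ * k u₀ * c u₀ = y) := by
  obtain ⟨C, κ₂, -, hC⟩ := h.bd hL
  have hU : ∀ᶠ n in atTop, u n ∈ U := hl.eventually (h.op.mem_nhds hu)
  have hB2 : Tendsto (fun n => (B n : ℂ)) atTop (𝓝 1) := by
    simpa [comp_def] using (Complex.continuous_ofReal.tendsto 1).comp hB1
  have hBn : ∀ n, 0 ≤ B n → B n < 1 → ‖(B n : ℂ)‖ < 1 := fun n h0 h1 => by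
    rwa [Complex.norm_real, Real.norm_of_nonneg h0]
  have hS : Tendsto (fun n => ∑' l, (B n : ℂ) ^ l * hardD m L R c k l 1 (u n)) atTop
      (𝓝 (∑' l, (1 : ℂ) ^ l * hardD m L R c k l 1 u₀)) := by
    refine tendsto_tsum_of_dominated_convergence (summable_wal.mul_left (C * ρ ^ 1))
      (fun l => (hB2.pow l).mul ((((h.dD hm L l 1).differentiableAt
        (h.op.mem_nhds hu)).continuousAt.tendsto).comp hl)) ?_
    filter_upwards [hU, hB] with n h1 h2 l
    exact hard_term l (hBn n h2.2.1 h2.2.2).le (((hC _ h1).2 1).2 l).1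
  have hk := ((h.dkAt hu).continuousAt.tendsto.comp hl).mul
    ((h.dcAt hu).continuousAt.tendsto.comp hl)
  have hne : k u₀ * c u₀ ≠ 0 := mul_ne_zero (h.κne _ hu) (h.cne _ hu).1
  refine ⟨_, ((hy.sub (ha.mul hS)).div hk hne).congr' ?_, fun h0 => ?_⟩
  · filter_upwards [hU, hB] with n h1 h2
    have h3 := hBn n h2.2.1 h2.2.2
    have h4 := h.split hL h1 (h2.1 ▸ h3.le) (Or.inl (h2.1 ▸ h3)) 1
    rw [h2.1, Nat.cast_one] at h4
    have h5 := h.κne _ h1
    have h6 := (h.cne _ h1).1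
    simp only [Pi.div_apply, comp_apply, h4]
    field_simp
    ring
  · rw [h0, mul_assoc, zero_mul, sub_zero, div_mul_cancel₀ _ hne]

end Pool.Agent.MP_098ecc_co.H97
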