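import Pool.Agent.MP_098ecc_co.H97.HardA

set_option autoImplicit false

namespace Pool.Agent.MP_098ecc_co.H97

open Metric Filter Topology Set Function
open scoped BoundedContinuousFunction

/-- a bounded sequence as an element of `BS` -/
noncomputable def hardMk (g : ℕ → ℂ) : BS := Function.invFun (fun u : BS => (u : ℕ → ℂ)) g

theorem hardMk_apply {g : ℕ → ℂ} {C : ℝ} (h : ∀ n, ‖g n‖ ≤ C) (n : ℕ) : hardMk g n = g n :=
  congrFun (Function.invFun_eq (f := fun u : BS => (u : ℕ → ℂ))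
    ⟨BoundedContinuousFunction.ofNormedAddCommGroupDiscrete g C h, rfl⟩) n

/-- the sequence valued data of a hard side -/
structure HardB (m : ℕ) (L : Set ℕ) (R R' : ℝ) (U : Set BS) (c k : BS → ℂ) (D : ℕ → BS → BS)
    (G K₂ : BS → BS) (C θ : ℝ) : Prop where
  R0 : 0 < R'
  C0 : 0 ≤ C
  θ0 : 0 ≤ θ
  θ1 : θ < 1
  dD : ∀ l, DifferentiableOn ℂ (D l) U
  dG : DifferentiableOn ℂ G U
  bk : ∀ u ∈ U, ‖k u‖ ≤ C
  uG : ∀ u ∈ U, ∀ n, un R' (G u) n = c u ^ n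
  bG : ∀ u ∈ U, ∀ n, ‖G u n‖ ≤ θ ^ n
  bK : ∀ u ∈ U, ‖K₂ u‖ ≤ C
  uD : ∀ u ∈ U, ∀ l n, un R' (D l u) n = hardD m L R c k l n u
  bD : ∀ u ∈ U, ∀ l n, ‖D l u n‖ ≤ C * (wal (l - 1) / l) * θ ^ n
  bD₂ : ∀ u ∈ U, ∀ l : ℕ, ‖(l : ℂ) • D l u - (ind ℂ L l * wal (l - 1)) • K₂ u‖ ≤
    C * (wal (l - 1) / l)

variable {m : ℕ} {L : Set ℕ} {R R' ρ : ℝ} {U : Set BS} {c k : BS → ℂ}

theorem Lap.bs (h : Lap m R ρ U c k) (hm : 0 < m) (hL : 0 ∉ L) (h2 : ρ < R'⁻¹) :
    ∃ D G K₂ C θ, HardB m L R R' U c k D G K₂ C θ := by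
  obtain ⟨C, κ₂, hC0, hC⟩ := h.bd hL
  have hρ := h.rho.1
  have hR' : 0 < R' := inv_pos.1 (hρ.trans h2)
  have hθ1 : R' * ρ < 1 := by
    have := mul_lt_mul_of_pos_left h2 hR'
    rwa [mul_inv_cancel₀ hR'.ne'] at this
  have hθ0 : 0 ≤ R' * ρ := by positivity
  have hp : ∀ n : ℕ, (R' * ρ) ^ n ≤ 1 := fun n => pow_le_one₀ hθ0 hθ1.le
  have key : ∀ (g : ℕ → ℂ) (A : ℝ), (∀ n, ‖g n‖ ≤ A * ρ ^ n) →
      ∀ n, hardMk (fun n => (R' : ℂ) ^ n * g n) n = (R' : ℂ) ^ n * g n ∧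
        ‖(R' : ℂ) ^ n * g n‖ ≤ A * (R' * ρ) ^ n := by
    intro g A hg
    have hA : 0 ≤ A := by simpa using (norm_nonneg _).trans (hg 0)
    have h1 : ∀ n, ‖(R' : ℂ) ^ n * g n‖ ≤ A * (R' * ρ) ^ n := fun n => by
      rw [norm_mul, norm_pow, Complex.norm_real, Real.norm_of_nonneg hR'.le, mul_pow,
        mul_left_comm]
      exact mul_le_mul_of_nonneg_left (hg n) (by positivity)
    exact fun n => ⟨hardMk_apply (C := A) (fun n => (h1 n).trans
      (mul_le_of_le_one_right hA (hp n))) n, h1 n⟩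
  have hun : ∀ (x : ℂ) (n : ℕ), (R' : ℂ) ^ n * x * (R' : ℂ)⁻¹ ^ n = x := fun x n => by
    have : (R' : ℂ) ≠ 0 := by exact_mod_cast hR'.ne'
    rw [inv_pow]
    field_simp
  have kD := fun u (hu : u ∈ U) l => key (fun n => hardD m L R c k l n u) (C * (wal (l - 1) / l))
    fun n => ((((hC u hu).2 n).2 l).1).trans_eq (by ring)
  have kG := fun u (hu : u ∈ U) => key (fun n => c u ^ n) 1 fun n => by
    rw [norm_pow, one_mul]
    exact pow_le_pow_left₀ (norm_nonneg _) (h.cne u hu).2.le n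
  have kK := fun u (hu : u ∈ U) => key (κ₂ u) C fun n => ((hC u hu).2 n).1
  refine ⟨fun l u => hardMk fun n => (R' : ℂ) ^ n * hardD m L R c k l n u,
    fun u => hardMk fun n => (R' : ℂ) ^ n * c u ^ n, fun u => hardMk fun n => (R' : ℂ) ^ n * κ₂ u n,
    C, R' * ρ, hR', hC0, hθ0, hθ1, fun l => ?_, ?_, fun u hu => (hC u hu).1, fun u hu n => ?_,
    fun u hu n => ?_, fun u hu => ?_, fun u hu l n => ?_, fun u hu l n => ?_, fun u hu l => ?_⟩
  · refine hol_bs h.op hθ0 hθ1 (fun n => ?_) fun u hu n => (kD u hu l n).1 ▸ (kD u hu l n).2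
    exact ((h.dD hm L l n).const_mul _).congr fun u hu => (kD u hu l n).1
  · refine hol_bs h.op hθ0 hθ1 (fun n => ?_) fun u hu n => (kG u hu n).1 ▸ (kG u hu n).2
    exact ((h.dc.pow n).const_mul _).congr fun u hu => (kG u hu n).1
  · rw [un, (kG u hu n).1, hun]
  · rw [(kG u hu n).1]
    exact (kG u hu n).2.trans_eq (one_mul _)
  · refine (BoundedContinuousFunction.norm_le hC0).2 fun n => ?_
    rw [(kK u hu n).1]
    exact (kK u hu n).2.trans (mul_le_of_le_one_right hC0 (hp n))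
  · rw [un, (kD u hu l n).1, hun]
  · rw [(kD u hu l n).1]
    exact (kD u hu l n).2
  · have hw : 0 ≤ C * (wal (l - 1) / l) := by
      have := wal_pos (l - 1)
      positivity
    refine (BoundedContinuousFunction.norm_le hw).2 fun n => ?_
    have h3 := (key (fun n => l * hardD m L R c k l n u - ind ℂ L l * wal (l - 1) * κ₂ u n)
      (C * (wal (l - 1) / l)) (fun n => ((((hC u hu).2 n).2 l).2).trans_eq (by ring)) n).2
    refine le_trans (le_of_eq ?_) (h3.trans (mul_le_of_le_one_right hw (hp n)))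
    simp only [BoundedContinuousFunction.coe_sub, BoundedContinuousFunction.coe_smul, Pi.sub_apply,
      smul_eq_mul, (kD u hu l n).1, (kK u hu n).1]
    congr 1
    ring

variable {D : ℕ → BS → BS} {G K₂ : BS → BS} {C θ : ℝ}

theorem HardB.w0 (H : HardB m L R R' U c k D G K₂ C θ) (l : ℕ) : 0 ≤ C * (wal (l - 1) / l) := by
  have := wal_pos (l - 1)
  have := H.C0
  positivity

theorem HardB.nD (H : HardB m L R R' U c k D G K₂ C θ) {u : BS} (hu : u ∈ U) {β : ℂ}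
    (hβ : ‖β‖ ≤ 1) (l : ℕ) : ‖β ^ l • D l u‖ ≤ C * (wal (l - 1) / l) := by
  rw [norm_smul, norm_pow]
  refine (mul_le_of_le_one_left (norm_nonneg _) (pow_le_one₀ (norm_nonneg β) hβ)).trans ?_
  exact (BoundedContinuousFunction.norm_le (H.w0 l)).2 fun n => (H.bD u hu l n).trans
    (mul_le_of_le_one_right (H.w0 l) (pow_le_one₀ H.θ0 H.θ1.le))

theorem HardB.sum (H : HardB m L R R' U c k D G K₂ C θ) {u : BS} (hu : u ∈ U) {β : ℂ}
    (hβ : ‖β‖ ≤ 1) : Summable fun l => β ^ l • D l u :=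
  (summable_wal.mul_left C).of_norm_bounded (H.nD hu hβ)

theorem HardB.apply (H : HardB m L R R' U c k D G K₂ C θ) {u : BS} (hu : u ∈ U) {β : ℂ}
    (hβ : ‖β‖ ≤ 1) (n : ℕ) : HasSum (fun l => β ^ l * D l u n) ((∑' l, β ^ l • D l u : BS) n) :=
  (BoundedContinuousFunction.evalCLM ℂ n : BS →L[ℂ] ℂ).hasSum (H.sum hu hβ).hasSum

/-- termwise differentiation along a curve -/
theorem HardB.curve (H : HardB m L R R' U c k D G K₂ C θ) {β : ℂ → ℂ} {u : ℂ → BS}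
    (hβ : Differentiable ℂ β) (hu : Differentiable ℂ u)
    (h0 : ∀ᶠ s in 𝓝 (0 : ℂ), ‖β s‖ ≤ 1 ∧ u s ∈ U) :
    DifferentiableAt ℂ (fun s => ∑' l, β s ^ l • D l (u s)) 0 ∧
      HasSum (fun l => deriv (fun s => β s ^ l • D l (u s)) 0)
        (deriv (fun s => ∑' l, β s ^ l • D l (u s)) 0) := by
  obtain ⟨O, hO, hOo, hO0⟩ := _root_.eventually_nhds_iff.1 h0
  have h1 := hol_tsum hOo (f := fun l s => β s ^ l • D l (u s))
    (fun l => (hβ.pow l).differentiableOn.smul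
      ((H.dD l).comp hu.differentiableOn fun s hs => (hO s hs).2))
    (summable_wal.mul_left C) fun l s hs => H.nD (hO s hs).2 (hO s hs).1 l
  exact ⟨h1.1.differentiableAt (hOo.mem_nhds hO0),
    (ContinuousLinearMap.apply ℂ BS (1 : ℂ)).hasSum (h1.2 0 hO0)⟩

theorem hard_J1 (hL : 0 ∉ L) {β : ℂ} (hβ : ‖β‖ < 1) : ∃ J : ℂ,
    HasSum (fun l => ind ℂ L l * wal (l - 1) * β ^ (l - 1)) J ∧ ‖J‖ ≤ 2 + 2 * ‖Jf L β‖ := by
  have h0 : ind ℂ L 0 = 0 := by simp [ind, hL]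
  have hb : ∀ l : ℕ, ‖ind ℂ L (l + 1) * wal (l + 1 - 1) * β ^ l‖ ≤ ‖β‖ ^ l := fun l => by
    rw [norm_mul, win_norm, norm_pow]
    exact mul_le_of_le_one_left (by positivity) (win_le L _)
  have h1 := ((summable_geometric_of_lt_one (norm_nonneg β) hβ).of_norm_bounded hb).hasSum
  refine ⟨_, (hasSum_nat_add_iff' 1).1 (by simpa [h0] using h1), ?_⟩
  simp only [Nat.add_sub_cancel] at h1 hb
  by_cases h2 : ‖β‖ ≤ 1 / 2
  · have h3 := tsum_of_norm_bounded hasSum_geometric_two fun l =>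
      (hb l).trans (pow_le_pow_left₀ (norm_nonneg β) h2 l)
    linarith [norm_nonneg (Jf L β)]
  · have h3 : Jf L β = (∑' l, ind ℂ L (l + 1) * wal l * β ^ l) * β := by
      refine HasSum.tsum_eq ((hasSum_nat_add_iff' 1).1 ?_)
      simpa [h0, pow_succ, mul_assoc] using h1.mul_right β
    rw [h3, norm_mul]
    nlinarith [norm_nonneg (∑' l, ind ℂ L (l + 1) * wal l * β ^ l)]

/-- derivative in the wall parameter -/
theorem HardB.dwall (H : HardB m L R R' U c k D G K₂ C θ) (hL : 0 ∉ L) {u : BS} (hu : u ∈ U)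
    {β : ℂ} (hβ : ‖β‖ < 1) (dβ : ℂ) :
    DifferentiableAt ℂ (fun s : ℂ => ∑' l, (β + s * dβ) ^ l • D l u) 0 ∧
    ‖deriv (fun s : ℂ => ∑' l, (β + s * dβ) ^ l • D l u) 0‖ ≤
      ‖dβ‖ * (C * (∑' l : ℕ, wal (l - 1) / l) + (2 + 2 * ‖Jf L β‖) * C) := by
  have hd : Differentiable ℂ fun s : ℂ => β + s * dβ := by fun_prop
  have h0 : ∀ᶠ s in 𝓝 (0 : ℂ), ‖β + s * dβ‖ < 1 :=
    hd.continuous.norm.continuousAt.eventually_lt continuousAt_const (by simpa using hβ)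
  obtain ⟨h1, h2⟩ := H.curve (u := fun _ => u) hd (differentiable_const u)
    (h0.mono fun s hs => ⟨hs.le, hu⟩)
  refine ⟨h1, ?_⟩
  obtain ⟨J, hJ, hJ'⟩ := hard_J1 hL hβ
  have hb : ∀ l : ℕ, ‖β ^ (l - 1) • ((l : ℂ) • D l u - (ind ℂ L l * wal (l - 1)) • K₂ u)‖ ≤
      C * (wal (l - 1) / l) := fun l => by
    rw [norm_smul, norm_pow]
    exact (mul_le_of_le_one_left (norm_nonneg _) (pow_le_one₀ (norm_nonneg β) hβ.le)).trans
      (H.bD₂ u hu l)
  have h3 := ((summable_wal.mul_left C).of_norm_bounded hb).hasSum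
  have h4 := tsum_of_norm_bounded (summable_wal.hasSum.mul_left C) hb
  have h5 := (h3.add (hJ.smul_const (K₂ u))).const_smul dβ
  have h6 : ∀ l : ℕ, deriv (fun s : ℂ => (β + s * dβ) ^ l • D l u) 0 =
      dβ • (β ^ (l - 1) • ((l : ℂ) • D l u - (ind ℂ L l * wal (l - 1)) • K₂ u) +
        (ind ℂ L l * wal (l - 1) * β ^ (l - 1)) • K₂ u) := fun l => by
    have h7 : HasDerivAt (fun s : ℂ => β + s * dβ) dβ 0 := by
      simpa using ((hasDerivAt_id (0 : ℂ)).mul_const dβ).const_add β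
    rw [((h7.fun_pow l).smul_const (D l u)).deriv]
    simp only [zero_mul, add_zero]
    module
  simp only [h6] at h2
  rw [h2.unique h5, norm_smul]
  refine mul_le_mul_of_nonneg_left ((norm_add_le _ _).trans (add_le_add h4 ?_)) (norm_nonneg _)
  rw [norm_smul]
  exact mul_le_mul hJ' (H.bK u hu) (norm_nonneg _) (by positivity)

end Pool.Agent.MP_098ecc_co.H97
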