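import Pool.Agent.MP_098ecc_co.H97.HardB

set_option autoImplicit false

namespace Pool.Agent.MP_098ecc_co.H97

open Metric Filter Topology Set Function
open scoped BoundedContinuousFunction

theorem hard_II_lin {m : ℕ} {R' : ℝ} {g dg g' dg' : ℕ → ℂ} (hg : Bnd R' g) (hd : Bnd R' dg)
    (hg' : Bnd R' g') (hd' : Bnd R' dg') (f df : ℕ → ℂ) (a x y : ℂ) {z : ℂ} (hz : ‖z⁻¹‖ < R') :
    II m f df (x • g + y • g') (x • dg + y • dg') a 0 z =
      x * II m f df g dg a 0 z + y * II m f df g' dg' a 0 z := by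
  simp only [II, Om, hard_flat_lin, hard_ser_lin (hard_sum hg hz) (hard_sum hg' hz),
    hard_ser_lin (hard_sum hd hz) (hard_sum hd' hz),
    hard_ser_lin (hard_sum_flat hg m hz) (hard_sum_flat hg' m hz)]
  ring

theorem hard_inv_lt {R' r : ℝ} (h0 : 0 < R') (h1 : R'⁻¹ < r) {z : ℂ} (hz : ‖z‖ = r) :
    ‖z⁻¹‖ < R' := by
  rw [norm_inv, hz]
  exact inv_lt_of_inv_lt₀ h0 h1

/-- the linear functionals of the variational form -/
theorem hard_lam {m : ℕ} {R R' r : ℝ} (h0 : 0 < R') (h1 : R'⁻¹ < r) (h2 : r < R) {f df : ℕ → ℂ}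
    (hf : Bnd R f) (hdf : Bnd R df) (a : ℂ) {φ : ℂ → ℂ} (hφ : ContinuousOn φ (sphere 0 r))
    (n : ℤ) : ∃ Λ : BS × BS →ₗ[ℂ] ℂ,
      (∀ p, Λ p = lc r (fun z => II m f df (un R' p.1) (un R' p.2) a 0 z * φ z) n) ∧
      ∀ (u du : ℕ → BS) (v dv : BS), Tendsto u atTop (𝓝 v) → Tendsto du atTop (𝓝 dv) →
        Tendsto (fun N => Λ (u N, du N)) atTop (𝓝 (Λ (v, dv))) := by
  have hr : 0 < r := (inv_pos.2 h0).trans h1
  have hc : ∀ u du : BS, ContinuousOn (fun z => II m f df (un R' u) (un R' du) a 0 z * φ z)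
      (sphere 0 r) := fun u du =>
    ((II_diff h0 hf hdf (bnd_un R' h0 u) (bnd_un R' h0 du) a 0).continuousOn.mono
      (laur_sph ⟨h1, h2⟩)).mul hφ
  have hlin : ∀ (x y : ℂ) (p p' : BS × BS), lc r (fun z => II m f df (un R' (x • p + y • p').1)
      (un R' (x • p + y • p').2) a 0 z * φ z) n =
      x * lc r (fun z => II m f df (un R' p.1) (un R' p.2) a 0 z * φ z) n +
      y * lc r (fun z => II m f df (un R' p'.1) (un R' p'.2) a 0 z * φ z) n := by
    intro x y p p'
    rw [← lc_const_mul, ← lc_const_mul, ← lc_add hr (continuousOn_const.fun_mul (hc _ _))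
      (continuousOn_const.fun_mul (hc _ _))]
    refine lc_congr hr (fun z hz => ?_) n
    simp only [Prod.fst_add, Prod.smul_fst, Prod.snd_add, Prod.smul_snd, hard_un_lin]
    rw [hard_II_lin (bnd_un R' h0 _) (bnd_un R' h0 _) (bnd_un R' h0 _) (bnd_un R' h0 _) f df a x y
      (hard_inv_lt h0 h1 hz)]
    ring
  refine ⟨⟨⟨fun p => lc r (fun z => II m f df (un R' p.1) (un R' p.2) a 0 z * φ z) n,
    fun p p' => by simpa using hlin 1 1 p p'⟩, fun x p => by simpa using hlin x 0 p p⟩,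
    fun _ => rfl, fun u du v dv hu hdu => ?_⟩
  refine lc_tendsto hr (Eventually.of_forall fun N => hc _ _) (hc _ _) ?_ n
  obtain ⟨A, hA0, hA⟩ := laur_bound hφ
  rw [Metric.tendstoUniformlyOn_iff]
  intro ε hε
  filter_upwards [Metric.tendstoUniformlyOn_iff.1 (II_tendsto (m := m) h0 h1 h2 hf hdf hu hdu a 0)
    (ε / (A + 1)) (by positivity)] with N hN z hz
  have h3 := hN z hz
  have h4 := hA z (mem_sphere_zero_iff_norm.1 hz)
  rw [dist_eq_norm] at h3 ⊢
  rw [← sub_mul, norm_mul]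
  rw [lt_div_iff₀ (by positivity)] at h3
  nlinarith [norm_nonneg (II m f df (un R' v) (un R' dv) a 0 z -
    II m f df (un R' (u N)) (un R' (du N)) a 0 z)]

theorem hard_fin {R' : ℝ} (h0 : 0 < R') {g : ℕ → ℂ} (l : ℕ) (h : ∀ n, l < n → g n = 0) :
    Bnd R' g :=
  laur_bnd_of_sum h0 (summable_of_ne_finset_zero (s := Finset.range (l + 1)) fun n hn => by
    rw [h n (by simpa using hn)]
    simp)

theorem hard_cf_neg (f : ℕ → ℂ) (N : ℕ) {l n : ℕ} (h : l < n) : cf f N (l - n) = 0 :=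
  if_neg (by omega)

theorem hard_II_om {m : ℕ} {R' : ℝ} (h0 : 0 < R') (f df : ℕ → ℂ) (N l : ℕ) (a x : ℂ) {z : ℂ}
    (hz : ‖z⁻¹‖ < R') :
    II m f df (fun n : ℕ => x * cf f N (l - n))
      (fun n : ℕ => x * (a * cf f N (l - n) + dcf f df N (l - n))) a 0 z =
      x * Om m f df (fun n : ℕ => cf f N (l - n)) (fun n : ℕ => dcf f df N (l - n)) z := by
  have hg : Bnd R' fun n : ℕ => cf f N (l - n) := hard_fin h0 l fun n hn => hard_cf_neg f N hn
  have hd : Bnd R' fun n : ℕ => dcf f df N (l - n) := hard_fin h0 l fun n hn => by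
    simp [dcf, hard_cf_neg _ N hn]
  have h1 : (fun n : ℕ => x * cf f N (l - n)) =
      x • (fun n : ℕ => cf f N (l - n)) + (0 : ℂ) • fun n : ℕ => dcf f df N (l - n) := by
    funext n
    simp
  have h2 : (fun n : ℕ => x * (a * cf f N (l - n) + dcf f df N (l - n))) =
      (x * a) • (fun n : ℕ => cf f N (l - n)) + x • fun n : ℕ => dcf f df N (l - n) := by
    funext n
    simp only [Pi.add_apply, Pi.smul_apply, smul_eq_mul]
    ring
  rw [h1, h2]
  simp only [II, Om, hard_flat_lin, hard_ser_lin (hard_sum hg hz) (hard_sum hd hz),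
    hard_ser_lin (hard_sum_flat hg m hz) (hard_sum_flat hd m hz)]
  ring

theorem hard_un_deriv (R' : ℝ) {F : ℂ → BS} {F' : BS} {s : ℂ} (h : HasDerivAt F F' s) (n : ℕ) :
    HasDerivAt (fun s => un R' (F s) n) (un R' F' n) s :=
  ((BoundedContinuousFunction.evalCLM ℂ n : BS →L[ℂ] ℂ).hasFDerivAt.comp_hasDerivAt s h).mul_const _

variable {m : ℕ} {L : Set ℕ} {R R' ρ : ℝ} {U : Set BS} {c k : BS → ℂ}
  {D : ℕ → BS → BS} {G K₂ : BS → BS} {C θ : ℝ}

/-- the output along a line -/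
noncomputable def hardO (M : ℕ) (k : BS → ℂ) (D : ℕ → BS → BS) (G : BS → BS) (β τ w : ℂ)
    (u : BS) : BS := τ ^ M • ∑' l, β ^ l • D l u + (w * k u) • G u

/-- the defect of the truncated sums -/
noncomputable def hardE (M : ℕ) (L : Set ℕ) (N : ℕ) (β τ w : ℂ) : ℂ :=
  w - τ ^ M * ∑ l ∈ Finset.range N, ind ℂ L l * wal (l - 1) * β ^ l

theorem hard_line (x dx : ℂ) : HasDerivAt (fun s : ℂ => x + s * dx) dx 0 := by
  simpa using ((hasDerivAt_id (0 : ℂ)).mul_const dx).const_add x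

theorem hard_lineB (u du : BS) : HasDerivAt (fun s : ℂ => u + s • du) du 0 := by
  simpa using ((hasDerivAt_id (0 : ℂ)).smul_const du).const_add u

theorem hard_comp {F : Type} [NormedAddCommGroup F] [NormedSpace ℂ F] {g : BS → F} {u : BS}
    (hg : DifferentiableAt ℂ g u) (du : BS) :
    HasDerivAt (fun s : ℂ => g (u + s • du)) (fderiv ℂ g u du) 0 :=
  hg.hasFDerivAt.hasLineDerivAt du

theorem HardB.core (H : HardB m L R R' U c k D G K₂ C θ) (h : Lap m R ρ U c k) (hm : 0 < m)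
    {M : ℕ} (hM : 1 ≤ M) {u : BS} (hu : u ∈ U) (du : BS) (τ ϖ w dw : ℂ) {β dβ : ℂ}
    (hβ : Bv m (un R u) (c u) = β) (hdβ : fderiv ℂ (fun u => Bv m (un R u) (c u)) u du = dβ)
    (h1 : ∀ᶠ s in 𝓝 (0 : ℂ), ‖β + s * dβ‖ ≤ 1) (Λ : BS × BS →ₗ[ℂ] ℂ)
    (hΛ : ∀ (u du : ℕ → BS) (v dv : BS), Tendsto u atTop (𝓝 v) → Tendsto du atTop (𝓝 dv) →
      Tendsto (fun N => Λ (u N, du N)) atTop (𝓝 (Λ (v, dv))))
    (h0 : ∀ (l : ℕ) (g dg : BS), un R' g = (fun n : ℕ => ind ℂ L l * τ ^ M *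
      cf (un R u) (m * l - 1) (l - n)) → un R' dg = (fun n : ℕ => ind ℂ L l * τ ^ M *
        (M * ϖ * cf (un R u) (m * l - 1) (l - n) + dcf (un R u) (un R du) (m * l - 1) (l - n))) →
      Λ (g, dg) = 0) :
    Tendsto (fun N => hardE M L N β τ w * k u * Λ (G u, fderiv ℂ G u du) +
      deriv (fun s => hardE M L N (β + s * dβ) (τ + s * (ϖ * τ)) (w + s * dw) * k (u + s • du)) 0 *
        Λ (0, G u)) atTop (𝓝 (Λ (hardO M k D G β τ w u, deriv (fun s =>
          hardO M k D G (β + s * dβ) (τ + s * (ϖ * τ)) (w + s * dw) (u + s • du)) 0))) := by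
  have hU := h.op.mem_nhds hu
  have hUs : ∀ᶠ s in 𝓝 (0 : ℂ), u + s • du ∈ U :=
    (hard_lineB u du).continuousAt.eventually_mem (by simpa using hU)
  have hβ1 : ‖β‖ ≤ 1 := by simpa using h1.self_of_nhds
  obtain ⟨hS, hS'⟩ := H.curve (β := fun s => β + s * dβ) (u := fun s => u + s • du)
    (by fun_prop) (by fun_prop) (h1.and hUs)
  have hτ : HasDerivAt (fun s : ℂ => (τ + s * (ϖ * τ)) ^ M) (M * ϖ * τ ^ M) 0 := by
    refine ((hard_line τ (ϖ * τ)).fun_pow M).congr_deriv ?_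
    obtain ⟨M', rfl⟩ : ∃ M', M = M' + 1 := ⟨M - 1, by omega⟩
    simp only [zero_mul, add_zero, Nat.add_sub_cancel]
    ring
  have hk := hard_comp (h.dkAt hu) du
  have hG := hard_comp (H.dG.differentiableAt hU) du
  have hT : ∀ l, DifferentiableAt ℂ (fun s : ℂ => (β + s * dβ) ^ l • D l (u + s • du)) 0 :=
    fun l => ((hard_line β dβ).differentiableAt.pow l).smul
      (hard_comp ((H.dD l).differentiableAt hU) du).differentiableAt
  have hP := (((hard_line w dw).mul hk).smul hG).differentiableAt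
  -- the pieces
  let A : ℕ → ℂ → BS := fun l s => (τ + s * (ϖ * τ)) ^ M • (β + s * dβ) ^ l • D l (u + s • du) +
    ((τ + s * (ϖ * τ)) ^ M * (ind ℂ L l * wal (l - 1) * (β + s * dβ) ^ l) * k (u + s • du)) •
      G (u + s • du)
  have hA : ∀ l, DifferentiableAt ℂ (A l) 0 := fun l =>
    (hτ.differentiableAt.smul (hT l)).add (((hτ.differentiableAt.mul (by fun_prop)).mul
      hk.differentiableAt).smul hG.differentiableAt)
  have hA0 : ∀ l, Λ (A l 0, deriv (A l) 0) = 0 := by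
    intro l
    have h2 : ∀ n : ℕ, ∀ᶠ s in 𝓝 (0 : ℂ), un R' (A l s) n = ind ℂ L l * ((τ + s * (ϖ * τ)) ^ M *
        (((β + s * dβ) / Bv m (un R (u + s • du)) (c (u + s • du))) ^ l *
          cf (un R (u + s • du)) (m * l - 1) (l - n))) := fun n => by
      filter_upwards [hUs] with s hs
      have h3 := h.Bne hs
      simp only [A, smul_smul, hard_un_lin, Pi.add_apply, Pi.smul_apply, smul_eq_mul, H.uD _ hs,
        H.uG _ hs, hardD, div_pow]
      field_simp
      ring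
    have hB := hard_comp (h.dB hm hu).1 du
    have hne : β ≠ 0 := hβ ▸ h.Bne hu
    have hq : HasDerivAt (fun s : ℂ => (β + s * dβ) / Bv m (un R (u + s • du)) (c (u + s • du)))
        0 0 := by
      refine ((hard_line β dβ).div hB (by simpa [hβ] using hne)).congr_deriv ?_
      simp [hβ, hdβ, mul_comm]
    refine h0 l _ _ (funext fun n => ?_) (funext fun n => ?_)
    · rw [(h2 n).self_of_nhds]
      simp [hβ, hne, mul_assoc]
    · have h3 := hasDerivAt_cf (F := fun s : ℂ => un R (u + s • du)) (df := un R du) (s := 0)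
        (fun i => hard_un_deriv R (hard_lineB u du) i) (m * l - 1) (l - n)
      have h4 := (hτ.mul ((hq.fun_pow l).mul h3)).const_mul (ind ℂ L l)
      rw [(hard_un_deriv R' (hA l).hasDerivAt n).unique (h4.congr_of_eventuallyEq (h2 n))]
      simp only [zero_mul, add_zero, zero_smul, hβ, div_self hne, one_pow, mul_zero, zero_add,
        one_mul, Pi.mul_apply]
      ring
  let O : ℕ → ℂ → BS := fun N s => (τ + s * (ϖ * τ)) ^ M •
    ∑ l ∈ Finset.range N, (β + s * dβ) ^ l • D l (u + s • du) +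
    ((w + s * dw) * k (u + s • du)) • G (u + s • du)
  have hO : ∀ N, O N = fun s => ∑ l ∈ Finset.range N, A l s +
      (hardE M L N (β + s * dβ) (τ + s * (ϖ * τ)) (w + s * dw) * k (u + s • du)) •
        G (u + s • du) := by
    intro N
    funext s
    simp only [O, A, hardE, Finset.sum_add_distrib, ← Finset.smul_sum, ← Finset.sum_smul,
      ← Finset.sum_mul, ← Finset.mul_sum]
    module
  have hE : ∀ N, DifferentiableAt ℂ (fun s => hardE M L N (β + s * dβ) (τ + s * (ϖ * τ))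
      (w + s * dw) * k (u + s • du)) 0 := fun N =>
    DifferentiableAt.mul (by unfold hardE; fun_prop) hk.differentiableAt
  have h2 : Tendsto (fun N => O N 0) atTop (𝓝 (hardO M k D G β τ w u)) := by
    simp only [O, zero_mul, add_zero, zero_smul]
    exact ((H.sum hu hβ1).hasSum.tendsto_sum_nat.const_smul _).add_const _
  have h3 : Tendsto (fun N => deriv (O N) 0) atTop (𝓝 (deriv (fun s =>
      hardO M k D G (β + s * dβ) (τ + s * (ϖ * τ)) (w + s * dw) (u + s • du)) 0)) := by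
    have h4 := ((hτ.fun_smul hS.hasDerivAt).fun_add hP.hasDerivAt).deriv
    have h5 : ∀ N, deriv (O N) 0 = _ := fun N =>
      ((hτ.fun_smul (HasDerivAt.fun_sum fun l (_ : l ∈ Finset.range N) =>
        (hT l).hasDerivAt)).fun_add hP.hasDerivAt).deriv
    unfold hardO
    rw [show deriv (fun s => (τ + s * (ϖ * τ)) ^ M • ∑' l, (β + s * dβ) ^ l • D l (u + s • du) +
      ((w + s * dw) * k (u + s • du)) • G (u + s • du)) 0 = _ from h4]
    simp only [h5]
    refine ((hS'.tendsto_sum_nat.const_smul _).add (Tendsto.const_smul ?_ _)).add_const _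
    simpa using (H.sum hu hβ1).hasSum.tendsto_sum_nat
  refine (hΛ _ _ _ _ h2 h3).congr fun N => ?_
  have h4 := ((HasDerivAt.fun_sum fun l (_ : l ∈ Finset.range N) => (hA l).hasDerivAt).fun_add
    ((hE N).hasDerivAt.fun_smul hG)).deriv
  have h5 : (O N 0, deriv (O N) 0) = ∑ l ∈ Finset.range N, (A l 0, deriv (A l) 0) +
      (hardE M L N β τ w * k u) • (G u, fderiv ℂ G u du) + deriv (fun s => hardE M L N (β + s * dβ)
        (τ + s * (ϖ * τ)) (w + s * dw) * k (u + s • du)) 0 • ((0 : BS), G u) := by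
    rw [hO N, h4]
    ext1 <;> simp [Prod.fst_sum, Prod.snd_sum, add_assoc]
  rw [h5, map_add, map_add, map_sum, map_smul, map_smul]
  simp [hA0]

end Pool.Agent.MP_098ecc_co.H97
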