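import Pool.Agent.MP_098ecc_co.H97.HardC

set_option autoImplicit false

namespace Pool.Agent.MP_098ecc_co.H97

open Metric Filter Topology Set Function
open scoped BoundedContinuousFunction

variable {m : ℕ} {L : Set ℕ} {R R' ρ : ℝ} {U : Set BS} {c k : BS → ℂ}
  {D : ℕ → BS → BS} {G K₂ : BS → BS} {C θ : ℝ}

theorem HardB.udG (H : HardB m L R R' U c k D G K₂ C θ) (h : Lap m R ρ U c k) {u : BS}
    (hu : u ∈ U) (du : BS) (n : ℕ) :
    un R' (fderiv ℂ G u du) n = n * c u ^ (n - 1) * fderiv ℂ c u du := by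
  have hU := h.op.mem_nhds hu
  have hUs : ∀ᶠ s in 𝓝 (0 : ℂ), u + s • du ∈ U :=
    (hard_lineB u du).continuousAt.eventually_mem (by simpa using hU)
  have h1 := hard_un_deriv R' (hard_comp (H.dG.differentiableAt hU) du) n
  have h2 := (hard_comp (h.dcAt hu) du).fun_pow n
  rw [h1.unique (h2.congr_of_eventuallyEq (hUs.mono fun s hs => H.uG _ hs n))]
  simp

theorem hard_un_zero (R' : ℝ) : un R' 0 = 0 := by
  funext n
  simp [un]

theorem hard_E_lim {β : ℂ} (h1 : ‖β‖ ≤ 1) (h2 : ‖β‖ < 1 ∨ Sparse L) (M : ℕ) (τ w : ℂ) :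
    Tendsto (fun N => hardE M L N β τ w) atTop (𝓝 (w - τ ^ M * Jf L β)) :=
  ((hard_sumJ h1 h2).hasSum.tendsto_sum_nat.const_mul _).const_sub _

theorem hard_Kk_cont {r : ℝ} {ζ : ℂ} (hζ : ‖ζ‖ < r) : ContinuousOn (Kk ζ) (sphere 0 r) :=
  (continuousOn_id.mul continuousOn_const).div ((continuousOn_id.sub continuousOn_const).pow 2)
    fun z hz => pow_ne_zero 2 (sub_ne_zero.2 fun h3 : z = ζ => by
      rw [← h3, mem_sphere_zero_iff_norm.1 hz] at hζ
      exact hζ.false)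

theorem HardB.sl (H : HardB m L R R' U c k D G K₂ C θ) (h : Lap m R ρ U c k) (hm : 0 < m)
    (hL : 0 ∉ L) (h2 : ρ < R'⁻¹) {M : ℕ} (hM : 1 ≤ M) {u : BS} (hu : u ∈ U) (du : BS)
    (τ ϖ w dw : ℂ) {β dβ : ℂ} (hβ : Bv m (un R u) (c u) = β)
    (hdβ : fderiv ℂ (fun u => Bv m (un R u) (c u)) u du = dβ) (h1 : ‖β‖ ≤ 1)
    (h3 : ‖β‖ < 1 ∨ dβ = 0) {r : ℝ} (hr1 : R'⁻¹ < r) (hr2 : r < R) {n : ℤ} (hn : n ≤ 0) :
    lc r (fun z => II m (un R u) (un R du) (un R' (hardO M k D G β τ w u)) (un R' (deriv (fun s =>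
      hardO M k D G (β + s * dβ) (τ + s * (ϖ * τ)) (w + s * dw) (u + s • du)) 0)) (M * ϖ) 0 z -
      k u * ser (un R u) (c u) / Bv m (un R u) (c u) * (w - τ ^ M * Jf L β) * dβ * Kk (c u) z)
      n = 0 := by
  have hr : 0 < r := (inv_pos.2 H.R0).trans hr1
  have hf := bnd_un R h.hR u
  have hdf := bnd_un R h.hR du
  have hcr : ‖c u‖ < r := ((h.cne u hu).2.trans h2).trans hr1
  have hII : ∀ g dg : BS, ContinuousOn (II m (un R u) (un R du) (un R' g) (un R' dg) (M * ϖ) 0)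
      (sphere 0 r) := fun g dg =>
    (II_diff H.R0 hf hdf (bnd_un R' H.R0 g) (bnd_un R' H.R0 dg) _ 0).continuousOn.mono
      (laur_sph ⟨hr1, hr2⟩)
  have hK := hard_Kk_cont hcr
  obtain ⟨Λ, hΛ, hΛ'⟩ := hard_lam (m := m) H.R0 hr1 hr2 hf hdf (M * ϖ)
    (φ := fun _ => 1) continuousOn_const n
  simp only [mul_one] at hΛ
  have h4 : ∀ᶠ s in 𝓝 (0 : ℂ), ‖β + s * dβ‖ ≤ 1 := by
    rcases h3 with h3 | h3
    · exact ((hard_line β dβ).continuousAt.norm.eventually_lt continuousAt_const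
        (by simpa using h3)).mono fun s hs => hs.le
    · simp [h3, h1]
  have h5 := H.core h hm hM hu du τ ϖ w dw hβ hdβ h4 Λ hΛ' fun l g dg hg hdg => by
    rw [hΛ, hg, hdg, lc_congr hr (fun z hz => hard_II_om H.R0 _ _ _ l _ _
      (hard_inv_lt H.R0 hr1 hz)), lc_const_mul]
    rcases Nat.eq_zero_or_pos l with rfl | hl
    · simp [ind, hL]
    · rw [(slb hm hl hr hr2 hf hdf).1 n hn, mul_zero]
  have hG : un R' (G u) = fun n => 1 * c u ^ n := funext fun n => by rw [H.uG u hu, one_mul]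
  have h6 : Λ (G u, fderiv ℂ G u du) = m * ser (un R du) (c u) * lc r (Kk (c u)) n := by
    have h7 := pole_lemma (m := m) hr2 hf hdf hcr 1 0 (fderiv ℂ c u du) (M * ϖ) n hn
    have h8 : un R' (fderiv ℂ G u du) =
        fun n : ℕ => 0 * c u ^ n + 1 * n * c u ^ (n - 1) * fderiv ℂ c u du :=
      funext fun n => by rw [H.udG h hu]; ring
    rw [← hG, ← h8, h.crit u hu, h.dcrit hu] at h7
    rw [← lc_const_mul, ← sub_eq_zero, hΛ, ← lc_sub hr (hII _ _) (continuousOn_const.fun_mul hK)]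
    refine Eq.trans (lc_congr hr (fun z _ => ?_) n) h7
    simp only [Kk]
    ring
  have h7 : Λ (0, G u) = 0 := by
    have h7 := pole_lemma (m := m) hr2 hf hdf hcr 0 1 0 (M * ϖ) n hn
    rw [h.crit u hu] at h7
    rw [hΛ, hG, hard_un_zero]
    refine Eq.trans (lc_congr hr (fun z _ => ?_) n) h7
    simp [Pi.zero_def]
  have h8 : k u * ser (un R u) (c u) / Bv m (un R u) (c u) * dβ =
      k u * (m * ser (un R du) (c u)) := by
    have := h.fne u hu
    have := (h.cne u hu).1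
    rw [← hdβ, (h.dB hm hu).2, Bv]
    obtain ⟨m', rfl⟩ : ∃ m', m = m' + 1 := ⟨m - 1, by omega⟩
    simp only [Nat.add_sub_cancel]
    field_simp
    ring
  rw [lc_sub hr (hII _ _) (continuousOn_const.fun_mul hK), lc_const_mul, sub_eq_zero, ← hΛ (_, _)]
  refine tendsto_nhds_unique h5 ?_
  simp only [h6, h7, mul_zero, add_zero]
  rcases h3 with h3 | h3
  · have h9 := (hard_E_lim (L := L) h1 (Or.inl h3) M τ w).mul_const
      (k u * (m * ser (un R du) (c u)) * lc r (Kk (c u)) n)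
    convert h9 using 2
    · ring
    · rw [← h8]
      ring
  · have h9 : k u * (m * ser (un R du) (c u)) = 0 := by rw [← h8, h3, mul_zero]
    rw [h3, mul_zero, zero_mul]
    refine tendsto_const_nhds.congr fun N => ?_
    linear_combination (-(hardE M L N β τ w * lc r (Kk (c u)) n)) * h9

theorem Lap.cz (h : Lap m R ρ U c k) (hm : 0 < m) {u : BS} (hu : u ∈ U) {du : BS}
    (hdβ : fderiv ℂ (fun u => Bv m (un R u) (c u)) u du = 0) : ser (un R du) (c u) = 0 := by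
  rw [(h.dB hm hu).2] at hdβ
  exact (mul_eq_zero.1 hdβ).resolve_left (div_ne_zero (mul_ne_zero (by exact_mod_cast hm.ne')
    (pow_ne_zero _ (h.fne u hu))) (h.cne u hu).1)

theorem hard_pow_line {M : ℕ} (hM : 1 ≤ M) (τ ϖ : ℂ) :
    HasDerivAt (fun s : ℂ => (τ + s * (ϖ * τ)) ^ M) (M * ϖ * τ ^ M) 0 := by
  refine ((hard_line τ (ϖ * τ)).fun_pow M).congr_deriv ?_
  obtain ⟨M', rfl⟩ : ∃ M', M = M' + 1 := ⟨M - 1, by omega⟩
  simp only [zero_mul, add_zero, Nat.add_sub_cancel]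
  ring

theorem HardB.val (H : HardB m L R R' U c k D G K₂ C θ) (h : Lap m R ρ U c k) (hm : 0 < m)
    (hL : 0 ∉ L) (h2 : ρ < R'⁻¹) {M : ℕ} (hM : 1 ≤ M) {u : BS} (hu : u ∈ U) (du : BS)
    (τ ϖ w dw : ℂ) {β : ℂ} (hβ : Bv m (un R u) (c u) = β)
    (hdβ : fderiv ℂ (fun u => Bv m (un R u) (c u)) u du = 0) (h1 : ‖β‖ ≤ 1)
    (h3 : ‖β‖ < 1 ∨ Sparse L) (hE : w - τ ^ M * Jf L β = 0) (c₀ dc₀ : ℂ) {r : ℝ}
    (hr1 : R'⁻¹ < r) (hr2 : r < R) :
    lc r (fun z => II m (un R u) (un R du) (un R' (hardO M k D G β τ w u) + Pi.single 0 c₀)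
      (un R' (deriv (fun s => hardO M k D G (β + s * 0) (τ + s * (ϖ * τ)) (w + s * dw)
        (u + s • du)) 0) + Pi.single 0 dc₀) (M * ϖ) 0 z * (z / (z - c u))) 0 =
      k u * c u * deriv (ser (flat m (un R u))) (c u) * (dw - M * ϖ * τ ^ M * Jf L β) := by
  have hr : 0 < r := (inv_pos.2 H.R0).trans hr1
  have hf := bnd_un R h.hR u
  have hdf := bnd_un R h.hR du
  have hcr : ‖c u‖ < r := ((h.cne u hu).2.trans h2).trans hr1
  have hφ := laur_ker_cont hcr.ne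
  have hz0 := h.cz hm hu hdβ
  have hII : ∀ g dg : BS, ContinuousOn (II m (un R u) (un R du) (un R' g) (un R' dg) (M * ϖ) 0)
      (sphere 0 r) := fun g dg =>
    (II_diff H.R0 hf hdf (bnd_un R' H.R0 g) (bnd_un R' H.R0 dg) _ 0).continuousOn.mono
      (laur_sph ⟨hr1, hr2⟩)
  obtain ⟨Λ, hΛ, hΛ'⟩ := hard_lam (m := m) H.R0 hr1 hr2 hf hdf (M * ϖ) hφ 0
  have h5 := H.core h hm hM hu du τ ϖ w dw hβ hdβ (by simp [h1]) Λ hΛ' fun l g dg hg hdg => by
    rw [hΛ, hg, hdg, lc_congr hr (fun z hz => by rw [hard_II_om H.R0 _ _ _ l _ _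
      (hard_inv_lt H.R0 hr1 hz), mul_assoc]), lc_const_mul]
    rcases Nat.eq_zero_or_pos l with rfl | hl
    · simp [ind, hL]
    · rw [(slb hm hl hr hr2 hf hdf).2 _ hcr (h.crit u hu) hz0, mul_zero]
  have hfl := hard_flat_diff hf m
  have h7 : Λ (0, G u) = c u * deriv (ser (flat m (un R u))) (c u) := by
    have h8 := lc_cauchy hr2 (differentiableOn_id.mul ((Complex.differentiableOn_dslope
      (isOpen_ball.mem_nhds (mem_ball_zero_iff.2 (h.cR hu)))).2 hfl)) hcr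
    rw [hΛ, hard_un_zero, ← dslope_same]
    refine Eq.trans (lc_congr hr (fun z hz => ?_) 0) h8
    have hz1 := laur_ne hr hz
    have hz2 : z ≠ c u := fun h9 => by
      rw [← h9, hz] at hcr
      exact hcr.false
    have hz3 := sub_ne_zero.2 hz2
    have h9 : ser (un R' (G u)) z⁻¹ = z / (z - c u) := by
      simp only [ser, H.uG u hu, ← mul_pow]
      rw [tsum_geometric_of_norm_lt_one]
      · field_simp
      · rw [norm_mul, norm_inv, hz, mul_inv_lt_iff₀ hr, one_mul]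
        exact hcr
    simp only [II, Om, h9, Pi.mul_apply, id, dslope_of_ne _ hz2, slope_def_field, h.crit u hu]
    have h10 : ∀ y : ℂ, ser (0 : ℕ → ℂ) y = 0 := fun y => by simp [ser]
    have h11 : flat m (0 : ℕ → ℂ) = 0 := funext fun i => by simp [flat]
    rw [h11, h10]
    field_simp
    ring
  have hE' := hard_E_lim h1 h3 M τ w
  rw [hE] at hE'
  have h8 : ∀ N, deriv (fun s => hardE M L N (β + s * 0) (τ + s * (ϖ * τ)) (w + s * dw) *
      k (u + s • du)) 0 = (dw - M * ϖ * τ ^ M * ∑ l ∈ Finset.range N,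
        ind ℂ L l * wal (l - 1) * β ^ l) * k u + hardE M L N β τ w * fderiv ℂ k u du := fun N => by
    have h9 := (((hard_line w dw).fun_sub ((hard_pow_line hM τ ϖ).mul_const (∑ l ∈ Finset.range N,
      ind ℂ L l * wal (l - 1) * β ^ l))).fun_mul (hard_comp (h.dkAt hu) du)).deriv
    simpa [hardE] using h9
  simp only [h7, h8] at h5
  have h9 := tendsto_nhds_unique h5 (((hE'.mul_const _).mul_const _).add
    ((((((hard_sumJ h1 h3).hasSum.tendsto_sum_nat.const_mul _).const_sub _).mul_const _).add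
      (hE'.mul_const _)).mul_const _))
  have hF : DifferentiableOn ℂ (fun z => (dc₀ - M * ϖ * c₀) * ser (flat m (un R u)) z -
      c₀ * ser (un R du) z + 0 * c₀ * ser (un R u) z) (ball 0 R) :=
    ((hfl.const_mul _).sub (hdf.diff.const_mul _)).add (hf.diff.const_mul _)
  have h10 := lc_cauchy hr2 hF hcr
  rw [lc_congr hr (fun z hz => by rw [II_const hf (bnd_un R' H.R0 _) (bnd_un R' H.R0 _) _ _ _ _
    (hz.trans_lt hr2) (hard_inv_lt H.R0 hr1 hz), add_mul]), lc_add hr ((hII _ _).fun_mul hφ)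
      ((hF.continuousOn.mono (sphere_subset_closedBall.trans
        (closedBall_subset_ball hr2))).fun_mul hφ), h10, ← hΛ (_, _), h9, h.crit u hu, hz0, Jf]
  ring

theorem HardB.f1 (H : HardB m L R R' U c k D G K₂ C θ) (h : Lap m R ρ U c k) (hL : 0 ∉ L)
    (M : ℕ) {u : BS} (hu : u ∈ U) {τ w β : ℂ} (hβ : Bv m (un R u) (c u) = β) (h1 : ‖β‖ ≤ 1)
    (h3 : ‖β‖ < 1 ∨ Sparse L) (hE : w - τ ^ M * Jf L β = 0) (n : ℕ) :
    un R' (hardO M k D G β τ w u) n = τ ^ M * sT m (ind ℂ L) (un R u) n := by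
  have h4 := ((H.apply hu h1 n).mul_right ((R' : ℂ)⁻¹ ^ n)).tsum_eq
  simp only [mul_assoc] at h4
  rw [h.split hL hu (hβ ▸ h1) (hβ ▸ h3), hardO, hard_un_lin, hβ, sub_eq_zero.1 hE]
  simp only [Pi.add_apply, Pi.smul_apply, smul_eq_mul, ← H.uG u hu, ← H.uD u hu, un]
  rw [h4]
  ring

end Pool.Agent.MP_098ecc_co.H97
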