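import Pool.Agent.MP_098ecc_co.H97.HolA

set_option autoImplicit false

namespace Pool.Agent.MP_098ecc_co.H97

open Metric Filter Topology Set Function
open scoped BoundedContinuousFunction

variable {E F : Type} [NormedAddCommGroup E] [NormedSpace ℂ E] [NormedAddCommGroup F]
  [NormedSpace ℂ F]

section RegLemmas
variable {B Z : Type} [NormedAddCommGroup B] [NormedSpace ℂ B] [NormedAddCommGroup Z]
  [NormedSpace ℂ Z]

theorem Reg.mono {U U' : Set Z} {f : B × Z → F} (h : Reg U f) (hU : U' ⊆ U) : Reg U' f :=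
  ⟨h.cont.mono (prod_mono_right hU), h.diff.mono (prod_mono_right hU),
    fun b hb => (h.frz b hb).mono hU⟩

theorem Reg.of_snd {U : Set Z} {f : Z → F} (h : DifferentiableOn ℂ f U) :
    Reg U (fun q : B × Z => f q.2) :=
  ⟨h.continuousOn.comp continuousOn_snd fun _ hq => hq.2,
    h.comp differentiableOn_snd fun _ hq => hq.2, fun _ _ => h⟩

theorem Reg.of_diff (U : Set Z) {f : B × Z → F} (h : Differentiable ℂ f) : Reg U f :=
  ⟨h.continuous.continuousOn, h.differentiableOn,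
    fun b _ => (h.comp (by fun_prop : Differentiable ℂ fun z : Z => (b, z))).differentiableOn⟩

theorem Reg.prodMk {U : Set Z} {f : B × Z → E} {g : B × Z → F} (hf : Reg U f) (hg : Reg U g) :
    Reg U (fun q => (f q, g q)) :=
  ⟨hf.cont.prodMk hg.cont, hf.diff.prodMk hg.diff, fun b hb => (hf.frz b hb).prodMk (hg.frz b hb)⟩

theorem Reg.comp {U : Set Z} {O : Set E} {f : B × Z → E} {g : E → F} (hf : Reg U f)
    (hg : DifferentiableOn ℂ g O) (hm : ∀ b ∈ closedBall (0 : B) 1, ∀ z ∈ U, f (b, z) ∈ O) :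
    Reg U (fun q => g (f q)) :=
  ⟨hg.continuousOn.comp hf.cont fun q hq => hm q.1 hq.1 q.2 hq.2,
    hg.comp hf.diff fun q hq => hm q.1 (ball_subset_closedBall hq.1) q.2 hq.2,
    fun b hb => hg.comp (hf.frz b hb) fun z hz => hm b hb z hz⟩

theorem Reg.comp₂ {U : Set Z} {U' : Set E} {f : B × Z → E} {g : B × E → F} (hf : Reg U f)
    (hg : Reg U' g) (hm : ∀ b ∈ closedBall (0 : B) 1, ∀ z ∈ U, f (b, z) ∈ U') :
    Reg U (fun q => g (q.1, f q)) :=
  ⟨hg.cont.comp (continuousOn_fst.prodMk hf.cont) fun q hq => ⟨hq.1, hm q.1 hq.1 q.2 hq.2⟩,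
    hg.diff.comp (differentiableOn_fst.prodMk hf.diff) fun q hq =>
      ⟨hq.1, hm q.1 (ball_subset_closedBall hq.1) q.2 hq.2⟩,
    fun b hb => (hg.frz b hb).comp (hf.frz b hb) fun z hz => hm b hb z hz⟩

theorem Reg.tsum [CompleteSpace F] {U : Set Z} (hU : IsOpen U) {f : ℕ → B × Z → F} {M : ℕ → ℝ}
    (hf : ∀ n, Reg U (f n)) (hM : Summable M)
    (h : ∀ n, ∀ b ∈ closedBall (0 : B) 1, ∀ z ∈ U, ‖f n (b, z)‖ ≤ M n) :
    Reg U (fun q => ∑' n, f n q) :=
  ⟨continuousOn_tsum (fun n => (hf n).cont) hM fun n q hq => h n q.1 hq.1 q.2 hq.2,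
    (hol_tsum (isOpen_ball.prod hU) (fun n => (hf n).diff) hM fun n q hq =>
      h n q.1 (ball_subset_closedBall hq.1) q.2 hq.2).1,
    fun b hb => (hol_tsum hU (fun n => (hf n).frz b hb) hM fun n z hz => h n b hb z hz).1⟩

theorem Reg.hasLine_ball {U : Set Z} (hU : IsOpen U) {f : B × Z → F} (hf : Reg U f) {b : B}
    {z : Z} (hb : b ∈ ball (0 : B) 1) (hz : z ∈ U) (dq : B × Z) :
    HasFDerivAt f (fderiv ℂ f (b, z)) (b, z) ∧
    HasLineDerivAt ℂ f (fderiv ℂ f (b, z) dq) (b, z) dq := by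
  have h := (hf.diff.differentiableAt
    ((isOpen_ball.prod hU).mem_nhds (⟨hb, hz⟩ : (b, z) ∈ ball 0 1 ×ˢ U))).hasFDerivAt
  exact ⟨h, h.hasLineDerivAt dq⟩

theorem Reg.hasLine_frz {U : Set Z} (hU : IsOpen U) {f : B × Z → F} (hf : Reg U f) {b : B}
    {z : Z} (hb : b ∈ closedBall (0 : B) 1) (hz : z ∈ U) (dz : Z) :
    HasFDerivAt (fun z => f (b, z)) (fderiv ℂ (fun z => f (b, z)) z) z ∧
    HasLineDerivAt ℂ f (fderiv ℂ (fun z => f (b, z)) z dz) (b, z) (0, dz) := by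
  have h := ((hf.frz b hb).differentiableAt (hU.mem_nhds hz)).hasFDerivAt
  refine ⟨h, ?_⟩
  have h2 := h.hasLineDerivAt dz
  simpa [HasLineDerivAt] using h2

theorem hol_frz_eq {f : B × Z → F} {q : B × Z} (h : DifferentiableAt ℂ f q) :
    fderiv ℂ (fun z => f (q.1, z)) q.2 = (fderiv ℂ f q).comp (ContinuousLinearMap.inr ℂ B Z) :=
  (h.hasFDerivAt.comp q.2 (hasFDerivAt_prodMk_right q.1 q.2)).fderiv

/-- the frozen derivative is regular -/
theorem Reg.fderiv_snd [FiniteDimensional ℂ B] [FiniteDimensional ℂ Z] [CompleteSpace F]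
    {U : Set Z} (hU : IsOpen U) {f : B × Z → F} (hf : Reg U f) :
    Reg U (fun q : B × Z => fderiv ℂ (fun z => f (q.1, z)) q.2) := by
  have hO : IsOpen (ball (0 : B) 1 ×ˢ U) := isOpen_ball.prod hU
  refine ⟨?_, ?_, fun b hb => hol_fderiv hU (hf.frz b hb)⟩
  · have := FiniteDimensional.proper ℂ B
    have := FiniteDimensional.proper ℂ Z
    rintro ⟨b₀, z₀⟩ ⟨hb₀, hz₀⟩
    obtain ⟨R, hR, hRU⟩ := Metric.nhds_basis_closedBall.mem_iff.1 (hU.mem_nhds hz₀)
    obtain ⟨r, rfl⟩ : ∃ r, R = 2 * r := ⟨R / 2, by ring⟩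
    have hr : 0 < r := by linarith
    have hK : IsCompact (closedBall (0 : B) 1 ×ˢ closedBall z₀ (2 * r)) :=
      (isCompact_closedBall _ _).prod (isCompact_closedBall _ _)
    have huc := hK.uniformContinuousOn_of_continuous (hf.cont.mono (prod_mono_right hRU))
    rw [Metric.continuousWithinAt_iff]
    intro ε hε
    obtain ⟨δ, hδ, hδ'⟩ := Metric.uniformContinuousOn_iff.1 huc (ε / 2 * r) (by positivity)
    refine ⟨min δ r, lt_min hδ hr, ?_⟩
    rintro ⟨b, z⟩ ⟨hb, hz⟩ hd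
    have hd1 : dist (b, z) (b₀, z₀) < δ := hd.trans_le (min_le_left _ _)
    have hd2 : dist z z₀ < r :=
      (le_max_right (dist b b₀) _).trans_lt (hd.trans_le (min_le_right _ _))
    have m1 : ∀ w ∈ ball (0 : Z) r, z + w ∈ closedBall z₀ (2 * r) := by
      intro w hw
      have := dist_triangle (z + w) z z₀
      rw [dist_self_add_left] at this
      rw [mem_closedBall]
      linarith [mem_ball_zero_iff.1 hw]
    have m2 : ∀ w ∈ ball (0 : Z) r, z₀ + w ∈ closedBall z₀ (2 * r) := by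
      intro w hw
      rw [mem_closedBall, dist_self_add_left]
      linarith [mem_ball_zero_iff.1 hw]
    have d1 : DifferentiableOn ℂ (fun w => f (b, z + w)) (ball 0 r) :=
      (hf.frz b hb).comp (by fun_prop) fun w hw => hRU (m1 w hw)
    have d2 : DifferentiableOn ℂ (fun w => f (b₀, z₀ + w)) (ball 0 r) :=
      (hf.frz b₀ hb₀).comp (by fun_prop) fun w hw => hRU (m2 w hw)
    have := cauchy_fderiv (M := ε / 2 * r) hr (d1.fun_sub d2) fun w hw => by
      rw [← dist_eq_norm]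
      refine (hδ' (b, z + w) ⟨hb, m1 w hw⟩ (b₀, z₀ + w) ⟨hb₀, m2 w hw⟩ ?_).le
      rwa [Prod.dist_eq, dist_add_right, ← Prod.dist_eq (x := (b, z)) (y := (b₀, z₀))]
    rw [fderiv_fun_sub (d1.differentiableAt (ball_mem_nhds _ hr))
      (d2.differentiableAt (ball_mem_nhds _ hr)),
      fderiv_comp_add_left (f := fun z => f (b, z)), fderiv_comp_add_left (f := fun z => f (b₀, z)),
      add_zero, add_zero, mul_div_assoc, div_self hr.ne', mul_one] at this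
    rw [dist_eq_norm]
    exact this.trans_lt (by linarith)
  · refine ((hol_fderiv hO hf.diff).clm_comp
      (differentiableOn_const (ContinuousLinearMap.inr ℂ B Z))).congr fun q hq => ?_
    exact hol_frz_eq (hf.diff.differentiableAt (hO.mem_nhds hq))

theorem DB.fderiv_snd [FiniteDimensional ℂ B] [FiniteDimensional ℂ Z] [CompleteSpace F]
    {U U' : Set Z} (hU : IsOpen U) {f : B × Z → F} (hf : Reg U f) {w : B → B → ℝ}
    (h : DB U (fun q => w q.1) f) {r : ℝ} (hr : 0 < r) (hU' : ∀ z ∈ U', ball z r ⊆ U) :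
    DB U' (fun q => w q.1) (fun q : B × Z => fderiv ℂ (fun z => f (q.1, z)) q.2) := by
  obtain ⟨C, hC⟩ := h
  have hO : IsOpen (ball (0 : B) 1 ×ˢ U) := isOpen_ball.prod hU
  refine ⟨C / r, fun b hb z hz db => ?_⟩
  have hzU : z ∈ U := hU' z hz (mem_ball_self hr)
  have hq : ball (0 : B) 1 ×ˢ U ∈ 𝓝 (b, z) := hO.mem_nhds ⟨hb, hzU⟩
  have hD := hol_fderiv hO hf.diff
  have hDq : HasFDerivAt (fderiv ℂ f) (fderiv ℂ (fderiv ℂ f) (b, z)) (b, z) :=
    (hD.differentiableAt hq).hasFDerivAt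
  have hψ : DifferentiableOn ℂ (fun z' => fderiv ℂ f (b, z') (db, 0)) (ball z r) := by
    refine DifferentiableOn.clm_apply ?_ (differentiableOn_const _)
    exact hD.comp (by fun_prop) fun z' hz' => ⟨hb, hU' z hz hz'⟩
  have h1 := cauchy_fderiv (M := C * w b db) hr hψ fun z' hz' => hC b hb z' (hU' z hz hz') db
  have hsym : IsSymmSndFDerivAt ℂ f (b, z) :=
    ((hol_contDiffOn hO hf.diff 2).contDiffAt hq).isSymmSndFDerivAt (by simp)
  have e1 : (fun q : B × Z => fderiv ℂ (fun z => f (q.1, z)) q.2) =ᶠ[𝓝 (b, z)]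
      fun q => (fderiv ℂ f q).comp (ContinuousLinearMap.inr ℂ B Z) := by
    filter_upwards [hq] with q hq' using hol_frz_eq (hf.diff.differentiableAt (hO.mem_nhds hq'))
  have e2 := (hDq.clm_comp (hasFDerivAt_const (ContinuousLinearMap.inr ℂ B Z) (b, z))).fderiv
  have e3 := ((hDq.comp z (hasFDerivAt_prodMk_right b z)).clm_apply
    (hasFDerivAt_const ((db, 0) : B × Z) z)).fderiv
  have e4 : fderiv ℂ (fun q : B × Z => fderiv ℂ (fun z => f (q.1, z)) q.2) (b, z) (db, 0) =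
      fderiv ℂ (fun z' => fderiv ℂ f (b, z') (db, 0)) z := by
    rw [e1.fderiv_eq, e2]
    erw [e3]
    ext dz
    simpa using hsym.eq (db, 0) (0, dz)
  rw [e4]
  exact h1.trans_eq (by ring)

theorem hol_fix {Y : Type} [NormedAddCommGroup Y] [ProperSpace Y] {T : Y → Y} {z₀ : Y} {ρ : ℝ}
    (hρ : 0 ≤ ρ) (hm : MapsTo T (closedBall z₀ ρ) (closedBall z₀ ρ))
    (hl : ∀ z ∈ closedBall z₀ ρ, ∀ w ∈ closedBall z₀ ρ, ‖T z - T w‖ ≤ 1 / 2 * ‖z - w‖) :
    ∃ y ∈ closedBall z₀ ρ, T y = y := by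
  have hc : ContinuousOn T (closedBall z₀ ρ) :=
    (LipschitzOnWith.of_dist_le' (K := 1 / 2) fun z hz w hw => by
      rw [dist_eq_norm, dist_eq_norm]; exact hl z hz w hw).continuousOn
  obtain ⟨y, hy, hmin⟩ := (isCompact_closedBall z₀ ρ).exists_isMinOn
    ⟨z₀, mem_closedBall_self hρ⟩ (hc.sub continuousOn_id).norm
  refine ⟨y, hy, ?_⟩
  have h1 : ‖T y - y‖ ≤ ‖T (T y) - T y‖ := hmin (hm hy)
  have h2 := hl _ (hm hy) _ hy
  have h3 : ‖T y - y‖ = 0 := by linarith [norm_nonneg (T y - y)]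
  exact sub_eq_zero.1 (norm_eq_zero.1 h3)

theorem hol_iter {X Y : Type} [NormedAddCommGroup Y] [ProperSpace Y] {P : Set X} {T : X → Y → Y}
    {z₀ : Y} {ρ : ℝ} (hρ : 0 ≤ ρ) (hm : ∀ p ∈ P, MapsTo (T p) (closedBall z₀ ρ) (closedBall z₀ ρ))
    (hl : ∀ p ∈ P, ∀ z ∈ closedBall z₀ ρ, ∀ w ∈ closedBall z₀ ρ,
      ‖T p z - T p w‖ ≤ 1 / 2 * ‖z - w‖) :
    ∃ (φ : X → Y) (s : ℕ → X → Y), (∀ p ∈ P, φ p ∈ closedBall z₀ ρ ∧ T p (φ p) = φ p) ∧
      s 0 = (fun _ => z₀) ∧ (∀ n, s (n + 1) = fun p => T p (s n p)) ∧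
      (∀ n, ∀ p ∈ P, s n p ∈ closedBall z₀ ρ) ∧ TendstoUniformlyOn s φ atTop P := by
  have hex : ∀ p ∈ P, ∃ y ∈ closedBall z₀ ρ, T p y = y := fun p hp => hol_fix hρ (hm p hp) (hl p hp)
  have : Nonempty Y := ⟨0⟩
  choose! φ hφ hφ' using hex
  let s : ℕ → X → Y := fun n => Nat.rec (fun _ => z₀) (fun _ u p => T p (u p)) n
  have hs : ∀ n, ∀ p ∈ P, s n p ∈ closedBall z₀ ρ ∧ ‖s n p - φ p‖ ≤ ρ * (1 / 2) ^ n := by
    intro n p hp
    induction n with
    | zero =>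
      refine ⟨mem_closedBall_self hρ, ?_⟩
      have := hφ p hp
      rw [mem_closedBall, dist_comm, dist_eq_norm] at this
      simpa [s] using this
    | succ n ih =>
      refine ⟨hm p hp ih.1, ?_⟩
      have := hl p hp _ ih.1 _ (hφ p hp)
      rw [hφ' p hp] at this
      refine this.trans ?_
      rw [pow_succ]
      linarith [ih.2]
  refine ⟨φ, s, fun p hp => ⟨hφ p hp, hφ' p hp⟩, rfl, fun _ => rfl, fun n p hp => (hs n p hp).1, ?_⟩
  rw [Metric.tendstoUniformlyOn_iff]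
  intro ε hε
  have : Tendsto (fun n : ℕ => ρ * (1 / 2 : ℝ) ^ n) atTop (𝓝 0) := by
    simpa using (tendsto_pow_atTop_nhds_zero_of_lt_one (r := (1 / 2 : ℝ)) (by norm_num)
      (by norm_num)).const_mul ρ
  filter_upwards [this.eventually (gt_mem_nhds hε)] with n hn p hp
  rw [dist_comm, dist_eq_norm]
  exact (hs n p hp).2.trans_lt hn

/-- implicit functions up to the wall -/
theorem wift {Λ : Type} [NormedAddCommGroup Λ] [NormedSpace ℂ Λ] [FiniteDimensional ℂ Λ]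
    [FiniteDimensional ℂ B] [FiniteDimensional ℂ Z] {U : Set (Λ × Z)} (hU : IsOpen U)
    {H : B × (Λ × Z) → Z} (hH : Reg U H) {b₀ : B} {l₀ : Λ} {z₀ : Z}
    (hb : b₀ ∈ closedBall (0 : B) 1) (hm : (l₀, z₀) ∈ U) (h0 : H (b₀, (l₀, z₀)) = 0)
    (hi : Injective (fderiv ℂ (fun z => H (b₀, (l₀, z))) z₀)) :
    ∀ᶠ ρ in 𝓝[>] (0 : ℝ), ∀ᶠ ε in 𝓝[>] (0 : ℝ), ball l₀ ε ×ˢ closedBall z₀ ρ ⊆ U ∧
      ∃ φ : B × Λ → Z, ContinuousOn φ ((closedBall 0 1 ∩ ball b₀ ε) ×ˢ ball l₀ ε) ∧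
        DifferentiableOn ℂ φ ((ball 0 1 ∩ ball b₀ ε) ×ˢ ball l₀ ε) ∧
        ∀ b ∈ closedBall (0 : B) 1 ∩ ball b₀ ε,
          DifferentiableOn ℂ (fun l => φ (b, l)) (ball l₀ ε) ∧ ∀ l ∈ ball l₀ ε,
            φ (b, l) ∈ ball z₀ ρ ∧
            ∀ z ∈ closedBall z₀ ρ, (H (b, (l, z)) = 0 ↔ z = φ (b, l)) := by
  have := FiniteDimensional.proper ℂ Z
  have := FiniteDimensional.complete ℂ Z
  set A := fderiv ℂ (fun z => H (b₀, (l₀, z))) z₀ with hA
  let e : Z ≃ₗ[ℂ] Z := LinearEquiv.ofInjectiveEndo (A : Z →ₗ[ℂ] Z) hi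
  let L : Z →L[ℂ] Z := LinearMap.toContinuousLinearMap (e.symm : Z →ₗ[ℂ] Z)
  have hLA : ∀ v, L (A v) = v := fun v => e.symm_apply_apply v
  have hL0 : ∀ v, L v = 0 → v = 0 := fun v hv => e.symm.map_eq_zero_iff.1 hv
  -- the derivative of the iteration map
  let D : B × (Λ × Z) → Z →L[ℂ] Z := fun q => ContinuousLinearMap.id ℂ Z -
    L.comp ((fderiv ℂ (fun y => H (q.1, y)) q.2).comp (ContinuousLinearMap.inr ℂ Λ Z))
  have hD : ∀ b ∈ closedBall (0 : B) 1, ∀ l z, (l, z) ∈ U →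
      HasFDerivAt (fun z => z - L (H (b, (l, z)))) (D (b, (l, z))) z := by
    intro b hb l z hz
    exact (hasFDerivAt_id z).sub (L.hasFDerivAt.comp z
      (((hH.frz b hb).differentiableAt (hU.mem_nhds hz)).hasFDerivAt.comp z
        (hasFDerivAt_prodMk_right l z)))
  have hD0 : D (b₀, (l₀, z₀)) = 0 := by
    have := hol_frz_eq (q := (l₀, z₀)) ((hH.frz b₀ hb).differentiableAt (hU.mem_nhds hm))
    ext v
    simp only [D, ← this]
    simp [← hA, hLA]
  have hDc : ContinuousOn D (closedBall 0 1 ×ˢ U) :=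
    continuousOn_const.sub (continuousOn_const.clm_comp
      ((hH.fderiv_snd hU).cont.clm_comp continuousOn_const))
  obtain ⟨δ₁, hδ₁, h₁⟩ := Metric.continuousWithinAt_iff.1 (hDc (b₀, (l₀, z₀)) ⟨hb, hm⟩) (1 / 2)
    (by norm_num)
  obtain ⟨δ₂, hδ₂, h₂⟩ := Metric.isOpen_iff.1 hU _ hm
  filter_upwards [Ioo_mem_nhdsGT (lt_min hδ₁ hδ₂)] with ρ hρ
  have hρ0 : 0 < ρ := hρ.1
  have hLc : ContinuousOn (fun q => L (H q)) (closedBall 0 1 ×ˢ U) :=
    L.continuous.comp_continuousOn hH.cont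
  obtain ⟨δ₃, hδ₃, h₃⟩ := Metric.continuousWithinAt_iff.1 (hLc (b₀, (l₀, z₀)) ⟨hb, hm⟩) (ρ / 4)
    (by positivity)
  filter_upwards [Ioo_mem_nhdsGT (lt_min (lt_min hδ₁ hδ₂) hδ₃)] with ε hε
  have e1 : ε < δ₁ := hε.2.trans_le ((min_le_left _ _).trans (min_le_left _ _))
  have e2 : ε < δ₂ := hε.2.trans_le ((min_le_left _ _).trans (min_le_right _ _))
  have e3 : ε < δ₃ := hε.2.trans_le (min_le_right _ _)
  have r1 : ρ < δ₁ := hρ.2.trans_le (min_le_left _ _)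
  have r2 : ρ < δ₂ := hρ.2.trans_le (min_le_right _ _)
  have hsub : ∀ l ∈ ball l₀ ε, ∀ z ∈ closedBall z₀ ρ, (l, z) ∈ U := fun l hl z hz =>
    h₂ (max_lt ((mem_ball.1 hl).trans e2) ((mem_closedBall.1 hz).trans_lt r2))
  refine ⟨fun q hq => hsub q.1 hq.1 q.2 hq.2, ?_⟩
  have hl : ∀ p ∈ (closedBall (0 : B) 1 ∩ ball b₀ ε) ×ˢ ball l₀ ε, ∀ z ∈ closedBall z₀ ρ,
      ∀ w ∈ closedBall z₀ ρ,
      ‖(z - L (H (p.1, (p.2, z)))) - (w - L (H (p.1, (p.2, w))))‖ ≤ 1 / 2 * ‖z - w‖ := by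
    intro p hp z hz w hw
    refine (convex_closedBall z₀ ρ).norm_image_sub_le_of_norm_hasFDerivWithin_le
      (f := fun z => z - L (H (p.1, (p.2, z)))) (f' := fun z => D (p.1, (p.2, z)))
      (fun y hy => (hD _ hp.1.1 _ _ (hsub _ hp.2 y hy)).hasFDerivWithinAt) (fun y hy => ?_) hw hz
    have := h₁ (x := (p.1, (p.2, y))) ⟨hp.1.1, hsub _ hp.2 y hy⟩
      (max_lt ((mem_ball.1 hp.1.2).trans e1)
        (max_lt ((mem_ball.1 hp.2).trans e1) ((mem_closedBall.1 hy).trans_lt r1)))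
    rw [hD0, dist_zero_right] at this
    exact this.le
  have hz₀ : z₀ ∈ closedBall z₀ ρ := mem_closedBall_self hρ0.le
  have hmap : ∀ p ∈ (closedBall (0 : B) 1 ∩ ball b₀ ε) ×ˢ ball l₀ ε, ∀ z ∈ closedBall z₀ ρ,
      z - L (H (p.1, (p.2, z))) ∈ ball z₀ ρ := by
    intro p hp z hz
    have a1 := hl p hp z hz z₀ hz₀
    have a2 := h₃ (x := (p.1, (p.2, z₀))) ⟨hp.1.1, hsub _ hp.2 _ hz₀⟩
      (max_lt ((mem_ball.1 hp.1.2).trans e3)
        (max_lt ((mem_ball.1 hp.2).trans e3) (by simpa using hδ₃)))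
    rw [h0, map_zero, dist_zero_right] at a2
    have a3 : ‖z - z₀‖ ≤ ρ := by rw [← dist_eq_norm]; exact hz
    rw [mem_ball, dist_eq_norm]
    have a4 : z - L (H (p.1, (p.2, z))) - z₀ = (z - L (H (p.1, (p.2, z))) -
        (z₀ - L (H (p.1, (p.2, z₀))))) - L (H (p.1, (p.2, z₀))) := by abel
    rw [a4]
    refine (norm_sub_le _ _).trans_lt ?_
    linarith
  obtain ⟨φ, s, hφ, s0, s1, hs, hT⟩ := hol_iter (T := fun (p : B × Λ) z => z - L (H (p.1, (p.2, z))))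
    hρ0.le (fun p hp z hz => ball_subset_closedBall (hmap p hp z hz)) hl
  refine ⟨φ, ?_, ?_, fun b hb' => ⟨?_, fun l hl' => ⟨?_, fun z hz => ⟨fun hz0 => ?_, ?_⟩⟩⟩⟩
  · refine hT.continuousOn (Eventually.of_forall fun n => ?_).frequently
    induction n with
    | zero => rw [s0]; exact continuousOn_const
    | succ n ih =>
      rw [s1]
      exact ih.sub (hLc.comp (continuousOn_fst.prodMk (continuousOn_snd.prodMk ih))
        fun p hp => ⟨hp.1.1, hsub _ hp.2 _ (hs n p hp)⟩)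
  · have hss : (ball (0 : B) 1 ∩ ball b₀ ε) ×ˢ ball l₀ ε ⊆
        (closedBall (0 : B) 1 ∩ ball b₀ ε) ×ˢ ball l₀ ε :=
      prod_mono_left (inter_subset_inter_left _ ball_subset_closedBall)
    refine (hol_lim ((isOpen_ball.inter isOpen_ball).prod isOpen_ball)
      (Eventually.of_forall fun n => ?_) (hT.mono hss)).1
    induction n with
    | zero => rw [s0]; exact differentiableOn_const _
    | succ n ih =>
      rw [s1]
      exact ih.sub (L.differentiable.comp_differentiableOn (hH.diff.comp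
        (differentiableOn_fst.prodMk (differentiableOn_snd.prodMk ih))
        fun p hp => ⟨hp.1.1, hsub _ hp.2 _ (hs n p (hss hp))⟩))
  · refine (hol_lim (f := fun n l => s n (b, l)) isOpen_ball (Eventually.of_forall fun n => ?_)
      ((hT.comp fun l => (b, l)).mono fun l hl' => ⟨hb', hl'⟩)).1
    induction n with
    | zero => rw [s0]; exact differentiableOn_const _
    | succ n ih =>
      rw [s1]
      exact ih.sub (L.differentiable.comp_differentiableOn ((hH.frz b hb'.1).comp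
        (differentiableOn_id.prodMk ih) fun l hl' => hsub _ hl' _ (hs n (b, l) ⟨hb', hl'⟩)))
  · have h4 := hφ (b, l) ⟨hb', hl'⟩
    rw [← h4.2]
    exact hmap (b, l) ⟨hb', hl'⟩ _ h4.1
  · have h4 := hφ (b, l) ⟨hb', hl'⟩
    have h5 := hl (b, l) ⟨hb', hl'⟩ z hz _ h4.1
    rw [h4.2] at h5
    simp only [hz0, map_zero, sub_zero] at h5
    have h6 : ‖z - φ (b, l)‖ = 0 := by linarith [norm_nonneg (z - φ (b, l))]
    exact sub_eq_zero.1 (norm_eq_zero.1 h6)
  · rintro rfl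
    exact hL0 _ (sub_eq_self.1 (hφ (b, l) ⟨hb', hl'⟩).2)

end RegLemmas

end Pool.Agent.MP_098ecc_co.H97
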