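import Pool.Agent.MP_098ecc_co.H97.Defs2

set_option autoImplicit false

namespace Pool.Agent.MP_098ecc_co.H97

open Metric Filter Topology Set Function
open scoped BoundedContinuousFunction

variable {E F : Type} [NormedAddCommGroup E] [NormedSpace ℂ E] [NormedAddCommGroup F]
  [NormedSpace ℂ F]

theorem cauchy_fderiv {f : E → F} {x : E} {r M : ℝ} (hr : 0 < r)
    (hf : DifferentiableOn ℂ f (ball x r)) (hM : ∀ y ∈ ball x r, ‖f y‖ ≤ M) :
    ‖fderiv ℂ f x‖ ≤ M / r := by
  have hM0 : 0 ≤ M := (norm_nonneg _).trans (hM x (mem_ball_self hr))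
  refine ContinuousLinearMap.opNorm_le_bound _ (by positivity) fun v => ?_
  rcases eq_or_ne v 0 with rfl | hv
  · simp
  have hv' : 0 < ‖v‖ := norm_pos_iff.2 hv
  have hfx : DifferentiableAt ℂ f x := hf.differentiableAt (ball_mem_nhds x hr)
  have hd : HasDerivAt (fun s : ℂ => f (x + s • v)) (fderiv ℂ f x v) 0 :=
    hfx.hasFDerivAt.hasLineDerivAt v
  have hmem : ∀ s : ℂ, ‖s‖ < r / ‖v‖ → x + s • v ∈ ball x r := by
    intro s hs
    rw [mem_ball, dist_eq_norm, add_sub_cancel_left, norm_smul]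
    exact (lt_div_iff₀ hv').1 hs
  have key : ∀ r' ∈ Ioo (0 : ℝ) (r / ‖v‖), ‖fderiv ℂ f x v‖ ≤ M / r' := by
    intro r' hr'
    rw [← hd.deriv]
    refine Complex.norm_deriv_le_of_forall_mem_sphere_norm_le hr'.1 ?_ ?_
    · refine DifferentiableOn.diffContOnCl ?_
      rw [closure_ball _ hr'.1.ne']
      refine hf.comp (by fun_prop) fun s hs => hmem s ?_
      exact (mem_closedBall_zero_iff.1 hs).trans_lt hr'.2
    · intro s hs
      exact hM _ (hmem s ((mem_sphere_zero_iff_norm.1 hs).le.trans_lt hr'.2))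
  have hR : 0 < r / ‖v‖ := by positivity
  have ht : Tendsto (fun r' : ℝ => M / r') (𝓝[<] (r / ‖v‖)) (𝓝 (M / (r / ‖v‖))) :=
    (tendsto_const_nhds.div tendsto_id hR.ne').mono_left nhdsWithin_le_nhds
  have := ge_of_tendsto ht (by filter_upwards [Ioo_mem_nhdsLT hR] with r' hr' using key r' hr')
  refine this.trans_eq ?_
  field_simp

omit [NormedSpace ℂ E] in
theorem hol_ball {x y : E} {r : ℝ} (hy : y ∈ ball x r) : ball y r ⊆ ball x (2 * r) := by
  intro z hz
  rw [mem_ball] at *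
  linarith [dist_triangle z y x]

theorem hol_lim [CompleteSpace F] {ι : Type} {l : Filter ι} [l.NeBot] {U : Set E} (hU : IsOpen U)
    {f : ι → E → F} {g : E → F} (hf : ∀ᶠ n in l, DifferentiableOn ℂ (f n) U)
    (h : TendstoUniformlyOn f g l U) :
    DifferentiableOn ℂ g U ∧ ∀ x ∈ U, Tendsto (fun n => fderiv ℂ (f n) x) l (𝓝 (fderiv ℂ g x)) := by
  have main : ∀ x ∈ U, ∃ A : E →L[ℂ] F, HasFDerivAt g A x ∧
      Tendsto (fun n => fderiv ℂ (f n) x) l (𝓝 A) := by
    intro x hx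
    obtain ⟨R, hR, hRU⟩ := Metric.isOpen_iff.1 hU x hx
    obtain ⟨r, rfl⟩ : ∃ r, R = 2 * r := ⟨R / 2, by ring⟩
    have hr : 0 < r := by linarith
    have hxr : x ∈ ball x r := mem_ball_self hr
    have hsub : ball x r ⊆ U := (ball_subset_ball (by linarith)).trans hRU
    have hC : UniformCauchySeqOn (fun n y => fderiv ℂ (f n) y) l (ball x r) := by
      intro u hu
      obtain ⟨ε, hε, hεu⟩ := Metric.mem_uniformity_dist.1 hu
      have h1 := h.uniformCauchySeqOn _ (Metric.dist_mem_uniformity (by positivity : 0 < ε / 2 * r))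
      filter_upwards [h1, hf.prod_mk hf] with p hp hd y hy
      refine hεu ?_
      have hyU : ball y r ⊆ U := (hol_ball hy).trans hRU
      have hn : U ∈ 𝓝 y := hU.mem_nhds (hsub hy)
      rw [dist_eq_norm, ← fderiv_fun_sub (hd.1.differentiableAt hn) (hd.2.differentiableAt hn)]
      have := cauchy_fderiv (M := ε / 2 * r) hr ((hd.1.fun_sub hd.2).mono hyU) fun z hz => by
        rw [← dist_eq_norm]; exact (hp z (hyU hz)).le
      rw [mul_div_assoc, div_self hr.ne', mul_one] at this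
      linarith
    have hex : ∀ y ∈ ball x r, ∃ A, Tendsto (fun n => fderiv ℂ (f n) y) l (𝓝 A) := fun y hy =>
      cauchy_map_iff_exists_tendsto.1 (hC.cauchy_map hy)
    choose! A hA using hex
    have hT := hC.tendstoUniformlyOn_of_tendsto hA
    refine ⟨A x, ?_, hA x hxr⟩
    refine hasFDerivAt_of_tendstoUniformlyOnFilter (l := l) (f := f)
      (f' := fun n y => fderiv ℂ (f n) y) ?_ ?_ ?_
    · exact (tendstoUniformlyOn_iff_tendstoUniformlyOnFilter.1 hT).mono_right
        (le_principal_iff.2 (ball_mem_nhds x hr))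
    · filter_upwards [hf.prod_mk (hU.mem_nhds hx : ∀ᶠ y in 𝓝 x, y ∈ U)] with p hp
      exact (hp.1.differentiableAt (hU.mem_nhds hp.2)).hasFDerivAt
    · filter_upwards [hU.mem_nhds hx] with y hy using h.tendsto_at hy
  refine ⟨fun x hx => ?_, fun x hx => ?_⟩
  · obtain ⟨A, hA, -⟩ := main x hx
    exact hA.differentiableAt.differentiableWithinAt
  · obtain ⟨A, hA, hB⟩ := main x hx
    rwa [hA.fderiv]

theorem hol_tsum [CompleteSpace F] {U : Set E} (hU : IsOpen U) {f : ℕ → E → F} {M : ℕ → ℝ}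
    (hf : ∀ n, DifferentiableOn ℂ (f n) U) (hM : Summable M) (h : ∀ n, ∀ x ∈ U, ‖f n x‖ ≤ M n) :
    DifferentiableOn ℂ (fun x => ∑' n, f n x) U ∧
      ∀ x ∈ U, HasSum (fun n => fderiv ℂ (f n) x) (fderiv ℂ (fun x => ∑' n, f n x) x) := by
  have h1 := hol_lim hU (Eventually.of_forall fun t : Finset ℕ =>
    DifferentiableOn.fun_sum fun n _ => hf n) (tendstoUniformlyOn_tsum hM fun n x hx => h n x hx)
  refine ⟨h1.1, fun x hx => ?_⟩
  have h2 := h1.2 x hx
  have h3 : ∀ t : Finset ℕ, fderiv ℂ (fun x => ∑ n ∈ t, f n x) x = ∑ n ∈ t, fderiv ℂ (f n) x :=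
    fun t => fderiv_fun_sum fun n _ => (hf n).differentiableAt (hU.mem_nhds hx)
  simp only [h3] at h2
  exact h2

theorem hol_rem {f : E → F} {x : E} {r M : ℝ} (hf : DifferentiableOn ℂ f (ball x r))
    (hM : ∀ y ∈ ball x r, ‖f y‖ ≤ M) {z : E} (hz : z ∈ ball x r) :
    ‖f z - f x - fderiv ℂ f x (z - x)‖ ≤ 3 * M * (‖z - x‖ / r) ^ 2 := by
  have hr : 0 < r := nonempty_ball.1 ⟨z, hz⟩
  have hx : x ∈ ball x r := mem_ball_self hr
  have hM0 : 0 ≤ M := (norm_nonneg _).trans (hM x hx)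
  have hc := cauchy_fderiv hr hf hM
  have hfx : DifferentiableAt ℂ f x := hf.differentiableAt (ball_mem_nhds x hr)
  have := Complex.dist_le_mul_div_pow_of_mapsTo_ball_of_isLittleO (n := 1) (R₂ := 3 * M)
    (f := fun y => f y - fderiv ℂ f x (y - x)) (c := x) (z := z) (R₁ := r)
    (hf.fun_sub (by fun_prop)) ?_ ?_ hz
  · rw [dist_eq_norm, dist_eq_norm] at this
    simp only [sub_self, map_zero, sub_zero] at this
    rwa [sub_right_comm] at this
  · intro y hy
    rw [mem_closedBall, dist_eq_norm]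
    simp only [sub_self, map_zero, sub_zero]
    have h1 : ‖fderiv ℂ f x (y - x)‖ ≤ M := by
      refine ((fderiv ℂ f x).le_opNorm _).trans ?_
      have h2 : ‖y - x‖ ≤ r := by rw [← dist_eq_norm]; exact (mem_ball.1 hy).le
      calc _ ≤ M / r * r := by gcongr
        _ = M := by field_simp
    calc _ ≤ ‖f y - fderiv ℂ f x (y - x)‖ + ‖f x‖ := norm_sub_le _ _
      _ ≤ ‖f y‖ + ‖fderiv ℂ f x (y - x)‖ + ‖f x‖ := by gcongr; exact norm_sub_le _ _
      _ ≤ 3 * M := by linarith [hM y hy, hM x hx]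
  · simp only [sub_self, map_zero, sub_zero, pow_one]
    refine (hfx.hasFDerivAt.isLittleO.congr_left fun y => ?_).norm_right
    rw [sub_right_comm]

theorem hol_op {G : Type} [NormedAddCommGroup G] [NormedSpace ℂ G] {φ : E → G →L[ℂ] F} {x : E}
    {r M : ℝ} (hr : 0 < r) (hφ : ∀ v, DifferentiableOn ℂ (fun y => φ y v) (ball x r))
    (hM : ∀ y ∈ ball x r, ‖φ y‖ ≤ M) : DifferentiableAt ℂ φ x := by
  have hM0 : 0 ≤ M := (norm_nonneg _).trans (hM x (mem_ball_self hr))
  have hd : ∀ v, DifferentiableAt ℂ (fun y => φ y v) x := fun v =>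
    (hφ v).differentiableAt (ball_mem_nhds x hr)
  have hb : ∀ v, ∀ y ∈ ball x r, ‖φ y v‖ ≤ M * ‖v‖ := fun v y hy =>
    (φ y).le_of_opNorm_le (hM y hy) v
  let B₀ : E →ₗ[ℂ] G →ₗ[ℂ] F := LinearMap.mk₂ ℂ (fun h v => fderiv ℂ (fun y => φ y v) x h)
    (fun h k v => map_add _ _ _) (fun c h v => map_smul _ _ _)
    (fun h v w => by
      simp only [map_add]
      rw [fderiv_fun_add (hd v) (hd w)]; rfl)
    (fun c h v => by
      simp only [map_smul]
      rw [fderiv_fun_const_smul (hd v)]; rfl)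
  have hB : ∀ h v, ‖B₀ h v‖ ≤ M / r * ‖h‖ * ‖v‖ := by
    intro h v
    have := (fderiv ℂ (fun y => φ y v) x).le_of_opNorm_le (cauchy_fderiv hr (hφ v) (hb v)) h
    refine this.trans_eq ?_
    ring
  refine HasFDerivAt.differentiableAt (f' := B₀.mkContinuous₂ (M / r) hB) ?_
  rw [hasFDerivAt_iff_isLittleO]
  refine Asymptotics.IsBigO.trans_isLittleO ?_
    (Asymptotics.isLittleO_pow_sub_sub x (by norm_num : 1 < 2))
  refine Asymptotics.IsBigO.of_bound (3 * M / r ^ 2) ?_
  filter_upwards [ball_mem_nhds x hr] with z hz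
  refine ContinuousLinearMap.opNorm_le_bound _ (by positivity) fun v => ?_
  refine (hol_rem (hφ v) (hb v) hz).trans_eq ?_
  rw [Real.norm_of_nonneg (by positivity)]
  field_simp

theorem hol_fderiv [CompleteSpace F] {U : Set E} (hU : IsOpen U) {f : E → F}
    (hf : DifferentiableOn ℂ f U) : DifferentiableOn ℂ (fderiv ℂ f) U := by
  intro x hx
  have hc : ContinuousAt f x := (hf.differentiableAt (hU.mem_nhds hx)).continuousAt
  have h1 : ∀ᶠ y in 𝓝 x, y ∈ U ∧ ‖f y‖ ≤ ‖f x‖ + 1 := by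
    filter_upwards [hU.mem_nhds hx, hc.norm.eventually (ge_mem_nhds (lt_add_one ‖f x‖))] with y a b
    exact ⟨a, b⟩
  obtain ⟨R, hR, hRU⟩ := Metric.eventually_nhds_iff_ball.1 h1
  obtain ⟨r, rfl⟩ : ∃ r, R = 2 * r := ⟨R / 2, by ring⟩
  have hr : 0 < r := by linarith
  set M := ‖f x‖ + 1 with hM
  have hM0 : 0 < M := by positivity
  have hd : ∀ y ∈ ball x r, DifferentiableOn ℂ f (ball y r) := fun y hy =>
    hf.mono fun z hz => (hRU z (hol_ball hy hz)).1
  have hb : ∀ y ∈ ball x r, ∀ z ∈ ball y r, ‖f z‖ ≤ M := fun y hy z hz =>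
    (hRU z (hol_ball hy hz)).2
  refine (hol_op (M := M / r) hr (fun v => ?_) fun y hy =>
    cauchy_fderiv hr (hd y hy) (hb y hy)).differentiableWithinAt
  have hsm : Tendsto (fun s : ℂ => ‖s‖ * ‖v‖) (𝓝[≠] 0) (𝓝 0) := by
    have : Tendsto (fun s : ℂ => ‖s‖ * ‖v‖) (𝓝 0) (𝓝 (‖(0 : ℂ)‖ * ‖v‖)) :=
      Continuous.tendsto (by fun_prop) 0
    simpa using this.mono_left nhdsWithin_le_nhds
  have hmem : ∀ (s : ℂ) (y : E), ‖s‖ * ‖v‖ < r → y + s • v ∈ ball y r := by
    intro s y hs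
    rwa [mem_ball, dist_eq_norm, add_sub_cancel_left, norm_smul]
  refine (hol_lim (l := 𝓝[≠] (0 : ℂ)) isOpen_ball
    (f := fun s y => s⁻¹ • (f (y + s • v) - f y)) ?_ ?_).1
  · filter_upwards [hsm.eventually (gt_mem_nhds hr)] with s hs
    refine DifferentiableOn.fun_const_smul (DifferentiableOn.fun_sub ?_ (hd x (mem_ball_self hr))) _
    exact hf.comp (by fun_prop) fun y hy => (hRU _ (hol_ball hy (hmem s y hs))).1
  · rw [Metric.tendstoUniformlyOn_iff]
    intro ε hε
    have h2 : Tendsto (fun s : ℂ => 3 * M * ‖v‖ / r ^ 2 * (‖s‖ * ‖v‖)) (𝓝[≠] 0) (𝓝 0) := by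
      simpa using hsm.const_mul (3 * M * ‖v‖ / r ^ 2)
    filter_upwards [hsm.eventually (gt_mem_nhds hr), h2.eventually (gt_mem_nhds hε),
      self_mem_nhdsWithin] with s hs hs2 hs0 y hy
    have hs0' : s ≠ 0 := hs0
    have hsn : 0 < ‖s‖ := norm_pos_iff.2 hs0'
    have h3 := hol_rem (hd y hy) (hb y hy) (hmem s y hs)
    rw [add_sub_cancel_left, map_smul, norm_smul] at h3
    have h4 : s⁻¹ • (f (y + s • v) - f y) - fderiv ℂ f y v =
        s⁻¹ • (f (y + s • v) - f y - s • fderiv ℂ f y v) := by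
      rw [smul_sub s⁻¹ (f (y + s • v) - f y), smul_smul, inv_mul_cancel₀ hs0', one_smul]
    rw [dist_comm, dist_eq_norm, h4, norm_smul, norm_inv]
    refine lt_of_le_of_lt ?_ hs2
    calc _ ≤ ‖s‖⁻¹ * (3 * M * (‖s‖ * ‖v‖ / r) ^ 2) := by gcongr
      _ = _ := by field_simp

theorem hol_contDiffOn [CompleteSpace F] {U : Set E} (hU : IsOpen U)
    {f : E → F} (hf : DifferentiableOn ℂ f U) (n : ℕ) : ContDiffOn ℂ n f U := by
  induction n generalizing F with
  | zero => simpa using hf.continuousOn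
  | succ n ih =>
    rw [Nat.cast_succ, contDiffOn_succ_iff_fderiv_of_isOpen hU]
    exact ⟨hf, by simp, ih (hol_fderiv hU hf)⟩

theorem hol_ident [CompleteSpace F] {U : Set E} (hU : IsOpen U) (hc : IsPreconnected U)
    {f : E → F} (hf : DifferentiableOn ℂ f U) {x : E} (hx : x ∈ U) (h : ∀ᶠ y in 𝓝 x, f y = 0) :
    ∀ y ∈ U, f y = 0 := by
  have hS : IsOpen {y : E | ∀ᶠ z in 𝓝 y, f z = 0} := isOpen_setOfPred_eventually_nhds
  have key := hc.subset_of_closure_inter_subset hS ⟨x, hx, h⟩ ?_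
  · exact fun y hy => (key hy).self_of_nhds
  rintro y ⟨hy, hyU⟩
  obtain ⟨r, hr, hrU⟩ := Metric.isOpen_iff.1 hU y hyU
  obtain ⟨w, hw, hwS⟩ := mem_closure_iff.1 hy _ isOpen_ball (mem_ball_self hr)
  show ∀ᶠ z in 𝓝 y, f z = 0
  filter_upwards [ball_mem_nhds y hr] with z hz
  have hγ : Continuous fun s : ℂ => w + s • (z - w) := by fun_prop
  have hT : IsOpen ((fun s : ℂ => w + s • (z - w)) ⁻¹' ball y r) := isOpen_ball.preimage hγ
  have hconv : Convex ℝ ((fun s : ℂ => w + s • (z - w)) ⁻¹' ball y r) := by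
    intro s hs t ht a b ha hb hab
    have h1 := convex_ball y r hs ht ha hb hab
    have h2 : (a : ℂ) + b = 1 := by exact_mod_cast hab
    have h3 : w + (a • s + b • t) • (z - w) = a • (w + s • (z - w)) + b • (w + t • (z - w)) := by
      rw [← Complex.coe_smul a (w + s • (z - w)), ← Complex.coe_smul b (w + t • (z - w)),
        Complex.real_smul, Complex.real_smul]
      have h4 : w = ((a : ℂ) + b) • w := by rw [h2, one_smul]
      conv_lhs => rw [h4]
      rw [← h4]
      conv_lhs => enter [1]; rw [h4]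
      module
    show w + (a • s + b • t) • (z - w) ∈ ball y r
    rwa [h3]
  have han : AnalyticOnNhd ℂ (fun s : ℂ => f (w + s • (z - w)))
      ((fun s : ℂ => w + s • (z - w)) ⁻¹' ball y r) :=
    DifferentiableOn.analyticOnNhd (hf.comp (by fun_prop) fun s hs => hrU hs) hT
  have h0 : (fun s : ℂ => f (w + s • (z - w))) =ᶠ[𝓝 0] 0 := by
    have : Tendsto (fun s : ℂ => w + s • (z - w)) (𝓝 0) (𝓝 w) := by simpa using hγ.tendsto 0
    exact this.eventually hwS
  have := han.eqOn_zero_of_preconnected_of_eventuallyEq_zero hconv.isPreconnected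
    (z₀ := 0) (by simpa using hw) h0 (x := 1) (by simpa using hz)
  simpa using this

theorem hol_det {n : ℕ} {N : E → Matrix (Fin n) (Fin n) ℂ}
    (h : ∀ i j, Differentiable ℂ fun x => N x i j) : Differentiable ℂ fun x => (N x).det := by
  simp only [Matrix.det_apply']
  refine Differentiable.fun_sum fun σ _ => Differentiable.const_mul ?_ _
  exact fun x => (HasFDerivAt.finsetProd fun i _ => (h (σ i) i x).hasFDerivAt).differentiableAt

theorem exists_adj (V : Type) [NormedAddCommGroup V] [NormedSpace ℂ V] [FiniteDimensional ℂ V] :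
    Differentiable ℂ (fun A : V →L[ℂ] V => A.det) ∧
    ∃ adj : (V →L[ℂ] V) → (V →L[ℂ] V), Differentiable ℂ adj ∧
      ∀ A v, adj A (A v) = A.det • v ∧ A (adj A v) = A.det • v := by
  classical
  let b := Module.finBasis ℂ V
  let N : (V →L[ℂ] V) → Matrix (Fin (Module.finrank ℂ V)) (Fin (Module.finrank ℂ V)) ℂ :=
    fun A => LinearMap.toMatrix b b (A : V →ₗ[ℂ] V)
  have hN : ∀ i j, Differentiable ℂ fun A => N A i j := by
    intro i j
    simp only [N, LinearMap.toMatrix_apply]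
    exact (LinearMap.toContinuousLinearMap (b.coord i)).differentiable.comp
      (ContinuousLinearMap.apply ℂ V (b j)).differentiable
  have hdet : ∀ A : V →L[ℂ] V, A.det = (N A).det := fun A => (LinearMap.det_toMatrix b _).symm
  refine ⟨by simpa only [hdet] using hol_det hN, ?_⟩
  let L : (Fin (Module.finrank ℂ V) → Fin (Module.finrank ℂ V) → ℂ) →ₗ[ℂ] (V →L[ℂ] V) :=
    (LinearMap.toContinuousLinearMap (𝕜 := ℂ) (E := V) (F' := V)).toLinearMap ∘ₗ
      (Matrix.toLin b b).toLinearMap ∘ₗ (Matrix.ofLinearEquiv ℂ).toLinearMap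
  have hL : ∀ (P : Matrix _ _ ℂ) (v : V), L (fun i j => P i j) v = Matrix.toLin b b P v :=
    fun P v => rfl
  refine ⟨fun A => L fun i j => (N A).adjugate i j, ?_, fun A v => ?_⟩
  · refine (LinearMap.toContinuousLinearMap L).differentiable.comp ?_
    refine differentiable_pi.2 fun i => differentiable_pi.2 fun j => ?_
    simp only [Matrix.adjugate_apply]
    refine hol_det fun k m => ?_
    simp only [Matrix.updateRow_apply]
    split_ifs
    · exact differentiable_const _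
    · exact hN _ _
  · have hA : ∀ u, A u = Matrix.toLin b b (N A) u := fun u => by
      simp only [N, Matrix.toLin_toMatrix]; rfl
    rw [hL, hL, hA, hA, ← Matrix.toLin_mul_apply, ← Matrix.toLin_mul_apply, Matrix.adjugate_mul,
      Matrix.mul_adjugate, hdet]
    simp

/-- coordinate vector -/
noncomputable def holE (n : ℕ) : BS :=
  BoundedContinuousFunction.ofNormedAddCommGroupDiscrete (Pi.single n (1 : ℂ)) 1 fun i => by
    rcases eq_or_ne i n with rfl | h
    · simp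
    · simp [Pi.single_eq_of_ne h]

theorem hol_trunc {u : BS} {C θ : ℝ} (h0 : 0 ≤ θ) (h1 : θ < 1) (hb : ∀ n, ‖u n‖ ≤ C * θ ^ n)
    (N : ℕ) : dist u (∑ n ∈ Finset.range N, u n • holE n) ≤ C * θ ^ N := by
  have hC : 0 ≤ C := by simpa using (norm_nonneg _).trans (hb 0)
  rw [BoundedContinuousFunction.dist_le (by positivity)]
  intro i
  have h2 : (∑ n ∈ Finset.range N, u n • holE n) i = if i ∈ Finset.range N then u i else 0 := by
    rw [BoundedContinuousFunction.sum_apply, ← Finset.sum_ite_eq]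
    refine Finset.sum_congr rfl fun n _ => ?_
    show u n • (Pi.single n (1 : ℂ) : ℕ → ℂ) i = _
    rcases eq_or_ne i n with rfl | h
    · simp
    · simp [h]
  rw [h2]
  split_ifs with h
  · rw [dist_self]; positivity
  · rw [dist_zero_right]
    refine (hb i).trans ?_
    have : N ≤ i := by simpa using h
    gcongr ?_ * ?_
    exact pow_le_pow_of_le_one h0 h1.le this

theorem hol_trunc_unif {X : Type} {U : Set X} {f : X → BS} {C θ : ℝ} (h0 : 0 ≤ θ) (h1 : θ < 1)
    (hb : ∀ x ∈ U, ∀ n, ‖f x n‖ ≤ C * θ ^ n) :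
    TendstoUniformlyOn (fun N x => ∑ n ∈ Finset.range N, f x n • holE n) f atTop U := by
  rw [Metric.tendstoUniformlyOn_iff]
  intro ε hε
  have : Tendsto (fun N : ℕ => C * θ ^ N) atTop (𝓝 0) := by
    simpa using (tendsto_pow_atTop_nhds_zero_of_lt_one h0 h1).const_mul C
  filter_upwards [this.eventually (gt_mem_nhds hε)] with N hN x hx
  exact (hol_trunc h0 h1 (hb x hx) N).trans_lt hN

/-- a sequence valued map with decaying holomorphic coordinates is holomorphic -/
theorem hol_bs {U : Set E} (hU : IsOpen U) {f : E → BS} {C θ : ℝ} (h0 : 0 ≤ θ) (h1 : θ < 1)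
    (hf : ∀ n, DifferentiableOn ℂ (fun x => f x n) U) (hb : ∀ x ∈ U, ∀ n, ‖f x n‖ ≤ C * θ ^ n) :
    DifferentiableOn ℂ f U :=
  (hol_lim hU (Eventually.of_forall fun _ => DifferentiableOn.fun_sum fun n _ =>
    (hf n).smul_const _) (hol_trunc_unif h0 h1 hb)).1

theorem cont_bs {X : Type} [TopologicalSpace X] {U : Set X} {f : X → BS} {C θ : ℝ} (h0 : 0 ≤ θ)
    (h1 : θ < 1) (hf : ∀ n, ContinuousOn (fun x => f x n) U)
    (hb : ∀ x ∈ U, ∀ n, ‖f x n‖ ≤ C * θ ^ n) : ContinuousOn f U :=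
  (hol_trunc_unif h0 h1 hb).continuousOn (Eventually.of_forall fun _ =>
    continuousOn_finsetSum _ fun n _ => (hf n).smul continuousOn_const).frequently

theorem exists_un {R : ℝ} (hR : 0 < R) {f : ℕ → ℂ} (hf : Bnd R f) : ∃ u : BS, un R u = f := by
  obtain ⟨C, hC⟩ := hf
  have hR' : (R : ℂ) ≠ 0 := by exact_mod_cast hR.ne'
  refine ⟨BoundedContinuousFunction.ofNormedAddCommGroupDiscrete (fun i => f i * (R : ℂ) ^ i) C
    fun i => ?_, funext fun i => ?_⟩
  · rw [norm_mul, norm_pow, Complex.norm_real, Real.norm_of_nonneg hR.le]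
    calc _ ≤ C * R⁻¹ ^ i * R ^ i := by gcongr; exact hC i
      _ = C := by rw [mul_assoc, ← mul_pow, inv_mul_cancel₀ hR.ne', one_pow, mul_one]
  · show f i * (R : ℂ) ^ i * (R : ℂ)⁻¹ ^ i = f i
    rw [mul_assoc, ← mul_pow, mul_inv_cancel₀ hR', one_pow, mul_one]

theorem tendsto_bs {u : ℕ → BS} {v : BS} {C θ : ℝ} (h0 : 0 ≤ θ) (h1 : θ < 1)
    (hb : ∀ k n, ‖u k n‖ ≤ C * θ ^ n) (h : ∀ n, Tendsto (fun k => u k n) atTop (𝓝 (v n))) :
    Tendsto u atTop (𝓝 v) := by
  have hv : ∀ n, ‖v n‖ ≤ C * θ ^ n := fun n => le_of_tendsto' (h n).norm fun k => hb k n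
  rw [Metric.tendsto_nhds]
  intro ε hε
  have : Tendsto (fun N : ℕ => C * θ ^ N) atTop (𝓝 0) := by
    simpa using (tendsto_pow_atTop_nhds_zero_of_lt_one h0 h1).const_mul C
  obtain ⟨N, hN⟩ := (this.eventually (gt_mem_nhds (by positivity : 0 < ε / 3))).exists
  have h2 : Tendsto (fun k => ∑ n ∈ Finset.range N, u k n • holE n) atTop
      (𝓝 (∑ n ∈ Finset.range N, v n • holE n)) :=
    tendsto_finsetSum _ fun n _ => (h n).smul_const _
  filter_upwards [Metric.tendsto_nhds.1 h2 (ε / 3) (by positivity)] with k hk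
  have h3 := hol_trunc h0 h1 (hb k) N
  have h4 := hol_trunc h0 h1 hv N
  have h5 := dist_triangle4 (u k) (∑ n ∈ Finset.range N, u k n • holE n)
    (∑ n ∈ Finset.range N, v n • holE n) v
  rw [dist_comm] at h4
  linarith

end Pool.Agent.MP_098ecc_co.H97
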