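import Pool.Agent.MP_098ecc_co.H97.Win
import Pool.Agent.MP_098ecc_co.H97.Hol

/-! Integration by parts step of the Laplace method. -/

set_option autoImplicit false

namespace Pool.Agent.MP_098ecc_co.H97

open Metric Filter Topology Set Function

theorem lapA_gauss : ∃ C : ℝ, 0 ≤ C ∧ ∀ x : ℝ, 0 < x → ∀ a b : ℝ, a ≤ b →
    ∫ θ in a..b, Real.exp (-x * θ ^ 2) ≤ C / √x := by
  refine ⟨√Real.pi, Real.sqrt_nonneg _, fun x hx a b hab => ?_⟩
  rw [intervalIntegral.integral_of_le hab, ← Real.sqrt_div Real.pi_pos.le, ← integral_gaussian]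
  exact MeasureTheory.setIntegral_le_integral (integrable_exp_neg_mul_sq hx)
    (Eventually.of_forall fun θ => (Real.exp_pos _).le)

theorem lapA_wal {l : ℕ} (hl : 1 ≤ l) :
    1 / (2 * l : ℝ) ≤ wal (l - 1) ^ 2 ∧ wal (l - 1) ^ 2 ≤ 1 / (l : ℝ) := by
  obtain ⟨n, rfl⟩ := Nat.exists_eq_add_of_le' hl
  have h := wal_sq n
  simp only [Nat.add_sub_cancel]
  push_cast
  refine ⟨le_trans ?_ h.1, h.2⟩
  exact one_div_le_one_div_of_le (by positivity) (by linarith)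

theorem lapA_exp {c : ℝ} (hc : 0 < c) : ∃ C : ℝ, 0 ≤ C ∧ ∀ l : ℕ, 1 ≤ l →
    Real.exp (-c * l) ≤ C * (wal (l - 1) / l ^ 3) := by
  refine ⟨48 / c ^ 4, by positivity, fun l hl => ?_⟩
  have hL : (1 : ℝ) ≤ l := by exact_mod_cast hl
  have hw := wal_pos (l - 1)
  have h1 : 1 / (2 * l : ℝ) ≤ wal (l - 1) := by
    refine (lapA_wal hl).1.trans ?_
    have := win_wal_le (l - 1)
    nlinarith
  have h2 := Real.pow_div_factorial_le_exp (c * l) (by positivity) 4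
  have h3 : Real.exp (-c * l) ≤ 24 / (c * l) ^ 4 := by
    rw [neg_mul, Real.exp_neg, inv_eq_one_div, div_le_div_iff₀ (Real.exp_pos _) (by positivity)]
    have : ((Nat.factorial 4 : ℕ) : ℝ) = 24 := by norm_num [Nat.factorial]
    rw [this, div_le_iff₀ (by norm_num)] at h2
    linarith
  refine h3.trans ?_
  calc 24 / (c * l) ^ 4 = 48 / c ^ 4 * (1 / (2 * l : ℝ) / l ^ 3) := by field_simp; norm_num
    _ ≤ 48 / c ^ 4 * (wal (l - 1) / l ^ 3) := by gcongr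

/-- the hypotheses on the phase -/
structure LapH (δ K γ : ℝ) (φ : ℂ → ℂ) : Prop where
  d : DifferentiableOn ℂ φ (ball 0 δ)
  bd : ∀ θ ∈ ball (0 : ℂ) δ, ‖φ θ‖ ≤ K ∧ γ * ‖θ‖ ≤ ‖deriv φ θ‖
  one : φ 0 = 1
  zero : deriv φ 0 = 0
  re : ∀ θ : ℝ, |θ| < δ → ‖φ θ‖ ≤ Real.exp (-γ * θ ^ 2)

noncomputable def lapE (φ h : ℂ → ℂ) : ℂ → ℂ :=
  fun θ => dslope h 0 θ * φ θ / dslope (deriv φ) 0 θ

noncomputable def lapD (φ h : ℂ → ℂ) : ℂ → ℂ := deriv (lapE φ h)

noncomputable def lapI (s : ℝ) (φ h : ℂ → ℂ) (l : ℕ) : ℂ := ∫ θ in -s..s, h θ * φ θ ^ l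

variable {δ K γ : ℝ} {φ : ℂ → ℂ}

theorem LapH.dψ (H : LapH δ K γ φ) (hδ : 0 < δ) :
    DifferentiableOn ℂ (dslope (deriv φ) 0) (ball 0 δ) :=
  (Complex.differentiableOn_dslope (ball_mem_nhds _ hδ)).2 (H.d.deriv isOpen_ball)

theorem LapH.lψ (H : LapH δ K γ φ) (hδ : 0 < δ) {θ : ℂ} (hθ : θ ∈ ball (0 : ℂ) δ) :
    γ ≤ ‖dslope (deriv φ) 0 θ‖ := by
  have key : ∀ θ ∈ ball (0 : ℂ) δ, θ ≠ 0 → γ ≤ ‖dslope (deriv φ) 0 θ‖ := by
    intro θ hθ h0
    rw [dslope_of_ne _ h0, slope_def_field, H.zero, sub_zero, sub_zero, norm_div,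
      le_div_iff₀ (norm_pos_iff.2 h0)]
    exact (H.bd θ hθ).2
  rcases eq_or_ne θ 0 with rfl | h0
  · have hc : ContinuousAt (dslope (deriv φ) 0) 0 :=
      ((H.dψ hδ).differentiableAt (ball_mem_nhds _ hδ)).continuousAt
    refine ge_of_tendsto (hc.norm.tendsto.mono_left (nhdsWithin_le_nhds (s := {0}ᶜ))) ?_
    filter_upwards [self_mem_nhdsWithin, nhdsWithin_le_nhds (ball_mem_nhds (0 : ℂ) hδ)]
      with z hz hz' using key z hz' hz
  · exact key θ hθ h0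

theorem LapH.oneK (H : LapH δ K γ φ) (hδ : 0 < δ) : 1 ≤ K := by
  have := (H.bd 0 (mem_ball_self hδ)).1
  rwa [H.one, norm_one] at this

theorem LapH.dE (H : LapH δ K γ φ) (hγ : 0 < γ) {r : ℝ} (hr : 0 < r) (hrδ : r ≤ δ) {h : ℂ → ℂ}
    (hh : DifferentiableOn ℂ h (ball 0 r)) : DifferentiableOn ℂ (lapE φ h) (ball 0 r) := by
  have hδ := hr.trans_le hrδ
  have hs : ball (0 : ℂ) r ⊆ ball 0 δ := ball_subset_ball hrδ
  refine (((Complex.differentiableOn_dslope (ball_mem_nhds _ hr)).2 hh).mul (H.d.mono hs)).div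
    ((H.dψ hδ).mono hs) fun θ hθ => ?_
  exact norm_pos_iff.1 (hγ.trans_le (H.lψ hδ (hs hθ)))

theorem LapH.bE (H : LapH δ K γ φ) (hγ : 0 < γ) {r : ℝ} (hr : 0 < r) (hrδ : r ≤ δ) {h : ℂ → ℂ}
    {M : ℝ} (hh : DifferentiableOn ℂ h (ball 0 r)) (hM : ∀ θ ∈ ball (0 : ℂ) r, ‖h θ‖ ≤ M)
    {θ : ℂ} (hθ : θ ∈ ball (0 : ℂ) r) : ‖lapE φ h θ‖ ≤ 2 * K / (r * γ) * M := by
  have hδ := hr.trans_le hrδ
  have hs : ball (0 : ℂ) r ⊆ ball 0 δ := ball_subset_ball hrδ
  have hM0 : 0 ≤ M := (norm_nonneg _).trans (hM 0 (mem_ball_self hr))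
  have h1 : ‖dslope h 0 θ‖ ≤ 2 * M / r := by
    refine Complex.norm_dslope_le_div_of_mapsTo_ball hh (fun z hz => ?_) hθ
    rw [mem_closedBall, dist_eq_norm]
    have := hM z hz
    have := hM 0 (mem_ball_self hr)
    linarith [norm_sub_le (h z) (h 0)]
  have h2 := (H.bd θ (hs hθ)).1
  have h3 := H.lψ hδ (hs hθ)
  have hK := H.oneK hδ
  rw [lapE, norm_div, norm_mul]
  calc _ ≤ 2 * M / r * K / γ := by gcongr
    _ = _ := by field_simp

theorem LapH.parts (H : LapH δ K γ φ) (hγ : 0 < γ) {r s : ℝ} (hs : 0 < s) (hsr : s < r)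
    (hrδ : r ≤ δ) {h : ℂ → ℂ} (hh : DifferentiableOn ℂ h (ball 0 r)) (l : ℕ) :
    l * (lapI s φ h l - h 0 * lapI s φ 1 l) + lapI s φ (lapD φ h) l =
      lapE φ h s * φ s ^ l - lapE φ h (-s : ℝ) * φ (-s : ℝ) ^ l := by
  have hr := hs.trans hsr
  have hδ := hr.trans_le hrδ
  have hsub : ball (0 : ℂ) r ⊆ ball 0 δ := ball_subset_ball hrδ
  have hmem : ∀ x ∈ uIcc (-s) s, (x : ℂ) ∈ ball (0 : ℂ) r := by
    intro x hx
    rw [uIcc_of_le (by linarith)] at hx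
    rw [mem_ball_zero_iff, Complex.norm_real, Real.norm_eq_abs]
    exact (abs_le.2 hx).trans_lt hsr
  have hE := H.dE hγ hr hrδ hh
  have hint : ∀ g : ℂ → ℂ, DifferentiableOn ℂ g (ball 0 r) →
      IntervalIntegrable (fun x : ℝ => g x * φ x ^ l) MeasureTheory.volume (-s) s := by
    intro g hg
    refine ContinuousOn.intervalIntegrable ?_
    exact (hg.mul ((H.d.mono hsub).pow l)).continuousOn.comp Complex.continuous_ofReal.continuousOn
      hmem
  have i1 := hint h hh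
  have i2 := hint 1 (differentiableOn_const _)
  have i3 := hint (lapD φ h) (hE.deriv isOpen_ball)
  have hder : ∀ x ∈ uIcc (-s) s, HasDerivAt (fun x : ℝ => lapE φ h x * φ x ^ l)
      (l * (h x * φ x ^ l - h 0 * ((1 : ℂ → ℂ) x * φ x ^ l)) + lapD φ h x * φ x ^ l) x := by
    intro x hx
    have hx' := hmem x hx
    have d1 := (hE.differentiableAt (isOpen_ball.mem_nhds hx')).hasDerivAt
    have d2 := (H.d.differentiableAt (isOpen_ball.mem_nhds (hsub hx'))).hasDerivAt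
    have d3 := (d1.mul (d2.pow l)).comp_ofReal
    refine d3.congr_deriv ?_
    have hψ : dslope (deriv φ) 0 x ≠ 0 := norm_pos_iff.1 (hγ.trans_le (H.lψ hδ (hsub hx')))
    have e1 : deriv φ x = x * dslope (deriv φ) 0 x := by
      have := sub_smul_dslope (deriv φ) 0 x
      rw [H.zero, sub_zero, sub_zero, smul_eq_mul] at this
      exact this.symm
    have e2 : h x = h 0 + x * dslope h 0 x := by
      have := sub_smul_dslope h 0 x
      rw [sub_zero, smul_eq_mul] at this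
      rw [this]; ring
    rw [e1, e2]
    simp only [lapD, lapE, Pi.one_apply, Pi.pow_apply]
    generalize deriv (fun θ => dslope h 0 θ * φ θ / dslope (deriv φ) 0 θ) x = D
    rcases l with _ | l
    · simp
    · simp only [Nat.add_sub_cancel]
      field_simp
      ring
  have := intervalIntegral.integral_eq_sub_of_hasDerivAt hder
    (((i1.sub (i2.const_mul _)).const_mul _).add i3)
  rw [← this, intervalIntegral.integral_add ((i1.sub (i2.const_mul _)).const_mul _) i3,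
    intervalIntegral.integral_const_mul, intervalIntegral.integral_sub i1 (i2.const_mul _),
    intervalIntegral.integral_const_mul]
  rfl

theorem lapA_step (K : ℝ) (hγ : 0 < γ) {r s : ℝ} (hs : 0 < s) (hsr : s < r) (hrδ : r ≤ δ) :
    ∃ A : ℝ, 0 ≤ A ∧ ∀ φ, LapH δ K γ φ → ∀ (h : ℂ → ℂ) (M : ℝ),
      DifferentiableOn ℂ h (ball 0 r) → (∀ θ ∈ ball (0 : ℂ) r, ‖h θ‖ ≤ M) →
      DifferentiableOn ℂ (lapD φ h) (ball 0 (r / 2)) ∧
      (∀ θ ∈ ball (0 : ℂ) (r / 2), ‖lapD φ h θ‖ ≤ A * M) ∧ ∀ l : ℕ, 1 ≤ l →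
        ‖l * (lapI s φ h l - h 0 * lapI s φ 1 l) + lapI s φ (lapD φ h) l‖ ≤
          A * M * (wal (l - 1) / l ^ 3) := by
  have hr := hs.trans hsr
  have hδ := hr.trans_le hrδ
  obtain ⟨C, hC0, hC⟩ := lapA_exp (c := γ * s ^ 2) (by positivity)
  refine ⟨2 * |K| / (r * γ) * (2 / r + 2 * C), by positivity, fun φ H h M hh hM => ?_⟩
  have hK := H.oneK hδ
  rw [abs_of_nonneg (by linarith)]
  have hM0 : 0 ≤ M := (norm_nonneg _).trans (hM 0 (mem_ball_self hr))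
  have hE := H.dE hγ hr hrδ hh
  have hB : 0 ≤ 2 * K / (r * γ) := by positivity
  have hb : ∀ θ ∈ ball (0 : ℂ) r, ‖lapE φ h θ‖ ≤ 2 * K / (r * γ) * M :=
    fun θ hθ => H.bE hγ hr hrδ hh hM hθ
  generalize 2 * K / (r * γ) = B at hB hb
  refine ⟨(hE.deriv isOpen_ball).mono (ball_subset_ball (by linarith)), fun θ hθ => ?_,
    fun l hl => ?_⟩
  · have hsub : ball θ (r / 2) ⊆ ball 0 r := by
      have := hol_ball hθ
      rwa [mul_div_cancel₀ _ two_ne_zero] at this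
    have := cauchy_fderiv (by positivity) (hE.mono hsub) fun y hy => hb y (hsub hy)
    rw [lapD, norm_deriv_eq_norm_fderiv]
    refine this.trans ?_
    have e : B * M / (r / 2) = B * (2 / r) * M := by field_simp
    rw [e]
    gcongr
    linarith
  · rw [H.parts hγ hs hsr hrδ hh]
    have hw := wal_pos (l - 1)
    have key : ∀ x : ℝ, |x| = s → ‖lapE φ h x * φ x ^ l‖ ≤ B * M * (C * (wal (l - 1) / l ^ 3)) := by
      intro x hx
      have h1 := hb x (by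
        rw [mem_ball_zero_iff, Complex.norm_real, Real.norm_eq_abs, hx]; exact hsr)
      have h2 := H.re x (by rw [hx]; linarith)
      have h3 : ‖φ x‖ ^ l ≤ Real.exp (-(γ * s ^ 2) * l) := by
        rw [mul_comm _ (l : ℝ), Real.exp_nat_mul, ← hx, sq_abs, ← neg_mul]
        gcongr
      rw [norm_mul, norm_pow]
      exact mul_le_mul h1 (h3.trans (hC l hl)) (by positivity) (by positivity)
    have k1 := key s (abs_of_pos hs)
    have k2 := key (-s) (by rw [abs_neg, abs_of_pos hs])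
    refine (norm_sub_le _ _).trans ((add_le_add k1 k2).trans ?_)
    have e : B * M * (C * (wal (l - 1) / l ^ 3)) + B * M * (C * (wal (l - 1) / l ^ 3)) =
        B * (2 * C) * M * (wal (l - 1) / l ^ 3) := by ring
    rw [e]
    gcongr
    have : 0 ≤ 2 / r := by positivity
    linarith

theorem lapA_bd (hγ : 0 < γ) : ∃ A : ℝ, 0 ≤ A ∧ ∀ (δ K : ℝ) (φ : ℂ → ℂ), LapH δ K γ φ →
    ∀ r s : ℝ, 0 < s → s < r → r ≤ δ → ∀ (h : ℂ → ℂ) (M : ℝ),
      (∀ θ ∈ ball (0 : ℂ) r, ‖h θ‖ ≤ M) → ∀ l : ℕ, 1 ≤ l →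
        ‖lapI s φ h l‖ ≤ A * M * wal (l - 1) := by
  obtain ⟨C, hC0, hC⟩ := lapA_gauss
  refine ⟨C * √(2 / γ), by positivity, fun δ K φ H r s hs hsr hrδ h M hM l hl => ?_⟩
  have hL : (1 : ℝ) ≤ l := by exact_mod_cast hl
  have hM0 : 0 ≤ M := (norm_nonneg _).trans (hM 0 (mem_ball_self (hs.trans hsr)))
  have hw := wal_pos (l - 1)
  have h1 : ‖lapI s φ h l‖ ≤ ∫ θ in -s..s, M * Real.exp (-(γ * l) * θ ^ 2) := by
    refine intervalIntegral.norm_integral_le_of_norm_le (by linarith)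
      (Eventually.of_forall fun x hx => ?_) (Continuous.intervalIntegrable (by fun_prop) _ _)
    have hx' : |x| < r := (abs_le.2 ⟨hx.1.le, hx.2⟩).trans_lt hsr
    have h1 := hM x (by rwa [mem_ball_zero_iff, Complex.norm_real, Real.norm_eq_abs])
    have h2 := H.re x (by linarith)
    have h3 : ‖φ x‖ ^ l ≤ Real.exp (-(γ * l) * x ^ 2) := by
      rw [show -(γ * l) * x ^ 2 = l * (-γ * x ^ 2) by ring, Real.exp_nat_mul]
      gcongr
    rw [norm_mul, norm_pow]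
    gcongr
  rw [intervalIntegral.integral_const_mul] at h1
  have h2 := hC (γ * l) (by positivity) (-s) s (by linarith)
  have h3 : 1 / √(γ * l) ≤ √(2 / γ) * wal (l - 1) := by
    rw [← Real.sqrt_sq hw.le, ← Real.sqrt_mul (by positivity), one_div, ← Real.sqrt_inv]
    refine Real.sqrt_le_sqrt ?_
    calc (γ * l)⁻¹ = 2 / γ * (1 / (2 * l : ℝ)) := by field_simp
      _ ≤ _ := by gcongr; exact (lapA_wal hl).1
  calc _ ≤ M * (C / √(γ * l)) := h1.trans (by gcongr)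
    _ = M * C * (1 / √(γ * l)) := by ring
    _ ≤ M * C * (√(2 / γ) * wal (l - 1)) := by gcongr
    _ = _ := by ring

end Pool.Agent.MP_098ecc_co.H97
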