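import Pool.Agent.MP_098ecc_co.H97.LapAA

/-! Sequence lemmas and the Gaussian limit for the Laplace method. -/

set_option autoImplicit false

namespace Pool.Agent.MP_098ecc_co.H97

open Metric Filter Topology Set Function

theorem lapA_tel {t : ℕ → ℂ} {u : ℕ → ℝ} (hu : ∀ n, 0 ≤ u n)
    (h : ∀ n, 1 ≤ n → ‖t (n + 1) - t n‖ ≤ u n - u (n + 1)) {n m : ℕ} (hn : 1 ≤ n) (hm : n ≤ m) :
    ‖t m - t n‖ ≤ u n := by
  have key : ‖t m - t n‖ ≤ u n - u m := by
    induction m, hm using Nat.le_induction with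
    | base => simp
    | succ m hm ih =>
      have := h m (hn.trans hm)
      have e : t (m + 1) - t n = (t (m + 1) - t m) + (t m - t n) := by ring
      rw [e]
      linarith [norm_add_le (t (m + 1) - t m) (t m - t n)]
  linarith [hu m]

theorem lapA_lim {t : ℕ → ℂ} {u : ℕ → ℝ} (hu : ∀ n, 0 ≤ u n)
    (h : ∀ n, 1 ≤ n → ‖t (n + 1) - t n‖ ≤ u n - u (n + 1)) {κ : ℂ} (ht : Tendsto t atTop (𝓝 κ))
    {n : ℕ} (hn : 1 ≤ n) : ‖t n - κ‖ ≤ u n := by
  rw [norm_sub_rev]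
  refine le_of_tendsto (ht.sub_const (t n)).norm ?_
  filter_upwards [eventually_ge_atTop n] with m hm using lapA_tel hu h hn hm

theorem lapA_seq {B : ℝ} (hB : 1 ≤ B) {r : ℕ → ℂ} {d : ℂ} (hr : ∀ l, 1 ≤ l → ‖r l‖ ≤ B)
    (hd : ‖d‖ ≤ B) (h : ∀ l : ℕ, 1 ≤ l → ‖r (l + 1) - r l - d * r l / l ^ 2‖ ≤ B / l ^ 3) :
    ∃ κ : ℂ, Tendsto r atTop (𝓝 κ) ∧ ‖κ‖ ≤ B ∧
      ∀ l : ℕ, 1 ≤ l → ‖r l - κ + d * κ / l‖ ≤ 12 * B ^ 3 / l ^ 2 := by
  have h1 : ∀ n : ℕ, 1 ≤ n → ‖r (n + 1) - r n‖ ≤ 4 * B ^ 2 / n - 4 * B ^ 2 / (n + 1 : ℕ) := by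
    intro n hn
    have hL : (1 : ℝ) ≤ n := by exact_mod_cast hn
    have e : r (n + 1) - r n = (r (n + 1) - r n - d * r n / n ^ 2) + d * r n / n ^ 2 := by ring
    have a1 : ‖d * r n / n ^ 2‖ ≤ B * B / n ^ 2 := by
      rw [norm_div, norm_mul, norm_pow, Complex.norm_natCast]
      gcongr
      exact hr n hn
    have a2 : B / (n : ℝ) ^ 3 ≤ B * B / n ^ 2 := by
      refine div_le_div₀ (by positivity) (by nlinarith) (by positivity) ?_
      exact pow_le_pow_right₀ hL (by norm_num)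
    rw [e]
    refine (norm_add_le _ _).trans ((add_le_add ((h n hn).trans a2) a1).trans ?_)
    push_cast
    have e1 : 4 * B ^ 2 / n - 4 * B ^ 2 / (n + 1 : ℝ) = 4 * B ^ 2 / (n * (n + 1)) := by
      field_simp; ring
    have e2 : B * B / (n : ℝ) ^ 2 + B * B / n ^ 2 = 4 * B ^ 2 / (n * (n + n)) := by
      field_simp; ring
    rw [e1, e2]
    gcongr
  have hu : ∀ n : ℕ, 0 ≤ 4 * B ^ 2 / (n : ℝ) := fun n => by positivity
  have hc : CauchySeq r := by
    rw [← cauchySeq_shift 1]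
    refine cauchySeq_of_le_tendsto_0' (fun n => 4 * B ^ 2 / ((n + 1 : ℕ) : ℝ)) (fun n m hnm => ?_)
      ((tendsto_const_div_atTop_nhds_zero_nat _).comp (tendsto_add_atTop_nat 1))
    rw [dist_comm, dist_eq_norm]
    exact lapA_tel (u := fun n => 4 * B ^ 2 / (n : ℝ)) hu h1 (by omega) (by omega)
  obtain ⟨κ, hκ⟩ := cauchySeq_tendsto_of_complete hc
  have hκB : ‖κ‖ ≤ B := le_of_tendsto hκ.norm (by
    filter_upwards [eventually_ge_atTop 1] with l hl using hr l hl)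
  have h2 : ∀ n : ℕ, 1 ≤ n → ‖r n - κ‖ ≤ 4 * B ^ 2 / n := fun n hn =>
    lapA_lim (u := fun n => 4 * B ^ 2 / (n : ℝ)) hu h1 hκ hn
  refine ⟨κ, hκ, hκB, fun l hl => ?_⟩
  have ht : Tendsto (fun n : ℕ => r n - κ + d * κ / n) atTop (𝓝 0) := by
    have := (hκ.sub_const κ).add (tendsto_const_div_atTop_nhds_zero_nat (d * κ))
    simpa using this
  have := lapA_lim (t := fun n : ℕ => r n - κ + d * κ / n)
    (u := fun n : ℕ => 12 * B ^ 3 / (n : ℝ) ^ 2) (fun n => by positivity) (fun n hn => ?_) ht hl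
  · simpa using this
  have hL : (1 : ℝ) ≤ n := by exact_mod_cast hn
  have hn0 : (n : ℂ) ≠ 0 := by exact_mod_cast (by omega : n ≠ 0)
  have hn1 : (n : ℂ) + 1 ≠ 0 := by exact_mod_cast (by omega : n + 1 ≠ 0)
  have e : r (n + 1) - κ + d * κ / (n + 1 : ℕ) - (r n - κ + d * κ / n) =
      (r (n + 1) - r n - d * r n / n ^ 2) + d * (r n - κ) / n ^ 2 +
        d * κ / (n ^ 2 * (n + 1 : ℕ)) := by
    push_cast
    field_simp
    ring
  have a1 : ‖d * (r n - κ) / n ^ 2‖ ≤ B * (4 * B ^ 2 / n) / n ^ 2 := by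
    rw [norm_div, norm_mul, norm_pow, Complex.norm_natCast]
    gcongr
    exact h2 n hn
  have a2 : ‖d * κ / (n ^ 2 * (n + 1 : ℕ))‖ ≤ B * B / (n ^ 2 * n) := by
    rw [norm_div, norm_mul, norm_mul, norm_pow, Complex.norm_natCast, Complex.norm_natCast]
    gcongr
    omega
  rw [e]
  refine (norm_add₃_le).trans ((add_le_add (add_le_add (h n hn) a1) a2).trans ?_)
  push_cast
  have e1 : B / (n : ℝ) ^ 3 + B * (4 * B ^ 2 / n) / n ^ 2 + B * B / (n ^ 2 * n) =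
      (B + 4 * B ^ 3 + B ^ 2) / n ^ 3 := by field_simp
  have e2 : 12 * B ^ 3 / (n : ℝ) ^ 2 - 12 * B ^ 3 / (n + 1 : ℝ) ^ 2 =
      6 * B ^ 3 * ((4 * n + 2) * n / (n + 1) ^ 2) / n ^ 3 := by field_simp; ring
  rw [e1, e2]
  gcongr
  have b1 : B ≤ B ^ 3 := le_self_pow₀ hB (by norm_num)
  have b2 : B ^ 2 ≤ B ^ 3 := pow_le_pow_right₀ hB (by norm_num)
  have b3 : (1 : ℝ) ≤ (4 * n + 2) * n / (n + 1) ^ 2 := by
    rw [le_div_iff₀ (by positivity)]; nlinarith
  have b4 : 0 ≤ B ^ 3 := by positivity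
  nlinarith

variable {δ K γ : ℝ} {φ : ℂ → ℂ}

theorem LapH.du (H : LapH δ K γ φ) (hδ : 0 < δ) : DifferentiableOn ℂ (dslope φ 0) (ball 0 δ) :=
  (Complex.differentiableOn_dslope (ball_mem_nhds _ hδ)).2 H.d

theorem LapH.eq (H : LapH δ K γ φ) (z : ℂ) : φ z = 1 + z * dslope φ 0 z := by
  have := sub_smul_dslope φ 0 z
  rw [sub_zero, smul_eq_mul, H.one] at this
  rw [this]; ring

theorem LapH.two (H : LapH δ K γ φ) (hδ : 0 < δ) :
    deriv (deriv φ) 0 = 2 * deriv (dslope φ 0) 0 := by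
  have hu := H.du hδ
  have h1 : deriv φ =ᶠ[𝓝 0] fun z => dslope φ 0 z + z * deriv (dslope φ 0) z := by
    filter_upwards [ball_mem_nhds (0 : ℂ) hδ] with z hz
    have d := (hu.differentiableAt (isOpen_ball.mem_nhds hz)).hasDerivAt
    have := ((hasDerivAt_id z).mul d).const_add 1
    have e : φ = fun z => 1 + ((id : ℂ → ℂ) * dslope φ 0) z := funext fun z => H.eq z
    conv_lhs => rw [e]
    rw [this.deriv]
    simp
  rw [h1.deriv_eq]
  have d1 := (hu.differentiableAt (ball_mem_nhds _ hδ)).hasDerivAt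
  have d2 := ((hu.deriv isOpen_ball).differentiableAt (ball_mem_nhds _ hδ)).hasDerivAt
  have := (d1.add ((hasDerivAt_id 0).mul d2)).deriv
  refine Eq.trans ?_ (this.trans ?_)
  · rfl
  · simp; ring

theorem LapH.half (H : LapH δ K γ φ) (hδ : 0 < δ) (hγ : 0 < γ) :
    lapD φ (fun z => φ z - 1) 0 = 1 / 2 := by
  have e : dslope (fun z => φ z - 1) 0 = dslope φ 0 := by
    funext z
    rcases eq_or_ne z 0 with rfl | hz
    · simp
    · rw [dslope_of_ne _ hz, dslope_of_ne _ hz, slope_def_field, slope_def_field]; ring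
  have hψ : dslope (deriv φ) 0 0 ≠ 0 :=
    norm_pos_iff.1 (hγ.trans_le (H.lψ hδ (mem_ball_self hδ)))
  have d1 := ((H.du hδ).differentiableAt (ball_mem_nhds _ hδ)).hasDerivAt
  have d2 := (H.d.differentiableAt (ball_mem_nhds _ hδ)).hasDerivAt
  have d3 := ((H.dψ hδ).differentiableAt (ball_mem_nhds _ hδ)).hasDerivAt
  have := ((d1.mul d2).div d3 hψ).deriv
  unfold lapD lapE
  rw [e]
  refine Eq.trans ?_ (this.trans ?_)
  · rfl
  · simp only [Pi.mul_apply, dslope_same, H.zero, H.one] at hψ ⊢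
    rw [H.two hδ] at hψ ⊢
    have : deriv (dslope φ 0) 0 ≠ 0 := fun h => hψ (by rw [h, mul_zero])
    field_simp
    ring

theorem LapH.gauss (H : LapH δ K γ φ) (hγ : 0 < γ) {s : ℝ} (hs : 0 < s) (hsδ : s < δ) :
    ∃ G : ℂ, G ≠ 0 ∧ Tendsto (fun l : ℕ => (√l : ℝ) * lapI s φ 1 l) atTop (𝓝 G) := by
  have hδ := hs.trans hsδ
  set b := deriv (dslope φ 0) 0 with hb
  have hsq : Tendsto (fun l : ℕ => √(l : ℝ)) atTop atTop :=
    Real.tendsto_sqrt_atTop.comp tendsto_natCast_atTop_atTop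
  have hz : ∀ x : ℝ, Tendsto (fun l : ℕ => x / √(l : ℝ)) atTop (𝓝 0) := fun x =>
    tendsto_const_nhds.div_atTop hsq
  have hpt : ∀ x : ℝ, Tendsto (fun l : ℕ => φ (x / √(l : ℝ) : ℝ) ^ l) atTop
      (𝓝 (Complex.exp (-(-b) * x ^ 2))) := by
    intro x
    have hv : ContinuousAt (dslope (dslope φ 0) 0) 0 :=
      (((Complex.differentiableOn_dslope (ball_mem_nhds _ hδ)).2 (H.du hδ)).differentiableAt
        (ball_mem_nhds _ hδ)).continuousAt
    have h0 : Tendsto (fun l : ℕ => ((x / √(l : ℝ) : ℝ) : ℂ)) atTop (𝓝 0) :=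
      (Complex.continuous_ofReal.tendsto 0).comp (hz x)
    have h1 := (hv.tendsto.comp h0).mul_const ((x : ℂ) ^ 2)
    rw [dslope_same, ← hb, ← neg_neg b] at h1
    have h2 := Complex.tendsto_one_add_pow_exp_of_tendsto
      (g := fun l : ℕ => φ (x / √(l : ℝ) : ℝ) - 1) (h1.congr' ?_)
    · simpa using h2
    filter_upwards [eventually_ge_atTop 1] with l hl
    have hL : (0 : ℝ) < l := by exact_mod_cast hl
    have e1 := H.eq (x / √(l : ℝ) : ℝ)
    have e2 := sub_smul_dslope (dslope φ 0) 0 (x / √(l : ℝ) : ℝ)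
    rw [dslope_same, H.zero, sub_zero, sub_zero, smul_eq_mul] at e2
    have e3 : ((l : ℝ) * (x / √(l : ℝ)) ^ 2) = x ^ 2 := by
      rw [div_pow, Real.sq_sqrt hL.le]; field_simp
    have e4 : (l : ℂ) * ((x / √(l : ℝ) : ℝ) : ℂ) ^ 2 = (x : ℂ) ^ 2 := by exact_mod_cast e3
    rw [e1, ← e2, ← e4, comp_apply]
    ring
  have hbd : ∀ (l : ℕ) (x : ℝ), 1 ≤ l → |x / √(l : ℝ)| < δ →
      ‖φ (x / √(l : ℝ) : ℝ) ^ l‖ ≤ Real.exp (-γ * x ^ 2) := by
    intro l x hl hx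
    have hL : (0 : ℝ) < l := by exact_mod_cast hl
    have e3 : -γ * x ^ 2 = (l : ℝ) * (-γ * (x / √(l : ℝ)) ^ 2) := by
      rw [div_pow, Real.sq_sqrt hL.le]; field_simp
    rw [norm_pow, e3, Real.exp_nat_mul]
    gcongr
    exact H.re _ hx
  have hre : 0 < (-b).re := by
    have h1 : ‖Complex.exp (-(-b) * (1 : ℝ) ^ 2)‖ ≤ Real.exp (-γ * 1 ^ 2) := by
      refine le_of_tendsto (hpt 1).norm ?_
      have h2 : ∀ᶠ l : ℕ in atTop, |1 / √(l : ℝ)| < δ :=
        (hz 1).abs.eventually (gt_mem_nhds (by simpa using hδ))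
      filter_upwards [h2, eventually_ge_atTop 1] with l h hl using hbd l 1 hl h
    rw [Complex.norm_exp, Real.exp_le_exp] at h1
    simp at h1 ⊢
    linarith
  refine ⟨_, ?_, (MeasureTheory.tendsto_integral_filter_of_dominated_convergence
    (μ := MeasureTheory.volume) (l := atTop)
    (F := fun (l : ℕ) => indicator (Ioc (-s * √(l : ℝ)) (s * √(l : ℝ)))
      fun x : ℝ => φ (x / √(l : ℝ) : ℝ) ^ l)
    (f := fun x : ℝ => Complex.exp (-(-b) * x ^ 2)) (fun x => Real.exp (-γ * x ^ 2)) ?_ ?_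
    (integrable_exp_neg_mul_sq hγ) ?_).congr' ?_⟩
  · rw [integral_gaussian_complex hre]
    have hb0 : -b ≠ 0 := fun h => by simp [h] at hre
    rw [Ne, Complex.cpow_eq_zero_iff]
    exact fun h => div_ne_zero (by exact_mod_cast Real.pi_ne_zero) hb0 h.1
  · filter_upwards [eventually_ge_atTop 1] with l hl
    have hL : (0 : ℝ) < √(l : ℝ) := Real.sqrt_pos.2 (by exact_mod_cast hl)
    rw [aestronglyMeasurable_indicator_iff measurableSet_Ioc]
    refine ContinuousOn.aestronglyMeasurable ?_ measurableSet_Ioc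
    refine (H.d.pow l).continuousOn.comp (f := fun x : ℝ => ((x / √(l : ℝ) : ℝ) : ℂ))
      (by fun_prop) fun x hx => ?_
    rw [mem_ball_zero_iff, Complex.norm_real, Real.norm_eq_abs]
    refine lt_of_le_of_lt (abs_le.2 ⟨?_, ?_⟩) hsδ
    · rw [le_div_iff₀ hL]; exact hx.1.le
    · rw [div_le_iff₀ hL]; exact hx.2
  · filter_upwards [eventually_ge_atTop 1] with l hl
    have hL : (0 : ℝ) < √(l : ℝ) := Real.sqrt_pos.2 (by exact_mod_cast hl)
    refine Eventually.of_forall fun x => ?_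
    by_cases hx : x ∈ Ioc (-s * √(l : ℝ)) (s * √(l : ℝ))
    · rw [indicator_of_mem hx]
      refine hbd l x hl (lt_of_le_of_lt (abs_le.2 ⟨?_, ?_⟩) hsδ)
      · rw [le_div_iff₀ hL]; exact hx.1.le
      · rw [div_le_iff₀ hL]; exact hx.2
    · rw [indicator_of_notMem hx, norm_zero]; positivity
  · refine Eventually.of_forall fun x => (hpt x).congr' ?_
    have h2 : ∀ᶠ l : ℕ in atTop, |x / √(l : ℝ)| < s :=
      (hz x).abs.eventually (gt_mem_nhds (by simpa using hs))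
    filter_upwards [h2, eventually_ge_atTop 1] with l h hl
    have hL : (0 : ℝ) < √(l : ℝ) := Real.sqrt_pos.2 (by exact_mod_cast hl)
    rw [abs_lt, lt_div_iff₀ hL, div_lt_iff₀ hL] at h
    rw [indicator_of_mem (show x ∈ Ioc _ _ from ⟨h.1, h.2.le⟩)]
  · filter_upwards [eventually_ge_atTop 1] with l hl
    have hL : (0 : ℝ) < √(l : ℝ) := Real.sqrt_pos.2 (by exact_mod_cast hl)
    rw [MeasureTheory.integral_indicator measurableSet_Ioc,
      ← intervalIntegral.integral_of_le (by nlinarith),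
      intervalIntegral.integral_comp_div (fun x : ℝ => φ x ^ l) hL.ne',
      mul_div_cancel_right₀ _ hL.ne', mul_div_cancel_right₀ _ hL.ne', Complex.real_smul]
    simp [lapI]

end Pool.Agent.MP_098ecc_co.H97
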