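import Pool.Agent.MP_098ecc_co.H97.Laur

set_option autoImplicit false

namespace Pool.Agent.MP_098ecc_co.H97

open Metric Filter Topology Set Function Complex
open scoped BoundedContinuousFunction Real

section Abs
variable {E : Type} [NormedAddCommGroup E] [NormedSpace ℂ E]

theorem lapB_der {G : E × ℂ → ℂ} {q : E × ℂ} (h : DifferentiableAt ℂ G q) :
    HasDerivAt (fun w => G (q.1, w)) (fderiv ℂ G q (0, 1)) q.2 := by
  have h1 : HasDerivAt (fun w : ℂ => (q.1, w)) ((0 : E), (1 : ℂ)) q.2 :=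
    (hasDerivAt_const _ _).prodMk (hasDerivAt_id _)
  exact HasFDerivAt.comp_hasDerivAt q.2 (l := G) (f := fun w : ℂ => (q.1, w)) h.hasFDerivAt h1

theorem lapB_cont {O : Set (E × ℂ)} (hO : IsOpen O) {G : E × ℂ → ℂ}
    (hG : DifferentiableOn ℂ G O) {q : E × ℂ} (hq : q ∈ O) :
    ContinuousAt (fun q => fderiv ℂ G q (0, 1)) q :=
  (((hol_fderiv hO hG).continuousOn.continuousAt (hO.mem_nhds hq))).clm_apply continuousAt_const

theorem lapB_ift [CompleteSpace E] {O : Set (E × ℂ)} (hO : IsOpen O) {G : E × ℂ → ℂ}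
    (hG : DifferentiableOn ℂ G O) {u₀ : E} {z : ℂ} (hm : (u₀, z) ∈ O) (h0 : G (u₀, z) = 0)
    (h1 : deriv (fun w => G (u₀, w)) z ≠ 0) :
    ∃ (c : E → ℂ) (ε : ℝ), 0 < ε ∧ c u₀ = z ∧ ∀ᶠ u in 𝓝 u₀, DifferentiableAt ℂ c u ∧
      G (u, c u) = 0 ∧ deriv (fun w => G (u, w)) (c u) ≠ 0 ∧
      ∀ w, ‖w - c u‖ < ε → G (u, w) = 0 → w = c u := by
  have cdf : ContDiffAt ℂ ((1 : ℕ) : WithTop ℕ∞) G (u₀, z) :=
    (hol_contDiffOn hO hG 1).contDiffAt (hO.mem_nhds hm)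
  have pn : ((1 : ℕ) : WithTop ℕ∞) ≠ 0 := by simp
  have hd : ∀ q ∈ O, deriv (fun w => G (q.1, w)) q.2 = fderiv ℂ G q (0, 1) := fun q hq =>
    (lapB_der (hG.differentiableAt (hO.mem_nhds hq))).deriv
  have h2 : fderiv ℂ G (u₀, z) (0, 1) ≠ 0 := by
    rw [← hd _ hm]
    exact h1
  have inv : (fderiv ℂ G (u₀, z) ∘L ContinuousLinearMap.inr ℂ E ℂ).IsInvertible := by
    apply ContinuousLinearMap.IsInvertible.of_inverse
      (g := (fderiv ℂ G (u₀, z) (0, 1))⁻¹ • ContinuousLinearMap.id ℂ ℂ)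
    · ext
      simp [h2]
    · ext
      simp [h2]
  set c := cdf.implicitFunction pn inv with hc
  have c0 : c u₀ = z := cdf.implicitFunction_apply_self pn inv
  have c1 : ContDiffAt ℂ ((1 : ℕ) : WithTop ℕ∞) c u₀ := cdf.contDiffAt_implicitFunction pn inv
  have c2 := cdf.eventually_apply_eq_iff_implicitFunction pn inv
  have c3 : ∀ᶠ u in 𝓝 u₀, G (u, c u) = G (u₀, z) := cdf.eventually_apply_implicitFunction pn inv
  obtain ⟨η, hη, c4⟩ := Metric.eventually_nhds_iff_ball.1 c2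
  have cc : ContinuousAt (fun u => (u, c u)) u₀ := continuousAt_id.prodMk c1.continuousAt
  have ct : Tendsto (fun u => (u, c u)) (𝓝 u₀) (𝓝 (u₀, z)) := by
    have := cc.tendsto
    rwa [c0] at this
  refine ⟨c, η / 2, by positivity, c0, ?_⟩
  have e1 := c1.eventually (by simp)
  have e2 := ct.eventually ((lapB_cont hO hG hm).eventually_ne h2)
  have e3 := ct.eventually (hO.mem_nhds hm)
  have e4 := ct.eventually (ball_mem_nhds (u₀, z) (half_pos hη))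
  filter_upwards [e1, e2, e3, e4, c3] with u a1 a2 a3 a4 a5
  refine ⟨a1.differentiableAt pn, by rw [a5, h0], by rw [hd _ a3]; exact a2, ?_⟩
  intro w hw hG0
  have : (u, w) ∈ ball (u₀, z) η := by
    replace a4 : (u, c u) ∈ ball (u₀, z) (η / 2) := a4
    rw [← ball_prod_same] at a4 ⊢
    refine ⟨ball_subset_ball (by linarith) a4.1, ?_⟩
    have b1 := a4.2
    rw [mem_ball, dist_eq_norm] at b1 ⊢
    have := norm_add_le (w - c u) (c u - z)
    rw [sub_add_sub_cancel] at this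
    linarith
  exact ((c4 _ this).1 (by rw [hG0, h0])).symm

theorem lapB_loc {O : Set (E × ℂ)} (hO : IsOpen O) {Φ D : E × ℂ → ℂ}
    (hD : DifferentiableOn ℂ D O) (hΦ : ∀ q ∈ O, HasDerivAt (fun θ => Φ (q.1, θ)) (D q) q.2)
    (h0 : ∀ u, (u, 0) ∈ O → Φ (u, 0) = 1 ∧ D (u, 0) = 0) {u₀ : E} (hm : (u₀, 0) ∈ O) {A : ℝ}
    (hA : 0 < A) (h2 : HasDerivAt (fun θ => D (u₀, θ)) (-A) 0) :
    ∃ δ > (0 : ℝ), ∀ᶠ u in 𝓝 u₀,
      (∀ θ ∈ ball (0 : ℂ) δ, ‖Φ (u, θ)‖ ≤ 2 ∧ A / 4 * ‖θ‖ ≤ ‖D (u, θ)‖) ∧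
      ∀ θ : ℝ, |θ| < δ → ‖Φ (u, θ)‖ ≤ Real.exp (-(A / 4) * θ ^ 2) := by
  have h3 : fderiv ℂ D (u₀, 0) (0, 1) = -A :=
    (lapB_der (hD.differentiableAt (hO.mem_nhds hm))).unique h2
  have e1 : ∀ᶠ q in 𝓝 (u₀, (0 : ℂ)), dist (fderiv ℂ D q (0, 1)) (-A) < A / 4 := by
    rw [← h3]
    exact (lapB_cont hO hD hm).eventually (ball_mem_nhds _ (by positivity))
  obtain ⟨δ₁, hδ, e2⟩ := Metric.eventually_nhds_iff_ball.1 (e1.and (hO.mem_nhds hm))
  set δ := min δ₁ (1 / (A + 1)) with hδ'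
  have hδ0 : 0 < δ := lt_min hδ (by positivity)
  refine ⟨δ, hδ0, ?_⟩
  filter_upwards [ball_mem_nhds u₀ hδ] with u hu
  have m1 : ∀ θ ∈ ball (0 : ℂ) δ, (u, θ) ∈ ball (u₀, (0 : ℂ)) δ₁ := by
    intro θ hθ
    rw [← ball_prod_same]
    exact ⟨hu, ball_subset_ball (min_le_left _ _) hθ⟩
  have z0 : (0 : ℂ) ∈ ball (0 : ℂ) δ := mem_ball_self hδ0
  obtain ⟨p0, d0⟩ := h0 u (e2 _ (m1 0 z0)).2
  have s1 : ∀ θ ∈ ball (0 : ℂ) δ, ‖D (u, θ) + A * θ‖ ≤ A / 4 * ‖θ‖ := by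
    intro θ hθ
    have := (convex_ball (0 : ℂ) δ).norm_image_sub_le_of_norm_hasDerivWithin_le
      (f := fun θ => D (u, θ) + A * θ) (f' := fun θ => fderiv ℂ D (u, θ) (0, 1) + A) (C := A / 4)
      (fun x hx => by
        have := (lapB_der (hD.differentiableAt (hO.mem_nhds (e2 _ (m1 x hx)).2))).add
          ((hasDerivAt_id x).const_mul (A : ℂ))
        exact (this.congr_deriv (by simp)).hasDerivWithinAt)
      (fun x hx => by
        have := (e2 _ (m1 x hx)).1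
        rw [dist_eq_norm, sub_neg_eq_add] at this
        exact this.le) z0 hθ
    simpa [d0] using this
  have s2 : ∀ θ ∈ ball (0 : ℂ) δ, ‖Φ (u, θ) + A / 2 * θ ^ 2 - 1‖ ≤ A / 4 * ‖θ‖ ^ 2 := by
    intro θ hθ
    have sub : closedBall (0 : ℂ) ‖θ‖ ⊆ ball 0 δ :=
      closedBall_subset_ball (mem_ball_zero_iff.1 hθ)
    have := (convex_closedBall (0 : ℂ) ‖θ‖).norm_image_sub_le_of_norm_hasDerivWithin_le
      (f := fun θ => Φ (u, θ) + A / 2 * θ ^ 2) (f' := fun θ => D (u, θ) + A * θ)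
      (C := A / 4 * ‖θ‖)
      (fun x hx => by
        have := (hΦ _ (e2 _ (m1 x (sub hx))).2).add
          ((hasDerivAt_pow 2 x).const_mul ((A : ℂ) / 2))
        refine (this.congr_deriv ?_).hasDerivWithinAt
        simp only [Nat.cast_ofNat, Nat.add_one_sub_one, pow_one]
        ring)
      (fun x hx => (s1 x (sub hx)).trans
        (mul_le_mul_of_nonneg_left (mem_closedBall_zero_iff.1 hx) (by positivity)))
      (mem_closedBall_self (norm_nonneg _)) (mem_closedBall_zero_iff.2 le_rfl)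
    simp only [p0, sub_zero] at this
    calc _ = ‖Φ (u, θ) + A / 2 * θ ^ 2 - (1 + A / 2 * 0 ^ 2)‖ := by simp
      _ ≤ _ := this
      _ = _ := by ring
  have s3 : ∀ θ ∈ ball (0 : ℂ) δ, A * ‖θ‖ ^ 2 ≤ 1 := by
    intro θ hθ
    have b1 : ‖θ‖ ≤ 1 / (A + 1) := (mem_ball_zero_iff.1 hθ).le.trans (min_le_right _ _)
    rw [le_div_iff₀ (by positivity)] at b1
    have b2 := norm_nonneg θ
    have b3 : ‖θ‖ ≤ 1 := by nlinarith
    nlinarith
  constructor
  · intro θ hθ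
    constructor
    · have b1 := s2 θ hθ
      have b2 := s3 θ hθ
      have b3 : Φ (u, θ) = (Φ (u, θ) + A / 2 * θ ^ 2 - 1) + (1 - A / 2 * θ ^ 2) := by ring
      have b4 := norm_add_le (Φ (u, θ) + A / 2 * θ ^ 2 - 1) (1 - A / 2 * θ ^ 2)
      have b5 := norm_sub_le (1 : ℂ) (A / 2 * θ ^ 2)
      have b6 : ‖(A : ℂ) / 2 * θ ^ 2‖ = A / 2 * ‖θ‖ ^ 2 := by
        simp [abs_of_pos hA]
      rw [← b3] at b4
      rw [b6, norm_one] at b5
      linarith
    · have b1 := s1 θ hθ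
      have b2 := norm_sub_le (D (u, θ) + A * θ) (D (u, θ))
      have b3 : ‖D (u, θ) + A * θ - D (u, θ)‖ = A * ‖θ‖ := by simp [abs_of_pos hA]
      have b4 : 0 ≤ A * ‖θ‖ := by positivity
      linarith
  · intro θ hθ
    have hθ' : (θ : ℂ) ∈ ball (0 : ℂ) δ := by simpa using hθ
    have b1 := s2 θ hθ'
    have b2 := s3 θ hθ'
    rw [Complex.norm_real, Real.norm_eq_abs, sq_abs] at b1 b2
    have b3 : Φ (u, θ) = (Φ (u, θ) + A / 2 * θ ^ 2 - 1) + ((1 - A / 2 * θ ^ 2 : ℝ) : ℂ) := by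
      push_cast
      ring
    have b4 := norm_add_le (Φ (u, θ) + A / 2 * θ ^ 2 - 1) ((1 - A / 2 * θ ^ 2 : ℝ) : ℂ)
    rw [← b3, Complex.norm_real, Real.norm_eq_abs, abs_of_nonneg (by linarith)] at b4
    have b5 := Real.add_one_le_exp (-(A / 4) * θ ^ 2)
    linarith

end Abs

theorem lapB_norm (c : ℂ) (θ : ℝ) : ‖c * exp (I * θ)‖ = ‖c‖ := by
  rw [norm_mul, mul_comm I, norm_exp_ofReal_mul_I, mul_one]

theorem lapB_int {R : ℝ} {f : ℕ → ℂ} (hf : Bnd R f) {c : ℂ} (hc : c ≠ 0) (hR : ‖c‖ < R) (N : ℕ)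
    (j : ℤ) : cf f N j = ((2 * π)⁻¹ : ℝ) *
      ∫ θ in -π..π, ser f (c * exp (I * θ)) ^ N * (c * exp (I * θ)) ^ (-j) := by
  rw [cf_eq_lc (norm_pos_iff.2 hc) hR hf, lc, Real.circleAverage_eq_integral_add (arg c - π),
    real_smul]
  congr 1
  have h := intervalIntegral.integral_comp_sub_right (a := 0) (b := 2 * π)
    (fun θ : ℝ => ser f (c * exp (I * θ)) ^ N * (c * exp (I * θ)) ^ (-j)) π
  rw [zero_sub, show 2 * π - π = π by ring] at h
  rw [← h]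
  congr 1
  funext θ
  have e : circleMap 0 ‖c‖ (θ + (arg c - π)) = c * exp (I * ((θ - π : ℝ) : ℂ)) := by
    conv_rhs => rw [← norm_mul_exp_arg_mul_I c]
    rw [circleMap, zero_add, mul_assoc, ← exp_add]
    congr 2
    push_cast
    ring
  rw [e]

theorem lapB_split {T : ℝ → ℂ} (hT : Continuous T) {a S : ℝ} (h0 : 0 ≤ a) (h1 : a ≤ π)
    (h : ∀ θ, a ≤ |θ| → |θ| ≤ π → ‖T θ‖ ≤ S) :
    ‖(∫ θ in -π..π, T θ) - ∫ θ in -a..a, T θ‖ ≤ 2 * π * S := by
  have hS : 0 ≤ S := (norm_nonneg _).trans (h π (by rwa [abs_of_pos Real.pi_pos])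
    (by rw [abs_of_pos Real.pi_pos]))
  have e1 := intervalIntegral.integral_add_adjacent_intervals (μ := MeasureTheory.volume)
    (hT.intervalIntegrable (-π) (-a)) (hT.intervalIntegrable (-a) a)
  have e2 := intervalIntegral.integral_add_adjacent_intervals (μ := MeasureTheory.volume)
    (hT.intervalIntegrable (-π) a) (hT.intervalIntegrable a π)
  have b1 : ‖∫ θ in -π..-a, T θ‖ ≤ S * |-a - -π| := by
    apply intervalIntegral.norm_integral_le_of_norm_le_const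
    intro θ hθ
    rw [uIoc_of_le (by linarith)] at hθ
    have : θ ≤ 0 := by linarith [hθ.2]
    exact h θ (by rw [abs_of_nonpos this]; linarith [hθ.2])
      (by rw [abs_of_nonpos this]; linarith [hθ.1])
  have b2 : ‖∫ θ in a..π, T θ‖ ≤ S * |π - a| := by
    apply intervalIntegral.norm_integral_le_of_norm_le_const
    intro θ hθ
    rw [uIoc_of_le h1] at hθ
    have : 0 ≤ θ := by linarith [hθ.1]
    exact h θ (by rw [abs_of_nonneg this]; linarith [hθ.1])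
      (by rw [abs_of_nonneg this]; linarith [hθ.2])
  rw [abs_of_nonneg (by linarith)] at b1 b2
  rw [← e2, ← e1]
  have e3 := norm_add_le (∫ θ in -π..-a, T θ) (∫ θ in a..π, T θ)
  calc _ = ‖(∫ θ in -π..-a, T θ) + ∫ θ in a..π, T θ‖ := by congr 1; ring
    _ ≤ _ := by nlinarith

end Pool.Agent.MP_098ecc_co.H97
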