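import Pool.Agent.MP_098ecc_co.H97.Hol

set_option autoImplicit false

namespace Pool.Agent.MP_098ecc_co.H97

open Metric Filter Topology Set Function
open scoped BoundedContinuousFunction

theorem Bnd.laur_sum {R : ℝ} {f : ℕ → ℂ} (hf : Bnd R f) {ρ : ℝ} (h0 : 0 ≤ ρ) (h : ρ < R) :
    Summable fun i => ‖f i‖ * ρ ^ i := by
  obtain ⟨C, hC⟩ := hf
  have hR : 0 < R := h0.trans_lt h
  have h1 : R⁻¹ * ρ < 1 := by rw [inv_mul_lt_iff₀ hR]; simpa using h
  refine Summable.of_nonneg_of_le (fun i => by positivity) (fun i => ?_)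
    ((summable_geometric_of_lt_one (by positivity) h1).mul_left C)
  rw [mul_pow, ← mul_assoc]
  exact mul_le_mul_of_nonneg_right (hC i) (by positivity)

theorem Bnd.summable {R : ℝ} {f : ℕ → ℂ} (hf : Bnd R f) {z : ℂ} (hz : ‖z‖ < R) :
    Summable fun i => ‖f i * z ^ i‖ := by
  simpa [norm_mul, norm_pow] using hf.laur_sum (norm_nonneg z) hz

theorem bnd_un (R : ℝ) (hR : 0 < R) (u : BS) : Bnd R (un R u) := by
  refine ⟨‖u‖, fun i => ?_⟩
  rw [un, norm_mul, norm_pow, norm_inv, Complex.norm_real, Real.norm_eq_abs, abs_of_pos hR]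
  exact mul_le_mul_of_nonneg_right (u.norm_coe_le_norm i) (by positivity)

theorem laur_bnd_of_sum {ρ : ℝ} (h0 : 0 < ρ) {f : ℕ → ℂ} (h : Summable fun i => ‖f i‖ * ρ ^ i) :
    Bnd ρ f := by
  refine ⟨∑' i, ‖f i‖ * ρ ^ i, fun i => ?_⟩
  have := h.le_tsum i (fun j _ => by positivity)
  rw [inv_pow, ← div_eq_mul_inv, le_div_iff₀ (by positivity)]
  exact this

theorem laur_flat_le (m i : ℕ) : ‖((m : ℂ) * i - 1)‖ ≤ m * i + 1 := by
  refine (norm_sub_le _ _).trans ?_
  simp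

theorem laur_lin_sum (m : ℕ) {θ : ℝ} (h0 : 0 ≤ θ) (h1 : θ < 1) :
    Summable fun i : ℕ => ((m : ℝ) * i + 1) * θ ^ i := by
  have h2 : Summable fun i : ℕ => (i : ℝ) ^ 1 * θ ^ i :=
    summable_pow_mul_geometric_of_norm_lt_one 1 (by rwa [Real.norm_eq_abs, abs_of_nonneg h0])
  have := (h2.mul_left (m : ℝ)).add (summable_geometric_of_lt_one h0 h1)
  refine this.congr fun i => ?_
  ring

theorem Bnd.flat {R R' : ℝ} {f : ℕ → ℂ} (hf : Bnd R f) (m : ℕ) (h0 : 0 < R') (h : R' < R) :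
    Bnd R' (flat m f) := by
  obtain ⟨C, hC⟩ := hf
  have hR : 0 < R := h0.trans h
  have h1 : R⁻¹ * R' < 1 := by rw [inv_mul_lt_iff₀ hR]; simpa using h
  refine laur_bnd_of_sum h0 (Summable.of_nonneg_of_le (fun i => by positivity) (fun i => ?_)
    ((laur_lin_sum m (by positivity) h1).mul_left C))
  rw [H97.flat, norm_mul, mul_pow]
  have h3 := mul_le_mul (laur_flat_le m i) (hC i) (norm_nonneg _) (by positivity)
  calc _ ≤ ((m * i + 1) * (C * R⁻¹ ^ i)) * R' ^ i := mul_le_mul_of_nonneg_right h3 (by positivity)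
    _ = _ := by ring

theorem laur_term_le (f : ℕ → ℂ) {ρ : ℝ} (i : ℕ) {w : ℂ} (hw : ‖w‖ ≤ ρ) :
    ‖f i * w ^ i‖ ≤ ‖f i‖ * ρ ^ i := by
  rw [norm_mul, norm_pow]
  exact mul_le_mul_of_nonneg_left (pow_le_pow_left₀ (norm_nonneg _) hw i) (norm_nonneg _)

theorem Bnd.diff {R : ℝ} {f : ℕ → ℂ} (hf : Bnd R f) : DifferentiableOn ℂ (ser f) (ball 0 R) := by
  intro z hz
  rw [mem_ball_zero_iff] at hz
  obtain ⟨ρ, h1, h2⟩ := exists_between hz
  have := Complex.differentiableOn_tsum_of_summable_norm (F := fun i w => f i * w ^ i)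
    (U := ball 0 ρ) (hf.laur_sum ((norm_nonneg z).trans h1.le) h2) (fun i => by fun_prop)
    isOpen_ball (fun i w hw => laur_term_le f i (mem_ball_zero_iff.1 hw).le)
  exact (this.differentiableAt (isOpen_ball.mem_nhds (mem_ball_zero_iff.2 h1))).differentiableWithinAt

theorem Bnd.ser_flat {R : ℝ} {f : ℕ → ℂ} (hf : Bnd R f) (m : ℕ) {z : ℂ} (hz : ‖z‖ < R) :
    ser (H97.flat m f) z = m * z * deriv (ser f) z - ser f z := by
  obtain ⟨ρ, h1, h2⟩ := exists_between hz
  have h3 := Complex.hasSum_deriv_of_summable_norm (F := fun i w => f i * w ^ i)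
    (U := ball 0 ρ) (hf.laur_sum ((norm_nonneg z).trans h1.le) h2) (fun i => by fun_prop)
    isOpen_ball (fun i w hw => laur_term_le f i (mem_ball_zero_iff.1 hw).le)
    (mem_ball_zero_iff.2 h1)
  have h4 := ((h3.mul_left (m * z)).sub (hf.summable hz).of_norm.hasSum)
  refine HasSum.tsum_eq ?_
  convert! h4 using 2 with i
  rw [H97.flat, deriv_const_mul_field, deriv_pow_field]
  cases i with
  | zero => simp
  | succ i => simp only [Nat.add_sub_cancel, pow_succ]; ring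

theorem laur_mul (φ ψ : PowerSeries ℂ) (z : ℂ)
    (hφ : Summable fun n => ‖PowerSeries.coeff n φ * z ^ n‖)
    (hψ : Summable fun n => ‖PowerSeries.coeff n ψ * z ^ n‖) :
    (Summable fun n => ‖PowerSeries.coeff n (φ * ψ) * z ^ n‖) ∧
    ∑' n, PowerSeries.coeff n (φ * ψ) * z ^ n =
      (∑' n, PowerSeries.coeff n φ * z ^ n) * ∑' n, PowerSeries.coeff n ψ * z ^ n := by
  have key : ∀ n, PowerSeries.coeff n (φ * ψ) * z ^ n = ∑ kl ∈ Finset.HasAntidiagonal.antidiagonal n,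
      (PowerSeries.coeff kl.1 φ * z ^ kl.1) * (PowerSeries.coeff kl.2 ψ * z ^ kl.2) := by
    intro n
    rw [PowerSeries.coeff_mul, Finset.sum_mul]
    refine Finset.sum_congr rfl fun kl hkl => ?_
    rw [← Finset.HasAntidiagonal.mem_antidiagonal.1 hkl, pow_add]
    ring
  have h1 := summable_norm_sum_mul_antidiagonal_of_summable_norm hφ hψ
  have h2 := tsum_mul_tsum_eq_tsum_sum_antidiagonal_of_summable_norm hφ hψ
  refine ⟨h1.congr fun n => by rw [key], ?_⟩
  rw [h2]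
  exact tsum_congr key

theorem Bnd.ser_mul {R : ℝ} {f g : ℕ → ℂ} (hf : Bnd R f) (hg : Bnd R g) {z : ℂ} (hz : ‖z‖ < R) :
    HasSum (fun n => PowerSeries.coeff n (PowerSeries.mk f * PowerSeries.mk g) * z ^ n)
      (ser f z * ser g z) := by
  obtain ⟨h1, h2⟩ := laur_mul (PowerSeries.mk f) (PowerSeries.mk g) z
    (by simpa only [PowerSeries.coeff_mk] using hf.summable hz)
    (by simpa only [PowerSeries.coeff_mk] using hg.summable hz)
  simp only [PowerSeries.coeff_mk] at h2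
  rw [ser, ser, ← h2]
  exact h1.of_norm.hasSum

theorem laur_pow {f : ℕ → ℂ} {z : ℂ} (hf : Summable fun i => ‖f i * z ^ i‖) (N : ℕ) :
    (Summable fun n => ‖PowerSeries.coeff n (PowerSeries.mk f ^ N) * z ^ n‖) ∧
    ∑' n, PowerSeries.coeff n (PowerSeries.mk f ^ N) * z ^ n = ser f z ^ N := by
  induction N with
  | zero =>
    have h : ∀ n, n ≠ 0 → PowerSeries.coeff n (PowerSeries.mk f ^ 0) * z ^ n = 0 := by
      intro n hn
      simp [PowerSeries.coeff_one, hn]
    refine ⟨summable_of_ne_finset_zero (s := {0}) fun n hn => ?_, ?_⟩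
    · rw [h n (by simpa using hn), norm_zero]
    · rw [tsum_eq_single 0 h]; simp
  | succ N ih =>
    obtain ⟨h1, h2⟩ := laur_mul (PowerSeries.mk f ^ N) (PowerSeries.mk f) z ih.1
      (by simpa only [PowerSeries.coeff_mk] using hf)
    simp only [PowerSeries.coeff_mk] at h2
    rw [pow_succ, pow_succ, h2, ih.2]
    exact ⟨h1, rfl⟩

theorem Bnd.ser_pow {R : ℝ} {f : ℕ → ℂ} (hf : Bnd R f) (N : ℕ) {z : ℂ} (hz : ‖z‖ < R) :
    HasSum (fun n => PowerSeries.coeff n (PowerSeries.mk f ^ N) * z ^ n) (ser f z ^ N) := by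
  obtain ⟨h1, h2⟩ := laur_pow (hf.summable hz) N
  rw [← h2]
  exact h1.of_norm.hasSum

theorem laur_eval (n : ℕ) : Differentiable ℂ fun u : BS => u n :=
  (BoundedContinuousFunction.evalCLM ℂ n : BS →L[ℂ] ℂ).differentiable

theorem laur_hol {R : ℝ} {a : ℕ → ℂ} (ha : ∀ ρ, 0 ≤ ρ → ρ < R → Summable fun i => ‖a i‖ * ρ ^ i) :
    DifferentiableOn ℂ (fun q : BS × ℂ => ∑' i, q.1 i * (a i * q.2 ^ i)) (univ ×ˢ ball 0 R) := by
  intro q hq
  have hz : ‖q.2‖ < R := mem_ball_zero_iff.1 hq.2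
  obtain ⟨ρ, h1, h2⟩ := exists_between hz
  have hU : IsOpen (ball q.1 1 ×ˢ ball (0 : ℂ) ρ) := isOpen_ball.prod isOpen_ball
  have := (hol_tsum hU (f := fun i (q : BS × ℂ) => q.1 i * (a i * q.2 ^ i))
    (M := fun i => (‖q.1‖ + 1) * (‖a i‖ * ρ ^ i)) (fun i => ?_)
    ((ha ρ ((norm_nonneg _).trans h1.le) h2).mul_left _) (fun i p hp => ?_)).1
  · exact (this.differentiableAt
      (hU.mem_nhds ⟨mem_ball_self one_pos, mem_ball_zero_iff.2 h1⟩)).differentiableWithinAt
  · exact (((laur_eval i).comp differentiable_fst).mul (by fun_prop)).differentiableOn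
  · rw [norm_mul]
    refine mul_le_mul ((p.1.norm_coe_le_norm i).trans ?_)
      (laur_term_le a i (mem_ball_zero_iff.1 hp.2).le) (norm_nonneg _) (by positivity)
    have h3 : ‖p.1 - q.1‖ < 1 := mem_ball_iff_norm.1 hp.1
    have h4 := norm_add_le (p.1 - q.1) q.1
    rw [sub_add_cancel] at h4
    linarith

theorem hol_ser (R : ℝ) (hR : 0 < R) :
    DifferentiableOn ℂ (fun q : BS × ℂ => ser (un R q.1) q.2) (univ ×ˢ ball 0 R) := by
  have h := laur_hol (R := R) (a := un R 1) fun ρ h0 h1 => (bnd_un R hR 1).laur_sum h0 h1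
  refine h.congr fun q _ => ?_
  simp [ser, un, mul_assoc]

theorem hol_ser_flat (m : ℕ) (R : ℝ) (hR : 0 < R) :
    DifferentiableOn ℂ (fun q : BS × ℂ => ser (flat m (un R q.1)) q.2) (univ ×ˢ ball 0 R) := by
  have h := laur_hol (R := R) (a := flat m (un R 1)) fun ρ h0 h1 => by
    obtain ⟨ρ', h2, h3⟩ := exists_between h1
    exact ((bnd_un R hR 1).flat m (h0.trans_lt h2) h3).laur_sum h0 h2
  refine h.congr fun q _ => ?_
  refine tsum_congr fun i => ?_
  simp only [un, flat, BoundedContinuousFunction.coe_one, Pi.one_apply]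
  ring

theorem hol_cf (R : ℝ) (N : ℕ) (j : ℤ) : Differentiable ℂ fun u : BS => cf (un R u) N j := by
  have key : ∀ N n : ℕ, Differentiable ℂ fun u : BS =>
      PowerSeries.coeff n (PowerSeries.mk (un R u) ^ N) := by
    intro N
    induction N with
    | zero => intro n; simp
    | succ N ih =>
      intro n
      simp only [pow_succ, PowerSeries.coeff_mul, PowerSeries.coeff_mk]
      refine Differentiable.fun_sum fun kl _ => (ih kl.1).mul ?_
      exact (laur_eval kl.2).mul_const _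
  unfold cf
  split_ifs
  · exact key N _
  · exact differentiable_const _

theorem cf_le {f : ℕ → ℂ} {ρ : ℝ} (hρ : 0 < ρ) (hs : Summable fun i => ‖f i‖ * ρ ^ i) (N : ℕ)
    (j : ℤ) : ‖cf f N j‖ * ρ ^ j ≤ (∑' i, ‖f i‖ * ρ ^ i) ^ N := by
  have hS : 0 ≤ ∑' i, ‖f i‖ * ρ ^ i := tsum_nonneg fun i => by positivity
  have key : ∀ N : ℕ, (Summable fun n => ‖PowerSeries.coeff n (PowerSeries.mk f ^ N)‖ * ρ ^ n) ∧
      ∑' n, ‖PowerSeries.coeff n (PowerSeries.mk f ^ N)‖ * ρ ^ n ≤ (∑' i, ‖f i‖ * ρ ^ i) ^ N := by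
    intro N
    induction N with
    | zero =>
      have h : ∀ n, n ≠ 0 → ‖PowerSeries.coeff n (PowerSeries.mk f ^ 0)‖ * ρ ^ n = 0 := by
        intro n hn
        simp [PowerSeries.coeff_one, hn]
      refine ⟨summable_of_ne_finset_zero (s := {0}) fun n hn => h n (by simpa using hn), ?_⟩
      rw [tsum_eq_single 0 h]; simp
    | succ N ih =>
      have ha : Summable fun n => ‖‖PowerSeries.coeff n (PowerSeries.mk f ^ N)‖ * ρ ^ n‖ :=
        ih.1.norm
      have hb : Summable fun n => ‖‖f n‖ * ρ ^ n‖ := hs.norm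
      have h1 := (summable_norm_sum_mul_antidiagonal_of_summable_norm ha hb).of_norm
      have h2 := tsum_mul_tsum_eq_tsum_sum_antidiagonal_of_summable_norm ha hb
      have h3 : ∀ n, ‖PowerSeries.coeff n (PowerSeries.mk f ^ (N + 1))‖ * ρ ^ n ≤
          ∑ kl ∈ Finset.HasAntidiagonal.antidiagonal n, (‖PowerSeries.coeff kl.1 (PowerSeries.mk f ^ N)‖ *
            ρ ^ kl.1) * (‖f kl.2‖ * ρ ^ kl.2) := by
        intro n
        rw [pow_succ, PowerSeries.coeff_mul]
        refine (mul_le_mul_of_nonneg_right (norm_sum_le _ _) (by positivity)).trans (le_of_eq ?_)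
        rw [Finset.sum_mul]
        refine Finset.sum_congr rfl fun kl hkl => ?_
        rw [← Finset.HasAntidiagonal.mem_antidiagonal.1 hkl, pow_add, norm_mul, PowerSeries.coeff_mk]
        ring
      have h4 := Summable.of_nonneg_of_le (fun n => by positivity) h3 h1
      refine ⟨h4, (h4.tsum_le_tsum h3 h1).trans ?_⟩
      rw [← h2, pow_succ]
      exact mul_le_mul_of_nonneg_right ih.2 hS
  unfold cf
  split_ifs with hj
  · obtain ⟨n, rfl⟩ := Int.eq_ofNat_of_zero_le hj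
    rw [Int.toNat_natCast, zpow_natCast]
    exact ((key N).1.le_tsum n fun k _ => by positivity).trans (key N).2
  · rw [norm_zero, zero_mul]
    positivity

theorem cf_ofReal (f : ℕ → ℝ) (N : ℕ) (j : ℤ) : cf (fun i => (f i : ℂ)) N j = (cf f N j : ℝ) := by
  unfold cf
  split_ifs
  · have h : PowerSeries.mk (fun i => (f i : ℂ)) =
        PowerSeries.map Complex.ofRealHom (PowerSeries.mk f) := by
      ext n; simp
    rw [h, ← map_pow, PowerSeries.coeff_map]
    rfl
  · simp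

theorem sT_ofReal (m : ℕ) (L : Set ℕ) (f : ℕ → ℝ) (i : ℤ) :
    sT m (ind ℂ L) (fun i => (f i : ℂ)) i = (sT m (ind ℝ L) f i : ℝ) := by
  rw [sT, sT, Complex.ofReal_tsum]
  refine tsum_congr fun l => ?_
  rw [cf_ofReal, Complex.ofReal_mul]
  congr 1
  unfold ind
  split_ifs <;> simp

theorem ser_ofReal (f : ℕ → ℝ) (z : ℝ) : ser (fun i => (f i : ℂ)) z = (ser f z : ℝ) := by
  rw [ser, ser, Complex.ofReal_tsum]
  refine tsum_congr fun l => ?_
  push_cast
  rfl

end Pool.Agent.MP_098ecc_co.H97
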