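import Pool.Agent.MP_098ecc_co.H97.LaurA

set_option autoImplicit false

namespace Pool.Agent.MP_098ecc_co.H97

open Metric Filter Topology Set Function
open scoped BoundedContinuousFunction

theorem laur_ne {r : ℝ} (hr : 0 < r) {z : ℂ} (hz : ‖z‖ = r) : z ≠ 0 := by
  rintro rfl
  rw [norm_zero] at hz
  exact hr.ne hz

theorem laur_zpow_cont {r : ℝ} (hr : 0 < r) (n : ℤ) :
    ContinuousOn (fun z : ℂ => z ^ n) (sphere 0 r) := fun z hz =>
  (continuousAt_zpow₀ z n (Or.inl (laur_ne hr (mem_sphere_zero_iff_norm.1 hz)))).continuousWithinAt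

theorem laur_int {r : ℝ} (hr : 0 < r) {F : ℂ → ℂ} (hF : ContinuousOn F (sphere 0 r)) (n : ℤ) :
    CircleIntegrable (fun z => F z * z ^ (-n)) 0 r :=
  ContinuousOn.circleIntegrable hr.le (hF.mul (laur_zpow_cont hr (-n)))

theorem laur_congr {r : ℝ} (hr : 0 < r) {F G : ℂ → ℂ} (h : ∀ z, ‖z‖ = r → F z = G z) :
    Real.circleAverage F 0 r = Real.circleAverage G 0 r :=
  Real.circleAverage_congr_sphere fun z hz =>
    h z (by rwa [abs_of_pos hr, mem_sphere_zero_iff_norm] at hz)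

theorem lc_congr {r : ℝ} (hr : 0 < r) {F G : ℂ → ℂ} (h : ∀ z, ‖z‖ = r → F z = G z) (n : ℤ) :
    lc r F n = lc r G n :=
  laur_congr hr fun z hz => by rw [h z hz]

theorem lc_add {r : ℝ} (hr : 0 < r) {F G : ℂ → ℂ} (hF : ContinuousOn F (sphere 0 r))
    (hG : ContinuousOn G (sphere 0 r)) (n : ℤ) :
    lc r (fun z => F z + G z) n = lc r F n + lc r G n := by
  simp only [lc, add_mul]
  exact Real.circleAverage_fun_add (laur_int hr hF n) (laur_int hr hG n)

theorem lc_sub {r : ℝ} (hr : 0 < r) {F G : ℂ → ℂ} (hF : ContinuousOn F (sphere 0 r))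
    (hG : ContinuousOn G (sphere 0 r)) (n : ℤ) :
    lc r (fun z => F z - G z) n = lc r F n - lc r G n := by
  simp only [lc, sub_mul]
  exact Real.circleAverage_fun_sub (laur_int hr hF n) (laur_int hr hG n)

theorem lc_const_mul (r : ℝ) (c : ℂ) (F : ℂ → ℂ) (n : ℤ) :
    lc r (fun z => c * F z) n = c * lc r F n := by
  simp only [lc, mul_assoc]
  exact Real.circleAverage_fun_smul (a := c) (f := fun z => F z * z ^ (-n))

theorem lc_zpow_mul {r : ℝ} (hr : 0 < r) (k : ℤ) (F : ℂ → ℂ) (n : ℤ) :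
    lc r (fun z => z ^ k * F z) n = lc r F (n - k) := by
  refine laur_congr hr fun z hz => ?_
  rw [neg_sub, sub_eq_add_neg, zpow_add₀ (laur_ne hr hz)]
  ring

theorem lc_norm_le {r M : ℝ} (hr : 0 < r) {F : ℂ → ℂ} (h : ∀ z, ‖z‖ = r → ‖F z‖ ≤ M) (n : ℤ) :
    ‖lc r F n‖ ≤ M * r ^ (-n) := by
  have hπ := Real.two_pi_pos
  have h1 := intervalIntegral.norm_integral_le_of_norm_le_const (a := 0) (b := 2 * Real.pi)
    (f := fun θ => F (circleMap 0 r θ) * circleMap 0 r θ ^ (-n)) (C := M * r ^ (-n))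
    fun θ _ => by
      have h2 : ‖circleMap 0 r θ‖ = r := by rw [norm_circleMap_zero, abs_of_pos hr]
      rw [norm_mul, norm_zpow, h2]
      exact mul_le_mul_of_nonneg_right (h _ h2) (by positivity)
  rw [lc, Real.circleAverage_def, norm_smul, norm_inv, Real.norm_eq_abs, abs_of_pos hπ,
    inv_mul_le_iff₀ hπ]
  rw [sub_zero, abs_of_pos hπ] at h1
  linarith

theorem lc_tendsto {ι : Type} {l : Filter ι} {r : ℝ} (hr : 0 < r) {F : ι → ℂ → ℂ} {G : ℂ → ℂ}
    (hF : ∀ᶠ k in l, ContinuousOn (F k) (sphere 0 r)) (hG : ContinuousOn G (sphere 0 r))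
    (h : TendstoUniformlyOn F G l (sphere 0 r)) (n : ℤ) :
    Tendsto (fun k => lc r (F k) n) l (𝓝 (lc r G n)) := by
  rw [Metric.tendsto_nhds]
  intro ε hε
  have hp : 0 < r ^ (-n) := by positivity
  filter_upwards [hF, Metric.tendstoUniformlyOn_iff.1 h (ε / 2 / r ^ (-n)) (by positivity)]
    with k h1 h2
  rw [dist_eq_norm, ← lc_sub hr h1 hG]
  refine (lc_norm_le (M := ε / 2 / r ^ (-n)) hr (fun z hz => ?_) n).trans_lt ?_
  · have := h2 z (mem_sphere_zero_iff_norm.2 hz)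
    rw [dist_comm, dist_eq_norm] at this
    exact this.le
  · rw [div_mul_cancel₀ _ hp.ne']
    linarith

theorem laur_lc_sum {r : ℝ} (hr : 0 < r) {F : ℕ → ℂ → ℂ}
    (hF : ∀ k, ContinuousOn (F k) (sphere 0 r)) (s : Finset ℕ) (n : ℤ) :
    lc r (fun z => ∑ k ∈ s, F k z) n = ∑ k ∈ s, lc r (F k) n := by
  simp only [lc, Finset.sum_mul]
  exact Real.circleAverage_fun_sum fun k _ => laur_int hr (hF k) n

theorem lc_hasSum {r : ℝ} (hr : 0 < r) {F : ℕ → ℂ → ℂ} {M : ℕ → ℝ} (hM : Summable M)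
    (hF : ∀ k, ContinuousOn (F k) (sphere 0 r)) (h : ∀ k z, ‖z‖ = r → ‖F k z‖ ≤ M k) (n : ℤ) :
    HasSum (fun k => lc r (F k) n) (lc r (fun z => ∑' k, F k z) n) := by
  have h' : ∀ k z, z ∈ sphere (0 : ℂ) r → ‖F k z‖ ≤ M k :=
    fun k z hz => h k z (mem_sphere_zero_iff_norm.1 hz)
  have h1 := lc_tendsto hr
    (Eventually.of_forall fun s : Finset ℕ => continuousOn_finsetSum s fun k _ => hF k)
    (continuousOn_tsum hF hM h') (tendstoUniformlyOn_tsum hM h') n
  simp only [laur_lc_sum hr hF] at h1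
  exact h1

theorem lc_inv {r : ℝ} (hr : 0 < r) (F : ℂ → ℂ) (n : ℤ) :
    lc r F n = lc r⁻¹ (fun z => F z⁻¹) (-n) := by
  rw [lc, lc, Real.circleAverage_eq_circleAverage_zero_one,
    Real.circleAverage_eq_circleAverage_zero_one (R := r⁻¹),
    ← Real.circleAverage_zero_one_congr_inv]
  refine laur_congr one_pos fun z _ => ?_
  have h : ((r⁻¹ : ℝ) : ℂ) * z + 0 = ((r : ℂ) * z⁻¹ + 0)⁻¹ := by
    simp [mul_comm]
  rw [h, inv_inv, neg_neg, inv_zpow']

theorem laur_dc {r R : ℝ} (hr : 0 < r) (h : r < R) {F : ℂ → ℂ}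
    (hF : DifferentiableOn ℂ F (ball 0 R)) : DiffContOnCl ℂ F (ball 0 |r|) := by
  rw [abs_of_pos hr]
  exact hF.diffContOnCl_ball (closedBall_subset_ball h)

theorem lc_inner {r R : ℝ} (hr : 0 < r) (h : r < R) {F : ℂ → ℂ}
    (hF : DifferentiableOn ℂ F (ball 0 R)) : lc r F 0 = F 0 ∧ ∀ n : ℤ, n < 0 → lc r F n = 0 := by
  refine ⟨?_, fun n hn => ?_⟩
  · simp only [lc, neg_zero, zpow_zero, mul_one]
    exact (laur_dc hr h hF).circleAverage
  · obtain ⟨k, hk⟩ := Int.eq_ofNat_of_zero_le (show 0 ≤ -n by omega)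
    have hk0 : k ≠ 0 := by omega
    simp only [lc, hk, zpow_natCast]
    rw [(laur_dc hr h (F := fun z => F z * z ^ k) (hF.mul (by fun_prop))).circleAverage]
    simp [hk0]

theorem lc_cauchy {r R : ℝ} (h : r < R) {F : ℂ → ℂ} (hF : DifferentiableOn ℂ F (ball 0 R))
    {c : ℂ} (hc : ‖c‖ < r) : lc r (fun z => F z * (z / (z - c))) 0 = F c := by
  have hr : 0 < r := (norm_nonneg c).trans_lt hc
  rw [← (laur_dc hr h hF).circleAverage_smul_div (w := c)
    (by rwa [abs_of_pos hr, mem_ball_zero_iff])]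
  refine laur_congr hr fun z _ => ?_
  simp [mul_comm]

theorem laur_lc_one {r : ℝ} (hr : 0 < r) (n : ℤ) :
    lc r (fun _ => 1) n = if n = 0 then 1 else 0 := by
  rcases lt_trichotomy n 0 with hn | rfl | hn
  · rw [if_neg hn.ne]
    exact (lc_inner hr (lt_add_one r) (differentiableOn_const 1)).2 n hn
  · rw [if_pos rfl]
    exact (lc_inner hr (lt_add_one r) (differentiableOn_const 1)).1
  · rw [if_neg hn.ne', lc_inv hr]
    exact (lc_inner (inv_pos.2 hr) (lt_add_one _) (differentiableOn_const 1)).2 _ (by omega)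

theorem laur_lc_mono {r : ℝ} (hr : 0 < r) (a : ℂ) (k : ℕ) (n : ℤ) :
    lc r (fun z => a * z ^ k) n = if n = k then a else 0 := by
  rw [lc_const_mul, lc_congr hr (G := fun z => z ^ (k : ℤ) * (fun _ => 1) z) (by simp),
    lc_zpow_mul hr, laur_lc_one hr]
  simp [sub_eq_zero]

theorem laur_lc_ser {r : ℝ} (hr : 0 < r) {a : ℕ → ℂ} (ha : Summable fun i => ‖a i‖ * r ^ i)
    (j : ℤ) : lc r (ser a) j = if 0 ≤ j then a j.toNat else 0 := by
  have h := lc_hasSum hr (F := fun k z => a k * z ^ k) ha (fun k => by fun_prop)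
    (fun k z hz => laur_term_le a k hz.le) j
  simp only [laur_lc_mono hr] at h
  refine (h.unique ?_)
  split_ifs with hj
  · obtain ⟨n, rfl⟩ := Int.eq_ofNat_of_zero_le hj
    rw [Int.toNat_natCast]
    have := hasSum_single (f := fun k : ℕ => if (n : ℤ) = k then a k else 0) n
      (fun k hk => if_neg (by omega))
    simpa using this
  · have : (fun k : ℕ => if j = k then a k else 0) = fun _ => 0 :=
      funext fun k => if_neg (by omega)
    rw [this]
    exact hasSum_zero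

theorem lc_ser {r R : ℝ} (hr : 0 < r) (h : r < R) {f : ℕ → ℂ} (hf : Bnd R f) (n : ℕ) :
    lc r (ser f) n = f n := by
  rw [laur_lc_ser hr (hf.laur_sum hr.le h)]
  simp

theorem cf_eq_lc {r R : ℝ} (hr : 0 < r) (h : r < R) {f : ℕ → ℂ} (hf : Bnd R f) (N : ℕ) (j : ℤ) :
    cf f N j = lc r (fun z => ser f z ^ N) j := by
  have hr' : ‖(r : ℂ)‖ = r := by rw [Complex.norm_real, Real.norm_eq_abs, abs_of_pos hr]
  have h1 := (laur_pow (hf.summable (z := r) (by rwa [hr'])) N).1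
  simp only [norm_mul, norm_pow, hr'] at h1
  rw [lc_congr hr (G := ser fun n => PowerSeries.coeff n (PowerSeries.mk f ^ N))
    (fun z hz => (hf.ser_pow N (hz.trans_lt h)).tsum_eq.symm), laur_lc_ser hr h1, cf]

end Pool.Agent.MP_098ecc_co.H97
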