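import Pool.Agent.MP_098ecc_co.H97.LocAA

set_option autoImplicit false

namespace Pool.Agent.MP_098ecc_co.H97

open Metric Filter Topology Set Function
open scoped BoundedContinuousFunction

/-- the fixed point map -/
noncomputable def locPhi (G₁ G₂ : BS → BS) (P : ℂ × (BS × BS)) : BS × BS :=
  (P.1 • G₂ P.2.2 + P.1 • holE 0, chA (P.1 • G₁ P.2.1) + holE 0)

theorem locPhi_fst (G₁ G₂ : BS → BS) (P : ℂ × (BS × BS)) (n : ℕ) :
    (locPhi G₁ G₂ P).1 n = P.1 * G₂ P.2.2 n + if n = 0 then P.1 else 0 := by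
  show P.1 * G₂ P.2.2 n + P.1 * holE 0 n = _
  rw [chart_holE]
  split_ifs <;> simp

theorem locPhi_snd (G₁ G₂ : BS → BS) (P : ℂ × (BS × BS)) (n : ℕ) :
    (locPhi G₁ G₂ P).2 n = if n = 0 then 1 else P.1 * G₁ P.2.1 n := by
  show chA (P.1 • G₁ P.2.1) n + holE 0 n = _
  rw [chart_holE, chA_apply]
  split_ifs <;> simp

theorem locA_eqs {D : Dat} {a b : ℝ} (ha : 0 < a) (hb : 0 < b) {G₁ G₂ : BS → BS} {t : ℂ}
    {e : BS × BS} (h₁ : ∀ n : ℕ, un b (G₁ e.1) n = sT D.m (ind ℂ D.L₁) (un a e.1) n)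
    (h₂ : ∀ n : ℕ, un a (G₂ e.2) n = sT D.m (ind ℂ D.L₂) (un b e.2) n) :
    locPhi G₁ G₂ (t, e) = e ↔ Eqs D t (un a e.1) (un b e.2) := by
  have e1 : ∀ n : ℕ, un a (locPhi G₁ G₂ (t, e)).1 n =
      t * sT D.m (ind ℂ D.L₂) (un b e.2) n + if n = 0 then t else 0 := fun n => by
    rw [← h₂, un, un, locPhi_fst]
    split_ifs with h
    · simp [h]
    · ring
  have e2 : ∀ n : ℕ, un b (locPhi G₁ G₂ (t, e)).2 n =
      if n = 0 then 1 else t * sT D.m (ind ℂ D.L₁) (un a e.1) n := fun n => by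
    rw [← h₁, un, un, locPhi_snd]
    split_ifs with h
    · simp [h]
    · ring
  constructor
  · intro h
    rw [h] at e1 e2
    refine ⟨by simpa using e2 0, by simpa [add_comm] using e1 0, fun i hi => ?_, fun i hi => ?_⟩
    · rw [e1, if_neg (by omega), add_zero]
    · rw [e2, if_neg (by omega)]
  · intro h
    refine Prod.ext (locA_un_inj ha (funext fun n => ?_)) (locA_un_inj hb (funext fun n => ?_))
    · rw [e1]
      split_ifs with hn
      · subst hn; rw [h.x0, add_comm]; simp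
      · rw [h.hx n (by omega), add_zero]
    · rw [e2]
      split_ifs with hn
      · subst hn; exact h.y0.symm
      · exact (h.hy n (by omega)).symm

theorem locPhi_diff {G₁ G₂ : BS → BS} {P : ℂ × (BS × BS)} (h₁ : DifferentiableAt ℂ G₁ P.2.1)
    (h₂ : DifferentiableAt ℂ G₂ P.2.2) : DifferentiableAt ℂ (locPhi G₁ G₂) P := by
  have h3 : DifferentiableAt ℂ (fun P : ℂ × (BS × BS) => G₁ P.2.1) P :=
    DifferentiableAt.comp P h₁ (by fun_prop)
  have h4 : DifferentiableAt ℂ (fun P : ℂ × (BS × BS) => G₂ P.2.2) P :=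
    DifferentiableAt.comp P h₂ (by fun_prop)
  exact ((differentiableAt_fst.smul h4).add (differentiableAt_fst.smul_const _)).prodMk
    ((chA.differentiableAt.comp P (differentiableAt_fst.smul h3)).add_const _)

theorem locPhi_fderiv {G₁ G₂ : BS → BS} (t : ℂ) {e : BS × BS} (h₁ : DifferentiableAt ℂ G₁ e.1)
    (h₂ : DifferentiableAt ℂ G₂ e.2) (de : BS × BS) :
    fderiv ℂ (fun e => locPhi G₁ G₂ (t, e)) e de =
      (t • fderiv ℂ G₂ e.2 de.2, chA (t • fderiv ℂ G₁ e.1 de.1)) := by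
  have h3 := (h₁.hasFDerivAt.comp e hasFDerivAt_fst).const_smul t
  have h4 := (h₂.hasFDerivAt.comp e hasFDerivAt_snd).const_smul t
  have h5 : HasFDerivAt (fun e => locPhi G₁ G₂ (t, e)) _ e :=
    (h4.add_const (t • holE 0)).prodMk ((chA.hasFDerivAt.comp e h3).add_const (holE 0))
  rw [h5.fderiv]
  rfl

theorem locA_reg {D : Dat} {q : Amb} {a b ρ₁ ρ₂ : ℝ} (ha : 0 < a) (hb : 0 < b) {G₁ G₂ : BS → BS}
    {e : BS × BS} (hX : un a e.1 = q.cX) (hY : un b e.2 = q.cY) (z₁ : q.z₁ < a) (z₂ : q.z₂ < b)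
    (r₁ : ρ₁ < q.z₁) (r₂ : ρ₂ < q.z₂) (s₁ : ρ₁ < b⁻¹) (s₂ : ρ₂ < a⁻¹)
    (M₁ : Maj D.m D.L₁ q.cX ρ₁) (M₂ : Maj D.m D.L₂ q.cY ρ₂)
    (d₁ : DifferentiableAt ℂ G₁ e.1) (d₂ : DifferentiableAt ℂ G₂ e.2)
    (h₁ : ∀ᶠ u in 𝓝 e.1, ∀ n : ℕ, un b (G₁ u) n = sT D.m (ind ℂ D.L₁) (un a u) n)
    (h₂ : ∀ᶠ u in 𝓝 e.2, ∀ n : ℕ, un a (G₂ u) n = sT D.m (ind ℂ D.L₂) (un b u) n) :
    Regu D q ↔ ∀ de, fderiv ℂ (fun e => locPhi G₁ G₂ (q.t, e)) e de = de → de = 0 := by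
  have e1 : ∀ (de : BS × BS) (n : ℕ), un a (fderiv ℂ (fun e => locPhi G₁ G₂ (q.t, e)) e de).1 n =
      q.t * deriv (fun s : ℂ => sT D.m (ind ℂ D.L₂) (q.cY + s • un b de.2) n) 0 := fun de n => by
    rw [locPhi_fderiv _ d₁ d₂, ← hY, ← locA_dside d₂ h₂, un, un, ← mul_assoc]
    rfl
  have e2 : ∀ (de : BS × BS) (n : ℕ), un b (fderiv ℂ (fun e => locPhi G₁ G₂ (q.t, e)) e de).2 n =
      if n = 0 then 0 else
        q.t * deriv (fun s : ℂ => sT D.m (ind ℂ D.L₁) (q.cX + s • un a de.1) n) 0 := fun de n => by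
    rw [locPhi_fderiv _ d₁ d₂, ← hX, ← locA_dside d₁ h₁, un, un, ← mul_assoc, chA_apply]
    split_ifs
    · simp
    · rfl
  have u0 : ∀ R : ℝ, un R 0 = 0 := fun R => by funext n; simp [un]
  constructor
  · intro h de hde
    have f1 := e1 de
    have f2 := e2 de
    rw [hde] at f1 f2
    obtain ⟨g1, g2⟩ := h (un a de.1) (un b de.2) a b z₁ z₂ (bnd_un a ha _) (bnd_un b hb _)
      (by simpa using f2 0) f1 fun i hi => by rw [f2, if_neg (by omega)]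
    exact Prod.ext (locA_un_inj ha (g1.trans (u0 a).symm)) (locA_un_inj hb (g2.trans (u0 b).symm))
  · intro h dX dY a' b' y₁ y₂ bX bY y0 hx hy
    obtain ⟨C₁, c₁⟩ := sT_dir D.hm D.z₁ M₁ (r₁.trans y₁) bX
    obtain ⟨C₂, c₂⟩ := sT_dir D.hm D.z₂ M₂ (r₂.trans y₂) bY
    have p₁ := M₁.1
    have p₂ := M₂.1
    have k₁ : 0 ≤ C₁ := by simpa using (norm_nonneg _).trans (c₁ 0).2
    have k₂ : 0 ≤ C₂ := by simpa using (norm_nonneg _).trans (c₂ 0).2
    obtain ⟨du, hu⟩ : ∃ u, un a u = dX := exists_un ha ⟨‖(q.t : ℂ)‖ * C₂, fun i => by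
      have := (c₂ i).2
      rw [zpow_natCast] at this
      rw [hx, norm_mul, mul_assoc]
      gcongr
      exact this.trans (by gcongr)⟩
    obtain ⟨dv, hv⟩ : ∃ u, un b u = dY := exists_un hb ⟨‖(q.t : ℂ)‖ * C₁, fun i => by
      rcases Nat.eq_zero_or_pos i with rfl | hi
      · rw [y0, norm_zero]; positivity
      have := (c₁ i).2
      rw [zpow_natCast] at this
      rw [hy i hi, norm_mul, mul_assoc]
      gcongr
      exact this.trans (by gcongr)⟩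
    have := h (du, dv) (Prod.ext (locA_un_inj ha (funext fun n => by
      rw [e1, hu, hv, ← hx])) (locA_un_inj hb (funext fun n => by
        rw [e2, hu, hv]
        split_ifs with hn
        · rw [hn, y0]
        · rw [← hy n (by omega)])))
    rw [Prod.mk_eq_zero] at this
    rw [← hu, ← hv, this.1, this.2]
    exact ⟨u0 a, u0 b⟩

/-- nonnegative real entries -/
def LocNN (u : BS) : Prop := ∀ n, ∃ c : ℝ, 0 ≤ c ∧ u n = c

theorem locA_nn {R : ℝ} (hR : 0 < R) {u : BS} :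
    LocNN u ↔ ∃ g : ℕ → ℝ, (∀ i, 0 ≤ g i) ∧ un R u = cx g := by
  constructor
  · intro h
    choose c h1 h2 using h
    refine ⟨fun i => c i * R⁻¹ ^ i, fun i => by have := h1 i; positivity, funext fun i => ?_⟩
    rw [un, h2]; push_cast; rfl
  · rintro ⟨g, h1, h2⟩ n
    refine ⟨g n * R ^ n, by have := h1 n; positivity, ?_⟩
    rw [locA_un_val hR, h2]; push_cast; rfl

theorem locA_pos (u : BS) : ∃ w : BS, LocNN w ∧
    (∀ n (c : ℝ), 0 ≤ c → ‖w n - c‖ ≤ ‖u n - c‖) ∧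
    (star u = u → ∀ n (c : ℝ), 0 ≤ c → ‖w n - u n‖ ≤ ‖c - u n‖) := by
  have hb : ∀ n, ‖((max (u n).re 0 : ℝ) : ℂ)‖ ≤ ‖u‖ := fun n => by
    rw [Complex.norm_real, Real.norm_of_nonneg (le_max_right _ _)]
    exact max_le ((Complex.re_le_norm _).trans (u.norm_coe_le_norm n)) (norm_nonneg _)
  refine ⟨BoundedContinuousFunction.ofNormedAddCommGroupDiscrete _ _ hb,
    fun n => ⟨_, le_max_right _ _, rfl⟩, fun n c hc => ?_, fun h n c hc => ?_⟩
  · show ‖((max (u n).re 0 : ℝ) : ℂ) - c‖ ≤ _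
    rw [← Complex.ofReal_sub, Complex.norm_real, Real.norm_eq_abs]
    refine le_trans ?_ (Complex.abs_re_le_norm _)
    rw [Complex.sub_re, Complex.ofReal_re]
    have := abs_max_sub_max_le_abs (u n).re c 0
    rwa [max_eq_left hc] at this
  · show ‖((max (u n).re 0 : ℝ) : ℂ) - u n‖ ≤ _
    have h1 : star (u n) = u n := congrArg (fun x : BS => x n) h
    obtain ⟨x, hx⟩ := Complex.conj_eq_iff_real.1 h1
    rw [hx, ← Complex.ofReal_sub, ← Complex.ofReal_sub, Complex.norm_real, Complex.norm_real,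
      Real.norm_eq_abs, Real.norm_eq_abs, Complex.ofReal_re]
    rcases le_total x 0 with h2 | h2
    · rw [max_eq_right h2, abs_of_nonneg (by linarith), abs_of_nonneg (by linarith)]
      linarith
    · rw [max_eq_left h2, sub_self, abs_zero]
      exact abs_nonneg _

theorem locA_nnG {m : ℕ} {L : Set ℕ} {Rin Rout : ℝ} (h1 : 0 < Rin) (h2 : 0 < Rout) {u w : BS}
    (hu : LocNN u) (h : ∀ n : ℕ, un Rout w n = sT m (ind ℂ L) (un Rin u) n) : LocNN w := by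
  obtain ⟨g, g0, hg⟩ := (locA_nn h1).1 hu
  exact (locA_nn h2).2 ⟨fun n => sT m (ind ℝ L) g n, fun n => posl_sT_nn m L g0 n,
    funext fun n => by rw [h, hg, sT_ofReal]⟩

theorem locPhi_nn {G₁ G₂ : BS → BS} {t : ℝ} (ht : 0 ≤ t) {e : BS × BS} (h₁ : LocNN (G₁ e.1))
    (h₂ : LocNN (G₂ e.2)) : LocNN (locPhi G₁ G₂ (t, e)).1 ∧ LocNN (locPhi G₁ G₂ (t, e)).2 := by
  refine ⟨fun n => ?_, fun n => ?_⟩
  · obtain ⟨c, c0, hc⟩ := h₂ n
    refine ⟨t * c + if n = 0 then t else 0, by positivity, ?_⟩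
    rw [locPhi_fst, hc]
    split_ifs <;> simp
  · obtain ⟨c, c0, hc⟩ := h₁ n
    refine ⟨if n = 0 then 1 else t * c, by positivity, ?_⟩
    rw [locPhi_snd, hc]
    split_ifs <;> simp

theorem locA_tail (N : ℕ) (v : Fin N → ℂ) {n : ℕ} (h : ¬ n < N) : chI N v n = 0 := by
  rw [chI_apply, dif_neg h]

theorem locA_proj (N : ℕ) (u : BS) : ‖chI N (chP N u)‖ ≤ ‖u‖ := by
  rw [BoundedContinuousFunction.norm_le (norm_nonneg _)]
  intro n
  rw [chI_apply]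
  split_ifs
  · exact u.norm_coe_le_norm n
  · simp

theorem locA_starI (N : ℕ) (v : Fin N → ℂ) : chI N (star v) = star (chI N v) := by
  ext n
  show _ = star (chI N v n)
  rw [chI_apply, chI_apply]
  split_ifs <;> simp

theorem locA_starG {m : ℕ} {L : Set ℕ} {Rin Rout : ℝ} (h2 : 0 < Rout) {u w w' : BS}
    (h : ∀ n : ℕ, un Rout w n = sT m (ind ℂ L) (un Rin u) n)
    (h' : ∀ n : ℕ, un Rout w' n = sT m (ind ℂ L) (un Rin (star u)) n) : w' = star w :=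
  locA_un_inj h2 (funext fun n => by rw [h', locA_un_star, sT_star, ← h, locA_un_star]; rfl)

theorem locPhi_star {G₁ G₂ : BS → BS} (t : ℂ) {e : BS × BS} (h₁ : G₁ (star e.1) = star (G₁ e.1))
    (h₂ : G₂ (star e.2) = star (G₂ e.2)) :
    locPhi G₁ G₂ (star t, star e) = star (locPhi G₁ G₂ (t, e)) := by
  refine Prod.ext ?_ ?_ <;> ext n
  · show _ = star ((locPhi G₁ G₂ (t, e)).1 n)
    rw [locPhi_fst, locPhi_fst]
    show star t * G₂ (star e.2) n + _ = _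
    rw [h₂]
    split_ifs <;> simp
  · show _ = star ((locPhi G₁ G₂ (t, e)).2 n)
    rw [locPhi_snd, locPhi_snd]
    show (if n = 0 then 1 else star t * G₁ (star e.1) n) = _
    rw [h₁]
    split_ifs <;> simp

/-- the negative part is a fixed point of a contraction -/
theorem locA_nonneg {N : ℕ} {e e₀ : BS × BS} {r : ℝ} {Ψ : BS × BS → BS × BS}
    (n₁ : LocNN e₀.1) (n₂ : LocNN e₀.2) (he : e ∈ ball e₀ r) (hs : star e = e) (hf : Ψ e = e)
    (hΨ : ∀ x ∈ ball e₀ r, LocNN x.1 → LocNN x.2 → LocNN (Ψ x).1 ∧ LocNN (Ψ x).2)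
    (hl : ∀ x ∈ ball e₀ r, ‖(Ψ x - ((chI N).prodMap (chI N)) (((chP N).prodMap (chP N)) (Ψ x))) -
      (Ψ e - ((chI N).prodMap (chI N)) (((chP N).prodMap (chP N)) (Ψ e)))‖ ≤ 1 / 8 * ‖x - e‖)
    (h₁ : ∀ n < N, ∃ c : ℝ, 0 ≤ c ∧ e.1 n = c) (h₂ : ∀ n < N, ∃ c : ℝ, 0 ≤ c ∧ e.2 n = c) :
    LocNN e.1 ∧ LocNN e.2 := by
  obtain ⟨u, u1, u2, u3⟩ := locA_pos e.1
  obtain ⟨v, v1, v2, v3⟩ := locA_pos e.2
  have k : ∀ {w x y : BS}, LocNN y → (∀ n (c : ℝ), 0 ≤ c → ‖w n - c‖ ≤ ‖x n - c‖) →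
      ‖w - y‖ ≤ ‖x - y‖ := fun {w x y} hy h => by
    rw [BoundedContinuousFunction.norm_le (norm_nonneg _)]
    intro n
    obtain ⟨c, c0, hc⟩ := hy n
    refine le_trans ?_ ((x - y).norm_coe_le_norm n)
    simp only [BoundedContinuousFunction.sub_apply, hc]
    exact h n c c0
  have hm : (u, v) ∈ ball e₀ r := by
    rw [mem_ball_iff_norm] at he ⊢
    exact lt_of_le_of_lt (max_le ((k n₁ u2).trans (norm_fst_le (e - e₀)))
      ((k n₂ v2).trans (norm_snd_le (e - e₀)))) he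
  obtain ⟨p₁, p₂⟩ := hΨ _ hm u1 v1
  have hK := hl _ hm
  rw [hf] at hK
  have k' : ∀ {w x y d : BS} {K : ℝ} {s s' : Fin N → ℂ}, LocNN y →
      (∀ n (c : ℝ), 0 ≤ c → ‖w n - x n‖ ≤ ‖c - x n‖) → (∀ n < N, ∃ c : ℝ, 0 ≤ c ∧ x n = c) →
      d = (y - chI N s) - (x - chI N s') → ‖d‖ ≤ K → ‖w - x‖ ≤ K := by
    intro w x y d K s s' hy h h' hd hK
    have K0 := (norm_nonneg _).trans hK
    rw [BoundedContinuousFunction.norm_le K0]
    intro n
    by_cases hn : n < N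
    · obtain ⟨c, c0, hc⟩ := h' n hn
      refine (h n c c0).trans ?_
      rw [hc, sub_self, norm_zero]; exact K0
    · obtain ⟨c, c0, hc⟩ := hy n
      refine (h n c c0).trans (le_trans (le_of_eq ?_) ((d.norm_coe_le_norm n).trans hK))
      simp only [hd, BoundedContinuousFunction.sub_apply, locA_tail N _ hn, sub_zero, hc]
  have q₁ := k' p₁ (u3 (congrArg Prod.fst hs)) h₁ rfl ((norm_fst_le _).trans hK)
  have q₂ := k' p₂ (v3 (congrArg Prod.snd hs)) h₂ rfl ((norm_snd_le _).trans hK)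
  have q : ‖(u, v) - e‖ ≤ 1 / 8 * ‖(u, v) - e‖ := max_le q₁ q₂
  have q0 : (u, v) = e := by
    rw [← sub_eq_zero, ← norm_le_zero_iff]; linarith
  rw [← q0]
  exact ⟨u1, v1⟩

theorem locA_sT_zero {m : ℕ} {L : Set ℕ} {n : ℕ} (h : ∀ l ∈ L, l < n) (f : ℕ → ℂ) :
    sT m (ind ℂ L) f n = 0 := by
  rw [sT, ← tsum_zero (β := ℕ)]
  refine tsum_congr fun l => ?_
  by_cases hl : l ∈ L
  · rw [plain_cf_neg _ _ (h l hl), mul_zero]
  · simp [ind, hl]

end Pool.Agent.MP_098ecc_co.H97
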