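import Pool.Agent.MP_098ecc_co.H97.Plain
import Pool.Agent.MP_098ecc_co.H97.Par
import Pool.Agent.MP_098ecc_co.H97.Asm
import Pool.Agent.MP_098ecc_co.H97.LocAB

set_option autoImplicit false

namespace Pool.Agent.MP_098ecc_co.H97

open Metric Filter Topology Set Function
open scoped BoundedContinuousFunction

theorem locA_hp {N : ℕ} {a b : ℝ} (ha : 0 < a) (hb : 0 < b) {q : Amb} {e : BS × BS}
    (hX : un a e.1 = q.cX) (hY : un b e.2 = q.cY) :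
    hp N a b q = ((q.t : ℂ), ((chP N).prodMap (chP N)) e) := by
  refine Prod.ext rfl (Prod.ext (funext fun i => ?_) (funext fun i => ?_))
  · show ((q.X i * a ^ (i : ℕ) : ℝ) : ℂ) = e.1 i
    rw [locA_un_val ha e.1, hX]; push_cast; rfl
  · show ((q.Y i * b ^ (i : ℕ) : ℝ) : ℂ) = e.2 i
    rw [locA_un_val hb e.2, hY]; push_cast; rfl

theorem locA_bd {x y : BS} {N : ℕ} {w w' : Fin N → ℂ} {C K θ R : ℝ} (h0 : 0 < θ) (h1 : θ ≤ 1)
    (hR : 0 < R) (hC : 0 ≤ C) (hN : 1 ≤ N) (h : x = chI N w + (y - chI N w'))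
    (hy : ∀ n, 1 ≤ n → ‖y n‖ ≤ C * θ ^ n) (hx : ‖x‖ ≤ K) (i : ℕ) :
    ‖un R x i‖ ≤ (C + K / θ ^ N) * (θ * R⁻¹) ^ i := by
  have hK := (norm_nonneg _).trans hx
  rw [un, norm_mul, norm_pow, norm_inv, Complex.norm_real, Real.norm_of_nonneg hR.le, mul_pow,
    ← mul_assoc]
  gcongr
  by_cases hi : i < N
  · calc _ ≤ K := (x.norm_coe_le_norm i).trans hx
      _ = K / θ ^ N * θ ^ N := by field_simp
      _ ≤ K / θ ^ N * θ ^ i :=
        mul_le_mul_of_nonneg_left (pow_le_pow_of_le_one h0.le h1 hi.le) (by positivity)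
      _ ≤ _ := by gcongr; linarith
  · have : x i = y i := by
      rw [h]
      simp only [BoundedContinuousFunction.add_apply, BoundedContinuousFunction.sub_apply,
        locA_tail N _ hi, zero_add, sub_zero]
    rw [this]
    refine (hy i (by omega)).trans ?_
    gcongr
    have : 0 ≤ K / θ ^ N := by positivity
    linarith

theorem locA_two {m : ℕ} {L₁ L₂ : Set ℕ} {a b ρ₁ ρ₂ : ℝ} {u₀ v₀ : BS} (hm : 0 < m)
    (z₁ : 0 ∉ L₁) (z₂ : 0 ∉ L₂) (h1 : ρ₁ < a) (h2 : ρ₁ < b⁻¹) (h3 : b⁻¹ < a) (h4 : ρ₂ < b)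
    (h5 : ρ₂ < a⁻¹) (h6 : a⁻¹ < b) (M₁ : Maj m L₁ (un a u₀) ρ₁) (M₂ : Maj m L₂ (un b v₀) ρ₂) :
    ∃ (G₁ G₂ : BS → BS) (C θ r : ℝ), 0 ≤ C ∧ 0 < θ ∧ θ < 1 ∧ 0 < r ∧
      (∀ u ∈ ball u₀ r, DifferentiableAt ℂ G₁ u ∧ Maj m L₁ (un a u) ρ₁ ∧
        (∀ n, ‖G₁ u n‖ ≤ C * θ ^ n) ∧ ∀ n : ℕ, un b (G₁ u) n = sT m (ind ℂ L₁) (un a u) n) ∧
      ∀ u ∈ ball v₀ r, DifferentiableAt ℂ G₂ u ∧ Maj m L₂ (un b u) ρ₂ ∧
        (∀ n, ‖G₂ u n‖ ≤ C * θ ^ n) ∧ ∀ n : ℕ, un a (G₂ u) n = sT m (ind ℂ L₂) (un b u) n := by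
  obtain ⟨G₁, C₁, θ₁, a1, a2, a3⟩ := locA_side hm z₁ h1 h2 h3 M₁
  obtain ⟨G₂, C₂, θ₂, b1, b2, b3⟩ := locA_side hm z₂ h4 h5 h6 M₂
  obtain ⟨r₁, a4, a5⟩ := Metric.eventually_nhds_iff_ball.1 a3
  obtain ⟨r₂, b4, b5⟩ := Metric.eventually_nhds_iff_ball.1 b3
  have k : ∀ {x C θ : ℝ} (n : ℕ), 0 ≤ θ → C ≤ max (max C₁ C₂) 0 → θ ≤ max (max θ₁ θ₂) (1 / 2) →
      x ≤ C * θ ^ n → x ≤ max (max C₁ C₂) 0 * max (max θ₁ θ₂) (1 / 2) ^ n := by
    intro x C θ n k1 k2 k3 k4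
    refine k4.trans ((mul_le_mul_of_nonneg_right k2 (by positivity)).trans ?_)
    have := le_max_right (max C₁ C₂) 0
    gcongr
  refine ⟨G₁, G₂, max (max C₁ C₂) 0, max (max θ₁ θ₂) (1 / 2), min r₁ r₂, le_max_right _ _,
    lt_max_of_lt_right (by norm_num), max_lt (max_lt a2 b2) (by norm_num), lt_min a4 b4,
    fun u hu => ?_, fun u hu => ?_⟩
  · obtain ⟨c1, c2, c3, c4⟩ := a5 u (ball_subset_ball (min_le_left _ _) hu)
    exact ⟨c1, c2, fun n => k n a1 (by simp) (by simp) (c3 n), c4⟩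
  · obtain ⟨c1, c2, c3, c4⟩ := b5 u (ball_subset_ball (min_le_right _ _) hu)
    exact ⟨c1, c2, fun n => k n b1 (by simp) (by simp) (c3 n), c4⟩

theorem pchart {D : Dat} {p : Amb} (h : Pos D p) :
    ∃ N a b U F X Y O, PChart D p N a b U F X Y O := by
  obtain ⟨ρ₁, ρ₂, p₁, p₂, r1, r2, r3, r4, A₁, A₂⟩ := pos_radii h
  have z₁ := h.c₁.pos
  have z₂ := h.c₂.pos
  obtain ⟨a, ha1, ha2⟩ := exists_between (show max p.z₁ p.z₂⁻¹ < ρ₂⁻¹ from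
    max_lt ((lt_inv_comm₀ z₁ p₂).2 r4) ((inv_lt_inv₀ z₂ p₂).2 r3))
  obtain ⟨b, hb1, hb2⟩ := exists_between (show max p.z₂ p.z₁⁻¹ < ρ₁⁻¹ from
    max_lt ((lt_inv_comm₀ z₂ p₁).2 r2) ((inv_lt_inv₀ z₁ p₁).2 r1))
  rw [max_lt_iff] at ha1 hb1
  have ha : 0 < a := z₁.trans ha1.1
  have hb : 0 < b := z₂.trans hb1.1
  have s₁ : ρ₁ < b⁻¹ := (lt_inv_comm₀ p₁ hb).2 hb2
  have s₂ : ρ₂ < a⁻¹ := (lt_inv_comm₀ p₂ ha).2 ha2
  have s₃ : ρ₁ * b < 1 := by rwa [← one_div, lt_div_iff₀ hb] at s₁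
  have s₄ : ρ₂ * a < 1 := by rwa [← one_div, lt_div_iff₀ ha] at s₂
  obtain ⟨C₀, hC₀⟩ := pos_tail h p₁ p₂ r1 r3 A₁ A₂
  have hC₁ : ∀ᶠ q in 𝓝[{q | Pos D q}] p, (∀ i, 0 ≤ q.X i ∧ q.X i ≤ C₀ * ρ₂ ^ i) ∧
      ∀ i, 0 ≤ q.Y i ∧ q.Y i ≤ C₀ * ρ₁ ^ i := by
    filter_upwards [hC₀, self_mem_nhdsWithin] with q h1 h2 using
      ⟨fun i => ⟨h2.c₁.nn i, (h1 i).1⟩, fun i => ⟨h2.c₂.nn i, (h1 i).2⟩⟩
  have hC₂ := hC₁.self_of_nhdsWithin h
  obtain ⟨u₀, hu₀⟩ : ∃ u, un a u = cx p.X := exists_un ha ⟨C₀, fun i => by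
    have hC : 0 ≤ C₀ := by simpa using (hC₂.1 0).1.trans (hC₂.1 0).2
    rw [poslB_norm h.c₁.nn]
    exact (hC₂.1 i).2.trans (by gcongr)⟩
  obtain ⟨v₀, hv₀⟩ : ∃ u, un b u = cx p.Y := exists_un hb ⟨C₀, fun i => by
    have hC : 0 ≤ C₀ := by simpa using (hC₂.1 0).1.trans (hC₂.1 0).2
    rw [poslB_norm h.c₂.nn]
    exact (hC₂.2 i).2.trans (by gcongr)⟩
  obtain ⟨G₁, G₂, C, θ, r, hC, θ0, θ1, hr, H₁, H₂⟩ := locA_two D.hm D.z₁ D.z₂ (r1.trans ha1.1) s₁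
    (((inv_lt_comm₀ z₁ hb).1 hb1.2).trans ha1.1) (r3.trans hb1.1) s₂
    (((inv_lt_comm₀ z₂ ha).1 ha1.2).trans hb1.1)
    (hu₀ ▸ maj_cx h.c₁.nn p₁ (poslB_sum h.c₁.nn h.c₁.sum p₁.le r1.le) A₁ :
      Maj D.m D.L₁ (un a u₀) ρ₁)
    (hv₀ ▸ maj_cx h.c₂.nn p₂ (poslB_sum h.c₂.nn h.c₂.sum p₂.le r3.le) A₂ :
      Maj D.m D.L₂ (un b v₀) ρ₂)
  set e₀ : BS × BS := (u₀, v₀) with he₀
  have n₁ : LocNN e₀.1 := (locA_nn ha).2 ⟨_, h.c₁.nn, hu₀⟩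
  have n₂ : LocNN e₀.2 := (locA_nn hb).2 ⟨_, h.c₂.nn, hv₀⟩
  have B : ∀ e ∈ ball e₀ r, e.1 ∈ ball u₀ r ∧ e.2 ∈ ball v₀ r := fun e he => by
    rwa [he₀, ← ball_prod_same] at he
  have hsub : ball e₀ (r / 2) ⊆ ball e₀ r := ball_subset_ball (by linarith)
  have hE : ∀ t, ∀ e ∈ ball e₀ r, (locPhi G₁ G₂ (t, e) = e ↔ Eqs D t (un a e.1) (un b e.2)) :=
    fun t e he => locA_eqs ha hb (H₁ _ (B e he).1).2.2.2 (H₂ _ (B e he).2).2.2.2
  set C' : ℝ := (‖(p.t : ℂ)‖ + r) * C with hC'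
  have C'0 : 0 ≤ C' := by positivity
  have hdec : ∀ t : ℂ, ‖t - p.t‖ < r → ∀ e ∈ ball e₀ r, ∀ n, 1 ≤ n →
      ‖(locPhi G₁ G₂ (t, e)).1 n‖ ≤ C' * θ ^ n ∧ ‖(locPhi G₁ G₂ (t, e)).2 n‖ ≤ C' * θ ^ n := by
    intro t ht e he n hn
    have h1 : ‖t‖ ≤ ‖(p.t : ℂ)‖ + r := by
      have := norm_add_le (p.t : ℂ) (t - p.t)
      rw [add_sub_cancel] at this
      linarith
    rw [locPhi_fst, locPhi_snd, if_neg (by omega), if_neg (by omega), add_zero, norm_mul, norm_mul,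
      hC', mul_assoc]
    exact ⟨mul_le_mul h1 ((H₂ _ (B e he).2).2.2.1 n) (norm_nonneg _) (by positivity),
      mul_le_mul h1 ((H₁ _ (B e he).1).2.2.1 n) (norm_nonneg _) (by positivity)⟩
  obtain ⟨N, hN, hN'⟩ : ∃ N : ℕ, 1 ≤ N ∧ C' * θ ^ N ≤ r / 16 := by
    have := (tendsto_pow_atTop_nhds_zero_of_lt_one θ0.le θ1).const_mul C'
    rw [mul_zero] at this
    exact ((eventually_ge_atTop 1).and (this.eventually (ge_mem_nhds (by positivity)))).exists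
  set π := (chP N).prodMap (chP N) with hπ
  set ι := (chI N).prodMap (chI N) with hι
  have hπι : ∀ v, π (ι v) = v := fun v => Prod.ext (chPI N v.1) (chPI N v.2)
  have hιπ : ∀ x, ‖ι (π x)‖ ≤ ‖x‖ := fun x =>
    max_le ((locA_proj N x.1).trans (norm_fst_le x)) ((locA_proj N x.2).trans (norm_snd_le x))
  have B' : ∀ P ∈ ball ((p.t : ℂ), e₀) r, ‖P.1 - p.t‖ < r ∧ P.2 ∈ ball e₀ r := fun P hP => by
    rw [← ball_prod_same] at hP
    exact ⟨mem_ball_iff_norm.1 hP.1, hP.2⟩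
  have tail : ∀ P ∈ ball ((p.t : ℂ), e₀) r,
      ‖locPhi G₁ G₂ P - ι (π (locPhi G₁ G₂ P))‖ ≤ r / 16 := fun P hP =>
    max_le ((chart_tail θ0.le θ1.le C'0
      (fun n hn => (hdec P.1 (B' P hP).1 P.2 (B' P hP).2 n hn).1) hN).trans hN')
      ((chart_tail θ0.le θ1.le C'0
        (fun n hn => (hdec P.1 (B' P hP).1 P.2 (B' P hP).2 n hn).2) hN).trans hN')
  have f0 : locPhi G₁ G₂ (p.t, e₀) = e₀ := (hE _ _ (mem_ball_self hr)).2 (by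
    rw [hu₀, hv₀]; exact Pos.eqsC h.eqs)
  obtain ⟨U, hU⟩ : ∃ U, U = {z : ℂ × ((Fin N → ℂ) × (Fin N → ℂ)) |
    ‖z.1 - p.t‖ < r / 4 ∧ ‖ι (z.2 - π e₀)‖ < r / 8} := ⟨_, rfl⟩
  obtain ⟨T, Uo, dT, dΦ, hT⟩ := locA_ls π ι hπι (Φ := locPhi G₁ G₂) hr
    (fun P hP => (locPhi_diff (H₁ _ (B _ (B' P hP).2).1).1
      (H₂ _ (B _ (B' P hP).2).2).1).differentiableWithinAt) tail
    (by simpa only [f0] using tail _ (mem_ball_self hr)) hU
  have hfix : ∀ z ∈ U, π (locPhi G₁ G₂ (z.1, T z)) - z.2 = 0 → locPhi G₁ G₂ (z.1, T z) = T z := by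
    intro z hz h0
    have := (hT z hz).2.2.1
    rw [sub_eq_zero.1 h0, add_sub_cancel] at this
    exact this.symm
  have st0 : star e₀ = e₀ := by
    have k : ∀ u : BS, LocNN u → star u = u := fun u hu => by
      ext n
      obtain ⟨c, -, hc⟩ := hu n
      show star (u n) = u n
      rw [hc]; simp
    exact Prod.ext (k _ n₁) (k _ n₂)
  have stn : ∀ e : BS × BS, ‖star e‖ = ‖e‖ := fun e => by
    rw [Prod.norm_def, Prod.norm_def, Prod.fst_star, Prod.snd_star, norm_star, norm_star]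
  have stb : ∀ s, ∀ e ∈ ball e₀ s, star e ∈ ball e₀ s := fun s e he => by
    rw [mem_ball_iff_norm] at he ⊢
    rwa [← st0, ← star_sub, stn]
  have stπ : ∀ e, π (star e) = star (π e) := fun e => rfl
  have stι : ∀ v, ι (star v) = star (ι v) := fun v =>
    Prod.ext (locA_starI N v.1) (locA_starI N v.2)
  have stΦ : ∀ t, ∀ e ∈ ball e₀ r, locPhi G₁ G₂ (star t, star e) = star (locPhi G₁ G₂ (t, e)) :=
    fun t e he => locPhi_star t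
      (locA_starG hb (H₁ _ (B e he).1).2.2.2 (H₁ _ (B _ (stb r e he)).1).2.2.2)
      (locA_starG ha (H₂ _ (B e he).2).2.2.2 (H₂ _ (B _ (stb r e he)).2).2.2.2)
  have sU : ∀ z ∈ U, star z ∈ U := fun z hz => by
    rw [hU] at hz ⊢
    refine ⟨?_, ?_⟩
    · rw [← norm_star, star_sub]; simpa using hz.1
    · rw [Prod.snd_star, ← st0, stπ, ← star_sub, stι, stn]; exact hz.2
  have sT' : ∀ z ∈ U, T (star z) = star (T z) := fun z hz => by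
    refine ((hT _ (sU z hz)).2.2.2.1 _ (stb _ _ (hT z hz).1) ?_).symm
    rw [Prod.fst_star, Prod.snd_star, stΦ _ _ (hsub (hT z hz).1), stπ, stι, stι, ← star_sub,
      ← star_add, ← (hT z hz).2.2.1]
  obtain ⟨l1, l2, l3, l4, l5⟩ := poslB_lim univ p
  rw [nhdsWithin_univ] at l1 l4 l5
  obtain ⟨-, l2, l3, -, -⟩ := poslB_lim {q | Pos D q} p
  have hO : ∀ᶠ q in 𝓝 p, (0 < q.z₁ ∧ 0 < q.z₂ ∧ q.z₁ < a ∧ q.z₂⁻¹ < a ∧ q.z₂ < b ∧ q.z₁⁻¹ < b) ∧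
      (ρ₁ < q.z₁ ∧ ρ₂ < q.z₂) ∧ (Pos D q → ∃ e : BS × BS, un a e.1 = q.cX ∧ un b e.2 = q.cY ∧
        hp N a b q ∈ U ∧ T (hp N a b q) = e ∧ locPhi G₁ G₂ (q.t, e) = e) := by
    have k1 := (locA_emb ha p₂.le s₄ l2 (hC₁.mono fun q hq => hq.1) hC₂.1 hu₀
      (show 0 < r / 8 by positivity)).and (locA_emb hb p₁.le s₃ l3 (hC₁.mono fun q hq => hq.2)
        hC₂.2 hv₀ (show 0 < r / 8 by positivity))
    rw [eventually_nhdsWithin_iff] at k1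
    filter_upwards [k1, l4.eventually (lt_mem_nhds z₁), l5.eventually (lt_mem_nhds z₂),
      l4.eventually (gt_mem_nhds ha1.1), (l5.inv₀ z₂.ne').eventually (gt_mem_nhds ha1.2),
      l5.eventually (gt_mem_nhds hb1.1), (l4.inv₀ z₁.ne').eventually (gt_mem_nhds hb1.2),
      l4.eventually (lt_mem_nhds r1), l5.eventually (lt_mem_nhds r3),
      l1.eventually (ball_mem_nhds p.t (show 0 < r / 4 by positivity))]
      with q q0 q1 q2 q3 q4 q5 q6 q7 q8 q9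
    refine ⟨⟨q1, q2, q3, q4, q5, q6⟩, ⟨q7, q8⟩, fun hq => ?_⟩
    obtain ⟨⟨u, u1, u2⟩, v, v1, v2⟩ := q0 hq
    have m1 : (u, v) ∈ ball e₀ (r / 8) := by
      rw [he₀, ← ball_prod_same]; exact ⟨u2, v2⟩
    have m2 : (u, v) ∈ ball e₀ (r / 2) := ball_subset_ball (by linarith) m1
    have m3 : locPhi G₁ G₂ (q.t, (u, v)) = (u, v) := (hE _ _ (hsub m2)).2 (by
      rw [u1, v1]; exact Pos.eqsC hq.eqs)
    have m4 : hp N a b q = ((q.t : ℂ), π (u, v)) := locA_hp ha hb u1 v1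
    have m5 : hp N a b q ∈ U := by
      rw [hU, m4]
      refine ⟨?_, ?_⟩
      · show ‖(q.t : ℂ) - p.t‖ < r / 4
        rw [← Complex.ofReal_sub, Complex.norm_real]
        exact mem_ball_iff_norm.1 q9
      · show ‖ι (π (u, v) - π e₀)‖ < r / 8
        rw [← map_sub]
        exact (hιπ _).trans_lt (mem_ball_iff_norm.1 m1)
    refine ⟨(u, v), u1, v1, m5, ((hT _ m5).2.2.2.1 _ m2 ?_).symm, m3⟩
    rw [m4, m3, add_sub_cancel]
  obtain ⟨O, hO, Oo, Om⟩ := eventually_nhds_iff.1 hO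
  have dun : ∀ (R : ℝ) (i : ℕ), Differentiable ℂ fun u : BS => un R u i := fun R i =>
    (laur_eval i).mul_const _
  refine ⟨N, a, b, U, fun z => π (locPhi G₁ G₂ (z.1, T z)) - z.2, fun z => un a (T z).1,
    fun z => un b (T z).2, O, Uo, (π.differentiable.comp_differentiableOn dΦ).sub
      differentiableOn_snd, fun i => (dun a i).comp_differentiableOn dT.fst,
    fun i => (dun b i).comp_differentiableOn dT.snd,
    ⟨C' + (‖e₀‖ + r) / θ ^ N, θ, θ0.le, θ1, fun z hz i => ?_⟩, sU, fun z hz => ?_, fun z hz => ?_,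
    fun z hz => ?_, fun z hz h0 => (hE _ _ (hsub (hT z hz).1)).1 (hfix z hz h0), Oo, Om,
    fun q hq => (hO q hq).1, fun q hq hq' => ?_, fun q hq hq' W hW => ?_, fun q hq hq' => ?_⟩
  · obtain ⟨t1, -, t3, -⟩ := hT z hz
    have k1 : ‖T z‖ ≤ ‖e₀‖ + r := by
      have := norm_add_le e₀ (T z - e₀)
      rw [add_sub_cancel] at this
      linarith [mem_ball_iff_norm.1 (hsub t1)]
    have k2 := hdec z.1 (by rw [hU] at hz; linarith [hz.1]) _ (hsub t1)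
    exact ⟨locA_bd θ0 θ1.le ha C'0 hN (congrArg Prod.fst t3) (fun n hn => (k2 n hn).1)
      ((norm_fst_le _).trans k1) i, locA_bd θ0 θ1.le hb C'0 hN (congrArg Prod.snd t3)
      (fun n hn => (k2 n hn).2) ((norm_snd_le _).trans k1) i⟩
  · rw [sT' z hz, Prod.fst_star, Prod.snd_star, stΦ _ _ (hsub (hT z hz).1), stπ, star_sub]
  · rw [sT' z hz, Prod.fst_star, locA_un_star]
  · rw [sT' z hz, Prod.snd_star, locA_un_star]
  · obtain ⟨e, e1, e2, e3, e4, e5⟩ := (hO q hq).2.2 hq'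
    refine ⟨e3, ?_, by rw [e4, e1], by rw [e4, e2]⟩
    rw [e4, locA_hp ha hb e1 e2, e5, sub_self]
  · obtain ⟨e, e1, e2, e3, e4, e5⟩ := (hO q hq).2.2 hq'
    obtain ⟨-, -, q3, -, q5, -⟩ := (hO q hq).1
    have cT : Tendsto T (𝓝 (hp N a b q)) (𝓝 e) :=
      e4 ▸ (dT.differentiableAt (Uo.mem_nhds e3)).continuousAt
    have cE : ∀ (R : ℝ) (i : ℕ), Continuous fun u : BS => (un R u i).re := fun R i =>
      Complex.continuous_re.comp (dun R i).continuous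
    have c1 : Tendsto (fun z : ℂ × ((Fin N → ℂ) × (Fin N → ℂ)) => z.1.re) (𝓝 (hp N a b q))
        (𝓝 q.t) := (Complex.continuous_re.comp continuous_fst).tendsto' _ _ (by simp [hp])
    have c2 : ∀ i, Tendsto (fun z => (un a (T z).1 i).re) (𝓝 (hp N a b q)) (𝓝 (q.X i)) :=
      fun i => (((cE a i).comp continuous_fst).tendsto' _ _ (by simp [e1])).comp cT
    have c3 : ∀ i, Tendsto (fun z => (un b (T z).2 i).re) (𝓝 (hp N a b q)) (𝓝 (q.Y i)) :=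
      fun i => (((cE b i).comp continuous_snd).tendsto' _ _ (by simp [e2])).comp cT
    have c4 : Tendsto (fun y : (ℂ × ((Fin N → ℂ) × (Fin N → ℂ))) × (ℝ × ℝ) =>
        ((y.1.1.re, fun i => (un a (T y.1).1 i).re, fun i => (un b (T y.1).2 i).re, y.2) : Amb))
        (𝓝 (hp N a b q) ×ˢ 𝓝 (q.z₁, q.z₂)) (𝓝 q) :=
      (c1.comp tendsto_fst).prodMk_nhds (((tendsto_pi_nhds.2 c2).comp tendsto_fst).prodMk_nhds
        (((tendsto_pi_nhds.2 c3).comp tendsto_fst).prodMk_nhds tendsto_snd))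
    obtain ⟨pa, hpa, pb, hpb, c5⟩ := eventually_prod_iff.1 (c4.eventually hW)
    obtain ⟨δ, hδ, hpb⟩ := Metric.eventually_nhds_iff_ball.1 hpb
    have c6 : ∀ᶠ z in 𝓝 (hp N a b q), ∀ n ∈ Finset.range N, 0 < (un a (T z).1 n).re ∧
        ((∃ l ∈ D.L₁, n ≤ l) → 0 < (un b (T z).2 n).re) := by
      rw [eventually_all_finset]
      intro n _
      refine ((c2 n).eventually (lt_mem_nhds (hq'.px n))).and ?_
      by_cases hl : ∃ l ∈ D.L₁, n ≤ l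
      · obtain ⟨l, k1, k2⟩ := hl
        exact ((c3 n).eventually (lt_mem_nhds (hq'.py k1 k2))).mono fun z hz _ => hz
      · exact Eventually.of_forall fun z hz => absurd hz hl
    filter_upwards [hpa, c6, Uo.mem_nhds e3, c1.eventually (lt_mem_nhds hq'.tpos),
      ((continuous_fst.tendsto e).comp cT).eventually
        (locA_crit D.hm hq'.c₁ (hq'.px 0) q3 hq'.a₁ e1 hδ),
      ((continuous_snd.tendsto e).comp cT).eventually
        (locA_crit D.hm hq'.c₂ (poslB_y0 hq') q5 hq'.a₂ e2 hδ)] with z y1 y2 hz y3 y4 y5 hs h0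
    have hf := hfix z hz h0
    have hs' : star (T z) = T z := by rw [← sT' z hz, hs]
    have ht : ((z.1.re : ℝ) : ℂ) = z.1 := Complex.conj_eq_iff_re.1 (congrArg Prod.fst hs)
    have hq1 := (hE _ _ (hsub (hT z hz).1)).1 hf
    have k : ∀ {R : ℝ} {u : BS} {n : ℕ}, 0 < R → star u = u → 0 ≤ (un R u n).re →
        ∃ c : ℝ, 0 ≤ c ∧ u n = c := fun {R u n} hR hu h1 => by
      have h2 : star (un R u n) = un R u n := by
        have := congrFun (locA_un_star R u) n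
        rw [hu] at this
        exact this.symm
      refine ⟨(un R u n).re * R ^ n, by positivity, ?_⟩
      rw [locA_un_val hR u n]
      push_cast
      rw [Complex.conj_eq_iff_re.1 h2]
    obtain ⟨w₁, w₂⟩ := locA_nonneg (Ψ := fun e => locPhi G₁ G₂ (z.1, e)) n₁ n₂ (hT z hz).1 hs' hf
      (fun x hx x1 x2 => by
        rw [← ht]
        exact locPhi_nn y3.le (locA_nnG ha hb x1 (H₁ _ (B x (hsub hx)).1).2.2.2)
          (locA_nnG hb ha x2 (H₂ _ (B x (hsub hx)).2).2.2.2)) (hT z hz).2.2.2.2.1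
      (fun n hn => k ha (congrArg Prod.fst hs') (y2 n (Finset.mem_range.2 hn)).1.le)
      (fun n hn => k hb (congrArg Prod.snd hs') (by
        by_cases hl : ∃ l ∈ D.L₁, n ≤ l
        · exact ((y2 n (Finset.mem_range.2 hn)).2 hl).le
        · push Not at hl
          obtain ⟨l, k1, -⟩ := D.two₁
          rw [hq1.hy n (by have := hl l k1; omega), locA_sT_zero hl]
          simp))
    obtain ⟨X', X0, hX'⟩ := (locA_nn ha).1 w₁
    obtain ⟨Y', Y0, hY'⟩ := (locA_nn hb).1 w₂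
    obtain ⟨ζ₁, g1, g2, g3⟩ := y4 X' hX' X0
    obtain ⟨ζ₂, g4, g5, g6⟩ := y5 Y' hY' Y0
    have hW' := c5 y1 (hpb (ζ₁, ζ₂) (by rw [← ball_prod_same]; exact ⟨g1, g4⟩))
    simp only [hX', hY', Complex.ofReal_re] at hW'
    refine ⟨(z.1.re, X', Y', ζ₁, ζ₂), hW', ⟨y3, eqs_real ?_, g2, g5, g3, g6⟩, ?_⟩
    · rw [hX', hY', ← ht] at hq1
      exact hq1
    · rw [locA_hp (q := (z.1.re, X', Y', ζ₁, ζ₂)) ha hb hX' hY']
      exact Prod.ext ht (hT z hz).2.1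
  · obtain ⟨e, e1, e2, e3, e4, e5⟩ := (hO q hq).2.2 hq'
    obtain ⟨-, -, q3, -, q5, -⟩ := (hO q hq).1
    obtain ⟨t1, -, -, -, -, t6⟩ := hT _ e3
    rw [e4] at t1 t6
    obtain ⟨b1, b2⟩ := B e (hsub t1)
    refine (locA_reg ha hb e1 e2 q3 q5 (hO q hq).2.1.1 (hO q hq).2.1.2 s₁ s₂ (e1 ▸ (H₁ _ b1).2.1)
      (e2 ▸ (H₂ _ b2).2.1) (H₁ _ b1).1 (H₂ _ b2).1 ?_ ?_).trans t6.symm
    · filter_upwards [isOpen_ball.mem_nhds b1] with u hu using (H₁ u hu).2.2.2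
    · filter_upwards [isOpen_ball.mem_nhds b2] with u hu using (H₂ u hu).2.2.2

end Pool.Agent.MP_098ecc_co.H97
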