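import Pool.Agent.MP_098ecc_co.H97.Plain
import Pool.Agent.MP_098ecc_co.H97.Chart
import Pool.Agent.MP_098ecc_co.H97.Asm

set_option autoImplicit false

namespace Pool.Agent.MP_098ecc_co.H97

open Metric Filter Topology Set Function
open scoped BoundedContinuousFunction

/-- the reduction without wall parameters, with the kernel criterion and the contraction bound -/
theorem locA_ls {E V : Type} [NormedAddCommGroup E] [NormedSpace ℂ E] [CompleteSpace E]
    [NormedAddCommGroup V] [NormedSpace ℂ V] (π : E →L[ℂ] V) (ι : V →L[ℂ] E)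
    (hπι : ∀ v, π (ι v) = v) {Φ : ℂ × E → E} {τ₀ : ℂ} {e₀ : E} {r : ℝ} (hr : 0 < r)
    (hΦ : DifferentiableOn ℂ Φ (ball (τ₀, e₀) r))
    (tail : ∀ P ∈ ball (τ₀, e₀) r, ‖Φ P - ι (π (Φ P))‖ ≤ r / 16)
    (t0 : ‖e₀ - ι (π e₀)‖ ≤ r / 16) {U : Set (ℂ × V)}
    (hU : U = {z : ℂ × V | ‖z.1 - τ₀‖ < r / 4 ∧ ‖ι (z.2 - π e₀)‖ < r / 8}) :
    ∃ T : ℂ × V → E, IsOpen U ∧ DifferentiableOn ℂ T U ∧
      DifferentiableOn ℂ (fun z => Φ (z.1, T z)) U ∧ ∀ z ∈ U,
        T z ∈ ball e₀ (r / 2) ∧ π (T z) = z.2 ∧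
        T z = ι z.2 + (Φ (z.1, T z) - ι (π (Φ (z.1, T z)))) ∧
        (∀ e ∈ ball e₀ (r / 2), e = ι z.2 + (Φ (z.1, e) - ι (π (Φ (z.1, e)))) → e = T z) ∧
        (∀ e ∈ ball e₀ (r / 2), ‖(Φ (z.1, e) - ι (π (Φ (z.1, e)))) -
          (Φ (z.1, T z) - ι (π (Φ (z.1, T z))))‖ ≤ 1 / 8 * ‖e - T z‖) ∧
        (Injective (fderiv ℂ (fun v => π (Φ (z.1, T (z.1, v))) - v) z.2) ↔
          ∀ de, fderiv ℂ (fun e => Φ (z.1, e)) (T z) de = de → de = 0) := by
  obtain ⟨T, hT, h⟩ := ls (B := Unit) π ι hπι (Φ := fun q => Φ q.2) hr (Reg.of_snd hΦ)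
    (fun _ _ P hP => tail P hP) t0
  have hUo : IsOpen U := by
    rw [hU]
    exact (isOpen_lt (f := fun z : ℂ × V => ‖z.1 - τ₀‖) (by fun_prop) continuous_const).inter
      (isOpen_lt (f := fun z : ℂ × V => ‖ι (z.2 - π e₀)‖) (by fun_prop) continuous_const)
  have h0 : (0 : Unit) ∈ closedBall (0 : Unit) 1 := mem_closedBall_self zero_le_one
  have hTd : DifferentiableOn ℂ (fun z => T (0, z)) U := by
    rw [hU]; exact hT.frz 0 h0
  have hmem : ∀ z ∈ U, ∀ e ∈ ball e₀ r, (z.1, e) ∈ ball (τ₀, e₀) r := by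
    intro z hz e he
    rw [hU] at hz
    rw [← ball_prod_same]
    exact ⟨mem_ball_iff_norm.2 (by linarith [hz.1]), he⟩
  have hsub : ball e₀ (r / 2) ⊆ ball e₀ r := ball_subset_ball (by linarith)
  have h' : ∀ z ∈ U, _ := fun z hz => h 0 h0 z (by rw [hU] at hz; exact hz.1)
    (by rw [hU] at hz; exact hz.2)
  have hΦT : DifferentiableOn ℂ (fun z => Φ (z.1, T (0, z))) U :=
    hΦ.comp (differentiableOn_fst.prodMk hTd) fun z hz => hmem z hz _ (hsub (h' z hz).1)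
  refine ⟨fun z => T (0, z), hUo, hTd, hΦT, fun z hz => ?_⟩
  obtain ⟨h1, h2, h3, h4, h5, -⟩ := h' z hz
  have hΦz : DifferentiableOn ℂ (fun e => Φ (z.1, e)) (ball e₀ r) :=
    hΦ.comp ((differentiableOn_const _).prodMk differentiableOn_id) fun e he => hmem z hz e he
  refine ⟨h1, h2, h3, h4, fun e he => ?_, ?_⟩
  · have hQ : DifferentiableOn ℂ (fun e => Φ (z.1, e) - ι (π (Φ (z.1, e)))) (ball e₀ r) :=
      hΦz.sub ((ι.comp π).differentiable.comp_differentiableOn hΦz)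
    refine (convex_ball e₀ (r / 2)).norm_image_sub_le_of_norm_fderiv_le (𝕜 := ℂ)
      (f := fun e => Φ (z.1, e) - ι (π (Φ (z.1, e)))) (fun x hx => ?_) (fun x hx => ?_) h1 he
    · exact hQ.differentiableAt (isOpen_ball.mem_nhds (hsub hx))
    · have hb : ball x (r / 2) ⊆ ball e₀ r := by
        have := hol_ball hx
        rwa [show 2 * (r / 2) = r by ring] at this
      refine (cauchy_fderiv (half_pos hr) (hQ.mono hb)
        fun y hy => tail _ (hmem z hz y (hb hy))).trans (le_of_eq ?_)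
      field_simp
      norm_num
  · set A := fderiv ℂ (fun e => Φ (z.1, e)) (T (0, z)) with hA
    have hj : HasFDerivAt (fun v : V => (z.1, v)) (ContinuousLinearMap.inr ℂ ℂ V) z.2 :=
      hasFDerivAt_prodMk_right z.1 z.2
    have hT1 : DifferentiableAt ℂ (fun v : V => T (0, (z.1, v))) z.2 :=
      DifferentiableAt.comp (g := fun z => T (0, z)) z.2
        (hTd.differentiableAt (hUo.mem_nhds hz)) hj.differentiableAt
    set dT := fderiv ℂ (fun v : V => T (0, (z.1, v))) z.2 with hdT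
    have hA1 : HasFDerivAt (fun e => Φ (z.1, e)) A (T (0, (z.1, z.2))) :=
      (hΦz.differentiableAt (isOpen_ball.mem_nhds (hsub h1))).hasFDerivAt
    have hc : HasFDerivAt (fun v : V => Φ (z.1, T (0, (z.1, v)))) (A.comp dT) z.2 :=
      HasFDerivAt.comp (g := fun e => Φ (z.1, e)) z.2 hA1 hT1.hasFDerivAt
    have hF : HasFDerivAt (fun v => π (Φ (z.1, T (0, (z.1, v)))) - v)
        (π.comp (A.comp dT) - ContinuousLinearMap.id ℂ V) z.2 :=
      (π.hasFDerivAt.comp z.2 hc).sub (hasFDerivAt_id _)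
    have hev : ∀ᶠ v in 𝓝 z.2, (z.1, v) ∈ U := hj.continuousAt.eventually (hUo.mem_nhds hz)
    have hR : HasFDerivAt (fun v : V => T (0, (z.1, v)))
        (ι + (A.comp dT - (ι.comp π).comp (A.comp dT))) z.2 := by
      refine (ι.hasFDerivAt.add (hc.sub ((ι.comp π).hasFDerivAt.comp z.2 hc))).congr_of_eventuallyEq ?_
      filter_upwards [hev] with v hv using (h' _ hv).2.2.1
    have e1 : ∀ dv, dT dv = ι dv + (A (dT dv) - ι (π (A (dT dv)))) := fun dv => by
      have := congrArg (fun L : V →L[ℂ] E => L dv) (hT1.hasFDerivAt.unique hR)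
      simpa using this
    have e2 : ∀ dv, π (dT dv) = dv := fun dv => by
      rw [e1, map_add, map_sub, hπι, hπι, sub_self, add_zero]
    rw [hF.fderiv, injective_iff_map_eq_zero]
    simp only [sub_apply, ContinuousLinearMap.comp_apply,
      ContinuousLinearMap.id_apply, sub_eq_zero]
    constructor
    · intro hi de hde
      have e3 : de - dT (π de) = 0 := by
        refine h5 _ ?_
        simp only [map_sub]
        rw [hde]
        have := e1 (π de)
        linear_combination (norm := module) -this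
      rw [sub_eq_zero] at e3
      have e4 := hi (π de) (by rw [← e3, hde])
      rw [e3, e4, map_zero]
    · intro hk dv hdv
      have e3 := hk (dT dv) (by have := e1 dv; rw [hdv] at this; linear_combination (norm := module) -this)
      rw [← e2 dv, e3, map_zero]

theorem locA_un_inj {R : ℝ} (hR : 0 < R) {u v : BS} (h : un R u = un R v) : u = v := by
  ext n
  have h1 := congrFun h n
  have h2 : (R : ℂ)⁻¹ ^ n ≠ 0 := pow_ne_zero _ (inv_ne_zero (by exact_mod_cast hR.ne'))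
  exact mul_right_cancel₀ h2 h1

theorem locA_un_val {R : ℝ} (hR : 0 < R) (u : BS) (n : ℕ) : u n = un R u n * (R : ℂ) ^ n := by
  have h2 : (R : ℂ) ≠ 0 := by exact_mod_cast hR.ne'
  rw [un, mul_assoc, ← mul_pow, inv_mul_cancel₀ h2, one_pow, mul_one]

theorem locA_un_star (R : ℝ) (u : BS) : un R (star u) = star (un R u) := by
  funext n
  simp [un]

theorem locA_un_line (R : ℝ) (u du : BS) (s : ℂ) :
    un R (u + s • du) = un R u + s • un R du := by
  funext n
  simp only [un, BoundedContinuousFunction.add_apply, BoundedContinuousFunction.coe_smul,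
    Pi.add_apply, Pi.smul_apply, smul_eq_mul]
  ring

theorem locA_maj {m : ℕ} (hm : 0 < m) {L : Set ℕ} {R ρ : ℝ} (h1 : ρ < R) {u₀ : BS}
    (hM : Maj m L (un R u₀) ρ) : ∀ᶠ u in 𝓝 u₀, Maj m L (un R u) ρ := by
  obtain ⟨hρ, -, B, hB, hs⟩ := hM
  have hR : 0 < R := hρ.trans h1
  have hsum : ∀ u : BS, Summable fun i => ‖un R u i‖ * ρ ^ i := fun u =>
    (bnd_un R hR u).laur_sum hρ.le h1
  have hc : ContinuousAt (fun u : BS => ∑' i, ‖un R u i‖ * ρ ^ i) u₀ := by
    refine ContinuousOn.continuousAt (s := ball u₀ 1) ?_ (ball_mem_nhds _ one_pos)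
    refine continuousOn_tsum (u := fun i => (‖u₀‖ + 1) * (‖un R 1 i‖ * ρ ^ i)) (fun i => ?_)
      ((hsum 1).mul_left _) fun i u hu => ?_
    · have : Continuous fun u : BS => u i := (laur_eval i).continuous
      exact ((this.mul continuous_const).norm.mul continuous_const).continuousOn
    · have h4 : ‖u i‖ ≤ ‖u₀‖ + 1 := by
        have h5 := u.norm_coe_le_norm i
        have h6 := mem_ball_iff_norm.1 hu
        have h7 := norm_add_le u₀ (u - u₀)
        rw [add_sub_cancel] at h7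
        linarith
      rw [Real.norm_of_nonneg (by positivity)]
      simp only [un, norm_mul, BoundedContinuousFunction.coe_one, Pi.one_apply, one_mul]
      calc _ ≤ (‖u₀‖ + 1) * ‖(R : ℂ)⁻¹ ^ i‖ * ρ ^ i := by gcongr
        _ = _ := by ring
  have hc' : ContinuousAt (fun u : BS => (∑' i, ‖un R u i‖ * ρ ^ i) ^ m / ρ) u₀ :=
    (hc.pow m).div_const ρ
  filter_upwards [hc'.eventually (gt_mem_nhds hB)] with u hu using ⟨hρ, hsum u, B, hu, hs⟩

/-- the side map as a holomorphic map of bounded sequences -/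
theorem locA_side {m : ℕ} (hm : 0 < m) {L : Set ℕ} (hL : 0 ∉ L) {Rin Rout ρ : ℝ} (h1 : ρ < Rin)
    (h2 : ρ < Rout⁻¹) (h3 : Rout⁻¹ < Rin) {u₀ : BS} (hM : Maj m L (un Rin u₀) ρ) :
    ∃ (G : BS → BS) (C θ : ℝ), 0 ≤ θ ∧ θ < 1 ∧ ∀ᶠ u in 𝓝 u₀, DifferentiableAt ℂ G u ∧
      Maj m L (un Rin u) ρ ∧ (∀ n, ‖G u n‖ ≤ C * θ ^ n) ∧
      ∀ n : ℕ, un Rout (G u) n = sT m (ind ℂ L) (un Rin u) n := by
  obtain ⟨S, hS, hP, r1, r2, r3, r4, r5, hm0, -⟩ :=
    plain Unit hm hL 0 0 h1 h2 h3 1 u₀ hM (Or.inl rfl)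
  obtain ⟨C, θ, h4, h5, h6⟩ := hS.dec
  have h0 : (0 : Unit → ℂ) ∈ closedBall (0 : Unit → ℂ) 1 := mem_closedBall_self zero_le_one
  have hj : Differentiable ℂ fun u : BS => ((1 : ℂ), (), u) := by fun_prop
  refine ⟨fun u => S.out (0, (1, (), u)), C, θ, h4, h5, ?_⟩
  filter_upwards [hj.continuous.continuousAt.eventually (hS.op.mem_nhds hm0), locA_maj hm h1 hM]
    with u hu hu'
  refine ⟨DifferentiableAt.comp (g := fun P => S.out (0, P)) u
    ((hS.rO.frz 0 h0).differentiableAt (hS.op.mem_nhds hu)) (hj u), hu', h6 0 h0 _ hu, fun n => ?_⟩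
  have := hP.form 0 _ hu n
  rw [r1, r2, r5] at this
  rw [this]
  simp

/-- derivative of the side map -/
theorem locA_dside {m : ℕ} {L : Set ℕ} {Rin Rout : ℝ} {G : BS → BS} {u : BS}
    (hd : DifferentiableAt ℂ G u)
    (h : ∀ᶠ w in 𝓝 u, ∀ n : ℕ, un Rout (G w) n = sT m (ind ℂ L) (un Rin w) n) (du : BS) (n : ℕ) :
    un Rout (fderiv ℂ G u du) n =
      deriv (fun s : ℂ => sT m (ind ℂ L) (un Rin u + s • un Rin du) n) 0 := by
  have h1 : HasDerivAt (fun s : ℂ => u + s • du) du 0 := by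
    simpa using ((hasDerivAt_id (0 : ℂ)).smul_const du).const_add u
  have h2 : HasDerivAt (fun s : ℂ => G (u + s • du)) (fderiv ℂ G u du) 0 :=
    HasFDerivAt.comp_hasDerivAt_of_eq (0 : ℂ) hd.hasFDerivAt h1 (by simp)
  have h3 : HasDerivAt (fun s : ℂ => G (u + s • du) n) (fderiv ℂ G u du n) 0 :=
    (BoundedContinuousFunction.evalCLM ℂ n : BS →L[ℂ] ℂ).hasFDerivAt.comp_hasDerivAt 0 h2
  have h4 := h3.mul_const ((Rout : ℂ)⁻¹ ^ n)
  refine (HasDerivAt.deriv (h4.congr_of_eventuallyEq ?_)).symm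
  have h5 : Tendsto (fun s : ℂ => u + s • du) (𝓝 0) (𝓝 u) := by
    simpa using h1.continuousAt.tendsto
  filter_upwards [h5.eventually h] with s hs
  rw [← locA_un_line, ← hs n, un]

/-- pointwise convergence with a geometric bound gives convergence of bounded sequences -/
theorem locA_emb {ι : Type} {l : Filter ι} {f : ι → ℕ → ℝ} {g : ℕ → ℝ} {R ρ C δ : ℝ} (hR : 0 < R)
    (hρ : 0 ≤ ρ) (h1 : ρ * R < 1) (hf : ∀ i, Tendsto (fun n => f n i) l (𝓝 (g i)))
    (hb : ∀ᶠ n in l, ∀ i, 0 ≤ f n i ∧ f n i ≤ C * ρ ^ i) (hg : ∀ i, 0 ≤ g i ∧ g i ≤ C * ρ ^ i)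
    {u₀ : BS} (hu : un R u₀ = cx g) (hδ : 0 < δ) :
    ∀ᶠ n in l, ∃ u : BS, un R u = cx (f n) ∧ u ∈ ball u₀ δ := by
  have hC : 0 ≤ C := by simpa using (hg 0).1.trans (hg 0).2
  have hθ : 0 ≤ ρ * R := by positivity
  obtain ⟨N, hN⟩ : ∃ N : ℕ, C * (ρ * R) ^ N < δ / 2 := by
    have := (tendsto_pow_atTop_nhds_zero_of_lt_one hθ h1).const_mul C
    rw [mul_zero] at this
    exact (this.eventually (gt_mem_nhds (half_pos hδ))).exists
  have h2 : ∀ᶠ n in l, ∀ i ∈ Finset.range N, |f n i - g i| * R ^ i < δ / 2 := by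
    rw [eventually_all_finset]
    intro i _
    have := ((hf i).sub_const (g i)).abs.mul_const (R ^ i)
    rw [sub_self, abs_zero, zero_mul] at this
    exact this.eventually (gt_mem_nhds (half_pos hδ))
  have hinv : ρ ≤ R⁻¹ := by
    rw [← one_div, le_div_iff₀ hR]; exact h1.le
  filter_upwards [hb, h2] with n hn hn'
  obtain ⟨u, hu'⟩ : ∃ u : BS, un R u = cx (f n) := exists_un hR ⟨C, fun i => by
    rw [poslB_norm (fun i => (hn i).1)]
    exact (hn i).2.trans (by gcongr)⟩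
  refine ⟨u, hu', mem_ball_iff_norm.2 (lt_of_le_of_lt ?_ (half_lt_self hδ))⟩
  rw [BoundedContinuousFunction.norm_le (half_pos hδ).le]
  intro i
  have h3 : ‖(u - u₀) i‖ = |f n i - g i| * R ^ i := by
    rw [BoundedContinuousFunction.sub_apply, locA_un_val hR u, locA_un_val hR u₀, hu, hu',
      ← sub_mul, norm_mul, norm_pow, Complex.norm_real, ← Complex.ofReal_sub, Complex.norm_real,
      Real.norm_eq_abs, Real.norm_of_nonneg hR.le]
  rw [h3]
  by_cases hi : i < N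
  · exact (hn' i (Finset.mem_range.2 hi)).le
  · have h4 : |f n i - g i| ≤ C * ρ ^ i := by
      rw [abs_le]; constructor <;> linarith [hn i, hg i]
    calc _ ≤ C * ρ ^ i * R ^ i := by gcongr
      _ = C * (ρ * R) ^ i := by rw [mul_pow]; ring
      _ ≤ C * (ρ * R) ^ N := mul_le_mul_of_nonneg_left (pow_le_pow_of_le_one hθ h1.le (by omega)) hC
      _ ≤ _ := hN.le

/-- the critical point and admissibility persist under nonnegative perturbation -/
theorem locA_crit {m : ℕ} (hm : 0 < m) {L : Set ℕ} {f : ℕ → ℝ} {z R δ : ℝ} (h : Crit m f z)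
    (h0 : 0 < f 0) (hR : z < R) (ha : Adm L (Bv m f z)) {u₀ : BS} (hu : un R u₀ = cx f)
    (hδ : 0 < δ) : ∀ᶠ u in 𝓝 u₀, ∀ g : ℕ → ℝ, un R u = cx g → (∀ i, 0 ≤ g i) →
      ∃ w ∈ ball z δ, Crit m g w ∧ Adm L (Bv m g w) := by
  have hz := h.pos
  have hR0 : 0 < R := hz.trans hR
  obtain ⟨B, hB, hs⟩ := ha
  have hmem : ∀ (u : BS) (w : ℝ), 0 < w → w < R →
      univ ×ˢ ball (0 : ℂ) R ∈ 𝓝 ((u, (w : ℂ)) : BS × ℂ) := fun u w h1 h2 =>
    (isOpen_univ.prod isOpen_ball).mem_nhds ⟨trivial, by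
      rw [mem_ball_zero_iff, Complex.norm_real, Real.norm_of_nonneg h1.le]; exact h2⟩
  have hBv : ∀ (g : ℕ → ℝ) (w : ℝ), (ser (cx g) w ^ m / w).re = Bv m g w := fun g w => by
    rw [ser_ofReal, ← Complex.ofReal_pow, ← Complex.ofReal_div, Complex.ofReal_re, Bv]
  have hfl : ∀ (g : ℕ → ℝ) (w : ℝ), (ser (flat m (cx g)) w).re = ser (flat m g) w := fun g w => by
    rw [poslB_flat, ser_ofReal, Complex.ofReal_re]
  have c1 : ContinuousAt (fun q : BS × ℝ => (ser (un R q.1) q.2 ^ m / q.2).re) (u₀, z) := by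
    have h1 : ContinuousAt (fun q : BS × ℝ => ser (un R q.1) q.2) (u₀, z) :=
      ContinuousAt.comp (g := fun q : BS × ℂ => ser (un R q.1) q.2)
        (f := fun q : BS × ℝ => (q.1, (q.2 : ℂ)))
        ((hol_ser R hR0).continuousOn.continuousAt (hmem u₀ z hz hR)) (by fun_prop)
    exact Complex.continuous_re.continuousAt.comp ((h1.pow m).div (by fun_prop)
      (by exact_mod_cast hz.ne'))
  have c2 : ∀ w : ℝ, 0 < w → w < R →
      ContinuousAt (fun u : BS => (ser (flat m (un R u)) w).re) u₀ := fun w h1 h2 =>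
    Complex.continuous_re.continuousAt.comp (ContinuousAt.comp
      (g := fun q : BS × ℂ => ser (flat m (un R q.1)) q.2) (f := fun u : BS => (u, (w : ℂ)))
      ((hol_ser_flat m R hR0).continuousOn.continuousAt (hmem u₀ w h1 h2)) (by fun_prop))
  have e1 := c1.eventually (gt_mem_nhds (show (ser (un R u₀) z ^ m / z).re < B by
    rw [hu, hBv]; exact hB))
  rw [nhds_prod_eq] at e1
  obtain ⟨pa, hpa, pb, hpb, e1⟩ := eventually_prod_iff.1 e1
  obtain ⟨ε, hε, hpb⟩ := Metric.eventually_nhds_iff_ball.1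
    (hpb.and ((show ∀ᶠ w in 𝓝 z, w ∈ ball z δ from ball_mem_nhds z hδ).and
      ((lt_mem_nhds hz).and (gt_mem_nhds hR))))
  have hsub : ∀ w ∈ Icc (z - ε / 2) (z + ε / 2), w ∈ ball z ε := fun w hw => by
    rw [mem_ball, Real.dist_eq, abs_lt]; constructor <;> linarith [hw.1, hw.2]
  have m1 := hpb _ (hsub (z - ε / 2) ⟨le_rfl, by linarith⟩)
  have m2 := hpb _ (hsub (z + ε / 2) ⟨by linarith, le_rfl⟩)
  have hbf : Bnd R (cx f) := hu ▸ bnd_un R hR0 u₀
  have e2 := (c2 _ m1.2.2.1 m1.2.2.2).eventually (gt_mem_nhds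
    (show (ser (flat m (un R u₀)) (z - ε / 2 : ℝ)).re < 0 by
      rw [hu, hfl]; exact (h.flat_neg hm h0 m1.2.2.1.le (by linarith)).2))
  have e3 := (c2 _ m2.2.2.1 m2.2.2.2).eventually (lt_mem_nhds
    (show 0 < (ser (flat m (un R u₀)) (z + ε / 2 : ℝ)).re by
      rw [hu, hfl]
      exact h.flat_pos hm h0 (by linarith) (poslB_fsum m hbf m2.2.2.1.le m2.2.2.2)))
  filter_upwards [hpa, e2, e3] with u h1 h2 h3 g hg hg0
  rw [hg, hfl] at h2 h3
  obtain ⟨w, hw, hc⟩ := crit_of_sign hm hg0 (hg ▸ bnd_un R hR0 u) m1.2.2.1 (by linarith)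
    m2.2.2.2 h2.le h3.le
  have h4 := hpb w (hsub w hw)
  have h5 := e1 h1 h4.1
  simp only at h5
  rw [hg, hBv] at h5
  exact ⟨w, h4.2.1, hc, B, h5, hs⟩

end Pool.Agent.MP_098ecc_co.H97
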