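import Pool.Agent.MP_098ecc_co.H97.LocA
import Pool.Agent.MP_098ecc_co.H97.SatPar

set_option autoImplicit false

namespace Pool.Agent.MP_098ecc_co.H97

open Metric Filter Topology Set Function
open scoped BoundedContinuousFunction

theorem locB_cont (N : ℕ) (a b : ℝ) : Continuous (hp N a b) := by
  unfold hp
  fun_prop

theorem locB_star (N : ℕ) (a b : ℝ) (q : Amb) : star (hp N a b q).2 = (hp N a b q).2 :=
  Prod.ext (funext fun _ => Complex.conj_ofReal _) (funext fun _ => Complex.conj_ofReal _)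

theorem locB_star' (N : ℕ) (a b : ℝ) (q : Amb) : star (hp N a b q) = hp N a b q :=
  Prod.ext (Complex.conj_ofReal _) (locB_star N a b q)

/-- a bounded holomorphic family of sequences is a holomorphic map to bounded sequences -/
theorem locB_lift {E : Type} [NormedAddCommGroup E] [NormedSpace ℂ E] {U : Set E} (hU : IsOpen U)
    {X : E → ℕ → ℂ} {a C θ : ℝ} (ha : 0 < a) (h0 : 0 ≤ θ) (h1 : θ < 1)
    (hd : ∀ i, DifferentiableOn ℂ (fun z => X z i) U)
    (hb : ∀ z ∈ U, ∀ i, ‖X z i‖ ≤ C * (θ * a⁻¹) ^ i) :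
    ∃ u : E → BS, DifferentiableOn ℂ u U ∧ ∀ z ∈ U, un a (u z) = X z := by
  have ha' : (a : ℂ) ≠ 0 := by exact_mod_cast ha.ne'
  have hex : ∀ z ∈ U, ∃ u : BS, un a u = X z := fun z hz => exists_un ha ⟨C, fun i => by
    have hC : 0 ≤ C := by simpa using (norm_nonneg _).trans (hb z hz 0)
    refine (hb z hz i).trans ?_
    gcongr
    exact mul_le_of_le_one_left (by positivity) h1.le⟩
  choose! u hu using hex
  have e : ∀ z ∈ U, ∀ i, u z i = X z i * (a : ℂ) ^ i := fun z hz i => by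
    rw [← hu z hz, un, mul_assoc, ← mul_pow, inv_mul_cancel₀ ha', one_pow, mul_one]
  refine ⟨u, hol_bs hU (C := C) h0 h1
    (fun i => ((hd i).mul_const ((a : ℂ) ^ i)).congr fun z hz => e z hz i) fun z hz i => ?_, hu⟩
  rw [e z hz, norm_mul, norm_pow, Complex.norm_real, Real.norm_of_nonneg ha.le]
  calc _ ≤ C * (θ * a⁻¹) ^ i * a ^ i := by gcongr; exact hb z hz i
    _ = C * θ ^ i := by rw [mul_assoc, ← mul_pow, mul_assoc, inv_mul_cancel₀ ha.ne', mul_one]

section Chart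

variable {D : Dat} {p : Amb} {N : ℕ} {a b : ℝ} {U : Set (ℂ × ((Fin N → ℂ) × (Fin N → ℂ)))}
  {F : ℂ × ((Fin N → ℂ) × (Fin N → ℂ)) → (Fin N → ℂ) × (Fin N → ℂ)}
  {X Y : ℂ × ((Fin N → ℂ) × (Fin N → ℂ)) → ℕ → ℂ} {O : Set Amb}

theorem locB_diff (ch : PChart D p N a b U F X Y O) (P : Polynomial (Polynomial ℚ)) :
    DifferentiableOn ℂ (fun z => ev P z.1 (Af D.m (X z) (Y z))) U := by
  obtain ⟨h1, h2, h3, -, h5, h6⟩ := ch.rad p ch.mem
  have ha : 0 < a := h1.trans h3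
  have hb : 0 < b := h2.trans h5
  obtain ⟨r, r1, r2⟩ := exists_between ((inv_strictAnti₀ h1 h3).trans h6)
  obtain ⟨C, θ, h0, hθ, hC⟩ := ch.bd
  obtain ⟨u, du, hu⟩ := locB_lift ch.op ha h0 hθ ch.dX fun z hz i => (hC z hz i).1
  obtain ⟨v, dv, hv⟩ := locB_lift ch.op hb h0 hθ ch.dY fun z hz i => (hC z hz i).2
  have d1 := (af_diff D.m ha r1 r2).1.comp_differentiableOn (du.prodMk dv)
  have d2 := (evalEval_diff (P.map (Polynomial.mapRingHom (algebraMap ℚ ℂ)))).1.comp_differentiableOn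
    (differentiableOn_fst.prodMk d1)
  refine d2.congr fun z hz => ?_
  simp only [Function.comp, hu z hz, hv z hz, ev]

theorem locB_inj (ch : PChart D p N a b U F X Y O) {q q' : Amb} (hq : q ∈ O) (hq' : q' ∈ O)
    (h : Pos D q) (h' : Pos D q') (e : hp N a b q = hp N a b q') : q = q' := by
  have e1 : q.t = q'.t := Complex.ofReal_injective (congrArg Prod.fst e)
  have e2 : q.X = q'.X := funext fun i => Complex.ofReal_injective (congrFun
    ((ch.emb q hq h).2.2.1.symm.trans (e ▸ (ch.emb q' hq' h').2.2.1)) i)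
  have e3 : q.Y = q'.Y := funext fun i => Complex.ofReal_injective (congrFun
    ((ch.emb q hq h).2.2.2.symm.trans (e ▸ (ch.emb q' hq' h').2.2.2)) i)
  exact Prod.ext e1 (Prod.ext e2 (Prod.ext e3 (Prod.ext
    (Crit.unique D.hm h.c₁ (e2 ▸ h'.c₁) (h.px 0))
    (Crit.unique D.hm h.c₂ (e3 ▸ h'.c₂) (by rw [h.eqs.y0]; exact one_pos)))))

/-- the branch through a regular positive solution; real parameters give positive solutions -/
theorem locB_graph (ch : PChart D p N a b U F X Y O) {q : Amb} (hq : q ∈ O) (h : Pos D q)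
    (hr : Regu D q) : ∃ φ : ℂ → (Fin N → ℂ) × (Fin N → ℂ), AnalyticAt ℂ φ q.t ∧
      ((q.t : ℂ), φ q.t) = hp N a b q ∧
      (∀ᶠ y in 𝓝 ((q.t : ℂ), φ q.t), (F y = 0 ↔ φ y.1 = y.2)) ∧
      ∀ W ∈ 𝓝 q, ∀ᶠ s : ℝ in 𝓝 q.t, ∃ q' ∈ W, Pos D q' ∧ hp N a b q' = ((s : ℂ), φ s) := by
  obtain ⟨hU, h0, -, -⟩ := ch.emb q hq h
  obtain ⟨φ, ha, h1, he⟩ := satpar_ift ch.op ch.dF hU h0 ((ch.reg q hq h).1 hr)
  have e : ((q.t : ℂ), φ q.t) = hp N a b q := Prod.ext rfl h1
  refine ⟨φ, ha, e, by rw [e]; exact he, fun W hW => ?_⟩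
  have hg : Tendsto (fun s : ℝ => ((s : ℂ), φ s)) (𝓝 q.t) (𝓝 (hp N a b q)) := by
    rw [← e]
    exact (continuousAt_id.prodMk ha.continuousAt).tendsto.comp
      Complex.continuous_ofReal.continuousAt
  have hg' : Tendsto (fun s : ℝ => star ((s : ℂ), φ s)) (𝓝 q.t) (𝓝 (hp N a b q)) := by
    have := hg.star
    rwa [locB_star'] at this
  filter_upwards [hg.eventually (ch.real q hq h W hW), hg.eventually he, hg'.eventually he,
    hg.eventually (ch.op.mem_nhds hU)] with s s1 s2 s3 s4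
  have s5 := s2.2 rfl
  have s6 := s3.1 (by rw [ch.sF _ s4, s5, star_zero])
  have s7 : star (s : ℂ) = s := Complex.conj_ofReal s
  refine s1 (Prod.ext s7 ?_) s5
  rw [Prod.fst_star, s7] at s6
  exact s6.symm

theorem locB_val (ch : PChart D p N a b U F X Y O) (P : Polynomial (Polynomial ℚ)) {q : Amb}
    (hq : q ∈ O) (h : Pos D q) :
    ev P (hp N a b q).1 (Af D.m (X (hp N a b q)) (Y (hp N a b q))) =
      ev P q.t (Af D.m q.cX q.cY) := by
  rw [(ch.emb q hq h).2.2.1, (ch.emb q hq h).2.2.2]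
  rfl

/-- good points read in the chart -/
theorem locB_good (ch : PChart D p N a b U F X Y O) (P : Polynomial (Polynomial ℚ)) {q : Amb}
    (hq : q ∈ O) (h : Pos D q) : Good D P q ↔
      Injective (fderiv ℂ (fun v => F (q.t, v)) (hp N a b q).2) ∧
      ∀ᶠ y in 𝓝 (hp N a b q), F y = 0 → ev P y.1 (Af D.m (X y) (Y y)) = 0 := by
  constructor
  · intro g
    refine ⟨(ch.reg q hq h).1 g.reg, ?_⟩
    obtain ⟨φ, ha, e, he, hw⟩ := locB_graph ch hq h g.reg
    rw [← e]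
    refine (satpar_good (Θ := fun y => ev P y.1 (Af D.m (X y) (Y y))) ha.continuousAt he).2 ?_
    have hg : Tendsto (fun s => (s, φ s)) (𝓝 (q.t : ℂ)) (𝓝 ((q.t : ℂ), φ q.t)) :=
      continuousAt_id.prodMk ha.continuousAt
    have hU : ((q.t : ℂ), φ q.t) ∈ U := by rw [e]; exact (ch.emb q hq h).1
    have han : AnalyticAt ℂ (fun s => ev P s (Af D.m (X (s, φ s)) (Y (s, φ s)))) q.t := by
      rw [Complex.analyticAt_iff_eventually_differentiableAt]
      filter_upwards [hg.eventually (ch.op.mem_nhds hU), ha.eventually_analyticAt] with s hs hs2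
      exact ((locB_diff ch P).differentiableAt (ch.op.mem_nhds hs)).comp s
        (differentiableAt_id.prodMk hs2.differentiableAt)
    refine han.frequently_zero_iff_eventually_zero.1 ?_
    have ht : Tendsto (fun s : ℝ => (s : ℂ)) (𝓝[≠] q.t) (𝓝[≠] (q.t : ℂ)) :=
      tendsto_nhdsWithin_iff.2 ⟨Complex.continuous_ofReal.continuousAt.tendsto.mono_left
        nhdsWithin_le_nhds, eventually_mem_nhdsWithin.mono fun s hs e =>
          hs (Complex.ofReal_injective e)⟩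
    refine ht.frequently (Eventually.frequently ?_)
    have hW := inter_mem (eventually_nhdsWithin_iff.1 g.alg) (ch.opO.mem_nhds hq)
    filter_upwards [(hw _ hW).filter_mono nhdsWithin_le_nhds] with s ⟨q', h1, h2, h3⟩
    have h4 := locB_val ch P h1.2 h2
    rw [h3] at h4
    exact h4.trans (h1.1 h2)
  · rintro ⟨h1, h2⟩
    refine ⟨h, (ch.reg q hq h).2 h1, eventually_nhdsWithin_iff.2 ?_⟩
    filter_upwards [(locB_cont N a b).continuousAt.eventually h2, ch.opO.mem_nhds hq]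
      with q' h3 h4 h5
    exact (locB_val ch P h4 h5).symm.trans (h3 (ch.emb q' h4 h5).2.1)

end Chart

theorem loc (D : Dat) (P : Polynomial (Polynomial ℚ)) {p : Amb} (hp : Pos D p) :
    (∀ W ∈ 𝓝 p, ∃ V ⊆ W, V ∈ 𝓝[{q | Pos D q}] p ∧ ∃ ε > (0 : ℝ), ∃ k : ℕ, ∀ t, t ≠ p.t →
      |t - p.t| < ε → ({q | Good D P q} ∩ V ∩ Amb.t ⁻¹' {t}).Finite ∧
        ({q | Good D P q} ∩ V ∩ Amb.t ⁻¹' {t}).ncard % 2 = k) ∧
    ∀ᶠ q in 𝓝 p, q ∈ {q | Pos D q} → q ∈ closure {q | Good D P q} → q.t = p.t → q = p := by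
  obtain ⟨N, a, b, U, F, X, Y, O, ch⟩ := pchart hp
  have hc := locB_cont N a b
  obtain ⟨s1, s2⟩ := satpar (V := (Fin N → ℂ) × (Fin N → ℂ)) star star_add
    (fun c v => star_smul c v) star_star norm_star ch.op ch.dF (locB_diff ch P)
    (fun q hq => ch.sU q hq) (fun q hq => ch.sF q hq)
    (fun q hq => by
      change ev P (star q.1) (Af D.m (X (star q)) (Y (star q))) = star _
      rw [ch.sX q hq, ch.sY q hq, af_star, ev_star])
    (t₀ := p.t) (v₀ := (H97.hp N a b p).2) (ch.emb p ch.mem hp).1 (locB_star N a b p)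
  constructor
  · intro W hW
    have hW' := inter_mem hW (ch.opO.mem_nhds ch.mem)
    obtain ⟨O', o1, o2, o3, ε, hε, k, hk⟩ := s1 _ (ch.real p ch.mem hp _ hW')
    refine ⟨W ∩ O ∩ H97.hp N a b ⁻¹' O', fun q hq => hq.1.1, mem_nhdsWithin_of_mem_nhds
      (inter_mem hW' (hc.continuousAt.preimage_mem_nhds (o1.mem_nhds o2))), ε, hε, k,
      fun t ht hlt => ?_⟩
    obtain ⟨k1, k2⟩ := hk t ht hlt
    have key : ∀ q : Amb, q.t = t → ((t : ℂ), (H97.hp N a b q).2) = H97.hp N a b q :=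
      fun q hq => by rw [← hq]; rfl
    have hi : InjOn (fun q => (H97.hp N a b q).2)
        ({q | Good D P q} ∩ (W ∩ O ∩ H97.hp N a b ⁻¹' O') ∩ Amb.t ⁻¹' {t}) :=
      fun q hq q' hq' e => locB_inj ch hq.1.2.1.2 hq'.1.2.1.2 hq.1.1.pos hq'.1.1.pos (by
        rw [← key q hq.2, ← key q' hq'.2]
        exact Prod.ext rfl e)
    have e : (fun q => (H97.hp N a b q).2) ''
        ({q | Good D P q} ∩ (W ∩ O ∩ H97.hp N a b ⁻¹' O') ∩ Amb.t ⁻¹' {t}) =
        {v | star v = v ∧ ((t : ℂ), v) ∈ O' ∧ F (t, v) = 0 ∧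
          Injective (fderiv ℂ (fun v => F (t, v)) v) ∧
          ∀ᶠ q in 𝓝 ((t : ℂ), v), F q = 0 → ev P q.1 (Af D.m (X q) (Y q)) = 0} := by
      ext v
      constructor
      · rintro ⟨q, ⟨⟨g, ⟨-, hO⟩, hO'⟩, hq⟩, rfl⟩
        have hq' : q.t = t := hq
        obtain ⟨g1, g2⟩ := (locB_good ch P hO g.pos).1 g
        rw [hq'] at g1
        refine ⟨locB_star N a b q, ?_, ?_, g1, ?_⟩ <;> rw [key q hq']
        exacts [hO', (ch.emb q hO g.pos).2.1, g2]
      · rintro ⟨v1, v2, v3, v4, v5⟩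
        obtain ⟨q, hq, h1, h2⟩ := (o3 v2).1 (Prod.ext (Complex.conj_ofReal t) v1) v3
        have hq' : q.t = t := Complex.ofReal_injective (congrArg Prod.fst h2)
        refine ⟨q, ⟨⟨(locB_good ch P hq.2 h1).2 ?_, hq, ?_⟩, hq'⟩, congrArg Prod.snd h2⟩
        · rw [h2, hq']
          exact ⟨v4, v5⟩
        · rw [mem_preimage, h2]
          exact v2
    rw [← e] at k1 k2
    exact ⟨k1.of_finite_image hi, by rwa [hi.ncard_image] at k2⟩
  · filter_upwards [hc.continuousAt.eventually s2, ch.opO.mem_nhds ch.mem] with q h1 h2 h3 h4 h5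
    refine locB_inj ch h2 ch.mem h3 hp (h1 ?_ (congrArg Complex.ofReal h5))
    refine map_mem_closure hc (ch.opO.inter_closure ⟨h2, h4⟩) fun q' hq' => ?_
    have g : Good D P q' := hq'.2
    exact ⟨(ch.emb q' hq'.1 g.pos).1, (ch.emb q' hq'.1 g.pos).2.1,
      (ch.reg q' hq'.1 g.pos).1 g.reg⟩

theorem br {D : Dat} {P : Polynomial (Polynomial ℚ)} {p : Amb} (h : Good D P p) :
    ∃ X Y a b, Br D p X Y a b ∧ ∀ᶠ s in 𝓝 (p.t : ℂ), ev P s (Af D.m (X s) (Y s)) = 0 := by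
  obtain ⟨N, a, b, U, F, X, Y, O, ch⟩ := pchart h.pos
  obtain ⟨φ, ha, e, he, -⟩ := locB_graph ch ch.mem h.pos h.reg
  obtain ⟨h1, h2, h3, h4, h5, h6⟩ := ch.rad p ch.mem
  obtain ⟨e1, -, e3, e4⟩ := ch.emb p ch.mem h.pos
  have hg : Tendsto (fun s => (s, φ s)) (𝓝 (p.t : ℂ)) (𝓝 ((p.t : ℂ), φ p.t)) :=
    continuousAt_id.prodMk ha.continuousAt
  have hU : ∀ᶠ s in 𝓝 (p.t : ℂ), (s, φ s) ∈ U := hg.eventually (ch.op.mem_nhds (by rwa [e]))
  refine ⟨fun s => X (s, φ s), fun s => Y (s, φ s), a, b,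
    ⟨⟨h3, h4⟩, ⟨h5, h6⟩, by rw [e, e3], by rw [e, e4], ?_, ?_, ?_⟩, ?_⟩
  · obtain ⟨C, θ, h0, hθ, hC⟩ := ch.bd
    have ha0 : 0 < a := h1.trans h3
    have hb0 : 0 < b := h2.trans h5
    refine ⟨C, hU.mono fun s hs i => ?_⟩
    have hC0 : 0 ≤ C := by simpa using (norm_nonneg _).trans (hC _ hs 0).1
    refine ⟨(hC _ hs i).1.trans ?_, (hC _ hs i).2.trans ?_⟩ <;> gcongr <;>
      exact mul_le_of_le_one_left (by positivity) hθ.le
  · filter_upwards [hU, ha.eventually_analyticAt] with s hs hs2 i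
    have d : DifferentiableAt ℂ (fun s => (s, φ s)) s :=
      differentiableAt_id.prodMk hs2.differentiableAt
    have d1 := ((ch.dX i).differentiableAt (ch.op.mem_nhds hs)).comp s d
    have d2 := ((ch.dY i).differentiableAt (ch.op.mem_nhds hs)).comp s d
    exact ⟨d1, d2⟩
  · filter_upwards [hU, hg.eventually he] with s hs hs2
    exact ch.sol _ hs (hs2.2 rfl)
  · have g := ((locB_good ch P ch.mem h.pos).1 h).2
    rw [← e] at g
    exact (satpar_good (Θ := fun y => ev P y.1 (Af D.m (X y) (Y y))) ha.continuousAt he).1 g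

theorem pert {D : Dat} {P : Polynomial (Polynomial ℚ)} {p : Amb} (h : Good D P p) :
    ∃ᶠ q in 𝓝 p, Good D P q ∧ q.t ≠ p.t := by
  obtain ⟨N, a, b, U, F, X, Y, O, ch⟩ := pchart h.pos
  obtain ⟨φ, ha, e, he, hw⟩ := locB_graph ch ch.mem h.pos h.reg
  obtain ⟨g1, g2⟩ := (locB_good ch P ch.mem h.pos).1 h
  rw [← e] at g1 g2
  have hg : Tendsto (fun s => (s, φ s)) (𝓝 (p.t : ℂ)) (𝓝 ((p.t : ℂ), φ p.t)) :=
    continuousAt_id.prodMk ha.continuousAt
  have hr := satpar_reg ch.op ch.dF (by rw [e]; exact (ch.emb p ch.mem h.pos).1) ha.continuousAt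
    he g1
  have ht : Tendsto (fun s : ℝ => (s : ℂ)) (𝓝 p.t) (𝓝 (p.t : ℂ)) :=
    Complex.continuous_ofReal.continuousAt
  rw [frequently_iff]
  intro W hW
  have h1 := (hw _ (inter_mem hW (ch.opO.mem_nhds ch.mem))).and ((ht.eventually hr).and
    (ht.eventually (hg.eventually (eventually_eventually_nhds.2 g2))))
  obtain ⟨s, ⟨⟨q, q1, q2, q3⟩, s2, s3⟩, s4⟩ :=
    ((h1.filter_mono nhdsWithin_le_nhds).and (self_mem_nhdsWithin (s := {p.t}ᶜ))).exists
  have hq : q.t = s := Complex.ofReal_injective (congrArg Prod.fst q3)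
  refine ⟨q, q1.1, (locB_good ch P q1.2 q2).2 ?_, by rw [hq]; exact s4⟩
  rw [q3, hq]
  exact ⟨s2.2.2.1, s3⟩

end Pool.Agent.MP_098ecc_co.H97
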