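import Pool.Agent.MP_098ecc_co.H97.Mid0C

set_option autoImplicit false
set_option linter.unusedSectionVars false

namespace Pool.Agent.MP_098ecc_co.H97

open Metric Filter Topology Set Function
open scoped BoundedContinuousFunction

variable {κ V : Type} [Fintype κ] [DecidableEq κ] [Nonempty κ] [NormedAddCommGroup V]
  [NormedSpace ℂ V] [FiniteDimensional ℂ V] {U : Set (ℂ × V)} {z₀ : ℂ × V}
  {H : (κ → ℂ) × (ℂ × V) → V} {a : (κ → ℂ) × (ℂ × V) → ℂ}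
  {j β Λ : κ → (κ → ℂ) × (ℂ × V) → ℂ} {σ : κ → ℂ → ℂ} {L : κ → Set ℕ}

theorem M0.seq {O : Set ℂ} {Q : ℂ × ℂ → ℂ} {X : (κ → ℂ) × (ℂ × V) → ℂ × V}
    (h : M0 U z₀ H a j β Λ σ L O Q X) {U₀ : Set (ℂ × V)} {γ τ}
    (br : Bra U₀ z₀ H a j σ L Q γ τ) {F : Type} [NormedAddCommGroup F] [NormedSpace ℂ F]
    {K : (κ → ℂ) × (ℂ × V) → F}
    (hK : ∀ b ∈ ball (0 : κ → ℂ) 1, ∀ z ∈ U, (∀ i, EM L j σ i (b, z) = 0) → K (b, z) = 0)
    (S : Set ((κ → ℂ) × (ℂ × V))) (hS : S = Sh U (fun q => (mD (mTh Q a) X q, H q))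
      (fun q => (mTh Q a q, K q)) (fun i => Jf (L i)) j (fun i q => σ i q.2.1)) :
    ((1 : κ → ℂ), z₀) ∈ closure {q | q ∈ S ∧ mG a β Λ σ Q X q ≠ 0 ∧ AccPt q (𝓟 S)} := by
  have op := h.mc.op
  have e1 : ∀ᶠ n in atTop, γ n (τ n) ∈ ball (0 : κ → ℂ) 1 ×ˢ U := by
    filter_upwards [((continuous_snd.tendsto _).comp br.lim).eventually (op.mem_nhds h.mc.mem)]
      with n hn using ⟨(br.mem n).1, hn⟩
  have lim : Tendsto (fun n => γ n (τ n)) atTop (𝓝[closedBall 0 1 ×ˢ U] (1, z₀)) :=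
    tendsto_nhdsWithin_iff.2 ⟨br.lim, e1.mono fun n hn => ⟨ball_subset_closedBall hn.1, hn.2⟩⟩
  have e2 : ∀ᶠ n in atTop, ∀ i, (β i (γ n (τ n)) * Λ i (γ n (τ n))).re < 0 :=
    eventually_all.2 fun i => by
      obtain ⟨r, r0, hr⟩ := h.mc.βpos i
      obtain ⟨r', r0', hr'⟩ := h.mc.Λneg i
      refine ((Complex.continuous_re.tendsto _).comp ((((h.mc.rβ i).mmul (h.mc.rΛ i)).cont (1, z₀)
        ⟨by simp, h.mc.mem⟩).tendsto.comp lim)).eventually_lt_const ?_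
      simpa [hr, hr'] using mul_neg_of_pos_of_neg r0 r0'
  refine mem_closure_of_tendsto br.lim ?_
  filter_upwards [e1, e2] with n hq hre
  have cv := br.curve n
  obtain ⟨g0, t0, H0, E0, -⟩ := cv.self_of_nhds
  have nb := (isOpen_ball.prod op).mem_nhds hq
  have hX : (X (γ n (τ n))).1 ≠ 0 := by
    refine (h.mf.inj _).2 fun v hv => (injective_iff_map_eq_zero _).1 (br.reg n) v ?_
    have := ((h.mc.rH.frz _ (ball_subset_closedBall hq.1)).differentiableAt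
      (op.mem_nhds hq.2)).hasFDerivAt.comp (γ n (τ n)).2.2
      (f := fun v => ((γ n (τ n)).2.1, v)) (hasFDerivAt_prodMk_right _ _)
    have e := (congrArg (fun A => A v) this.fderiv).trans hv
    rw [t0] at e
    exact e
  have one : ∀ᶠ s in 𝓝 (τ n : ℂ), (deriv (γ n) s).2.1 = 1 := by
    filter_upwards [cv.eventually_nhds] with s hs
    exact ((hasFDerivAt_snd (𝕜 := ℂ)).fst.comp_hasDerivAt s hs.self_of_nhds.1.hasDerivAt).unique
      ((hasDerivAt_id s).congr_of_eventuallyEq (hs.mono fun s' h' => h'.2.1))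
  have sh : ∀ᶠ s in 𝓝 (τ n : ℂ), γ n s ∈ S := by
    filter_upwards [cv.eventually_nhds, one, g0.continuousAt.eventually nb,
      g0.continuousAt.eventually ((h.rΔ.mat op hq).continuousAt.eventually_ne hX)]
      with s hs h1 hm hx
    obtain ⟨g1, t1, H1, E1, Q1⟩ := hs.self_of_nhds
    have T : ∀ᶠ s' in 𝓝 s, mTh Q a (γ n s') = 0 := hs.mono fun s' h' => by
      rw [mTh, h'.2.1, h'.2.2.2.2]
    have := h.t1 hm H1 hx (mid0_curve (h.mc.rH.mat op hm) g1 (hs.mono fun s' h' => h'.2.2.1))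
    rw [mid0_curve (h.rTh.mat op hm) g1 T, h1] at this
    rw [hS]
    exact ⟨hm.1, hm.2, Prod.mk_eq_zero.2 ⟨by simpa [E1, hx] using this.symm, H1⟩,
      Prod.mk_eq_zero.2 ⟨T.self_of_nhds, hK _ hm.1 _ hm.2 E1⟩, E1⟩
  have tne : (γ n (τ n)).2.1 ≠ 0 := t0.trans_ne (Complex.ofReal_ne_zero.2 (br.tne n))
  have ne : ∀ i, β i (γ n (τ n)) * Λ i (γ n (τ n)) ≠ 0 := fun i h0 => by simpa [h0] using hre i
  refine ⟨sh.self_of_nhds, mG_ne.2 ⟨tne, fun i => ⟨t0.symm ▸ br.σne n i, (mul_ne_zero_iff.1 (ne i)).1,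
    (mul_ne_zero_iff.1 (ne i)).2⟩, hX, fun h2 => ?_, ?_⟩, ?_⟩
  · have T : ∀ᶠ s in 𝓝 (τ n : ℂ), mD (mTh Q a) X (γ n s) = 0 := sh.mono fun s hs => by
      rw [hS] at hs
      exact (Prod.mk_eq_zero.1 hs.2.2.1).1
    have dH := mid0_curve (h.mc.rH.mat op hq) g0 (cv.mono fun s' h' => h'.2.2.1)
    have k1 := h.key hq H0 hX tne E0 T.self_of_nhds dH
    rw [mid0_curve (h.r1.mat op hq) g0 T, h2, mul_zero, zero_add] at k1
    have qa : mQa Q a (γ n (τ n)) ≠ 0 := by rw [mQa, t0]; exact br.sep n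
    have k2 : ∑ i, β i (γ n (τ n)) * Λ i (γ n (τ n)) * (deriv (γ n) (τ n)).1 i = 0 := by
      simpa [hX, tne, qa] using k1.symm
    rcases subsingleton_or_nontrivial κ with hκ | hκ
    · obtain ⟨i⟩ := ‹Nonempty κ›
      rw [mid0_single (i := i) fun k hk => absurd (Subsingleton.elim k i) hk] at k2
      have k3 := h.mc.i2 _ hq.1 _ hq.2 H0 tne E0 _ dH i ((mul_eq_zero.1 k2).resolve_left (ne i))
      rw [mid0_curve (h.dEM hq i) g0 (cv.mono fun s' h' => h'.2.2.2.1 i), one.self_of_nhds,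
        mul_zero, mul_one] at k3
      exact (mul_ne_zero_iff.1 (ne i)).2 k3.symm
    · have k3 := congrArg Complex.re k2
      rw [Complex.re_sum] at k3
      refine (Finset.sum_pos (fun i _ => ?_) Finset.univ_nonempty).ne' k3
      obtain ⟨i', hi⟩ := exists_ne i
      obtain ⟨r, r0, hr⟩ := br.sgn n i i' hi.symm
      rw [← ((hasDerivAt_pi.1 g0.hasDerivAt.fst) i).deriv, hr, Complex.re_mul_ofReal]
      exact mul_pos_of_neg_of_neg (hre i) r0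
  · rw [mQa, t0]; exact br.sep n
  · refine accPt_iff_frequently.2 ((g0.continuousAt.tendsto.mono_left
      (nhdsWithin_le_nhds (s := {(τ n : ℂ)}ᶜ))).frequently (Eventually.frequently ?_))
    filter_upwards [self_mem_nhdsWithin, nhdsWithin_le_nhds sh, nhdsWithin_le_nhds cv]
      with s h1 h2 h3
    exact ⟨fun e => h1 (by rw [← h3.2.1, e, t0]; rfl), h2⟩

theorem mid0 (hE : EndThm κ) (mc : MidCore U z₀ H a j β Λ σ L) {O : Set ℂ} (hO : IsOpen O)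
    (hz : z₀.1 ∈ O) {Q : ℂ × ℂ → ℂ} (hQ : DifferentiableOn ℂ Q (O ×ˢ univ)) {γ τ}
    (br : Bra U z₀ H a j σ L Q γ τ) {F : Type} [NormedAddCommGroup F] [NormedSpace ℂ F]
    [CompleteSpace F] {K : (κ → ℂ) × (ℂ × V) → F} (rK : Reg U K)
    (hK : ∀ b ∈ ball (0 : κ → ℂ) 1, ∀ z ∈ U, (∀ i, EM L j σ i (b, z) = 0) → K (b, z) = 0)
    (iso : ∀ᶠ z in 𝓝[≠] z₀, ¬ (H (1, z) = 0 ∧ Q (z.1, a (1, z)) = 0 ∧ K (1, z) = 0)) :
    ∃ i, Bdd (deriv (Jf (L i))) := by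
  have op : IsOpen (U ∩ Prod.fst ⁻¹' O) := mc.op.inter (hO.preimage continuous_fst)
  have m0 : z₀ ∈ U ∩ Prod.fst ⁻¹' O := ⟨mc.mem, hz⟩
  have mc₁ := mc.mmono op m0 inter_subset_left
  have nb := mc.op.mem_nhds mc.mem
  have gH := mid0_cv mc.dσ nb mc.dH
  obtain ⟨X, mf, gX⟩ := mid0_field op m0 mc₁.rH gH
  have h : M0 _ z₀ H a j β Λ σ L O Q X := ⟨mc₁, mf, hO, hQ, fun z hz => hz.2⟩
  have g1 := DG.comp op m0 (hO.prod isOpen_univ) h.rP (DG.prodMk op m0 (Reg.of_diff _ (by fun_prop))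
    mc₁.ra ⟨univ, univ_mem, DB.of_snd isOpen_univ _ differentiableOn_fst⟩
    (mid0_cv mc.dσ nb mc.da)) hQ fun _ _ z hz => ⟨hz.2, trivial⟩
  obtain ⟨W, hW, dW⟩ := DG.prodMk op m0 h.r1 mc₁.rH (DG.mD op m0 h.rTh mf.rX g1 gX) gH
  choose Wj hWj dj using fun i => mid0_cv mc.dσ nb (mc.dj i)
  obtain ⟨U', s1, s2, s3⟩ := _root_.mem_nhds_iff.1
    (inter_mem (op.mem_nhds m0) (inter_mem hW (iInter_mem.2 hWj)))
  have h' := h.mono s2 s3 fun z hz => (s1 hz).1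
  refine hE _ _ U' z₀ _ _ _ _ _ _ ⟨s2, s3, fun i => Jf_diff _, h'.r1.prodMk h'.mc.rH,
    h'.rTh.prodMk (rK.mono fun z hz => (s1 hz).1.1), h'.rG, h'.mc.rj, h'.rσ,
    dW.mmono fun z hz => (s1 hz).2.1, fun i => (dj i).mmono fun z hz => mem_iInter.1 (s1 hz).2.2 i,
    fun i => DB.of_snd s2 _ (f := fun z : ℂ × V => σ i z.1)
      ((mc.dσ i).comp differentiable_fst).differentiableOn,
    fun b hb z hz _ hg => ⟨h'.inv hb hz hg, fun i => ((mG_ne.1 hg).2.1 i).1⟩,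
    iso.mono fun z hz hh => hz ⟨(Prod.mk_eq_zero.1 hh.1).2, Prod.mk_eq_zero.1 hh.2⟩,
    h'.seq br (fun b hb z hz => hK b hb z (s1 hz).1.1) _ rfl⟩ (h'.end2 K)

end Pool.Agent.MP_098ecc_co.H97
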