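import Pool.Agent.MP_098ecc_co.H97.Defs3
import Pool.Agent.MP_098ecc_co.H97.Hol
import Pool.Agent.MP_098ecc_co.H97.Win

set_option autoImplicit false

namespace Pool.Agent.MP_098ecc_co.H97

open Metric Filter Topology Set Function
open scoped BoundedContinuousFunction

section Gen
variable {E F G : Type} [NormedAddCommGroup E] [NormedSpace ℂ E] [NormedAddCommGroup F]
  [NormedSpace ℂ F] [NormedAddCommGroup G] [NormedSpace ℂ G]

/-- a function vanishing on a regular level set has a derivative vanishing on the kernel -/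
theorem mid0_level [CompleteSpace E] [FiniteDimensional ℂ F] {H : E → F} {φ : E → G} {q : E}
    (hH : ContDiffAt ℂ 1 H q) (hs : Surjective (fderiv ℂ H q)) (hφ : DifferentiableAt ℂ φ q)
    (h0 : ∀ᶠ x in 𝓝 q, H x = H q → φ x = 0) {u : E} (hu : fderiv ℂ H q u = 0) :
    fderiv ℂ φ q u = 0 := by
  have h1 := hH.hasStrictFDerivAt one_ne_zero
  have h2 : (fderiv ℂ H q).range = ⊤ := LinearMap.range_eq_top.2 hs
  have h3 := h1.to_implicitFunction h2
  have h4 := h1.implicitFunction_apply_image h2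
  have h5 := h3.continuousAt.tendsto
  rw [h4] at h5
  have h6 : (fun y => φ (h1.implicitFunction H _ h2 (H q) y)) =ᶠ[𝓝 0] fun _ => 0 := by
    filter_upwards [h5.eventually h0, (tendsto_const_nhds.prodMk_nhds tendsto_id).eventually
      (h1.map_implicitFunction_eq h2)] with y a1 a2 using a1 a2
  have h7 := (h4.symm ▸ hφ.hasFDerivAt :
    HasFDerivAt φ (fderiv ℂ φ q) (h1.implicitFunction H _ h2 (H q) 0)).comp 0 h3.hasFDerivAt
  have h8 := (h7.congr_of_eventuallyEq h6.symm).unique (hasFDerivAt_const 0 0)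
  simpa using congrArg (fun A => A ⟨u, hu⟩) h8

/-- two tangent fields commute on a function that is critical along the level set -/
theorem mid0_comm {H : E → F} {Θ : E → G} {X Y : E → E} {q : E} (hH : ContDiffAt ℂ 2 H q)
    (hΘ : ContDiffAt ℂ 2 Θ q) (hX : DifferentiableAt ℂ X q) (hY : DifferentiableAt ℂ Y q)
    (h1 : ∀ᶠ x in 𝓝 q, fderiv ℂ H x (X x) = 0) (h2 : ∀ᶠ x in 𝓝 q, fderiv ℂ H x (Y x) = 0)
    (h3 : ∀ u, fderiv ℂ H q u = 0 → fderiv ℂ Θ q u = 0) :
    fderiv ℂ (fun x => fderiv ℂ Θ x (X x)) q (Y q) =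
      fderiv ℂ (fun x => fderiv ℂ Θ x (Y x)) q (X q) := by
  have a1 := VectorField.fderiv_apply_lieBracket hH (by simp) hX hY
  have a2 := VectorField.fderiv_apply_lieBracket hΘ (by simp) hX hY
  rw [EventuallyEq.fderiv_eq (f := fun _ => 0) h1, EventuallyEq.fderiv_eq (f := fun _ => 0) h2]
    at a1
  rw [h3 _ (by simpa using a1)] at a2
  exact sub_eq_zero.1 a2.symm

theorem mid0_curve {f : E → F} {γ : ℂ → E} {s : ℂ} (hf : DifferentiableAt ℂ f (γ s))
    (hγ : DifferentiableAt ℂ γ s) (h : ∀ᶠ s' in 𝓝 s, f (γ s') = 0) :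
    fderiv ℂ f (γ s) (deriv γ s) = 0 :=
  (hf.hasFDerivAt.comp_hasDerivAt s hγ.hasDerivAt).unique
    ((hasDerivAt_const s 0).congr_of_eventuallyEq h)

end Gen

section RegL
variable {B Z E F : Type} [NormedAddCommGroup B] [NormedSpace ℂ B] [NormedAddCommGroup Z]
  [NormedSpace ℂ Z] [NormedAddCommGroup E] [NormedSpace ℂ E] [NormedAddCommGroup F]
  [NormedSpace ℂ F]

/-- frozen derivative -/
noncomputable def mfz (f : B × Z → F) (q : B × Z) : Z →L[ℂ] F := fderiv ℂ (fun z => f (q.1, z)) q.2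

/-- derivative along a vertical field -/
noncomputable def mD (f : B × Z → F) (X : B × Z → Z) (q : B × Z) : F := mfz f q (X q)

/-- local derivative bound -/
def DG (w : B → B → ℝ) (z₀ : Z) (f : B × Z → F) : Prop := ∃ W ∈ 𝓝 z₀, DB W (fun q => w q.1) f

theorem mfz_eq {f : B × Z → F} {q : B × Z} (h : DifferentiableAt ℂ f q) (dz : Z) :
    mfz f q dz = fderiv ℂ f q (0, dz) := by
  rw [mfz, hol_frz_eq h]; rfl

theorem Reg.mat {U : Set Z} (hU : IsOpen U) {f : B × Z → F} (hf : Reg U f) {q : B × Z}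
    (hq : q ∈ ball (0 : B) 1 ×ˢ U) : DifferentiableAt ℂ f q :=
  hf.diff.differentiableAt ((isOpen_ball.prod hU).mem_nhds hq)

theorem Reg.mcd [CompleteSpace F] {U : Set Z} (hU : IsOpen U) {f : B × Z → F} (hf : Reg U f)
    {q : B × Z} (hq : q ∈ ball (0 : B) 1 ×ˢ U) (n : ℕ) : ContDiffAt ℂ n f q :=
  (hol_contDiffOn (isOpen_ball.prod hU) hf.diff n).contDiffAt ((isOpen_ball.prod hU).mem_nhds hq)

theorem Reg.mcomp {U : Set Z} {f : B × Z → E} {g : E → F} (hf : Reg U f)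
    (hg : Differentiable ℂ g) : Reg U (fun q => g (f q)) :=
  hf.comp (O := univ) hg.differentiableOn fun _ _ _ _ => trivial

theorem Reg.mmul {U : Set Z} {f g : B × Z → ℂ} (hf : Reg U f) (hg : Reg U g) :
    Reg U (fun q => f q * g q) :=
  ⟨hf.cont.mul hg.cont, hf.diff.mul hg.diff, fun b hb => (hf.frz b hb).mul (hg.frz b hb)⟩

theorem Reg.mprod {ι : Type} {U : Set Z} (s : Finset ι) {f : ι → B × Z → ℂ}
    (hf : ∀ i, Reg U (f i)) : Reg U (fun q => ∏ i ∈ s, f i q) := by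
  classical
  induction s using Finset.induction_on with
  | empty => simpa using Reg.of_diff U (differentiable_const (1 : ℂ))
  | insert i s hi ih => simpa [Finset.prod_insert hi] using (hf i).mmul ih

theorem DB.mmono {U U' : Set Z} {w : B × Z → B → ℝ} {f : B × Z → F} (h : DB U w f)
    (hU : U' ⊆ U) : DB U' w f := by
  obtain ⟨C, hC⟩ := h
  exact ⟨C, fun b hb z hz => hC b hb z (hU hz)⟩

theorem DB.of_snd {U : Set Z} (hU : IsOpen U) (w : B × Z → B → ℝ) {f : Z → F}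
    (h : DifferentiableOn ℂ f U) : DB U w (fun q : B × Z => f q.2) := by
  refine ⟨0, fun b _ z hz db => ?_⟩
  have := (HasFDerivAt.comp (f := Prod.snd) (b, z)
    (h.differentiableAt (hU.mem_nhds hz)).hasFDerivAt hasFDerivAt_snd).fderiv
  rw [show (fun q : B × Z => f q.2) = f ∘ Prod.snd from rfl, this]
  simp

theorem DG.prodMk {U : Set Z} (hU : IsOpen U) {z₀ : Z} (hz : z₀ ∈ U) {w : B → B → ℝ}
    {f : B × Z → E} {g : B × Z → F} (rf : Reg U f) (rg : Reg U g) (hf : DG w z₀ f)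
    (hg : DG w z₀ g) : DG w z₀ (fun q => (f q, g q)) := by
  obtain ⟨W, hW, C, hC⟩ := hf
  obtain ⟨W', hW', C', hC'⟩ := hg
  refine ⟨U ∩ (W ∩ W'), inter_mem (hU.mem_nhds hz) (inter_mem hW hW'), C + C',
    fun b hb z hz db => ?_⟩
  rw [(rf.mat hU ⟨hb, hz.1⟩).fderiv_prodMk (rg.mat hU ⟨hb, hz.1⟩), ContinuousLinearMap.prod_apply,
    Prod.norm_mk, add_mul]
  have a1 := hC b hb z hz.2.1 db
  have a2 := hC' b hb z hz.2.2 db
  exact max_le (by linarith [norm_nonneg (fderiv ℂ g (b, z) (db, 0))])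
    (by linarith [norm_nonneg (fderiv ℂ f (b, z) (db, 0))])

variable [FiniteDimensional ℂ B] [FiniteDimensional ℂ Z]

theorem DG.comp [CompleteSpace F] {U : Set Z} (hU : IsOpen U) {z₀ : Z} (hz : z₀ ∈ U)
    {w : B → B → ℝ} {f : B × Z → E} {g : E → F} {O : Set E} (hO : IsOpen O) (rf : Reg U f)
    (hf : DG w z₀ f) (hg : DifferentiableOn ℂ g O)
    (hm : ∀ b ∈ closedBall (0 : B) 1, ∀ z ∈ U, f (b, z) ∈ O) : DG w z₀ (fun q => g (f q)) := by
  have := FiniteDimensional.proper ℂ B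
  have := FiniteDimensional.proper ℂ Z
  obtain ⟨W, hW, C, hC⟩ := hf
  obtain ⟨r, r0, hr⟩ := Metric.nhds_basis_closedBall.mem_iff.1 (inter_mem (hU.mem_nhds hz) hW)
  have hK : IsCompact (closedBall (0 : B) 1 ×ˢ closedBall z₀ r) :=
    (isCompact_closedBall _ _).prod (isCompact_closedBall _ _)
  obtain ⟨M, hM⟩ := hK.exists_bound_of_continuousOn ((hol_fderiv hO hg).continuousOn.comp
    (rf.cont.mono (prod_mono_right fun z hz => (hr hz).1)) fun q hq => hm _ hq.1 _ (hr hq.2).1)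
  refine ⟨closedBall z₀ r, closedBall_mem_nhds _ r0, M * C, fun b hb z hz db => ?_⟩
  have hb' := ball_subset_closedBall hb
  have a1 := hM (b, z) ⟨hb', hz⟩
  rw [fderiv_fun_comp _ (hg.differentiableAt (hO.mem_nhds (hm b hb' z (hr hz).1)))
    (rf.mat hU ⟨hb, (hr hz).1⟩), mul_assoc, ContinuousLinearMap.comp_apply]
  exact (ContinuousLinearMap.le_opNorm _ _).trans
    (mul_le_mul a1 (hC b hb z (hr hz).2 db) (norm_nonneg _) ((norm_nonneg _).trans a1))

theorem DG.mfz [CompleteSpace F] {U : Set Z} (hU : IsOpen U) {z₀ : Z} (hz : z₀ ∈ U)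
    {w : B → B → ℝ} {f : B × Z → F} (rf : Reg U f) (hf : DG w z₀ f) : DG w z₀ (mfz f) := by
  obtain ⟨W, hW, h⟩ := hf
  obtain ⟨r, r0, hr⟩ := Metric.mem_nhds_iff.1 (inter_mem (hU.mem_nhds hz) hW)
  refine ⟨ball z₀ (r / 2), ball_mem_nhds _ (half_pos r0), DB.fderiv_snd isOpen_ball
    (rf.mono fun z hz => (hr hz).1) (h.mmono fun z hz => (hr hz).2) (half_pos r0) fun z hz => ?_⟩
  simpa [mul_div_cancel₀] using hol_ball hz

theorem Reg.mD [CompleteSpace F] {U : Set Z} (hU : IsOpen U) {f : B × Z → F} {X : B × Z → Z}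
    (rf : Reg U f) (rX : Reg U X) : Reg U (mD f X) :=
  ((rf.fderiv_snd hU).prodMk rX).mcomp (g := fun p : (Z →L[ℂ] F) × Z => p.1 p.2) (by fun_prop)

theorem DG.mD [CompleteSpace F] {U : Set Z} (hU : IsOpen U) {z₀ : Z} (hz : z₀ ∈ U)
    {w : B → B → ℝ} {f : B × Z → F} {X : B × Z → Z} (rf : Reg U f) (rX : Reg U X)
    (hf : DG w z₀ f) (hX : DG w z₀ X) : DG w z₀ (mD f X) :=
  DG.comp hU hz (g := fun p : (Z →L[ℂ] F) × Z => p.1 p.2) isOpen_univ
    ((rf.fderiv_snd hU).prodMk rX) (DG.prodMk hU hz (rf.fderiv_snd hU) rX (hf.mfz hU hz rf) hX)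
    (by fun_prop) fun _ _ _ _ => trivial

end RegL

section Field
variable {B V : Type} [NormedAddCommGroup B] [NormedSpace ℂ B] [NormedAddCommGroup V]
  [NormedSpace ℂ V] [FiniteDimensional ℂ B] [FiniteDimensional ℂ V]

/-- the tangent field of the level curves -/
structure MF (U : Set (ℂ × V)) (H : B × (ℂ × V) → V) (X : B × (ℂ × V) → ℂ × V) : Prop where
  rX : Reg U X
  tan : ∀ q, mfz H q (X q) = 0
  inj : ∀ q, (X q).1 ≠ 0 ↔ ∀ v, mfz H q (0, v) = 0 → v = 0
  sur : ∀ q, (X q).1 ≠ 0 → ∀ y, ∃ v, mfz H q (0, v) = y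
  exY : ∀ db, ∃ Y : B × (ℂ × V) → V, DifferentiableOn ℂ Y (ball 0 1 ×ˢ U) ∧
    ∀ q ∈ ball (0 : B) 1 ×ˢ U, fderiv ℂ H q ((X q).1 • db, (0, Y q)) = 0

theorem mid0_field {U : Set (ℂ × V)} (hU : IsOpen U) {z₀ : ℂ × V} (hz : z₀ ∈ U)
    {H : B × (ℂ × V) → V} (rH : Reg U H) {w : B → B → ℝ} (hH : DG w z₀ H) :
    ∃ X, MF U H X ∧ DG w z₀ X := by
  have := FiniteDimensional.complete ℂ V
  obtain ⟨d1, adj, d2, h3⟩ := exists_adj V
  let ι := ContinuousLinearMap.inr ℂ ℂ V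
  have d3 : Differentiable ℂ fun A : ℂ × V →L[ℂ] V => A.comp ι := by fun_prop
  have d4 : Differentiable ℂ fun A : ℂ × V →L[ℂ] V => adj (A.comp ι) := d2.comp d3
  have d5 : Differentiable ℂ fun A : ℂ × V →L[ℂ] V =>
      ((A.comp ι).det, -adj (A.comp ι) (A (1, 0))) :=
    (d1.comp d3).prodMk (d4.clm_apply (by fun_prop)).neg
  have rA := rH.fderiv_snd hU
  refine ⟨fun q => (((mfz H q).comp ι).det, -adj ((mfz H q).comp ι) (mfz H q (1, 0))),
    ⟨rA.mcomp d5, fun q => ?_, fun q => ⟨fun h v hv => ?_, fun h h0 => ?_⟩, fun q h y => ?_,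
      fun db => ⟨fun q => -adj ((mfz H q).comp ι) (fderiv ℂ H q (db, 0)), ?_, fun q hq => ?_⟩⟩,
    DG.comp hU hz isOpen_univ rA (hH.mfz hU hz rH) d5.differentiableOn fun _ _ _ _ => trivial⟩
  · have := (h3 ((mfz H q).comp ι) (mfz H q (1, 0))).2
    rw [show ∀ (c : ℂ) (v : V), (c, -v) = c • ((1 : ℂ), (0 : V)) - ι v from fun c v => by simp [ι],
      map_sub, map_smul, ← this]
    exact sub_self _
  · have := (h3 ((mfz H q).comp ι) v).1
    rw [show ((mfz H q).comp ι) v = 0 from hv, map_zero] at this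
    exact (smul_eq_zero.1 this.symm).resolve_left h
  · exact LinearMap.det_eq_zero_iff_ker_ne_bot.1 h0 (LinearMap.ker_eq_bot'.2 h)
  · refine ⟨(((mfz H q).comp ι).det)⁻¹ • adj ((mfz H q).comp ι) y, ?_⟩
    refine (map_smul ((mfz H q).comp ι) _ _).trans ?_
    rw [(h3 _ y).2, inv_smul_smul₀ h]
  · exact ((rA.mcomp d4).diff.clm_apply ((hol_fderiv (isOpen_ball.prod hU) rH.diff).clm_apply
      (differentiableOn_const _))).neg
  · have := (h3 ((mfz H q).comp ι) (fderiv ℂ H q (db, 0))).2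
    rw [show ∀ (c : ℂ) (v : V), (c • db, ((0 : ℂ), -v)) = c • (db, 0) - ((0 : B), ι v) from
      fun c v => by simp [ι], map_sub, map_smul, ← this, ← mfz_eq (rH.mat hU hq)]
    exact sub_self _

omit [FiniteDimensional ℂ B] [FiniteDimensional ℂ V] in
theorem MF.split {U : Set (ℂ × V)} {H : B × (ℂ × V) → V} {X : B × (ℂ × V) → ℂ × V}
    (h : MF U H X) {q : B × (ℂ × V)} (hq : (X q).1 ≠ 0) {dz : ℂ × V} (hd : mfz H q dz = 0) :
    dz = (dz.1 / (X q).1) • X q := by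
  have e : dz - (dz.1 / (X q).1) • X q = (0, (dz - (dz.1 / (X q).1) • X q).2) :=
    Prod.ext (by simp [hq]) rfl
  have := (h.inj q).1 hq _ (by rw [← e, map_sub, map_smul, hd, h.tan, smul_zero, sub_zero])
  rw [this] at e
  exact sub_eq_zero.1 e

end Field

end Pool.Agent.MP_098ecc_co.H97
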