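import Pool.Agent.MP_098ecc_co.H97.Mid0A

set_option autoImplicit false
set_option linter.unusedSectionVars false

namespace Pool.Agent.MP_098ecc_co.H97

open Metric Filter Topology Set Function
open scoped BoundedContinuousFunction

variable {κ V : Type} [Fintype κ] [DecidableEq κ] [NormedAddCommGroup V]
  [NormedSpace ℂ V] [FiniteDimensional ℂ V] {U : Set (ℂ × V)} {z₀ : ℂ × V}
  {H : (κ → ℂ) × (ℂ × V) → V} {a : (κ → ℂ) × (ℂ × V) → ℂ}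
  {j β Λ : κ → (κ → ℂ) × (ℂ × V) → ℂ} {σ : κ → ℂ → ℂ} {L : κ → Set ℕ} {O : Set ℂ}
  {Q : ℂ × ℂ → ℂ} {X : (κ → ℂ) × (ℂ × V) → ℂ × V}

/-- the relation read in the chart -/
def mTh (Q : ℂ × ℂ → ℂ) (a : (κ → ℂ) × (ℂ × V) → ℂ) (q : (κ → ℂ) × (ℂ × V)) : ℂ := Q (q.2.1, a q)

noncomputable def mQa (Q : ℂ × ℂ → ℂ) (a : (κ → ℂ) × (ℂ × V) → ℂ) (q : (κ → ℂ) × (ℂ × V)) : ℂ :=
  fderiv ℂ Q (q.2.1, a q) (0, 1)

/-- standing hypotheses -/
structure M0 (U : Set (ℂ × V)) (z₀ : ℂ × V) (H : (κ → ℂ) × (ℂ × V) → V)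
    (a : (κ → ℂ) × (ℂ × V) → ℂ) (j β Λ : κ → (κ → ℂ) × (ℂ × V) → ℂ) (σ : κ → ℂ → ℂ)
    (L : κ → Set ℕ) (O : Set ℂ) (Q : ℂ × ℂ → ℂ) (X : (κ → ℂ) × (ℂ × V) → ℂ × V) : Prop where
  mc : MidCore U z₀ H a j β Λ σ L
  mf : MF U H X
  hO : IsOpen O
  hQ : DifferentiableOn ℂ Q (O ×ˢ univ)
  hU : ∀ z ∈ U, z.1 ∈ O

theorem MidCore.mmono (mc : MidCore U z₀ H a j β Λ σ L) {U' : Set (ℂ × V)} (h1 : IsOpen U')
    (h2 : z₀ ∈ U') (h3 : U' ⊆ U) : MidCore U' z₀ H a j β Λ σ L :=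
  ⟨h1, h2, mc.hL, mc.rH.mono h3, mc.ra.mono h3, fun i => (mc.rj i).mono h3,
    fun i => (mc.rβ i).mono h3, fun i => (mc.rΛ i).mono h3, mc.dσ, mc.dH.mmono h3, mc.da.mmono h3,
    fun i => (mc.dj i).mmono h3, fun i => (mc.dβ i).mmono h3, mc.base, mc.βpos, mc.Λneg,
    fun b hb z hz => mc.i1 b hb z (h3 hz), fun b hb z hz => mc.i2 b hb z (h3 hz)⟩

theorem M0.rP (h : M0 U z₀ H a j β Λ σ L O Q X) : Reg U fun q => (q.2.1, a q) :=
  (Reg.of_diff U (by fun_prop)).prodMk h.mc.ra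

theorem M0.rTh (h : M0 U z₀ H a j β Λ σ L O Q X) : Reg U (mTh Q a) :=
  h.rP.comp h.hQ fun _ _ z hz => ⟨h.hU z hz, trivial⟩

theorem M0.rQa (h : M0 U z₀ H a j β Λ σ L O Q X) : Reg U (mQa Q a) :=
  h.rP.comp (g := fun p => fderiv ℂ Q p (0, 1)) ((hol_fderiv (h.hO.prod isOpen_univ) h.hQ).clm_apply
    (differentiableOn_const _)) fun _ _ z hz => ⟨h.hU z hz, trivial⟩

theorem M0.dEM (h : M0 U z₀ H a j β Λ σ L O Q X) {q : (κ → ℂ) × (ℂ × V)}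
    (hq : q ∈ ball (0 : κ → ℂ) 1 ×ˢ U) (i : κ) : DifferentiableAt ℂ (EM L j σ i) q := by
  have h1 : q.1 i ∈ ball (0 : ℂ) 1 :=
    mem_ball_zero_iff.2 ((norm_le_pi_norm q.1 i).trans_lt (mem_ball_zero_iff.1 hq.1))
  exact ((h.mc.rj i).mat h.mc.op hq).sub
    (((h.mc.dσ i _).comp q (f := fun q : (κ → ℂ) × (ℂ × V) => q.2.1) (by fun_prop)).mul
      (((Jf_diff (L i)).differentiableAt (isOpen_ball.mem_nhds h1)).comp q
        (f := fun q : (κ → ℂ) × (ℂ × V) => q.1 i) (by fun_prop)))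

theorem M0.t0 (h : M0 U z₀ H a j β Λ σ L O Q X) {q : (κ → ℂ) × (ℂ × V)}
    (hq : q ∈ ball (0 : κ → ℂ) 1 ×ˢ U) (h0 : H q = 0) {db : κ → ℂ} {dv : V}
    (hd : fderiv ℂ H q (db, (0, dv)) = 0) :
    fderiv ℂ (mTh Q a) q (db, (0, dv)) = mQa Q a q * ∑ i, β i q * EM L j σ i q * db i := by
  have h1 := (h.hQ.differentiableAt ((h.hO.prod isOpen_univ).mem_nhds
    (show (q.2.1, a q) ∈ O ×ˢ univ from ⟨h.hU _ hq.2, trivial⟩))).hasFDerivAt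
  have h2 := ((hasFDerivAt_snd (𝕜 := ℂ) (p := q)).fst).prodMk (h.mc.ra.mat h.mc.op hq).hasFDerivAt
  have h3 := (h1.comp q h2).fderiv
  rw [← h.mc.i1 q.1 hq.1 q.2 hq.2 h0 db dv hd, mQa, mul_comm, ← smul_eq_mul, ← map_smul]
  refine (congrArg (fun A => A (db, (0, dv))) h3).trans ?_
  simp

theorem M0.dec (h : M0 U z₀ H a j β Λ σ L O Q X) {q : (κ → ℂ) × (ℂ × V)}
    (hq : q ∈ ball (0 : κ → ℂ) 1 ×ˢ U) (hX : (X q).1 ≠ 0) {dq : (κ → ℂ) × (ℂ × V)}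
    (hd : fderiv ℂ H q dq = 0) : ∃ dv, dq = (dq.1, (0, dv)) + (dq.2.1 / (X q).1) • (0, X q) ∧
      fderiv ℂ H q (dq.1, (0, dv)) = 0 := by
  have e : dq = (dq.1, (0, dq.2.2 - (dq.2.1 / (X q).1) • (X q).2)) +
      (dq.2.1 / (X q).1) • (0, X q) := Prod.ext (by simp) (Prod.ext (by simp [hX]) (by simp))
  refine ⟨_, e, ?_⟩
  rwa [e, map_add, map_smul, ← mfz_eq (h.mc.rH.mat h.mc.op hq), h.mf.tan, smul_zero, add_zero] at hd

theorem M0.t1 (h : M0 U z₀ H a j β Λ σ L O Q X) {q : (κ → ℂ) × (ℂ × V)}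
    (hq : q ∈ ball (0 : κ → ℂ) 1 ×ˢ U) (h0 : H q = 0) (hX : (X q).1 ≠ 0)
    {dq : (κ → ℂ) × (ℂ × V)} (hd : fderiv ℂ H q dq = 0) :
    fderiv ℂ (mTh Q a) q dq = mQa Q a q * ∑ i, β i q * EM L j σ i q * dq.1 i +
      dq.2.1 / (X q).1 * mD (mTh Q a) X q := by
  obtain ⟨dv, e, h1⟩ := h.dec hq hX hd
  rw [← h.t0 hq h0 h1, mD, mfz_eq (h.rTh.mat h.mc.op hq), ← smul_eq_mul, ← map_smul, ← map_add, ← e]

theorem M0.key (h : M0 U z₀ H a j β Λ σ L O Q X) {q : (κ → ℂ) × (ℂ × V)}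
    (hq : q ∈ ball (0 : κ → ℂ) 1 ×ˢ U) (h0 : H q = 0) (hX : (X q).1 ≠ 0) (hτ : q.2.1 ≠ 0)
    (hE : ∀ i, EM L j σ i q = 0) (h1 : mD (mTh Q a) X q = 0)
    {dq : (κ → ℂ) × (ℂ × V)} (hd : fderiv ℂ H q dq = 0) :
    fderiv ℂ (mD (mTh Q a) X) q dq = dq.2.1 / (X q).1 * mD (mD (mTh Q a) X) X q +
      (X q).1 * mQa Q a q * (∑ i, β i q * Λ i q * dq.1 i) / q.2.1 := by
  have := FiniteDimensional.complete ℂ V
  have op := h.mc.op
  have nb := (isOpen_ball.prod op).mem_nhds hq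
  obtain ⟨dv, e, h2⟩ := h.dec hq hX hd
  obtain ⟨Y, dY, hY⟩ := h.mf.exY dq.1
  generalize dq.1 = db at *
  have r1 := h.rTh.mD op h.mf.rX
  have dX := h.mf.rX.mat op hq
  have dH := h.mc.rH.mat op hq
  have dX' : DifferentiableAt ℂ (fun x => ((0 : κ → ℂ), X x)) q := by fun_prop
  have dY' : DifferentiableAt ℂ (fun x => ((X x).1 • db, ((0 : ℂ), Y x))) q :=
    (dX.fst.smul_const db).prodMk ((differentiableAt_const _).prodMk (dY.differentiableAt nb))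
  have tX : fderiv ℂ H q (0, X q) = 0 := by rw [← mfz_eq dH, h.mf.tan]
  have a1 := mid0_comm (h.mc.rH.mcd op hq 2) (h.rTh.mcd op hq 2) dX' dY'
    (by filter_upwards [nb] with x hx using by rw [← mfz_eq (h.mc.rH.mat op hx), h.mf.tan])
    (by filter_upwards [nb] with x hx using hY x hx)
    (fun u hu => by simp [h.t1 hq h0 hX hu, hE, h1])
  have a2 : (fun x => fderiv ℂ (mTh Q a) x (0, X x)) =ᶠ[𝓝 q] mD (mTh Q a) X := by
    filter_upwards [nb] with x hx using (mfz_eq (h.rTh.mat op hx) _).symm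
  have a3 : ((X q).1 • db, ((0 : ℂ), Y q)) = (X q).1 • (db, ((0 : ℂ), dv)) := by
    have := (h.mf.inj q).1 hX (Y q - (X q).1 • dv) (by
      rw [mfz_eq dH, show ((0 : κ → ℂ), ((0 : ℂ), Y q - (X q).1 • dv)) =
        ((X q).1 • db, ((0 : ℂ), Y q)) - (X q).1 • (db, ((0 : ℂ), dv)) by simp, map_sub, map_smul,
        hY q hq, h2, smul_zero, sub_zero])
    simp [sub_eq_zero.1 this]
  have d1 : DifferentiableAt ℂ (fun x => fderiv ℂ (mTh Q a) x ((X x).1 • db, ((0 : ℂ), Y x))) q :=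
    ((hol_fderiv (isOpen_ball.prod op) h.rTh.diff).differentiableAt nb).clm_apply dY'
  have d2 : HasFDerivAt (fun x => ∑ i, mQa Q a x * β i x * ((X x).1 * db i) * EM L j σ i x)
      (∑ i, (mQa Q a q * β i q * ((X q).1 * db i)) • fderiv ℂ (EM L j σ i) q) q := by
    refine HasFDerivAt.fun_sum fun i _ => ?_
    have := (((h.rQa.mat op hq).mul ((h.mc.rβ i).mat op hq)).mul
      (dX.fst.mul_const (db i))).hasFDerivAt.mul (h.dEM hq i).hasFDerivAt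
    exact this.congr_fderiv (ContinuousLinearMap.ext fun u => by simp [hE i])
  have a4 := mid0_level (h.mc.rH.mcd op hq 1) (fun y => by
      obtain ⟨v, hv⟩ := h.mf.sur q hX y
      exact ⟨_, (mfz_eq dH _).symm.trans hv⟩) (d1.sub d2.differentiableAt)
    (by
      filter_upwards [nb] with x hx hx0
      rw [Pi.sub_apply, h.t0 hx (hx0.trans h0) (hY x hx), Finset.mul_sum, sub_eq_zero]
      exact Finset.sum_congr rfl fun i _ => by simp; ring) tX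
  rw [fderiv_sub d1 d2.differentiableAt, d2.fderiv, sub_apply, ← a1,
    a2.fderiv_eq, a3, map_smul, sum_apply, sub_eq_zero] at a4
  have a5 : ∀ i, fderiv ℂ (EM L j σ i) q (0, X q) = Λ i q * (X q).1 / q.2.1 := fun i => by
    rw [← h.mc.i2 q.1 hq.1 q.2 hq.2 h0 hτ hE (0, X q) tX i rfl, mul_div_cancel_left₀ _ hτ]
  simp only [smul_apply, a5, smul_eq_mul] at a4
  have a6 : fderiv ℂ (mD (mTh Q a) X) q (db, (0, dv)) =
      (X q).1 * mQa Q a q * (∑ i, β i q * Λ i q * db i) / q.2.1 := by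
    refine mul_left_cancel₀ hX (a4.trans ?_)
    simp only [Finset.mul_sum, Finset.sum_div]
    exact Finset.sum_congr rfl fun i _ => by ring
  rw [← a6, mD, mfz_eq (r1.mat op hq), ← smul_eq_mul, ← map_smul, ← map_add, add_comm, ← e]

end Pool.Agent.MP_098ecc_co.H97
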