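import Pool.Agent.MP_098ecc_co.H97.Mid0B

set_option autoImplicit false
set_option linter.unusedSectionVars false

namespace Pool.Agent.MP_098ecc_co.H97

open Metric Filter Topology Set Function
open scoped BoundedContinuousFunction

variable {κ V : Type} [Fintype κ] [DecidableEq κ] [NormedAddCommGroup V]
  [NormedSpace ℂ V] [FiniteDimensional ℂ V] {U : Set (ℂ × V)} {z₀ : ℂ × V}
  {H : (κ → ℂ) × (ℂ × V) → V} {a : (κ → ℂ) × (ℂ × V) → ℂ}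
  {j β Λ : κ → (κ → ℂ) × (ℂ × V) → ℂ} {σ : κ → ℂ → ℂ} {L : κ → Set ℕ} {O : Set ℂ}
  {Q : ℂ × ℂ → ℂ} {X : (κ → ℂ) × (ℂ × V) → ℂ × V}

/-- the nondegeneracy function -/
noncomputable def mG (a : (κ → ℂ) × (ℂ × V) → ℂ) (β Λ : κ → (κ → ℂ) × (ℂ × V) → ℂ)
    (σ : κ → ℂ → ℂ) (Q : ℂ × ℂ → ℂ) (X : (κ → ℂ) × (ℂ × V) → ℂ × V)
    (q : (κ → ℂ) × (ℂ × V)) : ℂ :=
  q.2.1 * (∏ i, σ i q.2.1 * β i q * Λ i q) * (X q).1 * mD (mD (mTh Q a) X) X q * mQa Q a q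

theorem mG_ne {q : (κ → ℂ) × (ℂ × V)} : mG a β Λ σ Q X q ≠ 0 ↔ q.2.1 ≠ 0 ∧
    (∀ i, σ i q.2.1 ≠ 0 ∧ β i q ≠ 0 ∧ Λ i q ≠ 0) ∧ (X q).1 ≠ 0 ∧
    mD (mD (mTh Q a) X) X q ≠ 0 ∧ mQa Q a q ≠ 0 := by
  simp only [mG, mul_ne_zero_iff, Finset.prod_ne_zero_iff, and_assoc, Finset.mem_univ,
    forall_true_left]

theorem M0.r1 (h : M0 U z₀ H a j β Λ σ L O Q X) : Reg U (mD (mTh Q a) X) :=
  h.rTh.mD h.mc.op h.mf.rX

theorem M0.r2 (h : M0 U z₀ H a j β Λ σ L O Q X) : Reg U (mD (mD (mTh Q a) X) X) :=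
  h.r1.mD h.mc.op h.mf.rX

theorem M0.rΔ (h : M0 U z₀ H a j β Λ σ L O Q X) : Reg U (fun q => (X q).1) :=
  h.mf.rX.mcomp differentiable_fst

theorem M0.rσ (h : M0 U z₀ H a j β Λ σ L O Q X) (i : κ) :
    Reg U (fun q : (κ → ℂ) × (ℂ × V) => σ i q.2.1) :=
  Reg.of_snd (f := fun z : ℂ × V => σ i z.1) ((h.mc.dσ i).comp differentiable_fst).differentiableOn

theorem M0.rG (h : M0 U z₀ H a j β Λ σ L O Q X) : Reg U (mG a β Λ σ Q X) :=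
  ((((Reg.of_diff U (by fun_prop)).mmul (Reg.mprod _ fun i =>
    ((h.rσ i).mmul (h.mc.rβ i)).mmul (h.mc.rΛ i))).mmul h.rΔ).mmul h.r2).mmul h.rQa

theorem M0.pair (h : M0 U z₀ H a j β Λ σ L O Q X) {q : (κ → ℂ) × (ℂ × V)}
    (hq : q ∈ ball (0 : κ → ℂ) 1 ×ˢ U) {dq : (κ → ℂ) × (ℂ × V)}
    (hd : fderiv ℂ (fun q => (mD (mTh Q a) X q, H q)) q dq = 0) :
    fderiv ℂ (mD (mTh Q a) X) q dq = 0 ∧ fderiv ℂ H q dq = 0 := by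
  rw [(h.r1.mat h.mc.op hq).fderiv_prodMk (h.mc.rH.mat h.mc.op hq)] at hd
  exact Prod.mk_eq_zero.1 hd

theorem mid0_single {f db : κ → ℂ} {i : κ} (h : ∀ k, k ≠ i → db k = 0) :
    ∑ k, f k * db k = f i * db i :=
  Finset.sum_eq_single i (fun k _ hk => by rw [h k hk, mul_zero]) (by simp)

theorem M0.end2 (h : M0 U z₀ H a j β Λ σ L O Q X) {F : Type} [NormedAddCommGroup F]
    [NormedSpace ℂ F] (K : (κ → ℂ) × (ℂ × V) → F) :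
    End2g U (fun q => (mD (mTh Q a) X q, H q)) (fun q => (mTh Q a q, K q)) (mG a β Λ σ Q X)
      (fun i => Jf (L i)) j (fun i q => σ i q.2.1) := by
  have sub : ND U (fun q => (mD (mTh Q a) X q, H q)) (mG a β Λ σ Q X) ⊆ closedBall 0 1 ×ˢ U :=
    fun q hq => ⟨hq.1, hq.2.1⟩
  refine ⟨fun i i' hi => ⟨fun q => -(Λ i q * ((X q).1 * (X q).1) * mQa Q a q * β i' q * Λ i' q) /
      (q.2.1 * q.2.1 * mD (mD (mTh Q a) X) X q), ?_, fun q hq => ?_, fun q hq hg dq hd h0 => ?_⟩,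
    fun i => ⟨mTh Q a, fun q => mQa Q a q * β i q, h.rTh, fun q hq => (Prod.mk_eq_zero.1 hq).1,
      (h.rQa.mmul (h.mc.rβ i)).cont.mono sub, fun q hq => ?_, fun q hq hb dq hd h0 => ?_⟩⟩
  · refine ContinuousOn.div (((((((h.mc.rΛ i).mmul (h.rΔ.mmul h.rΔ)).mmul h.rQa).mmul
      (h.mc.rβ i')).mmul (h.mc.rΛ i')).cont.mono sub).neg)
      ((by fun_prop : Continuous fun q : (κ → ℂ) × (ℂ × V) => q.2.1 * q.2.1).continuousOn.mul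
        (h.r2.cont.mono sub)) fun q hq => ?_
    obtain ⟨a1, -, -, a4, -⟩ := mG_ne.1 hq.2.2.2
    exact mul_ne_zero (mul_ne_zero a1 a1) a4
  · obtain ⟨a1, a2, a3, a4, a5⟩ := mG_ne.1 hq.2.2.2
    simp [a1, a3, a4, a5, (a2 i).2.2, (a2 i').2.1, (a2 i').2.2]
  · obtain ⟨a1, a2, a3, a4, a5⟩ := mG_ne.1 hg
    obtain ⟨b1, b2, b3, -, b5⟩ := hq
    obtain ⟨c1, c2⟩ := h.pair ⟨b1, b2⟩ hd
    obtain ⟨b3, b4⟩ := Prod.mk_eq_zero.1 b3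
    have k1 := h.key ⟨b1, b2⟩ b4 a3 a1 b5 b3 c2
    have k2 := h.mc.i2 q.1 b1 q.2 b2 b4 a1 b5 dq c2 i (h0 i hi)
    rw [c1, mid0_single h0] at k1
    refine mul_left_cancel₀ a1 (k2.trans ?_)
    field_simp at k1 ⊢
    linear_combination (-Λ i q) * k1
  · obtain ⟨-, a2, -, -, a5⟩ := mG_ne.1 hq.2.2.2
    exact mul_ne_zero a5 (a2 i).2.1
  · obtain ⟨-, -, a3, -, -⟩ := mG_ne.1 hq.2.2.2
    obtain ⟨b3, b4⟩ := Prod.mk_eq_zero.1 hq.2.2.1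
    rw [h.t1 ⟨hb, hq.2.1⟩ b4 a3 (h.pair ⟨hb, hq.2.1⟩ hd).2, b3, mid0_single h0, mul_zero, add_zero,
      ← mul_assoc, ← mul_assoc]
    rfl

theorem M0.inv (h : M0 U z₀ H a j β Λ σ L O Q X) {b : κ → ℂ} (hb : b ∈ closedBall (0 : κ → ℂ) 1)
    {z : ℂ × V} (hz : z ∈ U) (hg : mG a β Λ σ Q X (b, z) ≠ 0) :
    Injective (fderiv ℂ (fun z => (mD (mTh Q a) X (b, z), H (b, z))) z) := by
  obtain ⟨-, -, a3, a4, -⟩ := mG_ne.1 hg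
  have nb := h.mc.op.mem_nhds hz
  rw [((h.r1.frz b hb).differentiableAt nb).fderiv_prodMk ((h.mc.rH.frz b hb).differentiableAt nb)]
  refine (injective_iff_map_eq_zero _).2 fun dz hd => ?_
  obtain ⟨c1, c2⟩ : mfz (mD (mTh Q a) X) (b, z) dz = 0 ∧ mfz H (b, z) dz = 0 := Prod.mk_eq_zero.1 hd
  have e := h.mf.split a3 c2
  rw [e, map_smul] at c1
  rw [e, (smul_eq_zero.1 c1).resolve_right a4, zero_smul]

theorem M0.mono (h : M0 U z₀ H a j β Λ σ L O Q X) {U' : Set (ℂ × V)} (h1 : IsOpen U')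
    (h2 : z₀ ∈ U') (h3 : U' ⊆ U) : M0 U' z₀ H a j β Λ σ L O Q X :=
  ⟨h.mc.mmono h1 h2 h3, ⟨h.mf.rX.mono h3, h.mf.tan, h.mf.inj, h.mf.sur, fun db =>
    (h.mf.exY db).imp fun _ hY => ⟨hY.1.mono (prod_mono_right h3),
      fun q hq => hY.2 q (prod_mono_right h3 hq)⟩⟩, h.hO, h.hQ, fun z hz => h.hU z (h3 hz)⟩

theorem mid0_cv (dσ : ∀ i, Differentiable ℂ (σ i)) (hU : U ∈ 𝓝 z₀) {F : Type}
    [NormedAddCommGroup F] [NormedSpace ℂ F] {f : (κ → ℂ) × (ℂ × V) → F} (h : DB U (w1 L σ) f) :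
    DG (fun b db => ∑ i, ‖db i‖ * (1 + ‖Jf (L i) (b i)‖)) z₀ f := by
  obtain ⟨C, hC⟩ := h
  obtain ⟨M, M1, hM⟩ : ∃ M : ℝ, 1 ≤ M ∧ ∀ i, ‖σ i z₀.1‖ < M :=
    ⟨1 + ∑ i, ‖σ i z₀.1‖, le_add_of_nonneg_right (by positivity), fun i => by
      linarith [Finset.single_le_sum (f := fun i => ‖σ i z₀.1‖) (fun _ _ => norm_nonneg _)
        (Finset.mem_univ i)]⟩
  have h1 : ∀ᶠ z in 𝓝 z₀, ∀ i, ‖σ i z.1‖ < M := eventually_all.2 fun i =>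
    (((dσ i).continuous.comp continuous_fst).norm.tendsto z₀).eventually_lt_const (hM i)
  refine ⟨_, inter_mem hU h1, |C| * M, fun b hb z hz db => (hC b hb z hz.1 db).trans ?_⟩
  rw [mul_assoc]
  refine mul_le_mul (le_abs_self C) ?_ (Finset.sum_nonneg fun i _ => by positivity) (abs_nonneg C)
  rw [Finset.mul_sum]
  refine Finset.sum_le_sum fun i _ => ?_
  rw [mul_left_comm, norm_mul, mul_add M, mul_one]
  exact mul_le_mul_of_nonneg_left (add_le_add M1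
    (mul_le_mul_of_nonneg_right (hz.2 i).le (norm_nonneg _))) (norm_nonneg _)

end Pool.Agent.MP_098ecc_co.H97
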