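import Pool.Agent.MP_098ecc_co.H97.Mid0
import Pool.Agent.MP_098ecc_co.H97.Asm

set_option autoImplicit false

namespace Pool.Agent.MP_098ecc_co.H97

open Metric Filter Topology Set Function
open scoped BoundedContinuousFunction

variable {κ V : Type} [Fintype κ] [DecidableEq κ] [Nonempty κ] [NormedAddCommGroup V]
  [NormedSpace ℂ V] [FiniteDimensional ℂ V] {U : Set (ℂ × V)} {z₀ : ℂ × V}
  {H : (κ → ℂ) × (ℂ × V) → V} {a : (κ → ℂ) × (ℂ × V) → ℂ}
  {j β Λ : κ → (κ → ℂ) × (ℂ × V) → ℂ} {σ : κ → ℂ → ℂ} {L : κ → Set ℕ}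

omit [DecidableEq κ] [Nonempty κ] in
theorem midB_cb {b : κ → ℂ} (hb : b ∈ closedBall (0 : κ → ℂ) 1) (i : κ) :
    b i ∈ closedBall (0 : ℂ) 1 :=
  mem_closedBall_zero_iff.2 ((norm_le_pi_norm b i).trans (mem_closedBall_zero_iff.1 hb))

omit [DecidableEq κ] [Nonempty κ] in
theorem midB_b {b : κ → ℂ} (hb : b ∈ ball (0 : κ → ℂ) 1) (i : κ) : b i ∈ ball (0 : ℂ) 1 :=
  mem_ball_zero_iff.2 ((norm_le_pi_norm b i).trans_lt (mem_ball_zero_iff.1 hb))

theorem midA (hE : EndThm κ) (mc : MidCore U z₀ H a j β Λ σ L) {P γ τ}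
    (br : Branch U z₀ H a j σ L P γ τ) (sp : ∀ i, Sparse (L i))
    (iso : ∀ᶠ z in 𝓝[≠] z₀, ¬ (H (1, z) = 0 ∧ ∀ i, EM L j σ i (1, z) = 0)) :
    ∃ i, Bdd (deriv (Jf (L i))) := by
  have hσ : ∀ i, Reg U (fun q : (κ → ℂ) × (ℂ × V) => σ i q.2.1) := fun i =>
    Reg.of_diff U ((mc.dσ i).comp (by fun_prop))
  refine mid0 hE mc isOpen_univ (mem_univ _) (Q := fun q => P.evalEval q.1 q.2)
    (evalEval_diff P).1.differentiableOn (γ := γ) (τ := τ)
    ⟨br.lim, fun n => (br.tpos n).ne', br.mem, fun n i => ?_, br.reg, fun n => ?_, br.curve, br.sgn⟩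
    (F := κ → ℂ) (K := fun q i => EM L j σ i q) ⟨?_, ?_, fun b hb => ?_⟩
    (fun b _ z _ h => funext h) ?_
  · obtain ⟨r, hr, h⟩ := br.σreal n i
    rw [h]
    exact Complex.ofReal_ne_zero.2 hr.ne'
  · rw [(evalEval_diff P).2]
    exact br.sep n
  · refine continuousOn_pi.2 fun i => (mc.rj i).cont.sub ((hσ i).cont.mul ?_)
    exact (Jf_cont (sp i)).comp (by fun_prop) fun q hq => midB_cb hq.1 i
  · refine differentiableOn_pi.2 fun i => (mc.rj i).diff.sub ((hσ i).diff.mul ?_)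
    exact (Jf_diff (L i)).comp (by fun_prop) fun q hq => midB_b hq.1 i
  · refine differentiableOn_pi.2 fun i => ((mc.rj i).frz b hb).sub (((hσ i).frz b hb).mul ?_)
    exact differentiableOn_const (Jf (L i) (b i))
  · exact iso.mono fun z hz h => hz ⟨h.1, fun i => congrFun h.2.2 i⟩

theorem midB_taylor (P : Polynomial (Polynomial ℂ)) (t r x : ℂ) :
    P.evalEval t x = ∑ i ∈ Finset.range (P.natDegree + 1),
      (Polynomial.hasseDeriv i P).evalEval t r * (x - r) ^ i := by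
  rw [← Polynomial.map_evalRingHom_eval, ← Polynomial.taylor_eval_sub (r := r),
    Polynomial.eval_eq_sum_range' (n := P.natDegree + 1)
      (by rw [Polynomial.natDegree_taylor]; exact Nat.lt_succ_of_le Polynomial.natDegree_map_le)]
  refine Finset.sum_congr rfl fun i _ => ?_
  rw [Polynomial.taylor_coeff, ← Polynomial.map_evalRingHom_eval]
  congr 2
  ext n
  simp [Polynomial.hasseDeriv_coeff]

/-- division of a polynomial by a holomorphic root -/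
theorem div_root (P : Polynomial (Polynomial ℂ)) (hP : P ≠ 0) {A : ℂ → ℂ} {t₀ : ℂ}
    (hA : AnalyticAt ℂ A t₀) : ∃ (O : Set ℂ) (Q : ℂ × ℂ → ℂ) (k : ℕ), IsOpen O ∧ t₀ ∈ O ∧
      DifferentiableOn ℂ Q (O ×ˢ univ) ∧
      (∀ t ∈ O, ∀ x, P.evalEval t x = (x - A t) ^ k * Q (t, x)) ∧
      ∀ᶠ t in 𝓝[≠] t₀, Q (t, A t) ≠ 0 := by
  classical
  obtain ⟨c, hc⟩ : ∃ c : ℕ → ℂ → ℂ, ∀ i t, c i t = (Polynomial.hasseDeriv i P).evalEval t (A t) :=
    ⟨_, fun _ _ => rfl⟩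
  have hd : ∀ i t, DifferentiableAt ℂ A t → DifferentiableAt ℂ (c i) t := by
    intro i t ht
    rw [show c i = _ from funext (hc i)]
    exact ((evalEval_diff (Polynomial.hasseDeriv i P)).1 (t, A t)).comp t
      (differentiableAt_id.prodMk ht)
  have hAd : ∀ᶠ t in 𝓝 t₀, DifferentiableAt ℂ A t :=
    hA.eventually_analyticAt.mono fun t ht => ht.differentiableAt
  have hT : ∀ t x, P.evalEval t x =
      ∑ i ∈ Finset.range (P.natDegree + 1), c i t * (x - A t) ^ i := by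
    intro t x
    simp only [hc]
    exact midB_taylor P t (A t) x
  have hex : ∃ i, i < P.natDegree + 1 ∧ ¬ ∀ᶠ t in 𝓝 t₀, c i t = 0 := by
    by_contra hn
    have h1 : ∀ i ∈ Finset.range (P.natDegree + 1), ∀ᶠ t in 𝓝 t₀, c i t = 0 := fun i hi => by
      by_contra h
      exact hn ⟨i, Finset.mem_range.1 hi, h⟩
    have h2 := (Filter.eventually_all_finset _).2 h1
    refine hP (Polynomial.ext fun n => ?_)
    refine Polynomial.eq_zero_of_infinite_isRoot _ (infinite_of_mem_nhds t₀ (h2.mono fun t ht => ?_))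
    have h3 : P.map (Polynomial.evalRingHom t) = 0 := by
      refine Polynomial.funext fun x => ?_
      rw [Polynomial.map_evalRingHom_eval, hT, Polynomial.eval_zero]
      exact Finset.sum_eq_zero fun i hi => by rw [ht i hi, zero_mul]
    have h4 := congrArg (fun p => Polynomial.coeff p n) h3
    simpa using h4
  obtain ⟨k, ⟨hk, hk1⟩, hmin⟩ : ∃ k, (k < P.natDegree + 1 ∧ ¬ ∀ᶠ t in 𝓝 t₀, c k t = 0) ∧
      ∀ i < k, ∀ᶠ t in 𝓝 t₀, c i t = 0 := by
    refine ⟨Nat.find hex, Nat.find_spec hex, fun i hi => ?_⟩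
    by_contra h
    exact Nat.find_min hex hi ⟨hi.trans (Nat.find_spec hex).1, h⟩
  have h5 := (Filter.eventually_all_finset (Finset.range k)).2
    fun i hi => hmin i (Finset.mem_range.1 hi)
  obtain ⟨O, hO, hop, hm⟩ := _root_.eventually_nhds_iff.1 (hAd.and h5)
  obtain ⟨d, hdk⟩ : ∃ d, P.natDegree + 1 = k + (d + 1) := ⟨P.natDegree - k, by omega⟩
  refine ⟨O, fun q => ∑ i ∈ Finset.range (d + 1), c (k + i) q.1 * (q.2 - A q.1) ^ i, k, hop, hm,
    fun q hq => ?_, fun t ht x => ?_, ?_⟩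
  · refine DifferentiableAt.differentiableWithinAt (DifferentiableAt.fun_sum fun i _ => ?_)
    exact ((hd _ _ (hO _ hq.1).1).comp q differentiableAt_fst).mul
      ((differentiableAt_snd.sub ((hO _ hq.1).1.comp q differentiableAt_fst)).pow i)
  · rw [hT, hdk, Finset.sum_range_add,
      Finset.sum_eq_zero fun i hi => by rw [(hO t ht).2 i hi, zero_mul], zero_add, Finset.mul_sum]
    refine Finset.sum_congr rfl fun i _ => ?_
    ring
  · have h6 : AnalyticAt ℂ (c k) t₀ :=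
      DifferentiableOn.analyticAt (s := O)
        (fun t ht => (hd k t (hO t ht).1).differentiableWithinAt) (hop.mem_nhds hm)
    refine (h6.eventually_eq_zero_or_eventually_ne_zero.resolve_left hk1).mono fun t ht => ?_
    simpa [Finset.sum_range_succ'] using ht

theorem midB_split {B Z F : Type} [NormedAddCommGroup B] [NormedSpace ℂ B] [NormedAddCommGroup Z]
    [NormedSpace ℂ Z] [NormedAddCommGroup F] [NormedSpace ℂ F] {U : Set Z} (hU : IsOpen U)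
    {f : B × Z → F} (hf : Reg U f) {q : B × Z} (hb : q.1 ∈ ball (0 : B) 1) (hz : q.2 ∈ U)
    (db : B) (dz : Z) : fderiv ℂ f q (db, dz) =
      fderiv ℂ f q (db, 0) + fderiv ℂ (fun z => f (q.1, z)) q.2 dz := by
  rw [hol_frz_eq (hf.hasLine_ball hU hb hz 0).1.differentiableAt, ContinuousLinearMap.comp_apply,
    ← map_add]
  simp

omit [DecidableEq κ] [Nonempty κ] [FiniteDimensional ℂ V] [NormedAddCommGroup V]
  [NormedSpace ℂ V] in
theorem midB_w1 (q : (κ → ℂ) × (ℂ × V)) (db : κ → ℂ) : 0 ≤ w1 L σ q db :=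
  Finset.sum_nonneg fun _ _ => by positivity

omit [DecidableEq κ] [Nonempty κ] in
theorem midB_one : (1 : κ → ℂ) ∈ closedBall (0 : κ → ℂ) 1 :=
  mem_closedBall_zero_iff.2 ((pi_norm_le_iff_of_nonneg zero_le_one).2 fun _ => by simp)

omit [DecidableEq κ] [Nonempty κ] in
/-- tangent vectors have a controlled vertical part -/
theorem midB_dv (mc : MidCore U z₀ H a j β Λ σ L)
    (hi : Injective (fderiv ℂ (fun v => H (1, (z₀.1, v))) z₀.2)) :
    ∃ C : ℝ, ∀ᶠ q in 𝓝[closedBall 0 1 ×ˢ U] ((1 : κ → ℂ), z₀), q.1 ∈ ball 0 1 → ∀ db dv,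
      fderiv ℂ H q (db, (0, dv)) = 0 → ‖dv‖ ≤ C * w1 L σ q db := by
  obtain ⟨C, hC⟩ := mc.dH
  have hm : ((1 : κ → ℂ), z₀) ∈ closedBall (0 : κ → ℂ) 1 ×ˢ U := ⟨midB_one, mc.mem⟩
  have hc := (mc.rH.fderiv_snd mc.op).cont _ hm
  obtain ⟨K, K0, hK⟩ := LinearMap.exists_antilipschitzWith
    (fderiv ℂ (fun v => H (1, (z₀.1, v))) z₀.2 : V →ₗ[ℂ] V) (LinearMap.ker_eq_bot.2 hi)
  have K1 : (0 : ℝ) < K := K0
  have he : fderiv ℂ (fun v => H (1, (z₀.1, v))) z₀.2 =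
      (fderiv ℂ (fun z => H (1, z)) z₀).comp (ContinuousLinearMap.inr ℂ ℂ V) :=
    hol_frz_eq (f := fun z => H (1, z)) (q := z₀)
      ((mc.rH.frz 1 midB_one).differentiableAt (mc.op.mem_nhds mc.mem))
  refine ⟨2 * K * C, ?_⟩
  filter_upwards [Metric.tendsto_nhds.1 hc (1 / (2 * K)) (by positivity), self_mem_nhdsWithin]
    with q hq hqU hb db dv h0
  rw [midB_split mc.op mc.rH hb hqU.2] at h0
  have h1 := hK.le_mul_dist dv 0
  rw [map_zero, dist_zero_right, dist_zero_right, ContinuousLinearMap.coe_coe, he] at h1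
  have h2 := hC q.1 hb q.2 hqU.2 db
  rw [dist_eq_norm] at hq
  have h3 := (fderiv ℂ (fun z => H (q.1, z)) q.2 - fderiv ℂ (fun z => H (1, z)) z₀).le_of_opNorm_le
    hq.le ((0 : ℂ), dv)
  have h4 : ‖((0 : ℂ), dv)‖ = ‖dv‖ := by simp
  have h5 : (fderiv ℂ (fun z => H (1, z)) z₀).comp (ContinuousLinearMap.inr ℂ ℂ V) dv =
      -(fderiv ℂ H q (db, 0)) -
        (fderiv ℂ (fun z => H (q.1, z)) q.2 - fderiv ℂ (fun z => H (1, z)) z₀) (0, dv) := by
    rw [sub_apply, ← eq_neg_of_add_eq_zero_right h0]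
    simp
  rw [h5] at h1
  have h6 := (norm_sub_le (-(fderiv ℂ H q (db, 0))) _).trans
    (add_le_add ((norm_neg _).le.trans h2) h3)
  have h7 := h1.trans (mul_le_mul_of_nonneg_left h6 K1.le)
  rw [h4] at h7
  have h8 : (K : ℝ) * (1 / (2 * K) * ‖dv‖) = ‖dv‖ / 2 := by field_simp
  rw [mul_add, h8] at h7
  linarith

omit [DecidableEq κ] [Nonempty κ] in
theorem midB_tan (mc : MidCore U z₀ H a j β Λ σ L)
    (hi : Injective (fderiv ℂ (fun v => H (1, (z₀.1, v))) z₀.2))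
    {f : (κ → ℂ) × (ℂ × V) → ℂ} (rf : Reg U f) (df : DB U (w1 L σ) f) :
    ∃ C : ℝ, 0 ≤ C ∧ ∀ᶠ q in 𝓝[closedBall 0 1 ×ˢ U] ((1 : κ → ℂ), z₀), ‖f q‖ ≤ C ∧
      (q.1 ∈ ball 0 1 → ∀ db dv, fderiv ℂ H q (db, (0, dv)) = 0 →
        ‖fderiv ℂ f q (db, (0, dv))‖ ≤ C * w1 L σ q db) := by
  obtain ⟨C, hC⟩ := df
  obtain ⟨C', hC'⟩ := midB_dv mc hi
  have hm : ((1 : κ → ℂ), z₀) ∈ closedBall (0 : κ → ℂ) 1 ×ˢ U := ⟨midB_one, mc.mem⟩
  have hc := ((rf.fderiv_snd mc.op).cont _ hm).norm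
  have hc' := (rf.cont _ hm).norm
  obtain ⟨M, hM⟩ : ∃ M, M = ‖fderiv ℂ (fun z => f (1, z)) z₀‖ + 1 := ⟨_, rfl⟩
  have M0 : 0 ≤ M := by rw [hM]; positivity
  refine ⟨|C| + M * |C'| + (‖f (1, z₀)‖ + 1), by positivity, ?_⟩
  filter_upwards [hC', hc.eventually_le_const (lt_add_one _), hc'.eventually_le_const (lt_add_one _),
    self_mem_nhdsWithin] with q h1 h2 h3 hqU
  have h4 : 0 ≤ |C| + M * |C'| := by positivity
  refine ⟨by linarith, fun hb db dv h0 => ?_⟩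
  have w0 := midB_w1 (L := L) (σ := σ) q db
  have h5 := (h1 hb db dv h0).trans (mul_le_mul_of_nonneg_right (le_abs_self _) w0)
  have h6 := (hC q.1 hb q.2 hqU.2 db).trans (mul_le_mul_of_nonneg_right (le_abs_self _) w0)
  have h7 := (fderiv ℂ (fun z => f (q.1, z)) q.2).le_of_opNorm_le h2 ((0 : ℂ), dv)
  rw [← hM, show ‖((0 : ℂ), dv)‖ = ‖dv‖ by simp] at h7
  rw [midB_split mc.op rf hb hqU.2]
  have h8 := mul_le_mul_of_nonneg_left h5 M0
  have h9 : 0 ≤ (‖f (1, z₀)‖ + 1) * w1 L σ q db := by positivity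
  refine (norm_add_le _ _).trans ?_
  linarith

omit [DecidableEq κ] in
theorem midB_ineq {d x y : κ → ℝ} {b db jj dj : κ → ℂ} {C c K : ℝ} (hd : ∀ i, 0 < d i)
    (hx : ∀ i, 0 ≤ x i) (hy : ∀ i, K * (1 + x i) ^ 2 ≤ y i) (hC : 1 ≤ C) (hc : 0 < c)
    (hK : 2 * C ^ 2 * Fintype.card κ < c * K) (h1 : ∀ i, ‖b i‖ ≤ C) (h2 : ∀ i, ‖jj i‖ ≤ C)
    (h3 : ∀ i, ‖db i‖ ≤ C * ∑ k, d k * (1 + x k)) (h4 : ∀ i, ‖dj i‖ ≤ C * ∑ k, d k * (1 + x k))
    (h5 : ∀ i, c ≤ (b i).re) :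
    (∑ i, (db i * (jj i - x i) + b i * (dj i - y i * d i)) * d i).re < 0 := by
  obtain ⟨w, hw⟩ : ∃ w, w = ∑ k, d k * (1 + x k) := ⟨_, rfl⟩
  have hu : ∀ i, 0 < d i * (1 + x i) := fun i => mul_pos (hd i) (by linarith [hx i])
  have K0 : 0 < K := by
    have : 0 ≤ 2 * C ^ 2 * (Fintype.card κ : ℝ) := by positivity
    exact (mul_pos_iff_of_pos_left hc).1 (this.trans_lt hK)
  have w0 : 0 ≤ w := by rw [hw]; exact Finset.sum_nonneg fun i _ => (hu i).le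
  rw [← hw] at h3 h4
  have key : ∀ i, ((db i * (jj i - x i) + b i * (dj i - y i * d i)) * d i).re ≤
      2 * C ^ 2 * w * (d i * (1 + x i)) - c * K * (d i * (1 + x i)) ^ 2 := by
    intro i
    have e : (db i * (jj i - x i) + b i * (dj i - y i * d i)) * d i =
        (d i : ℂ) * (db i * (jj i - x i)) + (d i : ℂ) * (b i * dj i) -
          ((y i * d i ^ 2 : ℝ) : ℂ) * b i := by
      push_cast
      ring
    have a1 : (db i * (jj i - x i)).re ≤ C * w * (C * (1 + x i)) := by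
      refine (Complex.re_le_norm _).trans ?_
      rw [norm_mul]
      refine mul_le_mul (h3 i) ((norm_sub_le _ _).trans ?_) (norm_nonneg _) (by positivity)
      rw [Complex.norm_real, Real.norm_eq_abs, abs_of_nonneg (hx i)]
      nlinarith [h2 i, hx i]
    have a2 : (b i * dj i).re ≤ C * (1 + x i) * (C * w) := by
      refine (Complex.re_le_norm _).trans ?_
      rw [norm_mul]
      refine mul_le_mul ?_ (h4 i) (norm_nonneg _) (by nlinarith [hx i])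
      nlinarith [h1 i, hx i]
    have a3 : K * (1 + x i) ^ 2 * d i ^ 2 * c ≤ y i * d i ^ 2 * (b i).re := by
      have a4 := mul_le_mul_of_nonneg_right (hy i) (sq_nonneg (d i))
      exact mul_le_mul a4 (h5 i) hc.le (le_trans (by positivity) a4)
    rw [e, Complex.sub_re, Complex.add_re, Complex.re_ofReal_mul, Complex.re_ofReal_mul,
      Complex.re_ofReal_mul]
    have a5 := mul_le_mul_of_nonneg_left a1 (hd i).le
    have a6 := mul_le_mul_of_nonneg_left a2 (hd i).le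
    linarith
  rw [Complex.re_sum]
  refine (Finset.sum_le_sum fun i _ => key i).trans_lt ?_
  rw [Finset.sum_sub_distrib, ← Finset.mul_sum, ← Finset.mul_sum, ← hw]
  have b1 := sq_sum_le_card_mul_sum_sq (s := Finset.univ) (f := fun k => d k * (1 + x k))
  rw [← hw, Finset.card_univ] at b1
  have b2 : 0 < ∑ i, (d i * (1 + x i)) ^ 2 :=
    Finset.sum_pos (fun i _ => pow_pos (hu i) 2) Finset.univ_nonempty
  have b3 := mul_lt_mul_of_pos_right hK b2
  have b4 := mul_le_mul_of_nonneg_left b1 (show 0 ≤ 2 * C ^ 2 by positivity)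
  linarith

theorem midB_steep {c : ℝ} (hc : 0 < c) (C : ℝ) {K : ℝ} (hK : 0 ≤ K) : ∃ η > (0 : ℝ), ∀ s J J' : ℝ,
    0 < s → s < η → 0 ≤ J' → J ^ 2 ≤ C * (1 + J') → c ≤ s * J → K * (1 + s * J) ^ 2 ≤ s * J' := by
  obtain ⟨D, D0, hD⟩ : ∃ D : ℝ, 0 < D ∧ C ≤ D := ⟨|C| + 1, by positivity, by
    linarith [le_abs_self C]⟩
  obtain ⟨E, hE⟩ : ∃ E : ℝ, E = K * (c + 1) ^ 2 + 1 := ⟨_, rfl⟩
  have E0 : 0 < E := by rw [hE]; positivity
  refine ⟨min 1 (c ^ 2 / (D * E)), by positivity, fun s J J' s0 s1 h0 h1 h2 => ?_⟩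
  have s2 : s ≤ 1 := s1.le.trans (min_le_left _ _)
  have s3 : s * (D * E) ≤ c ^ 2 := (le_div_iff₀ (by positivity)).1 (s1.le.trans (min_le_right _ _))
  obtain ⟨x, hx⟩ : ∃ x, x = s * J := ⟨_, rfl⟩
  have h3 : x ^ 2 ≤ s * D * (s + s * J') := by
    have a1 := h1.trans (mul_le_mul_of_nonneg_right hD (by linarith))
    have a2 := mul_le_mul_of_nonneg_left a1 (sq_nonneg s)
    rw [hx]
    linarith
  rw [← hx] at h2 ⊢
  have h4 : (c * (1 + x)) ^ 2 ≤ ((c + 1) * x) ^ 2 :=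
    pow_le_pow_left₀ (by nlinarith) (by nlinarith) 2
  have h5 : c ^ 2 ≤ x ^ 2 := pow_le_pow_left₀ hc.le h2 2
  have h6 : c ^ 2 * (K * (1 + x) ^ 2 + s) ≤ E * x ^ 2 := by
    have a1 := mul_le_mul_of_nonneg_left h4 hK
    have a2 := mul_le_mul_of_nonneg_left s2 (sq_nonneg c)
    rw [hE]
    linarith
  have h7 : E * x ^ 2 ≤ c ^ 2 * (s + s * J') := by
    have a1 := mul_le_mul_of_nonneg_left h3 E0.le
    have a2 := mul_le_mul_of_nonneg_right s3 (show 0 ≤ s + s * J' by positivity)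
    linarith
  have h8 := le_of_mul_le_mul_left (h6.trans h7) (by positivity)
  linarith

theorem midB_conc {ψ g : ℂ → ℂ} {g' : ℝ → ℂ} (hc : ContinuousOn (fun s : ℝ => ψ s) (Icc 0 1))
    (h1 : ∀ s ∈ Ico (0 : ℝ) 1, HasDerivAt ψ (g s) s) (h2 : ∀ s ∈ Ico (0 : ℝ) 1, HasDerivAt g (g' s) s)
    (h0 : g 0 = 0) (h3 : ∀ s ∈ Ico (0 : ℝ) 1, (g' s).re < 0) : ψ 0 ≠ ψ 1 := by
  have a1 : StrictAntiOn (fun s : ℝ => (g s).re) (Ico 0 1) := by
    refine strictAntiOn_of_deriv_neg (convex_Ico 0 1)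
      (fun s hs => (h2 s hs).real_of_complex.continuousAt.continuousWithinAt) fun s hs => ?_
    rw [(h2 s (interior_subset hs)).real_of_complex.deriv]
    exact h3 s (interior_subset hs)
  have a2 : StrictAntiOn (fun s : ℝ => (ψ s).re) (Icc 0 1) := by
    refine strictAntiOn_of_deriv_neg (convex_Icc 0 1)
      (Complex.continuous_re.comp_continuousOn hc) fun s hs => ?_
    rw [interior_Icc] at hs
    rw [(h1 s ⟨hs.1.le, hs.2⟩).real_of_complex.deriv]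
    have := a1 ⟨le_rfl, one_pos⟩ ⟨hs.1.le, hs.2⟩ hs.1
    simpa [h0] using this
  intro h
  have := a2 ⟨le_rfl, zero_le_one⟩ ⟨zero_le_one, le_rfl⟩ one_pos
  simp [h] at this

omit [DecidableEq κ] in
/-- the value on a branch differs from the value on the wall -/
theorem midB_ne (mc : MidCore U z₀ H a j β Λ σ L) (hj : ∀ i, j i (1, z₀) ≠ 0)
    (hi : Injective (fderiv ℂ (fun v => H (1, (z₀.1, v))) z₀.2)) :
    ∃ δ > (0 : ℝ), ∃ η > (0 : ℝ), ∀ (ε τ : _) (φ : (κ → ℂ) → V), ε < δ → dist τ z₀.1 < δ →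
      ContinuousOn φ (closedBall 0 1 ∩ ball 1 ε) → DifferentiableOn ℂ φ (ball 0 1 ∩ ball 1 ε) →
      (∀ b ∈ closedBall (0 : κ → ℂ) 1 ∩ ball 1 ε,
        (τ, φ b) ∈ U ∧ dist (φ b) z₀.2 < δ ∧ H (b, (τ, φ b)) = 0) →
      (∀ i, ∃ r : ℝ, 0 < r ∧ r < η ∧ σ i τ = r) → ∀ b ∈ ball (0 : κ → ℂ) 1 ∩ ball 1 ε,
      (∀ i, ∃ r : ℝ, 0 ≤ r ∧ b i = r) → (∀ i, EM L j σ i (b, (τ, φ b)) = 0) →
      a (b, (τ, φ b)) ≠ a (1, (τ, φ 1)) := by
  have hm : ((1 : κ → ℂ), z₀) ∈ closedBall (0 : κ → ℂ) 1 ×ˢ U := ⟨midB_one, mc.mem⟩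
  choose C₁ C₁0 hC₁ using fun i => midB_tan mc hi (mc.rβ i) (mc.dβ i)
  choose C₂ C₂0 hC₂ using fun i => midB_tan mc hi (mc.rj i) (mc.dj i)
  choose J J' mono C₃ hJ using fun i => Jf_real (L i) (mc.hL i)
  obtain ⟨C, C1, hC⟩ : ∃ C : ℝ, 1 ≤ C ∧ ∀ i, C₁ i ≤ C ∧ C₂ i ≤ C := by
    obtain ⟨x, hx⟩ := Finite.exists_le C₁
    obtain ⟨y, hy⟩ := Finite.exists_le C₂
    exact ⟨max 1 (max x y), le_max_left _ _, fun i =>
      ⟨le_max_of_le_right (le_max_of_le_left (hx i)), le_max_of_le_right (le_max_of_le_right (hy i))⟩⟩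
  obtain ⟨c, c0, hc⟩ : ∃ c : ℝ, 0 < c ∧ ∀ i, c < (β i (1, z₀)).re ∧ c < ‖j i (1, z₀)‖ := by
    have h1 : ∀ i, ∀ᶠ c in 𝓝[>] (0 : ℝ), c < (β i (1, z₀)).re ∧ c < ‖j i (1, z₀)‖ := fun i => by
      obtain ⟨r, r0, hr⟩ := mc.βpos i
      refine nhdsWithin_le_nhds ((eventually_lt_nhds ?_).and (eventually_lt_nhds ?_))
      · rw [hr]; exact r0
      · exact norm_pos_iff.2 (hj i)
    obtain ⟨c, h2, h3⟩ := ((eventually_all.2 h1).and self_mem_nhdsWithin).exists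
    exact ⟨c, h3, h2⟩
  obtain ⟨K, K0, hK⟩ : ∃ K : ℝ, 0 ≤ K ∧ 2 * C ^ 2 * Fintype.card κ < c * K :=
    ⟨(2 * C ^ 2 * Fintype.card κ + 1) / c, by positivity, by
      rw [mul_div_cancel₀ _ c0.ne']; exact lt_add_one _⟩
  choose η' η0 hη using fun i => midB_steep c0 (C₃ i) K0
  obtain ⟨η, η1, η2⟩ : ∃ η : ℝ, 0 < η ∧ ∀ i, η < η' i := by
    have h1 : ∀ i, ∀ᶠ c in 𝓝[>] (0 : ℝ), c < η' i := fun i =>
      nhdsWithin_le_nhds (eventually_lt_nhds (η0 i))
    obtain ⟨c, h2, h3⟩ := ((eventually_all.2 h1).and self_mem_nhdsWithin).exists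
    exact ⟨c, h3, h2⟩
  have hβ : ∀ i, ∀ᶠ q in 𝓝[closedBall 0 1 ×ˢ U] ((1 : κ → ℂ), z₀),
      c ≤ (β i q).re ∧ c ≤ ‖j i q‖ := fun i =>
    (((Complex.continuous_re.tendsto _).comp ((mc.rβ i).cont _ hm)).eventually_const_le
      (hc i).1).and (((mc.rj i).cont _ hm).norm.eventually_const_le (hc i).2)
  obtain ⟨δ, δ0, hδ⟩ := Metric.mem_nhdsWithin_iff.1
    (((eventually_all.2 hC₁).and (eventually_all.2 hC₂)).and (eventually_all.2 hβ))
  refine ⟨δ, δ0, η, η1, fun ε τ φ hε hτ cφ dφ hφ hσ b hb hr hE => ?_⟩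
  choose s s0 s1 hs using hσ
  choose r r0 hr using hr
  have r1 : ∀ i, r i < 1 := fun i => by
    have h1 := mem_ball_zero_iff.1 (midB_b hb.1 i)
    rw [hr, Complex.norm_real] at h1
    exact (le_abs_self _).trans_lt h1
  obtain ⟨B, hB⟩ : ∃ B : ℂ → κ → ℂ, B = fun x => b + x • (1 - b) := ⟨_, rfl⟩
  have dB : ∀ x, HasDerivAt B (1 - b) x := fun x => by
    rw [hB]
    simpa using ((hasDerivAt_id x).smul_const (1 - b)).const_add b
  have cB : Continuous B := continuous_iff_continuousAt.2 fun x => (dB x).continuousAt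
  have B0 : B 0 = b := by simp [hB]
  have B1 : B 1 = 1 := by simp [hB]
  have Bi : ∀ (x : ℝ) i, B x i = ((r i + x * (1 - r i) : ℝ) : ℂ) := fun x i => by
    simp [hB, hr]
  have db : ∀ i, (1 - b) i = ((1 - r i : ℝ) : ℂ) := fun i => by simp [hr]
  have Br : ∀ x ∈ Icc (0 : ℝ) 1, ∀ i, r i ≤ r i + x * (1 - r i) ∧ r i + x * (1 - r i) ≤ 1 ∧
      (x < 1 → r i + x * (1 - r i) < 1) := fun x hx i => by
    have := r1 i
    refine ⟨by nlinarith [hx.1], by nlinarith [hx.2], fun h => by nlinarith⟩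
  have Bε : ∀ x ∈ Icc (0 : ℝ) 1, B x ∈ ball (1 : κ → ℂ) ε := fun x hx => by
    have e : B x - 1 = ((1 - x : ℝ) : ℂ) • (b - 1) := by
      rw [hB]
      push_cast
      module
    rw [mem_ball, dist_eq_norm, e, norm_smul, Complex.norm_real, Real.norm_eq_abs,
      abs_of_nonneg (by linarith [hx.2])]
    have h1 := hb.2
    rw [mem_ball, dist_eq_norm] at h1
    exact (mul_le_of_le_one_left (norm_nonneg _) (by linarith [hx.1])).trans_lt h1
  have Bc : ∀ x ∈ Icc (0 : ℝ) 1, B x ∈ closedBall (0 : κ → ℂ) 1 := fun x hx =>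
    mem_closedBall_zero_iff.2 ((pi_norm_le_iff_of_nonneg zero_le_one).2 fun i => by
      rw [Bi, Complex.norm_real, Real.norm_eq_abs, abs_of_nonneg ((r0 i).trans (Br x hx i).1)]
      exact (Br x hx i).2.1)
  have Bo : ∀ x ∈ Ico (0 : ℝ) 1, B x ∈ ball (0 : κ → ℂ) 1 := fun x hx =>
    mem_ball_zero_iff.2 ((pi_norm_lt_iff one_pos).2 fun i => by
      have h1 := Br x (Ico_subset_Icc_self hx) i
      rw [Bi, Complex.norm_real, Real.norm_eq_abs, abs_of_nonneg ((r0 i).trans h1.1)]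
      exact h1.2.2 hx.2)
  have hO : IsOpen (ball (0 : κ → ℂ) 1 ∩ ball 1 ε) := isOpen_ball.inter isOpen_ball
  obtain ⟨q, hq⟩ : ∃ q : ℂ → (κ → ℂ) × (ℂ × V), q = fun x => (B x, (τ, φ (B x))) := ⟨_, rfl⟩
  have q1 : ∀ x, (q x).1 = B x := fun x => by rw [hq]
  have q2 : ∀ x, (q x).2 = (τ, φ (B x)) := fun x => by rw [hq]
  have main : ∀ x : ℂ, B x ∈ ball (0 : κ → ℂ) 1 ∩ ball 1 ε → ∃ dv, (q x).2 ∈ U ∧
      fderiv ℂ H (q x) (1 - b, (0, dv)) = 0 ∧ ∀ f : (κ → ℂ) × (ℂ × V) → ℂ, Reg U f →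
        HasDerivAt (fun y => f (q y)) (fderiv ℂ f (q x) (1 - b, (0, dv))) x := by
    intro x hx
    have h1 := (dφ.differentiableAt (hO.mem_nhds hx)).hasFDerivAt.comp_hasDerivAt x (dB x)
    have h2 : HasDerivAt q (1 - b, (0, fderiv ℂ φ (B x) (1 - b))) x := by
      rw [hq]
      exact (dB x).prodMk ((hasDerivAt_const x τ).prodMk h1)
    have h3 : (q x).2 ∈ U := by
      rw [q2]
      exact (hφ _ ⟨ball_subset_closedBall hx.1, hx.2⟩).1
    have h4 : (q x).1 ∈ ball (0 : κ → ℂ) 1 := by rw [q1]; exact hx.1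
    refine ⟨_, h3, ?_, fun f rf => (rf.hasLine_ball mc.op h4 h3 0).1.comp_hasDerivAt x h2⟩
    have h5 := (mc.rH.hasLine_ball mc.op h4 h3 0).1.comp_hasDerivAt x h2
    refine h5.unique ((hasDerivAt_const x (0 : V)).congr_of_eventuallyEq ?_)
    filter_upwards [cB.continuousAt.eventually (hO.mem_nhds hx)] with y hy
    rw [hq]
    exact (hφ _ ⟨ball_subset_closedBall hy.1, hy.2⟩).2.2
  have near : ∀ x ∈ Icc (0 : ℝ) 1, q x ∈ ball ((1 : κ → ℂ), z₀) δ ∩ closedBall 0 1 ×ˢ U := by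
    intro x hx
    have h1 := hφ _ ⟨Bc x hx, Bε x hx⟩
    rw [hq]
    refine ⟨?_, Bc x hx, h1.1⟩
    rw [mem_ball, Prod.dist_eq, Prod.dist_eq]
    exact max_lt ((mem_ball.1 (Bε x hx)).trans hε) (max_lt hτ h1.2.1)
  have mem : ∀ x ∈ Ico (0 : ℝ) 1, B x ∈ ball (0 : κ → ℂ) 1 ∩ ball 1 ε := fun x hx =>
    ⟨Bo x hx, Bε x (Ico_subset_Icc_self hx)⟩
  choose dv hdU hdH hdf using main
  have q0 : q 0 = (b, (τ, φ b)) := by rw [hq]; simp only [B0]
  have qe : q 1 = (1, (τ, φ 1)) := by rw [hq]; simp only [B1]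
  rw [← q0, ← qe]
  have hJi : ∀ x ∈ Ico (0 : ℝ) 1, ∀ i, r i + x * (1 - r i) ∈ Ico (0 : ℝ) 1 := fun x hx i =>
    ⟨(r0 i).trans (Br x (Ico_subset_Icc_self hx) i).1, (Br x (Ico_subset_Icc_self hx) i).2.2 hx.2⟩
  have hlow : ∀ i, c ≤ s i * J i (r i) := fun i => by
    have h1 := ((hδ (near 0 ⟨le_rfl, zero_le_one⟩)).2 i).2
    have h2 := hE i
    have h3 := hJ i (r i) ⟨r0 i, r1 i⟩
    rw [EM, sub_eq_zero] at h2
    rw [Complex.ofReal_zero, q0, h2] at h1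
    simp only [hs, hr, h3.1] at h1
    rwa [← Complex.ofReal_mul, Complex.norm_real, Real.norm_eq_abs,
      abs_of_nonneg (mul_nonneg (s0 i).le h3.2.2.1)] at h1
  classical
  refine midB_conc (ψ := fun y => a (q y))
    (g := fun y => ∑ i, β i (q y) * EM L j σ i (q y) * (1 - b) i)
    (g' := fun x => if hx : x ∈ Ico (0 : ℝ) 1 then ∑ i,
      (fderiv ℂ (β i) (q x) (1 - b, (0, dv x (mem x hx))) *
        (j i (q x) - (s i * J i (r i + x * (1 - r i)) : ℝ)) +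
      β i (q x) * (fderiv ℂ (j i) (q x) (1 - b, (0, dv x (mem x hx))) -
        (s i * J' i (r i + x * (1 - r i)) : ℝ) * (1 - r i : ℝ))) * (1 - r i : ℝ) else 0)
    ?_ (fun x hx => ?_) (fun x hx => ?_) ?_ (fun x hx => ?_)
  · refine mc.ra.cont.comp (f := fun x : ℝ => q x) ?_ fun x hx => (near x hx).2
    rw [hq]
    have h1 : ContinuousOn (fun x : ℝ => B x) (Icc 0 1) :=
      (cB.comp Complex.continuous_ofReal).continuousOn
    exact h1.prodMk (continuousOn_const.prodMk (cφ.comp h1 fun x hx => ⟨Bc x hx, Bε x hx⟩))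
  · have h1 := hdf x (mem x hx) a mc.ra
    have h2 := mc.i1 (q x).1 (by rw [q1]; exact Bo x hx) (q x).2 (hdU x (mem x hx))
      (by rw [q1, q2]; exact (hφ _ ⟨ball_subset_closedBall (Bo x hx), (mem x hx).2⟩).2.2)
      (1 - b) _ (hdH x (mem x hx))
    rw [h2] at h1
    exact h1
  · rw [dif_pos hx]
    refine HasDerivAt.fun_sum fun i _ => ?_
    have h3 := hJ i _ (hJi x hx i)
    have h1 : HasDerivAt (fun y => Jf (L i) (B y i))
        (deriv (Jf (L i)) (B x i) * (1 - b) i) x :=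
      HasDerivAt.comp (h₂ := Jf (L i)) (h := fun y => B y i) (x : ℂ)
        ((Jf_diff (L i)).differentiableAt (isOpen_ball.mem_nhds (midB_b (Bo x hx) i))).hasDerivAt
        (hasDerivAt_pi.1 (dB x) i)
    have h2 := ((hdf x (mem x hx) _ (mc.rβ i)).mul
      ((hdf x (mem x hx) _ (mc.rj i)).sub (h1.const_mul (σ i τ)))).mul_const ((1 - b) i)
    have e : (fun y => β i (q y) * EM L j σ i (q y) * (1 - b) i) = fun y =>
        β i (q y) * (j i (q y) - σ i τ * Jf (L i) (B y i)) * (1 - b) i := by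
      funext y
      rw [EM, q1, q2]
    rw [e]
    refine h2.congr_deriv ?_
    simp only [Pi.sub_apply (fun y => j i (q y)), Bi, h3.1, h3.2.1, db, hs]
    push_cast
    ring
  · simp only [q0, hE, mul_zero, zero_mul, Finset.sum_const_zero]
  · rw [dif_pos hx]
    have hn := hδ (near x (Ico_subset_Icc_self hx))
    have hb1 : (q x).1 ∈ ball (0 : κ → ℂ) 1 := by rw [q1]; exact Bo x hx
    have hx0 : ∀ i, 0 ≤ s i * J i (r i + x * (1 - r i)) := fun i =>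
      mul_nonneg (s0 i).le (hJ i _ (hJi x hx i)).2.2.1
    have hw : w1 L σ (q x) (1 - b) =
        ∑ k, (1 - r k) * (1 + s k * J k (r k + x * (1 - r k))) := by
      refine Finset.sum_congr rfl fun k _ => ?_
      rw [q1, q2, db, Bi, (hJ k _ (hJi x hx k)).1, hs, ← Complex.ofReal_mul, Complex.norm_real,
        Complex.norm_real, Real.norm_eq_abs, Real.norm_eq_abs, abs_of_nonneg (hx0 k),
        abs_of_nonneg (by linarith [r1 k])]
    have w0 := midB_w1 (L := L) (σ := σ) (q x) (1 - b)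
    refine midB_ineq (K := K) (fun i => by linarith [r1 i]) hx0 (fun i => ?_) C1 c0 hK
      (fun i => (hn.1.1 i).1.trans (hC i).1) (fun i => (hn.1.2 i).1.trans (hC i).2)
      (fun i => ?_) (fun i => ?_) fun i => (hn.2 i).1
    · have h3 := hJ i _ (hJi x hx i)
      refine hη i _ _ _ (s0 i) ((s1 i).trans (η2 i)) h3.2.2.2.1 h3.2.2.2.2 ((hlow i).trans ?_)
      exact mul_le_mul_of_nonneg_left
        (mono i ⟨r0 i, r1 i⟩ (hJi x hx i) (Br x (Ico_subset_Icc_self hx) i).1) (s0 i).le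
    · rw [← hw]
      exact ((hn.1.1 i).2 hb1 _ _ (hdH x (mem x hx))).trans
        (mul_le_mul_of_nonneg_right (hC i).1 w0)
    · rw [← hw]
      exact ((hn.1.2 i).2 hb1 _ _ (hdH x (mem x hx))).trans
        (mul_le_mul_of_nonneg_right (hC i).2 w0)

theorem midB (hE : EndThm κ) (mc : MidCore U z₀ H a j β Λ σ L) {P γ τ}
    (br : Branch U z₀ H a j σ L P γ τ) (hσ : ∀ i, σ i z₀.1 = 0) (hj : ∀ i, j i (1, z₀) ≠ 0)
    (hi : Injective (fderiv ℂ (fun v => H (1, (z₀.1, v))) z₀.2)) :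
    ∃ i, Bdd (deriv (Jf (L i))) := by
  obtain ⟨δ, δ0, η, η0, hne⟩ := midB_ne mc hj hi
  have hlt : ∀ᶠ x in 𝓝[>] (0 : ℝ), x < δ := nhdsWithin_le_nhds (eventually_lt_nhds δ0)
  obtain ⟨ρ, ⟨h1, ρ1⟩, ρ0⟩ := (((wift mc.op mc.rH (l₀ := z₀.1) (z₀ := z₀.2) midB_one mc.mem
    mc.base hi).and hlt).and self_mem_nhdsWithin).exists
  obtain ⟨ε, ⟨⟨hsub, φ, cφ, dφ, hφ⟩, ε1⟩, ε0⟩ := ((h1.and hlt).and self_mem_nhdsWithin).exists
  replace ρ0 : 0 < ρ := ρ0
  replace ε0 : 0 < ε := ε0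
  have one : (1 : κ → ℂ) ∈ closedBall (0 : κ → ℂ) 1 ∩ ball 1 ε := ⟨midB_one, mem_ball_self ε0⟩
  have hU : ∀ b ∈ closedBall (0 : κ → ℂ) 1 ∩ ball 1 ε, ∀ l ∈ ball z₀.1 ε, (l, φ (b, l)) ∈ U :=
    fun b hb l hl => hsub ⟨hl, ball_subset_closedBall ((hφ b hb).2 l hl).1⟩
  obtain ⟨A, hA⟩ : ∃ A : ℂ → ℂ, A = fun t => a (1, (t, φ (1, t))) := ⟨_, rfl⟩
  have dA : DifferentiableOn ℂ A (ball z₀.1 ε) := by
    rw [hA]
    exact (mc.ra.frz 1 midB_one).comp (differentiableOn_id.prodMk (hφ 1 one).1)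
      fun l hl => hU 1 one l hl
  have hP : P ≠ 0 := by
    rintro rfl
    exact br.sep 0 (by simp)
  obtain ⟨O, Q, k, hO, hz, dQ, hQ, hQ0⟩ := div_root P hP
    (dA.analyticAt (ball_mem_nhds z₀.1 ε0))
  have hτ : ∀ n, (γ n (τ n)).2.1 = τ n := fun n => (br.curve n).self_of_nhds.2.1
  have lτ : Tendsto (fun n => (τ n : ℂ)) atTop (𝓝 z₀.1) := by
    have h2 := (continuous_fst.tendsto _).comp ((continuous_snd.tendsto _).comp br.lim)
    exact h2.congr hτ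
  have e1 : ∀ᶠ n in atTop, (τ n : ℂ) ∈ ball z₀.1 ε ∩ O :=
    lτ.eventually ((isOpen_ball.inter hO).mem_nhds ⟨mem_ball_self ε0, hz⟩)
  have e2 : ∀ᶠ n in atTop, (γ n (τ n)).1 ∈ ball (1 : κ → ℂ) ε :=
    ((continuous_fst.tendsto _).comp br.lim).eventually (ball_mem_nhds _ ε0)
  have e3 : ∀ᶠ n in atTop, (γ n (τ n)).2.2 ∈ closedBall z₀.2 ρ :=
    ((continuous_snd.tendsto _).comp ((continuous_snd.tendsto _).comp br.lim)).eventually
      (closedBall_mem_nhds _ ρ0)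
  have e4 : ∀ᶠ n in atTop, ∀ i, ‖σ i (τ n)‖ < η := eventually_all.2 fun i =>
    (((mc.dσ i).continuous.tendsto _).comp lτ).norm.eventually_lt_const
      (by rw [hσ, norm_zero]; exact η0)
  obtain ⟨N, hN⟩ := eventually_atTop.1 ((e1.and e2).and (e3.and e4))
  have key : ∀ n ≥ N, a (γ n (τ n)) ≠ A (τ n) := by
    intro n hn
    obtain ⟨⟨f1, f2⟩, f3, f4⟩ := hN n hn
    have hc := (br.curve n).self_of_nhds
    have hb := (br.mem n).1
    have hq : γ n (τ n) = ((γ n (τ n)).1, ((τ n : ℂ), φ ((γ n (τ n)).1, τ n))) := by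
      have h2 : γ n (τ n) = ((γ n (τ n)).1, ((τ n : ℂ), (γ n (τ n)).2.2)) :=
        Prod.ext rfl (Prod.ext (hτ n) rfl)
      have h3 := (((hφ _ ⟨ball_subset_closedBall hb, f2⟩).2 _ f1.1).2 _ f3).1
        (by rw [← h2]; exact hc.2.2.1)
      rw [← h3]
      exact h2
    have h4 := hne ε (τ n) (fun b => φ (b, τ n)) ε1 ((mem_ball.1 f1.1).trans ε1)
      (cφ.comp (by fun_prop) fun b hb => ⟨hb, f1.1⟩) (dφ.comp (by fun_prop) fun b hb => ⟨hb, f1.1⟩)
      (fun b hb => ⟨hU b hb _ f1.1, (mem_ball.1 ((hφ b hb).2 _ f1.1).1).trans ρ1,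
        (((hφ b hb).2 _ f1.1).2 _ (ball_subset_closedBall ((hφ b hb).2 _ f1.1).1)).2 rfl⟩)
      (fun i => by
        obtain ⟨r, r0, hr⟩ := br.σreal n i
        have h5 := f4 i
        rw [hr, Complex.norm_real] at h5
        exact ⟨r, r0, (le_abs_self _).trans_lt h5, hr⟩)
      _ ⟨hb, f2⟩ (br.breal n) (fun i => by rw [← hq]; exact hc.2.2.2.1 i)
    rw [hA]
    rwa [← hq] at h4
  have cur : ∀ n ≥ N, ∀ᶠ s in 𝓝 (τ n : ℂ), Q (s, a (γ n s)) = 0 := by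
    intro n hn
    obtain ⟨⟨f1, -⟩, -⟩ := hN n hn
    have c1 : ContinuousAt (fun s => a (γ n s) - A s) (τ n) := by
      refine ContinuousAt.sub ?_ (dA.continuousOn.continuousAt (isOpen_ball.mem_nhds f1.1))
      exact ContinuousAt.comp (f := γ n)
        (mc.ra.hasLine_ball mc.op (br.mem n).1 (br.mem n).2 0).1.continuousAt
        (br.curve n).self_of_nhds.1.continuousAt
    filter_upwards [c1.eventually_ne (sub_ne_zero.2 (key n hn)), br.curve n, hO.mem_nhds f1.2]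
      with s h2 h3 h4
    have h5 := h3.2.2.2.2
    rw [hQ s h4] at h5
    exact (mul_eq_zero.1 h5).resolve_left (pow_ne_zero k h2)
  refine mid0 hE mc hO hz dQ (γ := fun n => γ (n + N)) (τ := fun n => τ (n + N))
    ⟨br.lim.comp (tendsto_add_atTop_nat N), fun n => (br.tpos _).ne', fun n => br.mem _,
      fun n i => ?_, fun n => br.reg _, fun n => ?_, fun n => ?_, fun n => br.sgn _⟩
    (F := ℂ) (K := fun _ => 0) (Reg.of_diff U (differentiable_const 0)) (fun _ _ _ _ _ => rfl) ?_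
  · obtain ⟨r, hr, h⟩ := br.σreal (n + N) i
    rw [h]
    exact Complex.ofReal_ne_zero.2 hr.ne'
  · intro h0
    obtain ⟨⟨f1, -⟩, -⟩ := hN (n + N) (Nat.le_add_left _ _)
    have g0 := (cur (n + N) (Nat.le_add_left _ _)).self_of_nhds
    refine br.sep (n + N) ?_
    generalize a (γ (n + N) (τ (n + N))) = x at *
    generalize (τ (n + N) : ℂ) = t at *
    have l1 : HasDerivAt (fun y : ℂ => (t, y)) ((0 : ℂ), (1 : ℂ)) x :=
      (hasDerivAt_const x t).prodMk (hasDerivAt_id x)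
    have d1 := ((evalEval_diff P).1 (t, x)).hasFDerivAt.comp_hasDerivAt x l1
    have d2 := (dQ.differentiableAt ((hO.prod isOpen_univ).mem_nhds
      (⟨f1.2, mem_univ _⟩ : (t, x) ∈ O ×ˢ univ))).hasFDerivAt.comp_hasDerivAt x l1
    have d3 := (((hasDerivAt_id x).sub_const (A t)).pow k).mul d2
    rw [(evalEval_diff P).2] at d1
    have d4 := d1.unique (d3.congr_of_eventuallyEq (Eventually.of_forall fun y => hQ t f1.2 y))
    rw [d4, h0]
    simp [g0]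
  · filter_upwards [br.curve (n + N), cur (n + N) (Nat.le_add_left _ _)] with s h2 h3
    exact ⟨h2.1, h2.2.1, h2.2.2.1, h2.2.2.2.1, h3⟩
  · have g1 : ∀ᶠ z in 𝓝 z₀, z.1 ∈ ball z₀.1 ε :=
      continuous_fst.continuousAt.eventually (ball_mem_nhds _ ε0)
    have g2 : ∀ᶠ z in 𝓝 z₀, z.2 ∈ closedBall z₀.2 ρ :=
      continuous_snd.continuousAt.eventually (closedBall_mem_nhds _ ρ0)
    have g3 : ∀ᶠ z in 𝓝 z₀, z.1 ≠ z₀.1 → Q (z.1, A z.1) ≠ 0 :=
      continuous_fst.continuousAt.eventually (eventually_nhdsWithin_iff.1 hQ0)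
    filter_upwards [nhdsWithin_le_nhds g1, nhdsWithin_le_nhds g2, nhdsWithin_le_nhds g3,
      self_mem_nhdsWithin] with z h2 h3 h4 h5 h6
    have h7 : z.2 = φ (1, z.1) := (((hφ 1 one).2 _ h2).2 _ h3).1 h6.1
    have h8 : z₀.2 = φ (1, z₀.1) :=
      (((hφ 1 one).2 _ (mem_ball_self ε0)).2 _ (mem_closedBall_self ρ0.le)).1 mc.base
    refine h4 (fun h => h5 (Prod.ext h (by rw [h7, h8, h]))) ?_
    rw [hA]
    simp only [← h7]
    exact h6.2.1

end Pool.Agent.MP_098ecc_co.H97
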