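import Pool.Agent.MP_098ecc_co.H97.Defs3
import Pool.Agent.MP_098ecc_co.H97.Laur

set_option autoImplicit false
set_option linter.unusedSectionVars false

namespace Pool.Agent.MP_098ecc_co.H97

open Metric Filter Topology Set Function
open scoped BoundedContinuousFunction

theorem seq_un_inj {R : ℝ} (hR : 0 < R) {u v : BS} {n : ℕ} (h : un R u n = un R v n) :
    u n = v n :=
  mul_right_cancel₀ (pow_ne_zero n (inv_ne_zero (Complex.ofReal_ne_zero.2 hR.ne'))) h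

theorem seq_un_ext {R : ℝ} (hR : 0 < R) {u v : BS} (h : un R u = un R v) : u = v :=
  BoundedContinuousFunction.ext fun n => seq_un_inj hR (congrFun h n)

theorem seq_un_lin (R : ℝ) (u v : BS) (s : ℂ) : un R (u + s • v) = un R u + s • un R v := by
  funext n
  simp only [un, BoundedContinuousFunction.add_apply, BoundedContinuousFunction.smul_apply,
    Pi.add_apply, Pi.smul_apply, smul_eq_mul]
  ring

theorem seq_un_zero (R : ℝ) : un R 0 = 0 := by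
  funext n
  simp [un]

theorem seq_holE (n : ℕ) : holE 0 n = if n = 0 then 1 else 0 := by
  show (Pi.single 0 (1 : ℂ) : ℕ → ℂ) n = _
  rw [Pi.single_apply]

theorem seq_un_deriv (R : ℝ) {U : ℂ → BS} {U' : BS} {s : ℂ} (h : HasDerivAt U U' s) (n : ℕ) :
    HasDerivAt (fun s => un R (U s) n) (un R U' n) s :=
  ((BoundedContinuousFunction.evalCLM ℂ n : BS →L[ℂ] ℂ).hasFDerivAt.comp_hasDerivAt s h).mul_const _

theorem seq_lift {R c : ℝ} (hR : 0 < R) (hc : R < c) {F : ℂ → ℕ → ℂ} {s₀ : ℂ} {C : ℝ}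
    (bd : ∀ᶠ s in 𝓝 s₀, ∀ i, ‖F s i‖ ≤ C * c⁻¹ ^ i)
    (df : ∀ᶠ s in 𝓝 s₀, ∀ i, DifferentiableAt ℂ (fun s => F s i) s) :
    ∃ U : ℂ → BS, ∀ᶠ s in 𝓝 s₀, DifferentiableAt ℂ U s ∧ un R (U s) = F s := by
  obtain ⟨O, h1, h2, h3⟩ := _root_.eventually_nhds_iff.1 (bd.and df)
  have c0 : 0 < c := hR.trans hc
  have hC : 0 ≤ C := by simpa using (norm_nonneg _).trans ((h1 s₀ h3).1 0)
  have h4 : ∀ s, ∃ u : BS, s ∈ O → un R u = F s := fun s => by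
    by_cases hs : s ∈ O
    · obtain ⟨u, hu⟩ := exists_un hR (f := F s) ⟨C, fun i => ((h1 s hs).1 i).trans (by
        have := inv_anti₀ hR hc.le
        gcongr)⟩
      exact ⟨u, fun _ => hu⟩
    · exact ⟨0, fun h => absurd h hs⟩
  choose U hU using h4
  have h5 : ∀ s ∈ O, ∀ n, U s n = F s n * (R : ℂ) ^ n := fun s hs n => by
    rw [← hU s hs, un, mul_assoc, ← mul_pow, inv_mul_cancel₀ (Complex.ofReal_ne_zero.2 hR.ne'),
      one_pow, mul_one]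
  have h6 := hol_bs h2 (f := U) (C := C) (θ := R / c) (by positivity) ((div_lt_one c0).2 hc)
    (fun n => DifferentiableOn.congr (f := fun s => F s n * (R : ℂ) ^ n)
      (fun s hs => (((h1 s hs).2 n).mul_const _).differentiableWithinAt) fun s hs => h5 s hs n)
    fun s hs n => by
      rw [h5 s hs, norm_mul, norm_pow, Complex.norm_real, Real.norm_of_nonneg hR.le,
        div_eq_inv_mul, mul_pow, ← mul_assoc]
      gcongr
      exact (h1 s hs).1 n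
  refine ⟨U, ?_⟩
  filter_upwards [h2.mem_nhds h3] with s hs
    using ⟨h6.differentiableAt (h2.mem_nhds hs), hU s hs⟩

section Side
variable {κ W : Type} [Fintype κ] [DecidableEq κ] [NormedAddCommGroup W] [NormedSpace ℂ W]

/-- the realisation clause at one point -/
structure SeqRe (m : ℕ) (S : Side κ W) (b : κ → ℂ) (P : ℂ × W × BS) : Prop where
  mem : P ∈ S.U
  aux : S.aux (b, P) = 0
  shell : ∀ i ∈ S.I, S.E i (b, P) = 0
  out : ∀ n : ℕ, un S.Rout (S.out (b, P)) n =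
    P.1 ^ S.M * sT m (ind ℂ S.L) ((P.1 ^ S.k)⁻¹ • un S.Rin P.2.2) n

/-- the local clause of `IsReal` -/
def SeqLoc (m : ℕ) (S : Side κ W) (w : ℂ × BS → W) (bb : BS → ℂ) (P : ℂ × BS) : Prop :=
  DifferentiableAt ℂ w P ∧ DifferentiableAt ℂ bb P.2 ∧ (P.1, w P, P.2) ∈ S.U ∧
    ∀ b ∈ ball (0 : κ → ℂ) 1, (∀ i ∈ S.I, b i = bb P.2) → SeqRe m S b (P.1, w P, P.2)

theorem seq_real {m : ℕ} {S : Side κ W} {τ₀ : ℂ} {w₀ : W} {u₀ : BS} {z B : ℝ}
    (h : IsReal m S τ₀ w₀ u₀ z B) : ∃ (w : ℂ × BS → W) (bb : BS → ℂ), w (τ₀, u₀) = w₀ ∧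
    (∀ᶠ P in 𝓝 (τ₀, u₀), SeqLoc m S w bb P) ∧
    (∀ i ∈ S.I, bb u₀ = B ∧ 0 ≤ B ∧ B < 1 ∧
      ∃ μ > (0 : ℝ), ∀ du, fderiv ℂ bb u₀ du = μ * ser (un S.Rin du) z) ∧
    ∀ b ∈ ball (0 : κ → ℂ) 1, (∀ i ∈ S.I, b i = B) → ∀ dw du,
      lineDeriv ℂ S.aux (b, (τ₀, w₀, u₀)) (0, (0, dw, du)) = 0 → (∀ i ∈ S.I, S.j dw = 0) →
      dw = fderiv ℂ w (τ₀, u₀) (0, du) ∧ ∀ i ∈ S.I, fderiv ℂ bb u₀ du = 0 := by
  obtain ⟨w, bb, h1, h2, h3, h4⟩ := h
  refine ⟨w, bb, h1, h2.mono fun P hP => ⟨hP.1, hP.2.1, hP.2.2.1, fun b hb hi => ?_⟩, h3, h4⟩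
  obtain ⟨a1, a2, a3⟩ := hP.2.2.2 b hb hi
  exact ⟨hP.2.2.1, a1, a2, a3⟩

theorem seq_re {m : ℕ} {S : Side κ W} {τ₀ : ℂ} {w₀ : W} {u₀ : BS} {z B : ℝ}
    (h : IsReal m S τ₀ w₀ u₀ z B) {b : κ → ℂ} (hb : b ∈ ball (0 : κ → ℂ) 1)
    (hi : ∀ i ∈ S.I, b i = B) : SeqRe m S b (τ₀, w₀, u₀) := by
  obtain ⟨w, bb, h1, h2, h3, -⟩ := seq_real h
  have := h2.self_of_nhds.2.2.2 b hb fun i i1 => (hi i i1).trans (h3 i i1).1.symm
  rwa [h1] at this

/-- along a holomorphic curve of inputs the side is realised -/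
theorem seq_along {m : ℕ} {S : Side κ W} (hS : IsSide m S) {w : ℂ × BS → W} {bb : BS → ℂ}
    {s₀ : ℂ} {σ : ℂ → ℂ} {U : ℂ → BS} {b : ℂ → κ → ℂ}
    (h : ∀ᶠ P in 𝓝 (σ s₀, U s₀), SeqLoc m S w bb P)
    (hσ : ∀ᶠ s in 𝓝 s₀, DifferentiableAt ℂ σ s) (hU : ∀ᶠ s in 𝓝 s₀, DifferentiableAt ℂ U s)
    (hb : ∀ᶠ s in 𝓝 s₀, DifferentiableAt ℂ b s) (h0 : b s₀ ∈ ball (0 : κ → ℂ) 1)
    (hi : ∀ s, ∀ i ∈ S.I, b s i = bb (U s)) :
    ∀ᶠ s in 𝓝 s₀, b s ∈ ball (0 : κ → ℂ) 1 ∧ DifferentiableAt ℂ (fun s => w (σ s, U s)) s ∧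
      DifferentiableAt ℂ S.out (b s, (σ s, w (σ s, U s), U s)) ∧
      SeqRe m S (b s) (σ s, w (σ s, U s), U s) := by
  filter_upwards [(hσ.self_of_nhds.prodMk hU.self_of_nhds).continuousAt.eventually h, hσ, hU,
    hb.self_of_nhds.continuousAt.eventually (isOpen_ball.mem_nhds h0)] with s a1 a2 a3 a4
  exact ⟨a4, a1.1.comp s (a2.prodMk a3),
    (hS.rO.hasLine_ball hS.op a4 a1.2.2.1 0).1.differentiableAt, a1.2.2.2 _ a4 (hi s)⟩

theorem seq_bb {m : ℕ} {S : Side κ W} {w : ℂ × BS → W} {bb : BS → ℂ}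
    {s₀ : ℂ} {σ : ℂ → ℂ} {U : ℂ → BS} (h : ∀ᶠ P in 𝓝 (σ s₀, U s₀), SeqLoc m S w bb P)
    (hσ : ∀ᶠ s in 𝓝 s₀, DifferentiableAt ℂ σ s) (hU : ∀ᶠ s in 𝓝 s₀, DifferentiableAt ℂ U s) :
    ∀ᶠ s in 𝓝 s₀, DifferentiableAt ℂ (fun s => bb (U s)) s := by
  filter_upwards [(hσ.self_of_nhds.prodMk hU.self_of_nhds).continuousAt.eventually h, hU]
    with s a1 a2 using a1.2.1.comp s a2

omit [Fintype κ] in
theorem seq_ite (I : Finset κ) {f : ℂ → ℂ} {g : ℂ → κ → ℂ} {s : ℂ} (hf : DifferentiableAt ℂ f s)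
    (hg : DifferentiableAt ℂ g s) :
    DifferentiableAt ℂ (fun s i => if i ∈ I then f s else g s i) s := by
  refine differentiableAt_pi.2 fun i => ?_
  by_cases h : i ∈ I
  · simpa only [if_pos h] using hf
  · simpa only [if_neg h] using differentiableAt_pi.1 hg i

/-- the output along a holomorphic curve of inputs -/
theorem seq_out {m : ℕ} {S : Side κ W} (hS : IsSide m S) {w : ℂ × BS → W} {bb : BS → ℂ}
    {s₀ : ℂ} {U : ℂ → BS} (h : ∀ᶠ P in 𝓝 (s₀, U s₀), SeqLoc m S w bb P)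
    (hU : ∀ᶠ s in 𝓝 s₀, DifferentiableAt ℂ U s) (hi : ∀ i ∈ S.I, ‖bb (U s₀)‖ < 1) :
    ∃ O : ℂ → BS, ∀ᶠ s in 𝓝 s₀, DifferentiableAt ℂ O s ∧ ∀ n : ℕ, un S.Rout (O s) n =
      s ^ S.M * sT m (ind ℂ S.L) ((s ^ S.k)⁻¹ • un S.Rin (U s)) n := by
  have hσ : ∀ᶠ s in 𝓝 s₀, DifferentiableAt ℂ (fun s : ℂ => s) s :=
    Eventually.of_forall fun _ => differentiableAt_id
  have hb : ∀ᶠ s in 𝓝 s₀, DifferentiableAt ℂ
      (fun s (i : κ) => if i ∈ S.I then bb (U s) else (0 : κ → ℂ) i) s :=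
    (seq_bb h hσ hU).mono fun s hs => seq_ite _ hs (differentiableAt_const _)
  refine ⟨fun s => S.out (fun i => if i ∈ S.I then bb (U s) else (0 : κ → ℂ) i,
    (s, w (s, U s), U s)), ?_⟩
  filter_upwards [seq_along hS h hσ hU hb (mem_ball_zero_iff.2 ((pi_norm_lt_iff one_pos).2
    fun i => by
      by_cases e : i ∈ S.I
      · simpa only [if_pos e] using hi i e
      · simp [e])) fun s i e => if_pos e, hb, hU] with s a1 a2 a3
  exact ⟨a1.2.2.1.comp s (a2.prodMk (differentiableAt_id.prodMk (a1.2.1.prodMk a3))),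
    a1.2.2.2.out⟩

/-- the linearised output -/
theorem seq_lin {m : ℕ} {S : Side κ W} (hS : IsSide m S) {τ₀ : ℂ} {w₀ : W} {u₀ : BS} {z B : ℝ}
    (h : IsReal m S τ₀ w₀ u₀ z B) {b : κ → ℂ} (hb : b ∈ ball (0 : κ → ℂ) 1)
    (hi : ∀ i ∈ S.I, b i = B) {dw : W} {du : BS}
    (h1 : lineDeriv ℂ S.aux (b, (τ₀, w₀, u₀)) (0, (0, dw, du)) = 0) (h2 : ∀ i ∈ S.I, S.j dw = 0)
    (n : ℕ) : un S.Rout (lineDeriv ℂ S.out (b, (τ₀, w₀, u₀)) (0, (0, dw, du))) n =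
      τ₀ ^ S.M * deriv (fun s : ℂ => sT m (ind ℂ S.L) ((τ₀ ^ S.k)⁻¹ • un S.Rin u₀ +
        s • (τ₀ ^ S.k)⁻¹ • un S.Rin du) n) 0 := by
  obtain ⟨w, bb, a1, a2, a3, a4⟩ := seq_real h
  obtain ⟨a5, a6⟩ := a4 b hb hi dw du h1 h2
  have dU : ∀ s : ℂ, HasDerivAt (fun s : ℂ => u₀ + s • du) du s := fun s => by
    simpa using ((hasDerivAt_id s).smul_const du).const_add u₀
  have e0 : u₀ + (0 : ℂ) • du = u₀ := by simp
  have a2' : ∀ᶠ P in 𝓝 ((fun _ : ℂ => τ₀) 0, (fun s : ℂ => u₀ + s • du) 0), SeqLoc m S w bb P := by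
    simpa only [e0] using a2
  have hσ : ∀ᶠ s in 𝓝 (0 : ℂ), DifferentiableAt ℂ (fun _ : ℂ => τ₀) s :=
    Eventually.of_forall fun _ => differentiableAt_const _
  have hU : ∀ᶠ s in 𝓝 (0 : ℂ), DifferentiableAt ℂ (fun s : ℂ => u₀ + s • du) s :=
    Eventually.of_forall fun s => (dU s).differentiableAt
  have b0 : (fun i => if i ∈ S.I then bb u₀ else b i) = b := by
    funext i
    by_cases e : i ∈ S.I
    · rw [if_pos e, (a3 i e).1, hi i e]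
    · rw [if_neg e]
  have a7 := seq_along hS (b := fun s i => if i ∈ S.I then bb (u₀ + s • du) else b i) a2' hσ hU
    ((seq_bb a2' hσ hU).mono fun s hs => seq_ite _ hs (differentiableAt_const _))
    (by simpa only [e0, b0] using hb) fun s i e => if_pos e
  have db : HasDerivAt (fun (s : ℂ) i => if i ∈ S.I then bb (u₀ + s • du) else b i) 0 0 := by
    refine hasDerivAt_pi.2 fun i => ?_
    by_cases e : i ∈ S.I
    · have := (a2'.self_of_nhds.2.1.hasFDerivAt).comp_hasDerivAt 0 (dU 0)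
      simp only [e0, a6 i e] at this
      simp only [if_pos e]
      exact this
    · simp only [if_neg e]
      exact hasDerivAt_const (0 : ℂ) (b i)
  have dw' : HasDerivAt (fun s : ℂ => w (τ₀, u₀ + s • du)) dw 0 := by
    have := (a2'.self_of_nhds.1.hasFDerivAt).comp_hasDerivAt 0
      ((hasDerivAt_const (0 : ℂ) τ₀).prodMk (dU 0))
    simp only [e0, ← a5] at this
    exact this
  have a8 := a7.self_of_nhds.2.2.1.hasFDerivAt.comp_hasDerivAt 0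
    (db.prodMk ((hasDerivAt_const (0 : ℂ) τ₀).prodMk (dw'.prodMk (dU 0))))
  have a9 := a7.self_of_nhds.2.2.1
  simp only [e0, b0, a1] at a8 a9
  rw [a9.lineDeriv_eq_fderiv, ← (seq_un_deriv S.Rout a8 n).deriv, ← deriv_const_mul_field]
  refine EventuallyEq.deriv_eq (a7.mono fun s hs => ?_)
  refine (hs.2.2.2.out n).trans ?_
  simp only [seq_un_lin, smul_add, smul_comm s]

end Side

end Pool.Agent.MP_098ecc_co.H97
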