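import Pool.Agent.MP_098ecc_co.H97.Plain
import Pool.Agent.MP_098ecc_co.H97.Asm
import Pool.Agent.MP_098ecc_co.H97.SeqA

set_option autoImplicit false

namespace Pool.Agent.MP_098ecc_co.H97

open Metric Filter Topology Set Function
open scoped BoundedContinuousFunction

/-- the variational identity of one plain side along a holomorphic curve -/
theorem mono_plain {m : ℕ} (hm : 0 < m) {L : Set ℕ} (hL : 0 ∉ L) {Rin Rout ρ r : ℝ}
    (h1 : ρ < Rin) (h2 : ρ < Rout⁻¹) (h3 : Rout⁻¹ < r) (h4 : r < Rin) {t : ℂ} (ht : t ≠ 0)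
    {U : ℂ → BS} {U' : BS} (hU : HasDerivAt U U' t) (hM : Maj m L (un Rin (U t)) ρ) :
    ∃ g dg : ℕ → ℂ, Bnd Rout g ∧ Bnd Rout dg ∧
      (∀ n : ℕ, g n = t * sT m (ind ℂ L) (un Rin (U t)) n) ∧
      (∀ n : ℕ, HasDerivAt (fun s => s * sT m (ind ℂ L) (un Rin (U s)) n) (dg n) t) ∧
      ∀ n : ℤ, n ≤ 0 → lc r (II m (un Rin (U t)) (un Rin U') g dg t⁻¹ 0) n = 0 := by
  obtain ⟨S, hS, hP, rfl, rfl, hM1, hk, rfl, hmem, -⟩ :=
    plain Empty hm hL 1 0 h1 h2 (h3.trans h4) t (U t) hM (Or.inl rfl)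
  have hb : (0 : Empty → ℂ) ∈ closedBall (0 : Empty → ℂ) 1 := mem_closedBall_self zero_le_one
  have form : ∀ P ∈ S.U, ∀ n : ℕ, un S.Rout (S.out (0, P)) n =
      P.1 * sT m (ind ℂ S.L) (un S.Rin P.2.2) n := by
    intro P hP' n
    rw [hP.form 0 P hP' n, hM1, hk, sT, sT, ← tsum_mul_left]
    refine tsum_congr fun l => ?_
    simp only [zero_mul, Nat.sub_zero, pow_one]
    ring
  have hc : HasDerivAt (fun s : ℂ => ((s, (), U s) : ℂ × Unit × BS)) (1, (), U') t :=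
    (hasDerivAt_id t).prodMk ((hasDerivAt_const t ()).prodMk hU)
  obtain ⟨e1, e2⟩ := hS.rO.hasLine_frz hS.op hb hmem (1, (), U')
  have e3 := e1.comp_hasDerivAt t hc
  rw [← e2.lineDeriv] at e3
  refine ⟨un S.Rout (S.out (0, (t, (), U t))),
    un S.Rout (lineDeriv ℂ S.out (0, (t, (), U t)) (0, (1, (), U'))), bnd_un _ hS.rad.2.1 _,
    bnd_un _ hS.rad.2.1 _, form _ hmem, fun n => ?_, fun n hn => ?_⟩
  · refine (seq_un_deriv S.Rout e3 n).congr_of_eventuallyEq ?_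
    filter_upwards [hc.continuousAt.eventually (hS.op.mem_nhds hmem)] with s hs
    exact (form _ hs n).symm
  · have h5 := hS.sl 0 hb _ hmem 0 (1, (), U') (Or.inr rfl) (hP.triv _) (hP.triv _) t⁻¹
      (inv_mul_cancel₀ ht).symm r h3 h4 n hn
    simpa [Side.form, hP.hI, hM1, hk] using h5

/-- the same identity for the true output, which differs in the constant term -/
theorem mono_side {m : ℕ} (hm : 0 < m) {L : Set ℕ} (hL : 0 ∉ L) {Rin Rout ρ r : ℝ}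
    (h1 : ρ < Rin) (h2 : ρ < Rout⁻¹) (h3 : Rout⁻¹ < r) (h4 : r < Rin) {t : ℂ} (ht : t ≠ 0)
    {U : ℂ → BS} {U' : BS} (hU : HasDerivAt U U' t) (hM : Maj m L (un Rin (U t)) ρ)
    {G : ℂ → ℕ → ℂ} {dG : ℕ → ℂ} (hd : ∀ n, HasDerivAt (fun s => G s n) (dG n) t)
    (hG : ∀ᶠ s in 𝓝 t, ∀ n : ℕ, 1 ≤ n → G s n = s * sT m (ind ℂ L) (un Rin (U s)) n) :
    (∀ n : ℤ, n < 0 → lc r (II m (un Rin (U t)) (un Rin U') (G t) dG t⁻¹ 0) n = 0) ∧
    ((∀ᶠ s in 𝓝 t, G s 0 = s + s * sT m (ind ℂ L) (un Rin (U s)) 0) → un Rin U' 0 = 0 →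
      lc r (II m (un Rin (U t)) (un Rin U') (G t) dG t⁻¹ 0) 0 = 0) := by
  obtain ⟨g, dg, b1, b2, e1, e2, e3⟩ := mono_plain hm hL h1 h2 h3 h4 ht hU hM
  have hρ : 0 < ρ := hM.1
  have hin : 0 < Rin := hρ.trans h1
  have hout : 0 < Rout := inv_pos.1 (hρ.trans h2)
  have hr : 0 < r := (hρ.trans h2).trans h3
  have g1 : G t = g + Pi.single 0 (G t 0 - g 0) := by
    funext n
    rcases eq_or_ne n 0 with rfl | hn
    · simp
    · simp [hn, e1, hG.self_of_nhds n (by omega)]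
  have g2 : dG = dg + Pi.single 0 (dG 0 - dg 0) := by
    funext n
    rcases eq_or_ne n 0 with rfl | hn
    · simp
    · have := (hd n).unique ((e2 n).congr_of_eventuallyEq (hG.mono fun s hs => hs n (by omega)))
      simp [hn, this]
  have bf := bnd_un Rin hin (U t)
  have bd := bnd_un Rin hin U'
  have hE : DifferentiableOn ℂ (fun z => (dG 0 - dg 0 - t⁻¹ * (G t 0 - g 0)) *
      ser (flat m (un Rin (U t))) z - (G t 0 - g 0) * ser (un Rin U') z +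
      0 * (G t 0 - g 0) * ser (un Rin (U t)) z) (ball 0 Rin) :=
    (((slb_flat_diff bf m).const_mul _).fun_sub (bd.diff.const_mul _)).fun_add
      (bf.diff.const_mul _)
  have key : ∀ n : ℤ, n ≤ 0 → lc r (II m (un Rin (U t)) (un Rin U') (G t) dG t⁻¹ 0) n =
      lc r (fun z => (dG 0 - dg 0 - t⁻¹ * (G t 0 - g 0)) *
      ser (flat m (un Rin (U t))) z - (G t 0 - g 0) * ser (un Rin U') z +
      0 * (G t 0 - g 0) * ser (un Rin (U t)) z) n := by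
    intro n hn
    have s1 : sphere (0 : ℂ) r ⊆ Ann Rout⁻¹ Rin := laur_sph ⟨h3, h4⟩
    have c1 := (II_diff (m := m) hout bf bd b1 b2 t⁻¹ 0).continuousOn.mono s1
    have c2 := hE.continuousOn.mono (sphere_subset_ball h4)
    have := lc_add hr c1 c2 n
    rw [e3 n hn, zero_add] at this
    rw [← this]
    refine lc_congr hr (fun z hz => ?_) n
    have hz' : z ∈ Ann Rout⁻¹ Rin := s1 (mem_sphere_zero_iff_norm.2 hz)
    rw [← II_const bf b1 b2 _ _ _ _ hz'.2 (mem_ball_zero_iff.1 (slb_inv hout hz')), ← g1, ← g2]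
  refine ⟨fun n hn => ?_, fun h5 h6 => ?_⟩
  · rw [key n hn.le, (lc_inner hr h4 hE).2 n hn]
  · have h7 : G t 0 - g 0 = t := by
      rw [h5.self_of_nhds, e1]
      simp
    have h8 : dG 0 - dg 0 = 1 := by
      have := (hd 0).unique (((hasDerivAt_id t).add (e2 0)).congr_of_eventuallyEq h5)
      rw [this]
      ring
    have h9 : ser (un Rin U') 0 = 0 := by
      rw [ser, tsum_eq_single 0 fun n hn => by simp [hn], h6, zero_mul]
    rw [key 0 le_rfl, (lc_inner hr h4 hE).1, h7, h8, h9, inv_mul_cancel₀ ht]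
    ring

/-- the sign of the variation at the critical point -/
theorem mono_fin {m : ℕ} (hm : 0 < m) {f g : ℕ → ℝ} {df dg : ℕ → ℂ} {z w t s R : ℝ}
    (hf : Crit m f z) (hg : Crit m g w) (g0 : 0 < g 0) (hw : w < z⁻¹) (hR : z⁻¹ < R)
    (hb : Bnd R (cx g)) (ht : 0 < t) (hs : 0 < s) {α : ℂ}
    (h : II m (cx f) df (cx g) dg α 0 z = -(t : ℂ)⁻¹ * m * s) :
    ∃ r : ℝ, r < 0 ∧ ser df z = r := by
  have h1 : ser (flat m (cx f)) z = 0 := by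
    rw [poslB_flat, ser_ofReal, ser, hf.crit.tsum_eq, Complex.ofReal_zero]
  have h2 : ser (flat m (cx g)) (z : ℂ)⁻¹ = (ser (flat m g) z⁻¹ : ℝ) := by
    rw [poslB_flat, ← Complex.ofReal_inv, ser_ofReal]
  have h3 := hg.flat_pos hm g0 hw (poslB_fsum m hb (inv_pos.2 hf.pos).le hR)
  have hm' : (0 : ℝ) < m := by exact_mod_cast hm
  refine ⟨-(t⁻¹ * m * s / ser (flat m g) z⁻¹), neg_lt_zero.2 (by positivity), ?_⟩
  have h4 : ((ser (flat m g) z⁻¹ : ℝ) : ℂ) ≠ 0 := Complex.ofReal_ne_zero.2 h3.ne'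
  rw [II, Om, h1, h2] at h
  rw [Complex.ofReal_neg, Complex.ofReal_div, ← neg_div, eq_div_iff h4]
  push_cast
  linear_combination h

theorem mono {D : Dat} {p : Amb} (h : Pos D p) {X Y : ℂ → ℕ → ℂ} {a b : ℝ}
    (hb : Br D p X Y a b) (h2 : p.z₁ * p.z₂ < 1) :
    (∃ r : ℝ, r < 0 ∧ ser (fun i => deriv (fun s => X s i) p.t) p.z₁ = r) ∧
    ∃ r : ℝ, r < 0 ∧ ser (fun i => deriv (fun s => Y s i) p.t) p.z₂ = r := by
  obtain ⟨ρ₁, ρ₂, r1, r2, r3, r4, r5, r6, A1, A2⟩ := pos_radii h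
  have z1 := h.c₁.pos
  have z2 := h.c₂.pos
  have z21 : p.z₂ < p.z₁⁻¹ := by
    rw [← mul_one p.z₁⁻¹, lt_inv_mul_iff₀ z1]
    exact h2
  have z12 : p.z₁ < p.z₂⁻¹ := (lt_inv_comm₀ z2 z1).1 z21
  obtain ⟨a', a1, a2⟩ : ∃ a', p.z₂⁻¹ < a' ∧ a' < min a ρ₂⁻¹ :=
    exists_between (lt_min hb.ha.2 (inv_strictAnti₀ r2 r5))
  obtain ⟨b', b1, b2⟩ : ∃ b', p.z₁⁻¹ < b' ∧ b' < min b ρ₁⁻¹ :=
    exists_between (lt_min hb.hb.2 (inv_strictAnti₀ r1 r3))
  obtain ⟨r, s1, s2⟩ := exists_between z21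
  have a0 : 0 < a' := (inv_pos.2 z2).trans a1
  have b0 : 0 < b' := (inv_pos.2 z1).trans b1
  have hr : 0 < r := z2.trans s1
  have a3 : a'⁻¹ < p.z₂ := (inv_lt_comm₀ z2 a0).1 a1
  have b3 : b'⁻¹ < p.z₁ := (inv_lt_comm₀ z1 b0).1 b1
  have s3 : p.z₁ < r⁻¹ := (lt_inv_comm₀ hr z1).1 s2
  have s4 : r⁻¹ < a' := (inv_strictAnti₀ z2 s1).trans a1
  have a4 : ρ₂ < a'⁻¹ := (lt_inv_comm₀ a0 r2).1 (a2.trans_le (min_le_right _ _))
  have b4 : ρ₁ < b'⁻¹ := (lt_inv_comm₀ b0 r1).1 (b2.trans_le (min_le_right _ _))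
  obtain ⟨C, hC⟩ := hb.bd
  obtain ⟨U, hU⟩ := seq_lift a0 (a2.trans_le (min_le_left _ _)) (hC.mono fun s hs i => (hs i).1)
    (hb.diff.mono fun s hs i => (hs i).1)
  obtain ⟨V, hV⟩ := seq_lift b0 (b2.trans_le (min_le_left _ _)) (hC.mono fun s hs i => (hs i).2)
    (hb.diff.mono fun s hs i => (hs i).2)
  have dU := hU.self_of_nhds.1.hasDerivAt
  have dV := hV.self_of_nhds.1.hasDerivAt
  have dX : ∀ n, HasDerivAt (fun s => X s n) (un a' (deriv U p.t) n) p.t := fun n =>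
    (seq_un_deriv a' dU n).congr_of_eventuallyEq (hU.mono fun s hs => (congrFun hs.2 n).symm)
  have dY : ∀ n, HasDerivAt (fun s => Y s n) (un b' (deriv V p.t) n) p.t := fun n =>
    (seq_un_deriv b' dV n).congr_of_eventuallyEq (hV.mono fun s hs => (congrFun hs.2 n).symm)
  have eX : (fun i => deriv (fun s => X s i) p.t) = un a' (deriv U p.t) :=
    funext fun n => (dX n).deriv
  have eY : (fun i => deriv (fun s => Y s i) p.t) = un b' (deriv V p.t) :=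
    funext fun n => (dY n).deriv
  have uX : un a' (U p.t) = cx p.X := hU.self_of_nhds.2.trans hb.x0
  have uY : un b' (V p.t) = cx p.Y := hV.self_of_nhds.2.trans hb.y0
  have ht : (p.t : ℂ) ≠ 0 := Complex.ofReal_ne_zero.2 h.tpos.ne'
  have M1 : Maj D.m D.L₁ (un a' (U p.t)) ρ₁ :=
    uX ▸ maj_cx h.c₁.nn r1 (poslB_sum h.c₁.nn h.c₁.sum r1.le r3.le) A1
  have M2 : Maj D.m D.L₂ (un b' (V p.t)) ρ₂ :=
    uY ▸ maj_cx h.c₂.nn r2 (poslB_sum h.c₂.nn h.c₂.sum r2.le r5.le) A2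
  have S1 := (mono_side D.hm D.z₁ (r4.trans a1) b4 (b3.trans s3) s4 ht dU M1 dY (by
    filter_upwards [hU, hb.eqs] with s h3 h4 n hn
    rw [h3.2, h4.hy n hn])).1
  obtain ⟨S2, S3⟩ := mono_side D.hm D.z₂ (r6.trans b1) a4 (a3.trans s1) (s2.trans b1) ht dV M2 dX
    (by
      filter_upwards [hV, hb.eqs] with s h3 h4 n hn
      rw [h3.2, h4.hx n hn])
  have S4 := S3 (by
      filter_upwards [hV, hb.eqs] with s h3 h4
      rw [h3.2, h4.x0])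
    ((dY 0).unique ((hasDerivAt_const _ (1 : ℂ)).congr_of_eventuallyEq
      (hb.eqs.mono fun s hs => hs.y0)))
  rw [uX, hb.y0] at S1
  rw [uY, hb.x0] at S2 S4
  have bX : Bnd a' (cx p.X) := uX ▸ bnd_un a' a0 _
  have bY : Bnd b' (cx p.Y) := uY ▸ bnd_un b' b0 _
  obtain ⟨-, -, k1, k2⟩ := (asm (m := D.m) a0 (a3.trans s1) (s2.trans b1) bX
    (bnd_un a' a0 (deriv U p.t)) bY (bnd_un b' b0 (deriv V p.t)) (ϖ := (p.t : ℂ)⁻¹) (ϖ' := 0)
    (s₁ := 0) (s₂ := 0) (c₁ := 0) (c₂ := 0) (by simpa using b0) (by simpa using a0)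
    (fun n hn => by
      simp only [add_zero, zero_mul, sub_zero]
      rcases hn.lt_or_eq with hn | rfl
      · exact S2 n hn
      · exact S4)
    (fun n hn => by
      simp only [zero_mul, sub_zero]
      exact S1 n hn)).2 rfl rfl
  obtain ⟨l, hl, hl2⟩ := D.two₁
  have l1 : 1 ≤ l := Nat.one_le_iff_ne_zero.2 fun e => D.z₁ (e ▸ hl)
  obtain ⟨σ₁, p1, q1⟩ := zv_pos b0 (b3.trans s3) s4 bX bY h.c₁.nn h.c₂.nn (h.px 1) (poslB_y0 h) z1 s3
  obtain ⟨σ₂, p2, q2⟩ := zv_pos a0 (a3.trans s1) (s2.trans b1) bY bX h.c₂.nn h.c₁.nn (h.py hl l1)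
    (h.px 0) z2 s1
  have n1 : ‖(p.z₁ : ℂ)‖ = p.z₁ := by rw [Complex.norm_real, Real.norm_of_nonneg z1.le]
  have n2 : ‖(p.z₂ : ℂ)‖ = p.z₂ := by rw [Complex.norm_real, Real.norm_of_nonneg z2.le]
  have k3 := k1 p.z₂ ⟨n2.symm ▸ a3, n2.symm ▸ s1⟩
  have k4 := k2 p.z₁ ⟨n1.symm ▸ b3, n1.symm ▸ s3⟩
  rw [q2] at k3
  rw [q1] at k4
  rw [eX, eY]
  exact ⟨mono_fin D.hm h.c₁ h.c₂ (poslB_y0 h) z21 b1 bY h.tpos p1 k4,
    mono_fin D.hm h.c₂ h.c₁ (h.px 0) z12 a1 bX h.tpos p2 k3⟩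

end Pool.Agent.MP_098ecc_co.H97
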