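import Pool.Agent.MP_098ecc_co.H97.Slb
import Pool.Agent.MP_098ecc_co.H97.PoslB

set_option autoImplicit false

namespace Pool.Agent.MP_098ecc_co.H97

open Metric Filter Topology Set Function
open scoped BoundedContinuousFunction

theorem pole_ser_add {f g : ℕ → ℂ} {z : ℂ} (hf : Summable fun i => ‖f i * z ^ i‖)
    (hg : Summable fun i => ‖g i * z ^ i‖) (a b : ℂ) :
    ser (fun i => a * f i + b * g i) z = a * ser f z + b * ser g z := by
  unfold ser
  rw [← tsum_mul_left, ← tsum_mul_left, ← (hf.of_norm.mul_left a).tsum_add (hg.of_norm.mul_left b)]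
  exact tsum_congr fun i => by ring

theorem pole_flat_sum {R : ℝ} {f : ℕ → ℂ} (hf : Bnd R f) (m : ℕ) {z : ℂ} (hz : ‖z‖ < R) :
    Summable fun i => ‖flat m f i * z ^ i‖ := by
  obtain ⟨r, h1, h2⟩ := exists_between hz
  exact (hf.flat m ((norm_nonneg z).trans_lt h1) h2).summable h1

theorem pole_flat_diff {R : ℝ} {f : ℕ → ℂ} (hf : Bnd R f) (m : ℕ) :
    DifferentiableOn ℂ (ser (flat m f)) (ball 0 R) := fun z hz => by
  obtain ⟨r, h1, h2⟩ := exists_between (mem_ball_zero_iff.1 hz)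
  exact ((hf.flat m ((norm_nonneg z).trans_lt h1) h2).diff.differentiableAt
    (isOpen_ball.mem_nhds (mem_ball_zero_iff.2 h1))).differentiableWithinAt

theorem pole_flat_add {R : ℝ} {f g : ℕ → ℂ} (hf : Bnd R f) (hg : Bnd R g) (m : ℕ) {z : ℂ}
    (hz : ‖z‖ < R) (a b : ℂ) : ser (flat m fun i => a * f i + b * g i) z =
      a * ser (flat m f) z + b * ser (flat m g) z := by
  rw [← pole_ser_add (pole_flat_sum hf m hz) (pole_flat_sum hg m hz)]
  congr 1
  funext i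
  unfold flat
  ring

theorem pole_un_add (R : ℝ) (u du : BS) (s : ℂ) :
    un R (u + s • du) = fun i => 1 * un R u i + s * un R du i := by
  funext i
  simp only [un, BoundedContinuousFunction.add_apply, BoundedContinuousFunction.smul_apply,
    smul_eq_mul]
  ring

/-- derivative along a line of a function linear in the sequence -/
theorem pole_line_gen {R : ℝ} {A B : ℂ → ℂ} {Φ : ℂ → ℂ → ℂ} (hA : DifferentiableOn ℂ A (ball 0 R))
    (hB : DifferentiableOn ℂ B (ball 0 R))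
    (h : ∀ s w, ‖w‖ < R → Φ s w = 1 * A w + s * B w) {z : ℂ} (hz : ‖z‖ < R) (dz : ℂ) :
    HasDerivAt (fun s : ℂ => Φ s (z + s * dz)) (deriv A z * dz + B z) 0 := by
  have hn := isOpen_ball.mem_nhds (mem_ball_zero_iff.2 hz)
  have h1 : HasDerivAt (fun s : ℂ => z + s * dz) dz 0 := by
    simpa using ((hasDerivAt_id (0 : ℂ)).mul_const dz).const_add z
  have h2 : HasDerivAt A (deriv A z) (z + 0 * dz) := by
    simpa using (hA.differentiableAt hn).hasDerivAt
  have h3 : HasDerivAt B (deriv B z) (z + 0 * dz) := by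
    simpa using (hB.differentiableAt hn).hasDerivAt
  have h4 := (h2.comp (0 : ℂ) h1).add ((hasDerivAt_id (0 : ℂ)).mul (h3.comp (0 : ℂ) h1))
  have h5 : ∀ᶠ s in 𝓝 (0 : ℂ), ‖z + s * dz‖ < R :=
    h1.continuousAt.norm.eventually_lt_const (by simpa using hz)
  refine (h4.congr_of_eventuallyEq ?_).congr_deriv (by simp)
  filter_upwards [h5] with s hs
  simp [h s _ hs]

theorem pole_line {R : ℝ} (hR : 0 < R) (u du : BS) {z : ℂ} (hz : ‖z‖ < R) (dz : ℂ) :
    HasDerivAt (fun s : ℂ => ser (un R (u + s • du)) (z + s * dz))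
      (deriv (ser (un R u)) z * dz + ser (un R du) z) 0 :=
  pole_line_gen (Φ := fun s w => ser (un R (u + s • du)) w) (bnd_un R hR u).diff
    (bnd_un R hR du).diff (fun s w hw => by
      rw [pole_un_add, pole_ser_add ((bnd_un R hR u).summable hw) ((bnd_un R hR du).summable hw)])
    hz dz

theorem pole_line_flat (m : ℕ) {R : ℝ} (hR : 0 < R) (u du : BS) {z : ℂ} (hz : ‖z‖ < R) (dz : ℂ) :
    HasDerivAt (fun s : ℂ => ser (flat m (un R (u + s • du))) (z + s * dz))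
      (deriv (ser (flat m (un R u))) z * dz + ser (flat m (un R du)) z) 0 :=
  pole_line_gen (Φ := fun s w => ser (flat m (un R (u + s • du))) w)
    (pole_flat_diff (bnd_un R hR u) m) (pole_flat_diff (bnd_un R hR du) m) (fun s w hw => by
      rw [pole_un_add, pole_flat_add (bnd_un R hR u) (bnd_un R hR du) m hw]) hz dz

theorem pole_line_B {m : ℕ} (hm : 0 < m) {R : ℝ} (hR : 0 < R) (u du : BS) {z : ℂ} (hz : ‖z‖ < R)
    (h0 : z ≠ 0) (dz : ℂ) :
    HasDerivAt (fun s : ℂ => Bv m (un R (u + s • du)) (z + s * dz))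
      (ser (un R u) z ^ (m - 1) / z ^ 2 *
        (dz * ser (flat m (un R u)) z + m * z * ser (un R du) z)) 0 := by
  have h1 : HasDerivAt (fun s : ℂ => z + s * dz) dz 0 := by
    simpa using ((hasDerivAt_id (0 : ℂ)).mul_const dz).const_add z
  have h2 := ((pole_line hR u du hz dz).pow m).div h1 (by simpa using h0)
  refine h2.congr_deriv ?_
  rw [(bnd_un R hR u).ser_flat m hz]
  obtain ⟨k, rfl⟩ := Nat.exists_eq_add_one_of_ne_zero hm.ne'
  simp only [Pi.pow_apply, zero_smul, add_zero, zero_mul, Nat.add_sub_cancel]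
  field_simp
  ring

/-- the weight series in closed form -/
noncomputable def poleG (m p : ℕ) (N : Polynomial ℂ) (R : ℝ) (q : BS × ℂ) : ℂ :=
  ser (un R q.1) q.2 ^ (m - 1) / q.2 *
    (N.eval (Bv m (un R q.1) q.2) / (1 - Bv m (un R q.1) q.2 ^ p))

/-- its domain -/
def poleW (m p : ℕ) (R : ℝ) : Set (BS × ℂ) :=
  {q | q ∈ univ ×ˢ Ann 0 R ∧ Bv m (un R q.1) q.2 ^ p ≠ 1}

theorem pole_div {E : Type} [NormedAddCommGroup E] [NormedSpace ℂ E] {s : Set E} {c d : E → ℂ}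
    (hc : DifferentiableOn ℂ c s) (hd : DifferentiableOn ℂ d s) (h : ∀ x ∈ s, d x ≠ 0) :
    DifferentiableOn ℂ (fun x => c x / d x) s := by
  simp only [div_eq_mul_inv]
  exact hc.mul (hd.inv h)

theorem pole_B_diff (m : ℕ) {R : ℝ} (hR : 0 < R) :
    DifferentiableOn ℂ (fun q : BS × ℂ => Bv m (un R q.1) q.2) (univ ×ˢ Ann 0 R) := by
  have h1 := (hol_ser R hR).mono (prod_mono subset_rfl
    (fun z hz => mem_ball_zero_iff.2 hz.2 : Ann 0 R ⊆ ball 0 R))
  exact pole_div (h1.pow m) differentiableOn_snd fun q hq => laur_ann_ne le_rfl hq.2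

theorem pole_W_open (m p : ℕ) {R : ℝ} (hR : 0 < R) : IsOpen (poleW m p R) :=
  ((pole_B_diff m hR).pow p).continuousOn.isOpen_inter_preimage
    (isOpen_univ.prod (laur_ann_open 0 R)) (isOpen_ne (x := (1 : ℂ)))

theorem pole_G_diff (m p : ℕ) (N : Polynomial ℂ) {R : ℝ} (hR : 0 < R) :
    DifferentiableOn ℂ (poleG m p N R) (poleW m p R) := by
  have h0 : poleW m p R ⊆ univ ×ˢ Ann 0 R := fun q hq => hq.1
  have h1 := (hol_ser R hR).mono (h0.trans (prod_mono subset_rfl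
    (fun z hz => mem_ball_zero_iff.2 hz.2 : Ann 0 R ⊆ ball 0 R)))
  have h2 := (pole_B_diff m hR).mono h0
  exact (pole_div (h1.pow _) differentiableOn_snd fun q hq => laur_ann_ne le_rfl hq.1.2).mul
    (pole_div (N.differentiable.comp_differentiableOn h2) ((h2.pow p).const_sub 1)
      fun q hq => sub_ne_zero.2 hq.2.symm)

/-- homogeneity of the weight series -/
theorem pole_hom {m : ℕ} (hm : 0 < m) (p : ℕ) (N : Polynomial ℂ) {R : ℝ} (hR : 0 < R) {u : BS}
    (du : BS) {z : ℂ} (h : (u, z) ∈ poleW m p R) :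
    fderiv ℂ (poleG m p N R) (u, z) (du, 0) * ser (flat m (un R u)) z =
      (m * z * deriv (fun z => poleG m p N R (u, z)) z + poleG m p N R (u, z)) *
        ser (un R du) z := by
  have hz : ‖z‖ < R := h.1.2.2
  have h0 : z ≠ 0 := laur_ann_ne le_rfl h.1.2
  have hd := ((pole_G_diff m p N hR).differentiableAt ((pole_W_open m p hR).mem_nhds h)).hasFDerivAt
  set T : ℂ → ℂ := fun v => N.eval v / (1 - v ^ p) with hT
  have hT1 : HasDerivAt T (deriv T (Bv m (un R u) z)) (Bv m (un R u) z) :=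
    (N.differentiableAt.div ((differentiableAt_pow p).const_sub 1)
      (sub_ne_zero.2 h.2.symm)).hasDerivAt
  have key : ∀ (dv : BS) (dz : ℂ), fderiv ℂ (poleG m p N R) (u, z) (dv, dz) =
      (((m - 1 : ℕ) * ser (un R u) z ^ (m - 1 - 1) * (deriv (ser (un R u)) z * dz + ser (un R dv) z)
        * z - ser (un R u) z ^ (m - 1) * dz) / z ^ 2) * T (Bv m (un R u) z) +
      ser (un R u) z ^ (m - 1) / z * (deriv T (Bv m (un R u) z) * (ser (un R u) z ^ (m - 1) / z ^ 2 *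
        (dz * ser (flat m (un R u)) z + m * z * ser (un R dv) z))) := by
    intro dv dz
    have h1 : HasDerivAt (fun s : ℂ => z + s * dz) dz 0 := by
      simpa using ((hasDerivAt_id (0 : ℂ)).mul_const dz).const_add z
    have h2 := ((pole_line hR u dv hz dz).pow (m - 1)).div h1 (by simpa using h0)
    have h3 := HasDerivAt.comp (0 : ℂ) (h₂ := T) (h₂' := deriv T (Bv m (un R u) z))
      (by simpa only [zero_smul, add_zero, zero_mul] using hT1) (pole_line_B hm hR u dv hz h0 dz)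
    have h4 := (hd.hasLineDerivAt (dv, dz)).unique (h2.mul h3)
    rw [h4]
    simp [hT]
  have h5 : deriv (fun z => poleG m p N R (u, z)) z = fderiv ℂ (poleG m p N R) (u, z) (0, 1) :=
    (hd.comp_hasDerivAt z ((hasDerivAt_const z u).prodMk (hasDerivAt_id z))).deriv
  have h6 : ser (un R 0) z = 0 := by simp [ser, un]
  have h7 : ser (un R u) z * ((m - 1 : ℕ) * ser (un R u) z ^ (m - 1 - 1)) =
      (m - 1) * ser (un R u) z ^ (m - 1) := by
    obtain ⟨k, rfl⟩ := Nat.exists_eq_add_one_of_ne_zero hm.ne'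
    rcases k with _ | k
    · simp
    · simp only [Nat.add_sub_cancel]; push_cast; ring
  rw [h5, key, key, h6, (bnd_un R hR u).ser_flat m hz]
  change _ = (_ + ser (un R u) z ^ (m - 1) / z * T (Bv m (un R u) z)) * _
  field_simp
  linear_combination (-(z ^ 2 * ser (un R du) z * T (Bv m (un R u) z))) * h7

/-- the regular part does not contribute -/
theorem pole_first {m : ℕ} {R r₁ r₂ ρ r : ℝ} (h0 : 0 ≤ r₁) (hρ : ρ ∈ Ioo r₁ r₂) (h2 : r₂ ≤ R)
    (hr : r ∈ Ioo r₁ R) {f df : ℕ → ℂ} (hf : Bnd R f) (hd : Bnd R df) {F dF : ℂ → ℂ}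
    (hF : DifferentiableOn ℂ F (Ann r₁ r₂)) (hdF : DifferentiableOn ℂ dF (Ann r₁ r₂))
    (h : ∀ z ∈ Ann r₁ r₂, dF z * ser (flat m f) z = (m * z * deriv F z + F z) * ser df z)
    (n : ℤ) (hn : n ≤ 0) :
    lc r (II m f df (fun i => lc ρ F (-(i : ℤ))) (fun i => lc ρ dF (-(i : ℤ))) 0 0) n = 0 := by
  obtain ⟨a1, a2, a3⟩ := laurent h0 hF hρ
  obtain ⟨b1, b2, b3⟩ := laurent h0 hdF hρ
  set a : ℕ → ℂ := fun i => lc ρ F (-(i : ℤ))
  set da : ℕ → ℂ := fun i => lc ρ dF (-(i : ℤ))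
  set k : ℕ → ℂ := fun i => lc ρ F (i + 1 : ℕ)
  set dk : ℕ → ℂ := fun i => lc ρ dF (i + 1 : ℕ)
  obtain ⟨s, s1, s2⟩ := exists_between (lt_min hρ.1 hr.1)
  obtain ⟨t, t1, t2⟩ := exists_between hρ.2
  have s0 : 0 < s := h0.trans_lt s1
  have ρ0 : 0 < ρ := h0.trans_lt hρ.1
  have hD := II_diff (m := m) (inv_pos.2 s0) hf hd (a2 s s1) (b2 s s1) 0 0
  rw [inv_inv] at hD
  rw [lc_radius s0.le hD ⟨(lt_min_iff.1 s2).2, hr.2⟩ ⟨(lt_min_iff.1 s2).1, hρ.2.trans_le h2⟩]
  have k1 := (a1 t (ρ0.trans t1) t2).diff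
  have k2 := (b1 t (ρ0.trans t1) t2).diff
  have hsub : ball (0 : ℂ) t ⊆ ball 0 R := ball_subset_ball (t2.le.trans h2)
  have hK : DifferentiableOn ℂ (fun z => (m * (ser k z + z * deriv (ser k) z) + ser k z) * ser df z -
      ser dk z * ser (flat m f) z) (ball 0 t) :=
    ((((k1.add (differentiableOn_id.mul (k1.deriv isOpen_ball))).const_mul _).add k1).mul
      (hd.diff.mono hsub)).sub (k2.mul ((pole_flat_diff hf m).mono hsub))
  refine Eq.trans ?_ ((lc_inner ρ0 t1 hK).2 (n - 1) (by omega))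
  rw [← lc_zpow_mul ρ0]
  refine lc_congr ρ0 (fun z hz => ?_) n
  have z1 : z ∈ Ann r₁ r₂ := ⟨hz ▸ hρ.1, hz ▸ hρ.2⟩
  have z0 : z ≠ 0 := laur_ne ρ0 hz
  have z2 : ‖z⁻¹‖ < s⁻¹ := by
    rw [norm_inv, hz]; exact inv_strictAnti₀ s0 (lt_min_iff.1 s2).1
  have d1 := (k1.differentiableAt (isOpen_ball.mem_nhds (mem_ball_zero_iff.2 (hz ▸ t1)))).hasDerivAt
  have d2 := ((a2 s s1).diff.differentiableAt
    (isOpen_ball.mem_nhds (mem_ball_zero_iff.2 z2))).hasDerivAt
  have d3 := ((hasDerivAt_id z).mul d1).add (d2.comp z (hasDerivAt_inv z0))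
  have d4 : deriv F z = 1 * ser k z + z * deriv (ser k) z + deriv (ser a) z⁻¹ * (-(z ^ 2)⁻¹) :=
    (d3.congr_of_eventuallyEq
      (mem_of_superset ((laur_ann_open r₁ r₂).mem_nhds z1) fun w hw => a3 w hw)).deriv
  have e := h z z1
  rw [d4, a3 z z1, b3 z z1] at e
  simp only [II, Om, zero_mul, sub_zero, zpow_one]
  rw [(a2 s s1).ser_flat m z2]
  have e2 : z * (z ^ 2)⁻¹ = z⁻¹ := by field_simp
  linear_combination e - m * deriv (ser a) z⁻¹ * ser df z * e2

/-- residue at a simple pole between two circles -/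
theorem pole_res {r₁ r₂ ρ r : ℝ} (h0 : 0 ≤ r₁) (h1 : r₁ < ρ) {ζ : ℂ} (h2 : ρ < ‖ζ‖) (h3 : ‖ζ‖ < r)
    (h4 : r < r₂) {F : ℂ → ℂ} (hF : DifferentiableOn ℂ F (Ann r₁ r₂)) (n : ℕ) :
    lc r (fun z => F z * (z / (z - ζ))) (-(n : ℤ)) =
      lc ρ (fun z => F z * (z / (z - ζ))) (-(n : ℤ)) + F ζ * ζ ^ n := by
  have ρ0 : 0 < ρ := h0.trans_lt h1
  have hζ : ζ ∈ Ann r₁ r₂ := ⟨h1.trans h2, h3.trans h4⟩
  have hD : DifferentiableOn ℂ (fun z => z * dslope F ζ z) (Ann r₁ r₂) := differentiableOn_id.mul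
    ((Complex.differentiableOn_dslope ((laur_ann_open r₁ r₂).mem_nhds hζ)).2 hF)
  have key : ∀ s ∈ Ioo r₁ r₂, ‖ζ‖ ≠ s → lc s (fun z => F z * (z / (z - ζ))) (-(n : ℤ)) =
      lc s (fun z => z * dslope F ζ z) (-(n : ℤ)) + F ζ * lc s (fun z => z / (z - ζ)) (-(n : ℤ)) := by
    intro s hs hne
    have s0 : 0 < s := h0.trans_lt hs.1
    rw [← lc_const_mul, ← lc_add s0 (hD.continuousOn.mono (laur_sph hs))
      (G := fun z => F ζ * (z / (z - ζ))) (continuousOn_const.mul (laur_ker_cont hne))]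
    refine lc_congr s0 (fun z hz => ?_) _
    have : z - ζ ≠ 0 := sub_ne_zero.2 fun e => hne (e ▸ hz)
    rw [dslope_of_ne _ (sub_ne_zero.1 this), slope_def_field]
    field_simp
    ring
  have hr : r ∈ Ioo r₁ r₂ := ⟨hζ.1.trans h3, h4⟩
  have hρ : ρ ∈ Ioo r₁ r₂ := ⟨h1, h2.trans hζ.2⟩
  have r0 : 0 < r := h0.trans_lt hr.1
  have e1 : lc r (fun z => z / (z - ζ)) (-(n : ℤ)) = ζ ^ n := by
    rw [← lc_cauchy (R := r + 1) (lt_add_one r) (F := fun z => z ^ n) (by fun_prop) h3,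
      show (-(n : ℤ)) = 0 - n by ring, ← lc_zpow_mul r0]
    simp
  have e2 : lc ρ (fun z => z / (z - ζ)) (-(n : ℤ)) = 0 := by
    have hK : DifferentiableOn ℂ (fun z => (z - ζ)⁻¹) (ball 0 ‖ζ‖) :=
      (differentiableOn_id.sub_const ζ).inv fun z hz => sub_ne_zero.2 fun e =>
        (mem_ball_zero_iff.1 hz).ne (congrArg _ e)
    refine Eq.trans ?_ ((lc_inner ρ0 h2 hK).2 (-(n : ℤ) - 1) (by omega))
    rw [← lc_zpow_mul ρ0]
    simp [div_eq_mul_inv]
  rw [key r hr h3.ne, key ρ hρ h2.ne', e1, e2, lc_radius h0 hD hr hρ]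
  ring

end Pool.Agent.MP_098ecc_co.H97
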