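import Pool.Agent.MP_098ecc_co.H97.PoleA

set_option autoImplicit false

namespace Pool.Agent.MP_098ecc_co.H97

open Metric Filter Topology Set Function
open scoped BoundedContinuousFunction

theorem pole_tube {X : Type} [TopologicalSpace X] {W : Set (X × ℂ)} (hW : IsOpen W) {x₀ : X}
    {a b : ℝ} (ha : 0 < a) (h : ∀ z : ℂ, a ≤ ‖z‖ → ‖z‖ ≤ b → (x₀, z) ∈ W) :
    ∃ r₁ r₂, 0 ≤ r₁ ∧ r₁ < a ∧ b < r₂ ∧ ∀ᶠ x in 𝓝 x₀, ∀ z ∈ Ann r₁ r₂, a ≤ b → (x, z) ∈ W := by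
  have hK : IsCompact (closedBall (0 : ℂ) b \ ball 0 a) := (isCompact_closedBall _ _).diff isOpen_ball
  obtain ⟨u, v, hu, hv, h1, h2, h3⟩ := generalized_tube_lemma (isCompact_singleton (x := x₀)) hK hW
    (by rintro ⟨x, z⟩ ⟨rfl, hz⟩
        exact h z (not_lt.1 fun e => hz.2 (mem_ball_zero_iff.2 e)) (mem_closedBall_zero_iff.1 hz.1))
  have hO : IsOpen ((fun z : ℂ => ‖z‖) '' (closedBall 0 (b + 1) \ v))ᶜ :=
    (((isCompact_closedBall _ _).diff hv).image continuous_norm).isClosed.isOpen_compl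
  have hm : ∀ s, a ≤ s → s ≤ b → s ∈ ((fun z : ℂ => ‖z‖) '' (closedBall 0 (b + 1) \ v))ᶜ := by
    rintro s s1 s2 ⟨z, hz, rfl⟩
    exact hz.2 (h2 ⟨mem_closedBall_zero_iff.2 s2, fun e => s1.not_gt (mem_ball_zero_iff.1 e)⟩)
  by_cases hab : a ≤ b
  swap
  · exact ⟨0, b + 1, le_rfl, ha, lt_add_one b, .of_forall fun x z _ e => absurd e hab⟩
  obtain ⟨l, l', hl, hl'⟩ := mem_nhds_iff_exists_Ioo_subset.1 (hO.mem_nhds (hm a le_rfl hab))
  obtain ⟨k, k', hk, hk'⟩ := mem_nhds_iff_exists_Ioo_subset.1 (hO.mem_nhds (hm b hab le_rfl))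
  refine ⟨max l 0, min k' (b + 1), le_max_right _ _, max_lt hl.1 ha, lt_min hk.2 (lt_add_one b), ?_⟩
  filter_upwards [hu.mem_nhds (h1 rfl)] with x hx z hz _
  refine h3 ⟨hx, ?_⟩
  by_contra hzv
  have hz1 := max_lt_iff.1 hz.1
  have hz2 := lt_min_iff.1 hz.2
  have hn : ‖z‖ ∉ ((fun z : ℂ => ‖z‖) '' (closedBall 0 (b + 1) \ v))ᶜ := fun e =>
    e ⟨z, ⟨mem_closedBall_zero_iff.2 hz2.2.le, hzv⟩, rfl⟩
  rcases lt_or_ge ‖z‖ a with e | e
  · exact hn (hl' ⟨hz1.1, e.trans hl.2⟩)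
  · rcases lt_or_ge b ‖z‖ with e' | e'
    · exact hn (hk' ⟨hk.1.trans e', hz2.1⟩)
    · exact hn (hm _ e e')

theorem pole_bnd_lin {R : ℝ} {f g : ℕ → ℂ} (hf : Bnd R f) (hg : Bnd R g) (a b : ℂ) :
    Bnd R fun i => a * f i + b * g i := by
  obtain ⟨C, hC⟩ := hf
  obtain ⟨D, hD⟩ := hg
  refine ⟨‖a‖ * C + ‖b‖ * D, fun i => (norm_add_le _ _).trans ?_⟩
  rw [norm_mul, norm_mul, add_mul, mul_assoc, mul_assoc]
  gcongr
  exacts [hC i, hD i]

theorem pole_II_lin (m : ℕ) {R : ℝ} (f df : ℕ → ℂ) {a da g dg : ℕ → ℂ} (ha : Bnd R a)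
    (hda : Bnd R da) (hg : Bnd R g) (hdg : Bnd R dg) (τ ϖ : ℂ) {z : ℂ} (hz : ‖z⁻¹‖ < R) :
    II m f df (fun i => τ * a i + 1 * g i) (fun i => 1 * (ϖ * τ * a i + τ * da i) + 1 * dg i) ϖ 0 z =
      τ * II m f df a da 0 0 z + II m f df g dg ϖ 0 z := by
  simp only [II, Om]
  rw [pole_ser_add ((pole_bnd_lin ha hda _ _).summable hz) (hdg.summable hz),
    pole_ser_add (ha.summable hz) (hda.summable hz), pole_ser_add (ha.summable hz) (hg.summable hz),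
    pole_flat_add ha hg m hz]
  ring

/-- output sequence of the pole side -/
noncomputable def poleS (m p : ℕ) (N : Polynomial ℂ) (R ρ : ℝ) (P : ℂ × (ℂ × ℂ) × BS) (n : ℕ) : ℂ :=
  P.1 * lc ρ (fun z => poleG m p N R (P.2.2, z)) (-(n : ℤ)) + 1 * (P.2.1.2 * P.2.1.1 ^ n)

open Classical in
noncomputable def poleO (m p : ℕ) (N : Polynomial ℂ) (R R' ρ : ℝ) (P : ℂ × (ℂ × ℂ) × BS) : BS :=
  if h : ∃ u : BS, un R' u = poleS m p N R ρ P then h.choose else 0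

noncomputable def poleX (m : ℕ) (R : ℝ) (c : ℂ) (P : ℂ × (ℂ × ℂ) × BS) : ℂ × ℂ :=
  (Bv m (un R P.2.2) P.2.1.1 - 1, P.2.1.2 * ser (flat m (un R P.2.2)) P.2.1.1 + P.1 * c)

noncomputable def poleSide (κ : Type) (m p : ℕ) (N : Polynomial ℂ) (R R' ρ : ℝ) (L : Set ℕ) (c : ℂ)
    (U : Set (ℂ × (ℂ × ℂ) × BS)) : Side κ (ℂ × ℂ) where
  Rin := R
  Rout := R'
  M := 1
  k := 0
  L := L
  I := ∅
  U := U
  out := fun q => poleO m p N R R' ρ q.2
  aux := fun q => poleX m R c q.2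
  c := fun _ => 0
  j := 0
  βf := fun _ => 0
  vf := fun _ => 1

structure PoleU (m p : ℕ) (N : Polynomial ℂ) (R R' ρ : ℝ) (U : Set (ℂ × (ℂ × ℂ) × BS)) : Prop where
  rad : R'⁻¹ < R
  pos : 0 < ρ
  op : IsOpen U
  circ : ∀ P ∈ U, ∀ z, ‖z‖ = ρ → (P.2.2, z) ∈ poleW m p R
  ne : ∀ P ∈ U, P.2.1.1 ≠ 0 ∧ P.2.1.2 ≠ 0
  bd : ∃ C σ : ℝ, ρ ≤ σ ∧ σ < R'⁻¹ ∧ ∀ P ∈ U, ‖P.1‖ ≤ C ∧ ‖P.2.1.2‖ ≤ C ∧ ‖P.2.1.1‖ ≤ σ ∧
    ∀ z, ‖z‖ = ρ → ‖poleG m p N R (P.2.2, z)‖ ≤ C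

section
variable {m p : ℕ} {N : Polynomial ℂ} {R R' ρ : ℝ} {U : Set (ℂ × (ℂ × ℂ) × BS)}

theorem PoleU.rads (h : PoleU m p N R R' ρ U) : 0 < R ∧ 0 < R' ∧ ρ < R'⁻¹ := by
  obtain ⟨C, σ, h1, h2, -⟩ := h.bd
  have := h.pos.trans (h1.trans_lt h2)
  exact ⟨this.trans h.rad, inv_pos.1 this, h1.trans_lt h2⟩

theorem PoleU.lt (h : PoleU m p N R R' ρ U) {P} (hP : P ∈ U) : ‖P.2.1.1‖ < R'⁻¹ := by
  obtain ⟨C, σ, -, h2, h3⟩ := h.bd
  exact (h3 P hP).2.2.1.trans_lt h2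

theorem PoleU.S_bd (h : PoleU m p N R R' ρ U) : ∃ C σ : ℝ, 0 ≤ C ∧ 0 < σ ∧ σ < R'⁻¹ ∧
    ∀ P ∈ U, ∀ n, ‖poleS m p N R ρ P n‖ ≤ C * σ ^ n := by
  obtain ⟨C, σ, h1, h2, h3⟩ := h.bd
  refine ⟨|C| * |C| + |C|, σ, by positivity, h.pos.trans_le h1, h2, fun P hP n => ?_⟩
  obtain ⟨a1, a2, a3, a4⟩ := h3 P hP
  have a5 := lc_norm_le h.pos (F := fun z => poleG m p N R (P.2.2, z))
    (fun z hz => (a4 z hz).trans (le_abs_self C)) (-(n : ℤ))
  rw [neg_neg, zpow_natCast] at a5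
  have a6 : ρ ^ n ≤ σ ^ n := pow_le_pow_left₀ h.pos.le h1 n
  refine (norm_add_le _ _).trans ?_
  rw [one_mul, norm_mul, norm_mul, norm_pow, add_mul, mul_assoc]
  gcongr
  exacts [a1.trans (le_abs_self C), a5.trans (by gcongr), a2.trans (le_abs_self C)]

theorem PoleU.un_O (h : PoleU m p N R R' ρ U) {P} (hP : P ∈ U) :
    un R' (poleO m p N R R' ρ P) = poleS m p N R ρ P := by
  obtain ⟨C, σ, h0, h1, h2, h3⟩ := h.S_bd
  have : ∃ u : BS, un R' u = poleS m p N R ρ P := exists_un h.rads.2.1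
    ⟨C, fun i => (h3 P hP i).trans (by gcongr)⟩
  rw [poleO, dif_pos this]
  exact this.choose_spec

theorem PoleU.O_apply (h : PoleU m p N R R' ρ U) {P} (hP : P ∈ U) (n : ℕ) :
    poleO m p N R R' ρ P n = poleS m p N R ρ P n * (R' : ℂ) ^ n := by
  have : (R' : ℂ) ≠ 0 := by exact_mod_cast h.rads.2.1.ne'
  rw [← h.un_O hP, un, mul_assoc, ← mul_pow, inv_mul_cancel₀ this, one_pow, mul_one]

theorem PoleU.O_bd (h : PoleU m p N R R' ρ U) : ∃ C θ : ℝ, 0 ≤ θ ∧ θ < 1 ∧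
    ∀ P ∈ U, ∀ n, ‖poleO m p N R R' ρ P n‖ ≤ C * θ ^ n := by
  obtain ⟨C, σ, h0, h1, h2, h3⟩ := h.S_bd
  have h4 := h.rads.2.1
  refine ⟨C, σ * R', by positivity, by rwa [← lt_div_iff₀ h4, one_div], fun P hP n => ?_⟩
  rw [h.O_apply hP, norm_mul, norm_pow, Complex.norm_real, Real.norm_of_nonneg h4.le, mul_pow,
    ← mul_assoc]
  gcongr
  exact h3 P hP n

theorem PoleU.par (h : PoleU m p N R R' ρ U) {P} (hP : P ∈ U) (n : ℤ) :
    DifferentiableAt ℂ (fun u => lc ρ (fun z => poleG m p N R (u, z)) n) P.2.2 ∧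
    ∀ v, fderiv ℂ (fun u => lc ρ (fun z => poleG m p N R (u, z)) n) P.2.2 v =
      lc ρ (fun z => fderiv ℂ (poleG m p N R) (P.2.2, z) (v, 0)) n :=
  lc_param (pole_W_open m p h.rads.1) (pole_G_diff m p N h.rads.1) h.pos (h.circ P hP) n

theorem PoleU.O_diff (h : PoleU m p N R R' ρ U) : DifferentiableOn ℂ (poleO m p N R R' ρ) U := by
  obtain ⟨C, θ, h0, h1, h2⟩ := h.O_bd
  refine hol_bs h.op h0 h1 (fun n => DifferentiableOn.congr (f := fun P =>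
    poleS m p N R ρ P n * (R' : ℂ) ^ n) (fun P hP => ?_) fun P hP => h.O_apply hP n) h2
  have := (h.par hP (-(n : ℤ))).1.comp P (differentiableAt_snd.snd)
  refine DifferentiableAt.differentiableWithinAt (DifferentiableAt.mul_const ?_ _)
  exact (differentiableAt_fst.mul this).add (by fun_prop)

theorem PoleU.O_line (h : PoleU m p N R R' ρ U) {B : Type} [NormedAddCommGroup B] [NormedSpace ℂ B]
    {P} (hP : P ∈ U) (b db : B) (dP : ℂ × (ℂ × ℂ) × BS) :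
    un R' (lineDeriv ℂ (fun q : B × (ℂ × (ℂ × ℂ) × BS) => poleO m p N R R' ρ q.2) (b, P) (db, dP)) =
      fun n : ℕ => 1 * (dP.1 * lc ρ (fun z => poleG m p N R (P.2.2, z)) (-(n : ℤ)) +
        P.1 * lc ρ (fun z => fderiv ℂ (poleG m p N R) (P.2.2, z) (dP.2.2, 0)) (-(n : ℤ))) +
        1 * (dP.2.1.2 * P.2.1.1 ^ n + P.2.1.2 * n * P.2.1.1 ^ (n - 1) * dP.2.1.1) := by
  funext n
  have h1 := (h.O_diff.differentiableAt (h.op.mem_nhds hP)).hasFDerivAt.hasLineDerivAt dP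
  have h2 : HasLineDerivAt ℂ (fun q : B × (ℂ × (ℂ × ℂ) × BS) => poleO m p N R R' ρ q.2) _ (b, P)
    (db, dP) := h1
  have h3 := (BoundedContinuousFunction.evalCLM ℂ n).hasFDerivAt.comp_hasDerivAt (0 : ℂ) h1
  have l : ∀ a da : ℂ, HasDerivAt (fun s : ℂ => a + s * da) da 0 := fun a da => by
    simpa using ((hasDerivAt_id (0 : ℂ)).mul_const da).const_add a
  have h4 := (h.par hP (-(n : ℤ))).1.hasFDerivAt.hasLineDerivAt dP.2.2
  rw [(h.par hP (-(n : ℤ))).2] at h4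
  have h5 := (((l P.1 dP.1).mul h4).add
    (((l P.2.1.2 dP.2.1.2).mul ((l P.2.1.1 dP.2.1.1).pow n)).const_mul 1)).mul_const ((R' : ℂ) ^ n)
  have h6 : ∀ᶠ s in 𝓝 (0 : ℂ), P + s • dP ∈ U :=
    (by fun_prop : Continuous fun s : ℂ => P + s • dP).continuousAt.eventually_mem
      (by simpa using h.op.mem_nhds hP)
  have h7 := h3.unique (h5.congr_of_eventuallyEq (h6.mono fun s hs => h.O_apply hs n))
  have h8 : (R' : ℂ) ≠ 0 := by exact_mod_cast h.rads.2.1.ne'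
  rw [h2.lineDeriv, un]
  rw [BoundedContinuousFunction.evalCLM_apply] at h7
  rw [h7, mul_assoc, ← mul_pow, mul_inv_cancel₀ h8]
  simp
  ring

theorem pole_X_line (hm : 0 < m) (hR : 0 < R) (c : ℂ) {B : Type} [NormedAddCommGroup B]
    [NormedSpace ℂ B] {P : ℂ × (ℂ × ℂ) × BS} (h1 : ‖P.2.1.1‖ < R) (h0 : P.2.1.1 ≠ 0) (b db : B)
    (dP : ℂ × (ℂ × ℂ) × BS) :
    lineDeriv ℂ (fun q : B × (ℂ × (ℂ × ℂ) × BS) => poleX m R c q.2) (b, P) (db, dP) =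
      (ser (un R P.2.2) P.2.1.1 ^ (m - 1) / P.2.1.1 ^ 2 * (dP.2.1.1 *
          ser (flat m (un R P.2.2)) P.2.1.1 + m * P.2.1.1 * ser (un R dP.2.2) P.2.1.1),
        dP.2.1.2 * ser (flat m (un R P.2.2)) P.2.1.1 + P.2.1.2 * (dP.2.1.1 *
          deriv (ser (flat m (un R P.2.2))) P.2.1.1 + ser (flat m (un R dP.2.2)) P.2.1.1) +
          dP.1 * c) := by
  have l : ∀ a da : ℂ, HasDerivAt (fun s : ℂ => a + s * da) da 0 := fun a da => by
    simpa using ((hasDerivAt_id (0 : ℂ)).mul_const da).const_add a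
  have h2 := ((pole_line_B hm hR P.2.2 dP.2.2 h1 h0 dP.2.1.1).sub_const 1).prodMk
    (((l P.2.1.2 dP.2.1.2).mul (pole_line_flat m hR P.2.2 dP.2.2 h1 dP.2.1.1)).add
      ((l P.1 dP.1).mul_const c))
  have h3 : HasLineDerivAt ℂ (fun q : B × (ℂ × (ℂ × ℂ) × BS) => poleX m R c q.2) _ (b, P)
    (db, dP) := h2
  rw [h3.lineDeriv]
  simp [mul_comm]

theorem pole_X_diff (hR : 0 < R) (c : ℂ) :
    DifferentiableOn ℂ (poleX m R c) {P | P.2.1.1 ∈ Ann 0 R} := by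
  have h1 : Differentiable ℂ fun P : ℂ × (ℂ × ℂ) × BS => (P.2.2, P.2.1.1) := by fun_prop
  have h2 := (pole_B_diff m hR).comp (s := {P : ℂ × (ℂ × ℂ) × BS | P.2.1.1 ∈ Ann 0 R})
    h1.differentiableOn fun P hP => ⟨trivial, hP⟩
  have h3 := (hol_ser_flat m R hR).comp (s := {P : ℂ × (ℂ × ℂ) × BS | P.2.1.1 ∈ Ann 0 R})
    h1.differentiableOn fun P hP => ⟨trivial, mem_ball_zero_iff.2 hP.2⟩
  exact (h2.sub_const 1).prodMk (((by fun_prop : Differentiable ℂ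
    fun P : ℂ × (ℂ × ℂ) × BS => P.2.1.2).differentiableOn.mul h3).add (by fun_prop))

theorem pole_f_ne (hm : 0 < m) {f : ℕ → ℂ} {z : ℂ} (h : Bv m f z - 1 = 0) (h0 : z ≠ 0) :
    ser f z ^ (m - 1) / z ^ 2 ≠ 0 := by
  refine div_ne_zero (pow_ne_zero _ fun e => ?_) (pow_ne_zero _ h0)
  simp [Bv, e, hm.ne'] at h

theorem pole_DB {B Z F : Type} [NormedAddCommGroup B] [NormedSpace ℂ B] [NormedAddCommGroup Z]
    [NormedSpace ℂ Z] [NormedAddCommGroup F] [NormedSpace ℂ F] {U : Set Z} (hU : IsOpen U)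
    {f : Z → F} (hf : DifferentiableOn ℂ f U) (w : B × Z → B → ℝ) :
    DB U w fun q : B × Z => f q.2 := by
  refine ⟨0, fun b _ z hz db => ?_⟩
  have := ((hf.differentiableAt (hU.mem_nhds hz)).hasFDerivAt.comp (b, z)
    (hasFDerivAt_snd (𝕜 := ℂ) (p := (b, z)))).fderiv
  rw [show (fun q : B × Z => f q.2) = f ∘ Prod.snd from rfl, this]
  simp

theorem pole_side (κ : Type) [Fintype κ] [DecidableEq κ] (hm : 0 < m) (h : PoleU m p N R R' ρ U)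
    {L : Set ℕ} (hL : 0 ∉ L) (c : ℂ) : IsSide m (poleSide κ m p N R R' ρ L c U) := by
  obtain ⟨hR, hR', hρ⟩ := h.rads
  have hX : DifferentiableOn ℂ (poleX m R c) U := (pole_X_diff hR c).mono fun P hP =>
    ⟨norm_pos_iff.2 (h.ne P hP).1, (h.lt hP).trans h.rad⟩
  obtain ⟨C, θ, t0, t1, t2⟩ := h.O_bd
  refine ⟨⟨hR, hR', h.rad⟩, hL, h.op, Reg.of_snd h.O_diff, Reg.of_snd hX,
    ⟨C, θ, t0, t1, fun b _ P hP n => t2 P hP n⟩, pole_DB h.op h.O_diff _, pole_DB h.op hX _,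
    differentiableOn_const _, fun P _ => by simpa [poleSide] using hR', differentiableOn_const _,
    differentiableOn_const _, fun P _ => one_ne_zero, ?_, fun i hi => by simp [poleSide] at hi,
    fun i hi => by simp [poleSide] at hi, ?_⟩
  · intro b _ P hP db dP _ ha hd ϖ hϖ r r1 r2 n hn
    change R'⁻¹ < r at r1
    change r < R at r2
    change P ∈ U at hP
    have hζ := h.lt hP
    have hζ0 := (h.ne P hP).1
    have r0 : 0 < r := (inv_pos.2 hR').trans r1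
    have hd' := (pole_X_line hm hR c (hζ.trans h.rad) hζ0 b db dP).symm.trans hd
    obtain ⟨a1, a2⟩ := Prod.mk_eq_zero.1 (show poleX m R c P = 0 from ha)
    obtain ⟨d1, d2⟩ := Prod.mk_eq_zero.1 hd'
    replace d1 := (mul_eq_zero.1 d1).resolve_left (pole_f_ne hm a1 hζ0)
    have hf := bnd_un R hR P.2.2
    have hdf := bnd_un R hR dP.2.2
    have e2 := pole_lemma (m := m) r2 hf hdf (hζ.trans r1) P.2.1.2 dP.2.1.2 dP.2.1.1 ϖ n hn
    rw [d1, show (dP.2.1.2 - ϖ * P.2.1.2) * ser (flat m (un R P.2.2)) P.2.1.1 + P.2.1.2 * (dP.2.1.1 *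
      deriv (ser (flat m (un R P.2.2))) P.2.1.1 + ser (flat m (un R dP.2.2)) P.2.1.1) = 0 by
        rw [hϖ] at d2; linear_combination d2 - ϖ * a2] at e2
    simp only [mul_zero, zero_mul, sub_zero] at e2
    obtain ⟨r₁, r₂, q0, q1, q2, q3⟩ := pole_tube (pole_W_open m p hR) h.pos
      fun z z1 z2 => h.circ P hP z (le_antisymm z2 z1)
    have q4 : ∀ z ∈ Ann r₁ (min r₂ R), (P.2.2, z) ∈ poleW m p R := fun z hz =>
      q3.self_of_nhds z ⟨hz.1, hz.2.trans_le (min_le_left _ _)⟩ le_rfl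
    have q5 : ρ ∈ Ioo r₁ (min r₂ R) := ⟨q1, lt_min q2 (hρ.trans h.rad)⟩
    have hι : Differentiable ℂ fun z : ℂ => (P.2.2, z) := by fun_prop
    have hF : DifferentiableOn ℂ (fun z => poleG m p N R (P.2.2, z)) (Ann r₁ (min r₂ R)) :=
      (pole_G_diff m p N hR).comp hι.differentiableOn q4
    have hdF : DifferentiableOn ℂ (fun z => fderiv ℂ (poleG m p N R) (P.2.2, z) (dP.2.2, 0))
        (Ann r₁ (min r₂ R)) := ((hol_fderiv (pole_W_open m p hR) (pole_G_diff m p N hR)).comp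
      hι.differentiableOn q4).clm_apply (differentiableOn_const _)
    have e1 := pole_first q0 q5 (min_le_right _ _) ⟨q1.trans (hρ.trans r1), r2⟩ hf hdf hF hdF
      (fun z hz => pole_hom hm p N hR dP.2.2 (q4 z hz)) n hn
    have b1 := (laurent q0 hF q5).2.1 _ (q1.trans hρ)
    have b2 := (laurent q0 hdF q5).2.1 _ (q1.trans hρ)
    rw [inv_inv] at b1 b2
    have b3 := pole_bnd_lin (bnd_un R' hR' (poleO m p N R R' ρ P)) b1 1 (-P.1)
    have b4 := pole_bnd_lin (bnd_un R' hR' (lineDeriv ℂ (fun q : (κ → ℂ) × (ℂ × (ℂ × ℂ) × BS) =>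
      poleO m p N R R' ρ q.2) (b, P) (db, dP))) (pole_bnd_lin b1 b2 dP.1 P.1) 1 (-1)
    rw [h.un_O hP] at b3
    rw [h.O_line hP] at b4
    replace b3 : Bnd R' fun n => P.2.1.2 * P.2.1.1 ^ n := by
      refine (congrArg (Bnd R') (funext fun n => ?_)).mp b3
      simp only [poleS]; ring
    replace b4 : Bnd R' fun n : ℕ =>
        dP.2.1.2 * P.2.1.1 ^ n + P.2.1.2 * n * P.2.1.1 ^ (n - 1) * dP.2.1.1 := by
      refine (congrArg (Bnd R') (funext fun n => ?_)).mp b4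
      ring
    have hs : sphere (0 : ℂ) r ⊆ Ann R'⁻¹ R := laur_sph ⟨r1, r2⟩
    have e3 := lc_add r0 (continuousOn_const (c := P.1).mul
      ((II_diff (m := m) hR' hf hdf b1 b2 0 0).continuousOn.mono hs))
      ((II_diff (m := m) hR' hf hdf b3 b4 ϖ 0).continuousOn.mono hs) n
    rw [e2] at e3
    erw [lc_const_mul] at e3
    rw [e1, mul_zero, add_zero] at e3
    refine Eq.trans (lc_congr r0 (fun z hz => ?_) n) e3
    have hz' : ‖z⁻¹‖ < R' := by rw [norm_inv, hz]; exact inv_lt_of_inv_lt₀ hR' r1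
    simp only [Side.form, poleSide, Finset.sum_empty, zero_mul, sub_zero, Pi.single_zero, add_zero,
      Nat.cast_one, Nat.cast_zero, Pi.mul_apply]
    rw [h.un_O hP, h.O_line hP, hϖ, one_mul ϖ]
    exact pole_II_lin m _ _ b1 b2 b3 b4 P.1 ϖ hz'
  · intro b _ P hP dw _ _ ho
    have e := h.O_line hP b 0 (0, dw, 0)
    have e0 : ∀ n : ℤ, lc ρ (fun z => fderiv ℂ (poleG m p N R) (P.2.2, z) (0, 0)) n = 0 := fun n => by
      simp [lc, Prod.mk_zero_zero, Real.circleAverage_const]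
    have k : ∀ n : ℕ, 1 ≤ n → dw.2 * P.2.1.1 ^ n + P.2.1.2 * n * P.2.1.1 ^ (n - 1) * dw.1 = 0 := by
      intro n hn
      have e1 := congrFun e n
      rw [un] at e1
      erw [ho n hn] at e1
      simpa [e0] using e1.symm
    have k1 := k 1 le_rfl
    have k2 := k 2 one_le_two
    obtain ⟨n1, n2⟩ := h.ne P hP
    have k3 : P.2.1.2 * P.2.1.1 * dw.1 = 0 := by
      simp only [pow_one, Nat.cast_one, mul_one, Nat.sub_self, pow_zero, Nat.cast_ofNat,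
        Nat.add_one_sub_one] at k1 k2
      linear_combination k2 - P.2.1.1 * k1
    have k4 : dw.1 = 0 := (mul_eq_zero.1 k3).resolve_left (mul_ne_zero n2 n1)
    rw [k4, mul_zero, add_zero, pow_one] at k1
    exact Prod.ext k4 ((mul_eq_zero.1 k1).resolve_right n1)

end

end Pool.Agent.MP_098ecc_co.H97
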