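import Pool.Agent.MP_098ecc_co.H97.PoleB

set_option autoImplicit false

namespace Pool.Agent.MP_098ecc_co.H97

open Metric Filter Topology Set Function
open scoped BoundedContinuousFunction

theorem pole_sT {m p : ℕ} (hm : 0 < m) (hp : 0 < p) {N : Polynomial ℂ} {L : Set ℕ} (hL : 0 ∉ L)
    (hN : ∀ v : ℂ, ‖v‖ < 1 → (1 - v ^ p) * ∑' l, ind ℂ L l * v ^ (l - 1) = N.eval v) {R r : ℝ}
    (r0 : 0 < r) (hr : r < R) {u : BS} (h : ∀ z : ℂ, ‖z‖ = r → ‖Bv m (un R u) z‖ < 1) (i : ℤ) :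
    sT m (ind ℂ L) (un R u) i = lc r (fun z => poleG m p N R (u, z)) (-i) := by
  have hf := bnd_un R (r0.trans hr) u
  have c1 : ContinuousOn (ser (un R u)) (sphere 0 r) :=
    hf.diff.continuousOn.mono (sphere_subset_ball hr)
  have c0 : ∀ z ∈ sphere (0 : ℂ) r, z ≠ 0 := fun z hz => laur_ne r0 (mem_sphere_zero_iff_norm.1 hz)
  have c2 : ContinuousOn (Bv m (un R u)) (sphere 0 r) := (c1.pow m).div continuousOn_id c0
  have c3 : ContinuousOn (fun z => ser (un R u) z ^ (m - 1) / z) (sphere 0 r) :=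
    (c1.pow _).div continuousOn_id c0
  obtain ⟨M, M0, hM⟩ := laur_bound c3
  obtain ⟨z₁, hz₁, hB⟩ := (isCompact_sphere (0 : ℂ) r).exists_isMaxOn
    (NormedSpace.sphere_nonempty.2 r0.le) c2.norm
  have B1 := h z₁ (mem_sphere_zero_iff_norm.1 hz₁)
  have s1 : Summable fun l : ℕ => M * ‖Bv m (un R u) z₁‖ ^ (l - 1) :=
    ((summable_nat_add_iff 1).1
      (by simpa using summable_geometric_of_lt_one (norm_nonneg _) B1)).mul_left M
  have s2 : ∀ (l : ℕ) (z : ℂ), ‖z‖ = r → ‖ser (un R u) z ^ (m - 1) / z *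
      (ind ℂ L l * Bv m (un R u) z ^ (l - 1))‖ ≤ M * ‖Bv m (un R u) z₁‖ ^ (l - 1) := by
    intro l z hz
    rw [norm_mul, norm_mul, norm_pow, ← win_cast, Complex.norm_real,
      Real.norm_of_nonneg (win_nn L l).1]
    refine mul_le_mul (hM z hz) ((mul_le_of_le_one_left (by positivity) (win_nn L l).2).trans
      (pow_le_pow_left₀ (norm_nonneg _) (hB (mem_sphere_zero_iff_norm.2 hz)) _))
      (mul_nonneg (win_nn L l).1 (by positivity)) M0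
  have hs := lc_hasSum r0 (F := fun l z => ser (un R u) z ^ (m - 1) / z *
    (ind ℂ L l * Bv m (un R u) z ^ (l - 1))) s1
    (fun l => c3.mul (continuousOn_const.mul (c2.pow _))) s2 (-i)
  have s3 : ∀ z : ℂ, ‖z‖ = r → poleG m p N R (u, z) = ∑' l, ser (un R u) z ^ (m - 1) / z *
      (ind ℂ L l * Bv m (un R u) z ^ (l - 1)) := by
    intro z hz
    have : 1 - Bv m (un R u) z ^ p ≠ 0 := sub_ne_zero.2 fun e => by
      have := pow_lt_one₀ (norm_nonneg _) (h z hz) hp.ne'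
      rw [← norm_pow, ← e, norm_one] at this
      exact lt_irrefl _ this
    rw [tsum_mul_left, poleG, ← hN _ (h z hz), mul_div_cancel_left₀ _ this]
  rw [sT, lc_congr r0 s3, ← hs.tsum_eq]
  refine tsum_congr fun l => ?_
  rcases l with _ | l
  · simp [ind, hL, lc, Real.circleAverage_const]
  rw [cf_eq_lc r0 hr hf, show ((l + 1 : ℕ) : ℤ) - i = -i - -(l + 1 : ℕ) by ring,
    ← lc_zpow_mul r0, ← lc_const_mul]
  refine lc_congr r0 (fun z hz => ?_) _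
  have := laur_ne r0 hz
  rw [show m * (l + 1) - 1 = m - 1 + m * l by rw [mul_add]; omega, zpow_neg, zpow_natCast, Bv,
    Nat.add_sub_cancel, div_pow, ← pow_mul, pow_succ, pow_add]
  field_simp

theorem pole_B_deriv {m : ℕ} (hm : 0 < m) {R : ℝ} {f : ℕ → ℂ} (hf : Bnd R f) {z : ℂ} (hz : ‖z‖ < R)
    (h0 : z ≠ 0) : HasDerivAt (Bv m f) (ser f z ^ (m - 1) / z ^ 2 * ser (flat m f) z) z := by
  have h2 := ((hf.diff.differentiableAt (isOpen_ball.mem_nhds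
    (mem_ball_zero_iff.2 hz))).hasDerivAt.pow m).div (hasDerivAt_id z) h0
  refine h2.congr_deriv ?_
  rw [hf.ser_flat m hz]
  obtain ⟨k, rfl⟩ := Nat.exists_eq_add_one_of_ne_zero hm.ne'
  simp only [Pi.pow_apply, Nat.add_sub_cancel, id]
  field_simp
  ring

theorem pole_jump {m p : ℕ} (hm : 0 < m) (hp : 0 < p) (N : Polynomial ℂ) {R r₁ r₂ ρ r : ℝ}
    (h0 : 0 ≤ r₁) (h1 : r₁ < ρ) {ζ : ℂ} (h2 : ρ < ‖ζ‖) (h3 : ‖ζ‖ < r) (h4 : r < r₂) (h5 : r₂ ≤ R)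
    {u : BS} (hB : Bv m (un R u) ζ = 1) (hf : ser (flat m (un R u)) ζ ≠ 0)
    (hz : ∀ z ∈ Ann r₁ r₂, Bv m (un R u) z ^ p = 1 → ζ = z) (n : ℕ) :
    lc r (fun z => poleG m p N R (u, z)) (-(n : ℤ)) = lc ρ (fun z => poleG m p N R (u, z)) (-(n : ℤ)) +
      -(N.eval 1 / p) / ser (flat m (un R u)) ζ * ζ ^ n := by
  have ρ0 : 0 < ρ := h0.trans_lt h1
  have r0 : 0 < r := ρ0.trans (h2.trans h3)
  have hb := bnd_un R (r0.trans (h4.trans_le h5)) u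
  have hζ : ζ ∈ Ann r₁ r₂ := ⟨h1.trans h2, h3.trans h4⟩
  have ζ0 := laur_ann_ne h0 hζ
  have d1 : DifferentiableOn ℂ (Bv m (un R u)) (Ann r₁ r₂) := fun z hz =>
    (pole_B_deriv hm hb (hz.2.trans_le h5) (laur_ann_ne h0 hz)).differentiableAt.differentiableWithinAt
  have d2 : DifferentiableOn ℂ (ser (un R u)) (Ann r₁ r₂) :=
    hb.diff.mono fun z hz => mem_ball_zero_iff.2 (hz.2.trans_le h5)
  set V : ℂ → ℂ := fun z => 1 - Bv m (un R u) z ^ p with hV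
  have d3 : DifferentiableOn ℂ (dslope V ζ) (Ann r₁ r₂) :=
    (Complex.differentiableOn_dslope ((laur_ann_open r₁ r₂).mem_nhds hζ)).2 ((d1.pow p).const_sub 1)
  have f0 := pole_f_ne hm (sub_eq_zero.2 hB) ζ0
  have p0 : (p : ℂ) ≠ 0 := by exact_mod_cast hp.ne'
  have e1 : dslope V ζ ζ = -(p * (ser (un R u) ζ ^ (m - 1) / ζ ^ 2 * ser (flat m (un R u)) ζ)) := by
    have := (((pole_B_deriv hm hb (hζ.2.trans_le h5) ζ0).pow p).const_sub 1).deriv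
    rw [hB, one_pow, mul_one] at this
    rw [dslope_same]
    exact this
  have e2 : ∀ z, z ≠ ζ → dslope V ζ z = V z / (z - ζ) := fun z hz => by
    rw [dslope_of_ne _ hz, slope_def_field]
    simp [hV, hB]
  have e3 : ∀ z ∈ Ann r₁ r₂, z ≠ ζ → V z ≠ 0 := fun z a b e => b (hz z a (sub_eq_zero.1 e).symm).symm
  have d4 : DifferentiableOn ℂ (fun z => ser (un R u) z ^ (m - 1) / z *
      (N.eval (Bv m (un R u) z) / (z * dslope V ζ z))) (Ann r₁ r₂) := by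
    refine ((d2.pow _).div differentiableOn_id fun z hz => laur_ann_ne h0 hz).mul
      ((N.differentiable.comp_differentiableOn d1).div (differentiableOn_id.mul d3) fun z hz =>
        mul_ne_zero (laur_ann_ne h0 hz) ?_)
    by_cases e : z = ζ
    · rw [e, e1]; exact neg_ne_zero.2 (mul_ne_zero p0 (mul_ne_zero f0 hf))
    · rw [e2 z e]; exact div_ne_zero (e3 z hz e) (sub_ne_zero.2 e)
  have key : ∀ s ∈ Ioo r₁ r₂, ‖ζ‖ ≠ s → ∀ z, ‖z‖ = s → poleG m p N R (u, z) =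
      ser (un R u) z ^ (m - 1) / z * (N.eval (Bv m (un R u) z) / (z * dslope V ζ z)) *
        (z / (z - ζ)) := by
    intro s hs hne z hz
    have z1 : z ≠ ζ := fun e => hne (e ▸ hz)
    have z2 : z ∈ Ann r₁ r₂ := ⟨hz ▸ hs.1, hz ▸ hs.2⟩
    have z3 := e3 z z2 z1
    have z4 := laur_ann_ne h0 z2
    have z5 := sub_ne_zero.2 z1
    rw [e2 z z1]
    change _ * (_ / V z) = _
    field_simp
  rw [lc_congr r0 (key r ⟨hζ.1.trans h3, h4⟩ h3.ne), lc_congr ρ0 (key ρ ⟨h1, h2.trans hζ.2⟩ h2.ne'),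
    pole_res h0 h1 h2 h3 h4 d4, e1, hB]
  have f1 : ser (un R u) ζ ^ (m - 1) ≠ 0 := fun e => f0 (by rw [e, zero_div])
  congr 2
  field_simp

theorem pole_inj {m : ℕ} (hm : 0 < m) {f : ℕ → ℝ} {z : ℝ} (h : Crit m f z) (h0 : 0 < f 0) {a b : ℂ}
    (a0 : a ≠ 0) (b0 : b ≠ 0) (ha : ‖a‖ < z) (hb : ‖b‖ ≤ z) (h1 : Bv m (cx f) a = 1)
    (h2 : Bv m (cx f) b = 1) : a = b := by
  obtain ⟨α, rfl⟩ := IsAlgClosed.exists_pow_nat_eq a hm
  have α0 : α ≠ 0 := fun e => a0 (by rw [e, zero_pow hm.ne'])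
  rw [Bv, div_eq_one_iff_eq a0] at h1
  rw [Bv, div_eq_one_iff_eq b0] at h2
  have s0 : ser (cx f) (α ^ m) ≠ 0 := fun e => a0 (by rw [← h1, e, zero_pow hm.ne'])
  have s1 : ser (cx f) b ≠ 0 := fun e => b0 (by rw [← h2, e, zero_pow hm.ne'])
  have e : (ser (cx f) b * α / ser (cx f) (α ^ m)) ^ m = b := by
    rw [div_pow, mul_pow, h1, h2, mul_div_assoc, div_self a0, mul_one]
  have := (uni hm h h0).1 α (ser (cx f) b * α / ser (cx f) (α ^ m)) α0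
    (div_ne_zero (mul_ne_zero s1 α0) s0) (by rwa [← norm_pow]) (by rwa [← norm_pow, e])
    (by rw [yw, yw, e]; field_simp)
  rw [← e, ← this]

theorem pole_B_real (m : ℕ) (f : ℕ → ℝ) (z : ℝ) : Bv m (cx f) z = (Bv m f z : ℝ) := by
  rw [Bv, Bv, ser_ofReal]; push_cast; rfl

theorem pole_B_le {m : ℕ} {f : ℕ → ℝ} {z : ℝ} (h : Crit m f z) {w : ℂ} (hw : ‖w‖ ≤ z) :
    ‖Bv m (cx f) w‖ ≤ Bv m f ‖w‖ := by
  rw [Bv, Bv, norm_div, norm_pow]
  gcongr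
  exact (norm_ser_le h.nn h.sum hw).1

theorem pole_ift {m : ℕ} (hm : 0 < m) {R : ℝ} (hR : 0 < R) {u : BS} {ζ : ℂ} (hζ : ζ ∈ Ann 0 R)
    (hB : Bv m (un R u) ζ = 1) (hf : ser (flat m (un R u)) ζ ≠ 0) :
    ∃ φ : BS → ℂ, φ u = ζ ∧ (∀ᶠ v in 𝓝 u, DifferentiableAt ℂ φ v ∧ Bv m (un R v) (φ v) = 1) ∧
      ∀ᶠ q in 𝓝 (u, ζ), Bv m (un R q.1) q.2 = 1 → φ q.1 = q.2 := by
  have hO : univ ×ˢ Ann 0 R ∈ 𝓝 (u, ζ) :=
    (isOpen_univ.prod (laur_ann_open 0 R)).mem_nhds ⟨trivial, hζ⟩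
  have hc := (hol_contDiffOn (isOpen_univ.prod (laur_ann_open 0 R)) (pole_B_diff m hR) 1).contDiffAt hO
  have ζ0 := laur_ann_ne le_rfl hζ
  have h1 : fderiv ℂ (fun q : BS × ℂ => Bv m (un R q.1) q.2) (u, ζ) (0, 1) = _ :=
    (((pole_B_diff m hR).differentiableAt hO).hasFDerivAt.comp_hasDerivAt ζ
      ((hasDerivAt_const ζ u).prodMk (hasDerivAt_id ζ))).unique
      (pole_B_deriv hm (bnd_un R hR u) hζ.2 ζ0)
  have h2 := mul_ne_zero (pole_f_ne hm (sub_eq_zero.2 hB) ζ0) hf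
  have hi : (fderiv ℂ (fun q : BS × ℂ => Bv m (un R q.1) q.2) (u, ζ) ∘L .inr ℂ BS ℂ).IsInvertible := by
    refine ⟨ContinuousLinearEquiv.unitsEquivAut ℂ (Units.mk0 _ h2), ?_⟩
    ext
    simp [h1]
  refine ⟨hc.implicitFunction (by simp) hi, hc.implicitFunction_apply_self _ hi, ?_, ?_⟩
  · filter_upwards [(hc.contDiffAt_implicitFunction (by simp) hi).eventually (by simp),
      hc.eventually_apply_implicitFunction (by simp) hi] with v h3 h4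
    exact ⟨h3.differentiableAt (by simp), h4.trans hB⟩
  · filter_upwards [hc.eventually_apply_eq_iff_implicitFunction (by simp) hi] with q hq e
    exact hq.1 (e.trans hB.symm)

theorem pole_Q_open (m p : ℕ) {R : ℝ} (hR : 0 < R) : IsOpen {q : BS × ℂ | q ∈ univ ×ˢ Ann 0 R ∧
    ∑ k ∈ Finset.range p, Bv m (un R q.1) q.2 ^ k ≠ 0} :=
  (continuousOn_finsetSum (Finset.range p) fun k _ =>
    (pole_B_diff m hR).continuousOn.pow k).isOpen_inter_preimage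
    (isOpen_univ.prod (laur_ann_open 0 R)) (isOpen_ne (x := (0 : ℂ)))

theorem pole_loc {m p : ℕ} (hm : 0 < m) (hp : 0 < p) {N : Polynomial ℂ} {L : Set ℕ} (hL : 0 ∉ L)
    (hN : ∀ v : ℂ, ‖v‖ < 1 → (1 - v ^ p) * ∑' l, ind ℂ L l * v ^ (l - 1) = N.eval v) {R ρ z ζ : ℝ}
    (ρ0 : 0 < ρ) (h1 : ρ < ζ) (h2 : ζ < z) (h3 : z < R) {f : ℕ → ℝ} (hc : Crit m f z) (h0 : 0 < f 0)
    (hB : Bv m f ζ = 1) {u : BS} (hu : un R u = cx f)
    (hQ : ∀ w : ℂ, ρ ≤ ‖w‖ → ‖w‖ ≤ z → ∑ k ∈ Finset.range p, Bv m (un R u) w ^ k ≠ 0) :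
    ∃ φ : BS → ℂ, φ u = ζ ∧ ∀ᶠ v in 𝓝 u, DifferentiableAt ℂ φ v ∧ Bv m (un R v) (φ v) = 1 ∧
      φ v ∈ Ann 0 R ∧ ser (flat m (un R v)) (φ v) ≠ 0 ∧ ∀ n : ℕ, sT m (ind ℂ L) (un R v) n =
        lc ρ (fun w => poleG m p N R (v, w)) (-(n : ℤ)) +
          -(N.eval 1 / p) / ser (flat m (un R v)) (φ v) * φ v ^ n := by
  have ζ0 := ρ0.trans h1
  have hR := ζ0.trans (h2.trans h3)
  have nζ : ‖(ζ : ℂ)‖ = ζ := by rw [Complex.norm_real, Real.norm_of_nonneg ζ0.le]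
  have b1 : Bv m (un R u) ζ = 1 := by rw [hu, pole_B_real, hB, Complex.ofReal_one]
  have b2 : ser (flat m (un R u)) ζ ≠ 0 := hu ▸ (uni hm hc h0).2 _ (nζ.symm ▸ h2)
  obtain ⟨φ, φ0, φ1, φ2⟩ := pole_ift hm hR ⟨nζ.symm ▸ ζ0, nζ.symm ▸ h2.trans h3⟩ b1 b2
  obtain ⟨O, O1, O2, O3⟩ := _root_.eventually_nhds_iff.1 φ2
  obtain ⟨r, r1, r2⟩ := exists_between h2
  have hop := isOpen_univ.prod (laur_ann_open 0 R) (X := BS)
  obtain ⟨s₁, s₂, -, s1, s2, s3⟩ := pole_tube ((pole_B_diff m hR).continuousOn.norm.isOpen_inter_preimage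
    hop (isOpen_Iio (a := (1 : ℝ)))) (x₀ := u) (a := r) (b := r) (ζ0.trans r1) fun w w1 w2 => by
      have e := le_antisymm w2 w1
      refine ⟨⟨trivial, e.symm ▸ ζ0.trans r1, e.symm ▸ r2.trans h3⟩, ?_⟩
      change ‖Bv m (un R u) w‖ < 1
      rw [hu, ← hB]
      refine (pole_B_le hc (w2.trans r2.le)).trans_lt ?_
      rw [e]
      exact (hc.Bv_anti hm h0).1 ⟨ζ0, h2.le⟩ ⟨ζ0.trans r1, r2.le⟩ r1
  obtain ⟨t₁, t₂, t0, t1, t2, t3⟩ := pole_tube ((pole_Q_open m p hR).inter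
    (((pole_B_diff m hR).continuousOn.isOpen_inter_preimage hop (isOpen_ne (x := (1 : ℂ)))).union O2))
    (x₀ := u) (b := r) ρ0 fun w w1 w2 => by
      have w3 : (u, w) ∈ univ ×ˢ Ann 0 R := ⟨trivial, ρ0.trans_le w1, w2.trans_lt (r2.trans h3)⟩
      refine ⟨⟨w3, hQ w w1 (w2.trans r2.le)⟩, ?_⟩
      by_cases e : Bv m (un R u) w = 1
      · have : w = ζ := pole_inj hm hc h0 (laur_ann_ne le_rfl w3.2) (Complex.ofReal_ne_zero.2 ζ0.ne')
          (w2.trans_lt r2) (nζ.symm ▸ h2.le) (hu ▸ e) (hu ▸ b1)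
        exact Or.inr (this ▸ O3)
      · exact Or.inl ⟨w3, e⟩
  have c1 : ContinuousAt φ u := φ1.self_of_nhds.1.continuousAt
  have c2 : ContinuousAt (fun v => ser (flat m (un R v)) (φ v)) u :=
    ContinuousAt.comp (g := fun q : BS × ℂ => ser (flat m (un R q.1)) q.2) (f := fun v => (v, φ v))
      ((hol_ser_flat m R hR).continuousOn.continuousAt ((isOpen_univ.prod isOpen_ball).mem_nhds
        ⟨trivial, mem_ball_zero_iff.2 (by rw [φ0, nζ]; exact h2.trans h3)⟩))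
      (continuousAt_id.prodMk c1)
  refine ⟨φ, φ0, ?_⟩
  filter_upwards [φ1, s3, t3, c2.eventually_ne (φ0.symm ▸ b2),
    c1.norm.eventually_lt_const (show ‖φ u‖ < r by rwa [φ0, nζ]),
    c1.norm.eventually_const_lt (show ρ < ‖φ u‖ by rwa [φ0, nζ])] with v v1 v2 v3 v4 v5 v6
  refine ⟨v1.1, v1.2, ⟨ρ0.trans v6, v5.trans (r2.trans h3)⟩, v4, fun n => ?_⟩
  rw [pole_sT hm hp hL hN (ζ0.trans r1) (r2.trans h3) fun w hw =>
    (v2 w ⟨hw.symm ▸ s1, hw.symm ▸ s2⟩ le_rfl).2]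
  refine pole_jump hm hp N t0 t1 v6 v5 (lt_min t2 (r2.trans h3)) (min_le_right _ _) v1.2 v4
    (fun w hw e => ?_) n
  obtain ⟨a1, a2⟩ := v3 w ⟨hw.1, hw.2.trans_le (min_le_left _ _)⟩ (h1.trans r1).le
  have a3 : Bv m (un R v) w = 1 := by
    have := geom_sum_mul (Bv m (un R v) w) p
    rw [e, sub_self] at this
    exact sub_eq_zero.1 ((mul_eq_zero.1 this).resolve_left a1.2)
  exact O1 _ (a2.resolve_left fun e => e.2 a3) a3

end Pool.Agent.MP_098ecc_co.H97
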