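import Pool.Agent.MP_098ecc_co.H97.Defs3
import Pool.Agent.MP_098ecc_co.H97.Laur
import Pool.Agent.MP_098ecc_co.H97.Win

set_option autoImplicit false

namespace Pool.Agent.MP_098ecc_co.H97

open Metric Filter Topology Set Function
open scoped BoundedContinuousFunction

section Co
variable {𝕜 : Type} [NormedField 𝕜]

/-- coefficient with an integer index -/
noncomputable def poslCo (P : PowerSeries 𝕜) (j : ℤ) : 𝕜 :=
  if 0 ≤ j then PowerSeries.coeff j.toNat P else 0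

theorem posl_nat (f : ℕ → 𝕜) (N j : ℕ) :
    cf f N j = PowerSeries.coeff j (PowerSeries.mk f ^ N) := by simp [cf]

theorem posl_neg (f : ℕ → 𝕜) (N : ℕ) {j : ℤ} (hj : j < 0) : cf f N j = 0 := if_neg (by omega)

theorem posl_succ (f : ℕ → 𝕜) (N j : ℕ) :
    cf f (N + 1) j = ∑ p ∈ Finset.HasAntidiagonal.antidiagonal j, f p.1 * cf f N p.2 := by
  simp only [posl_nat, pow_succ', PowerSeries.coeff_mul, PowerSeries.coeff_mk]

theorem posl_zero (f : ℕ → 𝕜) (j : ℕ) : cf f 0 j = if j = 0 then 1 else 0 := by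
  rw [posl_nat, pow_zero, PowerSeries.coeff_one]

theorem posl_conv (g : ℕ → 𝕜) (P : PowerSeries 𝕜) (j : ℤ) :
    HasSum (fun i : ℕ => g i * poslCo P (j - i)) (poslCo (PowerSeries.mk g * P) j) := by
  by_cases hj : 0 ≤ j
  · obtain ⟨n, rfl⟩ := Int.eq_ofNat_of_zero_le hj
    have : poslCo (PowerSeries.mk g * P) n =
        ∑ i ∈ Finset.range (n + 1), g i * poslCo P (n - i) := by
      rw [poslCo, if_pos hj, Int.toNat_natCast, PowerSeries.coeff_mul,
        Finset.Nat.sum_antidiagonal_eq_sum_range_succ_mk]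
      refine Finset.sum_congr rfl fun i hi => ?_
      have := Finset.mem_range.1 hi
      rw [PowerSeries.coeff_mk, poslCo, if_pos (by omega)]
      congr 3
      omega
    rw [this]
    refine hasSum_sum_of_ne_finset_zero fun i hi => ?_
    rw [Finset.mem_range] at hi
    rw [poslCo, if_neg (by omega), mul_zero]
  · rw [poslCo, if_neg hj]
    convert hasSum_zero with i
    rw [poslCo, if_neg (by omega), mul_zero]

theorem posl_has {f g : ℕ → 𝕜} {a b : 𝕜} (h : HasSum f a) (h1 : g = f) (h2 : b = a) :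
    HasSum g b := h1 ▸ h2 ▸ h

theorem posl_Xd (P : PowerSeries 𝕜) (j : ℕ) :
    PowerSeries.coeff j (PowerSeries.X * PowerSeries.derivative 𝕜 P) =
      j * PowerSeries.coeff j P := by
  cases j with
  | zero => simp
  | succ j => rw [PowerSeries.coeff_succ_X_mul, PowerSeries.coeff_derivative]; push_cast; ring

theorem posl_flat (m : ℕ) (f : ℕ → 𝕜) : PowerSeries.mk (flat m f) =
    (m : PowerSeries 𝕜) * (PowerSeries.X * PowerSeries.derivative 𝕜 (PowerSeries.mk f)) -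
      PowerSeries.mk f := by
  ext j
  rw [map_sub, ← nsmul_eq_mul, map_nsmul, posl_Xd]
  simp only [PowerSeries.coeff_mk, flat, nsmul_eq_mul]
  ring

theorem posl_dpow (P : PowerSeries 𝕜) (M : ℕ) : PowerSeries.derivative 𝕜 (P ^ (M + 1)) =
    ((M + 1 : ℕ) : PowerSeries 𝕜) * (P ^ M * PowerSeries.derivative 𝕜 P) := by
  rw [Derivation.leibniz_pow, nsmul_eq_mul, smul_eq_mul, Nat.add_sub_cancel]

theorem posl_coeff_cast (n j : ℕ) (P : PowerSeries 𝕜) :
    PowerSeries.coeff j ((n : PowerSeries 𝕜) * P) = n * PowerSeries.coeff j P := by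
  rw [← nsmul_eq_mul, map_nsmul, nsmul_eq_mul]

theorem posl_flat_pow (m M j : ℕ) (f : ℕ → 𝕜) :
    M * PowerSeries.coeff j (PowerSeries.mk (flat m f) * PowerSeries.mk f ^ (M - 1)) =
      (m * j - M) * PowerSeries.coeff j (PowerSeries.mk f ^ M) := by
  cases M with
  | zero =>
    rw [pow_zero, PowerSeries.coeff_one]
    split_ifs with h <;> simp [h]
  | succ M =>
    have : ((M + 1 : ℕ) : PowerSeries 𝕜) *
        (PowerSeries.mk (flat m f) * PowerSeries.mk f ^ (M + 1 - 1)) =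
        (m : PowerSeries 𝕜) * (PowerSeries.X * PowerSeries.derivative 𝕜
          (PowerSeries.mk f ^ (M + 1))) - ((M + 1 : ℕ) : PowerSeries 𝕜) *
            PowerSeries.mk f ^ (M + 1) := by
      rw [posl_dpow, posl_flat, Nat.add_sub_cancel]; ring
    rw [← posl_coeff_cast, this, map_sub, posl_coeff_cast, posl_coeff_cast, posl_Xd]
    ring

end Co

theorem posl_mul {φ ψ : PowerSeries ℝ} {z A B : ℝ}
    (h1 : HasSum (fun i => PowerSeries.coeff i φ * z ^ i) A)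
    (h2 : HasSum (fun i => PowerSeries.coeff i ψ * z ^ i) B) :
    HasSum (fun i => PowerSeries.coeff i (φ * ψ) * z ^ i) (A * B) := by
  have e : ∀ n, ∑ p ∈ Finset.HasAntidiagonal.antidiagonal n, PowerSeries.coeff p.1 φ * z ^ p.1 *
      (PowerSeries.coeff p.2 ψ * z ^ p.2) = PowerSeries.coeff n (φ * ψ) * z ^ n := fun n => by
    rw [PowerSeries.coeff_mul, Finset.sum_mul]
    refine Finset.sum_congr rfl fun p hp => ?_
    rw [← Finset.HasAntidiagonal.mem_antidiagonal.1 hp]; ring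
  have a1 := summable_norm_sum_mul_antidiagonal_of_summable_norm h1.summable.norm h2.summable.norm
  have a2 := tsum_mul_tsum_eq_tsum_sum_antidiagonal_of_summable_norm h1.summable.norm
    h2.summable.norm
  simp only [e] at a1 a2
  rw [← h1.tsum_eq, ← h2.tsum_eq, a2]
  exact a1.of_norm.hasSum

theorem posl_pow {f : ℕ → ℝ} {z : ℝ} (hs : Summable fun i => f i * z ^ i) (N : ℕ) :
    HasSum (fun j => PowerSeries.coeff j (PowerSeries.mk f ^ N) * z ^ j) (ser f z ^ N) := by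
  induction N with
  | zero =>
    simp only [pow_zero, PowerSeries.coeff_one]
    convert hasSum_single (f := fun j : ℕ => (if j = 0 then (1 : ℝ) else 0) * z ^ j) 0
      fun j hj => by simp [hj] using 1
    simp
  | succ N ih =>
    rw [pow_succ, pow_succ]
    exact posl_mul ih (by simpa only [PowerSeries.coeff_mk, ser] using hs.hasSum)

theorem cf_nonneg {f : ℕ → ℝ} (hf : ∀ i, 0 ≤ f i) (N : ℕ) (j : ℤ) : 0 ≤ cf f N j := by
  induction N generalizing j with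
  | zero =>
    rcases lt_or_ge j 0 with hj | hj
    · rw [posl_neg f _ hj]
    · obtain ⟨n, rfl⟩ := Int.eq_ofNat_of_zero_le hj
      rw [posl_zero]; positivity
  | succ N ih =>
    rcases lt_or_ge j 0 with hj | hj
    · rw [posl_neg f _ hj]
    · obtain ⟨n, rfl⟩ := Int.eq_ofNat_of_zero_le hj
      rw [posl_succ]
      exact Finset.sum_nonneg fun p _ => mul_nonneg (hf _) (ih _)

theorem posl_ge {f : ℕ → ℝ} (hf : ∀ i, 0 ≤ f i) (N a j : ℕ) :
    f a * cf f N j ≤ cf f (N + 1) (a + j : ℕ) := by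
  rw [posl_succ]
  exact Finset.single_le_sum (f := fun p : ℕ × ℕ => f p.1 * cf f N p.2) (a := (a, j))
    (fun p _ => mul_nonneg (hf _) (cf_nonneg hf _ _)) (by simp)

theorem cf_ge_prod {f : ℕ → ℝ} (hf : ∀ i, 0 ≤ f i) (s : Multiset ℕ) :
    (s.map f).prod ≤ cf f s.card (s.sum : ℕ) := by
  induction s using Multiset.induction_on with
  | empty => simp [cf]
  | cons a s ih =>
    rw [Multiset.map_cons, Multiset.prod_cons, Multiset.card_cons, Multiset.sum_cons]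
    exact (mul_le_mul_of_nonneg_left ih (hf a)).trans (posl_ge hf _ _ _)

theorem cf_mono {f g : ℕ → ℝ} (hf : ∀ i, 0 ≤ f i) (h : ∀ i, f i ≤ g i) (N : ℕ) (j : ℤ) :
    cf f N j ≤ cf g N j := by
  induction N generalizing j with
  | zero => simp [cf]
  | succ N ih =>
    rcases lt_or_ge j 0 with hj | hj
    · rw [posl_neg f _ hj, posl_neg g _ hj]
    · obtain ⟨n, rfl⟩ := Int.eq_ofNat_of_zero_le hj
      rw [posl_succ, posl_succ]
      exact Finset.sum_le_sum fun p _ =>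
        mul_le_mul (h _) (ih _) (cf_nonneg hf _ _) ((hf _).trans (h _))

theorem posl_ser_ge {f : ℕ → ℝ} {z : ℝ} (hf : ∀ i, 0 ≤ f i) (hz : 0 < z)
    (hs : Summable fun i => f i * z ^ i) : f 0 ≤ ser f z := by
  have := hs.le_tsum 0 fun i _ => mul_nonneg (hf i) (pow_pos hz i).le
  rwa [pow_zero, mul_one] at this

theorem cf_le_real {f : ℕ → ℝ} {z : ℝ} (hf : ∀ i, 0 ≤ f i) (hz : 0 < z)
    (hs : Summable fun i => f i * z ^ i) (N : ℕ) (j : ℤ) : cf f N j * z ^ j ≤ ser f z ^ N := by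
  rcases lt_or_ge j 0 with hj | hj
  · rw [posl_neg f _ hj, zero_mul]
    exact pow_nonneg ((hf 0).trans (posl_ser_ge hf hz hs)) _
  · obtain ⟨n, rfl⟩ := Int.eq_ofNat_of_zero_le hj
    rw [zpow_natCast, posl_nat]
    exact le_hasSum (posl_pow hs N) n fun i _ =>
      mul_nonneg (posl_nat f N i ▸ cf_nonneg hf N i) (pow_pos hz i).le

theorem cf_scale {𝕜 : Type} [NormedField 𝕜] (f : ℕ → 𝕜) (a z : 𝕜) (N : ℕ) (j : ℤ) :
    cf (fun i => a * f i * z ^ i) N j = a ^ N * z ^ j * cf f N j := by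
  rcases lt_or_ge j 0 with hj | hj
  · rw [posl_neg f _ hj, posl_neg _ _ hj, mul_zero]
  · obtain ⟨n, rfl⟩ := Int.eq_ofNat_of_zero_le hj
    have : PowerSeries.mk (fun i => a * f i * z ^ i) =
        PowerSeries.C a * PowerSeries.rescale z (PowerSeries.mk f) := by
      ext i
      rw [PowerSeries.coeff_C_mul, PowerSeries.coeff_rescale, PowerSeries.coeff_mk,
        PowerSeries.coeff_mk]
      ring
    rw [posl_nat, posl_nat, this, mul_pow, ← map_pow, ← map_pow, PowerSeries.coeff_C_mul,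
      PowerSeries.coeff_rescale, zpow_natCast, mul_assoc]

theorem cf_tendsto {𝕜 ι : Type} [NormedField 𝕜] {l : Filter ι} {f : ι → ℕ → 𝕜} {g : ℕ → 𝕜}
    (h : ∀ i, Tendsto (fun n => f n i) l (𝓝 (g i))) (N : ℕ) (j : ℤ) :
    Tendsto (fun n => cf (f n) N j) l (𝓝 (cf g N j)) := by
  induction N generalizing j with
  | zero => simpa [cf] using tendsto_const_nhds
  | succ N ih =>
    rcases lt_or_ge j 0 with hj | hj
    · simpa only [posl_neg _ _ hj] using tendsto_const_nhds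
    · obtain ⟨n, rfl⟩ := Int.eq_ofNat_of_zero_le hj
      simp only [posl_succ]
      exact tendsto_finsetSum _ fun p _ => (h _).mul (ih _)

/-- coefficient form of `f ^ (m l - 1) * flat f * z ^ (-l) = z d/dz (f ^ (m l) z ^ (-l)) / l` -/
theorem cf_flat {𝕜 : Type} [NormedField 𝕜] {m l : ℕ} (hm : 0 < m) (hl : 0 < l) (f : ℕ → 𝕜)
    (n : ℤ) : HasSum (fun i : ℕ => l * (flat m f i * cf f (m * l - 1) (l - (n + i))))
      (-n * cf f (m * l) (l - n)) := by
  obtain ⟨M, hM⟩ : ∃ M, m * l = M + 1 := ⟨m * l - 1, by have := Nat.mul_pos hm hl; omega⟩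
  have h1 := (posl_conv (flat m f) (PowerSeries.mk f ^ (m * l - 1)) (l - n)).mul_left (l : 𝕜)
  simp only [sub_sub] at h1
  refine posl_has h1 rfl ?_
  rcases lt_or_ge ((l : ℤ) - n) 0 with hj | hj
  · rw [posl_neg _ _ hj, poslCo, if_neg (by omega), mul_zero, mul_zero]
  · obtain ⟨j, hj'⟩ := Int.eq_ofNat_of_zero_le hj
    have : (l : PowerSeries 𝕜) * (PowerSeries.mk (flat m f) * PowerSeries.mk f ^ (m * l - 1)) =
        PowerSeries.X * PowerSeries.derivative 𝕜 (PowerSeries.mk f ^ (m * l)) -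
          (l : PowerSeries 𝕜) * PowerSeries.mk f ^ (m * l) := by
      rw [hM, posl_dpow, posl_flat, Nat.add_sub_cancel, pow_succ, ← hM]; push_cast; ring
    have e : (n : 𝕜) = l - j := by
      rw [show n = l - j by omega]; push_cast; rfl
    rw [poslCo, if_pos hj, hj', Int.toNat_natCast, ← posl_coeff_cast, this, map_sub,
      posl_coeff_cast, posl_Xd, posl_nat, e]
    ring

theorem posl_closure {B : Set ℕ} {j : ℕ} (h : j ∈ AddSubmonoid.closure B) :
    ∃ s : Multiset ℕ, (∀ x ∈ s, x ∈ B) ∧ s.sum = j ∧ s.card ≤ j := by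
  induction h using AddSubmonoid.closure_induction with
  | mem x hx =>
    rcases Nat.eq_zero_or_pos x with rfl | h
    · exact ⟨0, by simp, rfl, le_rfl⟩
    · exact ⟨{x}, by simpa using hx, by simp, h⟩
  | zero => exact ⟨0, by simp, rfl, le_rfl⟩
  | add x y _ _ hx hy =>
    obtain ⟨s, h1, h2, h3⟩ := hx
    obtain ⟨t, k1, k2, k3⟩ := hy
    exact ⟨s + t, fun z hz => (Multiset.mem_add.1 hz).elim (h1 z) (k1 z), by simp [h2, k2],
      by rw [Multiset.card_add]; omega⟩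

theorem supp (D : Dat) (A B : Set ℕ) (a0 : 0 ∈ A) (b0 : 0 ∈ B)
    (hA : ∀ l ∈ D.L₂, ∀ s : Multiset ℕ, s.card = D.m * l - 1 → (∀ j ∈ s, j ∈ B) → s.sum ≤ l →
      l - s.sum ∈ A)
    (hB : ∀ l ∈ D.L₁, ∀ s : Multiset ℕ, s.card = D.m * l - 1 → (∀ j ∈ s, j ∈ A) → s.sum < l →
      l - s.sum ∈ B) : (∀ i, i ∈ A) ∧ ∀ l ∈ D.L₁, ∀ i ≤ l, i ∈ B := by
  have hm := D.hm
  have h1 : ∀ l ∈ D.L₁, l ∈ B := fun l hl => by
    have h0 : l ≠ 0 := fun h => D.z₁ (h ▸ hl)
    simpa using hB l hl (Multiset.replicate _ 0) (Multiset.card_replicate _ _)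
      (fun j hj => Multiset.eq_of_mem_replicate hj ▸ a0) (by simpa using Nat.pos_of_ne_zero h0)
  have h2 : ∀ k ∈ D.L₁, 2 ≤ D.m * k → ∀ a ∈ A, a < k → k - a ∈ B := fun k hk h a ha hak => by
    simpa using hB k hk (a ::ₘ Multiset.replicate (D.m * k - 2) 0) (by simp; omega)
      (fun j hj => (Multiset.mem_cons.1 hj).elim (fun e => e ▸ ha)
        fun hj => Multiset.eq_of_mem_replicate hj ▸ a0) (by simpa using hak)
  have h3 : ∀ l ∈ D.L₂, ∀ j ∈ AddSubmonoid.closure B, j < l → l - j ∈ A := by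
    intro l hl j hj hjl
    obtain ⟨s, k1, k2, k3⟩ := posl_closure hj
    have := Nat.le_mul_of_pos_left l hm
    simpa [k2] using hA l hl (s + Multiset.replicate (D.m * l - 1 - s.card) 0) (by simp; omega)
      (fun j hj => (Multiset.mem_add.1 hj).elim (k1 j)
        fun hj => Multiset.eq_of_mem_replicate hj ▸ b0) (by simpa [k2] using hjl.le)
  obtain ⟨k, hk, hk2⟩ := D.two₁
  have h4 : Nat.setGcd B = 1 := by
    refine D.gcd _ (fun l hl => Nat.setGcd_dvd_of_mem (h1 l hl)) fun l hl => ?_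
    have d1 := Nat.setGcd_dvd_of_mem (h1 k hk)
    have k0 : 0 < k := Nat.pos_of_ne_zero fun h => D.z₁ (h ▸ hk)
    have e := Nat.mod_add_div l k
    rw [← e]
    refine dvd_add ?_ (d1.mul_right _)
    rcases Nat.eq_zero_or_pos (l % k) with h | h
    · rw [h]; exact dvd_zero _
    have a1 := h3 l hl (k * (l / k)) (by
      rw [mul_comm, ← smul_eq_mul]
      exact AddSubmonoid.nsmul_mem _ (AddSubmonoid.subset_closure (h1 k hk)) _) (by omega)
    rw [show l - k * (l / k) = l % k by omega] at a1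
    have lt := Nat.mod_lt l k0
    have d2 := Nat.dvd_sub d1 (Nat.setGcd_dvd_of_mem (h2 k hk hk2 _ a1 lt))
    rwa [show k - (k - l % k) = l % k by omega] at d2
  obtain ⟨n, hn⟩ := Nat.exists_mem_closure_of_ge B
  have h5 : ∀ i, i ∈ A := fun i => by
    rcases Nat.eq_zero_or_pos i with rfl | h
    · exact a0
    obtain ⟨l, hl, hl'⟩ := D.inf₂.exists_gt (n + i)
    have := h3 l hl (l - i) (hn _ (by omega) (h4 ▸ one_dvd _)) (by omega)
    rwa [show l - (l - i) = i by omega] at this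
  refine ⟨h5, fun l hl i hi => ?_⟩
  rcases Nat.eq_zero_or_pos i with rfl | h
  · exact b0
  rcases hi.eq_or_lt with rfl | hi
  · exact h1 _ hl
  have := Nat.le_mul_of_pos_left l hm
  have := h2 l hl (by omega) (l - i) (h5 _) (by omega)
  rwa [show l - (l - i) = i by omega] at this

theorem sT_summable {m : ℕ} {L : Set ℕ} (hm : 0 < m) (hL : 0 ∉ L) {f : ℕ → ℝ} {z : ℝ}
    (hf : ∀ i, 0 ≤ f i) (h0 : 0 < f 0) (hz : 0 < z) (hs : Summable fun i => f i * z ^ i)
    (ha : Adm L (Bv m f z)) : ∃ C : ℝ, ∀ i : ℤ,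
      (Summable fun l => ind ℝ L l * cf f (m * l - 1) (l - i)) ∧ sT m (ind ℝ L) f i ≤ C * z ^ i := by
  obtain ⟨B, hB, hS⟩ := ha
  have hF := h0.trans_le (posl_ser_ge hf hz hs)
  refine ⟨(∑' l, ind ℝ L l * B ^ l) / ser f z, fun i => ?_⟩
  have h1 : ∀ l, ind ℝ L l * cf f (m * l - 1) (l - i) ≤ ind ℝ L l * B ^ l * (z ^ i / ser f z) := by
    intro l
    rcases Nat.eq_zero_or_pos l with rfl | hl
    · simp [ind, hL]
    rw [mul_assoc]
    refine mul_le_mul_of_nonneg_left ?_ (win_nn L l).1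
    obtain ⟨M, hM⟩ : ∃ M, m * l = M + 1 := ⟨m * l - 1, by have := Nat.mul_pos hm hl; omega⟩
    have h2 := cf_le_real hf hz hs (m * l - 1) (l - i)
    rw [← le_div_iff₀ (zpow_pos hz _)] at h2
    refine h2.trans (le_trans (le_of_eq ?_) (mul_le_mul_of_nonneg_right
      (pow_le_pow_left₀ (by unfold Bv; positivity) hB.le l) (by positivity)))
    rw [Bv, div_pow, ← pow_mul, hM, zpow_sub₀ hz.ne', zpow_natCast, Nat.add_sub_cancel, pow_succ]
    field_simp
  have h3 := (hS.mul_right (z ^ i / ser f z)).of_nonneg_of_le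
    (fun l => mul_nonneg (win_nn L l).1 (cf_nonneg hf _ _)) h1
  refine ⟨h3, (h3.tsum_le_tsum h1 (hS.mul_right _)).trans (le_of_eq ?_)⟩
  rw [tsum_mul_right]
  ring

theorem posl_sT_nn (m : ℕ) (L : Set ℕ) {f : ℕ → ℝ} (hf : ∀ i, 0 ≤ f i) (i : ℤ) :
    0 ≤ sT m (ind ℝ L) f i :=
  tsum_nonneg fun l => mul_nonneg (win_nn L l).1 (cf_nonneg hf _ _)

theorem Pos.x0 {D : Dat} {p : Amb} (h : Pos D p) : p.t ≤ p.X 0 := by
  rw [h.eqs.x0]
  exact le_add_of_nonneg_right (mul_nonneg h.tpos.le (posl_sT_nn _ _ h.c₂.nn _))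

theorem Pos.posl_sumY {D : Dat} {p : Amb} (h : Pos D p) (i : ℤ) :
    Summable fun l => ind ℝ D.L₂ l * cf p.Y (D.m * l - 1) (l - i) :=
  ((sT_summable D.hm D.z₂ h.c₂.nn (h.eqs.y0 ▸ one_pos) h.c₂.pos h.c₂.sum h.a₂).choose_spec i).1

theorem Pos.posl_sumX {D : Dat} {p : Amb} (h : Pos D p) (i : ℤ) :
    Summable fun l => ind ℝ D.L₁ l * cf p.X (D.m * l - 1) (l - i) :=
  ((sT_summable D.hm D.z₁ h.c₁.nn (h.tpos.trans_le h.x0) h.c₁.pos h.c₁.sum h.a₁).choose_spec i).1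

theorem posl_le_sT {m : ℕ} {L : Set ℕ} {f : ℕ → ℝ} (hf : ∀ i, 0 ≤ f i) {i : ℤ}
    (hs : Summable fun l => ind ℝ L l * cf f (m * l - 1) (l - i)) {l : ℕ} (hl : l ∈ L) :
    cf f (m * l - 1) (l - i) ≤ sT m (ind ℝ L) f i := by
  have := hs.le_tsum l fun l _ => mul_nonneg (win_nn L l).1 (cf_nonneg hf _ _)
  rwa [ind, if_pos hl, one_mul] at this

theorem Pos.geX {D : Dat} {p : Amb} (h : Pos D p) {l : ℕ} (hl : l ∈ D.L₂) (i : ℕ) :
    p.t * cf p.Y (D.m * l - 1) (l - i) ≤ p.X i := by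
  refine (mul_le_mul_of_nonneg_left (posl_le_sT h.c₂.nn (h.posl_sumY i) hl) h.tpos.le).trans ?_
  rcases Nat.eq_zero_or_pos i with rfl | hi
  · rw [h.eqs.x0]
    exact le_add_of_nonneg_left h.tpos.le
  · exact (h.eqs.hx i hi).ge

theorem Pos.geY {D : Dat} {p : Amb} (h : Pos D p) {l : ℕ} (hl : l ∈ D.L₁) {i : ℕ} (hi : 1 ≤ i) :
    p.t * cf p.X (D.m * l - 1) (l - i) ≤ p.Y i :=
  (mul_le_mul_of_nonneg_left (posl_le_sT h.c₁.nn (h.posl_sumX i) hl) h.tpos.le).trans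
    (h.eqs.hy i hi).ge

theorem posl_prod {X : Type} {Q : X → Prop} {f : X → ℕ → ℝ} (s : Multiset ℕ)
    (h : ∀ j ∈ s, ∃ c > (0 : ℝ), ∀ p, Q p → c ≤ f p j) :
    ∃ c > (0 : ℝ), ∀ p, Q p → c ≤ (s.map (f p)).prod := by
  induction s using Multiset.induction_on with
  | empty => exact ⟨1, one_pos, fun p _ => by simp⟩
  | cons a s ih =>
    obtain ⟨c, hc, h1⟩ := h a (by simp)
    obtain ⟨c', hc', h2⟩ := ih fun j hj => h j (by simp [hj])
    refine ⟨c * c', mul_pos hc hc', fun p hp => ?_⟩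
    rw [Multiset.map_cons, Multiset.prod_cons]
    exact mul_le_mul (h1 p hp) (h2 p hp) hc'.le (hc.le.trans (h1 p hp))

theorem lowbd (D : Dat) {t₀ : ℝ} (h : 0 < t₀) :
    (∀ i, ∃ c > (0 : ℝ), ∀ p, Pos D p → t₀ ≤ p.t → c ≤ p.X i) ∧
    ∀ l ∈ D.L₁, ∀ i ≤ l, ∃ c > (0 : ℝ), ∀ p, Pos D p → t₀ ≤ p.t → c ≤ p.Y i := by
  refine supp D {i | ∃ c > (0 : ℝ), ∀ p, Pos D p → t₀ ≤ p.t → c ≤ p.X i}
    {i | ∃ c > (0 : ℝ), ∀ p, Pos D p → t₀ ≤ p.t → c ≤ p.Y i}
    ⟨t₀, h, fun p hp ht => ht.trans hp.x0⟩ ⟨1, one_pos, fun p hp _ => hp.eqs.y0.ge⟩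
    (fun l hl s hs hB hle => ?_) fun l hl s hs hA hlt => ?_
  · obtain ⟨c, hc, h1⟩ := posl_prod (Q := fun p => Pos D p ∧ t₀ ≤ p.t) (f := fun p => p.Y) s
      fun j hj => (hB j hj).imp fun c hc => ⟨hc.1, fun p hp => hc.2 p hp.1 hp.2⟩
    refine ⟨t₀ * c, mul_pos h hc, fun p hp ht => le_trans ?_ (hp.geX hl _)⟩
    rw [← hs, show (l : ℤ) - (l - s.sum : ℕ) = (s.sum : ℕ) by omega]
    exact mul_le_mul ht ((h1 p ⟨hp, ht⟩).trans (cf_ge_prod hp.c₂.nn s)) hc.le hp.tpos.le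
  · obtain ⟨c, hc, h1⟩ := posl_prod (Q := fun p => Pos D p ∧ t₀ ≤ p.t) (f := fun p => p.X) s
      fun j hj => (hA j hj).imp fun c hc => ⟨hc.1, fun p hp => hc.2 p hp.1 hp.2⟩
    refine ⟨t₀ * c, mul_pos h hc, fun p hp ht => le_trans ?_ (hp.geY hl (by omega))⟩
    rw [← hs, show (l : ℤ) - (l - s.sum : ℕ) = (s.sum : ℕ) by omega]
    exact mul_le_mul ht ((h1 p ⟨hp, ht⟩).trans (cf_ge_prod hp.c₁.nn s)) hc.le hp.tpos.le

theorem Pos.px {D : Dat} {p : Amb} (h : Pos D p) (i : ℕ) : 0 < p.X i := by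
  obtain ⟨c, hc, h1⟩ := (lowbd D h.tpos).1 i
  exact hc.trans_le (h1 p h le_rfl)

theorem Pos.py {D : Dat} {p : Amb} (h : Pos D p) {l : ℕ} (hl : l ∈ D.L₁) {i : ℕ} (hi : i ≤ l) :
    0 < p.Y i := by
  obtain ⟨c, hc, h1⟩ := (lowbd D h.tpos).2 l hl i hi
  exact hc.trans_le (h1 p h le_rfl)

theorem es {m l : ℕ} (hl : 2 ≤ m * l) {g : ℕ → ℝ} {r : ℝ} (hg : ∀ i, 0 ≤ g i) (hr : 0 < r)
    (hs : Summable fun i => flat m g i * r ^ i) (h : ser (flat m g) r ≤ 0) :
    g 0 * ser g r ^ (m * l - 2) ≤ ∑ i ∈ Finset.Icc 1 l,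
      ((m : ℝ) * i - 1) * (cf g (m * l - 1) (l - i) * r ^ ((l : ℤ) - i)) := by
  have hm : 1 ≤ m := Nat.pos_of_ne_zero fun h => by simp [h] at hl
  have hm' : (1 : ℝ) ≤ m := by exact_mod_cast hm
  have hG : Summable fun i => g i * r ^ i := by
    refine (summable_nat_add_iff 2).1 (((summable_nat_add_iff 2).2 hs).of_nonneg_of_le
      (fun i => mul_nonneg (hg _) (by positivity)) fun i => ?_)
    refine mul_le_mul_of_nonneg_right (le_mul_of_one_le_left (hg _) ?_) (by positivity)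
    push_cast
    nlinarith [(i.cast_nonneg : (0 : ℝ) ≤ i)]
  obtain ⟨M, hM⟩ : ∃ M, m * l = M + 2 := ⟨m * l - 2, by omega⟩
  have hM' : (m : ℝ) * l = M + 2 := by exact_mod_cast hM
  have h0 := (hg 0).trans (posl_ser_ge hg hr hG)
  have s1 := posl_pow hG M
  have s2 := (posl_mul (φ := PowerSeries.mk (flat m g))
    (by simpa only [PowerSeries.coeff_mk] using hs.hasSum) (posl_pow hG (M - 1))).mul_left (M : ℝ)
  simp only [← mul_assoc, posl_flat_pow] at s2
  have s3 := s1.sub s2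
  have nn : ∀ j : ℕ, 0 ≤ PowerSeries.coeff j (PowerSeries.mk g ^ M) * r ^ j := fun j =>
    mul_nonneg (posl_nat g M j ▸ cf_nonneg hg M j) (by positivity)
  have s4 := sum_le_hasSum (Finset.range l) (fun j hj => by
    have : (l : ℝ) ≤ j := by exact_mod_cast (by simpa using hj : l ≤ j)
    have := mul_nonneg (show (0 : ℝ) ≤ m * j - M - 1 by nlinarith) (nn j)
    linarith) s3.neg
  have s5 : (M : ℝ) * ∑' i, flat m g i * r ^ i * ser g r ^ (M - 1) ≤ 0 := by
    rw [tsum_mul_right]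
    exact mul_nonpos_of_nonneg_of_nonpos M.cast_nonneg
      (mul_nonpos_of_nonpos_of_nonneg h (pow_nonneg h0 _))
  have s6 : ser g r ^ M ≤ ∑ j ∈ Finset.range l,
      ((M : ℝ) + 1 - m * j) * (PowerSeries.coeff j (PowerSeries.mk g ^ M) * r ^ j) := by
    have : (M : ℝ) * (∑' i, flat m g i * r ^ i) * ser g r ^ (M - 1) ≤ 0 := by
      rw [mul_assoc, ← tsum_mul_right]; exact s5
    rw [Finset.sum_neg_distrib] at s4
    refine le_trans (by linarith) (le_of_eq (Finset.sum_congr rfl fun j _ => ?_) :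
      ∑ j ∈ Finset.range l, (PowerSeries.coeff j (PowerSeries.mk g ^ M) * r ^ j -
        ((m : ℝ) * j - M) * PowerSeries.coeff j (PowerSeries.mk g ^ M) * r ^ j) ≤ _)
    ring
  rw [hM, Nat.add_sub_cancel]
  refine (mul_le_mul_of_nonneg_left s6 (hg 0)).trans ?_
  rw [Finset.mul_sum]
  have e : ∑ i ∈ Finset.Icc 1 l, ((m : ℝ) * i - 1) * (cf g (M + 2 - 1) (l - i) * r ^ ((l : ℤ) - i))
      = ∑ j ∈ Finset.range l, ((M : ℝ) + 1 - m * j) * (cf g (M + 1) (0 + j : ℕ) * r ^ j) := by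
    refine Finset.sum_bij' (fun i _ => l - i) (fun j _ => l - j) (fun i hi => ?_) (fun j hj => ?_)
      (fun i hi => ?_) (fun j hj => ?_) fun i hi => ?_ <;>
      simp only [Finset.mem_Icc, Finset.mem_range] at *
    any_goals omega
    rw [show (l : ℤ) - i = (l - i : ℕ) by omega, zpow_natCast, zero_add]
    congr 1
    rw [Nat.cast_sub hi.2]
    linarith
  rw [e]
  refine Finset.sum_le_sum fun j hj => ?_
  have : (j : ℝ) + 1 ≤ l := by exact_mod_cast Finset.mem_range.1 hj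
  rw [mul_left_comm, ← mul_assoc (g 0), ← posl_nat]
  exact mul_le_mul_of_nonneg_left
    (mul_le_mul_of_nonneg_right (posl_ge hg M 0 j) (by positivity)) (by nlinarith)

theorem Crit.bound {m : ℕ} (hm : 0 < m) {f : ℕ → ℝ} {z : ℝ} (h : Crit m f z) (s : Finset ℕ)
    (hs : 0 ∉ s) : ∑ i ∈ s, ((m : ℝ) * i - 1) * f i * z ^ i ≤ f 0 := by
  have hm' : (1 : ℝ) ≤ m := by exact_mod_cast hm
  have h1 := sum_le_hasSum (insert 0 s) (fun i hi => by
    have : (1 : ℝ) ≤ i := by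
      exact_mod_cast Nat.pos_of_ne_zero fun e => hi (by simp [e])
    exact mul_nonneg (mul_nonneg (by nlinarith) (h.nn i)) (pow_pos h.pos i).le) h.crit
  rw [Finset.sum_insert hs] at h1
  simp only [flat] at h1
  simp only [Nat.cast_zero, mul_zero, zero_sub, pow_zero] at h1
  linarith

theorem Pos.b₂ {D : Dat} {p : Amb} (h : Pos D p) : 0 < p.B₂ D ∧ p.B₂ D < 1 := by
  have h1 : 0 < p.B₂ D := div_pos (pow_pos ((h.eqs.y0 ▸ one_pos : 0 < p.Y 0).trans_le
    (posl_ser_ge h.c₂.nn h.c₂.pos h.c₂.sum)) _) h.c₂.pos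
  exact ⟨h1, (adm_iff D.inf₂ h1.le).1 h.a₂⟩

theorem Pos.b₁ {D : Dat} {p : Amb} (h : Pos D p) :
    0 < p.B₁ D ∧ (D.L₁.Infinite → p.B₁ D < 1) := by
  have h1 : 0 < p.B₁ D := div_pos (pow_pos ((h.px 0).trans_le
    (posl_ser_ge h.c₁.nn h.c₁.pos h.c₁.sum)) _) h.c₁.pos
  exact ⟨h1, fun hi => (adm_iff hi h1.le).1 h.a₁⟩

theorem Pos.t_le {D : Dat} {p : Amb} (h : Pos D p) : p.t ≤ 1 := by
  obtain ⟨k, hk, hk2⟩ := D.two₁
  have k0 : 0 < k := Nat.pos_of_ne_zero fun e => D.z₁ (e ▸ hk)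
  have h1 := h.geY hk k0
  have h2 := cf_ge_prod h.c₁.nn (Multiset.replicate (D.m * k - 1) 0)
  simp only [Multiset.map_replicate, Multiset.prod_replicate, Multiset.card_replicate,
    Multiset.sum_replicate, smul_zero, Nat.cast_zero] at h2
  rw [sub_self] at h1
  have h3 := h.c₂.bound D.hm {k} (by simpa using k0.ne)
  rw [Finset.sum_singleton, h.eqs.y0] at h3
  have h4 : 1 ≤ p.z₂ := ((one_le_pow₀ (h.eqs.y0.ge.trans
    (posl_ser_ge h.c₂.nn h.c₂.pos h.c₂.sum))).trans ((div_le_one h.c₂.pos).1 h.b₂.2.le))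
  have h5 : (2 : ℝ) ≤ D.m * k := by exact_mod_cast hk2
  have h6 : p.Y k ≤ 1 := le_trans ((le_mul_of_one_le_left (h.c₂.nn k) (by linarith)).trans
    (le_mul_of_one_le_right (mul_nonneg (by linarith) (h.c₂.nn k)) (one_le_pow₀ h4))) h3
  by_contra hc
  have h7 := one_le_pow₀ (n := D.m * k - 1) ((not_le.1 hc).le.trans h.x0)
  nlinarith [not_le.1 hc]

theorem posl_fub {m : ℕ} {L : Set ℕ} (hm : 0 < m) (hL : 0 ∉ L) {f : ℕ → ℝ} (hf : ∀ i, 0 ≤ f i)
    (hs : ∀ i : ℤ, Summable fun l => ind ℝ L l * cf f (m * l - 1) (l - i)) :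
    HasSum (fun i : ℕ => flat m f (i + 1) * sT m (ind ℝ L) f (i + 1 : ℕ))
      (f 0 * sT m (ind ℝ L) f 0) := by
  have hm' : (1 : ℝ) ≤ m := by exact_mod_cast hm
  let u : ℕ × ℕ → ℝ := fun q =>
    flat m f (q.2 + 1) * (ind ℝ L q.1 * cf f (m * q.1 - 1) (q.1 - (q.2 + 1 : ℕ)))
  have nn : ∀ q, 0 ≤ u q := fun q => mul_nonneg (mul_nonneg (by
    push_cast; nlinarith [(q.2.cast_nonneg : (0 : ℝ) ≤ q.2)]) (hf _))
    (mul_nonneg (win_nn L _).1 (cf_nonneg hf _ _))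
  have h1 : ∀ l, HasSum (fun i => u (l, i)) (f 0 * (ind ℝ L l * cf f (m * l - 1) (l - 0))) := by
    intro l
    rcases Nat.eq_zero_or_pos l with rfl | hl
    · simp [u, ind, hL]
    have l0 : (l : ℝ) ≠ 0 := by positivity
    have h2 := (hasSum_nat_add_iff' 1).2 ((cf_flat hm hl f 0).mul_left (ind ℝ L l / l))
    refine posl_has h2 ?_ ?_
    · funext i
      simp only [u, zero_add]
      field_simp
    · simp [flat]
      field_simp
  have h3 := (hs 0).hasSum.mul_left (f 0)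
  have h4 : Summable u := (summable_prod_of_nonneg nn).2 ⟨fun l => (h1 l).summable, by
    simpa only [(h1 _).tsum_eq] using h3.summable⟩
  have h5 := (h4.hasSum.prod_fiberwise h1).unique h3
  have h6 := (Equiv.prodComm ℕ ℕ).hasSum_iff.2 h4.hasSum
  rw [h5] at h6
  exact h6.prod_fiberwise fun i => (hs (i + 1 : ℕ)).hasSum.mul_left _

theorem Pos.noether {D : Dat} {p : Amb} (h : Pos D p) :
    p.X 0 = p.t + p.t * p.X 0 * sT D.m (ind ℝ D.L₁) p.X 0 := by
  have h1 := (posl_fub D.hm D.z₁ h.c₁.nn h.posl_sumX).mul_left p.t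
  have h2 := (posl_fub D.hm D.z₂ h.c₂.nn h.posl_sumY).mul_left p.t
  have h3 := h1.unique (by
    convert h2 using 2 with i
    rw [mul_left_comm, mul_left_comm p.t, ← h.eqs.hx _ (by omega), ← h.eqs.hy _ (by omega), flat,
      flat]
    ring)
  rw [mul_assoc, h3, h.eqs.y0, one_mul]
  exact h.eqs.x0

theorem Pos.eqsC {D : Dat} {p : Amb} (h : Eqs D p.t p.X p.Y) : Eqs D (p.t : ℂ) p.cX p.cY := by
  refine ⟨?_, ?_, fun i hi => ?_, fun i hi => ?_⟩
  · simp [h.y0]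
  · rw [sT_ofReal]; exact_mod_cast h.x0
  · rw [sT_ofReal]; exact_mod_cast h.hx i hi
  · rw [sT_ofReal]; exact_mod_cast h.hy i hi

theorem eqs_real {D : Dat} {p : Amb} (h : Eqs D (p.t : ℂ) p.cX p.cY) : Eqs D p.t p.X p.Y := by
  obtain ⟨h1, h2, h3, h4⟩ := h
  simp only [sT_ofReal] at h2 h3 h4
  exact ⟨Complex.ofReal_eq_one.1 h1, by exact_mod_cast h2, fun i hi => by exact_mod_cast h3 i hi,
    fun i hi => by exact_mod_cast h4 i hi⟩

end Pool.Agent.MP_098ecc_co.H97
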