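import Pool.Agent.MP_098ecc_co.H97.PoslA

set_option autoImplicit false

namespace Pool.Agent.MP_098ecc_co.H97

open Metric Filter Topology Set Function
open scoped BoundedContinuousFunction

theorem poslB_norm {f : ℕ → ℝ} (hf : ∀ i, 0 ≤ f i) (i : ℕ) : ‖cx f i‖ = f i := by
  simp [abs_of_nonneg (hf i)]

theorem poslB_flat (m : ℕ) (f : ℕ → ℝ) : flat m (cx f) = cx (flat m f) := by
  funext i
  simp [flat, cx]

theorem poslB_sum {f : ℕ → ℝ} (hf : ∀ i, 0 ≤ f i) {r s : ℝ} (hs : Summable fun i => f i * r ^ i)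
    (h0 : 0 ≤ s) (h : s ≤ r) : Summable fun i => f i * s ^ i :=
  Summable.of_nonneg_of_le (fun i => mul_nonneg (hf i) (pow_nonneg h0 i))
    (fun i => mul_le_mul_of_nonneg_left (pow_le_pow_left₀ h0 h i) (hf i)) hs

theorem poslB_abs {g : ℕ → ℝ} {r : ℝ} (hs : Summable fun i => g i * r ^ i) {ζ : ℂ}
    (h : ‖ζ‖ ≤ r) : Summable fun i => ‖cx g i * ζ ^ i‖ := by
  refine Summable.of_nonneg_of_le (fun i => norm_nonneg _) (fun i => ?_) hs.abs
  refine (laur_term_le (cx g) i h).trans (le_of_eq ?_)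
  rw [abs_mul, abs_pow, abs_of_nonneg ((norm_nonneg _).trans h)]
  simp

theorem poslB_rsum {g : ℕ → ℝ} {R r : ℝ} (hb : Bnd R (cx g)) (h0 : 0 ≤ r) (h : r < R) :
    Summable fun i => g i * r ^ i := by
  refine Summable.of_norm ((hb.laur_sum h0 h).congr fun i => ?_)
  rw [norm_mul, norm_pow, Real.norm_of_nonneg h0]
  simp

theorem poslB_fsum {f : ℕ → ℝ} {R r : ℝ} (m : ℕ) (hb : Bnd R (cx f)) (h0 : 0 ≤ r) (h : r < R) :
    Summable fun i => flat m f i * r ^ i := by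
  obtain ⟨R', h1, h2⟩ := exists_between h
  exact poslB_rsum (R := R') (by rw [← poslB_flat]; exact hb.flat m (h0.trans_lt h1) h2) h0 h1

theorem poslB_ge {f : ℕ → ℝ} (hf : ∀ i, 0 ≤ f i) {r : ℝ} (hr : 0 ≤ r)
    (hs : Summable fun i => f i * r ^ i) : f 0 ≤ ser f r := by
  simpa [ser] using hs.le_tsum 0 fun j _ => mul_nonneg (hf j) (pow_nonneg hr j)

theorem poslB_bnd {f : ℕ → ℝ} (hf : ∀ i, 0 ≤ f i) {r : ℝ} (hr : 0 < r)
    (hs : Summable fun i => f i * r ^ i) : Bnd r (cx f) :=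
  laur_bnd_of_sum hr (hs.congr fun i => by rw [poslB_norm hf])

theorem norm_ser_le {f : ℕ → ℝ} (hf : ∀ i, 0 ≤ f i) {r : ℝ} (hs : Summable fun i => f i * r ^ i)
    {ζ : ℂ} (h : ‖ζ‖ ≤ r) : ‖ser (cx f) ζ‖ ≤ ser f ‖ζ‖ ∧ ser f ‖ζ‖ ≤ ser f r := by
  have h1 := poslB_sum hf hs (norm_nonneg ζ) h
  refine ⟨tsum_of_norm_bounded h1.hasSum fun i => ?_, h1.tsum_le_tsum (fun i => ?_) hs⟩
  · rw [norm_mul, norm_pow, poslB_norm hf]
  · exact mul_le_mul_of_nonneg_left (pow_le_pow_left₀ (norm_nonneg _) h i) (hf i)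

theorem poslB_term {a : ℕ → ℂ} {b : ℕ → ℝ} {S : ℂ} {T : ℝ} (ha : HasSum a S) (hb : HasSum b T)
    (h : ∀ i, (a i).re ≤ b i) (he : S.re = T) (i : ℕ) : (a i).re = b i := by
  by_contra hne
  exact (hasSum_lt (f := fun i => (a i).re) h (lt_of_le_of_ne (h i) hne)
    (Complex.hasSum_re ha) hb).ne he

theorem poslB_re {w : ℂ} {r : ℝ} (h : ‖w‖ = r) (h' : w.re = r) : w = r := by
  rw [← h]
  exact Complex.eq_coe_norm_of_nonneg (Complex.re_eq_norm.1 (h'.trans h.symm))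

theorem poslB_aper {S : Set ℕ} (ha : Aper S) {r : ℝ} (hr : 0 < r) {ζ : ℂ}
    (h : ∀ i ∈ S, ζ ^ i = (r : ℂ) ^ i) : ζ = r := by
  have hr' : (r : ℂ) ≠ 0 := by exact_mod_cast hr.ne'
  have h1 : orderOf (ζ / r) = 1 := ha _ fun i hi => orderOf_dvd_of_pow_eq_one (by
    rw [div_pow, h i hi, div_self (pow_ne_zero _ hr')])
  rwa [orderOf_eq_one_iff, div_eq_one_iff_eq hr'] at h1

theorem aper {f : ℕ → ℝ} (hf : ∀ i, 0 ≤ f i) (h0 : 0 < f 0) (ha : Aper {i | 0 < f i}) {r : ℝ}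
    (hs : Summable fun i => f i * r ^ i) {ζ : ℂ} (h : ‖ζ‖ = r)
    (he : ‖ser (cx f) ζ‖ = ser f r) : ζ = r := by
  have hr : 0 ≤ r := h ▸ norm_nonneg ζ
  rcases hr.eq_or_lt with rfl | hr'
  · simpa using h
  have hS : 0 < ‖ser (cx f) ζ‖ := he ▸ h0.trans_le (poslB_ge hf hr hs)
  set S := ser (cx f) ζ with hSd
  set u : ℂ := (starRingEnd ℂ) S / ‖S‖ with hu
  have hS' : ((‖S‖ : ℝ) : ℂ) ≠ 0 := by exact_mod_cast hS.ne'
  have hu1 : ‖u‖ = 1 := by simp [hu, hS.ne']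
  have huS : u * S = (‖S‖ : ℝ) := by
    rw [hu, div_mul_eq_mul_div, Complex.conj_mul', sq, mul_div_assoc, div_self hS', mul_one]
  have hn : ∀ i, ‖u * ζ ^ i‖ = r ^ i := fun i => by rw [norm_mul, hu1, one_mul, norm_pow, h]
  have hre : ∀ i, (u * (cx f i * ζ ^ i)).re = f i * (u * ζ ^ i).re := fun i => by
    rw [mul_left_comm, Complex.re_ofReal_mul]
  have key := poslB_term (((poslB_abs hs h.le).of_norm.hasSum).mul_left u) hs.hasSum
    (fun i => by
      rw [hre]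
      exact mul_le_mul_of_nonneg_left ((Complex.re_le_norm _).trans (hn i).le) (hf i))
    (by
      change (u * S).re = ser f r
      rw [huS, Complex.ofReal_re, he])
  have k2 : ∀ i, 0 < f i → u * ζ ^ i = (r : ℂ) ^ i := fun i hi => by
    have := key i
    rw [hre] at this
    rw [← Complex.ofReal_pow]
    exact poslB_re (hn i) (mul_left_cancel₀ hi.ne' this)
  have k3 : u = 1 := by simpa using k2 0 h0
  exact poslB_aper ha hr' fun i hi => by simpa [k3] using k2 i hi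

theorem poslB_fnn {m : ℕ} (hm : 0 < m) {f : ℕ → ℝ} (hf : ∀ i, 0 ≤ f i) {i : ℕ} (hi : i ≠ 0) :
    0 ≤ flat m f i := by
  refine mul_nonneg (sub_nonneg.2 ?_) (hf i)
  exact_mod_cast Nat.one_le_iff_ne_zero.2 (Nat.mul_ne_zero hm.ne' hi)

theorem poslB_f0 (m : ℕ) (f : ℕ → ℝ) : flat m f 0 = -f 0 := by simp [flat]

theorem Crit.flat_neg {m : ℕ} (hm : 0 < m) {f : ℕ → ℝ} {z : ℝ} (h : Crit m f z) (h0 : 0 < f 0)
    {r : ℝ} (hr : 0 ≤ r) (hz : r < z) :
    (Summable fun i => flat m f i * r ^ i) ∧ ser (flat m f) r < 0 := by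
  have hzp := h.pos
  have hs : Summable fun i => flat m f i * r ^ i := by
    refine Summable.of_norm_bounded h.crit.summable.abs fun i => ?_
    rw [Real.norm_eq_abs, abs_mul, abs_mul, abs_pow, abs_pow, abs_of_nonneg hr, abs_of_pos hzp]
    exact mul_le_mul_of_nonneg_left (pow_le_pow_left₀ hr hz.le i) (abs_nonneg _)
  refine ⟨hs, ?_⟩
  have h1 : z * ser (flat m f) r < r * 0 := by
    refine hasSum_lt (i := 0) (fun i => ?_) ?_ (hs.hasSum.mul_left z) (h.crit.mul_left r)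
    · cases i with
      | zero => simp only [poslB_f0, pow_zero]; nlinarith
      | succ i =>
        have h2 := poslB_fnn hm h.nn (Nat.succ_ne_zero i)
        have h3 := mul_le_mul_of_nonneg_left (pow_le_pow_left₀ hr hz.le i)
          (mul_nonneg h2 (mul_nonneg hr hzp.le))
        simp only [pow_succ]
        nlinarith
    · simp only [poslB_f0, pow_zero]; nlinarith
  rw [mul_zero] at h1
  exact neg_of_mul_neg_right h1 hzp.le

theorem Crit.flat_pos {m : ℕ} (hm : 0 < m) {f : ℕ → ℝ} {z : ℝ} (h : Crit m f z) (h0 : 0 < f 0)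
    {r : ℝ} (hz : z < r) (hs : Summable fun i => flat m f i * r ^ i) : 0 < ser (flat m f) r := by
  have hzp := h.pos
  have h1 : r * 0 < z * ser (flat m f) r := by
    refine hasSum_lt (i := 0) (fun i => ?_) ?_ (h.crit.mul_left r) (hs.hasSum.mul_left z)
    · cases i with
      | zero => simp only [poslB_f0, pow_zero]; nlinarith
      | succ i =>
        have h2 := poslB_fnn hm h.nn (Nat.succ_ne_zero i)
        have h3 := mul_le_mul_of_nonneg_left (pow_le_pow_left₀ hzp.le hz.le i)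
          (mul_nonneg h2 (mul_nonneg (hzp.trans hz).le hzp.le))
        simp only [pow_succ]
        nlinarith
    · simp only [poslB_f0, pow_zero]; nlinarith
  rw [mul_zero] at h1
  exact (mul_pos_iff_of_pos_left hzp).1 h1

theorem Crit.unique {m : ℕ} (hm : 0 < m) {f : ℕ → ℝ} {z z' : ℝ} (h : Crit m f z)
    (h' : Crit m f z') (h0 : 0 < f 0) : z = z' := by
  rcases lt_trichotomy z z' with h1 | h1 | h1
  · exact absurd h.crit.tsum_eq (h'.flat_neg hm h0 h.pos.le h1).2.ne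
  · exact h1
  · exact absurd h'.crit.tsum_eq (h.flat_neg hm h0 h'.pos.le h1).2.ne

theorem poslB_deriv {m : ℕ} (hm : 0 < m) {f : ℕ → ℝ} {R r : ℝ} (hb : Bnd R (cx f)) (h0 : 0 < r)
    (h : r < R) : HasDerivAt (Bv m f) (ser f r ^ (m - 1) * ser (flat m f) r / r ^ 2) r := by
  have hr : ‖(r : ℂ)‖ < R := by rwa [Complex.norm_real, Real.norm_of_nonneg h0.le]
  have h1 := (hb.diff.differentiableAt
    (isOpen_ball.mem_nhds (mem_ball_zero_iff.2 hr))).hasDerivAt.real_of_complex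
  have h2 : (fun x : ℝ => (ser (cx f) x).re) = ser f := by
    funext x
    rw [ser_ofReal, Complex.ofReal_re]
  have h3 := congrArg Complex.re (hb.ser_flat m hr)
  rw [poslB_flat, ser_ofReal, ser_ofReal, Complex.ofReal_re, Complex.sub_re, Complex.ofReal_re,
    ← Complex.ofReal_natCast, ← Complex.ofReal_mul, Complex.re_ofReal_mul] at h3
  rw [h2] at h1
  have h4 := (h1.pow m).div (hasDerivAt_id r) h0.ne'
  refine HasDerivAt.congr_deriv h4 ?_
  obtain ⟨k, rfl⟩ := Nat.exists_eq_succ_of_ne_zero hm.ne'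
  rw [h3]
  simp only [id, Pi.pow_apply, Nat.succ_sub_one, pow_succ]
  ring

theorem poslB_cont {f : ℕ → ℝ} (hf : ∀ i, 0 ≤ f i) {r : ℝ} (hs : Summable fun i => f i * r ^ i)
    (m : ℕ) : ContinuousOn (Bv m f) (Ioc 0 r) := by
  have h1 : ContinuousOn (ser f) (Ioc 0 r) := by
    refine continuousOn_tsum (fun i => by fun_prop) hs fun i x hx => ?_
    rw [Real.norm_of_nonneg (mul_nonneg (hf i) (pow_nonneg hx.1.le i))]
    exact mul_le_mul_of_nonneg_left (pow_le_pow_left₀ hx.1.le hx.2 i) (hf i)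
  exact (h1.pow m).div continuousOn_id fun x hx => hx.1.ne'

theorem Crit.Bv_anti {m : ℕ} (hm : 0 < m) {f : ℕ → ℝ} {z : ℝ} (h : Crit m f z) (h0 : 0 < f 0) :
    StrictAntiOn (Bv m f) (Ioc 0 z) ∧ ContinuousOn (Bv m f) (Ioc 0 z) ∧
      Tendsto (Bv m f) (𝓝[>] 0) atTop := by
  have hc := poslB_cont h.nn h.sum m
  have hge : ∀ r, 0 ≤ r → r ≤ z → f 0 ≤ ser f r := fun r h1 h2 =>
    poslB_ge h.nn h1 (poslB_sum h.nn h.sum h1 h2)
  refine ⟨strictAntiOn_of_deriv_neg (convex_Ioc _ _) hc fun r hr => ?_, hc, ?_⟩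
  · rw [interior_Ioc] at hr
    rw [(poslB_deriv hm (poslB_bnd h.nn h.pos h.sum) hr.1 hr.2).deriv]
    exact div_neg_of_neg_of_pos (mul_neg_of_pos_of_neg (pow_pos (h0.trans_le
      (hge r hr.1.le hr.2.le)) _) (h.flat_neg hm h0 hr.1.le hr.2).2) (pow_pos hr.1 2)
  · refine tendsto_atTop_mono' _ ?_ (tendsto_inv_nhdsGT_zero.const_mul_atTop (pow_pos h0 m))
    filter_upwards [Ioo_mem_nhdsGT h.pos] with r hr
    rw [Bv, div_eq_mul_inv]
    exact mul_le_mul_of_nonneg_right (pow_le_pow_left₀ h0.le (hge r hr.1.le hr.2.le) m)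
      (inv_nonneg.2 hr.1.le)

theorem Crit.Bv_mono {m : ℕ} (hm : 0 < m) {f : ℕ → ℝ} {z R : ℝ} (h : Crit m f z) (h0 : 0 < f 0)
    (hb : Bnd R (cx f)) : StrictMonoOn (Bv m f) (Ico z R) ∧ ContinuousOn (Bv m f) (Ioo 0 R) := by
  have hc : ContinuousOn (Bv m f) (Ioo 0 R) := fun r hr =>
    (poslB_deriv hm hb hr.1 hr.2).continuousAt.continuousWithinAt
  refine ⟨strictMonoOn_of_deriv_pos (convex_Ico _ _)
    (hc.mono fun r hr => ⟨h.pos.trans_le hr.1, hr.2⟩) fun r hr => ?_, hc⟩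
  rw [interior_Ico] at hr
  have hr0 := h.pos.trans hr.1
  rw [(poslB_deriv hm hb hr0 hr.2).deriv]
  exact div_pos (mul_pos (pow_pos (h0.trans_le (poslB_ge h.nn hr0.le
    (poslB_rsum hb hr0.le hr.2))) _) (h.flat_pos hm h0 hr.1 (poslB_fsum m hb hr0.le hr.2)))
    (pow_pos hr0 2)

/-- a sign change of the critical equation gives a critical point -/
theorem crit_of_sign {m : ℕ} (hm : 0 < m) {f : ℕ → ℝ} (hf : ∀ i, 0 ≤ f i) {R r r' : ℝ}
    (hb : Bnd R (cx f)) (h0 : 0 < r) (h1 : r ≤ r') (h2 : r' < R) (hn : ser (flat m f) r ≤ 0)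
    (hp : 0 ≤ ser (flat m f) r') : ∃ z ∈ Icc r r', Crit m f z := by
  have _ := hm
  have hc : ContinuousOn (ser (flat m f)) (Icc r r') := by
    refine continuousOn_tsum (fun i => by fun_prop)
      (poslB_fsum m hb (h0.le.trans h1) h2).abs fun i x hx => ?_
    have hx0 := h0.le.trans hx.1
    rw [Real.norm_eq_abs, abs_mul, abs_mul, abs_pow, abs_pow, abs_of_nonneg hx0,
      abs_of_nonneg (h0.le.trans h1)]
    exact mul_le_mul_of_nonneg_left (pow_le_pow_left₀ hx0 hx.2 i) (abs_nonneg _)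
  obtain ⟨z, hz, hz0⟩ := intermediate_value_Icc h1 hc ⟨hn, hp⟩
  have hz1 := h0.trans_le hz.1
  refine ⟨z, hz, hz1, hf, poslB_rsum hb hz1.le (hz.2.trans_lt h2), ?_⟩
  rw [← hz0]
  exact (poslB_fsum m hb hz1.le (hz.2.trans_lt h2)).hasSum

theorem Crit.deriv_pos {m : ℕ} (hm : 0 < m) {f : ℕ → ℝ} {z R : ℝ} (h : Crit m f z) (h0 : 0 < f 0)
    (hb : Bnd R (cx f)) (hR : z < R) :
    ∃ r : ℝ, 0 < r ∧ deriv (ser (flat m (cx f))) z = r := by
  obtain ⟨R', h1, h2⟩ := exists_between hR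
  have hzp := h.pos
  have hb' : Bnd R' (cx (flat m f)) := by rw [← poslB_flat]; exact hb.flat m (hzp.trans h1) h2
  have hz : ‖(z : ℂ)‖ < R' := by rwa [Complex.norm_real, Real.norm_of_nonneg hzp.le]
  have h3 := hb'.ser_flat 1 hz
  have h4 : ser (flat m f) z = 0 := h.crit.tsum_eq
  rw [poslB_flat, ser_ofReal, ser_ofReal, h4] at h3
  have h5 : 0 < ser (flat 1 (flat m f)) z := by
    refine (poslB_fsum 1 hb' hzp.le h1).tsum_pos (fun i => ?_) 0 (by simpa [flat] using h0)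
    refine mul_nonneg ?_ (pow_nonneg hzp.le i)
    rcases eq_or_ne i 0 with rfl | hi
    · simpa [flat] using h0.le
    · refine mul_nonneg (sub_nonneg.2 ?_) (poslB_fnn hm h.nn hi)
      exact_mod_cast Nat.one_le_iff_ne_zero.2 (Nat.mul_ne_zero one_ne_zero hi)
  have hz' : (z : ℂ) ≠ 0 := by exact_mod_cast hzp.ne'
  refine ⟨ser (flat 1 (flat m f)) z / z, div_pos h5 hzp, ?_⟩
  rw [poslB_flat, Complex.ofReal_div, h3]
  field_simp
  simp

theorem poslB_re_le {m : ℕ} (hm : 0 < m) {f : ℕ → ℝ} (hf : ∀ i, 0 ≤ f i) (ζ : ℂ) (i : ℕ) :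
    (cx (flat m f) i * ζ ^ i).re ≤ flat m f i * ‖ζ‖ ^ i := by
  rw [Complex.re_ofReal_mul]
  rcases eq_or_ne i 0 with rfl | hi
  · simp
  · exact mul_le_mul_of_nonneg_left ((Complex.re_le_norm _).trans (norm_pow _ _).le)
      (poslB_fnn hm hf hi)

theorem poslB_pow (a b : ℂ) {s : ℝ} (ha : ‖a‖ ≤ s) (hb : ‖b‖ ≤ s) (N : ℕ) :
    ‖a ^ N - b ^ N‖ * s ≤ ‖a - b‖ * (N * s ^ N) := by
  have hs : 0 ≤ s := (norm_nonneg _).trans ha
  induction N with
  | zero => simp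
  | succ N ih =>
    have h1 : a ^ (N + 1) - b ^ (N + 1) = a * (a ^ N - b ^ N) + (a - b) * b ^ N := by ring
    have h2 : ‖a ^ (N + 1) - b ^ (N + 1)‖ ≤ s * ‖a ^ N - b ^ N‖ + ‖a - b‖ * s ^ N := by
      rw [h1]
      refine (norm_add_le _ _).trans ?_
      rw [norm_mul, norm_mul, norm_pow]
      gcongr
    have h3 := mul_le_mul_of_nonneg_right h2 hs
    have h4 := mul_le_mul_of_nonneg_right ih hs
    push_cast
    rw [pow_succ s N]
    nlinarith

/-- univalence inside the critical circle -/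
theorem uni {m : ℕ} (hm : 0 < m) {f : ℕ → ℝ} {z : ℝ} (h : Crit m f z) (h0 : 0 < f 0) :
    (∀ a b : ℂ, a ≠ 0 → b ≠ 0 → ‖a‖ ^ m < z → ‖b‖ ^ m ≤ z → yw m (cx f) a = yw m (cx f) b →
      a = b) ∧ ∀ ζ : ℂ, ‖ζ‖ < z → ser (flat m (cx f)) ζ ≠ 0 := by
  have hzp := h.pos
  constructor
  · intro a b ha hb haz hbz he
    by_contra hne
    obtain ⟨s, hs0, hs⟩ : ∃ s : ℝ, 0 ≤ s ∧ s ^ m = z :=
      ⟨z ^ ((m : ℝ)⁻¹), by positivity, Real.rpow_inv_natCast_pow hzp.le hm.ne'⟩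
    have has : ‖a‖ < s := lt_of_pow_lt_pow_left₀ m hs0 (hs ▸ haz)
    have hbs : ‖b‖ ≤ s := le_of_pow_le_pow_left₀ hm.ne' hs0 (hs ▸ hbz)
    have hA := (poslB_abs h.sum (ζ := a ^ m) (by rw [norm_pow]; exact haz.le)).of_norm.hasSum
    have hB := (poslB_abs h.sum (ζ := b ^ m) (by rw [norm_pow]; exact hbz)).of_norm.hasSum
    have h1 := (hA.mul_left b).sub (hB.mul_left a)
    have h2 : b * ser (cx f) (a ^ m) - a * ser (cx f) (b ^ m) = 0 := by
      rw [yw, yw, div_eq_div_iff ha hb] at he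
      linear_combination he
    change HasSum _ (b * ser (cx f) (a ^ m) - a * ser (cx f) (b ^ m)) at h1
    rw [h2] at h1
    have h3 := (hasSum_nat_add_iff' 1).2 h1
    have h4 := (hasSum_nat_add_iff' 1).2 h.crit
    have h5 := h3.norm_le_of_bounded (h4.mul_left (‖a‖ / s * ‖a - b‖)) fun i => by
      obtain ⟨N, hN⟩ := Nat.exists_eq_succ_of_ne_zero (Nat.mul_ne_zero hm.ne' (Nat.succ_ne_zero i))
      have hN' : (m : ℝ) * ((i + 1 : ℕ) : ℝ) - 1 = N := by
        rw [← Nat.cast_mul, show m * (i + 1) = N + 1 from hN]; simp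
      have hs' : 0 < s := (norm_nonneg _).trans_lt has
      rw [← pow_mul, ← pow_mul, flat, hN', ← hs, ← pow_mul, show m * (i + 1) = N + 1 from hN]
      rw [show b * (cx f (i + 1) * a ^ (N + 1)) - a * (cx f (i + 1) * b ^ (N + 1)) =
        cx f (i + 1) * (a * (b * (a ^ N - b ^ N))) by ring, norm_mul, norm_mul, norm_mul,
        poslB_norm h.nn]
      have h6 := (mul_le_mul_of_nonneg_right hbs (norm_nonneg (a ^ N - b ^ N))).trans
        ((mul_comm _ _).le.trans (poslB_pow a b has.le hbs N))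
      refine (mul_le_mul_of_nonneg_left (mul_le_mul_of_nonneg_left h6 (norm_nonneg a))
        (h.nn (i + 1))).trans (le_of_eq ?_)
      rw [pow_succ]
      field_simp
    have h7 : ‖a‖ / s < 1 := (div_lt_one ((norm_nonneg _).trans_lt has)).2 has
    have h8 : 0 < ‖a - b‖ * f 0 := mul_pos (norm_pos_iff.2 (sub_ne_zero.2 hne)) h0
    simp only [Finset.range_one, Finset.sum_singleton, pow_zero, mul_one, zero_sub, poslB_f0,
      neg_neg, norm_neg] at h5
    rw [← sub_mul, norm_mul, norm_sub_rev, poslB_norm h.nn] at h5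
    nlinarith
  · intro ζ hζ he
    obtain ⟨h1, h2⟩ := h.flat_neg hm h0 (norm_nonneg ζ) hζ
    rw [poslB_flat] at he
    have h3 := hasSum_le (poslB_re_le hm h.nn ζ)
      (Complex.hasSum_re (poslB_abs h1 le_rfl).of_norm.hasSum) h1.hasSum
    change (ser (cx (flat m f)) ζ).re ≤ ser (flat m f) ‖ζ‖ at h3
    rw [he, Complex.zero_re] at h3
    exact absurd h2 h3.not_gt

end Pool.Agent.MP_098ecc_co.H97
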