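import Pool.Agent.MP_098ecc_co.H97.Defs3
import Pool.Agent.MP_098ecc_co.H97.Disc

set_option autoImplicit false

namespace Pool.Agent.MP_098ecc_co.H97

open Metric Filter Topology Set Function
open scoped BoundedContinuousFunction

theorem prim_ball {E : Set ℂ} (hE : E.Countable) (c : ℂ) {r : ℝ} (hr : 0 < r) :
    IsPreconnected (ball c r \ E) := by
  let e : OpenPartialHomeomorph ℂ ℂ := OpenPartialHomeomorph.univBall c r
  have hs : e.source = univ := OpenPartialHomeomorph.univBall_source c r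
  have ht : e.target = ball c r := OpenPartialHomeomorph.univBall_target c hr
  have hinj : Injective e := by
    rw [← injOn_univ, ← hs]; exact e.injOn
  have hc : (e ⁻¹' E).Countable := hE.preimage_of_injOn hinj.injOn
  have h1 := (hc.isConnected_compl_of_one_lt_rank (by simp)).isPreconnected
  have h2 : e '' (e ⁻¹' E)ᶜ = ball c r \ E := by
    ext z
    constructor
    · rintro ⟨u, hu, rfl⟩
      exact ⟨ht ▸ e.map_source (by simp [hs]), hu⟩
    · rintro ⟨hz, hz'⟩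
      have hz2 : z ∈ e.target := ht ▸ hz
      refine ⟨e.symm z, ?_, e.right_inv hz2⟩
      simp only [mem_compl_iff, mem_preimage, e.right_inv hz2]
      exact hz'
  rw [← h2]
  exact h1.image _ (e.continuousOn.mono (by simp [hs]))

theorem prim_open {U E : Set ℂ} (hU : IsOpen U) (hc : IsPreconnected U) (hE : E.Countable) :
    IsPreconnected (U \ E) := by
  have hd : Dense Eᶜ := hE.dense_compl ℂ
  rw [isPreconnected_iff_subset_of_disjoint]
  intro P Q hP hQ hcov hdis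
  let f : Set ℂ → Set ℂ := fun R => {z | ∀ᶠ u in 𝓝 z, u ∈ U ∧ (u ∉ E → u ∈ R)}
  have fo : ∀ R, IsOpen (f R) := fun R => isOpen_setOf_eventually_nhds
  have h1 : U ⊆ f P ∪ f Q := by
    intro z hz
    obtain ⟨r, hr, hb⟩ := Metric.isOpen_iff.1 hU z hz
    have hsub : ball z r \ E ⊆ U \ E := diff_subset_diff_left hb
    have := (isPreconnected_iff_subset_of_disjoint.1 (prim_ball hE z hr)) P Q hP hQ
      (hsub.trans hcov) (by
        rw [← subset_empty_iff, ← hdis]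
        exact inter_subset_inter_left _ hsub)
    rcases this with h | h
    · left
      filter_upwards [ball_mem_nhds z hr] with u hu using ⟨hb hu, fun h' => h ⟨hu, h'⟩⟩
    · right
      filter_upwards [ball_mem_nhds z hr] with u hu using ⟨hb hu, fun h' => h ⟨hu, h'⟩⟩
  have h2 : U ∩ (f P ∩ f Q) = ∅ := by
    rw [← subset_empty_iff, ← hdis]
    rintro z ⟨-, hp, hq⟩
    exfalso
    obtain ⟨u, hu, huE⟩ := hd.inter_nhds_nonempty (hp.and hq)
    have : u ∈ (U \ E) ∩ (P ∩ Q) := ⟨⟨huE.1.1, hu⟩, huE.1.2 hu, huE.2.2 hu⟩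
    rw [hdis] at this
    exact this
  rcases isPreconnected_iff_subset_of_disjoint.1 hc _ _ (fo P) (fo Q) h1 h2 with h | h
  · exact Or.inl fun z hz => (h hz.1).self_of_nhds.2 hz.2
  · exact Or.inr fun z hz => (h hz.1).self_of_nhds.2 hz.2

theorem prim_ann_open (r₁ r₂ : ℝ) : IsOpen (Ann r₁ r₂) :=
  (isOpen_lt continuous_const continuous_norm).inter (isOpen_lt continuous_norm continuous_const)

theorem ann_conn {r₁ r₂ : ℝ} (h0 : 0 ≤ r₁) {E : Set ℂ} (hE : E.Countable) :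
    IsPreconnected (Ann r₁ r₂ \ E) := by
  refine prim_open (prim_ann_open _ _) ?_ hE
  have : Ann r₁ r₂ = (fun p : ℝ × ℝ => (p.1 : ℂ) * Complex.exp (p.2 * Complex.I)) ''
      (Ioo r₁ r₂ ×ˢ univ) := by
    ext z
    constructor
    · intro hz
      exact ⟨(‖z‖, Complex.arg z), ⟨hz, trivial⟩, Complex.norm_mul_exp_arg_mul_I z⟩
    · rintro ⟨⟨r, θ⟩, ⟨hr, -⟩, rfl⟩
      have hr0 : 0 ≤ r := h0.trans hr.1.le
      simp only [Ann, mem_setOf_eq, norm_mul, Complex.norm_real, Complex.norm_exp_ofReal_mul_I,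
        mul_one, Real.norm_of_nonneg hr0]
      exact hr
  rw [this]
  exact (isPreconnected_Ioo.prod isPreconnected_univ).image _ (by fun_prop)

theorem prim_count {Z : Set ℂ} {f : ℂ → ℂ} (h : ∀ v ∈ Z, ∀ᶠ u in 𝓝[Z] v, f u = f v) :
    (f '' Z).Countable := by
  obtain ⟨t, -, htc, hZ⟩ := TopologicalSpace.countable_cover_nhdsWithin
    (f := fun v => {u | f u = f v}) h
  refine (htc.image f).mono ?_
  rintro _ ⟨z, hz, rfl⟩
  obtain ⟨v, hv, hzv⟩ := mem_iUnion₂.1 (hZ hz)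
  exact ⟨v, hv, hzv.symm⟩

theorem prim_zeros {Z : Set ℂ} {g : ℂ → ℂ} (h0 : ∀ v ∈ Z, g v = 0)
    (h : ∀ v ∈ Z, ∀ᶠ u in 𝓝[≠] v, g u ≠ 0) : Z.Countable := by
  have := prim_count (Z := Z) (f := id) fun v hv => by
    have h1 := eventually_nhdsWithin_iff.1 (h v hv)
    refine eventually_nhdsWithin_iff.2 (h1.mono fun u hu huZ => ?_)
    by_contra hne
    exact hu hne (h0 u huZ)
  simpa using this

theorem prim_const {f : ℂ → ℂ} {v : ℂ} (hf : AnalyticAt ℂ f v)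
    (h : ∀ᶠ u in 𝓝 v, deriv f u = 0) : ∀ᶠ u in 𝓝 v, f u = f v := by
  obtain ⟨r, hr, hb⟩ := Metric.eventually_nhds_iff_ball.1 (h.and hf.eventually_analyticAt)
  filter_upwards [ball_mem_nhds v hr] with u hu
  exact isOpen_ball.is_const_of_deriv_eq_zero (convex_ball v r).isPreconnected
    (fun z hz => (hb z hz).2.differentiableAt.differentiableWithinAt) (fun z hz => (hb z hz).1)
    hu (mem_ball_self hr)

theorem prim_linv {f : ℂ → ℂ} {a : ℂ} (hf : AnalyticAt ℂ f a) (h : deriv f a ≠ 0) :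
    ∃ g : ℂ → ℂ, AnalyticAt ℂ g (f a) ∧ g (f a) = a ∧ (∀ᶠ z in 𝓝 a, g (f z) = z) ∧
      ∀ᶠ s in 𝓝 (f a), f (g s) = s :=
  ⟨_, hf.analyticAt_localInverse h, HasStrictFDerivAt.localInverse_apply_image ..,
    HasStrictDerivAt.eventually_left_inverse .., HasStrictDerivAt.eventually_right_inverse ..⟩

/-- points with a holomorphic partner -/
def PrimS (B : Set ℂ) (x y : ℂ → ℂ) : Set ℂ :=
  {w | ∃ π : ℂ → ℂ, ∀ᶠ u in 𝓝 w, AnalyticAt ℂ π u ∧ π u ∈ B ∧ π u ≠ u ∧ x (π u) = x u ∧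
    y (π u) = y u}

theorem primS_open (B : Set ℂ) (x y : ℂ → ℂ) : IsOpen (PrimS B x y) := by
  rw [isOpen_iff_mem_nhds]
  rintro w ⟨π, h⟩
  filter_upwards [h.eventually_nhds] with u hu using ⟨π, hu⟩

theorem prim_noEx {B : Set ℂ} {x y : ℂ → ℂ} (hB : IsOpen B) (hx : DifferentiableOn ℂ x B)
    (hy : DifferentiableOn ℂ y B) {w : ℂ} (hw : w ∈ B) (hd : deriv y w ≠ 0) {u : ℕ → ℂ}
    {π : ℕ → ℂ → ℂ} (hu : Tendsto u atTop (𝓝 w))
    (hπ : ∀ n, ∀ᶠ z in 𝓝 (u n), AnalyticAt ℂ (π n) z ∧ x (π n z) = x z ∧ y (π n z) = y z) :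
    ¬ Ex B x y (fun n => π n (u n)) (y w) := by
  intro hex
  have ax := hx.analyticOnNhd hB
  have ay := hy.analyticOnNhd hB
  obtain ⟨φ, φa, φw, φl, φr⟩ := prim_linv (ay w hw) hd
  have c1 : ContinuousAt (fun s => x (φ s)) (y w) :=
    ContinuousAt.comp (g := x) (by rw [φw]; exact (ax w hw).continuousAt) φa.continuousAt
  have c2 : ∀ᶠ s in 𝓝 (y w), ‖x (φ s)‖ < ‖x (φ (y w))‖ + 1 :=
    c1.norm.eventually (gt_mem_nhds (lt_add_one _))
  have c3 : ∀ᶠ s in 𝓝 (y w), φ s ∈ B :=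
    φa.continuousAt.eventually (by rw [φw]; exact hB.mem_nhds hw)
  obtain ⟨ε, hε, hb⟩ := Metric.eventually_nhds_iff_ball.1
    (((φr.and c2).and c3).and φa.eventually_analyticAt)
  obtain ⟨V, ψ, hV, Vo, Vc, ψd, ψB, ψy, hfr, hunb⟩ := hex ε hε
  have aψ := ψd.analyticOnNhd Vo
  obtain ⟨n, ⟨s, hs, hsn⟩, hn⟩ := (hfr.and_eventually (hu.eventually φl.eventually_nhds)).exists
  have hs' : s = y (u n) := by rw [← ψy s hs, hsn]; exact (hπ n).self_of_nhds.2.2
  have φs : φ s = u n := by rw [hs']; exact hn.self_of_nhds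
  have φas : AnalyticAt ℂ φ s := (hb s (hV hs)).2
  have hVs : V ∈ 𝓝 s := Vo.mem_nhds hs
  have hd2 : deriv y (ψ s) ≠ 0 := by
    intro h0
    have e1 : HasDerivAt (fun z => y (ψ z)) (deriv y (ψ s) * deriv ψ s) s :=
      (ay _ (ψB hs)).differentiableAt.hasDerivAt.comp s (aψ s hs).differentiableAt.hasDerivAt
    have e2 : HasDerivAt (fun z => y (ψ z)) 1 s :=
      (hasDerivAt_id s).congr_of_eventuallyEq (by filter_upwards [hVs] with z hz using ψy z hz)
    have := e1.unique e2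
    rw [h0, zero_mul] at this
    exact zero_ne_one this
  obtain ⟨κ, -, -, κl, -⟩ := prim_linv (ay _ (ψB hs)) hd2
  have t1 : Tendsto φ (𝓝 s) (𝓝 (u n)) := φs ▸ φas.continuousAt
  have t2 : Tendsto (fun z => π n (φ z)) (𝓝 s) (𝓝 (ψ s)) := by
    rw [hsn]
    exact (hπ n).self_of_nhds.1.continuousAt.tendsto.comp t1
  have ev : (fun z => x (ψ z)) =ᶠ[𝓝 s] fun z => x (φ z) := by
    filter_upwards [t1.eventually (hπ n), t2.eventually κl,
      (aψ s hs).continuousAt.tendsto.eventually κl, hVs] with z h1 h2 h3 h4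
    have : ψ z = π n (φ z) := by
      rw [← h3, ← h2, ψy z h4, h1.2.2, (hb z (hV h4)).1.1.1]
    rw [this, h1.2.1]
  have eqV : EqOn (fun z => x (ψ z)) (fun z => x (φ z)) V :=
    AnalyticOnNhd.eqOn_of_preconnected_of_eventuallyEq
      (fun z hz => (ax _ (ψB hz)).comp (aψ z hz))
      (fun z hz => (ax _ (hb z (hV hz)).1.2).comp (hb z (hV hz)).2) Vc hs ev
  refine hunb ⟨‖x (φ (y w))‖ + 1, fun z hz => ?_⟩
  have := eqV hz
  simp only at this
  rw [this]
  exact (hb z (hV hz)).1.1.2.le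

theorem prim_cluster {B : Set ℂ} {x y : ℂ → ℂ} (hB : IsOpen B) (hx : DifferentiableOn ℂ x B)
    (hy : DifferentiableOn ℂ y B) {w : ℂ} (hw : w ∈ B) (hd : deriv x w ≠ 0)
    (hcv : ∀ v ∈ B, x v = x w → deriv x v ≠ 0) {u u' : ℕ → ℂ} (hu : Tendsto u atTop (𝓝 w))
    (hne : ∀ n, u n ≠ w) (h : ∀ n, u' n ≠ u n ∧ x (u' n) = x (u n) ∧ y (u' n) = y (u n))
    {v : ℂ} (hv : v ∈ B) (hcl : MapClusterPt v atTop u') : w ∈ PrimS B x y := by
  have ax := hx.analyticOnNhd hB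
  have ay := hy.analyticOnNhd hB
  obtain ⟨k, hk, hkt⟩ := hcl.tendsto_subseq
  have huk : Tendsto (u ∘ k) atTop (𝓝 w) := hu.comp hk.tendsto_atTop
  have xv : x v = x w := by
    refine tendsto_nhds_unique ((ax v hv).continuousAt.tendsto.comp hkt) ?_
    refine ((ax w hw).continuousAt.tendsto.comp huk).congr fun n => ?_
    exact (h (k n)).2.1.symm
  have vw : v ≠ w := by
    rintro rfl
    obtain ⟨κ, -, -, κl, -⟩ := prim_linv (ax v hv) hd
    obtain ⟨n, h1, h2⟩ := ((hkt.eventually κl).and (huk.eventually κl)).exists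
    apply (h (k n)).1
    simp only [comp] at h1 h2
    rw [← h1, ← h2, (h (k n)).2.1]
  obtain ⟨ξ, ξa, ξv, ξl, ξr⟩ := prim_linv (ax v hv) (hcv v hv xv)
  rw [xv] at ξa ξv ξr
  have πa : AnalyticAt ℂ (fun z => ξ (x z)) w := ξa.comp (ax w hw)
  have πt : Tendsto (fun z => ξ (x z)) (𝓝 w) (𝓝 v) := by
    have := πa.continuousAt.tendsto
    rwa [ξv] at this
  have ga : AnalyticAt ℂ (fun z => y (ξ (x z)) - y z) w :=
    (AnalyticAt.comp (g := y) (by rw [ξv]; exact ay v hv) πa).sub (ay w hw)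
  have gz : ∀ᶠ z in 𝓝 w, y (ξ (x z)) - y z = 0 := by
    rw [← ga.frequently_zero_iff_eventually_zero]
    have t : Tendsto (u ∘ k) atTop (𝓝[≠] w) :=
      tendsto_nhdsWithin_iff.2 ⟨huk, Eventually.of_forall fun n => hne (k n)⟩
    refine t.frequently (Eventually.frequently ?_)
    filter_upwards [hkt.eventually ξl] with n hn
    simp only [comp] at hn ⊢
    rw [← (h (k n)).2.1, hn, (h (k n)).2.2, sub_self]
  refine ⟨fun z => ξ (x z), ?_⟩
  have nz : ∀ᶠ z in 𝓝 w, ξ (x z) ≠ z :=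
    (πt.prodMk_nhds tendsto_id).eventually
      ((isOpen_ne_fun continuous_fst continuous_snd).mem_nhds vw)
  filter_upwards [πa.eventually_analyticAt, πt.eventually (hB.mem_nhds hv), nz,
    (ax w hw).continuousAt.tendsto.eventually ξr, gz] with z h1 h2 h3 h4 h5
  exact ⟨h1, h2, h3, h4, sub_eq_zero.1 h5⟩

theorem prim_root {x : ℂ → ℂ} {c : ℂ} (hx : AnalyticAt ℂ x c) (nc : ¬ ∀ᶠ u in 𝓝 c, x u = x c) :
    ∃ (n : ℕ) (t : ℂ → ℂ), n ≠ 0 ∧ AnalyticAt ℂ t c ∧ t c = 0 ∧ deriv t c ≠ 0 ∧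
      ∀ᶠ u in 𝓝 c, x u = x c + t u ^ n := by
  obtain ⟨n, g, ga, g0, hg⟩ := (hx.sub analyticAt_const (g := fun _ => x c)
    ).exists_eventuallyEq_pow_smul_nonzero_iff.2 (fun h => nc (h.mono fun u hu => sub_eq_zero.1 hu))
  have n0 : n ≠ 0 := by
    rintro rfl
    have := hg.self_of_nhds
    simp at this
    exact g0 this.symm
  obtain ⟨a, ha⟩ := IsAlgClosed.exists_pow_nat_eq (g c) (Nat.pos_of_ne_zero n0)
  have a0 : a ≠ 0 := by
    rintro rfl
    rw [zero_pow n0] at ha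
    exact g0 ha.symm
  let r : ℂ → ℂ := fun z => a * Complex.exp (Complex.log (g z / g c) / n)
  have ra : AnalyticAt ℂ r c := by
    refine analyticAt_const.mul (AnalyticAt.cexp' (AnalyticAt.div_const ?_))
    refine AnalyticAt.clog ga.div_const ?_
    rw [div_self g0]
    exact Complex.one_mem_slitPlane
  have rc : r c = a := by simp [r, div_self g0]
  refine ⟨n, fun z => (z - c) * r z, n0, (analyticAt_id.sub analyticAt_const).mul ra, by simp,
    ?_, ?_⟩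
  · have := (((hasDerivAt_id c).sub_const c).mul ra.differentiableAt.hasDerivAt).deriv
    simp only [id, sub_self, zero_mul, add_zero, one_mul, rc] at this
    intro h0
    exact a0 (this.symm.trans h0)
  · filter_upwards [hg, ga.continuousAt.eventually_ne g0] with u h1 h2
    have hn : (n : ℂ) ≠ 0 := by exact_mod_cast n0
    have e : r u ^ n = g u := by
      simp only [r]
      rw [mul_pow, ha, ← Complex.exp_nat_mul, mul_div_cancel₀ _ hn,
        Complex.exp_log (div_ne_zero h2 g0), mul_div_cancel₀ _ g0]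
    rw [mul_pow, e]
    simp only [Pi.sub_apply, smul_eq_mul] at h1
    linear_combination h1

theorem prim_start {B : Set ℂ} {x y : ℂ → ℂ} {c : ℂ} (hB : B ∈ 𝓝 c) (hx : AnalyticAt ℂ x c)
    (hy : AnalyticAt ℂ y c) (nc : ¬ ∀ᶠ u in 𝓝 c, x u = x c)
    (ni : ¬ ∃ N ∈ 𝓝 c, InjOn (fun w => (x w, y w)) N) : ∀ᶠ u in 𝓝[≠] c, u ∈ PrimS B x y := by
  obtain ⟨n, t, n0, ta, tc, td, ht⟩ := prim_root hx nc
  obtain ⟨τ, τa, τc, τl, τr⟩ := prim_linv ta td
  rw [tc] at τa τc τr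
  have fin : {ζ : ℂ | ζ ^ n = 1 ∧ ζ ≠ 1}.Finite := by
    refine ((Polynomial.nthRoots n (1 : ℂ)).finite_toSet).subset fun ζ hζ => ?_
    exact (Polynomial.mem_nthRoots (Nat.pos_of_ne_zero n0)).2 hζ.1
  have key : ∃ ζ : ℂ, (ζ ^ n = 1 ∧ ζ ≠ 1) ∧ ∃ᶠ u in 𝓝[≠] c, y (τ (ζ * t u)) - y u = 0 := by
    by_contra hc
    push Not at hc
    have h1 := eventually_nhdsWithin_iff.1 ((eventually_all_finite fin).2 hc)
    refine ni ⟨_, (h1.and ht).and τl, fun u hu u' hu' he => ?_⟩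
    by_contra hne
    obtain ⟨⟨a1, a2⟩, a3⟩ := hu
    obtain ⟨⟨-, b2⟩, b3⟩ := hu'
    simp only [Prod.mk.injEq] at he
    have e1 : t u ^ n = t u' ^ n := by linear_combination b2 - a2 + he.1
    have e2 : t u ≠ t u' := fun h => hne (by rw [← a3, ← b3, h])
    have e3 : t u ≠ 0 := by
      intro h
      rw [h, zero_pow n0] at e1
      exact e2 (h.trans (pow_eq_zero_iff n0 |>.1 e1.symm).symm)
    have e4 : u ≠ c := by rintro rfl; exact e3 tc
    refine a1 e4 (t u' / t u) ⟨?_, ?_⟩ ?_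
    · rw [div_pow, ← e1, div_self (pow_ne_zero _ e3)]
    · intro h
      exact e2 ((div_eq_one_iff_eq e3).1 h).symm
    · rw [div_mul_cancel₀ _ e3, b3, he.2, sub_self]
  obtain ⟨ζ, ⟨z1, z2⟩, hf⟩ := key
  have ma : AnalyticAt ℂ (fun u => ζ * t u) c := analyticAt_const.mul ta
  have mt : Tendsto (fun u => ζ * t u) (𝓝 c) (𝓝 0) := by
    have := ma.continuousAt.tendsto
    rwa [tc, mul_zero] at this
  have πa : AnalyticAt ℂ (fun u => τ (ζ * t u)) c :=
    AnalyticAt.comp (g := τ) (by rw [tc, mul_zero]; exact τa) ma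
  have πt : Tendsto (fun u => τ (ζ * t u)) (𝓝 c) (𝓝 c) := by
    have := πa.continuousAt.tendsto
    rwa [tc, mul_zero, τc] at this
  have ga : AnalyticAt ℂ (fun u => y (τ (ζ * t u)) - y u) c :=
    (AnalyticAt.comp (g := y) (by rw [tc, mul_zero, τc]; exact hy) πa).sub hy
  have gz := ga.frequently_zero_iff_eventually_zero.1 hf
  have all : ∀ᶠ u in 𝓝[≠] c, AnalyticAt ℂ (fun u => τ (ζ * t u)) u ∧ τ (ζ * t u) ∈ B ∧
      τ (ζ * t u) ≠ u ∧ x (τ (ζ * t u)) = x u ∧ y (τ (ζ * t u)) = y u := by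
    rw [eventually_nhdsWithin_iff]
    filter_upwards [πa.eventually_analyticAt, πt.eventually hB, mt.eventually τr, τl,
      πt.eventually ht, ht, gz] with u h1 h2 h3 h4 h5 h6 h7 hu
    refine ⟨h1, h2, fun h => ?_, ?_, sub_eq_zero.1 h7⟩
    · rw [h] at h3
      have : t u = 0 := by
        by_contra h0
        exact z2 (mul_right_cancel₀ h0 (h3.symm.trans (one_mul _).symm))
      apply hu
      rw [mem_singleton_iff, ← h4, this, τc]
    · rw [h5, h3, mul_pow, z1, one_mul, h6]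
  have hop : ({c}ᶜ : Set ℂ) ∈ 𝓝[≠] c := self_mem_nhdsWithin
  filter_upwards [eventually_eventually_nhdsWithin.2 all, hop] with u h1 h2
  rw [isOpen_compl_singleton.nhdsWithin_eq h2] at h1
  exact ⟨_, h1⟩

theorem prim {B E : Set ℂ} {x y : ℂ → ℂ} {r₁ r₂ : ℝ} (h0 : 0 ≤ r₁) (hB : IsOpen B)
    (hA : Ann r₁ r₂ ⊆ B) (hx : DifferentiableOn ℂ x B) (hy : DifferentiableOn ℂ y B)
    (hE : E.Countable) (ncx : ∀ w ∈ Ann r₁ r₂, ¬ ∀ᶠ u in 𝓝 w, x u = x w)
    (ncy : ∀ w ∈ Ann r₁ r₂, ¬ ∀ᶠ u in 𝓝 w, y u = y w)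
    (np : ∃ a b : ℝ, r₁ ≤ a ∧ a < b ∧ b ≤ r₂ ∧ ∀ r ∈ Ioo a b, ∀ w ∈ B, x w = x r → y w = y r →
      w = r)
    (exit : ∀ w ∈ Ann r₁ r₂ \ E, ∀ u u' : ℕ → ℂ, Tendsto u atTop (𝓝 w) →
      (∀ n, u' n ∈ B ∧ x (u' n) = x (u n) ∧ y (u' n) = y (u n)) →
      (∀ v ∈ B, ¬ MapClusterPt v atTop u') → Ex B x y u' (y w) ∨ Ex B y x u' (x w)) :
    ∀ c ∈ Ann r₁ r₂, ∃ N ∈ 𝓝 c, InjOn (fun w => (x w, y w)) N := by
  have ax := hx.analyticOnNhd hB
  have ay := hy.analyticOnNhd hB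
  set A := Ann r₁ r₂ with hAdef
  have crit : ∀ f : ℂ → ℂ, AnalyticOnNhd ℂ f B → (∀ w ∈ A, ¬ ∀ᶠ u in 𝓝 w, f u = f w) →
      {w | w ∈ A ∧ deriv f w = 0}.Countable := fun f af nc =>
    prim_zeros (g := deriv f) (fun v hv => hv.2) fun v hv =>
      (af v (hA hv.1)).deriv.eventually_eq_zero_or_eventually_ne_zero.resolve_left
        fun h => nc v hv.1 (prim_const (af v (hA hv.1)) h)
  have cv : (x '' {v | v ∈ B ∧ deriv x v = 0}).Countable := by
    refine prim_count fun v hv => ?_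
    rcases (ax v hv.1).deriv.eventually_eq_zero_or_eventually_ne_zero with h | h
    · exact (prim_const (ax v hv.1) h).filter_mono nhdsWithin_le_nhds
    · refine eventually_nhdsWithin_iff.2 ((eventually_nhdsWithin_iff.1 h).mono fun u hu huZ => ?_)
      by_cases huv : u = v
      · rw [huv]
      · exact absurd huZ.2 (hu huv)
  have fib : ∀ a : ℂ, {w | w ∈ A ∧ x w = a}.Countable := fun a =>
    prim_zeros (g := fun u => x u - a) (fun v hv => sub_eq_zero.2 hv.2) fun v hv =>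
      ((ax v (hA hv.1)).sub analyticAt_const
        ).eventually_eq_zero_or_eventually_ne_zero.resolve_left
        fun h => ncx v hv.1 (h.mono fun u hu => by rw [hv.2]; exact sub_eq_zero.1 hu)
  set E' := E ∪ {w | w ∈ A ∧ deriv x w = 0} ∪ {w | w ∈ A ∧ deriv y w = 0} ∪
    ⋃ a ∈ x '' {v | v ∈ B ∧ deriv x v = 0}, {w | w ∈ A ∧ x w = a} with hE'
  have cE : E'.Countable :=
    ((hE.union (crit x ax ncx)).union (crit y ay ncy)).union (cv.biUnion fun a _ => fib a)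
  have clo : closure (PrimS B x y) ∩ (A \ E') ⊆ PrimS B x y := by
    rintro w ⟨hw, hwA, hwE⟩
    simp only [hE', mem_union, not_or, mem_setOf_eq, not_and, mem_iUnion, not_exists] at hwE
    obtain ⟨⟨⟨e1, e2⟩, e3⟩, e4⟩ := hwE
    obtain ⟨u, hu, hut⟩ := mem_closure_iff_seq_limit.1 hw
    by_contra hn
    have hne : ∀ n, u n ≠ w := fun n h => hn (h ▸ hu n)
    choose π hπ using hu
    by_cases hcl : ∃ v ∈ B, MapClusterPt v atTop (fun n => π n (u n))
    · obtain ⟨v, hv, hc⟩ := hcl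
      exact hn (prim_cluster hB hx hy (hA hwA) (e2 hwA)
        (fun v hv h h' => e4 (x v) ⟨v, ⟨hv, h'⟩, rfl⟩ hwA h.symm) hut hne
        (fun n => (hπ n).self_of_nhds.2.2) hv hc)
    · push Not at hcl
      rcases exit w ⟨hwA, e1⟩ u (fun n => π n (u n)) hut
        (fun n => ⟨(hπ n).self_of_nhds.2.1, (hπ n).self_of_nhds.2.2.2⟩) hcl with h | h
      · exact prim_noEx hB hx hy (hA hwA) (e3 hwA) hut
          (fun n => (hπ n).mono fun z hz => ⟨hz.1, hz.2.2.2⟩) h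
      · exact prim_noEx hB hy hx (hA hwA) (e2 hwA) hut
          (fun n => (hπ n).mono fun z hz => ⟨hz.1, hz.2.2.2.2, hz.2.2.2.1⟩) h
  intro c hc
  by_contra ni
  have st := prim_start (hB.mem_nhds (hA hc)) (ax c (hA hc)) (ay c (hA hc)) (ncx c hc) ni
  have ne : ((A \ E') ∩ PrimS B x y).Nonempty := by
    have h1 : ∀ᶠ u in 𝓝[≠] c, u ∈ A :=
      mem_nhdsWithin_of_mem_nhds ((prim_ann_open _ _).mem_nhds hc)
    obtain ⟨u, hu1, hu2⟩ := (st.and h1).exists
    obtain ⟨z, hz, hz'⟩ := (cE.dense_compl ℂ).inter_open_nonempty _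
      ((primS_open B x y).inter (prim_ann_open r₁ r₂)) ⟨u, hu1, hu2⟩
    exact ⟨z, ⟨hz.2, hz'⟩, hz.1⟩
  have all := (ann_conn h0 cE).subset_of_closure_inter_subset (primS_open B x y) ne clo
  obtain ⟨a, b, h1, h2, h3, h4⟩ := np
  have cR : ((↑) ⁻¹' E' : Set ℝ).Countable := cE.preimage_of_injOn Complex.ofReal_injective.injOn
  obtain ⟨r, hr, hr'⟩ := (cR.dense_compl ℝ).inter_open_nonempty _ isOpen_Ioo (nonempty_Ioo.2 h2)
  have hrA : (r : ℂ) ∈ A := by
    have : 0 ≤ r := by linarith [hr.1]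
    simp only [hAdef, Ann, mem_setOf_eq, Complex.norm_real, Real.norm_of_nonneg this]
    exact ⟨by linarith [hr.1], by linarith [hr.2]⟩
  obtain ⟨π, hπ⟩ := all ⟨hrA, hr'⟩
  obtain ⟨-, p1, p2, p3, p4⟩ := hπ.self_of_nhds
  exact p2 (h4 r hr _ p1 p3 p4)

end Pool.Agent.MP_098ecc_co.H97
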