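import Pool.Agent.MP_098ecc_co.H97.PoslA

set_option autoImplicit false

namespace Pool.Agent.MP_098ecc_co.H97

open Metric Filter Topology Set Function
open scoped BoundedContinuousFunction

theorem slb_nat (N n : ℕ) (φ : PowerSeries ℂ) :
    PowerSeries.coeff n ((N : PowerSeries ℂ) * φ) = N * PowerSeries.coeff n φ := by
  rw [← nsmul_eq_mul, map_nsmul, nsmul_eq_mul]

theorem slb_pow (φ : PowerSeries ℂ) (N : ℕ) :
    (N : PowerSeries ℂ) * φ ^ (N - 1) * φ = N * φ ^ N := by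
  cases N with
  | zero => simp
  | succ N => rw [Nat.add_sub_cancel, pow_succ, mul_assoc]

theorem slb_der {F : ℂ → ℕ → ℂ} {df : ℕ → ℂ} {s : ℂ}
    (h : ∀ i, HasDerivAt (fun s => F s i) (df i) s) (N : ℕ) : ∀ n : ℕ,
    HasDerivAt (fun s => PowerSeries.coeff n (PowerSeries.mk (F s) ^ N))
      (PowerSeries.coeff n ((N : PowerSeries ℂ) * PowerSeries.mk (F s) ^ (N - 1) *
        PowerSeries.mk df)) s := by
  induction N with
  | zero => intro n; simpa using hasDerivAt_const s _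
  | succ N ih =>
    intro n
    have e : ((N + 1 : ℕ) : PowerSeries ℂ) * PowerSeries.mk (F s) ^ (N + 1 - 1) *
        PowerSeries.mk df = (N : PowerSeries ℂ) * PowerSeries.mk (F s) ^ (N - 1) *
        PowerSeries.mk df * PowerSeries.mk (F s) + PowerSeries.mk (F s) ^ N * PowerSeries.mk df := by
      rw [mul_right_comm _ (PowerSeries.mk df), slb_pow, Nat.add_sub_cancel]
      push_cast
      ring
    rw [e, map_add, PowerSeries.coeff_mul, PowerSeries.coeff_mul n (PowerSeries.mk (F s) ^ N),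
      ← Finset.sum_add_distrib]
    simp only [pow_succ, PowerSeries.coeff_mul n, PowerSeries.coeff_mk]
    exact HasDerivAt.fun_sum fun p _ => (ih p.1).fun_mul (h p.2)

theorem slb_cf {F : ℂ → ℕ → ℂ} {df : ℕ → ℂ} {s : ℂ}
    (h : ∀ i, HasDerivAt (fun s => F s i) (df i) s) (N : ℕ) (j : ℤ) :
    HasDerivAt (fun s => cf (F s) N j) (if 0 ≤ j then PowerSeries.coeff j.toNat
      ((N : PowerSeries ℂ) * PowerSeries.mk (F s) ^ (N - 1) * PowerSeries.mk df) else 0) s := by
  unfold cf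
  split_ifs
  · exact slb_der h N _
  · exact hasDerivAt_const s _

theorem slb_dcf (f df : ℕ → ℂ) (N : ℕ) (j : ℤ) : dcf f df N j = if 0 ≤ j then
    PowerSeries.coeff j.toNat
      ((N : PowerSeries ℂ) * PowerSeries.mk f ^ (N - 1) * PowerSeries.mk df) else 0 := by
  have h := slb_cf (F := fun s => f + s • df) (df := df) (s := 0) (fun i => by
    simpa using ((hasDerivAt_id (0 : ℂ)).mul_const (df i)).const_add (f i)) N j
  simp only [zero_smul, add_zero] at h
  exact h.deriv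

theorem slb_theta (φ : PowerSeries ℂ) (k : ℕ) :
    PowerSeries.coeff k (PowerSeries.X * PowerSeries.derivative ℂ φ) =
      k * PowerSeries.coeff k φ := by
  cases k with
  | zero => simp
  | succ k =>
    rw [PowerSeries.coeff_succ_X_mul, PowerSeries.coeff_derivative]
    push_cast
    ring

theorem slb_psi (m N k : ℕ) (f : ℕ → ℂ) :
    PowerSeries.coeff k ((N : PowerSeries ℂ) * PowerSeries.mk f ^ (N - 1) *
      PowerSeries.mk (flat m f)) = (m * k - N) * PowerSeries.coeff k (PowerSeries.mk f ^ N) := by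
  have e : PowerSeries.mk (flat m f) = (m : PowerSeries ℂ) *
      (PowerSeries.X * PowerSeries.derivative ℂ (PowerSeries.mk f)) - PowerSeries.mk f := by
    ext n
    rw [map_sub, slb_nat, slb_theta]
    simp only [PowerSeries.coeff_mk, flat]
    ring
  have e2 : (N : PowerSeries ℂ) * PowerSeries.mk f ^ (N - 1) * PowerSeries.mk (flat m f) =
      (m : PowerSeries ℂ) * (PowerSeries.X * PowerSeries.derivative ℂ (PowerSeries.mk f ^ N)) -
        (N : PowerSeries ℂ) * PowerSeries.mk f ^ N := by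
    rw [e, PowerSeries.derivative_pow, ← slb_pow]
    ring
  rw [e2, map_sub, slb_nat, slb_nat, slb_theta]
  ring

theorem slb_diff {R : ℝ} {a : ℕ → ℂ} (ha : ∀ z : ℂ, ‖z‖ < R → Summable fun n => ‖a n * z ^ n‖) :
    DifferentiableOn ℂ (ser a) (ball 0 R) := by
  intro z hz
  rw [mem_ball_zero_iff] at hz
  obtain ⟨ρ, h1, h2⟩ := exists_between hz
  have h0 : 0 < ρ := (norm_nonneg z).trans_lt h1
  have h3 : Bnd ρ a := laur_bnd_of_sum h0 (by
    simpa [abs_of_pos h0] using ha ρ (by simpa [abs_of_pos h0] using h2))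
  exact (h3.diff.differentiableAt
    (isOpen_ball.mem_nhds (mem_ball_zero_iff.2 h1))).differentiableWithinAt

theorem slb_flat_sum {R : ℝ} {f : ℕ → ℂ} (hf : Bnd R f) (m : ℕ) {z : ℂ} (hz : ‖z‖ < R) :
    Summable fun n => ‖flat m f n * z ^ n‖ := by
  obtain ⟨ρ, h1, h2⟩ := exists_between hz
  exact (hf.flat m ((norm_nonneg z).trans_lt h1) h2).summable h1

theorem slb_flat_diff {R : ℝ} {f : ℕ → ℂ} (hf : Bnd R f) (m : ℕ) :
    DifferentiableOn ℂ (ser (flat m f)) (ball 0 R) := slb_diff fun _ hz => slb_flat_sum hf m hz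

theorem slb_split {R : ℝ} {a g : ℕ → ℂ}
    (ha : ∀ z : ℂ, ‖z‖ < R → Summable fun n => ‖a n * z ^ n‖) (l : ℕ)
    (hg : ∀ n, g n = if n ≤ l then a (l - n) else 0) :
    ∃ h : ℂ → ℂ, DifferentiableOn ℂ h (ball 0 R) ∧
      ∀ z : ℂ, z ≠ 0 → ‖z‖ < R → ser g z⁻¹ = z⁻¹ ^ l * ser a z - z * h z := by
  refine ⟨ser fun k => a (k + (l + 1)), slb_diff fun z hz => ?_, fun z h0 hz => ?_⟩
  · by_cases h0 : z = 0
    · refine summable_of_ne_finset_zero (s := {0}) fun n hn => ?_
      have : n ≠ 0 := by simpa using hn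
      simp [h0, this]
    · have := ((summable_nat_add_iff (l + 1)).2 (ha z hz)).mul_right ‖z ^ (l + 1)‖⁻¹
      refine this.congr fun n => ?_
      have h1 : ‖z‖ ≠ 0 := norm_ne_zero_iff.2 h0
      simp only [norm_mul, norm_pow, pow_add]
      field_simp
  · have h1 := (ha z hz).of_norm.sum_add_tsum_nat_add (l + 1)
    have h2 : ser g z⁻¹ = ∑ n ∈ Finset.range (l + 1), g n * z⁻¹ ^ n := by
      refine tsum_eq_sum fun n hn => ?_
      rw [hg, if_neg (by simpa [Nat.lt_succ_iff] using hn), zero_mul]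
    have h3 : ∑' k, a (k + (l + 1)) * z ^ (k + (l + 1)) =
        z ^ (l + 1) * ser (fun k => a (k + (l + 1))) z := by
      rw [ser, ← tsum_mul_left]
      refine tsum_congr fun k => ?_
      ring
    rw [h2, ser, ← h1, h3, ← Finset.sum_range_reflect, mul_add, Finset.mul_sum]
    have h4 : z⁻¹ ^ l * (z ^ (l + 1) * ser (fun k => a (k + (l + 1))) z) =
        z * ser (fun k => a (k + (l + 1))) z := by
      rw [inv_pow]
      field_simp
      ring
    rw [h4, add_sub_cancel_right]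
    refine Finset.sum_congr rfl fun k hk => ?_
    have hk' : k ≤ l := Nat.lt_succ_iff.1 (Finset.mem_range.1 hk)
    obtain ⟨d, rfl⟩ := Nat.exists_eq_add_of_le hk'
    rw [hg, if_pos (by omega), show k + d + 1 - 1 - k = d by omega, show k + d - d = k by omega,
      inv_pow, inv_pow]
    field_simp
    ring

theorem slb_zero {r R : ℝ} (hr : 0 < r) (hR : r < R) {H : ℂ → ℂ}
    (hH : DifferentiableOn ℂ H (ball 0 R)) {n : ℤ} (hn : n ≤ 0) :
    lc r (fun z => z * H z) n = 0 := by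
  obtain ⟨h1, h2⟩ := lc_inner hr hR (F := fun z => z * H z) (differentiableOn_id.fun_mul hH)
  rcases hn.eq_or_lt with rfl | hn
  · rw [h1, zero_mul]
  · exact h2 n hn

theorem slb_three (N : ℕ) {f d : ℕ → ℂ} {z : ℂ} (hf : Summable fun n => ‖f n * z ^ n‖)
    (hd : Summable fun n => ‖d n * z ^ n‖) :
    (Summable fun n => ‖PowerSeries.coeff n ((N : PowerSeries ℂ) * PowerSeries.mk f ^ (N - 1) *
      PowerSeries.mk d) * z ^ n‖) ∧
    ser (fun n => PowerSeries.coeff n ((N : PowerSeries ℂ) * PowerSeries.mk f ^ (N - 1) *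
      PowerSeries.mk d)) z = N * (ser f z ^ (N - 1) * ser d z) := by
  obtain ⟨h1, h2⟩ := laur_pow hf (N - 1)
  obtain ⟨h3, h4⟩ := laur_mul _ (PowerSeries.mk d) z h1
    (by simpa only [PowerSeries.coeff_mk] using hd)
  simp only [PowerSeries.coeff_mk] at h4
  simp only [mul_assoc, slb_nat, ser]
  refine ⟨by simpa only [norm_mul, mul_assoc] using h3.mul_left ‖(N : ℂ)‖, ?_⟩
  rw [tsum_mul_left, h4, h2, ser]

theorem slb {m l : ℕ} (hm : 0 < m) (hl : 0 < l) {R r : ℝ} (hr : 0 < r) (hR : r < R)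
    {f df : ℕ → ℂ} (hf : Bnd R f) (hd : Bnd R df) :
    (∀ n : ℤ, n ≤ 0 → lc r (Om m f df (fun n => cf f (m * l - 1) (l - n))
      fun n => dcf f df (m * l - 1) (l - n)) n = 0) ∧
    ∀ c : ℂ, ‖c‖ < r → ser (flat m f) c = 0 → ser df c = 0 →
      lc r (fun z => Om m f df (fun n => cf f (m * l - 1) (l - n))
        (fun n => dcf f df (m * l - 1) (l - n)) z * (z / (z - c))) 0 = 0 := by
  have hN : ((m * l - 1 : ℕ) : ℂ) = m * l - 1 := by
    rw [Nat.cast_sub (Nat.succ_le_of_lt (Nat.mul_pos hm hl))]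
    push_cast
    ring
  generalize m * l - 1 = N at hN ⊢
  obtain ⟨h₁, d₁, e₁⟩ := slb_split (g := fun n => dcf f df N (l - n))
    (fun z hz => (slb_three N (hf.summable hz) (hd.summable hz)).1) l fun n => by
      rw [slb_dcf]
      by_cases h : n ≤ l
      · rw [if_pos h, if_pos (by omega), show ((l : ℤ) - n).toNat = l - n by omega]
      · rw [if_neg h, if_neg (by omega)]
  obtain ⟨h₂, d₂, e₂⟩ := slb_split (g := fun n => -flat m (fun n => cf f N (l - n)) n)
    (fun z hz => (slb_three N (hf.summable hz) (slb_flat_sum hf m hz)).1) l fun n => by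
      rw [slb_psi, flat, cf]
      by_cases h : n ≤ l
      · rw [if_pos h, if_pos (by omega), show ((l : ℤ) - n).toNat = l - n by omega, hN,
          Nat.cast_sub h]
        ring
      · rw [if_neg h, if_neg (by omega)]
        ring
  have dH : DifferentiableOn ℂ (fun z => h₂ z * ser df z - h₁ z * ser (flat m f) z) (ball 0 R) :=
    (d₂.fun_mul hd.diff).fun_sub (d₁.fun_mul (slb_flat_diff hf m))
  have key : ∀ z : ℂ, ‖z‖ = r → Om m f df (fun n => cf f N (l - n))
      (fun n => dcf f df N (l - n)) z = z * (h₂ z * ser df z - h₁ z * ser (flat m f) z) := by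
    intro z hz
    have hz' : ‖z‖ < R := hz ▸ hR
    have e3 := e₂ z (laur_ne hr hz) hz'
    have e4 : ser (fun n => -flat m (fun n => cf f N (l - n)) n) z⁻¹ =
        -ser (flat m fun n => cf f N (l - n)) z⁻¹ := by
      simp only [ser, neg_mul, tsum_neg]
    rw [e4, (slb_three N (hf.summable hz') (slb_flat_sum hf m hz')).2, neg_eq_iff_eq_neg] at e3
    rw [Om, e₁ z (laur_ne hr hz) hz', e3, (slb_three N (hf.summable hz') (hd.summable hz')).2]
    ring
  refine ⟨fun n hn => ?_, fun c hc c1 c2 => ?_⟩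
  · rw [lc_congr hr key, slb_zero hr hR dH hn]
  · rw [lc_congr hr (G := fun z => z * (h₂ z * ser df z - h₁ z * ser (flat m f) z) * (z / (z - c)))
      fun z hz => by rw [key z hz], lc_cauchy hR (F := fun z => z * (h₂ z * ser df z -
        h₁ z * ser (flat m f) z)) (differentiableOn_id.fun_mul dH) hc, c1, c2]
    simp

theorem dcf_self (f : ℕ → ℂ) (N : ℕ) (j : ℤ) : dcf f f N j = N * cf f N j := by
  rw [slb_dcf, cf, slb_pow, slb_nat]
  split_ifs <;> simp

theorem hasDerivAt_cf {F : ℂ → ℕ → ℂ} {df : ℕ → ℂ} {s : ℂ}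
    (h : ∀ i, HasDerivAt (fun s => F s i) (df i) s) (N : ℕ) (j : ℤ) :
    HasDerivAt (fun s => cf (F s) N j) (dcf (F s) df N j) s := by
  rw [slb_dcf]
  exact slb_cf h N j

theorem dcf_lin (f df dg : ℕ → ℂ) (a b : ℂ) (N : ℕ) (j : ℤ) :
    dcf f (a • df + b • dg) N j = a * dcf f df N j + b * dcf f dg N j := by
  have e : PowerSeries.mk (a • df + b • dg) = a • PowerSeries.mk df + b • PowerSeries.mk dg := by
    ext n
    simp
  simp only [slb_dcf, e, mul_add, mul_smul_comm, map_add, map_smul, smul_eq_mul]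
  split_ifs <;> simp

theorem slb_geo {ζ z : ℂ} (h : ‖ζ‖ < ‖z‖) :
    HasSum (fun n : ℕ => ζ ^ n * z⁻¹ ^ n) (z / (z - ζ)) ∧
    HasSum (fun n : ℕ => n * ζ ^ (n - 1) * z⁻¹ ^ n) (z / (z - ζ) ^ 2) ∧
    HasSum (fun n : ℕ => n * ζ ^ n * z⁻¹ ^ n) (ζ * (z / (z - ζ) ^ 2)) := by
  have h0 : 0 < ‖z‖ := (norm_nonneg ζ).trans_lt h
  have hz : z ≠ 0 := norm_pos_iff.1 h0
  have hne : z - ζ ≠ 0 := sub_ne_zero.2 fun e => h.ne (by rw [e])
  have hx : ‖ζ * z⁻¹‖ < 1 := by
    rw [norm_mul, norm_inv, mul_inv_lt_iff₀ h0, one_mul]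
    exact h
  have e : 1 - ζ * z⁻¹ = (z - ζ) / z := by field_simp
  have g1 := hasSum_geometric_of_norm_lt_one hx
  have g2 := hasSum_coe_mul_geometric_of_norm_lt_one hx
  rw [e] at g1 g2
  refine ⟨?_, ?_, ?_⟩
  · simpa only [mul_pow, inv_div] using g1
  · rw [← hasSum_nat_add_iff' 1]
    have e1 : z / (z - ζ) ^ 2 - ∑ i ∈ Finset.range 1, (i : ℂ) * ζ ^ (i - 1) * z⁻¹ ^ i =
        z⁻¹ * (((z - ζ) / z)⁻¹ + ζ * z⁻¹ / ((z - ζ) / z) ^ 2) := by
      simp only [Finset.sum_range_one, Nat.cast_zero, zero_mul, sub_zero]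
      field_simp
      ring
    rw [e1]
    refine ((g1.add g2).mul_left z⁻¹).congr_fun fun n => ?_
    rw [Nat.add_sub_cancel, mul_pow]
    push_cast
    ring
  · have e1 : ζ * (z / (z - ζ) ^ 2) = ζ * z⁻¹ / ((z - ζ) / z) ^ 2 := by field_simp
    rw [e1]
    simpa only [mul_pow, mul_assoc] using g2

theorem pole_lemma {m : ℕ} {R r : ℝ} (hR : r < R) {f df : ℕ → ℂ} (hf : Bnd R f) (hd : Bnd R df)
    {ζ : ℂ} (hζ : ‖ζ‖ < r) (j dj dζ a : ℂ) (n : ℤ) (hn : n ≤ 0) :
    lc r (fun z => II m f df (fun n => j * ζ ^ n) (fun n => dj * ζ ^ n + j * n * ζ ^ (n - 1) * dζ)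
      a 0 z - j * (dζ * ser (flat m f) ζ + m * ζ * ser df ζ) * (z / (z - ζ) ^ 2) -
      ((dj - a * j) * ser (flat m f) ζ + j * (dζ * deriv (ser (flat m f)) ζ + ser (flat m df) ζ)) *
        (z / (z - ζ))) n = 0 := by
  have hr : 0 < r := (norm_nonneg ζ).trans_lt hζ
  have hb : ball (0 : ℂ) R ∈ 𝓝 ζ := isOpen_ball.mem_nhds (mem_ball_zero_iff.2 (hζ.trans hR))
  have dF := slb_flat_diff hf m
  have dD := hd.diff
  have dA : DifferentiableOn ℂ (fun z => j * (dζ * ser (flat m f) z + m * ζ * ser df z))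
      (ball 0 R) := ((dF.const_mul dζ).fun_add (dD.const_mul (m * ζ))).const_mul j
  have dB : DifferentiableOn ℂ (fun z => (dj - a * j) * ser (flat m f) z - j * ser df z)
      (ball 0 R) := (dF.const_mul _).fun_sub (dD.const_mul j)
  have hA : deriv (fun z => j * (dζ * ser (flat m f) z + m * ζ * ser df z)) ζ =
      j * (dζ * deriv (ser (flat m f)) ζ + m * ζ * deriv (ser df) ζ) :=
    ((((dF.differentiableAt hb).hasDerivAt.const_mul dζ).fun_add
      ((dD.differentiableAt hb).hasDerivAt.const_mul (m * ζ))).const_mul j).deriv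
  have dH := (((Complex.differentiableOn_dslope hb).2
    ((Complex.differentiableOn_dslope hb).2 dA)).fun_add ((Complex.differentiableOn_dslope hb).2 dB))
  refine (lc_congr hr (fun z hz => ?_) n).trans (slb_zero hr hR dH hn)
  have hlt : ‖ζ‖ < ‖z‖ := hz ▸ hζ
  have hne : z ≠ ζ := fun e => hlt.ne (by rw [e])
  have hne' : z - ζ ≠ 0 := sub_ne_zero.2 hne
  obtain ⟨g1, g2, g3⟩ := slb_geo hlt
  have s1 : ser (fun n => j * ζ ^ n) z⁻¹ = j * (z / (z - ζ)) := by
    rw [ser, ← (g1.mul_left j).tsum_eq]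
    exact tsum_congr fun n => by ring
  have s2 : ser (fun n => dj * ζ ^ n + j * n * ζ ^ (n - 1) * dζ) z⁻¹ =
      dj * (z / (z - ζ)) + j * dζ * (z / (z - ζ) ^ 2) := by
    rw [ser, ← ((g1.mul_left dj).add (g2.mul_left (j * dζ))).tsum_eq]
    exact tsum_congr fun n => by ring
  have s3 : ser (flat m fun n => j * ζ ^ n) z⁻¹ =
      j * m * (ζ * (z / (z - ζ) ^ 2)) - j * (z / (z - ζ)) := by
    rw [ser, ← ((g3.mul_left (j * m)).sub (g1.mul_left j)).tsum_eq]
    exact tsum_congr fun n => by rw [flat]; ring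
  rw [II, Om, s1, s2, s3, hd.ser_flat m (hζ.trans hR), dslope_of_ne _ hne, dslope_of_ne _ hne,
    slope_def_field, slope_def_field, dslope_of_ne _ hne, slope_def_field, dslope_same, hA]
  field_simp
  ring

theorem slb_single {g : ℕ → ℂ} {w : ℂ} (h : Summable fun n => ‖g n * w ^ n‖) (c : ℂ) :
    ser (g + Pi.single 0 c) w = ser g w + c := by
  have h1 : HasSum (fun n : ℕ => (Pi.single 0 c : ℕ → ℂ) n * w ^ n) c := by
    simpa using hasSum_single (f := fun n : ℕ => (Pi.single 0 c : ℕ → ℂ) n * w ^ n) 0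
      fun n hn => by simp [hn]
  rw [ser, ser, ← (h.of_norm.hasSum.add h1).tsum_eq]
  exact tsum_congr fun n => by rw [Pi.add_apply, add_mul]

theorem II_const {m : ℕ} {R R' : ℝ} {f df g dg : ℕ → ℂ} (hf : Bnd R f) (hg : Bnd R' g)
    (hd : Bnd R' dg) (a a' c₀ dc₀ : ℂ) {z : ℂ} (hz : ‖z‖ < R) (hz' : ‖z⁻¹‖ < R') :
    II m f df (g + Pi.single 0 c₀) (dg + Pi.single 0 dc₀) a a' z = II m f df g dg a a' z +
      ((dc₀ - a * c₀) * ser (flat m f) z - c₀ * ser df z + a' * c₀ * ser f z) := by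
  have e : flat m (g + Pi.single 0 c₀) = flat m g + Pi.single 0 (-c₀) := by
    funext n
    rcases eq_or_ne n 0 with rfl | hn
    · simp [flat, add_comm]
    · simp [flat, hn]
  rw [II, II, Om, Om, e, slb_single (hg.summable hz'), slb_single (hd.summable hz'),
    slb_single (slb_flat_sum hg m hz')]
  ring

theorem slb_inv {R R' : ℝ} (h0 : 0 < R') {z : ℂ} (hz : z ∈ Ann R'⁻¹ R) :
    z⁻¹ ∈ ball (0 : ℂ) R' := by
  rw [mem_ball_zero_iff, norm_inv]
  exact inv_lt_of_inv_lt₀ h0 hz.1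

theorem II_diff {m : ℕ} {R R' : ℝ} (h0 : 0 < R') {f df g dg : ℕ → ℂ} (hf : Bnd R f)
    (hdf : Bnd R df) (hg : Bnd R' g) (hd : Bnd R' dg) (a a' : ℂ) :
    DifferentiableOn ℂ (II m f df g dg a a') (Ann R'⁻¹ R) := by
  have sub : Ann R'⁻¹ R ⊆ ball 0 R := fun z hz => mem_ball_zero_iff.2 hz.2
  have di : DifferentiableOn ℂ (fun z : ℂ => z⁻¹) (Ann R'⁻¹ R) :=
    differentiableOn_id.inv fun z hz => laur_ann_ne (inv_pos.2 h0).le hz
  have out : ∀ G : ℂ → ℂ, DifferentiableOn ℂ G (ball 0 R') →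
      DifferentiableOn ℂ (fun z => G z⁻¹) (Ann R'⁻¹ R) := fun G hG =>
    hG.comp di fun z hz => slb_inv h0 hz
  have f1 := (slb_flat_diff hf m).mono sub
  have g1 := out _ (slb_flat_diff hg m)
  exact ((((out _ hd.diff).fun_mul f1).fun_add (g1.fun_mul (hdf.diff.mono sub))).fun_sub
    (((out _ hg.diff).fun_mul f1).const_mul a)).fun_sub
    ((g1.fun_mul (hf.diff.mono sub)).const_mul a')

/-- the form is continuous in the output -/
theorem II_tendsto {m : ℕ} {R R' r : ℝ} (h0 : 0 < R') (h1 : R'⁻¹ < r) (h2 : r < R)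
    {f df : ℕ → ℂ} (hf : Bnd R f) (hdf : Bnd R df) {u du : ℕ → BS} {v dv : BS}
    (hu : Tendsto u atTop (𝓝 v)) (hdu : Tendsto du atTop (𝓝 dv)) (a a' : ℂ) :
    TendstoUniformlyOn (fun k => II m f df (un R' (u k)) (un R' (du k)) a a')
      (II m f df (un R' v) (un R' dv) a a') atTop (sphere 0 r) := by
  have sa : sphere (0 : ℂ) r ⊆ Ann R'⁻¹ R := laur_sph ⟨h1, h2⟩
  have inn : ∀ G : ℂ → ℂ, DifferentiableOn ℂ G (ball 0 R) →
      ContinuousOn (fun q : (BS × BS) × ℂ => G q.2) (univ ×ˢ sphere 0 r) := fun G hG =>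
    hG.continuousOn.comp continuousOn_snd fun q hq => mem_ball_zero_iff.2 (sa hq.2).2
  have out : ∀ (G : BS × ℂ → ℂ) (p : BS × BS → BS), Continuous p →
      DifferentiableOn ℂ G (univ ×ˢ ball 0 R') →
      ContinuousOn (fun q : (BS × BS) × ℂ => G (p q.1, q.2⁻¹)) (univ ×ˢ sphere 0 r) :=
    fun G p hp hG => hG.continuousOn.comp ((hp.comp continuous_fst).continuousOn.prodMk
      (continuousOn_snd.inv₀ fun q hq => laur_ann_ne (inv_pos.2 h0).le (sa hq.2)))
      fun q hq => ⟨mem_univ _, slb_inv h0 (sa hq.2)⟩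
  have f1 := inn _ (slb_flat_diff hf m)
  have g1 := out _ _ continuous_fst (hol_ser_flat m R' h0)
  have hc : ContinuousOn (uncurry fun (p : BS × BS) (z : ℂ) =>
      II m f df (un R' p.1) (un R' p.2) a a' z) (univ ×ˢ sphere 0 r) :=
    ((((out _ _ continuous_snd (hol_ser R' h0)).mul f1).add (g1.mul (inn _ hdf.diff))).sub
      (continuousOn_const.mul ((out _ _ continuous_fst (hol_ser R' h0)).mul f1))).sub
      (continuousOn_const.mul (g1.mul (inn _ hf.diff)))
  rw [Metric.tendstoUniformlyOn_iff]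
  intro ε hε
  obtain ⟨V, hV, h⟩ := (isCompact_sphere 0 r).mem_uniformity_of_prod hc (mem_univ (v, dv))
    (dist_mem_uniformity hε)
  rw [nhdsWithin_univ] at hV
  filter_upwards [(hu.prodMk_nhds hdu).eventually hV] with k hk z hz
  rw [dist_comm]
  exact h _ hk z hz

end Pool.Agent.MP_098ecc_co.H97
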