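import Pool.Agent.MP_098ecc_co.H97.Prim
import Pool.Agent.MP_098ecc_co.H97.Ext
import Pool.Agent.MP_098ecc_co.H97.Slb

set_option autoImplicit false

namespace Pool.Agent.MP_098ecc_co.H97

open Metric Filter Topology Set Function
open scoped BoundedContinuousFunction

/-- generating series of the weights -/
noncomputable def paS (L : Set ℕ) (v : ℂ) : ℂ := ∑' l, ind ℂ L l * v ^ (l - 1)

theorem pa_root {m : ℕ} (hm : 0 < m) {s : ℝ} (hs : 0 < s) : ∃ r : ℝ, 0 < r ∧ r ^ m = s :=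
  ⟨s ^ (m⁻¹ : ℝ), Real.rpow_pos_of_pos hs _, Real.rpow_inv_natCast_pow hs.le hm.ne'⟩

theorem pa_inv {P : ℂ → ℂ} {v : ℂ} (hP : AnalyticAt ℂ P v) (h : deriv P v ≠ 0) :
    ∃ ψ : ℂ → ℂ, Tendsto ψ (𝓝 (P v)) (𝓝 v) ∧
      (∀ᶠ s in 𝓝 (P v), DifferentiableAt ℂ ψ s ∧ P (ψ s) = s) ∧ ∀ᶠ w in 𝓝 v, ψ (P w) = w := by
  have hf : ContDiffAt ℂ 1 P v := hP.contDiffAt
  have hf' := hP.differentiableAt.hasDerivAt.hasFDerivAt_equiv h
  have hs := hf.hasStrictFDerivAt' hf' one_ne_zero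
  refine ⟨hf.localInverse hf' one_ne_zero, hs.localInverse_tendsto, ?_, hs.eventually_left_inverse⟩
  filter_upwards [(hf.to_localInverse hf' one_ne_zero).eventually (by simp),
    hs.eventually_right_inverse] with s h1 h2
  exact ⟨h1.differentiableAt one_ne_zero, h2⟩

theorem pa_nc {a b : ℝ} (h0 : 0 ≤ a) {F : ℂ → ℂ} (hF : DifferentiableOn ℂ F (Ann a b)) {p q : ℂ}
    (hp : p ∈ Ann a b) (hq : q ∈ Ann a b) (h : F p ≠ F q) :
    ∀ w ∈ Ann a b, ¬ ∀ᶠ u in 𝓝 w, F u = F w := by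
  intro w hw he
  have hc : IsPreconnected (Ann a b) := by simpa using ann_conn (r₂ := b) h0 countable_empty
  have := hol_ident (laur_ann_open a b) hc (f := fun u => F u - F w) (hF.sub_const _) hw
    (he.mono fun u hu => sub_eq_zero.2 hu)
  exact h ((sub_eq_zero.1 (this p hp)).trans (sub_eq_zero.1 (this q hq)).symm)

theorem pa_count {U : Set ℂ} (hU : IsOpen U) {F : ℂ → ℂ} (hF : DifferentiableOn ℂ F U)
    (h : ∀ w ∈ U, ¬ ∀ᶠ u in 𝓝 w, F u = F w) {n : ℕ} (hn : 0 < n) :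
    {w ∈ U | F w ^ n = 1}.Countable := by
  have h1 : {s : ℂ | s ^ n = 1}.Finite := by
    refine (Polynomial.nthRoots n (1 : ℂ)).toFinset.finite_toSet.subset fun s hs => ?_
    simpa [Polynomial.mem_nthRoots hn] using hs
  have h2 : ∀ s : ℂ, {w ∈ U | F w = s}.Countable := by
    intro s
    refine (HereditarilyLindelofSpace.isLindelof _).countable_of_isDiscrete
      (isDiscrete_iff_nhdsNE.2 fun w hw => ?_)
    rcases (hF.analyticAt (hU.mem_nhds hw.1)).eventually_eq_or_eventually_ne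
      (analyticAt_const (v := F w)) with h3 | h3
    · exact absurd h3 (h w hw.1)
    · refine inf_principal_eq_bot.2 (h3.mono fun u hu h4 => hu ?_)
      rw [h4.2, hw.2]
  refine (h1.countable.biUnion fun s _ => h2 s).mono fun w hw => ?_
  exact mem_iUnion₂.2 ⟨F w, hw.2, hw.1, rfl⟩

theorem pa_ind0 {L : Set ℕ} (hL : 0 ∉ L) : ind ℂ L 0 = 0 := by simp [ind, hL]

theorem pa_shift {L : Set ℕ} (hL : 0 ∉ L) : paS L = ser fun k => ind ℂ L (k + 1) := by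
  funext v
  rw [paS, ← Nat.succ_injective.tsum_eq]
  · rfl
  · intro l hl
    cases l with
    | zero => simp [pa_ind0 hL] at hl
    | succ l => exact ⟨l, rfl⟩

theorem pa_mul {L : Set ℕ} (hL : 0 ∉ L) (b : ℂ) : ser (ind ℂ L) b = b * paS L b := by
  rw [paS, ← tsum_mul_left, ser]
  refine tsum_congr fun l => ?_
  cases l with
  | zero => simp [pa_ind0 hL]
  | succ l => rw [Nat.add_sub_cancel]; ring

theorem pa_ball {L : Set ℕ} (hL : 0 ∉ L) : DifferentiableOn ℂ (paS L) (ball 0 1) := by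
  rw [pa_shift hL]
  refine Bnd.diff ⟨1, fun i => ?_⟩
  simp only [ind]
  split_ifs <;> simp

theorem pa_fin {L : Set ℕ} (hL : 0 ∉ L) (hf : L.Finite) : DifferentiableOn ℂ (paS L) univ := by
  rw [pa_shift hL]
  intro z _
  refine ((slb_diff (R := ‖z‖ + 1) fun w _ => ?_).differentiableAt
    (isOpen_ball.mem_nhds (by simp))).differentiableWithinAt
  refine summable_of_hasFiniteSupport ((hf.preimage Nat.succ_injective.injOn).subset fun k hk => ?_)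
  by_contra h
  exact hk (by simp [ind, show k + 1 ∉ L from h])

theorem pa_omega {L : Set ℕ} (hL : 0 ∉ L) {B : ℝ} (hB : 0 ≤ B) (hb : Adm L B ∨ B = 1)
    (hper : H85.EvPer L → Adm L B) : ∃ (Ω : Set ℂ) (G : ℂ → ℂ) (n : ℕ), 0 < n ∧ IsOpen Ω ∧
      DifferentiableOn ℂ G Ω ∧
      (∀ v ∈ Ω, ‖v‖ ≤ B → Adm L ‖v‖ ∧ ∀ᶠ v' in 𝓝 v, G v' = ∑' l, ind ℂ L l * v' ^ (l - 1)) ∧
      ((¬ H85.EvPer L ∧ Ω = ball 0 1 ∧ G = paS L ∧ B ≤ 1) ∨ ∀ v ∉ Ω, v ^ n = 1) ∧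
      ∀ β : ℝ, 0 ≤ β → (β : ℂ) ∈ Ω → (Adm L β ∨ ¬ H85.EvPer L) → Adm L β ∧ G β = paS L β := by
  by_cases hf : L.Finite
  · exact ⟨univ, paS L, 1, one_pos, isOpen_univ, pa_fin hL hf, fun v _ _ =>
      ⟨adm_of_finite hf _, Eventually.of_forall fun _ => rfl⟩, Or.inr fun v hv => (hv trivial).elim,
      fun β _ _ _ => ⟨adm_of_finite hf _, rfl⟩⟩
  by_cases hp : H85.EvPer L
  · obtain ⟨n, hn, N, hN⟩ := rat_of_evPer hp
    have key : ∀ v : ℂ, ‖v‖ < 1 → N.eval v / (1 - v ^ n) = paS L v := by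
      intro v hv
      have : 1 - v ^ n ≠ 0 := fun e => by
        have := congrArg norm (sub_eq_zero.1 e)
        rw [norm_one, norm_pow] at this
        exact (pow_lt_one₀ (norm_nonneg v) hv hn.ne').ne this.symm
      rw [← hN v hv, paS, mul_div_cancel_left₀ _ this]
    have hB1 := (adm_iff hf hB).1 (hper hp)
    refine ⟨{v | v ^ n ≠ 1}, fun v => N.eval v / (1 - v ^ n), n, hn,
      isOpen_ne_fun (by fun_prop) continuous_const, ?_, fun v _ hv => ?_,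
      Or.inr fun v hv => by simpa using hv, fun β h0 _ h => ?_⟩
    · exact N.differentiable.differentiableOn.div (by fun_prop) fun v hv =>
        sub_ne_zero.2 (Ne.symm hv)
    · refine ⟨(adm_iff hf (norm_nonneg v)).2 (hv.trans_lt hB1), ?_⟩
      filter_upwards [isOpen_ball.mem_nhds (mem_ball_zero_iff.2 (hv.trans_lt hB1))] with v' hv'
      exact key v' (mem_ball_zero_iff.1 hv')
    · have ha := h.resolve_right (not_not.2 hp)
      exact ⟨ha, key β (by simpa [abs_of_nonneg h0] using (adm_iff hf h0).1 ha)⟩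
  · refine ⟨ball 0 1, paS L, 1, one_pos, isOpen_ball, pa_ball hL, fun v hv _ =>
      ⟨(adm_iff hf (norm_nonneg v)).2 (mem_ball_zero_iff.1 hv), Eventually.of_forall fun _ => rfl⟩,
      Or.inl ⟨hp, rfl, rfl, hb.elim (fun h => ((adm_iff hf hB).1 h).le) le_of_eq⟩,
      fun β h0 h _ => ⟨(adm_iff hf h0).2 ?_, rfl⟩⟩
    simpa [abs_of_nonneg h0] using h

theorem pa_sum {R : ℝ} {f : ℕ → ℝ} (hf : ∀ i, 0 ≤ f i) (hb : Bnd R (cx f)) {s : ℝ} (h0 : 0 ≤ s)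
    (hs : s < R) : Summable fun i => f i * s ^ i := by
  simpa [abs_of_nonneg (hf _)] using hb.laur_sum h0 hs

theorem pa_pos {f : ℕ → ℝ} (hf : ∀ i, 0 ≤ f i) (f0 : 0 < f 0) {s : ℝ} (h0 : 0 ≤ s)
    (hs : Summable fun i => f i * s ^ i) : 0 < ser f s :=
  hs.tsum_pos (fun i => mul_nonneg (hf i) (pow_nonneg h0 i)) 0 (by simpa using f0)

theorem pa_pow (m : ℕ) (f : ℕ → ℂ) (w : ℂ) : Bv m f (w ^ m) = yw m f w ^ m := by
  rw [Bv, yw, div_pow]

theorem pa_real (m : ℕ) (f : ℕ → ℝ) (r : ℝ) :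
    yw m (cx f) r = ((ser f (r ^ m) / r : ℝ) : ℂ) := by
  rw [yw, ← Complex.ofReal_pow, ser_ofReal, Complex.ofReal_div]

theorem pa_Bv (m : ℕ) (f : ℕ → ℝ) (s : ℝ) : Bv m (cx f) s = ((Bv m f s : ℝ) : ℂ) := by
  rw [Bv, Bv, ser_ofReal, Complex.ofReal_div, Complex.ofReal_pow]

theorem pa_der {m : ℕ} {R : ℝ} {f : ℕ → ℂ} (hb : Bnd R f) {w : ℂ} (h0 : w ≠ 0)
    (hw : ‖w‖ ^ m < R) : HasDerivAt (yw m f) (ser (flat m f) (w ^ m) / w ^ 2) w := by
  have hw' : ‖w ^ m‖ < R := by rwa [norm_pow]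
  have h1 := (hb.diff.differentiableAt
    (isOpen_ball.mem_nhds (mem_ball_zero_iff.2 hw'))).hasDerivAt
  have h2 := (HasDerivAt.comp w (h := fun y : ℂ => y ^ m) h1 (hasDerivAt_pow m w)).fun_div
    (hasDerivAt_id w) h0
  rw [hb.ser_flat m hw']
  refine HasDerivAt.congr_deriv h2 ?_
  simp only [comp_apply, id]
  cases m with
  | zero => simp
  | succ m => rw [Nat.add_sub_cancel]; ring

theorem pa_lt (m : ℕ) {R : ℝ} {v : ℂ} (hv : ‖v‖ ^ m < R) : ∀ᶠ w : ℂ in 𝓝 v, ‖w‖ ^ m < R :=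
  (continuous_norm.pow m).continuousAt.eventually_lt continuousAt_const hv

theorem pa_an {m : ℕ} {R : ℝ} {f : ℕ → ℂ} (hb : Bnd R f) {w : ℂ} (h0 : w ≠ 0)
    (hw : ‖w‖ ^ m < R) : AnalyticAt ℂ (yw m f) w := by
  rw [Complex.analyticAt_iff_eventually_differentiableAt]
  filter_upwards [pa_lt m hw, isOpen_ne.mem_nhds h0] with u h1 h2
  exact (pa_der hb h2 h1).differentiableAt

theorem pa_big {m : ℕ} (hm : 0 < m) {R : ℝ} (hR : 0 < R) {f : ℕ → ℂ} (hb : Bnd R f) (f0 : f 0 ≠ 0)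
    (M : ℝ) : ∃ δ > (0 : ℝ), ∀ w : ℂ, w ≠ 0 → ‖w‖ < δ → ‖w‖ ^ m < R ∧ M < ‖yw m f w‖ := by
  have h1 : ContinuousAt (fun w : ℂ => ser f (w ^ m)) 0 :=
    ContinuousAt.comp (hb.diff.continuousOn.continuousAt
      (isOpen_ball.mem_nhds (by simpa [hm.ne'] using hR))) (by fun_prop)
  have h2 : ser f 0 = f 0 := by
    rw [ser, tsum_eq_single 0 fun n hn => by simp [hn]]
    simp
  have h3 : ∀ᶠ w : ℂ in 𝓝 0, M * ‖w‖ < ‖ser f (w ^ m)‖ :=
    ContinuousAt.eventually_lt (by fun_prop) h1.norm (by simpa [hm.ne', h2] using f0)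
  obtain ⟨δ, hδ, h⟩ := Metric.eventually_nhds_iff.1
    (h3.and (pa_lt m (v := 0) (by simpa [hm.ne'] using hR)))
  refine ⟨δ, hδ, fun w h0 hw => ?_⟩
  obtain ⟨h4, h5⟩ := h (y := w) (by simpa using hw)
  exact ⟨h5, by rwa [yw, norm_div, lt_div_iff₀ (norm_pos_iff.2 h0)]⟩

theorem pa_aper {f : ℕ → ℝ} (f1 : 0 < f 1) : Aper {i | 0 < f i} := fun _ hg =>
  Nat.dvd_one.1 (hg 1 f1)

theorem pa_mid {m : ℕ} (hm : 0 < m) {f : ℕ → ℝ} {z R : ℝ} (hc : Crit m f z) (f0 : 0 < f 0)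
    (f1 : 0 < f 1) (hb : Bnd R (cx f)) {r : ℝ} (hr : 0 < r) (h1 : z < r ^ m) (h2 : r ^ m < R)
    {w : ℂ} (h3 : z < ‖w‖ ^ m) (h4 : ‖w‖ ^ m < R) (he : yw m (cx f) w = yw m (cx f) r) :
    r ≤ ‖w‖ ∧ (‖w‖ = r → w = r) := by
  have hw : 0 < ‖w‖ := by
    refine (norm_nonneg w).lt_of_ne fun e => ?_
    rw [← e, zero_pow hm.ne'] at h3
    exact lt_asymm h3 hc.pos
  have s1 := pa_sum hc.nn hb (pow_nonneg hr.le m) h2
  have s2 := pa_sum hc.nn hb (pow_nonneg hw.le m) h4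
  have p1 := pa_pos hc.nn f0 (pow_nonneg hr.le m) s1
  have e1 : ‖ser (cx f) (w ^ m)‖ / ‖w‖ = ser f (r ^ m) / r := by
    rw [← norm_div, ← yw, he, pa_real, Complex.norm_real, Real.norm_of_nonneg (by positivity)]
  have e2 := (norm_ser_le hc.nn s2 (ζ := w ^ m) (norm_pow w m).le).1
  rw [norm_pow] at e2
  refine ⟨?_, fun e => ?_⟩
  · have : Bv m f (r ^ m) ≤ Bv m f (‖w‖ ^ m) := by
      rw [Bv, Bv, ← div_pow, ← div_pow, ← e1]
      gcongr
    exact le_of_pow_le_pow_left₀ hm.ne' hw.le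
      (((hc.Bv_mono hm f0 hb).1.le_iff_le ⟨h1.le, h2⟩ ⟨h3.le, h4⟩).1 this)
  · rw [e, div_left_inj' hr.ne'] at e1
    have e3 := aper hc.nn f0 (pa_aper f1) s1 (ζ := w ^ m) (by rw [norm_pow, e]) e1
    rw [yw, yw, e3, Complex.ofReal_pow] at he
    have h5 : ser (cx f) ((r : ℂ) ^ m) ≠ 0 := by
      rw [← Complex.ofReal_pow, ser_ofReal]
      exact Complex.ofReal_ne_zero.2 p1.ne'
    exact inv_injective (mul_left_cancel₀ h5 (by simpa only [div_eq_mul_inv] using he))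

end Pool.Agent.MP_098ecc_co.H97
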