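import Pool.Agent.MP_098ecc_co.H97.Roots

set_option autoImplicit false

namespace Pool.Agent.MP_098ecc_co.H97

open Metric Filter Topology Set Function

theorem rig_int {W : Set (ℂ × ℂ)} (hW : IsOpen W) {Φ : ℂ × ℂ → ℂ} (hΦ : DifferentiableOn ℂ Φ W)
    {c : ℂ} {r : ℝ} (hr : 0 < r) {p : ℂ} (hp : ∀ z ∈ sphere c r, (p, z) ∈ W) :
    HasDerivAt (fun x => ∮ z in C(c, r), Φ (x, z)) (∮ z in C(c, r), fderiv ℂ Φ (p, z) (1, 0)) p := by
  obtain ⟨η, hη, h1⟩ := nhds_basis_closedBall.eventually_iff.mp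
    ((isCompact_sphere c r).eventually_forall_of_forall_eventually (x₀ := p)
      (P := fun x z => (x, z) ∈ W) fun z hz => hW.mem_nhds (hp z hz))
  have hsub : closedBall p η ×ˢ sphere c r ⊆ W := fun q hq => h1 hq.1 _ hq.2
  have hD : ContinuousOn (fun q => fderiv ℂ Φ q (1, 0)) W :=
    (hol_fderiv hW hΦ).continuousOn.clm_apply continuousOn_const
  obtain ⟨C, hC⟩ := ((isCompact_closedBall p η).prod
    (isCompact_sphere c r)).exists_bound_of_continuousOn (hD.mono hsub)
  have hm : ∀ x ∈ closedBall p η, ∀ t, (x, circleMap c r t) ∈ closedBall p η ×ˢ sphere c r :=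
    fun x hx t => ⟨hx, circleMap_mem_sphere c hr.le t⟩
  have hd : Continuous (deriv (circleMap c r)) := by
    have : deriv (circleMap c r) = fun t => circleMap 0 r t * Complex.I :=
      funext (deriv_circleMap c r)
    rw [this]
    fun_prop
  have hc : ∀ x ∈ closedBall p η,
      Continuous fun t => deriv (circleMap c r) t • Φ (x, circleMap c r t) := fun x hx =>
    hd.smul (hΦ.continuousOn.comp_continuous (by fun_prop) fun t => hsub (hm x hx t))
  have hp' := mem_closedBall_self (x := p) hη.le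
  refine (intervalIntegral.hasDerivAt_integral_of_dominated_loc_of_deriv_le
    (F := fun x t => deriv (circleMap c r) t • Φ (x, circleMap c r t))
    (F' := fun x t => deriv (circleMap c r) t • fderiv ℂ Φ (x, circleMap c r t) (1, 0))
    (bound := fun _ => r * C)
    (closedBall_mem_nhds p hη) ?_ ((hc p hp').intervalIntegrable _ _) ?_ ?_
    intervalIntegrable_const ?_).2
  · exact mem_of_superset (closedBall_mem_nhds p hη) fun x hx => (hc x hx).aestronglyMeasurable
  · exact (hd.smul (hD.comp_continuous (f := fun t => (p, circleMap c r t)) (by fun_prop)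
      fun t => hsub (hm p hp' t))).aestronglyMeasurable
  · refine Eventually.of_forall fun t _ x hx => ?_
    rw [norm_smul, deriv_circleMap, norm_mul, Complex.norm_I, mul_one, norm_circleMap_zero,
      abs_of_pos hr]
    exact mul_le_mul_of_nonneg_left (hC _ (hm x hx t)) hr.le
  · refine Eventually.of_forall fun t _ x hx => ?_
    have h2 := (hΦ.differentiableAt (hW.mem_nhds (hsub (hm x hx t)))).hasFDerivAt
    exact (h2.comp_hasDerivAt x ((hasDerivAt_id x).prodMk
      (hasDerivAt_const x (circleMap c r t)))).const_smul (deriv (circleMap c r) t)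

theorem rig_slice {E : Type} [NormedAddCommGroup E] [NormedSpace ℂ E] {W : Set (E × ℂ)}
    {f : E × ℂ → ℂ} (h1 : IsOpen W) (h2 : DifferentiableOn ℂ f W) (p : E) {K : Set ℂ}
    (h3 : ∀ z ∈ K, (p, z) ∈ W) : AnalyticOnNhd ℂ (fun z => f (p, z)) K := by
  have h4 : DifferentiableOn ℂ (fun z => f (p, z)) (Prod.mk p ⁻¹' W) :=
    h2.comp (by fun_prop) fun z hz => hz
  exact (h4.analyticOnNhd (h1.preimage (Continuous.prodMk_right p))).mono h3

theorem rig_dsnd {E : Type} [NormedAddCommGroup E] [NormedSpace ℂ E] {f : E × ℂ → ℂ} {p : E} {z : ℂ}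
    (h : DifferentiableAt ℂ f (p, z)) :
    HasDerivAt (fun z => f (p, z)) (fderiv ℂ f (p, z) (0, 1)) z :=
  h.hasFDerivAt.comp_hasDerivAt z ((hasDerivAt_const z p).prodMk (hasDerivAt_id z))

theorem rig_dfst {f : ℂ × ℂ → ℂ} {p z : ℂ} (h : DifferentiableAt ℂ f (p, z)) :
    HasDerivAt (fun p => f (p, z)) (fderiv ℂ f (p, z) (1, 0)) p :=
  h.hasFDerivAt.comp_hasDerivAt p ((hasDerivAt_id p).prodMk (hasDerivAt_const p z))

theorem rig_roots {E : Type} [NormedAddCommGroup E] [NormedSpace ℂ E] [FiniteDimensional ℂ E]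
    {W : Set (E × ℂ)} (hW : IsOpen W) {h : E × ℂ → ℂ} (hh : DifferentiableOn ℂ h W) {O : Set E}
    (hO : IsPreconnected O) {z₀ : ℂ} {δ : ℝ} (hδ : 0 < δ) (hOW : O ×ˢ closedBall z₀ δ ⊆ W)
    (hne : ∀ p ∈ O, ∀ z ∈ sphere z₀ δ, h (p, z) ≠ 0) :
    ∃ (k : ℕ) (R : E → Multiset ℂ), (∀ p ∈ O, (R p).card = k ∧ (∀ z ∈ R p, z ∈ ball z₀ δ) ∧
        (∀ z ∈ ball z₀ δ, (z ∈ R p ↔ h (p, z) = 0) ∧
          ((R p).count z : ℕ∞) = analyticOrderAt (fun z => h (p, z)) z) ∧
        ∀ φ : ℂ → ℂ, DiffContOnCl ℂ φ (ball z₀ δ) → 2 * Real.pi * Complex.I * ((R p).map φ).sum =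
          ∮ z in C(z₀, δ), φ z * (deriv (fun z => h (p, z)) z / h (p, z))) ∧
      ∀ f : E × ℂ → ℂ, DifferentiableOn ℂ f W →
        DifferentiableOn ℂ (fun p => ((R p).map fun z => f (p, z)).sum) O ∧
        ∀ i, DifferentiableOn ℂ (fun p => ((R p).map fun z => f (p, z)).esymm i) O := by
  let W₀ := W ∩ h ⁻¹' {0}ᶜ
  have hW₀ : IsOpen W₀ := hh.continuousOn.isOpen_inter_preimage hW isOpen_compl_singleton
  have e4 : ∀ p ∈ O, ∀ z ∈ closedBall z₀ δ, (p, z) ∈ W := fun p hp z hz => hOW ⟨hp, hz⟩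
  have e5 : ∀ p ∈ O, ∀ z ∈ sphere z₀ δ, (p, z) ∈ W₀ := fun p hp z hz =>
    ⟨e4 p hp z (sphere_subset_closedBall hz), hne p hp z hz⟩
  have ex : ∀ p, ∃ R : Multiset ℂ, p ∈ O → (∀ z ∈ R, z ∈ ball z₀ δ) ∧
      (∀ z ∈ ball z₀ δ, (z ∈ R ↔ h (p, z) = 0) ∧
        (R.count z : ℕ∞) = analyticOrderAt (fun z => h (p, z)) z) ∧
      ∀ φ : ℂ → ℂ, DiffContOnCl ℂ φ (ball z₀ δ) → 2 * Real.pi * Complex.I * (R.map φ).sum =
        ∮ z in C(z₀, δ), φ z * (deriv (fun z => h (p, z)) z / h (p, z)) := by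
    intro p
    by_cases hp : p ∈ O
    · obtain ⟨R, hR⟩ := roots_one hδ (rig_slice hW hh p (e4 p hp)) (hne p hp)
      exact ⟨R, fun _ => hR⟩
    · exact ⟨0, fun e => absurd e hp⟩
  choose R hR using ex
  have hsum : ∀ f : E × ℂ → ℂ, DifferentiableOn ℂ f W →
      DifferentiableOn ℂ (fun p => ((R p).map fun z => f (p, z)).sum) O := by
    intro f h4
    have h5 : DifferentiableOn ℂ (fun q => f q * (fderiv ℂ h q (0, 1) / h q)) W₀ := by
      have s1 : W₀ ⊆ W := fun q hq => hq.1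
      exact (h4.mono s1).mul
        ((((hol_fderiv hW hh).mono s1).clm_apply (differentiableOn_const _)).mul
          ((hh.mono s1).inv fun q hq => hq.2))
    have h6 : DifferentiableOn ℂ (fun p => (2 * Real.pi * Complex.I)⁻¹ *
        ∮ z in C(z₀, δ), f (p, z) * (fderiv ℂ h (p, z) (0, 1) / h (p, z))) O := fun p hp =>
      ((roots_int hW₀ h5 hδ (e5 p hp)).const_mul _).differentiableWithinAt
    refine h6.congr fun p hp => ?_
    have h7 := (rig_slice hW h4 p (e4 p hp)).differentiableOn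
    rw [eq_inv_mul_iff_mul_eq₀ Complex.two_pi_I_ne_zero,
      (hR p hp).2.2 _ (h7.diffContOnCl_ball subset_rfl)]
    refine circleIntegral.integral_congr hδ.le fun z hz => ?_
    simp only [(rig_dsnd (hh.differentiableAt (hW.mem_nhds (e5 p hp z hz).1))).deriv]
  have hcard : ContinuousOn (fun p => (R p).card) O := by
    have h1 := (hsum (fun _ => 1) (differentiableOn_const _)).continuousOn.norm
    rw [Nat.isClosedEmbedding_coe_real.isInducing.continuousOn_iff]
    simpa [comp_def] using h1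
  have hk : ∃ k, ∀ p ∈ O, (R p).card = k := by
    rcases O.eq_empty_or_nonempty with rfl | ⟨p₀, hp₀⟩
    · exact ⟨0, fun p hp => hp.elim⟩
    · exact ⟨_, fun p hp => hO.constant hcard hp hp₀⟩
  obtain ⟨k, hk⟩ := hk
  refine ⟨k, R, fun p hp => ⟨hk p hp, hR p hp⟩, fun f h4 => ⟨hsum f h4, fun i => ?_⟩⟩
  induction i using Nat.strong_induction_on with
  | _ i ih =>
    rcases Nat.eq_zero_or_pos i with rfl | hi
    · simp [Multiset.esymm, differentiableOn_const]
    have h5 : DifferentiableOn ℂ (fun p => (i : ℂ)⁻¹ * ((-1) ^ (i + 1) *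
        ∑ a ∈ Finset.HasAntidiagonal.antidiagonal i with a.1 < i, (-1) ^ a.1 *
          ((R p).map fun z => f (p, z)).esymm a.1 * ((R p).map fun z => f (p, z) ^ a.2).sum))
        O := by
      refine (DifferentiableOn.fun_sum fun a ha => ?_).const_mul _ |>.const_mul _
      exact ((ih _ (Finset.mem_filter.mp ha).2).const_mul _).mul
        (hsum (fun q => f q ^ a.2) (h4.pow _))
    refine h5.congr fun p _ => ?_
    rw [eq_inv_mul_iff_mul_eq₀ (Nat.cast_ne_zero.mpr hi.ne'), roots_newton]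
    simp only [Multiset.map_map, comp_def]

theorem rig_psum {s t : Multiset ℂ} (hc : s.card = t.card)
    (h : ∀ j : ℕ, (s.map fun z => z ^ j).sum = (t.map fun z => z ^ j).sum) : s = t := by
  have he : ∀ i, s.esymm i = t.esymm i := by
    intro i
    induction i using Nat.strong_induction_on with
    | _ i ih =>
      rcases Nat.eq_zero_or_pos i with rfl | hi
      · simp [Multiset.esymm]
      have h0 : (i : ℂ) ≠ 0 := Nat.cast_ne_zero.mpr hi.ne'
      refine mul_left_cancel₀ h0 ?_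
      rw [roots_newton, roots_newton]
      refine congrArg _ (Finset.sum_congr rfl fun a ha => ?_)
      rw [ih _ (Finset.mem_filter.mp ha).2, h]
  rw [← Polynomial.roots_multiset_prod_X_sub_C s, ← Polynomial.roots_multiset_prod_X_sub_C t,
    Multiset.prod_X_sub_X_eq_sum_esymm, Multiset.prod_X_sub_X_eq_sum_esymm, hc]
  simp only [he]

theorem rig_esymm (t : Multiset ℂ) : (0 ::ₘ t).esymm t.card = t.prod := by
  have h1 := Multiset.prod_X_add_C_coeff (0 ::ₘ t) (k := 1) (by simp)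
  have h2 := Multiset.prod_X_add_C_coeff t (k := 0) (by simp)
  simp only [Multiset.card_cons, add_tsub_cancel_right, Multiset.map_cons, map_zero, add_zero,
    Multiset.prod_cons, Polynomial.coeff_X_mul] at h1
  rw [← h1, Polynomial.coeff_zero_multiset_prod]
  simp

end Pool.Agent.MP_098ecc_co.H97
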