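import Pool.Agent.MP_098ecc_co.H97.RigA

set_option autoImplicit false

namespace Pool.Agent.MP_098ecc_co.H97

open Metric Filter Topology Set Function

theorem rig_closed {W : Set (ℂ × ℂ)} (hW : IsOpen W) {X Y : ℂ × ℂ → ℂ}
    (hX : DifferentiableOn ℂ X W) (hY : DifferentiableOn ℂ Y W) {v s z : ℂ} (hm : (s, z) ∈ W)
    (hv : X (s, z) - v ≠ 0) (j : ℕ)
    (hJ : fderiv ℂ X (s, z) (1, 0) * fderiv ℂ Y (s, z) (0, 1) =
      fderiv ℂ Y (s, z) (1, 0) * fderiv ℂ X (s, z) (0, 1)) :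
    ∃ d, HasDerivAt (fun s => Y (s, z) ^ j * (fderiv ℂ X (s, z) (0, 1) / (X (s, z) - v))) d s ∧
      HasDerivAt (fun z => Y (s, z) ^ j * (fderiv ℂ X (s, z) (1, 0) / (X (s, z) - v))) d z := by
  have hn := hW.mem_nhds hm
  have hD := ((hol_fderiv hW hX).differentiableAt hn).hasFDerivAt
  have hs : IsSymmSndFDerivAt ℂ X (s, z) :=
    ((hol_contDiffOn hW hX 2).contDiffAt hn).isSymmSndFDerivAt (by simp)
  have hb := (hD.comp_hasDerivAt s ((hasDerivAt_id s).prodMk (hasDerivAt_const s z))).clm_apply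
    (hasDerivAt_const s ((0, 1) : ℂ × ℂ))
  have ha := (hD.comp_hasDerivAt z ((hasDerivAt_const z s).prodMk (hasDerivAt_id z))).clm_apply
    (hasDerivAt_const z ((1, 0) : ℂ × ℂ))
  have x1 := (rig_dfst (hX.differentiableAt hn)).sub_const v
  have x2 := (rig_dsnd (hX.differentiableAt hn)).sub_const v
  have y1 := (rig_dfst (hY.differentiableAt hn)).pow j
  have y2 := (rig_dsnd (hY.differentiableAt hn)).pow j
  refine ⟨_, y1.mul (hb.div x1 hv), (y2.mul (ha.div x2 hv)).congr_deriv ?_⟩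
  simp only [map_zero, add_zero, comp_apply, id, Pi.div_apply, Pi.pow_apply]
  rw [hs (0, 1) (1, 0)]
  linear_combination (j * Y (s, z) ^ (j - 1) / (X (s, z) - v)) * hJ

theorem rig_const {W : Set (ℂ × ℂ)} (hW : IsOpen W) {X Y : ℂ × ℂ → ℂ}
    (hX : DifferentiableOn ℂ X W) (hY : DifferentiableOn ℂ Y W) {v c : ℂ} {ε δ : ℝ} (hδ : 0 < δ)
    (h : ∀ s ∈ ball (0 : ℂ) ε, ∀ z ∈ sphere c δ, (s, z) ∈ W ∧ X (s, z) - v ≠ 0 ∧
      fderiv ℂ X (s, z) (1, 0) * fderiv ℂ Y (s, z) (0, 1) =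
        fderiv ℂ Y (s, z) (1, 0) * fderiv ℂ X (s, z) (0, 1)) (j : ℕ) {s : ℂ}
    (hs : s ∈ ball (0 : ℂ) ε) :
    (∮ z in C(c, δ), Y (s, z) ^ j * (fderiv ℂ X (s, z) (0, 1) / (X (s, z) - v))) =
      ∮ z in C(c, δ), Y (0, z) ^ j * (fderiv ℂ X (0, z) (0, 1) / (X (0, z) - v)) := by
  let W₀ := W ∩ (fun q => X q - v) ⁻¹' {0}ᶜ
  have hW₀ : IsOpen W₀ :=
    (hX.continuousOn.sub continuousOn_const).isOpen_inter_preimage hW isOpen_compl_singleton
  have s1 : W₀ ⊆ W := fun q hq => hq.1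
  have h5 : DifferentiableOn ℂ (fun q => Y q ^ j * (fderiv ℂ X q (0, 1) / (X q - v))) W₀ :=
    ((hY.mono s1).pow j).mul
      ((((hol_fderiv hW hX).mono s1).clm_apply (differentiableOn_const _)).mul
        (((hX.mono s1).sub_const v).inv fun q hq => hq.2))
  have key : ∀ s ∈ ball (0 : ℂ) ε, HasDerivAt (fun s =>
      ∮ z in C(c, δ), Y (s, z) ^ j * (fderiv ℂ X (s, z) (0, 1) / (X (s, z) - v))) 0 s := by
    intro s hs
    have hm : ∀ z ∈ sphere c δ, (s, z) ∈ W₀ := fun z hz => ⟨(h s hs z hz).1, (h s hs z hz).2.1⟩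
    refine (rig_int hW₀ h5 hδ hm).congr_deriv ?_
    refine circleIntegral.integral_eq_zero_of_hasDerivWithinAt hδ.le
      (f := fun z => Y (s, z) ^ j * (fderiv ℂ X (s, z) (1, 0) / (X (s, z) - v))) fun z hz => ?_
    obtain ⟨d, h1, h2⟩ := rig_closed hW hX hY (h s hs z hz).1 (h s hs z hz).2.1 j (h s hs z hz).2.2
    rw [(rig_dfst (h5.differentiableAt (hW₀.mem_nhds (hm z hz)))).unique h1]
    exact h2.hasDerivWithinAt
  exact isOpen_ball.is_const_of_deriv_eq_zero (convex_ball _ _).isPreconnected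
    (fun s hs => (key s hs).differentiableAt.differentiableWithinAt)
    (fun s hs => (key s hs).deriv) hs (mem_ball_self (pos_of_mem_ball hs))

/-- selection of the root with a prescribed simple value -/
theorem rig_pick {R : Multiset ℂ} {g : ℂ → ℂ} {y : ℂ} {T : Multiset ℂ} (h : R.map g = y ::ₘ T)
    (hT : (T.map fun t => y - t).prod ≠ 0) :
    ∃ z ∈ R, g z = y ∧ (R.map fun z => z * ((T.map fun t => g z - t).prod /
      (T.map fun t => y - t).prod)).sum = z := by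
  classical
  obtain ⟨z, hz, e⟩ := Multiset.mem_map.mp (h ▸ Multiset.mem_cons_self y T)
  obtain ⟨R', rfl⟩ := Multiset.exists_cons_of_mem hz
  rw [Multiset.map_cons, e, Multiset.cons_inj_right] at h
  refine ⟨z, hz, e, ?_⟩
  rw [Multiset.map_cons, Multiset.sum_cons, e, div_self hT, mul_one, add_eq_left]
  refine Multiset.sum_eq_zero fun a ha => ?_
  obtain ⟨b, hb, rfl⟩ := Multiset.mem_map.mp ha
  have : (T.map fun t => g b - t).prod = 0 :=
    Multiset.prod_eq_zero (Multiset.mem_map.mpr ⟨g b, h ▸ Multiset.mem_map_of_mem g hb, sub_self _⟩)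
  rw [this, zero_div, mul_zero]

theorem rig_mprod {E : Type} [NormedAddCommGroup E] [NormedSpace ℂ E] {W : Set E} {g : E → ℂ}
    (hg : DifferentiableOn ℂ g W) (T : Multiset ℂ) :
    DifferentiableOn ℂ (fun q => (T.map fun t => g q - t).prod) W := by
  induction T using Multiset.induction_on with
  | empty => simp
  | cons a T ih =>
    simp only [Multiset.map_cons, Multiset.prod_cons]
    exact (hg.sub_const a).mul ih

end Pool.Agent.MP_098ecc_co.H97
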