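import Pool.Agent.MP_098ecc_co.H97.Hol

set_option autoImplicit false

namespace Pool.Agent.MP_098ecc_co.H97

open Metric Filter Topology Set Function

theorem satA_esymm_zero (M : Multiset ℂ) (n : ℕ) : (0 ::ₘ M).esymm n = M.esymm n := by
  cases n with
  | zero => simp [Multiset.esymm]
  | succ n => simp [Multiset.esymm, Multiset.powersetCard_cons]

theorem satA_esymm (M : Multiset ℂ) (j : ℕ) :
    (Multiset.replicate j 0 + M).esymm M.card = M.prod := by
  induction j with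
  | zero => simp [Multiset.esymm, Multiset.powersetCard_self]
  | succ j ih => rw [Multiset.replicate_succ, Multiset.cons_add, satA_esymm_zero, ih]

theorem satA_norm_prod {M : Multiset ℂ} (hM : ∀ z ∈ M, ‖z‖ ≤ 1) : ‖M.prod‖ ≤ 1 := by
  induction M using Multiset.induction_on with
  | empty => simp
  | cons a M ih =>
    rw [Multiset.prod_cons, norm_mul]
    exact mul_le_one₀ (hM a (Multiset.mem_cons_self _ _)) (norm_nonneg _)
      (ih fun z hz => hM z (Multiset.mem_cons_of_mem hz))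

theorem satA_norm_prod_le {M : Multiset ℂ} (hM : ∀ z ∈ M, ‖z‖ ≤ 1) {s : ℂ} (hs : s ∈ M) :
    ‖M.prod‖ ≤ ‖s‖ := by
  obtain ⟨M, rfl⟩ := Multiset.exists_cons_of_mem hs
  rw [Multiset.prod_cons, norm_mul]
  exact mul_le_of_le_one_right (norm_nonneg _)
    (satA_norm_prod fun z hz => hM z (Multiset.mem_cons_of_mem hz))

/-- a set locally contained in small discs has dimension at most two -/
theorem satA_dim {E : Type} [NormedAddCommGroup E] [NormedSpace ℂ E] [FiniteDimensional ℂ E]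
    {A : Set E} (thin : ∀ x ∈ A, ∃ γ : ℂ → E, ContDiffAt ℂ 1 γ 0 ∧
      ∀ ε > (0 : ℝ), ∀ᶠ y in 𝓝 x, y ∈ A → y ∈ γ '' ball 0 ε) : dimH A ≤ 2 := by
  have : ProperSpace E := FiniteDimensional.proper ℂ E
  have key : ∀ x ∈ A, ∃ t ∈ 𝓝[A] x, dimH t ≤ 2 := by
    intro x hx
    obtain ⟨γ, hγ, h⟩ := thin x hx
    obtain ⟨K, t, ht, hK⟩ := hγ.exists_lipschitzOnWith
    obtain ⟨ε, hε, hb⟩ := Metric.mem_nhds_iff.1 ht
    refine ⟨γ '' ball 0 ε, ?_, ?_⟩
    · exact eventually_nhdsWithin_iff.2 (h ε hε)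
    · refine (hK.mono hb).dimH_image_le.trans ((dimH_mono (subset_univ _)).trans ?_)
      rw [Real.dimH_univ_eq_finrank, Complex.finrank_real_complex]; simp
  choose! f hf hd using key
  obtain ⟨t, htA, htc, hcov⟩ := TopologicalSpace.countable_cover_nhdsWithin hf
  refine (dimH_mono hcov).trans ?_
  rw [dimH_bUnion htc]
  exact iSup₂_le fun x hx => hd x (htA hx)

theorem satA_dense {E : Type} [NormedAddCommGroup E] [NormedSpace ℂ E] {A : Set E}
    (hA : dimH A ≤ 2) {d : ℕ} (π : E →L[ℂ] (Fin (d + 2) → ℂ)) : Dense (π '' A)ᶜ := by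
  refine dense_compl_of_dimH_lt_finrank
    (((π.lipschitz.dimH_image_le A).trans hA).trans_lt ?_)
  rw [Module.finrank_pi_fintype]
  simp only [Complex.finrank_real_complex, Finset.sum_const, Finset.card_univ, Fintype.card_fin,
    smul_eq_mul]
  exact_mod_cast (by omega : 2 < (d + 2) * 2)

/-- a nonzero function has an isolated zero on some line -/
theorem satA_drop {d : ℕ} {y₀ : Fin (d + 1) → ℂ} {r : ℝ} (hr : 0 < r)
    {N : (Fin (d + 1) → ℂ) → ℂ} (hN : DifferentiableOn ℂ N (ball y₀ r)) {y₁ : Fin (d + 1) → ℂ}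
    (h₁ : y₁ ∈ ball y₀ r) (hne : N y₁ ≠ 0) : ∃ ρ : (Fin (d + 1) → ℂ) →L[ℂ] (Fin d → ℂ),
      ∀ᶠ y in 𝓝[≠] y₀, ¬ (N y = 0 ∧ ρ y = ρ y₀) := by
  by_cases hv : y₁ = y₀
  · subst hv
    refine ⟨0, eventually_nhdsWithin_of_eventually_nhds ?_⟩
    filter_upwards [(hN.continuousOn.continuousAt (ball_mem_nhds _ hr)).eventually_ne hne]
      with y hy h using hy h.1
  set v := y₁ - y₀ with hvd
  have hv0 : v ≠ 0 := sub_ne_zero.2 hv
  have hrk : Module.finrank ℂ ((Fin (d + 1) → ℂ) ⧸ (Submodule.span ℂ {v})) = d := by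
    have := Submodule.finrank_quotient_add_finrank (Submodule.span ℂ {v})
    rw [finrank_span_singleton hv0] at this
    simpa using this
  let e : ((Fin (d + 1) → ℂ) ⧸ (Submodule.span ℂ {v})) ≃ₗ[ℂ] (Fin d → ℂ) :=
    LinearEquiv.ofFinrankEq _ _ (by simp [hrk])
  let U : Set ℂ := (fun s : ℂ => y₀ + s • v) ⁻¹' ball y₀ r
  have hl : Differentiable ℂ fun s : ℂ => y₀ + s • v := by fun_prop
  have hU : IsOpen U := isOpen_ball.preimage hl.continuous
  have hUc : Convex ℝ U := by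
    intro a ha b hb p q hp hq hpq
    have := convex_ball y₀ r ha hb hp hq hpq
    show y₀ + (p • a + q • b) • v ∈ ball y₀ r
    convert this using 1
    rw [smul_add, smul_add, add_add_add_comm, ← add_smul, hpq, one_smul, add_smul, smul_assoc,
      smul_assoc]
  have h0 : (0 : ℂ) ∈ U := by simpa [U] using hr
  have hd : DifferentiableOn ℂ (fun s : ℂ => N (y₀ + s • v)) U :=
    hN.comp hl.differentiableOn fun _ h => h
  have hiso : ∀ᶠ s in 𝓝[≠] (0 : ℂ), N (y₀ + s • v) ≠ 0 := by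
    refine (hd.analyticAt (hU.mem_nhds h0)).eventually_eq_zero_or_eventually_ne_zero.resolve_left
      fun h => hne ?_
    simpa [hvd] using hol_ident hU hUc.isPreconnected hd h0 h 1 (by simpa [U, hvd] using h₁)
  obtain ⟨ε, hε, hb⟩ := Metric.eventually_nhds_iff.1 (eventually_nhdsWithin_iff.1 hiso)
  refine ⟨LinearMap.toContinuousLinearMap (e.toLinearMap ∘ₗ (Submodule.span ℂ {v}).mkQ),
    eventually_nhdsWithin_iff.2 ?_⟩
  filter_upwards [ball_mem_nhds y₀ (mul_pos hε (norm_pos_iff.2 hv0))] with y hy hne' ⟨h1, h2⟩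
  have h3 : y - y₀ ∈ Submodule.span ℂ {v} := by
    rw [← Submodule.Quotient.eq]
    exact e.injective h2
  obtain ⟨s, hs⟩ := Submodule.mem_span_singleton.1 h3
  have hy' : y = y₀ + s • v := by rw [hs]; abel
  refine hb (y := s) ?_ (fun h => hne' ?_) (hy' ▸ h1)
  · rw [mem_ball, dist_eq_norm, ← hs, norm_smul] at hy
    simpa using lt_of_mul_lt_mul_right hy (norm_nonneg _)
  · rw [mem_singleton_iff] at h ⊢
    rw [hy', h, zero_smul, add_zero]

end Pool.Agent.MP_098ecc_co.H97
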