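import Pool.Agent.MP_098ecc_co.H97.Elim
import Pool.Agent.MP_098ecc_co.H97.SatA

set_option autoImplicit false

namespace Pool.Agent.MP_098ecc_co.H97

open Metric Filter Topology Set Function
open scoped BoundedContinuousFunction

/-- norms over the nonzero values of `g` on the fibres of a finite projection -/
theorem sat_norm {E Y : Type} [NormedAddCommGroup E] [NormedSpace ℂ E] [FiniteDimensional ℂ E]
    [NormedAddCommGroup Y] [NormedSpace ℂ Y] [FiniteDimensional ℂ Y] {ι : Type} [Finite ι]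
    {W : Set E} (hW : IsOpen W) {h : ι → E → ℂ} (hh : ∀ i, DifferentiableOn ℂ (h i) W)
    {g : E → ℂ} (hg : DifferentiableOn ℂ g W) {x₀ : E} (hm : x₀ ∈ W) (hg0 : g x₀ = 0)
    (π : E →L[ℂ] Y) (iso : ∀ᶠ x in 𝓝[≠] x₀, ¬ ((∀ i, h i x = 0) ∧ π x = π x₀)) :
    ∃ r > (0 : ℝ), ∃ W', IsOpen W' ∧ x₀ ∈ W' ∧ W' ⊆ W ∧ (∀ x ∈ W', π x ∈ ball (π x₀) r) ∧
      ∃ e : Y → ℂ, DifferentiableOn ℂ e (ball (π x₀) r) ∧ (∃ y₁ ∈ ball (π x₀) r, e y₁ ≠ 0) ∧
        (∀ x ∈ W', (∀ i, h i x = 0) → g x ≠ 0 → ‖e (π x)‖ ≤ ‖g x‖) ∧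
        ∀ y ∈ ball (π x₀) r, e y ≠ 0 → (∀ x ∈ W, (∀ i, h i x = 0) → g x ≠ 0 → π x ≠ y) →
          ∃ N : Y → ℂ, DifferentiableOn ℂ N (ball (π x₀) r) ∧ N y ≠ 0 ∧
            ∀ x ∈ W', (∀ i, h i x = 0) → g x ≠ 0 → N (π x) = 0 := by
  classical
  have hφ : DifferentiableOn ℂ (fun x => (π x, g x)) W := π.differentiableOn.prodMk hg
  obtain ⟨V, hV, hxV, hVW, O, hO, hyO, n, G, hG, hiff⟩ := elim hW hh hφ hm
    (iso.mono fun x hx h' => hx ⟨h'.1, congrArg Prod.fst h'.2⟩) _ (eventually_nhdsWithin_iff.1 iso)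
  rw [hg0] at hyO
  have hl : Differentiable ℂ fun s : ℂ => (π x₀, s) := by fun_prop
  have hOs : ∀ᶠ s in 𝓝 (0 : ℂ), (π x₀, s) ∈ O := hl.continuous.continuousAt (hO.mem_nhds hyO)
  obtain ⟨k₁, hk₁⟩ : ∃ k₁, ∀ᶠ s in 𝓝[≠] (0 : ℂ), G k₁ (π x₀, s) ≠ 0 := by
    by_contra hc
    push Not at hc
    have hz : ∀ k, ∀ᶠ s in 𝓝 (0 : ℂ), G k (π x₀, s) = 0 := fun k => by
      have hd : DifferentiableOn ℂ (fun s : ℂ => G k (π x₀, s)) ((fun s => (π x₀, s)) ⁻¹' O) :=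
        (hG k).comp hl.differentiableOn fun _ h => h
      exact (hd.analyticAt hOs).eventually_eq_zero_or_eventually_ne_zero.resolve_right
        fun h' => (hc k) (h'.mono fun s hs => hs)
    obtain ⟨s, ⟨hs1, hs2⟩, hs0⟩ := ((((eventually_all.2 hz).and hOs).filter_mono
      (nhdsWithin_le_nhds (s := {0}ᶜ))).and self_mem_nhdsWithin).exists
    obtain ⟨x, hx, hx0, hxe⟩ := (hiff _ hs2).1 hs1
    by_cases hxx : x = x₀
    · exact hs0 (by rw [mem_singleton_iff, ← hg0, ← hxx]; exact (congrArg Prod.snd hxe).symm)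
    · exact (hVW hx).1 hxx ⟨hx0, congrArg Prod.fst hxe⟩
  obtain ⟨δ, ⟨O₁, hO₁, hy₁, hsub, k, R, hR, -, hol⟩, hδ⟩ :=
    ((roots hO (hG k₁) hyO hk₁).and (Ioo_mem_nhdsGT one_pos)).exists
  obtain ⟨r, hr, hb⟩ := Metric.isOpen_iff.1 hO₁ _ hy₁
  obtain ⟨y₁, hy₁b, hmin⟩ := (wellFounded_lt (α := ℕ)).has_min
    ((fun y => (R y).count 0) '' ball (π x₀) r) ⟨_, _, mem_ball_self hr, rfl⟩
  obtain ⟨y₁, hy₁b, rfl⟩ := hy₁b
  set k₀ := (R y₁).count 0 with hk₀
  let R' : Y → Multiset ℂ := fun y => R y - Multiset.replicate k₀ 0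
  have hdec : ∀ y ∈ ball (π x₀) r, R y = Multiset.replicate k₀ 0 + R' y := fun y hy =>
    (add_tsub_cancel_of_le (Multiset.le_count_iff_replicate_le.1
      (not_lt.1 (hmin _ ⟨y, hy, rfl⟩)))).symm
  have hnorm : ∀ f : Y × ℂ → ℂ, DifferentiableOn ℂ f O →
      DifferentiableOn ℂ (fun y => ((R' y).map fun s => s * f (y, s)).prod) (ball (π x₀) r) := by
    intro f hf
    refine ((hol O _ (fun q => q.2 * f q) hO isOpen_ball hb
      ((prod_mono hb subset_rfl).trans hsub) (differentiableOn_snd.mul hf)).2 (k - k₀)).congr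
      fun y hy => ?_
    have hc : k - k₀ = ((R' y).map fun s => s * f (y, s)).card := by
      have := congrArg Multiset.card (hdec y hy)
      rw [(hR y (hb hy)).1] at this
      simp only [Multiset.card_add, Multiset.card_replicate, Multiset.card_map] at this ⊢
      omega
    rw [hdec y hy, Multiset.map_add, Multiset.map_replicate, zero_mul, hc, satA_esymm]
  have hball : ∀ y ∈ ball (π x₀) r, ∀ s ∈ R' y, s ∈ ball (0 : ℂ) δ := fun y hy s hs =>
    (hR y (hb hy)).2.2.1 s (by rw [hdec y hy]; exact Multiset.mem_add.2 (Or.inr hs))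
  let W' : Set E := (V ∩ π ⁻¹' ball (π x₀) r) ∩ (W ∩ g ⁻¹' ball 0 δ)
  have hkey : ∀ x ∈ W', (∀ i, h i x = 0) → g x ≠ 0 →
      g x ∈ R' (π x) ∧ ∀ k, G k (π x, g x) = 0 := by
    rintro x ⟨⟨h1, h2⟩, -, h3⟩ h4 h5
    have h6 := (hiff (π x, g x) (hsub ⟨hb h2, ball_subset_closedBall h3⟩)).2 ⟨x, h1, h4, rfl⟩
    have h7 := ((hR _ (hb h2)).2.2.2.1 _ h3).1.2 (h6 k₁)
    rw [hdec _ h2, Multiset.mem_add, Multiset.mem_replicate] at h7
    exact ⟨h7.resolve_left fun h8 => h5 h8.2, h6⟩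
  refine ⟨r, hr, W', (hV.inter (isOpen_ball.preimage π.continuous)).inter
    (hg.continuousOn.isOpen_inter_preimage hW isOpen_ball),
    ⟨⟨hxV, mem_ball_self hr⟩, hm, by simpa [hg0] using hδ.1⟩, fun x hx => hx.2.1,
    fun x hx => hx.1.2, fun y => (R' y).prod, ?_, ⟨y₁, hy₁b, ?_⟩, fun x hx h1 h2 => ?_,
    fun y hy he hno => ?_⟩
  · simpa using hnorm (fun _ => 1) (differentiableOn_const _)
  · rw [Ne, Multiset.prod_eq_zero_iff, ← Multiset.count_eq_zero]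
    simp [R', hk₀]
  · refine satA_norm_prod_le (fun z hz => ?_) (hkey x hx h1 h2).1
    exact ((mem_ball_zero_iff.1 (hball _ hx.1.2 z hz)).trans hδ.2).le
  · have hs0 : ∀ s ∈ R' y, s ≠ 0 := fun s hs h0 => he (Multiset.prod_eq_zero (h0 ▸ hs))
    obtain ⟨f, hf⟩ := Module.exists_dual_forall_apply_ne_zero (K := ℂ)
      (fun s : (R' y).toFinset => fun k => G k (y, s)) fun s h0 => by
        have hs := Multiset.mem_toFinset.1 s.2
        obtain ⟨x, hx, hx0, hxe⟩ := (hiff _ (hsub ⟨hb hy,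
          ball_subset_closedBall (hball y hy s hs)⟩)).1 fun k => congrFun h0 k
        refine hno x (hVW hx).2 hx0 ?_ (congrArg Prod.fst hxe)
        rw [show g x = s from congrArg Prod.snd hxe]
        exact hs0 s hs
    refine ⟨_, hnorm (fun q => f fun k => G k q)
      ((LinearMap.toContinuousLinearMap f).differentiable.comp_differentiableOn
        (differentiableOn_pi.2 hG)), ?_, fun x hx h1 h2 => ?_⟩
    · rw [Ne, Multiset.prod_eq_zero_iff, Multiset.mem_map]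
      rintro ⟨s, hs, h0⟩
      exact mul_ne_zero (hs0 s hs) (hf ⟨s, Multiset.mem_toFinset.2 hs⟩) h0
    · obtain ⟨h3, h4⟩ := hkey x hx h1 h2
      refine Multiset.prod_eq_zero (Multiset.mem_map.2 ⟨g x, h3, ?_⟩)
      rw [show (fun k => G k (π x, g x)) = 0 from funext h4, map_zero, mul_zero]

theorem sat_pull {E Y : Type} [NormedAddCommGroup E] [NormedSpace ℂ E] [NormedAddCommGroup Y]
    [NormedSpace ℂ Y] {P : E → Prop} {Q : Y → Prop} {x₀ : E} (π : E →L[ℂ] Y)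
    (iso : ∀ᶠ x in 𝓝[≠] x₀, ¬ (P x ∧ π x = π x₀)) (h : ∀ᶠ y in 𝓝[≠] (π x₀), ¬ Q y) :
    ∀ᶠ x in 𝓝[≠] x₀, ¬ (P x ∧ Q (π x)) := by
  filter_upwards [iso, nhdsWithin_le_nhds
    (π.continuous.continuousAt (eventually_nhdsWithin_iff.1 h))] with x h1 h2 h3
  exact h2 (fun h4 => h1 ⟨h3.1, h4⟩) h3.2

theorem sat_closed {E : Type} [NormedAddCommGroup E] {W W' : Set E} (hW' : IsOpen W')
    {A : Set E} {x : E} (hx : x ∈ W') (hc : x ∈ closure A) {a b : E → ℝ} (ha : ContinuousOn a W)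
    (hb : ContinuousOn b W) (hs : W' ⊆ W) (h : ∀ y ∈ W', y ∈ A → a y ≤ b y) : a x ≤ b x :=
  ContinuousWithinAt.closure_le (hW'.inter_closure ⟨hx, hc⟩)
    ((ha.continuousAt (mem_of_superset (hW'.mem_nhds hx) hs)).continuousWithinAt)
    ((hb.continuousAt (mem_of_superset (hW'.mem_nhds hx) hs)).continuousWithinAt)
    fun y hy => h y hy.1 hy.2

theorem sat_ind {E : Type} [NormedAddCommGroup E] [NormedSpace ℂ E] [FiniteDimensional ℂ E]
    {g : E → ℂ} {x₀ : E} (hg0 : g x₀ = 0) (d : ℕ) : ∀ (ι : Type) [Finite ι] (W : Set E)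
    (h : ι → E → ℂ) (π : E →L[ℂ] (Fin d → ℂ)), IsOpen W → (∀ i, DifferentiableOn ℂ (h i) W) →
    DifferentiableOn ℂ g W → x₀ ∈ W → dimH {y | y ∈ W ∧ (∀ i, h i y = 0) ∧ g y ≠ 0} ≤ 2 →
    (∀ᶠ x in 𝓝[≠] x₀, ¬ ((∀ i, h i x = 0) ∧ π x = π x₀)) →
    ∀ᶠ x in 𝓝[≠] x₀, x ∈ closure {y | y ∈ W ∧ (∀ i, h i y = 0) ∧ g y ≠ 0} → g x ≠ 0 := by
  have hZ : ∀ (ι : Type) (W : Set E) (h : ι → E → ℂ), IsOpen W →
      (∀ i, DifferentiableOn ℂ (h i) W) → ∀ x ∈ W,
      x ∈ closure {y | y ∈ W ∧ (∀ i, h i y = 0) ∧ g y ≠ 0} → ∀ i, h i x = 0 :=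
    fun ι W h hW hh x hx hc i => norm_le_zero_iff.1 (sat_closed hW hx hc
      (hh i).continuousOn.norm continuousOn_const subset_rfl fun y _ hy => by simp [hy.2.1 i])
  induction d with
  | zero =>
    intro ι _ W h π hW hh hg hm _ iso
    filter_upwards [iso, nhdsWithin_le_nhds (hW.mem_nhds hm)] with x h1 h2 hc
    exact absurd ⟨hZ ι W h hW hh x h2 hc, Subsingleton.elim _ _⟩ h1
  | succ d ih =>
    intro ι _ W h π hW hh hg hm hdim iso
    obtain ⟨r, hr, W', hW', hm', hs, hπ, e, he, ⟨y₁, hy₁, hey⟩, hle, hN⟩ :=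
      sat_norm hW hh hg hm hg0 π iso
    cases d with
    | zero =>
      obtain ⟨ρ, hρ⟩ := satA_drop hr he hy₁ hey
      filter_upwards [sat_pull π iso hρ, nhdsWithin_le_nhds (hW'.mem_nhds hm')] with x h1 h2 hc h0
      refine h1 ⟨hZ ι W h hW hh x (hs h2) hc, ?_, Subsingleton.elim _ _⟩
      have := sat_closed hW' h2 hc (he.continuousOn.comp π.continuous.continuousOn hπ).norm
        (hg.mono hs).continuousOn.norm subset_rfl fun y hy hA => hle y hy hA.2.1 hA.2.2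
      simpa [h0] using this
    | succ d =>
      obtain ⟨y, hy, hyA⟩ := mem_closure_iff_nhds.1 (satA_dense hdim π y₁) _
        ((he.continuousOn.continuousAt (isOpen_ball.mem_nhds hy₁)).eventually_ne hey |>.and
          (isOpen_ball.mem_nhds hy₁))
      obtain ⟨N, hNd, hNy, hN0⟩ := hN y hy.2 hy.1 fun x h1 h2 h3 h4 => hyA ⟨x, ⟨h1, h2, h3⟩, h4⟩
      obtain ⟨ρ, hρ⟩ := satA_drop hr hNd hy.2 hNy
      have := ih (Option ι) W' (fun o => o.elim (fun x => N (π x)) h) (ρ.comp π) hW'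
        (fun o => by
          cases o with
          | none => exact hNd.comp π.differentiableOn hπ
          | some i => exact (hh i).mono hs) (hg.mono hs) hm'
        (le_trans (dimH_mono fun y hy => And.intro (hs hy.1)
          (And.intro (fun i => hy.2.1 (some i)) hy.2.2)) hdim)
        ((sat_pull π iso hρ).mono fun x h1 h2 => h1 ⟨fun i => h2.1 (some i), h2.1 none, h2.2⟩)
      filter_upwards [this, nhdsWithin_le_nhds (hW'.mem_nhds hm')] with x h1 h2 hc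
      refine h1 (closure_mono ?_ (hW'.inter_closure ⟨h2, hc⟩))
      rintro y ⟨h3, -, h4, h5⟩
      refine ⟨h3, fun o => ?_, h5⟩
      cases o with
      | none => exact hN0 y h3 h4 h5
      | some i => exact h4 i

/-- saturation: the closure of a thin part `Z ∖ {g = 0}` meets `g = 0` in an isolated point -/
theorem sat {E F : Type} [NormedAddCommGroup E] [NormedSpace ℂ E] [FiniteDimensional ℂ E]
    [NormedAddCommGroup F] [NormedSpace ℂ F] [FiniteDimensional ℂ F] {W : Set E} (hW : IsOpen W)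
    {h : E → F} (hh : DifferentiableOn ℂ h W) {g : E → ℂ} (hg : DifferentiableOn ℂ g W) {x₀ : E}
    (hm : x₀ ∈ W) (thin : ∀ x ∈ W, h x = 0 → g x ≠ 0 → ∃ γ : ℂ → E, ContDiffAt ℂ 1 γ 0 ∧
      ∀ ε > (0 : ℝ), ∀ᶠ y in 𝓝 x, h y = 0 → y ∈ γ '' ball 0 ε) :
    ∀ᶠ x in 𝓝[≠] x₀, x ∈ closure {y | y ∈ W ∧ h y = 0 ∧ g y ≠ 0} → g x ≠ 0 := by
  by_cases hg0 : g x₀ = 0
  swap
  · filter_upwards [nhdsWithin_le_nhds
      ((hg.continuousOn.continuousAt (hW.mem_nhds hm)).eventually_ne hg0)] with x hx _ using hx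
  let e := (Module.finBasis ℂ F).equivFun.toContinuousLinearEquiv
  let p := (Module.finBasis ℂ E).equivFun.toContinuousLinearEquiv
  have hA : {y | y ∈ W ∧ h y = 0 ∧ g y ≠ 0} = {y | y ∈ W ∧ (∀ i, e (h y) i = 0) ∧ g y ≠ 0} := by
    ext y
    simp only [mem_ofPred_eq, ← e.map_eq_zero_iff (x := h y), funext_iff, Pi.zero_apply]
  have hdim := satA_dim (A := {y | y ∈ W ∧ h y = 0 ∧ g y ≠ 0}) fun x hx => by
    obtain ⟨γ, h1, h2⟩ := thin x hx.1 hx.2.1 hx.2.2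
    exact ⟨γ, h1, fun ε hε => (h2 ε hε).mono fun y hy hyA => hy hyA.2.1⟩
  rw [hA] at hdim ⊢
  refine sat_ind hg0 _ _ W (fun i y => e (h y) i) p.toContinuousLinearMap hW
    (differentiableOn_pi.1 (e.differentiable.comp_differentiableOn hh)) hg hm hdim ?_
  filter_upwards [self_mem_nhdsWithin] with x hx h1 using hx (p.injective h1.2)

end Pool.Agent.MP_098ecc_co.H97
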