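import Pool.Agent.MP_098ecc_co.H97.SeqA
import Pool.Agent.MP_098ecc_co.H97.ChartM
import Pool.Agent.MP_098ecc_co.H97.LocB
import Pool.Agent.MP_098ecc_co.H97.Mono

set_option autoImplicit false
set_option linter.unusedSectionVars false

namespace Pool.Agent.MP_098ecc_co.H97

open Metric Filter Topology Set Function
open scoped BoundedContinuousFunction

variable {κ W₁ W₂ : Type} [Fintype κ] [DecidableEq κ] [NormedAddCommGroup W₁] [NormedSpace ℂ W₁]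
  [FiniteDimensional ℂ W₁] [NormedAddCommGroup W₂] [NormedSpace ℂ W₂] [FiniteDimensional ℂ W₂]
  {S₁ : Side κ W₁} {S₂ : Side κ W₂}

theorem seq_eqX {D : Dat} {t : ℂ} {X Y : ℕ → ℂ} (E : Eqs D t X Y) (n : ℕ) :
    X n = t * sT D.m (ind ℂ D.L₂) Y n + if n = 0 then t else 0 := by
  rcases Nat.eq_zero_or_pos n with rfl | h
  · rw [E.x0, if_pos rfl, add_comm]
    rfl
  · rw [E.hx n h, if_neg h.ne', add_zero]

theorem seq_un_e (R : ℝ) (u : BS) (c : ℂ) (n : ℕ) :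
    un R (u + c • holE 0) n = un R u n + if n = 0 then c else 0 := by
  rw [seq_un_lin, Pi.add_apply, Pi.smul_apply]
  congr 1
  by_cases h : n = 0 <;> simp [un, seq_holE, h]

theorem seq_fs {D : Dat} (hc : Compat D.m S₁ S₂) (L₁ : S₁.L = D.L₁) (L₂ : S₂.L = D.L₂)
    {b : κ → ℂ} {τ : ℂ} {e : Ful W₁ W₂} {X Y : ℕ → ℂ} (hτ : τ ≠ 0) (E : Eqs D (τ ^ S₁.M) X Y)
    (hX : un S₁.Rin e.2.2.1 = τ ^ S₁.k • X) (hY : un S₂.Rin e.2.2.2 = Y)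
    (r₁ : SeqRe D.m S₁ b (P₁ τ e)) (r₂ : SeqRe D.m S₂ b (P₂ τ e)) : FS S₁ S₂ b τ e := by
  refine ⟨r₁.mem, r₂.mem, r₁.aux, r₂.aux, fun n => ?_, ?_, fun n hn => ?_⟩
  · have h1 : un S₁.Rin e.2.2.1 n = un S₁.Rin (S₂.out (b, P₂ τ e) + τ ^ S₂.M • holE 0) n := by
      rw [seq_un_e, hX, hc.r₁, r₂.out n, hY, hc.k₂, L₂, hc.M₂, Pi.smul_apply, seq_eqX E]
      by_cases h : n = 0 <;> simp [h] <;> ring
    rw [seq_un_inj hc.s₁.rad.1 h1]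
    by_cases h : n = 0 <;> simp [seq_holE, h]
  · have := congrFun hY 0
    rw [E.y0] at this
    simpa [un] using this
  · refine seq_un_inj hc.s₂.rad.1 ?_
    rw [hY, ← hc.r₂, r₁.out n, hX, L₁, E.hy n hn, inv_smul_smul₀ (pow_ne_zero _ hτ)]

theorem seq_b1 {m : ℕ} (hc : Compat m S₁ S₂) {α : Type} {i : κ} (hi : i ∈ S₁.I) (x y : α) :
    (if i ∈ S₂.I then x else y) = y := if_neg ((hc.hI i).1 hi)

theorem seq_ball {D : Dat} (hc : Compat D.m S₁ S₂) {p : Amb} {τ : ℂ} {e : Ful W₁ W₂}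
    (r₁ : IsReal D.m S₁ τ e.1 e.2.2.1 p.z₁ (p.B₁ D))
    (r₂ : IsReal D.m S₂ τ e.2.1 e.2.2.2 p.z₂ (p.B₂ D)) (i : κ) :
    ∃ r : ℝ, 0 ≤ r ∧ r < 1 ∧ bOf D S₂ p i = r := by
  obtain ⟨_, _, -, -, a1, -⟩ := r₁
  obtain ⟨_, _, -, -, a2, -⟩ := r₂
  by_cases h : i ∈ S₂.I
  · exact ⟨_, (a2 i h).2.1, (a2 i h).2.2.1, if_pos h⟩
  · exact ⟨_, (a1 i ((hc.hI i).2 h)).2.1, (a1 i ((hc.hI i).2 h)).2.2.1, if_neg h⟩

theorem seq_ball' {D : Dat} (hc : Compat D.m S₁ S₂) {p : Amb} {τ : ℂ} {e : Ful W₁ W₂}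
    (r₁ : IsReal D.m S₁ τ e.1 e.2.2.1 p.z₁ (p.B₁ D))
    (r₂ : IsReal D.m S₂ τ e.2.1 e.2.2.2 p.z₂ (p.B₂ D)) : bOf D S₂ p ∈ ball (0 : κ → ℂ) 1 :=
  mem_ball_zero_iff.2 ((pi_norm_lt_iff one_pos).2 fun i => by
    obtain ⟨r, h1, h2, h3⟩ := seq_ball hc r₁ r₂ i
    rwa [h3, Complex.norm_real, Real.norm_of_nonneg h1])

/-- no kernel at a regular solution -/
theorem seq_ker {D : Dat} (hc : Compat D.m S₁ S₂) (L₁ : S₁.L = D.L₁) (L₂ : S₂.L = D.L₂)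
    {p : Amb} {τ : ℂ} {e de : Ful W₁ W₂} (hp : Regu D p) (hτ : τ ≠ 0) (ht : τ ^ S₁.M = p.t)
    (hX : un S₁.Rin e.2.2.1 = τ ^ S₁.k • p.cX) (hY : un S₂.Rin e.2.2.2 = p.cY)
    (r₁ : IsReal D.m S₁ τ e.1 e.2.2.1 p.z₁ (p.B₁ D))
    (r₂ : IsReal D.m S₂ τ e.2.1 e.2.2.2 p.z₂ (p.B₂ D)) (z₁ : p.z₁ < S₁.Rin) (z₂ : p.z₂ < S₂.Rin)
    (hF : FS S₁ S₂ (bOf D S₂ p) τ e) (hT : TS S₁ S₂ (bOf D S₂ p) τ e 0 0 de)
    (j₁ : ∀ i ∈ S₁.I, S₁.j de.1 = 0) (j₂ : ∀ i ∈ S₂.I, S₂.j de.2.1 = 0) : de = 0 := by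
  have hb := seq_ball' hc r₁ r₂
  have k0 : τ ^ S₁.k ≠ 0 := pow_ne_zero _ hτ
  have o₁ := seq_lin hc.s₁ r₁ hb (fun i hi => seq_b1 hc hi _ _) hT.a₁ j₁
  have o₂ := seq_lin hc.s₂ r₂ hb (fun i hi => if_pos hi) hT.a₂ j₂
  obtain ⟨C, hC⟩ := bnd_un _ hc.s₁.rad.1 de.2.2.1
  obtain ⟨h1, h2⟩ := hp ((τ ^ S₁.k)⁻¹ • un S₁.Rin de.2.2.1) (un S₂.Rin de.2.2.2) _ _ z₁ z₂
    ⟨‖(τ ^ S₁.k)⁻¹‖ * C, fun i => by
      rw [Pi.smul_apply, norm_smul, mul_assoc]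
      exact mul_le_mul_of_nonneg_left (hC i) (norm_nonneg _)⟩ (bnd_un _ hc.s₂.rad.1 _)
    (by simp [un, hT.y0])
    (fun i => by
      have a := o₂ i
      rw [hc.k₂, hY, L₂, hc.M₂, ← hc.r₁, pow_zero, inv_one, one_smul, one_smul, pow_add, ht] at a
      have a' : un S₁.Rin de.2.2.1 i = un S₁.Rin (lineDeriv ℂ S₂.out
          (bOf D S₂ p, (τ, e.2.1, e.2.2.2)) (0, (0, de.2.1, de.2.2.2))) i := by
        simp only [un, hT.hx i, mul_zero, ite_self, add_zero]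
      rw [Pi.smul_apply, a', a, smul_eq_mul]
      field_simp)
    fun i hi => by
      have a := o₁ i
      rw [hX, L₁, hc.r₂, ht, inv_smul_smul₀ k0] at a
      rw [← a]
      simp only [un, hT.hy i hi]
  refine de_zero hc (ball_subset_closedBall hb) hF hT (seq_un_ext hc.s₁.rad.1 ?_)
    (seq_un_ext hc.s₂.rad.1 ?_)
  · rw [seq_un_zero]
    exact (smul_eq_zero.1 h1).resolve_left (inv_ne_zero k0)
  · rw [seq_un_zero, h2]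

/-- the holomorphic branch in the spaces of bounded sequences -/
theorem seq_uv {D : Dat} (hc : Compat D.m S₁ S₂) (L₁ : S₁.L = D.L₁) (L₂ : S₂.L = D.L₂)
    {p : Amb} {τ : ℂ} {e : Ful W₁ W₂} (hp : Pos D p) (hτ : τ ≠ 0) (ht : τ ^ S₁.M = p.t)
    (hX : un S₁.Rin e.2.2.1 = τ ^ S₁.k • p.cX) (hY : un S₂.Rin e.2.2.2 = p.cY)
    (r₁ : IsReal D.m S₁ τ e.1 e.2.2.1 p.z₁ (p.B₁ D))
    (r₂ : IsReal D.m S₂ τ e.2.1 e.2.2.2 p.z₂ (p.B₂ D))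
    (rad : S₁.Rin * p.z₂ ≤ 1 ∨ S₂.Rin * p.z₁ ≤ 1) {X Y : ℂ → ℕ → ℂ} {a b : ℝ}
    (hb : Br D p X Y a b) : ∃ U V : ℂ → BS, U τ = e.2.2.1 ∧ V τ = e.2.2.2 ∧
      ∀ᶠ s in 𝓝 τ, DifferentiableAt ℂ U s ∧ DifferentiableAt ℂ V s ∧
        un S₁.Rin (U s) = s ^ S₁.k • X (s ^ S₁.M) ∧ un S₂.Rin (V s) = Y (s ^ S₁.M) := by
  have tt : Tendsto (fun s : ℂ => s ^ S₁.M) (𝓝 τ) (𝓝 (p.t : ℂ)) := by
    rw [← ht]
    exact (continuous_pow _).continuousAt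
  obtain ⟨C, hC⟩ := hb.bd
  have u0 : ∀ U : BS, un S₁.Rin U = τ ^ S₁.k • X (τ ^ S₁.M) → U = e.2.2.1 := fun U h =>
    seq_un_ext hc.s₁.rad.1 (by rw [h, hX, ht, hb.x0])
  have v0 : ∀ V : BS, un S₂.Rin V = Y (τ ^ S₁.M) → V = e.2.2.2 := fun V h =>
    seq_un_ext hc.s₂.rad.1 (by rw [h, hY, ht, hb.y0])
  suffices h : ∃ U V : ℂ → BS, ∀ᶠ s in 𝓝 τ, DifferentiableAt ℂ U s ∧ DifferentiableAt ℂ V s ∧
      un S₁.Rin (U s) = s ^ S₁.k • X (s ^ S₁.M) ∧ un S₂.Rin (V s) = Y (s ^ S₁.M) by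
    obtain ⟨U, V, h⟩ := h
    exact ⟨U, V, u0 _ h.self_of_nhds.2.2.1, v0 _ h.self_of_nhds.2.2.2, h⟩
  rcases rad with h | h
  · have h1 : S₁.Rin < a := lt_of_le_of_lt (by
      rw [← one_mul p.z₂⁻¹]; exact (le_mul_inv_iff₀ hp.c₂.pos).2 h) hb.ha.2
    obtain ⟨U, hU⟩ := seq_lift hc.s₁.rad.1 h1 (F := fun s => s ^ S₁.k • X (s ^ S₁.M)) (s₀ := τ)
      (C := (‖τ ^ S₁.k‖ + 1) * C) (by
        filter_upwards [tt.eventually hC, ((continuous_pow S₁.k).norm.continuousAt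
          (x := τ)).eventually (ge_mem_nhds (lt_add_one _))] with s a1 a2 i
        rw [Pi.smul_apply, norm_smul, mul_assoc]
        exact mul_le_mul a2 (a1 i).1 (norm_nonneg _) (by positivity))
      (by
        filter_upwards [tt.eventually hb.diff] with s a1 i
        exact (differentiableAt_pow _).mul ((a1 i).1.comp s (differentiableAt_pow _)))
    obtain ⟨w, bb, a1, a2, a3, -⟩ := seq_real r₁
    rw [← u0 _ hU.self_of_nhds.2] at a2 a3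
    obtain ⟨O, hO⟩ := seq_out hc.s₁ a2 (hU.mono fun s hs => hs.1) fun i hi => by
      rw [(a3 i hi).1, Complex.norm_real, Real.norm_of_nonneg (a3 i hi).2.1]
      exact (a3 i hi).2.2.1
    refine ⟨U, fun s => O s + (1 - O s 0) • holE 0, ?_⟩
    filter_upwards [hU, hO, tt.eventually hb.eqs, isOpen_ne.mem_nhds hτ] with s b1 b2 b3 b4
    refine ⟨b1.1, b2.1.add ((((laur_eval 0 _).comp s b2.1).const_sub 1).smul_const _), b1.2,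
      funext fun n => ?_⟩
    rw [seq_un_e]
    rcases Nat.eq_zero_or_pos n with rfl | hn
    · simp [un, b3.y0]
    · rw [if_neg hn.ne', add_zero, ← hc.r₂, b2.2 n, b1.2, L₁, b3.hy n hn,
        inv_smul_smul₀ (pow_ne_zero _ b4)]
  · have h1 : S₂.Rin < b := lt_of_le_of_lt (by
      rw [← one_mul p.z₁⁻¹]; exact (le_mul_inv_iff₀ hp.c₁.pos).2 h) hb.hb.2
    obtain ⟨V, hV⟩ := seq_lift hc.s₂.rad.1 h1 (F := fun s => Y (s ^ S₁.M)) (s₀ := τ) (C := C)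
      ((tt.eventually hC).mono fun s hs i => (hs i).2)
      ((tt.eventually hb.diff).mono fun s hs i => (hs i).2.comp s (differentiableAt_pow _))
    obtain ⟨w, bb, a1, a2, a3, -⟩ := seq_real r₂
    rw [← v0 _ hV.self_of_nhds.2] at a2 a3
    obtain ⟨O, hO⟩ := seq_out hc.s₂ a2 (hV.mono fun s hs => hs.1) fun i hi => by
      rw [(a3 i hi).1, Complex.norm_real, Real.norm_of_nonneg (a3 i hi).2.1]
      exact (a3 i hi).2.2.1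
    refine ⟨fun s => O s + s ^ S₂.M • holE 0, V, ?_⟩
    filter_upwards [hV, hO, tt.eventually hb.eqs] with s b1 b2 b3
    refine ⟨b2.1.add ((differentiableAt_pow _).smul_const _), b1.1, funext fun n => ?_, b1.2⟩
    rw [seq_un_e, hc.r₁, b2.2 n, b1.2, hc.k₂, L₂, hc.M₂, Pi.smul_apply, seq_eqX b3]
    by_cases h : n = 0 <;> simp [h] <;> ring

theorem seq_sgn {R : ℝ} {U : ℂ → BS} {bb : BS → ℂ} {F : ℂ → ℕ → ℂ} {s₀ z : ℂ} {μ : ℝ} (hμ : 0 < μ)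
    (hU : DifferentiableAt ℂ U s₀) (hb : DifferentiableAt ℂ bb (U s₀))
    (h : ∀ du, fderiv ℂ bb (U s₀) du = μ * ser (un R du) z)
    (hF : ∀ᶠ s in 𝓝 s₀, un R (U s) = F s)
    (hs : ∃ r : ℝ, r < 0 ∧ ser (fun i => deriv (fun s => F s i) s₀) z = r) :
    ∃ r : ℝ, r < 0 ∧ deriv (fun s => bb (U s)) s₀ = r := by
  obtain ⟨r, h1, h2⟩ := hs
  refine ⟨μ * r, mul_neg_of_pos_of_neg hμ h1, ?_⟩
  have a := (hb.hasFDerivAt.comp_hasDerivAt s₀ hU.hasDerivAt).deriv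
  have e : un R (deriv U s₀) = fun i => deriv (fun s => F s i) s₀ := funext fun i => by
    rw [← (seq_un_deriv R hU.hasDerivAt i).deriv]
    exact EventuallyEq.deriv_eq (hF.mono fun s hs => congrFun hs i)
  rw [h, e, h2] at a
  rw [Complex.ofReal_mul]
  exact a

/-- the branch through a good solution -/
theorem seq_curve {D : Dat} {P} (hc : Compat D.m S₁ S₂) (L₁ : S₁.L = D.L₁) (L₂ : S₂.L = D.L₂)
    {p : Amb} {τ : ℂ} {e : Ful W₁ W₂} (hp : Good D P p) (hτ : τ ≠ 0) (ht : τ ^ S₁.M = p.t)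
    (hX : un S₁.Rin e.2.2.1 = τ ^ S₁.k • p.cX) (hY : un S₂.Rin e.2.2.2 = p.cY)
    (r₁ : IsReal D.m S₁ τ e.1 e.2.2.1 p.z₁ (p.B₁ D))
    (r₂ : IsReal D.m S₂ τ e.2.1 e.2.2.2 p.z₂ (p.B₂ D))
    (rad : S₁.Rin * p.z₂ ≤ 1 ∨ S₂.Rin * p.z₁ ≤ 1) :
    ∃ (b : ℂ → κ → ℂ) (ε : ℂ → Ful W₁ W₂), b τ = bOf D S₂ p ∧ ε τ = e ∧
      (∀ᶠ s in 𝓝 τ, DifferentiableAt ℂ b s ∧ DifferentiableAt ℂ ε s ∧ b s ∈ ball (0 : κ → ℂ) 1 ∧
        FS S₁ S₂ (b s) s (ε s) ∧ (∀ i ∈ S₁.I, S₁.E i (b s, P₁ s (ε s)) = 0) ∧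
        (∀ i ∈ S₂.I, S₂.E i (b s, P₂ s (ε s)) = 0) ∧ ∃ a, ev P (s ^ S₁.M) a = 0 ∧
          Af D.m (un S₁.Rin (ε s).2.2.1) (un S₂.Rin (ε s).2.2.2) = s ^ (2 * S₁.k) * a) ∧
      (S₁.M = 1 → S₁.k = 0 → p.z₁ * p.z₂ < 1 → ∀ i, ∃ r : ℝ, r < 0 ∧
        deriv (fun s => b s i) τ = r) := by
  obtain ⟨X, Y, a, b, hb, alg⟩ := br hp
  obtain ⟨U, V, u0, v0, h⟩ := seq_uv hc L₁ L₂ hp.pos hτ ht hX hY r₁ r₂ rad hb
  have hball := seq_ball' hc r₁ r₂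
  obtain ⟨w₁, bb₁, a1, a2, a3, -⟩ := seq_real r₁
  obtain ⟨w₂, bb₂, c1, c2, c3, -⟩ := seq_real r₂
  rw [← u0] at a1 a2 a3
  rw [← v0] at c1 c2 c3
  have tt : Tendsto (fun s : ℂ => s ^ S₁.M) (𝓝 τ) (𝓝 (p.t : ℂ)) := by
    rw [← ht]
    exact (continuous_pow _).continuousAt
  have hσ : ∀ᶠ s in 𝓝 τ, DifferentiableAt ℂ (fun s : ℂ => s) s :=
    Eventually.of_forall fun _ => differentiableAt_id
  have hU := h.mono fun s hs => hs.1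
  have hV := h.mono fun s hs => hs.2.1
  have b0 : (fun i => if i ∈ S₂.I then bb₂ (V τ) else bb₁ (U τ)) = bOf D S₂ p := by
    funext i
    by_cases hi : i ∈ S₂.I
    · rw [bOf, if_pos hi, if_pos hi, (c3 i hi).1]
    · rw [bOf, if_neg hi, if_neg hi, (a3 i ((hc.hI i).2 hi)).1]
  have db : ∀ᶠ s in 𝓝 τ, DifferentiableAt ℂ
      (fun s i => if i ∈ S₂.I then bb₂ (V s) else bb₁ (U s)) s := by
    filter_upwards [seq_bb a2 hσ hU, seq_bb c2 hσ hV] with s d1 d2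
    exact seq_ite _ d2 (differentiableAt_pi.2 fun _ => d1)
  refine ⟨fun s i => if i ∈ S₂.I then bb₂ (V s) else bb₁ (U s),
    fun s => (w₁ (s, U s), w₂ (s, V s), U s, V s), b0, by simp only [a1, c1]; rw [u0, v0], ?_,
    fun m1 k0 hz i => ?_⟩
  · filter_upwards [seq_along hc.s₁ a2 hσ hU db (by simpa only [b0] using hball)
      fun s i hi => seq_b1 hc hi _ _, seq_along hc.s₂ c2 hσ hV db (by simpa only [b0] using hball)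
      fun s i hi => if_pos hi, db, h, tt.eventually hb.eqs, tt.eventually alg,
      isOpen_ne.mem_nhds hτ] with s d1 d2 d3 d4 d5 d6 d7
    refine ⟨d3, d1.2.1.prodMk (d2.2.1.prodMk (d4.1.prodMk d4.2.1)), d1.1,
      seq_fs hc L₁ L₂ d7 d5 d4.2.2.1 d4.2.2.2 d1.2.2.2 d2.2.2.2, d1.2.2.2.shell, d2.2.2.2.shell,
      _, d6, ?_⟩
    rw [d4.2.2.1, d4.2.2.2, af_smul, ← pow_mul, mul_comm S₁.k]
  · obtain ⟨mX, mY⟩ := mono hp.pos hb hz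
    rw [m1, pow_one] at ht
    rw [← ht] at mX mY
    simp only [m1, k0, pow_one, pow_zero, one_smul] at h
    by_cases hi : i ∈ S₂.I
    · obtain ⟨μ, e1, e2⟩ := (c3 i hi).2.2.2
      simp only [if_pos hi]
      exact seq_sgn e1 hV.self_of_nhds c2.self_of_nhds.2.1 e2 (h.mono fun s hs => hs.2.2.2) mY
    · obtain ⟨μ, e1, e2⟩ := (a3 i ((hc.hI i).2 hi)).2.2.2
      simp only [if_neg hi]
      exact seq_sgn e1 hU.self_of_nhds a2.self_of_nhds.2.1 e2 (h.mono fun s hs => hs.2.2.1) mX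

end Pool.Agent.MP_098ecc_co.H97
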