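import Pool.Agent.MP_098ecc_co.H97.ChartM
import Pool.Agent.MP_098ecc_co.H97.LocB
import Pool.Agent.MP_098ecc_co.H97.Mono
import Pool.Agent.MP_098ecc_co.H97.SeqB

set_option autoImplicit false
set_option linter.unusedSectionVars false

namespace Pool.Agent.MP_098ecc_co.H97

open Metric Filter Topology Set Function
open scoped BoundedContinuousFunction

variable {κ W₁ W₂ : Type} [Fintype κ] [DecidableEq κ] [NormedAddCommGroup W₁] [NormedSpace ℂ W₁]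
  [FiniteDimensional ℂ W₁] [NormedAddCommGroup W₂] [NormedSpace ℂ W₂] [FiniteDimensional ℂ W₂]
  {S₁ : Side κ W₁} {S₂ : Side κ W₂}

theorem seq_tau {D : Dat} {τ₀ : ℂ} {e₀ : Ful W₁ W₂} {p τ e} (h : SeqD D S₁ S₂ τ₀ e₀ p τ e)
    (n : ℕ) : (τ n : ℂ) ≠ 0 ∧ (τ n : ℂ) ^ S₁.M = (p n).t :=
  ⟨Complex.ofReal_ne_zero.2 (h.hτ n).1.ne', by rw [← (h.hτ n).2, Complex.ofReal_pow]⟩

theorem seq_lim {Z F : Type} [NormedAddCommGroup Z] [NormedSpace ℂ Z] [NormedAddCommGroup F]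
    [NormedSpace ℂ F] {U : Set Z} {f : (κ → ℂ) × Z → F} (hf : Reg U f) {b : ℕ → κ → ℂ}
    {z : ℕ → Z} {z₀ : Z} (hb : ∀ n, b n ∈ ball (0 : κ → ℂ) 1) (hz : ∀ n, z n ∈ U) (h₀ : z₀ ∈ U)
    (lb : Tendsto b atTop (𝓝 1)) (lz : Tendsto z atTop (𝓝 z₀)) :
    Tendsto (fun n => f (b n, z n)) atTop (𝓝 (f (1, z₀))) :=
  (hf.cont (1, z₀) ⟨isClosed_closedBall.mem_of_tendsto lb
    (Eventually.of_forall fun n => ball_subset_closedBall (hb n)), h₀⟩).tendsto.comp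
    (tendsto_nhdsWithin_iff.2 ⟨lb.prodMk_nhds lz,
      Eventually.of_forall fun n => ⟨ball_subset_closedBall (hb n), hz n⟩⟩)

theorem fs_seq {D : Dat} (hc : Compat D.m S₁ S₂) {τ₀ : ℂ} {e₀ : Ful W₁ W₂} {p τ e}
    (h : SeqD D S₁ S₂ τ₀ e₀ p τ e) : (∀ n, bOf D S₂ (p n) ∈ ball (0 : κ → ℂ) 1 ∧
      FS S₁ S₂ (bOf D S₂ (p n)) (τ n) (e n)) ∧ FS S₁ S₂ 1 τ₀ e₀ := by
  have hb := fun n => seq_ball' hc (h.r₁ n) (h.r₂ n)
  have hF : ∀ n, FS S₁ S₂ (bOf D S₂ (p n)) (τ n) (e n) := fun n =>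
    seq_fs hc h.L₁ h.L₂ (seq_tau h n).1 (by rw [(seq_tau h n).2]; exact Pos.eqsC (h.pos n).eqs)
      (h.hX n) (h.hY n) (seq_re (h.r₁ n) (hb n) fun i hi => seq_b1 hc hi _ _)
      (seq_re (h.r₂ n) (hb n) fun i hi => if_pos hi)
  refine ⟨fun n => ⟨hb n, hF n⟩, ?_⟩
  have lτ := h.lim.fst_nhds
  have le := h.lim.snd_nhds
  have l₁ : Tendsto (fun n => P₁ (τ n) (e n)) atTop (𝓝 (P₁ τ₀ e₀)) :=
    lτ.prodMk_nhds (le.fst_nhds.prodMk_nhds le.snd_nhds.snd_nhds.fst_nhds)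
  have l₂ : Tendsto (fun n => P₂ (τ n) (e n)) atTop (𝓝 (P₂ τ₀ e₀)) :=
    lτ.prodMk_nhds (le.snd_nhds.fst_nhds.prodMk_nhds le.snd_nhds.snd_nhds.snd_nhds)
  have ev : ∀ {u : ℕ → BS} {v : BS}, Tendsto u atTop (𝓝 v) → ∀ k,
      Tendsto (fun n => u n k) atTop (𝓝 (v k)) := fun h k =>
    ((laur_eval k).continuous.tendsto _).comp h
  refine ⟨h.m₁, h.m₂, ?_, ?_, fun k => ?_, ?_, fun k hk => ?_⟩
  · refine tendsto_nhds_unique (seq_lim hc.s₁.rA hb (fun n => (hF n).m₁) h.m₁ h.limb l₁) ?_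
    simpa only [fun n => (hF n).a₁] using tendsto_const_nhds
  · refine tendsto_nhds_unique (seq_lim hc.s₂.rA hb (fun n => (hF n).m₂) h.m₂ h.limb l₂) ?_
    simpa only [fun n => (hF n).a₂] using tendsto_const_nhds
  · refine tendsto_nhds_unique (ev le.snd_nhds.snd_nhds.fst_nhds k) ?_
    simp only [fun n => (hF n).hx k]
    refine (ev (seq_lim hc.s₂.rO hb (fun n => (hF n).m₂) h.m₂ h.limb l₂) k).add ?_
    split_ifs
    exacts [lτ.pow _, tendsto_const_nhds]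
  · refine tendsto_nhds_unique (ev le.snd_nhds.snd_nhds.snd_nhds 0) ?_
    simpa only [fun n => (hF n).y0] using tendsto_const_nhds
  · refine tendsto_nhds_unique (ev le.snd_nhds.snd_nhds.snd_nhds k) ?_
    simp only [fun n => (hF n).hy k hk]
    exact ev (seq_lim hc.s₁.rO hb (fun n => (hF n).m₁) h.m₁ h.limb l₁) k

theorem scaled (P : Polynomial (Polynomial ℚ)) (M k : ℕ) : ∃ (Q : Polynomial (Polynomial ℂ))
    (N : ℕ), ∀ τ a : ℂ, Q.evalEval τ (τ ^ k * a) = τ ^ N * ev P (τ ^ M) a ∧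
      τ ^ k * (Polynomial.derivative Q).evalEval τ (τ ^ k * a) =
        τ ^ N * ev (Polynomial.derivative P) (τ ^ M) a := by
  set P₀ := P.map (Polynomial.mapRingHom (algebraMap ℚ ℂ)) with hP₀
  set P' := P₀.map (Polynomial.compRingHom (Polynomial.X ^ M)) with hP'
  refine ⟨P'.scaleRoots (Polynomial.X ^ k), k * P'.natDegree, fun τ => ?_⟩
  have h1 : ∀ a : ℂ, (P'.scaleRoots (Polynomial.X ^ k)).evalEval τ (τ ^ k * a) =
      τ ^ (k * P'.natDegree) * ev P (τ ^ M) a := fun a => by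
    have := Polynomial.scaleRoots_eval₂_mul (p := P') (Polynomial.evalRingHom τ) a
      (Polynomial.X ^ k)
    simp only [Polynomial.coe_evalRingHom, Polynomial.eval_pow, Polynomial.eval_X] at this
    rw [← Polynomial.eval₂_evalRingHom, this, ← pow_mul, ev, ← hP₀,
      ← Polynomial.eval₂_evalRingHom, hP', Polynomial.eval₂_map]
    congr 2
    ext <;> simp
  refine fun a => ⟨h1 a, ?_⟩
  have d : ∀ (Q : Polynomial (Polynomial ℂ)) (t y : ℂ), HasDerivAt (fun y => Q.evalEval t y)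
      ((Polynomial.derivative Q).evalEval t y) y := fun Q t y => by
    simpa only [Polynomial.derivative_map, Polynomial.map_evalRingHom_eval] using
      (Q.map (Polynomial.evalRingHom t)).hasDerivAt y
  have d1 := (d (P'.scaleRoots (Polynomial.X ^ k)) τ (τ ^ k * a)).comp a
    ((hasDerivAt_id a).const_mul (τ ^ k))
  have d2 := (d P₀ (τ ^ M) a).const_mul (τ ^ (k * P'.natDegree))
  rw [ev, ← Polynomial.derivative_map, ← hP₀, d2.unique (d1.congr_of_eventuallyEq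
    (Eventually.of_forall fun y => (h1 y).symm)), mul_one, mul_comm]

theorem seq_hd (N : ℕ) : Differentiable ℂ (hd N : Ful W₁ W₂ → Red W₁ W₂ N) :=
  differentiable_fst.prodMk (differentiable_snd.fst.prodMk
    ((differentiable_pi.2 fun i : Fin N => (laur_eval i).comp differentiable_snd.snd.fst).prodMk
      (differentiable_pi.2 fun i : Fin N => (laur_eval i).comp differentiable_snd.snd.snd)))

/-- the reduced system is regular when the full system is -/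
theorem seq_reg {m : ℕ} (hc : Compat m S₁ S₂) {τ₀ : ℂ} {e₀ : Ful W₁ W₂} {N U T H β Λ}
    (ch : IsChart S₁ S₂ τ₀ e₀ N U T H)
    (mc : MidCore U (τ₀, hd N e₀) H (cA m S₁ S₂ T) (cj S₁ S₂ T) β Λ (cσ S₁ S₂) (cL S₁ S₂))
    {b : κ → ℂ} {τ : ℂ} {v : Red W₁ W₂ N} (hb : b ∈ ball (0 : κ → ℂ) 1) (hz : (τ, v) ∈ U)
    (hτ : τ ≠ 0) (hH : H (b, (τ, v)) = 0)
    (hE : ∀ i, EM (cL S₁ S₂) (cj S₁ S₂ T) (cσ S₁ S₂) i (b, (τ, v)) = 0)
    (ker : ∀ de, TS S₁ S₂ b τ (T (b, (τ, v))) 0 0 de → (∀ i ∈ S₁.I, S₁.j de.1 = 0) →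
      (∀ i ∈ S₂.I, S₂.j de.2.1 = 0) → de = 0) :
    Injective (fderiv ℂ (fun v => H (b, (τ, v))) v) := by
  rw [injective_iff_map_eq_zero]
  intro dv h0
  obtain ⟨a1, a2⟩ := ch.rH.hasLine_ball ch.op hb hz (0, (0, dv))
  have a3 : fderiv ℂ H (b, (τ, v)) (0, (0, dv)) = 0 := by
    rw [← h0]
    have a0 := HasFDerivAt.comp (f := fun v : Red W₁ W₂ N => (b, (τ, v))) v a1
      ((hasFDerivAt_const b v).prodMk ((hasFDerivAt_const τ v).prodMk (hasFDerivAt_id v)))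
    exact (congrArg (fun L => L dv) a0.fderiv).symm
  obtain ⟨a4, a5⟩ := ch.tan b (ball_subset_closedBall hb) _ hz hH 0 (0, dv) (Or.inl hb)
    (a2.lineDeriv.trans a3)
  obtain ⟨-, a6⟩ := ch.rT.hasLine_ball ch.op hb hz (0, (0, dv))
  rw [a6.lineDeriv] at a4 a5
  have key : ∀ i, (if i ∈ S₂.I then S₂.j (fderiv ℂ T (b, (τ, v)) (0, (0, dv))).2.1
      else S₁.j (fderiv ℂ T (b, (τ, v)) (0, (0, dv))).1) = 0 := by
    intro i
    have c1 := mc.i2 b hb _ hz hH hτ hE _ a3 i rfl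
    simp only [mul_zero] at c1
    have c2 : DifferentiableAt ℂ (EM (cL S₁ S₂) (cj S₁ S₂ T) (cσ S₁ S₂) i) (b, (τ, v)) := by
      refine ((mc.rj i).hasLine_ball ch.op hb hz 0).1.differentiableAt.sub
        (((mc.dσ i _).comp _ differentiableAt_snd.fst).mul
          (((Jf_diff _).differentiableAt (isOpen_ball.mem_nhds ?_)).comp _
            (differentiableAt_pi.1 differentiableAt_fst i)))
      exact mem_ball_zero_iff.2 ((norm_le_pi_norm b i).trans_lt (mem_ball_zero_iff.1 hb))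
    have c3 := c2.hasFDerivAt.hasLineDerivAt (0, (0, dv))
    rw [(mul_eq_zero.1 c1).resolve_left hτ] at c3
    refine HasDerivAt.unique ?_ c3
    simp only [EM, cj, Prod.fst_add, Prod.snd_add, Prod.smul_fst, Prod.smul_snd, smul_zero,
      add_zero]
    refine HasDerivAt.sub_const _ ?_
    split_ifs
    · exact (S₂.j.comp ((ContinuousLinearMap.fst ℂ _ _).comp
        (ContinuousLinearMap.snd ℂ W₁ (W₂ × BS × BS)))).hasFDerivAt.comp_hasDerivAt 0 a6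
    · exact (S₁.j.comp (ContinuousLinearMap.fst ℂ W₁ (W₂ × BS × BS))).hasFDerivAt.comp_hasDerivAt
        0 a6
  rw [ker _ a5 (fun i hi => (seq_b1 hc hi _ _).symm.trans (key i))
    fun i hi => (if_pos hi).symm.trans (key i)] at a4
  exact a4.symm

theorem seq {D : Dat} {P δ} (hB : Bez P δ) (hc : Compat D.m S₁ S₂) {τ₀ : ℂ} {e₀ : Ful W₁ W₂}
    {p τ e} (h : SeqD D S₁ S₂ τ₀ e₀ p τ e) (hg : ∀ n, Good D P (p n))
    (hδ : ∀ n, Polynomial.aeval ((p n).t : ℂ) δ ≠ 0) {N U T H β Λ}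
    (ch : IsChart S₁ S₂ τ₀ e₀ N U T H)
    (mc : MidCore U (τ₀, hd N e₀) H (cA D.m S₁ S₂ T) (cj S₁ S₂ T) β Λ (cσ S₁ S₂) (cL S₁ S₂)) :
    ∃ Q γ τ', Branch U (τ₀, hd N e₀) H (cA D.m S₁ S₂ T) (cj S₁ S₂ T) (cσ S₁ S₂) (cL S₁ S₂)
      Q γ τ' := by
  choose b ε b0 e0 hs sg using fun n => seq_curve hc h.L₁ h.L₂ (hg n) (seq_tau h n).1
    (seq_tau h n).2 (h.hX n) (h.hY n) (h.r₁ n) (h.r₂ n) (h.rad n).2.2
  obtain ⟨Q, K, hQ⟩ := scaled P S₁.M (2 * S₁.k)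
  obtain ⟨n₀, hn⟩ := eventually_atTop.1 (h.lim.eventually (eventually_eventually_nhds.2 ch.uniq))
  have key : ∀ n ≥ n₀, ∀ᶠ s in 𝓝 (τ n : ℂ), (s, hd N (ε n s)) ∈ U ∧
      T (b n s, (s, hd N (ε n s))) = ε n s ∧ H (b n s, (s, hd N (ε n s))) = 0 ∧
      ∀ i, EM (cL S₁ S₂) (cj S₁ S₂ T) (cσ S₁ S₂) i (b n s, (s, hd N (ε n s))) = 0 := by
    intro n h1
    have h2 := hn n h1
    rw [← e0 n] at h2
    filter_upwards [(continuousAt_id.prodMk (hs n).self_of_nhds.2.1.continuousAt).eventually h2,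
      hs n] with s a1 ⟨_, _, a2, a3, a4, a5, _⟩
    obtain ⟨a6, a7⟩ := a1.2 _ (ball_subset_closedBall a2) a3
    refine ⟨a1.1, a6, a7, fun i => ?_⟩
    have a6 : T (b n s, (s, hd N (ε n s))) = ε n s := a6
    simp only [EM, cj, cσ, cL, a6]
    split_ifs with hi
    exacts [a5 i hi, a4 i ((hc.hI i).2 hi)]
  refine ⟨Q, fun n s => (b (n + n₀) s, (s, hd N (ε (n + n₀) s))), fun n => τ (n + n₀), ?_,
    fun n => (h.hτ _).1, fun n => ⟨(hs _).self_of_nhds.2.2.1,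
      (key _ (Nat.le_add_left _ _)).self_of_nhds.1⟩, fun n i => ?_,
    fun n i => ⟨_, pow_pos (h.hτ (n + n₀)).1 _, (Complex.ofReal_pow _ _).symm⟩, fun n => ?_,
    fun n => ?_, fun n => ?_, fun n i i' hi => ?_⟩
  · simp only [b0, e0]
    exact (h.limb.prodMk_nhds (h.lim.fst_nhds.prodMk_nhds
      (((seq_hd N).continuous.tendsto _).comp h.lim.snd_nhds))).comp (tendsto_add_atTop_nat n₀)
  · obtain ⟨r, a1, -, a2⟩ := seq_ball hc (h.r₁ (n + n₀)) (h.r₂ (n + n₀)) i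
    exact ⟨r, a1, by simp only [b0, a2]⟩
  · obtain ⟨a1, a2, a3, a4⟩ := (key _ (Nat.le_add_left n₀ n)).self_of_nhds
    refine seq_reg hc ch mc (hs _).self_of_nhds.2.2.1 a1 (seq_tau h _).1 a3 a4 fun de a5 => ?_
    rw [a2, b0, e0] at a5
    exact seq_ker hc h.L₁ h.L₂ (hg _).reg (seq_tau h _).1 (seq_tau h _).2 (h.hX _) (h.hY _)
      (h.r₁ _) (h.r₂ _) (h.rad _).1 (h.rad _).2.1 ((fs_seq hc h).1 _).2 a5
  · obtain ⟨a, a1, a2⟩ := (hs (n + n₀)).self_of_nhds.2.2.2.2.2.2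
    simp only [cA, (key _ (Nat.le_add_left n₀ n)).self_of_nhds.2.1, a2]
    intro a3
    have a4 := (hQ (τ (n + n₀)) a).2
    rw [a3, mul_zero, (seq_tau h _).2] at a4
    rw [(seq_tau h _).2] at a1
    exact mul_ne_zero (pow_ne_zero _ (seq_tau h _).1) (hB.2 _ _ a1 (hδ _)) a4.symm
  · filter_upwards [key _ (Nat.le_add_left n₀ n), hs (n + n₀)]
      with s ⟨_, a2, a3, a4⟩ ⟨a5, a6, _, _, _, _, a, a7, a8⟩
    refine ⟨a5.prodMk (differentiableAt_id.prodMk ((seq_hd N (ε (n + n₀) s)).comp s a6)), rfl, a3, a4, ?_⟩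
    simp only [cA, a2, a8, (hQ s a).1, a7, mul_zero]
  · obtain ⟨a1, a2, a3⟩ := h.two i i' hi
    exact sg _ a1 a2 (a3 _) i

end Pool.Agent.MP_098ecc_co.H97
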