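import Pool.Agent.MP_098ecc_co.H97.Seq
import Pool.Agent.MP_098ecc_co.H97.MidB
import Pool.Agent.MP_098ecc_co.H97.Disc

set_option autoImplicit false

namespace Pool.Agent.MP_098ecc_co.H97

open Metric Filter Topology Set Function
open scoped BoundedContinuousFunction

variable {κ W₁ W₂ : Type} [Fintype κ] [DecidableEq κ] [NormedAddCommGroup W₁] [NormedSpace ℂ W₁]
  [FiniteDimensional ℂ W₁] [NormedAddCommGroup W₂] [NormedSpace ℂ W₂] [FiniteDimensional ℂ W₂]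
  {S₁ : Side κ W₁} {S₂ : Side κ W₂}

theorem delta_ev {δ : Polynomial ℚ} (h : δ ≠ 0) (t₀ : ℝ) :
    ∀ᶠ t in 𝓝[≠] t₀, Polynomial.aeval ((t : ℝ) : ℂ) δ ≠ 0 := by
  have h1 : (δ.rootSet ℂ).Finite := δ.rootSet_finite ℂ
  have h2 : (((↑) : ℝ → ℂ) ⁻¹' δ.rootSet ℂ).Finite :=
    h1.preimage Complex.ofReal_injective.injOn
  filter_upwards [nhdsNE_le_cofinite t₀ h2.compl_mem_cofinite] with t ht h0
  exact ht (Polynomial.mem_rootSet.2 ⟨h, h0⟩)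

theorem seqD_shift {D : Dat} {τ₀ : ℂ} {e₀ : Ful W₁ W₂} {p : ℕ → Amb} {τ : ℕ → ℝ}
    {e : ℕ → Ful W₁ W₂} (L₁ : S₁.L = D.L₁) (L₂ : S₂.L = D.L₂) (m₁ : P₁ τ₀ e₀ ∈ S₁.U)
    (m₂ : P₂ τ₀ e₀ ∈ S₂.U) (pos : ∀ n, Pos D (p n)) (hτ : ∀ n, 0 < τ n ∧ τ n ^ S₁.M = (p n).t)
    (hX : ∀ᶠ n in atTop, un S₁.Rin (e n).2.2.1 = ((τ n : ℂ) ^ S₁.k) • (p n).cX)
    (hY : ∀ᶠ n in atTop, un S₂.Rin (e n).2.2.2 = (p n).cY)
    (r₁ : ∀ᶠ n in atTop, IsReal D.m S₁ (τ n) (e n).1 (e n).2.2.1 (p n).z₁ ((p n).B₁ D))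
    (r₂ : ∀ᶠ n in atTop, IsReal D.m S₂ (τ n) (e n).2.1 (e n).2.2.2 (p n).z₂ ((p n).B₂ D))
    (lim : Tendsto (fun n => ((τ n : ℂ), e n)) atTop (𝓝 (τ₀, e₀)))
    (limb : Tendsto (fun n => bOf D S₂ (p n)) atTop (𝓝 1))
    (rad : ∀ᶠ n in atTop, (p n).z₁ < S₁.Rin ∧ (p n).z₂ < S₂.Rin ∧
      (S₁.Rin * (p n).z₂ ≤ 1 ∨ S₂.Rin * (p n).z₁ ≤ 1))
    (two : ∀ i i' : κ, i ≠ i' → S₁.M = 1 ∧ S₁.k = 0 ∧ ∀ᶠ n in atTop, (p n).z₁ * (p n).z₂ < 1) :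
    ∃ N, SeqD D S₁ S₂ τ₀ e₀ (fun n => p (n + N)) (fun n => τ (n + N)) fun n => e (n + N) := by
  have h2 : ∀ᶠ n in atTop, ∀ i i' : κ, i ≠ i' → (p n).z₁ * (p n).z₂ < 1 := by
    refine eventually_all.2 fun i => eventually_all.2 fun i' => ?_
    by_cases h : i = i'
    · exact Eventually.of_forall fun n h' => absurd h h'
    · exact (two i i' h).2.2.mono fun n hn _ => hn
  obtain ⟨N, hN⟩ := eventually_atTop.1 (hX.and (hY.and (r₁.and (r₂.and (rad.and h2)))))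
  have hs : Tendsto (fun n => n + N) atTop atTop := tendsto_add_atTop_nat N
  have hN' := fun n => hN (n + N) (Nat.le_add_left N n)
  exact ⟨N, L₁, L₂, m₁, m₂, fun n => pos _, fun n => hτ _, fun n => (hN' n).1,
    fun n => (hN' n).2.1, fun n => (hN' n).2.2.1, fun n => (hN' n).2.2.2.1, lim.comp hs,
    limb.comp hs, fun n => (hN' n).2.2.2.2.1, fun i i' h =>
      ⟨(two i i' h).1, (two i i' h).2.1, fun n => (hN' n).2.2.2.2.2 i i' h⟩⟩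

theorem wend_curve {B Z F : Type} [NormedAddCommGroup B] [NormedSpace ℂ B] [NormedAddCommGroup Z]
    [NormedSpace ℂ Z] [NormedAddCommGroup F] [NormedSpace ℂ F] {U : Set Z} (hU : IsOpen U)
    {f : B × Z → F} (hf : Reg U f) {b : B} (hb : b ∈ closedBall (0 : B) 1) {γ : ℂ → Z} {s : ℂ}
    {d : Z} (hγ : HasDerivAt γ d s) (hz : γ s ∈ U) :
    HasDerivAt (fun u => f (b, γ u)) (lineDeriv ℂ f (b, γ s) (0, d)) s := by
  obtain ⟨h1, h2⟩ := hf.hasLine_frz hU hb hz d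
  rw [h2.lineDeriv]
  exact h1.comp_hasDerivAt s hγ

theorem wend_E {W : Type} [NormedAddCommGroup W] [NormedSpace ℂ W] (S : Side κ W) (i : κ)
    {b : κ → ℂ} (hb : b ∈ closedBall (0 : κ → ℂ) 1) {γ : ℂ → ℂ × W × BS} {s : ℂ}
    {d : ℂ × W × BS} (hγ : HasDerivAt γ d s) (h0 : ∀ᶠ u in 𝓝 s, S.E i (b, γ u) = 0) :
    lineDeriv ℂ (S.E i) (b, γ s) (0, d) = 0 := by
  set g : (κ → ℂ) × (ℂ × W × BS) → ℂ := fun q => S.j q.2.2.1 - q.2.1 ^ S.M * Jf S.L (b i) with hg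
  have rg : Reg univ g := Reg.of_diff _ (by simp only [hg]; fun_prop)
  have h1 := wend_curve isOpen_univ rg hb hγ (mem_univ _)
  have h2 : lineDeriv ℂ (S.E i) (b, γ s) (0, d) = lineDeriv ℂ g (b, γ s) (0, d) := by
    unfold lineDeriv
    congr 1
    funext t
    simp [hg, Side.E]
  rw [h2]
  have h3 : (fun u => g (b, γ u)) =ᶠ[𝓝 s] fun _ => 0 := h0
  exact h1.unique ((hasDerivAt_const s (0 : ℂ)).congr_of_eventuallyEq h3)

theorem wend_EM {Z : Type} [NormedAddCommGroup Z] [NormedSpace ℂ Z] {m : ℕ} (hc : Compat m S₁ S₂)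
    (T : (κ → ℂ) × (ℂ × Z) → Ful W₁ W₂) (q : (κ → ℂ) × (ℂ × Z))
    (h : ∀ i, EM (cL S₁ S₂) (cj S₁ S₂ T) (cσ S₁ S₂) i q = 0) :
    (∀ i ∈ S₁.I, S₁.E i (q.1, P₁ q.2.1 (T q)) = 0) ∧
      ∀ i ∈ S₂.I, S₂.E i (q.1, P₂ q.2.1 (T q)) = 0 := by
  constructor
  · intro i hi
    have h1 := (hc.hI i).1 hi
    simpa [EM, cL, cj, cσ, Side.E, h1] using h i
  · intro i hi
    simpa [EM, cL, cj, cσ, Side.E, hi] using h i

theorem wend_hd (N : ℕ) : hd N (0 : Ful W₁ W₂) = 0 := by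
  rw [← chPi_eq, map_zero]

theorem wendA [Nonempty κ] (hE : EndThm κ) {D : Dat} {P δ} (hB : Bez P δ)
    (hc : Compat D.m S₁ S₂) {τ₀ : ℂ} {e₀ : Ful W₁ W₂} {p τ e} (h : SeqD D S₁ S₂ τ₀ e₀ p τ e)
    (hg : ∀ n, Good D P (p n)) (hδ : ∀ n, Polynomial.aeval ((p n).t : ℂ) δ ≠ 0)
    (b₁ : BasePos S₁ (P₁ τ₀ e₀) e₀.2.2.2) (b₂ : BasePos S₂ (P₂ τ₀ e₀) e₀.2.2.1) (hτ : τ₀ ≠ 0)
    (sp : ∀ i, Sparse (cL S₁ S₂ i)) (iso : IsoHyp S₁ S₂ τ₀ e₀) :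
    ∃ i, H85.EvPer (cL S₁ S₂ i) := by
  have h0 := (fs_seq hc h).2
  obtain ⟨N, U, T, H, β, Λ, ch, mc⟩ := chartM hc h0 b₁ b₂
  obtain ⟨Q, γ, τ', br⟩ := seq hB hc h hg hδ ch mc
  have one : (1 : κ → ℂ) ∈ closedBall (0 : κ → ℂ) 1 := midB_one
  suffices hs : ∀ᶠ z in 𝓝[≠] (τ₀, hd N e₀), ¬ (H (1, z) = 0 ∧
      ∀ i, EM (cL S₁ S₂) (cj S₁ S₂ T) (cσ S₁ S₂) i (1, z) = 0) by
    obtain ⟨i, hi⟩ := midA hE mc br sp hs
    exact ⟨i, win_J hi⟩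
  by_contra hcon
  have acc : ∃ᶠ z in 𝓝[≠] (τ₀, hd N e₀), (fun z => (H (1, z),
      fun i => EM (cL S₁ S₂) (cj S₁ S₂ T) (cσ S₁ S₂) i (1, z))) z = 0 := by
    refine (not_eventually.1 hcon).mono fun z hz => ?_
    obtain ⟨h1, h2⟩ := not_not.1 hz
    exact Prod.ext h1 (funext h2)
  have hh : DifferentiableOn ℂ (fun z => (H (1, z),
      fun i => EM (cL S₁ S₂) (cj S₁ S₂ T) (cσ S₁ S₂) i (1, z))) U := by
    refine (ch.rH.frz 1 one).prodMk (differentiableOn_pi.2 fun i => ?_)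
    have h1 : DifferentiableOn ℂ (fun z : ℂ × Red W₁ W₂ N => cσ S₁ S₂ i z.1) U :=
      ((mc.dσ i).comp differentiable_fst).differentiableOn
    exact ((mc.rj i).frz 1 one).sub (h1.mul_const (Jf (cL S₁ S₂ i) 1))
  have hT : Tendsto (fun z : ℂ × Red W₁ W₂ N => (z.1, T (1, z))) (𝓝 (τ₀, hd N e₀))
      (𝓝 (τ₀, e₀)) := by
    have h1 : ContinuousAt (fun z => T (1, z)) (τ₀, hd N e₀) :=
      ((ch.rT.frz 1 one).differentiableAt (ch.op.mem_nhds ch.mem)).continuousAt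
    have h2 := (continuousAt_fst (p := (τ₀, hd N e₀))).prodMk h1
    rw [ContinuousAt, ch.base] at h2
    exact h2
  have hN := (ch.op.eventually_mem ch.mem).and
    ((hT.eventually (tau_zero hc h0 hτ b₁ b₂ sp)).and (hT.eventually iso))
  obtain ⟨c, hc1, hc2⟩ := disc ch.op hh ch.mem acc _ hN
  have key : ∀ᶠ s in 𝓝 (0 : ℂ), HasDerivAt (fun u => T (1, c u))
        (lineDeriv ℂ T (1, c s) (0, deriv c s)) s ∧
      hd N (lineDeriv ℂ T (1, c s) (0, deriv c s)) = (deriv c s).2 ∧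
      TS S₁ S₂ 1 (c s).1 (T (1, c s)) 0 (deriv c s).1 (lineDeriv ℂ T (1, c s) (0, deriv c s)) ∧
      (deriv c s).1 = 0 := by
    filter_upwards [hc1.eventually_nhds] with s hs
    obtain ⟨d1, ⟨u1, z1, -⟩, f1⟩ := hs.self_of_nhds
    have hH : H (1, c s) = 0 := congrArg Prod.fst f1
    have dT := wend_curve ch.op ch.rT one d1.hasDerivAt u1
    have dH := wend_curve ch.op ch.rH one d1.hasDerivAt u1
    have e1 : (fun u => H (1, c u)) =ᶠ[𝓝 s] fun _ => 0 :=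
      hs.mono fun u hu => congrArg Prod.fst hu.2.2
    have l0 := dH.unique ((hasDerivAt_const s _).congr_of_eventuallyEq e1)
    obtain ⟨t1, t2⟩ := ch.tan 1 one _ u1 hH 0 (deriv c s) (Or.inr rfl) l0
    refine ⟨dT, t1, t2, z1 _ _ (ch.sol 1 one _ u1 hH) t2 (fun i hi => ?_) fun i hi => ?_⟩
    · have e2 : ∀ᶠ u in 𝓝 s, S₁.E i (1, P₁ (c u).1 (T (1, c u))) = 0 := hs.mono fun u hu =>
        (wend_EM hc T (1, c u) fun k => congrFun (congrArg Prod.snd hu.2.2) k).1 i hi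
      refine ⟨e2.self_of_nhds, wend_E S₁ i one (γ := fun u => P₁ (c u).1 (T (1, c u))) ?_ e2⟩
      exact (chart_fst d1.hasDerivAt).prodMk
        ((chart_fst dT).prodMk (chart_fst (chart_snd (chart_snd dT))))
    · have e2 : ∀ᶠ u in 𝓝 s, S₂.E i (1, P₂ (c u).1 (T (1, c u))) = 0 := hs.mono fun u hu =>
        (wend_EM hc T (1, c u) fun k => congrFun (congrArg Prod.snd hu.2.2) k).2 i hi
      refine ⟨e2.self_of_nhds, wend_E S₂ i one (γ := fun u => P₂ (c u).1 (T (1, c u))) ?_ e2⟩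
      exact (chart_fst d1.hasDerivAt).prodMk
        ((chart_fst (chart_snd dT)).prodMk (chart_snd (chart_snd (chart_snd dT))))
  have cst : ∀ᶠ s in 𝓝 (0 : ℂ), (c s).1 = (c 0).1 := by
    obtain ⟨r, hr, hb⟩ := Metric.eventually_nhds_iff_ball.1 (hc1.and key)
    filter_upwards [ball_mem_nhds (0 : ℂ) hr] with s hs
    refine isOpen_ball.is_const_of_deriv_eq_zero (convex_ball (0 : ℂ) r).isPreconnected
      (f := fun s => (c s).1) (fun u hu => ?_) (fun u hu => ?_) hs (mem_ball_self hr)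
    · exact (chart_fst (hb u hu).1.1.hasDerivAt).differentiableAt.differentiableWithinAt
    · exact (chart_fst (hb u hu).1.1.hasDerivAt).deriv.trans (hb u hu).2.2.2.2
  obtain ⟨-, ⟨-, -, i0⟩, -⟩ := hc1.self_of_nhds
  obtain ⟨k1, k2, -, k4⟩ := key.self_of_nhds
  have d0 : deriv (fun u => T (1, c u)) 0 = 0 := by
    refine i0 _ rfl ?_
    filter_upwards [hc1, key, cst] with s h1 h2 h3
    obtain ⟨e1, e2⟩ := wend_EM hc T (1, c s) fun k => congrFun (congrArg Prod.snd h1.2.2) k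
    have f1 := ch.sol 1 one _ h1.2.1.1 (congrArg Prod.fst h1.2.2)
    have t1 := h2.2.2.1
    rw [h2.2.2.2, ← h2.1.deriv] at t1
    simp only [h3] at e1 e2 f1 t1
    exact ⟨h2.1.differentiableAt, f1, e1, e2, t1⟩
  rw [← k1.deriv, d0, wend_hd] at k2
  exact hc2 (Prod.ext k4 k2.symm)

theorem wendB [Nonempty κ] (hE : EndThm κ) {D : Dat} {P δ} (hB : Bez P δ)
    (hc : Compat D.m S₁ S₂) {e₀ : Ful W₁ W₂} {p τ e} (h : SeqD D S₁ S₂ 0 e₀ p τ e)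
    (hg : ∀ n, Good D P (p n)) (hδ : ∀ n, Polynomial.aeval ((p n).t : ℂ) δ ≠ 0)
    (b₁ : BasePos S₁ (P₁ 0 e₀) e₀.2.2.2) (b₂ : BasePos S₂ (P₂ 0 e₀) e₀.2.2.1)
    (j₁ : ∀ i ∈ S₁.I, S₁.j e₀.1 ≠ 0) (j₂ : ∀ i ∈ S₂.I, S₂.j e₀.2.1 ≠ 0)
    (ker : KerHyp S₁ S₂ e₀) : ∃ i, H85.EvPer (cL S₁ S₂ i) := by
  have h0 := (fs_seq hc h).2
  obtain ⟨N, U, T, H, β, Λ, ch, mc⟩ := chartM hc h0 b₁ b₂
  obtain ⟨Q, γ, τ', br⟩ := seq hB hc h hg hδ ch mc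
  have one : (1 : κ → ℂ) ∈ closedBall (0 : κ → ℂ) 1 := midB_one
  have hσ : ∀ i, cσ S₁ S₂ i ((0 : ℂ), hd N e₀).1 = 0 := fun i => by
    have h1 := hc.M₁
    have h2 := hc.M₂
    unfold cσ
    refine zero_pow ?_
    split_ifs <;> omega
  have hj : ∀ i, cj S₁ S₂ T i (1, ((0 : ℂ), hd N e₀)) ≠ 0 := fun i => by
    unfold cj
    rw [ch.base]
    split_ifs with hi
    · exact j₂ i hi
    · exact j₁ i ((hc.hI i).2 hi)
  have hi : Injective (fderiv ℂ (fun v => H (1, (((0 : ℂ), hd N e₀).1, v)))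
      ((0 : ℂ), hd N e₀).2) := by
    refine (injective_iff_map_eq_zero _).2 fun dv hdv => ?_
    have c1 : HasDerivAt (fun s : ℂ => hd N e₀ + s • dv) dv 0 := by
      simpa using ((hasDerivAt_id (0 : ℂ)).smul_const dv).const_add (hd N e₀)
    have c2 : HasDerivAt (fun s : ℂ => ((0 : ℂ), hd N e₀ + s • dv)) (0, dv) 0 :=
      (hasDerivAt_const _ _).prodMk c1
    have c3 := wend_curve ch.op ch.rH one c2 (by simpa using ch.mem)
    have c4 : DifferentiableAt ℂ (fun v => H (1, ((0 : ℂ), v))) (hd N e₀) :=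
      ((ch.rH.frz 1 one).differentiableAt (ch.op.mem_nhds ch.mem)).comp (hd N e₀)
        (g := fun z => H (1, z)) (by fun_prop)
    have c5 := c4.hasFDerivAt.comp_hasDerivAt_of_eq (0 : ℂ) c1 (by simp)
    have c6 := c3.unique c5
    rw [hdv, zero_smul, add_zero] at c6
    obtain ⟨t1, t2⟩ := ch.tan 1 one _ ch.mem mc.base 0 (0, dv) (Or.inr rfl) c6
    rw [ch.base] at t2
    rw [ker h0 _ t2, wend_hd] at t1
    exact t1.symm
  obtain ⟨i, hi⟩ := midB hE mc br hσ hj hi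
  exact ⟨i, win_J hi⟩

end Pool.Agent.MP_098ecc_co.H97
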